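import Pool.Agent.Lib.MP_2619d0_ag.Q5.CDefs

/-!
Row 2619q5-G2: general position 1
-/

set_option autoImplicit false

namespace MP2619.Q5

open scoped NNReal
open IntermediateField MP2619.R MP2619.N Pool.Agent.Lib.MP_2619d0_ag Pool.Agent.Lib.MP_2619d0_ag.T

variable {k0 B N : Type} [Field k0] [Field B] [Field N] [Algebra k0 B] [Algebra B N] [Algebra k0 N]
  [IsScalarTower k0 B N]

private theorem G2_basis0 {B κ : Type} [Field B] [Field κ] [Algebra B κ] (E : Set κ) (D : ℕ)
    (hD : ¬ Algebra.trdeg B (adjoin B E) ≤ D) :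
    ∃ b : Fin (D + 1) → κ, (∀ i, b i ∈ E) ∧ AlgebraicIndependent B b := by
  set t : Set (adjoin B E) := Subtype.val ⁻¹' E with ht
  have h1 : adjoin B t = ⊤ := by
    apply lift_injective (adjoin B E)
    rw [lift_adjoin, lift_top]
    congr 1
    ext x
    constructor
    · rintro ⟨y, hy, rfl⟩
      exact hy
    · intro hx
      exact ⟨⟨x, subset_adjoin _ _ hx⟩, hx, rfl⟩
  have h2 : Algebra.IsAlgebraic (adjoin B t) (adjoin B E) := by
    refine ⟨fun x => ?_⟩
    have hx : x ∈ adjoin B t := by
      rw [h1]; exact mem_top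
    exact isAlgebraic_algebraMap (⟨x, hx⟩ : adjoin B t)
  have h3 : Algebra.IsAlgebraic (Algebra.adjoin B t) (adjoin B E) := by
    open scoped IntermediateField.algebraAdjoinAdjoin in
    exact (IsFractionRing.comap_isAlgebraic_iff (A := Algebra.adjoin B t)
      (K := adjoin B t) (C := adjoin B E)).2 h2
  obtain ⟨s, hs1, hs2⟩ := exists_isTranscendenceBasis_subset (R := B) t
  have h4 := hs2.cardinalMk_eq_trdeg
  have h5 : ((D + 1 : ℕ) : Cardinal) ≤ Cardinal.mk s := by
    rw [h4]
    rw [not_le] at hD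
    have := Order.succ_le_of_lt hD
    rw [Cardinal.succ_natCast] at this
    exact_mod_cast this
  have h6 : Cardinal.mk (Fin (D + 1)) ≤ Cardinal.mk s := by
    simpa using h5
  obtain ⟨e⟩ := h6
  refine ⟨fun i => ((e i : adjoin B E) : κ), fun i => hs1 (e i).2, ?_⟩
  have h7 := hs2.1.comp e e.injective
  exact h7.map' (f := (adjoin B E).val) (adjoin B E).val.injective

omit [Algebra k0 B] [IsScalarTower k0 B N] in
private theorem G2_basis (K0 : IntermediateField k0 N) (D : ℕ)
    (hD : ¬ Algebra.trdeg B (adjoin B (K0 : Set N)) ≤ D) :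
    ∃ b : Fin (D + 1) → K0, AlgebraicIndependent B (fun i => (b i : N)) := by
  obtain ⟨b, hb, hb2⟩ := G2_basis0 (K0 : Set N) D hD
  exact ⟨fun i => ⟨b i, hb i⟩, hb2⟩

/-- a transcendence basis of `adjoin B K0` over `B` can be chosen in `K0`, and it is independent over `k0` -/
theorem trdeg_adjoin_le (K0 : IntermediateField k0 N) (D : ℕ) (h : Algebra.trdeg k0 K0 ≤ D) :
    Algebra.trdeg B (adjoin B (K0 : Set N)) ≤ D := by
  by_contra hD
  obtain ⟨b, hb⟩ := G2_basis K0 D hD
  have h1 : AlgebraicIndependent k0 (fun i => (b i : N)) :=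
    hb.restrictScalars (algebraMap k0 B).injective
  have h2 : AlgebraicIndependent k0 b := AlgebraicIndependent.of_comp K0.val h1
  have h3 := h2.lift_cardinalMk_le_trdeg
  have h4 : ((D + 1 : ℕ) : Cardinal) ≤ Algebra.trdeg k0 K0 := by
    simpa using h3
  have h5 := h4.trans h
  have h6 : D + 1 ≤ D := by exact_mod_cast h5
  omega

/-- There are `b : Fin (m + 1) → K0` algebraically independent over `B`. Then `(b, c)` is algebraically independent over
`k0` (first `c` over `k0` in `B`, then `b` over `B`). `K0` is algebraic over `k0(b)` by `h`, so `c` is algebraically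
independent over `K0`. -/
theorem GP1 (K0 : IntermediateField k0 N) (m : ℕ) (h : Algebra.trdeg k0 K0 ≤ (m + 1 : ℕ))
    (hn : ¬ Algebra.trdeg B (adjoin B (K0 : Set N)) ≤ m) {ι : Type} [Finite ι] (c : ι → B)
    (hc : AlgebraicIndependent k0 c) :
    AlgebraicIndependent K0 (fun i => algebraMap B N (c i)) := by
  obtain ⟨b, hb⟩ := G2_basis K0 m hn
  have h1 : AlgebraicIndependent k0 (fun i => (b i : N)) :=
    hb.restrictScalars (algebraMap k0 B).injective
  have h2 : AlgebraicIndependent k0 b := AlgebraicIndependent.of_comp K0.val h1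
  have h3 : IsTranscendenceBasis k0 b := by
    refine h2.isTranscendenceBasis_of_trdeg_le_of_finite ?_
    rw [Cardinal.mk_fin]
    exact h
  have h4 : Algebra.IsAlgebraic (Algebra.adjoin k0 (Set.range b)) K0 := h3.isAlgebraic
  -- the pair
  have h5 : AlgebraicIndependent k0 (Sum.elim (fun i => (b i : N)) (algebraMap B N ∘ c)) :=
    hc.sumElim_comp hb
  have h6 : AlgebraicIndependent k0 (Sum.elim (algebraMap B N ∘ c) (fun i => (b i : N))) := by
    have h7 := h5.comp (Equiv.sumComm ι (Fin (m + 1))) (Equiv.injective _)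
    have h8 : Sum.elim (fun i => (b i : N)) (algebraMap B N ∘ c) ∘
        (Equiv.sumComm ι (Fin (m + 1))) = Sum.elim (algebraMap B N ∘ c) (fun i => (b i : N)) := by
      ext (i | i) <;> rfl
    rw [h8] at h7
    exact h7
  have h9 := (AlgebraicIndependent.sumElim_iff.1 h6).2
  have hmem : ∀ x : Algebra.adjoin k0 (Set.range b), ((x : K0) : N) ∈
      Algebra.adjoin k0 (Set.range (fun i => (b i : N))) := by
    intro x
    have h10 : K0.val x ∈ (Algebra.adjoin k0 (Set.range b)).map K0.val :=
      Subalgebra.mem_map.2 ⟨x, x.2, rfl⟩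
    rw [AlgHom.map_adjoin, ← Set.range_comp] at h10
    exact h10
  have h11 : AlgebraicIndependent (Algebra.adjoin k0 (Set.range b)) (algebraMap B N ∘ c) := by
    refine AlgebraicIndependent.of_ringHom_of_comp_eq
      (S := Algebra.adjoin k0 (Set.range (fun i => (b i : N)))) (B := N)
      (((K0.val.comp (Algebra.adjoin k0 (Set.range b)).val).codRestrict _ hmem :
        Algebra.adjoin k0 (Set.range b) →ₐ[k0] _) : Algebra.adjoin k0 (Set.range b) →+* _)
      (RingHom.id N) h9 ?_ ?_
    · intro x y hxy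
      have h12 := congrArg
        (Subtype.val : Algebra.adjoin k0 (Set.range (fun i => (b i : N))) → N) hxy
      exact Subtype.ext (Subtype.ext h12)
    · ext x
      rfl
  exact h11.extendScalars K0

end MP2619.Q5
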