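import Pool.Agent.Lib.MP_2619d0_ag.Q5.GDefs

/-!
Row 2619q5-G6: ratios
-/

set_option autoImplicit false

namespace MP2619.Q5

open scoped NNReal
open IntermediateField MP2619.R MP2619.N Pool.Agent.Lib.MP_2619d0_ag Pool.Agent.Lib.MP_2619d0_ag.T

open scoped IntermediateField.algebraAdjoinAdjoin in
private theorem G6_trdeg_adjoin_le {k L : Type} [Field k] [Field L] [Algebra k L] (S : Set L) :
    Algebra.trdeg k (IntermediateField.adjoin k S) ≤ Cardinal.mk S := by
  have h1 : Algebra.trdeg k (Algebra.adjoin k S) ≤ Cardinal.mk S := by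
    have h2 : Function.Surjective (MvPolynomial.aeval (fun s : S =>
        (⟨s.1, Algebra.subset_adjoin s.2⟩ : Algebra.adjoin k S)) :
          MvPolynomial S k →ₐ[k] Algebra.adjoin k S) := by
      rw [← AlgHom.range_eq_top, ← Algebra.adjoin_range_eq_range_aeval, eq_top_iff]
      rintro ⟨y, hy⟩ _
      have h3 : (Algebra.adjoin k (Set.range fun s : S =>
        (⟨s.1, Algebra.subset_adjoin s.2⟩ : Algebra.adjoin k S))).map
          (Algebra.adjoin k S).val = Algebra.adjoin k S := by
        rw [AlgHom.map_adjoin]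
        congr 1
        ext z
        constructor
        · rintro ⟨_, ⟨s, rfl⟩, rfl⟩
          exact s.2
        · intro hz
          exact ⟨_, ⟨⟨z, hz⟩, rfl⟩, rfl⟩
      have h4 := hy
      rw [← h3] at h4
      obtain ⟨y', hy', hyy⟩ := h4
      have : y' = ⟨y, hy⟩ := Subtype.ext hyy
      rw [← this]
      exact hy'
    have h3 := trdeg_le_of_surjective _ h2
    rwa [MvPolynomial.trdeg_of_isDomain, Cardinal.lift_id] at h3
  have h2 := _root_.trdeg_add_eq k (Algebra.adjoin k S) (A := IntermediateField.adjoin k S)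
  have h3 : Algebra.trdeg (Algebra.adjoin k S) (IntermediateField.adjoin k S) = 0 := by
    rw [_root_.trdeg_eq_zero_iff]
    infer_instance
  rw [← h2, h3, add_zero]
  exact h1

private theorem G6_trdeg_mono {k L : Type} [Field k] [Field L] [Algebra k L]
    {A B : IntermediateField k L} (h : A ≤ B) : Algebra.trdeg k A ≤ Algebra.trdeg k B :=
  _root_.trdeg_le_of_injective (IntermediateField.inclusion h)
    (IntermediateField.inclusion h).injective

private theorem G6_hom {k N : Type} [Field k] [Field N] [Algebra k N]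
    (F : MvPolynomial (Fin 5) k) {d : ℕ} (hF : F.IsHomogeneous d) (c : N) (q : Fin 5 → N) :
    MvPolynomial.aeval (fun i => c * q i) F = c ^ d * MvPolynomial.aeval q F := by
  rw [MvPolynomial.aeval_def, MvPolynomial.eval₂_eq', MvPolynomial.aeval_def,
    MvPolynomial.eval₂_eq', Finset.mul_sum]
  refine Finset.sum_congr rfl fun m hm => ?_
  have h1 : ∑ i, m i = d := by
    have h2 := hF.degree_eq_sum_deg_support hm
    rw [h2]
    rw [Finset.sum_subset (Finset.subset_univ m.support)]
    intro x _ hx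
    exact Finsupp.notMem_support_iff.1 hx
  have h3 : ∏ i, (c * q i) ^ m i = c ^ d * ∏ i, q i ^ m i := by
    rw [← h1, ← Finset.prod_pow_eq_pow_sum, ← Finset.prod_mul_distrib]
    exact Finset.prod_congr rfl fun i _ => mul_pow _ _ _
  rw [h3]
  ring

private theorem G6_aeval_mem {k N : Type} [Field k] [Field N] [Algebra k N]
    (E : IntermediateField k N) (F : MvPolynomial (Fin 5) k) (q : Fin 5 → N) (hq : ∀ i, q i ∈ E) :
    MvPolynomial.aeval q F ∈ E := by
  induction F using MvPolynomial.induction_on with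
  | C a =>
    rw [MvPolynomial.aeval_C]
    exact E.algebraMap_mem a
  | add p r hp hr =>
    rw [map_add]
    exact E.add_mem hp hr
  | mul_X p i hp =>
    rw [map_mul, MvPolynomial.aeval_X]
    exact E.mul_mem hp (hq i)

theorem exists_norm {M : Type} [Field M] (P : ValuationSubring M) {n : ℕ} (T : Fin n → M)
    (hT : T ≠ 0) : ∃ j, T j ≠ 0 ∧ ∀ i, T i / T j ∈ P := by
  obtain ⟨i0, hi0⟩ := Function.ne_iff.1 hT
  rw [Pi.zero_apply] at hi0
  obtain ⟨j, _, hj⟩ := Finset.exists_max_image Finset.univ (fun i => P.valuation (T i))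
    ⟨i0, Finset.mem_univ i0⟩
  have h1 : P.valuation (T j) ≠ 0 := by
    intro h2
    have h3 := hj i0 (Finset.mem_univ i0)
    rw [h2] at h3
    have h4 : P.valuation (T i0) = 0 := le_antisymm h3 zero_le
    exact hi0 ((map_eq_zero P.valuation).1 h4)
  refine ⟨j, fun h2 => h1 (by rw [h2, map_zero]), fun i => ?_⟩
  rw [← P.valuation_le_one_iff, map_div₀]
  exact div_le_one_of_le₀ (hj i (Finset.mem_univ i)) zero_le

/-- `c = x i / Y i ∈ P` for an `i` with `φ (Y i) ≠ 0` -/
theorem res_par {k M N : Type} [Field k] [Field M] [Field N] [Algebra k M] [Algebra k N]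
    {P : ValuationSubring M} {φ : P →+* N} (rm : RMap k P φ) {n : ℕ} (x Y : Fin n → P) (c : M)
    (hc : ∀ i, (x i : M) = c * (Y i : M)) (hY : ∃ i, φ (Y i) ≠ 0) :
    ∃ c0 : N, ∀ i, φ (x i) = c0 * φ (Y i) := by
  obtain ⟨i0, hi0⟩ := hY
  have h1 : P.valuation (Y i0 : M) = 1 := by
    refine le_antisymm ((P.valuation_le_one_iff _).2 (Y i0).2) (not_lt.1 fun h2 => hi0 ((rm.zero _).2 h2))
  have h2 : c ∈ P := by
    rw [← P.valuation_le_one_iff]
    have h3 : P.valuation (x i0 : M) = P.valuation c := by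
      rw [hc i0, map_mul, h1, mul_one]
    rw [← h3]
    exact (P.valuation_le_one_iff _).2 (x i0).2
  refine ⟨φ ⟨c, h2⟩, fun i => ?_⟩
  rw [← map_mul]
  congr 1
  exact Subtype.ext (hc i)

variable {k N : Type} [Field k] [Field N] [Algebra k N]

theorem rat_smul_le {n : ℕ} (c : N) (Y : Fin n → N) : rat k (fun i => c * Y i) ≤ rat k Y := by
  unfold rat
  rw [IntermediateField.adjoin_le_iff]
  rintro _ ⟨i, j, rfl⟩
  by_cases hc : c = 0
  · show c * Y i / (c * Y j) ∈ adjoin k {z : N | ∃ i j, z = Y i / Y j}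
    rw [hc, zero_mul, zero_mul, div_zero]
    exact zero_mem _
  · show c * Y i / (c * Y j) ∈ adjoin k {z : N | ∃ i j, z = Y i / Y j}
    rw [mul_div_mul_left _ _ hc]
    exact subset_adjoin _ _ ⟨i, j, rfl⟩

/-- if `p j ≠ 0`, `f i (p) / f l (p) = f i (p / p j) / f l (p / p j)` -/
theorem rat_fe_le (f : Fin 6 → MvPolynomial (Fin 5) k) {d : ℕ} (hd : ∀ i, (f i).IsHomogeneous d)
    (p : Fin 5 → N) : rat k (fe f p) ≤ rat k p := by
  by_cases hp : p = 0
  · have h0 : ∀ i, p i ∈ rat k p := by
      intro i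
      rw [hp, Pi.zero_apply]
      exact zero_mem _
    unfold rat
    rw [IntermediateField.adjoin_le_iff]
    rintro _ ⟨i, l, rfl⟩
    exact div_mem (G6_aeval_mem (rat k p) _ _ h0) (G6_aeval_mem (rat k p) _ _ h0)
  · obtain ⟨j, hj⟩ := Function.ne_iff.1 hp
    rw [Pi.zero_apply] at hj
    have h0 : ∀ i, (p j)⁻¹ * p i ∈ rat k p := by
      intro i
      rw [inv_mul_eq_div]
      exact subset_adjoin _ _ ⟨i, j, rfl⟩
    have h1 : ∀ i, fe f p i = p j ^ d * MvPolynomial.aeval (fun i => (p j)⁻¹ * p i) (f i) := by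
      intro i
      rw [← G6_hom (f i) (hd i) (p j)]
      unfold fe
      congr 2
      funext a
      rw [mul_inv_cancel_left₀ hj]
    have h2 : rat k (fe f p) ≤ rat k (fun i => MvPolynomial.aeval (fun i => (p j)⁻¹ * p i) (f i)) := by
      have h3 : fe f p = fun i => p j ^ d * MvPolynomial.aeval (fun i => (p j)⁻¹ * p i) (f i) :=
        funext h1
      rw [h3]
      exact rat_smul_le _ _
    refine h2.trans ?_
    conv_lhs => unfold rat
    rw [IntermediateField.adjoin_le_iff]
    rintro _ ⟨i, l, rfl⟩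
    exact div_mem (G6_aeval_mem (rat k p) _ _ h0) (G6_aeval_mem (rat k p) _ _ h0)

private theorem G6_range {m : ℕ} (b : Fin m → N) :
    Algebra.trdeg k (adjoin k (Set.range b)) ≤ m := by
  refine (G6_trdeg_adjoin_le (Set.range b)).trans ?_
  refine Cardinal.mk_range_le.trans ?_
  simp

/-- generated by `n` elements `p i / p j` (`p j ≠ 0` fixed, `i ≠ j`) -/
theorem trdeg_rat_le {n : ℕ} (p : Fin (n + 1) → N) : Algebra.trdeg k (rat k p) ≤ n := by
  by_cases hp : p = 0
  · have h1 : rat k p ≤ adjoin k (Set.range (fun _ : Fin n => (0 : N))) := by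
      unfold rat
      rw [IntermediateField.adjoin_le_iff]
      rintro _ ⟨i, j, rfl⟩
      rw [hp, Pi.zero_apply, zero_div]
      exact zero_mem _
    exact (G6_trdeg_mono h1).trans (G6_range _)
  · obtain ⟨j, hj⟩ := Function.ne_iff.1 hp
    rw [Pi.zero_apply] at hj
    have h1 : rat k p ≤ adjoin k (Set.range (fun i : Fin n => p (j.succAbove i) / p j)) := by
      have h2 : ∀ i, p i / p j ∈ adjoin k (Set.range (fun i : Fin n => p (j.succAbove i) / p j)) := by
        intro i
        rcases eq_or_ne i j with h3 | h3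
        · rw [h3, div_self hj]
          exact one_mem _
        · obtain ⟨i', rfl⟩ := Fin.exists_succAbove_eq h3
          exact subset_adjoin _ _ ⟨i', rfl⟩
      conv_lhs => unfold rat
      rw [IntermediateField.adjoin_le_iff]
      rintro _ ⟨a, b, rfl⟩
      have h4 : p a / p b = (p a / p j) / (p b / p j) := by
        rw [div_div_div_cancel_right₀ hj]
      rw [h4]
      exact div_mem (h2 a) (h2 b)
    exact (G6_trdeg_mono h1).trans (G6_range _)

theorem rat_base {k0 : Type} [Field k0] [Algebra k0 k] [Algebra k0 N] [IsScalarTower k0 k N]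
    {n : ℕ} (p : Fin n → N) : rat k p ≤ adjoin k (rat k0 p : Set N) := by
  conv_lhs => unfold rat
  rw [IntermediateField.adjoin_le_iff]
  rintro _ ⟨i, j, rfl⟩
  apply subset_adjoin
  show p i / p j ∈ rat k0 p
  exact subset_adjoin _ _ ⟨i, j, rfl⟩

/-- a field generated by `m` elements -/
theorem trdeg_adjoin_range {m : ℕ} (b : Fin m → N) :
    Algebra.trdeg k (adjoin k (Set.range b)) ≤ m := G6_range b

/-- a field generated by a finite set -/
theorem trdeg_adjoin_finset (s : Finset N) : Algebra.trdeg k (adjoin k (s : Set N)) ≤ s.card := by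
  refine (G6_trdeg_adjoin_le (s : Set N)).trans ?_
  simp

end MP2619.Q5
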