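import Pool.Agent.Lib.MP_2619d0_ag.Q5.CDefs

/-!
Row 2619q5-G1: residues and transcendence degree
-/

set_option autoImplicit false

namespace MP2619.Q5

open scoped NNReal
open IntermediateField MP2619.R MP2619.N Pool.Agent.Lib.MP_2619d0_ag Pool.Agent.Lib.MP_2619d0_ag.T

variable {k M N : Type} [Field k] [Field M] [Field N] [Algebra k M] [Algebra k N]
  {P : ValuationSubring M} {φ : P →+* N}

private theorem G1_eval (rm : RMap k P φ) {ι : Type} (a : ι → P) (Q : MvPolynomial ι k) :
    φ (MvPolynomial.eval₂ ((algebraMap k M).codRestrict P rm.cst) a Q) =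
      MvPolynomial.aeval (fun i => φ (a i)) Q := by
  rw [MvPolynomial.aeval_def]
  have h1 := MvPolynomial.eval₂_comp_left φ ((algebraMap k M).codRestrict P rm.cst) a Q
  have h2 : φ.comp ((algebraMap k M).codRestrict P rm.cst) = algebraMap k N :=
    RingHom.ext fun c => rm.alg c
  rw [h2] at h1
  exact h1

private theorem G1_small (rm : RMap k P φ) {ι : Type} (a : ι → P)
    (hb : AlgebraicIndependent k (fun i => φ (a i))) :
    ∀ z ∈ Algebra.adjoin k (Set.range (fun i => (a i : M))), z ∈ P ∧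
      (P.valuation z < 1 → z = 0) := by
  intro z hz
  rw [Algebra.adjoin_range_eq_range_aeval] at hz
  obtain ⟨Q, rfl⟩ := hz
  have h1 := eval_coe rm.cst a Q
  refine ⟨?_, ?_⟩
  · change MvPolynomial.aeval (fun i => (a i : M)) Q ∈ P
    rw [← h1]
    exact Subtype.coe_prop _
  · intro hv
    change P.valuation (MvPolynomial.aeval (fun i => (a i : M)) Q) < 1 at hv
    rw [← h1, ← rm.zero, G1_eval rm a Q] at hv
    have h0 : Q = 0 := by
      by_contra hne
      exact hne ((AlgebraicIndependent.eq_zero_of_aeval_eq_zero hb) Q hv)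
    rw [h0]
    simp

/-- see `indep_lift` (R/C4.lean); `aeval` commutes with the inclusion of `P` and with `φ` -/
theorem ind_lift (rm : RMap k P φ) {ι : Type} (a : ι → P)
    (h : AlgebraicIndependent k (fun i => φ (a i))) :
    AlgebraicIndependent k (fun i => (a i : M)) := by
  rw [algebraicIndependent_iff]
  intro Q hQ
  have h1 := eval_coe rm.cst a Q
  rw [hQ] at h1
  have h2 : MvPolynomial.eval₂ ((algebraMap k M).codRestrict P rm.cst) a Q = 0 :=
    Subtype.ext h1
  have h3 := G1_eval rm a Q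
  rw [h2, map_zero] at h3
  exact (AlgebraicIndependent.eq_zero_of_aeval_eq_zero h) Q h3.symm

/-- an independent family of residues, lifted to elements of `E` -/
private theorem G1_family (rm : RMap k P φ) (E : IntermediateField k M) (D : ℕ)
    (hD : ¬ Algebra.trdeg k (resI rm E) ≤ D) :
    ∃ a : Fin (D + 1) → P, (∀ i, (a i : M) ∈ E) ∧
      AlgebraicIndependent k (fun i => φ (a i)) := by
  obtain ⟨b, hb⟩ := card_of_not_le hD
  choose a haE ha using fun i => (mem_resI rm E (b i : N)).1 (b i).2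
  refine ⟨a, haE, ?_⟩
  have h1 := hb.map' (f := (resI rm E).val) (resI rm E).val.injective
  have h2 : (fun i => φ (a i)) = (resI rm E).val ∘ b := by
    funext i
    exact ha i
  rw [h2]
  exact h1

/-- `trdeg_res` (R/C4.lean) for `RMap` -/
theorem trdeg_resI (rm : RMap k P φ) (E : IntermediateField k M) (D : ℕ)
    (hE : Algebra.trdeg k E ≤ D) : Algebra.trdeg k (resI rm E) ≤ D := by
  by_contra hD
  obtain ⟨a, haE, hb'⟩ := G1_family rm E D hD
  have h1 := ind_lift rm a hb'
  have h2 : AlgebraicIndependent k (fun i => (⟨(a i : M), haE i⟩ : E)) := by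
    refine AlgebraicIndependent.of_comp E.val ?_
    exact h1
  have h3 := h2.lift_cardinalMk_le_trdeg
  have h4 : ((D + 1 : ℕ) : Cardinal) ≤ Algebra.trdeg k E := by
    simpa using h3
  have h5 := h4.trans hE
  have h6 : D + 1 ≤ D := by exact_mod_cast h5
  omega

/-- `trdeg_res_lt` (R/C4.lean) for `RMap` -/
theorem trdeg_resI_lt (rm : RMap k P φ) (E : IntermediateField k M) (D : ℕ)
    (hE : Algebra.trdeg k E ≤ (D + 1 : ℕ)) (p : M) (hp : p ∈ E) (hp0 : p ≠ 0)
    (hp1 : P.valuation p < 1) : Algebra.trdeg k (resI rm E) ≤ D := by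
  by_contra hD
  obtain ⟨a, haE, hb'⟩ := G1_family rm E D hD
  have h1 := ind_lift rm a hb'
  have h7 : Transcendental (Algebra.adjoin k (Set.range (fun i => (a i : M)))) p :=
    transc_adj _ (G1_small rm a hb') p hp0 hp1
  have h8 := (h1.option_iff_transcendental p).mpr h7
  have h2 : AlgebraicIndependent k
      (fun o : Option (Fin (D + 1)) => o.elim (⟨p, hp⟩ : E) (fun i => ⟨(a i : M), haE i⟩)) := by
    refine AlgebraicIndependent.of_comp E.val ?_
    have h9 : (E.val ∘ fun o : Option (Fin (D + 1)) =>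
        o.elim (⟨p, hp⟩ : E) (fun i => ⟨(a i : M), haE i⟩)) =
        fun o : Option (Fin (D + 1)) => o.elim p (fun i => (a i : M)) := by
      funext o
      cases o <;> rfl
    rw [h9]
    exact h8
  have h3 := h2.lift_cardinalMk_le_trdeg
  have h4 : ((D + 2 : ℕ) : Cardinal) ≤ Algebra.trdeg k E := by
    have h9 : ((Fintype.card (Option (Fin (D + 1))) : ℕ) : Cardinal) ≤ Algebra.trdeg k E := by
      simpa using h3
    rw [Fintype.card_option, Fintype.card_fin] at h9
    exact h9
  have h5 := h4.trans hE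
  have h6 : D + 2 ≤ D + 1 := by exact_mod_cast h5
  omega

/-- `rat_res` (R/C4.lean) for `RMap` -/
theorem rat_resI (rm : RMap k P φ) {n : ℕ} (y : Fin n → P) (E : IntermediateField k M)
    (hE : rat k (fun i => (y i : M)) ≤ E) : rat k (fun i => φ (y i)) ≤ resI rm E := by
  rw [rat, adjoin_le_iff]
  rintro _ ⟨i, j, rfl⟩
  change φ (y i) / φ (y j) ∈ resI rm E
  by_cases h0 : φ (y j) = 0
  · rw [h0, div_zero]
    exact (resI rm E).zero_mem
  · have h1 : P.valuation (y j : M) = 1 := by
      refine le_antisymm ((P.valuation_le_one_iff _).2 (y j).2)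
        (not_lt.1 fun h2 => h0 ((rm.zero _).2 h2))
    have h2 : ((y j : M)⁻¹) ∈ P := by
      rw [← P.valuation_le_one_iff, map_inv₀, h1, inv_one]
    have h3 : (y j : M) ≠ 0 := by
      intro h4
      rw [h4, map_zero] at h1
      exact zero_ne_one h1
    refine (mem_resI rm E _).2 ⟨y i * ⟨(y j : M)⁻¹, h2⟩, ?_, ?_⟩
    · have h4 : ((y i * ⟨(y j : M)⁻¹, h2⟩ : P) : M) = (y i : M) / (y j : M) := by
        rw [div_eq_mul_inv]
        rfl
      rw [h4]
      exact hE (subset_adjoin _ _ ⟨i, j, rfl⟩)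
    · have h4 : y j * ⟨(y j : M)⁻¹, h2⟩ = 1 := Subtype.ext (mul_inv_cancel₀ h3)
      have h5 : φ (y j) * φ ⟨(y j : M)⁻¹, h2⟩ = 1 := by rw [← map_mul, h4, map_one]
      rw [map_mul, eq_div_iff h0]
      linear_combination (φ (y i)) * h5

/-- fewer constants -/
theorem RMap.restrict {k0 : Type} [Field k0] [Algebra k0 k] [Algebra k0 M] [Algebra k0 N]
    [IsScalarTower k0 k M] [IsScalarTower k0 k N] (rm : RMap k P φ) : RMap k0 P φ where
  surj := rm.surj
  cst := fun b => by
    rw [IsScalarTower.algebraMap_apply k0 k M]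
    exact rm.cst _
  alg := fun b => by
    rw [IsScalarTower.algebraMap_apply k0 k N, ← rm.alg]
    congr 1
    exact Subtype.ext (IsScalarTower.algebraMap_apply k0 k M b)
  zero := rm.zero

end MP2619.Q5
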