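import Pool.Agent.Lib.MP_2619d0_ag.Q5.Defs0
import Pool.Agent.Lib.MP_2619d0_ag.R.D3

/-!
Row 2619q5-M6a: the main place
-/

set_option autoImplicit false

namespace MP2619.Q5

open scoped NNReal
open IntermediateField MP2619.R MP2619.N Pool.Agent.Lib.MP_2619d0_ag Pool.Agent.Lib.MP_2619d0_ag.T

/-- `place_at` (R/D3.lean) over the field `E` for `t = e`, `c = 0`: the residue map to `E` sends `a` to the unique `b ∈ E` with
`P0.valuation (a - b) < 1` (unique because the elements of `E` are in `P0`, so non-zero ones are units). -/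
theorem place0 {B M : Type} [Field B] [Field M] [Algebra B M] (E : IntermediateField B M) (e : M)
    (he : Transcendental E e) (hgen : adjoin E {e} = ⊤) :
    ∃ (P0 : ValuationSubring M) (φ : P0 →+* E), RMap B P0 φ ∧ DV P0 ∧ ord P0 e = 1 ∧
      P0.valuation e < 1 ∧ (∀ b : E, ∃ hb : (b : M) ∈ P0, φ ⟨(b : M), hb⟩ = b) ∧
      ∀ P : ValuationSubring M, (∀ b ∈ E, b ∈ P) → P.valuation e < 1 → P = P0 := by
  obtain ⟨O, hC, hD, hv, ho, hres, huniq⟩ :=
    MP2619.R.place_at (M := E) (M' := M) e he hgen 0
  rw [map_zero, sub_zero] at hv ho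
  have hmem : ∀ b : E, (b : M) ∈ O := fun b => hC b
  -- a non-zero element of E is a unit
  have hunit : ∀ b : E, O.valuation (b : M) < 1 → b = 0 := by
    intro b hb
    by_contra h0
    have h1 : (b : M) ≠ 0 := fun h => h0 (Subtype.ext h)
    have h2 : O.valuation ((b⁻¹ : E) : M) ≤ 1 := (O.valuation_le_one_iff _).mpr (hmem _)
    have h3 : O.valuation (b : M) * O.valuation ((b⁻¹ : E) : M) = 1 := by
      rw [← map_mul]
      have : (b : M) * ((b⁻¹ : E) : M) = 1 := by
        rw [IntermediateField.coe_inv]
        exact mul_inv_cancel₀ h1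
      rw [this, map_one]
    have h4 : O.valuation (b : M) * O.valuation ((b⁻¹ : E) : M) < 1 := by
      calc O.valuation (b : M) * O.valuation ((b⁻¹ : E) : M)
          ≤ O.valuation (b : M) * 1 := mul_le_mul_right h2 _
        _ < 1 := by rwa [mul_one]
    exact absurd h3 (ne_of_lt h4)
  have huq : ∀ (a : M) (b b' : E), O.valuation (a - (b : M)) < 1 → O.valuation (a - (b' : M)) < 1 →
      b = b' := by
    intro a b b' h1 h2
    have h3 : O.valuation ((b - b' : E) : M) < 1 := by
      have h4 : ((b - b' : E) : M) = (a - (b' : M)) - (a - (b : M)) := by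
        push_cast
        ring
      rw [h4]
      exact lt_of_le_of_lt (Valuation.map_sub _ _ _) (max_lt h2 h1)
    exact sub_eq_zero.mp (hunit _ h3)
  choose f hf using hres
  have hf' : ∀ a : O, O.valuation ((a : M) - ((f a : E) : M)) < 1 := fun a => hf a
  have hle : ∀ a : O, O.valuation (a : M) ≤ 1 := fun a => (O.valuation_le_one_iff _).mpr a.2
  have hleE : ∀ b : E, O.valuation (b : M) ≤ 1 := fun b => (O.valuation_le_one_iff _).mpr (hmem b)
  let φ : O →+* E :=
    { toFun := f
      map_one' := huq 1 _ _ (hf' 1) (by simp)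
      map_zero' := huq 0 _ _ (hf' 0) (by simp)
      map_add' := fun a b => huq ((a : M) + (b : M)) _ _ (hf' (a + b)) (by
        have h1 : (a : M) + (b : M) - ((f a + f b : E) : M)
            = ((a : M) - ((f a : E) : M)) + ((b : M) - ((f b : E) : M)) := by
          push_cast
          ring
        rw [h1]
        exact lt_of_le_of_lt (Valuation.map_add _ _ _) (max_lt (hf' a) (hf' b)))
      map_mul' := fun a b => huq ((a : M) * (b : M)) _ _ (hf' (a * b)) (by
        have h1 : (a : M) * (b : M) - ((f a * f b : E) : M)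
            = (a : M) * ((b : M) - ((f b : E) : M)) + ((a : M) - ((f a : E) : M)) * ((f b : E) : M) := by
          push_cast
          ring
        rw [h1]
        refine lt_of_le_of_lt (Valuation.map_add _ _ _) (max_lt ?_ ?_)
        · rw [map_mul]
          calc O.valuation (a : M) * O.valuation ((b : M) - ((f b : E) : M))
              ≤ 1 * O.valuation ((b : M) - ((f b : E) : M)) := mul_le_mul_left (hle a) _
            _ < 1 := by
              rw [one_mul]
              exact hf' b
        · rw [map_mul]
          calc O.valuation ((a : M) - ((f a : E) : M)) * O.valuation ((f b : E) : M)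
              ≤ O.valuation ((a : M) - ((f a : E) : M)) * 1 := mul_le_mul_right (hleE _) _
            _ < 1 := by
              rw [mul_one]
              exact hf' a) }
  have hφE : ∀ b : E, φ ⟨(b : M), hmem b⟩ = b := fun b =>
    huq (b : M) _ _ (hf' ⟨(b : M), hmem b⟩) (by
      rw [sub_self, map_zero]
      exact zero_lt_one)
  refine ⟨O, φ, ⟨fun b => ⟨⟨(b : M), hmem b⟩, hφE b⟩, fun b => ?_, fun b => ?_, fun a => ?_⟩,
    hD, ho, hv, fun b => ⟨hmem b, hφE b⟩, fun P h1 h2 => ?_⟩
  · exact hmem (algebraMap B E b)
  · exact hφE (algebraMap B E b)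
  · constructor
    · intro h
      have h1 := hf' a
      have h2 : f a = 0 := h
      rw [h2] at h1
      simpa using h1
    · intro h
      exact huq (a : M) _ _ (hf' a) (by simpa using h)
  · exact huniq P (fun b => h1 _ b.2) (by rwa [map_zero, sub_zero])

end MP2619.Q5
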