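import Pool.Agent.Lib.MP_2619d0_ag.Q5.E7g

/-!
# Row E8
-/

set_option autoImplicit false

namespace MP2619.Q5

universe v u

open IntermediateField MP2619.R MP2619.W

private theorem E8_ratq_le {k M : Type u} [Field k] [Field M] [Algebra k M] {n : ℕ} (q : Fin n → ℕ)
    (c : Fin n → k) (x : Fin n → M) :
    ratq k q (fun i => algebraMap k M (c i) * x i) ≤ ratq k q x := by
  unfold ratq
  rw [adjoin_le_iff]
  rintro z ⟨i, j, hij, rfl⟩
  have h1 : algebraMap k M (c i) * x i / (algebraMap k M (c j) * x j) =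
      algebraMap k M (c i / c j) * (x i / x j) := by
    rw [map_div₀, mul_div_mul_comm]
  show algebraMap k M (c i) * x i / (algebraMap k M (c j) * x j) ∈ _
  rw [h1]
  exact mul_mem (IntermediateField.algebraMap_mem _ _) (subset_adjoin _ _ ⟨i, j, hij, rfl⟩)

private theorem E8_ratq_eq {k M : Type u} [Field k] [Field M] [Algebra k M] {n : ℕ} (q : Fin n → ℕ)
    (c : Fin n → k) (hc : ∀ i, c i ≠ 0) (x : Fin n → M) :
    ratq k q (fun i => algebraMap k M (c i) * x i) = ratq k q x := by
  refine le_antisymm (E8_ratq_le q c x) ?_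
  have h := E8_ratq_le (k := k) q (fun i => (c i)⁻¹) (fun i => algebraMap k M (c i) * x i)
  have h2 : (fun i => algebraMap k M ((c i)⁻¹) * (algebraMap k M (c i) * x i)) = x := by
    funext i
    rw [← mul_assoc, ← map_mul, inv_mul_cancel₀ (hc i), map_one, one_mul]
  rw [h2] at h
  exact h

private theorem E8_pow_val {k : Type u} [Field k] {w : k} (h3 : w ^ 3 = 1) (a b : ZMod 3) :
    w ^ (a + b).val = w ^ a.val * w ^ b.val := by
  rw [ZMod.val_add, ← pow_add]
  conv_rhs => rw [← Nat.mod_add_div (a.val + b.val) 3, pow_add, pow_mul, h3, one_pow, mul_one]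

/-- the shift -/
private def E8_e : Fin 6 → ZMod 3 := fun i => if iI i = 0 then 1 else 0

private theorem E8_sum : ∑ i, E8_e i = 2 := by decide

private theorem E8_FD {k M : Type u} [Field k] [Field M] [Algebra k M] {w : k}
    {x y : Fin 6 → M} (hD : FD k w x y) (h3 : w ^ 3 = 1) (hw : w ≠ 0) (g : Fin 6 → ZMod 3) :
    FD k w (fun i => algebraMap k M (w ^ (g i).val) * x i) y where
  two := hD.two
  om := hD.om
  Fx c := by
    have h := hD.Fx c
    unfold cb at h ⊢
    refine Eq.trans (Finset.sum_congr rfl fun i _ => ?_) h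
    by_cases hi : qb i = c
    · rw [if_pos hi, if_pos hi, mul_pow, ← map_pow, ← pow_mul, mul_comm (g i).val 3, pow_mul, h3,
        one_pow, map_one, one_mul]
    · rw [if_neg hi, if_neg hi]
  Fy := hD.Fy
  small := by
    rw [E8_ratq_eq qb (fun i => w ^ (g i).val) (fun i => pow_ne_zero _ hw)]
    exact hD.small
  smallx := by
    rw [E8_ratq_eq qb (fun i => w ^ (g i).val) (fun i => pow_ne_zero _ hw)]
    exact hD.smallx

private theorem E8_step (hE : HE.{u}) {k M : Type u} [Field k] [Field M] [Algebra k M] {w : k}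
    {x y : Fin 6 → M} (hD : FD k w x y) (h3 : w ^ 3 = 1) (hw : w ≠ 0) (g : Fin 6 → ZMod 3)
    (hp : Pr k (zv w x y g)) : Pr k (zv w x y (g + E8_e)) := by
  have h := star_one hE (E8_FD hD h3 hw g) hp
  have h2 : (fun i => tw03 w (fun i => algebraMap k M (w ^ (g i).val) * x i) i + y i) =
      zv w x y (g + E8_e) := by
    funext i
    unfold tw03 zv E8_e
    simp only [Pi.add_apply]
    by_cases hi : iI i = 0
    · rw [if_pos hi, if_pos hi, E8_pow_val h3, ZMod.val_one, pow_one, ← mul_assoc, ← map_mul,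
        mul_comm w]
    · rw [if_neg hi, if_neg hi, add_zero]
  rw [h2] at h
  exact h

/-- Row E8. For `g : Fin 6 → ZMod 3` the data `w^g x`, `y` satisfy `FD` (the cubes and the field of the ratios do not change:
`w ∈ k`). So `Pr (zv g) → Pr (zv (g + e)) → Pr (zv (g + 2 e)) → Pr (zv g)`, `e = 1` at the coordinates `0`, `3` and `0`
elsewhere (`star_one`, `w ^ 3 = 1`). Replace `g` by `g + e` in `c2`: `c2 = w ^ 2 * c2` (`∑ (g + e) = ∑ g + 2`), so
`c2 = 0`. -/
theorem FinalC_of_HE (hE : HE.{u}) : FinalC.{u} := by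
  intro k M _ _ _ w x y hD
  have hw : w ≠ 0 := by
    intro h0
    have h := hD.om
    rw [h0] at h
    norm_num at h
  have h3 : w ^ 3 = 1 := by
    have h := hD.om
    linear_combination (w - 1) * h
  have hiff : ∀ g : Fin 6 → ZMod 3, Pr k (zv w x y (g + E8_e)) ↔ Pr k (zv w x y g) := by
    intro g
    refine ⟨fun h => ?_, E8_step hE hD h3 hw g⟩
    have h1 := E8_step hE hD h3 hw _ (E8_step hE hD h3 hw _ h)
    have h2 : g + E8_e + E8_e + E8_e = g := by
      funext i
      simp only [Pi.add_apply]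
      have h4 : ∀ a : ZMod 3, a + a + a = 0 := by decide
      rw [add_assoc, add_assoc, ← add_assoc (E8_e i), h4, add_zero]
    rw [h2] at h1
    exact h1
  have hc : c2 w x y = w ^ 2 * c2 w x y := by
    classical
    conv_lhs => unfold c2
    rw [← Equiv.sum_comp (Equiv.addRight E8_e)]
    unfold c2
    rw [Finset.mul_sum]
    refine Finset.sum_congr rfl fun g _ => ?_
    show (if Pr k (zv w x y (g + E8_e)) then w ^ (∑ i, (g + E8_e) i).val else 0) = _
    by_cases hg : Pr k (zv w x y g)
    · rw [if_pos hg, if_pos ((hiff g).2 hg)]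
      have hs : ∑ i, (g + E8_e) i = ∑ i, g i + 2 := by
        simp only [Pi.add_apply]
        rw [Finset.sum_add_distrib, E8_sum]
      rw [hs, E8_pow_val h3, mul_comm]
      congr 1
    · rw [if_neg hg, if_neg (fun h => hg ((hiff g).1 h)), mul_zero]
  have h2 := hD.two
  have hom := hD.om
  have h5 : w * c2 w x y = 0 := by
    linear_combination hc + c2 w x y * hom - c2 w x y * h2
  rcases mul_eq_zero.1 h5 with h | h
  · exact absurd h hw
  · exact h

end MP2619.Q5
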