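import Pool.Agent.Lib.MP_2619d0_ag.Q5.H2

/-!
Row H7: the trace of a point for a finite separable extension. As `NP/E9.lean` (`E9_core`, `E9_abs`).
-/

set_option autoImplicit false

namespace MP2619.Q5

universe u

open IntermediateField MP2619.W WeierstrassCurve

variable {K L : Type u} [Field K] [Field L] [Algebra K L]

/-- a finite Galois extension containing a finite separable one -/
private theorem H7_exists_galois (L0 L : Type u) [Field L0] [Field L] [Algebra L0 L]
    [FiniteDimensional L0 L] [Algebra.IsSeparable L0 L] :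
    ∃ (M : Type u) (_ : Field M) (_ : Algebra L0 M) (_ : Algebra L M) (_ : IsScalarTower L0 L M),
      FiniteDimensional L0 M ∧ IsGalois L0 M := by
  let Ω := AlgebraicClosure L
  have : Algebra.IsAlgebraic L0 Ω := Algebra.IsAlgebraic.trans L0 L Ω
  have : IsAlgClosure L0 Ω := ⟨inferInstance, inferInstance⟩
  have : Normal L0 Ω := IsAlgClosure.normal L0 Ω
  refine ⟨normalClosure L0 L Ω, inferInstance, inferInstance, inferInstance, inferInstance,
    inferInstance, ?_⟩
  have hs : Algebra.IsSeparable L0 (normalClosure L0 L Ω) := by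
    rw [normalClosure_def]
    have : ∀ f : L →ₐ[L0] Ω, Algebra.IsSeparable L0 f.fieldRange := fun f =>
      Algebra.IsSeparable.of_algHom L0 L (AlgEquiv.ofInjectiveField f).symm.toAlgHom
    exact IntermediateField.isSeparable_iSup L0 Ω
  exact { }

private theorem H7_sum [DecidableEq L] (h2 : (2 : K) = 0)
    (hL : ¬ Algebra.IsAlgebraic K L) (P : (Ec L).Point) {ι : Type u} (s : Finset ι)
    (Q : ι → (Ec L).Point) : Bf K P (∑ i ∈ s, Q i) = ∑ i ∈ s, Bf K P (Q i) := by
  let f : (Ec L).Point →+ ℤ := AddMonoidHom.mk' (fun Q => Bf K P Q)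
    (fun Q R => Bf_add_right h2 hL P Q R)
  exact map_sum f Q s

/-- the pairing after a homomorphism -/
private theorem H7_mp {M : Type u} [Field M] [Algebra K M] [DecidableEq L] [DecidableEq M]
    (φ : L →ₐ[K] M) (P Q : (Ec L).Point) :
    Bf K (mp (φ : L →+* M) P) (mp (φ : L →+* M) Q) =
      Module.finrank φ.fieldRange M * Bf K P Q := by
  unfold Bf
  rw [← map_add, pdeg_mp, pdeg_mp, pdeg_mp]
  push_cast
  ring

private theorem H7_descend {L0 M : Type u} [Field L0] [Field M] [Algebra K M]
    [DecidableEq L0] [DecidableEq M] (φ : L0 →+* M) (c : (Ec M).Point)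
    (hc : ∀ z ∈ pf K c, z ∈ Set.range φ) : ∃ c0 : (Ec L0).Point, mp φ c0 = c := by
  rcases c with _ | ⟨x, y, h⟩
  · exact ⟨0, rfl⟩
  · obtain ⟨x0, rfl⟩ := hc x (by show x ∈ ({x, y} : Set M); simp)
    obtain ⟨y0, rfl⟩ := hc y (by show y ∈ ({φ x0, y} : Set M); simp)
    have h0 : (Ec L0).Nonsingular x0 y0 := by
      refine (Affine.map_nonsingular (Ec L0) (f := φ) φ.injective _ _).1 ?_
      rw [H0_map]
      exact h
    exact ⟨Affine.Point.some _ _ h0, rfl⟩

private theorem H7_finrank_range {L0 M : Type u} [Field L0] [Field M] [Algebra K L0] [Algebra K M]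
    [Algebra L0 M] [IsScalarTower K L0 M] :
    Module.finrank (IsScalarTower.toAlgHom K L0 M).fieldRange M = Module.finrank L0 M := by
  symm
  refine Algebra.finrank_eq_of_equiv_equiv
    (AlgEquiv.ofInjectiveField (IsScalarTower.toAlgHom K L0 M)).toRingEquiv (RingEquiv.refl M) ?_
  ext x
  rfl

/-- the trace -/
private theorem H7_core {L0 M : Type u} [Field L0] [Field M] [Algebra K L0] [Algebra K M]
    [Algebra L0 L] [Algebra L0 M] [Algebra L M] [IsScalarTower K L0 L] [IsScalarTower K L M]
    [IsScalarTower K L0 M] [IsScalarTower L0 L M] [FiniteDimensional L0 M] [IsGalois L0 M]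
    [DecidableEq L0] [DecidableEq L] [DecidableEq M] (h2 : (2 : K) = 0)
    (hM : ¬ Algebra.IsAlgebraic K M) (Q : (Ec L).Point) :
    ∃ c : (Ec L0).Point, ∀ P0 : (Ec L0).Point,
      Bf K (mp (algebraMap L0 L) P0) Q = Bf K P0 c := by
  have : FiniteDimensional L0 L := FiniteDimensional.left L0 L M
  have : Algebra.IsSeparable L0 L := Algebra.isSeparable_tower_bot_of_isSeparable L0 L M
  set φL := IsScalarTower.toAlgHom K L M with hφL
  set φ0 := IsScalarTower.toAlgHom K L0 M with hφ0
  have eL : (φL : L →+* M) = algebraMap L M := rfl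
  have e0 : (φ0 : L0 →+* M) = algebraMap L0 M := rfl
  set c' : (Ec M).Point := ∑ τ : L →ₐ[L0] M, mp (τ : L →+* M) Q with hc'
  -- the sum is invariant
  have hinv : ∀ f : Gal(M/L0), mp (f : M →+* M) c' = c' := by
    intro f
    rw [hc', map_sum]
    refine Fintype.sum_bijective (fun τ => f.toAlgHom.comp τ) ?_ _ _ ?_
    · constructor
      · intro τ τ' h
        ext x
        have := DFunLike.congr_fun h x
        exact f.injective this
      · intro τ
        refine ⟨f.symm.toAlgHom.comp τ, ?_⟩
        ext x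
        simp
    · intro τ
      rw [mp_mp]
      rfl
  obtain ⟨c, hc⟩ : ∃ c : (Ec L0).Point, mp (algebraMap L0 M) c = c' := by
    refine H7_descend (K := K) (algebraMap L0 M) c' ?_
    intro z hz
    rw [IsGalois.mem_range_algebraMap_iff_fixed]
    intro f
    have h1 := hinv f
    revert hz h1
    rcases c' with _ | ⟨x, y, h⟩
    · intro hz; exact absurd hz (Set.notMem_empty z)
    · intro hz h1
      rw [mp_some, Affine.Point.some.injEq] at h1
      rcases hz with rfl | hz
      · exact h1.1
      · rw [Set.mem_singleton_iff] at hz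
        subst hz
        exact h1.2
  refine ⟨c, fun P0 => ?_⟩
  set P := mp (algebraMap L0 M) P0 with hP
  -- each summand has the same pairing with `P`
  have hB : ∀ τ : L →ₐ[L0] M, Bf K P (mp (τ : L →+* M) Q) = Bf K P (mp (φL : L →+* M) Q) := by
    intro τ
    set g : M →ₐ[L0] M := τ.liftNormal M with hg
    have hg1 : ∀ x : L, g (algebraMap L M x) = τ x := fun x => by
      rw [hg, AlgHom.liftNormal_commutes]; rfl
    have hbij : Function.Bijective g := AlgHom.normal_bijective L0 M M g
    have e1 : mp ((g.restrictScalars K : M →ₐ[K] M) : M →+* M) (mp (φL : L →+* M) Q) =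
        mp (τ : L →+* M) Q := by
      rw [mp_mp]
      congr 1
      congr 1
      ext x
      exact hg1 x
    have e2 : mp ((g.restrictScalars K : M →ₐ[K] M) : M →+* M) P = P := by
      rw [hP, mp_mp]
      congr 1
      congr 1
      ext x
      exact g.commutes x
    have e3 := H7_mp (g.restrictScalars K) P (mp (φL : L →+* M) Q)
    have e4 : (g.restrictScalars K).fieldRange = ⊤ := by
      rw [AlgHom.fieldRange_eq_top]
      exact hbij.2
    rw [e1, e2, e4, IntermediateField.finrank_top] at e3
    simpa using e3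
  have e1 := H7_sum h2 hM P Finset.univ (fun τ : L →ₐ[L0] M => mp (τ : L →+* M) Q)
  rw [Finset.sum_congr rfl (fun τ _ => hB τ), Finset.sum_const, Finset.card_univ, ← hc'] at e1
  have hcard : Fintype.card (L →ₐ[L0] M) = Module.finrank L0 L := by
    apply AlgHom.card_of_splits
    intro x
    have := Normal.splits (inferInstance : Normal L0 M) (algebraMap L M x)
    rwa [minpoly.algebraMap_eq (algebraMap L M).injective] at this
  have e2 := H7_mp φ0 P0 c
  have e3 := H7_mp φL (mp (algebraMap L0 L) P0) Q
  have e4 : mp (φL : L →+* M) (mp (algebraMap L0 L) P0) = P := by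
    rw [hP, mp_mp, eL, ← IsScalarTower.algebraMap_eq]
  have r0 : Module.finrank φ0.fieldRange M = Module.finrank L0 M := H7_finrank_range
  have rL : Module.finrank φL.fieldRange M = Module.finrank L M := H7_finrank_range
  rw [e0, hc, r0] at e2
  rw [e4, rL] at e3
  rw [e2, e3, hcard, nsmul_eq_mul, ← mul_assoc, ← Nat.cast_mul,
    Module.finrank_mul_finrank L0 L M] at e1
  have hpos : (0 : ℤ) < Module.finrank L0 M := by exact_mod_cast Module.finrank_pos
  exact (mul_left_cancel₀ hpos.ne' e1).symm

private theorem H7_abs {L0 : Type u} [Field L0] [Algebra K L0]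
    [Algebra L0 L] [IsScalarTower K L0 L] [FiniteDimensional L0 L] [Algebra.IsSeparable L0 L]
    [DecidableEq L0] [DecidableEq L]
    (h2 : (2 : K) = 0) (hL : ¬ Algebra.IsAlgebraic K L) (Q : (Ec L).Point) :
    ∃ c : (Ec L0).Point, ∀ P0 : (Ec L0).Point,
      Bf K (mp (algebraMap L0 L) P0) Q = Bf K P0 c := by
  classical
  obtain ⟨M, _, _, _, _, _, _⟩ := H7_exists_galois L0 L
  let _ : Algebra K M := ((algebraMap L M).comp (algebraMap K L)).toAlgebra
  have : IsScalarTower K L M := IsScalarTower.of_algebraMap_eq fun _ => rfl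
  have : IsScalarTower K L0 M :=
    IsScalarTower.of_algebraMap_eq fun x => by
      rw [IsScalarTower.algebraMap_apply L0 L M, ← IsScalarTower.algebraMap_apply K L0 L]
      rfl
  have hM : ¬ Algebra.IsAlgebraic K M := fun h => hL (Algebra.IsAlgebraic.tower_bot K L M)
  exact H7_core (M := M) h2 hM Q

/-- Row H7. `M` = Galois closure of `L/F`, `c'` = the sum of the conjugates of `Q`, a point `T` over `F`;
`[M:F] <P, T>_F = <P, c'>_M = [L:F] <P, Q>_M = [L:F][M:L] <P, Q>_L`. Copy `E9_core`, `E9_abs` of
`NP/E9.lean` (there the point `P` is fixed before the trace, but `c` does not depend on it);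
`Bf_add_right`, `pdeg_mp`. -/
theorem exists_trace [DecidableEq L] (h2 : (2 : K) = 0) (hL : ¬ Algebra.IsAlgebraic K L)
    (F : IntermediateField K L) [FiniteDimensional F L] [Algebra.IsSeparable F L]
    (Q : (Ec L).Point) : ∃ T : (Ec F).Point, ∀ P : (Ec F).Point,
      Bf K (mp (algebraMap F L) P) Q = Bf K P T :=
  H7_abs (L0 := F) h2 hL Q

end MP2619.Q5
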