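import Pool.Agent.Lib.MP_2619d0_ag.Q5.H0

/-!
Row H8: points over a subfield containing all squares.
-/

set_option autoImplicit false

namespace MP2619.Q5

universe u

open IntermediateField MP2619.W WeierstrassCurve

variable {K L : Type u} [Field K] [Field L] [Algebra K L]

/-- the elements whose squares are in `S` -/
private def H8d_root {F : Type u} [Field F] [Algebra F L] (h2 : (2 : L) = 0)
    (S : IntermediateField F L) : IntermediateField F L where
  carrier := {z | z ^ 2 ∈ S}
  mul_mem' {a b} ha hb := by
    show (a * b) ^ 2 ∈ S
    rw [mul_pow]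
    exact mul_mem ha hb
  add_mem' {a b} ha hb := by
    show (a + b) ^ 2 ∈ S
    have e : (a + b) ^ 2 = a ^ 2 + b ^ 2 := by linear_combination (a * b) * h2
    rw [e]
    exact add_mem ha hb
  algebraMap_mem' c := by
    show (algebraMap F L c) ^ 2 ∈ S
    exact pow_mem (S.algebraMap_mem c) 2
  inv_mem' a ha := by
    show (a⁻¹) ^ 2 ∈ S
    rw [inv_pow]
    exact inv_mem ha

private theorem H8d_mem {F : Type u} [Field F] [Algebra F L] (h2 : (2 : L) = 0)
    (S : IntermediateField F L) (z : L) : z ∈ H8d_root h2 S ↔ z ^ 2 ∈ S := Iff.rfl

/-- Row H8d. Let `E = separableClosure F L` and suppose `E ≠ ⊤`. Among the intermediate fields `S ≠ ⊤` of `L/F`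
containing `E` take one with `finrank S L` minimal (so no field lies strictly between `S` and `L`). `L/E`, so `L/S`, is purely
inseparable: for `z ∉ S` some `z^(2^n) ∈ S`, and with `n` least `u = z^(2^(n-1)) ∉ S`, `u² ∈ S`. So `L = S(u)`,
every element is `a + b u` with `a, b ∈ S`, and its square `a² + b² u²` is in `S`. By `h` `S = ⊤`, contradiction. -/
theorem H8_sep_crit (h2 : (2 : K) = 0) (F : IntermediateField K L) [FiniteDimensional F L]
    (h : ∀ S : IntermediateField K L, F ≤ S → (∀ z : L, z ^ 2 ∈ S) → S = ⊤) :
    Algebra.IsSeparable F L := by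
  have h2L : (2 : L) = 0 := two_up h2
  have h2E : (2 : separableClosure F L) = 0 := by
    apply (algebraMap (separableClosure F L) L).injective
    rw [map_ofNat, map_zero, h2L]
  have : CharP (separableClosure F L) 2 :=
    CharTwo.of_one_ne_zero_of_two_eq_zero one_ne_zero h2E
  have : ExpChar (separableClosure F L) 2 := ExpChar.prime Nat.prime_two
  have hpow : ∀ z : L, ∃ n : ℕ, z ^ 2 ^ n ∈ separableClosure F L := by
    intro z
    obtain ⟨n, y, hy⟩ := IsPurelyInseparable.pow_mem (separableClosure F L) 2 z
    exact ⟨n, by rw [← hy]; exact y.2⟩
  have key : ∀ (N : ℕ) (S : IntermediateField F L), separableClosure F L ≤ S →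
      Module.finrank S L ≤ N → S = ⊤ := by
    intro N
    induction N with
    | zero =>
      intro S _ hS
      have : 0 < Module.finrank S L := Module.finrank_pos
      omega
    | succ N ih =>
      intro S hES hS
      by_contra hne
      have hle : S ≤ H8d_root h2L S := by
        intro z hz
        rw [H8d_mem]
        exact pow_mem hz 2
      have hne' : S ≠ H8d_root h2L S := by
        intro e
        apply hne
        rw [eq_top_iff]
        intro z _
        obtain ⟨n, hn⟩ := hpow z
        have hn' : z ^ 2 ^ n ∈ S := hES hn
        clear hn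
        induction n with
        | zero => simpa using hn'
        | succ n ihn =>
          apply ihn
          rw [e, H8d_mem, ← pow_mul, ← pow_succ]
          exact hn'
      have hlt : Module.finrank (H8d_root h2L S) L ≤ N := by
        by_contra hcon
        apply hne'
        exact eq_of_le_of_finrank_le' hle (by omega)
      have htop := ih _ (hES.trans hle) hlt
      have hF : F ≤ S.restrictScalars K := by
        intro z hz
        exact S.algebraMap_mem ⟨z, hz⟩
      have hS' := h (S.restrictScalars K) hF (by
        intro z
        have hz : z ∈ H8d_root h2L S := by rw [htop]; trivial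
        exact hz)
      apply hne
      rw [eq_top_iff]
      intro z _
      have hz : z ∈ S.restrictScalars K := by rw [hS']; trivial
      exact hz
  rw [← separableClosure.eq_top_iff]
  exact key _ _ le_rfl le_rfl

end MP2619.Q5
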