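import Pool.Agent.Lib.MP_2619d0_ag.Q5.H6
import Pool.Agent.Lib.MP_2619d0_ag.Q5.H7
import Pool.Agent.Lib.MP_2619d0_ag.Q5.H8d

/-!
Row H9: `N(P + Fr Q) = N(P)` modulo two.
-/

set_option autoImplicit false

namespace MP2619.Q5

universe u

open IntermediateField MP2619.W WeierstrassCurve

variable {K L : Type u} [Field K] [Field L] [Algebra K L]

/-- `pdeg K P = 0`: `Bf_alg`. Otherwise `F = K(P)`, `L/F` finite. Inseparable: `H8_sep_crit`, `Bf_sub`. Separable:
`exists_trace`, `gen_self`, `even_gen`. -/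
theorem Bf_Fr_even [DecidableEq L] (h2 : (2 : K) = 0) (w : K) (hw : w ^ 2 + w + 1 = 0)
    (hL : ¬ Algebra.IsAlgebraic K L) (h2L : (2 : L) = 0) (P Q : (Ec L).Point) :
    Even (Bf K P (Fr h2L Q)) := by
  classical
  by_cases h0 : pdeg K P = 0
  · rw [Bf_alg h2 hL P _ h0]
    exact Even.zero
  have hnalg : ¬ Algebra.IsAlgebraic K (adjoin K (pf K P)) := by
    intro h
    apply h0
    apply pdeg_alg hL
    intro z hz
    exact (h.isAlgebraic (⟨z, subset_adjoin K _ hz⟩ : adjoin K (pf K P))).algebraMap (A := L)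
  by_cases hS : ∀ S : IntermediateField K L, adjoin K (pf K P) ≤ S → (∀ z : L, z ^ 2 ∈ S) → S = ⊤
  · have hfin : FiniteDimensional (adjoin K (pf K P)) L :=
      FiniteDimensional.of_finrank_pos (Nat.pos_of_ne_zero h0)
    have hsep := H8_sep_crit h2 (adjoin K (pf K P)) hS
    obtain ⟨P0, hP0, hP⟩ := gen_self (K := K) P hnalg
    obtain ⟨T, hT⟩ := exists_trace h2 hL (adjoin K (pf K P)) Q
    have h2F : (2 : adjoin K (pf K P)) = 0 := two_up h2
    have h1 := hT (Fr h2F P0)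
    rw [← Fr_mp h2F h2L, hP] at h1
    have h3 := even_gen h2 w hw h2F P0 hP0 T
    rw [Bf_Fr_right h2 h2F hnalg] at h3
    rw [Bf_Fr_right h2 h2L hL, h1]
    exact h3
  · push Not at hS
    obtain ⟨S, hFS, hsq, hne⟩ := hS
    have hP : pf K P ⊆ S := fun z hz => hFS (subset_adjoin K _ hz)
    have hQ : pf K (Fr h2L Q) ⊆ S := by
      rcases Q with _ | ⟨x, y, h⟩
      · exact Set.empty_subset _
      · rw [Fr_some]
        rintro z (rfl | rfl)
        · exact hsq _
        · exact hsq _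
    have h1 := Bf_sub S P (Fr h2L Q) hP hQ
    obtain ⟨r, hr⟩ := finrank_even S hsq hne
    obtain ⟨t, ht⟩ := h1
    refine ⟨r * t, ?_⟩
    rw [ht, hr]
    push_cast
    ring

/-- THEOREM (H) -/
theorem H_even [DecidableEq L] (h2 : (2 : K) = 0) (w : K) (hw : w ^ 2 + w + 1 = 0)
    (hL : ¬ Algebra.IsAlgebraic K L) (h2L : (2 : L) = 0) (P Q : (Ec L).Point) :
    pdeg K (P + Fr h2L Q) % 2 = pdeg K P % 2 := by
  have h := Bf_Fr_even h2 w hw hL h2L P Q
  have h1 := pdeg_Fr (K := K) h2L hL Q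
  obtain ⟨r, hr⟩ := h
  rw [Bf, h1] at hr
  omega

end MP2619.Q5
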