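import Pool.Agent.Lib.MP_2619d0_ag.Q5.E5
import Pool.Agent.Lib.MP_2619d0_ag.Q5.H9

/-!
Theorem (H) in the form used by part E.
-/

set_option autoImplicit false

namespace MP2619.Q5

universe u

theorem HE_holds : HE.{u} := fun _ _ _ _ _ _ h2 h2L w hw hL P Q => H_even h2 w hw hL h2L P Q

end MP2619.Q5
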