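import Pool.Agent.Lib.MP_2619d0_ag.Q5.R9
import Pool.Agent.Lib.MP_2619d0_ag.Q5.E8
import Pool.Agent.Lib.MP_2619d0_ag.Q5.HE

/-!
# THEOREM R2
-/

set_option autoImplicit false

namespace MP2619.Q5

universe u

theorem FinalC_holds : FinalC.{u} := FinalC_of_HE HE_holds

theorem R2C_holds : R2C.{u} := R2_of_final FinalC_holds

end MP2619.Q5
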