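import Mathlib

/-!
Row 2619q5-C1: class functions.
-/

set_option autoImplicit false

namespace MP2619.Q5

/-- Base three code of a point of `(ℤ/3)^6`. -/
private def C1code (γ : Fin 6 → ZMod 3) : ℕ :=
  (γ 0).val + (3 * (γ 1).val + (9 * (γ 2).val + (27 * (γ 3).val + (81 * (γ 4).val +
    243 * (γ 5).val))))

private theorem C1code_inj {γ δ : Fin 6 → ZMod 3} (h : C1code γ = C1code δ) : γ = δ := by
  unfold C1code at h
  have hl : ∀ (γ : Fin 6 → ZMod 3) (i : Fin 6), (γ i).val < 3 := fun γ i => ZMod.val_lt _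
  have h0 := hl γ 0
  have h1 := hl γ 1
  have h2 := hl γ 2
  have h3 := hl γ 3
  have h4 := hl γ 4
  have h5 := hl γ 5
  have k0 := hl δ 0
  have k1 := hl δ 1
  have k2 := hl δ 2
  have k3 := hl δ 3
  have k4 := hl δ 4
  have k5 := hl δ 5
  funext i
  apply ZMod.val_injective
  fin_cases i <;> simp only [Fin.zero_eta, Fin.mk_one, Fin.reduceFinMk] <;> omega

/-- The point with a given code. -/
private def C1dec (n : ℕ) : Fin 6 → ZMod 3 := fun i =>
  (⟨n / 3 ^ (i : ℕ) % 3, Nat.mod_lt _ (by norm_num)⟩ : Fin 3)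

/-- Sum of a function over the set of points whose codes are the binary digits of `m`. -/
private def C1S (f : (Fin 6 → ZMod 3) → ZMod 2) (m : ℕ) : ZMod 2 :=
  ∑ γ, if m.testBit (C1code γ) then f γ else 0

private theorem C1S_xor (f : (Fin 6 → ZMod 3) → ZMod 2) (m n : ℕ) :
    C1S f (m ^^^ n) = C1S f m + C1S f n := by
  unfold C1S
  rw [← Finset.sum_add_distrib]
  refine Finset.sum_congr rfl fun γ _ => ?_
  rw [Nat.testBit_xor]
  cases m.testBit (C1code γ) <;> cases n.testBit (C1code γ) <;> simp [CharTwo.add_self_eq_zero]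

private theorem C1S_zero (f : (Fin 6 → ZMod 3) → ZMod 2) : C1S f 0 = 0 := by
  unfold C1S
  simp

private theorem C1S_pow (f : (Fin 6 → ZMod 3) → ZMod 2) (γ : Fin 6 → ZMod 3) :
    C1S f (2 ^ C1code γ) = f γ := by
  unfold C1S
  rw [Finset.sum_eq_single γ]
  · simp [Nat.testBit_two_pow_self]
  · intro δ _ hδ
    rw [Nat.testBit_two_pow]
    rw [if_neg]
    simp only [decide_eq_true_eq]
    intro h
    exact hδ (C1code_inj h).symm
  · intro h
    exact absurd (Finset.mem_univ _) h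

private def C1fin (n : ℕ) : Fin 6 := ⟨n % 6, Nat.mod_lt _ (by norm_num)⟩

/-- Mask of a line in the direction of a coordinate. -/
private def C1mr (k : ℕ) : ℕ :=
  (2 ^ C1code (C1dec (k % 729)) ^^^
    2 ^ C1code (C1dec (k % 729) + Pi.single (C1fin (k / 729)) 1)) ^^^
    2 ^ C1code (C1dec (k % 729) + Pi.single (C1fin (k / 729)) 2)

/-- Mask of a translation pair. -/
private def C1ms (k : ℕ) : ℕ :=
  2 ^ C1code (fun i => C1dec k i + 1) ^^^ 2 ^ C1code (C1dec k)

/-- The point of code `k` with three coordinates put to zero. -/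
private def C1pt (a b d : Fin 6) (k : ℕ) : Fin 6 → ZMod 3 := fun i =>
  if i = a ∨ i = b ∨ i = d then 0 else C1dec k i

/-- Mask of a diagonal line in three coordinates. -/
private def C1mt0 (a b d : Fin 6) (k : ℕ) : ℕ :=
  if a ≠ b ∧ a ≠ d ∧ b ≠ d then
    (2 ^ C1code (C1pt a b d k + Pi.single a 0 + Pi.single b 0 + Pi.single d 0) ^^^
    2 ^ C1code (C1pt a b d k + Pi.single a 1 + Pi.single b 1 + Pi.single d 1)) ^^^
    2 ^ C1code (C1pt a b d k + Pi.single a 2 + Pi.single b 2 + Pi.single d 2)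
  else 0

private def C1mt (k : ℕ) : ℕ :=
  C1mt0 (C1fin (k / 729)) (C1fin (k / 729 / 6)) (C1fin (k / 729 / 36)) (k % 729)

/-- The total mask of a list of relations. -/
private def C1tot (L1 L2 L3 : List ℕ) : ℕ :=
  L1.foldr (fun k m => C1mr k ^^^ m) (L2.foldr (fun k m => C1ms k ^^^ m)
    (L3.foldr (fun k m => C1mt k ^^^ m) 0))

private theorem C1_tot (f : (Fin 6 → ZMod 3) → ZMod 2)
    (hr : ∀ (a : Fin 6) (γ : Fin 6 → ZMod 3),
      f γ + f (γ + Pi.single a 1) + f (γ + Pi.single a 2) = 0)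
    (hs : ∀ γ : Fin 6 → ZMod 3, f (fun i => γ i + 1) + f γ = 0)
    (ht : ∀ a b d : Fin 6, a ≠ b → a ≠ d → b ≠ d → ∀ γ : Fin 6 → ZMod 3, γ a = 0 → γ b = 0 →
      γ d = 0 → f (γ + Pi.single a 0 + Pi.single b 0 + Pi.single d 0) +
        f (γ + Pi.single a 1 + Pi.single b 1 + Pi.single d 1) +
        f (γ + Pi.single a 2 + Pi.single b 2 + Pi.single d 2) = 0)
    (L1 L2 L3 : List ℕ) : C1S f (C1tot L1 L2 L3) = 0 := by
  have h3 : C1S f (L3.foldr (fun k m => C1mt k ^^^ m) 0) = 0 := by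
    induction L3 with
    | nil => exact C1S_zero f
    | cons k L ih =>
      rw [List.foldr_cons, C1S_xor, ih, add_zero]
      unfold C1mt C1mt0
      split_ifs with h
      · rw [C1S_xor, C1S_xor, C1S_pow, C1S_pow, C1S_pow]
        refine ht _ _ _ h.1 h.2.1 h.2.2 _ ?_ ?_ ?_ <;> simp [C1pt]
      · exact C1S_zero f
  have h2 : C1S f (L2.foldr (fun k m => C1ms k ^^^ m)
      (L3.foldr (fun k m => C1mt k ^^^ m) 0)) = 0 := by
    induction L2 with
    | nil => exact h3
    | cons k L ih =>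
      rw [List.foldr_cons, C1S_xor, ih, add_zero]
      unfold C1ms
      rw [C1S_xor, C1S_pow, C1S_pow]
      exact hs _
  unfold C1tot
  induction L1 with
  | nil => exact h2
  | cons k L ih =>
    rw [List.foldr_cons, C1S_xor, ih, add_zero]
    unfold C1mr
    rw [C1S_xor, C1S_xor, C1S_pow, C1S_pow, C1S_pow]
    exact hr _ _

private def C1A0 : List ℕ :=
  [399, 564, 803, 1090, 1208, 1701, 2141, 2198, 2698, 2843, 2852, 3161, 3185, 3482, 3760]

private def C1B0 : List ℕ :=
  [7, 11, 28, 33, 65, 67, 118, 215, 227, 233, 241, 252, 264, 326, 338, 345, 355, 361, 366, 367,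
   372, 382, 399, 400, 401, 446, 467, 495, 507, 538, 648, 654, 655, 675, 688, 691, 699, 710, 717,
   722, 726, 728]

private def C1D0 : List ℕ :=
  [57105, 57537, 109647, 87483, 113757, 118107, 118113, 118605, 88616, 88857, 114698, 140698,
   140834, 118846, 149473, 149482, 119801, 150229, 150910, 150918]

private def C1A1 (a : Fin 6) : List ℕ :=
  match a with
  | 0 => []
  | 1 =>
    [3, 730]
  | 2 =>
    [9, 1459]
  | 3 =>
    [27, 2188]
  | 4 =>
    [81, 2917]
  | 5 =>
    [243, 3646]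

private def C1B1 (a : Fin 6) : List ℕ :=
  match a with
  | 0 => []
  | 1 =>
    [489, 604, 721]
  | 2 =>
    [495, 598, 709]
  | 3 =>
    [513, 580, 673]
  | 4 =>
    [526, 565, 567]
  | 5 =>
    [130, 241, 261]

private def C1D1 (a : Fin 6) : List ℕ :=
  match a with
  | 0 => []
  | 1 =>
    [87645, 118587, 144507, 88372, 119314, 145234, 119563, 120043]
  | 2 =>
    [83277, 118593, 144513, 88372, 118846, 119314, 120043, 145963]
  | 3 =>
    [57051, 114237, 140157, 88372, 114508, 114940, 120043, 145963]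
  | 4 =>
    [83205, 88047, 144441, 88372, 88696, 118846, 120043, 150922]
  | 5 =>
    [83511, 87885, 118359, 118846, 119314, 145234, 145963, 150922]

private def C1A2 : List ℕ :=
  [114, 117, 129, 144, 147, 156, 189, 201, 240, 285, 288, 327, 351, 354, 372, 384, 468, 498, 501,
   543, 603, 627, 693, 730, 738, 748, 776, 794, 812, 865, 866, 891, 929, 954, 965, 974, 982,
   1000, 1001, 1026, 1036, 1072, 1099, 1143, 1152, 1171, 1190, 1198, 1207, 1243, 1288, 1387,
   1397, 1405, 1431, 1449, 1489, 1492, 1493, 1513, 1515, 1541, 1544, 1571, 1593, 1621, 1626,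
   1652, 1678, 1703, 1706, 1708, 1731, 1758, 1762, 1783, 1790, 1811, 1836, 1864, 1867, 1890,
   1947, 2033, 2056, 2082, 2085, 2110, 2136, 2137, 2162, 2165, 2167, 2194, 2197, 2200, 2213,
   2270, 2350, 2359, 2363, 2434, 2441, 2442, 2447, 2448, 2514, 2518, 2527, 2528, 2535, 2593,
   2594, 2605, 2616, 2617, 2674, 2678, 2690, 2697, 2766, 2767, 2847, 2849, 2923, 2927, 2932,
   2933, 2962, 2978, 2985, 2986, 2987, 3165, 3166, 3179, 3186, 3213, 3236, 3407, 3410, 3429,
   3437, 3440, 3447, 3475, 3476, 3654, 3667, 3674, 3691, 3696, 3698, 3711, 3726, 3730, 3732,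
   3733, 3736, 3751, 3753, 3755, 3759, 3773, 3777, 3779, 3781, 3782, 3794, 3796, 3802, 3812,
   3816, 3824, 3827, 3833, 3864, 3874, 3885]

private def C1B2 : List ℕ :=
  [5, 30, 45, 54, 59, 99, 118, 170, 204, 214, 240, 256, 263, 267, 302, 312, 338, 343, 369, 398,
   403, 407, 416, 427, 435, 438, 449, 454, 455, 466, 474, 480, 491, 506, 526, 528, 536, 542, 549,
   554, 578, 584, 585, 588, 590, 611, 617, 621, 630, 632, 649, 684, 691, 712, 719]

private def C1D2 : List ℕ :=
  [109620, 135684, 87966, 113757, 113970, 113994, 114021, 114243, 139974, 144360, 144363, 144423,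
   144426, 88209, 88291, 88454, 88614, 88616, 88778, 140725, 140806, 140860, 140915, 149445,
   149463, 149481, 149508, 150174, 150176, 150919]

/-- Mask of the points whose coordinate sum is `2` or `0`. -/
private def C1M : ℕ :=
  2358959151094877597020638235354181256854485189796601937478359863425040471780256536840443676980031572740635956154028806877947718354303106232691072243436181895399856721793343187085388478265484618563830416507907881751723253

private theorem C1c0 : C1tot C1A0 C1B0 C1D0 = 2 ^ C1code 0 := by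
  decide +kernel

private theorem C1c1 : ∀ a : Fin 6, C1tot (C1A1 a) (C1B1 a) (C1D1 a) =
    2 ^ C1code (Pi.single a 1) ^^^ 2 ^ C1code (Pi.single 0 1) := by
  decide +kernel

private theorem C1c2 : C1tot C1A2 C1B2 C1D2 = 2 ^ C1code (Pi.single 0 1) ^^^ C1M := by
  decide +kernel

private theorem C1even (n : ℕ) : Even n ↔ ((n : ℕ) : ZMod 2) = 0 :=
  (ZMod.natCast_eq_zero_iff_even).symm

private theorem C1sum3 (g : ZMod 3 → ℕ) : ∑ j : ZMod 3, g j = g 0 + g 1 + g 2 :=
  Fin.sum_univ_three g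

private theorem C1mask (γ : Fin 6 → ZMod 3) :
    C1M.testBit (C1code γ) = decide (∑ i, γ i = 2 ∨ ∑ i, γ i = 2 + 1) := by
  have key : ∀ a b c d e g : ZMod 3, C1M.testBit (C1code ![a, b, c, d, e, g]) =
      decide (a + b + c + d + e + g = 2 ∨ a + b + c + d + e + g = 2 + 1) := by
    decide +kernel
  have hγ : γ = ![γ 0, γ 1, γ 2, γ 3, γ 4, γ 5] := by
    funext i
    fin_cases i <;> rfl
  have h := key (γ 0) (γ 1) (γ 2) (γ 3) (γ 4) (γ 5)
  rw [← hγ] at h
  rw [h, Fin.sum_univ_six]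

/-- Finite Fourier transform over a field `K` of characteristic two with a primitive cube root of unity `w`
(for instance `GaloisField 2 2`, or `AdjoinRoot` of `X^2 + X + 1` over `ZMod 2`, or `AlgebraicClosure (ZMod 2)`).
Put `C ψ = ∑ γ, c γ * w ^ (∑ i, ψ i * γ i).val` for `ψ : Fin 6 → ZMod 3`; inversion:
`c γ = ∑ ψ, C ψ * w ^ (-∑ i, ψ i * γ i).val` in `K` (`3 ^ 6 = 1` in `K`). From `hr1`: `C ψ = 0` if `ψ a = 0` for some `a`.
From `hsc`: `C ψ = 0` if `∑ ψ i ≠ 0`. So `C ψ` can be non-zero only if all `ψ i = ±1` and `S = {i | ψ i = 1}` has `0`, `3` or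
`6` elements. From `hst` for `T = {a, b, d}`: restrict `c` to `γ` with `γ = 0` on `T` and take the Fourier transform in the
other three variables: for each `ψ'` on the complement the sum over the `ψ` extending `ψ'` with `∑_{i in T} ψ i = 0` of
`C ψ` is `0` (that is `ψ = (1,1,1)` and `(-1,-1,-1)` on `T`): `C (ψ', 1) + C (ψ', -1) = 0`. So all `C ψ`, `#S ∈ {0, 3, 6}`,
are equal to one `C0` (`S = ∅ ~ T`, `complement of T ~ everything`). Then `c (single a 1) = ∑ C0 w^(-ψ a)`: `#S = 3`: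
ten with `a ∈ S`, ten with `a ∉ S`, contribution `0`; `#S = 0, 6`: `C0 (w + w^2) = C0`. The same for `single a 2`. This is the
first claim, and `C0 = c (single a 1)`. Second claim: `C (fun _ => 1) = C0 = a_0 + a_1 w + a_2 w^2` with
`a_j = ∑ over γ with ∑ γ = j of c γ`; the hypothesis says `a_j + a_(j+1) = 0`, so all `a_j` are equal and `C0 = 0`. -/
theorem class_fun (c : (Fin 6 → ZMod 3) → ℕ)
    (hr1 : ∀ (a : Fin 6) (γ : Fin 6 → ZMod 3),
      Even (c γ + c (γ + Pi.single a 1) + c (γ + Pi.single a 2)))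
    (hsc : ∀ γ : Fin 6 → ZMod 3, Even (c (fun i => γ i + 1) + c γ))
    (hst : ∀ a b d : Fin 6, a ≠ b → a ≠ d → b ≠ d → ∀ γ : Fin 6 → ZMod 3, γ a = 0 → γ b = 0 →
      γ d = 0 → Even (∑ j : ZMod 3, c (γ + Pi.single a j + Pi.single b j + Pi.single d j)))
    (a : Fin 6) :
    Even (c (Pi.single a 1) + c (Pi.single a 2)) ∧
    ((∀ j : ZMod 3, Even (∑ γ : {γ : Fin 6 → ZMod 3 // ∑ i, γ i = j ∨ ∑ i, γ i = j + 1}, c γ.1)) →
      Even (c (Pi.single a 1))) := by
  have hr : ∀ (a : Fin 6) (γ : Fin 6 → ZMod 3), ((c γ : ℕ) : ZMod 2) +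
      ((c (γ + Pi.single a 1) : ℕ) : ZMod 2) + ((c (γ + Pi.single a 2) : ℕ) : ZMod 2) = 0 := by
    intro a γ
    have h := (C1even _).1 (hr1 a γ)
    push_cast at h
    exact h
  have hs : ∀ γ : Fin 6 → ZMod 3, ((c (fun i => γ i + 1) : ℕ) : ZMod 2) + ((c γ : ℕ) : ZMod 2) = 0 := by
    intro γ
    have h := (C1even _).1 (hsc γ)
    push_cast at h
    exact h
  have ht : ∀ a b d : Fin 6, a ≠ b → a ≠ d → b ≠ d → ∀ γ : Fin 6 → ZMod 3, γ a = 0 → γ b = 0 →
      γ d = 0 → ((c (γ + Pi.single a 0 + Pi.single b 0 + Pi.single d 0) : ℕ) : ZMod 2) +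
        ((c (γ + Pi.single a 1 + Pi.single b 1 + Pi.single d 1) : ℕ) : ZMod 2) +
        ((c (γ + Pi.single a 2 + Pi.single b 2 + Pi.single d 2) : ℕ) : ZMod 2) = 0 := by
    intro a b d h1 h2 h3 γ h4 h5 h6
    have h := (C1even _).1 (hst a b d h1 h2 h3 γ h4 h5 h6)
    rw [C1sum3] at h
    push_cast at h
    exact h
  have key := C1_tot (fun γ => ((c γ : ℕ) : ZMod 2)) hr hs ht
  have h0 : ((c 0 : ℕ) : ZMod 2) = 0 := by
    have h := key C1A0 C1B0 C1D0
    rw [C1c0, C1S_pow] at h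
    exact h
  have h1 : ∀ a : Fin 6, ((c (Pi.single a 1) : ℕ) : ZMod 2) = ((c (Pi.single 0 1) : ℕ) : ZMod 2) := by
    intro a
    have h := key (C1A1 a) (C1B1 a) (C1D1 a)
    rw [C1c1, C1S_xor, C1S_pow, C1S_pow] at h
    exact CharTwo.add_eq_zero.1 h
  refine ⟨?_, fun hj => ?_⟩
  · rw [C1even]
    have h := hr a 0
    rw [h0, zero_add, zero_add, zero_add] at h
    push_cast
    exact h
  · have h2 : C1S (fun γ => ((c γ : ℕ) : ZMod 2)) C1M = 0 := by
      have h := (C1even _).1 (hj 2)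
      rw [Nat.cast_sum] at h
      unfold C1S
      refine Eq.trans ?_ h
      rw [← Finset.sum_subtype (Finset.univ.filter fun γ : Fin 6 → ZMod 3 =>
        ∑ i, γ i = 2 ∨ ∑ i, γ i = 2 + 1) (by simp) (fun γ => ((c γ : ℕ) : ZMod 2)),
        Finset.sum_filter]
      refine Finset.sum_congr rfl fun γ _ => ?_
      rw [C1mask γ]
      simp only [decide_eq_true_eq]
    have h3 := key C1A2 C1B2 C1D2
    rw [C1c2, C1S_xor, C1S_pow, h2, add_zero] at h3
    rw [C1even, h1 a]
    exact h3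

end MP2619.Q5
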