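import Pool.Agent.Lib.MP_2619d0_ag.Q5.CDefs

/-!
Row 2619q5-C10a: `gr` in terms of any residue map; transport of `gr` by an automorphism.
-/

set_option autoImplicit false

namespace MP2619.Q5

open scoped NNReal
open IntermediateField MP2619.R MP2619.N Pool.Agent.Lib.MP_2619d0_ag Pool.Agent.Lib.MP_2619d0_ag.T

variable {B M N A : Type} [Field B] [Field M] [Field N] [Field A] [Algebra B M] [Algebra B N]
  [Algebra B A]

private theorem C10a_ker (P : ValuationSubring M) (φ : P →+* N) (hφ : RMap B P φ) :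
    IsLocalRing.maximalIdeal P = RingHom.ker φ := by
  ext a
  rw [RingHom.mem_ker, hφ.zero, ValuationSubring.valuation_lt_one_iff]

/-- `N` is isomorphic to the residue field of `P` over `B`, compatible with the residue maps (`hφ.surj`, `hφ.zero`). -/
theorem exists_res_equiv (P : ValuationSubring M) (φ : P →+* N) (hφ : RMap B P φ) :
    ∃ f : IsLocalRing.ResidueField P ≃+* N, (∀ a : P, f (IsLocalRing.residue P a) = φ a) ∧
      ∀ b : B, f (rc (K := B) hφ.cst b) = algebraMap B N b := by
  let f : IsLocalRing.ResidueField P ≃+* N :=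
    (Ideal.quotEquivOfEq (C10a_ker P φ hφ)).trans (RingHom.quotientKerEquivOfSurjective hφ.surj)
  have hf : ∀ a : P, f (IsLocalRing.residue P a) = φ a := fun a => rfl
  refine ⟨f, hf, fun b => ?_⟩
  have h1 : rc (K := B) hφ.cst b = IsLocalRing.residue P ⟨algebraMap B M b, hφ.cst b⟩ := rfl
  rw [h1, hf, hφ.alg]

private theorem C10a_gc {k1 M1 M2 A : Type} [Field k1] [Field M1] [Field M2] [Field A]
    [Algebra k1 M1] [Algebra k1 M2] [Algebra k1 A] (V : Valuation A ℝ≥0) (w : k1) {n : ℕ}
    (u : Fin n → A) (x y : Fin n → M1) (γ : Fin n → ZMod 3) (f : M1 ≃ₐ[k1] M2) :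
    gc V w u x y γ = gc V w u (fun i => f (x i)) (fun i => f (y i)) γ := by
  have hz : ∀ i, zg w (fun i => f (x i)) (fun i => f (y i)) γ i = f (zg w x y γ i) := by
    intro i
    simp only [zg, map_add, map_mul, AlgEquiv.commutes]
  refine Nat.card_congr (Equiv.subtypeEquiv (AlgEquiv.arrowCongr f AlgEquiv.refl) ?_)
  intro τ
  have e : ∀ a : M1, (AlgEquiv.arrowCongr f (AlgEquiv.refl : A ≃ₐ[k1] A) τ) (f a) = τ a := by
    intro a
    simp [AlgEquiv.arrowCongr]
  simp only [hz, e]

/-- a bijection of the sets of embeddings by composition with `f` of `exists_res_equiv` -/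
theorem gr_eq (V : Valuation A ℝ≥0) (w : B) (u : Fin 6 → A) (x y : Fin 6 → M)
    (P : ValuationSubring M) (φ : P →+* N) (hφ : RMap B P φ) (hx : ∀ i, x i ∈ P)
    (hy : ∀ i, y i ∈ P) (γ : Fin 6 → ZMod 3) :
    gr V w u x y P γ = gc V w u (fun i => φ ⟨x i, hx i⟩) (fun i => φ ⟨y i, hy i⟩) γ := by
  obtain ⟨f, hf, hb⟩ := exists_res_equiv P φ hφ
  unfold gr
  rw [dif_pos ⟨hφ.cst, hx, hy⟩]
  letI : Algebra B (IsLocalRing.ResidueField P) := (rc (K := B) hφ.cst).toAlgebra
  let g : IsLocalRing.ResidueField P ≃ₐ[B] N := AlgEquiv.ofRingEquiv (f := f) hb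
  have h1 := C10a_gc V w u (fun i => IsLocalRing.residue P ⟨x i, hx i⟩)
    (fun i => IsLocalRing.residue P ⟨y i, hy i⟩) γ g
  have h2 : ∀ a : P, g (IsLocalRing.residue P a) = φ a := hf
  simp only [h2] at h1
  exact h1

/-- the residue map to the residue field -/
theorem exists_RMap (P : ValuationSubring M) (h : Cst B P) :
    ∃ (N : Type) (_ : Field N) (_ : Algebra B N) (φ : P →+* N), RMap B P φ := by
  refine ⟨IsLocalRing.ResidueField P, inferInstance, (rc (K := B) h).toAlgebra,
    IsLocalRing.residue P, ?_⟩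
  letI : Algebra B (IsLocalRing.ResidueField P) := (rc (K := B) h).toAlgebra
  exact
    { surj := IsLocalRing.residue_surjective
      cst := h
      alg := fun b => rfl
      zero := fun a => by
        rw [IsLocalRing.residue_eq_zero_iff, ValuationSubring.valuation_lt_one_iff] }

end MP2619.Q5
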