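import Pool.Agent.Lib.MP_2619d0_ag.Q5.C10a

/-!
Row 2619q5-C10b: `gr` in terms of any residue map; transport of `gr` by an automorphism.
-/

set_option autoImplicit false

namespace MP2619.Q5

open scoped NNReal
open IntermediateField MP2619.R MP2619.N Pool.Agent.Lib.MP_2619d0_ag Pool.Agent.Lib.MP_2619d0_ag.T

variable {B M N A : Type} [Field B] [Field M] [Field N] [Field A] [Algebra B M] [Algebra B N]
  [Algebra B A]

private theorem C10b_lt (P : ValuationSubring M) (a : M) :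
    P.valuation a < 1 ↔ a = 0 ∨ a⁻¹ ∉ P := by
  rw [← P.valuation_le_one_iff, map_inv₀]
  rcases eq_or_ne a 0 with h | h
  · rw [h, map_zero]
    exact iff_of_true zero_lt_one (Or.inl rfl)
  · have h0 : 0 < P.valuation a := zero_lt_iff.mpr ((Valuation.ne_zero_iff _).mpr h)
    rw [inv_le_one₀ h0, not_le]
    exact ⟨fun h1 => Or.inr h1, fun h1 => h1.resolve_left h⟩

private theorem C10b_val (σ : M ≃ₐ[B] M) (P P' : ValuationSubring M)
    (hP : ∀ a : M, σ a ∈ P' ↔ a ∈ P) (a : M) : P'.valuation (σ a) < 1 ↔ P.valuation a < 1 := by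
  rw [C10b_lt, C10b_lt, ← map_inv₀ σ a, hP, EmbeddingLike.map_eq_zero_iff]

private theorem C10b_one (σ : M ≃ₐ[B] M) (P P' : ValuationSubring M)
    (hP : ∀ a : M, σ a ∈ P' ↔ a ∈ P) (a : M) : P'.valuation (σ a) = 1 ↔ P.valuation a = 1 := by
  rw [le_antisymm_iff, le_antisymm_iff, ← not_lt (a := P'.valuation (σ a)),
    ← not_lt (a := P.valuation a), C10b_val σ P P' hP, P'.valuation_le_one_iff, hP,
    ← P.valuation_le_one_iff]

private theorem C10b_Cst (σ : M ≃ₐ[B] M) (P P' : ValuationSubring M)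
    (hP : ∀ a : M, σ a ∈ P' ↔ a ∈ P) : Cst B P' ↔ Cst B P := by
  unfold Cst
  refine forall_congr' fun b => ?_
  rw [← hP, AlgEquiv.commutes]

/-- `P' = σ P` has the residue map `φ ∘ σ⁻¹` with values in the same field `N`; use `gr_eq` twice. -/
theorem gr_map (V : Valuation A ℝ≥0) (w : B) (u : Fin 6 → A) (x y : Fin 6 → M) (σ : M ≃ₐ[B] M)
    (P P' : ValuationSubring M) (hP : ∀ a : M, σ a ∈ P' ↔ a ∈ P) (γ : Fin 6 → ZMod 3) :
    gr V w u (fun i => σ (x i)) (fun i => σ (y i)) P' γ = gr V w u x y P γ := by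
  by_cases h : Cst B P ∧ (∀ i, x i ∈ P) ∧ ∀ i, y i ∈ P
  · obtain ⟨h1, hx, hy⟩ := h
    obtain ⟨N, _, _, φ, hφ⟩ := exists_RMap P h1
    have hs : ∀ a : P', σ.symm (a : M) ∈ P := fun a => (hP _).1 (by
      rw [AlgEquiv.apply_symm_apply]; exact a.2)
    let ψ : P' →+* P :=
      { toFun := fun a => ⟨σ.symm (a : M), hs a⟩
        map_one' := Subtype.ext (by simp)
        map_mul' := fun a b => Subtype.ext (by simp)
        map_zero' := Subtype.ext (by simp)
        map_add' := fun a b => Subtype.ext (by simp) }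
    have hψ : ∀ (a : M) (ha : σ a ∈ P'), ψ ⟨σ a, ha⟩ = ⟨a, (hP a).1 ha⟩ := fun a ha =>
      Subtype.ext (σ.symm_apply_apply a)
    have hφ' : RMap B P' (φ.comp ψ) :=
      { surj := fun b => by
          obtain ⟨a, ha⟩ := hφ.surj b
          refine ⟨⟨σ (a : M), (hP a).2 a.2⟩, ?_⟩
          rw [RingHom.comp_apply, hψ, ← ha]
        cst := (C10b_Cst σ P P' hP).2 h1
        alg := fun b => by
          rw [RingHom.comp_apply, ← hφ.alg b]
          congr 1
          exact Subtype.ext (AlgEquiv.commutes σ.symm b)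
        zero := fun a => by
          rw [RingHom.comp_apply, hφ.zero, ← C10b_val σ P P' hP]
          change P'.valuation (σ (σ.symm (a : M))) < 1 ↔ _
          rw [AlgEquiv.apply_symm_apply] }
    have hx' : ∀ i, σ (x i) ∈ P' := fun i => (hP _).2 (hx i)
    have hy' : ∀ i, σ (y i) ∈ P' := fun i => (hP _).2 (hy i)
    rw [gr_eq V w u x y P φ hφ hx hy γ,
      gr_eq V w u (fun i => σ (x i)) (fun i => σ (y i)) P' (φ.comp ψ) hφ' hx' hy' γ]
    have e1 : (fun i => (φ.comp ψ) ⟨σ (x i), hx' i⟩) = fun i => φ ⟨x i, hx i⟩ := by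
      funext i
      rw [RingHom.comp_apply, hψ]
    have e2 : (fun i => (φ.comp ψ) ⟨σ (y i), hy' i⟩) = fun i => φ ⟨y i, hy i⟩ := by
      funext i
      rw [RingHom.comp_apply, hψ]
    rw [e1, e2]
  · have h' : ¬ (Cst B P' ∧ (∀ i, σ (x i) ∈ P') ∧ ∀ i, σ (y i) ∈ P') := by
      rintro ⟨h1, h2, h3⟩
      exact h ⟨(C10b_Cst σ P P' hP).1 h1, fun i => (hP _).1 (h2 i), fun i => (hP _).1 (h3 i)⟩
    unfold gr
    rw [dif_neg h, dif_neg h']

/-- If `σ P = P`, the residue field inherits an automorphism. -/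
theorem exists_res_aut (σ : M ≃ₐ[B] M) (P : ValuationSubring M) (hP : ∀ a : M, σ a ∈ P ↔ a ∈ P)
    (φ : P →+* N) (hφ : RMap B P φ) :
    ∃ θ : N ≃ₐ[B] N, ∀ a : P, θ (φ a) = φ ⟨σ (a : M), (hP a).2 a.2⟩ := by
  let τ : P →+* P :=
    { toFun := fun a => ⟨σ (a : M), (hP a).2 a.2⟩
      map_one' := Subtype.ext (by simp)
      map_mul' := fun a b => Subtype.ext (by simp)
      map_zero' := Subtype.ext (by simp)
      map_add' := fun a b => Subtype.ext (by simp) }
  have hk : RingHom.ker φ ≤ RingHom.ker (φ.comp τ) := by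
    intro a ha
    rw [RingHom.mem_ker] at ha ⊢
    rw [RingHom.comp_apply, hφ.zero]
    exact (C10b_val σ P P hP a).2 ((hφ.zero a).1 ha)
  let θ0 : N →+* N := RingHom.liftOfSurjective φ hφ.surj ⟨φ.comp τ, hk⟩
  have h0 : ∀ a : P, θ0 (φ a) = φ (τ a) := fun a =>
    RingHom.liftOfSurjective_comp_apply φ hφ.surj ⟨φ.comp τ, hk⟩ a
  have hsurj : Function.Surjective θ0 := by
    intro b
    obtain ⟨a, ha⟩ := hφ.surj b
    have h1 : σ.symm (a : M) ∈ P := (hP _).1 (by rw [AlgEquiv.apply_symm_apply]; exact a.2)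
    refine ⟨φ ⟨σ.symm (a : M), h1⟩, ?_⟩
    rw [h0, ← ha]
    congr 1
    exact Subtype.ext (σ.apply_symm_apply (a : M))
  let θ1 : N →ₐ[B] N :=
    { θ0 with
      commutes' := fun b => by
        change θ0 (algebraMap B N b) = algebraMap B N b
        rw [← hφ.alg b, h0]
        congr 1
        exact Subtype.ext (AlgEquiv.commutes σ b) }
  refine ⟨AlgEquiv.ofBijective θ1 ⟨θ0.injective, hsurj⟩, fun a => ?_⟩
  exact h0 a

/-- discrete valuations are transported -/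
theorem ord_map (σ : M ≃ₐ[B] M) (P P' : ValuationSubring M) (hP : ∀ a : M, σ a ∈ P' ↔ a ∈ P)
    (h : DV P) : DV P' ∧ (∀ a : M, ord P' (σ a) = ord P a) ∧
      ∀ a : M, P'.valuation (σ a) < 1 ↔ P.valuation a < 1 := by
  have huf : ∀ ϖ : M, IsUf P ϖ → IsUf P' (σ ϖ) := by
    rintro ϖ ⟨h1, h2, h3⟩
    refine ⟨(map_ne_zero _).2 h1, (C10b_val σ P P' hP ϖ).2 h2, fun a ha => ?_⟩
    obtain ⟨e, η, h4, h5⟩ := h3 (σ.symm a) ((map_ne_zero _).2 ha)
    refine ⟨e, σ η, (C10b_one σ P P' hP η).2 h4, ?_⟩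
    rw [← map_zpow₀, ← map_mul, ← h5, AlgEquiv.apply_symm_apply]
  have h' : DV P' := by
    obtain ⟨ϖ, h1⟩ := h
    exact ⟨σ ϖ, huf ϖ h1⟩
  refine ⟨h', fun a => ?_, C10b_val σ P P' hP⟩
  rcases eq_or_ne a 0 with h0 | h0
  · rw [h0, map_zero, ord_zero, ord_zero]
  · obtain ⟨ϖ, h1, h2⟩ := ord_spec h
    obtain ⟨η, h3, h4⟩ := h2 a h0
    refine ord_eq h' (huf ϖ h1) ((C10b_one σ P P' hP η).2 h3) ?_
    conv_lhs => rw [h4]
    rw [map_mul, map_zpow₀]

end MP2619.Q5
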