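import Pool.Agent.Lib.MP_2619d0_ag.Q5.CDefs

/-!
Row 2619q5-C6: vanishing of `gc`.
-/

set_option autoImplicit false

namespace MP2619.Q5

open scoped NNReal
open IntermediateField MP2619.R MP2619.N Pool.Agent.Lib.MP_2619d0_ag Pool.Agent.Lib.MP_2619d0_ag.T

variable {B N A : Type} [Field B] [Field N] [Field A] [Algebra B N] [Algebra B A]

/-- If `gc ≠ 0` there is `τ` with `τ (zg) = u`, so `zg` is algebraically independent. -/
theorem zg_ind (V : Valuation A ℝ≥0) (w : B) (u : Fin 6 → A) (hu : AlgebraicIndependent B u)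
    (x y : Fin 6 → N) (γ : Fin 6 → ZMod 3) (h : gc V w u x y γ ≠ 0) :
    AlgebraicIndependent B (zg w x y γ) := by
  obtain ⟨⟨τ, hτ, -⟩⟩ := (Nat.card_ne_zero.1 h).1
  have e : u = τ ∘ zg w x y γ := funext fun i => (hτ i).symm
  rw [e] at hu
  exact hu.of_comp τ

private theorem C6_two {K N : Type} [Field K] [Field N] [Algebra K N] (a b : N) :
    Algebra.trdeg K (adjoin K ({a, b} : Set N)) ≤ 2 := by
  have ha : a ∈ adjoin K ({a, b} : Set N) := subset_adjoin _ _ (Set.mem_insert _ _)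
  have hb : b ∈ adjoin K ({a, b} : Set N) := subset_adjoin _ _ (Set.mem_insert_of_mem _ rfl)
  let s : Set (adjoin K ({a, b} : Set N)) := {⟨a, ha⟩, ⟨b, hb⟩}
  have h1 : adjoin K s = ⊤ := by
    apply lift_injective (adjoin K ({a, b} : Set N))
    rw [lift_adjoin, lift_top]
    congr 1
    exact Set.image_pair _ _ _
  have h2 : Algebra.IsAlgebraic (Algebra.adjoin K s) (adjoin K ({a, b} : Set N)) := by
    rw [← isAlgebraic_adjoin_iff_top, h1, Algebra.isAlgebraic_iff_isIntegral]
    exact Algebra.isIntegral_of_surjective topEquiv.surjective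
  refine (Algebra.IsAlgebraic.trdeg_le_cardinalMk K s).trans ?_
  refine Cardinal.mk_insert_le.trans ?_
  rw [Cardinal.mk_singleton, one_add_one_eq_two]

private theorem C6_bound (K : IntermediateField B N) (h : Algebra.trdeg B K ≤ 3) (a b : N) (z : Fin 6 → N)
    (hz : ∀ i, z i ∈ adjoin K ({a, b} : Set N)) : ¬ AlgebraicIndependent B z := by
  intro hi
  have h1 : AlgebraicIndependent B (fun i => (⟨z i, hz i⟩ : adjoin K ({a, b} : Set N))) :=
    AlgebraicIndependent.of_comp ((adjoin K ({a, b} : Set N)).val.restrictScalars B) hi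
  have h2 := h1.cardinalMk_le_trdeg
  rw [← trdeg_add_eq B K, Cardinal.mk_fin] at h2
  have h3 := h2.trans (add_le_add h (C6_two (K := K) a b))
  have h4 : ((6 : ℕ) : Cardinal) ≤ ((5 : ℕ) : Cardinal) := h3.trans (le_of_eq (by norm_num))
  rw [Nat.cast_le] at h4
  omega

/-- `zg` lies in `K(x_i, y_j)` for `K = rat x ⊔ rat y` and indices `i`, `j` with `x_i ≠ 0`, `y_j ≠ 0` (or none): all
`x_m = (x_m / x_i) x_i`. So the six algebraically independent elements `zg` lie in a field of transcendence degree at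
most `3 + 2`. -/
theorem trdeg_rat_rat (w : B) (x y : Fin 6 → N) (γ : Fin 6 → ZMod 3)
    (h : Algebra.trdeg B (rat B x ⊔ rat B y : IntermediateField B N) ≤ 3) :
    ¬ AlgebraicIndependent B (zg w x y γ) := by
  have key : ∀ v : Fin 6 → N, ∃ a : N, ∀ m, ∃ c ∈ rat B v, v m = c * a := by
    intro v
    by_cases hv : ∃ i, v i ≠ 0
    · obtain ⟨i, hi⟩ := hv
      refine ⟨v i, fun m => ⟨v m / v i, subset_adjoin _ _ ⟨m, i, rfl⟩, ?_⟩⟩
      rw [div_mul_cancel₀ _ hi]
    · push Not at hv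
      exact ⟨0, fun m => ⟨0, zero_mem _, by rw [hv m, mul_zero]⟩⟩
  obtain ⟨a, ha⟩ := key x
  obtain ⟨b, hb⟩ := key y
  refine C6_bound (rat B x ⊔ rat B y) h a b _ fun m => ?_
  have hK : ∀ c ∈ (rat B x ⊔ rat B y : IntermediateField B N),
      c ∈ adjoin (rat B x ⊔ rat B y : IntermediateField B N) ({a, b} : Set N) := fun c hc =>
    (adjoin (rat B x ⊔ rat B y : IntermediateField B N) ({a, b} : Set N)).algebraMap_mem ⟨c, hc⟩
  have hx : x m ∈ adjoin (rat B x ⊔ rat B y : IntermediateField B N) ({a, b} : Set N) := by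
    obtain ⟨c, hc, e⟩ := ha m
    rw [e]
    exact mul_mem (hK c (le_sup_left (b := rat B y) hc)) (subset_adjoin _ _ (Set.mem_insert _ _))
  have hy : y m ∈ adjoin (rat B x ⊔ rat B y : IntermediateField B N) ({a, b} : Set N) := by
    obtain ⟨c, hc, e⟩ := hb m
    rw [e]
    exact mul_mem (hK c (le_sup_right (a := rat B x) hc)) (subset_adjoin _ _ (Set.mem_insert_of_mem _ rfl))
  exact add_mem (mul_mem (hK _ (IntermediateField.algebraMap_mem _ _)) hx) hy

/-- (G0) -/
theorem gc_zero (V : Valuation A ℝ≥0) (w : B) (u : Fin 6 → A) (hu : AlgebraicIndependent B u)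
    (x y : Fin 6 → N) (γ : Fin 6 → ZMod 3)
    (h : Algebra.trdeg B (rat B x ⊔ rat B y : IntermediateField B N) ≤ 3) :
    gc V w u x y γ = 0 := by
  by_contra h1
  exact trdeg_rat_rat w x y γ h (zg_ind V w u hu x y γ h1)

end MP2619.Q5
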