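import Pool.Agent.Lib.MP_2619d0_ag.Q5.C7a

/-!
Row 2619q5-C7c: base change from `B` to `k1 = B(e)`.
-/

set_option autoImplicit false

namespace MP2619.Q5

open scoped NNReal
open IntermediateField MP2619.R MP2619.N Pool.Agent.Lib.MP_2619d0_ag Pool.Agent.Lib.MP_2619d0_ag.T

variable {F : MvPolynomial (Fin 6) ℂ} {J : Type} {z : Exp3 6 ⊕ J → ℂ} {A : Type} [Field A]
  [CharZero A] [Algebra ℂ A] {u l : Fin 6 → A} {v2 : Valuation ℚ ℝ≥0} {V : Valuation A ℝ≥0}

section C7cRF

variable {k M k' M' : Type} [Field k] [Field M] [Field k']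
  [Field M'] [Algebra k M] [Algebra k k'] [Algebra k M'] [Algebra M M'] [Algebra k' M']
  [IsScalarTower k M M'] [IsScalarTower k k' M'] {t : k'}

private theorem C7c_trans (h : RF k M k' M' t) : Transcendental k t := by
  have h1 : Transcendental k (algebraMap k' M' t) := h.trans.restrictScalars
    (algebraMap k M).injective
  intro h2
  exact h1 (h2.algHom (IsScalarTower.toAlgHom k k' M'))

private theorem C7c_ind (h : RF k M k' M' t) {n : ℕ} (z : Fin n → M')
    (h0 : AlgebraicIndependent k (Fin.cons (algebraMap k' M' t) z : Fin (n + 1) → M')) :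
    AlgebraicIndependent k' z := by
  have hinj : Function.Injective (algebraMap k' M') := (algebraMap k' M').injective
  have h1 : AlgebraicIndependent k (Fin.cons (algebraMap k' M' t) z : Fin (n + 1) → M') ↔
      AlgebraicIndependent k (Sum.elim z (fun _ : Fin 1 => algebraMap k' M' t)) := by
    symm
    refine algebraicIndependent_equiv' (Equiv.ofBijective
      (Sum.elim Fin.succ (fun _ : Fin 1 => (0 : Fin (n + 1)))) ⟨?_, ?_⟩) ?_
    · rintro (a | a) (b | b) hab
      · simpa using hab
      · exact absurd hab (Fin.succ_ne_zero a)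
      · exact absurd hab.symm (Fin.succ_ne_zero b)
      · rw [Subsingleton.elim a b]
    · intro i
      refine Fin.cases ⟨Sum.inr 0, rfl⟩ (fun i => ⟨Sum.inl i, rfl⟩) i
    · funext s
      rcases s with a | a
      · exact Fin.cons_succ _ _ _
      · exact Fin.cons_zero _ _
  have h2 := h1.1 h0
  have h3 := (AlgebraicIndependent.sumElim_iff.1 h2).2
  have halg : Algebra.IsAlgebraic (Algebra.adjoin k ({t} : Set k')) k' := by
    rw [← IntermediateField.isAlgebraic_adjoin_iff_top, h.genk]
    infer_instance
  rw [← Algebra.IsAlgebraic.algebraicIndependent_iff (Algebra.adjoin k ({t} : Set k')) k']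
  have hmap : (Algebra.adjoin k ({t} : Set k')).map (IsScalarTower.toAlgHom k k' M') =
      Algebra.adjoin k (Set.range (fun _ : Fin 1 => algebraMap k' M' t)) := by
    rw [AlgHom.map_adjoin, Set.image_singleton, Set.range_const]
    rfl
  let e : Algebra.adjoin k ({t} : Set k') ≃ₐ[k]
      Algebra.adjoin k (Set.range (fun _ : Fin 1 => algebraMap k' M' t)) :=
    ((Algebra.adjoin k ({t} : Set k')).equivMapOfInjective
      (IsScalarTower.toAlgHom k k' M') hinj).trans (Subalgebra.equivOfEq _ _ hmap)
  exact (algebraicIndependent_ringHom_iff_of_comp_eq e (RingHom.id M')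
    Function.injective_id (RingHom.ext fun _ => rfl)).1 h3

private theorem C7c_deg (h : RF k M k' M' t) {n : ℕ} (z : Fin n → M') :
    Module.finrank (adjoin k' (Set.range z)) M' = Module.finrank
      (adjoin k (Set.range (Fin.cons (algebraMap k' M' t) z : Fin (n + 1) → M'))) M' := by
  have hfield : (adjoin k' (Set.range z)).restrictScalars k =
      adjoin k (Set.range (Fin.cons (algebraMap k' M' t) z : Fin (n + 1) → M')) := by
    apply le_antisymm
    · intro x hx
      have hx' : x ∈ adjoin k' (Set.range z) := hx
      have hc : ∀ c : k', algebraMap k' M' c ∈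
          adjoin k (Set.range (Fin.cons (algebraMap k' M' t) z : Fin (n + 1) → M')) := by
        intro c
        have hc : c ∈ adjoin k ({t} : Set k') := by rw [h.genk]; trivial
        induction hc using IntermediateField.adjoin_induction with
        | mem u hu =>
          rw [Set.mem_singleton_iff] at hu
          subst hu
          exact subset_adjoin _ _ ⟨0, by simp⟩
        | algebraMap a =>
          rw [← IsScalarTower.algebraMap_apply k k' M']
          exact IntermediateField.algebraMap_mem _ _
        | add a b _ _ ha hb => rw [map_add]; exact add_mem ha hb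
        | inv a _ ha => rw [map_inv₀]; exact inv_mem ha
        | mul a b _ _ ha hb => rw [map_mul]; exact mul_mem ha hb
      induction hx' using IntermediateField.adjoin_induction with
      | mem u hu =>
        obtain ⟨i, rfl⟩ := hu
        exact subset_adjoin _ _ ⟨i.succ, by simp⟩
      | algebraMap a => exact hc a
      | add a b ha' hb' ha hb => exact add_mem (ha ha') (hb hb')
      | inv a ha' ha => exact inv_mem (ha ha')
      | mul a b ha' hb' ha hb => exact mul_mem (ha ha') (hb hb')
    · rw [adjoin_le_iff]
      rintro _ ⟨i, rfl⟩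
      refine Fin.cases ?_ (fun i => ?_) i
      · show _ ∈ adjoin k' (Set.range z)
        rw [Fin.cons_zero]
        exact IntermediateField.algebraMap_mem _ _
      · show _ ∈ adjoin k' (Set.range z)
        rw [Fin.cons_succ]
        exact subset_adjoin _ _ ⟨i, rfl⟩
  rw [← hfield]
  rfl

private theorem C7c_fg (h : RF k M k' M' t) {n : ℕ} (z : Fin n → M) (hz : AlgebraicIndependent k z)
    (hf : Module.finrank (adjoin k (Set.range z)) M ≠ 0) :
    AlgebraicIndependent k' (fun i => algebraMap M M' (z i)) ∧
      Module.finrank (adjoin k' (Set.range fun i => algebraMap M M' (z i))) M' ≠ 0 := by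
  have hmap : adjoin k (Set.range fun i => algebraMap M M' (z i)) =
      (adjoin k (Set.range z)).map (IsScalarTower.toAlgHom k M M') := by
    rw [adjoin_map, ← Set.range_comp]
    rfl
  constructor
  · refine C7c_ind h _ ((ind_cons _ _).2 ⟨hz.map' (f := IsScalarTower.toAlgHom k M M')
      (algebraMap M M').injective, ?_⟩)
    rw [hmap]
    set K := adjoin k (Set.range z) with hK
    let f : (K.map (IsScalarTower.toAlgHom k M M')) →+* M :=
      K.val.toRingHom.comp (K.equivMap (IsScalarTower.toAlgHom k M M')).symm.toRingHom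
    refine Transcendental.of_ringHom_of_comp_eq f (RingHom.id M') h.trans f.injective ?_
    ext x
    obtain ⟨y, rfl⟩ := (K.equivMap (IsScalarTower.toAlgHom k M M')).surjective x
    simp [f]
  · rw [C7c_deg h, finrank_cons, hmap]
    set K := adjoin k (Set.range z) with hK
    have : FiniteDimensional K M := Module.finite_of_finrank_pos (Nat.pos_of_ne_zero hf)
    set K' := K.map (IsScalarTower.toAlgHom k M M') with hK'
    set E := adjoin K' ({algebraMap k' M' t} : Set M') with hE
    have hfin : Module.finrank E M' = Module.finrank K M := by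
      refine D1c_finrank (K := K) (M := M) (L := E)
        ⟨algebraMap k' M' t, subset_adjoin _ _ rfl⟩
        ((algebraMap K' E).comp (K.equivMap (IsScalarTower.toAlgHom k M M')).toRingHom) ?_ ?_ ?_ ?_
      · intro x
        rfl
      · exact h.trans
      · exact h.genM
      · intro x
        obtain ⟨r, s, hx⟩ := mem_adjoin_simple_iff _ _ |>.1 x.2
        let e := K.equivMap (IsScalarTower.toAlgHom k M M')
        obtain ⟨p, rfl⟩ := Polynomial.map_surjective e.toRingHom e.surjective r
        obtain ⟨q, rfl⟩ := Polynomial.map_surjective e.toRingHom e.surjective s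
        refine ⟨p, q, ?_⟩
        have key : ∀ p : Polynomial K, algebraMap E M' (p.eval₂ ((algebraMap K' E).comp e.toRingHom)
            ⟨algebraMap k' M' t, subset_adjoin _ _ rfl⟩) =
            Polynomial.aeval (algebraMap k' M' t) (p.map e.toRingHom) := by
          intro p
          rw [Polynomial.hom_eval₂, Polynomial.aeval_def, Polynomial.eval₂_map]
          rfl
        apply (algebraMap E M').injective
        rw [map_div₀, key, key]
        exact hx
    rw [hfin]
    exact hf

end C7cRF

private theorem C7c_key {K L : Type} [Field K] [Field L] [Algebra K L] (f : L)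
    (h : Transcendental K f) (hg : adjoin K ({f} : Set L) = ⊤) :
    ∃ e : RatFunc K ≃ₐ[K] L, e RatFunc.X = f := by
  refine ⟨(RatFunc.algEquivOfTranscendental f h).trans
    ((IntermediateField.equivOfEq hg).trans IntermediateField.topEquiv), ?_⟩
  have h1 := RatFunc.algEquivOfTranscendental_X f h
  exact h1

/-- Row C7c. `N' = FractionRing N[X]` (or `RatFunc N`), `k1 → N'` with `e ↦ X` (`e` is transcendental over `B` and generates
`k1`: `BE_trans`, `hB.gen`). `Dat`: `fin`, `om` as assumed; `eqs`: `FB` with coefficients in `k1`; `fg`: the images of `z0`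
(`RF` in R/D1.lean: `D1c_finrank`). `RF.trdeg_rat` for the last two. -/
theorem exists_base (S : St F z u l v2 V) (k1 : IntermediateField (Qz z) ℂ)
    (hk1 : FiniteDimensional (Qz z) k1) (w : k1) (hom : w ^ 2 + w + 1 = 0) {B : Type}
    [Field B] [Algebra B k1] [Algebra B A] [IsScalarTower B k1 A] (e : k1) (j : J)
    (hB : BE z k1 B e j) {N : Type} [Field N] [Algebra B N]
    (hfg : ∃ z0 : Fin 6 → N, AlgebraicIndependent B z0 ∧
      Module.finrank (adjoin B (Set.range z0)) N ≠ 0) (x y : Fin 6 → N)
    (FB : MvPolynomial (Fin 6) B)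
    (hF : MvPolynomial.map ((algebraMap k1 ℂ).comp (algebraMap B k1)) FB = F)
    (hx : MvPolynomial.aeval x FB = 0) (hy : MvPolynomial.aeval y FB = 0) :
    ∃ (N' : Type) (_ : Field N') (_ : Algebra B N') (_ : Algebra N N') (_ : Algebra k1 N')
      (_ : IsScalarTower B N N') (_ : IsScalarTower B k1 N'), RF B N k1 N' e ∧
      Dat F z k1 w (fun i => algebraMap N N' (x i)) (fun i => algebraMap N N' (y i)) ∧
      (∀ D : ℕ, Algebra.trdeg B (rat B x) ≤ D →
        Algebra.trdeg k1 (rat k1 (fun i => algebraMap N N' (x i))) ≤ D) ∧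
      (∀ D : ℕ, Algebra.trdeg B (rat B y) ≤ D →
        Algebra.trdeg k1 (rat k1 (fun i => algebraMap N N' (y i))) ≤ D) := by
  obtain ⟨k', N', _, _, _, _, _, _, _, _, t, h⟩ := exists_RF B N
  have ht : Transcendental B t := C7c_trans h
  have heA : Transcendental B (algebraMap k1 A e) := by
    have h1 := BE_trans S k1 e j hB
    have h2 : Transcendental (adjoin B (Set.range u)) (algebraMap k1 A e) :=
      h1.restrictScalars (algebraMap (adjoin B (Set.range u))
        (algebraicClosure (adjoin B (Set.range u)) A)).injective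
    exact h2.restrictScalars (algebraMap B (adjoin B (Set.range u))).injective
  have he : Transcendental B e := by
    intro h2
    exact heA (h2.algHom (IsScalarTower.toAlgHom B k1 A))
  obtain ⟨e1, he1⟩ := C7c_key e he hB.gen
  obtain ⟨e2, he2⟩ := C7c_key t ht h.genk
  let ε : k1 ≃ₐ[B] k' := e1.symm.trans e2
  have hε : ε e = t := by
    show e2 (e1.symm e) = t
    rw [← he1, AlgEquiv.symm_apply_apply, he2]
  let a1 : Algebra k1 N' := ((algebraMap k' N').comp ε.toRingEquiv.toRingHom).toAlgebra
  have ha1 : ∀ c : k1, algebraMap k1 N' c = algebraMap k' N' (ε c) := fun c => rfl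
  have t1 : IsScalarTower B k1 N' := IsScalarTower.of_algebraMap_eq fun b => by
    rw [ha1, AlgEquiv.commutes, ← IsScalarTower.algebraMap_apply B k' N']
  have hRF : RF B N k1 N' e := by
    refine ⟨?_, hB.gen, ?_⟩
    · rw [ha1, hε]
      exact h.trans
    · rw [ha1, hε]
      exact h.genM
  have hae : ∀ x : Fin 6 → N, MvPolynomial.aeval x FB = 0 →
      MvPolynomial.aeval (fun i => algebraMap N N' (x i)) (MvPolynomial.map (algebraMap B k1) FB) =
        (0 : N') := by
    intro x hx
    rw [MvPolynomial.aeval_map_algebraMap]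
    have h1 := MvPolynomial.aeval_algebraMap_apply (A := N) N' x FB
    have h2 : MvPolynomial.aeval (fun i => algebraMap N N' (x i)) FB =
        algebraMap N N' (MvPolynomial.aeval x FB) := h1
    rw [h2, hx, map_zero]
  obtain ⟨z0, h0, h1⟩ := hfg
  refine ⟨N', inferInstance, inferInstance, inferInstance, a1, inferInstance, t1, hRF,
    ⟨hk1, hom, ⟨MvPolynomial.map (algebraMap B k1) FB, ?_, hae x hx, hae y hy⟩,
      ⟨fun i => algebraMap N N' (z0 i), C7c_fg hRF z0 h0 h1⟩⟩, fun D hD => ?_, fun D hD => ?_⟩
  · rw [MvPolynomial.map_map]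
    exact hF
  · exact RF.trdeg_rat hRF x D hD
  · exact RF.trdeg_rat hRF y D hD

end MP2619.Q5
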