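import Pool.Agent.Lib.MP_2619d0_ag.Q5.CDefs

/-!
Row 2619q5-C8a: the residue field is finitely generated.
-/

set_option autoImplicit false

namespace MP2619.Q5

open scoped NNReal
open IntermediateField MP2619.R MP2619.N Pool.Agent.Lib.MP_2619d0_ag Pool.Agent.Lib.MP_2619d0_ag.T

open scoped IntermediateField.algebraAdjoinAdjoin

private theorem C8a_phi {B M N : Type} [Field B] [Field M] [Field N] [Algebra B M] [Algebra B N]
    {P : ValuationSubring M} {φ : P →+* N} (hφ : RMap B P φ) (v : Fin 6 → P)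
    (Q : MvPolynomial (Fin 6) B) :
    φ (MvPolynomial.eval₂ ((algebraMap B M).codRestrict P hφ.cst) v Q) =
      MvPolynomial.aeval (fun i => φ (v i)) Q := by
  rw [MvPolynomial.aeval_def]
  have h1 := MvPolynomial.eval₂_comp_left φ ((algebraMap B M).codRestrict P hφ.cst) v Q
  have h2 : φ.comp ((algebraMap B M).codRestrict P hφ.cst) = algebraMap B N :=
    RingHom.ext hφ.alg
  rw [h2] at h1
  exact h1

private theorem C8a_small {B M N : Type} [Field B] [Field M] [Field N] [Algebra B M] [Algebra B N]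
    {P : ValuationSubring M} {φ : P →+* N} (hφ : RMap B P φ) (v : Fin 6 → P)
    (hv : AlgebraicIndependent B (fun i => φ (v i))) (Q : MvPolynomial (Fin 6) B) :
    ∃ q : P, (q : M) = MvPolynomial.aeval (fun i => (v i : M)) Q ∧
      φ q = MvPolynomial.aeval (fun i => φ (v i)) Q ∧ (φ q = 0 → (q : M) = 0) := by
  have h1 := eval_coe (k := B) hφ.cst v Q
  have h2 := C8a_phi hφ v Q
  refine ⟨_, h1, h2, fun h3 => ?_⟩
  rw [h2] at h3
  have h4 : Q = 0 := hv.eq_zero_of_aeval_eq_zero Q h3
  rw [h1, h4, map_zero]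

private theorem C8a_field {B M N : Type} [Field B] [Field M] [Field N] [Algebra B M] [Algebra B N]
    {P : ValuationSubring M} {φ : P →+* N} (hφ : RMap B P φ) (v : Fin 6 → P)
    (hv : AlgebraicIndependent B (fun i => φ (v i))) (z : M)
    (hz : z ∈ adjoin B (Set.range fun i => (v i : M))) :
    ∃ q : P, (q : M) = z ∧ φ q ∈ adjoin B (Set.range fun i => φ (v i)) ∧
      (φ q = 0 → z = 0) := by
  obtain ⟨r, s, hrs⟩ := (mem_adjoin_range_iff B _ z).1 hz
  obtain ⟨a, ha, ha1, ha2⟩ := C8a_small hφ v hv r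
  obtain ⟨b, hb, hb1, hb2⟩ := C8a_small hφ v hv s
  rw [← ha, ← hb] at hrs
  by_cases h0 : (b : M) = 0
  · refine ⟨0, ?_, ?_, fun _ => ?_⟩
    · rw [hrs, h0, div_zero]
      rfl
    · rw [map_zero]
      exact zero_mem _
    · rw [hrs, h0, div_zero]
  · have hbv : P.valuation (b : M) = 1 := by
      refine le_antisymm ((P.valuation_le_one_iff _).2 b.2) (not_lt.1 fun h2 => ?_)
      exact h0 (hb2 ((hφ.zero b).2 h2))
    have hzP : z ∈ P := by
      rw [← P.valuation_le_one_iff, hrs, map_div₀, hbv, div_one]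
      exact (P.valuation_le_one_iff _).2 a.2
    have hmul : (⟨z, hzP⟩ : P) * b = a := by
      apply Subtype.ext
      change z * (b : M) = a
      rw [hrs, div_mul_cancel₀ _ h0]
    have hmul' : φ ⟨z, hzP⟩ * φ b = φ a := by rw [← map_mul, hmul]
    have hφb : φ b ≠ 0 := fun h2 => h0 (hb2 h2)
    refine ⟨⟨z, hzP⟩, rfl, ?_, fun h2 => ?_⟩
    · rw [eq_div_of_mul_eq hφb hmul', ha1, hb1]
      exact (mem_adjoin_range_iff B _ _).2 ⟨r, s, rfl⟩
    · rw [h2, zero_mul] at hmul'
      rw [hrs, ha2 hmul'.symm, zero_div]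

private theorem C8a_step {B M N : Type} [Field B] [Field M] [Field N] [Algebra B M] [Algebra B N]
    {P : ValuationSubring M} {φ : P →+* N} (hφ : RMap B P φ) (K : IntermediateField B M)
    (K' : IntermediateField B N)
    (hK : ∀ z ∈ K, ∃ q : P, (q : M) = z ∧ φ q ∈ K' ∧ (φ q = 0 → z = 0))
    {e : M} (he0 : e ≠ 0) (he : P.valuation e < 1) {s : Finset N}
    (hs : LinearIndependent K' (fun i : s => (i : N))) (a : s → P) (ha : ∀ i, φ (a i) = i)
    (Q : s → Polynomial K) (hQ : ∑ i, Polynomial.aeval e (Q i) * (a i : M) = 0) :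
    (∀ i, (Q i).coeff 0 = 0) ∧ ∑ i, Polynomial.aeval e (Q i).divX * (a i : M) = 0 := by
  have heP : e ∈ P := (P.valuation_le_one_iff _).1 he.le
  have hKP : ∀ z ∈ K, z ∈ P := by
    intro z hz
    obtain ⟨q, hq, _⟩ := hK z hz
    rw [← hq]
    exact q.2
  have hmem : ∀ R : Polynomial K, Polynomial.aeval e R ∈ P := by
    intro R
    rw [Polynomial.aeval_eq_sum_range]
    refine sum_mem fun i _ => ?_
    rw [Algebra.smul_def]
    exact mul_mem (hKP _ (R.coeff i).2) (pow_mem heP i)
  have hφe : φ ⟨e, heP⟩ = 0 := (hφ.zero _).2 he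
  have hdec : ∀ i, Polynomial.aeval e (Q i) =
      Polynomial.aeval e (Q i).divX * e + ((Q i).coeff 0 : M) := by
    intro i
    conv_lhs => rw [← Polynomial.divX_mul_X_add (Q i)]
    rw [map_add, map_mul, Polynomial.aeval_X, Polynomial.aeval_C]
    rfl
  have hφQ : ∀ i, φ ⟨Polynomial.aeval e (Q i), hmem _⟩ =
      φ ⟨((Q i).coeff 0 : M), hKP _ ((Q i).coeff 0).2⟩ := by
    intro i
    have h1 : (⟨Polynomial.aeval e (Q i), hmem _⟩ : P) =
        ⟨Polynomial.aeval e (Q i).divX, hmem _⟩ * ⟨e, heP⟩ +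
          ⟨((Q i).coeff 0 : M), hKP _ ((Q i).coeff 0).2⟩ := Subtype.ext (hdec i)
    rw [h1, map_add, map_mul, hφe, mul_zero, zero_add]
  have hsum : ∑ i, (⟨Polynomial.aeval e (Q i), hmem _⟩ : P) * a i = 0 := by
    apply Subtype.ext
    push_cast
    exact hQ
  have hsum' : ∑ i, φ ⟨((Q i).coeff 0 : M), hKP _ ((Q i).coeff 0).2⟩ * (i : N) = 0 := by
    have h1 := congrArg φ hsum
    rw [map_sum, map_zero] at h1
    rw [← h1]
    refine Finset.sum_congr rfl fun i _ => ?_
    rw [map_mul, hφQ, ha]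
  have hK'mem : ∀ i, φ ⟨((Q i).coeff 0 : M), hKP _ ((Q i).coeff 0).2⟩ ∈ K' := by
    intro i
    obtain ⟨q, hq, hq1, _⟩ := hK _ ((Q i).coeff 0).2
    have h1 : (⟨((Q i).coeff 0 : M), hKP _ ((Q i).coeff 0).2⟩ : P) = q := Subtype.ext hq.symm
    rw [h1]
    exact hq1
  have hlin := Fintype.linearIndependent_iff.1 hs
    (fun i => ⟨φ ⟨((Q i).coeff 0 : M), hKP _ ((Q i).coeff 0).2⟩, hK'mem i⟩) (by
      rw [← hsum']
      exact Finset.sum_congr rfl fun i _ => rfl)
  have hc : ∀ i, (Q i).coeff 0 = 0 := by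
    intro i
    obtain ⟨q, hq, _, hq2⟩ := hK _ ((Q i).coeff 0).2
    have h1 : (⟨((Q i).coeff 0 : M), hKP _ ((Q i).coeff 0).2⟩ : P) = q := Subtype.ext hq.symm
    have h2 : φ q = 0 := by
      rw [← h1]
      exact congrArg Subtype.val (hlin i)
    exact Subtype.ext (hq2 h2)
  refine ⟨hc, ?_⟩
  have h3 : e * ∑ i, Polynomial.aeval e (Q i).divX * (a i : M) = 0 := by
    rw [← hQ, Finset.mul_sum]
    refine Finset.sum_congr rfl fun i _ => ?_
    rw [hdec i, hc i]
    push_cast
    ring
  exact (mul_eq_zero.1 h3).resolve_left he0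

private theorem C8a_poly {B M N : Type} [Field B] [Field M] [Field N] [Algebra B M] [Algebra B N]
    {P : ValuationSubring M} {φ : P →+* N} (hφ : RMap B P φ) (K : IntermediateField B M)
    (K' : IntermediateField B N)
    (hK : ∀ z ∈ K, ∃ q : P, (q : M) = z ∧ φ q ∈ K' ∧ (φ q = 0 → z = 0))
    {e : M} (he0 : e ≠ 0) (he : P.valuation e < 1) {s : Finset N}
    (hs : LinearIndependent K' (fun i : s => (i : N))) (a : s → P) (ha : ∀ i, φ (a i) = i)
    (n : ℕ) : ∀ Q : s → Polynomial K, (∀ i, (Q i).natDegree ≤ n) →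
      ∑ i, Polynomial.aeval e (Q i) * (a i : M) = 0 → ∀ i, Q i = 0 := by
  induction n with
  | zero =>
    intro Q hn hQ i
    obtain ⟨h1, _⟩ := C8a_step hφ K K' hK he0 he hs a ha Q hQ
    rw [Polynomial.eq_C_of_natDegree_le_zero (hn i), h1 i, map_zero]
  | succ n ih =>
    intro Q hn hQ i
    obtain ⟨h1, h2⟩ := C8a_step hφ K K' hK he0 he hs a ha Q hQ
    have h3 := ih (fun i => (Q i).divX) (fun i => by
      rw [Polynomial.natDegree_divX_eq_natDegree_tsub_one]
      have := hn i
      omega) h2 i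
    rw [← Polynomial.divX_mul_X_add (Q i), h1 i, map_zero, add_zero]
    change (Q i).divX = 0 at h3
    rw [h3, zero_mul]

/-- `M` has transcendence degree seven over `B` and is finite over `B(z0)`; `v` six elements of `P` with algebraically
independent residues. Put `K = adjoin B (range v)`. Every non-zero element of `B[v]` is a unit of `P` (`adj_small`), so
`K ⊆ P` and `φ` is injective on `K`; `e` is transcendental over `K` (`transc_adj` in R/C4), so `(v, e)` is a
transcendence basis and `M` is finite over `K(e)` (`fin_iff_ind`, R/A8, for `n = 7`). If `a_1, .., a_m ∈ P` have residues linearly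
independent over `φ(K)`, then the `a_i` are linearly independent over `K(e)`: otherwise `∑ c_i a_i = 0` with
`c_i ∈ K[e]` not all divisible by `e`, and the residue is a non-trivial relation `∑ c_i(0) φ(a_i) = 0`
(`P.valuation e < 1`). So `[N : φ(K)] ≤ [M : K(e)]`. -/
theorem res_fin {B M N : Type} [Field B] [Field M] [Field N] [Algebra B M] [Algebra B N]
    (P : ValuationSubring M) (φ : P →+* N) (hφ : RMap B P φ) (e : M) (he0 : e ≠ 0)
    (he : P.valuation e < 1) (z0 : Fin 7 → M) (hz0 : AlgebraicIndependent B z0)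
    (hf0 : Module.finrank (adjoin B (Set.range z0)) M ≠ 0) (v : Fin 6 → P)
    (hv : AlgebraicIndependent B (fun i => φ (v i))) :
    Module.finrank (adjoin B (Set.range fun i => φ (v i))) N ≠ 0 := by
  set K : IntermediateField B M := adjoin B (Set.range fun i => (v i : M)) with hKdef
  set K' : IntermediateField B N := adjoin B (Set.range fun i => φ (v i)) with hK'def
  have hK : ∀ z ∈ K, ∃ q : P, (q : M) = z ∧ φ q ∈ K' ∧ (φ q = 0 → z = 0) :=
    C8a_field hφ v hv
  have hKs : ∀ z ∈ K.toSubalgebra, z ∈ P ∧ (P.valuation z < 1 → z = 0) := by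
    intro z hz
    obtain ⟨q, hq, _, hq2⟩ := hK z hz
    refine ⟨by rw [← hq]; exact q.2, fun h1 => hq2 ((hφ.zero q).2 ?_)⟩
    rw [hq]
    exact h1
  have htr : Transcendental K e := transc_adj K.toSubalgebra hKs e he0 he
  have hvM : AlgebraicIndependent B (fun i => (v i : M)) := by
    rw [algebraicIndependent_iff]
    intro Q hQ
    obtain ⟨q, hq, hq1, _⟩ := C8a_small hφ v hv Q
    have h1 : q = 0 := Subtype.ext (by rw [hq, hQ]; rfl)
    rw [h1, map_zero] at hq1
    exact hv.eq_zero_of_aeval_eq_zero Q hq1.symm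
  have hcons : AlgebraicIndependent B (Fin.cons e (fun i => (v i : M)) : Fin 7 → M) :=
    (ind_cons e _).2 ⟨hvM, htr⟩
  have hfin := (fin_iff_ind z0 _ hz0 hf0).1 hcons
  rw [finrank_cons] at hfin
  have hfd : Module.Finite (adjoin K ({e} : Set M)) M :=
    Module.finite_of_finrank_pos (Nat.pos_of_ne_zero hfin)
  have hrank : Module.rank K' N ≤ (Module.finrank (adjoin K ({e} : Set M)) M : ℕ) := by
    refine rank_le fun s hs => ?_
    choose a ha using fun i : s => hφ.surj (i : N)
    have hlin : LinearIndependent (Algebra.adjoin K ({e} : Set M)) (fun i => (a i : M)) := by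
      rw [Fintype.linearIndependent_iff]
      intro g hg
      have hex : ∀ i, ∃ Q : Polynomial K, Polynomial.aeval e Q = (g i : M) := by
        intro i
        exact (SetLike.ext_iff.1 (Algebra.adjoin_singleton_eq_range_aeval K e) _).1 (g i).2
      choose Q hQ using hex
      have h2 : ∑ i, Polynomial.aeval e (Q i) * (a i : M) = 0 := by
        rw [← hg]
        refine Finset.sum_congr rfl fun i _ => ?_
        rw [hQ]
        rfl
      have h3 := C8a_poly hφ K K' hK he0 he hs a ha (Finset.univ.sup fun i => (Q i).natDegree) Q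
        (fun i => Finset.le_sup (f := fun i => (Q i).natDegree) (Finset.mem_univ i)) h2
      intro i
      apply Subtype.ext
      rw [← hQ i, h3 i, map_zero]
      rfl
    have hlin' : LinearIndependent (adjoin K ({e} : Set M)) (fun i => (a i : M)) :=
      (LinearIndependent.iff_fractionRing (Algebra.adjoin K ({e} : Set M))
        (adjoin K ({e} : Set M))).1 hlin
    have h4 := hlin'.fintype_card_le_finrank
    rwa [Fintype.card_coe] at h4
  have hfinN : Module.Finite K' N := by
    rw [← Module.rank_lt_aleph0_iff]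
    exact lt_of_le_of_lt hrank (Cardinal.natCast_lt_aleph0)
  exact (Module.finrank_pos (R := K') (M := N)).ne'

end MP2619.Q5
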