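import Pool.Agent.Lib.MP_2619d0_ag.Q5.C11a

/-!
Row 2619q5-C11b: the numbers `gr` of the ends.
-/

set_option autoImplicit false

namespace MP2619.Q5

open scoped NNReal
open IntermediateField MP2619.R MP2619.N Pool.Agent.Lib.MP_2619d0_ag Pool.Agent.Lib.MP_2619d0_ag.T

variable {F : MvPolynomial (Fin 6) ℂ} {J : Type} {z : Exp3 6 ⊕ J → ℂ} {A : Type} [Field A]
  [CharZero A] [Algebra ℂ A] {u l : Fin 6 → A} {v2 : Valuation ℚ ℝ≥0} {V : Valuation A ℝ≥0}

private theorem C11b_ind (S : St F z u l v2 V) (k1 : IntermediateField (Qz z) ℂ) {B : Type}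
    [Field B] [Algebra B k1] [Algebra B A] [IsScalarTower B k1 A] : AlgebraicIndependent B u := by
  have h1 : AlgebraicIndependent ℂ u := by
    have := S.ctx.ind.comp Sum.inl Sum.inl_injective
    exact this
  refine AlgebraicIndependent.of_ringHom_of_comp_eq
    ((algebraMap k1 ℂ).comp (algebraMap B k1)) (RingHom.id A) h1
    ((algebraMap k1 ℂ).comp (algebraMap B k1)).injective ?_
  ext b
  show algebraMap ℂ A (algebraMap k1 ℂ (algebraMap B k1 b)) = algebraMap B A b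
  rw [IsScalarTower.algebraMap_apply B k1 A, IsScalarTower.algebraMap_apply k1 ℂ A]

private theorem C11b_dat {k1 : IntermediateField (Qz z) ℂ} {w : k1} {M1 : Type} [Field M1]
    [Algebra k1 M1] {x y : Fin 6 → M1} (hD : Dat F z k1 w x y) : Dat F z k1 w y x := by
  obtain ⟨Fk, h1, h2, h3⟩ := hD.eqs
  exact ⟨hD.fin, hD.om, ⟨Fk, h1, h3, h2⟩, hD.fg⟩

private theorem C11b_ep {B M : Type} [Field B] [Field M] [Algebra B M] {e : M} {x y : Fin 6 → M}
    {P : ValuationSubring M} (h : EP B e x y P) : EP B e y x P :=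
  ⟨h.dv, h.cst, h.pos, h.y_mem, h.x_mem⟩

private theorem C11b_symm (S : St F z u l v2 V) (k1 : IntermediateField (Qz z) ℂ) (w : k1)
    {M1 : Type} [Field M1] [Algebra k1 M1] (x y : Fin 6 → M1) (hD : Dat F z k1 w x y) {B : Type}
    [Field B] [Algebra B k1] [Algebra B M1] [Algebra B A] [IsScalarTower B k1 M1]
    [IsScalarTower B k1 A] (e : k1) (j : J) (hB : BE z k1 B e j) (wB : B)
    (hw : algebraMap B k1 wB = w) (P : ValuationSubring M1)
    (hP : EP B (algebraMap k1 M1 e) x y P) {N : Type} [Field N] [Algebra B N] (φ : P →+* N)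
    (hφ : RMap B P φ) (a : Fin 6) (hne : gr V wB u x y P (Pi.single a 1) ≠ 0) :
    Even (gr V wB u x y P (Pi.single a 1) + gr V wB u y x P (Pi.single a 1)) := by
  obtain ⟨h1, h2, FB, h3, h4, h5⟩ := gr_data S k1 w x y hD e j hB wB hw P hP φ hφ _ hne
  have hfg : ∃ z0 : Fin 6 → N, AlgebraicIndependent B z0 ∧
      Module.finrank (adjoin B (Set.range z0)) N ≠ 0 := ⟨_, h1, h2⟩
  obtain ⟨N', _, _, _, _, _, _, hRF, hD', -, -⟩ := exists_base S k1 hD.fin w hD.om e j hB hfg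
    (fun i => φ ⟨x i, hP.x_mem i⟩) (fun i => φ ⟨y i, hP.y_mem i⟩) FB h3 h4 h5
  rw [gr_eq V wB u x y P φ hφ hP.x_mem hP.y_mem, gr_eq V wB u y x P φ hφ hP.y_mem hP.x_mem,
    ← gc_eq_of_RF S k1 w e j hB wB hw hRF hfg (fun i => φ ⟨x i, hP.x_mem i⟩)
      (fun i => φ ⟨y i, hP.y_mem i⟩),
    ← gc_eq_of_RF S k1 w e j hB wB hw hRF hfg (fun i => φ ⟨y i, hP.y_mem i⟩)
      (fun i => φ ⟨x i, hP.x_mem i⟩)]
  exact gc_symm S k1 w _ _ hD' a

/-- `gr_data`, `gr_eq`, `exists_base`, `gc_eq_of_RF`, `gc_R`. -/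
theorem gr_even_x (hR : R2E) (S : St F z u l v2 V) (k1 : IntermediateField (Qz z) ℂ) (w : k1)
    {M1 : Type} [Field M1] [Algebra k1 M1] (x y : Fin 6 → M1) (hD : Dat F z k1 w x y) {B : Type}
    [Field B] [Algebra B k1] [Algebra B M1] [Algebra B A] [IsScalarTower B k1 M1]
    [IsScalarTower B k1 A] (e : k1) (j : J) (hB : BE z k1 B e j) (wB : B)
    (hw : algebraMap B k1 wB = w) (P : ValuationSubring M1)
    (hP : EP B (algebraMap k1 M1 e) x y P) {N : Type} [Field N] [Algebra B N] (φ : P →+* N)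
    (hφ : RMap B P φ) (h : Algebra.trdeg B (rat B (fun i => φ ⟨x i, hP.x_mem i⟩)) ≤ 2)
    (a : Fin 6) : Even (gr V wB u x y P (Pi.single a 1)) := by
  by_cases hne : gr V wB u x y P (Pi.single a 1) = 0
  · rw [hne]
    exact Even.zero
  obtain ⟨h1, h2, FB, h3, h4, h5⟩ := gr_data S k1 w x y hD e j hB wB hw P hP φ hφ _ hne
  have hfg : ∃ z0 : Fin 6 → N, AlgebraicIndependent B z0 ∧
      Module.finrank (adjoin B (Set.range z0)) N ≠ 0 := ⟨_, h1, h2⟩
  obtain ⟨N', _, _, _, _, _, _, hRF, hD', htx, -⟩ := exists_base S k1 hD.fin w hD.om e j hB hfg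
    (fun i => φ ⟨x i, hP.x_mem i⟩) (fun i => φ ⟨y i, hP.y_mem i⟩) FB h3 h4 h5
  rw [gr_eq V wB u x y P φ hφ hP.x_mem hP.y_mem,
    ← gc_eq_of_RF S k1 w e j hB wB hw hRF hfg (fun i => φ ⟨x i, hP.x_mem i⟩)
      (fun i => φ ⟨y i, hP.y_mem i⟩)]
  exact gc_R hR S k1 w _ _ hD' (htx 2 h) a

/-- the same with `gc_R'` -/
theorem gr_even_y (hR : R2E) (S : St F z u l v2 V) (k1 : IntermediateField (Qz z) ℂ) (w : k1)
    {M1 : Type} [Field M1] [Algebra k1 M1] (x y : Fin 6 → M1) (hD : Dat F z k1 w x y) {B : Type}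
    [Field B] [Algebra B k1] [Algebra B M1] [Algebra B A] [IsScalarTower B k1 M1]
    [IsScalarTower B k1 A] (e : k1) (j : J) (hB : BE z k1 B e j) (wB : B)
    (hw : algebraMap B k1 wB = w) (P : ValuationSubring M1)
    (hP : EP B (algebraMap k1 M1 e) x y P) {N : Type} [Field N] [Algebra B N] (φ : P →+* N)
    (hφ : RMap B P φ) (h : Algebra.trdeg B (rat B (fun i => φ ⟨y i, hP.y_mem i⟩)) ≤ 2)
    (a : Fin 6) : Even (gr V wB u x y P (Pi.single a 1)) := by
  by_cases hne : gr V wB u x y P (Pi.single a 1) = 0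
  · rw [hne]
    exact Even.zero
  obtain ⟨h1, h2, FB, h3, h4, h5⟩ := gr_data S k1 w x y hD e j hB wB hw P hP φ hφ _ hne
  have hfg : ∃ z0 : Fin 6 → N, AlgebraicIndependent B z0 ∧
      Module.finrank (adjoin B (Set.range z0)) N ≠ 0 := ⟨_, h1, h2⟩
  obtain ⟨N', _, _, _, _, _, _, hRF, hD', -, hty⟩ := exists_base S k1 hD.fin w hD.om e j hB hfg
    (fun i => φ ⟨x i, hP.x_mem i⟩) (fun i => φ ⟨y i, hP.y_mem i⟩) FB h3 h4 h5
  rw [gr_eq V wB u x y P φ hφ hP.x_mem hP.y_mem,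
    ← gc_eq_of_RF S k1 w e j hB wB hw hRF hfg (fun i => φ ⟨x i, hP.x_mem i⟩)
      (fun i => φ ⟨y i, hP.y_mem i⟩)]
  exact gc_R' hR S k1 w _ _ hD' (hty 2 h) a

/-- `gr_eq`, `gc_zero` -/
theorem gr_zero (S : St F z u l v2 V) (k1 : IntermediateField (Qz z) ℂ) (w : k1)
    {M1 : Type} [Field M1] [Algebra k1 M1] (x y : Fin 6 → M1) (hD : Dat F z k1 w x y) {B : Type}
    [Field B] [Algebra B k1] [Algebra B M1] [Algebra B A] [IsScalarTower B k1 M1]
    [IsScalarTower B k1 A] (e : k1) (j : J) (hB : BE z k1 B e j) (wB : B)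
    (hw : algebraMap B k1 wB = w) (P : ValuationSubring M1)
    (hP : EP B (algebraMap k1 M1 e) x y P) {N : Type} [Field N] [Algebra B N] (φ : P →+* N)
    (hφ : RMap B P φ) (h : Algebra.trdeg B (rat B (fun i => φ ⟨x i, hP.x_mem i⟩) ⊔
      rat B (fun i => φ ⟨y i, hP.y_mem i⟩) : IntermediateField B N) ≤ 3)
    (γ : Fin 6 → ZMod 3) : gr V wB u x y P γ = 0 := by
  rw [gr_eq V wB u x y P φ hφ hP.x_mem hP.y_mem]
  exact gc_zero V wB u (C11b_ind S k1) _ _ γ h

/-- `gr_data`, `exists_base`, `gc_eq_of_RF`, `gc_symm`; if one of the two numbers is not zero (otherwise clear) then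
`gr_data` applies to it (`hD` and `hP` are symmetric in `x`, `y`). -/
theorem gr_symm (S : St F z u l v2 V) (k1 : IntermediateField (Qz z) ℂ) (w : k1)
    {M1 : Type} [Field M1] [Algebra k1 M1] (x y : Fin 6 → M1) (hD : Dat F z k1 w x y) {B : Type}
    [Field B] [Algebra B k1] [Algebra B M1] [Algebra B A] [IsScalarTower B k1 M1]
    [IsScalarTower B k1 A] (e : k1) (j : J) (hB : BE z k1 B e j) (wB : B)
    (hw : algebraMap B k1 wB = w) (P : ValuationSubring M1)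
    (hP : EP B (algebraMap k1 M1 e) x y P) (a : Fin 6) :
    Even (gr V wB u x y P (Pi.single a 1) + gr V wB u y x P (Pi.single a 1)) := by
  obtain ⟨N, _, _, φ, hφ⟩ := exists_RMap P hP.cst
  by_cases h1 : gr V wB u x y P (Pi.single a 1) = 0
  · by_cases h2 : gr V wB u y x P (Pi.single a 1) = 0
    · rw [h1, h2]
      exact Even.zero
    · rw [add_comm]
      exact C11b_symm S k1 w y x (C11b_dat hD) e j hB wB hw P (C11b_ep hP) φ hφ a h2
  · exact C11b_symm S k1 w x y hD e j hB wB hw P hP φ hφ a h1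

end MP2619.Q5
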