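import Pool.Agent.Lib.MP_2619d0_ag.Q5.C11b

/-!
Row 2619q5-C11c: the numbers `gr` of the ends.
-/

set_option autoImplicit false

namespace MP2619.Q5

open scoped NNReal
open IntermediateField MP2619.R MP2619.N Pool.Agent.Lib.MP_2619d0_ag Pool.Agent.Lib.MP_2619d0_ag.T

variable {F : MvPolynomial (Fin 6) ℂ} {J : Type} {z : Exp3 6 ⊕ J → ℂ} {A : Type} [Field A]
  [CharZero A] [Algebra ℂ A] {u l : Fin 6 → A} {v2 : Valuation ℚ ℝ≥0} {V : Valuation A ℝ≥0}

/-- parity of a sum over a set with an involution with one fixed point -/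
private theorem C11c_inv {ι : Type} (S : Finset ι) (f : ι → ℕ) (τ : ι → ι) (p0 : ι)
    (hττ : ∀ p, τ (τ p) = p) (hτ : ∀ p ∈ S, Odd (f p) → τ p ∈ S ∧ Odd (f (τ p)))
    (hfix : ∀ p ∈ S, Odd (f p) → τ p = p → p = p0) (h0 : p0 ∈ S) (hf0 : Odd (f p0)) (h0' : τ p0 = p0) :
    Odd (∑ p ∈ S, f p) := by
  classical
  have h1 : ∑ p ∈ (S.filter fun p => Odd (f p)).erase p0, (f p : ZMod 2) = 0 := by
    refine Finset.sum_involution (fun p _ => τ p) ?_ ?_ ?_ ?_
    · intro p hp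
      rw [Finset.mem_erase, Finset.mem_filter] at hp
      have h2 := (hτ p hp.2.1 hp.2.2).2
      rw [← Nat.cast_add, ZMod.natCast_eq_zero_iff_even]
      exact hp.2.2.add_odd h2
    · intro p hp _ h3
      rw [Finset.mem_erase, Finset.mem_filter] at hp
      exact hp.1 (hfix p hp.2.1 hp.2.2 h3)
    · intro p hp
      rw [Finset.mem_erase, Finset.mem_filter] at hp ⊢
      refine ⟨fun h3 => hp.1 ?_, hτ p hp.2.1 hp.2.2⟩
      rw [← hττ p, h3, h0']
    · intro p _
      exact hττ p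
  have h2 : ∑ p ∈ S, (f p : ZMod 2) = ∑ p ∈ S.filter fun p => Odd (f p), (f p : ZMod 2) := by
    rw [Finset.sum_filter]
    refine Finset.sum_congr rfl fun p _ => ?_
    by_cases hp : Odd (f p)
    · rw [if_pos hp]
    · rw [if_neg hp, ZMod.natCast_eq_zero_iff_even]
      exact Nat.not_odd_iff_even.1 hp
  have h3 : p0 ∈ S.filter fun p => Odd (f p) := Finset.mem_filter.2 ⟨h0, hf0⟩
  have h4 : ((∑ p ∈ S, f p : ℕ) : ZMod 2) = 1 := by
    rw [Nat.cast_sum, h2, ← Finset.add_sum_erase _ _ h3, h1, add_zero]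
    exact (ZMod.natCast_eq_one_iff_odd).2 hf0
  exact (ZMod.natCast_eq_one_iff_odd).1 h4

/-- The end formula on path A with the symmetry `σ`: `lex` and the involution `P ↦ σ P` on the set of all `P ∈ S` with
`ord · gr` odd (`gr_map`, `ord_map`, `gr_symm`, `ord P (-e) = ord P e`); all `P` except `P0` are moved or have even
`ord · gr`. `Finset.sum_involution` in `ZMod 2`. -/
theorem lex_symm (S : St F z u l v2 V) (k1 : IntermediateField (Qz z) ℂ) (w : k1)
    {M1 : Type} [Field M1] [Algebra k1 M1] (x y : Fin 6 → M1) (hD : Dat F z k1 w x y) {B : Type}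
    [Field B] [Algebra B k1] [Algebra B M1] [Algebra B A] [IsScalarTower B k1 M1]
    [IsScalarTower B k1 A] (e : k1) (j : J) (hB : BE z k1 B e j) (wB : B)
    (hw : algebraMap B k1 wB = w) (a : Fin 6)
    (hlex : ∃ S : Finset (ValuationSubring M1),
      (∀ P ∈ S, EP B (algebraMap k1 M1 e) x y P) ∧
      (∀ P, EP B (algebraMap k1 M1 e) x y P → P ∉ S → gr V wB u x y P (Pi.single a 1) = 0) ∧
      Even (gc V w u x y (Pi.single a 1) +
        ∑ P ∈ S, (ord P (algebraMap k1 M1 e)).toNat * gr V wB u x y P (Pi.single a 1)))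
    (σ : M1 ≃ₐ[B] M1) (hσe : σ (algebraMap k1 M1 e) = - algebraMap k1 M1 e)
    (hσx : ∀ i, σ (x i) = y i) (hσy : ∀ i, σ (y i) = x i) (hσ2 : ∀ m, σ (σ m) = m)
    (P0 : ValuationSubring M1) (hP0 : EP B (algebraMap k1 M1 e) x y P0)
    (hs0 : ∀ m : M1, σ m ∈ P0 ↔ m ∈ P0) (ho0 : ord P0 (algebraMap k1 M1 e) = 1)
    (hg0 : Odd (gr V wB u x y P0 (Pi.single a 1)))
    (hesc : ∀ P, EP B (algebraMap k1 M1 e) x y P → (∀ m : M1, σ m ∈ P ↔ m ∈ P) → P ≠ P0 →
      Even (gr V wB u x y P (Pi.single a 1))) :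
    Odd (gc V w u x y (Pi.single a 1)) := by
  obtain ⟨T, hT, hT0, hTe⟩ := hlex
  let τ : ValuationSubring M1 → ValuationSubring M1 := fun P => P.comap (σ : M1 →+* M1)
  have hτm : ∀ (P : ValuationSubring M1) (m : M1), m ∈ τ P ↔ σ m ∈ P := fun P m => Iff.rfl
  have hττ : ∀ P, τ (τ P) = P := by
    intro P
    ext m
    rw [hτm, hτm, hσ2]
  have hτP : ∀ (P : ValuationSubring M1) (m : M1), σ m ∈ τ P ↔ m ∈ P := by
    intro P m
    rw [hτm, hσ2]
  have hEP : ∀ P, EP B (algebraMap k1 M1 e) x y P → EP B (algebraMap k1 M1 e) x y (τ P) := by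
    intro P hP
    obtain ⟨h1, h2, h3⟩ := ord_map σ P (τ P) (hτP P) hP.dv
    refine ⟨h1, fun b => ?_, ?_, fun i => ?_, fun i => ?_⟩
    · rw [hτm, AlgEquiv.commutes]
      exact hP.cst b
    · have h4 := (h3 (algebraMap k1 M1 e)).2 hP.pos
      rwa [hσe, Valuation.map_neg] at h4
    · rw [hτm, hσx]
      exact hP.y_mem i
    · rw [hτm, hσy]
      exact hP.x_mem i
  have hord : ∀ P, EP B (algebraMap k1 M1 e) x y P →
      ord (τ P) (algebraMap k1 M1 e) = ord P (algebraMap k1 M1 e) := by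
    intro P hP
    obtain ⟨h1, h2, h3⟩ := ord_map σ P (τ P) (hτP P) hP.dv
    rw [← h2, hσe, ord_neg]
  have hgr : ∀ P, EP B (algebraMap k1 M1 e) x y P → Odd (gr V wB u x y P (Pi.single a 1)) →
      Odd (gr V wB u x y (τ P) (Pi.single a 1)) := by
    intro P hP ho
    have h1 := gr_map V wB u x y σ P (τ P) (hτP P) (Pi.single a 1)
    simp only [hσx, hσy] at h1
    have h2 := gr_symm S k1 w x y hD e j hB wB hw (τ P) (hEP P hP) a
    rw [h1] at h2
    by_contra h3
    rw [Nat.not_odd_iff_even] at h3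
    exact Nat.not_even_iff_odd.2 ho ((Nat.even_add.1 h2).1 h3)
  have hodd : Odd (∑ P ∈ T, (ord P (algebraMap k1 M1 e)).toNat * gr V wB u x y P (Pi.single a 1)) := by
    have hne : ∀ P, EP B (algebraMap k1 M1 e) x y P → Odd (gr V wB u x y P (Pi.single a 1)) → P ∈ T := by
      intro P hP ho
      by_contra h1
      rw [hT0 P hP h1] at ho
      exact absurd ho (by decide)
    refine C11c_inv T _ τ P0 hττ ?_ ?_ (hne P0 hP0 hg0) ?_ ?_
    · intro P hP ho
      rw [Nat.odd_mul] at ho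
      have h1 := hgr P (hT P hP) ho.2
      refine ⟨hne _ (hEP P (hT P hP)) h1, ?_⟩
      rw [Nat.odd_mul, hord P (hT P hP)]
      exact ⟨ho.1, h1⟩
    · intro P hP ho hfix
      rw [Nat.odd_mul] at ho
      by_contra h1
      refine Nat.not_even_iff_odd.2 ho.2 (hesc P (hT P hP) (fun m => ?_) h1)
      rw [← hτm, hfix]
    · rw [Nat.odd_mul, ho0]
      exact ⟨by decide, hg0⟩
    · ext m
      rw [hτm]
      exact hs0 m
  by_contra h1
  rw [Nat.not_odd_iff_even] at h1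
  exact Nat.not_even_iff_odd.2 hodd ((Nat.even_add.1 hTe).1 h1)

end MP2619.Q5
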