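import Pool.Agent.Lib.MP_2619d0_ag.Q5.C2
import Pool.Agent.Lib.MP_2619d0_ag.Q5.C3

/-!
Row 2619q5-C4: symmetry in the two points.
-/

set_option autoImplicit false

namespace MP2619.Q5

open scoped NNReal
open IntermediateField MP2619.R MP2619.N Pool.Agent.Lib.MP_2619d0_ag Pool.Agent.Lib.MP_2619d0_ag.T

section C4aux

private theorem C4_adj {k M : Type*} [Field k] [Field M] [Algebra k M] {n : ℕ} (u v : Fin n → M)
    (c : Fin n → k) (h : ∀ i, u i = algebraMap k M (c i) * v i) :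
    adjoin k (Set.range u) ≤ adjoin k (Set.range v) := by
  rw [adjoin_le_iff]
  rintro _ ⟨i, rfl⟩
  rw [h i]
  exact (adjoin k (Set.range v)).mul_mem ((adjoin k (Set.range v)).algebraMap_mem _)
    (subset_adjoin _ _ ⟨i, rfl⟩)

private theorem C4_pr {k M : Type*} [Field k] [Field M] [Algebra k M] {n : ℕ} (u v : Fin n → M)
    (c d : Fin n → k) (h : ∀ i, u i = algebraMap k M (c i) * v i)
    (h' : ∀ i, v i = algebraMap k M (d i) * u i) : Pr k u ↔ Pr k v := by
  have he : adjoin k (Set.range u) = adjoin k (Set.range v) :=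
    le_antisymm (C4_adj u v c h) (C4_adj v u d h')
  exact ⟨pr_of_adjoin v u he.symm, pr_of_adjoin u v he⟩

private theorem C4_prH {k M : Type*} [Field k] [Field M] (j : k →+* M) {n : ℕ} (u v : Fin n → M)
    (c d : Fin n → k) (h : ∀ i, u i = j (c i) * v i) (h' : ∀ i, v i = j (d i) * u i) :
    PrH j u ↔ PrH j v := by
  let _ := j.toAlgebra
  exact C4_pr u v c d h h'

private theorem C4_card (p : Fin 2 → Prop) (h : p 0 ↔ p 1) : Even (Nat.card {s : Fin 2 // p s}) := by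
  by_cases h0 : p 0
  · have hall : ∀ s, p s := by
      rw [Fin.forall_fin_two]
      exact ⟨h0, h.1 h0⟩
    rw [Nat.card_congr (Equiv.subtypeUnivEquiv hall), Nat.card_eq_fintype_card, Fintype.card_fin]
    exact even_two
  · have hnone : ∀ s, ¬ p s := by
      rw [Fin.forall_fin_two]
      exact ⟨h0, fun h1 => h0 (h.2 h1)⟩
    have : IsEmpty {s : Fin 2 // p s} := ⟨fun s => hnone s.1 s.2⟩
    rw [Nat.card_of_isEmpty]
    exact Even.zero

private theorem C4_root {R : Type*} [CommRing R] (ζ : R) (h : ζ ^ 3 = 1) (g : ZMod 3) :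
    ζ ^ g.val * ζ ^ (-g).val = 1 := by
  have h1 : ∀ g : ZMod 3, g.val + (-g).val = 0 ∨ g.val + (-g).val = 3 := by decide
  rw [← pow_add]
  rcases h1 g with h2 | h2
  · rw [h2, pow_zero]
  · rw [h2, h]

private theorem C4_root' {R : Type*} [CommRing R] (ζ : R) (h : ζ ^ 3 = 1) (g : ZMod 3) :
    ζ ^ (-g).val * ζ ^ g.val = 1 := by
  rw [mul_comm]
  exact C4_root ζ h g

end C4aux

variable {F : MvPolynomial (Fin 6) ℂ} {J : Type} {z : Exp3 6 ⊕ J → ℂ} {A : Type} [Field A]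
  [CharZero A] [Algebra ℂ A] {u l : Fin 6 → A} {v2 : Valuation ℚ ℝ≥0} {V : Valuation A ℝ≥0}

/-- `end_formula2` for `ι = Fin 2`: `(c, d) = (w^(-γ i), 1)` and `(c, d) = (1, w^(γ i))`; at every `P` the second vector is
`w^(γ i)` times the first one, so both generate the same field over the residue field and `Pr` is the same
(`pr_of_adjoin`). In the counted sets `V (τ (y i)) ≤ 1` follows from `V (τ (x i)) ≤ 1` (and conversely for the second),
because `V (u i) ≤ 1` and `V` of a root of unity is one. `Q9_one`, `Q9_wO` (C0.lean). -/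
theorem gc_swap (S : St F z u l v2 V) (k1 : IntermediateField (Qz z) ℂ) (w : k1) {M1 : Type}
    [Field M1] [Algebra k1 M1] (x y : Fin 6 → M1) (hD : Dat F z k1 w x y) (γ : Fin 6 → ZMod 3) :
    Even (gc V w u x y (-γ) + gc V w u y x γ) := by
  have hA : IsAlgClosed A := S.ctx.closed
  obtain ⟨hV2, hGk, hdv, heq⟩ := Q9_one S.ctx v2 S.two V S.wt 0 k1 w x y hD
  have hwO : w ∈ O1 k1 V := Q9_wO V w hD.om
  have hu1 : ∀ i, V (u i) ≤ 1 := by
    intro i
    have h := hGk (MvPolynomial.X i)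
    rw [MvPolynomial.aeval_X] at h
    rw [h]
    refine Finset.sup_le fun m _ => ?_
    rw [MvPolynomial.coeff_X]
    split_ifs
    · rw [map_one, map_one]
    · rw [map_zero, map_zero]
      exact zero_le_one
  let c : Fin 2 → Fin 6 → k1 := ![fun i => w ^ ((-γ) i).val, fun _ => 1]
  let d : Fin 2 → Fin 6 → k1 := ![fun _ => 1, fun i => w ^ (γ i).val]
  have hc : ∀ s i, c s i ∈ O1 k1 V := by
    rw [Fin.forall_fin_two]
    exact ⟨fun i => pow_mem hwO _, fun i => one_mem _⟩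
  have hd : ∀ s i, d s i ∈ O1 k1 V := by
    rw [Fin.forall_fin_two]
    exact ⟨fun i => one_mem _, fun i => pow_mem hwO _⟩
  have key := end_formula2 V u hGk hdv hD.fg c d hc hd x y (fun P j hj hx hy => by
    refine C4_card _ ?_
    set wb := IsLocalRing.residue (O1 k1 V) ⟨w, hwO⟩ with hwb
    have hw3 : (⟨w, hwO⟩ : O1 k1 V) ^ 3 = 1 := Subtype.ext (Q9_w3 hD.om)
    have hwb3 : wb ^ 3 = 1 := by rw [hwb, ← map_pow, hw3, map_one]
    have hj3 : j wb ^ 3 = 1 := by rw [← map_pow, hwb3, map_one]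
    have hpw : ∀ m : ℕ, j (IsLocalRing.residue (O1 k1 V) ⟨w ^ m, pow_mem hwO m⟩) = j wb ^ m := by
      intro m
      rw [hwb, ← map_pow, ← map_pow]
      rfl
    have hone : j (IsLocalRing.residue (O1 k1 V) ⟨1, one_mem _⟩) = 1 := by
      have h1 : (⟨1, one_mem _⟩ : O1 k1 V) = 1 := rfl
      rw [h1, map_one, map_one]
    refine C4_prH j _ _ (fun i => wb ^ ((-γ) i).val) (fun i => wb ^ (γ i).val) ?_ ?_
    · intro i
      show j (IsLocalRing.residue (O1 k1 V) ⟨w ^ ((-γ) i).val, pow_mem hwO _⟩) *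
          IsLocalRing.residue P ⟨x i, hx i⟩ +
          j (IsLocalRing.residue (O1 k1 V) ⟨1, one_mem _⟩) * IsLocalRing.residue P ⟨y i, hy i⟩ =
        j (wb ^ ((-γ) i).val) * (j (IsLocalRing.residue (O1 k1 V) ⟨1, one_mem _⟩) *
          IsLocalRing.residue P ⟨x i, hx i⟩ +
          j (IsLocalRing.residue (O1 k1 V) ⟨w ^ (γ i).val, pow_mem hwO _⟩) *
            IsLocalRing.residue P ⟨y i, hy i⟩)
      rw [hpw, hpw, hone, map_pow]
      have h2 := C4_root' (j wb) hj3 (γ i)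
      have h3 : (-γ) i = -(γ i) := rfl
      rw [h3]
      linear_combination -(IsLocalRing.residue P ⟨y i, hy i⟩) * h2
    · intro i
      show j (IsLocalRing.residue (O1 k1 V) ⟨1, one_mem _⟩) *
          IsLocalRing.residue P ⟨x i, hx i⟩ +
          j (IsLocalRing.residue (O1 k1 V) ⟨w ^ (γ i).val, pow_mem hwO _⟩) *
            IsLocalRing.residue P ⟨y i, hy i⟩ =
        j (wb ^ (γ i).val) * (j (IsLocalRing.residue (O1 k1 V) ⟨w ^ ((-γ) i).val, pow_mem hwO _⟩) *
          IsLocalRing.residue P ⟨x i, hx i⟩ +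
          j (IsLocalRing.residue (O1 k1 V) ⟨1, one_mem _⟩) * IsLocalRing.residue P ⟨y i, hy i⟩)
      rw [hpw, hpw, hone, map_pow]
      have h2 := C4_root (j wb) hj3 (γ i)
      have h3 : (-γ) i = -(γ i) := rfl
      rw [h3]
      linear_combination -(IsLocalRing.residue P ⟨x i, hx i⟩) * h2)
  rw [Fin.sum_univ_two] at key
  have hVw : ∀ (τ : M1 →ₐ[k1] A) (m : ℕ), V (τ (algebraMap k1 M1 (w ^ m))) ≤ 1 := by
    intro τ m
    rw [τ.commutes]
    exact (mem_O1 V _).1 (pow_mem hwO m)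
  have hbd : ∀ (τ : M1 →ₐ[k1] A) (m : ℕ) (p q : M1) (i : Fin 6), V (τ p) ≤ 1 →
      τ (algebraMap k1 M1 (w ^ m) * p + q) = u i → V (τ q) ≤ 1 := by
    intro τ m p q i hp hq
    rw [map_add, map_mul] at hq
    have h1 : τ q = u i - τ (algebraMap k1 M1 (w ^ m)) * τ p := by
      rw [← hq]
      ring
    rw [h1]
    refine V.map_sub_le (hu1 i) ?_
    rw [map_mul]
    exact mul_le_one' (hVw τ m) hp
  have e0 : Nat.card {τ : M1 →ₐ[k1] A //
      (∀ i, τ (algebraMap k1 M1 (c 0 i) * x i + algebraMap k1 M1 (d 0 i) * y i) = u i) ∧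
      (∀ i, V (τ (x i)) ≤ 1) ∧ ∀ i, V (τ (y i)) ≤ 1} = gc V w u x y (-γ) := by
    unfold MP2619.N.gc
    refine Nat.card_congr (Equiv.subtypeEquivRight fun τ => ?_)
    have h0 : ∀ i, algebraMap k1 M1 (c 0 i) * x i + algebraMap k1 M1 (d 0 i) * y i =
        zg w x y (-γ) i := by
      intro i
      show algebraMap k1 M1 (w ^ ((-γ) i).val) * x i + algebraMap k1 M1 1 * y i =
        algebraMap k1 M1 (w ^ ((-γ) i).val) * x i + y i
      rw [map_one, one_mul]
    simp only [h0]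
    exact ⟨fun h => ⟨h.1, h.2.1⟩, fun h => ⟨h.1, h.2, fun i => hbd τ _ _ _ i (h.2 i) (h.1 i)⟩⟩
  have e1 : Nat.card {τ : M1 →ₐ[k1] A //
      (∀ i, τ (algebraMap k1 M1 (c 1 i) * x i + algebraMap k1 M1 (d 1 i) * y i) = u i) ∧
      (∀ i, V (τ (x i)) ≤ 1) ∧ ∀ i, V (τ (y i)) ≤ 1} = gc V w u y x γ := by
    unfold MP2619.N.gc
    refine Nat.card_congr (Equiv.subtypeEquivRight fun τ => ?_)
    have h0 : ∀ i, algebraMap k1 M1 (c 1 i) * x i + algebraMap k1 M1 (d 1 i) * y i =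
        zg w y x γ i := by
      intro i
      show algebraMap k1 M1 1 * x i + algebraMap k1 M1 (w ^ (γ i).val) * y i =
        algebraMap k1 M1 (w ^ (γ i).val) * y i + x i
      rw [map_one, one_mul, add_comm]
    simp only [h0]
    exact ⟨fun h => ⟨h.1, h.2.2⟩, fun h => ⟨h.1, fun i => hbd τ _ _ _ i (h.2 i) (h.1 i), h.2⟩⟩
  rw [e0, e1] at key
  exact key

/-- `gc_swap` for `γ = Pi.single a 2` (`-γ = Pi.single a 1`) and `gc_class` for `(y, x)`. -/
theorem gc_symm (S : St F z u l v2 V) (k1 : IntermediateField (Qz z) ℂ) (w : k1) {M1 : Type}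
    [Field M1] [Algebra k1 M1] (x y : Fin 6 → M1) (hD : Dat F z k1 w x y) (a : Fin 6) :
    Even (gc V w u x y (Pi.single a 1) + gc V w u y x (Pi.single a 1)) := by
  have h1 := gc_swap S k1 w x y hD (Pi.single a 2)
  have h2 : -(Pi.single a 2 : Fin 6 → ZMod 3) = Pi.single a 1 := by
    rw [← Pi.single_neg]
    rfl
  rw [h2] at h1
  have hD' : Dat F z k1 w y x := by
    obtain ⟨Fk, h3, h4, h5⟩ := hD.eqs
    exact ⟨hD.fin, hD.om, ⟨Fk, h3, h5, h4⟩, hD.fg⟩
  have h3 := (gc_class S k1 w y x hD' a).1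
  rw [Nat.even_iff] at h1 h3 ⊢
  omega

end MP2619.Q5
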