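import Pool.Agent.Lib.MP_2619d0_ag.Q5.CDefs

/-!
Row 2619q5-C5a: algebraically independent residues lift, the constants may have a valuation.
-/

set_option autoImplicit false

namespace MP2619.Q5

open scoped NNReal
open IntermediateField MP2619.R MP2619.N Pool.Agent.Lib.MP_2619d0_ag Pool.Agent.Lib.MP_2619d0_ag.T

private theorem C5a_ind {k M κ B : Type} [Field k] [Field M] [Field κ] [Field B] [Algebra k M]
    [Algebra B κ] (P : ValuationSubring M) (φ : P →+* κ)
    (hk : ∀ (c : k) (hc : algebraMap k M c ∈ P), ∃ b : B,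
      algebraMap B κ b = φ ⟨algebraMap k M c, hc⟩) {ι : Type}
    (a : ι → P) (ha : AlgebraicIndependent B (fun i => φ (a i))) :
    AlgebraicIndependent k (fun i => (a i : M)) := by
  classical
  rw [algebraicIndependent_iff]
  intro p hp
  by_contra hne
  obtain ⟨m, hm, hmax⟩ := p.support.exists_max_image
    (fun m => P.valuation (algebraMap k M (p.coeff m))) (MvPolynomial.support_nonempty.2 hne)
  have hc0 : p.coeff m ≠ 0 := MvPolynomial.mem_support_iff.1 hm
  have hc0' : algebraMap k M (p.coeff m) ≠ 0 := (map_ne_zero _).2 hc0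
  have hq : ∀ d, algebraMap k M (p.coeff d / p.coeff m) ∈ P := by
    intro d
    rw [← P.valuation_le_one_iff, map_div₀, map_div₀]
    have h1 : P.valuation (algebraMap k M (p.coeff d)) ≤
        P.valuation (algebraMap k M (p.coeff m)) := by
      by_cases hd : d ∈ p.support
      · exact hmax d hd
      · rw [MvPolynomial.notMem_support_iff.1 hd, map_zero, map_zero]
        exact zero_le
    have h2 : P.valuation (algebraMap k M (p.coeff m)) ≠ 0 := (Valuation.ne_zero_iff _).2 hc0'
    rw [div_le_one₀ (zero_lt_iff.2 h2)]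
    exact h1
  choose g hg using fun d => hk _ (hq d)
  have hsum : ∑ d ∈ p.support, (⟨algebraMap k M (p.coeff d / p.coeff m), hq d⟩ : P) *
      ∏ i ∈ d.support, a i ^ d i = 0 := by
    apply Subtype.ext
    have h1 : ((∑ d ∈ p.support, (⟨algebraMap k M (p.coeff d / p.coeff m), hq d⟩ : P) *
      ∏ i ∈ d.support, a i ^ d i : P) : M) =
        (algebraMap k M (p.coeff m))⁻¹ * MvPolynomial.aeval (fun i => (a i : M)) p := by
      rw [MvPolynomial.aeval_def, MvPolynomial.eval₂_eq, Finset.mul_sum]
      push_cast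
      refine Finset.sum_congr rfl fun d _ => ?_
      change algebraMap k M (p.coeff d) / algebraMap k M (p.coeff m) * _ = _
      rw [div_eq_mul_inv]
      ring
    rw [h1, hp, mul_zero]
    rfl
  set q : MvPolynomial ι B := ∑ d ∈ p.support, MvPolynomial.monomial d (g d) with hqdef
  have h1 : MvPolynomial.aeval (fun i => φ (a i)) q = 0 := by
    have h2 := congrArg φ hsum
    rw [map_zero, map_sum] at h2
    rw [hqdef, map_sum, ← h2]
    refine Finset.sum_congr rfl fun d _ => ?_
    rw [MvPolynomial.aeval_monomial, map_mul, map_prod, hg]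
    simp only [map_pow]
    rfl
  have h3 : q = 0 := AlgebraicIndependent.eq_zero_of_aeval_eq_zero ha q h1
  have h4 : q.coeff m = g m := by
    rw [hqdef, MvPolynomial.coeff_sum, Finset.sum_eq_single m]
    · rw [MvPolynomial.coeff_monomial, if_pos rfl]
    · intro d _ hd
      rw [MvPolynomial.coeff_monomial, if_neg hd]
    · intro h
      exact absurd hm h
  rw [h3, MvPolynomial.coeff_zero] at h4
  have h5 := hg m
  rw [← h4, map_zero] at h5
  have h6 : (⟨algebraMap k M (p.coeff m / p.coeff m), hq m⟩ : P) = 1 := by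
    apply Subtype.ext
    show algebraMap k M (p.coeff m / p.coeff m) = 1
    rw [div_self hc0, map_one]
  rw [h6, map_one] at h5
  exact zero_ne_one h5

private theorem C5a_basis {B κ : Type} [Field B] [Field κ] [Algebra B κ] (E : Set κ) (D : ℕ)
    (hD : ¬ Algebra.trdeg B (adjoin B E) ≤ D) :
    ∃ b : Fin (D + 1) → κ, (∀ i, b i ∈ E) ∧ AlgebraicIndependent B b := by
  set t : Set (adjoin B E) := Subtype.val ⁻¹' E with ht
  have h1 : adjoin B t = ⊤ := by
    apply lift_injective (adjoin B E)
    rw [lift_adjoin, lift_top]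
    congr 1
    ext x
    constructor
    · rintro ⟨y, hy, rfl⟩
      exact hy
    · intro hx
      exact ⟨⟨x, subset_adjoin _ _ hx⟩, hx, rfl⟩
  have h2 : Algebra.IsAlgebraic (adjoin B t) (adjoin B E) := by
    refine ⟨fun x => ?_⟩
    have hx : x ∈ adjoin B t := by
      rw [h1]; exact mem_top
    exact isAlgebraic_algebraMap (⟨x, hx⟩ : adjoin B t)
  have h3 : Algebra.IsAlgebraic (Algebra.adjoin B t) (adjoin B E) := by
    open scoped IntermediateField.algebraAdjoinAdjoin in
    exact (IsFractionRing.comap_isAlgebraic_iff (A := Algebra.adjoin B t)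
      (K := adjoin B t) (C := adjoin B E)).2 h2
  obtain ⟨s, hs1, hs2⟩ := exists_isTranscendenceBasis_subset (R := B) t
  have h4 := hs2.cardinalMk_eq_trdeg
  have h5 : ((D + 1 : ℕ) : Cardinal) ≤ Cardinal.mk s := by
    rw [h4]
    rw [not_le] at hD
    have := Order.succ_le_of_lt hD
    rw [Cardinal.succ_natCast] at this
    exact_mod_cast this
  have h6 : Cardinal.mk (Fin (D + 1)) ≤ Cardinal.mk s := by
    simpa using h5
  obtain ⟨e⟩ := h6
  refine ⟨fun i => ((e i : adjoin B E) : κ), fun i => hs1 (e i).2, ?_⟩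
  have h7 := hs2.1.comp e e.injective
  exact h7.map' (f := (adjoin B E).val) (adjoin B E).val.injective

private theorem C5a_tr {k M κ B : Type} [Field k] [Field M] [Field κ] [Field B] [Algebra k M]
    [Algebra B κ] (P : ValuationSubring M) (φ : P →+* κ)
    (hk : ∀ (c : k) (hc : algebraMap k M c ∈ P), ∃ b : B,
      algebraMap B κ b = φ ⟨algebraMap k M c, hc⟩)
    (K : IntermediateField k M) (D : ℕ) (hK : Algebra.trdeg k K ≤ D) (E : Set κ)
    (hE : ∀ b ∈ E, ∃ a : P, (a : M) ∈ K ∧ φ a = b) :
    Algebra.trdeg B (adjoin B E) ≤ D := by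
  by_contra hD
  obtain ⟨b, hbE, hb⟩ := C5a_basis E D hD
  choose a haK ha using fun i => hE (b i) (hbE i)
  have hb' : AlgebraicIndependent B (fun i => φ (a i)) := by
    have : (fun i => φ (a i)) = b := funext ha
    rw [this]
    exact hb
  have h1 := C5a_ind P φ hk a hb'
  have h2 : AlgebraicIndependent k (fun i => (⟨(a i : M), haK i⟩ : K)) := by
    refine AlgebraicIndependent.of_comp K.val ?_
    exact h1
  have h3 := h2.lift_cardinalMk_le_trdeg
  have h4 : ((D + 1 : ℕ) : Cardinal) ≤ Algebra.trdeg k K := by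
    simpa using h3
  have h5 := h4.trans hK
  have h6 : D + 1 ≤ D := by exact_mod_cast h5
  omega

/-- A relation `∑ c_m a^m = 0` with coefficients in `k`, not all zero: divide by a coefficient of maximal valuation
(finitely many), so all `algebraMap k M c_m ∈ P` and one of them is `1`. Apply `φ`: a relation of the `φ (a i)` with
coefficients in `kb` with one coefficient `1`. -/
theorem indep_lift_gen {k M κ : Type} [Field k] [Field M] [Field κ] [Algebra k M]
    (P : ValuationSubring M) (φ : P →+* κ) (kb : Subfield κ)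
    (hk : ∀ (c : k) (hc : algebraMap k M c ∈ P), φ ⟨algebraMap k M c, hc⟩ ∈ kb) {ι : Type}
    (a : ι → P) (ha : AlgebraicIndependent kb (fun i => φ (a i))) :
    AlgebraicIndependent k (fun i => (a i : M)) :=
  C5a_ind P φ (fun c hc => ⟨⟨_, hk c hc⟩, rfl⟩) a ha

/-- Consequence for transcendence degrees: `E` a set of residues of elements of `K`. If `kb(E)` had
`D + 1` algebraically independent elements, then we may take them in `E` (`exists_isTranscendenceBasis_subset` or
`AlgebraicIndependent` matroid), lift. -/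
theorem trdeg_gen {k M κ : Type} [Field k] [Field M] [Field κ] [Algebra k M]
    (P : ValuationSubring M) (φ : P →+* κ) (kb : Subfield κ)
    (hk : ∀ (c : k) (hc : algebraMap k M c ∈ P), φ ⟨algebraMap k M c, hc⟩ ∈ kb)
    (K : IntermediateField k M) (D : ℕ) (hK : Algebra.trdeg k K ≤ D) (E : Set κ)
    (hE : ∀ b ∈ E, ∃ a : P, (a : M) ∈ K ∧ φ a = b) :
    Algebra.trdeg kb (adjoin kb E) ≤ D :=
  C5a_tr P φ (fun c hc => ⟨⟨_, hk c hc⟩, rfl⟩) K D hK E hE

/-- The case of `Lies`: `kb = j.fieldRange`; the residues of the quotients `x i / x j` (with `x̄ j ≠ 0`, otherwise the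
quotient of the residues is `0`). -/
theorem trdeg_lies {k M A : Type} [Field k] [Field M] [Field A] [Algebra k M] [Algebra k A]
    (V : Valuation A ℝ≥0) (P : ValuationSubring M)
    (j : IsLocalRing.ResidueField (O1 k V) →+* IsLocalRing.ResidueField P) (hj : Lies V P j)
    {n : ℕ} (x : Fin n → M) (hx : ∀ i, x i ∈ P) (D : ℕ) (h : Algebra.trdeg k (rat k x) ≤ D) :
    letI : Algebra (IsLocalRing.ResidueField (O1 k V)) (IsLocalRing.ResidueField P) := j.toAlgebra
    Algebra.trdeg (IsLocalRing.ResidueField (O1 k V)) (rat (IsLocalRing.ResidueField (O1 k V))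
      (fun i => IsLocalRing.residue P ⟨x i, hx i⟩)) ≤ D := by
  let _ : Algebra (IsLocalRing.ResidueField (O1 k V)) (IsLocalRing.ResidueField P) := j.toAlgebra
  refine C5a_tr P (IsLocalRing.residue P) ?_ (rat k x) D h _ ?_
  · intro c hc
    exact ⟨IsLocalRing.residue (O1 k V) ⟨c, (hj.mem c).1 hc⟩, hj.res ⟨c, (hj.mem c).1 hc⟩⟩
  · rintro _ ⟨i, l, rfl⟩
    show ∃ a : P, (a : M) ∈ rat k x ∧ IsLocalRing.residue P a =
      IsLocalRing.residue P ⟨x i, hx i⟩ / IsLocalRing.residue P ⟨x l, hx l⟩
    by_cases h0 : IsLocalRing.residue P ⟨x l, hx l⟩ = 0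
    · exact ⟨0, (rat k x).zero_mem, by rw [h0, map_zero, div_zero]⟩
    · have hu : IsUnit (⟨x l, hx l⟩ : P) := by
        by_contra hu
        exact h0 ((IsLocalRing.residue_eq_zero_iff _).mpr
          ((IsLocalRing.mem_maximalIdeal _).mpr hu))
      obtain ⟨v, hv⟩ := hu.exists_right_inv
      have h10 : x l * (v : M) = 1 := congrArg Subtype.val hv
      have h11 : x l ≠ 0 := left_ne_zero_of_mul_eq_one h10
      refine ⟨⟨x i, hx i⟩ * v, ?_, ?_⟩
      · have h9 : ((⟨x i, hx i⟩ * v : P) : M) = x i / x l := by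
          rw [MulMemClass.coe_mul, eq_div_iff h11]
          linear_combination (x i) * h10
        rw [h9]
        exact subset_adjoin _ _ ⟨i, l, rfl⟩
      · rw [map_mul, eq_div_iff h0]
        have h12 : IsLocalRing.residue P ⟨x l, hx l⟩ * IsLocalRing.residue P v = 1 := by
          rw [← map_mul, hv, map_one]
        linear_combination (IsLocalRing.residue P ⟨x i, hx i⟩) * h12

end MP2619.Q5
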