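import Pool.Agent.Lib.MP_2619d0_ag.NP.A10

/-!
# Theorem R2 (characteristic two): definitions
-/

set_option autoImplicit false

namespace MP2619.Q5

universe u

open IntermediateField MP2619.R MP2619.W MP2619.NP

/-- the vector `w^g x + y` -/
def zv {k M : Type u} [Field k] [Field M] [Algebra k M] (w : k) {n : ℕ} (x y : Fin n → M)
    (g : Fin n → ZMod 3) : Fin n → M :=
  fun i => algebraMap k M (w ^ (g i).val) * x i + y i

open Classical in
/-- the sum of the characters `∏ w^(g_i)` over all `g` such that `k(w^g x + y) ⊆ M` has odd degree -/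
noncomputable def c2 {k M : Type u} [Field k] [Field M] [Algebra k M] (w : k) {n : ℕ}
    (x y : Fin n → M) : k :=
  ∑ g : Fin n → ZMod 3, if Pr k (zv w x y g) then w ^ (∑ i, g i).val else 0

/-- the two blocks -/
def qb : Fin 6 → ℕ := fun i => if i.val < 3 then 0 else 1

/-- Final data: both points split into the two blocks, `tr.deg. k(ratios inside the blocks of x and y) ≤ 2`,
`tr.deg. k(ratios inside the blocks of x) ≤ 1`. -/
structure FD (k : Type u) {M : Type u} [Field k] [Field M] [Algebra k M] (w : k)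
    (x y : Fin 6 → M) : Prop where
  two : (2 : k) = 0
  om : w ^ 2 + w + 1 = 0
  Fx : ∀ c, cb qb c x = 0
  Fy : ∀ c, cb qb c y = 0
  small : Algebra.trdeg k ↥(ratq k qb x ⊔ ratq k qb y) ≤ 2
  smallx : Algebra.trdeg k (ratq k qb x) ≤ 1

/-- the statement for final data (1.3, 1.4: rows E*) -/
def FinalC : Prop := ∀ (k M : Type u) [Field k] [Field M] [Algebra k M] (w : k) (x y : Fin 6 → M),
  FD k w x y → c2 w x y = 0

/-- THEOREM R2 -/
def R2C : Prop := ∀ (k M : Type u) [Field k] [Field M] [Algebra k M] (w : k) (x y : Fin 6 → M),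
  (2 : k) = 0 → w ^ 2 + w + 1 = 0 → ∑ i, x i ^ 3 = 0 → ∑ i, y i ^ 3 = 0 →
  Algebra.trdeg k (rat k x) ≤ 2 → c2 w x y = 0

end MP2619.Q5
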