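import Pool.Agent.Lib.MP_2619d0_ag.N.A0
import Pool.Agent.Lib.MP_2619d0_ag.R.A9

/-!
# Theorem Q5, characteristic zero part: definitions
-/

set_option autoImplicit false

namespace MP2619.Q5

open scoped NNReal
open IntermediateField MP2619.R MP2619.N Pool.Agent.Lib.MP_2619d0_ag Pool.Agent.Lib.MP_2619d0_ag.T

/-- `φ : P → N` is the residue map of the valuation ring `P` of `M`, compatible with the constants `B`. -/
structure RMap (B : Type) {M N : Type} [Field B] [Field M] [Field N] [Algebra B M] [Algebra B N]
    (P : ValuationSubring M) (φ : P →+* N) : Prop where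
  surj : Function.Surjective φ
  cst : ∀ b : B, algebraMap B M b ∈ P
  alg : ∀ b : B, φ ⟨algebraMap B M b, cst b⟩ = algebraMap B N b
  zero : ∀ a : P, φ a = 0 ↔ P.valuation (a : M) < 1

/-- `P` is a discrete valuation ring of `M` containing the constants `B`, with `e` in its maximal ideal, and the
coordinates of `x`, `y` are in `P`. -/
structure EP (B : Type) {M : Type} [Field B] [Field M] [Algebra B M] (e : M) {n : ℕ}
    (x y : Fin n → M) (P : ValuationSubring M) : Prop where
  dv : DV P
  cst : Cst B P
  pos : P.valuation e < 1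
  x_mem : ∀ i, x i ∈ P
  y_mem : ∀ i, y i ∈ P

open Classical in
/-- The number of good embeddings of the residue field of `P` for the residues of `x`, `y`. -/
noncomputable def gr {B M A : Type} [Field B] [Field M] [Field A] [Algebra B M] [Algebra B A]
    (V : Valuation A ℝ≥0) (w : B) {n : ℕ} (u : Fin n → A) (x y : Fin n → M)
    (P : ValuationSubring M) (γ : Fin n → ZMod 3) : ℕ :=
  if h : Cst B P ∧ (∀ i, x i ∈ P) ∧ ∀ i, y i ∈ P then
    letI : Algebra B (IsLocalRing.ResidueField P) := (rc h.1).toAlgebra
    gc V w u (fun i => IsLocalRing.residue P ⟨x i, h.2.1 i⟩)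
      (fun i => IsLocalRing.residue P ⟨y i, h.2.2 i⟩) γ
  else 0

/-- `k1 = B(e)`, `B` is algebraic over the field generated by all elements of the transcendence basis except
`z_j`, and `e` is `z_j` or its inverse. -/
structure BE {n : ℕ} {J : Type} (z : Exp3 n ⊕ J → ℂ) (k1 : IntermediateField (Qz z) ℂ) (B : Type)
    [Field B] [Algebra B k1] (e : k1) (j : J) : Prop where
  alg : ∀ b : B, IsAlgebraic (adjoin ℚ (z '' {s | s ≠ Sum.inr j})) ((algebraMap B k1 b : k1) : ℂ)
  gen : adjoin B {e} = ⊤
  par : (e : ℂ) = z (Sum.inr j) ∨ (e : ℂ) = (z (Sum.inr j))⁻¹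

end MP2619.Q5
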