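import Pool.Agent.Lib.MP_2619d0_ag.Q5.C0
import Pool.Agent.Lib.MP_2619d0_ag.Q5.Defs0
import Pool.Agent.Lib.MP_2619d0_ag.N.A1
import Pool.Agent.Lib.MP_2619d0_ag.R.C4
import Pool.Agent.Lib.MP_2619d0_ag.R.D1
import Pool.Agent.Lib.MP_2619d0_ag.R.D3

/-!
# Theorem Q5, characteristic zero part: common definitions
-/

set_option autoImplicit false

namespace MP2619.Q5

open scoped NNReal
open IntermediateField MP2619.R MP2619.N Pool.Agent.Lib.MP_2619d0_ag Pool.Agent.Lib.MP_2619d0_ag.T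

/-- the fixed data: the cubic form `F` in six variables, the basis `z`, the field `A` with the real valuation
`V`, Gauss with respect to `z`, `u`, `l` over the two-adic valuation. -/
structure St {J : Type} (F : MvPolynomial (Fin 6) ℂ) (z : Exp3 6 ⊕ J → ℂ) {A : Type} [Field A]
    [CharZero A] [Algebra ℂ A] (u l : Fin 6 → A) (v2 : Valuation ℚ ℝ≥0) (V : Valuation A ℝ≥0) :
    Prop where
  ctx : Ctx F z u l
  two : IsTwo v2
  wt : IsWt v2 V (zeta z u l) (fun _ => 1)

/-- the residues of the elements of `P ∩ E` -/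
def resI {k M N : Type} [Field k] [Field M] [Field N] [Algebra k M] [Algebra k N]
    {P : ValuationSubring M} {φ : P →+* N} (h : RMap k P φ) (E : IntermediateField k M) :
    IntermediateField k N where
  carrier := {b | ∃ a : P, (a : M) ∈ E ∧ φ a = b}
  mul_mem' := by
    rintro _ _ ⟨a, ha, rfl⟩ ⟨b, hb, rfl⟩
    exact ⟨a * b, E.mul_mem ha hb, map_mul _ _ _⟩
  add_mem' := by
    rintro _ _ ⟨a, ha, rfl⟩ ⟨b, hb, rfl⟩
    exact ⟨a + b, E.add_mem ha hb, map_add _ _ _⟩
  algebraMap_mem' := fun c => ⟨⟨algebraMap k M c, h.cst c⟩, E.algebraMap_mem c, h.alg c⟩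
  inv_mem' := by
    rintro _ ⟨a, ha, rfl⟩
    by_cases h0 : φ a = 0
    · exact ⟨0, E.zero_mem, by rw [map_zero, h0, inv_zero]⟩
    · have h1 : P.valuation (a : M) = 1 := by
        refine le_antisymm ((P.valuation_le_one_iff _).2 a.2) (not_lt.1 fun h2 => h0 ((h.zero a).2 h2))
      have h2 : ((a : M)⁻¹) ∈ P := by
        rw [← P.valuation_le_one_iff, map_inv₀, h1, inv_one]
      have h3 : (a : M) ≠ 0 := by
        rintro h4
        rw [h4, map_zero] at h1
        exact zero_ne_one h1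
      refine ⟨⟨(a : M)⁻¹, h2⟩, E.inv_mem ha, ?_⟩
      have h4 : a * ⟨(a : M)⁻¹, h2⟩ = 1 := Subtype.ext (mul_inv_cancel₀ h3)
      have h5 : φ a * φ ⟨(a : M)⁻¹, h2⟩ = 1 := by rw [← map_mul, h4, map_one]
      exact eq_inv_of_mul_eq_one_right h5

theorem mem_resI {k M N : Type} [Field k] [Field M] [Field N] [Algebra k M] [Algebra k N]
    {P : ValuationSubring M} {φ : P →+* N} (h : RMap k P φ) (E : IntermediateField k M) (b : N) :
    b ∈ resI h E ↔ ∃ a : P, (a : M) ∈ E ∧ φ a = b := Iff.rfl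

/-- the quadratic form in three variables with the coefficients `c` -/
def qf {R : Type} [CommRing R] (c : Fin 6 → R) (X : Fin 3 → R) : R :=
  c 0 * X 0 ^ 2 + c 1 * X 1 ^ 2 + c 2 * X 2 ^ 2 + c 3 * (X 1 * X 2) + c 4 * (X 0 * X 2) +
    c 5 * (X 0 * X 1)

/-- its polar form -/
def qp {R : Type} [CommRing R] (c : Fin 6 → R) (X Y : Fin 3 → R) : R :=
  c 0 * (2 * X 0 * Y 0) + c 1 * (2 * X 1 * Y 1) + c 2 * (2 * X 2 * Y 2) +
    c 3 * (X 1 * Y 2 + X 2 * Y 1) + c 4 * (X 0 * Y 2 + X 2 * Y 0) + c 5 * (X 0 * Y 1 + X 1 * Y 0)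

theorem qf_add {R : Type} [CommRing R] (c : Fin 6 → R) (X Y : Fin 3 → R) :
    qf c (X + Y) = qf c X + qf c Y + qp c X Y := by
  simp only [qf, qp, Pi.add_apply]; ring

theorem qf_smul {R : Type} [CommRing R] (c : Fin 6 → R) (s : R) (X : Fin 3 → R) :
    qf c (s • X) = s ^ 2 * qf c X := by
  simp only [qf, Pi.smul_apply, smul_eq_mul]; ring

theorem qp_smul {R : Type} [CommRing R] (c : Fin 6 → R) (s : R) (X Y : Fin 3 → R) :
    qp c X (s • Y) = s * qp c X Y := by
  simp only [qp, Pi.smul_apply, smul_eq_mul]; ring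

/-- the linear form with the coefficients `l` -/
def lf {R : Type} [CommRing R] (l : Fin 3 → R) (X : Fin 3 → R) : R :=
  l 0 * X 0 + l 1 * X 1 + l 2 * X 2

/-- the vector `∑ X_k b_k` -/
def cv {R : Type} [CommRing R] {m n : ℕ} (b : Fin m → Fin n → R) (X : Fin m → R) : Fin n → R :=
  fun i => ∑ k, X k * b k i

end MP2619.Q5
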