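import Pool.Agent.Lib.MP_2619d0_ag.W.V7

/-!
# Row E1: the plane Fermat cubic and the curve `b² + b = a³`; the third point of a line
-/

set_option autoImplicit false

namespace MP2619.Q5

universe v u

open IntermediateField MP2619.R MP2619.W

/-- the quotients of the coordinates -/
def rt {L : Type u} [Field L] (z : Fin 3 → L) : Set L := {t | ∃ i j, t = z i / z j}

open Classical in
/-- the point of `b² + b = a³` with homogeneous coordinates `(v 0, v 1, v 2)`: `a = v 1 / v 0`,
`b = v 2 / v 0` -/
noncomputable def hp {L : Type u} [Field L] (v : Fin 3 → L) : (Ec L).Point :=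
  if h : v 0 ≠ 0 ∧ (Ec L).Nonsingular (v 1 / v 0) (v 2 / v 0) then .some _ _ h.2 else .zero

/-- the linear map from the Fermat cubic to `v 2 ^ 2 * v 0 + v 2 * v 0 ^ 2 = v 1 ^ 3` -/
def fw {L : Type u} [Field L] (w : L) (z : Fin 3 → L) : Fin 3 → L :=
  ![z 1 + z 2, z 0, w * z 1 + w ^ 2 * z 2]

/-- the point of `b² + b = a³` given by a point of the cone over the Fermat cubic -/
noncomputable def ptE {L : Type u} [Field L] (w : L) (z : Fin 3 → L) : (Ec L).Point := hp (fw w z)

/-- polar form of the Fermat cubic -/
def Hs {L : Type u} [Field L] (x y : Fin 3 → L) : L := ∑ i, x i ^ 2 * y i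

/-- the third intersection point of the line through `x`, `y` with the Fermat cubic -/
def thd {L : Type u} [Field L] (x y : Fin 3 → L) : Fin 3 → L := fun i => Hs y x * x i + Hs x y * y i

variable {L : Type u} [Field L]

/-- polar form of the Weierstrass cubic -/
def Hg (u v : Fin 3 → L) : L := v 0 * u 2 ^ 2 + u 0 ^ 2 * v 2 + u 1 ^ 2 * v 1

end MP2619.Q5
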