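import Pool.Agent.Lib.MP_2619d0_ag.Q5.E1

/-!
# Row E1a
-/

set_option autoImplicit false

namespace MP2619.Q5

universe v u

open IntermediateField MP2619.R MP2619.W

variable {L : Type u} [Field L]

/-- Row E1a. `v 0 * c ≠ 0` iff `v 0 ≠ 0`, the quotients do not change. -/
theorem hp_smul {c : L} (hc : c ≠ 0) (v : Fin 3 → L) : hp (fun i => c * v i) = hp v := by
  have e1 : c * v 1 / (c * v 0) = v 1 / v 0 := mul_div_mul_left _ _ hc
  have e2 : c * v 2 / (c * v 0) = v 2 / v 0 := mul_div_mul_left _ _ hc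
  by_cases h : v 0 ≠ 0 ∧ (Ec L).Nonsingular (v 1 / v 0) (v 2 / v 0)
  · have h' : c * v 0 ≠ 0 ∧ (Ec L).Nonsingular (c * v 1 / (c * v 0)) (c * v 2 / (c * v 0)) := by
      rw [e1, e2]
      exact ⟨mul_ne_zero hc h.1, h.2⟩
    unfold hp
    rw [dif_pos h, dif_pos h']
    simp only [e1, e2]
  · have h' : ¬ (c * v 0 ≠ 0 ∧ (Ec L).Nonsingular (c * v 1 / (c * v 0)) (c * v 2 / (c * v 0))) := by
      rw [e1, e2]
      intro h3
      exact h ⟨right_ne_zero_of_mul h3.1, h3.2⟩
    unfold hp
    rw [dif_neg h, dif_neg h']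

/-- Row E1a. -/
theorem pt_smul {c : L} (hc : c ≠ 0) (w : L) (z : Fin 3 → L) :
    ptE w (fun i => c * z i) = ptE w z := by
  have e : fw w (fun i => c * z i) = fun i => c * fw w z i := by
    funext i
    fin_cases i
    · simp [fw]; ring
    · simp [fw]
    · simp [fw]; ring
  unfold ptE
  rw [e, hp_smul hc]

/-- Row E1a. `z1³ + z2³ = (z1 + z2)(w z1 + w² z2)(w² z1 + w z2)` and `w² z1 + w z2 = (z1 + z2) + (w z1 + w² z2)`
(characteristic two). -/
theorem fw_eq (h2 : (2 : L) = 0) {w : L} (hw : w ^ 2 + w + 1 = 0) {z : Fin 3 → L}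
    (hz : ∑ i, z i ^ 3 = 0) :
    fw w z 2 ^ 2 * fw w z 0 + fw w z 2 * fw w z 0 ^ 2 = fw w z 1 ^ 3 := by
  rw [Fin.sum_univ_three] at hz
  have hw2 : w ^ 2 = w + 1 := by linear_combination hw - (w + 1) * h2
  have f0 : fw w z 0 = z 1 + z 2 := rfl
  have f1 : fw w z 1 = z 0 := rfl
  have f2 : fw w z 2 = w * z 1 + w ^ 2 * z 2 := rfl
  have hv2 : w * z 1 + w ^ 2 * z 2 = w * (z 1 + z 2) + z 2 := by rw [hw2]; ring
  rw [f0, f1, f2, hv2]
  linear_combination (z 1 + z 2) ^ 3 * hw2 + (w * (z 1 + z 2) ^ 3 + w * z 2 * (z 1 + z 2) ^ 2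
    + z 2 ^ 2 * (z 1 + z 2) + 2 * z 1 * z 2 * (z 1 + z 2) - z 0 ^ 3) * h2 + hz

private theorem E1a_w (h2 : (2 : L) = 0) {w : L} (hw : w ^ 2 + w + 1 = 0) : w - w ^ 2 = 1 := by
  linear_combination -hw + w * h2

/-- Row E1a. `fw w` is injective (determinant `w - w²`, not zero). -/
theorem fw_ne (h2 : (2 : L) = 0) {w : L} (hw : w ^ 2 + w + 1 = 0) {z : Fin 3 → L}
    (hz : ∃ i, z i ≠ 0) : ∃ i, fw w z i ≠ 0 := by
  by_contra hcon
  push Not at hcon
  have f0 : z 1 + z 2 = 0 := hcon 0
  have f1 : z 0 = 0 := hcon 1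
  have f2 : w * z 1 + w ^ 2 * z 2 = 0 := hcon 2
  have hd := E1a_w h2 hw
  have g1 : z 1 = 0 := by linear_combination f2 - w ^ 2 * f0 - z 1 * hd
  have g2 : z 2 = 0 := by linear_combination f0 - g1
  obtain ⟨i, hi⟩ := hz
  fin_cases i
  · exact hi f1
  · exact hi g1
  · exact hi g2

/-- Row E1a. The coordinates of `ptE w z` are quotients of linear forms; `fw w` is invertible over `K`. If
`z 1 + z 2 = 0` then `z 0 ^ 3 = 0` by the equation, so `z = (0, c, -c)`: the quotients are in `K` and
`ptE w z = 0`. -/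
theorem adjoin_pt {K : Type v} [Field K] [Algebra K L] (h2 : (2 : K) = 0) {w : K}
    (hw : w ^ 2 + w + 1 = 0) {z : Fin 3 → L} (hz : ∑ i, z i ^ 3 = 0) (hne : ∃ i, z i ≠ 0) :
    adjoin K (pf K (ptE (algebraMap K L w) z)) = adjoin K (rt z) := by
  have h2' : (2 : L) = 0 := by
    have e : (2 : L) = algebraMap K L 2 := (map_ofNat (algebraMap K L) 2).symm
    rw [e, h2, map_zero]
  set W := algebraMap K L w with hW
  have hw' : W ^ 2 + W + 1 = 0 := by
    have := congrArg (algebraMap K L) hw
    simpa only [map_add, map_pow, map_one, map_zero] using this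
  have hWm : ∀ F : IntermediateField K L, W ∈ F := fun F => F.algebraMap_mem w
  have hfe := fw_eq h2' hw' hz
  have hd := E1a_w h2' hw'
  have f0 : fw W z 0 = z 1 + z 2 := rfl
  have f1 : fw W z 1 = z 0 := rfl
  have f2 : fw W z 2 = W * z 1 + W ^ 2 * z 2 := rfl
  by_cases h0 : fw W z 0 = 0
  · -- the point at infinity
    have hp0 : ptE W z = WeierstrassCurve.Affine.Point.zero := by
      unfold ptE hp
      rw [dif_neg]
      intro h
      exact h.1 h0
    have hpf : pf K (ptE W z) = ∅ := by rw [hp0]; rfl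
    have g0 : z 0 = 0 := by
      rw [h0, f1] at hfe
      have : z 0 ^ 3 = 0 := by rw [← hfe]; ring
      exact pow_eq_zero_iff (by norm_num) |>.1 this
    have g12 : z 2 = - z 1 := by rw [f0] at h0; linear_combination h0
    have g1 : z 1 ≠ 0 := by
      intro h
      obtain ⟨i, hi⟩ := hne
      fin_cases i
      · exact hi g0
      · exact hi h
      · exact hi (by change z 2 = 0; rw [g12, h, neg_zero])
    rw [hpf, adjoin_empty, eq_comm, eq_bot_iff, adjoin_le_iff]
    rintro t ⟨i, j, rfl⟩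
    have hz' : ∀ i, ∃ c ∈ (⊥ : IntermediateField K L), z i = c * z 1 := by
      intro i
      fin_cases i
      · exact ⟨0, zero_mem _, by change z 0 = 0 * z 1; rw [g0, zero_mul]⟩
      · exact ⟨1, one_mem _, by change z 1 = 1 * z 1; rw [one_mul]⟩
      · exact ⟨-1, neg_mem (one_mem _), by change z 2 = -1 * z 1; rw [g12]; ring⟩
    obtain ⟨c, hc, hci⟩ := hz' i
    obtain ⟨d, hdm, hdj⟩ := hz' j
    rw [hci, hdj, mul_div_mul_right _ _ g1]
    exact div_mem hc hdm
  · have hns : (Ec L).Nonsingular (fw W z 1 / fw W z 0) (fw W z 2 / fw W z 0) := by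
      rw [ec_nonsingular h2']
      field_simp
      linear_combination hfe
    have hpt : ptE W z = WeierstrassCurve.Affine.Point.some _ _ hns := by
      unfold ptE hp
      rw [dif_pos ⟨h0, hns⟩]
    have hpf : pf K (ptE W z) = {fw W z 1 / fw W z 0, fw W z 2 / fw W z 0} := by rw [hpt]; rfl
    rw [hpf]
    apply le_antisymm
    · rw [adjoin_le_iff]
      -- linear forms divided by a nonzero coordinate
      obtain ⟨k, hk⟩ := hne
      have hq : ∀ i, z i / z k ∈ adjoin K (rt z) := fun i => subset_adjoin K _ ⟨i, k, rfl⟩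
      have e0 : fw W z 0 / z k ∈ adjoin K (rt z) := by
        rw [f0, add_div]
        exact add_mem (hq 1) (hq 2)
      have e1 : fw W z 1 / z k ∈ adjoin K (rt z) := by
        rw [f1]
        exact hq 0
      have e2 : fw W z 2 / z k ∈ adjoin K (rt z) := by
        rw [f2, add_div, mul_div_assoc, mul_div_assoc]
        exact add_mem (mul_mem (hWm _) (hq 1)) (mul_mem (pow_mem (hWm _) 2) (hq 2))
      intro t ht
      rcases ht with rfl | ht
      · have e : fw W z 1 / fw W z 0 = (fw W z 1 / z k) / (fw W z 0 / z k) := by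
          rw [div_div_div_cancel_right₀ hk]
        rw [e]
        exact div_mem e1 e0
      · rw [Set.mem_singleton_iff] at ht
        have e : fw W z 2 / fw W z 0 = (fw W z 2 / z k) / (fw W z 0 / z k) := by
          rw [div_div_div_cancel_right₀ hk]
        rw [ht, e]
        exact div_mem e2 e0
    · rw [adjoin_le_iff]
      rintro t ⟨i, j, rfl⟩
      set F := adjoin K ({fw W z 1 / fw W z 0, fw W z 2 / fw W z 0} : Set L) with hF
      have ha : fw W z 1 / fw W z 0 ∈ F := subset_adjoin K _ (Or.inl rfl)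
      have hb : fw W z 2 / fw W z 0 ∈ F := subset_adjoin K _ (Or.inr rfl)
      have hq : ∀ i, z i / fw W z 0 ∈ F := by
        intro i
        have g1 : z 1 = fw W z 2 - W ^ 2 * fw W z 0 := by
          rw [f0, f2]
          linear_combination - z 1 * hd
        have q1 : z 1 / fw W z 0 ∈ F := by
          have e : z 1 / fw W z 0 = fw W z 2 / fw W z 0 - W ^ 2 := by
            rw [eq_sub_iff_add_eq, g1]
            field_simp
            ring
          rw [e]
          exact sub_mem hb (pow_mem (hWm _) 2)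
        fin_cases i
        · exact ha
        · exact q1
        · have e : z 2 / fw W z 0 = 1 - z 1 / fw W z 0 := by
            rw [f0] at h0 ⊢
            field_simp
            ring
          change z 2 / fw W z 0 ∈ F
          rw [e]
          exact sub_mem (one_mem _) q1
      have e : z i / z j = (z i / fw W z 0) / (z j / fw W z 0) := by
        rw [div_div_div_cancel_right₀ h0]
      rw [e]
      exact div_mem (hq i) (hq j)

end MP2619.Q5
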