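import Pool.Agent.Lib.MP_2619d0_ag.Q5.E1

/-!
# Row E1b
-/

set_option autoImplicit false

namespace MP2619.Q5

universe v u

open IntermediateField MP2619.R MP2619.W

variable {L : Type u} [Field L]

/-- Row E1b. `Σ (α x + β y)³ = α β (α H(x,y) + β H(y,x))` (times `3 = 1`). -/
theorem thd_cone (h2 : (2 : L) = 0) {x y : Fin 3 → L} (hx : ∑ i, x i ^ 3 = 0)
    (hy : ∑ i, y i ^ 3 = 0) : ∑ i, thd x y i ^ 3 = 0 := by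
  simp only [thd, Hs, Fin.sum_univ_three] at hx hy ⊢
  linear_combination
    (y 0 ^ 2 * x 0 + y 1 ^ 2 * x 1 + y 2 ^ 2 * x 2) ^ 3 * hx +
    (x 0 ^ 2 * y 0 + x 1 ^ 2 * y 1 + x 2 ^ 2 * y 2) ^ 3 * hy +
    3 * (y 0 ^ 2 * x 0 + y 1 ^ 2 * x 1 + y 2 ^ 2 * x 2) ^ 2 *
      (x 0 ^ 2 * y 0 + x 1 ^ 2 * y 1 + x 2 ^ 2 * y 2) ^ 2 * h2

/-- Row E1c. Expand. -/
theorem Hg_fw (h2 : (2 : L) = 0) {w : L} (hw : w ^ 2 + w + 1 = 0) (x y : Fin 3 → L) :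
    Hg (fw w x) (fw w y) = Hs x y := by
  have e : ∀ z : Fin 3 → L, fw w z 0 = z 1 + z 2 ∧ fw w z 1 = z 0 ∧
      fw w z 2 = w * z 1 + w ^ 2 * z 2 := fun z => ⟨rfl, rfl, rfl⟩
  obtain ⟨a0, a1, a2⟩ := e x
  obtain ⟨b0, b1, b2⟩ := e y
  unfold Hg Hs
  rw [a0, a1, a2, b0, b1, b2, Fin.sum_univ_three]
  linear_combination
    (x 1 ^ 2 * y 1 + x 2 ^ 2 * (w * (w - 1) * (y 1 + y 2) + y 2)) * hw +
    (-(x 1 ^ 2 * y 1) + x 1 ^ 2 * w ^ 2 * y 2 + x 2 ^ 2 * (w * y 1 - y 2) +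
      x 1 * x 2 * (w ^ 3 * (y 1 + y 2) + w * y 1 + w ^ 2 * y 2)) * h2

end MP2619.Q5
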