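import Pool.Agent.Lib.MP_2619d0_ag.Q5.E1

/-!
# Row E1c
-/

set_option autoImplicit false

namespace MP2619.Q5

universe v u

open IntermediateField MP2619.R MP2619.W

variable {L : Type u} [Field L]

private theorem E1c_curve {p a b : L} (hp : p ≠ 0)
    (h : (b * p) ^ 2 * p + b * p * p ^ 2 = (a * p) ^ 3) : b ^ 2 + b = a ^ 3 :=
  mul_left_cancel₀ (pow_ne_zero 3 hp) (by linear_combination h)

private theorem E1c_co {u : Fin 3 → L} (h0 : u 0 ≠ 0) (hu : u 2 ^ 2 * u 0 + u 2 * u 0 ^ 2 = u 1 ^ 3) :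
    ∃ a b : L, u 1 = a * u 0 ∧ u 2 = b * u 0 ∧ b ^ 2 + b = a ^ 3 := by
  have h1 : u 1 = u 1 / u 0 * u 0 := by field_simp
  have h2 : u 2 = u 2 / u 0 * u 0 := by field_simp
  refine ⟨u 1 / u 0, u 2 / u 0, h1, h2, E1c_curve h0 ?_⟩
  rw [← h1, ← h2]
  exact hu

private theorem E1c_Hg {u v : Fin 3 → L} {a1 b1 a2 b2 : L} (h1 : u 1 = a1 * u 0)
    (h3 : u 2 = b1 * u 0) (h4 : v 1 = a2 * v 0) (h5 : v 2 = b2 * v 0) :
    Hg u v = u 0 ^ 2 * v 0 * (b1 ^ 2 + b2 + a1 ^ 2 * a2) := by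
  unfold Hg
  rw [h1, h3, h4, h5]
  ring

private theorem E1c_sum (h2 : (2 : L) = 0) {a1 b1 a2 b2 : L} (h1 : b1 ^ 2 + b1 = a1 ^ 3)
    (h3 : b2 ^ 2 + b2 = a2 ^ 3) : (b2 ^ 2 + b1 + a2 ^ 2 * a1) + (b1 ^ 2 + b2 + a1 ^ 2 * a2) =
      (a1 + a2) ^ 3 := by
  linear_combination h1 + h3 - (a1 ^ 2 * a2 + a1 * a2 ^ 2) * h2

private theorem E1c_prop {u v : Fin 3 → L} (hu0 : u 0 = 0) (hu1 : u 1 = 0) (hv0 : v 0 = 0)
    (hv1 : v 1 = 0) (huv : ∃ i j, u i * v j ≠ u j * v i) : False := by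
  obtain ⟨i, j, hij⟩ := huv
  apply hij
  fin_cases i <;> fin_cases j <;> simp [hu0, hu1, hv0, hv1]

private theorem E1c_one {u : Fin 3 → L} (hu : u 2 ^ 2 * u 0 + u 2 * u 0 ^ 2 = u 1 ^ 3)
    (hu0 : u 0 = 0) : u 1 = 0 := by
  rw [hu0] at hu
  have : u 1 ^ 3 = 0 := by linear_combination -hu
  exact pow_eq_zero_iff (three_ne_zero) |>.1 this

private theorem E1c_two {u v : Fin 3 → L} (hu : u 2 ^ 2 * u 0 + u 2 * u 0 ^ 2 = u 1 ^ 3)
    (hv : v 2 ^ 2 * v 0 + v 2 * v 0 ^ 2 = v 1 ^ 3)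
    (huv : ∃ i j, u i * v j ≠ u j * v i) (hu0 : u 0 = 0) : u 1 = 0 ∧ u 2 ≠ 0 ∧ v 0 ≠ 0 := by
  have hu1 := E1c_one hu hu0
  refine ⟨hu1, ?_, ?_⟩
  · intro hu2
    obtain ⟨i, j, hij⟩ := huv
    apply hij
    have h : ∀ i, u i = 0 := by
      intro i
      fin_cases i
      · exact hu0
      · exact hu1
      · exact hu2
    rw [h, h, zero_mul, zero_mul]
  · intro hv0
    exact E1c_prop hu0 hu1 hv0 (E1c_one hv hv0) huv

private theorem E1c_ne {u v : Fin 3 → L} {a1 b1 a2 b2 : L} (h1 : u 1 = a1 * u 0)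
    (h3 : u 2 = b1 * u 0) (h4 : v 1 = a2 * v 0) (h5 : v 2 = b2 * v 0)
    (huv : ∃ i j, u i * v j ≠ u j * v i) (ha : a1 = a2) (hb : b1 = b2) : False := by
  obtain ⟨i, j, hij⟩ := huv
  apply hij
  subst ha hb
  have hu : ∀ i, u i = ![1, a1, b1] i * u 0 := by
    intro i
    fin_cases i
    · simp
    · simpa using h1
    · simpa using h3
  have hv : ∀ i, v i = ![1, a1, b1] i * v 0 := by
    intro i
    fin_cases i
    · simp
    · simpa using h4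
    · simpa using h5
  rw [hu i, hv j, hu j, hv i]
  ring

/-- Row E1c. As in `hp_third`: `u 0 = 0`: `Hg u v = v 0 * u 2 ^ 2`, `Hg v u = v 0 ^ 2 * u 2`; `u 0, v 0 ≠ 0`, `a1 = a2`:
`Hg u v` is `b1² + b2 + a1³ = 1` up to a factor; `a1 ≠ a2`: the sum of the normalised values is `(a1 + a2)³`. -/
theorem Hg_ne (h2 : (2 : L) = 0) {u v : Fin 3 → L}
    (hu : u 2 ^ 2 * u 0 + u 2 * u 0 ^ 2 = u 1 ^ 3) (hv : v 2 ^ 2 * v 0 + v 2 * v 0 ^ 2 = v 1 ^ 3)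
    (huv : ∃ i j, u i * v j ≠ u j * v i) : Hg u v ≠ 0 ∨ Hg v u ≠ 0 := by
  by_cases hu0 : u 0 = 0
  · obtain ⟨hu1, hu2, hv0⟩ := E1c_two hu hv huv hu0
    left
    have e : Hg u v = v 0 * u 2 ^ 2 := by
      unfold Hg
      rw [hu0, hu1]
      ring
    rw [e]
    exact mul_ne_zero hv0 (pow_ne_zero 2 hu2)
  by_cases hv0 : v 0 = 0
  · obtain ⟨hv1, hv2, _⟩ := E1c_two hv hu (by
      obtain ⟨i, j, h⟩ := huv
      exact ⟨i, j, fun h' => h (by rw [mul_comm, ← h', mul_comm])⟩) hv0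
    right
    have e : Hg v u = u 0 * v 2 ^ 2 := by
      unfold Hg
      rw [hv0, hv1]
      ring
    rw [e]
    exact mul_ne_zero hu0 (pow_ne_zero 2 hv2)
  obtain ⟨a1, b1, h1, h3, hc1⟩ := E1c_co hu0 hu
  obtain ⟨a2, b2, h4, h5, hc2⟩ := E1c_co hv0 hv
  by_contra hcon
  rw [not_or, not_not, not_not, E1c_Hg h1 h3 h4 h5, E1c_Hg h4 h5 h1 h3] at hcon
  have k1 : b1 ^ 2 + b2 + a1 ^ 2 * a2 = 0 :=
    (mul_eq_zero.1 hcon.1).resolve_left (mul_ne_zero (pow_ne_zero 2 hu0) hv0)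
  have k2 : b2 ^ 2 + b1 + a2 ^ 2 * a1 = 0 :=
    (mul_eq_zero.1 hcon.2).resolve_left (mul_ne_zero (pow_ne_zero 2 hv0) hu0)
  have k3 : (a1 + a2) ^ 3 = 0 := by
    rw [← E1c_sum h2 hc1 hc2, k1, k2, add_zero]
  have k4 : a1 + a2 = 0 := pow_eq_zero_iff (three_ne_zero) |>.1 k3
  have k5 : a1 = a2 := by linear_combination k4 - a2 * h2
  have k6 : b1 = b2 := by
    subst k5
    linear_combination hc1 - k1 + a1 ^ 3 * h2
  exact E1c_ne h1 h3 h4 h5 huv k5 k6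

private theorem E1c_hp {v : Fin 3 → L} (h0 : v 0 ≠ 0) {a b : L} (h : (Ec L).Nonsingular a b)
    (ha : v 1 = a * v 0) (hb : v 2 = b * v 0) :
    hp v = WeierstrassCurve.Affine.Point.some a b h := by
  have ea : a = v 1 / v 0 := by rw [ha]; field_simp
  have eb : b = v 2 / v 0 := by rw [hb]; field_simp
  subst ea eb
  unfold hp
  rw [dif_pos ⟨h0, h⟩]

private theorem E1c_hp0 {v : Fin 3 → L} (h0 : v 0 = 0) : hp v = 0 := by
  unfold hp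
  rw [dif_neg (fun h => h.1 h0)]
  rfl

private theorem E1c_negY (a b : L) : (Ec L).negY a b = -b - 1 := by
  simp [WeierstrassCurve.Affine.negY, Ec]

private theorem E1c_A [DecidableEq L] (h2 : (2 : L) = 0) {u v : Fin 3 → L}
    (hu : u 2 ^ 2 * u 0 + u 2 * u 0 ^ 2 = u 1 ^ 3) (hv : v 2 ^ 2 * v 0 + v 2 * v 0 ^ 2 = v 1 ^ 3)
    (huv : ∃ i j, u i * v j ≠ u j * v i) (hu0 : u 0 = 0) :
    hp (fun i => Hg v u * u i + Hg u v * v i) = -(hp u + hp v) := by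
  obtain ⟨hu1, hu2, hv0⟩ := E1c_two hu hv huv hu0
  obtain ⟨a2, b2, h4, h5, hc2⟩ := E1c_co hv0 hv
  have hns := (ec_nonsingular h2 a2 b2).2 hc2
  have e1 : Hg u v = v 0 * u 2 ^ 2 := by
    unfold Hg
    rw [hu0, hu1]
    ring
  have e2 : Hg v u = v 0 ^ 2 * u 2 := by
    unfold Hg
    rw [hu0, hu1]
    ring
  rw [E1c_hp0 hu0, zero_add, E1c_hp hv0 hns h4 h5, WeierstrassCurve.Affine.Point.neg_some]
  refine E1c_hp ?_ _ ?_ ?_
  · show Hg v u * u 0 + Hg u v * v 0 ≠ 0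
    rw [hu0, mul_zero, zero_add, e1]
    exact mul_ne_zero (mul_ne_zero hv0 (pow_ne_zero 2 hu2)) hv0
  · show Hg v u * u 1 + Hg u v * v 1 = a2 * (Hg v u * u 0 + Hg u v * v 0)
    rw [hu0, hu1, h4]
    ring
  · show Hg v u * u 2 + Hg u v * v 2 = (Ec L).negY a2 b2 * (Hg v u * u 0 + Hg u v * v 0)
    rw [hu0, h5, e1, e2, E1c_negY]
    linear_combination (v 0 ^ 2 * u 2 ^ 2 * (1 + b2)) * h2

/-- Row E1c. Case `u 0 = 0`: then `u 1 = 0`, `u 2 ≠ 0`, `hp u = 0`, and the vector is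
`u 2 * v 0 ^ 2 * (…)`, a multiple of `(v 0, v 1, v 2 + v 0)` (if `v 0 = 0` as well, `u`, `v` are proportional);
the same for `v 0 = 0`. Case `u 0, v 0 ≠ 0`: `a1 = u 1 / u 0` etc. If `a1 = a2` then `b2 = b1 + 1`, the first coordinate
of the vector is `0` and `hp u = - hp v`. If `a1 ≠ a2`: the first coordinate is
`(u 0 v 0)²` times `(a1 + a2)³` and the quotients are `ta`, `tb`: `(b2² + b1 + a2² a1) a1 + (b1² + b2 + a1² a2) a2 =
(b1 + b2)² (a1 + a2) + (a1 + a2)⁴` by the equations; then `third_point`. -/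
theorem hp_third [DecidableEq L] (h2 : (2 : L) = 0) {u v : Fin 3 → L}
    (hu : u 2 ^ 2 * u 0 + u 2 * u 0 ^ 2 = u 1 ^ 3) (hv : v 2 ^ 2 * v 0 + v 2 * v 0 ^ 2 = v 1 ^ 3)
    (huv : ∃ i j, u i * v j ≠ u j * v i) :
    hp (fun i => Hg v u * u i + Hg u v * v i) = -(hp u + hp v) := by
  by_cases hu0 : u 0 = 0
  · exact E1c_A h2 hu hv huv hu0
  by_cases hv0 : v 0 = 0
  · have h := E1c_A h2 hv hu (by
      obtain ⟨i, j, h⟩ := huv
      exact ⟨i, j, fun h' => h (by rw [mul_comm, ← h', mul_comm])⟩) hv0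
    rw [add_comm (hp u), ← h]
    congr 1
    funext i
    rw [add_comm]
  obtain ⟨a1, b1, h1, h3, hc1⟩ := E1c_co hu0 hu
  obtain ⟨a2, b2, h4, h5, hc2⟩ := E1c_co hv0 hv
  have hn1 := (ec_nonsingular h2 a1 b1).2 hc1
  have hn2 := (ec_nonsingular h2 a2 b2).2 hc2
  have e1 := E1c_Hg h1 h3 h4 h5
  have e2 := E1c_Hg h4 h5 h1 h3
  have hW0 : Hg v u * u 0 + Hg u v * v 0 = (u 0 * v 0) ^ 2 * (a1 + a2) ^ 3 := by
    rw [e1, e2, ← E1c_sum h2 hc1 hc2]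
    ring
  rw [E1c_hp hu0 hn1 h1 h3, E1c_hp hv0 hn2 h4 h5]
  by_cases ha : a1 = a2
  · have hb : b1 ≠ b2 := fun hb => E1c_ne h1 h3 h4 h5 huv ha hb
    have hb' : b1 = -b2 - 1 := by
      have h6 : (b1 - b2) * (b1 + b2 + 1) = 0 := by
        rw [ha] at hc1
        linear_combination hc1 - hc2
      have h7 := (mul_eq_zero.1 h6).resolve_left (sub_ne_zero.2 hb)
      linear_combination h7
    have h8 : hp (fun i => Hg v u * u i + Hg u v * v i) = 0 := by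
      apply E1c_hp0
      show Hg v u * u 0 + Hg u v * v 0 = 0
      rw [hW0, ha]
      linear_combination (u 0 * v 0) ^ 2 * (4 * a2 ^ 3) * h2
    rw [h8]
    have h9 : (WeierstrassCurve.Affine.Point.some a1 b1 hn1 : (Ec L).Point) =
        -WeierstrassCurve.Affine.Point.some a2 b2 hn2 := by
      rw [WeierstrassCurve.Affine.Point.neg_some]
      have h10 : b1 = (Ec L).negY a2 b2 := by rw [E1c_negY, hb']
      subst ha
      subst h10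
      rfl
    rw [h9, neg_add_cancel, neg_zero]
  · have had : a1 + a2 ≠ 0 := fun h => ha (by linear_combination h - a2 * h2)
    obtain ⟨hn, ht⟩ := third_point h2 hn1 hn2 ha
    rw [← ht]
    have et : ta a1 b1 a2 b2 * (a1 + a2) ^ 2 = (b1 + b2) ^ 2 + (a1 + a2) ^ 3 := by
      unfold ta
      field_simp
      ring
    have es : tb a1 b1 a2 b2 * (a1 + a2) ^ 3 = (b1 + b2) * (ta a1 b1 a2 b2 * (a1 + a2) ^ 2) +
        b1 * (a1 + a2) ^ 3 + (b1 + b2) * a1 * (a1 + a2) ^ 2 := by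
      unfold tb
      field_simp
      ring
    refine E1c_hp ?_ _ ?_ ?_
    · show Hg v u * u 0 + Hg u v * v 0 ≠ 0
      rw [hW0]
      exact mul_ne_zero (pow_ne_zero 2 (mul_ne_zero hu0 hv0)) (pow_ne_zero 3 had)
    · show Hg v u * u 1 + Hg u v * v 1 = ta a1 b1 a2 b2 * (Hg v u * u 0 + Hg u v * v 0)
      rw [hW0, e1, e2, h1, h4]
      have k : (b2 ^ 2 + b1 + a2 ^ 2 * a1) * a1 + (b1 ^ 2 + b2 + a1 ^ 2 * a2) * a2 =
          (b1 + b2) ^ 2 * (a1 + a2) + (a1 + a2) ^ 4 := by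
        linear_combination a1 * hc1 + a2 * hc2 + (-2 * a1 * a2 ^ 3 - a1 * b1 * b2 - a1 * b1 ^ 2 -
          2 * a1 ^ 2 * a2 ^ 2 - 2 * a1 ^ 3 * a2 - a2 * b1 * b2 - a2 * b2 ^ 2) * h2
      linear_combination (u 0 * v 0) ^ 2 * k - (u 0 * v 0) ^ 2 * (a1 + a2) * et
    · show Hg v u * u 2 + Hg u v * v 2 = tb a1 b1 a2 b2 * (Hg v u * u 0 + Hg u v * v 0)
      rw [hW0, e1, e2, h3, h5]
      have k : (b2 ^ 2 + b1 + a2 ^ 2 * a1) * b1 + (b1 ^ 2 + b2 + a1 ^ 2 * a2) * b2 =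
          (b1 + b2) ^ 3 + b2 * (a1 + a2) ^ 3 + (b1 + b2) * a1 * (a1 + a2) ^ 2 := by
        linear_combination b1 * hc1 + b2 * hc2 + (-2 * a1 * a2 ^ 2 * b2 - a1 ^ 2 * a2 * b1 -
          2 * a1 ^ 2 * a2 * b2 - a1 ^ 3 * b2 - b1 * b2 ^ 2 - b1 ^ 2 * b2 - b1 ^ 3 - b2 ^ 3) * h2
      linear_combination (u 0 * v 0) ^ 2 * k - (u 0 * v 0) ^ 2 * es -
        (u 0 * v 0) ^ 2 * (b1 + b2) * et - (u 0 * v 0) ^ 2 * b1 * (a1 + a2) ^ 3 * h2

end MP2619.Q5
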