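import Pool.Agent.Lib.MP_2619d0_ag.Q5.E1a
import Pool.Agent.Lib.MP_2619d0_ag.Q5.E1b
import Pool.Agent.Lib.MP_2619d0_ag.Q5.E1c

/-!
# Row E1d
-/

set_option autoImplicit false

namespace MP2619.Q5

universe v u

open IntermediateField MP2619.R MP2619.W

variable {L : Type u} [Field L]

private theorem E1d_prop (h2 : (2 : L) = 0) {w : L} (hw : w ^ 2 + w + 1 = 0) {x y : Fin 3 → L}
    (hxy : ∃ i j, x i * y j ≠ x j * y i) :
    ∃ i j, fw w x i * fw w y j ≠ fw w x j * fw w y i := by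
  by_contra hcon
  push Not at hcon
  have h01 := hcon 0 1
  have h12 := hcon 1 2
  have h02 := hcon 0 2
  simp only [fw, Matrix.cons_val_zero, Matrix.cons_val_one, Matrix.cons_val] at h01 h12 h02
  have a12 : x 1 * y 2 = x 2 * y 1 := by
    linear_combination h02 + (x 1 * y 2 - x 2 * y 1) * (-hw) + (w + 1) * (x 1 * y 2 - x 2 * y 1) * h2
  have a02 : x 0 * y 2 = x 2 * y 0 := by
    linear_combination h12 + w * h01 + (x 0 * y 2 - x 2 * y 0) * (-hw) +
      (w + 1) * (x 0 * y 2 - x 2 * y 0) * h2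
  have a01 : x 0 * y 1 = x 1 * y 0 := by
    linear_combination -h01 - a02
  obtain ⟨i, j, hij⟩ := hxy
  apply hij
  fin_cases i <;> fin_cases j <;> simp only [Fin.zero_eta, Fin.mk_one, Fin.reduceFinMk, Fin.isValue]
  · exact a01
  · exact a02
  · exact a01.symm
  · exact a12
  · exact a02.symm
  · exact a12.symm

/-- Row E1d. `x`, `y` are not proportional, so `thd x y = 0` gives `Hs x y = Hs y x = 0`, against `Hg_ne`, `Hg_fw`. -/
theorem thd_ne (h2 : (2 : L) = 0) {w : L} (hw : w ^ 2 + w + 1 = 0) {x y : Fin 3 → L}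
    (hx : ∑ i, x i ^ 3 = 0) (hy : ∑ i, y i ^ 3 = 0) (hxy : ∃ i j, x i * y j ≠ x j * y i) :
    ∃ i, thd x y i ≠ 0 := by
  by_contra hcon
  push Not at hcon
  obtain ⟨i, j, hij⟩ := hxy
  have e1 : Hs y x * x i + Hs x y * y i = 0 := hcon i
  have e2 : Hs y x * x j + Hs x y * y j = 0 := hcon j
  have hd : x i * y j - x j * y i ≠ 0 := sub_ne_zero.2 hij
  have h1 : Hs y x = 0 := by
    have : Hs y x * (x i * y j - x j * y i) = 0 := by linear_combination y j * e1 - y i * e2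
    exact (mul_eq_zero.1 this).resolve_right hd
  have h3 : Hs x y = 0 := by
    have : Hs x y * (x i * y j - x j * y i) = 0 := by linear_combination x i * e2 - x j * e1
    exact (mul_eq_zero.1 this).resolve_right hd
  rcases Hg_ne h2 (fw_eq h2 hw hx) (fw_eq h2 hw hy) (E1d_prop h2 hw ⟨i, j, hij⟩) with h | h
  · exact h (by rw [Hg_fw h2 hw, h3])
  · exact h (by rw [Hg_fw h2 hw, h1])

/-- Row E1d. `fw w (thd x y) = Hg (fw y) (fw x) • fw x + Hg (fw x) (fw y) • fw y` and `hp_third`. -/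
theorem pt_thd [DecidableEq L] (h2 : (2 : L) = 0) {w : L} (hw : w ^ 2 + w + 1 = 0)
    {x y : Fin 3 → L} (hx : ∑ i, x i ^ 3 = 0) (hy : ∑ i, y i ^ 3 = 0)
    (hxy : ∃ i j, x i * y j ≠ x j * y i) : ptE w (thd x y) = -(ptE w x + ptE w y) := by
  have h := hp_third h2 (fw_eq h2 hw hx) (fw_eq h2 hw hy) (E1d_prop h2 hw hxy)
  rw [Hg_fw h2 hw, Hg_fw h2 hw] at h
  have e : fw w (thd x y) = fun i => Hs y x * fw w x i + Hs x y * fw w y i := by
    funext i
    fin_cases i <;>
      simp only [fw, thd, Fin.zero_eta, Fin.mk_one, Fin.reduceFinMk, Fin.isValue,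
        Matrix.cons_val_zero, Matrix.cons_val_one, Matrix.cons_val] <;> ring
  unfold ptE
  rw [e]
  exact h

end MP2619.Q5
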