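import Mathlib

/-!
# Row E2: pure algebra (forms on a module over `ℤ[w, φ]`, `w² + w + 1 = 0`, `φ² = -2`, `φ w = w² φ`)
-/

set_option autoImplicit false

namespace MP2619.Q5

universe u

/-- a module over `ℤ[w, φ]` -/
structure Act {A : Type u} [AddCommGroup A] (w φ : A → A) : Prop where
  w_add : ∀ P R, w (P + R) = w P + w R
  φ_add : ∀ P R, φ (P + R) = φ P + φ R
  w_rel : ∀ P, w (w P) + w P + P = 0
  φ_rel : ∀ P, φ (φ P) = -(P + P)
  φ_w : ∀ P, φ (w P) = w (w (φ P))

/-- first polarisation -/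
def T1 {A : Type u} [AddCommGroup A] (Q : A → A → ℤ) (P P' R : A) : ℤ :=
  Q (P + P') R - Q P R - Q P' R

/-- full polarisation -/
def B4 {A : Type u} [AddCommGroup A] (Q : A → A → ℤ) (P P' R S : A) : ℤ :=
  T1 Q P P' (R + S) - T1 Q P P' R - T1 Q P P' S

/-- the sum of the nine terms -/
def S9 {A : Type u} [AddCommGroup A] (Q : A → A → ℤ) (P P' R R' : A) : ℤ :=
  Q P R + Q P R' + Q P (R + R') + Q P' R + Q P' R' + Q P' (R + R') +
    Q (P + P') R + Q (P + P') R' + Q (P + P') (R + R')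

/-- the properties of the form `Q(P, R) = [κ : k(P, R)]` -/
structure QF {A : Type u} [AddCommGroup A] (w φ : A → A) (Q : A → A → ℤ) : Prop where
  act : Act w φ
  symm : ∀ P R, Q P R = Q R P
  par : ∀ P P' R, Q (P + P') R + Q (P - P') R = 2 * (Q P R + Q P' R)
  Qw : ∀ P R, Q (w P) R = Q P R
  Qφ : ∀ P R, Q (φ P) R = 2 * Q P R
  inv : ∀ P R, Q (P + R) R = Q P R
  invw : ∀ P R, Q (P + w R) R = Q P R
  invφ : ∀ P R, Q (P + φ R) R = Q P R
  invwφ : ∀ P R, Q (P + w (φ R)) R = Q P R

/-- the properties of a form `N(P) = [L : K(P)]` -/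
structure NF {A : Type u} [AddCommGroup A] (w φ : A → A) (N : A → ℤ) : Prop where
  act : Act w φ
  par : ∀ P P', N (P + P') + N (P - P') = 2 * (N P + N P')
  Nw : ∀ P, N (w P) = N P
  Nφ : ∀ P, N (φ P) = 2 * N P
  ev : ∀ P R, Even (N (P + φ R) - N P)

section basic

variable {A : Type u} [AddCommGroup A] {w φ : A → A}

theorem Act.w_neg (h : Act w φ) (P : A) : w (-P) = -w P := by
  have h0 : w 0 = 0 := by
    have := h.w_add 0 0
    simpa using this
  have h1 := h.w_add P (-P)
  rw [add_neg_cancel, h0] at h1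
  exact (neg_eq_of_add_eq_zero_right h1.symm).symm

theorem Act.φ_neg (h : Act w φ) (P : A) : φ (-P) = -φ P := by
  have h0 : φ 0 = 0 := by
    have := h.φ_add 0 0
    simpa using this
  have h1 := h.φ_add P (-P)
  rw [add_neg_cancel, h0] at h1
  exact (neg_eq_of_add_eq_zero_right h1.symm).symm

theorem Act.www (h : Act w φ) (P : A) : w (w (w P)) = P := by
  have h1 := h.w_rel (w P)
  have h2 := h.w_rel P
  have h3 : w (w (w P)) - P = (w (w (w P)) + w (w P) + w P) - (w (w P) + w P + P) := by abel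
  rw [h1, h2, sub_zero] at h3
  exact sub_eq_zero.mp h3

/-- a function with the parallelogram law is a quadratic form -/
theorem par_three (f : A → ℤ) (h : ∀ x y, f (x + y) + f (x - y) = 2 * (f x + f y)) (x y z : A) :
    f (x + y + z) = f (x + y) + f (x + z) + f (y + z) - f x - f y - f z := by
  have e1 := h (x + y) z
  have e2 := h (x + z) y
  have e3 := h (y + z) x
  have e4 := h x (y - z)
  have e5 := h z (x - y)
  have e6 := h y (x - z)
  have f1 := h y z
  have f2 := h x y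
  have f3 := h x z
  have a1 : x + z + y = x + y + z := by abel
  have a2 : y + z + x = x + y + z := by abel
  have a3 : x + (y - z) = x + y - z := by abel
  have a4 : x - (y - z) = x + z - y := by abel
  have a5 : z + (x - y) = x + z - y := by abel
  have a6 : z - (x - y) = y + z - x := by abel
  have a7 : y + (x - z) = x + y - z := by abel
  have a8 : y - (x - z) = y + z - x := by abel
  rw [a1] at e2
  rw [a2] at e3
  rw [a3, a4] at e4
  rw [a5, a6] at e5
  rw [a7, a8] at e6
  linarith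

/-- polar form -/
def pl (f : A → ℤ) (P P' : A) : ℤ := f (P + P') - f P - f P'

theorem pl_symm (f : A → ℤ) (P P' : A) : pl f P P' = pl f P' P := by
  unfold pl; rw [add_comm P P']; ring

theorem pl_add_left {f : A → ℤ} (h : ∀ x y, f (x + y) + f (x - y) = 2 * (f x + f y)) (P P' R : A) :
    pl f (P + P') R = pl f P R + pl f P' R := by
  unfold pl; rw [par_three f h]; ring

theorem pl_add_right {f : A → ℤ} (h : ∀ x y, f (x + y) + f (x - y) = 2 * (f x + f y)) (P R R' : A) :
    pl f P (R + R') = pl f P R + pl f P R' := by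
  rw [pl_symm, pl_add_left h, pl_symm f R, pl_symm f R']

theorem pl_neg_left {f : A → ℤ} (h : ∀ x y, f (x + y) + f (x - y) = 2 * (f x + f y)) (P R : A) :
    pl f (-P) R = -pl f P R := by
  have h1 := pl_add_left h P (-P) R
  have h0 : pl f 0 R = 0 := by
    have := pl_add_left h 0 0 R
    rw [add_zero] at this
    linarith
  rw [add_neg_cancel, h0] at h1
  linarith

theorem pl_neg_right {f : A → ℤ} (h : ∀ x y, f (x + y) + f (x - y) = 2 * (f x + f y)) (P R : A) :
    pl f P (-R) = -pl f P R := by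
  rw [pl_symm, pl_neg_left h, pl_symm]

end basic

section four

variable {A : Type u} [AddCommGroup A] {w φ : A → A} {Q : A → A → ℤ}

theorem T1_eq (Q : A → A → ℤ) (P P' R : A) : T1 Q P P' R = pl (fun X => Q X R) P P' := rfl

theorem QF.par' (h : QF w φ Q) (R : A) : ∀ x y, (fun X => Q X R) (x + y) + (fun X => Q X R) (x - y) =
    2 * ((fun X => Q X R) x + (fun X => Q X R) y) := fun x y => h.par x y R

theorem QF.par2 (h : QF w φ Q) (P : A) : ∀ x y, (fun X => Q P X) (x + y) + (fun X => Q P X) (x - y) =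
    2 * ((fun X => Q P X) x + (fun X => Q P X) y) := fun x y => by
  simp only [h.symm P]; exact h.par x y P

theorem T1_symm (Q : A → A → ℤ) (P P' R : A) : T1 Q P P' R = T1 Q P' P R := by
  rw [T1_eq, pl_symm]; rfl

theorem T1_add1 (h : QF w φ Q) (P1 P2 P' R : A) :
    T1 Q (P1 + P2) P' R = T1 Q P1 P' R + T1 Q P2 P' R := by
  simp only [T1_eq]; exact pl_add_left (h.par' R) P1 P2 P'

theorem T1_add2 (h : QF w φ Q) (P P1 P2 R : A) :
    T1 Q P (P1 + P2) R = T1 Q P P1 R + T1 Q P P2 R := by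
  rw [T1_symm, T1_add1 h, T1_symm Q P1, T1_symm Q P2]

theorem B4_add1 (h : QF w φ Q) (P1 P2 P' R S : A) :
    B4 Q (P1 + P2) P' R S = B4 Q P1 P' R S + B4 Q P2 P' R S := by
  unfold B4; simp only [T1_add1 h]; ring

theorem B4_symm1 (Q : A → A → ℤ) (P P' R S : A) : B4 Q P P' R S = B4 Q P' P R S := by
  unfold B4; simp only [T1_symm Q P P']

theorem B4_symm2 (Q : A → A → ℤ) (P P' R S : A) : B4 Q P P' R S = B4 Q P P' S R := by
  unfold B4; rw [add_comm R S]; ring

theorem B4_swap (h : QF w φ Q) (P P' R S : A) : B4 Q P P' R S = B4 Q R S P P' := by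
  unfold B4 T1
  simp only [h.symm R, h.symm S, h.symm (R + S)]
  ring

theorem B4_add2 (h : QF w φ Q) (P P1 P2 R S : A) :
    B4 Q P (P1 + P2) R S = B4 Q P P1 R S + B4 Q P P2 R S := by
  rw [B4_symm1, B4_add1 h, B4_symm1 Q P1, B4_symm1 Q P2]

theorem B4_add3 (h : QF w φ Q) (P P' R S T : A) :
    B4 Q P P' (R + S) T = B4 Q P P' R T + B4 Q P P' S T := by
  rw [B4_swap h, B4_add1 h, B4_swap h R, B4_swap h S]

theorem B4_add4 (h : QF w φ Q) (P P' R S T : A) :
    B4 Q P P' R (S + T) = B4 Q P P' R S + B4 Q P P' R T := by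
  rw [B4_symm2, B4_add3 h, B4_symm2 Q P P' S, B4_symm2 Q P P' T]

theorem B4_zero1 (h : QF w φ Q) (P' R S : A) : B4 Q 0 P' R S = 0 := by
  have := B4_add1 h 0 0 P' R S
  rw [add_zero] at this
  linarith

theorem B4_neg1 (h : QF w φ Q) (P P' R S : A) : B4 Q (-P) P' R S = -B4 Q P P' R S := by
  have h1 := B4_add1 h P (-P) P' R S
  rw [add_neg_cancel, B4_zero1 h] at h1
  linarith

theorem B4_neg2 (h : QF w φ Q) (P P' R S : A) : B4 Q P (-P') R S = -B4 Q P P' R S := by
  rw [B4_symm1, B4_neg1 h, B4_symm1]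

theorem B4_neg4 (h : QF w φ Q) (P P' R S : A) : B4 Q P P' R (-S) = -B4 Q P P' R S := by
  rw [B4_swap h, B4_neg2 h, B4_swap h]

theorem B4_ww (h : QF w φ Q) (P P' R S : A) : B4 Q (w P) (w P') R S = B4 Q P P' R S := by
  unfold B4 T1
  simp only [← h.act.w_add, h.Qw]

theorem B4_φφ (h : QF w φ Q) (P P' R S : A) : B4 Q (φ P) (φ P') R S = 2 * B4 Q P P' R S := by
  unfold B4 T1
  simp only [← h.act.φ_add, h.Qφ]
  ring

theorem B4_w (h : QF w φ Q) (P P' R S : A) : B4 Q (w P) P' R S = B4 Q P (w (w P')) R S := by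
  rw [← B4_ww h P, h.act.www]

/-- the Bianchi identity -/
theorem bianchi (h : QF w φ Q) (a : A → A) (ha : ∀ R S, a (R + S) = a R + a S)
    (hinv : ∀ P R, Q (P + a R) R = Q P R) (P R S T : A) :
    B4 Q P (a R) S T + B4 Q P (a S) R T + B4 Q P (a T) R S = 0 := by
  have hQ0 : ∀ R, Q 0 R = 0 := by
    intro R
    have := h.par 0 0 R
    rw [add_zero, sub_zero] at this
    linarith
  have hC : ∀ R, T1 Q P (a R) R = 0 := by
    intro R
    unfold T1
    have h1 := hinv P R
    have h2 := hinv 0 R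
    rw [zero_add, hQ0] at h2
    rw [h1, h2]; ring
  have hT : ∀ X R S, T1 Q P X (R + S) = T1 Q P X R + T1 Q P X S + B4 Q P X R S := by
    intro X R S
    unfold B4; ring
  have h2 : ∀ R S, T1 Q P (a R) S + T1 Q P (a S) R + B4 Q P (a R) R S + B4 Q P (a S) R S = 0 := by
    intro R S
    have h3 := hC (R + S)
    rw [ha, T1_add2 h, hT, hT, hC, hC] at h3
    linarith
  have h3 := h2 R (S + T)
  rw [ha, T1_add2 h, hT, B4_add2 h, B4_add4 h, B4_add4 h, B4_add4 h] at h3
  have h4 := h2 R S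
  have h5 := h2 R T
  linarith

theorem S9_B4 (Q : A → A → ℤ) (P P' R S : A) : Even (S9 Q P P' R S - B4 Q P P' R S) := by
  refine ⟨Q P (R + S) + Q P' (R + S) + Q (P + P') R + Q (P + P') S, ?_⟩
  unfold S9 B4 T1
  ring

end four

end MP2619.Q5
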