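import Pool.Agent.Lib.MP_2619d0_ag.Q5.E2

/-!
# Row E2b: the parity of the nine terms does not change when `X1`, `X2` are replaced by `w X1`, `w X2`
-/

set_option autoImplicit false

namespace MP2619.Q5

universe u

theorem cc_algebra {A C : Type u} [AddCommGroup A] [AddCommGroup C] {w φ : A → A} {w' φ' : C → C}
    {Q : A → A → ℤ} (h : QF w φ Q) {nx : C → ℤ} {ny : A → ℤ} (hx : NF w' φ' nx) (hy : NF w φ ny)
    (ι : C → A) (ι_add : ∀ P R, ι (P + R) = ι P + ι R) (ι_w : ∀ P, ι (w' P) = w (ι P))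
    (ι_φ : ∀ P, ι (φ' P) = φ (ι P)) (hfac : ∀ P Z, Q (ι P) Z = nx P * ny Z) (X1 X2 : C)
    (Y1 Y2 : A) : Even (S9 Q (ι X1) Y1 (ι X2) Y2 - S9 Q (w (ι X1)) Y1 (w (ι X2)) Y2) := by
  -- the factorisation
  have hF : ∀ P P' R S, B4 Q (ι P) (ι P') R S = pl nx P P' * pl ny R S := by
    intro P P' R S
    unfold B4 T1 pl
    simp only [← ι_add, hfac]
    ring
  -- the forms of one variable
  have yw : ∀ R S, pl ny (w R) S = pl ny R (w (w S)) := by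
    intro R S
    have h1 : pl ny (w R) (w (w (w S))) = pl ny R (w (w S)) := by
      unfold pl
      simp only [← hy.act.w_add, hy.Nw]
    rw [hy.act.www] at h1
    exact h1
  have yφφ : ∀ R S, pl ny (φ R) (φ S) = 2 * pl ny R S := by
    intro R S
    unfold pl
    simp only [← hy.act.φ_add, hy.Nφ]
    ring
  have yφ : ∀ R S, pl ny (φ R) S = -pl ny R (φ S) := by
    intro R S
    have h1 := yφφ (φ R) S
    rw [hy.act.φ_rel, pl_neg_left hy.par, pl_add_left hy.par] at h1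
    linarith
  have yev : ∀ R S, Even (pl ny R (φ S)) := by
    intro R S
    have h1 := hy.ev R S
    have h2 : pl ny R (φ S) = (ny (R + φ S) - ny R) - 2 * ny S := by
      unfold pl; rw [hy.Nφ]
    rw [h2]
    exact h1.sub (even_two_mul _)
  have xev : ∀ R S, Even (pl nx R (φ' S)) := by
    intro R S
    have h1 := hx.ev R S
    have h2 : pl nx R (φ' S) = (nx (R + φ' S) - nx R) - 2 * nx S := by
      unfold pl; rw [hx.Nφ]
    rw [h2]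
    exact h1.sub (even_two_mul _)
  have xw : ∀ R S, pl nx (w' R) (w' S) = pl nx R S := by
    intro R S
    unfold pl
    simp only [← hx.act.w_add, hx.Nw]
  -- `H Y Z`
  set x1 := ι X1 with hx1
  set x2 := ι X2 with hx2
  have H2 : ∀ Y Z Z', B4 Q x1 (Y + Z) x2 Z' = B4 Q x1 Y x2 Z' + B4 Q x1 Z x2 Z' :=
    fun Y Z Z' => B4_add2 h x1 Y Z x2 Z'
  -- Bianchi for `a`
  have bi : ∀ (a : A → A) (a' : C → C), (∀ P, ι (a' P) = a (ι P)) →
      (∀ R S, a (R + S) = a R + a S) → (∀ P R, Q (P + a R) R = Q P R) → ∀ Y Z,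
      B4 Q x1 (a Y) x2 Z + B4 Q x1 (a Z) x2 Y = -(pl nx X1 (a' X2) * pl ny Y Z) := by
    intro a a' haa ha hinv Y Z
    have h1 := bianchi h a ha hinv x1 Y x2 Z
    have h2 : B4 Q x1 (a x2) Y Z = pl nx X1 (a' X2) * pl ny Y Z := by
      rw [hx1, hx2, ← haa, hF]
    rw [h2, B4_symm2 Q x1 (a Z) Y x2] at h1
    linarith
  have b1 := bi id id (fun _ => rfl) (fun _ _ => rfl) h.inv
  simp only [id] at b1
  have bw := bi w w' ι_w h.act.w_add h.invw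
  have bφ := bi φ φ' ι_φ h.act.φ_add h.invφ
  have bwφ := bi (fun R => w (φ R)) (fun R => w' (φ' R)) (fun P => by rw [ι_w, ι_φ])
    (fun R S => by rw [h.act.φ_add, h.act.w_add]) h.invwφ
  -- `H (a Y) Z = H Y (a Z) + ...`
  have m1 : ∀ (a : A → A) (t : ℤ), (∀ Y Z, B4 Q x1 (a Y) x2 Z + B4 Q x1 (a Z) x2 Y =
      -(t * pl ny Y Z)) → ∀ Y Z, B4 Q x1 (a Y) x2 Z = B4 Q x1 Y x2 (a Z) +
      pl nx X1 X2 * pl ny Y (a Z) - t * pl ny Y Z := by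
    intro a t hat Y Z
    have h1 := hat Y Z
    have h2 := b1 Y (a Z)
    linarith
  have mw := m1 w _ bw
  have mφ := m1 φ _ bφ
  have mwφ := m1 (fun R => w (φ R)) _ bwφ
  -- the commutator
  have hφw : ∀ R, φ (w R) = w (w (φ R)) := h.act.φ_w
  have hww3 : ∀ R, w (w (w R)) = R := h.act.www
  have hφφ : ∀ R, φ (φ R) = -(R + R) := h.act.φ_rel
  have hcom : ∀ Y Z, B4 Q x1 Y x2 (w (φ Z)) - B4 Q x1 Y x2 (φ (w Z)) =
      -(pl nx X1 X2 * pl ny Y (w (φ Z))) + pl nx X1 (w' (φ' X2)) * pl ny Y Z +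
        pl nx X1 (w' X2) * pl ny Y (φ Z) - pl nx X1 (φ' X2) * pl ny Y (w Z) := by
    intro Y Z
    have e1 := mwφ Y Z
    have e2 := mw (φ Y) Z
    have e3 := mφ Y (w Z)
    have e4 := yφ Y (w Z)
    have e5 := yφ Y Z
    rw [e4, e5] at e2
    linarith
  have ylin : ∀ Y Z Z', pl ny Y (Z + Z') = pl ny Y Z + pl ny Y Z' := pl_add_right hy.par
  have yneg : ∀ Y Z, pl ny Y (-Z) = -pl ny Y Z := pl_neg_right hy.par
  have Hlin : ∀ Y Z Z', B4 Q x1 Y x2 (Z + Z') = B4 Q x1 Y x2 Z + B4 Q x1 Y x2 Z' :=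
    fun Y Z Z' => B4_add4 h x1 Y x2 Z Z'
  have Hneg : ∀ Y Z, B4 Q x1 Y x2 (-Z) = -B4 Q x1 Y x2 Z := fun Y Z => B4_neg4 h x1 Y x2 Z
  -- `Z = φ (w (w Y2))`
  have c1 := hcom Y1 (φ (w (w Y2)))
  have r1 : φ (φ (w (w Y2))) = -(w (w Y2) + w (w Y2)) := hφφ _
  have r2 : w (φ (φ (w (w Y2)))) = -(Y2 + Y2) := by
    rw [r1, h.act.w_neg, h.act.w_add, hww3]
  have r3 : φ (w (φ (w (w Y2)))) = -(w Y2 + w Y2) := by
    rw [hφw, r2, h.act.w_neg, h.act.w_add]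
  -- `φ w w = w φ`, `w φ w w = w w φ`
  have r4 : φ (w (w Y2)) = w (φ Y2) := by
    rw [hφw, hφw, hww3]
  rw [r2, r3, r1, r4, yneg, yneg, ylin, ylin, Hneg, Hneg, Hlin, Hlin] at c1
  -- the second term
  have hS : B4 Q (w x1) Y1 (w x2) Y2 = B4 Q x1 (w (w Y1)) x2 (w (w Y2)) := by
    rw [B4_w h, B4_swap h, B4_w h, B4_swap h]
  have e6 := mw (w Y1) (w (w Y2))
  have e7 := mw Y1 Y2
  rw [hww3] at e6
  -- relations
  have s1 : pl ny (w Y1) Y2 = pl ny Y1 (w (w Y2)) := yw Y1 Y2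
  have s2 : pl ny (w Y1) (w (w Y2)) = pl ny Y1 (w Y2) := by
    rw [yw, hww3]
  have s3 : pl ny Y1 (w (w Y2)) + pl ny Y1 (w Y2) + pl ny Y1 Y2 = 0 := by
    rw [← ylin, ← ylin, hy.act.w_rel]
    have := ylin Y1 0 0
    rw [add_zero] at this
    linarith
  have key : 2 * (B4 Q x1 Y1 x2 Y2 - B4 Q (w x1) Y1 (w x2) Y2) =
      pl nx X1 (φ' X2) * pl ny Y1 (w (w (φ Y2))) -
        pl nx X1 (w' (φ' X2)) * pl ny Y1 (w (φ Y2)) := by
    rw [hS]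
    rw [s1, s2] at e6
    linear_combination (-1) * c1 + (-2) * e6 + (-2) * e7 +
      (-2 * pl nx X1 X2 + 2 * pl nx X1 (w' X2)) * s3
  -- conclusion
  have z1 : Even (pl nx X1 (φ' X2)) := xev _ _
  have z2 : Even (pl nx X1 (w' (φ' X2))) := by
    have h1 : pl nx X1 (w' (φ' X2)) = pl nx (w' (w' X1)) (φ' X2) := by
      rw [← xw (w' (w' X1)) (φ' X2), hx.act.www]
    rw [h1]; exact xev _ _
  have z3 : Even (pl ny Y1 (w (w (φ Y2)))) := by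
    rw [← yw]; exact yev _ _
  have z4 : Even (pl ny Y1 (w (φ Y2))) := by
    have h1 : pl ny (w (w Y1)) (φ Y2) = pl ny Y1 (w (φ Y2)) := by
      rw [yw, yw, hww3]
    rw [← h1]; exact yev _ _
  obtain ⟨p1, hp1⟩ := z1
  obtain ⟨p2, hp2⟩ := z2
  obtain ⟨p3, hp3⟩ := z3
  obtain ⟨p4, hp4⟩ := z4
  have hD : Even (B4 Q x1 Y1 x2 Y2 - B4 Q (w x1) Y1 (w x2) Y2) := by
    refine ⟨p1 * p3 - p2 * p4, ?_⟩
    rw [hp1, hp2, hp3, hp4] at key
    linarith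
  have f1 := S9_B4 Q x1 Y1 x2 Y2
  have f2 := S9_B4 Q (w x1) Y1 (w x2) Y2
  have f3 := (f1.add hD).sub f2
  have f4 : S9 Q x1 Y1 x2 Y2 - S9 Q (w x1) Y1 (w x2) Y2 =
      S9 Q x1 Y1 x2 Y2 - B4 Q x1 Y1 x2 Y2 + (B4 Q x1 Y1 x2 Y2 - B4 Q (w x1) Y1 (w x2) Y2) -
        (S9 Q (w x1) Y1 (w x2) Y2 - B4 Q (w x1) Y1 (w x2) Y2) := by ring
  rw [f4]
  exact f3

end MP2619.Q5
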