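import Pool.Agent.Lib.MP_2619d0_ag.Q5.E1
import Pool.Agent.Lib.MP_2619d0_ag.W.V10
import Pool.Agent.Lib.MP_2619d0_ag.W.V14a

/-!
# Row E4a
-/

set_option autoImplicit false

namespace MP2619.Q5

universe v u

open IntermediateField MP2619.R MP2619.W

private theorem E4a_lin_mem {k M : Type u} [Field k] [Field M] [Algebra k M]
    (A : Matrix (Fin 3) (Fin 3) k) (z : Fin 3 → M) (F : IntermediateField k M)
    (h : ∀ j, z j ∈ F) (i : Fin 3) : lin A z i ∈ F := by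
  unfold lin
  exact sum_mem fun j _ => mul_mem (IntermediateField.algebraMap_mem F _) (h j)

private theorem E4a_comp {k M : Type u} [Field k] [Field M] [Algebra k M]
    (A B : Matrix (Fin 3) (Fin 3) k) (z : Fin 3 → M) (i : Fin 3) :
    lin B (lin A z) i = lin (B * A) z i := by
  unfold lin
  simp only [Matrix.mul_apply, map_sum, map_mul, Finset.mul_sum, Finset.sum_mul]
  rw [Finset.sum_comm]
  refine Finset.sum_congr rfl fun j _ => Finset.sum_congr rfl fun l _ => ?_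
  ring

private theorem E4a_one {k M : Type u} [Field k] [Field M] [Algebra k M]
    (z : Fin 3 → M) (i : Fin 3) : lin (1 : Matrix (Fin 3) (Fin 3) k) z i = z i := by
  unfold lin
  rw [Finset.sum_eq_single i]
  · simp
  · intro j _ hj
    rw [Matrix.one_apply_ne hj.symm]; simp
  · intro h; exact absurd (Finset.mem_univ i) h

private theorem E4a_smul {k M : Type u} [Field k] [Field M] [Algebra k M]
    (A : Matrix (Fin 3) (Fin 3) k) (c : M) (z : Fin 3 → M) (i : Fin 3) :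
    lin A (fun j => c * z j) i = c * lin A z i := by
  unfold lin
  rw [Finset.mul_sum]
  refine Finset.sum_congr rfl fun j _ => ?_
  ring

private theorem E4a_comb {k M : Type u} [Field k] [Field M] [Algebra k M]
    (A : Matrix (Fin 3) (Fin 3) k) (c d : M) (x y : Fin 3 → M) (i : Fin 3) :
    lin A (fun j => c * x j + d * y j) i = c * lin A x i + d * lin A y i := by
  unfold lin
  rw [Finset.mul_sum, Finset.mul_sum, ← Finset.sum_add_distrib]
  refine Finset.sum_congr rfl fun j _ => ?_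
  ring

private theorem E4a_quot {k M : Type u} [Field k] [Field M] [Algebra k M]
    (A : Matrix (Fin 3) (Fin 3) k) (x : Fin 3 → M) (s : Fin 3) (i : Fin 3) :
    lin A x i / x s ∈ adjoin k (rt x) := by
  unfold lin
  rw [Finset.sum_div]
  refine sum_mem fun j _ => ?_
  rw [mul_div_assoc]
  exact mul_mem (IntermediateField.algebraMap_mem _ _) (subset_adjoin _ _ ⟨j, s, rfl⟩)

private theorem E4a_div {k M : Type u} [Field k] [Field M] [Algebra k M]
    (A : Matrix (Fin 3) (Fin 3) k) (x : Fin 3 → M) (s : Fin 3) (hs : x s ≠ 0) (i j : Fin 3) :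
    lin A x i / lin A x j ∈ adjoin k (rt x) := by
  have h := div_mem (E4a_quot A x s i) (E4a_quot A x s j)
  rwa [div_div_div_cancel_right₀ hs] at h

private theorem E4a_adj {k M : Type u} [Field k] [Field M] [Algebra k M]
    (A : Matrix (Fin 3) (Fin 3) k) (hA : IsUnit A.det) (x : Fin 3 → M) (c a b : M) (hc : c ≠ 0)
    (h : lin A x = ![c, c * a, c * b]) : adjoin k {a, b} = adjoin k (rt x) := by
  have h0 : lin A x 0 = c := by rw [h]; rfl
  have h1 : lin A x 1 = c * a := by rw [h]; rfl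
  have h2 : lin A x 2 = c * b := by rw [h]; rfl
  apply le_antisymm
  · have hxs : ∃ s, x s ≠ 0 := by
      by_contra hh
      push Not at hh
      apply hc
      rw [← h0]
      unfold lin
      exact Finset.sum_eq_zero fun j _ => by rw [hh j, mul_zero]
    obtain ⟨s, hs⟩ := hxs
    have ha : a = lin A x 1 / lin A x 0 := by rw [h0, h1, mul_div_cancel_left₀ _ hc]
    have hb : b = lin A x 2 / lin A x 0 := by rw [h0, h2, mul_div_cancel_left₀ _ hc]
    rw [adjoin_le_iff]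
    rintro z (rfl | rfl)
    · rw [ha]; exact E4a_div A x s hs 1 0
    · rw [hb]; exact E4a_div A x s hs 2 0
  · have hx : ∀ i, x i = c * lin A⁻¹ ![1, a, b] i := by
      intro i
      have e1 : x i = lin A⁻¹ (lin A x) i := by
        rw [E4a_comp, Matrix.nonsing_inv_mul A hA, E4a_one]
      rw [e1, ← E4a_smul]
      congr 1
      rw [h]
      funext j
      fin_cases j
      · show c = c * 1
        rw [mul_one]
      · rfl
      · rfl
    have hm : ∀ i, lin A⁻¹ ![1, a, b] i ∈ adjoin k {a, b} := by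
      intro i
      apply E4a_lin_mem
      intro j
      fin_cases j
      · exact one_mem _
      · exact subset_adjoin _ _ (by simp)
      · exact subset_adjoin _ _ (by simp)
    rw [adjoin_le_iff]
    rintro z ⟨i, j, rfl⟩
    rw [hx i, hx j, mul_div_mul_left _ _ hc]
    exact div_mem (hm i) (hm j)

private theorem E4a_flex {k M : Type u} [Field k] [Field M] [Algebra k M] (h2 : (2 : k) = 0) (w : k)
    (hw : w ^ 2 + w + 1 = 0) (x y : Fin 3 → M) (hz : x 2 ≠ 0 ∨ y 2 ≠ 0)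
    (hxy : ∃ i j, x i * y j ≠ x j * y i) :
    ∃ r : k, r ^ 3 = 1 ∧
      algebraMap k M r * (x 0 * y 2 - x 2 * y 0) + (x 1 * y 2 - x 2 * y 1) ≠ 0 := by
  have hw1 : 1 - w ≠ 0 := by
    intro h1
    have h3 : w = 1 := (sub_eq_zero.mp h1).symm
    rw [h3] at hw
    have : (1 : k) = 0 := by linear_combination hw - h2
    exact one_ne_zero this
  have hw3 : w ^ 3 = 1 := by linear_combination (w - 1) * hw
  by_cases c1 : algebraMap k M 1 * (x 0 * y 2 - x 2 * y 0) + (x 1 * y 2 - x 2 * y 1) ≠ 0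
  · exact ⟨1, by simp, c1⟩
  by_cases c2 : algebraMap k M w * (x 0 * y 2 - x 2 * y 0) + (x 1 * y 2 - x 2 * y 1) ≠ 0
  · exact ⟨w, hw3, c2⟩
  exfalso
  rw [not_not] at c1 c2
  rw [map_one] at c1
  have hW : (1 : M) - algebraMap k M w ≠ 0 := by
    have h := (map_ne_zero (algebraMap k M)).mpr hw1
    simpa using h
  have m0 : x 0 * y 2 - x 2 * y 0 = 0 := by
    have : (1 - algebraMap k M w) * (x 0 * y 2 - x 2 * y 0) = 0 := by
      linear_combination c1 - c2
    exact (mul_eq_zero.mp this).resolve_left hW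
  have m1 : x 1 * y 2 - x 2 * y 1 = 0 := by linear_combination c1 - m0
  have m01 : x 0 * y 1 = x 1 * y 0 := by
    by_cases hx2 : x 2 = 0
    · have hy2 : y 2 ≠ 0 := hz.resolve_left (fun h => h hx2)
      have a0 : x 0 = 0 := by
        rw [hx2] at m0
        have : x 0 * y 2 = 0 := by linear_combination m0
        exact (mul_eq_zero.mp this).resolve_right hy2
      have a1 : x 1 = 0 := by
        rw [hx2] at m1
        have : x 1 * y 2 = 0 := by linear_combination m1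
        exact (mul_eq_zero.mp this).resolve_right hy2
      rw [a0, a1]; simp
    · apply mul_left_cancel₀ hx2
      linear_combination x 1 * m0 - x 0 * m1
  obtain ⟨i, j, hij⟩ := hxy
  apply hij
  have e02 : x 0 * y 2 = x 2 * y 0 := sub_eq_zero.mp m0
  have e12 : x 1 * y 2 = x 2 * y 1 := sub_eq_zero.mp m1
  fin_cases i <;> fin_cases j <;> simp_all

private theorem E4a_tab {M : Type u} [Field M] (h2 : (2 : M) = 0) (a0 b0 a1 b1 : M)
    (h0 : b0 ^ 2 + b0 = a0 ^ 3) (h1 : b1 ^ 2 + b1 = a1 ^ 3) (hne : a0 + a1 ≠ 0) :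
    (b1 ^ 2 + b0 + a1 ^ 2 * a0) + (b0 ^ 2 + b1 + a0 ^ 2 * a1) = (a0 + a1) ^ 3 ∧
    (b1 ^ 2 + b0 + a1 ^ 2 * a0) * a0 + (b0 ^ 2 + b1 + a0 ^ 2 * a1) * a1 =
      (a0 + a1) ^ 3 * ta a0 b0 a1 b1 ∧
    (b1 ^ 2 + b0 + a1 ^ 2 * a0) * b0 + (b0 ^ 2 + b1 + a0 ^ 2 * a1) * b1 =
      (a0 + a1) ^ 3 * tb a0 b0 a1 b1 := by
  have e1 : (a0 + a1) ^ 3 * ta a0 b0 a1 b1 = (b0 + b1) ^ 2 * (a0 + a1) + (a0 + a1) ^ 4 := by
    unfold ta
    field_simp
    ring
  have e2 : (a0 + a1) ^ 3 * tb a0 b0 a1 b1 = (b0 + b1) * ((b0 + b1) ^ 2 + (a0 + a1) ^ 3) +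
      (a0 + a1) ^ 3 * b0 + (b0 + b1) * (a0 + a1) ^ 2 * a0 := by
    unfold tb ta
    field_simp
    ring
  refine ⟨?_, ?_, ?_⟩
  · linear_combination h0 + h1 - (a0 ^ 2 * a1 + a0 * a1 ^ 2) * h2
  · rw [e1]
    linear_combination (-a0) * h0 + (-a1) * h1 + (a0 * b0 + a1 * b1 + a0 ^ 2 * a1 ^ 2
      - a0 * b0 * b1 - a1 * b0 * b1 - a0 ^ 4 - a1 ^ 4 - 2 * a0 ^ 3 * a1 - 2 * a0 * a1 ^ 3
      - 3 * a0 ^ 2 * a1 ^ 2) * h2
  · rw [e2]
    linear_combination b0 * h0 + b1 * h1 + (-(b0 * b1 ^ 2) - b0 ^ 2 * b1 - b0 ^ 3 - b1 ^ 3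
      - b0 * (a0 + a1) ^ 3 - b0 * a0 ^ 2 * a1
      + b1 * (-a0 ^ 3 - 2 * a0 ^ 2 * a1 - 2 * a0 * a1 ^ 2)) * h2

/-- Row E4a. As `norm_block` (W/V14a, copy its proof), with the fields of the three points. The matrix is the one of
`V13_aux` (W/V13): `A = (r, 1, 0; 0, 0, 1; w r, w², 0)`, `r = 1` or `r = w`; it satisfies
`(lin A z 2)² (lin A z 0) + (lin A z 2) (lin A z 0)² + (lin A z 1)³ = ∑ z i ^ 3` for ALL `z` (characteristic two), so
`Hg (lin A x) (lin A y) = Hs x y` (expand directly) and `lin A (thd x y) = Hg (lin A y) (lin A x) • lin A x + …`. With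
`lin A x = cx • (1, a 0, b 0)`, `lin A y = cy • (1, a 1, b 1)` this is `(cx cy)²` times
`(b1² + b0 + a1² a0) • (1, a0, b0) + (b0² + b1 + a0² a1) • (1, a1, b1) = (a0 + a1)³ • (1, ta, tb)`. If `x 2 = - y 2`
replace `y` by `w y` (`Y 2 ≠ 0`) in the choice of `A`. -/
theorem norm_block3 {k M : Type u} [Field k] [Field M] [Algebra k M] (h2 : (2 : k) = 0) (w : k)
    (hw : w ^ 2 + w + 1 = 0) (x y : Fin 3 → M) (hx : ∑ i, x i ^ 3 = 0) (hy : ∑ i, y i ^ 3 = 0)
    (hz : x 2 ≠ 0 ∨ y 2 ≠ 0) (hxy : ∃ i j, x i * y j ≠ x j * y i) :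
    ∃ (A : Matrix (Fin 3) (Fin 3) k) (cx cy : M) (a b : Fin 3 → M), IsUnit A.det ∧ cx ≠ 0 ∧
      cy ≠ 0 ∧ lin A x = ![cx, cx * a 0, cx * b 0] ∧ lin A y = ![cy, cy * a 1, cy * b 1] ∧
      (∀ i, b i ^ 2 + b i = a i ^ 3) ∧ a 0 ≠ a 1 ∧ a 2 = ta (a 0) (b 0) (a 1) (b 1) ∧
      b 2 = tb (a 0) (b 0) (a 1) (b 1) ∧ adjoin k {a 0, b 0} = adjoin k (rt x) ∧
      adjoin k {a 1, b 1} = adjoin k (rt y) ∧ adjoin k {a 2, b 2} = adjoin k (rt (thd x y)) := by
  have h2M : (2 : M) = 0 := by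
    rw [← map_ofNat (algebraMap k M) 2, h2, map_zero]
  obtain ⟨r, hr, hrxy⟩ := E4a_flex h2 w hw x y hz hxy
  have hwM : (algebraMap k M w) ^ 2 + algebraMap k M w + 1 = 0 := by
    have := congrArg (algebraMap k M) hw
    simpa using this
  have hrM : (algebraMap k M r) ^ 3 = 1 := by
    have := congrArg (algebraMap k M) hr
    simpa using this
  have hw1 : 1 - w ≠ 0 := by
    intro h1
    have h3 : w = 1 := (sub_eq_zero.mp h1).symm
    rw [h3] at hw
    have : (1 : k) = 0 := by linear_combination hw - h2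
    exact one_ne_zero this
  have hw0 : w ≠ 0 := by
    intro h0
    rw [h0] at hw
    simp at hw
  have hr0 : r ≠ 0 := by
    intro h0
    rw [h0] at hr
    simp at hr
  set A : Matrix (Fin 3) (Fin 3) k := !![r, 1, 0; 0, 0, 1; w * r, w ^ 2, 0] with hAdef
  have hA : IsUnit A.det := by
    rw [isUnit_iff_ne_zero, Matrix.det_fin_three]
    simp only [hAdef, Matrix.of_apply, Matrix.cons_val', Matrix.cons_val_zero, Matrix.cons_val_one,
      Matrix.cons_val, Matrix.cons_val_fin_one]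
    have e1 : r * 0 * 0 - r * 1 * w ^ 2 - 1 * 0 * 0 + 1 * 1 * (w * r) + 0 * 0 * w ^ 2
        - 0 * 0 * (w * r) = r * w * (1 - w) := by ring
    rw [e1]
    exact mul_ne_zero (mul_ne_zero hr0 hw0) hw1
  have hl0 : ∀ z : Fin 3 → M, lin A z 0 = algebraMap k M r * z 0 + z 1 := by
    intro z
    simp only [hAdef, lin, Fin.sum_univ_three, Matrix.of_apply, Matrix.cons_val',
      Matrix.cons_val_zero, Matrix.cons_val_one, Matrix.cons_val, Matrix.cons_val_fin_one,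
      map_mul, map_pow, map_one, map_zero]
    ring
  have hl1 : ∀ z : Fin 3 → M, lin A z 1 = z 2 := by
    intro z
    simp only [hAdef, lin, Fin.sum_univ_three, Matrix.of_apply, Matrix.cons_val',
      Matrix.cons_val_zero, Matrix.cons_val_one, Matrix.cons_val, Matrix.cons_val_fin_one,
      map_mul, map_pow, map_one, map_zero]
    ring
  have hl2 : ∀ z : Fin 3 → M, lin A z 2 =
      algebraMap k M w * algebraMap k M r * z 0 + algebraMap k M w ^ 2 * z 1 := by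
    intro z
    simp only [hAdef, lin, Fin.sum_univ_three, Matrix.of_apply, Matrix.cons_val',
      Matrix.cons_val_zero, Matrix.cons_val_one, Matrix.cons_val, Matrix.cons_val_fin_one,
      map_mul, map_pow, map_one, map_zero]
    ring
  have heq : ∀ z : Fin 3 → M, ∑ i, z i ^ 3 = 0 →
      lin A z 2 ^ 2 * lin A z 0 + lin A z 2 * lin A z 0 ^ 2 = lin A z 1 ^ 3 := by
    intro z hz
    rw [Fin.sum_univ_three] at hz
    rw [hl0, hl1, hl2]
    generalize algebraMap k M w = W at *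
    generalize algebraMap k M r = R at *
    linear_combination ((W * R * z 0 + W ^ 2 * z 1) * (R * z 0 + z 1) * (R * z 0 + z 1)
      - (R * z 0 + z 1) * ((W - 1) * (R ^ 2 * z 0 ^ 2 + z 1 ^ 2)
        + (W ^ 2 - W + 1) * (R * z 0 * z 1))) * hwM - z 0 ^ 3 * hrM - hz
  have hpol : ∀ x y : Fin 3 → M, Hs x y = lin A y 0 * lin A x 2 ^ 2 + lin A x 0 ^ 2 * lin A y 2 +
      lin A x 1 ^ 2 * lin A y 1 := by
    intro x y
    rw [hl0, hl1, hl2, hl0, hl1, hl2]
    unfold Hs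
    rw [Fin.sum_univ_three]
    generalize algebraMap k M w = W at *
    generalize algebraMap k M r = R at *
    linear_combination (-(R ^ 3 * x 0 ^ 2 * y 0) - (W * (W - 1) + 1) * x 1 ^ 2 * y 1
      - R * W * (W - 1) * x 1 ^ 2 * y 0) * hwM + x 0 ^ 2 * y 0 * hrM
      + (x 0 ^ 2 * y 0 + x 1 ^ 2 * y 1 - R * W * x 1 ^ 2 * y 0 - W ^ 2 * R ^ 2 * x 0 ^ 2 * y 1
        - (W ^ 3 * R ^ 2 + R ^ 2 * W) * x 0 * x 1 * y 0
        - (W ^ 3 * R + R * W ^ 2) * x 0 * x 1 * y 1) * h2M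
  have hm : lin A x 0 * lin A y 1 ≠ lin A x 1 * lin A y 0 := by
    rw [hl0, hl1, hl0, hl1]
    intro hh
    apply hrxy
    linear_combination hh
  have hX := heq x hx
  have hY := heq y hy
  have hal : lin A x 0 ≠ 0 := by
    intro h0
    rw [h0] at hX hm
    have h1 : lin A x 1 = 0 := by
      have : lin A x 1 ^ 3 = 0 := by rw [← hX]; ring
      exact pow_eq_zero_iff (by norm_num) |>.mp this
    rw [h1] at hm
    exact hm (by ring)
  have hbe : lin A y 0 ≠ 0 := by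
    intro h0
    rw [h0] at hY hm
    have h1 : lin A y 1 = 0 := by
      have : lin A y 1 ^ 3 = 0 := by rw [← hY]; ring
      exact pow_eq_zero_iff (by norm_num) |>.mp this
    rw [h1] at hm
    exact hm (by ring)
  obtain ⟨cx, hcx⟩ : ∃ c, c = lin A x 0 := ⟨_, rfl⟩
  obtain ⟨cy, hcy⟩ : ∃ c, c = lin A y 0 := ⟨_, rfl⟩
  obtain ⟨a0, ha0⟩ : ∃ c, c = lin A x 1 / lin A x 0 := ⟨_, rfl⟩
  obtain ⟨a1, ha1⟩ : ∃ c, c = lin A y 1 / lin A y 0 := ⟨_, rfl⟩
  obtain ⟨b0, hb0⟩ : ∃ c, c = lin A x 2 / lin A x 0 := ⟨_, rfl⟩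
  obtain ⟨b1, hb1⟩ : ∃ c, c = lin A y 2 / lin A y 0 := ⟨_, rfl⟩
  have hcx0 : cx ≠ 0 := by rw [hcx]; exact hal
  have hcy0 : cy ≠ 0 := by rw [hcy]; exact hbe
  have hx1 : lin A x 1 = cx * a0 := by rw [hcx, ha0, mul_div_cancel₀ _ hal]
  have hx2 : lin A x 2 = cx * b0 := by rw [hcx, hb0, mul_div_cancel₀ _ hal]
  have hy1 : lin A y 1 = cy * a1 := by rw [hcy, ha1, mul_div_cancel₀ _ hbe]
  have hy2 : lin A y 2 = cy * b1 := by rw [hcy, hb1, mul_div_cancel₀ _ hbe]
  have hlx : lin A x = ![cx, cx * a0, cx * b0] := by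
    funext i
    fin_cases i
    · exact hcx.symm
    · exact hx1
    · exact hx2
  have hly : lin A y = ![cy, cy * a1, cy * b1] := by
    funext i
    fin_cases i
    · exact hcy.symm
    · exact hy1
    · exact hy2
  have hE0 : b0 ^ 2 + b0 = a0 ^ 3 := by
    rw [hb0, ha0]
    field_simp
    linear_combination hX
  have hE1 : b1 ^ 2 + b1 = a1 ^ 3 := by
    rw [hb1, ha1]
    field_simp
    linear_combination hY
  have hne : a0 ≠ a1 := by
    rw [ha0, ha1]
    intro h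
    rw [div_eq_div_iff hal hbe] at h
    apply hm
    linear_combination -h
  have hsum : a0 + a1 ≠ 0 := by
    intro h
    apply hne
    linear_combination h - a1 * h2M
  obtain ⟨t1, t2, t3⟩ := E4a_tab h2M a0 b0 a1 b1 hE0 hE1 hsum
  have hHxy : Hs x y = cx ^ 2 * cy * (b0 ^ 2 + b1 + a0 ^ 2 * a1) := by
    rw [hpol, ← hcx, ← hcy, hx1, hx2, hy1, hy2]
    ring
  have hHyx : Hs y x = cx * cy ^ 2 * (b1 ^ 2 + b0 + a1 ^ 2 * a0) := by
    rw [hpol, ← hcx, ← hcy, hx1, hx2, hy1, hy2]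
    ring
  set c3 : M := (cx * cy) ^ 2 * (a0 + a1) ^ 3 with hc3
  have hc30 : c3 ≠ 0 := mul_ne_zero (pow_ne_zero _ (mul_ne_zero hcx0 hcy0)) (pow_ne_zero _ hsum)
  have hlt : lin A (thd x y) = ![c3, c3 * ta a0 b0 a1 b1, c3 * tb a0 b0 a1 b1] := by
    have e : ∀ i, lin A (thd x y) i = Hs y x * lin A x i + Hs x y * lin A y i := fun i =>
      E4a_comb A _ _ x y i
    funext i
    rw [e i, hHxy, hHyx]
    fin_cases i
    · show cx * cy ^ 2 * (b1 ^ 2 + b0 + a1 ^ 2 * a0) * lin A x 0 +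
        cx ^ 2 * cy * (b0 ^ 2 + b1 + a0 ^ 2 * a1) * lin A y 0 = c3
      rw [← hcx, ← hcy, hc3, ← t1]
      ring
    · show cx * cy ^ 2 * (b1 ^ 2 + b0 + a1 ^ 2 * a0) * lin A x 1 +
        cx ^ 2 * cy * (b0 ^ 2 + b1 + a0 ^ 2 * a1) * lin A y 1 = c3 * ta a0 b0 a1 b1
      rw [hx1, hy1, hc3, mul_assoc ((cx * cy) ^ 2), ← t2]
      ring
    · show cx * cy ^ 2 * (b1 ^ 2 + b0 + a1 ^ 2 * a0) * lin A x 2 +
        cx ^ 2 * cy * (b0 ^ 2 + b1 + a0 ^ 2 * a1) * lin A y 2 = c3 * tb a0 b0 a1 b1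
      rw [hx2, hy2, hc3, mul_assoc ((cx * cy) ^ 2), ← t3]
      ring
  refine ⟨A, cx, cy, ![a0, a1, ta a0 b0 a1 b1], ![b0, b1, tb a0 b0 a1 b1], hA, hcx0, hcy0, hlx,
    hly, ?_, hne, rfl, rfl, E4a_adj A hA x cx a0 b0 hcx0 hlx, E4a_adj A hA y cy a1 b1 hcy0 hly,
    E4a_adj A hA (thd x y) c3 _ _ hc30 hlt⟩
  intro i
  fin_cases i
  · exact hE0
  · exact hE1
  · exact third_curve h2M hE0 hE1 hne

end MP2619.Q5
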