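import Pool.Agent.Lib.MP_2619d0_ag.Q5.E4a

/-!
# Row E4b
-/

set_option autoImplicit false

namespace MP2619.Q5

universe v u

open IntermediateField MP2619.R MP2619.W

private theorem E4b_alg {L N : Type u} [Field L] [Field N] [Algebra L N] (S : Set N)
    (h : adjoin L S = ⊤) : Algebra.IsAlgebraic (Algebra.adjoin L S) N := by
  constructor
  intro z
  have hz : z ∈ adjoin L S := by rw [h]; trivial
  rw [mem_adjoin_iff_div] at hz
  obtain ⟨r, hr, s, hs, rfl⟩ := hz
  have h1 : IsAlgebraic (Algebra.adjoin L S) r :=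
    isAlgebraic_algebraMap (⟨r, hr⟩ : Algebra.adjoin L S)
  have h2 : IsAlgebraic (Algebra.adjoin L S) s :=
    isAlgebraic_algebraMap (⟨s, hs⟩ : Algebra.adjoin L S)
  rw [div_eq_mul_inv]
  exact h1.mul h2.inv

private theorem E4b_lin_mem {k M : Type u} [Field k] [Field M] [Algebra k M]
    (A : Matrix (Fin 3) (Fin 3) k) (z : Fin 3 → M) (F : IntermediateField k M)
    (h : ∀ j, z j ∈ F) (i : Fin 3) : lin A z i ∈ F := by
  unfold lin
  exact sum_mem fun j _ => mul_mem (IntermediateField.algebraMap_mem F _) (h j)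

private theorem E4b_comp {k M : Type u} [Field k] [Field M] [Algebra k M]
    (A B : Matrix (Fin 3) (Fin 3) k) (z : Fin 3 → M) (i : Fin 3) :
    lin B (lin A z) i = lin (B * A) z i := by
  unfold lin
  simp only [Matrix.mul_apply, map_sum, map_mul, Finset.mul_sum, Finset.sum_mul]
  rw [Finset.sum_comm]
  refine Finset.sum_congr rfl fun j _ => Finset.sum_congr rfl fun l _ => ?_
  ring

private theorem E4b_one {k M : Type u} [Field k] [Field M] [Algebra k M]
    (z : Fin 3 → M) (i : Fin 3) : lin (1 : Matrix (Fin 3) (Fin 3) k) z i = z i := by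
  unfold lin
  rw [Finset.sum_eq_single i]
  · simp
  · intro j _ hj
    rw [Matrix.one_apply_ne hj.symm]; simp
  · intro h; exact absurd (Finset.mem_univ i) h

private theorem E4b_lin {k κ N : Type u} [Field k] [Field κ] [Field N] [Algebra k κ] [Algebra κ N]
    [Algebra k N] [IsScalarTower k κ N] (A : Matrix (Fin 3) (Fin 3) k) (al be : N) (x y : Fin 3 → κ) (i : Fin 3) :
    lin A (fun j => al * algebraMap κ N (x j) + be * algebraMap κ N (y j)) i =
      al * algebraMap κ N (lin A x i) + be * algebraMap κ N (lin A y i) := by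
  unfold lin
  rw [map_sum, map_sum, Finset.mul_sum, Finset.mul_sum, ← Finset.sum_add_distrib]
  refine Finset.sum_congr rfl fun j _ => ?_
  rw [map_mul, map_mul, ← IsScalarTower.algebraMap_apply k κ N]
  ring

/-- Row E4b. `norm_block3` in both blocks (for `X C`, `Y C` in `κ`), `iter 2` (W/V10) with `al C * cx C`,
`be C * cy C` instead of `al C`, `be C` (again algebraically independent over `κ`, again generators, since
`cx C`, `cy C` are non-zero elements of `κ`). The fields on the left are equal because `A` is invertible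
(as at the end of the proof of `norm_block`), the fields on the right by `norm_block3`
(`adjoin k (⋃ …) = ⨆ …`). -/
theorem iterF {k κ N : Type u} [Field k] [Field κ] [Field N] [Algebra k κ] [Algebra κ N]
    [Algebra k N] [IsScalarTower k κ N] (h2 : (2 : k) = 0) (w : k) (hw : w ^ 2 + w + 1 = 0)
    (al be : Fin 2 → N) (hind : AlgebraicIndependent κ (Sum.elim al be))
    (hgen : adjoin κ (Set.range al ∪ Set.range be) = ⊤) (X Y : Fin 2 → Fin 3 → κ)
    (hX : ∀ C, ∑ i, X C i ^ 3 = 0) (hY : ∀ C, ∑ i, Y C i ^ 3 = 0)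
    (hz : ∀ C, X C 2 ≠ 0 ∨ Y C 2 ≠ 0) (hXY : ∀ C, ∃ i j, X C i * Y C j ≠ X C j * Y C i)
    (htr : 2 ≤ Algebra.trdeg k κ) :
    Module.finrank (adjoin k (Set.range fun s : Fin 2 × Fin 3 =>
      al s.1 * algebraMap κ N (X s.1 s.2) + be s.1 * algebraMap κ N (Y s.1 s.2))) N =
      ∑ φ : Fin 2 → Fin 3, Module.finrank (adjoin k
        (⋃ C, rt (![X C, Y C, thd (X C) (Y C)] (φ C)))) κ := by
  choose A cx cy a b hA hcx hcy hlx hly hcv hne hta htb h0 h1 h3 using
    fun C => norm_block3 h2 w hw (X C) (Y C) (hX C) (hY C) (hz C) (hXY C)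
  have hcxN : ∀ C, algebraMap κ N (cx C) ≠ 0 := fun C => by
    rw [Ne, map_eq_zero]
    exact hcx C
  have hcyN : ∀ C, algebraMap κ N (cy C) ≠ 0 := fun C => by
    rw [Ne, map_eq_zero]
    exact hcy C
  let al' : Fin 2 → N := fun C => al C * algebraMap κ N (cx C)
  let be' : Fin 2 → N := fun C => be C * algebraMap κ N (cy C)
  have hgen' : adjoin κ (Set.range al' ∪ Set.range be') = ⊤ := by
    rw [← top_le_iff, ← hgen, adjoin_le_iff]
    rintro z (⟨C, rfl⟩ | ⟨C, rfl⟩)
    · have e : al C = al' C * (algebraMap κ N (cx C))⁻¹ := by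
        show al C = al C * algebraMap κ N (cx C) * (algebraMap κ N (cx C))⁻¹
        rw [mul_assoc, mul_inv_cancel₀ (hcxN C), mul_one]
      rw [e]
      exact mul_mem (subset_adjoin κ _ (Or.inl ⟨C, rfl⟩)) (inv_mem (IntermediateField.algebraMap_mem _ _))
    · have e : be C = be' C * (algebraMap κ N (cy C))⁻¹ := by
        show be C = be C * algebraMap κ N (cy C) * (algebraMap κ N (cy C))⁻¹
        rw [mul_assoc, mul_inv_cancel₀ (hcyN C), mul_one]
      rw [e]
      exact mul_mem (subset_adjoin κ _ (Or.inr ⟨C, rfl⟩)) (inv_mem (IntermediateField.algebraMap_mem _ _))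
  have hind' : AlgebraicIndependent κ (Sum.elim al' be') := by
    have h4 := hind.lift_cardinalMk_le_trdeg
    have h5 : Algebra.IsAlgebraic (Algebra.adjoin κ (Set.range (Sum.elim al' be'))) N := by
      rw [Set.Sum.elim_range]
      exact E4b_alg _ hgen'
    exact (Algebra.IsAlgebraic.isTranscendenceBasis_of_lift_le_trdeg_of_finite κ (Sum.elim al' be')
      (by simpa using h4)).1
  have hit := iter 2 k κ N h2 al' be' hind' hgen' (fun i C => a C i) (fun i C => b C i)
    (fun i C => hcv C i) (fun C => hne C) (fun C => hta C) (fun C => htb C) (by exact_mod_cast htr)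
  -- the left side
  have hleft : adjoin k (Set.range fun s : Fin 2 × Fin 3 =>
      al s.1 * algebraMap κ N (X s.1 s.2) + be s.1 * algebraMap κ N (Y s.1 s.2)) =
      adjoin k (⋃ C, {al' C + be' C,
        al' C * algebraMap κ N (a C 0) + be' C * algebraMap κ N (a C 1),
        al' C * algebraMap κ N (b C 0) + be' C * algebraMap κ N (b C 1)} : Set N) := by
    set U : Fin 2 → Fin 3 → N := fun C j => al C * algebraMap κ N (X C j) + be C * algebraMap κ N (Y C j) with hU
    have e0 : ∀ C, lin (A C) (U C) 0 = al' C + be' C := by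
      intro C
      rw [hU]
      simp only
      rw [E4b_lin, hlx, hly]
      rfl
    have e1 : ∀ C, lin (A C) (U C) 1 =
        al' C * algebraMap κ N (a C 0) + be' C * algebraMap κ N (a C 1) := by
      intro C
      rw [hU]
      simp only
      rw [E4b_lin, hlx, hly]
      simp only [Matrix.cons_val_one, Matrix.cons_val_zero, map_mul]
      show _ = al C * algebraMap κ N (cx C) * algebraMap κ N (a C 0) + be C * algebraMap κ N (cy C) * algebraMap κ N (a C 1)
      ring
    have e2 : ∀ C, lin (A C) (U C) 2 =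
        al' C * algebraMap κ N (b C 0) + be' C * algebraMap κ N (b C 1) := by
      intro C
      rw [hU]
      simp only
      rw [E4b_lin, hlx, hly]
      show al C * algebraMap κ N (cx C * b C 0) + be C * algebraMap κ N (cy C * b C 1) =
        al C * algebraMap κ N (cx C) * algebraMap κ N (b C 0) + be C * algebraMap κ N (cy C) * algebraMap κ N (b C 1)
      rw [map_mul, map_mul]
      ring
    apply le_antisymm
    · rw [adjoin_le_iff]
      rintro _ ⟨⟨C, i⟩, rfl⟩
      show U C i ∈ _
      have h4 : U C i = lin (A C)⁻¹ (lin (A C) (U C)) i := by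
        rw [E4b_comp, Matrix.nonsing_inv_mul (A C) (hA C), E4b_one]
      rw [h4]
      apply E4b_lin_mem
      intro j
      apply subset_adjoin
      rw [Set.mem_iUnion]
      refine ⟨C, ?_⟩
      fin_cases j
      · exact Or.inl (e0 C)
      · exact Or.inr (Or.inl (e1 C))
      · exact Or.inr (Or.inr (e2 C))
    · rw [adjoin_le_iff]
      intro z hz'
      rw [Set.mem_iUnion] at hz'
      obtain ⟨C, hC⟩ := hz'
      have h4 : ∀ i, lin (A C) (U C) i ∈ adjoin k (Set.range fun s : Fin 2 × Fin 3 =>
          al s.1 * algebraMap κ N (X s.1 s.2) + be s.1 * algebraMap κ N (Y s.1 s.2)) := fun i =>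
        E4b_lin_mem (A C) (U C) _ (fun j => subset_adjoin k (Set.range fun s : Fin 2 × Fin 3 =>
          al s.1 * algebraMap κ N (X s.1 s.2) + be s.1 * algebraMap κ N (Y s.1 s.2)) ⟨(C, j), rfl⟩) i
      rcases hC with rfl | rfl | rfl
      · rw [← e0]
        exact h4 0
      · rw [← e1]
        exact h4 1
      · rw [← e2]
        exact h4 2
  rw [hleft, hit]
  refine Finset.sum_congr rfl fun φ _ => ?_
  have hright : adjoin k (⋃ C, {a C (φ C), b C (φ C)} : Set κ) =
      adjoin k (⋃ C, rt (![X C, Y C, thd (X C) (Y C)] (φ C))) := by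
    rw [adjoin_iUnion, adjoin_iUnion]
    refine iSup_congr fun C => ?_
    have h4 : ∀ i : Fin 3, adjoin k ({a C i, b C i} : Set κ) =
        adjoin k (rt (![X C, Y C, thd (X C) (Y C)] i)) := by
      intro i
      fin_cases i
      · exact h0 C
      · exact h1 C
      · exact h3 C
    exact h4 (φ C)
  rw [hright]

end MP2619.Q5
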