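import Pool.Agent.Lib.MP_2619d0_ag.Q5.H1
import Pool.Agent.Lib.MP_2619d0_ag.Q5.E2b

/-!
# Row E5: the forms `[L : K(P)]`, `[κ : k(P, R)]` on the points of `b² + b = a³`
-/

set_option autoImplicit false

namespace MP2619.Q5

universe u

open IntermediateField MP2619.R MP2619.W

/-- theorem (H) (rows H*) -/
def HE : Prop := ∀ (K L : Type u) [Field K] [Field L] [Algebra K L] [DecidableEq L],
  (2 : K) = 0 → ∀ (h2L : (2 : L) = 0) (w : K), w ^ 2 + w + 1 = 0 → ¬ Algebra.IsAlgebraic K L →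
    ∀ P Q : (Ec L).Point, pdeg K (P + Fr h2L Q) % 2 = pdeg K P % 2

/-- `[κ : k(P, R)]` -/
noncomputable def Qp (k : Type u) {κ : Type u} [Field k] [Field κ] [Algebra k κ]
    (P R : (Ec κ).Point) : ℤ := (Module.finrank (adjoin k (pf k P ∪ pf k R)) κ : ℤ)

end MP2619.Q5
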