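import Pool.Agent.Lib.MP_2619d0_ag.Q5.E5

/-!
# Row E5a
-/

set_option autoImplicit false

namespace MP2619.Q5

universe v u

open IntermediateField MP2619.R MP2619.W

/-- Row E5a. `map_add`, `wm_sum`, `Fr_Fr`, `Fr_wm`. -/
theorem act_points {L : Type u} [Field L] [DecidableEq L] (h2L : (2 : L) = 0) (w : L)
    (hw : w ^ 2 + w + 1 = 0) :
    Act (fun P : (Ec L).Point => wm h2L w hw P) (fun P => Fr h2L P) where
  w_add P R := map_add _ P R
  φ_add P R := map_add _ P R
  w_rel P := wm_sum h2L w hw P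
  φ_rel P := Fr_Fr h2L P
  φ_w P := Fr_wm h2L w hw P

/-- Row E5a. `pdeg_par`, `pdeg_wm`, `pdeg_Fr`, the hypothesis. -/
theorem nf_points (hE : HE.{u}) {K L : Type u} [Field K] [Field L] [Algebra K L] [DecidableEq L]
    (h2 : (2 : K) = 0) (h2L : (2 : L) = 0) (w : K) (hw : w ^ 2 + w + 1 = 0)
    (hw' : algebraMap K L w ^ 2 + algebraMap K L w + 1 = 0) (hL : ¬ Algebra.IsAlgebraic K L) :
    NF (fun P : (Ec L).Point => wm h2L (algebraMap K L w) hw' P) (fun P => Fr h2L P)
      (fun P => (pdeg K P : ℤ)) where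
  act := act_points h2L (algebraMap K L w) hw'
  par P P' := by
    have h := pdeg_par h2 hL P P'
    exact_mod_cast h
  Nw P := by
    have h := pdeg_wm h2L w hw hw' P
    exact_mod_cast h
  Nφ P := by
    have h := pdeg_Fr h2L hL P
    exact_mod_cast h
  ev P R := by
    have h := hE K L h2 h2L w hw hL P R
    rw [Int.even_iff]
    omega

end MP2619.Q5
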