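import Pool.Agent.Lib.MP_2619d0_ag.Q5.E5
import Pool.Agent.Lib.MP_2619d0_ag.W.V12a

/-!
# Row E5b
-/

set_option autoImplicit false

namespace MP2619.Q5

universe v u

open IntermediateField MP2619.R MP2619.W

/-- Row E5b. `adjoin k (pf P ∪ pf R)` is `adjoin K1 (pf P)`, `K1 = adjoin k (pf R)` (restrict scalars; see the proof
of `G_quad` in W/V12a). -/
theorem Qp_eq {k κ : Type u} [Field k] [Field κ] [Algebra k κ] (P R : (Ec κ).Point) :
    Qp k P R = (pdeg (adjoin k (pf k R)) P : ℤ) := by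
  have hpf : pf k P = pf (adjoin k (pf k R)) P := by
    cases P <;> rfl
  rw [Qp, Set.union_comm, ← adjoin_adjoin_left, hpf]
  rfl

/-- Row E5b. `trdeg k (k(R)) ≤ 1` (`trdeg_pts` in W/V12a or directly: the coordinates satisfy `b² + b = a³`). -/
theorem not_alg_pf {k κ : Type u} [Field k] [Field κ] [Algebra k κ]
    (h2 : (2 : k) = 0) (htr : 2 ≤ Algebra.trdeg k κ) (R : (Ec κ).Point) :
    ¬ Algebra.IsAlgebraic (adjoin k (pf k R)) κ := by
  intro hal
  have h1 := trdeg_pts (k := k) (fun _ : Fin 1 => R) Finset.univ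
  have hS : (⋃ C ∈ (Finset.univ : Finset (Fin 1)), pf k ((fun _ : Fin 1 => R) C)) = pf k R := by
    ext z
    simp
  rw [hS] at h1
  have h3 := trdeg_add_eq k (adjoin k (pf k R)) (A := κ)
  have h4 : Algebra.trdeg (adjoin k (pf k R)) κ = 0 := trdeg_eq_zero
  rw [h4, add_zero] at h3
  rw [← h3] at htr
  have h5 := htr.trans h1
  rw [Finset.card_univ, Fintype.card_fin] at h5
  have h6 : (2 : ℕ) ≤ 1 := by exact_mod_cast h5
  omega

end MP2619.Q5
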