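import Pool.Agent.Lib.MP_2619d0_ag.Q5.E5a
import Pool.Agent.Lib.MP_2619d0_ag.Q5.E5b

/-!
# Row E5c
-/

set_option autoImplicit false

namespace MP2619.Q5

universe v u

open IntermediateField MP2619.R MP2619.W

private theorem E5c_adj {k κ : Type u} [Field k] [Field κ] [Algebra k κ] [DecidableEq κ]
    (P R S : (Ec κ).Point) (hS : pf k S ⊆ adjoin k (pf k R)) :
    Qp k (P + S) R = Qp k P R := by
  have e : adjoin k (pf k (P + S) ∪ pf k R) = adjoin k (pf k P ∪ pf k R) := by
    apply le_antisymm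
    · rw [adjoin_le_iff, Set.union_subset_iff]
      refine ⟨?_, fun z hz => subset_adjoin k _ (Or.inr hz)⟩
      refine pf_add_of_mem _ P S (fun z hz => subset_adjoin k _ (Or.inl hz)) ?_
      have h1 : adjoin k (pf k R) ≤ adjoin k (pf k P ∪ pf k R) :=
        adjoin_le_iff.2 fun z hz => subset_adjoin k _ (Or.inr hz)
      exact fun z hz => h1 (hS hz)
    · rw [adjoin_le_iff, Set.union_subset_iff]
      refine ⟨?_, fun z hz => subset_adjoin k _ (Or.inr hz)⟩
      have h1 : adjoin k (pf k R) ≤ adjoin k (pf k (P + S) ∪ pf k R) :=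
        adjoin_le_iff.2 fun z hz => subset_adjoin k _ (Or.inr hz)
      have h2 : pf k (-S) ⊆ adjoin k (pf k (P + S) ∪ pf k R) :=
        pf_neg_of_mem _ S fun z hz => h1 (hS hz)
      have h3 := pf_add_of_mem (adjoin k (pf k (P + S) ∪ pf k R)) (P + S) (-S)
        (fun z hz => subset_adjoin k _ (Or.inl hz)) h2
      rw [add_neg_cancel_right] at h3
      exact h3
  unfold Qp
  rw [e]

/-- Row E5c. Symmetry: `Set.union_comm`. `par`, `Qw`, `Qφ`: `Qp_eq`, `not_alg_pf`, `pdeg_par`, `adjoin_wm`, `pdeg_Fr` over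
`adjoin k (pf k R)`. `inv…`: `k(P + S, R) = k(P, R)` if the coordinates of `S` are in `k(R)` (`pf_add_of_mem`,
`pf_neg_of_mem`, `adjoin_wm`, `pf_Fr`). -/
theorem qf_points {k κ : Type u} [Field k] [Field κ] [Algebra k κ] [DecidableEq κ]
    (h2 : (2 : k) = 0) (h2κ : (2 : κ) = 0) (w : k) (hw : w ^ 2 + w + 1 = 0)
    (hw' : algebraMap k κ w ^ 2 + algebraMap k κ w + 1 = 0) (htr : 2 ≤ Algebra.trdeg k κ) :
    QF (fun P : (Ec κ).Point => wm h2κ (algebraMap k κ w) hw' P) (fun P => Fr h2κ P) (Qp k) := by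
  have hsub : ∀ R : (Ec κ).Point, pf k (wm h2κ (algebraMap k κ w) hw' R) ⊆ adjoin k (pf k R) := by
    intro R z hz
    rw [← adjoin_wm h2κ w hw hw' R]
    exact subset_adjoin k _ hz
  refine
    { act := act_points h2κ (algebraMap k κ w) hw'
      symm := ?_
      par := ?_
      Qw := ?_
      Qφ := ?_
      inv := fun P R => E5c_adj P R R (subset_adjoin k _)
      invw := fun P R => E5c_adj P R _ (hsub R)
      invφ := fun P R => E5c_adj P R _ (pf_Fr h2κ R)
      invwφ := ?_ }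
  · intro P R
    unfold Qp
    rw [Set.union_comm]
  · intro P P' R
    rw [Qp_eq, Qp_eq, Qp_eq, Qp_eq]
    exact H1_par (two_up h2) (not_alg_pf h2 htr R) P P'
  · intro P R
    rw [Qp_eq, Qp_eq]
    have hw1 : algebraMap k (adjoin k (pf k R)) w ^ 2 + algebraMap k (adjoin k (pf k R)) w + 1 = 0 := by
      rw [← map_pow, ← map_add, ← map_one (algebraMap k (adjoin k (pf k R))), ← map_add, hw, map_zero]
    exact_mod_cast pdeg_wm (K := adjoin k (pf k R)) h2κ (algebraMap k (adjoin k (pf k R)) w) hw1 hw' P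
  · intro P R
    rw [Qp_eq, Qp_eq]
    exact_mod_cast pdeg_Fr (K := adjoin k (pf k R)) h2κ (not_alg_pf h2 htr R) P
  · intro P R
    refine E5c_adj P R _ ?_
    have h1 := hsub (Fr h2κ R)
    have h3 : adjoin k (pf k (Fr h2κ R)) ≤ adjoin k (pf k R) := adjoin_le_iff.2 (pf_Fr h2κ R)
    exact fun z hz => h3 (h1 hz)

end MP2619.Q5
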