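import Pool.Agent.Lib.MP_2619d0_ag.Q5.E5

/-!
# Row E5d
-/

set_option autoImplicit false

namespace MP2619.Q5

universe v u

open IntermediateField MP2619.R MP2619.W

open scoped IntermediateField.algebraAdjoinAdjoin in
/-- linear independence over `K(t)` -/
private theorem E5d_linInd {K F κ : Type u} [Field K] [Field F] [Field κ] [Algebra K F]
    [Algebra F κ] [Algebra K κ] [IsScalarTower K F κ] (t : κ)
    (ht : Transcendental F t) {ι : Type*} (b : ι → F) (hb : LinearIndependent K b) :
    LinearIndependent (adjoin K ({t} : Set κ)) (fun i => algebraMap F κ (b i)) := by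
  rw [← LinearIndependent.iff_fractionRing (R := Algebra.adjoin K ({t} : Set κ))
    (K := adjoin K ({t} : Set κ))]
  rw [linearIndependent_iff']
  intro s g hg i hi
  have hp : ∀ x : Algebra.adjoin K ({t} : Set κ), ∃ p : Polynomial K, Polynomial.aeval t p = (x : κ) := by
    intro x
    have hx : (x : κ) ∈ (Polynomial.aeval (R := K) t).range := by
      rw [← Algebra.adjoin_singleton_eq_range_aeval]
      exact x.2
    exact hx
  choose p hp using hp
  have h1 : Polynomial.aeval t (∑ j ∈ s, Polynomial.C (b j) * (p (g j)).map (algebraMap K F)) = 0 := by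
    rw [map_sum]
    refine Eq.trans ?_ hg
    refine Finset.sum_congr rfl fun j _ => ?_
    rw [map_mul, Polynomial.aeval_C, Polynomial.aeval_map_algebraMap, hp, Algebra.smul_def, mul_comm]
    rfl
  have h2 := (transcendental_iff.1 ht) _ h1
  have h3 : p (g i) = 0 := by
    ext k
    have h4 := congrArg (fun q => Polynomial.coeff q k) h2
    simp only [Polynomial.finsetSum_coeff, Polynomial.coeff_C_mul, Polynomial.coeff_map,
      Polynomial.coeff_zero] at h4
    have h5 := (linearIndependent_iff'.1 hb) s (fun j => (p (g j)).coeff k) (by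
      rw [← h4]
      refine Finset.sum_congr rfl fun j _ => ?_
      rw [Algebra.smul_def, mul_comm]) i hi
    rw [h5, Polynomial.coeff_zero]
  have h6 := hp (g i)
  rw [h3, map_zero] at h6
  exact Subtype.ext h6.symm

/-- Row E5d. `[F(t) : K(t)] = [F : K]` for `t` transcendental over `F` (a basis of `F/K` is a basis of `F(t)/K(t)`: linear
independence: clear denominators, compare coefficients of powers of `t`; generation: `F/K` is algebraic, so
`K(t)[F]` is a field); also if `[F : K]` is infinite, then both sides are `0`. -/
theorem finrank_adjoin_trans {K F κ : Type u} [Field K] [Field F] [Field κ] [Algebra K F]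
    [Algebra F κ] [Algebra K κ] [IsScalarTower K F κ] (hKF : Algebra.IsAlgebraic K F) (t : κ)
    (ht : Transcendental F t) :
    Module.finrank (adjoin K ({t} : Set κ)) κ =
      Module.finrank K F * Module.finrank (adjoin F ({t} : Set κ)) κ := by
  set A : IntermediateField K κ := (IsScalarTower.toAlgHom K F κ).fieldRange with hA
  let e : F ≃ₐ[K] A := AlgEquiv.ofInjectiveField (IsScalarTower.toAlgHom K F κ)
  have halg : Algebra.IsAlgebraic K A := e.isAlgebraic
  let b := Module.Basis.ofVectorSpace K F
  have hd : A.LinearDisjoint (adjoin K ({t} : Set κ)) := by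
    refine IntermediateField.LinearDisjoint.of_basis_left (b.map e.toLinearEquiv) ?_
    exact E5d_linInd t ht b b.linearIndependent
  have hr := hd.adjoin_rank_eq_rank_left_of_isAlgebraic_left
  set M := adjoin (adjoin K ({t} : Set κ)) (A : Set κ) with hM
  have h1 : Module.finrank (adjoin K ({t} : Set κ)) M = Module.finrank K F := by
    rw [Module.finrank, hr, ← Module.finrank]
    exact e.toLinearEquiv.finrank_eq.symm
  rw [← Module.finrank_mul_finrank (adjoin K ({t} : Set κ)) M κ, h1]
  congr 1
  have hKt : adjoin K ({t} : Set κ) ≤ (adjoin F ({t} : Set κ)).restrictScalars K := by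
    rw [adjoin_le_iff]
    intro x hx
    exact subset_adjoin F ({t} : Set κ) hx
  have hMle : ∀ x, x ∈ M → x ∈ adjoin F ({t} : Set κ) := by
    have h2 : M ≤ extendScalars hKt := by
      rw [hM, adjoin_le_iff]
      rintro x ⟨y, rfl⟩
      exact (adjoin F ({t} : Set κ)).algebraMap_mem y
    exact fun x hx => h2 hx
  have hleM : ∀ x, x ∈ adjoin F ({t} : Set κ) → x ∈ M := by
    let M' : IntermediateField F κ := M.toSubfield.toIntermediateField fun y =>
      subset_adjoin (adjoin K ({t} : Set κ)) (A : Set κ) ⟨y, rfl⟩
    have h2 : adjoin F ({t} : Set κ) ≤ M' := by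
      rw [adjoin_le_iff]
      intro x hx
      rw [Set.mem_singleton_iff] at hx
      subst hx
      exact M.algebraMap_mem ⟨x, mem_adjoin_simple_self K x⟩
    exact fun x hx => h2 hx
  have hS : M.toSubfield = (adjoin F ({t} : Set κ)).toSubfield :=
    SetLike.ext fun x => ⟨hMle x, hleM x⟩
  let i : M ≃+* adjoin F ({t} : Set κ) := RingEquiv.subfieldCongr hS
  have h3 : Module.rank M κ = Module.rank (adjoin F ({t} : Set κ)) κ :=
    Algebra.rank_eq_of_equiv_equiv i (RingEquiv.refl κ) (by ext x; rfl)
  rw [Module.finrank, h3, ← Module.finrank]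

end MP2619.Q5
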