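import Pool.Agent.Lib.MP_2619d0_ag.Q5.E5b
import Pool.Agent.Lib.MP_2619d0_ag.Q5.E5d

/-!
# Row E5e
-/

set_option autoImplicit false

namespace MP2619.Q5

universe v u

open IntermediateField MP2619.R MP2619.W

/-- the field generated by `k(P)` in `κ` -/
private theorem E5e_lift {k κ : Type u} [Field k] [Field κ] [Algebra k κ]
    (F : IntermediateField k κ) (E : IntermediateField k F) (Z : (Ec κ).Point) :
    pdeg (IntermediateField.lift E) Z = pdeg E Z := by
  have hpf : pf (IntermediateField.lift E) Z = pf E Z := by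
    rcases Z with _ | ⟨x, y, h⟩ <;> rfl
  have h1 : (adjoin E (pf E Z)).restrictScalars k =
      (adjoin (IntermediateField.lift E) (pf E Z)).restrictScalars k :=
    restrictScalars_adjoin_of_algEquiv (IntermediateField.liftAlgEquiv E) rfl _
  have h2 : Module.finrank ((adjoin E (pf E Z)).restrictScalars k) κ =
      Module.finrank ((adjoin (IntermediateField.lift E) (pf E Z)).restrictScalars k) κ := by
    rw [h1]
  unfold pdeg
  rw [hpf]
  exact h2.symm

/-- Row E5e. If `P` is algebraic over `k` or `Z` over `F` then both sides are `0` (`trdeg k κ ≥ 2`, `pdeg_alg`).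
Otherwise let `Z = (a, b)`, `K1 = k(P) ⊆ F`: `2 [κ : K1(a,b)] = [κ : K1(a)]` and `2 [κ : F(a,b)] = [κ : F(a)]`
(`dg_eq_two_dp`), `[κ : K1(a)] = [F : K1] [κ : F(a)]` (`finrank_adjoin_trans`). -/
theorem factor {k κ : Type u} [Field k] [Field κ] [Algebra k κ] [DecidableEq κ]
    (h2 : (2 : k) = 0) (htr : 2 ≤ Algebra.trdeg k κ) (F : IntermediateField k κ) [DecidableEq F]
    (hF : Algebra.trdeg k F = 1) (P : (Ec F).Point) (Z : (Ec κ).Point) :
    Qp k (mp (algebraMap F κ) P) Z = (pdeg k P : ℤ) * (pdeg F Z : ℤ) := by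
  have hkF : ¬ Algebra.IsAlgebraic k F := by
    intro h
    rw [trdeg_eq_zero_iff.2 h] at hF
    exact zero_ne_one hF
  have hFκ : ¬ Algebra.IsAlgebraic F κ := by
    intro h
    have h3 := trdeg_add_eq k F (A := κ)
    rw [hF, trdeg_eq_zero_iff.2 h, add_zero] at h3
    rw [← h3] at htr
    exact absurd htr (by norm_num)
  by_cases hP : ∀ z ∈ pf k P, IsAlgebraic k z
  · rw [pdeg_alg hkF P hP, Qp_eq, pdeg_alg (not_alg_pf h2 htr Z)]
    · simp
    · intro z hz
      have e : pf (adjoin k (pf k Z)) (mp (algebraMap F κ) P) = pf k (mp (algebraMap F κ) P) := by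
        generalize mp (algebraMap F κ) P = P'
        rcases P' with _ | ⟨x, y, h⟩ <;> rfl
      rw [e, pf_mp] at hz
      obtain ⟨t, ht, rfl⟩ := hz
      have h3 : IsAlgebraic k (algebraMap F κ t) := (hP t ht).algebraMap
      exact h3.extendScalars (FaithfulSMul.algebraMap_injective k (adjoin k (pf k Z)))
  · push Not at hP
    obtain ⟨z, hz, hzt⟩ := hP
    -- `F` is algebraic over `k(P)`
    have hEF : Algebra.IsAlgebraic (adjoin k (pf k P)) F := by
      have h3 := trdeg_add_eq k (adjoin k (pf k P)) (A := F)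
      rw [hF] at h3
      have h4 : 1 ≤ Algebra.trdeg k (adjoin k (pf k P)) := by
        rw [Cardinal.one_le_iff_ne_zero]
        intro h5
        rw [trdeg_eq_zero_iff] at h5
        have h6 := h5.isAlgebraic (⟨z, subset_adjoin k _ hz⟩ : adjoin k (pf k P))
        exact hzt (h6.algebraMap (A := F))
      by_contra hne
      have h5 : 1 ≤ Algebra.trdeg (adjoin k (pf k P)) F := by
        rw [Cardinal.one_le_iff_ne_zero]
        intro h6
        exact hne (trdeg_eq_zero_iff.1 h6)
      have h6 := add_le_add h4 h5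
      rw [h3] at h6
      exact absurd h6 (by norm_num)
    have hEκ : ¬ Algebra.IsAlgebraic (adjoin k (pf k P)) κ := by
      intro h
      exact hFκ (Algebra.IsAlgebraic.tower_top (K := adjoin k (pf k P)) F)
    have h2E : (2 : adjoin k (pf k P)) = 0 := two_up h2
    have h2F : (2 : F) = 0 := two_up h2
    have hQ : Qp k (mp (algebraMap F κ) P) Z = (pdeg (adjoin k (pf k P)) Z : ℤ) := by
      have h3 : Qp k (mp (algebraMap F κ) P) Z = Qp k Z (mp (algebraMap F κ) P) := by
        unfold Qp
        rw [Set.union_comm]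
      have h4 : adjoin k (pf k (mp (algebraMap F κ) P)) =
          IntermediateField.lift (adjoin k (pf k P)) := by
        rw [pf_mp, lift_adjoin]
        rfl
      rw [h3, Qp_eq, h4, E5e_lift]
    rw [hQ]
    have hPd : pdeg k P = Module.finrank (adjoin k (pf k P)) F := rfl
    rcases Z with _ | ⟨a, b, hab⟩
    · have e1 : pdeg (adjoin k (pf k P)) (WeierstrassCurve.Affine.Point.zero : (Ec κ).Point) = 0 :=
        pdeg_zero hEκ
      have e2 : pdeg F (WeierstrassCurve.Affine.Point.zero : (Ec κ).Point) = 0 := pdeg_zero hFκ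
      rw [e1, e2]
      simp
    · have h2κ : (2 : κ) = 0 := two_up h2
      have hc := (ec_nonsingular h2κ a b).1 hab
      have d1 := dg_eq_two_dp (K := adjoin k (pf k P)) hEκ hc
      have d2 := dg_eq_two_dp (K := F) hFκ hc
      have e1 : pdeg (adjoin k (pf k P)) (WeierstrassCurve.Affine.Point.some a b hab) =
        dp (adjoin k (pf k P)) a b := rfl
      have e2 : pdeg F (WeierstrassCurve.Affine.Point.some a b hab) = dp F a b := rfl
      rw [e1, e2, hPd]
      have d3 : dg (adjoin k (pf k P)) a = Module.finrank (adjoin k (pf k P)) F * dg F a := by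
        by_cases ha : IsAlgebraic F a
        · have ha' : IsAlgebraic (adjoin k (pf k P)) a := ha.restrictScalars _
          rw [dg_of_alg hEκ ha', dg_of_alg hFκ ha, mul_zero]
        · exact finrank_adjoin_trans hEF a ha
      have d4 : 2 * dp (adjoin k (pf k P)) a b =
          2 * (Module.finrank (adjoin k (pf k P)) F * dp F a b) := by
        rw [← d1, d3, d2]
        ring
      have d5 := Nat.eq_of_mul_eq_mul_left two_pos d4
      rw [d5]
      push_cast
      rfl

end MP2619.Q5
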