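import Pool.Agent.Lib.MP_2619d0_ag.Q5.E5b

/-!
# Row E5f
-/

set_option autoImplicit false

namespace MP2619.Q5

universe v u

open IntermediateField MP2619.R MP2619.W

/-- Row E5f. If `Algebra.trdeg k F = 0` then `[κ : k(P, Z)]` is infinite: `trdeg k (k(P, Z)) ≤ 1`. -/
theorem factor_zero {k κ : Type u} [Field k] [Field κ] [Algebra k κ] [DecidableEq κ]
    (h2 : (2 : k) = 0) (htr : 2 ≤ Algebra.trdeg k κ) (F : IntermediateField k κ) [DecidableEq F]
    (hF : Algebra.trdeg k F = 0) (P : (Ec F).Point) (Z : (Ec κ).Point) :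
    Qp k (mp (algebraMap F κ) P) Z = 0 := by
  have hF' : Algebra.IsAlgebraic k F := trdeg_eq_zero_iff.1 hF
  rw [Qp_eq]
  by_contra hne
  have hne' : pdeg (adjoin k (pf k Z)) (mp (algebraMap F κ) P) ≠ 0 := fun h => hne (by rw [h]; rfl)
  refine not_alg_pf h2 htr Z ?_
  have hfin : Module.Finite (adjoin (adjoin k (pf k Z)) (pf (adjoin k (pf k Z)) (mp (algebraMap F κ) P))) κ :=
    Module.finite_of_finrank_pos (Nat.pos_of_ne_zero hne')
  have halg : Algebra.IsAlgebraic (adjoin k (pf k Z))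
      (adjoin (adjoin k (pf k Z)) (pf (adjoin k (pf k Z)) (mp (algebraMap F κ) P))) := by
    refine IntermediateField.isAlgebraic_adjoin fun x hx => ?_
    have e : pf (adjoin k (pf k Z)) (mp (algebraMap F κ) P) = pf k (mp (algebraMap F κ) P) := rfl
    rw [e, pf_mp (K := k)] at hx
    obtain ⟨t, -, rfl⟩ := hx
    have h1 : IsAlgebraic k (algebraMap F κ t) := (hF'.isAlgebraic t).algebraMap
    exact (h1.tower_top (adjoin k (pf k Z))).isIntegral
  have h3 : Algebra.IsAlgebraic (adjoin (adjoin k (pf k Z)) (pf (adjoin k (pf k Z)) (mp (algebraMap F κ) P))) κ :=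
    Algebra.IsAlgebraic.of_finite _ _
  exact Algebra.IsAlgebraic.trans (adjoin k (pf k Z))
    (adjoin (adjoin k (pf k Z)) (pf (adjoin k (pf k Z)) (mp (algebraMap F κ) P))) κ

end MP2619.Q5
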