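import Pool.Agent.Lib.MP_2619d0_ag.Q5.E5c
import Pool.Agent.Lib.MP_2619d0_ag.Q5.E5e
import Pool.Agent.Lib.MP_2619d0_ag.Q5.E5f

/-!
# Row E5g
-/

set_option autoImplicit false

namespace MP2619.Q5

universe v u

open IntermediateField MP2619.R MP2619.W

/-- Row E5g. `F = adjoin k (pf X1 ∪ pf X2)`, `trdeg k F = 1`: `cc_algebra` with `nf_points` for `F/k` and for `κ/F`,
`qf_points`, `factor`, `mp`. `trdeg k F = 0`: the same with `nx = ny = 0` (`NF` is clear for `0`) and `factor_zero`. -/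
theorem cc_points (hE : HE.{u}) {k κ : Type u} [Field k] [Field κ] [Algebra k κ] [DecidableEq κ]
    (h2 : (2 : k) = 0) (h2κ : (2 : κ) = 0) (w : k) (hw : w ^ 2 + w + 1 = 0)
    (hw' : algebraMap k κ w ^ 2 + algebraMap k κ w + 1 = 0) (htr : 2 ≤ Algebra.trdeg k κ)
    (X1 X2 Y1 Y2 : (Ec κ).Point)
    (hX : Algebra.trdeg k (adjoin k (pf k X1 ∪ pf k X2)) ≤ 1) :
    Even (S9 (Qp k) X1 Y1 X2 Y2 - S9 (Qp k) (wm h2κ (algebraMap k κ w) hw' X1) Y1
      (wm h2κ (algebraMap k κ w) hw' X2) Y2) := by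
  have hX' := hX
  clear hX
  generalize hF : adjoin k (pf k X1 ∪ pf k X2) = F at hX'
  have hs1 : pf k X1 ⊆ F := by
    rw [← hF]
    exact Set.subset_union_left.trans (subset_adjoin k _)
  have hs2 : pf k X2 ⊆ F := by
    rw [← hF]
    exact Set.subset_union_right.trans (subset_adjoin k _)
  obtain ⟨P1, rfl⟩ := exists_of_mem F X1 hs1
  obtain ⟨P2, rfl⟩ := exists_of_mem F X2 hs2
  have h2F : (2 : F) = 0 := two_up h2
  have hwF : algebraMap k F w ^ 2 + algebraMap k F w + 1 = 0 := by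
    rw [← map_pow, ← map_add, ← map_one (algebraMap k F), ← map_add, hw, map_zero]
  have hQ := qf_points h2 h2κ w hw hw' htr
  have htF : ¬ Algebra.IsAlgebraic F κ := by
    intro halg
    have h3 := trdeg_add_eq k F (A := κ)
    have h4 : Algebra.trdeg F κ = 0 := trdeg_eq_zero_iff.2 halg
    rw [h4, add_zero] at h3
    rw [← h3] at htr
    have h5 := htr.trans hX'
    exact absurd h5 (not_le.2 (by exact_mod_cast one_lt_two))
  by_cases h0 : Algebra.trdeg k F = 0
  · refine cc_algebra hQ (w' := fun P : (Ec F).Point => wm h2F (algebraMap k F w) hwF P)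
      (φ' := fun P => Fr h2F P) (nx := fun _ => 0) (ny := fun _ => 0) ⟨?_, ?_, ?_, ?_, ?_⟩
      ⟨?_, ?_, ?_, ?_, ?_⟩ (fun P => mp (algebraMap F κ) P) (fun P R => map_add _ P R)
      (fun P => ?_) (fun P => ?_) (fun P Z => ?_) P1 P2 Y1 Y2
    · exact act_points h2F (algebraMap k F w) hwF
    · intro P P'; simp
    · intro P; simp
    · intro P; simp
    · intro P R; simp
    · exact act_points h2κ (algebraMap k κ w) hw'
    · intro P P'; simp
    · intro P; simp
    · intro P; simp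
    · intro P R; simp
    · exact (wm_mp h2F h2κ (algebraMap k F w) hwF (algebraMap F κ) hw' P).symm
    · exact (Fr_mp h2F h2κ (algebraMap F κ) P).symm
    · rw [mul_zero]
      exact factor_zero h2 htr F h0 P Z
  · have h1 : Algebra.trdeg k F = 1 := le_antisymm hX' (Cardinal.one_le_iff_ne_zero.2 h0)
    have hkF : ¬ Algebra.IsAlgebraic k F := fun h => h0 (trdeg_eq_zero_iff.2 h)
    have hx := nf_points hE (K := k) (L := F) h2 h2F w hw hwF hkF
    have hy : NF (fun P : (Ec κ).Point => wm h2κ (algebraMap k κ w) hw' P) (fun P => Fr h2κ P)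
        (fun P => (pdeg F P : ℤ)) :=
      nf_points hE (K := F) (L := κ) h2F h2κ (algebraMap k F w) hwF hw' htF
    exact cc_algebra hQ hx hy (fun P => mp (algebraMap F κ) P) (fun P R => map_add _ P R)
      (fun P => (wm_mp h2F h2κ (algebraMap k F w) hwF (algebraMap F κ) hw' P).symm)
      (fun P => (Fr_mp h2F h2κ (algebraMap F κ) P).symm)
      (fun P Z => factor h2 htr F h1 P Z) P1 P2 Y1 Y2

end MP2619.Q5
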