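import Pool.Agent.Lib.MP_2619d0_ag.Q5.E1
import Pool.Agent.Lib.MP_2619d0_ag.Q5.E5
import Pool.Agent.Lib.MP_2619d0_ag.Q5.RDefs

/-!
# Row E7, E8: final data
-/

set_option autoImplicit false

namespace MP2619.Q5

universe u

open IntermediateField MP2619.R MP2619.W

/-- the block of a coordinate -/
def cI (i : Fin 6) : Fin 2 := if i.val < 3 then 0 else 1

/-- the index of a coordinate in its block -/
def iI (i : Fin 6) : Fin 3 := ⟨i.val % 3, Nat.mod_lt _ (by norm_num)⟩

/-- the data of a pair of points split into two blocks, with free scalars -/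
structure FS (k κ N M : Type u) [Field k] [Field κ] [Field N] [Field M] [Algebra k κ] [Algebra κ N]
    [Algebra k N] [Algebra N M] [Algebra k M] (x y : Fin 6 → M) (al be : Fin 2 → N)
    (X Y : Fin 2 → Fin 3 → κ) : Prop where
  ind : AlgebraicIndependent κ (Sum.elim al be)
  gen : adjoin κ (Set.range al ∪ Set.range be) = ⊤
  hx : ∀ i, x i = algebraMap N M (al (cI i) * algebraMap κ N (X (cI i) (iI i)))
  hy : ∀ i, y i = algebraMap N M (be (cI i) * algebraMap κ N (Y (cI i) (iI i)))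
  hX : ∀ C, ∑ i, X C i ^ 3 = 0
  hY : ∀ C, ∑ i, Y C i ^ 3 = 0
  X_ne : ∀ C, ∃ i, X C i ≠ 0
  Y_ne : ∀ C, ∃ i, Y C i ≠ 0
  z_ne : ∀ C, X C 2 ≠ 0 ∨ Y C 2 ≠ 0
  tr : 2 ≤ Algebra.trdeg k κ
  small : Algebra.trdeg k (adjoin k (rt (X 0) ∪ rt (X 1))) ≤ 1
  odd : Odd (Module.finrank N M)

/-- multiply the coordinates `0`, `3` by `w` -/
def tw03 {k M : Type u} [Field k] [Field M] [Algebra k M] (w : k) (x : Fin 6 → M) : Fin 6 → M :=
  fun i => if iI i = 0 then algebraMap k M w * x i else x i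

end MP2619.Q5
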