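import Pool.Agent.Lib.MP_2619d0_ag.Q5.E7

/-!
# Row E7a
-/

set_option autoImplicit false

namespace MP2619.Q5

universe v u

open IntermediateField MP2619.R MP2619.W

/-- the coordinate `i` of the block `C` -/
private def E7a_b (C : Fin 2) (i : Fin 3) : Fin 6 := ⟨3 * C.val + i.val, by omega⟩

private theorem E7a_cI (C : Fin 2) (i : Fin 3) : cI (E7a_b C i) = C := by
  revert C i
  decide

private theorem E7a_iI (C : Fin 2) (i : Fin 3) : iI (E7a_b C i) = i := by
  revert C i
  decide

private theorem E7a_bI (i : Fin 6) : E7a_b (cI i) (iI i) = i := by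
  revert i
  decide

private theorem E7a_qb (C : Fin 2) (i : Fin 3) : qb (E7a_b C i) = C.val := by
  revert C i
  decide

private theorem E7a_cb {M : Type u} [Field M] (x : Fin 6 → M) (C : Fin 2) :
    ∑ i, x (E7a_b C i) ^ 3 = cb qb C.val x := by
  unfold cb
  rw [Fin.sum_univ_three, Fin.sum_univ_six]
  fin_cases C
  · simp [E7a_b, qb]
  · simp [E7a_b, qb]

/-- a block of an algebraically independent family is not on the Fermat cone -/
private theorem E7a_cube {k M : Type u} [Field k] [Field M] [Algebra k M] (u : Fin 6 → M)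
    (hind : AlgebraicIndependent k u) (C : Fin 2) : ∑ i, u (E7a_b C i) ^ 3 ≠ 0 := by
  intro h
  have h1 : MvPolynomial.aeval u
      (∑ i : Fin 3, (MvPolynomial.X (E7a_b C i) : MvPolynomial (Fin 6) k) ^ 3) = 0 := by
    simpa using h
  have h3 := (injective_iff_map_eq_zero _).mp hind _ h1
  have h4 := congrArg (MvPolynomial.eval fun s : Fin 6 => if iI s = 0 then (1 : k) else 0) h3
  simp [Fin.sum_univ_three, E7a_iI] at h4

/-- a block of `x` is not zero -/
private theorem E7a_ne {k M : Type u} [Field k] [Field M] [Algebra k M] (x y : Fin 6 → M)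
    (hy : ∀ c, cb qb c y = 0) (hind : AlgebraicIndependent k (fun i => x i + y i)) (C : Fin 2) :
    ∃ i, x (E7a_b C i) ≠ 0 := by
  by_contra hcon
  push Not at hcon
  apply E7a_cube _ hind C
  rw [← hy C.val, ← E7a_cb y C]
  exact Finset.sum_congr rfl fun i _ => by rw [hcon i, zero_add]

/-- Row E7a. `κ = k(ratios of the blocks of x and y)`, `N = k(x, y)` (intermediate fields of `M/k`), `al C` = a non-zero
coordinate of the block `C` of `x`, `X C` = the block divided by `al C`; the same for `y`. A block of `x` or `y` is not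
`0` (otherwise the block of `x + y` is on the Fermat cone, but it is algebraically independent), and `x 2 + y 2`, `x 5 + y 5`
are not `0`. `[M : N] [N : k(x + y)]` is odd. `6 = trdeg k N ≤ trdeg k κ + 4` and `trdeg k κ ≤ 2`: so `al`, `be` are
algebraically independent over `κ` (see `V14b_main` in W/V14b for the same argument). -/
theorem FD_setup {k M : Type u} [Field k] [Field M] [Algebra k M] {w : k} {x y : Fin 6 → M}
    (hD : FD k w x y) (hp : Pr k (fun i => x i + y i)) :
    ∃ (κ N : Type u) (_ : Field κ) (_ : Field N) (_ : Algebra k κ) (_ : Algebra κ N)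
      (_ : Algebra k N) (_ : IsScalarTower k κ N) (_ : Algebra N M) (_ : IsScalarTower k N M)
      (al be : Fin 2 → N) (X Y : Fin 2 → Fin 3 → κ), FS k κ N M x y al be X Y := by
  classical
  obtain ⟨hind, hodd⟩ := hp
  have hind' : AlgebraicIndependent k (fun i => y i + x i) := by
    have e : (fun i => y i + x i) = fun i => x i + y i := funext fun i => add_comm _ _
    rw [e]
    exact hind
  choose s hs using E7a_ne x y hD.Fy hind
  choose t ht using E7a_ne y x hD.Fx hind'
  set κ : IntermediateField k M := ratq k qb x ⊔ ratq k qb y with hκ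
  set alM : Fin 2 → M := fun C => x (E7a_b C (s C)) with halM
  set beM : Fin 2 → M := fun C => y (E7a_b C (t C)) with hbeM
  set N : IntermediateField κ M := adjoin κ (Set.range alM ∪ Set.range beM) with hN
  have hratx : ∀ C i j, x (E7a_b C i) / x (E7a_b C j) ∈ ratq k qb x := fun C i j =>
    subset_adjoin k _ ⟨_, _, by rw [E7a_qb, E7a_qb], rfl⟩
  have hraty : ∀ C i j, y (E7a_b C i) / y (E7a_b C j) ∈ ratq k qb y := fun C i j =>
    subset_adjoin k _ ⟨_, _, by rw [E7a_qb, E7a_qb], rfl⟩
  have hxκ : ∀ C i, x (E7a_b C i) / alM C ∈ κ := fun C i =>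
    (le_sup_left : ratq k qb x ≤ κ) (hratx C i (s C))
  have hyκ : ∀ C i, y (E7a_b C i) / beM C ∈ κ := fun C i =>
    (le_sup_right : ratq k qb y ≤ κ) (hraty C i (t C))
  have halN : ∀ C, alM C ∈ N := fun C => subset_adjoin κ _ (Or.inl ⟨C, rfl⟩)
  have hbeN : ∀ C, beM C ∈ N := fun C => subset_adjoin κ _ (Or.inr ⟨C, rfl⟩)
  let X : Fin 2 → Fin 3 → κ := fun C i => ⟨x (E7a_b C i) / alM C, hxκ C i⟩
  let Y : Fin 2 → Fin 3 → κ := fun C i => ⟨y (E7a_b C i) / beM C, hyκ C i⟩
  let al : Fin 2 → N := fun C => ⟨alM C, halN C⟩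
  let be : Fin 2 → N := fun C => ⟨beM C, hbeN C⟩
  have hST : IsScalarTower k κ N := IsScalarTower.of_algebraMap_eq fun _ => rfl
  have hST2 : IsScalarTower k N M := IsScalarTower.of_algebraMap_eq fun _ => rfl
  have hgen : adjoin κ (Set.range al ∪ Set.range be) = ⊤ := by
    apply IntermediateField.map_injective N.val
    rw [adjoin_map, Set.image_union, ← Set.range_comp, ← Set.range_comp]
    have : N = IntermediateField.map N.val ⊤ := by
      rw [← AlgHom.fieldRange_eq_map, fieldRange_val]
    rw [← this]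
    rfl
  have hxe : ∀ i, x i = alM (cI i) * (x i / alM (cI i)) := fun i =>
    (mul_div_cancel₀ _ (hs (cI i))).symm
  have hye : ∀ i, y i = beM (cI i) * (y i / beM (cI i)) := fun i =>
    (mul_div_cancel₀ _ (ht (cI i))).symm
  have hxN : ∀ i, x i = algebraMap N M (al (cI i) * algebraMap κ N (X (cI i) (iI i))) := by
    intro i
    have e : ((algebraMap N M (al (cI i) * algebraMap κ N (X (cI i) (iI i)))) : M) =
        alM (cI i) * (x (E7a_b (cI i) (iI i)) / alM (cI i)) := rfl
    rw [e, E7a_bI]
    exact hxe i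
  have hyN : ∀ i, y i = algebraMap N M (be (cI i) * algebraMap κ N (Y (cI i) (iI i))) := by
    intro i
    have e : ((algebraMap N M (be (cI i) * algebraMap κ N (Y (cI i) (iI i)))) : M) =
        beM (cI i) * (y (E7a_b (cI i) (iI i)) / beM (cI i)) := rfl
    rw [e, E7a_bI]
    exact hye i
  -- the field `k(x + y)`
  have hFN : adjoin k (Set.range fun i => x i + y i) ≤ N.restrictScalars k := by
    rw [adjoin_le_iff]
    rintro _ ⟨i, rfl⟩
    have h1 : x i ∈ N := by
      rw [hxN i]
      exact (al (cI i) * algebraMap κ N (X (cI i) (iI i))).2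
    have h2 : y i ∈ N := by
      rw [hyN i]
      exact (be (cI i) * algebraMap κ N (Y (cI i) (iI i))).2
    exact add_mem (S := IntermediateField κ M) (s := N) h1 h2
  have hoddN : Odd (Module.finrank N M) :=
    hodd.of_dvd_nat (finrank_dvd_of_le_left hFN)
  -- transcendence degrees
  have htN : ((6 : ℕ) : Cardinal.{u}) ≤ Algebra.trdeg k N := by
    let u' : Fin 6 → adjoin k (Set.range fun i => x i + y i) := fun i =>
      ⟨x i + y i, subset_adjoin k _ ⟨i, rfl⟩⟩
    have hu' : AlgebraicIndependent k u' :=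
      ((adjoin k (Set.range fun i => x i + y i)).val.algebraicIndependent_iff
        (adjoin k (Set.range fun i => x i + y i)).val.injective).mp hind
    have h1 : ((6 : ℕ) : Cardinal.{u}) ≤
        Algebra.trdeg k (adjoin k (Set.range fun i => x i + y i)) := by
      have := hu'.lift_cardinalMk_le_trdeg
      simpa using this
    exact h1.trans (trdeg_le_of_injective (A' := N) (inclusion hFN) (inclusion_injective hFN))
  have hfs : FaithfulSMul κ N :=
    (faithfulSMul_iff_algebraMap_injective κ N).mpr (algebraMap κ N).injective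
  have hadd : Algebra.trdeg k κ + Algebra.trdeg κ N = Algebra.trdeg k N := trdeg_add_eq k κ (A := N)
  have hR : Algebra.trdeg k κ ≤ ((2 : ℕ) : Cardinal.{u}) := by
    have := hD.small
    exact_mod_cast this
  obtain ⟨p, hp'⟩ := Cardinal.lt_aleph0.mp (lt_of_le_of_lt hR Cardinal.natCast_lt_aleph0)
  have hpr : p ≤ 2 := by
    rw [hp'] at hR
    exact_mod_cast hR
  have h2r : ((4 : ℕ) : Cardinal.{u}) ≤ Algebra.trdeg κ N := by
    rcases lt_or_ge (Algebra.trdeg κ N) Cardinal.aleph0 with h | h
    · obtain ⟨q, hq⟩ := Cardinal.lt_aleph0.mp h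
      rw [← hadd, hp', hq] at htN
      rw [hq]
      have : 6 ≤ p + q := by exact_mod_cast htN
      have : 4 ≤ q := by omega
      exact_mod_cast this
    · exact le_trans Cardinal.natCast_lt_aleph0.le h
  have halg : Algebra.IsAlgebraic (Algebra.adjoin κ (Set.range (Sum.elim al be))) N := by
    rw [← isAlgebraic_adjoin_iff_top, Set.Sum.elim_range, hgen]
    exact ⟨fun z => isAlgebraic_algebraMap (⟨z, mem_top⟩ : (⊤ : IntermediateField κ N))⟩
  have hbas : IsTranscendenceBasis κ (Sum.elim al be) := by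
    apply Algebra.IsAlgebraic.isTranscendenceBasis_of_lift_le_trdeg_of_finite
    simpa using h2r
  have htr2 : Algebra.trdeg κ N = (4 : ℕ) := by
    have := hbas.lift_cardinalMk_eq_trdeg
    rw [Cardinal.lift_id'] at this
    rw [← this]
    simp
  have hpr2 : 2 ≤ p := by
    rw [← hadd, hp', htr2] at htN
    have : 6 ≤ p + 4 := by exact_mod_cast htN
    omega
  have hsm : Algebra.trdeg k (adjoin k (rt (X 0) ∪ rt (X 1))) ≤ 1 := by
    have h1 : (adjoin k (rt (X 0) ∪ rt (X 1))).map κ.val ≤ ratq k qb x := by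
      rw [adjoin_map, adjoin_le_iff]
      have h2 : ∀ C i j, κ.val (X C i / X C j) ∈ ratq k qb x := by
        intro C i j
        have e : κ.val (X C i / X C j) = (x (E7a_b C i) / alM C) / (x (E7a_b C j) / alM C) := by
          rw [map_div₀]
          rfl
        rw [e, div_div_div_cancel_right₀ (hs C)]
        exact hratx C i j
      rintro _ ⟨z, hz, rfl⟩
      rcases hz with ⟨i, j, rfl⟩ | ⟨i, j, rfl⟩
      · exact h2 0 i j
      · exact h2 1 i j
    rw [((adjoin k (rt (X 0) ∪ rt (X 1))).equivMap κ.val).trdeg_eq]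
    exact (trdeg_le_of_injective (inclusion h1) (inclusion_injective h1)).trans hD.smallx
  refine ⟨κ, N, inferInstance, inferInstance, inferInstance, inferInstance, inferInstance, hST,
    inferInstance, hST2, al, be, X, Y, ⟨hbas.1, hgen, hxN, hyN, ?_, ?_, ?_, ?_, ?_, ?_, hsm, hoddN⟩⟩
  · intro C
    apply Subtype.ext
    have e : ((∑ i, X C i ^ 3 : κ) : M) = ∑ i, (x (E7a_b C i) / alM C) ^ 3 := by
      rw [← κ.coe_val, map_sum]
      rfl
    rw [e]
    have e2 : ∑ i, (x (E7a_b C i) / alM C) ^ 3 = (∑ i, x (E7a_b C i) ^ 3) / alM C ^ 3 := by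
      rw [Finset.sum_div]
      exact Finset.sum_congr rfl fun i _ => div_pow _ _ _
    rw [e2, E7a_cb, hD.Fx, zero_div]
    rfl
  · intro C
    apply Subtype.ext
    have e : ((∑ i, Y C i ^ 3 : κ) : M) = ∑ i, (y (E7a_b C i) / beM C) ^ 3 := by
      rw [← κ.coe_val, map_sum]
      rfl
    rw [e]
    have e2 : ∑ i, (y (E7a_b C i) / beM C) ^ 3 = (∑ i, y (E7a_b C i) ^ 3) / beM C ^ 3 := by
      rw [Finset.sum_div]
      exact Finset.sum_congr rfl fun i _ => div_pow _ _ _
    rw [e2, E7a_cb, hD.Fy, zero_div]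
    rfl
  · intro C
    refine ⟨s C, fun h => ?_⟩
    have h1 : x (E7a_b C (s C)) / alM C = 0 := congrArg Subtype.val h
    rw [div_self (hs C)] at h1
    exact one_ne_zero h1
  · intro C
    refine ⟨t C, fun h => ?_⟩
    have h1 : y (E7a_b C (t C)) / beM C = 0 := congrArg Subtype.val h
    rw [div_self (ht C)] at h1
    exact one_ne_zero h1
  · intro C
    by_contra hcon
    push Not at hcon
    obtain ⟨h1, h2⟩ := hcon
    have h3 : x (E7a_b C 2) / alM C = 0 := congrArg Subtype.val h1
    have h4 : y (E7a_b C 2) / beM C = 0 := congrArg Subtype.val h2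
    have h5 : x (E7a_b C 2) = 0 := (div_eq_zero_iff.1 h3).resolve_right (hs C)
    have h6 : y (E7a_b C 2) = 0 := (div_eq_zero_iff.1 h4).resolve_right (ht C)
    apply hind.ne_zero (E7a_b C 2)
    rw [h5, h6, add_zero]
  · rw [hp']
    exact_mod_cast hpr2

end MP2619.Q5
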