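import Pool.Agent.Lib.MP_2619d0_ag.Q5.E7
import Pool.Agent.Lib.MP_2619d0_ag.Q5.E1a
import Pool.Agent.Lib.MP_2619d0_ag.Q5.E1d

/-!
# Row E7b
-/

set_option autoImplicit false

namespace MP2619.Q5

universe v u

open IntermediateField MP2619.R MP2619.W

/-- the three points -/
private noncomputable def E7b_pp {κ : Type u} [Field κ] [DecidableEq κ] (w : κ) (x y : Fin 3 → κ)
    (a : Fin 3) : (Ec κ).Point := ![ptE w x, ptE w y, ptE w x + ptE w y] a

private theorem E7b_adjoin {k κ : Type u} [Field k] [Field κ] [Algebra k κ] [DecidableEq κ]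
    (h2 : (2 : k) = 0) (w : k) (hw : w ^ 2 + w + 1 = 0) (x y : Fin 3 → κ)
    (hx : ∑ i, x i ^ 3 = 0) (hy : ∑ i, y i ^ 3 = 0) (hxy : ∃ i j, x i * y j ≠ x j * y i)
    (a : Fin 3) :
    adjoin k (rt (![x, y, thd x y] a)) =
      adjoin k (pf k (E7b_pp (algebraMap k κ w) x y a)) := by
  have h2' : (2 : κ) = 0 := by
    have e : (2 : κ) = algebraMap k κ 2 := (map_ofNat (algebraMap k κ) 2).symm
    rw [e, h2, map_zero]
  have hw' : (algebraMap k κ w) ^ 2 + algebraMap k κ w + 1 = 0 := by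
    rw [← map_pow, ← map_add, ← map_one (algebraMap k κ), ← map_add, hw, map_zero]
  have hxne : ∃ i, x i ≠ 0 := by
    by_contra h
    push Not at h
    obtain ⟨i, j, hij⟩ := hxy
    apply hij
    rw [h i, h j, zero_mul, zero_mul]
  have hyne : ∃ i, y i ≠ 0 := by
    by_contra h
    push Not at h
    obtain ⟨i, j, hij⟩ := hxy
    apply hij
    rw [h i, h j, mul_zero, mul_zero]
  fin_cases a
  · show adjoin k (rt x) = adjoin k (pf k (ptE (algebraMap k κ w) x))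
    exact (adjoin_pt h2 hw hx hxne).symm
  · show adjoin k (rt y) = adjoin k (pf k (ptE (algebraMap k κ w) y))
    exact (adjoin_pt h2 hw hy hyne).symm
  · show adjoin k (rt (thd x y)) =
      adjoin k (pf k (ptE (algebraMap k κ w) x + ptE (algebraMap k κ w) y))
    rw [← adjoin_neg, ← pt_thd h2' hw' hx hy hxy,
      adjoin_pt h2 hw (thd_cone h2' hx hy) (thd_ne h2' hw' hx hy hxy)]

/-- Row E7b. `adjoin k (⋃ C, rt (Z C)) = adjoin k (pf (ptE w (Z 0)) ∪ pf (ptE w (Z 1)))` for `Z C` one of `X C`, `Y C`,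
`thd (X C) (Y C)` (`adjoin_pt`, `thd_cone`, `thd_ne`), `ptE w (thd X Y) = -(ptE w X + ptE w Y)` (`pt_thd`), `adjoin_neg`.
The sum over `Fin 2 → Fin 3` has nine terms. -/
theorem nine {k κ : Type u} [Field k] [Field κ] [Algebra k κ] [DecidableEq κ] (h2 : (2 : k) = 0)
    (w : k) (hw : w ^ 2 + w + 1 = 0) (X Y : Fin 2 → Fin 3 → κ)
    (hX : ∀ C, ∑ i, X C i ^ 3 = 0) (hY : ∀ C, ∑ i, Y C i ^ 3 = 0)
    (hXY : ∀ C, ∃ i j, X C i * Y C j ≠ X C j * Y C i) :
    ((∑ φ : Fin 2 → Fin 3, Module.finrank (adjoin k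
        (⋃ C, rt (![X C, Y C, thd (X C) (Y C)] (φ C)))) κ : ℕ) : ℤ) =
      S9 (Qp k) (ptE (algebraMap k κ w) (X 0)) (ptE (algebraMap k κ w) (Y 0))
        (ptE (algebraMap k κ w) (X 1)) (ptE (algebraMap k κ w) (Y 1)) := by
  have key : ∀ φ : Fin 2 → Fin 3, ((Module.finrank (adjoin k
      (⋃ C, rt (![X C, Y C, thd (X C) (Y C)] (φ C)))) κ : ℕ) : ℤ) =
      Qp k (E7b_pp (algebraMap k κ w) (X 0) (Y 0) (φ 0))
        (E7b_pp (algebraMap k κ w) (X 1) (Y 1) (φ 1)) := by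
    intro φ
    have hU : (⋃ C, rt (![X C, Y C, thd (X C) (Y C)] (φ C))) =
        rt (![X 0, Y 0, thd (X 0) (Y 0)] (φ 0)) ∪ rt (![X 1, Y 1, thd (X 1) (Y 1)] (φ 1)) := by
      ext t
      rw [Set.mem_iUnion, Set.mem_union, Fin.exists_fin_two]
    have hA : adjoin k (⋃ C, rt (![X C, Y C, thd (X C) (Y C)] (φ C))) =
        adjoin k (pf k (E7b_pp (algebraMap k κ w) (X 0) (Y 0) (φ 0)) ∪
          pf k (E7b_pp (algebraMap k κ w) (X 1) (Y 1) (φ 1))) := by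
      rw [hU, adjoin_union, adjoin_union,
        E7b_adjoin h2 w hw (X 0) (Y 0) (hX 0) (hY 0) (hXY 0),
        E7b_adjoin h2 w hw (X 1) (Y 1) (hX 1) (hY 1) (hXY 1)]
    unfold Qp
    rw [hA]
  rw [Nat.cast_sum, Finset.sum_congr rfl fun φ _ => key φ]
  have hsum : ∑ φ : Fin 2 → Fin 3, Qp k (E7b_pp (algebraMap k κ w) (X 0) (Y 0) (φ 0))
      (E7b_pp (algebraMap k κ w) (X 1) (Y 1) (φ 1)) =
      ∑ p : Fin 3 × Fin 3, Qp k (E7b_pp (algebraMap k κ w) (X 0) (Y 0) p.1)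
        (E7b_pp (algebraMap k κ w) (X 1) (Y 1) p.2) :=
    Fintype.sum_equiv (finTwoArrowEquiv (Fin 3)) _ _ (fun φ => rfl)
  rw [hsum]
  rw [Fintype.sum_prod_type, Fin.sum_univ_three, Fin.sum_univ_three, Fin.sum_univ_three,
    Fin.sum_univ_three]
  unfold S9
  simp only [E7b_pp, Matrix.cons_val_zero, Matrix.cons_val_one, Matrix.cons_val]
  ring

end MP2619.Q5
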