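import Pool.Agent.Lib.MP_2619d0_ag.Q5.E7
import Pool.Agent.Lib.MP_2619d0_ag.Q5.E1a
import Pool.Agent.Lib.MP_2619d0_ag.Q5.E5c

/-!
# Row E7c
-/

set_option autoImplicit false

namespace MP2619.Q5

universe v u

open IntermediateField MP2619.R MP2619.W

private theorem E7c_zero {A : Type u} [AddCommGroup A] {w φ : A → A} {Q : A → A → ℤ} (h : QF w φ Q)
    (R : A) : Q 0 R = 0 := by
  have h1 := h.par 0 0 R
  rw [add_zero, sub_zero] at h1
  linarith

private theorem E7c_dbl {A : Type u} [AddCommGroup A] {w φ : A → A} {Q : A → A → ℤ} (h : QF w φ Q)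
    (P R : A) : Q (P + P) R = 4 * Q P R := by
  have h1 := h.par P P R
  rw [sub_self, E7c_zero h] at h1
  linarith

private theorem E7c_even {A : Type u} [AddCommGroup A] {w φ : A → A} {Q : A → A → ℤ} (h : QF w φ Q)
    (P R R' : A) : Even (S9 Q P P R R') ∧ Even (S9 Q R R' P P) := by
  have hd : ∀ S, Q S (P + P) = 4 * Q S P := by
    intro S
    rw [h.symm S (P + P), E7c_dbl h, h.symm P S]
  constructor
  · refine ⟨3 * Q P R + 3 * Q P R' + 3 * Q P (R + R'), ?_⟩
    unfold S9
    rw [E7c_dbl h, E7c_dbl h, E7c_dbl h]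
    ring
  · refine ⟨3 * Q R P + 3 * Q R' P + 3 * Q (R + R') P, ?_⟩
    unfold S9
    rw [hd, hd, hd]
    ring

private theorem E7c_w {k κ : Type u} [Field k] [Field κ] [Algebra k κ] {w : k}
    (hw : w ^ 2 + w + 1 = 0) : algebraMap k κ w ^ 2 + algebraMap k κ w + 1 = 0 := by
  have := congrArg (algebraMap k κ) hw
  rwa [map_add, map_add, map_pow, map_one, map_zero] at this

/-- Row E7c. If `X C`, `Y C` are proportional for some `C` then `ptE w (X C) = ptE w (Y C)` (`pt_smul`). -/
theorem S9_even {k κ : Type u} [Field k] [Field κ] [Algebra k κ] [DecidableEq κ]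
    (h2 : (2 : k) = 0) (w : k) (hw : w ^ 2 + w + 1 = 0) (htr : 2 ≤ Algebra.trdeg k κ)
    (P R R' : (Ec κ).Point) : Even (S9 (Qp k) P P R R') ∧ Even (S9 (Qp k) R R' P P) :=
  E7c_even (qf_points h2 (two_up h2) w hw (E7c_w hw) htr) P R R'

/-- Row E7f. `ptE w` of the vector with the coordinate `0` multiplied by `w` is `wm (ptE w z)`. -/
theorem pt_tw {L : Type u} [Field L] [DecidableEq L] (h2 : (2 : L) = 0) (w : L)
    (hw : w ^ 2 + w + 1 = 0) (z : Fin 3 → L) (hz : ∑ i, z i ^ 3 = 0) :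
    ptE w (fun i => if i = 0 then w * z i else z i) = wm h2 w hw (ptE w z) := by
  have e0 : fw w (fun i => if i = 0 then w * z i else z i) 0 = fw w z 0 := by
    simp [fw]
  have e1 : fw w (fun i => if i = 0 then w * z i else z i) 1 = w * fw w z 1 := by
    simp [fw]
  have e2 : fw w (fun i => if i = 0 then w * z i else z i) 2 = fw w z 2 := by
    simp [fw]
  have hN : (Ec L).Nonsingular (w * fw w z 1 / fw w z 0) (fw w z 2 / fw w z 0) ↔
      (Ec L).Nonsingular (fw w z 1 / fw w z 0) (fw w z 2 / fw w z 0) := by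
    rw [ec_nonsingular h2, ec_nonsingular h2]
    have e3 : (w * fw w z 1 / fw w z 0) ^ 3 = (fw w z 1 / fw w z 0) ^ 3 := by
      rw [mul_div_assoc, mul_pow]
      linear_combination ((w - 1) * (fw w z 1 / fw w z 0) ^ 3) * hw
    rw [e3]
  unfold ptE hp
  by_cases h : fw w z 0 ≠ 0 ∧ (Ec L).Nonsingular (fw w z 1 / fw w z 0) (fw w z 2 / fw w z 0)
  · have h' : fw w (fun i => if i = 0 then w * z i else z i) 0 ≠ 0 ∧
        (Ec L).Nonsingular (fw w (fun i => if i = 0 then w * z i else z i) 1 /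
          fw w (fun i => if i = 0 then w * z i else z i) 0)
          (fw w (fun i => if i = 0 then w * z i else z i) 2 /
          fw w (fun i => if i = 0 then w * z i else z i) 0) := by
      rw [e0, e1, e2]
      exact ⟨h.1, hN.2 h.2⟩
    rw [dif_pos h, dif_pos h', wm_some]
    simp only [WeierstrassCurve.Affine.Point.some.injEq]
    rw [e0, e1, e2]
    exact ⟨mul_div_assoc _ _ _, rfl⟩
  · have h' : ¬ (fw w (fun i => if i = 0 then w * z i else z i) 0 ≠ 0 ∧
        (Ec L).Nonsingular (fw w (fun i => if i = 0 then w * z i else z i) 1 /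
          fw w (fun i => if i = 0 then w * z i else z i) 0)
          (fw w (fun i => if i = 0 then w * z i else z i) 2 /
          fw w (fun i => if i = 0 then w * z i else z i) 0)) := by
      rw [e0, e1, e2]
      rintro ⟨h3, h4⟩
      exact h ⟨h3, hN.1 h4⟩
    rw [dif_neg h, dif_neg h']
    rfl

private theorem E7c_rt {k κ : Type u} [Field k] [Field κ] [Algebra k κ] (c : Fin 3 → k)
    {X X' : Fin 3 → κ} (hX' : ∀ i, X' i = algebraMap k κ (c i) * X i) :
    rt X' ⊆ (adjoin k (rt X) : Set κ) := by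
  rintro t ⟨i, j, rfl⟩
  have e : X' i / X' j = algebraMap k κ (c i / c j) * (X i / X j) := by
    rw [hX', hX', map_div₀, mul_div_mul_comm]
  rw [e]
  exact mul_mem (IntermediateField.algebraMap_mem _ _) (subset_adjoin k _ ⟨i, j, rfl⟩)

private theorem E7c_adj {k κ : Type u} [Field k] [Field κ] [Algebra k κ] (c : Fin 3 → k)
    {X X' : Fin 2 → Fin 3 → κ} (hX' : ∀ C i, X' C i = algebraMap k κ (c i) * X C i) :
    adjoin k (rt (X' 0) ∪ rt (X' 1)) ≤ adjoin k (rt (X 0) ∪ rt (X 1)) := by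
  rw [adjoin_le_iff]
  rintro t (ht | ht)
  · exact adjoin.mono k _ _ Set.subset_union_left (E7c_rt c (hX' 0) ht)
  · exact adjoin.mono k _ _ Set.subset_union_right (E7c_rt c (hX' 1) ht)

/-- Row E7e. The data `FS` for `tw03 w x`: `X` is replaced by `(w X C 0, X C 1, X C 2)`. -/
theorem FS_tw {k κ N M : Type u} [Field k] [Field κ] [Field N] [Field M] [Algebra k κ]
    [Algebra κ N] [Algebra k N] [Algebra N M] [Algebra k M] [IsScalarTower k κ N]
    [IsScalarTower k N M] (w : k) (hw : w ^ 2 + w + 1 = 0)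
    {x y : Fin 6 → M} {al be : Fin 2 → N} {X Y : Fin 2 → Fin 3 → κ}
    (h : FS k κ N M x y al be X Y) :
    FS k κ N M (tw03 w x) y al be
      (fun C i => if i = 0 then algebraMap k κ w * X C i else X C i) Y := by
  have hw0 : w ≠ 0 := H0_w_ne w hw
  have hw0' : algebraMap k κ w ≠ 0 := by
    rw [Ne, map_eq_zero]
    exact hw0
  obtain ⟨X', hXdef⟩ : ∃ X' : Fin 2 → Fin 3 → κ,
      X' = fun C i => if i = 0 then algebraMap k κ w * X C i else X C i := ⟨_, rfl⟩
  have hX'c : ∀ C i, X' C i = algebraMap k κ (if i = 0 then w else 1) * X C i := by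
    intro C i
    rw [hXdef]
    by_cases hi : i = 0
    · simp [hi]
    · simp [hi]
  have hX'd : ∀ C i, X C i = algebraMap k κ (if i = 0 then w⁻¹ else 1) * X' C i := by
    intro C i
    rw [hX'c]
    by_cases hi : i = 0
    · rw [if_pos hi, if_pos hi, map_inv₀, inv_mul_cancel_left₀ hw0']
    · rw [if_neg hi, if_neg hi, map_one, one_mul, one_mul]
  rw [← hXdef]
  refine ⟨h.ind, h.gen, ?_, h.hy, ?_, h.hY, ?_, h.Y_ne, ?_, h.tr, ?_, h.odd⟩
  · intro i
    have h3 : algebraMap k M w = algebraMap N M (algebraMap κ N (algebraMap k κ w)) := by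
      rw [← IsScalarTower.algebraMap_apply k κ N, ← IsScalarTower.algebraMap_apply k N M]
    unfold tw03
    rw [hX'c]
    by_cases hi : iI i = 0
    · rw [if_pos hi, if_pos hi, h.hx i, h3, map_mul (algebraMap κ N), ← map_mul (algebraMap N M)]
      congr 1
      ring
    · rw [if_neg hi, if_neg hi, h.hx i, map_one, one_mul]
  · intro C
    have h3 := h.hX C
    rw [Fin.sum_univ_three] at h3 ⊢
    rw [hX'c, hX'c, hX'c, if_pos rfl, if_neg (by decide), if_neg (by decide), map_one, one_mul, one_mul,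
      mul_pow]
    have h4 : (algebraMap k κ w) ^ 3 = 1 := by
      linear_combination (algebraMap k κ w - 1) * (E7c_w (κ := κ) hw)
    rw [h4, one_mul]
    exact h3
  · intro C
    obtain ⟨i, hi⟩ := h.X_ne C
    refine ⟨i, fun h3 => hi ?_⟩
    rw [hX'd, h3, mul_zero]
  · intro C
    have h3 : X' C 2 = X C 2 := by
      rw [hX'c, if_neg (by decide), map_one, one_mul]
    rw [h3]
    exact h.z_ne C
  · have h3 : adjoin k (rt (X' 0) ∪ rt (X' 1)) = adjoin k (rt (X 0) ∪ rt (X 1)) :=
      le_antisymm (E7c_adj _ hX'c) (E7c_adj _ hX'd)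
    rw [h3]
    exact h.small

end MP2619.Q5
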