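import Pool.Agent.Lib.MP_2619d0_ag.Q5.E4b
import Pool.Agent.Lib.MP_2619d0_ag.Q5.E7b
import Pool.Agent.Lib.MP_2619d0_ag.Q5.E7c

/-!
# Row E7d
-/

set_option autoImplicit false

namespace MP2619.Q5

universe v u

open IntermediateField MP2619.R MP2619.W

private def E7d_ix (C : Fin 2) (i : Fin 3) : Fin 6 := ⟨3 * C.val + i.val, by omega⟩

private theorem E7d_cI (C : Fin 2) (i : Fin 3) : cI (E7d_ix C i) = C := by
  revert C i; decide

private theorem E7d_iI (C : Fin 2) (i : Fin 3) : iI (E7d_ix C i) = i := by
  revert C i; decide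

private theorem E7d_ixI (j : Fin 6) : E7d_ix (cI j) (iI j) = j := by
  revert j; decide

private theorem E7d_cube {k M : Type u} [Field k] [Field M] [Algebra k M]
    (u : Fin 6 → M) (hind : AlgebraicIndependent k u) (C : Fin 2) :
    ∑ i, u (E7d_ix C i) ^ 3 ≠ 0 := by
  classical
  intro h
  have h1 : MvPolynomial.aeval u (∑ i : Fin 3,
      (MvPolynomial.X (E7d_ix C i) : MvPolynomial (Fin 6) k) ^ 3) = 0 := by
    simpa using h
  have h3 := (injective_iff_map_eq_zero _).mp hind _ h1
  have h4 := congrArg (MvPolynomial.eval fun s : Fin 6 => if iI s = 0 then (1 : k) else 0) h3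
  simp [Fin.sum_univ_three, E7d_iI] at h4

private theorem E7d_range {N : Type u} (f : Fin 2 → Fin 3 → N) :
    Set.range (fun s : Fin 2 × Fin 3 => f s.1 s.2) = Set.range fun j => f (cI j) (iI j) := by
  ext z
  constructor
  · rintro ⟨⟨C, i⟩, rfl⟩
    exact ⟨E7d_ix C i, by simp only [E7d_cI, E7d_iI]⟩
  · rintro ⟨j, rfl⟩
    exact ⟨(cI j, iI j), rfl⟩

/-- proportional vectors have the same point -/
private theorem E7d_prop {κ : Type u} [Field κ] {X Y : Fin 3 → κ}
    (hX : ∃ i, X i ≠ 0) (hY : ∃ i, Y i ≠ 0) (h : ∀ i j, X i * Y j = X j * Y i) :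
    ∃ c : κ, c ≠ 0 ∧ X = fun i => c * Y i := by
  obtain ⟨j, hj⟩ := hY
  have h1 : ∀ i, X i = X j / Y j * Y i := by
    intro i
    field_simp
    exact h i j
  refine ⟨X j / Y j, ?_, funext h1⟩
  rintro h0
  obtain ⟨i, hi⟩ := hX
  apply hi
  rw [h1, h0, zero_mul]

private theorem E7d_fr {k M N : Type u} [Field k] [Field M] [Field N] [Algebra k M] [Algebra k N]
    [Algebra M N] [IsScalarTower k M N] (L : IntermediateField k M) :
    Module.finrank (L.map (IsScalarTower.toAlgHom k M N)) N =
      Module.finrank L M * Module.finrank M N := by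
  rw [Module.finrank_mul_finrank L M N]
  symm
  refine Algebra.finrank_eq_of_equiv_equiv
    (L.equivMap (IsScalarTower.toAlgHom k M N)).toRingEquiv
    (RingEquiv.refl N) ?_
  apply RingHom.ext
  intro x
  rfl

private theorem E7d_map {k M N : Type u} [Field k] [Field M] [Field N] [Algebra k M] [Algebra k N]
    [Algebra M N] [IsScalarTower k M N] {n : ℕ} (z : Fin n → M) :
    adjoin k (Set.range fun i => algebraMap M N (z i)) =
      (adjoin k (Set.range z)).map (IsScalarTower.toAlgHom k M N) := by
  rw [adjoin_map]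
  congr 1
  ext x
  simp

private theorem E7d_ind {k M : Type u} [Field k] [Field M] [Algebra k M] {z : Fin 6 → M}
    (htr : ((6 : ℕ) : Cardinal.{u}) ≤ Algebra.trdeg k M)
    (hz : Module.finrank (adjoin k (Set.range z)) M ≠ 0) : AlgebraicIndependent k z := by
  have : FiniteDimensional (adjoin k (Set.range z)) M :=
    Module.finite_of_finrank_pos (Nat.pos_of_ne_zero hz)
  have halgz : Algebra.IsAlgebraic (adjoin k (Set.range z)) M := Algebra.IsAlgebraic.of_finite _ _
  have : Algebra.IsAlgebraic (Algebra.adjoin k (Set.range z)) M :=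
    isAlgebraic_adjoin_iff_top.mp halgz
  have hzb : IsTranscendenceBasis k z :=
    Algebra.IsAlgebraic.isTranscendenceBasis_of_lift_le_trdeg_of_finite k z (by simpa using htr)
  exact hzb.1

/-- Row E7d. Non-proportional blocks: `iterF`, `nine` and `[M : k(x + y)] = [M : N] [N : k(x + y)]`; if the latter is
odd then `M` is finite over `k(x + y)` and `trdeg k M ≥ 6`, so `x + y` is algebraically independent. If a block of `X` is
proportional to the block of `Y` then the block of `x + y` is on the Fermat cone, so `x + y` is not algebraically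
independent, and the number is even (`S9_even`). -/
theorem pr_iff {k κ N M : Type u} [Field k] [Field κ] [Field N] [Field M] [Algebra k κ]
    [Algebra κ N] [Algebra k N] [Algebra N M] [Algebra k M] [IsScalarTower k κ N]
    [IsScalarTower k N M] [DecidableEq κ] (h2 : (2 : k) = 0) (w : k) (hw : w ^ 2 + w + 1 = 0)
    {x y : Fin 6 → M} {al be : Fin 2 → N} {X Y : Fin 2 → Fin 3 → κ}
    (h : FS k κ N M x y al be X Y) :
    Pr k (fun i => x i + y i) ↔ Odd (S9 (Qp k) (ptE (algebraMap k κ w) (X 0))
      (ptE (algebraMap k κ w) (Y 0)) (ptE (algebraMap k κ w) (X 1)) (ptE (algebraMap k κ w) (Y 1))) := by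
  set f : Fin 2 → Fin 3 → N := fun C i =>
    al C * algebraMap κ N (X C i) + be C * algebraMap κ N (Y C i) with hf
  have hu : (fun i => x i + y i) = fun i => algebraMap N M (f (cI i) (iI i)) := by
    funext i
    rw [h.hx, h.hy, hf, ← map_add]
  by_cases hXY : ∀ C, ∃ i j, X C i * Y C j ≠ X C j * Y C i
  · have h1 := iterF h2 w hw al be h.ind h.gen X Y h.hX h.hY h.z_ne hXY h.tr
    have h3 := nine h2 w hw X Y h.hX h.hY hXY
    have h4 : Module.finrank (adjoin k (Set.range fun i => x i + y i)) M =
        Module.finrank (adjoin k (Set.range fun j => f (cI j) (iI j))) N * Module.finrank N M := by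
      rw [hu, E7d_map, E7d_fr]
    have h5 : Module.finrank (adjoin k (Set.range fun j => f (cI j) (iI j))) N =
        ∑ φ : Fin 2 → Fin 3, Module.finrank (adjoin k
        (⋃ C, rt (![X C, Y C, thd (X C) (Y C)] (φ C)))) κ := by
      rw [← h1, ← E7d_range f]
    rw [← h3, Int.odd_coe_nat, ← h5]
    constructor
    · rintro ⟨-, hodd⟩
      rw [h4] at hodd
      exact (Nat.odd_mul.mp hodd).1
    · intro hodd
      have hodd2 : Odd (Module.finrank (adjoin k (Set.range fun i => x i + y i)) M) := by
        rw [h4]
        exact hodd.mul h.odd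
      refine ⟨E7d_ind ?_ hodd2.pos.ne', hodd2⟩
      have hfs : FaithfulSMul κ N :=
        (faithfulSMul_iff_algebraMap_injective κ N).mpr (algebraMap κ N).injective
      have hadd : Algebra.trdeg k κ + Algebra.trdeg κ N = Algebra.trdeg k N :=
        trdeg_add_eq k κ (A := N)
      have h6 : ((4 : ℕ) : Cardinal.{u}) ≤ Algebra.trdeg κ N := by
        have := h.ind.lift_cardinalMk_le_trdeg
        simpa using this
      have h7 : Algebra.trdeg k N ≤ Algebra.trdeg k M :=
        trdeg_le_of_injective (A' := M) (IsScalarTower.toAlgHom k N M) (algebraMap N M).injective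
      refine le_trans ?_ h7
      rw [← hadd]
      refine le_trans ?_ (add_le_add h.tr h6)
      norm_num
  · push Not at hXY
    obtain ⟨C, hC⟩ := hXY
    obtain ⟨c, hc, hXc⟩ := E7d_prop (h.X_ne C) (h.Y_ne C) hC
    have hpt : ptE (algebraMap k κ w) (X C) = ptE (algebraMap k κ w) (Y C) := by
      rw [hXc, pt_smul hc]
    constructor
    · rintro ⟨hind, -⟩
      exfalso
      rw [hu] at hind
      apply E7d_cube _ hind C
      have h1 : ∀ i : Fin 3, algebraMap N M (f (cI (E7d_ix C i)) (iI (E7d_ix C i))) =
          algebraMap N M (al C * algebraMap κ N c + be C) *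
            algebraMap N M (algebraMap κ N (Y C i)) := by
        intro i
        rw [E7d_cI, E7d_iI, ← map_mul]
        congr 1
        simp only [hf]
        rw [congrFun hXc i, map_mul]
        ring
      simp only [h1, mul_pow]
      rw [← Finset.mul_sum]
      have h2' : ∑ i, algebraMap N M (algebraMap κ N (Y C i)) ^ 3 =
          algebraMap N M (algebraMap κ N (∑ i, Y C i ^ 3)) := by
        simp only [map_sum, map_pow]
      rw [h2', h.hY, map_zero, map_zero, mul_zero]
    · intro hodd
      exfalso
      rw [← Int.not_even_iff_odd] at hodd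
      apply hodd
      have hC2 : C = 0 ∨ C = 1 := by
        clear * -
        revert C; decide
      rcases hC2 with rfl | rfl
      · rw [hpt]
        exact (S9_even h2 w hw h.tr _ _ _).1
      · rw [hpt]
        exact (S9_even h2 w hw h.tr _ _ _).2

end MP2619.Q5
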