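import Pool.Agent.Lib.MP_2619d0_ag.Q5.E7a
import Pool.Agent.Lib.MP_2619d0_ag.Q5.E7d
import Pool.Agent.Lib.MP_2619d0_ag.Q5.E5g

/-!
# Row E7g
-/

set_option autoImplicit false

namespace MP2619.Q5

universe v u

open IntermediateField MP2619.R MP2619.W

/-- Row E7g. `FD_setup`, `pr_iff` for `x` and for `tw03 w x` (`FS_tw`, `pt_tw`), `cc_points` (`adjoin_pt`). -/
theorem star_one (hE : HE.{u}) {k M : Type u} [Field k] [Field M] [Algebra k M] {w : k}
    {x y : Fin 6 → M} (hD : FD k w x y) (hp : Pr k (fun i => x i + y i)) :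
    Pr k (fun i => tw03 w x i + y i) := by
  classical
  obtain ⟨κ, N, _, _, _, _, _, _, _, _, al, be, X, Y, hF⟩ := FD_setup hD hp
  have h1 := (pr_iff hD.two w hD.om hF).1 hp
  rw [pr_iff hD.two w hD.om (FS_tw w hD.om hF)]
  have h2κ : (2 : κ) = 0 := by
    have := congrArg (algebraMap k κ) hD.two
    rwa [map_ofNat, map_zero] at this
  have hw' : algebraMap k κ w ^ 2 + algebraMap k κ w + 1 = 0 := by
    have := congrArg (algebraMap k κ) hD.om
    rwa [map_add, map_add, map_pow, map_one, map_zero] at this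
  rw [pt_tw h2κ (algebraMap k κ w) hw' (X 0) (hF.hX 0),
    pt_tw h2κ (algebraMap k κ w) hw' (X 1) (hF.hX 1)]
  have hsm : adjoin k (pf k (ptE (algebraMap k κ w) (X 0)) ∪ pf k (ptE (algebraMap k κ w) (X 1))) =
      adjoin k (rt (X 0) ∪ rt (X 1)) := by
    rw [adjoin_union, adjoin_union, adjoin_pt hD.two hD.om (hF.hX 0) (hF.X_ne 0),
      adjoin_pt hD.two hD.om (hF.hX 1) (hF.X_ne 1)]
  have h3 := cc_points hE hD.two h2κ w hD.om hw' hF.tr (ptE (algebraMap k κ w) (X 0))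
    (ptE (algebraMap k κ w) (X 1)) (ptE (algebraMap k κ w) (Y 0)) (ptE (algebraMap k κ w) (Y 1))
    (by rw [hsm]; exact hF.small)
  rw [Int.even_sub] at h3
  rw [← Int.not_even_iff_odd] at h1 ⊢
  exact fun h4 => h1 (h3.2 h4)

end MP2619.Q5
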