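import Pool.Agent.Lib.MP_2619d0_ag.Q5.CDefs

/-!
# Theorem Q5, paths: definitions
-/

set_option autoImplicit false

namespace MP2619.Q5

open scoped NNReal
open IntermediateField MP2619.R MP2619.N Pool.Agent.Lib.MP_2619d0_ag Pool.Agent.Lib.MP_2619d0_ag.T

/-- the point `G T` -/
def pt {R M : Type} [Field R] [Field M] [Algebra R M] (G : Fin 5 → Fin 5 → R) (T : Fin 5 → M) :
    Fin 5 → M := fun i => ∑ j, algebraMap R M (G i j) * T j

/-- the values of the six forms -/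
noncomputable def fe {k M : Type} [Field k] [Field M] [Algebra k M] (f : Fin 6 → MvPolynomial (Fin 5) k)
    (p : Fin 5 → M) : Fin 6 → M := fun i => MvPolynomial.aeval p (f i)

/-- `f (p + h g)` as a polynomial in `h` -/
noncomputable def tayP {k M : Type} [Field k] [Field M] [Algebra k M]
    (f : Fin 6 → MvPolynomial (Fin 5) k) (p g : Fin 5 → M) (i : Fin 6) : Polynomial M :=
  MvPolynomial.aeval (fun j => Polynomial.C (p j) + Polynomial.C (g j) * Polynomial.X) (f i)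

/-- the coefficient of `h ^ k` in `f (p + h g)` -/
noncomputable def tay {k M : Type} [Field k] [Field M] [Algebra k M]
    (f : Fin 6 → MvPolynomial (Fin 5) k) (p g : Fin 5 → M) (n : ℕ) : Fin 6 → M :=
  fun i => (tayP f p g i).coeff n

/-- the point `G (1, t) + h * (column 1 of G)` -/
def pA {R M : Type} [Field R] [Field M] [Algebra R M] (G : Fin 5 → Fin 5 → R) (t : Fin 4 → M)
    (h : M) : Fin 5 → M :=
  fun i => pt G (Fin.cons 1 t) i + h * algebraMap R M (G i 1)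

/-- the second point of path B: `G (1, t) + e g_1 + s (g_0 + t_0 g_1)` -/
def pB {R M : Type} [Field R] [Field M] [Algebra R M] (G : Fin 5 → Fin 5 → R) (e : R) (s : M)
    (t : Fin 4 → M) : Fin 5 → M :=
  fun i => pt G (Fin.cons 1 t) i + algebraMap R M (e * G i 1) +
    s * (algebraMap R M (G i 0) + t 0 * algebraMap R M (G i 1))

/-- at every point some derivative of order at most two of some `f i` is not zero -/
def Mult2 {k : Type} [Field k] (f : Fin 6 → MvPolynomial (Fin 5) k) : Prop :=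
  ∀ (K : Type) [Field K] [Algebra k K] (P0 : Fin 5 → K), P0 ≠ 0 →
    ∃ (i : Fin 6) (m : Fin 5 →₀ ℕ), m.degree ≤ 2 ∧
      MvPolynomial.coeff m (MvPolynomial.aeval
        (fun j => MvPolynomial.C (P0 j) + MvPolynomial.X j : Fin 5 → MvPolynomial (Fin 5) K)
        (f i)) ≠ 0

/-- the conclusion of the analysis of the escaping solutions: the hypotheses of `CPL` -/
def CPLD (B : Type) {N : Type} [Field B] [Field N] [Algebra B N] (x y : Fin 6 → N) : Prop :=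
  ∃ (K0 : IntermediateField B N) (b : Fin 3 → Fin 6 → K0) (c : Fin 6 → K0) (X Y : Fin 3 → N)
    (θ : N ≃ₐ[B] N), Algebra.trdeg B K0 ≤ 2 ∧ LinearIndependent N (fun k i => (b k i : N)) ∧
    c ≠ 0 ∧ x = cv (fun k i => (b k i : N)) X ∧ y = cv (fun k i => (b k i : N)) Y ∧
    qf (fun i => (c i : N)) X = 0 ∧ qf (fun i => (c i : N)) Y = 0 ∧ (∀ m ∈ K0, θ m = m) ∧
    (∀ i, θ (x i) = y i) ∧ ∀ i, θ (y i) = x i

section

variable {k0 C B M N : Type} [Field k0] [Field C] [Field B] [Field M] [Field N] [Algebra k0 C]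
  [Algebra k0 M] [Algebra C M] [Algebra B M] [Algebra C N] [Algebra B N]

/-- Path A, `ε → 0`: a discrete valuation ring `P` of `M` with residue map `φ`, invariant under the symmetry
`σ : t_0 ↦ t_0 + ε, ε ↦ -ε, α ↔ β`. `x = α f(p)`, `y = β f(p + ε g_1)`, `p = G (1, t)`. -/
structure Esc (f : Fin 6 → MvPolynomial (Fin 5) k0) (G : Fin 5 → Fin 5 → C) (ε : M)
    (t : Fin 4 → M) (α β : M) (σ : M ≃ₐ[B] M) (P : ValuationSubring M) (φ : P →+* N)
    (x y : Fin 6 → P) (w : B) (a : Fin 6) : Prop where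
  hom : ∃ d, ∀ i, (f i).IsHomogeneous d
  indG : AlgebraicIndependent k0 (fun q : Fin 5 × Fin 5 => G q.1 q.2)
  rm : RMap B P φ
  dv : DV P
  e0 : ε ≠ 0
  a0 : α ≠ 0
  b0 : β ≠ 0
  x0 : fe f (pA G t 0) ≠ 0
  x_eq : ∀ i, (x i : M) = α * fe f (pA G t 0) i
  y_eq : ∀ i, (y i : M) = β * fe f (pA G t ε) i
  s_e : σ ε = - ε
  s_0 : σ (t 0) = t 0 + ε
  s_t : ∀ j, j ≠ 0 → σ (t j) = t j
  s_a : σ α = β
  s_b : σ β = α
  eps : P.valuation ε < 1
  sig : ∀ m : M, σ m ∈ P ↔ m ∈ P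
  ind : AlgebraicIndependent B (zg w (fun i => φ (x i)) (fun i => φ (y i)) (Pi.single a 1))
  F3 : ¬ Algebra.trdeg B (rat B (fun i => φ (x i))) ≤ 2

/-- Case (ii): `f(p + h ε g) / ϖ` has the residue `A_0 + h A_1 + h² A_2`. -/
structure CaseII {P : ValuationSubring M} {φ : P →+* N} (rm : RMap C P φ)
    (Mm : IntermediateField C M) (f : Fin 6 → MvPolynomial (Fin 5) k0) (p g : Fin 5 → M) (ε ϖ : M)
    (A : Fin 3 → Fin 6 → N) : Prop where
  mem : ϖ ∈ Mm
  ne : ϖ ≠ 0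
  AK : ∀ k i, A k i ∈ resI rm Mm
  A0 : A 0 ≠ 0
  A1 : A 0 + A 1 + A 2 ≠ 0
  val : ∀ h : P, ∃ r : Fin 6 → P,
    (∀ i, (r i : M) * ϖ = fe f (fun j => p j + (h : M) * ε * g j) i) ∧
    ∀ i, φ (r i) = A 0 i + φ h * A 1 i + φ h ^ 2 * A 2 i

/-- Case (iii): cancellation; `f(p + h (ϖ/ε) g) / ϖ` has the residue `xh - h d`, `f(p + (ε + h (ϖ/ε)) g) / ϖ` has the
residue `yh + h d`, `f(p + (n ε + h (ϖ/ε)) g) / ε²` has the residue `(n² - n) d`. -/
structure CaseIII {P : ValuationSubring M} {φ : P →+* N} (rm : RMap C P φ)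
    (Mm : IntermediateField C M) (f : Fin 6 → MvPolynomial (Fin 5) k0) (p g : Fin 5 → M) (ε ϖ : M)
    (xh yh d : Fin 6 → N) : Prop where
  mem : ϖ ∈ Mm
  ne : ϖ ≠ 0
  small : P.valuation ϖ < P.valuation (ε ^ 2)
  xK : ∀ i, xh i ∈ resI rm Mm
  yK : ∀ i, yh i ∈ resI rm Mm
  dK : ∀ i, d i ∈ resI rm Mm
  x0 : xh ≠ 0
  y0 : yh ≠ 0
  d0 : d ≠ 0
  valx : ∀ h : P, ∃ r : Fin 6 → P,
    (∀ i, (r i : M) * ϖ = fe f (fun j => p j + (h : M) * (ϖ / ε) * g j) i) ∧
    ∀ i, φ (r i) = xh i - φ h * d i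
  valy : ∀ h : P, ∃ r : Fin 6 → P,
    (∀ i, (r i : M) * ϖ = fe f (fun j => p j + (ε + (h : M) * (ϖ / ε)) * g j) i) ∧
    ∀ i, φ (r i) = yh i + φ h * d i
  vald : ∀ (n : ℤ) (h : P), ∃ r : Fin 6 → P,
    (∀ i, (r i : M) * ε ^ 2 = fe f (fun j => p j + ((n : M) * ε + (h : M) * (ϖ / ε)) * g j) i) ∧
    ∀ i, φ (r i) = ((n : N) ^ 2 - (n : N)) * d i

end

/-- the field of the residues of the point `(1, t)` moved by `a'` and `a''` in the direction of `t 0` -/
def E2 (C : Type) {M : Type} [Field C] [Field M] [Algebra C M] (t : Fin 4 → M) (a' a'' : M) :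
    IntermediateField C M :=
  adjoin C ({t 0 + a', t 0 + a''} ∪ t '' {j | j ≠ 0})

/-- the tensor square -/
def sq {N : Type} [Field N] (v w : Fin 6 → N) : Fin 6 × Fin 6 → N := fun q => v q.1 * w q.2

end MP2619.Q5
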