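import Pool.Agent.Lib.MP_2619d0_ag.R.Defs
import Pool.Agent.Lib.MP_2619d0_ag.TOdd

/-!
# Row L2c
-/

set_option autoImplicit false

namespace MP2619.Q5

universe u v

open MvPolynomial MP2619.R Pool.Agent.Lib.MP_2619d0_ag Pool.Agent.Lib.MP_2619d0_ag.T MP2619.T

private theorem L2c_aux {n : ℕ} {E : Type u} [Field E] [Algebra ℂ E] (r : Fin n → E)
    (hr : AlgebraicIndependent ℂ r) (h : IntermediateField.adjoin ℂ (Set.range r) = ⊤) :
    ∃ g : FractionRing (MvPolynomial (Fin n) ℂ) ≃ₐ[ℂ] E,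
      ∀ i, g (algebraMap (MvPolynomial (Fin n) ℂ) _ (X i)) = r i := by
  refine ⟨(hr.aevalEquivField.trans (IntermediateField.equivOfEq h)).trans
    IntermediateField.topEquiv, fun i => ?_⟩
  have h1 : ((hr.aevalEquivField (algebraMap (MvPolynomial (Fin n) ℂ) _ (X i)) :
      IntermediateField.adjoin ℂ (Set.range r)) : E) = aeval r (X i) :=
    hr.aevalEquivField_algebraMap_apply_coe (X i)
  rw [aeval_X] at h1
  exact h1

/-- Row L2c. `AlgebraicIndependent.aevalEquivField` for both families and `IntermediateField.topEquiv`. -/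
theorem exists_equiv {n : ℕ} {E : Type u} {E' : Type v} [Field E] [Algebra ℂ E] [Field E']
    [Algebra ℂ E'] (r : Fin n → E) (r' : Fin n → E') (hr : AlgebraicIndependent ℂ r)
    (hr' : AlgebraicIndependent ℂ r') (h : IntermediateField.adjoin ℂ (Set.range r) = ⊤)
    (h' : IntermediateField.adjoin ℂ (Set.range r') = ⊤) :
    ∃ e : E ≃ₐ[ℂ] E', ∀ i, e (r i) = r' i := by
  obtain ⟨g, hg⟩ := L2c_aux r hr h
  obtain ⟨g', hg'⟩ := L2c_aux r' hr' h'
  refine ⟨g.symm.trans g', fun i => ?_⟩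
  rw [AlgEquiv.trans_apply, ← hg i, AlgEquiv.symm_apply_apply, hg' i]

private theorem L2c_rat_map {n : ℕ} {E : Type u} {E' : Type v} [Field E] [Algebra ℂ E] [Field E']
    [Algebra ℂ E'] (e : E ≃ₐ[ℂ] E') (x : Fin n → E) :
    (rat ℂ x).map e.toAlgHom = rat ℂ (fun i => e (x i)) := by
  unfold rat
  rw [IntermediateField.adjoin_map]
  congr 1
  ext z
  constructor
  · rintro ⟨w, ⟨i, j, rfl⟩, rfl⟩
    exact ⟨i, j, map_div₀ e (x i) (x j)⟩
  · rintro ⟨i, j, rfl⟩
    exact ⟨x i / x j, ⟨i, j, rfl⟩, map_div₀ e (x i) (x j)⟩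

/-- Row L2c. `e` maps `rat ℂ x` onto `rat ℂ (e x)`; `Algebra.finrank_eq_of_equiv_equiv`. -/
theorem finrank_rat_equiv {n : ℕ} {E : Type u} {E' : Type v} [Field E] [Algebra ℂ E] [Field E']
    [Algebra ℂ E'] (e : E ≃ₐ[ℂ] E') (x : Fin n → E) :
    Module.finrank (rat ℂ (fun i => e (x i))) E' = Module.finrank (rat ℂ x) E := by
  rw [← L2c_rat_map e x]
  symm
  refine Algebra.finrank_eq_of_equiv_equiv
    (IntermediateField.intermediateFieldMap e (rat ℂ x)).toRingEquiv e.toRingEquiv ?_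
  ext z
  rfl

/-- Row L2c. -/
theorem HG_equiv {n : ℕ} {E : Type u} {E' : Type v} [Field E] [Algebra ℂ E] [Field E']
    [Algebra ℂ E'] (e : E ≃ₐ[ℂ] E') {F : MvPolynomial (Fin n) ℂ} (x : Fin n → E) (h : HG F x) :
    HG F (fun i => e (x i)) := by
  intro d G hG
  rw [← h d G hG]
  have h0 : aeval (fun i => e (x i)) = (e : E →ₐ[ℂ] E').comp (aeval x) := by
    ext i
    simp
  have h1 : aeval (fun i => e (x i)) G = e (aeval x G) := by rw [h0]; rfl
  rw [h1, map_eq_zero_iff e e.injective]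

end MP2619.Q5
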