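import Pool.Agent.Lib.MP_2619d0_ag.Q5.L6
import Pool.Agent.Lib.MP_2619d0_ag.Q5.L2b
import Pool.Agent.Lib.MP_2619d0_ag.Q5.L2c
import Pool.Agent.Lib.MP_2619d0_ag.Q5.GDefs

/-!
# Row L7
-/

set_option autoImplicit false

namespace MP2619.Q5

universe u

open MvPolynomial MP2619.R MP2619.N Pool.Agent.Lib.MP_2619d0_ag
  Pool.Agent.Lib.MP_2619d0_ag.T MP2619.T

/-- Row L7. Let `f' i = aeval (fun j => ∑ l, C (G j l) * X l) (f i)` (forms of degree `d`, `aeval f' F = 0`) and
`p' = G⁻¹ p` (so `aeval p' (f' i) = aeval p (f i)`). `exists_ratE` for `f'`, `p'`: `E`, `r`. `Kt = adjoin ℂ (Set.range t)` with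
`t' i = ⟨t i, _⟩`: `t'` is algebraically independent (`hv`), generates `Kt`. `exists_equiv`, `finrank_rat_equiv`, `HG_equiv`: the vector
`X i = aeval (Fin.cons 1 t') (f' i)` in `Kt` is generic (`HG`) and `[Kt : rat X]` is odd. `prime_F` (for `f`, `p`) and `pr_one`; and
`fe f (pt G (Fin.cons 1 t)) i = (X i : Ω)`. -/
theorem pr_of_L {F : MvPolynomial (Fin 6) ℂ} (hF : VG F) (f : Fin 6 → MvPolynomial (Fin 5) ℂ)
    {d : ℕ} (hd : ∀ i, (f i).IsHomogeneous d) (h0 : aeval f F = 0) {L : Type u} [Field L]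
    [Algebra ℂ L] (p : Fin 5 → L) (hx : HG F (fun j => aeval p (f j)))
    (hodd : Odd (Module.finrank (ratioField (fun j => aeval p (f j))) L)) {Ω : Type} [Field Ω]
    [Algebra ℂ Ω] (t : Fin 4 → Ω) (α β : Ω)
    (hv : AlgebraicIndependent ℂ (Fin.cons α (Fin.cons β t) : Fin 6 → Ω))
    (hgen : IntermediateField.adjoin ℂ (Set.range (Fin.cons α (Fin.cons β t) : Fin 6 → Ω)) = ⊤)
    (G : Fin 5 → Fin 5 → ℂ) (hG : (Matrix.of G).det ≠ 0) (w : ℂ) (hw : w ^ 2 + w + 1 = 0)
    (a : Fin 6) :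
    Pr ℂ (zg w (fun i => α * fe f (pt G (Fin.cons 1 t)) i)
      (fun i => β * fe f (pt G (Fin.cons 1 t)) i) (Pi.single a 1)) := by
  classical
  -- the linear substitution
  let lin : Fin 5 → MvPolynomial (Fin 5) ℂ := fun j => ∑ l, C (G j l) * X l
  have hlin : ∀ j, (lin j).IsHomogeneous 1 := by
    intro j
    refine IsHomogeneous.sum _ _ _ fun l _ => ?_
    have h1 := (isHomogeneous_C (Fin 5) (G j l)).mul (isHomogeneous_X ℂ l)
    rwa [zero_add] at h1
  let f' : Fin 6 → MvPolynomial (Fin 5) ℂ := fun i => aeval lin (f i)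
  have hd' : ∀ i, (f' i).IsHomogeneous d := by
    intro i
    have h1 := (hd i).aeval lin hlin
    rwa [one_mul] at h1
  -- the point
  let Gi : Matrix (Fin 5) (Fin 5) ℂ := (Matrix.of G)⁻¹
  let p' : Fin 5 → L := fun j => ∑ l, algebraMap ℂ L (Gi j l) * p l
  have hGG : Matrix.of G * Gi = 1 := Matrix.mul_nonsing_inv _ (isUnit_iff_ne_zero.2 hG)
  have hev : ∀ j, aeval p' (lin j) = p j := by
    intro j
    have h1 : aeval p' (lin j) = ∑ l, algebraMap ℂ L (G j l) * ∑ k, algebraMap ℂ L (Gi l k) * p k := by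
      change aeval p' (∑ l, C (G j l) * X l) = _
      rw [map_sum]
      refine Finset.sum_congr rfl fun l _ => ?_
      rw [map_mul, aeval_C, aeval_X]
    rw [h1]
    have h2 : ∑ l, algebraMap ℂ L (G j l) * ∑ k, algebraMap ℂ L (Gi l k) * p k =
        ∑ k, algebraMap ℂ L (∑ l, G j l * Gi l k) * p k := by
      simp only [Finset.mul_sum]
      rw [Finset.sum_comm]
      refine Finset.sum_congr rfl fun k _ => ?_
      rw [map_sum, Finset.sum_mul]
      refine Finset.sum_congr rfl fun l _ => ?_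
      rw [map_mul, mul_assoc]
    rw [h2]
    have h3 : ∀ k, ∑ l, G j l * Gi l k = (1 : Matrix (Fin 5) (Fin 5) ℂ) j k := by
      intro k
      rw [← hGG, Matrix.mul_apply]
      rfl
    simp only [h3, Matrix.one_apply]
    rw [Finset.sum_eq_single j]
    · rw [if_pos rfl, map_one, one_mul]
    · intro k _ hk
      rw [if_neg (Ne.symm hk), map_zero, zero_mul]
    · intro h
      exact absurd (Finset.mem_univ j) h
  have hf' : (fun i => aeval p' (f' i)) = fun i => aeval p (f i) := by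
    funext i
    change aeval p' (aeval lin (f i)) = _
    rw [MvPolynomial.comp_aeval_apply]
    simp only [hev]
  have hx' : HG F (fun j => aeval p' (f' j)) := by
    rw [hf']
    exact hx
  have hodd' : Odd (Module.finrank (ratioField (fun j => aeval p' (f' j))) L) := by
    rw [hf']
    exact hodd
  obtain ⟨E, _, _, r, hr, hrgen, hHG, hoddE⟩ := exists_ratE hF f' hd' p' hx' hodd'
  -- the field `ℂ(t)`
  let Kt : IntermediateField ℂ Ω := IntermediateField.adjoin ℂ (Set.range t)
  let t' : Fin 4 → Kt := fun i => ⟨t i, IntermediateField.subset_adjoin _ _ ⟨i, rfl⟩⟩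
  have ht' : AlgebraicIndependent ℂ t' := by
    have h1 : AlgebraicIndependent ℂ t := hv.comp (fun i : Fin 4 => i.succ.succ)
      (fun i j h => Fin.succ_injective _ (Fin.succ_injective _ h))
    exact AlgebraicIndependent.of_comp Kt.val h1
  have ht'gen : IntermediateField.adjoin ℂ (Set.range t') = ⊤ := by
    apply IntermediateField.lift_injective Kt
    rw [IntermediateField.lift_adjoin, IntermediateField.lift_top]
    change IntermediateField.adjoin ℂ _ = IntermediateField.adjoin ℂ (Set.range t)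
    congr 1
    ext z
    constructor
    · rintro ⟨_, ⟨i, rfl⟩, rfl⟩
      exact ⟨i, rfl⟩
    · rintro ⟨i, rfl⟩
      exact ⟨_, ⟨i, rfl⟩, rfl⟩
  obtain ⟨e, he⟩ := exists_equiv r t' hr ht' hrgen ht'gen
  let X' : Fin 6 → Kt := fun i => aeval (Fin.cons 1 t' : Fin 5 → Kt) (f' i)
  have heX : (fun i => e (aeval (Fin.cons 1 r : Fin 5 → E) (f' i))) = X' := by
    funext i
    have h1 := MvPolynomial.comp_aeval_apply (Fin.cons 1 r : Fin 5 → E) (e : E →ₐ[ℂ] Kt) (f' i)
    have h2 : (fun j => (e : E →ₐ[ℂ] Kt) ((Fin.cons 1 r : Fin 5 → E) j)) =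
        (Fin.cons 1 t' : Fin 5 → Kt) := by
      funext j
      refine Fin.cases ?_ (fun j => ?_) j
      · rw [Fin.cons_zero, Fin.cons_zero, map_one]
      · rw [Fin.cons_succ, Fin.cons_succ]
        exact he j
    rw [h2] at h1
    exact h1
  have hXHG : HG F X' := by
    rw [← heX]
    exact HG_equiv e _ hHG
  have hXodd : Odd (Module.finrank (rat ℂ X') Kt) := by
    rw [← heX, finrank_rat_equiv]
    exact hoddE
  have h := pr_one hF (prime_F hF f hd h0 p hx) t α β hv hgen X' hXHG hXodd w hw a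
  have hXe : ∀ i, (X' i : Ω) = fe f (pt G (Fin.cons 1 t)) i := by
    intro i
    change Kt.val (aeval (Fin.cons 1 t' : Fin 5 → Kt) (aeval lin (f i))) =
      aeval (pt G (Fin.cons 1 t)) (f i)
    rw [MvPolynomial.comp_aeval_apply, MvPolynomial.comp_aeval_apply]
    have h2 : (fun j => aeval (fun l => Kt.val ((Fin.cons 1 t' : Fin 5 → Kt) l)) (lin j)) =
        pt G (Fin.cons 1 t) := by
      funext j
      change aeval (fun l => Kt.val ((Fin.cons 1 t' : Fin 5 → Kt) l)) (∑ l, C (G j l) * X l) =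
        ∑ l, algebraMap ℂ Ω (G j l) * (Fin.cons 1 t : Fin 5 → Ω) l
      rw [map_sum]
      refine Finset.sum_congr rfl fun l _ => ?_
      rw [map_mul, aeval_C, aeval_X]
      congr 1
      refine Fin.cases ?_ (fun l => ?_) l
      · rw [Fin.cons_zero, Fin.cons_zero, map_one]
      · rw [Fin.cons_succ, Fin.cons_succ]
        rfl
    rw [h2]
  simp only [hXe] at h
  exact h

end MP2619.Q5
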