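import Pool.Agent.Lib.MP_2619d0_ag.Q5.GDefs
import Pool.Agent.Lib.MP_2619d0_ag.TOdd

/-!
Row 2619q5-MDefs: definitions for the assembly
-/

set_option autoImplicit false

namespace MP2619.Q5

open scoped NNReal
open IntermediateField MP2619.R MP2619.N Pool.Agent.Lib.MP_2619d0_ag Pool.Agent.Lib.MP_2619d0_ag.T

/-- the statement for the generic point of `ℙ⁴ × 𝔸²` over `ℂ` (row L: `pr_of_L`) -/
def PrAll (f : Fin 6 → MvPolynomial (Fin 5) ℂ) : Prop :=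
  ∀ (Ω : Type) [Field Ω] [Algebra ℂ Ω] (t : Fin 4 → Ω) (α β : Ω),
    AlgebraicIndependent ℂ (Fin.cons α (Fin.cons β t) : Fin 6 → Ω) →
    adjoin ℂ (Set.range (Fin.cons α (Fin.cons β t) : Fin 6 → Ω)) = ⊤ →
    ∀ G : Fin 5 → Fin 5 → ℂ, (Matrix.of G).det ≠ 0 → ∀ w : ℂ, w ^ 2 + w + 1 = 0 → ∀ a : Fin 6,
      Pr ℂ (zg w (fun i => α * fe f (pt G (Fin.cons 1 t)) i)
        (fun i => β * fe f (pt G (Fin.cons 1 t)) i) (Pi.single a 1))

/-- (a) at every point of `ℙ⁴` some derivative of order at most two of some `f i` is not zero -/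
def MultC (f : Fin 6 → MvPolynomial (Fin 5) ℂ) : Prop :=
  ∀ P0 : Fin 5 → ℂ, P0 ≠ 0 → ∃ (i : Fin 6) (m : Fin 5 →₀ ℕ), m.degree ≤ 2 ∧
    MvPolynomial.coeff m (MvPolynomial.aeval
      (fun j => MvPolynomial.C (P0 j) + MvPolynomial.X j : Fin 5 → MvPolynomial (Fin 5) ℂ)
      (f i)) ≠ 0

end MP2619.Q5
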