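import Pool.Agent.Lib.MP_2619d0_ag.Q5.N5b
import Pool.Agent.Lib.MP_2619d0_ag.Q5.MDefs
import Pool.Agent.Lib.MP_2619d0_ag.Q3.Final
import Pool.Agent.Lib.MP_2619d0_ag.N.S8c
import Pool.Agent.Lib.MP_2619d0_ag.N.Main

/-!
Row N5: forms of degree at most five with a base point of multiplicity at least three.
-/

set_option autoImplicit false

namespace MP2619.Q5

universe u

open MvPolynomial Pool.Agent.Lib.MP_2619d0_ag Pool.Agent.Lib.MP_2619d0_ag.T MP2619.T MP2619.R

open scoped IntermediateField.algebraAdjoinAdjoin in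
private theorem N5_trdeg {k : Type} {L : Type u} [Field k] [Field L] [Algebra k L] (S : Set L) :
    Algebra.trdeg k (IntermediateField.adjoin k S) ≤ Cardinal.mk S := by
  have h1 : Algebra.trdeg k (Algebra.adjoin k S) ≤ Cardinal.mk S := by
    have h2 : Function.Surjective (MvPolynomial.aeval (fun s : S =>
        (⟨s.1, Algebra.subset_adjoin s.2⟩ : Algebra.adjoin k S)) :
          MvPolynomial S k →ₐ[k] Algebra.adjoin k S) := by
      rw [← AlgHom.range_eq_top, ← Algebra.adjoin_range_eq_range_aeval, eq_top_iff]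
      rintro ⟨y, hy⟩ _
      have h3 : (Algebra.adjoin k (Set.range fun s : S =>
        (⟨s.1, Algebra.subset_adjoin s.2⟩ : Algebra.adjoin k S))).map
          (Algebra.adjoin k S).val = Algebra.adjoin k S := by
        rw [AlgHom.map_adjoin]
        congr 1
        ext z
        constructor
        · rintro ⟨_, ⟨s, rfl⟩, rfl⟩
          exact s.2
        · intro hz
          exact ⟨_, ⟨⟨z, hz⟩, rfl⟩, rfl⟩
      have h4 := hy
      rw [← h3] at h4
      obtain ⟨y', hy', hyy⟩ := h4
      have : y' = ⟨y, hy⟩ := Subtype.ext hyy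
      rw [← this]
      exact hy'
    have h3 := trdeg_le_of_surjective _ h2
    rwa [MvPolynomial.trdeg_of_isDomain, Cardinal.lift_id'.{0, u}] at h3
  have h2 := trdeg_add_eq k (Algebra.adjoin k S) (A := IntermediateField.adjoin k S)
  have h3 : Algebra.trdeg (Algebra.adjoin k S) (IntermediateField.adjoin k S) = 0 := by
    rw [trdeg_eq_zero_iff]
    infer_instance
  rw [h3, add_zero] at h2
  rw [← h2]
  exact h1

/-- `final` without the factor `𝔸^r` -/
private theorem N5_final {N e : ℕ} {F : MvPolynomial (Fin 6) ℂ} (hF : VG F) {E L : Type u}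
    [Field E] [Field L] [Algebra ℂ E] [Algebra ℂ L] [Algebra E L] [IsScalarTower ℂ E L]
    (φ : Fin 6 → MvPolynomial (Fin N) E) (hφ : ∀ j, (φ j).IsHomogeneous e)
    (h0 : aeval φ F = 0) (he : e ≤ 2) (p : Fin N → L) (hx : HG F (fun j => aeval p (φ j)))
    (hE : Algebra.trdeg ℂ E < ((4 : ℕ) : Cardinal.{u})) :
    ¬ Odd (Module.finrank (ratioField (fun j => aeval p (φ j))) L) := by
  have hNS : MP2619.N.NoSum.{u} F := MP2619.N.noSum (by omega) hF
  have h1 := MP2619.Q3.final (m := 4) (r := 0) (by omega) hF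
    (MP2619.N.thirdOdd_of_noSum (m := 4) (by omega) hF hNS) φ hφ h0 (Or.inl he) p
    (fun j => aeval p (φ j)) rfl hx hE Fin.elim0
    (algebraicIndependent_empty_type_iff.2 (FaithfulSMul.algebraMap_injective _ _))
  have h2 : IntermediateField.adjoin (ratioField (fun j => aeval p (φ j)))
      (Set.range (Fin.elim0 : Fin 0 → L)) = ⊥ := by
    rw [Set.range_eq_empty, IntermediateField.adjoin_empty]
  rw [h2, IntermediateField.finrank_bot'] at h1
  exact h1

/-- the case `e ≤ 2` -/
private theorem N5_low {F : MvPolynomial (Fin 6) ℂ} (hF : VG F)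
    (f : Fin 6 → MvPolynomial (Fin 5) ℂ) {e : ℕ} (he : e ≤ 2) (hd : ∀ i, (f i).IsHomogeneous e)
    (h0 : aeval f F = 0) {L : Type u} [Field L] [Algebra ℂ L] (p : Fin 5 → L)
    (hx : HG F (fun j => aeval p (f j))) :
    ¬ Odd (Module.finrank (ratioField (fun j => aeval p (f j))) L) := by
  let E : IntermediateField ℂ L := ⊥
  let ι : MvPolynomial (Fin 5) ℂ →ₐ[ℂ] MvPolynomial (Fin 5) E :=
    MvPolynomial.mapAlgHom (Algebra.ofId ℂ E)
  have hι : ∀ g, aeval p (ι g) = aeval p g := by
    intro g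
    have h1 : ((aeval p : MvPolynomial (Fin 5) E →ₐ[E] L).restrictScalars ℂ).comp ι =
        (aeval p : MvPolynomial (Fin 5) ℂ →ₐ[ℂ] L) := by
      apply MvPolynomial.algHom_ext
      intro i
      simp [ι]
    exact DFunLike.congr_fun h1 g
  have h1 := N5_final hF (E := E) (L := L) (fun j => ι (f j)) (fun j => (hd j).map _)
    (by
      have h2 : aeval (fun j => ι (f j)) F = ι (aeval f F) := by
        rw [MvPolynomial.comp_aeval_apply]
      rw [h2, h0, map_zero]) he p (by simp only [hι]; exact hx)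
    (by
      have h3 : Algebra.trdeg ℂ E = 0 := by
        rw [trdeg_eq_zero_iff]
        infer_instance
      rw [h3]
      exact_mod_cast (by norm_num : (0 : ℕ) < 4))
  have h4 : (fun j => aeval p (ι (f j))) = fun j => aeval p (f j) := funext fun j => hι _
  rw [h4] at h1
  exact h1

/-- the field generated by the ratios -/
private theorem N5_field {L : Type u} [Field L] [Algebra ℂ L] (Y : Fin 5 → L) {l k : Fin 5}
    (hlk : l ≠ k) (hYl : Y l = 0) (hk : Y k ≠ 0) : ∃ E : IntermediateField ℂ L,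
      Algebra.trdeg ℂ E < ((4 : ℕ) : Cardinal.{u}) ∧ ∀ j, Y j / Y k ∈ E := by
  classical
  have hcard : (Finset.univ \ {l, k} : Finset (Fin 5)).card = 3 := by
    rw [Finset.card_sdiff_of_subset (Finset.subset_univ _), Finset.card_pair hlk]
    rfl
  obtain ⟨eq3, -⟩ : ∃ q : (Finset.univ \ {l, k} : Finset (Fin 5)) ≃ Fin 3, q = q :=
    ⟨Finset.equivFinOfCardEq hcard, rfl⟩
  refine ⟨IntermediateField.adjoin ℂ (Set.range (fun i : Fin 3 => Y (eq3.symm i).1 / Y k)), ?_, ?_⟩
  · refine lt_of_le_of_lt (N5_trdeg _) ?_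
    have h1 : Cardinal.mk (Set.range (fun i : Fin 3 => Y (eq3.symm i).1 / Y k)) ≤
        ((3 : ℕ) : Cardinal.{u}) := by
      have h2 := Cardinal.mk_range_le_lift (f := fun i : Fin 3 => Y (eq3.symm i).1 / Y k)
      simpa using h2
    refine h1.trans_lt ?_
    exact_mod_cast (by norm_num : (3 : ℕ) < 4)
  · intro j
    by_cases h1 : j = l
    · rw [h1, hYl, zero_div]
      exact zero_mem _
    by_cases h2 : j = k
    · rw [h2, div_self hk]
      exact one_mem _
    have h3 : j ∈ (Finset.univ \ {l, k} : Finset (Fin 5)) := by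
      simp [h1, h2]
    refine IntermediateField.subset_adjoin _ _ ⟨eq3 ⟨j, h3⟩, ?_⟩
    simp only [Equiv.symm_apply_apply]

/-- Forms of degree at most five with a base point of multiplicity at least three: with `p = s P0 + Y_k y`,
`y_l = 0`, `y_k = 1`, the forms are `Y_k³` times quadratic forms in `(s, Y_k)` over `E = ℂ(y)`, of transcendence degree at
most three, and `final` applies. -/
theorem deg5 {F : MvPolynomial (Fin 6) ℂ} (hF : VG F) (f : Fin 6 → MvPolynomial (Fin 5) ℂ)
    {e : ℕ} (he : e ≤ 5) (hd : ∀ i, (f i).IsHomogeneous e) (h0 : aeval f F = 0) (hM : ¬ MultC f)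
    {L : Type u} [Field L] [Algebra ℂ L] (p : Fin 5 → L)
    (hx : HG F (fun j => aeval p (f j))) :
    ¬ Odd (Module.finrank (ratioField (fun j => aeval p (f j))) L) := by
  classical
  by_cases he3 : e ≤ 2
  · exact N5_low hF f he3 hd h0 p hx
  have he3 : 3 ≤ e := by omega
  have hM' : ∃ P0 : Fin 5 → ℂ, P0 ≠ 0 ∧ ∀ (i : Fin 6) (m : Fin 5 →₀ ℕ), m.degree ≤ 2 →
      MvPolynomial.coeff m (MvPolynomial.aeval
      (fun j => MvPolynomial.C (P0 j) + MvPolynomial.X j : Fin 5 → MvPolynomial (Fin 5) ℂ)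
      (f i)) = 0 := by
    by_contra hne
    apply hM
    intro P0 hP0
    by_contra hne2
    apply hne
    refine ⟨P0, hP0, fun i m hm => ?_⟩
    by_contra hne3
    exact hne2 ⟨i, m, hm, hne3⟩
  obtain ⟨P0, hP0, hm⟩ := hM'
  have hx0 : aeval p (f 0) ≠ 0 := HG_zero (m := 4) hF hx
  obtain ⟨l, hl⟩ : ∃ l, P0 l ≠ 0 := by
    by_contra hne
    push Not at hne
    exact hP0 (funext hne)
  have hl' : algebraMap ℂ L (P0 l) ≠ 0 := by
    rw [Ne, map_eq_zero]
    exact hl
  obtain ⟨s, hs⟩ : ∃ s, s = p l / algebraMap ℂ L (P0 l) := ⟨_, rfl⟩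
  obtain ⟨Y, hY⟩ : ∃ Y : Fin 5 → L, Y = fun j => p j - s * algebraMap ℂ L (P0 j) := ⟨_, rfl⟩
  have hYl : Y l = 0 := by
    rw [hY, hs]
    field_simp
    ring
  -- some `Y k` is not zero
  obtain ⟨k, hk⟩ : ∃ k, Y k ≠ 0 := by
    by_contra hne
    push Not at hne
    apply hx0
    obtain ⟨φ, -, hφ⟩ := N5b_form (E := L) (f 0) he3 (hd 0) P0 (hm 0) 0
    have h1 := congrArg (fun q => aeval (![s, 0] : Fin 2 → L) q) hφ
    simp only [map_mul, map_pow, aeval_X] at h1
    have h2 : aeval (![s, 0] : Fin 2 → L) (aeval (fun j => C (algebraMap ℂ L (P0 j)) * X 0 +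
        C ((0 : Fin 5 → L) j) * X 1 : Fin 5 → MvPolynomial (Fin 2) L) (f 0)) = aeval p (f 0) := by
      have h3 : ((aeval (![s, 0] : Fin 2 → L) : MvPolynomial (Fin 2) L →ₐ[L] L).restrictScalars
          ℂ).comp (aeval (fun j => C (algebraMap ℂ L (P0 j)) * X 0 +
            C ((0 : Fin 5 → L) j) * X 1 : Fin 5 → MvPolynomial (Fin 2) L)) =
          (aeval p : MvPolynomial (Fin 5) ℂ →ₐ[ℂ] L) := by
        apply MvPolynomial.algHom_ext
        intro j
        have h4 := hne j
        rw [hY] at h4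
        simp
        linear_combination -h4
      exact DFunLike.congr_fun h3 (f 0)
    rw [h2] at h1
    rw [← h1]
    simp
  have hlk : l ≠ k := by
    rintro rfl
    exact hk hYl
  obtain ⟨E, hE, hmem⟩ := N5_field Y hlk hYl hk
  have hform := fun i => N5b_form (E := E) (f i) he3 (hd i) P0 (hm i) (fun j => ⟨Y j / Y k, hmem j⟩)
  choose φ hφ1 hφ2 using hform
  have hφ0 : aeval φ F = 0 := by
    have h1 : aeval (fun i => (X 1 ^ 3 : MvPolynomial (Fin 2) E) * φ i) F =
        (X 1 ^ 3) ^ 3 * aeval φ F := aeval_smul_hom hF.1 _ _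
    have h2 : aeval (fun i => (X 1 ^ 3 : MvPolynomial (Fin 2) E) * φ i) F = 0 := by
      simp only [hφ2]
      rw [← MvPolynomial.comp_aeval_apply, h0, map_zero]
    rw [h2] at h1
    rcases mul_eq_zero.1 h1.symm with h3 | h3
    · exact absurd h3 (pow_ne_zero _ (pow_ne_zero _ (X_ne_zero _)))
    · exact h3
  have hev : ∀ i, Y k ^ 3 * aeval (![s, Y k] : Fin 2 → L) (φ i) = aeval p (f i) := by
    intro i
    have h1 := congrArg (fun q => aeval (![s, Y k] : Fin 2 → L) q) (hφ2 i)
    simp only [map_mul, map_pow, aeval_X] at h1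
    have h2 : aeval (![s, Y k] : Fin 2 → L) (aeval (fun j => C (algebraMap ℂ E (P0 j)) * X 0 +
        C (⟨Y j / Y k, hmem j⟩ : E) * X 1 : Fin 5 → MvPolynomial (Fin 2) E) (f i)) =
        aeval p (f i) := by
      have h3 : ((aeval (![s, Y k] : Fin 2 → L) : MvPolynomial (Fin 2) E →ₐ[E] L).restrictScalars
          ℂ).comp (aeval (fun j => C (algebraMap ℂ E (P0 j)) * X 0 +
            C (⟨Y j / Y k, hmem j⟩ : E) * X 1 : Fin 5 → MvPolynomial (Fin 2) E)) =
          (aeval p : MvPolynomial (Fin 5) ℂ →ₐ[ℂ] L) := by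
        apply MvPolynomial.algHom_ext
        intro j
        have h4 : Y j = p j - s * algebraMap ℂ L (P0 j) := by rw [hY]
        have h5 : algebraMap E L (algebraMap ℂ E (P0 j)) = algebraMap ℂ L (P0 j) := rfl
        have h6 : algebraMap E L (⟨Y j / Y k, hmem j⟩ : E) = Y j / Y k := rfl
        simp only [AlgHom.coe_comp, Function.comp_apply, aeval_X, AlgHom.coe_restrictScalars',
          map_add, map_mul, algHom_C, h6, Matrix.cons_val_zero, Matrix.cons_val_one]
        rw [h5, div_mul_cancel₀ _ hk, h4]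
        ring
      exact DFunLike.congr_fun h3 (f i)
    rw [h2] at h1
    simpa using h1
  have hk3 : Y k ^ 3 ≠ 0 := pow_ne_zero _ hk
  have hx' : (fun i => aeval (![s, Y k] : Fin 2 → L) (φ i)) =
      fun i => (Y k ^ 3)⁻¹ * (fun j => aeval p (f j)) i := by
    funext i
    simp only [← hev i]
    rw [inv_mul_cancel_left₀ hk3]
  have hHG : HG F (fun i => aeval (![s, Y k] : Fin 2 → L) (φ i)) := by
    rw [hx']
    exact HG_smul hx _ (inv_ne_zero hk3)
  have h1 := N5_final hF φ hφ1 hφ0 (by omega) (![s, Y k] : Fin 2 → L) hHG hE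
  rw [hx', ratioField_smul' _ (inv_ne_zero hk3)] at h1
  exact h1

end MP2619.Q5
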