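import Pool.Agent.Lib.MP_2619d0_ag.Q5.MDefs

/-!
Row N5a: from `ℂ` to all extensions of `k0` (Nullstellensatz).
-/

set_option autoImplicit false

namespace MP2619.Q5

private theorem N5a_map {k A B : Type} [Field k] [CommRing A] [CommRing B] [Algebra k A]
    [Algebra k B] (φ : A →ₐ[k] B) (P : Fin 5 → A) (p : MvPolynomial (Fin 5) k) :
    MvPolynomial.map (φ : A →+* B) (MvPolynomial.aeval
      (fun j => MvPolynomial.C (P j) + MvPolynomial.X j : Fin 5 → MvPolynomial (Fin 5) A) p) =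
      MvPolynomial.aeval
        (fun j => MvPolynomial.C (φ (P j)) + MvPolynomial.X j : Fin 5 → MvPolynomial (Fin 5) B)
        p := by
  have h : (MvPolynomial.mapAlgHom φ).comp (MvPolynomial.aeval
      (fun j => MvPolynomial.C (P j) + MvPolynomial.X j : Fin 5 → MvPolynomial (Fin 5) A)) =
      (MvPolynomial.aeval
        (fun j => MvPolynomial.C (φ (P j)) + MvPolynomial.X j : Fin 5 → MvPolynomial (Fin 5) B) :
        MvPolynomial (Fin 5) k →ₐ[k] MvPolynomial (Fin 5) B) := by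
    apply MvPolynomial.algHom_ext
    intro j
    simp [MvPolynomial.mapAlgHom_apply]
  exact DFunLike.congr_fun h p

private theorem N5a_hom {k A : Type} [Field k] [CommRing A] [Nontrivial A] [Algebra k A]
    [Algebra.FiniteType k A] [Algebra k ℂ] : Nonempty (A →ₐ[k] ℂ) := by
  obtain ⟨m, hm⟩ := Ideal.exists_maximal A
  let _ : Field (A ⧸ m) := Ideal.Quotient.field m
  have hft : Algebra.FiniteType k (A ⧸ m) :=
    Algebra.FiniteType.of_surjective (Ideal.Quotient.mkₐ k m) (Ideal.Quotient.mkₐ_surjective k m)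
  have hfin : Module.Finite k (A ⧸ m) := finite_of_finite_type_of_isJacobsonRing k (A ⧸ m)
  have halg : Algebra.IsAlgebraic k (A ⧸ m) := Algebra.IsAlgebraic.of_finite k (A ⧸ m)
  exact ⟨(IsAlgClosed.lift : (A ⧸ m) →ₐ[k] ℂ).comp (Ideal.Quotient.mkₐ k m)⟩

/-- Let `K` be an extension field of `k0`, `P0 ∈ K⁵`, `P0 j0 ≠ 0`, with all coefficients zero. `A` = the subalgebra of
`K` generated over `k0` by the `P0 j` and `(P0 j0)⁻¹`: a finitely generated non-zero `k0`-algebra. For a maximal ideal `𝔪` of `A`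
(`Ideal.exists_maximal`) `A/𝔪` is finite over `k0` (Zariski's lemma, `finite_of_finite_type_of_isJacobsonRing`), so
there is a `k0`-homomorphism `A/𝔪 → ℂ` (`IsAlgClosed.lift`) and `g : A →ₐ[k0] ℂ`. `P1 j = g (P0 j)`; `P1 j0 ≠ 0` because
`P0 j0` is a unit of `A`. By `h` some coefficient of degree `≤ 2` of `aeval (C (P1 j) + X j) (map f0 i)` is not zero; it is
`g` of the same coefficient of `aeval (C (P0 j) + X j) (f0 i)` over `A` (`MvPolynomial.map`, `aeval` commute), so that one is not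
zero, and `A → K` is injective. -/
theorem mult2_of_C {k0 : Type} [Field k0] [Algebra k0 ℂ] (f0 : Fin 6 → MvPolynomial (Fin 5) k0)
    (h : MultC (fun i => MvPolynomial.map (algebraMap k0 ℂ) (f0 i))) : Mult2 f0 := by
  classical
  intro K _ _ P0 hP0
  obtain ⟨j0, hj0⟩ : ∃ j, P0 j ≠ 0 := Function.ne_iff.1 hP0
  let A : Subalgebra k0 K := Algebra.adjoin k0 (Set.range P0 ∪ {(P0 j0)⁻¹})
  have hP : ∀ j, P0 j ∈ A := fun j => Algebra.subset_adjoin (Or.inl ⟨j, rfl⟩)
  have hQ : (P0 j0)⁻¹ ∈ A := Algebra.subset_adjoin (Or.inr rfl)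
  have hft : Algebra.FiniteType k0 A :=
    A.fg_iff_finiteType.1 (Subalgebra.fg_def.2
      ⟨_, (Set.finite_range P0).union (Set.finite_singleton _), rfl⟩)
  obtain ⟨g⟩ : Nonempty (A →ₐ[k0] ℂ) := N5a_hom
  let PA : Fin 5 → A := fun j => ⟨P0 j, hP j⟩
  have hP1 : (fun j => g (PA j)) ≠ 0 := by
    intro h0
    have h1 : PA j0 * (⟨(P0 j0)⁻¹, hQ⟩ : A) = 1 := Subtype.ext (mul_inv_cancel₀ hj0)
    have h2 := congrArg g h1
    rw [map_mul, map_one, show g (PA j0) = 0 from congrFun h0 j0, zero_mul] at h2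
    exact zero_ne_one h2
  obtain ⟨i, m, hm, hc⟩ := h _ hP1
  refine ⟨i, m, hm, fun h0 => hc ?_⟩
  have e1 := N5a_map g PA (f0 i)
  have e2 := N5a_map A.val PA (f0 i)
  have h1 : MvPolynomial.coeff m (MvPolynomial.aeval
      (fun j => MvPolynomial.C (PA j) + MvPolynomial.X j : Fin 5 → MvPolynomial (Fin 5) A)
      (f0 i)) = 0 := by
    have h2 := congrArg (MvPolynomial.coeff m) e2
    rw [MvPolynomial.coeff_map] at h2
    exact Subtype.ext (h2.trans h0)
  rw [MvPolynomial.aeval_map_algebraMap, ← e1, MvPolynomial.coeff_map, h1, map_zero]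

end MP2619.Q5
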