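import Pool.Agent.Lib.MP_2619d0_ag.Q5.M13
import Pool.Agent.Lib.MP_2619d0_ag.Q5.R2
import Pool.Agent.Lib.MP_2619d0_ag.Q5.L7
import Pool.Agent.Lib.MP_2619d0_ag.Q5.N5a
import Pool.Agent.Lib.MP_2619d0_ag.Q5.N5

/-!
# Theorem Q5: parametrisations of a very general cubic fourfold by forms of degree at most five
-/

set_option autoImplicit false

namespace MP2619.Q5

open MvPolynomial MP2619.R MP2619.N Pool.Agent.Lib.MP_2619d0_ag
  Pool.Agent.Lib.MP_2619d0_ag.T MP2619.T

universe u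

theorem R2E_holds : R2E := by
  intro k M _ _ _ w x y h2 hw hx hy hr j
  exact (c2_zero_iff h2 hw x y).1 (R2C_holds k M w x y h2 hw hx hy hr) j

theorem q5_final {F : MvPolynomial (Fin 6) ℂ} (hF : VG F) (f : Fin 6 → MvPolynomial (Fin 5) ℂ)
    {e : ℕ} (hd : ∀ i, (f i).IsHomogeneous e) (h0 : aeval f F = 0) (hc : e ≤ 5 ∨ MultC f)
    {L : Type u} [Field L] [Algebra ℂ L] (p : Fin 5 → L) (hx : HG F (fun j => aeval p (f j))) :
    ¬ Odd (Module.finrank (ratioField (fun j => aeval p (f j))) L) := by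
  intro hodd
  by_cases hm : MultC f
  · have hf : ∃ i, f i ≠ 0 := by
      obtain ⟨i, m, -, h⟩ := hm (fun _ => 1) (fun h => one_ne_zero (congrFun h 0))
      exact ⟨i, fun h1 => h (by rw [h1, map_zero, coeff_zero])⟩
    exact q5_core R2E_holds hF f hd hf h0 hm (fun k0 _ _ f0 _ h => mult2_of_C f0 h)
      (fun Ω _ _ t α β hv hgen G hG w hw a =>
        pr_of_L hF f hd h0 p hx hodd t α β hv hgen G hG w hw a)
  · exact deg5 hF f (hc.resolve_right hm) hd h0 hm p hx hodd

end MP2619.Q5
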