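import Pool.Agent.Lib.MP_2619d0_ag.Q5.GDefs

/-!
Row 2619q5-G5: values and Taylor coefficients of forms
-/

set_option autoImplicit false

namespace MP2619.Q5

open scoped NNReal
open IntermediateField MP2619.R MP2619.N Pool.Agent.Lib.MP_2619d0_ag Pool.Agent.Lib.MP_2619d0_ag.T

variable {k M N : Type} [Field k] [Field M] [Field N] [Algebra k M] [Algebra k N]
  (f : Fin 6 → MvPolynomial (Fin 5) k)

theorem fe_smul {d : ℕ} (hd : ∀ i, (f i).IsHomogeneous d) (c : M) (p : Fin 5 → M) (i : Fin 6) :
    fe f (fun j => c * p j) i = c ^ d * fe f p i := by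
  unfold fe
  rw [MvPolynomial.aeval_def, MvPolynomial.aeval_def, MvPolynomial.eval₂_eq',
    MvPolynomial.eval₂_eq', Finset.mul_sum]
  refine Finset.sum_congr rfl fun m hm => ?_
  have h1 : m.degree = d := by
    by_contra h
    exact (MvPolynomial.mem_support_iff.1 hm) ((hd i).coeff_eq_zero h)
  have h2 : ∏ j, c ^ m j = c ^ d := by
    rw [Finset.prod_pow_eq_pow_sum, ← h1, Finsupp.degree_eq_sum]
  rw [← h2]
  simp only [mul_pow, Finset.prod_mul_distrib]
  ring

theorem fe_eval (p g : Fin 5 → M) (h : M) (i : Fin 6) :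
    fe f (fun j => p j + h * g j) i = (tayP f p g i).eval h := by
  unfold fe tayP
  have h1 := MvPolynomial.comp_aeval_apply (R := k)
    (fun j => Polynomial.C (p j) + Polynomial.C (g j) * Polynomial.X)
    ((Polynomial.aeval h : Polynomial M →ₐ[M] M).restrictScalars k) (f i)
  have h2 : ∀ q : Polynomial M, ((Polynomial.aeval h : Polynomial M →ₐ[M] M).restrictScalars k) q =
      Polynomial.eval h q := fun q => by
    rw [AlgHom.restrictScalars_apply, Polynomial.coe_aeval_eq_eval]
  rw [← h2, h1]
  congr 2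
  funext j
  rw [h2, Polynomial.eval_add, Polynomial.eval_mul, Polynomial.eval_C, Polynomial.eval_C,
    Polynomial.eval_X, mul_comm]

theorem tay_zero (p g : Fin 5 → M) : tay f p g 0 = fe f p := by
  funext i
  unfold tay
  rw [Polynomial.coeff_zero_eq_eval_zero, ← fe_eval]
  simp

private def G5_j {P : ValuationSubring M} {φ : P →+* N} (rm : RMap k P φ) : k →+* P :=
  (algebraMap k M).codRestrict P rm.cst

theorem fe_res {P : ValuationSubring M} {φ : P →+* N} (rm : RMap k P φ) (p : Fin 5 → P)
    (i : Fin 6) : ∃ a : P, (a : M) = fe f (fun j => (p j : M)) i ∧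
      φ a = fe f (fun j => φ (p j)) i := by
  refine ⟨MvPolynomial.eval₂ (G5_j rm) p (f i), ?_, ?_⟩
  · have h1 := MvPolynomial.hom_eval₂ (f i) (G5_j rm) P.subtype p
    exact h1
  · have h1 := MvPolynomial.hom_eval₂ (f i) (G5_j rm) φ p
    rw [h1]
    unfold fe
    rw [MvPolynomial.aeval_def]
    congr 1
    ext c
    exact rm.alg c

private theorem G5_map {A : Type} [CommRing A] (j : k →+* A) (p g : Fin 5 → A) (h : A →+* M)
    (hh : h.comp j = algebraMap k M) (i : Fin 6) :
    (MvPolynomial.eval₂ (Polynomial.C.comp j)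
      (fun l => Polynomial.C (p l) + Polynomial.C (g l) * Polynomial.X) (f i)).map h =
      tayP f (fun l => h (p l)) (fun l => h (g l)) i := by
  have h1 := MvPolynomial.hom_eval₂ (f i) (Polynomial.C.comp j) (Polynomial.mapRingHom h)
    (fun l => Polynomial.C (p l) + Polynomial.C (g l) * Polynomial.X)
  rw [← Polynomial.coe_mapRingHom, h1]
  unfold tayP
  rw [MvPolynomial.aeval_def]
  congr 1
  · ext c : 1
    have h2 : algebraMap k (Polynomial M) c = Polynomial.C (algebraMap k M c) := rfl
    rw [h2, ← hh]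
    simp
  · funext l
    simp

theorem tay_res {P : ValuationSubring M} {φ : P →+* N} (rm : RMap k P φ) (p g : Fin 5 → P)
    (n : ℕ) (i : Fin 6) : ∃ a : P, (a : M) = tay f (fun j => (p j : M)) (fun j => (g j : M)) n i ∧
      φ a = tay f (fun j => φ (p j)) (fun j => φ (g j)) n i := by
  refine ⟨(MvPolynomial.eval₂ (Polynomial.C.comp (G5_j rm))
    (fun l => Polynomial.C (p l) + Polynomial.C (g l) * Polynomial.X) (f i)).coeff n, ?_, ?_⟩
  · have h1 := G5_map f (G5_j rm) p g P.subtype rfl i
    unfold tay
    have h2 := congrArg (fun q => Polynomial.coeff q n) h1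
    simp only [Polynomial.coeff_map] at h2
    exact h2
  · have h1 := G5_map f (G5_j rm) p g φ (by ext c; exact rm.alg c) i
    unfold tay
    have h2 := congrArg (fun q => Polynomial.coeff q n) h1
    simp only [Polynomial.coeff_map] at h2
    exact h2

theorem tay_mem (E : IntermediateField k M) (p g : Fin 5 → M) (hp : ∀ j, p j ∈ E)
    (hg : ∀ j, g j ∈ E) (n : ℕ) (i : Fin 6) : tay f p g n i ∈ E := by
  have h1 := G5_map f (algebraMap k E) (fun j => ⟨p j, hp j⟩) (fun j => ⟨g j, hg j⟩)
    (algebraMap E M) rfl i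
  have h2 := congrArg (fun q => Polynomial.coeff q n) h1
  simp only [Polynomial.coeff_map] at h2
  unfold tay
  have h3 : tayP f p g i = tayP f (fun l => algebraMap E M ⟨p l, hp l⟩)
    (fun l => algebraMap E M ⟨g l, hg l⟩) i := rfl
  rw [h3, ← h2]
  exact Subtype.property _

theorem fe_mem (E : IntermediateField k M) (p : Fin 5 → M) (hp : ∀ j, p j ∈ E) (i : Fin 6) :
    fe f p i ∈ E := by
  rw [← tay_zero f p p]
  exact tay_mem f E p p hp hp 0 i

/-- `f (p' + h g)`, `p' = p + e g`: the polynomial is the composition with `X + e`; so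
`tay f (p + e g) g 1 i = (derivative (tayP f p g i)).eval e`. -/
theorem tay_one (p g : Fin 5 → M) (e : M) (i : Fin 6) :
    tay f (fun j => p j + e * g j) g 1 i = (Polynomial.derivative (tayP f p g i)).eval e := by
  have h1 : tayP f (fun j => p j + e * g j) g i =
      (tayP f p g i).comp (Polynomial.X + Polynomial.C e) := by
    unfold tayP
    have h2 := MvPolynomial.comp_aeval_apply (R := k)
      (fun j => Polynomial.C (p j) + Polynomial.C (g j) * Polynomial.X)
      ((Polynomial.aeval (Polynomial.X + Polynomial.C e) :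
        Polynomial M →ₐ[M] Polynomial M).restrictScalars k) (f i)
    have h3 : ∀ q : Polynomial M, ((Polynomial.aeval (Polynomial.X + Polynomial.C e) :
        Polynomial M →ₐ[M] Polynomial M).restrictScalars k) q =
        q.comp (Polynomial.X + Polynomial.C e) := fun q => rfl
    rw [← h3, h2]
    congr 2
    funext j
    rw [h3]
    simp
    ring
  unfold tay
  rw [h1]
  have h4 : ∀ q : Polynomial M, q.coeff 1 = (Polynomial.derivative q).eval 0 := by
    intro q
    rw [← Polynomial.coeff_zero_eq_eval_zero, Polynomial.coeff_derivative]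
    simp
  rw [h4, Polynomial.derivative_comp]
  simp

end MP2619.Q5
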