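import Pool.Agent.Lib.MP_2619d0_ag.Q5.G1
import Pool.Agent.Lib.MP_2619d0_ag.Q5.G5
import Pool.Agent.Lib.MP_2619d0_ag.Q5.G6

/-!
Row 2619q5-G10b: case (iii)
-/

set_option autoImplicit false

namespace MP2619.Q5

open scoped NNReal
open IntermediateField MP2619.R MP2619.N Pool.Agent.Lib.MP_2619d0_ag Pool.Agent.Lib.MP_2619d0_ag.T

variable {k0 C M N : Type} [Field k0] [Field C] [Field M] [Field N] [Algebra k0 C]
  [Algebra k0 M] [Algebra k0 N] [Algebra C M] [Algebra C N] [IsScalarTower k0 C M]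
  [IsScalarTower k0 C N] {P : ValuationSubring M} {φ : P →+* N}

omit [Algebra k0 C] [Algebra k0 M] [Algebra k0 N] [Algebra C M] [Algebra C N]
  [IsScalarTower k0 C M] [IsScalarTower k0 C N] in
private theorem G10b_eval_mem (Ψ : Polynomial M) (hΨ : ∀ n, Ψ.coeff n ∈ P) (u : M) (hu : u ∈ P) :
    Ψ.eval u ∈ P := by
  rw [Polynomial.eval_eq_sum_range]
  exact sum_mem fun n _ => mul_mem (hΨ n) (pow_mem hu n)

omit [Algebra k0 C] [Algebra k0 M] [Algebra k0 N] [Algebra C M] [Algebra C N]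
  [IsScalarTower k0 C M] [IsScalarTower k0 C N] in
private theorem G10b_exp2 (Ψ : Polynomial M) (hΨ : ∀ n, Ψ.coeff n ∈ P) (u : M) (hu : u ∈ P) :
    ∃ r : P, Ψ.eval u = Ψ.coeff 0 + Ψ.coeff 1 * u + u ^ 2 * (r : M) := by
  refine ⟨⟨Ψ.divX.divX.eval u, G10b_eval_mem _ (fun n => ?_) u hu⟩, ?_⟩
  · rw [Polynomial.coeff_divX, Polynomial.coeff_divX]
    exact hΨ _
  · have h1 := congrArg (Polynomial.eval u) (Polynomial.divX_mul_X_add Ψ)
    have h2 := congrArg (Polynomial.eval u) (Polynomial.divX_mul_X_add Ψ.divX)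
    simp only [Polynomial.eval_add, Polynomial.eval_mul, Polynomial.eval_X, Polynomial.eval_C,
      Polynomial.coeff_divX, zero_add] at h1 h2
    rw [← h1, ← h2]
    ring

omit [Algebra k0 C] [Algebra k0 M] [Algebra k0 N] [Algebra C M] [Algebra C N]
  [IsScalarTower k0 C M] [IsScalarTower k0 C N] in
private theorem G10b_exp3 (Ψ : Polynomial M) (hΨ : ∀ n, Ψ.coeff n ∈ P) (u : M) (hu : u ∈ P) :
    ∃ r : P, Ψ.eval u = Ψ.coeff 0 + Ψ.coeff 1 * u + Ψ.coeff 2 * u ^ 2 + u ^ 3 * (r : M) := by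
  obtain ⟨r, hr⟩ := G10b_exp2 Ψ.divX (fun n => by
    rw [Polynomial.coeff_divX]
    exact hΨ _) u hu
  refine ⟨r, ?_⟩
  have h1 := congrArg (Polynomial.eval u) (Polynomial.divX_mul_X_add Ψ)
  simp only [Polynomial.eval_add, Polynomial.eval_mul, Polynomial.eval_X, Polynomial.eval_C] at h1
  rw [← h1, hr]
  simp only [Polynomial.coeff_divX, zero_add]
  norm_num
  ring

omit [Algebra k0 C] [Algebra k0 M] [Algebra k0 N] [Algebra C M] [Algebra C N]
  [IsScalarTower k0 C M] [IsScalarTower k0 C N] in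
/-- the expansion at the distance `h ϖ / ε` -/
private theorem G10b_val (Ψ : Polynomial M) (hΨ : ∀ n, Ψ.coeff n ∈ P)
    (ε ϖ : M) (he0 : ε ≠ 0) (ζ η : P) (hζ : (ζ : M) * ε ^ 2 = ϖ)
    (hη : (η : M) * ε = ϖ) (hζ0 : φ ζ = 0) (s0 s1 : P) (h0 : (s0 : M) * ϖ = Ψ.coeff 0)
    (h1 : (s1 : M) * ε = Ψ.coeff 1) (h : P) :
    ∃ r : P, (r : M) * ϖ = Ψ.eval ((h : M) * (ϖ / ε)) ∧ φ r = φ s0 + φ h * φ s1 := by
  have hϖ : ϖ / ε = (η : M) := by
    rw [← hη]
    field_simp
  have hηζ : (η : M) = (ζ : M) * ε := by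
    have h2 : (η : M) * ε = ((ζ : M) * ε) * ε := by
      rw [hη, ← hζ]
      ring
    exact mul_right_cancel₀ he0 h2
  obtain ⟨r, hr⟩ := G10b_exp3 Ψ hΨ ((h : M) * (ϖ / ε)) (by
    rw [hϖ]
    exact mul_mem h.2 η.2)
  let b2 : P := ⟨Ψ.coeff 2, hΨ 2⟩
  refine ⟨s0 + s1 * h + b2 * h ^ 2 * ζ + h ^ 3 * ζ * η * r, ?_, ?_⟩
  · rw [hr, hϖ, ← h0, ← h1]
    push_cast
    change ((s0 : M) + s1 * h + Ψ.coeff 2 * (h : M) ^ 2 * ζ + (h : M) ^ 3 * ζ * η * r) * ϖ = _
    rw [← hη, hηζ]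
    ring
  · rw [map_add, map_add, map_add, map_mul φ s1, map_mul φ _ ζ, map_mul φ _ r, map_mul φ _ η,
      map_mul φ _ ζ, hζ0]
    ring

/-- `d i = φ (tay 2 i)`, `xh i = φ (r0 i)`, `yh i = φ (re i)`, `η = ϖ / ε`, `η / ε = ϖ / ε ^ 2` is in the maximal ideal.
`valx`: `f(p + h η g) = tay 0 + tay 1 h η + tay 2 (h η) ^ 2 + ..`, divided by `ϖ`: `r0 + (tay 1 / ε) h + ..`, the other terms
contain `η ^ 2 / ϖ = ϖ / ε ^ 2`. `valy`: the same at `p' = p + ε g`; `tay f p' g 1 = (derivative).eval ε` (`tay_one`)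
`= tay 1 + 2 tay 2 ε + O(ε^2)`, divided by `ε`: `- d + 2 d = d`. `vald`: `f(p + (n ε + h η) g) / ε^2 = tay 0 / ε^2 +
(tay 1 / ε) (n + h η / ε) + tay 2 (n + h η / ε)^2 + O(ε)`. -/
theorem mk_caseIII (rm : RMap C P φ) (Mm : IntermediateField C M)
    (f : Fin 6 → MvPolynomial (Fin 5) k0) (p g : Fin 5 → P) (ε ϖ : M)
    (hp : ∀ j, (p j : M) ∈ Mm) (hg : ∀ j, (g j : M) ∈ Mm) (he : ε ∈ Mm) (he0 : ε ≠ 0)
    (hev : P.valuation ε < 1) (hm : ϖ ∈ Mm) (hne : ϖ ≠ 0)
    (hs : P.valuation ϖ < P.valuation (ε ^ 2)) (r0 r1 r2 re : Fin 6 → P)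
    (h0 : ∀ i, (r0 i : M) * ϖ = fe f (fun j => (p j : M)) i) (h00 : ∃ i, φ (r0 i) ≠ 0)
    (h1 : ∀ i, (r1 i : M) * ε = tay f (fun j => (p j : M)) (fun j => (g j : M)) 1 i)
    (h2 : ∀ i, (r2 i : M) = tay f (fun j => (p j : M)) (fun j => (g j : M)) 2 i)
    (h12 : ∀ i, φ (r1 i) = - φ (r2 i)) (h20 : ∃ i, φ (r2 i) ≠ 0)
    (h3 : ∀ i, (re i : M) * ϖ = fe f (fun j => (p j : M) + ε * (g j : M)) i)
    (h30 : ∃ i, φ (re i) ≠ 0) :
    ∃ xh yh d, CaseIII rm Mm f (fun j => (p j : M)) (fun j => (g j : M)) ε ϖ xh yh d := by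
  have rm0 : RMap k0 P φ := rm.restrict
  have heP : ε ∈ P := (P.valuation_le_one_iff _).1 hev.le
  have hφe : φ ⟨ε, heP⟩ = 0 := (rm.zero _).2 hev
  -- the small elements
  have hv0 : P.valuation (ε ^ 2) ≠ 0 := by
    rw [Ne, map_eq_zero]
    exact pow_ne_zero 2 he0
  have hζv : P.valuation (ϖ / ε ^ 2) < 1 := by
    rw [map_div₀]
    exact (div_lt_one₀ (zero_lt_iff.2 hv0)).2 hs
  let ζ : P := ⟨ϖ / ε ^ 2, (P.valuation_le_one_iff _).1 hζv.le⟩
  have hζ0 : φ ζ = 0 := (rm.zero _).2 hζv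
  have hζ : (ζ : M) * ε ^ 2 = ϖ := div_mul_cancel₀ _ (pow_ne_zero 2 he0)
  let η : P := ζ * ⟨ε, heP⟩
  have hη : (η : M) * ε = ϖ := by
    change (ζ : M) * ε * ε = ϖ
    rw [← hζ]
    ring
  have hηε : ϖ / ε = (ζ : M) * ε := by
    rw [← hζ]
    field_simp
  -- the coefficients
  have hco : ∀ (q : Fin 5 → P) (i : Fin 6) (n : ℕ),
      (tayP f (fun j => (q j : M)) (fun j => (g j : M)) i).coeff n ∈ P := by
    intro q i n
    obtain ⟨b, hb, -⟩ := tay_res f rm0 q g n i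
    have : (tayP f (fun j => (q j : M)) (fun j => (g j : M)) i).coeff n = (b : M) := hb.symm
    rw [this]
    exact b.2
  let p' : Fin 5 → P := fun j => p j + ⟨ε, heP⟩ * g j
  have hp' : ∀ j, (p' j : M) = (p j : M) + ε * (g j : M) := fun j => rfl
  -- the first coefficient at the second point
  have hs1 : ∀ i, ∃ s1 : P, (s1 : M) * ε =
      (tayP f (fun j => (p' j : M)) (fun j => (g j : M)) i).coeff 1 ∧ φ s1 = φ (r2 i) := by
    intro i
    have ht := tay_one f (fun j => (p j : M)) (fun j => (g j : M)) ε i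
    obtain ⟨r, hr⟩ := G10b_exp2 (P := P)
      (Polynomial.derivative (tayP f (fun j => (p j : M)) (fun j => (g j : M)) i)) (fun n => by
        rw [Polynomial.coeff_derivative]
        refine mul_mem (hco p i _) ?_
        exact add_mem (natCast_mem P n) (one_mem P)) ε heP
    refine ⟨r1 i + 2 * r2 i + ⟨ε, heP⟩ * r, ?_, ?_⟩
    · have ht' : (tayP f (fun j => (p' j : M)) (fun j => (g j : M)) i).coeff 1 =
          (Polynomial.derivative (tayP f (fun j => (p j : M)) (fun j => (g j : M)) i)).eval ε := ht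
      have e1 : (tayP f (fun j => (p j : M)) (fun j => (g j : M)) i).coeff 1 = (r1 i : M) * ε :=
        (h1 i).symm
      have e2 : (tayP f (fun j => (p j : M)) (fun j => (g j : M)) i).coeff 2 = (r2 i : M) :=
        (h2 i).symm
      rw [ht', hr, Polynomial.coeff_derivative, Polynomial.coeff_derivative]
      norm_num
      rw [e1, e2]
      have e3 : ((2 : P) : M) = 2 := rfl
      rw [e3]
      ring
    · rw [map_add, map_add, map_mul, map_mul, map_ofNat, hφe, h12]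
      ring
  choose s1 hs1a hs1b using hs1
  -- membership
  have hfe : ∀ (q : Fin 5 → M) (_ : ∀ j, q j ∈ Mm) (i : Fin 6), fe f q i ∈ Mm := fun q hq i =>
    fe_mem f (Mm.restrictScalars k0) q hq i
  have hr0 : ∀ i, (r0 i : M) ∈ Mm := by
    intro i
    have : (r0 i : M) = fe f (fun j => (p j : M)) i / ϖ := by
      rw [← h0 i]
      field_simp
    rw [this]
    exact div_mem (hfe _ hp i) hm
  have hre : ∀ i, (re i : M) ∈ Mm := by
    intro i
    have : (re i : M) = fe f (fun j => (p j : M) + ε * (g j : M)) i / ϖ := by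
      rw [← h3 i]
      field_simp
    rw [this]
    exact div_mem (hfe _ (fun j => add_mem (hp j) (mul_mem he (hg j))) i) hm
  have hr2 : ∀ i, (r2 i : M) ∈ Mm := by
    intro i
    rw [h2 i]
    exact tay_mem f (Mm.restrictScalars k0) _ _ hp hg 2 i
  refine ⟨fun i => φ (r0 i), fun i => φ (re i), fun i => φ (r2 i),
    { mem := hm
      ne := hne
      small := hs
      xK := fun i => ⟨r0 i, hr0 i, rfl⟩
      yK := fun i => ⟨re i, hre i, rfl⟩
      dK := fun i => ⟨r2 i, hr2 i, rfl⟩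
      x0 := ?_
      y0 := ?_
      d0 := ?_
      valx := ?_
      valy := ?_
      vald := ?_ }⟩
  · obtain ⟨i, hi⟩ := h00
    exact fun h => hi (congrFun h i)
  · obtain ⟨i, hi⟩ := h30
    exact fun h => hi (congrFun h i)
  · obtain ⟨i, hi⟩ := h20
    exact fun h => hi (congrFun h i)
  · intro h
    have key : ∀ i, ∃ r : P, (r : M) * ϖ =
        (tayP f (fun j => (p j : M)) (fun j => (g j : M)) i).eval ((h : M) * (ϖ / ε)) ∧
        φ r = φ (r0 i) + φ h * φ (r1 i) := by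
      intro i
      refine G10b_val _ (hco p i) ε ϖ he0 ζ η hζ hη hζ0 (r0 i) (r1 i) ?_ (h1 i) h
      rw [h0 i, ← tay_zero]
      rfl
    choose r hra hrb using key
    refine ⟨r, fun i => ?_, fun i => ?_⟩
    · rw [hra, ← fe_eval]
    · rw [hrb, h12]
      ring
  · intro h
    have key : ∀ i, ∃ r : P, (r : M) * ϖ =
        (tayP f (fun j => (p' j : M)) (fun j => (g j : M)) i).eval ((h : M) * (ϖ / ε)) ∧
        φ r = φ (re i) + φ h * φ (s1 i) := by
      intro i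
      refine G10b_val _ (hco p' i) ε ϖ he0 ζ η hζ hη hζ0 (re i) (s1 i) ?_ (hs1a i) h
      rw [h3 i]
      have h4 := congrFun (tay_zero f (fun j => (p' j : M)) (fun j => (g j : M))) i
      exact h4.symm
    choose r hra hrb using key
    refine ⟨r, fun i => ?_, fun i => ?_⟩
    · rw [hra, ← fe_eval]
      congr 1
      funext j
      rw [hp']
      ring
    · rw [hrb, hs1b]
  · intro n h
    have key : ∀ i, ∃ r : P, (r : M) * ε ^ 2 =
        (tayP f (fun j => (p j : M)) (fun j => (g j : M)) i).eval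
          ((n : M) * ε + (h : M) * (ϖ / ε)) ∧
        φ r = ((n : N) ^ 2 - (n : N)) * φ (r2 i) := by
      intro i
      have hnP : ((n : P) : M) = (n : M) := by push_cast; rfl
      obtain ⟨r, hr⟩ := G10b_exp3 _ (hco p i) ((n : M) * ε + (h : M) * (ϖ / ε)) (by
        rw [hηε]
        refine add_mem (mul_mem ?_ heP) (mul_mem h.2 (mul_mem ζ.2 heP))
        rw [← hnP]
        exact (n : P).2)
      refine ⟨r0 i * ζ + r1 i * ((n : P) + h * ζ) + r2 i * ((n : P) + h * ζ) ^ 2 +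
        ⟨ε, heP⟩ * ((n : P) + h * ζ) ^ 3 * r, ?_, ?_⟩
      · have e0 : (tayP f (fun j => (p j : M)) (fun j => (g j : M)) i).coeff 0 =
            (r0 i : M) * ((ζ : M) * ε ^ 2) := by
          rw [hζ, h0 i]
          exact congrFun (tay_zero f (fun j => (p j : M)) (fun j => (g j : M))) i
        have e1 : (tayP f (fun j => (p j : M)) (fun j => (g j : M)) i).coeff 1 =
            (r1 i : M) * ε := (h1 i).symm
        have e2 : (tayP f (fun j => (p j : M)) (fun j => (g j : M)) i).coeff 2 = (r2 i : M) :=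
          (h2 i).symm
        rw [hr, e0, e1, e2, hηε]
        push_cast
        ring
      · simp only [map_add, map_mul, map_pow, map_intCast, hζ0, hφe, h12]
        ring
    choose r hra hrb using key
    refine ⟨r, fun i => ?_, fun i => hrb i⟩
    rw [hra, ← fe_eval]

end MP2619.Q5
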