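import Pool.Agent.Lib.MP_2619d0_ag.Q5.G10a
import Pool.Agent.Lib.MP_2619d0_ag.Q5.G10b

/-!
Row 2619q5-G10: the three cases
-/

set_option autoImplicit false

namespace MP2619.Q5

open scoped NNReal
open IntermediateField MP2619.R MP2619.N Pool.Agent.Lib.MP_2619d0_ag Pool.Agent.Lib.MP_2619d0_ag.T

private theorem G10_fe_mem {k0 C M : Type} [Field k0] [Field C] [Field M] [Algebra k0 C]
    [Algebra k0 M] [Algebra C M] [IsScalarTower k0 C M] {P : ValuationSubring M}
    {Mm : IntermediateField C M} {f : Fin 6 → MvPolynomial (Fin 5) k0} {p : Fin 5 → P}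
    (hp : ∀ j, (p j : M) ∈ Mm) (i : Fin 6) : fe f (fun j => (p j : M)) i ∈ Mm :=
  fe_mem f (Mm.restrictScalars k0) _ hp i

private theorem G10_taylor {k M : Type} [Field k] [Field M] [Algebra k M] {P : ValuationSubring M}
    (f : Fin 6 → MvPolynomial (Fin 5) k) (p g : Fin 5 → M)
    (hc : ∀ n i, tay f p g n i ∈ P) (ε : M) (he : ε ∈ P) (i : Fin 6) :
    ∃ R ∈ P, fe f (fun j => p j + ε * g j) i =
      fe f p i + tay f p g 1 i * ε + tay f p g 2 i * ε ^ 2 + R * ε ^ 3 := by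
  refine ⟨(tayP f p g i).divX.divX.divX.eval ε, ?_, ?_⟩
  · rw [Polynomial.eval_eq_sum_range]
    refine sum_mem fun n _ => mul_mem ?_ (pow_mem he n)
    rw [Polynomial.coeff_divX, Polynomial.coeff_divX, Polynomial.coeff_divX]
    exact hc _ i
  · rw [fe_eval, ← tay_zero f p g]
    have h : ∀ q : Polynomial M, q.eval ε = q.coeff 0 + q.divX.eval ε * ε := by
      intro q
      conv_lhs => rw [← Polynomial.divX_mul_X_add q]
      rw [Polynomial.eval_add, Polynomial.eval_mul, Polynomial.eval_X, Polynomial.eval_C]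
      ring
    rw [h (tayP f p g i), h (tayP f p g i).divX, h (tayP f p g i).divX.divX]
    simp only [Polynomial.coeff_divX, tay]
    ring

variable {k0 C M N : Type} [Field k0] [Field C] [Field M] [Field N] [Algebra k0 C]
  [Algebra k0 M] [Algebra k0 N] [Algebra C M] [Algebra C N] [IsScalarTower k0 C M]
  [IsScalarTower k0 C N] {P : ValuationSubring M} {φ : P →+* N}

/-- Let `v = P.valuation`, `W` = maximum of the `v (f i (p))` = maximum of the `v (f i (p + ε g))` (`heq`), `ϖ = f i (p)` with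
`v ϖ = W ≠ 0`; `a1`, `a2` = maxima of `v (tay 1 i)`, `v (tay 2 i)` (`≤ 1`; `a1 = 1` or (`a1 < 1` and `a2 = 1`) by `hmu`, `tay_res`),
`m = max (a1 * v ε) (a2 * v ε ^ 2)`, so `m ≥ v ε ^ 2`, and the terms `tay k * ε ^ k`, `k ≥ 3`, have `v ≤ v ε ^ 3 < m`.
`f(p + ε g) = f(p) + tay 1 ε + tay 2 ε^2 + ..`. If `W > m`: first alternative. If `W = m`: `mk_caseII`.
If `W < m`: then `v (tay 1 i ε + tay 2 i ε^2) < m` for all `i`; so `a1 * v ε = a2 * v ε ^ 2` (otherwise the maximum would be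
attained by one of the two vectors only), `a1 = a2 * v ε < 1`, so `a2 = 1`, `a1 = v ε`, `m = v ε ^ 2`; the residue of
`tay 1 i / ε + tay 2 i` is zero: `mk_caseIII`. -/
theorem three_cases (rm : RMap C P φ) (Mm : IntermediateField C M)
    (f : Fin 6 → MvPolynomial (Fin 5) k0) (p g : Fin 5 → P) (ε : M)
    (hp : ∀ j, (p j : M) ∈ Mm) (hg : ∀ j, (g j : M) ∈ Mm) (he : ε ∈ Mm) (he0 : ε ≠ 0)
    (hev : P.valuation ε < 1) (hz : fe f (fun j => φ (p j)) = 0)
    (hmu : tay f (fun j => φ (p j)) (fun j => φ (g j)) 1 ≠ 0 ∨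
      tay f (fun j => φ (p j)) (fun j => φ (g j)) 2 ≠ 0)
    (h0 : fe f (fun j => (p j : M)) ≠ 0)
    (heq : ∀ c : M, c ≠ 0 → ((∀ i, fe f (fun j => (p j : M)) i / c ∈ P) ↔
      ∀ i, fe f (fun j => (p j : M) + ε * (g j : M)) i / c ∈ P)) :
    (∃ (ϖ : M) (r r' : Fin 6 → P), ϖ ≠ 0 ∧
      (∀ i, (r i : M) * ϖ = fe f (fun j => (p j : M)) i) ∧
      (∀ i, (r' i : M) * ϖ = fe f (fun j => (p j : M) + ε * (g j : M)) i) ∧
      (∀ i, φ (r i) = φ (r' i)) ∧ ∃ i, φ (r i) ≠ 0) ∨
    (∃ ϖ A, CaseII rm Mm f (fun j => (p j : M)) (fun j => (g j : M)) ε ϖ A) ∨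
    (∃ ϖ xh yh d, CaseIII rm Mm f (fun j => (p j : M)) (fun j => (g j : M)) ε ϖ xh yh d) := by
  classical
  have rm0 : RMap k0 P φ := rm.restrict
  set v := P.valuation with hv
  -- the coefficients
  have hc : ∀ n i, tay f (fun j => (p j : M)) (fun j => (g j : M)) n i ∈ P := by
    intro n i
    obtain ⟨b, hb, -⟩ := tay_res f rm0 p g n i
    rw [← hb]
    exact b.2
  have heP : ε ∈ P := (P.valuation_le_one_iff _).1 hev.le
  obtain ⟨A, hA⟩ : ∃ A : Fin 6 → M, A = fe f (fun j => (p j : M)) := ⟨_, rfl⟩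
  obtain ⟨B, hB⟩ : ∃ B : Fin 6 → M, B = fe f (fun j => (p j : M) + ε * (g j : M)) := ⟨_, rfl⟩
  obtain ⟨t1, ht1⟩ : ∃ t : Fin 6 → M, t = tay f (fun j => (p j : M)) (fun j => (g j : M)) 1 :=
    ⟨_, rfl⟩
  obtain ⟨t2, ht2⟩ : ∃ t : Fin 6 → M, t = tay f (fun j => (p j : M)) (fun j => (g j : M)) 2 :=
    ⟨_, rfl⟩
  have hR : ∀ i, ∃ R ∈ P, B i = A i + t1 i * ε + t2 i * ε ^ 2 + R * ε ^ 3 := by
    intro i
    rw [hA, hB, ht1, ht2]
    exact G10_taylor f _ _ hc ε heP i
  choose R hRP hRe using hR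
  have ht1P : ∀ i, t1 i ∈ P := fun i => by rw [ht1]; exact hc 1 i
  have ht2P : ∀ i, t2 i ∈ P := fun i => by rw [ht2]; exact hc 2 i
  have le1 : ∀ x, x ∈ P → v x ≤ 1 := fun x hx => (P.valuation_le_one_iff x).2 hx
  have mem : ∀ x, v x ≤ 1 → x ∈ P := fun x hx => (P.valuation_le_one_iff x).1 hx
  have hve0 : 0 < v ε := by
    rw [pos_iff_ne_zero, Valuation.ne_zero_iff]
    exact he0
  have hve2 : 0 < v (ε ^ 2) := by
    rw [map_pow]
    exact pow_pos hve0 2
  have he32 : v (ε ^ 3) < v (ε ^ 2) := by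
    rw [map_pow, map_pow, pow_succ]
    exact mul_lt_of_lt_one_right (pow_pos hve0 2) hev
  have he21 : v (ε ^ 2) < v ε := by
    rw [map_pow, pow_two]
    exact mul_lt_of_lt_one_right hve0 hev
  -- the maxima
  obtain ⟨i0, hi0⟩ := Finite.exists_max (fun i => v (A i))
  obtain ⟨i1, hi1⟩ := Finite.exists_max (fun i => v (B i))
  obtain ⟨j1, hj1⟩ := Finite.exists_max (fun i => v (t1 i))
  obtain ⟨j2, hj2⟩ := Finite.exists_max (fun i => v (t2 i))
  set ϖ : M := A i0 with hϖ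
  have hϖ0 : ϖ ≠ 0 := by
    intro h
    apply h0
    rw [← hA]
    funext i
    have h1 := hi0 i
    change v (A i) ≤ v ϖ at h1
    rw [h, map_zero] at h1
    exact (Valuation.zero_iff v).1 (le_antisymm h1 zero_le)
  have hvϖ : 0 < v ϖ := by
    rw [pos_iff_ne_zero, Valuation.ne_zero_iff]
    exact hϖ0
  have memdiv : ∀ x, v x ≤ v ϖ → x / ϖ ∈ P := by
    intro x hx
    apply mem
    rw [map_div₀]
    exact (div_le_one₀ hvϖ).2 hx
  have ltdiv : ∀ x, v x < v ϖ → v (x / ϖ) < 1 := by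
    intro x hx
    rw [map_div₀]
    exact (div_lt_one₀ hvϖ).2 hx
  have hAP : ∀ i, A i / ϖ ∈ P := fun i => memdiv _ (hi0 i)
  have hBP : ∀ i, B i / ϖ ∈ P := by
    have h := (heq ϖ hϖ0).1 (by rw [← hA]; exact hAP)
    rw [← hB] at h
    exact h
  have hB1 : v (B i1) = v ϖ := by
    refine le_antisymm ?_ ?_
    · have h := le1 _ (hBP i1)
      rw [map_div₀] at h
      exact (div_le_one₀ hvϖ).1 h
    · by_contra h
      rw [not_le] at h
      obtain ⟨c, hc0, hcB, hcϖ⟩ : ∃ c : M, c ≠ 0 ∧ v (B i1) ≤ v c ∧ v c < v ϖ := by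
        by_cases hb : B i1 = 0
        · refine ⟨ϖ * ε, mul_ne_zero hϖ0 he0, ?_, ?_⟩
          · rw [hb, map_zero]; exact zero_le
          · rw [map_mul]
            exact mul_lt_of_lt_one_right hvϖ hev
        · exact ⟨B i1, hb, le_rfl, h⟩
      have hvc : 0 < v c := by
        rw [pos_iff_ne_zero, Valuation.ne_zero_iff]
        exact hc0
      have h1 : ∀ i, fe f (fun j => (p j : M) + ε * (g j : M)) i / c ∈ P := by
        intro i
        rw [← hB]
        apply mem
        rw [map_div₀]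
        exact (div_le_one₀ hvc).2 ((hi1 i).trans hcB)
      have h2 := (heq c hc0).2 h1 i0
      rw [← hA] at h2
      have h3 := le1 _ h2
      rw [map_div₀] at h3
      exact absurd ((div_le_one₀ hvc).1 h3) (not_le.2 hcϖ)
  have hone : ∀ x : P, v (x : M) = 1 → φ x ≠ 0 := by
    intro x hx h
    have h1 := (rm.zero x).1 h
    change v (x : M) < 1 at h1
    rw [hx] at h1
    exact lt_irrefl _ h1
  let r0 : Fin 6 → P := fun i => ⟨A i / ϖ, hAP i⟩
  let re : Fin 6 → P := fun i => ⟨B i / ϖ, hBP i⟩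
  have hr0 : ∀ i, (r0 i : M) * ϖ = A i := fun i => div_mul_cancel₀ _ hϖ0
  have hre : ∀ i, (re i : M) * ϖ = B i := fun i => div_mul_cancel₀ _ hϖ0
  have hr00 : ∃ i, φ (r0 i) ≠ 0 := by
    refine ⟨i0, hone _ ?_⟩
    show v (A i0 / ϖ) = 1
    rw [← hϖ, div_self hϖ0, map_one]
  have hre0 : ∃ i, φ (re i) ≠ 0 := by
    refine ⟨i1, hone _ ?_⟩
    show v (B i1 / ϖ) = 1
    rw [map_div₀, hB1, div_self hvϖ.ne']
  have hϖm : ϖ ∈ Mm := by
    rw [hϖ, hA]
    exact G10_fe_mem hp i0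
  -- the residues of the coefficients
  have hunit : v (t1 j1) = 1 ∨ v (t2 j2) = 1 := by
    rcases hmu with h | h
    · left
      obtain ⟨i, hi⟩ := Function.ne_iff.1 h
      obtain ⟨b, hb1, hb2⟩ := tay_res f rm0 p g 1 i
      refine le_antisymm (le1 _ (ht1P j1)) (le_trans ?_ (hj1 i))
      rw [← hb2] at hi
      by_contra h1
      rw [not_le] at h1
      apply hi
      refine (rm.zero b).2 ?_
      rw [hb1, ← ht1]
      exact h1
    · right
      obtain ⟨i, hi⟩ := Function.ne_iff.1 h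
      obtain ⟨b, hb1, hb2⟩ := tay_res f rm0 p g 2 i
      refine le_antisymm (le1 _ (ht2P j2)) (le_trans ?_ (hj2 i))
      rw [← hb2] at hi
      by_contra h1
      rw [not_le] at h1
      apply hi
      refine (rm.zero b).2 ?_
      rw [hb1, ← ht2]
      exact h1
  obtain ⟨m, hm⟩ : ∃ m, m = max (v (t1 j1 * ε)) (v (t2 j2 * ε ^ 2)) := ⟨_, rfl⟩
  have hm1 : ∀ i, v (t1 i * ε) ≤ m := by
    intro i
    rw [hm]
    refine le_trans ?_ (le_max_left _ _)
    rw [map_mul, map_mul]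
    exact mul_le_mul_left (hj1 i) _
  have hm2 : ∀ i, v (t2 i * ε ^ 2) ≤ m := by
    intro i
    rw [hm]
    refine le_trans ?_ (le_max_right _ _)
    rw [map_mul, map_mul]
    exact mul_le_mul_left (hj2 i) _
  have hme : v (ε ^ 2) ≤ m := by
    rw [hm]
    rcases hunit with h | h
    · refine le_trans he21.le (le_trans ?_ (le_max_left _ _))
      rw [map_mul, h, one_mul]
    · refine le_trans ?_ (le_max_right _ _)
      rw [map_mul, h, one_mul]
  have hm3 : ∀ i, v (R i * ε ^ 3) < m := by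
    intro i
    refine lt_of_le_of_lt ?_ (he32.trans_le hme)
    rw [map_mul]
    exact mul_le_of_le_one_left zero_le (le1 _ (hRP i))
  rcases lt_trichotomy m (v ϖ) with hlt | heqm | hgt
  · -- `W > m`
    left
    refine ⟨ϖ, r0, re, hϖ0, fun i => by rw [hr0, hA], fun i => by rw [hre, hB], fun i => ?_, hr00⟩
    have h1 : φ (re i - r0 i) = 0 := by
      refine (rm.zero _).2 ?_
      have e : ((re i - r0 i : P) : M) = (t1 i * ε + t2 i * ε ^ 2 + R i * ε ^ 3) / ϖ := by
        show B i / ϖ - A i / ϖ = _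
        rw [hRe i]
        ring
      rw [e]
      apply ltdiv
      refine lt_of_le_of_lt (v.map_add _ _) (max_lt (lt_of_le_of_lt (v.map_add _ _) (max_lt ?_ ?_)) ?_)
      · exact (hm1 i).trans_lt hlt
      · exact (hm2 i).trans_lt hlt
      · exact (hm3 i).trans hlt
    rw [map_sub, sub_eq_zero] at h1
    exact h1.symm
  · -- `W = m`
    right; left
    refine ⟨ϖ, mk_caseII rm Mm f p g ε ϖ hp hg he hev hϖm hϖ0 r0
      (fun i => ⟨t1 i * ε / ϖ, memdiv _ (heqm ▸ hm1 i)⟩)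
      (fun i => ⟨t2 i * ε ^ 2 / ϖ, memdiv _ (heqm ▸ hm2 i)⟩) re
      (fun i => by rw [hr0, hA]) hr00 ?_ ?_ ?_ (fun i => by rw [hre, hB]) hre0⟩
    · intro i
      rw [← ht1]
      exact div_mul_cancel₀ _ hϖ0
    · intro i
      rw [← ht2]
      exact div_mul_cancel₀ _ hϖ0
    · exact ltdiv _ (heqm ▸ (he32.trans_le hme))
  · -- `W < m`
    right; right
    have hsum : ∀ i, v (t1 i * ε + t2 i * ε ^ 2) < m := by
      intro i
      have e : t1 i * ε + t2 i * ε ^ 2 = B i - A i - R i * ε ^ 3 := by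
        rw [hRe i]; ring
      rw [e]
      refine lt_of_le_of_lt (Valuation.map_sub v _ _) (max_lt
        (lt_of_le_of_lt (Valuation.map_sub v _ _) (max_lt ?_ ?_)) (hm3 i))
      · exact ((hi1 i).trans hB1.le).trans_lt hgt
      · exact (hi0 i).trans_lt hgt
    have heq12 : v (t1 j1 * ε) = v (t2 j2 * ε ^ 2) := by
      rcases lt_trichotomy (v (t1 j1 * ε)) (v (t2 j2 * ε ^ 2)) with h | h | h
      · exfalso
        have hmm : m = v (t2 j2 * ε ^ 2) := by rw [hm]; exact max_eq_right h.le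
        have h1 : v (t1 j2 * ε) < v (t2 j2 * ε ^ 2) := by
          refine lt_of_le_of_lt ?_ h
          rw [map_mul, map_mul]
          exact mul_le_mul_left (hj1 j2) _
        have h2 := Valuation.map_add_eq_of_lt_right v h1
        have h3 := hsum j2
        rw [h2, hmm] at h3
        exact lt_irrefl _ h3
      · exact h
      · exfalso
        have hmm : m = v (t1 j1 * ε) := by rw [hm]; exact max_eq_left h.le
        have h1 : v (t2 j1 * ε ^ 2) < v (t1 j1 * ε) := by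
          refine lt_of_le_of_lt ?_ h
          rw [map_mul, map_mul]
          exact mul_le_mul_left (hj2 j1) _
        have h2 := Valuation.map_add_eq_of_lt_left v h1
        have h3 := hsum j1
        rw [h2, hmm] at h3
        exact lt_irrefl _ h3
    have ha1 : v (t1 j1) = v (t2 j2) * v ε := by
      apply mul_right_cancel₀ hve0.ne'
      rw [map_mul, map_mul, map_pow] at heq12
      rw [heq12, pow_two, mul_assoc]
    have ha2 : v (t2 j2) = 1 := by
      rcases hunit with h | h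
      · exfalso
        rw [h] at ha1
        have h1 : v (t2 j2) * v ε < 1 :=
          lt_of_le_of_lt (mul_le_of_le_one_left zero_le (le1 _ (ht2P j2))) hev
        rw [← ha1] at h1
        exact lt_irrefl _ h1
      · exact h
    rw [ha2, one_mul] at ha1
    have hmm : m = v (ε ^ 2) := by
      rw [hm, ← heq12, max_self, map_mul, ha1, map_pow, pow_two]
    have ht1e : ∀ i, t1 i / ε ∈ P := by
      intro i
      apply mem
      rw [map_div₀]
      exact (div_le_one₀ hve0).2 ((hj1 i).trans ha1.le)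
    refine ⟨ϖ, mk_caseIII rm Mm f p g ε ϖ hp hg he he0 hev hϖm hϖ0 (hmm ▸ hgt) r0
      (fun i => ⟨t1 i / ε, ht1e i⟩) (fun i => ⟨t2 i, ht2P i⟩) re (fun i => by rw [hr0, hA]) hr00
      ?_ ?_ ?_ ?_ (fun i => by rw [hre, hB]) hre0⟩
    · intro i
      rw [← ht1]
      exact div_mul_cancel₀ _ he0
    · intro i
      rw [← ht2]
    · intro i
      have h1 : φ (⟨t1 i / ε, ht1e i⟩ + ⟨t2 i, ht2P i⟩) = 0 := by
        refine (rm.zero _).2 ?_
        have e : ((⟨t1 i / ε, ht1e i⟩ + ⟨t2 i, ht2P i⟩ : P) : M) =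
            (t1 i * ε + t2 i * ε ^ 2) / ε ^ 2 := by
          show t1 i / ε + t2 i = _
          field_simp
        rw [e, map_div₀]
        exact (div_lt_one₀ hve2).2 (hmm ▸ hsum i)
      rw [map_add] at h1
      exact eq_neg_of_add_eq_zero_left h1
    · exact ⟨j2, hone _ ha2⟩

end MP2619.Q5
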