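import Pool.Agent.Lib.MP_2619d0_ag.Q5.G1
import Pool.Agent.Lib.MP_2619d0_ag.Q5.G5
import Pool.Agent.Lib.MP_2619d0_ag.Q5.G6

/-!
Row 2619q5-G10a: case (ii)
-/

set_option autoImplicit false

namespace MP2619.Q5

open scoped NNReal
open IntermediateField MP2619.R MP2619.N Pool.Agent.Lib.MP_2619d0_ag Pool.Agent.Lib.MP_2619d0_ag.T

private theorem G10a_eval_mem {M : Type} [Field M] {P : ValuationSubring M}
    (R : Polynomial M) (hR : ∀ n, R.coeff n ∈ P) (H : M) (hH : H ∈ P) :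
    R.eval H ∈ P := by
  rw [Polynomial.eval_eq_sum_range]
  exact sum_mem fun n _ => P.mul_mem _ _ (hR n) (pow_mem hH n)

private theorem G10a_div3 {M : Type} [Field M] (Q : Polynomial M) (H : M) :
    Q.eval H = Q.coeff 0 + H * Q.coeff 1 + H ^ 2 * Q.coeff 2 +
      H ^ 3 * (Q.divX.divX.divX).eval H := by
  have h1 : ∀ S : Polynomial M, S.eval H = S.divX.eval H * H + S.coeff 0 := by
    intro S
    have h2 := congrArg (Polynomial.eval H) (Polynomial.divX_mul_X_add S)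
    rw [Polynomial.eval_add, Polynomial.eval_mul, Polynomial.eval_X, Polynomial.eval_C] at h2
    exact h2.symm
  rw [h1 Q, h1 Q.divX, h1 Q.divX.divX, Polynomial.coeff_divX, Polynomial.coeff_divX,
    Polynomial.coeff_divX]
  ring

variable {k0 C M N : Type} [Field k0] [Field C] [Field M] [Field N] [Algebra k0 C]
  [Algebra k0 M] [Algebra k0 N] [Algebra C M] [Algebra C N] [IsScalarTower k0 C M]
  [IsScalarTower k0 C N] {P : ValuationSubring M} {φ : P →+* N}

/-- `A k i` = residue of `tay k i * ε ^ k / ϖ`, `k = 0, 1, 2` (in `resI rm Mm` by `tay_mem`). `f(p + h ε g) = ∑ tay k * (h ε) ^ k`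
(`fe_eval`, `Polynomial.eval_eq_sum_range`); the terms with `k ≥ 3` divided by `ϖ` are in the maximal ideal (`hb3`,
`tay_res`). -/
theorem mk_caseII (rm : RMap C P φ) (Mm : IntermediateField C M)
    (f : Fin 6 → MvPolynomial (Fin 5) k0) (p g : Fin 5 → P) (ε ϖ : M)
    (hp : ∀ j, (p j : M) ∈ Mm) (hg : ∀ j, (g j : M) ∈ Mm) (he : ε ∈ Mm)
    (hev : P.valuation ε < 1) (hm : ϖ ∈ Mm) (hne : ϖ ≠ 0) (r0 r1 r2 re : Fin 6 → P)
    (h0 : ∀ i, (r0 i : M) * ϖ = fe f (fun j => (p j : M)) i) (h00 : ∃ i, φ (r0 i) ≠ 0)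
    (h1 : ∀ i, (r1 i : M) * ϖ = tay f (fun j => (p j : M)) (fun j => (g j : M)) 1 i * ε)
    (h2 : ∀ i, (r2 i : M) * ϖ = tay f (fun j => (p j : M)) (fun j => (g j : M)) 2 i * ε ^ 2)
    (hb3 : P.valuation (ε ^ 3 / ϖ) < 1)
    (h3 : ∀ i, (re i : M) * ϖ = fe f (fun j => (p j : M) + ε * (g j : M)) i)
    (h30 : ∃ i, φ (re i) ≠ 0) :
    ∃ A, CaseII rm Mm f (fun j => (p j : M)) (fun j => (g j : M)) ε ϖ A := by
  have rm0 : RMap k0 P φ := rm.restrict
  have hepsP : ε ∈ P := (P.valuation_le_one_iff _).1 hev.le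
  have hsc : ∀ (k : ℕ) (i : Fin 6),
      tay f (fun j => (p j : M)) (fun j => (g j : M)) k i ∈ Mm := fun k i =>
    tay_mem f (IntermediateField.restrictScalars k0 Mm) (fun j => (p j : M))
      (fun j => (g j : M)) hp hg k i
  have hcP : ∀ (k : ℕ) (i : Fin 6),
      tay f (fun j => (p j : M)) (fun j => (g j : M)) k i ∈ P := by
    intro k i
    obtain ⟨a, ha, -⟩ := tay_res f rm0 p g k i
    rw [← ha]
    exact a.2
  have hmem : ∀ (r : P) (c : M), (r : M) * ϖ = c → c ∈ Mm → φ r ∈ resI rm Mm := by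
    intro r c hc hcM
    refine (mem_resI rm Mm _).2 ⟨r, ?_, rfl⟩
    rw [eq_div_of_mul_eq hne hc]
    exact Mm.div_mem hcM hm
  have hval : ∀ h : P, ∃ r : Fin 6 → P,
      (∀ i, (r i : M) * ϖ = fe f (fun j => (p j : M) + (h : M) * ε * (g j : M)) i) ∧
      ∀ i, φ (r i) = φ (r0 i) + φ h * φ (r1 i) + φ h ^ 2 * φ (r2 i) := by
    intro h
    have hHP : (h : M) * ε ∈ P := P.mul_mem _ _ h.2 hepsP
    let Q : Fin 6 → Polynomial M := fun i => tayP f (fun j => (p j : M)) (fun j => (g j : M)) i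
    have hR : ∀ i, ((Q i).divX.divX.divX).eval ((h : M) * ε) ∈ P := by
      intro i
      refine G10a_eval_mem _ (fun n => ?_) _ hHP
      rw [Polynomial.coeff_divX, Polynomial.coeff_divX, Polynomial.coeff_divX]
      exact hcP _ i
    have he3 : ε ^ 3 / ϖ ∈ P := (P.valuation_le_one_iff _).1 hb3.le
    have hz : φ ⟨ε ^ 3 / ϖ, he3⟩ = 0 := (rm.zero _).2 hb3
    refine ⟨fun i => r0 i + h * r1 i + h ^ 2 * r2 i + h ^ 3 * ⟨_, hR i⟩ * ⟨ε ^ 3 / ϖ, he3⟩,
      fun i => ?_, fun i => ?_⟩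
    · rw [fe_eval, G10a_div3]
      have e0 := h0 i
      rw [← tay_zero f (fun j => (p j : M)) (fun j => (g j : M))] at e0
      have e1 := h1 i
      have e2 := h2 i
      have e3 : ε ^ 3 / ϖ * ϖ = ε ^ 3 := div_mul_cancel₀ _ hne
      change ((r0 i : M) + (h : M) * (r1 i : M) + (h : M) ^ 2 * (r2 i : M) +
        (h : M) ^ 3 * ((Q i).divX.divX.divX).eval ((h : M) * ε) * (ε ^ 3 / ϖ)) * ϖ =
        tay f (fun j => (p j : M)) (fun j => (g j : M)) 0 i +
        (h : M) * ε * tay f (fun j => (p j : M)) (fun j => (g j : M)) 1 i +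
        ((h : M) * ε) ^ 2 * tay f (fun j => (p j : M)) (fun j => (g j : M)) 2 i +
        ((h : M) * ε) ^ 3 * ((Q i).divX.divX.divX).eval ((h : M) * ε)
      linear_combination e0 + (h : M) * e1 + (h : M) ^ 2 * e2 +
        (h : M) ^ 3 * ((Q i).divX.divX.divX).eval ((h : M) * ε) * e3
    · rw [map_add, map_add, map_add, map_mul, map_mul, map_mul, hz, mul_zero, add_zero, map_pow]
  refine ⟨![fun i => φ (r0 i), fun i => φ (r1 i), fun i => φ (r2 i)], ?_⟩
  refine ⟨hm, hne, ?_, ?_, ?_, ?_⟩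
  · intro k i
    fin_cases k
    · refine hmem (r0 i) _ (h0 i) ?_
      rw [← tay_zero f (fun j => (p j : M)) (fun j => (g j : M))]
      exact hsc 0 i
    · exact hmem (r1 i) _ (h1 i) (Mm.mul_mem (hsc 1 i) he)
    · exact hmem (r2 i) _ (h2 i) (Mm.mul_mem (hsc 2 i) (pow_mem he 2))
  · obtain ⟨i, hi⟩ := h00
    exact fun hc => hi (congrFun hc i)
  · obtain ⟨i, hi⟩ := h30
    obtain ⟨r, hr1, hr2⟩ := hval 1
    intro hc
    apply hi
    have e1 : re i = r i := by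
      apply Subtype.ext
      apply mul_right_cancel₀ hne
      rw [h3 i, hr1 i]
      congr 1
      funext j
      rw [OneMemClass.coe_one, one_mul]
    rw [e1, hr2 i, map_one, one_mul, one_pow, one_mul]
    exact congrFun hc i
  · exact hval

end MP2619.Q5
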