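import Pool.Agent.Lib.MP_2619d0_ag.Q5.G1
import Pool.Agent.Lib.MP_2619d0_ag.Q5.G2
import Pool.Agent.Lib.MP_2619d0_ag.Q5.G5
import Pool.Agent.Lib.MP_2619d0_ag.Q5.G6
import Pool.Agent.Lib.MP_2619d0_ag.Q5.C6
import Pool.Agent.Lib.MP_2619d0_ag.Q5.C10b

/-!
Row 2619q5-G11: path A: the two points are different, independence of the new parameters
-/

set_option autoImplicit false

namespace MP2619.Q5

open scoped NNReal
open IntermediateField MP2619.R MP2619.N Pool.Agent.Lib.MP_2619d0_ag Pool.Agent.Lib.MP_2619d0_ag.T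

variable {k0 C B M N : Type} [Field k0] [Field C] [Field B] [Field M] [Field N] [Algebra k0 C]
  [Algebra k0 B] [Algebra k0 M] [Algebra k0 N] [Algebra C B] [Algebra C M] [Algebra C N]
  [Algebra B M] [Algebra B N] [IsScalarTower k0 C B] [IsScalarTower k0 C M] [IsScalarTower k0 C N]
  [IsScalarTower k0 B M] [IsScalarTower k0 B N] [IsScalarTower C B M] [IsScalarTower C B N]
  {f : Fin 6 → MvPolynomial (Fin 5) k0} {G : Fin 5 → Fin 5 → C} {ε : M} {t : Fin 4 → M} {α β : M}
  {σ : M ≃ₐ[B] M} {P : ValuationSubring M} {φ : P →+* N} {x y : Fin 6 → P} {w : B} {a : Fin 6}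

private theorem G11_trdeg_mono {B' N' : Type} [Field B'] [Field N'] [Algebra B' N']
    {E E' : IntermediateField B' N'} (h : E ≤ E') : Algebra.trdeg B' E ≤ Algebra.trdeg B' E' :=
  _root_.trdeg_le_of_injective (IntermediateField.inclusion h)
    (IntermediateField.inclusion_injective h)

private theorem G11_trdeg_bot {B' N' : Type} [Field B'] [Field N'] [Algebra B' N'] :
    Algebra.trdeg B' (⊥ : IntermediateField B' N') = 0 := by
  have : Algebra.IsAlgebraic B' (⊥ : IntermediateField B' N') := inferInstance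
  exact _root_.trdeg_eq_zero

private theorem G11_pA_mem {C' M' : Type} [Field C'] [Field M'] [Algebra C' M']
    (G' : Fin 5 → Fin 5 → C') (t' : Fin 4 → M') (L : IntermediateField C' M')
    (ht : ∀ i, t' i ∈ L) (h : M') (hh : h ∈ L) (j : Fin 5) : pA G' t' h j ∈ L := by
  unfold pA pt
  refine L.add_mem (sum_mem fun i _ => L.mul_mem (L.algebraMap_mem _) ?_)
    (L.mul_mem hh (L.algebraMap_mem _))
  refine Fin.cases ?_ (fun i => ?_) i
  · rw [Fin.cons_zero]
    exact L.one_mem
  · rw [Fin.cons_succ]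
    exact ht i

private theorem G11_card {B' L : Type} [Field B'] [Field L] [Algebra B' L]
    (h : Algebra.trdeg B' L ≤ 5) (z : Fin 6 → L) : ¬ AlgebraicIndependent B' z := by
  intro hz
  have h1 := hz.lift_cardinalMk_le_trdeg
  have h2 : ((6 : ℕ) : Cardinal) ≤ Algebra.trdeg B' L := by simpa using h1
  have h3 : ((6 : ℕ) : Cardinal) ≤ ((5 : ℕ) : Cardinal) := h2.trans (by exact_mod_cast h)
  have h4 : (6 : ℕ) ≤ 5 := by exact_mod_cast h3
  omega

private theorem G11_val {B' M' : Type} [Field B'] [Field M'] [Algebra B' M']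
    {P' : ValuationSubring M'} (hdv : DV P') (σ' : M' ≃ₐ[B'] M')
    (hs : ∀ m, σ' m ∈ P' ↔ m ∈ P') (m : M') : P'.valuation (σ' m) = P'.valuation m := by
  by_cases hm : m = 0
  · rw [hm, map_zero]
  obtain ⟨-, h1, -⟩ := ord_map σ' P' P' hs hdv
  obtain ⟨ϖ, -, h2⟩ := ord_spec hdv
  have h3 : ∀ a : M', a ≠ 0 → P'.valuation a = P'.valuation ϖ ^ ord P' a := by
    intro a ha
    obtain ⟨η, hη, ha'⟩ := h2 a ha
    conv_lhs => rw [ha']
    rw [map_mul, map_zpow₀, hη, one_mul]
  rw [h3 m hm, h3 (σ' m) (by simpa using hm), h1]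

private theorem G11_aeval {k' B' M' : Type} [Field k'] [Field B'] [Field M'] [Algebra k' B']
    [Algebra k' M'] [Algebra B' M'] [IsScalarTower k' B' M'] (σ' : M' ≃ₐ[B'] M')
    (q : MvPolynomial (Fin 5) k') (p : Fin 5 → M') :
    σ' (MvPolynomial.aeval p q) = MvPolynomial.aeval (fun j => σ' (p j)) q := by
  have h := MvPolynomial.comp_aeval_apply (R := k') p
    ((σ'.toAlgHom : M' →ₐ[B'] M').restrictScalars k') q
  exact h

/-- `x̄ ≠ 0` (`E.F3`: otherwise `rat B x̄` is algebraic), so `c1 ≠ 0`, `ȳ = (c2 / c1) x̄`, `rat B ȳ ≤ rat B x̄`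
(`rat_smul_le`), and `rat B x̄ ≤ adjoin B (resI rm0 (rat k0 p))` (`rat_resI`, `rat_fe_le`, `rat_base`, `x = α f(p)`) has transcendence degree at
most three (`trdeg_adjoin_le`). Contradiction to `E.ind` by `trdeg_rat_rat`. -/
theorem esc_not_par (E : Esc f G ε t α β σ P φ x y w a) (rm0 : RMap k0 P φ)
    (h3 : Algebra.trdeg k0 (resI rm0 (rat k0 (pA G t 0))) ≤ 3) (v : Fin 6 → N) (c1 c2 : N)
    (h1 : ∀ i, φ (x i) = c1 * v i) (h2 : ∀ i, φ (y i) = c2 * v i) : False := by
  obtain ⟨d, hd⟩ := E.hom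
  have hx0 : ∃ i, φ (x i) ≠ 0 := by
    by_contra hc
    push Not at hc
    refine E.F3 (le_trans (G11_trdeg_mono (E' := ⊥) ?_) ?_)
    · refine IntermediateField.adjoin_le_iff.2 ?_
      rintro z ⟨i, j, rfl⟩
      have h5 : (fun i => φ (x i)) i / (fun i => φ (x i)) j = 0 := by
        show φ (x i) / φ (x j) = 0
        rw [hc i, zero_div]
      rw [h5]
      exact IntermediateField.zero_mem _
    · rw [G11_trdeg_bot]
      exact zero_le
  have hc1 : c1 ≠ 0 := by
    rintro rfl
    obtain ⟨i, hi⟩ := hx0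
    apply hi
    rw [h1 i, zero_mul]
  have hy : (fun i => φ (y i)) = fun i => (c2 / c1) * φ (x i) := by
    funext i
    rw [h1, h2]
    field_simp
  have hle : rat B (fun i => φ (x i)) ⊔ rat B (fun i => φ (y i)) ≤ rat B (fun i => φ (x i)) := by
    refine sup_le le_rfl ?_
    rw [hy]
    exact rat_smul_le (k := B) (c2 / c1) (fun i => φ (x i))
  have hr0 : rat k0 (fun i => (x i : M)) ≤ rat k0 (pA G t 0) := by
    have he : (fun i => (x i : M)) = fun i => α * fe f (pA G t 0) i := by
      funext i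
      exact E.x_eq i
    rw [he]
    exact (rat_smul_le (k := k0) α (fe f (pA G t 0))).trans (rat_fe_le f hd (pA G t 0))
  have hr1 : rat k0 (fun i => φ (x i)) ≤ resI rm0 (rat k0 (pA G t 0)) :=
    rat_resI rm0 x (rat k0 (pA G t 0)) hr0
  have hr2 : rat B (fun i => φ (x i)) ≤
      adjoin B ((resI rm0 (rat k0 (pA G t 0)) : IntermediateField k0 N) : Set N) :=
    (rat_base (k := B) (k0 := k0) (fun i => φ (x i))).trans
      (IntermediateField.adjoin.mono _ _ _ hr1)
  have ht : Algebra.trdeg B (rat B (fun i => φ (x i)) ⊔ rat B (fun i => φ (y i)) :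
      IntermediateField B N) ≤ 3 :=
    (G11_trdeg_mono (hle.trans hr2)).trans
      (trdeg_adjoin_le (B := B) (resI rm0 (rat k0 (pA G t 0))) 3 (by exact_mod_cast h3))
  exact trdeg_rat_rat w (fun i => φ (x i)) (fun i => φ (y i)) (Pi.single a 1) ht E.ind

/-- `K = resI rmC (adjoin C ({ε, α, β} ∪ range t))` has transcendence degree at most six over `C` (`trdeg_resI_lt` with `p = ε`,
`trdeg_adjoin_finset`), and `adjoin B K` contains `zg` (`x i`, `y i` are in the adjoin), six algebraically independent elements: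
`GP1` with `m = 5` for `C ⊆ B`. -/
theorem esc_h_ind (E : Esc f G ε t α β σ P φ x y w a) (rmC : RMap C P φ) (h : Fin 2 → B)
    (hh : AlgebraicIndependent C h) :
    AlgebraicIndependent (resI rmC (adjoin C ({ε, α, β} ∪ Set.range t)))
      (fun i => algebraMap B N (h i)) := by
  classical
  set L : IntermediateField C M := adjoin C ({ε, α, β} ∪ Set.range t) with hL
  have hεL : ε ∈ L := IntermediateField.subset_adjoin _ _ (Or.inl (by simp))
  have hαL : α ∈ L := IntermediateField.subset_adjoin _ _ (Or.inl (by simp))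
  have hβL : β ∈ L := IntermediateField.subset_adjoin _ _ (Or.inl (by simp))
  have htL : ∀ i, t i ∈ L := fun i =>
    IntermediateField.subset_adjoin _ _ (Or.inr ⟨i, rfl⟩)
  have hL7 : Algebra.trdeg C L ≤ ((6 + 1 : ℕ) : Cardinal) := by
    have h1 := trdeg_adjoin_finset (k := C) (({ε, α, β} : Finset M) ∪ Finset.univ.image t)
    have h2 : (((({ε, α, β} : Finset M) ∪ Finset.univ.image t : Finset M)) : Set M) =
        {ε, α, β} ∪ Set.range t := by
      rw [Finset.coe_union, Finset.coe_image, Finset.coe_univ, Set.image_univ]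
      congr 1
      simp
    rw [h2] at h1
    refine h1.trans ?_
    have h3 : (({ε, α, β} : Finset M) ∪ Finset.univ.image t).card ≤ 6 + 1 := by
      refine (Finset.card_union_le _ _).trans ?_
      have h4 : ({ε, α, β} : Finset M).card ≤ 3 := Finset.card_le_three
      have h5 : (Finset.univ.image t).card ≤ 4 := by
        refine Finset.card_image_le.trans ?_
        rw [Finset.card_univ, Fintype.card_fin]
      omega
    exact_mod_cast h3
  have hK6 : Algebra.trdeg C (resI rmC L) ≤ ((5 + 1 : ℕ) : Cardinal) :=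
    trdeg_resI_lt rmC L 6 hL7 ε hεL E.e0 E.eps
  refine GP1 (k0 := C) (resI rmC L) 5 hK6 ?_ h hh
  intro hcon
  -- the coordinates of the points are in the residue field of `L`
  have hfe : ∀ (h0 : M), h0 ∈ L → ∀ i, fe f (pA G t h0) i ∈ L := by
    intro h0 hh0 i
    exact fe_mem f (L.restrictScalars k0) (pA G t h0)
      (fun j => G11_pA_mem G t L htL h0 hh0 j) i
  have hxK : ∀ i, φ (x i) ∈ adjoin B ((resI rmC L : IntermediateField C N) : Set N) := by
    intro i
    refine IntermediateField.subset_adjoin _ _ ⟨x i, ?_, rfl⟩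
    rw [E.x_eq]
    exact L.mul_mem hαL (hfe 0 L.zero_mem i)
  have hyK : ∀ i, φ (y i) ∈ adjoin B ((resI rmC L : IntermediateField C N) : Set N) := by
    intro i
    refine IntermediateField.subset_adjoin _ _ ⟨y i, ?_, rfl⟩
    rw [E.y_eq]
    exact L.mul_mem hβL (hfe ε hεL i)
  have hz : ∀ i, zg w (fun i => φ (x i)) (fun i => φ (y i)) (Pi.single a 1) i ∈
      adjoin B ((resI rmC L : IntermediateField C N) : Set N) := by
    intro i
    exact IntermediateField.add_mem _ (IntermediateField.mul_mem _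
      (IntermediateField.algebraMap_mem _ _) (hxK i)) (hyK i)
  refine G11_card (by exact_mod_cast hcon)
    (fun i => (⟨_, hz i⟩ : adjoin B ((resI rmC L : IntermediateField C N) : Set N))) ?_
  have h7 := E.ind
  exact AlgebraicIndependent.of_comp
    (adjoin B ((resI rmC L : IntermediateField C N) : Set N)).val h7

/-- `σ (G (1, t) + h g_1) = G (1, t) + (ε + σ h) g_1` -/
theorem esc_sig_pA (E : Esc f G ε t α β σ P φ x y w a) (h : M) (j : Fin 5) :
    σ (pA G t h j) = pA G t (ε + σ h) j := by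
  have hc : ∀ c : C, σ (algebraMap C M c) = algebraMap C M c := by
    intro c
    rw [IsScalarTower.algebraMap_apply C B M c]
    exact σ.commutes _
  have h1 := E.s_t 1 (by decide)
  have h2 := E.s_t 2 (by decide)
  have h3 := E.s_t 3 (by decide)
  have e0 : (Fin.cons 1 t : Fin 5 → M) 0 = 1 := rfl
  have e1 : (Fin.cons 1 t : Fin 5 → M) 1 = t 0 := rfl
  have e2 : (Fin.cons 1 t : Fin 5 → M) 2 = t 1 := rfl
  have e3 : (Fin.cons 1 t : Fin 5 → M) 3 = t 2 := rfl
  have e4 : (Fin.cons 1 t : Fin 5 → M) 4 = t 3 := rfl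
  simp only [pA, pt, Fin.sum_univ_five, e0, e1, e2, e3, e4, map_add, map_mul, map_one, hc, E.s_0,
    h1, h2, h3]
  ring

theorem esc_sig_fe (E : Esc f G ε t α β σ P φ x y w a) (h : M) (i : Fin 6) :
    σ (fe f (pA G t h) i) = fe f (pA G t (ε + σ h)) i := by
  have h1 : (fun j => σ (pA G t h j)) = pA G t (ε + σ h) := by
    funext j
    exact esc_sig_pA E h j
  have h2 := G11_aeval (k' := k0) σ (f i) (pA G t h)
  unfold fe
  rw [← h1]
  exact h2

/-- `ord P (σ m) = ord P m` (`ord_map`, row C10b; or directly: `σ` permutes the units of `P` and maps a uniformizer to a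
uniformizer) -/
theorem esc_unit (E : Esc f G ε t α β σ P φ x y w a) (m : M) (hm : m ≠ 0) :
    P.valuation (σ m / m) = 1 := by
  have h1 : P.valuation (σ m) = P.valuation m := G11_val E.dv σ E.sig m
  rw [map_div₀, h1]
  exact div_self ((Valuation.ne_zero_iff _).2 hm)

/-- from `esc_unit`, `esc_sig_fe` with `h = 0` -/
theorem esc_heq (E : Esc f G ε t α β σ P φ x y w a) (c : M) (hc : c ≠ 0) :
    (∀ i, fe f (pA G t 0) i / c ∈ P) ↔ ∀ i, fe f (pA G t ε) i / c ∈ P := by
  refine forall_congr' fun i => ?_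
  have h1 : P.valuation (fe f (pA G t ε) i) = P.valuation (fe f (pA G t 0) i) := by
    have h2 := esc_sig_fe E 0 i
    rw [map_zero, add_zero] at h2
    rw [← h2]
    exact G11_val E.dv σ E.sig _
  rw [← P.valuation_le_one_iff, ← P.valuation_le_one_iff, map_div₀, map_div₀, h1]

end MP2619.Q5
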