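import Pool.Agent.Lib.MP_2619d0_ag.Q5.GDefs

/-!
Row 2619q5-G13: core
-/

set_option autoImplicit false

namespace MP2619.Q5

open scoped NNReal
open IntermediateField MP2619.R MP2619.N Pool.Agent.Lib.MP_2619d0_ag Pool.Agent.Lib.MP_2619d0_ag.T

variable {C N : Type} [Field C] [Field N] [Algebra C N]

private theorem G13_tr {K L : Type} [Field K] [Field L] [Algebra K L] (t r : L)
    (ht : Transcendental K t) (hr : r ∈ adjoin K ({t} : Set L))
    (hr2 : ∀ c : K, algebraMap K L c ≠ r) : Transcendental K r := by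
  let e := RatFunc.algEquivOfTranscendental t ht
  let q : RatFunc K := e.symm ⟨r, hr⟩
  have hq : Transcendental K q := by
    apply RatFunc.transcendental_of_ne_C
    rintro ⟨c, hc⟩
    have h1 : e q = e (RatFunc.C c) := by rw [hc]
    rw [AlgEquiv.apply_symm_apply] at h1
    have h2 : e (RatFunc.C c) = algebraMap K _ c := by
      rw [← RatFunc.algebraMap_eq_C]
      exact e.commutes c
    rw [h2] at h1
    have h3 := congrArg (Subtype.val) h1
    exact hr2 c h3.symm
  intro halg
  apply hq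
  have h4 : IsAlgebraic K (⟨r, hr⟩ : adjoin K ({t} : Set L)) := by
    have := (isAlgebraic_algHom_iff (adjoin K ({t} : Set L)).val
      (Subtype.val_injective) (a := (⟨r, hr⟩ : adjoin K ({t} : Set L)))).1 halg
    exact this
  exact h4.algHom e.symm.toAlgHom

private theorem G13_one {K L : Type} [Field K] [Field L] [Algebra K L] (x : L) :
    AlgebraicIndependent K (fun _ : Fin 1 => x) ↔ Transcendental K x :=
  algebraicIndependent_unique_type_iff

private theorem G13_pair {K L : Type} [Field K] [Field L] [Algebra K L] (x y : L) :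
    AlgebraicIndependent K (Fin.cons x (fun _ : Fin 1 => y) : Fin 2 → L) ↔
      Transcendental K y ∧ Transcendental (adjoin K ({y} : Set L)) x := by
  rw [ind_cons, G13_one, Set.range_const]

private theorem G13_swap {K L : Type} [Field K] [Field L] [Algebra K L] (x y : L)
    (h : AlgebraicIndependent K (Fin.cons x (fun _ : Fin 1 => y) : Fin 2 → L)) :
    AlgebraicIndependent K (Fin.cons y (fun _ : Fin 1 => x) : Fin 2 → L) := by
  have h1 := h.comp (Equiv.swap (0 : Fin 2) 1) (Equiv.injective _)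
  convert h1 using 1
  funext i
  fin_cases i <;> rfl

private theorem G13_mono {K L : Type} [Field K] [Field L] [Algebra K L]
    (E F : IntermediateField K L) (h : E ≤ F) (x : L) (hx : Transcendental F x) :
    Transcendental E x := by
  let _ : Algebra E F := (IntermediateField.inclusion h).toRingHom.toAlgebra
  have : IsScalarTower E F L := IsScalarTower.of_algebraMap_eq (fun x => rfl)
  exact Transcendental.of_tower_top E hx

private theorem G13_ind (K : IntermediateField C N) (h : Fin 2 → N) (hh : AlgebraicIndependent K h)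
    (r : Fin 2 → N)
    (hr1 : ∀ i, r i ∈ adjoin K ({h i} : Set N)) (hr2 : ∀ i, r i ∉ K) :
    AlgebraicIndependent K (Fin.cons (r 1) (fun _ : Fin 1 => r 0) : Fin 2 → N) := by
  have e0 : h = (Fin.cons (h 0) (fun _ : Fin 1 => h 1) : Fin 2 → N) := by
    funext i
    fin_cases i <;> rfl
  rw [e0] at hh
  have a1 := (G13_pair _ _).1 hh
  have a2 := (G13_pair _ _).1 (G13_swap _ _ hh)
  have b1 : Transcendental K (r 1) := G13_tr (h 1) (r 1) a1.1 (hr1 1)
    (fun c hc => hr2 1 (by rw [← hc]; exact c.2))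
  have b0 : Transcendental K (r 0) := G13_tr (h 0) (r 0) a2.1 (hr1 0)
    (fun c hc => hr2 0 (by rw [← hc]; exact c.2))
  have c1 : Transcendental (adjoin K ({r 1} : Set N)) (h 0) :=
    G13_mono _ (adjoin K ({h 1} : Set N)) (by
      rw [adjoin_le_iff]
      intro x hx
      rw [Set.mem_singleton_iff] at hx
      rw [hx]
      exact hr1 1) _ a1.2
  have c2 := (G13_pair _ _).1 (G13_swap _ _ ((G13_pair (K := K) (h 0) (r 1)).2 ⟨b1, c1⟩))
  have c3 : Transcendental (adjoin K ({r 0} : Set N)) (r 1) :=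
    G13_mono _ (adjoin K ({h 0} : Set N)) (by
      rw [adjoin_le_iff]
      intro x hx
      rw [Set.mem_singleton_iff] at hx
      rw [hx]
      exact hr1 0) _ c2.2
  exact (G13_pair (K := K) (r 1) (r 0)).2 ⟨b0, c3⟩

/-- `r 0 ∈ K(h 0)`, `∉ K` is transcendental over `K` (`K` is algebraically closed in `K(h 0)`), `r 1` is transcendental over `K(h 0)`
(the same over `K(h 0)`: `r 1 ∈ K(h 0)(h 1)`, `r 1 ∉ K(h 0)`, because `K(h 0) ∩ K(h 1) = K`). So `r 0, r 1` are algebraically
independent over `K`, so over `K ⊓ R`. If `K ⊓ R` had three algebraically independent elements over `C`, `R` would have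
five. -/
theorem core (K R : IntermediateField C N) (h : Fin 2 → N) (hh : AlgebraicIndependent K h)
    (hR : Algebra.trdeg C R ≤ 4) (r : Fin 2 → N) (hr : ∀ i, r i ∈ R)
    (hr1 : ∀ i, r i ∈ adjoin K ({h i} : Set N)) (hr2 : ∀ i, r i ∉ K) :
    Algebra.trdeg C (K ⊓ R : IntermediateField C N) ≤ 2 := by
  by_contra hD
  obtain ⟨b, hb⟩ := card_of_not_le (D := 2) hD
  have hind := G13_ind K h hh r hr1 hr2
  let bK : Fin 3 → K := fun i => ⟨(b i : N), (b i).2.1⟩
  have hbK : AlgebraicIndependent C bK := by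
    refine AlgebraicIndependent.of_comp K.val ?_
    exact hb.map' (f := (K ⊓ R : IntermediateField C N).val)
      (K ⊓ R : IntermediateField C N).val.injective
  have h5 := AlgebraicIndependent.sumElim_comp hbK hind
  let w : Fin 2 ⊕ Fin 3 → R := Sum.elim
    (fun i => ⟨(Fin.cons (r 1) (fun _ : Fin 1 => r 0) : Fin 2 → N) i, by
      fin_cases i
      · exact hr 1
      · exact hr 0⟩)
    (fun i => ⟨(b i : N), (b i).2.2⟩)
  have hw : AlgebraicIndependent C w := by
    refine AlgebraicIndependent.of_comp R.val ?_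
    convert h5 using 1
    funext i
    rcases i with i | i <;> rfl
  have h6 := hw.cardinalMk_le_trdeg
  have h7 := h6.trans hR
  simp at h7
  norm_num at h7

private theorem G13_zero (K : IntermediateField C N) (h : N) (hh : Transcendental K h)
    (a b c : N) (ha : a ∈ K) (hb : b ∈ K) (hc : c ∈ K) (h0 : a + h * b + h ^ 2 * c = 0) :
    a = 0 ∧ b = 0 ∧ c = 0 := by
  let p : Polynomial K := Polynomial.C ⟨a, ha⟩ + Polynomial.C ⟨b, hb⟩ * Polynomial.X +
    Polynomial.C ⟨c, hc⟩ * Polynomial.X ^ 2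
  have hp : Polynomial.aeval h p = 0 := by
    have e : Polynomial.aeval h p = a + b * h + c * h ^ 2 := by
      simp only [p, map_add, map_mul, Polynomial.aeval_C, Polynomial.aeval_X, map_pow]
      rfl
    rw [e, ← h0]
    ring
  have hp0 : p = 0 := by
    by_contra hne
    exact (transcendental_iff.1 hh) p hp |> hne
  have c0 := congrArg (fun q => Polynomial.coeff q 0) hp0
  have c1 := congrArg (fun q => Polynomial.coeff q 1) hp0
  have c2 := congrArg (fun q => Polynomial.coeff q 2) hp0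
  simp [p, Polynomial.coeff_X, Polynomial.coeff_C] at c0 c1 c2
  exact ⟨congrArg Subtype.val c0, congrArg Subtype.val c1, congrArg Subtype.val c2⟩

/-- Suppose all `v i / v j ∈ K`. `v ≠ 0` (`A 0 ≠ 0`, `h` transcendental), `v j ≠ 0`, `B0 i = v i / v j ∈ K`:
`v i - B0 i * v j = 0` is a polynomial relation for `h` over `K`, so `A k i = B0 i * A k j` for all `k`: all `A k` are multiples of
`B0`, contradiction to `hA`. -/
theorem curv (K : IntermediateField C N) (h : N) (hh : Transcendental K h)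
    (A : Fin 3 → Fin 6 → N) (hAK : ∀ k i, A k i ∈ K)
    (hA : LinearIndependent N ![A 0, A 0 + A 1 + A 2]) :
    ∃ i j, (A 0 i + h * A 1 i + h ^ 2 * A 2 i) / (A 0 j + h * A 1 j + h ^ 2 * A 2 j) ∉ K := by
  by_contra hcon
  push Not at hcon
  have hz := G13_zero K h hh
  have hA0 : A 0 ≠ 0 := by
    have := hA.ne_zero 0
    simpa using this
  obtain ⟨j, hj⟩ : ∃ j, A 0 j ≠ 0 := by
    by_contra h0
    push Not at h0
    exact hA0 (funext h0)
  have hvj : A 0 j + h * A 1 j + h ^ 2 * A 2 j ≠ 0 := by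
    intro h0
    exact hj (hz _ _ _ (hAK 0 j) (hAK 1 j) (hAK 2 j) h0).1
  have key : ∀ i, ∃ B0 ∈ K, A 0 i = B0 * A 0 j ∧ A 1 i = B0 * A 1 j ∧ A 2 i = B0 * A 2 j := by
    intro i
    refine ⟨_, hcon i j, ?_⟩
    set B0 := (A 0 i + h * A 1 i + h ^ 2 * A 2 i) / (A 0 j + h * A 1 j + h ^ 2 * A 2 j) with hB0
    have hBK : B0 ∈ K := hcon i j
    have h1 : A 0 i + h * A 1 i + h ^ 2 * A 2 i =
        B0 * (A 0 j + h * A 1 j + h ^ 2 * A 2 j) := by
      rw [hB0, div_mul_cancel₀ _ hvj]
    have h2 := hz (A 0 i - B0 * A 0 j) (A 1 i - B0 * A 1 j) (A 2 i - B0 * A 2 j)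
      (sub_mem (hAK 0 i) (mul_mem hBK (hAK 0 j))) (sub_mem (hAK 1 i) (mul_mem hBK (hAK 1 j)))
      (sub_mem (hAK 2 i) (mul_mem hBK (hAK 2 j))) (by linear_combination h1)
    exact ⟨sub_eq_zero.1 h2.1, sub_eq_zero.1 h2.2.1, sub_eq_zero.1 h2.2.2⟩
  have hpair := (LinearIndependent.pair_iff.1 hA) (A 0 j + A 1 j + A 2 j) (- A 0 j) (by
    funext i
    obtain ⟨B0, _, e0, e1, e2⟩ := key i
    simp only [Pi.add_apply, Pi.smul_apply, smul_eq_mul, Pi.zero_apply]
    rw [e0, e1, e2]
    ring)
  exact hj (neg_eq_zero.1 hpair.2)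

/-- the quotients of `curv` are in `K(h)` -/
theorem curv_mem (K : IntermediateField C N) (h : N) (A : Fin 3 → Fin 6 → N)
    (hAK : ∀ k i, A k i ∈ K) (i j : Fin 6) :
    (A 0 i + h * A 1 i + h ^ 2 * A 2 i) / (A 0 j + h * A 1 j + h ^ 2 * A 2 j) ∈
      adjoin K ({h} : Set N) := by
  have hm : ∀ x ∈ K, x ∈ adjoin K ({h} : Set N) := by
    intro x hx
    exact (adjoin K ({h} : Set N)).algebraMap_mem (⟨x, hx⟩ : K)
  have hh : h ∈ adjoin K ({h} : Set N) := mem_adjoin_simple_self K h
  have hv : ∀ i, A 0 i + h * A 1 i + h ^ 2 * A 2 i ∈ adjoin K ({h} : Set N) := by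
    intro i
    exact add_mem (add_mem (hm _ (hAK 0 i)) (mul_mem hh (hm _ (hAK 1 i))))
      (mul_mem (pow_mem hh 2) (hm _ (hAK 2 i)))
  exact div_mem (hv i) (hv j)

end MP2619.Q5
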