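import Pool.Agent.Lib.MP_2619d0_ag.Q5.G1
import Pool.Agent.Lib.MP_2619d0_ag.Q5.G5
import Pool.Agent.Lib.MP_2619d0_ag.Q5.G6

/-!
Row 2619q5-G14: the residues of the shifted points
-/

set_option autoImplicit false

namespace MP2619.Q5

open scoped NNReal
open IntermediateField MP2619.R MP2619.N Pool.Agent.Lib.MP_2619d0_ag Pool.Agent.Lib.MP_2619d0_ag.T

variable {k0 C M N : Type} [Field k0] [Field C] [Field M] [Field N] [Algebra k0 C]
  [Algebra k0 M] [Algebra k0 N] [Algebra C M] [Algebra C N] [IsScalarTower k0 C M]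
  [IsScalarTower k0 C N] {P : ValuationSubring M} {φ : P →+* N}

private theorem G14_mem1 (t : Fin 4 → M) (a' a'' : M) : t 0 + a' ∈ E2 C t a' a'' :=
  subset_adjoin C _ (Or.inl (Or.inl rfl))

private theorem G14_mem2 (t : Fin 4 → M) (a' a'' : M) : t 0 + a'' ∈ E2 C t a' a'' :=
  subset_adjoin C _ (Or.inl (Or.inr rfl))

private theorem G14_mem3 (t : Fin 4 → M) (a' a'' : M) (j : Fin 4) (hj : j ≠ 0) :
    t j ∈ E2 C t a' a'' :=
  subset_adjoin C _ (Or.inr ⟨j, hj, rfl⟩)

/-- `E2` is generated by five elements; `trdeg_resI_lt` with `p = a'' - a'`. -/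
theorem trdeg_resI_E2 (rm : RMap C P φ) (t : Fin 4 → M) (a' a'' : M) (hne : a' ≠ a'')
    (hv : P.valuation (a'' - a') < 1) : Algebra.trdeg C (resI rm (E2 C t a' a'')) ≤ 4 := by
  have hset : Set.range (![t 0 + a', t 0 + a'', t 1, t 2, t 3] : Fin 5 → M) =
      {t 0 + a', t 0 + a''} ∪ t '' {j | j ≠ 0} := by
    apply Set.Subset.antisymm
    · rintro _ ⟨i, rfl⟩
      fin_cases i
      · exact Or.inl (Or.inl rfl)
      · exact Or.inl (Or.inr rfl)
      · exact Or.inr ⟨1, by decide, rfl⟩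
      · exact Or.inr ⟨2, by decide, rfl⟩
      · exact Or.inr ⟨3, by decide, rfl⟩
    · rintro z ((rfl | hz) | ⟨j, hj, rfl⟩)
      · exact ⟨0, rfl⟩
      · rw [Set.mem_singleton_iff] at hz
        rw [hz]
        exact ⟨1, rfl⟩
      · fin_cases j
        · exact absurd rfl hj
        · exact ⟨2, rfl⟩
        · exact ⟨3, rfl⟩
        · exact ⟨4, rfl⟩
  have h5 : Algebra.trdeg C (E2 C t a' a'') ≤ (4 + 1 : ℕ) := by
    have h1 := trdeg_adjoin_range (k := C) (![t 0 + a', t 0 + a'', t 1, t 2, t 3] : Fin 5 → M)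
    rw [hset] at h1
    exact h1
  refine trdeg_resI_lt rm (E2 C t a' a'') 4 h5 (a'' - a') ?_ (sub_ne_zero.2 (Ne.symm hne)) hv
  have h1 : a'' - a' = (t 0 + a'') - (t 0 + a') := by ring
  rw [h1]
  exact sub_mem (G14_mem2 t a' a'') (G14_mem1 t a' a'')

/-- `pA G t b = G (1, t 0 + b, t 1, t 2, t 3)` has coordinates in `E2`, so `fe f (pA G t b) i ∈ E2`; if `φ (r j) ≠ 0` then
`φ (r i) / φ (r j)` is the residue of `r i / r j = fe i / fe j`. -/
theorem ratio_E2 (rm : RMap C P φ) (f : Fin 6 → MvPolynomial (Fin 5) k0)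
    (G : Fin 5 → Fin 5 → C) (t : Fin 4 → M) (a' a'' b c : M) (hb : t 0 + b ∈ E2 C t a' a'')
    (hc : c ≠ 0) (r : Fin 6 → P) (hr : ∀ i, (r i : M) * c = fe f (pA G t b) i) (i j : Fin 6) :
    φ (r i) / φ (r j) ∈ resI rm (E2 C t a' a'') := by
  by_cases h0 : φ (r j) = 0
  · rw [h0, div_zero]
    exact zero_mem _
  have hpA : ∀ i, pA G t b i ∈ E2 C t a' a'' := by
    intro i
    have h1 : pA G t b i = algebraMap C M (G i 0) + algebraMap C M (G i 1) * (t 0 + b) +
        algebraMap C M (G i 2) * t 1 + algebraMap C M (G i 3) * t 2 +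
        algebraMap C M (G i 4) * t 3 := by
      have h2 : pA G t b i = (algebraMap C M (G i 0) * 1 + algebraMap C M (G i 1) * t 0 +
          algebraMap C M (G i 2) * t 1 + algebraMap C M (G i 3) * t 2 +
          algebraMap C M (G i 4) * t 3) + b * algebraMap C M (G i 1) := by
        unfold pA pt
        rw [Fin.sum_univ_five]
        rfl
      rw [h2]
      ring
    rw [h1]
    have hC : ∀ c : C, algebraMap C M c ∈ E2 C t a' a'' := fun c =>
      (E2 C t a' a'').algebraMap_mem c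
    refine add_mem (add_mem (add_mem (add_mem (hC _) (mul_mem (hC _) hb)) (mul_mem (hC _) ?_))
      (mul_mem (hC _) ?_)) (mul_mem (hC _) ?_)
    · exact G14_mem3 t a' a'' 1 (by decide)
    · exact G14_mem3 t a' a'' 2 (by decide)
    · exact G14_mem3 t a' a'' 3 (by decide)
  have hfe : ∀ i, fe f (pA G t b) i ∈ E2 C t a' a'' := fun i =>
    fe_mem f ((E2 C t a' a'').restrictScalars k0) (pA G t b) hpA i
  have hv1 : P.valuation (r j : M) = 1 := by
    refine le_antisymm ((P.valuation_le_one_iff _).2 (r j).2) (not_lt.1 fun h => h0 ((rm.zero _).2 h))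
  have hrj : (r j : M) ≠ 0 := by
    intro h
    rw [h, map_zero] at hv1
    exact zero_ne_one hv1
  have hinv : ((r j : M)⁻¹) ∈ P := by
    rw [← P.valuation_le_one_iff, map_inv₀, hv1, inv_one]
  rw [mem_resI]
  refine ⟨r i * ⟨(r j : M)⁻¹, hinv⟩, ?_, ?_⟩
  · have h1 : ((r i * ⟨(r j : M)⁻¹, hinv⟩ : P) : M) =
        fe f (pA G t b) i / fe f (pA G t b) j := by
      rw [← hr i, ← hr j]
      show (r i : M) * (r j : M)⁻¹ = _
      field_simp
    rw [h1]
    exact div_mem (hfe i) (hfe j)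
  · rw [map_mul, div_eq_mul_inv]
    congr 1
    have h4 : r j * ⟨(r j : M)⁻¹, hinv⟩ = 1 := Subtype.ext (mul_inv_cancel₀ hrj)
    have h5 : φ (r j) * φ ⟨(r j : M)⁻¹, hinv⟩ = 1 := by rw [← map_mul, h4, map_one]
    exact eq_inv_of_mul_eq_one_right h5

/-- the points on the line through the two shifted points -/
theorem mem_E2 (t : Fin 4 → M) (a' a'' : M) (n : ℤ) :
    t 0 + (a' + (n : M) * (a'' - a')) ∈ E2 C t a' a'' := by
  have h1 : t 0 + (a' + (n : M) * (a'' - a')) =
      ((1 - n : ℤ) : M) * (t 0 + a') + (n : M) * (t 0 + a'') := by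
    push_cast
    ring
  rw [h1]
  exact add_mem (mul_mem (intCast_mem _ _) (G14_mem1 t a' a''))
    (mul_mem (intCast_mem _ _) (G14_mem2 t a' a''))

end MP2619.Q5
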