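import Mathlib

/-!
Row 2619q5-G15: the field of definition of a subspace
-/

set_option autoImplicit false

namespace MP2619.Q5

private theorem G15_inj {N ι : Type} [Field N] [Finite ι] (U : Submodule N (ι → N)) :
    ∃ σ : Fin (Module.finrank N U) → ι, ∀ v ∈ U, (∀ k, v (σ k) = 0) → v = 0 := by
  classical
  have := Fintype.ofFinite ι
  obtain ⟨κ, a, ha, hspan, hli⟩ := exists_linearIndependent' N
    (fun i : ι => ((LinearMap.proj i : (ι → N) →ₗ[N] N).comp U.subtype))
  have : Finite κ := Finite.of_injective a ha
  have := Fintype.ofFinite κ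
  have hcard : Fintype.card κ ≤ Module.finrank N U := by
    have h1 := hli.fintype_card_le_finrank
    have h2 : Module.finrank N (U →ₗ[N] N) = Module.finrank N U := Subspace.dual_finrank_eq
    omega
  by_cases hn : Module.finrank N U = 0
  · refine ⟨fun k => absurd k.2 (by omega), ?_⟩
    intro v hv _
    have h3 : U = ⊥ := Submodule.finrank_eq_zero.1 hn
    rw [h3] at hv
    exact (Submodule.mem_bot N).1 hv
  have hι : Nonempty ι := by
    by_contra h
    rw [not_nonempty_iff] at h
    apply hn
    rw [Submodule.finrank_eq_zero, Submodule.eq_bot_iff]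
    intro v _
    funext i
    exact (h.false i).elim
  obtain ⟨i0⟩ := hι
  let g : κ ≃ Fin (Fintype.card κ) := Fintype.equivFin κ
  refine ⟨fun k => if h : (k : ℕ) < Fintype.card κ then a (g.symm ⟨k, h⟩) else i0, ?_⟩
  intro v hv h0
  have h1 : ∀ x : κ, v (a x) = 0 := by
    intro x
    have h2 := h0 ⟨g x, lt_of_lt_of_le (g x).2 hcard⟩
    simpa using h2
  have h2 : ∀ ℓ ∈ Submodule.span N (Set.range
      (fun i : ι => ((LinearMap.proj i : (ι → N) →ₗ[N] N).comp U.subtype))), ℓ ⟨v, hv⟩ = 0 := by
    intro ℓ hℓ
    rw [← hspan] at hℓ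
    induction hℓ using Submodule.span_induction with
    | mem x hx =>
      obtain ⟨y, rfl⟩ := hx
      exact h1 y
    | zero => rfl
    | add x y _ _ hx hy => rw [LinearMap.add_apply, hx, hy, add_zero]
    | smul c x _ hx => rw [LinearMap.smul_apply, hx, smul_zero]
  funext i
  exact h2 _ (Submodule.subset_span ⟨i, rfl⟩)

/-- Choose a set `I` of coordinates such that the projection `U → (I → N)` is bijective (`n = finrank`), `b` = the preimages of the
unit vectors. If `U` is spanned by vectors over `K`: choose a basis of `U` among them; the projection to `I` of the `K`-span is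
injective, so bijective onto `I → K` by dimension, so `b k` is in the `K`-span. `θ`: the vector `θ (b k)` is in `U` and has the same
projection as `b k`. -/
theorem exists_pivot_basis {N ι : Type} [Field N] [Finite ι] (U : Submodule N (ι → N)) :
    ∃ b : Fin (Module.finrank N U) → ι → N, LinearIndependent N b ∧
      Submodule.span N (Set.range b) = U ∧
      (∀ K : Subfield N, (∃ S : Set (ι → N), (∀ v ∈ S, ∀ i, v i ∈ K) ∧ Submodule.span N S = U) →
        ∀ k i, b k i ∈ K) ∧
      ∀ θ : N ≃+* N, (∀ v ∈ U, (fun i => θ (v i)) ∈ U) → ∀ k i, θ (b k i) = b k i := by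
  classical
  have := Fintype.ofFinite ι
  obtain ⟨σ, hσ⟩ := G15_inj U
  let p : U →ₗ[N] (Fin (Module.finrank N U) → N) := (LinearMap.funLeft N N σ).comp U.subtype
  have hp : ∀ (v : U) k, p v k = (v : ι → N) (σ k) := fun v k => rfl
  have hpi : Function.Injective p := by
    rw [injective_iff_map_eq_zero]
    intro v hv
    refine Subtype.ext (hσ v v.2 fun k => ?_)
    rw [← hp, hv]
    rfl
  let e : U ≃ₗ[N] (Fin (Module.finrank N U) → N) :=
    LinearEquiv.ofInjectiveOfFinrankEq p hpi (by simp)
  have he : ∀ (v : U) k, e v k = (v : ι → N) (σ k) := fun v k => rfl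
  let bb : Module.Basis (Fin (Module.finrank N U)) N U := Module.Basis.ofEquivFun e
  let b : Fin (Module.finrank N U) → ι → N := fun k => (bb k : ι → N)
  have hbσ : ∀ k k', b k (σ k') = if k' = k then 1 else 0 := by
    intro k k'
    have h1 : e (bb k) = Pi.single k 1 := by
      simp [bb]
    show ((bb k : U) : ι → N) (σ k') = _
    rw [← he, h1, Pi.single_apply]
  have huniq : ∀ k, ∀ v ∈ U, (∀ k', v (σ k') = if k' = k then 1 else 0) → v = b k := by
    intro k v hv h
    have := hσ (v - b k) (U.sub_mem hv (bb k).2) (fun k' => by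
      rw [Pi.sub_apply, h, hbσ, sub_self])
    exact sub_eq_zero.1 this
  refine ⟨b, ?_, ?_, ?_, ?_⟩
  · exact bb.linearIndependent.map' U.subtype (Submodule.ker_subtype U)
  · have h1 : Set.range b = U.subtype '' Set.range bb := by
      rw [← Set.range_comp]; rfl
    rw [h1, Submodule.span_image, bb.span_eq, Submodule.map_top, Submodule.range_subtype]
  · rintro K ⟨S, hSK, hSU⟩ k i
    obtain ⟨κ, a, ha, hspan, hli⟩ := exists_linearIndependent' N (fun s : S => (s : ι → N))
    have hcU : ∀ x : κ, (a x : ι → N) ∈ U := by
      intro x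
      rw [← hSU]
      exact Submodule.subset_span (a x).2
    have hspanU : Submodule.span N (Set.range ((fun s : S => (s : ι → N)) ∘ a)) = U := by
      rw [hspan, Subtype.range_coe_subtype]
      exact hSU
    have : Finite κ := hli.finite
    have := Fintype.ofFinite κ
    have hcard : Fintype.card κ = Module.finrank N U := by
      have h1 := finrank_span_eq_card hli
      rw [hspanU] at h1
      exact h1.symm
    let g : Fin (Module.finrank N U) ≃ κ := (Fintype.equivFinOfCardEq hcard).symm
    let s : Fin (Module.finrank N U) → ι → N := fun j => (a (g j) : ι → N)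
    have hsK : ∀ j i, s j i ∈ K := fun j i => hSK _ (a (g j)).2 i
    have hsU : ∀ j, s j ∈ U := fun j => hcU _
    have hsli : LinearIndependent N s := hli.comp g g.injective
    let M : Matrix (Fin (Module.finrank N U)) (Fin (Module.finrank N U)) K :=
      Matrix.of fun j k' => (⟨s j (σ k'), hsK _ _⟩ : K)
    have hM : (M.map K.subtype).row = fun j => p ⟨s j, hsU j⟩ := by
      funext j k'
      rfl
    have hrow : LinearIndependent N (M.map K.subtype).row := by
      rw [hM]
      have h1 : LinearIndependent N (fun j => (⟨s j, hsU j⟩ : U)) :=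
        LinearIndependent.of_comp U.subtype hsli
      exact h1.map' p (LinearMap.ker_eq_bot.2 hpi)
    rw [Matrix.linearIndependent_rows_iff_isUnit] at hrow
    have hdet : M.det ≠ 0 := by
      intro h0
      have h1 := (Matrix.isUnit_iff_isUnit_det _).1 hrow
      have h2 : (M.map K.subtype).det = K.subtype M.det := by
        rw [RingHom.map_det]; rfl
      rw [h2, h0, map_zero] at h1
      exact not_isUnit_zero h1
    have hCM : M⁻¹ * M = 1 := Matrix.nonsing_inv_mul M (isUnit_iff_ne_zero.2 hdet)
    have hb : b k = ∑ j, ((M⁻¹ k j : K) : N) • s j := by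
      symm
      refine huniq k _ (U.sum_mem fun j _ => U.smul_mem _ (hsU j)) fun k' => ?_
      have h1 := congrFun (congrFun hCM k) k'
      rw [Matrix.mul_apply] at h1
      have h2 := congrArg K.subtype h1
      rw [map_sum] at h2
      rw [Finset.sum_apply]
      calc ∑ j, (((M⁻¹ k j : K) : N) • s j) (σ k') = ∑ j, K.subtype (M⁻¹ k j * M j k') := by
            refine Finset.sum_congr rfl fun j _ => ?_
            rw [map_mul]
            rfl
        _ = _ := by
            rw [h2, Matrix.one_apply]
            by_cases h : k' = k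
            · subst h; simp
            · rw [if_neg (Ne.symm h), if_neg h, map_zero]
    rw [hb, Finset.sum_apply]
    exact K.sum_mem fun j _ => K.mul_mem (M⁻¹ k j).2 (hsK j i)
  · intro θ hθ k i
    have h1 := huniq k (fun i => θ (b k i)) (hθ _ (bb k).2) (fun k' => by
      show θ (b k (σ k')) = _
      rw [hbσ]
      split_ifs <;> simp)
    exact congrFun h1 i

end MP2619.Q5
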