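import Pool.Agent.Lib.MP_2619d0_ag.Q5.GDefs

/-!
Row 2619q5-G16: a quadratic form vanishing on the curve
-/

set_option autoImplicit false

namespace MP2619.Q5

open scoped NNReal
open IntermediateField MP2619.R MP2619.N Pool.Agent.Lib.MP_2619d0_ag Pool.Agent.Lib.MP_2619d0_ag.T

private theorem G16_li {N : Type} [Field N] (b : Fin 3 → Fin 6 → N) (hb : LinearIndependent N b)
    (x0 x1 x2 : N) (h : ∀ i, x0 * b 0 i + x1 * b 1 i + x2 * b 2 i = 0) :
    x0 = 0 ∧ x1 = 0 ∧ x2 = 0 := by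
  have h1 := Fintype.linearIndependent_iff.1 hb ![x0, x1, x2] (by
    funext i
    rw [Fin.sum_univ_three]
    exact h i)
  exact ⟨h1 0, h1 1, h1 2⟩

/-- the six tensors -/
private def G16_s {K : Type} [Field K] (b : Fin 3 → Fin 6 → K) (i : Fin 6) (q : Fin 6 × Fin 6) : K :=
  ![b 0 q.1 * b 0 q.2, b 1 q.1 * b 1 q.2, b 2 q.1 * b 2 q.2, b 1 q.1 * b 2 q.2 + b 2 q.1 * b 1 q.2,
    b 0 q.1 * b 2 q.2 + b 2 q.1 * b 0 q.2, b 0 q.1 * b 1 q.2 + b 1 q.1 * b 0 q.2] i

private theorem G16_sum {K : Type} [Field K] (b : Fin 3 → Fin 6 → K) (g : Fin 6 → K)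
    (q : Fin 6 × Fin 6) : ∑ i, g i * G16_s b i q =
      (g 0 * b 0 q.2 + g 5 * b 1 q.2 + g 4 * b 2 q.2) * b 0 q.1 +
      (g 5 * b 0 q.2 + g 1 * b 1 q.2 + g 3 * b 2 q.2) * b 1 q.1 +
      (g 4 * b 0 q.2 + g 3 * b 1 q.2 + g 2 * b 2 q.2) * b 2 q.1 := by
  rw [Fin.sum_univ_six]
  show g 0 * (b 0 q.1 * b 0 q.2) + g 1 * (b 1 q.1 * b 1 q.2) + g 2 * (b 2 q.1 * b 2 q.2) +
    g 3 * (b 1 q.1 * b 2 q.2 + b 2 q.1 * b 1 q.2) + g 4 * (b 0 q.1 * b 2 q.2 + b 2 q.1 * b 0 q.2) +
    g 5 * (b 0 q.1 * b 1 q.2 + b 1 q.1 * b 0 q.2) = _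
  ring

private theorem G16_ind {K : Type} [Field K] (b : Fin 3 → Fin 6 → K)
    (hb : LinearIndependent K b) : LinearIndependent K (G16_s b) := by
  rw [Fintype.linearIndependent_iff]
  intro g hg
  have h1 : ∀ q : Fin 6 × Fin 6, ∑ i, g i * G16_s b i q = 0 := by
    intro q
    have h2 := congrFun hg q
    rw [Finset.sum_apply] at h2
    exact h2
  have h3 : ∀ j, g 0 * b 0 j + g 5 * b 1 j + g 4 * b 2 j = 0 ∧
      g 5 * b 0 j + g 1 * b 1 j + g 3 * b 2 j = 0 ∧
      g 4 * b 0 j + g 3 * b 1 j + g 2 * b 2 j = 0 := by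
    intro j
    refine G16_li b hb _ _ _ fun i => ?_
    have h4 := h1 (i, j)
    rw [G16_sum] at h4
    exact h4
  have h5 := G16_li b hb _ _ _ fun j => (h3 j).1
  have h6 := G16_li b hb _ _ _ fun j => (h3 j).2.1
  have h7 := G16_li b hb _ _ _ fun j => (h3 j).2.2
  intro i
  fin_cases i
  · exact h5.1
  · exact h6.2.1
  · exact h7.2.2
  · exact h6.2.2
  · exact h5.2.2
  · exact h5.2.1

private theorem G16_sq {N : Type} [Field N] (b : Fin 3 → Fin 6 → N) (X : Fin 3 → N)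
    (q : Fin 6 × Fin 6) : sq (cv b X) (cv b X) q = X 0 ^ 2 * G16_s b 0 q + X 1 ^ 2 * G16_s b 1 q +
      X 2 ^ 2 * G16_s b 2 q + X 1 * X 2 * G16_s b 3 q + X 0 * X 2 * G16_s b 4 q +
      X 0 * X 1 * G16_s b 5 q := by
  show (∑ k, X k * b k q.1) * (∑ k, X k * b k q.2) =
    X 0 ^ 2 * (b 0 q.1 * b 0 q.2) + X 1 ^ 2 * (b 1 q.1 * b 1 q.2) + X 2 ^ 2 * (b 2 q.1 * b 2 q.2) +
    X 1 * X 2 * (b 1 q.1 * b 2 q.2 + b 2 q.1 * b 1 q.2) +
    X 0 * X 2 * (b 0 q.1 * b 2 q.2 + b 2 q.1 * b 0 q.2) +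
    X 0 * X 1 * (b 0 q.1 * b 1 q.2 + b 1 q.1 * b 0 q.2)
  rw [Fin.sum_univ_three, Fin.sum_univ_three]
  ring

private theorem G16_cast {N : Type} [Field N] (K : Subfield N) (b : Fin 3 → Fin 6 → K)
    (i : Fin 6) (q : Fin 6 × Fin 6) : ((G16_s b i q : K) : N) =
      G16_s (fun k i => (b k i : N)) i q := by
  fin_cases i <;> rfl

/-- The six tensors `s = (b0⊗b0, b1⊗b1, b2⊗b2, b1⊗b2 + b2⊗b1, b0⊗b2 + b2⊗b0, b0⊗b1 + b1⊗b0)` have entries in `K` and are linearly
independent (over `K`: complete to the tensor basis), the `c k` span over `K` a space of dimension at most five, so there is a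
`K`-linear functional `λ` (a vector with coordinates in `K`) on `K^(6×6)` which vanishes on the `c k` and not on all `s i`;
`d i = λ (s i)`. `sq (cv b X) (cv b X) = X0² s0 + X1² s1 + X2² s2 + X1 X2 s3 + X0 X2 s4 + X0 X1 s5`. -/
theorem exists_quad {N : Type} [Field N] (K : Subfield N) (b : Fin 3 → Fin 6 → N)
    (hbK : ∀ k i, b k i ∈ K) (hb : LinearIndependent N b) {m : ℕ} (hm : m ≤ 5)
    (c : Fin m → Fin 6 × Fin 6 → N) (hcK : ∀ k q, c k q ∈ K) :
    ∃ d : Fin 6 → N, (∀ i, d i ∈ K) ∧ d ≠ 0 ∧ ∀ X : Fin 3 → N,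
      sq (cv b X) (cv b X) ∈ Submodule.span N (Set.range c) → qf d X = 0 := by
  classical
  obtain ⟨bK, hbK'⟩ : ∃ bK : Fin 3 → Fin 6 → K, b = fun k i => (bK k i : N) :=
    ⟨fun k i => ⟨b k i, hbK k i⟩, rfl⟩
  obtain ⟨cK, hcK'⟩ : ∃ cK : Fin m → Fin 6 × Fin 6 → K, c = fun k q => (cK k q : N) :=
    ⟨fun k q => ⟨c k q, hcK k q⟩, rfl⟩
  have hbi : LinearIndependent K bK := by
    rw [Fintype.linearIndependent_iff]
    intro g hg
    have h1 := Fintype.linearIndependent_iff.1 hb (fun k => (g k : N)) (by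
      funext i
      have h2 := congrArg (K.subtype) (congrFun hg i)
      rw [Finset.sum_apply, map_sum] at h2
      rw [Finset.sum_apply, hbK']
      simpa using h2)
    intro k
    exact Subtype.ext (h1 k)
  have hs := G16_ind bK hbi
  obtain ⟨i0, hi0⟩ : ∃ i, G16_s bK i ∉ Submodule.span K (Set.range cK) := by
    by_contra hcon
    push Not at hcon
    have h1 : Submodule.span K (Set.range (G16_s bK)) ≤ Submodule.span K (Set.range cK) := by
      rw [Submodule.span_le]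
      rintro _ ⟨i, rfl⟩
      exact hcon i
    have h2 := Submodule.finrank_mono h1
    rw [finrank_span_eq_card hs] at h2
    have h3 := finrank_range_le_card (R := K) cK
    rw [Set.finrank] at h3
    simp only [Fintype.card_fin] at h2 h3
    omega
  obtain ⟨lam, hl2, hl1⟩ := Submodule.exists_le_ker_of_notMem hi0
  let lamN : (Fin 6 × Fin 6 → N) →ₗ[N] N :=
    Fintype.linearCombination N (fun q => ((lam (Pi.single q 1) : K) : N))
  have hlamN : ∀ v : Fin 6 × Fin 6 → K, lamN (fun q => (v q : N)) = ((lam v : K) : N) := by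
    intro v
    have h1 : lam v = ∑ q, v q * lam (Pi.single q 1) := by
      conv_lhs => rw [← Finset.univ_sum_single v]
      rw [map_sum]
      refine Finset.sum_congr rfl fun q _ => ?_
      have h2 : (Pi.single q (v q) : Fin 6 × Fin 6 → K) = v q • Pi.single q 1 := by
        rw [← Pi.single_smul, smul_eq_mul, mul_one]
      rw [h2, map_smul, smul_eq_mul]
    rw [h1]
    simp only [lamN, Fintype.linearCombination_apply, smul_eq_mul]
    push_cast
    rfl
  refine ⟨fun i => ((lam (G16_s bK i) : K) : N), fun i => (lam (G16_s bK i)).2, ?_, ?_⟩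
  · intro h0
    have h1 := congrFun h0 i0
    exact hl2 (Subtype.ext h1)
  · intro X hX
    have h1 : ∀ v ∈ Submodule.span N (Set.range c), lamN v = 0 := by
      intro v hv
      induction hv using Submodule.span_induction with
      | mem x hx =>
        obtain ⟨k, rfl⟩ := hx
        rw [hcK', hlamN]
        have h2 : lam (cK k) = 0 := hl1 (Submodule.subset_span ⟨k, rfl⟩)
        rw [h2]
        rfl
      | zero => exact map_zero _
      | add x y _ _ hx hy => rw [map_add, hx, hy, add_zero]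
      | smul a x _ hx => rw [map_smul, hx, smul_zero]
    have h2 := h1 _ hX
    have h3 : sq (cv b X) (cv b X) = X 0 ^ 2 • (fun q => ((G16_s bK 0 q : K) : N)) +
        X 1 ^ 2 • (fun q => ((G16_s bK 1 q : K) : N)) +
        X 2 ^ 2 • (fun q => ((G16_s bK 2 q : K) : N)) +
        (X 1 * X 2) • (fun q => ((G16_s bK 3 q : K) : N)) +
        (X 0 * X 2) • (fun q => ((G16_s bK 4 q : K) : N)) +
        (X 0 * X 1) • (fun q => ((G16_s bK 5 q : K) : N)) := by
      funext q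
      rw [G16_sq]
      simp only [Pi.add_apply, Pi.smul_apply, smul_eq_mul, G16_cast, hbK']
    rw [h3] at h2
    simp only [map_add, map_smul, hlamN, smul_eq_mul] at h2
    unfold qf
    linear_combination h2

end MP2619.Q5
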