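import Pool.Agent.Lib.MP_2619d0_ag.Q5.G2
import Pool.Agent.Lib.MP_2619d0_ag.Q5.G15
import Pool.Agent.Lib.MP_2619d0_ag.Q5.G16
import Pool.Agent.Lib.MP_2619d0_ag.Q2.TR2

/-!
Row 2619q5-G17: from the curve to the hypotheses of CPL
-/

set_option autoImplicit false

namespace MP2619.Q5

open scoped NNReal
open IntermediateField MP2619.R MP2619.N Pool.Agent.Lib.MP_2619d0_ag Pool.Agent.Lib.MP_2619d0_ag.T

variable {C B N : Type} [Field C] [Field B] [Field N] [Algebra C B] [Algebra B N] [Algebra C N]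
  [IsScalarTower C B N]

/-- the elements of `K ⊓ R` fixed by `θ` -/
private def G17_fix (K R : IntermediateField C N) (θ : N ≃ₐ[B] N) : IntermediateField C N where
  carrier := {m | m ∈ K ∧ m ∈ R ∧ θ m = m}
  mul_mem' := by
    rintro a b ⟨h1, h2, h3⟩ ⟨h4, h5, h6⟩
    exact ⟨K.mul_mem h1 h4, R.mul_mem h2 h5, by rw [map_mul, h3, h6]⟩
  add_mem' := by
    rintro a b ⟨h1, h2, h3⟩ ⟨h4, h5, h6⟩
    exact ⟨K.add_mem h1 h4, R.add_mem h2 h5, by rw [map_add, h3, h6]⟩
  algebraMap_mem' := fun c => ⟨K.algebraMap_mem c, R.algebraMap_mem c, by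
    rw [IsScalarTower.algebraMap_apply C B N]
    exact θ.commutes _⟩
  inv_mem' := by
    rintro a ⟨h1, h2, h3⟩
    exact ⟨K.inv_mem h1, R.inv_mem h2, by rw [map_inv₀, h3]⟩

private theorem G17_mem (K R : IntermediateField C N) (θ : N ≃ₐ[B] N) (m : N) :
    m ∈ G17_fix K R θ ↔ m ∈ K ∧ m ∈ R ∧ θ m = m := Iff.rfl

private theorem G17_mono (E F : IntermediateField C N) (h : E ≤ F) (D : ℕ)
    (hF : Algebra.trdeg C F ≤ D) : Algebra.trdeg C E ≤ D := by
  by_contra hD
  obtain ⟨b, hb⟩ := card_of_not_le hD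
  have h1 : AlgebraicIndependent C (fun i => (⟨(b i : N), h (b i).2⟩ : F)) := by
    refine AlgebraicIndependent.of_comp F.val ?_
    exact hb.map' (f := E.val) E.val.injective
  have h3 := h1.lift_cardinalMk_le_trdeg
  have h4 : ((D + 1 : ℕ) : Cardinal) ≤ Algebra.trdeg C F := by
    simpa using h3
  have h5 := h4.trans hF
  have h6 : D + 1 ≤ D := by exact_mod_cast h5
  omega

/-- a vector in the span of a finite family -/
private theorem G17_span {m n : ℕ} (b : Fin m → Fin n → N) (x : Fin n → N)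
    (hx : x ∈ Submodule.span N (Set.range b)) : ∃ X : Fin m → N, x = cv b X := by
  obtain ⟨X, hX⟩ := (Submodule.mem_span_range_iff_exists_fun N).1 hx
  refine ⟨X, ?_⟩
  rw [← hX]
  funext i
  simp only [cv, Finset.sum_apply, Pi.smul_apply, smul_eq_mul]

/-- six independent elements do not fit into a space of dimension at most two and one coordinate -/
private theorem G17_dim (K0 : IntermediateField B N) (h0 : Algebra.trdeg B K0 ≤ (2 : ℕ))
    (x y : Fin 6 → N) (w : B) (a : Fin 6)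
    (hind : AlgebraicIndependent B (zg w x y (Pi.single a 1))) {m : ℕ} (b : Fin m → Fin 6 → N)
    (hb : ∀ k i, b k i ∈ K0) (X Y : Fin m → N) (hX : x = cv b X) (hY : y = cv b Y) : 3 ≤ m := by
  classical
  by_contra hm
  have hm2 : m ≤ 2 := by omega
  obtain ⟨s, hs⟩ : ∃ s : Fin (m + 1) → N,
      s = Fin.cons ((algebraMap B N w - 1) * x a) (fun k => X k + Y k) := ⟨_, rfl⟩
  have hF := MP2619.TL.trdeg_adjoin_fin_le (k := K0) s
  obtain ⟨F, hFd⟩ : ∃ F : IntermediateField K0 N, F = adjoin K0 (Set.range s) := ⟨_, rfl⟩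
  rw [← hFd] at hF
  have hsF : ∀ i, s i ∈ F := fun i => by
    rw [hFd]
    exact subset_adjoin _ _ ⟨i, rfl⟩
  have hbF : ∀ k i, b k i ∈ F := fun k i => by
    have := F.algebraMap_mem (⟨b k i, hb k i⟩ : K0)
    exact this
  have hzg : ∀ i, zg w x y (Pi.single a 1) i ∈ F := by
    intro i
    have h1 : (∑ k, s k.succ * b k i) = x i + y i := by
      rw [hs, hX, hY]
      simp only [Fin.cons_succ, cv]
      rw [← Finset.sum_add_distrib]
      refine Finset.sum_congr rfl fun k _ => ?_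
      ring
    have h2 : x i + y i ∈ F := by
      rw [← h1]
      exact sum_mem fun k _ => F.mul_mem (hsF _) (hbF _ _)
    by_cases hi : i = a
    · subst hi
      have h3 : zg w x y (Pi.single i 1) i = s 0 + (x i + y i) := by
        rw [hs]
        simp only [zg, Pi.single_eq_same, Fin.cons_zero]
        have : (1 : ZMod 3).val = 1 := rfl
        rw [this, pow_one]
        ring
      rw [h3]
      exact F.add_mem (hsF _) h2
    · have h3 : zg w x y (Pi.single a 1) i = x i + y i := by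
        simp only [zg, Pi.single_eq_of_ne hi]
        rw [ZMod.val_zero, pow_zero, map_one, one_mul]
      rw [h3]
      exact h2
  have h1 : AlgebraicIndependent B
      (fun i => (⟨zg w x y (Pi.single a 1) i, hzg i⟩ : F)) := by
    have : IsScalarTower B F N := IsScalarTower.of_algebraMap_eq fun c => rfl
    refine AlgebraicIndependent.of_comp (IsScalarTower.toAlgHom B F N) ?_
    exact hind
  have h3 := h1.lift_cardinalMk_le_trdeg
  have h4 : ((6 : ℕ) : Cardinal) ≤ Algebra.trdeg B F := by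
    simpa using h3
  have : FaithfulSMul K0 F :=
    (faithfulSMul_iff_algebraMap_injective K0 F).2 (algebraMap K0 F).injective
  have h5 := trdeg_add_eq B K0 (A := F)
  rw [← h5] at h4
  have h6 := h4.trans (add_le_add h0 hF)
  have h7 : 6 ≤ 2 + (m + 1) := by exact_mod_cast h6
  omega

/-- `K0 = adjoin B {m ∈ K ⊓ R | θ m = m}`, `trdeg B K0 ≤ 2` (`trdeg_adjoin_le`), `θ` fixes `K0`. Pivot bases `b` of
`U1 = span S1` and `c` of `U2 = span S2` have entries in `K`, in `R` and fixed by `θ`, so in `K0` (`exists_pivot_basis`). If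
`finrank U1 ≤ 2`: `zg` is in the span of `b` and of the unit vector `e_a`, so in the field generated over `K0` by three
elements: `trdeg ≤ 2 + 3`, contradiction to `hind`. So `finrank U1 = 3`; `exists_quad`. -/
theorem fin_cpl (K R : IntermediateField C N)
    (hKR : Algebra.trdeg C (K ⊓ R : IntermediateField C N) ≤ 2) (θ : N ≃ₐ[B] N) (x y : Fin 6 → N)
    (hθx : ∀ i, θ (x i) = y i) (hθy : ∀ i, θ (y i) = x i) (w : B) (a : Fin 6)
    (hind : AlgebraicIndependent B (zg w x y (Pi.single a 1)))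
    (S1 S1' : Set (Fin 6 → N)) (h1 : ∀ v ∈ S1, ∀ i, v i ∈ K) (h1' : ∀ v ∈ S1', ∀ i, v i ∈ R)
    (hs1 : Submodule.span N S1' = Submodule.span N S1)
    (hθ1 : ∀ v ∈ Submodule.span N S1, (fun i => θ (v i)) ∈ Submodule.span N S1)
    (hd1 : Module.finrank N (Submodule.span N S1) ≤ 3) (hx1 : x ∈ Submodule.span N S1)
    (hy1 : y ∈ Submodule.span N S1)
    (S2 S2' : Set (Fin 6 × Fin 6 → N)) (h2 : ∀ v ∈ S2, ∀ i, v i ∈ K)
    (h2' : ∀ v ∈ S2', ∀ i, v i ∈ R) (hs2 : Submodule.span N S2' = Submodule.span N S2)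
    (hθ2 : ∀ v ∈ Submodule.span N S2, (fun i => θ (v i)) ∈ Submodule.span N S2)
    (hd2 : Module.finrank N (Submodule.span N S2) ≤ 5) (hx2 : sq x x ∈ Submodule.span N S2)
    (hy2 : sq y y ∈ Submodule.span N S2) : CPLD B x y := by
  classical
  obtain ⟨K1, hK1⟩ : ∃ K1 : IntermediateField C N, K1 = G17_fix K R θ := ⟨_, rfl⟩
  have hK1m : ∀ m, m ∈ K1 ↔ m ∈ K ∧ m ∈ R ∧ θ m = m := fun m => by
    rw [hK1]
    exact G17_mem K R θ m
  have hK1t : Algebra.trdeg C K1 ≤ (2 : ℕ) := by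
    refine G17_mono K1 (K ⊓ R) ?_ 2 (by exact_mod_cast hKR)
    intro m hm
    obtain ⟨ha, hb, -⟩ := (hK1m m).1 hm
    exact ⟨ha, hb⟩
  obtain ⟨K0, hK0⟩ : ∃ K0 : IntermediateField B N, K0 = adjoin B (K1 : Set N) := ⟨_, rfl⟩
  have hK0t : Algebra.trdeg B K0 ≤ (2 : ℕ) := by
    rw [hK0]
    exact trdeg_adjoin_le K1 2 hK1t
  have hsub : ∀ m, m ∈ K1 → m ∈ K0 := fun m hm => by
    rw [hK0]
    exact subset_adjoin _ _ hm
  have hfix : ∀ m ∈ K0, θ m = m := by
    intro m hm
    rw [hK0] at hm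
    induction hm using IntermediateField.adjoin_induction with
    | mem m hm => exact ((hK1m m).1 hm).2.2
    | algebraMap c => exact θ.commutes c
    | add m n _ _ h3 h4 => rw [map_add, h3, h4]
    | inv m _ h3 => rw [map_inv₀, h3]
    | mul m n _ _ h3 h4 => rw [map_mul, h3, h4]
  -- the two pivot bases
  obtain ⟨b, hbi, hbs, hbK, hbθ⟩ := exists_pivot_basis (Submodule.span N S1)
  obtain ⟨c, hci, hcs, hcK, hcθ⟩ := exists_pivot_basis (Submodule.span N S2)
  have hbm : ∀ k i, b k i ∈ K0 := fun k i => hsub _ ((hK1m _).2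
    ⟨hbK K.toSubfield ⟨S1, h1, rfl⟩ k i, hbK R.toSubfield ⟨S1', h1', hs1⟩ k i,
      hbθ (θ : N ≃+* N) hθ1 k i⟩)
  have hcm : ∀ k i, c k i ∈ K0 := fun k i => hsub _ ((hK1m _).2
    ⟨hcK K.toSubfield ⟨S2, h2, rfl⟩ k i, hcK R.toSubfield ⟨S2', h2', hs2⟩ k i,
      hcθ (θ : N ≃+* N) hθ2 k i⟩)
  rw [← hbs] at hx1 hy1
  obtain ⟨X, hX⟩ := G17_span b x hx1
  obtain ⟨Y, hY⟩ := G17_span b y hy1
  have hm3 := G17_dim K0 hK0t x y w a hind b hbm X Y hX hY
  have hm : Module.finrank N (Submodule.span N S1) = 3 := le_antisymm hd1 hm3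
  generalize Module.finrank N (Submodule.span N S1) = m at hm b hbi hbs hbm X Y hX hY
  subst hm
  obtain ⟨d, hdK, hd0, hd⟩ := exists_quad K0.toSubfield b hbm hbi hd2 c hcm
  refine ⟨K0, fun k i => ⟨b k i, hbm k i⟩, fun i => ⟨d i, hdK i⟩, X, Y, θ, by exact_mod_cast hK0t,
    hbi, ?_, hX, hY, ?_, ?_, hfix, hθx, hθy⟩
  · intro h3
    apply hd0
    funext i
    have h4 := congrFun h3 i
    exact congrArg Subtype.val h4
  · refine hd X ?_
    rw [hcs, ← hX]
    exact hx2
  · refine hd Y ?_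
    rw [hcs, ← hY]
    exact hy2

end MP2619.Q5
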