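import Pool.Agent.Lib.MP_2619d0_ag.Q5.G10
import Pool.Agent.Lib.MP_2619d0_ag.Q5.G11
import Pool.Agent.Lib.MP_2619d0_ag.Q5.G13
import Pool.Agent.Lib.MP_2619d0_ag.Q5.G14
import Pool.Agent.Lib.MP_2619d0_ag.Q5.G17
import Pool.Agent.Lib.MP_2619d0_ag.Q5.C10b

/-!
Row 2619q5-G18: case (ii)
-/

set_option autoImplicit false

namespace MP2619.Q5

open scoped NNReal
open IntermediateField MP2619.R MP2619.N Pool.Agent.Lib.MP_2619d0_ag Pool.Agent.Lib.MP_2619d0_ag.T

/-- the vector `∑ s^k A_k` -/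
private def G18_ev {N ι : Type} [Field N] {m : ℕ} (A : Fin m → ι → N) (s : N) : ι → N :=
  fun i => ∑ k : Fin m, s ^ k.val * A k i

private theorem G18_ev_mem {N ι : Type} [Field N] {m : ℕ} (A : Fin m → ι → N) (s : N) :
    G18_ev A s ∈ Submodule.span N (Set.range A) := by
  have h : G18_ev A s = ∑ k : Fin m, s ^ k.val • A k := by
    funext i
    simp [G18_ev, Finset.sum_apply]
  rw [h]
  exact Submodule.sum_mem _ fun k _ => Submodule.smul_mem _ _ (Submodule.subset_span ⟨k, rfl⟩)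

private theorem G18_vand {N ι : Type} [Field N] {m : ℕ} (A : Fin m → ι → N) (s : Fin m → N)
    (hs : Function.Injective s) :
    Submodule.span N (Set.range fun n => G18_ev A (s n)) = Submodule.span N (Set.range A) := by
  refine le_antisymm (Submodule.span_le.2 ?_) (Submodule.span_le.2 ?_)
  · rintro _ ⟨n, rfl⟩
    exact G18_ev_mem A (s n)
  · rintro _ ⟨k, rfl⟩
    have hdet : IsUnit (Matrix.vandermonde s).det :=
      isUnit_iff_ne_zero.2 (Matrix.det_vandermonde_ne_zero_iff.2 hs)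
    have h1 : (Matrix.vandermonde s)⁻¹ * Matrix.vandermonde s = 1 := Matrix.nonsing_inv_mul _ hdet
    have h2 : A k = ∑ n, (Matrix.vandermonde s)⁻¹ k n • G18_ev A (s n) := by
      funext i
      have h3 : ∀ l : Fin m, ∑ n, (Matrix.vandermonde s)⁻¹ k n * s n ^ l.val =
          (1 : Matrix (Fin m) (Fin m) N) k l := by
        intro l
        rw [← h1, Matrix.mul_apply]
        rfl
      simp only [Finset.sum_apply, Pi.smul_apply, smul_eq_mul, G18_ev, Finset.mul_sum]
      rw [Finset.sum_comm]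
      have h4 : ∀ l : Fin m, ∑ n, (Matrix.vandermonde s)⁻¹ k n * (s n ^ l.val * A l i) =
          (1 : Matrix (Fin m) (Fin m) N) k l * A l i := by
        intro l
        rw [← h3 l, Finset.sum_mul]
        exact Finset.sum_congr rfl fun n _ => by ring
      rw [Finset.sum_congr rfl fun l _ => h4 l]
      simp [Matrix.one_apply]
    rw [h2]
    exact Submodule.sum_mem _ fun n _ => Submodule.smul_mem _ _ (Submodule.subset_span ⟨n, rfl⟩)

/-- the coefficients of the tensor square -/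
private def G18_C5 {N : Type} [Field N] (A : Fin 3 → Fin 6 → N) : Fin 5 → Fin 6 × Fin 6 → N :=
  ![fun q => A 0 q.1 * A 0 q.2,
    fun q => A 0 q.1 * A 1 q.2 + A 1 q.1 * A 0 q.2,
    fun q => A 0 q.1 * A 2 q.2 + A 2 q.1 * A 0 q.2 + A 1 q.1 * A 1 q.2,
    fun q => A 1 q.1 * A 2 q.2 + A 2 q.1 * A 1 q.2,
    fun q => A 2 q.1 * A 2 q.2]

private theorem G18_ev_sq {N : Type} [Field N] (A : Fin 3 → Fin 6 → N) (s : N) :
    sq (G18_ev A s) (G18_ev A s) = G18_ev (G18_C5 A) s := by
  funext q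
  simp only [sq, G18_ev, G18_C5, Fin.sum_univ_succ, Fin.sum_univ_zero]
  simp
  ring

open Classical in
/-- a multiple with a coordinate one -/
private noncomputable def G18_nrm {N ι : Type} [Field N] (v : ι → N) : ι → N :=
  if h : ∃ j, v j ≠ 0 then fun i => v i / v h.choose else 0

private theorem G18_nrm_eq {N ι : Type} [Field N] (v : ι → N) :
    ∃ c : N, c ≠ 0 ∧ G18_nrm v = c • v := by
  by_cases h : ∃ j, v j ≠ 0
  · refine ⟨(v h.choose)⁻¹, inv_ne_zero h.choose_spec, ?_⟩
    unfold G18_nrm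
    rw [dif_pos h]
    funext i
    rw [Pi.smul_apply, smul_eq_mul, div_eq_inv_mul]
  · refine ⟨1, one_ne_zero, ?_⟩
    unfold G18_nrm
    rw [dif_neg h, one_smul]
    push Not at h
    funext i
    exact (h i).symm

private theorem G18_nrm_span {N ι : Type} [Field N] {m : ℕ} (v : Fin m → ι → N) :
    Submodule.span N (Set.range fun n => G18_nrm (v n)) = Submodule.span N (Set.range v) := by
  refine le_antisymm (Submodule.span_le.2 ?_) (Submodule.span_le.2 ?_)
  · rintro _ ⟨n, rfl⟩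
    obtain ⟨c, _, hc⟩ := G18_nrm_eq (v n)
    show G18_nrm (v n) ∈ _
    rw [hc]
    exact Submodule.smul_mem _ _ (Submodule.subset_span ⟨n, rfl⟩)
  · rintro _ ⟨n, rfl⟩
    obtain ⟨c, hc0, hc⟩ := G18_nrm_eq (v n)
    have h2 : v n = c⁻¹ • G18_nrm (v n) := by
      rw [hc, smul_smul, inv_mul_cancel₀ hc0, one_smul]
    rw [h2]
    exact Submodule.smul_mem _ _ (Submodule.subset_span ⟨n, rfl⟩)

private theorem G18_nrm_mem {C N ι : Type} [Field C] [Field N] [Algebra C N]
    (R : IntermediateField C N) (v : ι → N) (h : ∀ i j, v i / v j ∈ R) (i : ι) :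
    G18_nrm v i ∈ R := by
  unfold G18_nrm
  split
  · exact h _ _
  · exact R.zero_mem

private theorem G18_stab {B N ι : Type} [Field B] [Field N] [Algebra B N] (θ : N ≃ₐ[B] N)
    (S : Set (ι → N)) {m : ℕ} (v : Fin m → ι → N)
    (hS : Submodule.span N (Set.range v) = Submodule.span N S)
    (hv : ∀ n, (fun i => θ (v n i)) ∈ Submodule.span N S) :
    ∀ z ∈ Submodule.span N S, (fun i => θ (z i)) ∈ Submodule.span N S := by
  intro z hz
  rw [← hS] at hz
  induction hz using Submodule.span_induction with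
  | mem x hx =>
    obtain ⟨n, rfl⟩ := hx
    exact hv n
  | zero =>
    have h : (fun i => θ ((0 : ι → N) i)) = 0 := by
      funext i
      simp
    rw [h]
    exact Submodule.zero_mem _
  | add x y _ _ hx hy =>
    have h : (fun i => θ ((x + y) i)) = (fun i => θ (x i)) + fun i => θ (y i) := by
      funext i
      simp
    rw [h]
    exact Submodule.add_mem _ hx hy
  | smul c x _ hx =>
    have h : (fun i => θ ((c • x) i)) = θ c • fun i => θ (x i) := by
      funext i
      simp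
    rw [h]
    exact Submodule.smul_mem _ _ hx

variable {k0 C B M N : Type} [Field k0] [Field C] [Field B] [Field M] [Field N] [Algebra k0 C]
  [Algebra k0 B] [Algebra k0 M] [Algebra k0 N] [Algebra C B] [Algebra C M] [Algebra C N]
  [Algebra B M] [Algebra B N] [IsScalarTower k0 C B] [IsScalarTower k0 C M] [IsScalarTower k0 C N]
  [IsScalarTower k0 B M] [IsScalarTower k0 B N] [IsScalarTower C B M] [IsScalarTower C B N]
  {f : Fin 6 → MvPolynomial (Fin 5) k0} {G : Fin 5 → Fin 5 → C} {ε : M} {t : Fin 4 → M} {α β : M}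
  {σ : M ≃ₐ[B] M} {P : ValuationSubring M} {φ : P →+* N} {x y : Fin 6 → P} {w : B} {a : Fin 6}

private theorem G18_ev3 (A : Fin 3 → Fin 6 → N) (s : N) (i : Fin 6) :
    G18_ev A s i = A 0 i + s * A 1 i + s ^ 2 * A 2 i := by
  simp [G18_ev, Fin.sum_univ_three]

private theorem G18_val {rmC : RMap C P φ} {Mm : IntermediateField C M} {ϖ : M}
    {A : Fin 3 → Fin 6 → N}
    (hII : CaseII rmC Mm f (pA G t 0) (fun j => algebraMap C M (G j 1)) ε ϖ A) (s : P) :
    ∃ r : Fin 6 → P, (∀ i, (r i : M) * ϖ = fe f (pA G t ((s : M) * ε)) i) ∧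
      ∀ i, φ (r i) = G18_ev A (φ s) i := by
  obtain ⟨r, h1, h2⟩ := hII.val s
  refine ⟨r, fun i => ?_, fun i => ?_⟩
  · rw [h1 i]
    congr 1
    funext j
    simp only [pA]
    ring
  · rw [h2 i, G18_ev3]

/-- the automorphism of the residue field -/
private theorem G18_theta (E : Esc f G ε t α β σ P φ x y w a) (rmC : RMap C P φ)
    {Mm : IntermediateField C M} {ϖ : M} {A : Fin 3 → Fin 6 → N}
    (hII : CaseII rmC Mm f (pA G t 0) (fun j => algebraMap C M (G j 1)) ε ϖ A) :
    ∃ (θ : N ≃ₐ[B] N) (u : N), (∀ i, θ (φ (x i)) = φ (y i)) ∧ (∀ i, θ (φ (y i)) = φ (x i)) ∧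
      ∀ c : C, (fun i => θ (G18_ev A (algebraMap C N c) i)) =
        u • G18_ev A (algebraMap C N (1 - c)) := by
  obtain ⟨θ, hθ⟩ := exists_res_aut σ P E.sig φ E.rm
  have hσϖ : σ ϖ ≠ 0 := fun h => hII.ne (by
    have := congrArg σ.symm h
    rwa [σ.symm_apply_apply, map_zero] at this)
  have hu : ϖ / σ ϖ ∈ P := by
    rw [← P.valuation_le_one_iff]
    have h1 := esc_unit E ϖ hII.ne
    rw [← inv_div, map_inv₀, h1, inv_one]
  refine ⟨θ, φ ⟨ϖ / σ ϖ, hu⟩, fun i => ?_, fun i => ?_, fun c => ?_⟩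
  · rw [hθ]
    congr 1
    refine Subtype.ext ?_
    show σ (x i : M) = (y i : M)
    rw [E.x_eq, E.y_eq, map_mul, E.s_a, esc_sig_fe E, map_zero, add_zero]
  · rw [hθ]
    congr 1
    refine Subtype.ext ?_
    show σ (y i : M) = (x i : M)
    rw [E.x_eq, E.y_eq, map_mul, E.s_b, esc_sig_fe E, E.s_e, add_neg_cancel]
  · obtain ⟨r, hr1, hr2⟩ := G18_val hII ⟨algebraMap C M c, rmC.cst c⟩
    obtain ⟨r', hr1', hr2'⟩ := G18_val hII ⟨algebraMap C M (1 - c), rmC.cst (1 - c)⟩
    funext i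
    rw [rmC.alg] at hr2 hr2'
    rw [← hr2 i, hθ, Pi.smul_apply, smul_eq_mul, ← hr2' i, ← map_mul]
    congr 1
    refine Subtype.ext ?_
    show σ (r i : M) = ϖ / σ ϖ * (r' i : M)
    have h3 : σ (r i : M) * σ ϖ = (r' i : M) * ϖ := by
      rw [← map_mul, hr1 i, hr1' i, esc_sig_fe E]
      congr 2
      show ε + σ (algebraMap C M c * ε) = algebraMap C M (1 - c) * ε
      rw [map_mul, E.s_e, IsScalarTower.algebraMap_apply C B M c, σ.commutes,
        ← IsScalarTower.algebraMap_apply, map_sub, map_one]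
      ring
    rw [div_mul_eq_mul_div, mul_comm ϖ, ← h3, mul_div_assoc, div_self hσϖ, mul_one]

/-- Notation `A(h) = A 0 + h A 1 + h² A 2` for `h : N`. `K = resI rmC (adjoin ..)`, `a' = h0 ε`, `a'' = h1 ε`,
`R = resI rmC (E2 C t a' a'')`, `trdeg C R ≤ 4`. `x̄` is a multiple of `A(0)` and `ȳ` of `A(1)` (`res_par`; `val` for `h = 0, 1`),
so by `esc_not_par` `A(0)`, `A(1)` are linearly independent. `core` with the quotients of `curv` for `h0` and `h1`
(`hII.val`, `ratio_E2`, `mem_E2` for `n = 0, 1`): `trdeg C (K ⊓ R) ≤ 2`.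
`fin_cpl`: `S1 = {A 0, A 1, A 2}`, `S1'` = the vectors `A(h) / A(h) j` (`A(h) j ≠ 0`), `h = h0 + n (h1 - h0)`, `n = 0, 1, 2`
(if `A(h) = 0` take the zero vector; they span by Vandermonde, the three `h` are distinct).
`S2` = the five coefficients of `sq A(h) A(h)` in `h`, `S2'` = the same with five values `n = 0, .., 4`.
`θ` = `exists_res_aut` (C10b): `σ (f(pA G t (h ε))) = f(pA G t ((1 - h) ε))` for integers `h` (`esc_sig_fe`), so
`θ (A(h)) = u * A(1 - h)`, `u` = the residue of `ϖ / σ ϖ` (`esc_unit`), for `h = 0, 1, .., 4`: stability of both spans. -/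
theorem caseII_cpl (E : Esc f G ε t α β σ P φ x y w a) (rm0 : RMap k0 P φ) (rmC : RMap C P φ)
    (h3 : Algebra.trdeg k0 (resI rm0 (rat k0 (pA G t 0))) ≤ 3) (h : Fin 2 → B)
    (hh : AlgebraicIndependent C h) (ϖ : M) (A : Fin 3 → Fin 6 → N)
    (hII : CaseII rmC (adjoin C ({ε, α, β} ∪ Set.range t)) f (pA G t 0)
      (fun j => algebraMap C M (G j 1)) ε ϖ A) :
    CPLD B (fun i => φ (x i)) (fun i => φ (y i)) := by
  classical
  obtain ⟨θ, u, hθx, hθy, hθA⟩ := G18_theta E rmC hII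
  -- the two points
  obtain ⟨c1, hc1⟩ : ∃ c0 : N, ∀ i, φ (x i) = c0 * G18_ev A 0 i := by
    obtain ⟨r, hr1, hr2⟩ := G18_val hII 0
    rw [map_zero] at hr2
    obtain ⟨c0, hc0⟩ := res_par rmC x r (α * ϖ) (fun i => by
      rw [E.x_eq, mul_assoc, mul_comm ϖ, hr1 i]
      congr 2
      show pA G t 0 = pA G t ((0 : M) * ε)
      rw [zero_mul]) (by
        by_contra hcon
        push Not at hcon
        refine hII.A0 (funext fun i => ?_)
        have h1 := hcon i
        rw [hr2 i, G18_ev3] at h1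
        simpa using h1)
    exact ⟨c0, fun i => by rw [hc0 i, hr2 i]⟩
  obtain ⟨c2, hc2⟩ : ∃ c0 : N, ∀ i, φ (y i) = c0 * G18_ev A 1 i := by
    obtain ⟨r, hr1, hr2⟩ := G18_val hII 1
    rw [map_one] at hr2
    obtain ⟨c0, hc0⟩ := res_par rmC y r (β * ϖ) (fun i => by
      rw [E.y_eq, mul_assoc, mul_comm ϖ, hr1 i]
      congr 2
      show pA G t ε = pA G t ((1 : M) * ε)
      rw [one_mul]) (by
        by_contra hcon
        push Not at hcon
        refine hII.A1 (funext fun i => ?_)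
        have h1 := hcon i
        rw [hr2 i, G18_ev3] at h1
        simpa using h1)
    exact ⟨c0, fun i => by rw [hc0 i, hr2 i]⟩
  have he0 : G18_ev A 0 = A 0 := by
    funext i
    rw [G18_ev3]
    ring
  have he1 : G18_ev A 1 = A 0 + A 1 + A 2 := by
    funext i
    rw [G18_ev3]
    simp
  have hlin : LinearIndependent N ![A 0, A 0 + A 1 + A 2] := by
    rw [LinearIndependent.pair_iff' hII.A0]
    intro c hc
    refine esc_not_par E rm0 h3 (A 0) c1 (c2 * c) (fun i => ?_) (fun i => ?_)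
    · rw [hc1 i, he0]
    · rw [hc2 i, he1, ← hc, Pi.smul_apply, smul_eq_mul, mul_assoc]
  -- the fields
  have hind := esc_h_ind E rmC h hh
  have hhB : Function.Injective h := hh.injective
  have hBM : Function.Injective (algebraMap B M) := (algebraMap B M).injective
  set a' : M := algebraMap B M (h 0) * ε with ha'
  set a'' : M := algebraMap B M (h 1) * ε with ha''
  have hne : a' ≠ a'' := by
    intro h1
    have h2 := hBM (mul_right_cancel₀ E.e0 h1)
    exact absurd (hhB h2) (by decide)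
  have hv : P.valuation (a'' - a') < 1 := by
    rw [ha', ha'', ← sub_mul, ← map_sub, map_mul]
    have h1 : P.valuation (algebraMap B M (h 1 - h 0)) ≤ 1 :=
      (P.valuation_le_one_iff _).2 (E.rm.cst _)
    exact lt_of_le_of_lt (mul_le_of_le_one_left' h1) E.eps
  set K := resI rmC (adjoin C ({ε, α, β} ∪ Set.range t)) with hK
  set R := resI rmC (E2 C t a' a'') with hR
  have hR4 : Algebra.trdeg C R ≤ 4 := trdeg_resI_E2 rmC t a' a'' hne hv
  have hRq : ∀ (s : P), t 0 + (s : M) * ε ∈ E2 C t a' a'' → ∀ i j,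
      G18_ev A (φ s) i / G18_ev A (φ s) j ∈ R := by
    intro s hs i j
    obtain ⟨r, hr1, hr2⟩ := G18_val hII s
    rw [← hr2 i, ← hr2 j]
    exact ratio_E2 rmC f G t a' a'' ((s : M) * ε) ϖ hs hII.ne r hr1 i j
  have hKR : Algebra.trdeg C (K ⊓ R : IntermediateField C N) ≤ 2 := by
    have hq : ∀ m : Fin 2, ∃ z : N, z ∈ R ∧
        z ∈ adjoin K ({algebraMap B N (h m)} : Set N) ∧ z ∉ K := by
      intro m
      obtain ⟨i, j, hij⟩ := curv K (algebraMap B N (h m)) (hind.transcendental m) A hII.AK hlin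
      refine ⟨_, ?_, curv_mem K (algebraMap B N (h m)) A hII.AK i j, hij⟩
      have h1 := hRq ⟨algebraMap B M (h m), E.rm.cst _⟩ (by
        show t 0 + algebraMap B M (h m) * ε ∈ E2 C t a' a''
        unfold E2
        refine subset_adjoin _ _ ?_
        fin_cases m
        · exact Or.inl (Or.inl rfl)
        · exact Or.inl (Or.inr rfl)) i j
      rw [E.rm.alg, G18_ev3, G18_ev3] at h1
      exact h1
    choose r hr0 hr1 hr2 using hq
    exact core K R _ hind hR4 r hr0 hr1 hr2
  -- distinct constants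
  have hCinf : Infinite C := (E.indG.transcendental (0, 0)).infinite
  let γ : ℕ → C := Infinite.natEmbedding C
  have hγ : Function.Injective γ := (Infinite.natEmbedding C).injective
  have hCN : Function.Injective (algebraMap C N) := (algebraMap C N).injective
  have hfin : ∀ m : ℕ, Function.Injective fun n : Fin m => algebraMap C N (γ n.val) :=
    fun m n n' hn => Fin.ext (hγ (hCN hn))
  let sh : ℕ → P := fun n => ⟨algebraMap B M (h 0) +
    algebraMap C M (γ n) * algebraMap B M (h 1 - h 0),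
    P.add_mem _ _ (E.rm.cst _) (P.mul_mem _ _ (rmC.cst _) (E.rm.cst _))⟩
  have hsh : ∀ n, φ (sh n) = algebraMap B N (h 0) +
      algebraMap C N (γ n) * algebraMap B N (h 1 - h 0) := by
    intro n
    rw [← E.rm.alg (h 0), ← E.rm.alg (h 1 - h 0), ← rmC.alg (γ n), ← map_mul, ← map_add]
    rfl
  have hshinj : ∀ m : ℕ, Function.Injective fun n : Fin m => φ (sh n.val) := by
    intro m n n' hn
    have h1 : φ (sh n.val) = φ (sh n'.val) := hn
    rw [hsh, hsh] at h1
    have h2 : algebraMap B N (h 1 - h 0) ≠ 0 := by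
      intro h4
      have h5 := (algebraMap B N).injective (h4.trans (map_zero _).symm)
      exact absurd (hhB (sub_eq_zero.1 h5)) (by decide)
    exact hfin m (mul_right_cancel₀ h2 (add_left_cancel h1))
  have hshR : ∀ n i j, G18_ev A (φ (sh n)) i / G18_ev A (φ (sh n)) j ∈ R := by
    intro n
    refine hRq (sh n) ?_
    have h1 : t 0 + (sh n : M) * ε = (t 0 + a') +
        algebraMap C M (γ n) * ((t 0 + a'') - (t 0 + a')) := by
      show t 0 + (algebraMap B M (h 0) +
        algebraMap C M (γ n) * algebraMap B M (h 1 - h 0)) * ε = _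
      rw [ha', ha'', map_sub]
      ring
    rw [h1]
    have h2 : t 0 + a' ∈ E2 C t a' a'' := subset_adjoin _ _ (Or.inl (Or.inl rfl))
    have h4 : t 0 + a'' ∈ E2 C t a' a'' := subset_adjoin _ _ (Or.inl (Or.inr rfl))
    exact add_mem h2 (mul_mem (IntermediateField.algebraMap_mem _ _) (sub_mem h4 h2))
  refine fin_cpl K R hKR θ (fun i => φ (x i)) (fun i => φ (y i)) hθx hθy w a E.ind
    (Set.range A) (Set.range fun n : Fin 3 => G18_nrm (G18_ev A (φ (sh n.val)))) ?_ ?_ ?_ ?_ ?_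
    ?_ ?_
    (Set.range (G18_C5 A))
    (Set.range fun n : Fin 5 => G18_nrm (G18_ev (G18_C5 A) (φ (sh n.val)))) ?_ ?_ ?_ ?_ ?_ ?_ ?_
  · rintro _ ⟨k, rfl⟩ i
    exact hII.AK k i
  · rintro _ ⟨n, rfl⟩ i
    exact G18_nrm_mem R _ (hshR n.val) i
  · rw [G18_nrm_span, G18_vand A _ (hshinj 3)]
  · refine G18_stab θ _ _ (G18_vand A _ (hfin 3)) (fun n => ?_)
    rw [hθA]
    exact Submodule.smul_mem _ _ (G18_ev_mem A _)
  · exact finrank_range_le_card A
  · have h1 : (fun i => φ (x i)) = c1 • G18_ev A 0 := funext hc1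
    rw [h1]
    exact Submodule.smul_mem _ _ (G18_ev_mem A _)
  · have h1 : (fun i => φ (y i)) = c2 • G18_ev A 1 := funext hc2
    rw [h1]
    exact Submodule.smul_mem _ _ (G18_ev_mem A _)
  · rintro _ ⟨k, rfl⟩ q
    have hA := hII.AK
    fin_cases k
    · exact mul_mem (hA 0 q.1) (hA 0 q.2)
    · exact add_mem (mul_mem (hA 0 q.1) (hA 1 q.2)) (mul_mem (hA 1 q.1) (hA 0 q.2))
    · exact add_mem (add_mem (mul_mem (hA 0 q.1) (hA 2 q.2)) (mul_mem (hA 2 q.1) (hA 0 q.2)))
        (mul_mem (hA 1 q.1) (hA 1 q.2))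
    · exact add_mem (mul_mem (hA 1 q.1) (hA 2 q.2)) (mul_mem (hA 2 q.1) (hA 1 q.2))
    · exact mul_mem (hA 2 q.1) (hA 2 q.2)
  · rintro _ ⟨n, rfl⟩ q
    refine G18_nrm_mem R _ (fun p q => ?_) q
    rw [← G18_ev_sq]
    show G18_ev A (φ (sh n.val)) p.1 * G18_ev A (φ (sh n.val)) p.2 /
      (G18_ev A (φ (sh n.val)) q.1 * G18_ev A (φ (sh n.val)) q.2) ∈ R
    rw [mul_div_mul_comm]
    exact mul_mem (hshR _ _ _) (hshR _ _ _)
  · rw [G18_nrm_span, G18_vand (G18_C5 A) _ (hshinj 5)]
  · refine G18_stab θ _ _ (G18_vand (G18_C5 A) _ (hfin 5)) (fun n => ?_)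
    have h1 : (fun q => θ (G18_ev (G18_C5 A) (algebraMap C N (γ n.val)) q)) =
        (u * u) • G18_ev (G18_C5 A) (algebraMap C N (1 - γ n.val)) := by
      rw [← G18_ev_sq, ← G18_ev_sq]
      funext q
      have h2 := congrFun (hθA (γ n.val)) q.1
      have h4 := congrFun (hθA (γ n.val)) q.2
      simp only [Pi.smul_apply, smul_eq_mul, sq] at h2 h4 ⊢
      rw [map_mul, h2, h4]
      ring
    rw [h1]
    exact Submodule.smul_mem _ _ (G18_ev_mem _ _)
  · exact finrank_range_le_card (G18_C5 A)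
  · have h1 : sq (fun i => φ (x i)) (fun i => φ (x i)) =
        (c1 * c1) • G18_ev (G18_C5 A) 0 := by
      rw [← G18_ev_sq]
      funext q
      simp only [sq, Pi.smul_apply, smul_eq_mul]
      rw [hc1, hc1]
      ring
    rw [h1]
    exact Submodule.smul_mem _ _ (G18_ev_mem _ _)
  · have h1 : sq (fun i => φ (y i)) (fun i => φ (y i)) =
        (c2 * c2) • G18_ev (G18_C5 A) 1 := by
      rw [← G18_ev_sq]
      funext q
      simp only [sq, Pi.smul_apply, smul_eq_mul]
      rw [hc2, hc2]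
      ring
    rw [h1]
    exact Submodule.smul_mem _ _ (G18_ev_mem _ _)

end MP2619.Q5
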