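import Pool.Agent.Lib.MP_2619d0_ag.Q5.G10
import Pool.Agent.Lib.MP_2619d0_ag.Q5.G11
import Pool.Agent.Lib.MP_2619d0_ag.Q5.G13
import Pool.Agent.Lib.MP_2619d0_ag.Q5.G14
import Pool.Agent.Lib.MP_2619d0_ag.Q5.G17
import Pool.Agent.Lib.MP_2619d0_ag.Q5.C10b

/-!
Row 2619q5-G19: case (iii)
-/

set_option autoImplicit false

namespace MP2619.Q5

open scoped NNReal
open IntermediateField MP2619.R MP2619.N Pool.Agent.Lib.MP_2619d0_ag Pool.Agent.Lib.MP_2619d0_ag.T

/-- semilinear image of a span -/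
private theorem G19_semi {N ι : Type} [Field N] (θ : N →+* N) (S : Set (ι → N))
    (U : Submodule N (ι → N)) (hS : ∀ v ∈ S, (fun i => θ (v i)) ∈ U) :
    ∀ v ∈ Submodule.span N S, (fun i => θ (v i)) ∈ U := by
  intro v hv
  induction hv using Submodule.span_induction with
  | mem x hx => exact hS x hx
  | zero =>
    have h1 : (fun i => θ ((0 : ι → N) i)) = 0 := by
      funext i
      simp
    rw [h1]
    exact U.zero_mem
  | add x y _ _ hx hy =>
    have h1 : (fun i => θ ((x + y) i)) = (fun i => θ (x i)) + fun i => θ (y i) := by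
      funext i
      simp
    rw [h1]
    exact U.add_mem hx hy
  | smul c x _ hx =>
    have h1 : (fun i => θ ((c • x) i)) = θ c • fun i => θ (x i) := by
      funext i
      simp
    rw [h1]
    exact U.smul_mem _ hx

/-- the five tensors -/
private def G19_T {N : Type} [Field N] (x y d : Fin 6 → N) : Fin 5 → Fin 6 × Fin 6 → N :=
  ![sq x x, sq x d + sq d x, sq d d, sq y y, sq y d + sq d y]

private theorem G19_T_mem {N : Type} [Field N] (x y d x' y' d' : Fin 6 → N) (p q s v r : N)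
    (hx : x = p • x' + q • d') (hy : y = s • y' + v • d') (hd : d = r • d') (k : Fin 5) :
    G19_T x y d k ∈ Submodule.span N (Set.range (G19_T x' y' d')) := by
  have hm : ∀ k, G19_T x' y' d' k ∈ Submodule.span N (Set.range (G19_T x' y' d')) :=
    fun k => Submodule.subset_span ⟨k, rfl⟩
  have e0 : sq x x = p ^ 2 • G19_T x' y' d' 0 + (p * q) • G19_T x' y' d' 1 +
      q ^ 2 • G19_T x' y' d' 2 := by
    funext i
    simp [G19_T, sq, hx]
    ring
  have e1 : sq x d + sq d x = (p * r) • G19_T x' y' d' 1 + (2 * q * r) • G19_T x' y' d' 2 := by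
    funext i
    simp [G19_T, sq, hx, hd]
    ring
  have e2 : sq d d = r ^ 2 • G19_T x' y' d' 2 := by
    funext i
    simp [G19_T, sq, hd]
    ring
  have e3 : sq y y = s ^ 2 • G19_T x' y' d' 3 + (s * v) • G19_T x' y' d' 4 +
      v ^ 2 • G19_T x' y' d' 2 := by
    funext i
    simp [G19_T, sq, hy]
    ring
  have e4 : sq y d + sq d y = (s * r) • G19_T x' y' d' 4 + (2 * v * r) • G19_T x' y' d' 2 := by
    funext i
    simp [G19_T, sq, hy, hd]
    ring
  fin_cases k
  · change sq x x ∈ _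
    rw [e0]
    exact add_mem (add_mem (Submodule.smul_mem _ _ (hm _)) (Submodule.smul_mem _ _ (hm _)))
      (Submodule.smul_mem _ _ (hm _))
  · change sq x d + sq d x ∈ _
    rw [e1]
    exact add_mem (Submodule.smul_mem _ _ (hm _)) (Submodule.smul_mem _ _ (hm _))
  · change sq d d ∈ _
    rw [e2]
    exact Submodule.smul_mem _ _ (hm _)
  · change sq y y ∈ _
    rw [e3]
    exact add_mem (add_mem (Submodule.smul_mem _ _ (hm _)) (Submodule.smul_mem _ _ (hm _)))
      (Submodule.smul_mem _ _ (hm _))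
  · change sq y d + sq d y ∈ _
    rw [e4]
    exact add_mem (Submodule.smul_mem _ _ (hm _)) (Submodule.smul_mem _ _ (hm _))

private theorem G19_T_swap {N : Type} [Field N] (x y d : Fin 6 → N) :
    Submodule.span N (Set.range (G19_T y x d)) ≤ Submodule.span N (Set.range (G19_T x y d)) := by
  rw [Submodule.span_le]
  rintro _ ⟨k, rfl⟩
  refine Submodule.subset_span ?_
  fin_cases k
  · exact ⟨3, rfl⟩
  · exact ⟨4, rfl⟩
  · exact ⟨2, rfl⟩
  · exact ⟨0, rfl⟩
  · exact ⟨1, rfl⟩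

private theorem G19_sq_mem {C N : Type} [Field C] [Field N] [Algebra C N]
    (K : IntermediateField C N) (x y d : Fin 6 → N) (hx : ∀ i, x i ∈ K) (hy : ∀ i, y i ∈ K)
    (hd : ∀ i, d i ∈ K) : ∀ v ∈ Set.range (G19_T x y d), ∀ i, v i ∈ K := by
  rintro _ ⟨k, rfl⟩ q
  fin_cases k
  · exact mul_mem (hx _) (hx _)
  · exact add_mem (mul_mem (hx _) (hd _)) (mul_mem (hd _) (hx _))
  · exact mul_mem (hd _) (hd _)
  · exact mul_mem (hy _) (hy _)
  · exact add_mem (mul_mem (hy _) (hd _)) (mul_mem (hd _) (hy _))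

/-- the linear algebra -/
private theorem G19_fin {C B N : Type} [Field C] [Field B] [Field N] [Algebra C B] [Algebra B N]
    [Algebra C N] [IsScalarTower C B N] (K R : IntermediateField C N)
    (hKR : Algebra.trdeg C (K ⊓ R : IntermediateField C N) ≤ 2) (θ : N ≃ₐ[B] N)
    (x y xh yh d : Fin 6 → N) (cx cy h0 h1 : N) (hx : x = cx • xh) (hy : y = cy • yh)
    (hcx : cx ≠ 0) (hcy : cy ≠ 0) (hθx : ∀ i, θ (x i) = y i) (hθy : ∀ i, θ (y i) = x i)
    (w : B) (a : Fin 6) (hind : AlgebraicIndependent B (zg w x y (Pi.single a 1)))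
    (hxK : ∀ i, xh i ∈ K) (hyK : ∀ i, yh i ∈ K) (hdK : ∀ i, d i ∈ K) (hθd : ∀ i, θ (d i) = d i)
    (hRx : ∀ i j, (xh i - h0 * d i) / (xh j - h0 * d j) ∈ R)
    (hRy : ∀ i j, (yh i + h1 * d i) / (yh j + h1 * d j) ∈ R)
    (hRd : ∀ i j, d i / d j ∈ R) (hd0 : d ≠ 0) (hx0 : (fun i => xh i - h0 * d i) ≠ 0)
    (hy0 : (fun i => yh i + h1 * d i) ≠ 0) : CPLD B x y := by
  obtain ⟨jx, hjx⟩ := Function.ne_iff.1 hx0
  obtain ⟨jy, hjy⟩ := Function.ne_iff.1 hy0
  obtain ⟨jd, hjd⟩ := Function.ne_iff.1 hd0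
  simp only [Pi.zero_apply] at hjx hjy hjd
  let X' : Fin 6 → N := fun i => (xh i - h0 * d i) / (xh jx - h0 * d jx)
  let Y' : Fin 6 → N := fun i => (yh i + h1 * d i) / (yh jy + h1 * d jy)
  let D' : Fin 6 → N := fun i => d i / d jd
  have eD : d = d jd • D' := by
    funext i
    simp only [D', Pi.smul_apply, smul_eq_mul]
    field_simp
  have eD' : D' = (d jd)⁻¹ • d := by
    funext i
    simp only [D', Pi.smul_apply, smul_eq_mul]
    field_simp
  have eX : xh = (xh jx - h0 * d jx) • X' + (h0 * d jd) • D' := by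
    funext i
    simp only [X', D', Pi.add_apply, Pi.smul_apply, smul_eq_mul]
    field_simp
    ring
  have eX' : X' = (xh jx - h0 * d jx)⁻¹ • xh + (-(h0 * (xh jx - h0 * d jx)⁻¹)) • d := by
    funext i
    simp only [X', Pi.add_apply, Pi.smul_apply, smul_eq_mul]
    field_simp
    ring
  have eY : yh = (yh jy + h1 * d jy) • Y' + (-(h1 * d jd)) • D' := by
    funext i
    simp only [Y', D', Pi.add_apply, Pi.smul_apply, smul_eq_mul]
    field_simp
    ring
  have eY' : Y' = (yh jy + h1 * d jy)⁻¹ • yh + (h1 * (yh jy + h1 * d jy)⁻¹) • d := by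
    funext i
    simp only [Y', Pi.add_apply, Pi.smul_apply, smul_eq_mul]
    field_simp
  -- the action of `θ`
  have hcx' : θ cx ≠ 0 := (map_ne_zero θ).2 hcx
  have hcy' : θ cy ≠ 0 := (map_ne_zero θ).2 hcy
  have hθxh : (fun i => θ (xh i)) = ((θ cx)⁻¹ * cy) • yh := by
    funext i
    have e1 := hθx i
    rw [hx, hy] at e1
    simp only [Pi.smul_apply, smul_eq_mul, map_mul] at e1 ⊢
    rw [mul_assoc, ← e1]
    field_simp
  have hθyh : (fun i => θ (yh i)) = ((θ cy)⁻¹ * cx) • xh := by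
    funext i
    have e1 := hθy i
    rw [hx, hy] at e1
    simp only [Pi.smul_apply, smul_eq_mul, map_mul] at e1 ⊢
    rw [mul_assoc, ← e1]
    field_simp
  have hθd' : (fun i => θ (d i)) = d := funext hθd
  -- spans
  have m1 : ∀ k, ![xh, yh, d] k ∈ Submodule.span N (Set.range ![xh, yh, d]) :=
    fun k => Submodule.subset_span ⟨k, rfl⟩
  have m1' : ∀ k, ![X', Y', D'] k ∈ Submodule.span N (Set.range ![X', Y', D']) :=
    fun k => Submodule.subset_span ⟨k, rfl⟩
  refine fin_cpl K R hKR θ x y hθx hθy w a hind (Set.range ![xh, yh, d]) (Set.range ![X', Y', D'])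
    ?_ ?_ ?_ ?_ ?_ ?_ ?_ (Set.range (G19_T xh yh d)) (Set.range (G19_T X' Y' D'))
    (G19_sq_mem K xh yh d hxK hyK hdK)
    (G19_sq_mem R X' Y' D' (fun i => hRx i jx) (fun i => hRy i jy) (fun i => hRd i jd)) ?_ ?_ ?_ ?_ ?_
  · rintro _ ⟨k, rfl⟩
    fin_cases k
    · exact hxK
    · exact hyK
    · exact hdK
  · rintro _ ⟨k, rfl⟩
    fin_cases k
    · exact fun i => hRx i jx
    · exact fun i => hRy i jy
    · exact fun i => hRd i jd
  · apply le_antisymm
    · rw [Submodule.span_le]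
      rintro _ ⟨k, rfl⟩
      fin_cases k
      · change X' ∈ Submodule.span N (Set.range ![xh, yh, d])
        rw [eX']
        exact add_mem (Submodule.smul_mem _ _ (m1 0)) (Submodule.smul_mem _ _ (m1 2))
      · change Y' ∈ Submodule.span N (Set.range ![xh, yh, d])
        rw [eY']
        exact add_mem (Submodule.smul_mem _ _ (m1 1)) (Submodule.smul_mem _ _ (m1 2))
      · change D' ∈ Submodule.span N (Set.range ![xh, yh, d])
        rw [eD']
        exact Submodule.smul_mem _ _ (m1 2)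
    · rw [Submodule.span_le]
      rintro _ ⟨k, rfl⟩
      fin_cases k
      · change xh ∈ Submodule.span N (Set.range ![X', Y', D'])
        rw [eX]
        exact add_mem (Submodule.smul_mem _ _ (m1' 0)) (Submodule.smul_mem _ _ (m1' 2))
      · change yh ∈ Submodule.span N (Set.range ![X', Y', D'])
        rw [eY]
        exact add_mem (Submodule.smul_mem _ _ (m1' 1)) (Submodule.smul_mem _ _ (m1' 2))
      · change d ∈ Submodule.span N (Set.range ![X', Y', D'])
        rw [eD]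
        exact Submodule.smul_mem _ _ (m1' 2)
  · refine G19_semi (θ : N →+* N) _ _ ?_
    rintro _ ⟨k, rfl⟩
    fin_cases k
    · change (fun i => θ (xh i)) ∈ _
      rw [hθxh]
      exact Submodule.smul_mem _ _ (m1 1)
    · change (fun i => θ (yh i)) ∈ _
      rw [hθyh]
      exact Submodule.smul_mem _ _ (m1 0)
    · change (fun i => θ (d i)) ∈ _
      rw [hθd']
      exact m1 2
  · exact (finrank_range_le_card _).trans (by simp)
  · rw [hx]
    exact Submodule.smul_mem _ _ (m1 0)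
  · rw [hy]
    exact Submodule.smul_mem _ _ (m1 1)
  · apply le_antisymm
    · rw [Submodule.span_le]
      rintro _ ⟨k, rfl⟩
      exact G19_T_mem X' Y' D' xh yh d _ _ _ _ _ eX' eY' eD' k
    · rw [Submodule.span_le]
      rintro _ ⟨k, rfl⟩
      exact G19_T_mem xh yh d X' Y' D' _ _ _ _ _ eX eY eD k
  · refine G19_semi (θ : N →+* N) _ _ ?_
    rintro _ ⟨k, rfl⟩
    refine G19_T_swap xh yh d ?_
    have h2 := G19_T_mem (fun i => θ (xh i)) (fun i => θ (yh i)) (fun i => θ (d i)) yh xh d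
      ((θ cx)⁻¹ * cy) 0 ((θ cy)⁻¹ * cx) 0 1 (by rw [hθxh, zero_smul, add_zero])
      (by rw [hθyh, zero_smul, add_zero]) (by rw [hθd', one_smul]) k
    have h3 : (fun i => (θ : N →+* N) (G19_T xh yh d k i)) =
        G19_T (fun i => θ (xh i)) (fun i => θ (yh i)) (fun i => θ (d i)) k := by
      funext i
      fin_cases k <;> simp [G19_T, sq]
    rw [h3]
    exact h2
  · exact (finrank_range_le_card _).trans (by simp)
  · have h2 : sq x x = cx ^ 2 • G19_T xh yh d 0 := by
      funext i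
      simp [G19_T, sq, hx]
      ring
    rw [h2]
    exact Submodule.smul_mem _ _ (Submodule.subset_span ⟨0, rfl⟩)
  · have h2 : sq y y = cy ^ 2 • G19_T xh yh d 3 := by
      funext i
      simp [G19_T, sq, hy]
      ring
    rw [h2]
    exact Submodule.smul_mem _ _ (Submodule.subset_span ⟨3, rfl⟩)

private theorem G19_li {N : Type} [Field N] (x d : Fin 6 → N) (e : N) (he : e ≠ 0) (hd : d ≠ 0)
    (hx : ∀ s : N, (fun i => x i - s * d i) ≠ 0) :
    LinearIndependent N ![x, x + e • d + 0] := by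
  rw [LinearIndependent.pair_iff]
  intro s t h
  have h1 : ∀ i, (s + t) * x i + t * e * d i = 0 := by
    intro i
    have h2 := congrFun h i
    simp only [Pi.add_apply, Pi.smul_apply, smul_eq_mul, Pi.zero_apply] at h2
    rw [← h2]
    ring
  have h3 : s + t = 0 := by
    by_contra h4
    apply hx (-(t * e / (s + t)))
    funext i
    have h5 : x i - -(t * e / (s + t)) * d i = ((s + t) * x i + t * e * d i) / (s + t) := by
      field_simp
      ring
    change x i - -(t * e / (s + t)) * d i = 0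
    rw [h5, h1 i, zero_div]
  obtain ⟨j, hj⟩ := Function.ne_iff.1 hd
  simp only [Pi.zero_apply] at hj
  have h6 := h1 j
  rw [h3, zero_mul, zero_add] at h6
  have h7 : t = 0 := by
    rcases mul_eq_zero.1 h6 with h8 | h8
    · rcases mul_eq_zero.1 h8 with h9 | h9
      · exact h9
      · exact absurd h9 he
    · exact absurd h8 hj
  rw [h7, add_zero] at h3
  exact ⟨h3, h7⟩

private theorem G19_pA {C M : Type} [Field C] [Field M] [Algebra C M] (G : Fin 5 → Fin 5 → C)
    (t : Fin 4 → M) (s : M) :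
    (fun j => pA G t 0 j + s * algebraMap C M (G j 1)) = pA G t s := by
  funext j
  unfold pA
  ring

variable {k0 C B M N : Type} [Field k0] [Field C] [Field B] [Field M] [Field N] [Algebra k0 C]
  [Algebra k0 B] [Algebra k0 M] [Algebra k0 N] [Algebra C B] [Algebra C M] [Algebra C N]
  [Algebra B M] [Algebra B N] [IsScalarTower k0 C B] [IsScalarTower k0 C M] [IsScalarTower k0 C N]
  [IsScalarTower k0 B M] [IsScalarTower k0 B N] [IsScalarTower C B M] [IsScalarTower C B N]
  {f : Fin 6 → MvPolynomial (Fin 5) k0} {G : Fin 5 → Fin 5 → C} {ε : M} {t : Fin 4 → M} {α β : M}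
  {σ : M ≃ₐ[B] M} {P : ValuationSubring M} {φ : P →+* N} {x y : Fin 6 → P} {w : B} {a : Fin 6}

/-- `η = ϖ / ε`. `K = resI rmC (adjoin ..)`, `a' = h0 η`, `a'' = ε + h1 η`, `R = resI rmC (E2 C t a' a'')`, `trdeg C R ≤ 4`.
`x̄` is a multiple of `xh` and `ȳ` of `yh` (`res_par`; `valx`, `valy` for `h = 0`). `θ` = `exists_res_aut` (C10b):
`θ d = u d` with a unit `u` (`vald` for `n = 2` and `n = -1`, `h = 0`: `σ (f(pA G t (2 ε))) = f(pA G t (-ε))`, both residues are `2 d`,
`σ (ε^2) = ε^2`: `u = 1`), `θ xh = u' yh`, `θ yh = u'' xh`. If `xh` is a multiple of `d` then `yh` too (apply `θ`), contradiction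
to `esc_not_par`; so `xh, d` are independent and `yh, d` are independent. `core` for the quotients of the vectors
`xh - h0 d` and `yh + h1 d` (`curv` with `A = ![xh, -d, 0]`, resp. `![yh, d, 0]`; `valx` for `h0`, `valy` for `h1`, `ratio_E2`,
`mem_E2` for `n = 0, 1`): `trdeg C (K ⊓ R) ≤ 2`. `fin_cpl`: `S1 = {xh, yh, d}`, `S1'` = multiples of `xh - h0 d`, `yh + h1 d` and `d` with one
coordinate `1` (`d`: `vald` for `n = 2`: `a' + 2 (a'' - a') = 2 ε + (2 h1 - h0) η`). `S2 = {xh⊗xh, xh⊗d + d⊗xh, d⊗d, yh⊗yh, yh⊗d + d⊗yh}`,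
`S2'` the same with the vectors of `S1'`. Stability under `θ` is clear. -/
theorem caseIII_cpl [CharZero N] (E : Esc f G ε t α β σ P φ x y w a) (rm0 : RMap k0 P φ) (rmC : RMap C P φ)
    (h3 : Algebra.trdeg k0 (resI rm0 (rat k0 (pA G t 0))) ≤ 3) (h : Fin 2 → B)
    (hh : AlgebraicIndependent C h) (ϖ : M) (xh yh d : Fin 6 → N)
    (hIII : CaseIII rmC (adjoin C ({ε, α, β} ∪ Set.range t)) f (pA G t 0)
      (fun j => algebraMap C M (G j 1)) ε ϖ xh yh d) :
    CPLD B (fun i => φ (x i)) (fun i => φ (y i)) := by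
  have hε := E.e0
  let hN : Fin 2 → N := fun i => algebraMap B N (h i)
  let hP : Fin 2 → P := fun i => ⟨algebraMap B M (h i), E.rm.cst (h i)⟩
  have hφ : ∀ i, φ (hP i) = hN i := fun i => E.rm.alg (h i)
  have hK := esc_h_ind E rmC h hh
  -- the shifted points
  let a' : M := (hP 0 : M) * (ϖ / ε)
  let a'' : M := ε + (hP 1 : M) * (ϖ / ε)
  have hvε : P.valuation ε ≠ 0 := (Valuation.ne_zero_iff _).2 hε
  have hvη : P.valuation (ϖ / ε) < P.valuation ε := by
    rw [map_div₀, div_lt_iff₀ (zero_lt_iff.2 hvε), ← pow_two, ← map_pow]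
    exact hIII.small
  have hv : P.valuation (a'' - a') = P.valuation ε := by
    have e1 : a'' - a' = ε + ((hP 1 - hP 0 : P) : M) * (ϖ / ε) := by
      have e0 : ((hP 1 - hP 0 : P) : M) = (hP 1 : M) - (hP 0 : M) := rfl
      rw [e0]
      simp only [a', a'']
      ring
    rw [e1]
    refine Valuation.map_add_eq_of_lt_left _ (lt_of_le_of_lt ?_ hvη)
    rw [map_mul]
    exact mul_le_of_le_one_left' ((P.valuation_le_one_iff _).2 (hP 1 - hP 0).2)
  have hne : a' ≠ a'' := by
    intro e1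
    rw [e1, sub_self, map_zero] at hv
    exact hvε hv.symm
  have hR := trdeg_resI_E2 rmC t a' a'' hne (by rw [hv]; exact E.eps)
  have hm0 : t 0 + a' ∈ E2 C t a' a'' := by
    have e1 := mem_E2 (C := C) t a' a'' 0
    simpa using e1
  have hm1 : t 0 + a'' ∈ E2 C t a' a'' := by
    have e1 := mem_E2 (C := C) t a' a'' 1
    simpa using e1
  obtain ⟨rx, hrx, hrx'⟩ := hIII.valx (hP 0)
  obtain ⟨ry, hry, hry'⟩ := hIII.valy (hP 1)
  obtain ⟨rd, hrd, hrd'⟩ := hIII.vald 2 (hP 1 + hP 1 - hP 0)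
  simp only [G19_pA] at hrx hry hrd
  have hRx : ∀ i j, (xh i - hN 0 * d i) / (xh j - hN 0 * d j) ∈ resI rmC (E2 C t a' a'') := by
    intro i j
    have e1 := ratio_E2 rmC f G t a' a'' a' ϖ hm0 hIII.ne rx hrx i j
    rw [hrx', hrx', hφ] at e1
    exact e1
  have hRy : ∀ i j, (yh i + hN 1 * d i) / (yh j + hN 1 * d j) ∈ resI rmC (E2 C t a' a'') := by
    intro i j
    have e1 := ratio_E2 rmC f G t a' a'' a'' ϖ hm1 hIII.ne ry hry i j
    rw [hry', hry', hφ] at e1
    exact e1
  have hRd : ∀ i j, d i / d j ∈ resI rmC (E2 C t a' a'') := by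
    intro i j
    have e0 : ((2 : ℤ) : M) * ε + ((hP 1 + hP 1 - hP 0 : P) : M) * (ϖ / ε) =
        a' + ((2 : ℤ) : M) * (a'' - a') := by
      have e3 : ((hP 1 + hP 1 - hP 0 : P) : M) = (hP 1 : M) + (hP 1 : M) - (hP 0 : M) := rfl
      rw [e3]
      simp only [a', a'']
      push_cast
      ring
    have e1 := ratio_E2 rmC f G t a' a'' (a' + ((2 : ℤ) : M) * (a'' - a')) (ε ^ 2)
      (mem_E2 (C := C) t a' a'' 2) (pow_ne_zero 2 hε) rd (by
        intro i
        rw [hrd i, e0]) i j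
    rw [hrd', hrd'] at e1
    have e2 : (((2 : ℤ) : N) ^ 2 - ((2 : ℤ) : N)) = 2 := by
      push_cast
      ring
    rw [e2, mul_div_mul_left _ _ (two_ne_zero)] at e1
    exact e1
  -- the automorphism
  obtain ⟨θ, hθ⟩ := exists_res_aut σ P E.sig φ E.rm
  have hσ0 : ε + σ 0 = ε := by rw [map_zero, add_zero]
  have hσε : ε + σ ε = 0 := by rw [E.s_e, add_neg_cancel]
  have hθx : ∀ i, θ (φ (x i)) = φ (y i) := by
    intro i
    rw [hθ]
    congr 1
    apply Subtype.ext
    change σ (x i : M) = y i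
    rw [E.x_eq, E.y_eq, map_mul, E.s_a, esc_sig_fe E, hσ0]
  have hθy : ∀ i, θ (φ (y i)) = φ (x i) := by
    intro i
    rw [hθ]
    congr 1
    apply Subtype.ext
    change σ (y i : M) = x i
    rw [E.x_eq, E.y_eq, map_mul, E.s_b, esc_sig_fe E, hσε]
  have hθd : ∀ i, θ (d i) = d i := by
    intro i
    obtain ⟨r2, hr2, hr2'⟩ := hIII.vald 2 0
    obtain ⟨rn, hrn, hrn'⟩ := hIII.vald (-1) 0
    simp only [G19_pA] at hr2 hrn
    have e1 : σ (r2 i : M) = rn i := by
      have e2 := congrArg σ (hr2 i)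
      rw [map_mul, map_pow, E.s_e, esc_sig_fe E, neg_sq] at e2
      have e3 : ε + σ (((2 : ℤ) : M) * ε + ((0 : P) : M) * (ϖ / ε)) =
          ((-1 : ℤ) : M) * ε + ((0 : P) : M) * (ϖ / ε) := by
        rw [map_add, map_mul, map_mul, E.s_e, map_intCast]
        simp only [ZeroMemClass.coe_zero, map_zero, zero_mul]
        push_cast
        ring
      rw [e3, ← hrn i] at e2
      exact mul_right_cancel₀ (pow_ne_zero 2 hε) e2
    have e4 := hθ (r2 i)
    have e5 : (⟨σ (r2 i : M), (E.sig (r2 i : M)).2 (r2 i).2⟩ : P) = rn i := Subtype.ext e1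
    rw [e5, hr2', hrn'] at e4
    have e6 : (((2 : ℤ) : N) ^ 2 - ((2 : ℤ) : N)) = 2 := by
      push_cast
      ring
    have e7 : (((-1 : ℤ) : N) ^ 2 - ((-1 : ℤ) : N)) = 2 := by
      push_cast
      ring
    rw [e6, e7, map_mul, map_ofNat] at e4
    exact mul_left_cancel₀ two_ne_zero e4
  -- `x`, `y` are multiples of `xh`, `yh`
  obtain ⟨cx, hcx⟩ : ∃ cx : N, ∀ i, φ (x i) = cx * xh i := by
    obtain ⟨r0, hr0, hr0'⟩ := hIII.valx 0
    simp only [G19_pA] at hr0
    have e1 : ∀ i, φ (r0 i) = xh i := by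
      intro i
      rw [hr0', map_zero, zero_mul, sub_zero]
    obtain ⟨j, hj⟩ := Function.ne_iff.1 hIII.x0
    obtain ⟨c, hc⟩ := res_par E.rm x r0 (α * ϖ) (by
      intro i
      have e2 := hr0 i
      simp only [ZeroMemClass.coe_zero, zero_mul] at e2
      rw [E.x_eq, ← e2]
      ring) ⟨j, by rw [e1]; exact hj⟩
    exact ⟨c, fun i => by rw [hc, e1]⟩
  obtain ⟨cy, hcy⟩ : ∃ cy : N, ∀ i, φ (y i) = cy * yh i := by
    obtain ⟨r0, hr0, hr0'⟩ := hIII.valy 0
    simp only [G19_pA] at hr0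
    have e1 : ∀ i, φ (r0 i) = yh i := by
      intro i
      rw [hr0', map_zero, zero_mul, add_zero]
    obtain ⟨j, hj⟩ := Function.ne_iff.1 hIII.y0
    obtain ⟨c, hc⟩ := res_par E.rm y r0 (β * ϖ) (by
      intro i
      have e2 := hr0 i
      simp only [ZeroMemClass.coe_zero, zero_mul, add_zero] at e2
      rw [E.y_eq, ← e2]
      ring) ⟨j, by rw [e1]; exact hj⟩
    exact ⟨c, fun i => by rw [hc, e1]⟩
  have hcx0 : cx ≠ 0 := by
    intro e1
    have e2 : ∀ i, φ (x i) = 0 * d i := by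
      intro i
      rw [hcx, e1, zero_mul, zero_mul]
    refine esc_not_par E rm0 h3 d 0 0 e2 ?_
    intro i
    rw [← hθx, e2, zero_mul, map_zero]
  have hcy0 : cy ≠ 0 := by
    intro e1
    have e2 : ∀ i, φ (y i) = 0 * d i := by
      intro i
      rw [hcy, e1, zero_mul, zero_mul]
    refine esc_not_par E rm0 h3 d 0 0 ?_ e2
    intro i
    rw [← hθy, e2, zero_mul, map_zero]
  have hxd : ∀ s : N, (fun i => xh i - s * d i) ≠ 0 := by
    intro s e1
    have e2 : ∀ i, φ (x i) = (cx * s) * d i := by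
      intro i
      have e3 := congrFun e1 i
      simp only [Pi.zero_apply] at e3
      rw [hcx, sub_eq_zero.1 e3]
      ring
    refine esc_not_par E rm0 h3 d (cx * s) (θ (cx * s)) e2 ?_
    intro i
    rw [← hθx, e2, map_mul, hθd]
  have hyd : ∀ s : N, (fun i => yh i - s * d i) ≠ 0 := by
    intro s e1
    have e2 : ∀ i, φ (y i) = (cy * s) * d i := by
      intro i
      have e3 := congrFun e1 i
      simp only [Pi.zero_apply] at e3
      rw [hcy, sub_eq_zero.1 e3]
      ring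
    refine esc_not_par E rm0 h3 d (θ (cy * s)) (cy * s) ?_ e2
    intro i
    rw [← hθy, e2, map_mul, hθd]
  -- the core
  have hAx : ∀ k i, (![xh, (-1 : N) • d, 0] : Fin 3 → Fin 6 → N) k i ∈
      resI rmC (adjoin C ({ε, α, β} ∪ Set.range t)) := by
    intro k i
    fin_cases k
    · exact hIII.xK i
    · exact mul_mem (neg_mem (one_mem _)) (hIII.dK i)
    · exact zero_mem _
  have hAy : ∀ k i, (![yh, (1 : N) • d, 0] : Fin 3 → Fin 6 → N) k i ∈
      resI rmC (adjoin C ({ε, α, β} ∪ Set.range t)) := by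
    intro k i
    fin_cases k
    · exact hIII.yK i
    · exact mul_mem (one_mem _) (hIII.dK i)
    · exact zero_mem _
  obtain ⟨i0, j0, hq0⟩ := curv _ (hN 0) (hK.transcendental 0) ![xh, (-1 : N) • d, 0] hAx
    (G19_li xh d (-1) (neg_ne_zero.2 one_ne_zero) hIII.d0 hxd)
  obtain ⟨i1, j1, hq1⟩ := curv _ (hN 1) (hK.transcendental 1) ![yh, (1 : N) • d, 0] hAy
    (G19_li yh d 1 one_ne_zero hIII.d0 hyd)
  have hm0' := curv_mem _ (hN 0) ![xh, (-1 : N) • d, 0] hAx i0 j0
  have hm1' := curv_mem _ (hN 1) ![yh, (1 : N) • d, 0] hAy i1 j1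
  have ex : ∀ i, (![xh, (-1 : N) • d, 0] : Fin 3 → Fin 6 → N) 0 i +
      hN 0 * (![xh, (-1 : N) • d, 0] : Fin 3 → Fin 6 → N) 1 i +
      hN 0 ^ 2 * (![xh, (-1 : N) • d, 0] : Fin 3 → Fin 6 → N) 2 i = xh i - hN 0 * d i := by
    intro i
    simp
    ring
  have ey : ∀ i, (![yh, (1 : N) • d, 0] : Fin 3 → Fin 6 → N) 0 i +
      hN 1 * (![yh, (1 : N) • d, 0] : Fin 3 → Fin 6 → N) 1 i +
      hN 1 ^ 2 * (![yh, (1 : N) • d, 0] : Fin 3 → Fin 6 → N) 2 i = yh i + hN 1 * d i := by
    intro i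
    simp
  rw [ex, ex] at hq0 hm0'
  rw [ey, ey] at hq1 hm1'
  have hKR := core (resI rmC (adjoin C ({ε, α, β} ∪ Set.range t))) (resI rmC (E2 C t a' a'')) hN hK
    hR ![(xh i0 - hN 0 * d i0) / (xh j0 - hN 0 * d j0), (yh i1 + hN 1 * d i1) / (yh j1 + hN 1 * d j1)]
    (by
      intro k
      fin_cases k
      · exact hRx _ _
      · exact hRy _ _) (by
      intro k
      fin_cases k
      · exact hm0'
      · exact hm1') (by
      intro k
      fin_cases k
      · exact hq0
      · exact hq1)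
  exact G19_fin _ _ hKR θ (fun i => φ (x i)) (fun i => φ (y i)) xh yh d cx cy (hN 0) (hN 1)
    (funext hcx) (funext hcy) hcx0 hcy0 hθx hθy w a E.ind hIII.xK hIII.yK hIII.dK hθd hRx hRy hRd
    hIII.d0 (hxd _) (by
      have e1 := hyd (-(hN 1))
      simpa using e1)

end MP2619.Q5
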