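import Pool.Agent.Lib.MP_2619d0_ag.Q5.GDefs

/-!
Row 2619q5-G4: non-vanishing of the first coordinate
-/

set_option autoImplicit false

namespace MP2619.Q5

open scoped NNReal
open IntermediateField MP2619.R MP2619.N Pool.Agent.Lib.MP_2619d0_ag Pool.Agent.Lib.MP_2619d0_ag.T

/-- a matrix with given non-zero first column and non-zero determinant -/
private theorem G4_matrix {K : Type*} [Field K] (q : Fin 5 → K) (j0 : Fin 5) (hq : q j0 ≠ 0) :
    ∃ e : Fin 5 × Fin 5 → K,
      (Matrix.of fun i j => if j = 0 then q i else e (i, j) : Matrix (Fin 5) (Fin 5) K).det ≠ 0 := by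
  let τ : Equiv.Perm (Fin 5) := Equiv.swap 0 j0
  have hτ0 : τ 0 = j0 := Equiv.swap_apply_left 0 j0
  refine ⟨fun p => if p.1 = τ p.2 then 1 else 0, fun h => ?_⟩
  obtain ⟨v, hv0, hv⟩ := Matrix.exists_mulVec_eq_zero_iff.2 h
  have hs : ∀ i, q i * v 0 + ∑ j : Fin 4, (if i = τ j.succ then 1 else 0) * v j.succ = 0 := by
    intro i
    have h1 := congrFun hv i
    have h2 : ∑ j, (if j = 0 then q i else if i = τ j then 1 else 0) * v j = 0 := h1
    rw [Fin.sum_univ_succ, if_pos rfl] at h2
    exact h2
  have h0 : v 0 = 0 := by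
    have h1 := hs j0
    rw [Finset.sum_eq_zero, add_zero] at h1
    · exact (mul_eq_zero.1 h1).resolve_left hq
    · intro j _
      rw [if_neg, zero_mul]
      intro h2
      rw [← hτ0] at h2
      exact (Fin.succ_ne_zero j) (τ.injective h2).symm
  refine hv0 (funext fun j => ?_)
  show v j = 0
  refine Fin.cases h0 (fun j => ?_) j
  have h1 := hs (τ j.succ)
  rw [h0, mul_zero, zero_add, Finset.sum_eq_single j, if_pos rfl, one_mul] at h1
  · exact h1
  · intro l _ hl
    rw [if_neg, zero_mul]
    intro h2
    exact hl (Fin.succ_injective _ (τ.injective h2)).symm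
  · intro h2
    exact absurd (Finset.mem_univ j) h2

variable {k0 B N : Type} [Field k0] [Field B] [Field N] [Algebra B N] [Algebra k0 N]

/-- Suppose `c 0 = 0`. `Q = pt G c` divided by a non-zero coordinate has coordinates in `K0` and is a combination of the
columns `1, 2, 3, 4` of `G`, so the determinant of the matrix `(Q, G_1, G_2, G_3, G_4)` is zero. It is a polynomial in the entries of
`G` with coefficients in `K0`; these are algebraically independent, so it is the zero polynomial; but it has the value
`1` if the columns are chosen such that they form a basis of determinant one with `Q ≠ 0`. -/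
theorem NV (K0 : IntermediateField k0 N) (G : Fin 5 → Fin 5 → B)
    (hG : AlgebraicIndependent K0 (fun q : Fin 5 × Fin 5 => algebraMap B N (G q.1 q.2)))
    (c : Fin 5 → N) (hP0 : pt G c ≠ 0) (hr : ∀ i j, pt G c i / pt G c j ∈ K0) : c 0 ≠ 0 := by
  intro hc
  obtain ⟨j0, hj0⟩ := Function.ne_iff.1 hP0
  have hj : pt G c j0 ≠ 0 := hj0
  let q : Fin 5 → K0 := fun i => ⟨pt G c i / pt G c j0, hr i j0⟩
  let g : Fin 5 × Fin 5 → N := fun p => algebraMap B N (G p.1 p.2)
  let Dm : Matrix (Fin 5) (Fin 5) (MvPolynomial (Fin 5 × Fin 5) K0) :=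
    Matrix.of fun i j => if j = 0 then MvPolynomial.C (q i) else MvPolynomial.X (i, j)
  have h1 : MvPolynomial.aeval g Dm.det = 0 := by
    rw [AlgHom.map_det]
    refine Matrix.exists_mulVec_eq_zero_iff.1
      ⟨fun j => if j = 0 then - pt G c j0 else c j, ?_, ?_⟩
    · intro h
      have h2 := congrFun h 0
      exact hj (neg_eq_zero.1 h2)
    · funext i
      show ∑ j, MvPolynomial.aeval g (Dm i j) * (if j = 0 then - pt G c j0 else c j) = 0
      rw [Fin.sum_univ_succ, if_pos rfl]
      have h2 : MvPolynomial.aeval g (Dm i 0) = pt G c i / pt G c j0 := by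
        show MvPolynomial.aeval g (MvPolynomial.C (q i)) = _
        rw [MvPolynomial.aeval_C]
        rfl
      have h3 : ∀ j : Fin 4, MvPolynomial.aeval g (Dm i j.succ) *
          (if j.succ = 0 then - pt G c j0 else c j.succ) =
          algebraMap B N (G i j.succ) * c j.succ := by
        intro j
        have h4 : Dm i j.succ = MvPolynomial.X (i, j.succ) := by
          show (if j.succ = 0 then MvPolynomial.C (q i) else MvPolynomial.X (i, j.succ)) = _
          rw [if_neg (Fin.succ_ne_zero j)]
        rw [h4, MvPolynomial.aeval_X, if_neg (Fin.succ_ne_zero j)]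
      rw [h2, Finset.sum_congr rfl fun j _ => h3 j]
      have h5 : pt G c i = ∑ j : Fin 4, algebraMap B N (G i j.succ) * c j.succ := by
        unfold pt
        rw [Fin.sum_univ_succ, hc, mul_zero, zero_add]
      rw [← h5]
      field_simp
      ring
  have h2 : Dm.det = 0 := by
    by_contra hne
    exact hne (AlgebraicIndependent.eq_zero_of_aeval_eq_zero hG _ h1)
  have hq : q j0 ≠ 0 := by
    intro h
    have h3 : pt G c j0 / pt G c j0 = 0 := congrArg Subtype.val h
    rw [div_self hj] at h3
    exact one_ne_zero h3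
  obtain ⟨e, he⟩ := G4_matrix q j0 hq
  apply he
  have h3 : MvPolynomial.aeval e Dm.det = (0 : K0) := by rw [h2, map_zero]
  rw [AlgHom.map_det] at h3
  rw [← h3]
  congr 1
  ext i j
  by_cases hj1 : j = 0
  · subst hj1
    show ((q i : K0) : N) = ((MvPolynomial.aeval e (MvPolynomial.C (q i)) : K0) : N)
    rw [MvPolynomial.aeval_C]
    rfl
  · have h4 : Dm i j = MvPolynomial.X (i, j) := by
      show (if j = 0 then MvPolynomial.C (q i) else MvPolynomial.X (i, j)) = _
      rw [if_neg hj1]
    show (((if j = 0 then q i else e (i, j)) : K0) : N) = ((MvPolynomial.aeval e (Dm i j) : K0) : N)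
    rw [h4, MvPolynomial.aeval_X, if_neg hj1]

end MP2619.Q5
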