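import Pool.Agent.Lib.MP_2619d0_ag.Q5.G1
import Pool.Agent.Lib.MP_2619d0_ag.Q5.G2
import Pool.Agent.Lib.MP_2619d0_ag.Q5.G4
import Pool.Agent.Lib.MP_2619d0_ag.Q5.G5
import Pool.Agent.Lib.MP_2619d0_ag.Q5.G6

/-!
Row 2619q5-G8: path A: base points
-/

set_option autoImplicit false

namespace MP2619.Q5

open scoped NNReal
open IntermediateField MP2619.R MP2619.N Pool.Agent.Lib.MP_2619d0_ag Pool.Agent.Lib.MP_2619d0_ag.T

private theorem G8_val {M N : Type} [Field M] [Field N] {k : Type} [Field k] [Algebra k M]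
    [Algebra k N] {P : ValuationSubring M} {φ : P →+* N} (rm : RMap k P φ) (a : P) (h : φ a ≠ 0) :
    P.valuation (a : M) = 1 :=
  le_antisymm ((P.valuation_le_one_iff _).2 a.2) (not_lt.1 fun h2 => h ((rm.zero a).2 h2))

private theorem G8_pt {C M N : Type} [Field C] [Field M] [Field N] [Algebra C M] [Algebra C N]
    {P : ValuationSubring M} {φ : P →+* N} (rm : RMap C P φ) (G : Fin 5 → Fin 5 → C)
    (U : Fin 5 → P) (i : Fin 5) : ∃ a : P, (a : M) = pt G (fun j => (U j : M)) i ∧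
      φ a = pt G (fun j => φ (U j)) i := by
  refine ⟨∑ j, ⟨algebraMap C M (G i j), rm.cst _⟩ * U j, ?_, ?_⟩
  · unfold pt
    push_cast
    rfl
  · unfold pt
    rw [map_sum]
    refine Finset.sum_congr rfl fun j _ => ?_
    rw [map_mul, rm.alg]

private theorem G8_det {k0 C N : Type} [Field k0] [Field C] [Field N] [Algebra k0 C] [Algebra C N]
    (G : Fin 5 → Fin 5 → C) (hG : AlgebraicIndependent k0 (fun q : Fin 5 × Fin 5 => G q.1 q.2))
    (c : Fin 5 → N) (hc : c ≠ 0) : pt G c ≠ 0 := by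
  intro h
  have h1 : (Matrix.of fun i j => algebraMap C N (G i j)).mulVec c = 0 := by
    rw [← h]
    rfl
  have h2 : (Matrix.of fun i j => algebraMap C N (G i j)).det = 0 :=
    Matrix.exists_mulVec_eq_zero_iff.mp ⟨c, hc, h1⟩
  have h3 : (Matrix.of fun i j => G i j).det = 0 := by
    apply (algebraMap C N).injective
    rw [RingHom.map_det, map_zero]
    exact h2
  have h4 : MvPolynomial.aeval (fun q : Fin 5 × Fin 5 => G q.1 q.2)
      (Matrix.mvPolynomialX (Fin 5) (Fin 5) k0).det = 0 := by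
    rw [← h3, AlgHom.map_det]
    congr 1
    ext i j
    simp [Matrix.mvPolynomialX]
  have h5 := algebraicIndependent_iff_injective_aeval.mp hG (h4.trans (map_zero _).symm)
  exact Matrix.det_mvPolynomialX_ne_zero (Fin 5) k0 h5

variable {k0 C B M N : Type} [Field k0] [Field C] [Field B] [Field M] [Field N] [Algebra k0 C]
  [Algebra k0 B] [Algebra k0 M] [Algebra k0 N] [Algebra C B] [Algebra C M] [Algebra C N]
  [Algebra B M] [Algebra B N] [IsScalarTower k0 C B] [IsScalarTower k0 C M] [IsScalarTower k0 C N]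
  [IsScalarTower k0 B M] [IsScalarTower k0 B N] [IsScalarTower C B M] [IsScalarTower C B N]
  {f : Fin 6 → MvPolynomial (Fin 5) k0} {G : Fin 5 → Fin 5 → C} {ε : M} {t : Fin 4 → M} {α β : M}
  {σ : M ≃ₐ[B] M} {P : ValuationSubring M} {φ : P →+* N} {x y : Fin 6 → P} {w : B} {a : Fin 6}

/-- `T = (1, t)`, `P0 = G T̄` (residues of `T j / T j0`; `P0 ≠ 0`, because `G` is invertible: algebraically independent entries).
`K := resI rm0 (rat k0 p)`, `p = pA G t 0 = G T`. `trdeg k0 K ≤ 3`: `trdeg_resI_lt` with the element `f i (p) / (p l) ^ d`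
(`E.x0`: some `f i (p) ≠ 0`; `l` with `p l / T j0` of non-zero residue; the residue of `f i (p / T j0)` is `0`), `trdeg_rat_le`.
`rat B x̄ ≤ adjoin B K` (`rat_resI`, `rat_fe_le`, `rat_base`, `x = α f(p)`), so by `E.F3` and `GP1` (`m = 2`, `c = G` in `B`;
algebraically independent over `k0`) `G` is algebraically independent over `K`. The ratios of `P0` are in `K` (`rat_resI`), so
`T̄ 0 ≠ 0` by `NV`; so `t j = T j / T 0 ∈ P`. The last claim: `(1, t̄) = T̄ / T̄ 0`, `fe_smul`. -/
theorem esc_base (E : Esc f G ε t α β σ P φ x y w a) (rm0 : RMap k0 P φ) (j0 : Fin 5)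
    (hj0 : (Fin.cons 1 t : Fin 5 → M) j0 ≠ 0)
    (hT : ∀ j, (Fin.cons 1 t : Fin 5 → M) j / (Fin.cons 1 t : Fin 5 → M) j0 ∈ P)
    (hz : fe f (pt G (fun j => φ ⟨_, hT j⟩)) = 0) :
    Algebra.trdeg k0 (resI rm0 (rat k0 (pA G t 0))) ≤ 3 ∧
    AlgebraicIndependent (resI rm0 (rat k0 (pA G t 0)))
      (fun q : Fin 5 × Fin 5 => algebraMap C N (G q.1 q.2)) ∧
    ∃ ht : ∀ j, t j ∈ P, fe f (pA G (fun j => φ ⟨t j, ht j⟩) 0) = 0 := by
  classical
  obtain ⟨d, hd⟩ := E.hom
  have rmC : RMap C P φ := E.rm.restrict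
  set T : Fin 5 → M := Fin.cons 1 t with hTdef
  set U : Fin 5 → P := fun j => ⟨T j / T j0, hT j⟩ with hU
  have hUv : ∀ j, (U j : M) = T j / T j0 := fun j => rfl
  set P0 : Fin 5 → N := pt G (fun j => φ (U j)) with hP0def
  have hU0 : (fun j => φ (U j)) ≠ 0 := by
    intro h
    have h1 := congrFun h j0
    have h2 : U j0 = 1 := Subtype.ext (by rw [hUv, div_self hj0]; rfl)
    simp only [h2, map_one, Pi.zero_apply] at h1
    exact one_ne_zero h1
  have hP0 : P0 ≠ 0 := G8_det G E.indG _ hU0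
  -- the point `p`
  have hp : ∀ i, pA G t 0 i = pt G T i := by
    intro i
    unfold pA
    rw [zero_mul, add_zero]
  have hpU : ∀ i, pt G (fun j => (U j : M)) i = (T j0)⁻¹ * pA G t 0 i := by
    intro i
    rw [hp]
    unfold pt
    rw [Finset.mul_sum]
    refine Finset.sum_congr rfl fun j _ => ?_
    change algebraMap C M (G i j) * (T j / T j0) = _
    rw [div_eq_mul_inv]
    ring
  choose Y hY1 hY2 using fun i => G8_pt rmC G U i
  have hY1' : ∀ i, (Y i : M) = (T j0)⁻¹ * pA G t 0 i := fun i => (hY1 i).trans (hpU i)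
  have hTi : (T j0)⁻¹ ≠ 0 := inv_ne_zero hj0
  -- the transcendence degree
  obtain ⟨l, hl⟩ : ∃ l, P0 l ≠ 0 := by
    by_contra h
    push Not at h
    exact hP0 (funext h)
  have hYl : P.valuation (Y l : M) = 1 := G8_val rm0 (Y l) (by rw [hY2]; exact hl)
  have hYl0 : (Y l : M) ≠ 0 := by
    intro h
    rw [h, map_zero] at hYl
    exact zero_ne_one hYl
  have hpl : pA G t 0 l ≠ 0 := by
    intro h
    rw [hY1', h, mul_zero] at hYl0
    exact hYl0 rfl
  obtain ⟨i, hi⟩ : ∃ i, fe f (pA G t 0) i ≠ 0 := by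
    by_contra h
    push Not at h
    exact E.x0 (funext h)
  have htr : Algebra.trdeg k0 (resI rm0 (rat k0 (pA G t 0))) ≤ (3 : ℕ) := by
    refine trdeg_resI_lt rm0 _ 3 (trdeg_rat_le (n := 4) (pA G t 0))
      (fe f (fun j => (pA G t 0 l)⁻¹ * pA G t 0 j) i) ?_ ?_ ?_
    · refine fe_mem f _ _ (fun j => ?_) i
      refine subset_adjoin _ _ ⟨j, l, ?_⟩
      rw [div_eq_mul_inv, mul_comm]
    · rw [fe_smul f hd]
      exact mul_ne_zero (pow_ne_zero _ (inv_ne_zero hpl)) hi
    · obtain ⟨b, hb1, hb2⟩ := fe_res f rm0 Y i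
      have hb3 : φ b = 0 := by
        rw [hb2]
        have h1 : (fun j => φ (Y j)) = P0 := funext hY2
        rw [h1]
        exact congrFun hz i
      have hb4 : P.valuation (b : M) < 1 := (rm0.zero b).1 hb3
      have hb5 : (b : M) = (T j0)⁻¹ ^ d * fe f (pA G t 0) i := by
        rw [hb1, ← fe_smul f hd]
        congr 1
        exact funext hY1'
      have hb6 : fe f (fun j => (pA G t 0 l)⁻¹ * pA G t 0 j) i = ((Y l : M)⁻¹) ^ d * b := by
        rw [fe_smul f hd, hb5, hY1', mul_inv, inv_inv, mul_pow, inv_pow (T j0)]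
        have h1 : T j0 ^ d ≠ 0 := pow_ne_zero _ hj0
        field_simp
      rw [hb6, map_mul, map_pow, map_inv₀, hYl, inv_one, one_pow, one_mul]
      exact hb4
  -- general position
  have hind : AlgebraicIndependent (resI rm0 (rat k0 (pA G t 0)))
      (fun q : Fin 5 × Fin 5 => algebraMap C N (G q.1 q.2)) := by
    have h1 : AlgebraicIndependent k0 (fun q : Fin 5 × Fin 5 => algebraMap C B (G q.1 q.2)) :=
      E.indG.map' (f := IsScalarTower.toAlgHom k0 C B) (algebraMap C B).injective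
    have h2 : rat k0 (fun i => φ (x i)) ≤ resI rm0 (rat k0 (pA G t 0)) := by
      refine rat_resI rm0 x _ ?_
      have h3 : (fun i => (x i : M)) = fun i => α * fe f (pA G t 0) i := funext E.x_eq
      rw [h3]
      exact (rat_smul_le α _).trans (rat_fe_le f hd _)
    have h3 : rat B (fun i => φ (x i)) ≤
        adjoin B ((resI rm0 (rat k0 (pA G t 0)) : IntermediateField k0 N) : Set N) :=
      (rat_base (k0 := k0) _).trans (adjoin.mono B _ _ h2)
    have h4 : ¬ Algebra.trdeg B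
        (adjoin B ((resI rm0 (rat k0 (pA G t 0)) : IntermediateField k0 N) : Set N)) ≤ (2 : ℕ) := by
      intro h5
      refine E.F3 ?_
      refine le_trans ?_ (h5.trans (by norm_num))
      exact trdeg_le_of_injective (inclusion h3) (inclusion_injective h3)
    have h5 := GP1 (B := B) (resI rm0 (rat k0 (pA G t 0))) 2 htr h4 _ h1
    have h6 : (fun q : Fin 5 × Fin 5 => algebraMap C N (G q.1 q.2)) =
        fun q : Fin 5 × Fin 5 => algebraMap B N (algebraMap C B (G q.1 q.2)) := by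
      funext q
      exact IsScalarTower.algebraMap_apply C B N _
    rw [h6]
    exact h5
  -- the first coordinate
  have hr : ∀ i j, P0 i / P0 j ∈ resI rm0 (rat k0 (pA G t 0)) := by
    have h1 : rat k0 (fun i => φ (Y i)) ≤ resI rm0 (rat k0 (pA G t 0)) := by
      refine rat_resI rm0 Y _ ?_
      have h3 : (fun i => (Y i : M)) = fun i => (T j0)⁻¹ * pA G t 0 i := funext hY1'
      rw [h3]
      exact rat_smul_le _ _
    intro i j
    refine h1 (subset_adjoin _ _ ⟨i, j, ?_⟩)
    change P0 i / P0 j = φ (Y i) / φ (Y j)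
    rw [hY2, hY2]
  have hc0 : φ (U 0) ≠ 0 := NV (resI rm0 (rat k0 (pA G t 0))) G hind (fun j => φ (U j)) hP0 hr
  have hv0 : P.valuation (U 0 : M) = 1 := G8_val rm0 _ hc0
  have hT0 : T 0 = 1 := rfl
  have hj1 : (T j0) ∈ P := by
    rw [← P.valuation_le_one_iff]
    rw [hUv, hT0, one_div, map_inv₀, inv_eq_one] at hv0
    exact hv0.le
  have ht : ∀ j, t j ∈ P := by
    intro j
    have h1 : t j = (U j.succ : M) * T j0 := by
      rw [hUv, div_mul_cancel₀ _ hj0]
      rfl
    rw [h1]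
    exact P.mul_mem _ _ (U j.succ).2 hj1
  refine ⟨by exact_mod_cast htr, hind, ht, ?_⟩
  have hcons : ∀ j, (Fin.cons 1 (fun j => φ ⟨t j, ht j⟩) : Fin 5 → N) j = (φ (U 0))⁻¹ * φ (U j) := by
    intro j
    refine Fin.cases ?_ (fun j => ?_) j
    · rw [Fin.cons_zero, inv_mul_cancel₀ hc0]
    · rw [Fin.cons_succ, eq_inv_mul_iff_mul_eq₀ hc0, ← map_mul]
      congr 1
      refine Subtype.ext ?_
      change (U 0 : M) * t j = U j.succ
      rw [hUv, hUv, hT0]
      change 1 / T j0 * t j = t j / T j0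
      ring
  have hfin : pA G (fun j => φ ⟨t j, ht j⟩) 0 = fun i => (φ (U 0))⁻¹ * P0 i := by
    funext i
    unfold pA
    rw [zero_mul, add_zero, hP0def]
    unfold pt
    rw [Finset.mul_sum]
    refine Finset.sum_congr rfl fun j _ => ?_
    rw [hcons]
    ring
  rw [hfin]
  funext i
  rw [fe_smul f hd]
  have h1 : fe f P0 i = 0 := congrFun hz i
  rw [h1, mul_zero]
  rfl

end MP2619.Q5
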