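import Pool.Agent.Lib.MP_2619d0_ag.Q5.G5

/-!
Row 2619q5-G9: base points of multiplicity at most two
-/

set_option autoImplicit false

namespace MP2619.Q5

open scoped NNReal
open IntermediateField MP2619.R MP2619.N Pool.Agent.Lib.MP_2619d0_ag Pool.Agent.Lib.MP_2619d0_ag.T

variable {k0 N : Type} [Field k0] [Field N] [Algebra k0 N]

/-- the coefficient of `h ^ n` of `R (h g)` is the value of the homogeneous part of degree `n` -/
private theorem G9_comp {K M : Type} [Field K] [Field M] [Algebra K M] (g : Fin 5 → M) (n : ℕ)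
    (R : MvPolynomial (Fin 5) K) :
    (MvPolynomial.aeval (fun j => Polynomial.C (g j) * Polynomial.X : Fin 5 → Polynomial M)
      R).coeff n = MvPolynomial.aeval g (MvPolynomial.homogeneousComponent n R) := by
  refine MvPolynomial.induction_on' R (fun u a => ?_) (fun p q hp hq => ?_)
  · have h1 : MvPolynomial.aeval (fun j => Polynomial.C (g j) * Polynomial.X : Fin 5 → Polynomial M)
        (MvPolynomial.monomial u a) =
        Polynomial.C (algebraMap K M a * u.prod fun j e => g j ^ e) * Polynomial.X ^ u.degree := by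
      rw [MvPolynomial.aeval_monomial, Polynomial.C_mul, mul_assoc]
      congr 1
      simp only [Finsupp.prod, mul_pow, Finset.prod_mul_distrib, map_prod, Polynomial.C_pow]
      rw [Finset.prod_pow_eq_pow_sum]
      rfl
    have h2 := MvPolynomial.homogeneousComponent_of_mem (m := n)
      ((MvPolynomial.mem_homogeneousSubmodule _ _).2
        (MvPolynomial.isHomogeneous_monomial (n := u.degree) a (d := u) rfl))
    rw [h1, Polynomial.coeff_C_mul_X_pow, h2]
    split_ifs with h3
    · rw [MvPolynomial.aeval_monomial]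
    · rw [map_zero]
  · rw [map_add, Polynomial.coeff_add, hp, hq, map_add, map_add]

/-- `R (h g)` for `R = F (q + Y)` -/
private theorem G9_tay (f : Fin 6 → MvPolynomial (Fin 5) k0) (K0 : IntermediateField k0 N)
    (q : Fin 5 → K0) (g : Fin 5 → N) (i : Fin 6) :
    tayP f (fun j => (q j : N)) g i =
      MvPolynomial.aeval (fun j => Polynomial.C (g j) * Polynomial.X : Fin 5 → Polynomial N)
        (MvPolynomial.aeval (fun j => MvPolynomial.C (q j) + MvPolynomial.X j :
          Fin 5 → MvPolynomial (Fin 5) K0) (f i)) := by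
  have h1 := MvPolynomial.comp_aeval_apply
    (fun j => MvPolynomial.C (q j) + MvPolynomial.X j : Fin 5 → MvPolynomial (Fin 5) K0)
    ((MvPolynomial.aeval (fun j => Polynomial.C (g j) * Polynomial.X :
      Fin 5 → Polynomial N) : MvPolynomial (Fin 5) K0 →ₐ[K0] Polynomial N).restrictScalars k0) (f i)
  rw [AlgHom.restrictScalars_apply] at h1
  rw [h1]
  unfold tayP
  congr 2
  funext j
  rw [AlgHom.restrictScalars_apply, map_add, MvPolynomial.aeval_C, MvPolynomial.aeval_X]
  rfl

/-- scaling -/
private theorem G9_scale (f : Fin 6 → MvPolynomial (Fin 5) k0) {d : ℕ}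
    (hd : ∀ i, (f i).IsHomogeneous d) (s : N) (q g : Fin 5 → N) (i : Fin 6) (n : ℕ) :
    (tayP f (fun j => s * q j) g i).coeff n * s ^ n = s ^ d * (tayP f q g i).coeff n := by
  have h1 := MvPolynomial.comp_aeval_apply
    (fun j => Polynomial.C (s * q j) + Polynomial.C (g j) * Polynomial.X : Fin 5 → Polynomial N)
    ((Polynomial.aeval (Polynomial.C s * Polynomial.X) :
      Polynomial N →ₐ[N] Polynomial N).restrictScalars k0) (f i)
  rw [AlgHom.restrictScalars_apply] at h1
  have h2 : (fun j => ((Polynomial.aeval (Polynomial.C s * Polynomial.X) :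
      Polynomial N →ₐ[N] Polynomial N).restrictScalars k0)
        (Polynomial.C (s * q j) + Polynomial.C (g j) * Polynomial.X)) =
      fun j => Polynomial.C s * (Polynomial.C (q j) + Polynomial.C (g j) * Polynomial.X) := by
    funext j
    rw [AlgHom.restrictScalars_apply]
    simp only [map_add, map_mul, Polynomial.aeval_C, Polynomial.aeval_X,
      Polynomial.algebraMap_eq]
    ring
  rw [h2] at h1
  have h3 : MvPolynomial.aeval (fun j => Polynomial.C s * (Polynomial.C (q j) +
      Polynomial.C (g j) * Polynomial.X) : Fin 5 → Polynomial N) (f i) =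
      Polynomial.C s ^ d * tayP f q g i := by
    unfold tayP
    rw [MvPolynomial.aeval_def, MvPolynomial.aeval_def, MvPolynomial.eval₂_eq',
      MvPolynomial.eval₂_eq', Finset.mul_sum]
    refine Finset.sum_congr rfl fun m hm => ?_
    have h4 : m.degree = d := by
      by_contra h5
      exact (MvPolynomial.mem_support_iff.1 hm) ((hd i).coeff_eq_zero h5)
    simp only [mul_pow, Finset.prod_mul_distrib]
    rw [Finset.prod_pow_eq_pow_sum]
    have h6 : ∑ j, m j = d := by
      rw [← h4, Finsupp.degree_eq_sum]
    rw [h6]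
    ring
  rw [h3] at h1
  have h4 := congrArg (fun P => Polynomial.coeff P n) h1
  have h5 : (Polynomial.aeval (Polynomial.C s * Polynomial.X)
      (MvPolynomial.aeval (fun j => Polynomial.C (s * q j) + Polynomial.C (g j) * Polynomial.X :
        Fin 5 → Polynomial N) (f i)) : Polynomial N).coeff n =
      (tayP f (fun j => s * q j) g i).coeff n * s ^ n := by
    rw [← Polynomial.comp_eq_aeval, Polynomial.comp_C_mul_X_coeff]
    rfl
  have h6 : (Polynomial.C s ^ d * tayP f q g i).coeff n = s ^ d * (tayP f q g i).coeff n := by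
    rw [← Polynomial.C_pow, Polynomial.coeff_C_mul]
  rw [← h5, ← h6]
  exact h4

/-- `p l ≠ 0`, `q = p / p l` has coordinates in `K0`. `hm` for `K0`, `q`: a non-zero coefficient of degree `m.degree = j ≤ 2` of
`f i (q + Y)`; `j ≠ 0` because `f i (q) = 0`. The coefficient of `h^j` of `f i (q + h g)` is the value at `g` of the
homogeneous part of degree `j` of `f i (q + Y)`, a non-zero polynomial over `K0`, so it is not zero.
`f i (p + h g) = (p l)^d f i (q + (h / p l) g)`, so `tay f p g j i = (p l)^(d - j) tay f q g j i ≠ 0` (if `j > d` then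
the homogeneous part is zero). -/
theorem mult (f : Fin 6 → MvPolynomial (Fin 5) k0) {d : ℕ} (hd : ∀ i, (f i).IsHomogeneous d)
    (hm : Mult2 f) (K0 : IntermediateField k0 N) (p g : Fin 5 → N) (hp : p ≠ 0)
    (hr : ∀ i j, p i / p j ∈ K0) (hg : AlgebraicIndependent K0 g) (hz : fe f p = 0) :
    tay f p g 1 ≠ 0 ∨ tay f p g 2 ≠ 0 := by
  obtain ⟨l, hl0⟩ := Function.ne_iff.1 hp
  have hl : p l ≠ 0 := hl0
  let q : Fin 5 → K0 := fun j => ⟨p j / p l, hr j l⟩
  have hq : q ≠ 0 := by
    intro h
    have h1 : p l / p l = 0 := congrArg Subtype.val (congrFun h l)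
    rw [div_self hl] at h1
    exact one_ne_zero h1
  obtain ⟨i, m, hm2, hc⟩ := hm K0 q hq
  set R := MvPolynomial.aeval (fun j => MvPolynomial.C (q j) + MvPolynomial.X j :
    Fin 5 → MvPolynomial (Fin 5) K0) (f i) with hR
  have hH : MvPolynomial.homogeneousComponent m.degree R ≠ 0 := by
    intro h
    apply hc
    have h1 := MvPolynomial.coeff_homogeneousComponent m.degree R m
    rw [if_pos rfl, h, MvPolynomial.coeff_zero] at h1
    exact h1.symm
  have hv : MvPolynomial.aeval g (MvPolynomial.homogeneousComponent m.degree R) ≠ 0 := by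
    intro h
    exact hH (AlgebraicIndependent.eq_zero_of_aeval_eq_zero hg _ h)
  have hpq : p = fun j => p l * (q j : N) := by
    funext j
    show p j = p l * (p j / p l)
    rw [mul_div_cancel₀ _ hl]
  have key : tay f p g m.degree i ≠ 0 := by
    intro h0
    have h1 := G9_scale f hd (p l) (fun j => (q j : N)) g i m.degree
    rw [← hpq, G9_tay, ← hR, G9_comp] at h1
    have h2 : (tayP f p g i).coeff m.degree = 0 := h0
    rw [h2, zero_mul] at h1
    exact mul_ne_zero (pow_ne_zero _ hl) hv h1.symm
  have h3 : m.degree = 0 ∨ m.degree = 1 ∨ m.degree = 2 := by omega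
  rcases h3 with h3 | h3 | h3
  · exfalso
    rw [h3, tay_zero, hz] at key
    exact key rfl
  · rw [h3] at key
    exact Or.inl fun h => key (congrFun h i)
  · rw [h3] at key
    exact Or.inr fun h => key (congrFun h i)

end MP2619.Q5
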