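import Pool.Agent.Lib.MP_2619d0_ag.Q5.G7
import Pool.Agent.Lib.MP_2619d0_ag.Q5.G8
import Pool.Agent.Lib.MP_2619d0_ag.Q5.G9
import Pool.Agent.Lib.MP_2619d0_ag.Q5.G18
import Pool.Agent.Lib.MP_2619d0_ag.Q5.G19

/-!
Row 2619q5-G20: path A: escaping solutions
-/

set_option autoImplicit false

namespace MP2619.Q5

open scoped NNReal
open IntermediateField MP2619.R MP2619.N Pool.Agent.Lib.MP_2619d0_ag Pool.Agent.Lib.MP_2619d0_ag.T

variable {k0 C B M N : Type} [Field k0] [Field C] [Field B] [Field M] [Field N] [Algebra k0 C]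
  [Algebra k0 B] [Algebra k0 M] [Algebra k0 N] [Algebra C B] [Algebra C M] [Algebra C N]
  [Algebra B M] [Algebra B N] [IsScalarTower k0 C B] [IsScalarTower k0 C M] [IsScalarTower k0 C N]
  [IsScalarTower k0 B M] [IsScalarTower k0 B N] [IsScalarTower C B M] [IsScalarTower C B N]
  {f : Fin 6 → MvPolynomial (Fin 5) k0} {G : Fin 5 → Fin 5 → C} {ε : M} {t : Fin 4 → M} {α β : M}
  {σ : M ≃ₐ[B] M} {P : ValuationSubring M} {φ : P →+* N} {x y : Fin 6 → P} {w : B} {a : Fin 6}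

/-- algebraically independent entries: the determinant is not zero -/
private theorem G20_det {k C : Type} [Field k] [Field C] [Algebra k C] (G : Fin 5 → Fin 5 → C)
    (hG : AlgebraicIndependent k (fun q : Fin 5 × Fin 5 => G q.1 q.2)) :
    (Matrix.of G).det ≠ 0 := by
  intro h0
  have h1 := Matrix.det_mvPolynomialX_ne_zero (Fin 5) k
  apply h1
  apply hG
  rw [map_zero]
  have h2 : MvPolynomial.aeval (fun q : Fin 5 × Fin 5 => G q.1 q.2)
      (Matrix.mvPolynomialX (Fin 5) (Fin 5) k).det =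
      ((MvPolynomial.aeval (R := k) (fun q : Fin 5 × Fin 5 => G q.1 q.2)).mapMatrix
        (Matrix.mvPolynomialX (Fin 5) (Fin 5) k)).det := AlgHom.map_det _ _
  rw [h2, ← h0]
  congr 1
  ext a b
  simp [Matrix.mvPolynomialX]

private theorem G20_ne {k C N : Type} [Field k] [Field C] [Field N] [Algebra k C] [Algebra C N]
    (G : Fin 5 → Fin 5 → C) (hG : AlgebraicIndependent k (fun q : Fin 5 × Fin 5 => G q.1 q.2))
    (t : Fin 4 → N) : pA G t 0 ≠ 0 := by
  intro h0
  have hd : ((Matrix.of G).map (algebraMap C N)).det ≠ 0 := by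
    have h1 : ((Matrix.of G).map (algebraMap C N)).det = algebraMap C N (Matrix.of G).det := by
      rw [RingHom.map_det]; rfl
    rw [h1]
    exact (map_ne_zero _).2 (G20_det G hG)
  have h2 := Matrix.eq_zero_of_mulVec_eq_zero hd (v := Fin.cons 1 t) (by
    funext i
    have h3 := congrFun h0 i
    simp only [pA, zero_mul, add_zero] at h3
    exact h3)
  have h4 := congrFun h2 0
  exact one_ne_zero h4

/-- `exists_norm` for `T = (1, t)`. If `f(P0) ≠ 0`: `esc_main`. Otherwise `esc_base`, `mult` (for `p = pA G t̄ 0 ≠ 0` (`G` invertible),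
`g = column 1`, `K0 = resI rm0 (rat k0 (pA G t 0))`, ratios by `rat_resI`), `three_cases` with `esc_heq`,
`Mm = adjoin C ({ε, α, β} ∪ range t)`. First alternative: `x̄` and `ȳ` are multiples of one vector (`res_par`): `esc_not_par`. The others:
`caseII_cpl`, `caseIII_cpl`. -/
theorem esc [CharZero N] (E : Esc f G ε t α β σ P φ x y w a) (hm : Mult2 f) (h : Fin 2 → B)
    (hh : AlgebraicIndependent C h) :
    (∀ b ∈ adjoin B (Set.range t ∪ {α, β}), b ∈ P) ∨
      CPLD B (fun i => φ (x i)) (fun i => φ (y i)) := by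
  classical
  have rmC : RMap C P φ := E.rm.restrict
  have rm0 : RMap k0 P φ := E.rm.restrict
  have hT0 : (Fin.cons 1 t : Fin 5 → M) ≠ 0 := fun h => one_ne_zero (congrFun h 0)
  obtain ⟨j0, hj0, hT⟩ := exists_norm P (Fin.cons 1 t : Fin 5 → M) hT0
  by_cases hne : fe f (pt G (fun j => φ ⟨_, hT j⟩)) ≠ 0
  · exact Or.inl (esc_main E j0 hj0 hT hne)
  right
  rw [not_not] at hne
  obtain ⟨h3, hG, ht, hz⟩ := esc_base E rm0 j0 hj0 hT hne
  obtain ⟨d, hd⟩ := E.hom
  have hTP : ∀ j, (Fin.cons 1 t : Fin 5 → M) j ∈ P := by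
    intro j
    refine Fin.cases ?_ (fun i => ?_) j
    · exact P.one_mem
    · exact ht i
  have hpP : ∀ j, pA G t 0 j ∈ P := by
    intro j
    simp only [pA, zero_mul, add_zero, pt]
    exact sum_mem fun l _ => mul_mem (rmC.cst _) (hTP l)
  obtain ⟨p, hp⟩ : ∃ p : Fin 5 → P, ∀ j, (p j : M) = pA G t 0 j := ⟨fun j => ⟨_, hpP j⟩, fun _ => rfl⟩
  obtain ⟨g, hg⟩ : ∃ g : Fin 5 → P, ∀ j, g j = ⟨algebraMap C M (G j 1), rmC.cst _⟩ :=
    ⟨fun j => _, fun _ => rfl⟩
  have hφT : ∀ j, φ ⟨(Fin.cons 1 t : Fin 5 → M) j, hTP j⟩ =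
      (Fin.cons 1 (fun j => φ ⟨t j, ht j⟩) : Fin 5 → N) j := by
    intro j
    refine Fin.cases ?_ (fun i => ?_) j
    · exact map_one φ
    · rfl
  have hφp : ∀ j, φ (p j) = pA G (fun j => φ ⟨t j, ht j⟩) 0 j := by
    intro j
    have h1 : p j = ∑ l, (⟨algebraMap C M (G j l), rmC.cst _⟩ : P) *
        ⟨(Fin.cons 1 t : Fin 5 → M) l, hTP l⟩ := by
      apply Subtype.ext
      rw [hp]
      simp only [pA, zero_mul, add_zero, pt]
      push_cast
      rfl
    rw [h1, map_sum]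
    simp only [pA, zero_mul, add_zero, pt]
    refine Finset.sum_congr rfl fun l _ => ?_
    rw [map_mul, rmC.alg, hφT]
  have hφg : ∀ j, φ (g j) = algebraMap C N (G j 1) := by
    intro j
    rw [hg, rmC.alg]
  have hp0 : (fun j => (p j : M)) = pA G t 0 := funext hp
  have hg0 : (fun j => (g j : M)) = fun j => algebraMap C M (G j 1) := by
    funext j
    rw [hg]
  have hpe : (fun j => (p j : M) + ε * (g j : M)) = pA G t ε := by
    funext j
    rw [hp, hg]
    simp only [pA]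
    ring
  have hφp0 : (fun j => φ (p j)) = pA G (fun j => φ ⟨t j, ht j⟩) 0 := funext hφp
  have hzp : fe f (fun j => φ (p j)) = 0 := by
    rw [hφp0]
    exact hz
  have hpne : (fun j => φ (p j)) ≠ 0 := by
    rw [hφp0]
    exact G20_ne G E.indG _
  have hrat : ∀ i j, φ (p i) / φ (p j) ∈ resI rm0 (rat k0 (pA G t 0)) := by
    intro i j
    have h1 := rat_resI rm0 p (rat k0 (pA G t 0)) (by rw [hp0])
    refine h1 ?_
    exact subset_adjoin k0 _ ⟨i, j, rfl⟩
  have hgind : AlgebraicIndependent (resI rm0 (rat k0 (pA G t 0))) (fun j => φ (g j)) := by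
    have h1 := hG.comp (fun j : Fin 5 => ((j, 1) : Fin 5 × Fin 5))
      (fun a b hab => (Prod.mk.inj hab).1)
    have h2 : (fun j => φ (g j)) = (fun q : Fin 5 × Fin 5 => algebraMap C N (G q.1 q.2)) ∘
        (fun j : Fin 5 => ((j, 1) : Fin 5 × Fin 5)) := funext hφg
    rw [h2]
    exact h1
  have hmu := mult f hd hm (resI rm0 (rat k0 (pA G t 0))) (fun j => φ (p j)) (fun j => φ (g j))
    hpne hrat hgind hzp
  have hTm : ∀ j, (Fin.cons 1 t : Fin 5 → M) j ∈ adjoin C ({ε, α, β} ∪ Set.range t) := by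
    intro j
    refine Fin.cases ?_ (fun i => ?_) j
    · exact one_mem _
    · exact subset_adjoin C _ (Or.inr ⟨i, rfl⟩)
  have hpm : ∀ j, (p j : M) ∈ adjoin C ({ε, α, β} ∪ Set.range t) := by
    intro j
    rw [hp]
    simp only [pA, zero_mul, add_zero, pt]
    exact sum_mem fun l _ => mul_mem (IntermediateField.algebraMap_mem _ _) (hTm l)
  have hgm : ∀ j, (g j : M) ∈ adjoin C ({ε, α, β} ∪ Set.range t) := by
    intro j
    rw [hg]
    exact IntermediateField.algebraMap_mem _ _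
  have hem : ε ∈ adjoin C ({ε, α, β} ∪ Set.range t) :=
    subset_adjoin C _ (Or.inl (by simp))
  rcases three_cases rmC (adjoin C ({ε, α, β} ∪ Set.range t)) f p g ε hpm hgm hem E.e0 E.eps hzp
    hmu (by rw [hp0]; exact E.x0) (by
      intro c hc
      rw [hp0, hpe]
      exact esc_heq E c hc) with
    ⟨ϖ, r, r', hϖ, hr, hr', hrr, i0, hi0⟩ | ⟨ϖ, A, hII⟩ | ⟨ϖ, xh, yh, dd, hIII⟩
  · exfalso
    rw [hp0] at hr
    rw [hpe] at hr'
    obtain ⟨c1, hc1⟩ := res_par E.rm x r (α * ϖ) (fun i => by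
      rw [E.x_eq, ← hr i]; ring) ⟨i0, hi0⟩
    obtain ⟨c2, hc2⟩ := res_par E.rm y r' (β * ϖ) (fun i => by
      rw [E.y_eq, ← hr' i]; ring) ⟨i0, by rw [← hrr]; exact hi0⟩
    exact esc_not_par E rm0 h3 (fun i => φ (r i)) c1 c2 hc1 (fun i => by rw [hc2, hrr])
  · rw [hp0, hg0] at hII
    exact caseII_cpl E rm0 rmC h3 h hh ϖ A hII
  · rw [hp0, hg0] at hIII
    exact caseIII_cpl E rm0 rmC h3 h hh ϖ xh yh dd hIII

end MP2619.Q5
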