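import Pool.Agent.Lib.MP_2619d0_ag.Q5.G1
import Pool.Agent.Lib.MP_2619d0_ag.Q5.G6
import Pool.Agent.Lib.MP_2619d0_ag.Q5.C6

/-!
Row 2619q5-G21: the main place
-/

set_option autoImplicit false

namespace MP2619.Q5

open scoped NNReal
open IntermediateField MP2619.R MP2619.N Pool.Agent.Lib.MP_2619d0_ag Pool.Agent.Lib.MP_2619d0_ag.T

private theorem G21_gen {B N : Type} [Field B] [Field N] [Algebra B N] {n : ℕ} (f v : Fin n → N)
    (hv : AlgebraicIndependent B v) (hvf : ∀ i, v i ∈ adjoin B (Set.range f)) :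
    AlgebraicIndependent B f := by
  set L : IntermediateField B N := adjoin B (Set.range f) with hL
  let g : Fin n → L := fun i => ⟨f i, subset_adjoin B _ (Set.mem_range_self i)⟩
  have halg : Algebra.IsAlgebraic (Algebra.adjoin B (Set.range g)) L := by
    refine ⟨?_⟩
    rintro ⟨z, hz⟩
    induction hz using adjoin_induction with
    | mem z hz =>
      obtain ⟨i, rfl⟩ := hz
      exact isAlgebraic_algebraMap (⟨g i, Algebra.subset_adjoin (Set.mem_range_self i)⟩ :
        Algebra.adjoin B (Set.range g))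
    | algebraMap c =>
      exact isAlgebraic_algebraMap (algebraMap B (Algebra.adjoin B (Set.range g)) c)
    | add x y hx hy h1 h2 => exact h1.add h2
    | inv x hx h1 => exact h1.inv
    | mul x y hx hy h1 h2 => exact h1.mul h2
  let v' : Fin n → L := fun i => ⟨v i, hvf i⟩
  have hv' : AlgebraicIndependent B v' := AlgebraicIndependent.of_comp L.val hv
  have hb := Algebra.IsAlgebraic.isTranscendenceBasis_of_le_trdeg_of_finite B g
    (by simpa using hv'.cardinalMk_le_trdeg)
  exact hb.1.map' (f := L.val) L.val.injective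

section

variable {B M N : Type} [Field B] [Field M] [Field N] [Algebra B M] [Algebra B N]
  {P : ValuationSubring M} {φ : P →+* N}

private theorem G21_one (rm : RMap B P φ) (x : P) (h : φ x ≠ 0) : P.valuation (x : M) = 1 :=
  le_antisymm ((P.valuation_le_one_iff _).2 x.2) (not_lt.1 fun h1 => h ((rm.zero x).2 h1))

private theorem G21_small (rm : RMap B P φ) {ι : Type} (a : ι → P)
    (hb : AlgebraicIndependent B (fun i => φ (a i))) :
    ∀ z ∈ Algebra.adjoin B (Set.range (fun i => (a i : M))), z ∈ P ∧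
      (P.valuation z < 1 → z = 0) := by
  intro z hz
  rw [Algebra.adjoin_range_eq_range_aeval] at hz
  obtain ⟨p, rfl⟩ := hz
  let ι0 : B →+* P := (algebraMap B M).codRestrict P rm.cst
  have h1 : ((MvPolynomial.eval₂ ι0 a p : P) : M) = MvPolynomial.aeval (fun i => (a i : M)) p := by
    rw [MvPolynomial.aeval_def]
    exact MvPolynomial.eval₂_comp_left P.subtype ι0 a p
  have h2 : φ (MvPolynomial.eval₂ ι0 a p) = MvPolynomial.aeval (fun i => φ (a i)) p := by
    rw [MvPolynomial.aeval_def, MvPolynomial.eval₂_comp_left φ ι0 a p]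
    have h3 : φ.comp ι0 = algebraMap B N := RingHom.ext fun c => rm.alg c
    rw [h3]
    rfl
  refine ⟨?_, ?_⟩
  · change MvPolynomial.aeval (fun i => (a i : M)) p ∈ P
    rw [← h1]
    exact Subtype.coe_prop _
  · intro hv
    change P.valuation (MvPolynomial.aeval (fun i => (a i : M)) p) < 1 at hv
    rw [← h1] at hv
    have h4 := (rm.zero _).2 hv
    rw [h2] at h4
    have h0 : p = 0 := hb.eq_zero_of_aeval_eq_zero p h4
    rw [h0]
    simp

private theorem G21_field (rm : RMap B P φ) {ι : Type} (a : ι → P)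
    (hb : AlgebraicIndependent B (fun i => φ (a i))) :
    ∀ z ∈ adjoin B (Set.range (fun i => (a i : M))), z ∈ P := by
  intro z hz
  rw [mem_adjoin_iff_div] at hz
  obtain ⟨r, hr, s, hs, rfl⟩ := hz
  obtain ⟨h1, -⟩ := G21_small rm a hb r hr
  obtain ⟨h2, h3⟩ := G21_small rm a hb s hs
  by_cases h0 : s = 0
  · rw [h0, div_zero]
    exact P.zero_mem
  · have h4 : P.valuation s = 1 :=
      le_antisymm ((P.valuation_le_one_iff _).2 h2) (not_lt.1 fun h => h0 (h3 h))
    rw [← P.valuation_le_one_iff, map_div₀, h4, div_one]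
    exact (P.valuation_le_one_iff _).2 h1

end

variable {B M N : Type} [Field B] [Field M] [Field N] [Algebra B M] [Algebra B N]
  {P : ValuationSubring M} {φ : P →+* N}

/-- `α = x i / X i ∈ P` (`i` with `φ (X i) ≠ 0`), `β ∈ P`. The six elements `zg` are in `B(t̄, ᾱ, β̄)`, so `t̄, ᾱ, β̄` are algebraically
independent over `B` (six elements), and every non-zero element of `B[t, α, β]` is a unit of `P` (as `adj_small` in
R/C4.lean), so the field `B(t, α, β)` is in `P`. -/
theorem main_of_ind (rm : RMap B P φ) (t : Fin 4 → M) (α β : M) (ht : ∀ j, t j ∈ P)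
    (x y X Y : Fin 6 → P) (hx : ∀ i, (x i : M) = α * (X i : M))
    (hy : ∀ i, (y i : M) = β * (Y i : M))
    (hX : ∀ i, φ (X i) ∈ adjoin B (Set.range fun j => φ ⟨t j, ht j⟩)) (hX0 : ∃ i, φ (X i) ≠ 0)
    (hY : ∀ i, φ (Y i) ∈ adjoin B (Set.range fun j => φ ⟨t j, ht j⟩)) (hY0 : ∃ i, φ (Y i) ≠ 0)
    (w : B) (a : Fin 6)
    (ind : AlgebraicIndependent B (zg w (fun i => φ (x i)) (fun i => φ (y i)) (Pi.single a 1))) :
    ∀ b ∈ adjoin B (Set.range t ∪ {α, β}), b ∈ P := by
  have hpar : ∀ (c : M) (x X : Fin 6 → P), (∀ i, (x i : M) = c * (X i : M)) →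
      (∃ i, φ (X i) ≠ 0) → c ∈ P := by
    intro c x X h1 h2
    obtain ⟨i, hi⟩ := h2
    have h3 := G21_one rm (X i) hi
    have h4 := (P.valuation_le_one_iff _).2 (x i).2
    rw [h1 i, map_mul, h3, mul_one] at h4
    exact (P.valuation_le_one_iff _).1 h4
  have hα : α ∈ P := hpar α x X hx hX0
  have hβ : β ∈ P := hpar β y Y hy hY0
  let s : Fin 6 → P := Fin.cons ⟨α, hα⟩ (Fin.cons ⟨β, hβ⟩ (fun j => ⟨t j, ht j⟩ : Fin 4 → P))
  have hrange : Set.range t ∪ {α, β} = Set.range (fun i => (s i : M)) := by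
    have e : (fun i => (s i : M)) = Fin.cons α (Fin.cons β t : Fin 5 → M) := by
      funext i
      refine Fin.cases rfl (fun i => ?_) i
      refine Fin.cases rfl (fun i => rfl) i
    rw [e, Fin.range_cons, Fin.range_cons]
    ext z
    simp only [Set.mem_union, Set.mem_insert_iff, Set.mem_singleton_iff]
    tauto
  rw [hrange]
  refine G21_field rm s ?_
  refine G21_gen _ _ ind ?_
  intro i
  have hsub : adjoin B (Set.range fun j => φ ⟨t j, ht j⟩) ≤
      adjoin B (Set.range fun i => φ (s i)) := by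
    apply adjoin.mono
    rintro _ ⟨j, rfl⟩
    exact ⟨j.succ.succ, rfl⟩
  have hαs : φ ⟨α, hα⟩ ∈ adjoin B (Set.range fun i => φ (s i)) :=
    subset_adjoin B _ ⟨0, rfl⟩
  have hβs : φ ⟨β, hβ⟩ ∈ adjoin B (Set.range fun i => φ (s i)) :=
    subset_adjoin B _ ⟨1, rfl⟩
  have hxi : φ (x i) = φ ⟨α, hα⟩ * φ (X i) := by
    rw [← map_mul]
    congr 1
    exact Subtype.ext (hx i)
  have hyi : φ (y i) = φ ⟨β, hβ⟩ * φ (Y i) := by
    rw [← map_mul]
    congr 1
    exact Subtype.ext (hy i)
  show algebraMap B N _ * φ (x i) + φ (y i) ∈ _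
  rw [hxi, hyi]
  exact add_mem (mul_mem (IntermediateField.algebraMap_mem _ _) (mul_mem hαs (hsub (hX i))))
    (mul_mem hβs (hsub (hY i)))

/-- `P` is trivial on `rat B T` if its residues have transcendence degree at least four; so the ratios of `T` are in `P` and
(if `T 0 = 1`, or more generally if `T 0` is a unit of `P`) the residues of `T 1 / T 0, .., T 4 / T 0` are algebraically independent:
`trdeg_resI_lt` (with `D = 3`, `trdeg_rat_le`), the residue field `resI rm (rat B T)` is then generated by the residues of the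
`T j / T 0`. -/
theorem triv_of_trdeg (rm : RMap B P φ) (T : Fin 5 → M) (h0 : P.valuation (T 0) = 1)
    (h : ¬ Algebra.trdeg B (resI rm (rat B T)) ≤ 3) :
    ∃ hT : ∀ j, T j ∈ P, AlgebraicIndependent B
      (fun j : Fin 4 => φ ⟨T j.succ, hT _⟩ / φ ⟨T 0, hT 0⟩) := by
  have hT0 : T 0 ≠ 0 := by
    intro h1
    rw [h1, map_zero] at h0
    exact zero_ne_one h0
  have htriv : ∀ p ∈ rat B T, p ≠ 0 → P.valuation p = 1 := by
    intro p hp hp0
    have h1 : ∀ p ∈ rat B T, p ≠ 0 → 1 ≤ P.valuation p := by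
      intro p hp hp0
      by_contra h2
      rw [not_le] at h2
      exact h (trdeg_resI_lt rm (rat B T) 3 (trdeg_rat_le T) p hp hp0 h2)
    refine le_antisymm ?_ (h1 p hp hp0)
    have h3 := h1 p⁻¹ ((rat B T).inv_mem hp) (inv_ne_zero hp0)
    rw [map_inv₀] at h3
    have h4 : 0 < P.valuation p := by
      rw [pos_iff_ne_zero, Valuation.ne_zero_iff]
      exact hp0
    exact (one_le_inv₀ h4).1 h3
  have hT1 : ∀ j, T j ≠ 0 → P.valuation (T j) = 1 := by
    intro j hj
    have h1 : T j / T 0 ∈ rat B T := subset_adjoin B _ ⟨j, 0, rfl⟩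
    have h2 := htriv _ h1 (div_ne_zero hj hT0)
    rw [map_div₀, h0, div_one] at h2
    exact h2
  have hT : ∀ j, T j ∈ P := by
    intro j
    by_cases hj : T j = 0
    · rw [hj]; exact P.zero_mem
    · rw [← P.valuation_le_one_iff, hT1 j hj]
  refine ⟨hT, ?_⟩
  have hres : ∀ x : P, (x : M) ∈ rat B T → (x : M) ≠ 0 → φ x ≠ 0 := by
    intro x hx hx0 hφ
    have h1 := (rm.zero x).1 hφ
    rw [htriv _ hx hx0] at h1
    exact lt_irrefl _ h1
  have hφ0 : φ ⟨T 0, hT 0⟩ ≠ 0 := by
    intro hφ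
    have h1 := (rm.zero _).1 hφ
    rw [h0] at h1
    exact lt_irrefl _ h1
  set L : IntermediateField B N := adjoin B (Set.range (fun j : Fin 4 => φ ⟨T j.succ, hT _⟩ /
    φ ⟨T 0, hT 0⟩)) with hL
  have hq : ∀ j, φ ⟨T j, hT j⟩ / φ ⟨T 0, hT 0⟩ ∈ L := by
    intro j
    refine Fin.cases ?_ (fun j => ?_) j
    · rw [div_self hφ0]
      exact one_mem _
    · exact subset_adjoin B _ ⟨j, rfl⟩
  -- the residue of a quotient
  have hdiv : ∀ x y z : P, (z : M) = (x : M) / (y : M) → φ y ≠ 0 → φ z = φ x / φ y := by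
    intro x y z hz hy
    have hy0 : (y : M) ≠ 0 := by
      intro h1
      apply hy
      have h2 : y = 0 := Subtype.ext h1
      rw [h2, map_zero]
    rw [eq_div_iff hy, ← map_mul]
    congr 1
    apply Subtype.ext
    show (z : M) * (y : M) = (x : M)
    rw [hz, div_mul_cancel₀ _ hy0]
  have key : ∀ z (hz : z ∈ rat B T), ∃ hz' : z ∈ P, φ ⟨z, hz'⟩ ∈ L := by
    intro z hz
    induction hz using adjoin_induction with
    | mem z hz =>
      obtain ⟨i, j, rfl⟩ := hz
      by_cases hj : T j = 0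
      · refine ⟨by rw [hj, div_zero]; exact P.zero_mem, ?_⟩
        have e : (⟨T i / T j, by rw [hj, div_zero]; exact P.zero_mem⟩ : P) = 0 := by
          apply Subtype.ext
          show T i / T j = 0
          rw [hj, div_zero]
        rw [e, map_zero]
        exact zero_mem _
      · have h1 : T i / T j ∈ P := by
          rw [← P.valuation_le_one_iff, map_div₀, hT1 j hj, div_one]
          exact (P.valuation_le_one_iff _).2 (hT i)
        refine ⟨h1, ?_⟩
        have h2 : φ ⟨T j, hT j⟩ ≠ 0 := by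
          intro hφ
          have h3 := (rm.zero _).1 hφ
          rw [hT1 j hj] at h3
          exact lt_irrefl _ h3
        rw [hdiv ⟨T i, hT i⟩ ⟨T j, hT j⟩ ⟨T i / T j, h1⟩ rfl h2,
          ← div_div_div_cancel_right₀ hφ0]
        exact div_mem (hq i) (hq j)
    | algebraMap c =>
      refine ⟨rm.cst c, ?_⟩
      rw [rm.alg c]
      exact L.algebraMap_mem c
    | add x y hx hy h1 h2 =>
      obtain ⟨a1, b1⟩ := h1
      obtain ⟨a2, b2⟩ := h2
      refine ⟨P.add_mem _ _ a1 a2, ?_⟩
      have e : (⟨x + y, P.add_mem _ _ a1 a2⟩ : P) = ⟨x, a1⟩ + ⟨y, a2⟩ := rfl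
      rw [e, map_add]
      exact add_mem b1 b2
    | mul x y hx hy h1 h2 =>
      obtain ⟨a1, b1⟩ := h1
      obtain ⟨a2, b2⟩ := h2
      refine ⟨P.mul_mem _ _ a1 a2, ?_⟩
      have e : (⟨x * y, P.mul_mem _ _ a1 a2⟩ : P) = ⟨x, a1⟩ * ⟨y, a2⟩ := rfl
      rw [e, map_mul]
      exact mul_mem b1 b2
    | inv x hx h1 =>
      obtain ⟨a1, b1⟩ := h1
      by_cases hx0 : x = 0
      · refine ⟨by rw [hx0, inv_zero]; exact P.zero_mem, ?_⟩
        have e : (⟨x⁻¹, by rw [hx0, inv_zero]; exact P.zero_mem⟩ : P) = 0 := by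
          apply Subtype.ext
          show x⁻¹ = 0
          rw [hx0, inv_zero]
        rw [e, map_zero]
        exact zero_mem _
      · have h2 : x⁻¹ ∈ P := by
          rw [← P.valuation_le_one_iff, map_inv₀, htriv x hx hx0, inv_one]
        refine ⟨h2, ?_⟩
        have h3 := hdiv 1 ⟨x, a1⟩ ⟨x⁻¹, h2⟩ (by
          show x⁻¹ = (1 : M) / x
          rw [one_div]) (hres ⟨x, a1⟩ hx hx0)
        rw [h3, map_one]
        exact div_mem (one_mem _) b1
  obtain ⟨b, hb⟩ := card_of_not_le h
  have hb' : AlgebraicIndependent B (fun i => ((b i : resI rm (rat B T)) : N)) :=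
    hb.map' (f := (resI rm (rat B T)).val) (resI rm (rat B T)).val.injective
  refine G21_gen _ _ hb' ?_
  intro i
  obtain ⟨z, hz, hzb⟩ := (mem_resI rm (rat B T) _).1 (b i).2
  obtain ⟨hz', hL'⟩ := key z hz
  rw [← hzb]
  exact hL'

/-- linear images -/
theorem rat_pt_le (G : Fin 5 → Fin 5 → B) (T : Fin 5 → M) : rat B (pt G T) ≤ rat B T := by
  by_cases h : T = 0
  · rw [rat, adjoin_le_iff]
    rintro _ ⟨i, j, rfl⟩
    have e : pt G T i = 0 := by
      unfold pt
      rw [h]
      simp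
    rw [e, zero_div]
    exact zero_mem _
  · obtain ⟨s, hs⟩ := Function.ne_iff.1 h
    have hs0 : T s ≠ 0 := hs
    have h1 : ∀ i, pt G T i / T s ∈ rat B T := by
      intro i
      unfold pt
      rw [Finset.sum_div]
      refine sum_mem fun j _ => ?_
      rw [mul_div_assoc]
      exact mul_mem (IntermediateField.algebraMap_mem _ _) (subset_adjoin B _ ⟨j, s, rfl⟩)
    rw [rat, adjoin_le_iff]
    rintro _ ⟨i, j, rfl⟩
    rw [← div_div_div_cancel_right₀ hs0]
    exact div_mem (h1 i) (h1 j)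

/-- `G` with algebraically independent entries is invertible -/
theorem pt_ne {k0 : Type} [Field k0] [Algebra k0 B] (G : Fin 5 → Fin 5 → B)
    (hG : AlgebraicIndependent k0 (fun q : Fin 5 × Fin 5 => G q.1 q.2)) (T : Fin 5 → M)
    (hT : T ≠ 0) : pt G T ≠ 0 := by
  intro h
  apply hT
  let A : Matrix (Fin 5) (Fin 5) B := Matrix.of G
  have hdet : A.det ≠ 0 := by
    intro h1
    have h2 : MvPolynomial.aeval (fun q : Fin 5 × Fin 5 => G q.1 q.2)
        (Matrix.det (Matrix.mvPolynomialX (Fin 5) (Fin 5) k0)) = 0 := by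
      rw [AlgHom.map_det]
      have h3 := Matrix.mvPolynomialX_mapMatrix_aeval k0 A
      rw [← h1]
      exact congrArg Matrix.det h3
    exact Matrix.det_mvPolynomialX_ne_zero (Fin 5) k0 (hG.eq_zero_of_aeval_eq_zero _ h2)
  have hdet' : (A.map (algebraMap B M)).det ≠ 0 := by
    have h1 := RingHom.map_det (algebraMap B M) A
    have h2 : (A.map (algebraMap B M)).det = algebraMap B M A.det := h1.symm
    rw [h2]
    exact (map_ne_zero _).2 hdet
  refine Matrix.eq_zero_of_mulVec_eq_zero hdet' ?_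
  funext i
  exact congrFun h i

end MP2619.Q5
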