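import Pool.Agent.Lib.MP_2619d0_ag.Q5.G2
import Pool.Agent.Lib.MP_2619d0_ag.Q5.GDefs

/-!
Row 2619q5-G3: general position 2
-/

set_option autoImplicit false

namespace MP2619.Q5

open scoped NNReal
open IntermediateField MP2619.R MP2619.N Pool.Agent.Lib.MP_2619d0_ag Pool.Agent.Lib.MP_2619d0_ag.T

/-- A field generated by a set is algebraic over the algebra generated by the set. -/
private theorem G3_alg {K N : Type} [Field K] [Field N] [Algebra K N] (S : Set N) :
    Algebra.IsAlgebraic (Algebra.adjoin K ((fun x : adjoin K S => (x : N)) ⁻¹' S)) (adjoin K S) := by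
  have key : ∀ r ∈ Algebra.adjoin K S, ∃ r' ∈ Algebra.adjoin K
      ((fun x : adjoin K S => (x : N)) ⁻¹' S), (r' : N) = r := by
    intro r hr
    have h1 : (Algebra.adjoin K ((fun x : adjoin K S => (x : N)) ⁻¹' S)).map (adjoin K S).val =
        Algebra.adjoin K S := by
      rw [AlgHom.map_adjoin]
      congr 1
      ext y
      constructor
      · rintro ⟨x, hx, rfl⟩
        exact hx
      · intro hy
        exact ⟨⟨y, subset_adjoin K S hy⟩, hy, rfl⟩
    rw [← h1] at hr
    obtain ⟨r', hr', h2⟩ := hr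
    exact ⟨r', hr', h2⟩
  refine ⟨fun x => ?_⟩
  obtain ⟨r, hr, s, hs, hx⟩ := mem_adjoin_iff_div.1 x.2
  obtain ⟨r', hr', h1⟩ := key r hr
  obtain ⟨s', hs', h2⟩ := key s hs
  have h3 : x = r' * s'⁻¹ := by
    apply Subtype.ext
    push_cast
    rw [hx, h1, h2, div_eq_mul_inv]
  rw [h3]
  have h4 : IsAlgebraic (Algebra.adjoin K ((fun x : adjoin K S => (x : N)) ⁻¹' S)) r' :=
    isAlgebraic_algebraMap (⟨r', hr'⟩ : Algebra.adjoin K ((fun x : adjoin K S => (x : N)) ⁻¹' S))
  have h5 : IsAlgebraic (Algebra.adjoin K ((fun x : adjoin K S => (x : N)) ⁻¹' S)) s' :=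
    isAlgebraic_algebraMap (⟨s', hs'⟩ : Algebra.adjoin K ((fun x : adjoin K S => (x : N)) ⁻¹' S))
  exact h4.mul h5.inv

private theorem G3_trdeg {K N : Type} [Field K] [Field N] [Algebra K N] {ι : Type} [Fintype ι]
    (s : ι → N) : Algebra.trdeg K (adjoin K (Set.range s)) ≤ (Fintype.card ι : ℕ) := by
  have := G3_alg (K := K) (Set.range s)
  refine (Algebra.IsAlgebraic.trdeg_le_cardinalMk (R := K) (A := adjoin K (Set.range s))
    ((fun x : adjoin K (Set.range s) => (x : N)) ⁻¹' (Set.range s))).trans ?_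
  have h1 : Cardinal.mk ↑((fun x : adjoin K (Set.range s) => (x : N)) ⁻¹' (Set.range s)) ≤
      Cardinal.mk (Set.range s) :=
    Cardinal.mk_preimage_of_injective _ _ Subtype.val_injective
  refine h1.trans (Cardinal.mk_range_le.trans ?_)
  rw [Cardinal.mk_fintype]

private theorem G3_add {k K L : Type} [Field k] [Field K] [Field L] [Algebra k K] [Algebra K L]
    [Algebra k L] [IsScalarTower k K L] :
    Algebra.trdeg k K + Algebra.trdeg K L = Algebra.trdeg k L :=
  trdeg_add_eq k K

private theorem G3_basis {k0 B N : Type} [Field k0] [Field B] [Field N] [Algebra k0 B]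
    [Algebra B N] [Algebra k0 N] (K0 : IntermediateField k0 N) (m : ℕ)
    (hn : ¬ Algebra.trdeg B (adjoin B (K0 : Set N)) ≤ m) :
    ∃ b : Fin (m + 1) → K0, AlgebraicIndependent B (fun i => (b i : N)) := by
  have := G3_alg (K := B) (K0 : Set N)
  obtain ⟨u, hu, hb⟩ := exists_isTranscendenceBasis_subset (R := B)
    (A := adjoin B (K0 : Set N))
    ((fun x : adjoin B (K0 : Set N) => (x : N)) ⁻¹' (K0 : Set N))
  have h1 := hb.cardinalMk_eq_trdeg
  have h2 : ((m + 1 : ℕ) : Cardinal) ≤ Cardinal.mk u := by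
    rw [h1]
    rw [not_le] at hn
    have := Order.succ_le_of_lt hn
    rw [Cardinal.succ_natCast] at this
    exact_mod_cast this
  have h3 : Cardinal.mk (Fin (m + 1)) ≤ Cardinal.mk u := by
    simpa using h2
  obtain ⟨e⟩ := h3
  refine ⟨fun i => ⟨(e i).1.1, hu (e i).2⟩, ?_⟩
  have h4 := (hb.1.comp e e.injective).map' (f := (adjoin B (K0 : Set N)).val) Subtype.val_injective
  exact h4

variable {k0 B N : Type} [Field k0] [Field B] [Field N] [Algebra k0 B] [Algebra B N] [Algebra k0 N]
  [IsScalarTower k0 B N]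

/-- Suppose not: there are three elements `b` of `K0` algebraically independent over `B`; `(b, G)` (28 elements) is
algebraically independent over `k0`, `trdeg k0 K0 ≤ 4`, so the transcendence degree of `K0(G)` over `K0` is at least
`28 - 4 = 24`. On the other hand `Q = pt G c` divided by a non-zero coordinate has coordinates in `K0` and is a combination
of at most three columns of `G` with coefficients `c j / Q_l`, not all zero: one of these columns is in the field generated
over `K0` by the other four columns (20 elements) and at most three coefficients: transcendence degree at most 23 (if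
two columns: at most 22). -/
theorem GP2 (K0 : IntermediateField k0 N) (h : Algebra.trdeg k0 K0 ≤ 4) (G : Fin 5 → Fin 5 → B)
    (hG : AlgebraicIndependent k0 (fun q : Fin 5 × Fin 5 => G q.1 q.2)) (c : Fin 5 → N)
    (hP0 : pt G c ≠ 0) (hr : ∀ i j, pt G c i / pt G c j ∈ K0)
    (h0 : (c 0 = 0 ∧ c 1 = 0) ∨ (c 2 = 0 ∧ c 3 = 0 ∧ c 4 = 0)) :
    Algebra.trdeg B (adjoin B (K0 : Set N)) ≤ 2 := by
  by_contra hn
  obtain ⟨b, hb⟩ := G3_basis K0 2 (by exact_mod_cast hn)
  obtain ⟨l, hl⟩ : ∃ l, pt G c l ≠ 0 := by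
    by_contra hc
    push Not at hc
    exact hP0 (funext hc)
  obtain ⟨j0, hj0⟩ : ∃ j, c j ≠ 0 := by
    by_contra hc
    push Not at hc
    apply hl
    unfold pt
    refine Finset.sum_eq_zero fun j _ => ?_
    rw [hc j, mul_zero]
  -- three indices
  obtain ⟨e, he⟩ : ∃ e : Fin 3 → Fin 5, ∀ j, c j = 0 ∨ ∃ a, e a = j := by
    rcases h0 with ⟨h1, h2⟩ | ⟨h1, h2, h3⟩
    · refine ⟨![2, 3, 4], fun j => ?_⟩
      fin_cases j
      · exact Or.inl h1
      · exact Or.inl h2
      · exact Or.inr ⟨0, rfl⟩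
      · exact Or.inr ⟨1, rfl⟩
      · exact Or.inr ⟨2, rfl⟩
    · refine ⟨![0, 1, 1], fun j => ?_⟩
      fin_cases j
      · exact Or.inr ⟨0, rfl⟩
      · exact Or.inr ⟨1, rfl⟩
      · exact Or.inl h1
      · exact Or.inl h2
      · exact Or.inl h3
  set s : (Fin 4 × Fin 5) ⊕ Fin 3 → N := Sum.elim
    (fun p => algebraMap B N (G p.2 (j0.succAbove p.1))) (fun a => c (e a) / pt G c l) with hs
  set L := adjoin K0 (Set.range s) with hL
  have hsL : ∀ x, s x ∈ L := fun x => subset_adjoin K0 _ ⟨x, rfl⟩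
  have hd : ∀ j, c j / pt G c l ∈ L := by
    intro j
    rcases he j with h1 | ⟨a, rfl⟩
    · rw [h1, zero_div]
      exact L.zero_mem
    · exact hsL (Sum.inr a)
  have hK : ∀ x : K0, (x : N) ∈ L := fun x => L.algebraMap_mem x
  have hGa : ∀ i a, algebraMap B N (G i (j0.succAbove a)) ∈ L := fun i a => hsL (Sum.inl (a, i))
  have hG0 : ∀ i, algebraMap B N (G i j0) ∈ L := by
    intro i
    have h1 : pt G c i = algebraMap B N (G i j0) * c j0 +
        ∑ a : Fin 4, algebraMap B N (G i (j0.succAbove a)) * c (j0.succAbove a) := by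
      unfold pt
      rw [Fin.sum_univ_succAbove _ j0]
    have h2 : algebraMap B N (G i j0) = (pt G c i / pt G c l -
        ∑ a : Fin 4, algebraMap B N (G i (j0.succAbove a)) * (c (j0.succAbove a) / pt G c l)) /
          (c j0 / pt G c l) := by
      rw [eq_div_iff (div_ne_zero hj0 hl), h1, eq_sub_iff_add_eq]
      rw [add_div, Finset.sum_div, mul_div_assoc]
      congr 1
      refine Finset.sum_congr rfl fun a _ => ?_
      rw [mul_div_assoc]
    rw [h2]
    refine L.div_mem (L.sub_mem (hK ⟨_, hr i l⟩) (sum_mem fun a _ => L.mul_mem (hGa i a) (hd _)))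
      (hd j0)
  have hGL : ∀ i j, algebraMap B N (G i j) ∈ L := by
    intro i j
    rcases Fin.eq_self_or_eq_succAbove j0 j with rfl | ⟨a, rfl⟩
    · exact hG0 i
    · exact hGa i a
  -- 28 independent elements
  have hu := hG.sumElim_comp hb
  set u : Fin 3 ⊕ (Fin 5 × Fin 5) → L := Sum.elim (fun i => ⟨(b i : N), hK (b i)⟩)
    (fun q => ⟨algebraMap B N (G q.1 q.2), hGL q.1 q.2⟩) with hudef
  have hu' : AlgebraicIndependent k0 u := by
    refine AlgebraicIndependent.of_comp (L.val.restrictScalars k0) ?_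
    convert hu using 1
    funext x
    rcases x with x | x <;> rfl
  have h28 := hu'.cardinalMk_le_trdeg
  have h23 : Algebra.trdeg K0 L ≤ ((23 : ℕ) : Cardinal) := by
    have h1 := G3_trdeg (K := K0) s
    have h2 : Fintype.card ((Fin 4 × Fin 5) ⊕ Fin 3) = 23 := by simp
    rw [h2] at h1
    exact h1
  have hadd := G3_add (k := k0) (K := K0) (L := L)
  have h3 : Cardinal.mk (Fin 3 ⊕ (Fin 5 × Fin 5)) = ((28 : ℕ) : Cardinal) := by simp
  rw [h3, ← hadd] at h28
  have h4 : Algebra.trdeg k0 K0 + Algebra.trdeg K0 L ≤ ((4 : ℕ) : Cardinal) + ((23 : ℕ) : Cardinal) :=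
    add_le_add (by exact_mod_cast h) h23
  have h5 := h28.trans h4
  have h6 : 28 ≤ 4 + 23 := by exact_mod_cast h5
  omega

end MP2619.Q5
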