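import Pool.Agent.Lib.MP_2619d0_ag.Q5.G1
import Pool.Agent.Lib.MP_2619d0_ag.Q5.G2
import Pool.Agent.Lib.MP_2619d0_ag.Q5.G3
import Pool.Agent.Lib.MP_2619d0_ag.Q5.G5
import Pool.Agent.Lib.MP_2619d0_ag.Q5.G6
import Pool.Agent.Lib.MP_2619d0_ag.Q5.G21

/-!
Row 2619q5-G22: path B, s to infinity
-/

set_option autoImplicit false

namespace MP2619.Q5

open scoped NNReal
open IntermediateField MP2619.R MP2619.N Pool.Agent.Lib.MP_2619d0_ag Pool.Agent.Lib.MP_2619d0_ag.T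

variable {k0 B M N : Type} [Field k0] [Field B] [Field M] [Field N] [Algebra k0 B]
  [Algebra k0 M] [Algebra k0 N] [Algebra B M] [Algebra B N] [IsScalarTower k0 B M]
  [IsScalarTower k0 B N] {P : ValuationSubring M} {φ : P →+* N}

private theorem G22_mono {B N : Type} [Field B] [Field N] [Algebra B N]
    {E F : IntermediateField B N} (h : E ≤ F) : Algebra.trdeg B E ≤ Algebra.trdeg B F :=
  trdeg_le_of_injective (IntermediateField.inclusion h)
    (IntermediateField.inclusion_injective h)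

/-- the quotient of residues is a residue of the quotient -/
private theorem G22_quot {k M N : Type} [Field k] [Field M] [Field N] [Algebra k M] [Algebra k N]
    {P : ValuationSubring M} {φ : P →+* N} (rm : RMap k P φ) (a b : P) (hb : φ b ≠ 0) :
    ∃ c : P, (c : M) = (a : M) / (b : M) ∧ φ c = φ a / φ b := by
  have hb1 : P.valuation (b : M) = 1 :=
    le_antisymm (P.valuation_le_one b) (not_lt.1 fun h => hb ((rm.zero b).2 h))
  have hb0 : (b : M) ≠ 0 := by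
    intro h
    rw [h, map_zero] at hb1
    exact zero_ne_one hb1
  have hm : (a : M) / (b : M) ∈ P := by
    rw [← ValuationSubring.valuation_le_one_iff, map_div₀, hb1, div_one]
    exact P.valuation_le_one a
  refine ⟨⟨(a : M) / (b : M), hm⟩, rfl, ?_⟩
  rw [eq_div_iff hb, ← map_mul]
  congr 1
  apply Subtype.ext
  exact div_mul_cancel₀ (a : M) hb0

private theorem G22_main (f : Fin 6 → MvPolynomial (Fin 5) k0) {d : ℕ}
    (hd : ∀ i, (f i).IsHomogeneous d) (G : Fin 5 → Fin 5 → B)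
    (hG : AlgebraicIndependent k0 (fun q : Fin 5 × Fin 5 => G q.1 q.2)) (rm0 : RMap k0 P φ)
    (p' : Fin 5 → M) (q : Fin 5 → P) (l : M) (hl : l ≠ 0) (hp : ∀ i, p' i = l * (q i : M))
    (c : Fin 5 → N) (hq : ∀ i, φ (q i) = pt G c i) (hc : c ≠ 0)
    (h0 : (c 0 = 0 ∧ c 1 = 0) ∨ (c 2 = 0 ∧ c 3 = 0 ∧ c 4 = 0)) (γ : M) (z : Fin 6 → P)
    (hz : ∀ i, (z i : M) = γ * fe f p' i) :
    Algebra.trdeg B (rat B (fun i => φ (z i))) ≤ 2 := by
  have hK : Algebra.trdeg k0 (resI rm0 (rat k0 p')) ≤ (4 : ℕ) :=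
    trdeg_resI rm0 (rat k0 p') 4 (trdeg_rat_le p')
  have hP0 : pt G c ≠ 0 := pt_ne G hG c hc
  have hr : ∀ i j, pt G c i / pt G c j ∈ resI rm0 (rat k0 p') := by
    intro i j
    by_cases hj : pt G c j = 0
    · rw [hj, div_zero]
      exact (resI rm0 (rat k0 p')).zero_mem
    · rw [← hq j] at hj
      obtain ⟨a, ha1, ha2⟩ := G22_quot rm0 (q i) (q j) hj
      rw [mem_resI]
      refine ⟨a, ?_, ?_⟩
      · have h1 : (a : M) = p' i / p' j := by
          rw [ha1, hp i, hp j, mul_div_mul_left _ _ hl]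
        rw [h1]
        exact subset_adjoin k0 _ ⟨i, j, rfl⟩
      · rw [ha2, hq i, hq j]
  have h2 := GP2 (resI rm0 (rat k0 p')) (by exact_mod_cast hK) G hG c hP0 hr h0
  refine (G22_mono ?_).trans h2
  refine (rat_base (k0 := k0) fun i => φ (z i)).trans (adjoin.mono B _ _ ?_)
  have hE : rat k0 (fun i => (z i : M)) ≤ rat k0 p' := by
    have h3 : (fun i => (z i : M)) = fun i => γ * fe f p' i := funext hz
    rw [h3]
    exact (rat_smul_le γ (fe f p')).trans (rat_fe_le f hd p')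
  exact rat_resI rm0 z (rat k0 p') hE

/-- `exists_norm`: `τ = T j0`, `T = (1, t)`, `T̄` = residues of `T / τ`, not zero. `G` is invertible (`pt_ne`).
If `T̄ 0 = T̄ 1 = 0`: `P0 = G T̄` is the residue of `p / τ`, `K = resI rm0 (rat k0 p)`, `trdeg k0 K ≤ 4` (`trdeg_resI`, `trdeg_rat_le`),
`GP2` gives `trdeg B (adjoin B K) ≤ 2`, and `rat B x̄ ≤ adjoin B K` (`rat_resI`, `rat_fe_le`, `rat_base`). Otherwise `p' / (τ s)` has the
residue `T̄ 0 g_0 + T̄ 1 g_1 = G (T̄ 0, T̄ 1, 0, 0, 0) ≠ 0` (`s⁻¹` in the maximal ideal, `p / τ`, `1 / τ`, `t 0 / τ` in `P`),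
`K' = resI rm0 (rat k0 p')`, `GP2`, `rat B ȳ ≤ adjoin B K'`. -/
theorem pathB_inf (f : Fin 6 → MvPolynomial (Fin 5) k0) {d : ℕ} (hd : ∀ i, (f i).IsHomogeneous d)
    (G : Fin 5 → Fin 5 → B) (hG : AlgebraicIndependent k0 (fun q : Fin 5 × Fin 5 => G q.1 q.2))
    (rm0 : RMap k0 P φ) (rm : RMap B P φ) (e : B) (s : M) (hs0 : s ≠ 0)
    (hs : P.valuation s⁻¹ < 1) (t : Fin 4 → M) (α β : M) (x y : Fin 6 → P)
    (hx : ∀ i, (x i : M) = α * fe f (pt G (Fin.cons 1 t)) i)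
    (hy : ∀ i, (y i : M) = β * fe f (pB G e s t) i) :
    Algebra.trdeg B (rat B (fun i => φ (x i))) ≤ 2 ∨
      Algebra.trdeg B (rat B (fun i => φ (y i))) ≤ 2 := by
  have hT : (Fin.cons 1 t : Fin 5 → M) ≠ 0 := by
    intro h
    have h1 := congrFun h 0
    simp at h1
  obtain ⟨j0, hj0, hP⟩ := exists_norm P (Fin.cons 1 t : Fin 5 → M) hT
  obtain ⟨τ, hτ⟩ : ∃ τ : M, τ = (Fin.cons 1 t : Fin 5 → M) j0 := ⟨_, rfl⟩
  rw [← hτ] at hj0 hP
  obtain ⟨Th, hTh⟩ : ∃ Th : Fin 5 → P, ∀ i, (Th i : M) = (Fin.cons 1 t : Fin 5 → M) i / τ :=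
    ⟨fun i => ⟨_, hP i⟩, fun i => rfl⟩
  obtain ⟨Gh, hGh, hGφ⟩ : ∃ Gh : B → P, (∀ b, (Gh b : M) = algebraMap B M b) ∧
      ∀ b, φ (Gh b) = algebraMap B N b := ⟨fun b => ⟨_, rm.cst b⟩, fun b => rfl, rm.alg⟩
  obtain ⟨q1, hq1⟩ : ∃ q1 : Fin 5 → P, q1 = fun i => ∑ j, Gh (G i j) * Th j := ⟨_, rfl⟩
  have hTj0 : φ (Th j0) = 1 := by
    have h1 : Th j0 = 1 := by
      apply Subtype.ext
      rw [hTh, ← hτ, div_self hj0]
      rfl
    rw [h1, map_one]
  have hq1M : ∀ i, pt G (Fin.cons 1 t : Fin 5 → M) i = τ * (q1 i : M) := by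
    intro i
    have h1 : (q1 i : M) = ∑ j, algebraMap B M (G i j) * ((Fin.cons 1 t : Fin 5 → M) j / τ) := by
      rw [hq1]
      push_cast
      exact Finset.sum_congr rfl fun j _ => by rw [hGh, hTh]
    rw [h1, Finset.mul_sum]
    refine Finset.sum_congr rfl fun j _ => ?_
    field_simp
  have hq1N : ∀ i, φ (q1 i) = pt G (fun j => φ (Th j)) i := by
    intro i
    rw [hq1, map_sum]
    exact Finset.sum_congr rfl fun j _ => by rw [map_mul, hGφ]
  by_cases hc : φ (Th 0) = 0 ∧ φ (Th 1) = 0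
  · left
    refine G22_main f hd G hG rm0 (pt G (Fin.cons 1 t)) q1 τ hj0 hq1M (fun j => φ (Th j)) hq1N ?_
      (Or.inl hc) α x hx
    intro h
    have h1 := congrFun h j0
    rw [hTj0] at h1
    exact one_ne_zero h1
  · right
    have hsP : s⁻¹ ∈ P := (P.valuation_le_one_iff _).1 hs.le
    have hs1 : φ ⟨s⁻¹, hsP⟩ = 0 := (rm.zero _).2 hs
    have hT0 : (Th 0 : M) = 1 / τ := hTh 0
    have hT1 : (Th 1 : M) = t 0 / τ := hTh 1
    refine G22_main f hd G hG rm0 (pB G e s t)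
      (fun i => ⟨s⁻¹, hsP⟩ * q1 i + ⟨s⁻¹, hsP⟩ * (Gh (e * G i 1) * Th 0) +
        (Gh (G i 0) * Th 0 + Th 1 * Gh (G i 1))) (τ * s) (mul_ne_zero hj0 hs0) ?_
      ![φ (Th 0), φ (Th 1), 0, 0, 0] ?_ ?_ (Or.inr ⟨rfl, rfl, rfl⟩) β y hy
    · intro i
      have h1 : ((⟨s⁻¹, hsP⟩ * q1 i + ⟨s⁻¹, hsP⟩ * (Gh (e * G i 1) * Th 0) +
          (Gh (G i 0) * Th 0 + Th 1 * Gh (G i 1)) : P) : M) =
          s⁻¹ * (q1 i : M) + s⁻¹ * (algebraMap B M (e * G i 1) * (1 / τ)) +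
          (algebraMap B M (G i 0) * (1 / τ) + t 0 / τ * algebraMap B M (G i 1)) := by
        change s⁻¹ * (q1 i : M) + s⁻¹ * ((Gh (e * G i 1) : M) * (Th 0 : M)) +
          ((Gh (G i 0) : M) * (Th 0 : M) + (Th 1 : M) * (Gh (G i 1) : M)) = _
        rw [hGh, hGh, hGh, hT0, hT1]
      rw [h1]
      unfold pB
      rw [hq1M i]
      field_simp
    · intro i
      rw [map_add, map_add, map_add, map_mul, map_mul, map_mul, map_mul, map_mul, hs1]
      simp only [hGφ]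
      unfold pt
      rw [Fin.sum_univ_five]
      simp
      ring
    · intro h
      exact hc ⟨congrFun h 0, congrFun h 1⟩

end MP2619.Q5
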