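import Pool.Agent.Lib.MP_2619d0_ag.Q5.G23a

/-!
Row 2619q5-G23: path B, s to zero
-/

set_option autoImplicit false

namespace MP2619.Q5

open scoped NNReal
open IntermediateField MP2619.R MP2619.N Pool.Agent.Lib.MP_2619d0_ag Pool.Agent.Lib.MP_2619d0_ag.T

section G23tools

variable {k B M N : Type} [Field k] [Field B] [Field M] [Field N] [Algebra B M] [Algebra B N]
  {P : ValuationSubring M} {φ : P →+* N}

private theorem G23_fe_map {K : Type} [Field K] [Algebra k B] [Algebra k K] [Algebra B K]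
    [IsScalarTower k B K] (f : Fin 6 → MvPolynomial (Fin 5) k) (p : Fin 5 → K) :
    fe (fun i => MvPolynomial.map (algebraMap k B) (f i)) p = fe f p := by
  funext i
  simp only [fe, MvPolynomial.aeval_map_algebraMap]

private theorem G23_mono {E F : IntermediateField B N} (h : E ≤ F) (n : ℕ)
    (hF : Algebra.trdeg B F ≤ n) : Algebra.trdeg B E ≤ n :=
  (_root_.trdeg_le_of_injective (IntermediateField.inclusion h)
    (IntermediateField.inclusion h).injective).trans hF

private def G23_E (e : B) : Fin 5 → Fin 5 → B := fun i j =>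
  (if i = j then 1 else 0) + (if i = 1 ∧ j = 0 then e else 0)

private theorem G23_pt_E (e : B) (T : Fin 5 → M) (i : Fin 5) :
    pt (G23_E e) T i = T i + if i = 1 then algebraMap B M e * T 0 else 0 := by
  fin_cases i <;> simp [pt, Fin.sum_univ_five, G23_E]
  ring

private theorem G23_pt_smul (G : Fin 5 → Fin 5 → B) (c : M) (T : Fin 5 → M) :
    pt G (fun j => c * T j) = fun i => c * pt G T i := by
  funext i
  simp only [pt, Finset.mul_sum]
  exact Finset.sum_congr rfl fun j _ => by ring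

private theorem G23_res (f : Fin 6 → MvPolynomial (Fin 5) B) (G : Fin 5 → Fin 5 → B)
    (rm : RMap B P φ) (U : Fin 5 → P) :
    ∃ A : Fin 6 → P, (∀ i, (A i : M) = fe f (pt G (fun j => (U j : M))) i) ∧
      ∀ i, φ (A i) = fe f (pt G (fun j => φ (U j))) i := by
  set Q : Fin 5 → P := fun i => ∑ j, (⟨algebraMap B M (G i j), rm.cst _⟩ : P) * U j with hQ
  have h1 : (fun i => (Q i : M)) = pt G (fun j => (U j : M)) := by
    funext i
    simp only [hQ, pt]
    push_cast
    rfl
  have h2 : (fun i => φ (Q i)) = pt G (fun j => φ (U j)) := by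
    funext i
    simp only [hQ, pt, map_sum, map_mul, rm.alg]
  have h3 := fun i => fe_res f rm Q i
  choose A hA1 hA2 using h3
  refine ⟨A, fun i => ?_, fun i => ?_⟩
  · rw [hA1, h1]
  · rw [hA2, h2]

private theorem G23_L (f : Fin 6 → MvPolynomial (Fin 5) B) {d : ℕ}
    (hd : ∀ i, (f i).IsHomogeneous d) (G : Fin 5 → Fin 5 → B) (rm : RMap B P φ)
    (T1 T2 : Fin 5 → M) (τ : M) (hτ : τ ≠ 0) (U1 U2 : Fin 5 → P)
    (h1 : ∀ i, (U1 i : M) = τ⁻¹ * T1 i) (h2 : ∀ i, (U2 i : M) = τ⁻¹ * T2 i)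
    (E : Fin 5 → Fin 5 → B) (hE : (fun i => φ (U2 i)) = pt E (fun i => φ (U1 i)))
    (z1 z2 : Fin 6 → P) (α1 α2 : M) (hz1 : ∀ i, (z1 i : M) = α1 * fe f (pt G T1) i)
    (hz2 : ∀ i, (z2 i : M) = α2 * fe f (pt G T2) i)
    (hn : fe f (pt G (fun i => φ (U2 i))) ≠ 0) :
    rat B (fun i => φ (z1 i)) ≤ resI rm (rat B T1) ∧
      rat B (fun i => φ (z2 i)) ≤ resI rm (rat B T1) := by
  constructor
  · refine rat_resI rm z1 (rat B T1) ?_
    have h3 : (fun i => (z1 i : M)) = fun i => α1 * fe f (pt G T1) i := funext hz1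
    rw [h3]
    exact (rat_smul_le _ _).trans ((rat_fe_le f hd _).trans (rat_pt_le G T1))
  · obtain ⟨A, hA1, hA2⟩ := G23_res f G rm U2
    have h3 : ∀ i, (A i : M) = τ⁻¹ ^ d * fe f (pt G T2) i := by
      intro i
      rw [hA1, funext h2, G23_pt_smul, fe_smul f hd]
    obtain ⟨c0, hc0⟩ := res_par rm z2 A (α2 * τ ^ d) (fun i => by
      rw [h3, hz2, inv_pow]
      have h4 : τ ^ d ≠ 0 := pow_ne_zero _ hτ
      field_simp) (by
      by_contra h5
      push Not at h5
      exact hn (funext fun i => by rw [← hA2, h5]; rfl))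
    have h6 : (fun i => φ (z2 i)) = fun i => c0 * fe f (pt G (fun j => φ (U2 j))) i := by
      funext i
      rw [hc0, hA2]
    rw [h6]
    refine (rat_smul_le _ _).trans ((rat_fe_le f hd _).trans ((rat_pt_le G _).trans ?_))
    rw [hE]
    refine (rat_pt_le E _).trans (rat_resI rm U1 (rat B T1) ?_)
    rw [funext h1]
    exact rat_smul_le _ _

private theorem G23_shift {v : Fin 4 → N} (hv : AlgebraicIndependent B v) (c : Fin 4 → B) :
    AlgebraicIndependent B (fun j => v j + algebraMap B N (c j)) := by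
  rw [algebraicIndependent_iff]
  intro F hF
  have h1 : MvPolynomial.aeval v (MvPolynomial.aeval
      (fun j => MvPolynomial.X j + MvPolynomial.C (c j) : Fin 4 → MvPolynomial (Fin 4) B) F) = 0 := by
    rw [MvPolynomial.comp_aeval_apply]
    rw [← hF]
    congr 1
    congr 1
    funext j
    simp
  have h2 := (algebraicIndependent_iff.1 hv) _ h1
  have h3 := congrArg (MvPolynomial.aeval
      (fun j => MvPolynomial.X j - MvPolynomial.C (c j) : Fin 4 → MvPolynomial (Fin 4) B)) h2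
  rw [MvPolynomial.comp_aeval_apply, map_zero] at h3
  have h4 : (fun i => (MvPolynomial.aeval
      (fun j => MvPolynomial.X j - MvPolynomial.C (c j) : Fin 4 → MvPolynomial (Fin 4) B))
      (MvPolynomial.X i + MvPolynomial.C (c i))) = MvPolynomial.X := by
    funext i
    simp [MvPolynomial.algebraMap_eq]
  rw [h4, MvPolynomial.aeval_X_left_apply] at h3
  exact h3

private theorem G23_nv (f : Fin 6 → MvPolynomial (Fin 5) B) (G : Fin 5 → Fin 5 → B)
    (ti : Fin 4 → N) (hti : AlgebraicIndependent B ti)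
    (h : fe f (pt G (Fin.cons 1 ti : Fin 5 → N)) = 0) (t : Fin 4 → M) :
    fe f (pt G (Fin.cons 1 t : Fin 5 → M)) = 0 := by
  have key : ∀ {K : Type} [Field K] [Algebra B K] (v : Fin 4 → K) (i : Fin 6),
      MvPolynomial.aeval v (MvPolynomial.aeval (fun j => ∑ l : Fin 5, MvPolynomial.C (G j l) *
        (Fin.cons 1 MvPolynomial.X : Fin 5 → MvPolynomial (Fin 4) B) l) (f i)) =
        fe f (pt G (Fin.cons 1 v : Fin 5 → K)) i := by
    intro K _ _ v i
    rw [MvPolynomial.comp_aeval_apply]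
    unfold fe
    congr 1
    congr 1
    funext j
    simp [pt, Fin.sum_univ_succ]
  funext i
  rw [← key t i]
  have h1 := key ti i
  rw [h] at h1
  rw [(algebraicIndependent_iff.1 hti) _ h1]
  simp

/-- the scaled second point -/
private def G23_T' (e : B) (s : M) (T : Fin 5 → M) : Fin 5 → M := fun i =>
  T i + (if i = 1 then algebraMap B M e * T 0 else 0) +
    s * (if i = 0 then T 0 else if i = 1 then T 1 else 0)

private theorem G23_pB (G : Fin 5 → Fin 5 → B) (e : B) (s : M) (t : Fin 4 → M) :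
    pt G (G23_T' e s (Fin.cons 1 t)) = pB G e s t := by
  funext i
  simp [pt, Fin.sum_univ_succ, pB, G23_T']
  ring

private theorem G23_U' (rm : RMap B P φ) (e : B) (s : M) (hs : P.valuation s < 1) (c : M)
    (T : Fin 5 → M) (U : Fin 5 → P) (hU : ∀ i, (U i : M) = c * T i) :
    ∃ U' : Fin 5 → P, (∀ i, (U' i : M) = c * G23_T' e s T i) ∧
      (fun i => φ (U' i)) = pt (G23_E e) (fun i => φ (U i)) := by
  have hsP : s ∈ P := (P.valuation_le_one_iff _).1 hs.le
  refine ⟨fun i => U i + (if i = 1 then (⟨algebraMap B M e, rm.cst e⟩ : P) * U 0 else 0) +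
    (⟨s, hsP⟩ : P) * (if i = 0 then U 0 else if i = 1 then U 1 else 0), fun i => ?_, ?_⟩
  · fin_cases i <;> simp [G23_T', hU] <;> ring
  · funext i
    rw [G23_pt_E]
    have h0 : φ ⟨s, hsP⟩ = 0 := (rm.zero _).2 hs
    rw [map_add, map_add, map_mul, h0, zero_mul, add_zero]
    congr 1
    split_ifs
    · rw [map_mul, rm.alg]
    · rw [map_zero]

private theorem G23_fin (f : Fin 6 → MvPolynomial (Fin 5) B) (G : Fin 5 → Fin 5 → B) (e : B)
    (rm : RMap B P φ) (s : M) (hs : P.valuation s < 1) (t : Fin 4 → M) (α β : M)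
    (x y : Fin 6 → P) (hp0 : fe f (pt G (Fin.cons 1 t : Fin 5 → M)) ≠ 0)
    (hx : ∀ i, (x i : M) = α * fe f (pt G (Fin.cons 1 t)) i)
    (hy : ∀ i, (y i : M) = β * fe f (pB G e s t) i) (w : B) (a : Fin 6)
    (ind : AlgebraicIndependent B (zg w (fun i => φ (x i)) (fun i => φ (y i)) (Pi.single a 1)))
    (ht : ∀ j, t j ∈ P) (hti : AlgebraicIndependent B (fun j => φ ⟨t j, ht j⟩)) :
    ∀ b ∈ adjoin B (Set.range t ∪ {α, β}), b ∈ P := by
  set U : Fin 5 → P := Fin.cons 1 (fun j => ⟨t j, ht j⟩) with hU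
  have hU1 : ∀ i, (U i : M) = 1 * (Fin.cons 1 t : Fin 5 → M) i := by
    intro i
    rw [one_mul]
    refine Fin.cases ?_ (fun j => ?_) i
    · simp [hU]
    · simp [hU]
  have hU2 : (fun i => φ (U i)) = Fin.cons 1 (fun j => φ ⟨t j, ht j⟩) := by
    funext i
    refine Fin.cases ?_ (fun j => ?_) i
    · simp [hU]
    · simp [hU]
  obtain ⟨U', hU'1, hU'2⟩ := G23_U' rm e s hs 1 _ U hU1
  obtain ⟨X, hX1, hX2⟩ := G23_res f G rm U
  obtain ⟨Y, hY1, hY2⟩ := G23_res f G rm U'
  have hU1' : (fun i => (U i : M)) = (Fin.cons 1 t : Fin 5 → M) := by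
    funext i; rw [hU1, one_mul]
  have hU'1' : (fun i => (U' i : M)) = G23_T' e s (Fin.cons 1 t : Fin 5 → M) := by
    funext i; rw [hU'1, one_mul]
  rw [hU1'] at hX1
  rw [hU'1', G23_pB] at hY1
  have hmem : ∀ j, φ (U j) ∈ adjoin B (Set.range fun j => φ ⟨t j, ht j⟩) := by
    intro j
    refine Fin.cases ?_ (fun j => ?_) j
    · have h1 : U 0 = 1 := by simp [hU]
      rw [h1, map_one]
      exact one_mem _
    · have h1 : U j.succ = ⟨t j, ht j⟩ := by simp [hU]
      rw [h1]
      exact subset_adjoin _ _ ⟨j, rfl⟩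
  have hpt : ∀ (H : Fin 5 → Fin 5 → B) (V : Fin 5 → N),
      (∀ j, V j ∈ adjoin B (Set.range fun j => φ ⟨t j, ht j⟩)) →
      ∀ j, pt H V j ∈ adjoin B (Set.range fun j => φ ⟨t j, ht j⟩) := by
    intro H V hV j
    exact sum_mem fun l _ => mul_mem (IntermediateField.algebraMap_mem _ _) (hV l)
  refine main_of_ind rm t α β ht x y X Y (fun i => by rw [hx, hX1]) (fun i => by rw [hy, hY1])
    (fun i => ?_) ?_ (fun i => ?_) ?_ w a ind
  · rw [hX2]
    exact fe_mem f _ _ (hpt G _ hmem) i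
  · by_contra h1
    push Not at h1
    refine hp0 (G23_nv f G (fun j => φ ⟨t j, ht j⟩) hti ?_ t)
    rw [← hU2]
    funext i
    rw [← hX2, h1]
    rfl
  · rw [hY2]
    refine fe_mem f _ _ (hpt G _ ?_) i
    intro j
    have h1 : φ (U' j) = pt (G23_E e) (fun i => φ (U i)) j := congrFun hU'2 j
    rw [h1]
    exact hpt _ _ hmem j
  · by_contra h1
    push Not at h1
    refine hp0 (G23_nv f G (fun j => φ ⟨t j, ht j⟩ + algebraMap B N ((Pi.single 0 e : Fin 4 → B) j))
      (G23_shift hti _) ?_ t)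
    have h2 : (Fin.cons 1 (fun j => φ ⟨t j, ht j⟩ +
        algebraMap B N ((Pi.single 0 e : Fin 4 → B) j)) : Fin 5 → N) = fun i => φ (U' i) := by
      rw [hU'2, hU2]
      funext i
      rw [G23_pt_E]
      refine Fin.cases ?_ (fun j => ?_) i
      · simp
      · have h3 : ((j.succ : Fin 5) = 1) ↔ j = 0 := by
          constructor
          · intro h4
            exact Fin.succ_injective _ (by simpa using h4)
          · rintro rfl
            rfl
        simp only [Fin.cons_succ, Fin.cons_zero, mul_one, Pi.single_apply, h3]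
        split_ifs <;> simp
    rw [h2]
    funext i
    rw [← hY2, h1]
    rfl

end G23tools

variable {k0 B M N : Type} [Field k0] [Field B] [Field M] [Field N] [Algebra k0 B]
  [Algebra k0 M] [Algebra k0 N] [Algebra B M] [Algebra B N] [IsScalarTower k0 B M]
  [IsScalarTower k0 B N] {P : ValuationSubring M} {φ : P →+* N}

omit [IsScalarTower k0 B M] in
/-- case 1 -/
private theorem G23_case1 (f : Fin 6 → MvPolynomial (Fin 5) k0) {d : ℕ}
    (hd : ∀ i, (f i).IsHomogeneous d) (hf : ∃ i, f i ≠ 0)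
    (G : Fin 5 → Fin 5 → B) (e : B)
    (hG : AlgebraicIndependent k0 (Sum.elim (fun q : Fin 5 × Fin 5 => G q.1 q.2)
      (fun _ : Unit => e)))
    (rm0 : RMap k0 P φ) (rm : RMap B P φ) (T : Fin 5 → M) (τ : M) (hτ : τ ≠ 0)
    (U : Fin 5 → P) (hU : ∀ i, (U i : M) = τ⁻¹ * T i) (hU0 : (fun i => φ (U i)) ≠ 0)
    (α : M) (x : Fin 6 → P) (hp0 : fe f (pt G T) ≠ 0)
    (hx : ∀ i, (x i : M) = α * fe f (pt G T) i)
    (F3 : ¬ Algebra.trdeg B (rat B (fun i => φ (x i))) ≤ 2)
    (h0 : fe f (pt G (fun i => φ (U i))) = 0)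
    (h1 : fe f (pt G (pt (G23_E e) (fun i => φ (U i)))) = 0) : False := by
  have hG' : AlgebraicIndependent k0 (fun q : Fin 5 × Fin 5 => G q.1 q.2) :=
    hG.comp Sum.inl Sum.inl_injective
  -- the points
  set Q : Fin 5 → P := fun i => ∑ j, (⟨algebraMap B M (G i j), rm.cst _⟩ : P) * U j with hQ
  have hQ1 : ∀ i, (Q i : M) = τ⁻¹ * pt G T i := by
    intro i
    have h2 : (Q i : M) = pt G (fun j => (U j : M)) i := by
      simp only [hQ, pt]
      push_cast
      rfl
    rw [h2, funext hU, G23_pt_smul]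
  have hQ2 : (fun i => φ (Q i)) = pt G (fun j => φ (U j)) := by
    funext i
    simp only [hQ, pt, map_sum, map_mul, rm.alg]
  have hP0 : pt G (fun j => φ (U j)) ≠ 0 := pt_ne G hG' _ hU0
  obtain ⟨l, hl⟩ := Function.ne_iff.1 hP0
  obtain ⟨i0, hi0⟩ := Function.ne_iff.1 hp0
  have hl' : φ (Q l) ≠ 0 := by
    have h2 : φ (Q l) = pt G (fun j => φ (U j)) l := congrFun hQ2 l
    rw [h2]
    exact hl
  have hQl : P.valuation (Q l : M) = 1 := by
    refine le_antisymm ((P.valuation_le_one_iff _).2 (Q l).2)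
      (not_lt.1 fun h2 => hl' ((rm.zero _).2 h2))
  have hQl0 : (Q l : M) ≠ 0 := by
    intro h2
    rw [h2, map_zero] at hQl
    exact zero_ne_one hQl
  have hinv : ((Q l : M)⁻¹) ∈ P := by
    rw [← P.valuation_le_one_iff, map_inv₀, hQl, inv_one]
  set V : P := ⟨(Q l : M)⁻¹, hinv⟩ with hV
  have hpl : pt G T l ≠ 0 := by
    intro h2
    apply hQl0
    rw [hQ1, h2, mul_zero]
  -- the element
  obtain ⟨q, hq1, hq2⟩ := fe_res f rm0 (fun j => V * Q j) i0
  have hq3 : (fun j => ((V * Q j : P) : M)) = fun j => (pt G T l)⁻¹ * pt G T j := by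
    funext j
    push_cast
    rw [hV]
    simp only
    rw [hQ1, hQ1]
    field_simp
  rw [hq3] at hq1
  have hqne : (q : M) ≠ 0 := by
    rw [hq1, fe_smul f hd]
    exact mul_ne_zero (pow_ne_zero _ (inv_ne_zero hpl)) hi0
  have hqv : P.valuation (q : M) < 1 := by
    refine (rm.zero q).1 ?_
    rw [hq2]
    have h2 : (fun j => φ (V * Q j)) = fun j => φ V * pt G (fun j => φ (U j)) j := by
      funext j
      rw [map_mul]
      congr 1
      exact congrFun hQ2 j
    rw [h2, fe_smul f hd, h0]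
    simp
  have hqm : (q : M) ∈ rat k0 (pt G T) := by
    rw [hq1]
    refine fe_mem f _ _ (fun j => ?_) i0
    refine subset_adjoin _ _ ⟨j, l, ?_⟩
    rw [div_eq_mul_inv, mul_comm]
  have hK : Algebra.trdeg k0 (resI rm0 (rat k0 (pt G T))) ≤ (3 : ℕ) :=
    trdeg_resI_lt rm0 (rat k0 (pt G T)) 3 (trdeg_rat_le (pt G T)) q hqm hqne hqv
  -- ratios of `x`
  have hxK : rat k0 (fun i => φ (x i)) ≤ resI rm0 (rat k0 (pt G T)) := by
    refine rat_resI rm0 x _ ?_
    rw [funext hx]
    exact (rat_smul_le _ _).trans (rat_fe_le f hd _)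
  have hn : ¬ Algebra.trdeg B (adjoin B ((resI rm0 (rat k0 (pt G T)) : IntermediateField k0 N) :
      Set N)) ≤ (2 : ℕ) := by
    intro h2
    refine F3 ?_
    have h3 : rat B (fun i => φ (x i)) ≤ adjoin B ((resI rm0 (rat k0 (pt G T)) :
        IntermediateField k0 N) : Set N) :=
      (rat_base (k0 := k0) (fun i => φ (x i))).trans (adjoin.mono _ _ _ hxK)
    exact_mod_cast G23_mono h3 2 h2
  have hind := GP1 (B := B) (resI rm0 (rat k0 (pt G T))) 2 (by exact_mod_cast hK) hn _ hG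
  have hind' : AlgebraicIndependent (resI rm0 (rat k0 (pt G T)))
      (Sum.elim (fun q : Fin 5 × Fin 5 => algebraMap B N (G q.1 q.2))
      (fun _ : Unit => algebraMap B N e)) := by
    convert hind using 1
    funext i
    rcases i with i | i <;> rfl
  refine no_two_base f hd hf (resI rm0 (rat k0 (pt G T))) G e hind' (fun j => φ (U j)) hU0
    (fun i j => ?_) h0 ?_
  · have h2 : rat k0 (fun i => φ (Q i)) ≤ resI rm0 (rat k0 (pt G T)) := by
      refine rat_resI rm0 Q _ ?_
      rw [funext hQ1]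
      exact rat_smul_le _ _
    rw [← hQ2]
    exact h2 (subset_adjoin _ _ ⟨i, j, rfl⟩)
  · rw [← h1]
    congr 1
    funext j
    simp [pt, Fin.sum_univ_succ, G23_E]
    ring

/-- `exists_norm`: `τ = T j0`, `T = (1, t)`, `T̄` = residues of `T / τ`, `P0 = G T̄` = residue of `p / τ`;
`T' = (1 + s, t 0 + e + s t 0, t 1, t 2, t 3)`, `p' = G T'`, the residue of `T' / τ` is `T̄' = (T̄ 0, T̄ 1 + e T̄ 0, T̄ 2, T̄ 3, T̄ 4)` and of `p' / τ`
it is `P0' = G T̄' = P0 + e T̄ 0 g_1`.
(1) `f(P0) = f(P0') = 0`: `K = resI rm0 (rat k0 p)` has `trdeg k0 K ≤ 3` (`trdeg_resI_lt` with `f i (p) / (p l) ^ d`, see G8), `F3` and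
`GP1` (`m = 2`): `(G, e)` is algebraically independent over `K`: `no_two_base`.
(2) `f(P0') ≠ 0`: `ȳ` is a multiple of `f(P0')` (`res_par`), `rat B ȳ ≤ rat B P0' ≤ rat B T̄ ≤ resI rm (rat B T)`, and
`rat B x̄ ≤ resI rm (rat B p) ≤ resI rm (rat B T)` (`rat_resI`, `rat_fe_le` over `B` or `k0`, `rat_pt_le`). So `trdeg B (resI rm (rat B T)) > 3`
(`trdeg_rat_rat`, `ind`), `triv_of_trdeg` for `T`, `main_of_ind` (`X = f(p)`, `Y = f(p')`, `f(p̄) ≠ 0` and `f(p̄') ≠ 0`, because `p̄ = G (1, t̄)` and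
`p̄' = G (1, t̄_0 + e, ..)` are generic over `B`: `f i (G (1, Z)) ≠ 0` as a polynomial for `f i ≠ 0` homogeneous).
(3) `f(P0) ≠ 0`: the same with `T'` instead of `T`: `rat B x̄ ≤ rat B P0 ≤ rat B T̄'` (`T̄` is a linear image of `T̄'` over `B`),
`rat B ȳ ≤ resI rm (rat B T')`; `1 + s` is a unit; `t j ∈ P` with algebraically independent residues follows for `t` too. -/
theorem pathB_zero (f : Fin 6 → MvPolynomial (Fin 5) k0) {d : ℕ}
    (hd : ∀ i, (f i).IsHomogeneous d) (hf : ∃ i, f i ≠ 0)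
    (G : Fin 5 → Fin 5 → B) (e : B)
    (hG : AlgebraicIndependent k0 (Sum.elim (fun q : Fin 5 × Fin 5 => G q.1 q.2)
      (fun _ : Unit => e)))
    (rm0 : RMap k0 P φ) (rm : RMap B P φ) (s : M)
    (hs : P.valuation s < 1) (t : Fin 4 → M) (α β : M) (x y : Fin 6 → P)
    (hp0 : fe f (pt G (Fin.cons 1 t : Fin 5 → M)) ≠ 0)
    (hx : ∀ i, (x i : M) = α * fe f (pt G (Fin.cons 1 t)) i)
    (hy : ∀ i, (y i : M) = β * fe f (pB G e s t) i) (w : B) (a : Fin 6)
    (ind : AlgebraicIndependent B (zg w (fun i => φ (x i)) (fun i => φ (y i)) (Pi.single a 1)))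
    (F3 : ¬ Algebra.trdeg B (rat B (fun i => φ (x i))) ≤ 2) :
    ∀ b ∈ adjoin B (Set.range t ∪ {α, β}), b ∈ P := by
  -- forms over `B`
  set fB : Fin 6 → MvPolynomial (Fin 5) B := fun i => MvPolynomial.map (algebraMap k0 B) (f i)
    with hfB
  have hdB : ∀ i, (fB i).IsHomogeneous d := fun i => (hd i).map _
  have hfM : ∀ p : Fin 5 → M, fe fB p = fe f p := fun p => G23_fe_map f p
  have hfN : ∀ p : Fin 5 → N, fe fB p = fe f p := fun p => G23_fe_map f p
  have hT0 : (Fin.cons 1 t : Fin 5 → M) ≠ 0 := by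
    intro h
    have h1 := congrFun h 0
    simp at h1
  obtain ⟨j0, hτ, hTP⟩ := exists_norm P (Fin.cons 1 t : Fin 5 → M) hT0
  set T : Fin 5 → M := Fin.cons 1 t with hT
  set U : Fin 5 → P := fun i => ⟨T i / T j0, hTP i⟩ with hUdef
  have hU : ∀ i, (U i : M) = (T j0)⁻¹ * T i := fun i => by
    simp only [hUdef]
    rw [div_eq_mul_inv, mul_comm]
  obtain ⟨U', hU', hU'2⟩ := G23_U' rm e s hs (T j0)⁻¹ T U hU
  have hU0 : (fun i => φ (U i)) ≠ 0 := by
    intro h
    have h1 : φ (U j0) = 0 := congrFun h j0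
    have h2 : U j0 = 1 := Subtype.ext (by rw [hU, inv_mul_cancel₀ hτ]; rfl)
    rw [h2, map_one] at h1
    exact one_ne_zero h1
  have hx' : ∀ i, (x i : M) = α * fe fB (pt G T) i := fun i => by rw [hx, hfM]
  have hy' : ∀ i, (y i : M) = β * fe fB (pt G (G23_T' e s T)) i := fun i => by
    rw [hy, hfM, hT, G23_pB]
  have hy'' : ∀ i, (y i : M) = β * fe fB (pB G e s t) i := fun i => by
    rw [hy, hfM]
  have hp0' : fe fB (pt G T) ≠ 0 := by rw [hfM]; exact hp0
  have hnot : ∀ E : IntermediateField B N, rat B (fun i => φ (x i)) ≤ E →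
      rat B (fun i => φ (y i)) ≤ E → ¬ Algebra.trdeg B E ≤ 3 := by
    intro E h1 h2 h3
    refine trdeg_rat_rat w (fun i => φ (x i)) (fun i => φ (y i)) (Pi.single a 1) ?_ ind
    exact_mod_cast G23_mono (sup_le h1 h2) 3 (by exact_mod_cast h3)
  by_cases hA : fe f (pt G (fun i => φ (U i))) = 0
  · by_cases hB : fe f (pt G (pt (G23_E e) (fun i => φ (U i)))) = 0
    · exact (G23_case1 f hd hf G e hG rm0 rm T (T j0) hτ U hU hU0 α x hp0 hx F3 hA hB).elim
    · obtain ⟨h1, h2⟩ := G23_L fB hdB G rm T (G23_T' e s T) (T j0) hτ U U' hU hU' (G23_E e) hU'2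
        x y α β hx' hy' (by rw [hfN, hU'2]; exact hB)
      obtain ⟨hTm, hTi⟩ := triv_of_trdeg rm T (by simp [hT]) (hnot _ h1 h2)
      refine G23_fin fB G e rm s hs t α β x y hp0' hx' hy'' w a ind (fun j => hTm j.succ) ?_
      convert hTi using 1
      funext j
      have h3 : (⟨T 0, hTm 0⟩ : P) = 1 := Subtype.ext (by simp [hT])
      rw [h3, map_one, div_one]
      rfl
  · have hE' : (fun i => φ (U i)) = pt (G23_E (-e)) (fun i => φ (U' i)) := by
      have h0 : ∀ i, φ (U' i) = φ (U i) + if i = 1 then algebraMap B N e * φ (U 0) else 0 :=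
        fun i => (congrFun hU'2 i).trans (G23_pt_E e (fun i => φ (U i)) i)
      funext i
      rw [G23_pt_E]
      simp only [h0]
      rw [map_neg]
      by_cases hi : i = 1
      · subst hi
        simp
      · simp [hi]
    obtain ⟨h1, h2⟩ := G23_L fB hdB G rm (G23_T' e s T) T (T j0) hτ U' U hU' hU (G23_E (-e)) hE'
        y x β α hy' hx' (by rw [hfN]; exact hA)
    have hs1 : P.valuation (1 + s) = 1 := by
      have h3 := Valuation.map_add_eq_of_lt_right P.valuation (x := s) (y := 1)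
        (by rwa [map_one])
      rw [add_comm, h3, map_one]
    have hT'0 : G23_T' e s T 0 = 1 + s := by simp [G23_T', hT]
    obtain ⟨hTm, hTi⟩ := triv_of_trdeg rm (G23_T' e s T) (by rw [hT'0]; exact hs1)
      (hnot _ h2 h1)
    have hsP : s ∈ P := (P.valuation_le_one_iff _).1 hs.le
    have hs0 : φ ⟨s, hsP⟩ = 0 := (rm.zero _).2 hs
    have h3 : φ ⟨G23_T' e s T 0, hTm 0⟩ = 1 := by
      have h4 : (⟨G23_T' e s T 0, hTm 0⟩ : P) = 1 + ⟨s, hsP⟩ := Subtype.ext hT'0
      rw [h4, map_add, map_one, hs0, add_zero]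
    have hinv : ((1 + s)⁻¹ : M) ∈ P := by
      rw [← P.valuation_le_one_iff, map_inv₀, hs1, inv_one]
    have h1s : (1 + s : M) ≠ 0 := by
      intro h
      rw [h, map_zero] at hs1
      exact zero_ne_one hs1
    have hT'1 : G23_T' e s T 1 = t 0 * (1 + s) + algebraMap B M e := by
      have h5 : T 1 = t 0 := by rw [hT]; rfl
      have h6 : T 0 = 1 := by rw [hT]; rfl
      simp [G23_T', h5, h6]
      ring
    have ht0 : t 0 = (G23_T' e s T 1 - algebraMap B M e) * (1 + s)⁻¹ := by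
      rw [hT'1]
      field_simp
      ring
    have hTj : ∀ j : Fin 4, j ≠ 0 → G23_T' e s T j.succ = t j := by
      intro j hj
      have h7 : (j.succ : Fin 5) ≠ 1 := fun h => hj (Fin.succ_injective _ (by simpa using h))
      have h8 : (j.succ : Fin 5) ≠ 0 := Fin.succ_ne_zero j
      simp only [G23_T', if_neg h7, if_neg h8]
      rw [hT]
      simp
    have ht : ∀ j, t j ∈ P := by
      intro j
      by_cases hj : j = 0
      · rw [hj, ht0]
        exact mul_mem (sub_mem (hTm 1) (rm.cst e)) hinv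
      · rw [← hTj j hj]
        exact hTm _
    refine G23_fin fB G e rm s hs t α β x y hp0' hx' hy'' w a ind ht ?_
    have h9 := G23_shift hTi (Pi.single 0 (-e))
    convert h9 using 1
    funext j
    rw [h3, div_one]
    by_cases hj : j = 0
    · subst hj
      have h10 : (⟨t 0, ht 0⟩ : P) = (⟨G23_T' e s T 1, hTm 1⟩ - ⟨algebraMap B M e, rm.cst e⟩) *
          ⟨(1 + s)⁻¹, hinv⟩ := Subtype.ext (by
            push_cast
            exact ht0)
      have h11 : φ ⟨(1 + s)⁻¹, hinv⟩ = 1 := by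
        have h12 : (1 + ⟨s, hsP⟩ : P) * ⟨(1 + s)⁻¹, hinv⟩ = 1 := Subtype.ext (by
          push_cast
          exact mul_inv_cancel₀ h1s)
        have h13 : φ (1 + ⟨s, hsP⟩) = 1 := by rw [map_add, map_one, hs0, add_zero]
        have h14 := congrArg φ h12
        rw [map_mul, h13, one_mul, map_one] at h14
        exact h14
      rw [h10, map_mul, h11, mul_one, map_sub, rm.alg]
      simp [sub_eq_add_neg]
    · have h15 : (⟨t j, ht j⟩ : P) = ⟨G23_T' e s T j.succ, hTm j.succ⟩ :=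
        Subtype.ext (hTj j hj).symm
      rw [h15]
      simp [hj]

end MP2619.Q5
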