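import Pool.Agent.Lib.MP_2619d0_ag.Q5.G1
import Pool.Agent.Lib.MP_2619d0_ag.Q5.G2
import Pool.Agent.Lib.MP_2619d0_ag.Q5.G4
import Pool.Agent.Lib.MP_2619d0_ag.Q5.G5
import Pool.Agent.Lib.MP_2619d0_ag.Q5.G6
import Pool.Agent.Lib.MP_2619d0_ag.Q5.G21

/-!
Row 2619q5-G23a: path B, s to zero, both base points
-/

set_option autoImplicit false

namespace MP2619.Q5

open scoped NNReal
open IntermediateField MP2619.R MP2619.N Pool.Agent.Lib.MP_2619d0_ag Pool.Agent.Lib.MP_2619d0_ag.T

variable {k0 B M N : Type} [Field k0] [Field B] [Field M] [Field N] [Algebra k0 B]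
  [Algebra k0 M] [Algebra k0 N] [Algebra B M] [Algebra B N] [IsScalarTower k0 B M]
  [IsScalarTower k0 B N] {P : ValuationSubring M} {φ : P →+* N}

omit [Algebra k0 B] [IsScalarTower k0 B N] in
/-- `e` is transcendental over `K0(G)` -/
private theorem G23a_transc (K0 : IntermediateField k0 N) (G : Fin 5 → Fin 5 → B) (e : B)
    (hG : AlgebraicIndependent K0 (Sum.elim (fun q : Fin 5 × Fin 5 => algebraMap B N (G q.1 q.2))
      (fun _ : Unit => algebraMap B N e))) :
    Transcendental (IntermediateField.adjoin K0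
      (Set.range fun q : Fin 5 × Fin 5 => algebraMap B N (G q.1 q.2))) (algebraMap B N e) := by
  refine IntermediateField.transcendental_adjoin_iff.2 ?_
  have h1 : AlgebraicIndependent K0 (Sum.elim (fun _ : Unit => algebraMap B N e)
      (fun q : Fin 5 × Fin 5 => algebraMap B N (G q.1 q.2))) := by
    have h2 := hG.comp (Equiv.sumComm Unit (Fin 5 × Fin 5)) (Equiv.injective _)
    have h3 : (Sum.elim (fun q : Fin 5 × Fin 5 => algebraMap B N (G q.1 q.2))
      (fun _ : Unit => algebraMap B N e)) ∘ (Equiv.sumComm Unit (Fin 5 × Fin 5)) =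
      Sum.elim (fun _ : Unit => algebraMap B N e)
      (fun q : Fin 5 × Fin 5 => algebraMap B N (G q.1 q.2)) := by
      funext x
      rcases x with x | x
      · rfl
      · rfl
    rw [h3] at h2
    exact h2
  have h2 := (AlgebraicIndependent.sumElim_iff.1 h1).2
  exact algebraicIndependent_unique_type_iff.1 h2

/-- a polynomial which vanishes at the translate of a generic point is zero -/
private theorem G23a_zero (F : MvPolynomial (Fin 5) k0) (K0 : IntermediateField k0 N)
    (Q : Fin 5 → K0) (g : Fin 5 → N) (hg : AlgebraicIndependent K0 g)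
    (h : MvPolynomial.aeval (fun j => (Q j : N) + g j) F = 0) : F = 0 := by
  have h1 : MvPolynomial.aeval g (MvPolynomial.aeval
      (fun j => MvPolynomial.C (Q j) + MvPolynomial.X j : Fin 5 → MvPolynomial (Fin 5) K0) F) =
      0 := by
    have h2 := MvPolynomial.comp_aeval_apply (R := k0)
      (fun j => MvPolynomial.C (Q j) + MvPolynomial.X j : Fin 5 → MvPolynomial (Fin 5) K0)
      ((MvPolynomial.aeval g : MvPolynomial (Fin 5) K0 →ₐ[K0] N).restrictScalars k0) F
    rw [AlgHom.restrictScalars_apply] at h2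
    rw [h2, ← h]
    congr 2
    funext j
    rw [AlgHom.restrictScalars_apply, map_add, MvPolynomial.aeval_C, MvPolynomial.aeval_X]
    rfl
  have h2 : (MvPolynomial.aeval
      (fun j => MvPolynomial.C (Q j) + MvPolynomial.X j : Fin 5 → MvPolynomial (Fin 5) K0) F) =
      0 := by
    refine hg.eq_zero_of_aeval_eq_zero _ h1
  have h3 := MvPolynomial.comp_aeval_apply (R := k0)
      (fun j => MvPolynomial.C (Q j) + MvPolynomial.X j : Fin 5 → MvPolynomial (Fin 5) K0)
      ((MvPolynomial.aeval (fun j => MvPolynomial.X j - MvPolynomial.C (Q j)) :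
        MvPolynomial (Fin 5) K0 →ₐ[K0] MvPolynomial (Fin 5) K0).restrictScalars k0) F
  rw [h2, map_zero] at h3
  have h4 : (fun j => ((MvPolynomial.aeval (fun j => MvPolynomial.X j - MvPolynomial.C (Q j)) :
        MvPolynomial (Fin 5) K0 →ₐ[K0] MvPolynomial (Fin 5) K0).restrictScalars k0)
        (MvPolynomial.C (Q j) + MvPolynomial.X j)) =
        (MvPolynomial.X : Fin 5 → MvPolynomial (Fin 5) K0) := by
    funext j
    rw [AlgHom.restrictScalars_apply, map_add, MvPolynomial.aeval_X, MvPolynomial.aeval_C]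
    rw [MvPolynomial.algebraMap_eq]
    ring
  rw [h4] at h3
  have h5 : MvPolynomial.map (algebraMap k0 K0) F = 0 := by
    rw [h3]
    have h6 : (MvPolynomial.map (algebraMap k0 K0) :
        MvPolynomial (Fin 5) k0 →+* MvPolynomial (Fin 5) K0) =
        ((MvPolynomial.aeval (MvPolynomial.X : Fin 5 → MvPolynomial (Fin 5) K0) :
          MvPolynomial (Fin 5) k0 →ₐ[k0] MvPolynomial (Fin 5) K0) :
          MvPolynomial (Fin 5) k0 →+* MvPolynomial (Fin 5) K0) := by
      apply MvPolynomial.ringHom_ext
      · intro r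
        rw [MvPolynomial.map_C, RingHom.coe_coe, MvPolynomial.aeval_C,
          IsScalarTower.algebraMap_apply k0 K0 (MvPolynomial (Fin 5) K0)]
        rfl
      · intro j
        rw [MvPolynomial.map_X, RingHom.coe_coe, MvPolynomial.aeval_X]
    exact congrArg (fun ψ : MvPolynomial (Fin 5) k0 →+* MvPolynomial (Fin 5) K0 => ψ F) h6
  exact MvPolynomial.map_injective _ (algebraMap k0 K0).injective (h5.trans (map_zero _).symm)

/-- Suppose `f(P0) = 0` and `f(P0 + e c_0 g_1) = 0`, `P0 = G c`. `P0 ≠ 0` (`pt_ne`), `P0 l ≠ 0`, `Q = P0 / P0 l` has coordinates in `K0`.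
`NV`: `c 0 ≠ 0`. `ĉ = c / P0 l = G⁻¹ Q` is in `K0(G)`. `f i (Q + Y ĉ_0 g_1)` is a polynomial in `Y` over `K0(G)` with the zero `e`
(`fe_smul`), `e` is transcendental over `K0(G)`, so it is the zero polynomial; its value at `Y = 1 / ĉ_0` is `f i (Q + g_1) = 0`. `g_1` is
algebraically independent over `K0`, so `f i (Q + Z)` is the zero polynomial, `f i = 0` for all `i`. -/
theorem no_two_base (f : Fin 6 → MvPolynomial (Fin 5) k0) {d : ℕ}
    (hd : ∀ i, (f i).IsHomogeneous d) (hf : ∃ i, f i ≠ 0) (K0 : IntermediateField k0 N)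
    (G : Fin 5 → Fin 5 → B) (e : B)
    (hG : AlgebraicIndependent K0 (Sum.elim (fun q : Fin 5 × Fin 5 => algebraMap B N (G q.1 q.2))
      (fun _ : Unit => algebraMap B N e))) (c : Fin 5 → N) (hc : c ≠ 0)
    (hr : ∀ i j, pt G c i / pt G c j ∈ K0) (h0 : fe f (pt G c) = 0)
    (h1 : fe f (fun j => pt G c j + algebraMap B N e * c 0 * algebraMap B N (G j 1)) = 0) :
    False := by
  classical
  have hGK : AlgebraicIndependent K0 (fun q : Fin 5 × Fin 5 => algebraMap B N (G q.1 q.2)) :=
    hG.comp Sum.inl Sum.inl_injective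
  have hGk : AlgebraicIndependent k0 (fun q : Fin 5 × Fin 5 => G q.1 q.2) := by
    have h := hGK.restrictScalars (R := k0) (algebraMap k0 K0).injective
    exact AlgebraicIndependent.of_comp (IsScalarTower.toAlgHom k0 B N) h
  have hP0 : pt G c ≠ 0 := pt_ne G hGk c hc
  have hc0 : c 0 ≠ 0 := NV K0 G hGK c hP0 hr
  obtain ⟨l, hl⟩ : ∃ l, pt G c l ≠ 0 := Function.ne_iff.1 hP0
  obtain ⟨i, hi⟩ := hf
  set E : IntermediateField K0 N := IntermediateField.adjoin K0
    (Set.range fun q : Fin 5 × Fin 5 => algebraMap B N (G q.1 q.2)) with hE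
  have he : Transcendental E (algebraMap B N e) := G23a_transc K0 G e hG
  have hGE : ∀ i j, algebraMap B N (G i j) ∈ E := fun i j =>
    IntermediateField.subset_adjoin K0 _ ⟨(i, j), rfl⟩
  let A : Matrix (Fin 5) (Fin 5) E := fun i j => ⟨algebraMap B N (G i j), hGE i j⟩
  let QE : Fin 5 → E := fun i => algebraMap K0 E ⟨pt G c i / pt G c l, hr i l⟩
  have hAv : ∀ (v : Fin 5 → E) (i : Fin 5), ((A.mulVec v i : E) : N) =
      pt G (fun j => (v j : N)) i := by
    intro v i
    show ((∑ j, A i j * v j : E) : N) = ∑ j, algebraMap B N (G i j) * (v j : N)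
    rw [← IntermediateField.algebraMap_apply, map_sum]
    refine Finset.sum_congr rfl fun j _ => ?_
    rw [map_mul]
    rfl
  have hdet : IsUnit A.det := by
    rw [isUnit_iff_ne_zero]
    intro h0
    obtain ⟨v, hv, hv0⟩ := Matrix.exists_mulVec_eq_zero_iff.2 h0
    refine pt_ne G hGk (fun j => (v j : N)) ?_ ?_
    · intro h2
      apply hv
      funext j
      exact Subtype.ext (congrFun h2 j)
    · funext i
      rw [← hAv v i, hv0]
      rfl
  have hc' : A.mulVec (A⁻¹.mulVec QE) = QE := by
    rw [Matrix.mulVec_mulVec, Matrix.mul_nonsing_inv A hdet, Matrix.one_mulVec]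
  set c' := A⁻¹.mulVec QE with hc'def
  have hcc : ∀ j, (c' j : N) = c j / pt G c l := by
    by_contra hcon
    push Not at hcon
    refine pt_ne G hGk (fun j => (c' j : N) - c j / pt G c l) ?_ ?_
    · intro h2
      obtain ⟨j, hj⟩ := hcon
      exact hj (sub_eq_zero.1 (congrFun h2 j))
    · funext i
      have h2 : pt G (fun j => (c' j : N)) i = pt G c i / pt G c l := by
        rw [← hAv c' i, hc']
        rfl
      have h3 : pt G (fun j => c j / pt G c l) i = pt G c i / pt G c l := by
        unfold pt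
        rw [Finset.sum_div]
        refine Finset.sum_congr rfl fun j _ => ?_
        rw [mul_div_assoc]
      have h4 : pt G (fun j => (c' j : N) - c j / pt G c l) i =
          pt G (fun j => (c' j : N)) i - pt G (fun j => c j / pt G c l) i := by
        unfold pt
        rw [← Finset.sum_sub_distrib]
        refine Finset.sum_congr rfl fun j _ => ?_
        rw [mul_sub]
      rw [h4, h2, h3, sub_self]
      rfl
  have : IsScalarTower k0 E N := IsScalarTower.of_algebraMap_eq fun x => by
    rw [IsScalarTower.algebraMap_apply k0 K0 N]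
    rfl
  let p : Polynomial E := MvPolynomial.aeval
    (fun j => Polynomial.C (QE j) + Polynomial.C (c' 0 * A j 1) * Polynomial.X) (f i)
  have hp : ∀ z : N, Polynomial.aeval z p =
      fe f (fun j => pt G c j / pt G c l + z * (c 0 / pt G c l) * algebraMap B N (G j 1)) i := by
    intro z
    have h2 := MvPolynomial.comp_aeval_apply (R := k0)
      (fun j => Polynomial.C (QE j) + Polynomial.C (c' 0 * A j 1) * Polynomial.X)
      ((Polynomial.aeval z : Polynomial E →ₐ[E] N).restrictScalars k0) (f i)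
    rw [AlgHom.restrictScalars_apply] at h2
    show Polynomial.aeval z p = MvPolynomial.aeval _ (f i)
    rw [h2]
    congr 2
    funext j
    rw [AlgHom.restrictScalars_apply, map_add, map_mul, Polynomial.aeval_C, Polynomial.aeval_C,
      Polynomial.aeval_X, map_mul]
    show pt G c j / pt G c l + ((c' 0 : E) : N) * algebraMap B N (G j 1) * z = _
    rw [hcc 0]
    ring
  have hz1 : Polynomial.aeval (algebraMap B N e) p = 0 := by
    rw [hp]
    have h2 : (fun j => pt G c j / pt G c l + algebraMap B N e * (c 0 / pt G c l) *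
        algebraMap B N (G j 1)) = fun j => (pt G c l)⁻¹ *
        (pt G c j + algebraMap B N e * c 0 * algebraMap B N (G j 1)) := by
      funext j
      ring
    rw [h2, fe_smul f hd, h1]
    simp
  have hp0 : p = 0 := transcendental_iff.1 he p hz1
  have hz2 := hp (c 0 / pt G c l)⁻¹
  rw [hp0, map_zero] at hz2
  have hne : c 0 / pt G c l ≠ 0 := div_ne_zero hc0 hl
  refine hi (G23a_zero (f i) K0 (fun j => ⟨pt G c j / pt G c l, hr j l⟩)
    (fun j => algebraMap B N (G j 1)) ?_ ?_)
  · exact hGK.comp (fun j : Fin 5 => (j, (1 : Fin 5))) (fun a b hab => (Prod.ext_iff.1 hab).1)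
  · rw [hz2]
    show MvPolynomial.aeval _ (f i) = MvPolynomial.aeval _ (f i)
    congr 2
    funext j
    rw [inv_mul_cancel₀ hne, one_mul]

end MP2619.Q5
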