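import Pool.Agent.Lib.MP_2619d0_ag.Q5.G1
import Pool.Agent.Lib.MP_2619d0_ag.Q5.G2
import Pool.Agent.Lib.MP_2619d0_ag.Q5.G5
import Pool.Agent.Lib.MP_2619d0_ag.Q5.G6
import Pool.Agent.Lib.MP_2619d0_ag.Q5.C6
import Pool.Agent.Lib.MP_2619d0_ag.Q5.G21

/-!
Row 2619q5-G7: path A: not a base point
-/

set_option autoImplicit false

namespace MP2619.Q5

open scoped NNReal
open IntermediateField MP2619.R MP2619.N Pool.Agent.Lib.MP_2619d0_ag Pool.Agent.Lib.MP_2619d0_ag.T

variable {k0 C B M N : Type} [Field k0] [Field C] [Field B] [Field M] [Field N] [Algebra k0 C]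
  [Algebra k0 B] [Algebra k0 M] [Algebra k0 N] [Algebra C B] [Algebra C M] [Algebra C N]
  [Algebra B M] [Algebra B N] [IsScalarTower k0 C B] [IsScalarTower k0 C M] [IsScalarTower k0 C N]
  [IsScalarTower k0 B M] [IsScalarTower k0 B N] [IsScalarTower C B M] [IsScalarTower C B N]
  {f : Fin 6 → MvPolynomial (Fin 5) k0} {G : Fin 5 → Fin 5 → C} {ε : M} {t : Fin 4 → M} {α β : M}
  {σ : M ≃ₐ[B] M} {P : ValuationSubring M} {φ : P →+* N} {x y : Fin 6 → P} {w : B} {a : Fin 6}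

private theorem G7_pt (rm : RMap B P φ) (G : Fin 5 → Fin 5 → C) (T : Fin 5 → P) :
    ∃ p : Fin 5 → P, (∀ i, (p i : M) = pt G (fun j => (T j : M)) i) ∧
      ∀ i, φ (p i) = pt G (fun j => φ (T j)) i := by
  have hm : ∀ c : C, algebraMap C M c ∈ P := fun c => by
    rw [IsScalarTower.algebraMap_apply C B M c]
    exact rm.cst _
  have hφ : ∀ c : C, φ ⟨algebraMap C M c, hm c⟩ = algebraMap C N c := fun c => by
    have e : (⟨algebraMap C M c, hm c⟩ : P) = ⟨algebraMap B M (algebraMap C B c), rm.cst _⟩ :=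
      Subtype.ext (IsScalarTower.algebraMap_apply C B M c)
    rw [e, rm.alg, ← IsScalarTower.algebraMap_apply C B N c]
  refine ⟨fun i => ∑ j, ⟨algebraMap C M (G i j), hm _⟩ * T j, fun i => ?_, fun i => ?_⟩
  · have e := map_sum P.subtype (fun j => (⟨algebraMap C M (G i j), hm _⟩ : P) * T j) Finset.univ
    exact e
  · rw [map_sum]
    refine Finset.sum_congr rfl fun j _ => ?_
    rw [map_mul, hφ]

private theorem G7_fe (rm : RMap B P φ) (G : Fin 5 → Fin 5 → C) (T : Fin 5 → P) (e : P) (he : φ e = 0) :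
    ∃ X : Fin 6 → P, (∀ i, (X i : M) = fe f (fun j => pt G (fun j => (T j : M)) j +
        (e : M) * algebraMap C M (G j 1)) i) ∧
      ∀ i, φ (X i) = fe f (pt G (fun j => φ (T j))) i := by
  obtain ⟨p, hp, hp'⟩ := G7_pt rm G T
  have hm : ∀ c : C, algebraMap C M c ∈ P := fun c => by
    rw [IsScalarTower.algebraMap_apply C B M c]
    exact rm.cst _
  have rm0 : RMap k0 P φ := rm.restrict
  have h1 := fun i => fe_res f rm0 (fun j => p j + e * ⟨algebraMap C M (G j 1), hm _⟩) i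
  choose X hX hX' using h1
  refine ⟨X, fun i => ?_, fun i => ?_⟩
  · rw [hX i]
    congr 1
    funext j
    rw [← hp j]
    rfl
  · rw [hX' i]
    congr 1
    funext j
    rw [map_add, map_mul, he, zero_mul, add_zero, hp']

private theorem G7_trdeg_mono {K1 K2 : IntermediateField B N} (h : K1 ≤ K2) :
    Algebra.trdeg B K1 ≤ Algebra.trdeg B K2 :=
  trdeg_le_of_injective (IntermediateField.inclusion h) (IntermediateField.inclusion_injective h)

private theorem G7_rat_succ (T : Fin 5 → N) (h : T 0 = 0) :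
    rat B T ≤ rat B (fun j : Fin 4 => T j.succ) := by
  unfold rat
  rw [adjoin_le_iff]
  rintro _ ⟨i, j, rfl⟩
  refine Fin.cases ?_ (fun i => ?_) i
  · rw [h, zero_div]
    exact zero_mem _
  · refine Fin.cases ?_ (fun j => ?_) j
    · rw [h, div_zero]
      exact zero_mem _
    · exact subset_adjoin _ _ ⟨i, j, rfl⟩

private theorem G7_rat_le (hd : ∃ d, ∀ i, (f i).IsHomogeneous d) (G : Fin 5 → Fin 5 → C) (T : Fin 5 → N) (c : N)
    {x : Fin 6 → N} (hx : ∀ i, x i = c * fe f (pt G T) i) : rat B x ≤ rat B T := by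
  obtain ⟨d, hd⟩ := hd
  have e1 : x = fun i => c * fe f (pt G T) i := funext hx
  have e2 : fe f (pt G T) = fe (fun i => MvPolynomial.map (algebraMap k0 B) (f i)) (pt G T) := by
    funext i
    exact (MvPolynomial.aeval_map_algebraMap B (pt G T) (f i)).symm
  have e3 : pt G T = pt (fun i j => algebraMap C B (G i j)) T := by
    funext i
    refine Finset.sum_congr rfl fun j _ => ?_
    rw [← IsScalarTower.algebraMap_apply C B N]
  rw [e1]
  refine (rat_smul_le c _).trans ?_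
  rw [e2]
  refine (rat_fe_le _ (d := d) (fun i => (hd i).map _) _).trans ?_
  rw [e3]
  exact rat_pt_le _ T

/-- Put `T = (1, t)`, `P0 = G T̄` (residues of `T j / T j0`). `x = α f(p)`, `p / T j0` has the residue `P0`, so `x̄` is a multiple of
`f(P0)` (`res_par`, `fe_smul`, `fe_res`), and `p' / T j0 = p / T j0 + (ε / T j0) g_1` has the same residue (`1 / T j0 ∈ P`), so `ȳ` too.
So `rat B x̄ ⊔ rat B ȳ ≤ rat B P0 ≤ rat B T̄`. By `trdeg_rat_rat` (C6) and `E.ind` the transcendence degree of `rat B T̄` is at least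
four. So `T̄ 0 ≠ 0` (otherwise `≤ 3`: a vector with four coordinates, `trdeg_rat_le`), so `t j ∈ P`, and the residues `t̄ j` (ratios of `T̄`) are
algebraically independent over `B`. `f(p̄) ≠ 0`, so `α, β ∈ P` (`α = x i / f(p) i`). Now `zg` is a tuple of six
algebraically independent elements of `B(t̄, ᾱ, β̄)`, so these six elements are algebraically independent over `B`, and
every non-zero element of `B[t, α, β]` is a unit of `P`: this last part is `main_of_ind` (G21), see also `triv_of_trdeg`. -/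
theorem esc_main (E : Esc f G ε t α β σ P φ x y w a) (j0 : Fin 5)
    (hj0 : (Fin.cons 1 t : Fin 5 → M) j0 ≠ 0)
    (hT : ∀ j, (Fin.cons 1 t : Fin 5 → M) j / (Fin.cons 1 t : Fin 5 → M) j0 ∈ P)
    (hne : fe f (pt G (fun j => φ ⟨_, hT j⟩)) ≠ 0) :
    ∀ b ∈ adjoin B (Set.range t ∪ {α, β}), b ∈ P := by
  obtain ⟨d, hd⟩ := E.hom
  have rm := E.rm
  have hz : ∀ a : P, P.valuation (a : M) < 1 → φ a = 0 := fun a ha => (rm.zero a).2 ha
  set T : Fin 5 → M := Fin.cons 1 t with hTdef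
  have hT0 : T 0 = 1 := rfl
  -- step 1
  have hpAx : ∀ (h : M) (i : Fin 6), fe f (pA G t h) i = T j0 ^ d *
      fe f (fun j => pt G (fun j => T j / T j0) j + (h / T j0) * algebraMap C M (G j 1)) i := by
    intro h i
    rw [← fe_smul f hd]
    congr 1
    funext j
    have e1 : pt G T j = T j0 * pt G (fun j => T j / T j0) j := by
      unfold pt
      rw [Finset.mul_sum]
      refine Finset.sum_congr rfl fun l _ => ?_
      field_simp
    show pt G T j + h * algebraMap C M (G j 1) = _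
    rw [e1]
    field_simp
  have hεT : ε / T j0 ∈ P ∧ P.valuation (ε / T j0) < 1 := by
    have h1 : T 0 / T j0 ∈ P := hT 0
    have h2 : P.valuation (T 0 / T j0) ≤ 1 := (P.valuation_le_one_iff _).2 h1
    have h3 : ε / T j0 = ε * (T 0 / T j0) := by rw [hT0]; ring
    have h4 : P.valuation (ε / T j0) < 1 := by
      rw [h3, map_mul]
      exact mul_lt_one_of_lt_of_le E.eps h2
    exact ⟨(P.valuation_le_one_iff _).1 h4.le, h4⟩
  obtain ⟨X1, hX1, hX1'⟩ := G7_fe (f := f) rm G (fun j => ⟨T j / T j0, hT j⟩) 0 (map_zero φ)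
  obtain ⟨Y1, hY1, hY1'⟩ := G7_fe (f := f) rm G (fun j => ⟨T j / T j0, hT j⟩) ⟨ε / T j0, hεT.1⟩
    (hz _ hεT.2)
  obtain ⟨i1, hi1⟩ : ∃ i, fe f (pt G (fun j => φ ⟨_, hT j⟩)) i ≠ 0 := by
    by_contra hcon
    exact hne (funext fun i => not_not.1 fun h => hcon ⟨i, h⟩)
  obtain ⟨c0, hc0⟩ := res_par rm x X1 (α * T j0 ^ d) (fun i => by
    rw [E.x_eq, hpAx, hX1, mul_assoc]
    have e : (fun j => pt G (fun j => T j / T j0) j + 0 / T j0 * algebraMap C M (G j 1)) =
        fun j => pt G (fun j => T j / T j0) j + ((0 : P) : M) * algebraMap C M (G j 1) := by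
      funext j
      rw [zero_div, ZeroMemClass.coe_zero]
    rw [e]) ⟨i1, by rw [hX1']; exact hi1⟩
  obtain ⟨c1, hc1⟩ := res_par rm y Y1 (β * T j0 ^ d) (fun i => by
    rw [E.y_eq, hpAx, hY1, mul_assoc]) ⟨i1, by rw [hY1']; exact hi1⟩
  have hratx : rat B (fun i => φ (x i)) ≤ rat B (fun j => φ ⟨_, hT j⟩) :=
    G7_rat_le ⟨d, hd⟩ G _ c0 (fun i => by rw [hc0, hX1'])
  have hraty : rat B (fun i => φ (y i)) ≤ rat B (fun j => φ ⟨_, hT j⟩) :=
    G7_rat_le ⟨d, hd⟩ G _ c1 (fun i => by rw [hc1, hY1'])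
  have htr : ¬ Algebra.trdeg B (rat B (fun j => φ ⟨_, hT j⟩)) ≤ 3 := fun h =>
    trdeg_rat_rat w _ _ _ ((G7_trdeg_mono (sup_le hratx hraty)).trans h) E.ind
  -- step 2
  have hT0' : φ ⟨_, hT 0⟩ ≠ 0 := fun h =>
    htr ((G7_trdeg_mono (G7_rat_succ _ h)).trans (by exact_mod_cast trdeg_rat_le (n := 3) _))
  have hv0 : P.valuation (T 0 / T j0) = 1 :=
    le_antisymm ((P.valuation_le_one_iff _).2 (hT 0)) (not_lt.1 fun h => hT0' ((rm.zero ⟨_, hT 0⟩).2 h))
  have hvj : P.valuation (T j0) = 1 := by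
    rw [hT0, map_div₀, map_one, one_div] at hv0
    exact inv_eq_one.1 hv0
  have hjP : T j0 ∈ P := (P.valuation_le_one_iff _).1 hvj.le
  have hTP : ∀ j, T j ∈ P := fun j => by
    have e : T j = T j / T j0 * T j0 := by field_simp
    rw [e]
    exact P.mul_mem _ _ (hT j) hjP
  have hφj : φ ⟨T j0, hjP⟩ ≠ 0 := fun h => by
    have h1 := (rm.zero ⟨T j0, hjP⟩).1 h
    rw [hvj] at h1
    exact lt_irrefl _ h1
  have hεP : ε ∈ P := (P.valuation_le_one_iff _).1 E.eps.le
  -- step 3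
  obtain ⟨X, hX, hX'⟩ := G7_fe (f := f) rm G (fun j => ⟨T j, hTP j⟩) 0 (map_zero φ)
  obtain ⟨Y, hY, hY'⟩ := G7_fe (f := f) rm G (fun j => ⟨T j, hTP j⟩) ⟨ε, hεP⟩ (hz _ E.eps)
  have hpt : pt G (fun j => φ ⟨T j, hTP j⟩) = fun i => φ ⟨T j0, hjP⟩ * pt G (fun j => φ ⟨_, hT j⟩) i := by
    funext i
    unfold pt
    rw [Finset.mul_sum]
    refine Finset.sum_congr rfl fun j _ => ?_
    have e : (⟨T j, hTP j⟩ : P) = ⟨T j0, hjP⟩ * ⟨_, hT j⟩ := Subtype.ext (by
      show T j = T j0 * (T j / T j0)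
      field_simp)
    show algebraMap C N (G i j) * φ ⟨T j, hTP j⟩ = φ ⟨T j0, hjP⟩ * (algebraMap C N (G i j) * φ ⟨_, hT j⟩)
    rw [e, map_mul]
    ring
  have hfe : fe f (pt G (fun j => φ ⟨T j, hTP j⟩)) i1 ≠ 0 := by
    rw [hpt, fe_smul f hd]
    exact mul_ne_zero (pow_ne_zero _ hφj) hi1
  have ht : ∀ j, t j ∈ P := fun j => hTP j.succ
  have hmem : ∀ i, fe f (pt G (fun j => φ ⟨T j, hTP j⟩)) i ∈ adjoin B (Set.range fun j => φ ⟨t j, ht j⟩) := by
    intro i
    have h1 : fe f (pt G (fun j => φ ⟨T j, hTP j⟩)) i ∈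
        (adjoin B (Set.range fun j => φ ⟨t j, ht j⟩)).restrictScalars k0 := by
      refine fe_mem f _ _ (fun l => ?_) i
      rw [mem_restrictScalars]
      refine sum_mem fun j _ => mul_mem ?_ ?_
      · rw [IsScalarTower.algebraMap_apply C B N]
        exact IntermediateField.algebraMap_mem _ _
      · refine Fin.cases ?_ (fun j => ?_) j
        · have e : φ ⟨T 0, hTP 0⟩ = 1 := map_one φ
          show φ ⟨T 0, hTP 0⟩ ∈ _
          rw [e]
          exact one_mem _
        · exact subset_adjoin _ _ ⟨j, rfl⟩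
    exact (mem_restrictScalars k0).1 h1
  refine main_of_ind rm t α β ht x y X Y (fun i => ?_) (fun i => ?_) (fun i => ?_) ⟨i1, ?_⟩ (fun i => ?_)
    ⟨i1, ?_⟩ w a E.ind
  · rw [E.x_eq, hX]
    rfl
  · rw [E.y_eq, hY]
    rfl
  · rw [hX']
    exact hmem i
  · rw [hX']
    exact hfe
  · rw [hY']
    exact hmem i
  · rw [hY']
    exact hfe

end MP2619.Q5
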