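import Pool.Agent.Lib.MP_2619d0_ag.W.V7
import Pool.Agent.Lib.MP_2619d0_ag.W.V8

/-!
# The curve `y² + y = x³` in characteristic two: points, homomorphisms, Frobenius
-/

set_option autoImplicit false

namespace MP2619.Q5

universe u

open IntermediateField MP2619.W WeierstrassCurve

variable {K L M N : Type u} [Field K] [Field L] [Field M] [Field N]

theorem two_up [Algebra K L] (h2 : (2 : K) = 0) : (2 : L) = 0 := by
  have := congrArg (algebraMap K L) h2
  rwa [map_ofNat, map_zero] at this

theorem two_hom (f : L →+* M) (h2 : (2 : L) = 0) : (2 : M) = 0 := by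
  have := congrArg f h2
  rwa [map_ofNat, map_zero] at this

theorem neg_two (h2 : (2 : L) = 0) (z : L) : -z = z := by linear_combination -z * h2

theorem sub_two (h2 : (2 : L) = 0) (z t : L) : z - t = z + t := by linear_combination -t * h2

/-! ### Formulas of the group law -/

theorem H0_negY (h2 : (2 : L) = 0) (x y : L) : (Ec L).negY x y = y + 1 := by
  simp only [Affine.negY, Ec]
  linear_combination (-y - 1) * h2

/-- the negative of a point -/
theorem neg_f (h2 : (2 : L) = 0) {x y : L} (h : (Ec L).Nonsingular x y) :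
    ∃ h', (-(Affine.Point.some x y h) : (Ec L).Point) = Affine.Point.some x (y + 1) h' := by
  have e := H0_negY h2 x y
  have h' : (Ec L).Nonsingular x (y + 1) := by
    rw [← e]
    exact (Affine.nonsingular_neg ..).mpr h
  refine ⟨h', ?_⟩
  rw [Affine.Point.neg_some]
  simp only [e]

/-- two points with the same first coordinate are equal or opposite -/
theorem eq_or_neg {x y y' : L} (h : (Ec L).Nonsingular x y) (h' : (Ec L).Nonsingular x y') :
    (Affine.Point.some x y h : (Ec L).Point) = Affine.Point.some x y' h' ∨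
      (Affine.Point.some x y h : (Ec L).Point) = -Affine.Point.some x y' h' :=
  Affine.Point.X_eq_iff.1 rfl

/-- the sum of two points with different first coordinates -/
theorem add_f [DecidableEq L] (h2 : (2 : L) = 0) {x1 y1 x2 y2 : L}
    (h1 : (Ec L).Nonsingular x1 y1) (h3 : (Ec L).Nonsingular x2 y2) (hne : x1 ≠ x2) (l x3 : L)
    (hl : l = (y1 + y2) / (x1 + x2)) (hx3 : x3 = l ^ 2 + x1 + x2) :
    ∃ h', (Affine.Point.some x1 y1 h1 + Affine.Point.some x2 y2 h3 : (Ec L).Point) =
      Affine.Point.some x3 (l * (x1 + x3) + y1 + 1) h' := by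
  have hs : (Ec L).slope x1 x2 y1 y2 = l := by
    rw [Affine.slope_of_X_ne hne, sub_two h2, sub_two h2, hl]
  have hX : (Ec L).addX x1 x2 l = x3 := by
    rw [Affine.addX, hx3]
    simp only [Ec]
    linear_combination (-x1 - x2) * h2
  have hY : (Ec L).addY x1 x2 y1 l = l * (x1 + x3) + y1 + 1 := by
    rw [Affine.addY, Affine.negAddY, hX, H0_negY h2]
    linear_combination (-l * x1) * h2
  have hN := Affine.nonsingular_add h1 h3 (fun hxy => hne hxy.1)
  have hN' := hN
  rw [hs, hX, hY] at hN'
  refine ⟨hN', ?_⟩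
  rw [Affine.Point.add_of_X_ne hne]
  simp only [hs, hX, hY]

/-- the double of a point -/
theorem dbl_f [DecidableEq L] (h2 : (2 : L) = 0) {x y : L} (h : (Ec L).Nonsingular x y) :
    ∃ h', (Affine.Point.some x y h + Affine.Point.some x y h : (Ec L).Point) =
      Affine.Point.some (x ^ 4) (y ^ 4 + 1) h' := by
  have hc := (ec_nonsingular h2 x y).1 h
  have hy : y ≠ (Ec L).negY x y := by
    intro e
    rw [H0_negY h2] at e
    exact one_ne_zero (left_eq_add.1 e)
  have hs : (Ec L).slope x x y y = x ^ 2 := by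
    rw [Affine.slope_of_Y_ne rfl hy]
    have e1 : (y - (Ec L).negY x y) = 1 := by
      rw [H0_negY h2]
      linear_combination (-1) * h2
    rw [e1, div_one]
    simp only [Ec]
    linear_combination x ^ 2 * h2
  have hX : (Ec L).addX x x (x ^ 2) = x ^ 4 := by
    rw [Affine.addX]
    simp only [Ec]
    linear_combination (-x) * h2
  have hY : (Ec L).addY x x y (x ^ 2) = y ^ 4 + 1 := by
    rw [Affine.addY, Affine.negAddY, hX, H0_negY h2]
    have e : y ^ 4 = x ^ 6 + x ^ 3 + y := by
      have e1 : y ^ 4 = (x ^ 3 - y) ^ 2 := by rw [← hc]; ring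
      rw [e1]
      linear_combination hc - x ^ 3 * y * h2 - y * h2
    rw [e]
    linear_combination (-x ^ 3) * h2
  have hN := Affine.nonsingular_add h h (fun hxy => hy hxy.2)
  have hN' := hN
  rw [hs, hX, hY] at hN'
  refine ⟨hN', ?_⟩
  rw [Affine.Point.add_self_of_Y_ne hy]
  simp only [hs, hX, hY]

/-! ### Homomorphisms of fields -/

theorem H0_map (f : L →+* M) : (Ec L).map f = Ec M := by
  simp [Ec, WeierstrassCurve.map]

theorem H0_nonsing (f : L →+* M) {x y : L} (h : (Ec L).Nonsingular x y) :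
    (Ec M).Nonsingular (f x) (f y) := by
  have h1 := (Affine.map_nonsingular (Ec L) (f := f) f.injective x y).2 h
  rw [H0_map] at h1
  exact h1

theorem H0_mapnegY (f : L →+* M) (x y : L) : f ((Ec L).negY x y) = (Ec M).negY (f x) (f y) := by
  simp only [Affine.negY, Ec, map_sub, map_neg, map_mul, map_zero, map_one]

/-- the image of a point under a homomorphism of fields -/
def mpf (f : L →+* M) : (Ec L).Point → (Ec M).Point
  | .zero => .zero
  | .some x y h => .some (f x) (f y) (H0_nonsing f h)

theorem mpf_neg (f : L →+* M) (P : (Ec L).Point) : mpf f (-P) = -mpf f P := by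
  rcases P with _ | ⟨x, y, h⟩
  · rfl
  · rw [Affine.Point.neg_some]
    simp only [mpf]
    rw [Affine.Point.neg_some]
    simp only [H0_mapnegY]

/-- the image of a point under a homomorphism of fields -/
def mp [DecidableEq L] [DecidableEq M] (f : L →+* M) : (Ec L).Point →+ (Ec M).Point where
  toFun := mpf f
  map_zero' := rfl
  map_add' := by
    rintro (_ | ⟨x1, y1, h1⟩) (_ | ⟨x2, y2, h2⟩)
    any_goals rfl
    by_cases hxy : x1 = x2 ∧ y1 = (Ec L).negY x2 y2
    · rw [Affine.Point.add_of_Y_eq hxy.1 hxy.2]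
      simp only [mpf]
      rw [Affine.Point.add_of_Y_eq (congrArg f hxy.1) (by rw [hxy.2, H0_mapnegY])]
      rfl
    · rw [Affine.Point.add_some hxy]
      have hxy' : ¬ (f x1 = f x2 ∧ f y1 = (Ec M).negY (f x2) (f y2)) := by
        rintro ⟨e1, e2⟩
        rw [← H0_mapnegY] at e2
        exact hxy ⟨f.injective e1, f.injective e2⟩
      have hs : (Ec M).slope (f x1) (f x2) (f y1) (f y2) = f ((Ec L).slope x1 x2 y1 y2) := by
        have := Affine.map_slope (W := Ec L) f x1 x2 y1 y2
        rwa [H0_map] at this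
      have hX : ∀ l, (Ec M).addX (f x1) (f x2) (f l) = f ((Ec L).addX x1 x2 l) := by
        intro l
        have := Affine.map_addX (W' := Ec L) f x1 x2 l
        rwa [H0_map] at this
      have hY : ∀ l, (Ec M).addY (f x1) (f x2) (f y1) (f l) = f ((Ec L).addY x1 x2 y1 l) := by
        intro l
        have := Affine.map_addY (W' := Ec L) f x1 y1 x2 l
        rwa [H0_map] at this
      simp only [mpf]
      rw [Affine.Point.add_some hxy']
      simp only [hs, hX, hY]

theorem mp_zero [DecidableEq L] [DecidableEq M] (f : L →+* M) :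
    mp f (0 : (Ec L).Point) = 0 := rfl

theorem mp_some [DecidableEq L] [DecidableEq M] (f : L →+* M) {x y : L}
    (h : (Ec L).Nonsingular x y) :
    mp f (Affine.Point.some x y h) = Affine.Point.some (f x) (f y) (H0_nonsing f h) := rfl

theorem mp_mp [DecidableEq L] [DecidableEq M] [DecidableEq N] (f : L →+* M) (g : M →+* N)
    (P : (Ec L).Point) : mp g (mp f P) = mp (g.comp f) P := by
  cases P <;> rfl

theorem mp_id [DecidableEq L] (P : (Ec L).Point) : mp (RingHom.id L) P = P := by
  cases P <;> rfl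

theorem mp_injective [DecidableEq L] [DecidableEq M] (f : L →+* M) :
    Function.Injective (mp f) := by
  rintro (_ | ⟨x1, y1, h1⟩) (_ | ⟨x2, y2, h2⟩) h
  · rfl
  · cases h
  · cases h
  · rw [mp_some, mp_some] at h
    simp only [Affine.Point.some.injEq] at h
    simp only [Affine.Point.some.injEq]
    exact ⟨f.injective h.1, f.injective h.2⟩

/-- a point over `K` seen over `L` -/
abbrev bs [DecidableEq K] [DecidableEq L] [Algebra K L] : (Ec K).Point →+ (Ec L).Point :=
  mp (algebraMap K L)

theorem pf_mp [Algebra K L] [Algebra K M] [DecidableEq L] [DecidableEq M] (f : L →+* M)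
    (P : (Ec L).Point) : pf K (mp f P) = f '' pf K P := by
  rcases P with _ | ⟨x, y, h⟩
  · show (∅ : Set M) = f '' ∅
    rw [Set.image_empty]
  · show ({f x, f y} : Set M) = f '' {x, y}
    rw [Set.image_pair]

theorem mp_bs [Algebra K L] [Algebra K M] [DecidableEq K] [DecidableEq L] [DecidableEq M]
    (f : L →ₐ[K] M) (P : (Ec K).Point) : mp (f : L →+* M) (bs P) = bs P := by
  show mp (f : L →+* M) (mp (algebraMap K L) P) = mp (algebraMap K M) P
  rw [mp_mp, f.comp_algebraMap]

/-- a point with coordinates in an intermediate field -/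
theorem exists_of_mem [Algebra K L] [DecidableEq L] (F : IntermediateField K L)
    (P : (Ec L).Point) (h : pf K P ⊆ F) : ∃ P0 : (Ec F).Point, mp (algebraMap F L) P0 = P := by
  rcases P with _ | ⟨x, y, hP⟩
  · exact ⟨0, rfl⟩
  · have hx : x ∈ F := h (by show x ∈ ({x, y} : Set L); simp)
    have hy : y ∈ F := h (by show y ∈ ({x, y} : Set L); simp)
    have h0 : (Ec F).Nonsingular (⟨x, hx⟩ : F) (⟨y, hy⟩ : F) := by
      refine (Affine.map_nonsingular (Ec F) (f := algebraMap F L)
        (algebraMap F L).injective _ _).1 ?_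
      rw [H0_map]
      exact hP
    exact ⟨Affine.Point.some _ _ h0, rfl⟩

/-! ### The Frobenius endomorphism -/

/-- squaring -/
def sqHom (h2 : (2 : L) = 0) : L →+* L where
  toFun z := z ^ 2
  map_one' := one_pow 2
  map_mul' a b := mul_pow a b 2
  map_zero' := by simp
  map_add' a b := by linear_combination (a * b) * h2

/-- the Frobenius endomorphism `(x, y) ↦ (x², y²)` -/
def Fr [DecidableEq L] (h2 : (2 : L) = 0) : (Ec L).Point →+ (Ec L).Point := mp (sqHom h2)

theorem Fr_some [DecidableEq L] (h2 : (2 : L) = 0) {x y : L} (h : (Ec L).Nonsingular x y) :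
    Fr h2 (Affine.Point.some x y h) =
      Affine.Point.some (x ^ 2) (y ^ 2) (H0_nonsing (sqHom h2) h) := rfl

theorem Fr_mp [DecidableEq L] [DecidableEq M] (h2 : (2 : L) = 0) (h2' : (2 : M) = 0)
    (f : L →+* M) (P : (Ec L).Point) : Fr h2' (mp f P) = mp f (Fr h2 P) := by
  rcases P with _ | ⟨x, y, h⟩
  · rfl
  · rw [mp_some, Fr_some, Fr_some, mp_some]
    simp only [map_pow]

/-- `Fr² = -2` -/
theorem Fr_Fr [DecidableEq L] (h2 : (2 : L) = 0) (P : (Ec L).Point) :
    Fr h2 (Fr h2 P) = -(P + P) := by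
  rcases P with _ | ⟨x, y, h⟩
  · rfl
  · obtain ⟨h', e⟩ := dbl_f h2 h
    obtain ⟨h'', e'⟩ := neg_f h2 h'
    rw [Fr_some, Fr_some, e, e']
    simp only [Affine.Point.some.injEq]
    exact ⟨by ring, by linear_combination (-1) * h2⟩

/-! ### The automorphism of order three -/

theorem H0_wnonsing (h2 : (2 : L) = 0) (w : L) (hw : w ^ 2 + w + 1 = 0) {x y : L}
    (h : (Ec L).Nonsingular x y) : (Ec L).Nonsingular (w * x) y := by
  rw [ec_nonsingular h2] at h ⊢
  linear_combination h - (w - 1) * x ^ 3 * hw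

/-- the map `(x, y) ↦ (w x, y)` -/
def wmf (h2 : (2 : L) = 0) (w : L) (hw : w ^ 2 + w + 1 = 0) : (Ec L).Point → (Ec L).Point
  | .zero => .zero
  | .some x y h => .some (w * x) y (H0_wnonsing h2 w hw h)

theorem wmf_neg (h2 : (2 : L) = 0) (w : L) (hw : w ^ 2 + w + 1 = 0) (P : (Ec L).Point) :
    wmf h2 w hw (-P) = -wmf h2 w hw P := by
  rcases P with _ | ⟨x, y, h⟩
  · rfl
  · rw [Affine.Point.neg_some]
    simp only [wmf]
    rw [Affine.Point.neg_some]
    simp only [H0_negY h2]

theorem H0_w_ne (w : L) (hw : w ^ 2 + w + 1 = 0) : w ≠ 0 := by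
  rintro rfl
  simp at hw

/-- the map `(x, y) ↦ (w x, y)` -/
def wm [DecidableEq L] (h2 : (2 : L) = 0) (w : L) (hw : w ^ 2 + w + 1 = 0) :
    (Ec L).Point →+ (Ec L).Point where
  toFun := wmf h2 w hw
  map_zero' := rfl
  map_add' := by
    have hw0 := H0_w_ne w hw
    rintro (_ | ⟨x1, y1, h1⟩) (_ | ⟨x2, y2, h3⟩)
    any_goals rfl
    by_cases hx : x1 = x2
    · subst hx
      rcases eq_or_neg h1 h3 with e | e
      · rw [← e]
        obtain ⟨h4, e4⟩ := dbl_f h2 h1
        obtain ⟨h5, e5⟩ := dbl_f h2 (H0_wnonsing h2 w hw h1)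
        rw [e4]
        simp only [wmf]
        rw [e5]
        simp only [Affine.Point.some.injEq, and_true]
        linear_combination (-(w - 1) * w * x1 ^ 4) * hw
      · rw [e, neg_add_cancel, wmf_neg, neg_add_cancel]
        rfl
    · have hx' : w * x1 ≠ w * x2 := fun e => hx (mul_left_cancel₀ hw0 e)
      obtain ⟨h4, e4⟩ := add_f h2 h1 h3 hx _ _ rfl rfl
      obtain ⟨h5, e5⟩ := add_f h2 (H0_wnonsing h2 w hw h1) (H0_wnonsing h2 w hw h3) hx' _ _ rfl rfl
      rw [e4]
      simp only [wmf]
      rw [e5]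
      have hs : x1 + x2 ≠ 0 := by
        intro e
        apply hx
        linear_combination e - x2 * h2
      simp only [Affine.Point.some.injEq]
      constructor
      · field_simp
        linear_combination ((w - 1) * (y1 + y2) ^ 2) * hw
      · field_simp
        linear_combination ((w - 1) * (y1 + y2) * (y1 + y2) ^ 2) * hw

theorem wm_some [DecidableEq L] (h2 : (2 : L) = 0) (w : L) (hw : w ^ 2 + w + 1 = 0) {x y : L}
    (h : (Ec L).Nonsingular x y) : wm h2 w hw (Affine.Point.some x y h) =
      Affine.Point.some (w * x) y (H0_wnonsing h2 w hw h) := rfl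

theorem wm_mp [DecidableEq L] [DecidableEq M] (h2 : (2 : L) = 0) (h2' : (2 : M) = 0) (w : L)
    (hw : w ^ 2 + w + 1 = 0) (f : L →+* M) (hw' : f w ^ 2 + f w + 1 = 0) (P : (Ec L).Point) :
    wm h2' (f w) hw' (mp f P) = mp f (wm h2 w hw P) := by
  rcases P with _ | ⟨x, y, h⟩
  · rfl
  · rw [mp_some, wm_some, wm_some, mp_some]
    simp only [map_mul]

/-- `w³ = 1` -/
theorem wm_wm_wm [DecidableEq L] (h2 : (2 : L) = 0) (w : L) (hw : w ^ 2 + w + 1 = 0)
    (P : (Ec L).Point) : wm h2 w hw (wm h2 w hw (wm h2 w hw P)) = P := by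
  rcases P with _ | ⟨x, y, h⟩
  · rfl
  · rw [wm_some, wm_some, wm_some]
    simp only [Affine.Point.some.injEq, and_true]
    linear_combination ((w - 1) * x) * hw

/-- `Fr w = w² Fr` -/
theorem Fr_wm [DecidableEq L] (h2 : (2 : L) = 0) (w : L) (hw : w ^ 2 + w + 1 = 0)
    (P : (Ec L).Point) : Fr h2 (wm h2 w hw P) = wm h2 w hw (wm h2 w hw (Fr h2 P)) := by
  rcases P with _ | ⟨x, y, h⟩
  · rfl
  · rw [wm_some, Fr_some, Fr_some, wm_some, wm_some]
    simp only [Affine.Point.some.injEq, and_true]
    ring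

/-- `w² + w + 1 = 0` on points -/
theorem wm_sum [DecidableEq L] (h2 : (2 : L) = 0) (w : L) (hw : w ^ 2 + w + 1 = 0)
    (P : (Ec L).Point) : wm h2 w hw (wm h2 w hw P) + wm h2 w hw P + P = 0 := by
  rcases P with _ | ⟨x, y, h⟩
  · show (0 : (Ec L).Point) + 0 + 0 = 0
    rw [add_zero, add_zero]
  · have hw1 : w ≠ 1 := by
      rintro rfl
      have : (1 : L) = 0 := by linear_combination hw - h2
      exact one_ne_zero this
    have hw0 := H0_w_ne w hw
    have hc := (ec_nonsingular h2 x y).1 h
    obtain ⟨hn, en⟩ := neg_f h2 h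
    rw [wm_some, wm_some, ← eq_neg_iff_add_eq_zero, en]
    by_cases hx : x = 0
    · subst hx
      have e1 : w * (w * (0 : L)) = 0 := by ring
      have e2 : w * (0 : L) = 0 := by ring
      obtain ⟨h', e⟩ := dbl_f h2 h
      simp only [e2]
      rw [e]
      simp only [Affine.Point.some.injEq]
      constructor
      · ring
      · have hy : y ^ 2 = -y := by linear_combination hc
        have hy4 : y ^ 4 = y := by
          have : y ^ 4 = (y ^ 2) ^ 2 := by ring
          rw [this, hy]
          linear_combination hc - y * h2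
        rw [hy4]
    · have hne : w * (w * x) ≠ w * x := by
        intro e
        have e3 := mul_left_cancel₀ hw0 e
        exact hw1 (mul_right_cancel₀ hx (by rw [e3, one_mul]))
      obtain ⟨h', e⟩ := add_f h2 (H0_wnonsing h2 w hw (H0_wnonsing h2 w hw h))
        (H0_wnonsing h2 w hw h) hne 0 x (by
          rw [show y + y = 0 by linear_combination y * h2, zero_div]) (by
          linear_combination (-x) * hw + x * h2)
      rw [e]
      simp only [Affine.Point.some.injEq, true_and]
      ring

end MP2619.Q5
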