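import Pool.Agent.Lib.MP_2619d0_ag.Q5.H0

/-!
# The bilinear form of the degree on `E(L)`, `E : y² + y = x³` in characteristic two
-/

set_option autoImplicit false

namespace MP2619.Q5

universe u

open IntermediateField MP2619.W WeierstrassCurve

variable {K L : Type u} [Field K] [Field L] [Algebra K L]

/-- `<P, Q> = N(P + Q) - N(P) - N(Q)`, `N = pdeg K` -/
noncomputable def Bf (K : Type u) {L : Type u} [Field K] [Field L] [Algebra K L] [DecidableEq L]
    (P Q : (Ec L).Point) : ℤ := (pdeg K (P + Q) : ℤ) - pdeg K P - pdeg K Q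

theorem pdeg_neg (P : (Ec L).Point) : pdeg K (-P) = pdeg K P := by
  rw [pdeg, pdeg, adjoin_neg]

private theorem H1_three {G : Type*} [AddCommGroup G] (f : G → ℤ)
    (h : ∀ x y, f (x + y) + f (x - y) = 2 * (f x + f y)) (x z y : G) :
    f (x + z + y) = f (x + z) + f (x + y) + f (z + y) - f x - f y - f z := by
  have h1 := h (x + z) y
  have h2 := h x (z + y)
  have h3 := h (x - y) z
  have h4 := h x y
  have e1 : x + (z + y) = x + z + y := by abel
  have e2 : x - (z + y) = x - y - z := by abel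
  have e3 : x - y + z = x + z - y := by abel
  rw [e1, e2] at h2
  rw [e3] at h3
  omega

private theorem H1_aux (hL : ¬ Algebra.IsAlgebraic K L) {S : Set L}
    (hS : ∀ x ∈ S, IsAlgebraic K x) : Module.finrank (adjoin K S) L = 0 := by
  by_contra h
  apply hL
  have : FiniteDimensional (adjoin K S) L := FiniteDimensional.of_finrank_pos (Nat.pos_of_ne_zero h)
  have h1 : Algebra.IsAlgebraic (adjoin K S) L := Algebra.IsAlgebraic.of_finite _ _
  have h2 : Algebra.IsAlgebraic K (adjoin K S) :=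
    IntermediateField.isAlgebraic_adjoin (fun x hx => (hS x hx).isIntegral)
  exact Algebra.IsAlgebraic.trans K (adjoin K S) L

variable [DecidableEq L]

theorem H1_par (h2 : (2 : K) = 0) (hL : ¬ Algebra.IsAlgebraic K L) (P Q : (Ec L).Point) :
    (pdeg K (P + Q) : ℤ) + pdeg K (P - Q) = 2 * ((pdeg K P : ℤ) + pdeg K Q) := by
  exact_mod_cast pdeg_par h2 hL P Q

theorem Bf_symm (P Q : (Ec L).Point) : Bf K P Q = Bf K Q P := by
  rw [Bf, Bf, add_comm P Q]
  ring

theorem Bf_add_left (h2 : (2 : K) = 0) (hL : ¬ Algebra.IsAlgebraic K L)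
    (P P' Q : (Ec L).Point) : Bf K (P + P') Q = Bf K P Q + Bf K P' Q := by
  have := H1_three (fun P : (Ec L).Point => (pdeg K P : ℤ)) (H1_par h2 hL) P P' Q
  rw [Bf, Bf, Bf]
  linarith

theorem Bf_add_right (h2 : (2 : K) = 0) (hL : ¬ Algebra.IsAlgebraic K L)
    (P Q Q' : (Ec L).Point) : Bf K P (Q + Q') = Bf K P Q + Bf K P Q' := by
  rw [Bf_symm, Bf_add_left h2 hL, Bf_symm Q, Bf_symm Q']

theorem Bf_zero_left (hL : ¬ Algebra.IsAlgebraic K L) (Q : (Ec L).Point) : Bf K 0 Q = 0 := by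
  rw [Bf, zero_add, pdeg_zero hL]
  simp

theorem Bf_zero_right (hL : ¬ Algebra.IsAlgebraic K L) (P : (Ec L).Point) : Bf K P 0 = 0 := by
  rw [Bf_symm, Bf_zero_left hL]

theorem Bf_neg_left (h2 : (2 : K) = 0) (hL : ¬ Algebra.IsAlgebraic K L) (P Q : (Ec L).Point) :
    Bf K (-P) Q = -Bf K P Q := by
  have := Bf_add_left h2 hL P (-P) Q
  rw [add_neg_cancel, Bf_zero_left hL] at this
  linarith

theorem Bf_neg_right (h2 : (2 : K) = 0) (hL : ¬ Algebra.IsAlgebraic K L) (P Q : (Ec L).Point) :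
    Bf K P (-Q) = -Bf K P Q := by
  rw [Bf_symm, Bf_neg_left h2 hL, Bf_symm]

theorem Bf_sub_right (h2 : (2 : K) = 0) (hL : ¬ Algebra.IsAlgebraic K L)
    (P Q Q' : (Ec L).Point) : Bf K P (Q - Q') = Bf K P Q - Bf K P Q' := by
  rw [sub_eq_add_neg, Bf_add_right h2 hL, Bf_neg_right h2 hL]
  ring

theorem Bf_self (h2 : (2 : K) = 0) (hL : ¬ Algebra.IsAlgebraic K L) (P : (Ec L).Point) :
    Bf K P P = 2 * pdeg K P := by
  rw [Bf, pdeg_double h2 hL]
  push_cast
  ring

omit [DecidableEq L] in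
/-- a point which is algebraic over `K` has degree zero -/
theorem pdeg_alg (hL : ¬ Algebra.IsAlgebraic K L) (P : (Ec L).Point)
    (hP : ∀ z ∈ pf K P, IsAlgebraic K z) : pdeg K P = 0 := H1_aux hL hP

/-- `n <P, Q> + N(Q) = N(n P + Q) ≥ 0` for all integers `n` -/
theorem Bf_alg (h2 : (2 : K) = 0) (hL : ¬ Algebra.IsAlgebraic K L) (P Q : (Ec L).Point)
    (hP : pdeg K P = 0) : Bf K P Q = 0 := by
  have h : ∀ n : ℤ, 0 ≤ n * Bf K P Q + pdeg K Q := by
    intro n
    have h1 := par_quad (fun P : (Ec L).Point => (pdeg K P : ℤ)) (H1_par h2 hL) P Q n 1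
    simp only [hP] at h1
    have h3 : (0 : ℤ) ≤ pdeg K (n • P + (1 : ℤ) • Q) := Int.natCast_nonneg _
    rw [h1] at h3
    rw [Bf, hP]
    push_cast at h3 ⊢
    linarith
  by_contra hne
  have h1 := h (-(Bf K P Q) * (pdeg K Q + 1))
  have h3 : 0 < Bf K P Q * Bf K P Q := mul_self_pos.2 hne
  have h4 : (0 : ℤ) ≤ pdeg K Q := Int.natCast_nonneg _
  nlinarith

theorem Bf_bs_right [DecidableEq K] (h2 : (2 : K) = 0) (hL : ¬ Algebra.IsAlgebraic K L)
    (P : (Ec L).Point) (e : (Ec K).Point) : Bf K P (bs e) = 0 := by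
  rw [Bf_symm]
  apply Bf_alg h2 hL
  apply pdeg_alg hL
  intro z hz
  rw [pf_mp (K := K)] at hz
  obtain ⟨t, -, rfl⟩ := hz
  exact isAlgebraic_algebraMap t

/-- `N(Fr P) = 2 N(P)`: `x(Fr P) = x(P)²` (`dg_poly`, `dg_eq_two_dp`) -/
theorem pdeg_Fr (h2L : (2 : L) = 0) (hL : ¬ Algebra.IsAlgebraic K L)
    (P : (Ec L).Point) : pdeg K (Fr h2L P) = 2 * pdeg K P := by
  rcases P with _ | ⟨x, y, h⟩
  · show pdeg K (0 : (Ec L).Point) = 2 * pdeg K (0 : (Ec L).Point)
    rw [pdeg_zero hL]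
  · have h1 := (ec_nonsingular h2L x y).1 h
    have h3 : (y ^ 2) ^ 2 + y ^ 2 = (x ^ 2) ^ 3 := by
      have : (y ^ 2) ^ 2 + y ^ 2 = (y ^ 2 + y) ^ 2 - 2 * y ^ 3 := by ring
      rw [this, h1, h2L]
      ring
    have e1 := dg_eq_two_dp (K := K) hL h1
    have e2 := dg_eq_two_dp (K := K) hL h3
    have e3 := dg_poly (K := K) hL (Polynomial.X ^ 2) (by simp) x
    simp only [map_pow, Polynomial.aeval_X, Polynomial.natDegree_pow, Polynomial.natDegree_X,
      mul_one] at e3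
    rw [Fr_some]
    show dp K (x ^ 2) (y ^ 2) = 2 * dp K x y
    omega

theorem Bf_Fr (h2L : (2 : L) = 0) (hL : ¬ Algebra.IsAlgebraic K L)
    (P Q : (Ec L).Point) : Bf K (Fr h2L P) (Fr h2L Q) = 2 * Bf K P Q := by
  rw [Bf, Bf, ← map_add, pdeg_Fr h2L hL, pdeg_Fr h2L hL, pdeg_Fr h2L hL]
  push_cast
  ring

/-- `<P, Fr Q> = -<Fr P, Q>`, because `Fr² = -2` -/
theorem Bf_Fr_right (h2 : (2 : K) = 0) (h2L : (2 : L) = 0) (hL : ¬ Algebra.IsAlgebraic K L)
    (P Q : (Ec L).Point) : Bf K P (Fr h2L Q) = -Bf K (Fr h2L P) Q := by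
  have h1 := Bf_Fr h2L hL P (Fr h2L Q)
  rw [Fr_Fr, Bf_neg_right h2 hL, Bf_add_right h2 hL] at h1
  linarith

/-- `K(w x, y) = K(x, y)` -/
theorem adjoin_wm (h2L : (2 : L) = 0) (w : K) (hw : w ^ 2 + w + 1 = 0)
    (hw' : algebraMap K L w ^ 2 + algebraMap K L w + 1 = 0) (P : (Ec L).Point) :
    adjoin K (pf K (wm h2L (algebraMap K L w) hw' P)) = adjoin K (pf K P) := by
  rcases P with _ | ⟨x, y, h⟩
  · rfl
  · rw [wm_some]
    have h0 := H0_w_ne w hw
    have h0' := H0_w_ne _ hw'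
    have e : adjoin K ({algebraMap K L w * x, y} : Set L) = adjoin K ({x, y} : Set L) := by
      apply le_antisymm
      · rw [adjoin_le_iff]
        have hx : x ∈ adjoin K ({x, y} : Set L) := subset_adjoin K _ (by simp)
        have hy : y ∈ adjoin K ({x, y} : Set L) := subset_adjoin K _ (by simp)
        rintro z (rfl | rfl)
        · exact mul_mem (IntermediateField.algebraMap_mem _ w) hx
        · exact hy
      · rw [adjoin_le_iff]
        have hx : algebraMap K L w * x ∈ adjoin K ({algebraMap K L w * x, y} : Set L) :=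
          subset_adjoin K _ (by simp)
        have hy : y ∈ adjoin K ({algebraMap K L w * x, y} : Set L) := subset_adjoin K _ (by simp)
        rintro z (rfl | rfl)
        · have := mul_mem (IntermediateField.algebraMap_mem
            (adjoin K ({algebraMap K L w * z, y} : Set L)) w⁻¹) hx
          rw [map_inv₀, inv_mul_cancel_left₀ h0'] at this
          exact this
        · exact hy
    exact e

/-- `N(w P) = N(P)` -/
theorem pdeg_wm (h2L : (2 : L) = 0) (w : K) (hw : w ^ 2 + w + 1 = 0)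
    (hw' : algebraMap K L w ^ 2 + algebraMap K L w + 1 = 0) (P : (Ec L).Point) :
    pdeg K (wm h2L (algebraMap K L w) hw' P) = pdeg K P := by
  rw [pdeg, pdeg, adjoin_wm h2L w hw]

theorem Bf_wm (h2L : (2 : L) = 0) (w : K) (hw : w ^ 2 + w + 1 = 0)
    (hw' : algebraMap K L w ^ 2 + algebraMap K L w + 1 = 0) (P Q : (Ec L).Point) :
    Bf K (wm h2L (algebraMap K L w) hw' P) (wm h2L (algebraMap K L w) hw' Q) = Bf K P Q := by
  rw [Bf, Bf, ← map_add, pdeg_wm h2L w hw, pdeg_wm h2L w hw, pdeg_wm h2L w hw]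

/-! ### The fields of points -/

/-- `K(Fr P) ⊆ K(P)` -/
theorem pf_Fr (h2L : (2 : L) = 0) (P : (Ec L).Point) :
    pf K (Fr h2L P) ⊆ adjoin K (pf K P) := by
  rcases P with _ | ⟨x, y, h⟩
  · exact Set.empty_subset _
  · rw [Fr_some]
    have hx : x ∈ adjoin K ({x, y} : Set L) := subset_adjoin K _ (by simp)
    have hy : y ∈ adjoin K ({x, y} : Set L) := subset_adjoin K _ (by simp)
    rintro z (rfl | rfl)
    · exact pow_mem hx 2
    · exact pow_mem hy 2

/-- points over an intermediate field form a subgroup -/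
theorem pf_add_of_mem (F : IntermediateField K L) (P Q : (Ec L).Point) (hP : pf K P ⊆ F)
    (hQ : pf K Q ⊆ F) : pf K (P + Q) ⊆ F := by
  obtain ⟨P0, rfl⟩ := exists_of_mem F P hP
  obtain ⟨Q0, rfl⟩ := exists_of_mem F Q hQ
  rw [← map_add]
  rcases P0 + Q0 with _ | ⟨x, y, h⟩
  · exact Set.empty_subset _
  · rw [mp_some]
    rintro z (rfl | rfl)
    · exact x.2
    · exact y.2

omit [DecidableEq L] in
theorem pf_neg_of_mem (F : IntermediateField K L) (P : (Ec L).Point) (hP : pf K P ⊆ F) :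
    pf K (-P) ⊆ F := by
  have h := adjoin_neg (K := K) P
  have h1 : adjoin K (pf K P) ≤ F := adjoin_le_iff.2 hP
  rw [← h] at h1
  exact adjoin_le_iff.1 h1

/-- `K(P + Q) ⊆ K(P, Q)` -/
theorem pf_add (P Q : (Ec L).Point) : pf K (P + Q) ⊆ adjoin K (pf K P ∪ pf K Q) :=
  pf_add_of_mem _ P Q (fun _ hz => subset_adjoin K _ (Or.inl hz))
    (fun _ hz => subset_adjoin K _ (Or.inr hz))

end MP2619.Q5
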