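import Pool.Agent.Lib.MP_2619d0_ag.Q5.H1

/-!
Row H2: homomorphisms from the field of a generic point. Copy of `NP/E2.lean` for the curve
`y² + y = x³` (there: `Wo a2 a6`, `Pt`, `mp`, `pf`; here `Ec`, `mp`, `pf K` of `H0.lean`).
-/

set_option autoImplicit false

namespace MP2619.Q5

universe u

open IntermediateField MP2619.W WeierstrassCurve

variable {K L M : Type u} [Field K] [Field L] [Field M] [Algebra K L] [Algebra K M]

/-- `P` is a generic point and `L` is its field -/
structure IsGen (K : Type u) {L : Type u} [Field K] [Field L] [Algebra K L] (P : (Ec L).Point) :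
    Prop where
  nalg : ¬ Algebra.IsAlgebraic K L
  top : adjoin K (pf K P) = ⊤

theorem H2_eqn {x y : L} (h : (Ec L).Nonsingular x y) : y ^ 2 + y = x ^ 3 := by
  have h1 := h.1
  rw [WeierstrassCurve.Affine.equation_iff] at h1
  simpa [Ec] using h1

/-- evaluation of the coordinate ring at a point -/
private noncomputable def H2_ev (K : Type u) {L : Type u} [Field K] [Field L] [Algebra K L]
    (x y : L) (h : y ^ 2 + y = x ^ 3) : (Ec K).CoordinateRing →ₐ[K] L :=
  AdjoinRoot.liftAlgHom (Ec K).polynomial (Polynomial.aeval x) y (by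
    simp [Ec, WeierstrassCurve.Affine.polynomial, Polynomial.eval₂_add, Polynomial.eval₂_sub,
      Polynomial.eval₂_mul, Polynomial.eval₂_pow]
    linear_combination h)

private theorem H2_ev_basis (x y : L) (h : y ^ 2 + y = x ^ 3) (p q : Polynomial K) :
    H2_ev K x y h (p • (1 : (Ec K).CoordinateRing) +
      q • WeierstrassCurve.Affine.CoordinateRing.mk (Ec K) Polynomial.X) =
      Polynomial.aeval x p + Polynomial.aeval x q * y := by
  rw [WeierstrassCurve.Affine.CoordinateRing.smul, WeierstrassCurve.Affine.CoordinateRing.smul,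
    mul_one, map_add, map_mul]
  unfold H2_ev
  rw [AdjoinRoot.liftAlgHom_mk, AdjoinRoot.liftAlgHom_mk, AdjoinRoot.liftAlgHom_mk]
  simp

private theorem H2_ev_inj (x y : L) (h : y ^ 2 + y = x ^ 3)
    (hx : Transcendental K x) : Function.Injective (H2_ev K x y h) := by
  rw [injective_iff_map_eq_zero]
  intro z hz
  obtain ⟨p, q, rfl⟩ := WeierstrassCurve.Affine.CoordinateRing.exists_smul_basis_eq z
  rw [H2_ev_basis] at hz
  have hN := WeierstrassCurve.Affine.CoordinateRing.norm_smul_basis (W' := Ec K) p q
  have h0 : Polynomial.aeval x (p ^ 2 - p * q * (Polynomial.C (Ec K).a₁ * Polynomial.X +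
      Polynomial.C (Ec K).a₃) - q ^ 2 * (Polynomial.X ^ 3 + Polynomial.C (Ec K).a₂ * Polynomial.X ^ 2 +
      Polynomial.C (Ec K).a₄ * Polynomial.X + Polynomial.C (Ec K).a₆)) = 0 := by
    have hp : Polynomial.aeval x p = - (Polynomial.aeval x q * y) := eq_neg_of_add_eq_zero_left hz
    simp only [map_sub, map_mul, map_add, map_pow, Polynomial.aeval_C, Polynomial.aeval_X, hp]
    simp only [Ec, map_one, map_zero]
    linear_combination (Polynomial.aeval x q) ^ 2 * h
  have h1 := (transcendental_iff.1 hx) _ h0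
  have hd := WeierstrassCurve.Affine.CoordinateRing.degree_norm_smul_basis (W' := Ec K) p q
  rw [hN, h1, Polynomial.degree_zero] at hd
  have hd1 : (2 : ℕ) • p.degree = ⊥ := le_bot_iff.1 (hd ▸ le_max_left _ _)
  have hd2 : (2 : ℕ) • q.degree + 3 = ⊥ := le_bot_iff.1 (hd ▸ le_max_right _ _)
  have hp : p = 0 := by
    rw [← Polynomial.degree_eq_bot]
    rw [two_nsmul] at hd1
    rcases WithBot.add_eq_bot.1 hd1 with h | h <;> exact h
  have hq : q = 0 := by
    rw [← Polynomial.degree_eq_bot]
    rw [two_nsmul] at hd2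
    rcases WithBot.add_eq_bot.1 hd2 with h | h
    · rcases WithBot.add_eq_bot.1 h with h | h <;> exact h
    · exact absurd h (by exact WithBot.coe_ne_bot)
  rw [hp, hq]
  simp

/-- if `K(x,y)` is not algebraic then `x` is transcendental -/
theorem nc_some (h2 : (2 : K) = 0) (P : (Ec L).Point)
    (hP : ¬ Algebra.IsAlgebraic K (adjoin K (pf K P))) :
    ∃ x y h, P = Affine.Point.some x y h ∧ Transcendental K x := by
  rcases P with _ | ⟨x, y, h⟩
  · exfalso
    apply hP
    have : pf K (Affine.Point.zero : (Ec L).Point) = ∅ := rfl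
    rw [this]
    apply IntermediateField.isAlgebraic_adjoin
    intro x hx
    exact absurd hx (Set.notMem_empty x)
  · refine ⟨x, y, h, rfl, ?_⟩
    intro hx
    apply hP
    apply IntermediateField.isAlgebraic_adjoin
    have hxi : _root_.IsIntegral K x := hx.isIntegral
    have hyi : _root_.IsIntegral K y := by
      have he := H2_eqn h
      have h1 : _root_.IsIntegral K (y ^ 2 + y) := by
        rw [he]
        exact hxi.pow 3
      have : Algebra.IsAlgebraic K (algebraicClosure K L) := algebraicClosure.isAlgebraic K L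
      have hz : (y ^ 2 + y) ∈ algebraicClosure K L := mem_algebraicClosure_iff.2 h1.isAlgebraic
      have hy2 : _root_.IsIntegral (algebraicClosure K L) y := by
        refine ⟨Polynomial.X ^ 2 + Polynomial.C 1 * Polynomial.X + Polynomial.C (-⟨_, hz⟩), ?_, ?_⟩
        · rw [add_assoc]
          apply Polynomial.monic_X_pow_add
          refine lt_of_le_of_lt (Polynomial.degree_linear_le) ?_
          norm_num
        · simp [Polynomial.eval₂_add, Polynomial.eval₂_mul, Polynomial.eval₂_pow]
      exact isIntegral_trans y hy2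
    intro z hz
    rcases hz with rfl | rfl
    · exact hxi
    · exact hyi

private theorem H2_nc (P : (Ec L).Point) (hP : IsGen K P) :
    ¬ Algebra.IsAlgebraic K (adjoin K (pf K P)) := by
  intro h
  apply hP.nalg
  constructor
  intro l
  have hl : l ∈ adjoin K (pf K P) := by rw [hP.top]; trivial
  have h1 := h.isAlgebraic (⟨l, hl⟩ : adjoin K (pf K P))
  exact h1.algebraMap (A := L)

/-- the coordinates of a generic point: `x` is transcendental and `K(x,y)` is everything -/
theorem gen_some (h2 : (2 : K) = 0) (P : (Ec L).Point) (hP : IsGen K P) :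
    ∃ x y h, P = Affine.Point.some x y h ∧ Transcendental K x ∧ adjoin K {x, y} = ⊤ := by
  obtain ⟨x, y, h, h1, h3⟩ := nc_some h2 P (H2_nc P hP)
  refine ⟨x, y, h, h1, h3, ?_⟩
  have := hP.top
  rw [h1] at this
  exact this

private theorem H2_lift (x y : L) (h : y ^ 2 + y = x ^ 3) (hx : Transcendental K x) :
    ∃ f : FractionRing (Ec K).CoordinateRing →ₐ[K] L,
      f (algebraMap (Ec K).CoordinateRing _
        (WeierstrassCurve.Affine.CoordinateRing.mk (Ec K) (Polynomial.C Polynomial.X))) = x ∧
      f (algebraMap (Ec K).CoordinateRing _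
        (WeierstrassCurve.Affine.CoordinateRing.mk (Ec K) Polynomial.X)) = y := by
  refine ⟨IsFractionRing.liftAlgHom (H2_ev_inj x y h hx), ?_, ?_⟩
  · rw [IsFractionRing.liftAlgHom_apply, IsFractionRing.lift_algebraMap]
    change H2_ev K x y h _ = x
    unfold H2_ev
    rw [AdjoinRoot.liftAlgHom_mk]
    simp
  · rw [IsFractionRing.liftAlgHom_apply, IsFractionRing.lift_algebraMap]
    change H2_ev K x y h _ = y
    unfold H2_ev
    rw [AdjoinRoot.liftAlgHom_mk]
    simp

/-- The field of a generic point `P` maps to every field with a point `Q` which is not algebraic. -/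
theorem exists_hom [DecidableEq L] [DecidableEq M] (h2 : (2 : K) = 0) (P : (Ec L).Point)
    (hP : IsGen K P) (Q : (Ec M).Point) (hQ : ¬ Algebra.IsAlgebraic K (adjoin K (pf K Q))) :
    ∃ φ : L →ₐ[K] M, mp (φ : L →+* M) P = Q := by
  obtain ⟨x, y, h, rfl, hx, htop⟩ := gen_some h2 P hP
  obtain ⟨x', y', h', rfl, hx'⟩ := nc_some h2 Q hQ
  obtain ⟨f, hf1, hf2⟩ := H2_lift x y (H2_eqn h) hx
  obtain ⟨g, hg1, hg2⟩ := H2_lift x' y' (H2_eqn h') hx'
  have hsurj : Function.Surjective f := by
    have h1 : adjoin K {x, y} ≤ f.fieldRange := by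
      rw [adjoin_le_iff]
      rintro z (rfl | rfl)
      · exact ⟨_, hf1⟩
      · exact ⟨_, hf2⟩
    rw [htop, top_le_iff] at h1
    intro l
    have : l ∈ f.fieldRange := by rw [h1]; trivial
    exact this
  let e := AlgEquiv.ofBijective f ⟨f.injective, hsurj⟩
  have he1 : e.symm x = algebraMap (Ec K).CoordinateRing _
        (WeierstrassCurve.Affine.CoordinateRing.mk (Ec K) (Polynomial.C Polynomial.X)) := by
    rw [AlgEquiv.symm_apply_eq]
    exact hf1.symm
  have he2 : e.symm y = algebraMap (Ec K).CoordinateRing _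
        (WeierstrassCurve.Affine.CoordinateRing.mk (Ec K) Polynomial.X) := by
    rw [AlgEquiv.symm_apply_eq]
    exact hf2.symm
  refine ⟨g.comp e.symm.toAlgHom, ?_⟩
  have k1 : (g.comp e.symm.toAlgHom) x = x' := by
    change g (e.symm x) = x'
    rw [he1, hg1]
  have k2 : (g.comp e.symm.toAlgHom) y = y' := by
    change g (e.symm y) = y'
    rw [he2, hg2]
  rw [mp_some]
  simp only [Affine.Point.some.injEq]
  exact ⟨k1, k2⟩

theorem hom_ext [DecidableEq L] [DecidableEq M] (P : (Ec L).Point) (hP : IsGen K P)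
    (φ ψ : L →ₐ[K] M) (h : mp (φ : L →+* M) P = mp (ψ : L →+* M) P) : φ = ψ := by
  have key : ∀ z ∈ pf K P, φ z = ψ z := by
    rcases P with _ | ⟨x, y, hxy⟩
    · intro z hz
      exact absurd hz (Set.notMem_empty z)
    · rw [mp_some, mp_some, Affine.Point.some.injEq] at h
      rintro z (rfl | rfl)
      · exact h.1
      · exact h.2
  ext l
  have hl : l ∈ adjoin K (pf K P) := by rw [hP.top]; trivial
  refine IntermediateField.adjoin_induction (s := pf K P) (p := fun l _ => φ l = ψ l) K
    (fun z hz => key z hz)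
    (fun z => by rw [AlgHom.commutes, AlgHom.commutes])
    (fun a b _ _ ha hb => by rw [map_add, map_add, ha, hb])
    (fun a _ ha => by rw [map_inv₀, map_inv₀, ha])
    (fun a b _ _ ha hb => by rw [map_mul, map_mul, ha, hb]) hl

/-- tower: `K(φ c) ⊆ φ(L) ⊆ M` -/
theorem pdeg_mp [DecidableEq L] [DecidableEq M] (φ : L →ₐ[K] M) (c : (Ec L).Point) :
    pdeg K (mp (φ : L →+* M) c) = Module.finrank φ.fieldRange M * pdeg K c := by
  unfold pdeg
  rw [pf_mp]
  have h0 : adjoin K ((φ : L →+* M) '' pf K c) = (adjoin K (pf K c)).map φ := by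
    rw [IntermediateField.adjoin_map]
    rfl
  rw [h0]
  have h1 : (adjoin K (pf K c)).map φ ≤ φ.fieldRange := by
    rw [AlgHom.fieldRange_eq_map]
    exact IntermediateField.map_mono φ le_top
  rw [← IntermediateField.relfinrank_mul_finrank_top h1, AlgHom.fieldRange_eq_map,
    IntermediateField.relfinrank_map_map, IntermediateField.relfinrank_top_right, mul_comm]

/-- the point `P` over its own field is generic -/
theorem gen_self [DecidableEq L] (P : (Ec L).Point)
    (hP : ¬ Algebra.IsAlgebraic K (adjoin K (pf K P))) :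
    ∃ P0 : (Ec (adjoin K (pf K P))).Point, IsGen K P0 ∧
      mp (algebraMap (adjoin K (pf K P)) L) P0 = P := by
  obtain ⟨P0, h0⟩ := exists_of_mem (adjoin K (pf K P)) P (subset_adjoin K (pf K P))
  refine ⟨P0, ⟨hP, ?_⟩, h0⟩
  apply IntermediateField.map_injective (adjoin K (pf K P)).val
  rw [IntermediateField.adjoin_map]
  have h1 : (adjoin K (pf K P)).val '' pf K P0 = pf K P := by
    have := pf_mp (K := K) (algebraMap (adjoin K (pf K P)) L) P0
    rw [h0] at this
    exact this.symm
  rw [h1, ← AlgHom.fieldRange_eq_map, IntermediateField.fieldRange_val]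

end MP2619.Q5
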