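import Pool.Agent.Lib.MP_2619d0_ag.Q5.H0

/-!
Row H3: `E(K(T)) = E(K)` for `E : y² + y = x³` in characteristic two.
-/

set_option autoImplicit false

namespace MP2619.Q5

universe u

open IntermediateField MP2619.W WeierstrassCurve Polynomial

variable {K L : Type u} [Field K] [Field L] [Algebra K L]

/-- associated polynomials differ by a nonzero constant -/
private theorem H3a_assoc {p q : K[X]} (h : Associated p q) : ∃ r : K, r ≠ 0 ∧ q = C r * p := by
  obtain ⟨u, hu⟩ := h
  obtain ⟨r, hr, hru⟩ := Polynomial.isUnit_iff.1 u.isUnit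
  exact ⟨r, hr.ne_zero, by rw [hru, ← hu]; ring⟩

/-- the degree of a constant multiple -/
private theorem H3a_deg {r : K} (hr : r ≠ 0) (p : K[X]) (n : ℕ) (hp : p.natDegree = 0) :
    (C r * p ^ n).natDegree = 0 := by
  rw [Polynomial.natDegree_C_mul hr, Polynomial.natDegree_pow, hp, mul_zero]

/-- Row H3a. Polynomials. `a / b` and `c / d` reduced, `(c/d)² + c/d = (a/b)³`.
Sketch: `c (c + d) b³ = a³ d²`, `d²` and `c (c + d)` are coprime, `a³` and `b³` are coprime, so `d²` and
`b³` are associated, `c (c + d)` and `a³` too. `b² ∣ d²`, so `b ∣ d`, `d = b e`, `e²` associated to `b`, `d` to `e³`.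
If `c = 0` or `c = d` (`c + d = 0`, characteristic two) then `a = 0`, `d` is a unit... (`d² ∼ b³`, `b ∣ a³`
coprime to `a = 0`: `b` is a unit). Otherwise `c`, `c + d` are coprime with product associated to `a³`, so
associated to cubes `γ³`, `δ³` (`exists_associated_pow_of_mul_eq_pow`); `C u * γ³ + C v * e³ + C w * δ³ = 0` with
nonzero constants: `Polynomial.flt_catalan` with exponents `3, 3, 3`: `γ`, `e`, `δ` are constants. -/
theorem H3_poly (h2 : (2 : K) = 0) {a b c d : K[X]} (hab : IsCoprime a b) (hcd : IsCoprime c d)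
    (hb : b ≠ 0) (hd : d ≠ 0) (h : c * (c + d) * b ^ 3 = a ^ 3 * d ^ 2) :
    a.natDegree = 0 ∧ b.natDegree = 0 ∧ c.natDegree = 0 ∧ d.natDegree = 0 := by
  have h3 : ((3 : ℕ) : K) ≠ 0 := by
    have : ((3 : ℕ) : K) = 1 := by
      push_cast
      linear_combination h2
    rw [this]
    exact one_ne_zero
  have hc1 : IsCoprime d (c + d) := by
    have := hcd.symm.add_mul_left_right 1
    rwa [mul_one] at this
  have hc2 : IsCoprime c (c + d) := by
    have := (hcd).add_mul_left_right 1
    rwa [mul_one, add_comm d c] at this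
  rcases eq_or_ne a 0 with ha | ha
  · -- `a = 0`
    rw [ha, zero_pow three_ne_zero, zero_mul] at h
    have hbu : IsUnit b := by
      rw [ha] at hab
      exact isCoprime_zero_left.1 hab
    have hcc : c = 0 ∨ c + d = 0 := by
      rcases mul_eq_zero.1 h with h | h
      · exact mul_eq_zero.1 h
      · exact absurd h (pow_ne_zero _ hb)
    have hdu : IsUnit d := by
      rcases hcc with h | h
      · rw [h] at hcd
        exact isCoprime_zero_left.1 hcd
      · rw [h] at hc1
        exact isCoprime_zero_right.1 hc1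
    have hcu : c.natDegree = 0 := by
      rcases hcc with h | h
      · rw [h, natDegree_zero]
      · rw [eq_neg_of_add_eq_zero_left h, natDegree_neg]
        exact natDegree_eq_zero_of_isUnit hdu
    exact ⟨by rw [ha, natDegree_zero], natDegree_eq_zero_of_isUnit hbu, hcu,
      natDegree_eq_zero_of_isUnit hdu⟩
  · have hprod : c * (c + d) * b ^ 3 ≠ 0 := by
      rw [h]
      exact mul_ne_zero (pow_ne_zero _ ha) (pow_ne_zero _ hd)
    have hc0 : c ≠ 0 := left_ne_zero_of_mul (left_ne_zero_of_mul hprod)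
    have hcd0 : c + d ≠ 0 := right_ne_zero_of_mul (left_ne_zero_of_mul hprod)
    -- `d²` and `b³` are associated
    have hdb : d ^ 2 ∣ b ^ 3 := by
      have h1 : IsCoprime (d ^ 2) (c * (c + d)) :=
        (IsCoprime.mul_right hcd.symm hc1).pow_left
      exact h1.dvd_of_dvd_mul_left (h ▸ Dvd.intro_left _ rfl)
    have hbd : b ^ 3 ∣ d ^ 2 := by
      have h1 : IsCoprime (b ^ 3) (a ^ 3) := hab.symm.pow
      exact h1.dvd_of_dvd_mul_left (h ▸ Dvd.intro_left _ rfl)
    obtain ⟨r, hr0, hr⟩ := H3a_assoc (associated_of_dvd_dvd hbd hdb)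
    -- `c (c + d)` is associated to `a³`
    have hca : c * (c + d) = C r * a ^ 3 := by
      rw [hr] at h
      refine mul_right_cancel₀ (pow_ne_zero 3 hb) ?_
      rw [h]
      ring
    -- `b ∣ d`
    obtain ⟨e, he⟩ : b ∣ d := by
      refine (IsIntegrallyClosed.pow_dvd_pow_iff two_ne_zero).1 (Dvd.dvd.trans ?_ hbd)
      exact ⟨b, by ring⟩
    have he0 : e ≠ 0 := by
      rintro rfl
      rw [mul_zero] at he
      exact hd he
    have heb : e ^ 2 = C r * b := by
      refine mul_left_cancel₀ (pow_ne_zero 2 hb) ?_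
      calc b ^ 2 * e ^ 2 = d ^ 2 := by rw [he]; ring
        _ = b ^ 2 * (C r * b) := by rw [hr]; ring
    have hbe : b = C r⁻¹ * e ^ 2 := by
      rw [heb, ← mul_assoc, ← C_mul, inv_mul_cancel₀ hr0, C_1, one_mul]
    have hde : d = C r⁻¹ * e ^ 3 := by
      rw [he, hbe]
      ring
    have hri : r⁻¹ ≠ 0 := inv_ne_zero hr0
    -- `c` and `c + d` are associated to cubes
    have hac : (C r⁻¹ * c) * (c + d) = a ^ 3 := by
      rw [mul_assoc, hca, ← mul_assoc, ← C_mul, inv_mul_cancel₀ hr0, C_1, one_mul]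
    have hcopr : IsCoprime (C r⁻¹ * c) (c + d) :=
      (isCoprime_mul_unit_left_left (Polynomial.isUnit_C.2 hri.isUnit) _ _).2 hc2
    obtain ⟨γ, hγ⟩ := exists_associated_pow_of_mul_eq_pow' hcopr hac
    obtain ⟨s, hs0, hs⟩ := H3a_assoc hγ
    have hac' : (c + d) * (C r⁻¹ * c) = a ^ 3 := by rw [mul_comm, hac]
    obtain ⟨δ, hδ⟩ := exists_associated_pow_of_mul_eq_pow' hcopr.symm hac'
    obtain ⟨t, ht0, ht⟩ := H3a_assoc hδ
    have hcγ : c = C (r * s) * γ ^ 3 := by
      calc c = C r * (C r⁻¹ * c) := by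
            rw [← mul_assoc, ← C_mul, mul_inv_cancel₀ hr0, C_1, one_mul]
        _ = C (r * s) * γ ^ 3 := by rw [hs, C_mul, mul_assoc]
    have hrs : r * s ≠ 0 := mul_ne_zero hr0 hs0
    have hγ0 : γ ≠ 0 := by
      rintro rfl
      rw [zero_pow three_ne_zero, mul_zero] at hcγ
      exact hc0 hcγ
    have hδ0 : δ ≠ 0 := by
      rintro rfl
      rw [zero_pow three_ne_zero, mul_zero] at ht
      exact hcd0 ht
    have hγe : IsCoprime γ e := by
      have h1 : γ ∣ c := by
        rw [hcγ]
        exact Dvd.dvd.mul_left (dvd_pow_self γ three_ne_zero) _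
      have h2 : e ∣ d := by
        rw [he]
        exact Dvd.intro_left _ rfl
      exact (hcd.of_isCoprime_of_dvd_left h1).of_isCoprime_of_dvd_right h2
    have heq : C (r * s) * γ ^ 3 + C r⁻¹ * e ^ 3 + C (-t) * δ ^ 3 = 0 := by
      rw [← hcγ, ← hde, C_neg, neg_mul, ← ht]
      ring
    obtain ⟨g1, g2, g3⟩ := Polynomial.flt_catalan (p := 3) (q := 3) (r := 3) three_ne_zero
      three_ne_zero three_ne_zero (by norm_num) h3 h3 h3 hγ0 he0 hδ0 hγe hrs hri
      (neg_ne_zero.2 ht0) heq
    have d1 : c.natDegree = 0 := by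
      rw [hcγ]
      exact H3a_deg hrs γ 3 g1
    have d2 : d.natDegree = 0 := by
      rw [hde]
      exact H3a_deg hri e 3 g2
    have d3 : b.natDegree = 0 := by
      rw [hbe]
      exact H3a_deg hri e 2 g2
    have d4 : (c + d).natDegree = 0 := by
      rw [ht]
      exact H3a_deg ht0 δ 3 g3
    have d5 : (a ^ 3).natDegree = 0 := by
      rw [← hac, mul_assoc, Polynomial.natDegree_C_mul hri, Polynomial.natDegree_mul hc0 hcd0,
        d1, d4]
    refine ⟨?_, d3, d1, d2⟩
    rw [Polynomial.natDegree_pow] at d5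
    omega

end MP2619.Q5
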