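import Pool.Agent.Lib.MP_2619d0_ag.Q5.H3a

/-!
Row H3: `E(K(T)) = E(K)` for `E : y² + y = x³` in characteristic two.
-/

set_option autoImplicit false

namespace MP2619.Q5

universe u

open IntermediateField MP2619.W WeierstrassCurve Polynomial

variable {K L : Type u} [Field K] [Field L] [Algebra K L]

private theorem H3b_frac {T : L} {z : L} (hz : z ∈ adjoin K ({T} : Set L)) :
    ∃ a b : K[X], b ≠ 0 ∧ IsCoprime a b ∧ aeval T b ≠ 0 ∧ z * aeval T b = aeval T a := by
  classical
  obtain ⟨r, s, hrs⟩ := (mem_adjoin_simple_iff K z).1 hz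
  by_cases hs : aeval T s = 0
  · refine ⟨0, 1, one_ne_zero, isCoprime_zero_left.2 isUnit_one, by simp, ?_⟩
    rw [hrs, hs, div_zero]
    simp
  · have hs0 : s ≠ 0 := by
      rintro rfl
      exact hs (map_zero _)
    letI : GCDMonoid K[X] := EuclideanDomain.gcdMonoid K[X]
    have hg : GCDMonoid.gcd r s ≠ 0 := gcd_ne_zero_of_right hs0
    have hr' : GCDMonoid.gcd r s * (r / GCDMonoid.gcd r s) = r :=
      EuclideanDomain.mul_div_cancel' hg (GCDMonoid.gcd_dvd_left r s)
    have hs' : GCDMonoid.gcd r s * (s / GCDMonoid.gcd r s) = s :=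
      EuclideanDomain.mul_div_cancel' hg (GCDMonoid.gcd_dvd_right r s)
    have hcop := isCoprime_div_gcd_div_gcd (p := r) hs0
    generalize GCDMonoid.gcd r s = g at *
    generalize r / g = a at *
    generalize s / g = b at *
    have hgb : aeval T g * aeval T b ≠ 0 := by
      rw [← map_mul, hs']
      exact hs
    have hb : aeval T b ≠ 0 := right_ne_zero_of_mul hgb
    refine ⟨a, b, ?_, hcop, hb, ?_⟩
    · rintro rfl
      exact hb (map_zero _)
    · rw [hrs, ← hr', ← hs', map_mul, map_mul, mul_div_mul_left _ _ (left_ne_zero_of_mul hgb),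
        div_mul_cancel₀ _ hb]

private theorem H3b_const {T z : L} {a b : K[X]} (ha : a.natDegree = 0) (hb : b.natDegree = 0)
    (hb0 : aeval T b ≠ 0) (h : z * aeval T b = aeval T a) : ∃ z0 : K, algebraMap K L z0 = z := by
  obtain ⟨a0, rfl⟩ := natDegree_eq_zero.1 ha
  obtain ⟨b0, rfl⟩ := natDegree_eq_zero.1 hb
  rw [aeval_C] at hb0 h
  rw [aeval_C] at h
  refine ⟨a0 / b0, ?_⟩
  rw [map_div₀, ← h, mul_div_assoc, div_self hb0, mul_one]

/-- Row H3b. `E(K(T)) = E(K)`. The elements of `K(T)` are quotients of coprime polynomials in `T`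
(`mem_adjoin_simple_iff`, `IsCoprime` after dividing by the gcd, or `RatFunc`); compare
`NP/Zdesc.lean` (`Z_adjoin`) and `NP/E1.lean`. -/
theorem pts_const [DecidableEq K] [DecidableEq L] (h2 : (2 : K) = 0) (T : L)
    (hT : Transcendental K T) (P : (Ec L).Point) (hP : pf K P ⊆ adjoin K ({T} : Set L)) :
    ∃ P0 : (Ec K).Point, P = bs P0 := by
  have h2L : (2 : L) = 0 := two_up h2
  have hinj : Function.Injective (aeval T : K[X] →ₐ[K] L) := transcendental_iff_injective.1 hT
  rcases P with _ | ⟨x, y, h⟩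
  · exact ⟨0, rfl⟩
  · have hx : x ∈ adjoin K ({T} : Set L) := hP (by simp [pf])
    have hy : y ∈ adjoin K ({T} : Set L) := hP (by simp [pf])
    obtain ⟨a, b, hb, hab, hb', hxab⟩ := H3b_frac hx
    obtain ⟨c, d, hd, hcd, hd', hycd⟩ := H3b_frac hy
    have hE : y ^ 2 + y = x ^ 3 := (ec_nonsingular h2L x y).1 h
    have key : c * (c + d) * b ^ 3 = a ^ 3 * d ^ 2 := by
      apply hinj
      simp only [map_mul, map_add, map_pow]
      rw [← hxab, ← hycd]
      linear_combination (aeval T d) ^ 2 * (aeval T b) ^ 3 * hE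
    obtain ⟨ha0, hb0, hc0, hd0⟩ := H3_poly h2 hab hcd hb hd key
    obtain ⟨x0, rfl⟩ := H3b_const ha0 hb0 hb' hxab
    obtain ⟨y0, rfl⟩ := H3b_const hc0 hd0 hd' hycd
    have hE0 : y0 ^ 2 + y0 = x0 ^ 3 := by
      apply (algebraMap K L).injective
      rw [map_add, map_pow, map_pow]
      exact hE
    exact ⟨Affine.Point.some x0 y0 ((ec_nonsingular h2 x0 y0).2 hE0), rfl⟩

end MP2619.Q5
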