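import Pool.Agent.Lib.MP_2619d0_ag.Q5.H0

/-!
Row H4: the fixed field of `(x, y) ↦ (w x, y)` is `K(y)`.
-/

set_option autoImplicit false

namespace MP2619.Q5

universe u

open IntermediateField MP2619.W WeierstrassCurve

variable {K L : Type u} [Field K] [Field L] [Algebra K L]


private theorem H4_fix (σ : L →ₐ[K] L) {S : Set L} (h : ∀ w ∈ S, σ w = w) :
    ∀ z ∈ adjoin K S, σ z = z := by
  intro z hz
  induction hz using adjoin_induction with
  | mem x hx => exact h x hx
  | algebraMap x => exact σ.commutes x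
  | add x y _ _ h1 h2 => rw [map_add, h1, h2]
  | inv x _ h1 => rw [map_inv₀, h1]
  | mul x y _ _ h1 h2 => rw [map_mul, h1, h2]

/-- `F + F x + F x²` is a field if `x³ = v` -/
private theorem H4_span (F : IntermediateField K L) (x v : L) (hv : v ∈ F)
    (hx : x ^ 3 = v) (htop : F ⊔ adjoin K {x} = ⊤) (z : L) :
    ∃ a ∈ F, ∃ b ∈ F, ∃ c ∈ F, z = a + b * x + c * x ^ 2 := by
  have hmem : z ∈ adjoin F {x} := by
    have h1 : z ∈ restrictScalars K (adjoin F {x}) := by
      rw [restrictScalars_adjoin_eq_sup, htop]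
      exact mem_top
    exact h1
  have halg : IsAlgebraic F x := by
    refine IsIntegral.isAlgebraic ⟨Polynomial.X ^ 3 - Polynomial.C ⟨v, hv⟩, ?_, ?_⟩
    · monicity!
    · simp only [Polynomial.eval₂_sub, Polynomial.eval₂_pow, Polynomial.eval₂_X,
        Polynomial.eval₂_C]
      change x ^ 3 - v = 0
      rw [hx, sub_self]
  rw [← mem_toSubalgebra, adjoin_simple_toSubalgebra_of_isAlgebraic halg] at hmem
  induction hmem using Algebra.adjoin_induction with
  | mem y hy =>
    rw [Set.mem_singleton_iff] at hy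
    exact ⟨0, F.zero_mem, 1, F.one_mem, 0, F.zero_mem, by rw [hy]; ring⟩
  | algebraMap r =>
    exact ⟨r, r.2, 0, F.zero_mem, 0, F.zero_mem, by
      rw [zero_mul, zero_mul, add_zero, add_zero]; rfl⟩
  | add y w _ _ h1 h2 =>
    obtain ⟨a, ha, b, hb, c, hc, rfl⟩ := h1
    obtain ⟨a', ha', b', hb', c', hc', rfl⟩ := h2
    exact ⟨a + a', F.add_mem ha ha', b + b', F.add_mem hb hb', c + c', F.add_mem hc hc', by ring⟩
  | mul y w _ _ h1 h2 =>
    obtain ⟨a, ha, b, hb, c, hc, rfl⟩ := h1
    obtain ⟨a', ha', b', hb', c', hc', rfl⟩ := h2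
    refine ⟨a * a' + (b * c' + c * b') * v,
      F.add_mem (F.mul_mem ha ha')
        (F.mul_mem (F.add_mem (F.mul_mem hb hc') (F.mul_mem hc hb')) hv),
      a * b' + b * a' + c * c' * v,
      F.add_mem (F.add_mem (F.mul_mem ha hb') (F.mul_mem hb ha'))
        (F.mul_mem (F.mul_mem hc hc') hv),
      a * c' + b * b' + c * a',
      F.add_mem (F.add_mem (F.mul_mem ha hc') (F.mul_mem hb hb')) (F.mul_mem hc ha'), ?_⟩
    linear_combination (b * c' + c * b' + c * c' * x) * hx

/-- Row H4. Every `z` in `L = K(x, y)` is `a + b x + c x²` with `a, b, c ∈ K(y)` (`x³ = y² + y`; as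
`quad_span` in `NP/E3.lean`: `L = K(y)(x)` is finite over `K(y)` with power basis, or: the set of these
elements is a subalgebra which is algebraic over the field `K(y)`, so a field). Then
`z = 3 z = z + σ z + σ² z = 3 a + b x (1 + w + w²) + c x² (1 + w² + w⁴) = a`. -/
theorem fix_w (h2 : (2 : K) = 0) (w : K) (hw : w ^ 2 + w + 1 = 0) {x y : L}
    (h : y ^ 2 + y = x ^ 3) (htop : adjoin K ({x, y} : Set L) = ⊤) (σ : L →ₐ[K] L)
    (hx : σ x = algebraMap K L w * x) (hy : σ y = y) {z : L} (hz : σ z = z) :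
    z ∈ adjoin K ({y} : Set L) := by
  have h2L : (2 : L) = 0 := by
    have h := congrArg (algebraMap K L) h2
    rwa [map_ofNat, map_zero] at h
  have hyF : y ∈ adjoin K ({y} : Set L) := mem_adjoin_simple_self K y
  have hv : y ^ 2 + y ∈ adjoin K ({y} : Set L) := add_mem (pow_mem hyF 2) hyF
  have htop' : adjoin K ({y} : Set L) ⊔ adjoin K {x} = ⊤ := by
    rw [← adjoin_union, ← htop]
    congr 1
    ext t
    simp only [Set.mem_union, Set.mem_singleton_iff, Set.mem_insert_iff]
    tauto
  have hfix : ∀ t ∈ adjoin K ({y} : Set L), σ t = t := by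
    refine H4_fix σ ?_
    intro t ht
    rw [Set.mem_singleton_iff] at ht
    rw [ht, hy]
  obtain ⟨a, ha, b, hb, c, hc, rfl⟩ := H4_span _ x (y ^ 2 + y) hv h.symm htop' z
  have hw' : (algebraMap K L w) ^ 2 + algebraMap K L w + 1 = 0 := by
    have h := congrArg (algebraMap K L) hw
    rwa [map_add, map_add, map_pow, map_one, map_zero] at h
  have hσw : σ (algebraMap K L w) = algebraMap K L w := σ.commutes w
  generalize algebraMap K L w = w' at hx hw' hσw
  have e1 : a + b * (w' * x) + c * (w' * x) ^ 2 = a + b * x + c * x ^ 2 := by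
    have h3 := hz
    rw [map_add, map_add, map_mul, map_mul, map_pow, hfix a ha, hfix b hb, hfix c hc, hx] at h3
    exact h3
  have e2 : a + b * (w' * (w' * x)) + c * (w' * (w' * x)) ^ 2 = a + b * (w' * x) + c * (w' * x) ^ 2 := by
    have h3 := congrArg σ e1
    simp only [map_add, map_mul, map_pow, hfix a ha, hfix b hb, hfix c hc, hx, hσw] at h3
    exact h3
  have e3 : a + b * x + c * x ^ 2 = a := by
    have h3 : (a + b * x + c * x ^ 2) * 3 = 3 * a := by
      linear_combination -2 * e1 - e2 + (b * x + c * x ^ 2 * (w' ^ 2 - w' + 1)) * hw'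
    linear_combination h3 - (b * x + c * x ^ 2) * h2L
  rw [e3]
  exact ha

/-- Row H4b. `y` is transcendental if `x` is -/
theorem y_trans {x y : L} (h : y ^ 2 + y = x ^ 3) (hx : Transcendental K x) :
    Transcendental K y := by
  intro hy
  refine hx (IsAlgebraic.of_pow (n := 3) (by norm_num) ?_)
  rw [← h]
  exact (hy.pow 2).add hy

end MP2619.Q5
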