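import Pool.Agent.Lib.MP_2619d0_ag.Q5.H0

/-!
Row H5: `b² + b = (t² + t)² h³` in `K(t)`, characteristic two: `b` and `h` are in `K(t²)`
(Mason-Stothers).
-/

set_option autoImplicit false

namespace MP2619.Q5

universe u

open IntermediateField Polynomial UniqueFactorizationMonoid

variable {K L : Type u} [Field K] [Field L] [Algebra K L]

private theorem H5a_pow {K : Type u} [Field K] (h2 : (2 : K) = 0) {P q m π : K[X]} (hP : P ≠ 0) (hq : q ≠ 0)
    (h : P * q ^ 3 = (X ^ 2 + X) ^ 2 * m ^ 3) (hπ : Prime π) (hd : π ∣ P) :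
    π ^ 3 ∣ P * (X ^ 2 + X) := by
  have hU : (X ^ 2 + X : K[X]) ≠ 0 := by
    intro h0
    have := congrArg (fun f : K[X] => f.coeff 1) h0
    simp [coeff_X_pow] at this
  have hm : m ≠ 0 := by
    rintro rfl
    rw [zero_pow (by norm_num), mul_zero] at h
    exact mul_ne_zero hP (pow_ne_zero _ hq) h
  have hfin : ∀ x : K[X], x ≠ 0 → FiniteMultiplicity π x := fun x hx =>
    FiniteMultiplicity.of_not_isUnit hπ.not_isUnit hx
  have e1 : multiplicity π (P * q ^ 3) = multiplicity π P + 3 * multiplicity π q := by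
    rw [multiplicity_mul hπ (hfin _ (mul_ne_zero hP (pow_ne_zero _ hq))),
      FiniteMultiplicity.multiplicity_pow hπ (hfin _ hq)]
  have e2 : multiplicity π ((X ^ 2 + X) ^ 2 * m ^ 3) =
      2 * multiplicity π (X ^ 2 + X : K[X]) + 3 * multiplicity π m := by
    rw [multiplicity_mul hπ (hfin _ (mul_ne_zero (pow_ne_zero _ hU) (pow_ne_zero _ hm))),
      FiniteMultiplicity.multiplicity_pow hπ (hfin _ hU),
      FiniteMultiplicity.multiplicity_pow hπ (hfin _ hm)]
  have e3 : multiplicity π (X ^ 2 + X : K[X]) ≤ 1 := by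
    have hs : Squarefree (X ^ 2 + X : K[X]) := by
      apply Polynomial.Separable.squarefree
      have hder : derivative (X ^ 2 + X : K[X]) = 1 := by
        rw [derivative_add, derivative_X_pow, derivative_X]
        have : (C ((2 : ℕ) : K) : K[X]) = 0 := by
          push_cast
          rw [h2, C_0]
        rw [this, zero_mul, zero_add]
      unfold Polynomial.Separable
      rw [hder]
      exact isCoprime_one_right
    by_contra hcon
    have h3 : 2 ≤ multiplicity π (X ^ 2 + X : K[X]) := by omega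
    have h4 : π ^ 2 ∣ (X ^ 2 + X : K[X]) := pow_dvd_of_le_multiplicity h3
    rw [sq π] at h4
    exact hπ.not_isUnit (hs π h4)
  have e4 : 1 ≤ multiplicity π P :=
    (hfin P hP).le_multiplicity_of_pow_dvd (by rwa [pow_one])
  have e5 : multiplicity π P + 3 * multiplicity π q =
      2 * multiplicity π (X ^ 2 + X : K[X]) + 3 * multiplicity π m := by
    rw [← e1, h, e2]
  apply pow_dvd_of_le_multiplicity
  rw [multiplicity_mul hπ (hfin _ (mul_ne_zero hP hU))]
  omega

/-- Row H5a. `R` = radical of `A B (A + B)`. From `A B (A+B) q³ = (X² + X)² m³`: `R³` divides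
`A B (A+B) (X² + X)`: for an irreducible `π` dividing `A B (A+B)` the multiplicity of `π` in `A B (A+B)` is
`≡ 0 mod 3`, so `≥ 3`, if `π ∤ X² + X`, and `≡ 2 mod 3`, so `≥ 2`, if `π ∣ X² + X` (`X`, `X + 1`, multiplicity one).
So `3 deg R ≤ deg A + deg B + deg (A + B) + 2`. -/
theorem rad_bound [DecidableEq K] (h2 : (2 : K) = 0) {A B q m : K[X]} (hA : A ≠ 0) (hB : B ≠ 0)
    (hAB : A + B ≠ 0) (hq : q ≠ 0)
    (h : A * B * (A + B) * q ^ 3 = (X ^ 2 + X) ^ 2 * m ^ 3) :
    3 * (radical (A * B * (A + B))).natDegree ≤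
      A.natDegree + B.natDegree + (A + B).natDegree + 2 := by
  have hP : A * B * (A + B) ≠ 0 := mul_ne_zero (mul_ne_zero hA hB) hAB
  have hU : (X ^ 2 + X : K[X]) ≠ 0 := by
    intro h0
    have := congrArg (fun f : K[X] => f.coeff 1) h0
    simp [coeff_X_pow] at this
  have key : radical (A * B * (A + B)) ^ 3 ∣ A * B * (A + B) * (X ^ 2 + X) := by
    unfold radical
    rw [← Finset.prod_pow]
    refine Finset.prod_dvd_of_coprime ?_ ?_
    · intro x hx y hy hxy
      exact (pairwise_primeFactors_isRelPrime hx hy hxy).isCoprime.pow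
    · intro x hx
      rw [mem_primeFactors] at hx
      exact H5a_pow h2 hP hq h (prime_of_normalized_factor x hx) (dvd_of_mem_normalizedFactors hx)
  have h3 := natDegree_le_of_dvd key (mul_ne_zero hP hU)
  rw [natDegree_pow, natDegree_mul hP hU, natDegree_mul (mul_ne_zero hA hB) hAB,
    natDegree_mul hA hB] at h3
  have h4 : (X ^ 2 + X : K[X]).natDegree ≤ 2 := by compute_degree
  omega

end MP2619.Q5
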