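import Pool.Agent.Lib.MP_2619d0_ag.Q5.H5a

/-!
Row H5: `b² + b = (t² + t)² h³` in `K(t)`, characteristic two: `b` and `h` are in `K(t²)`
(Mason-Stothers).
-/

set_option autoImplicit false

namespace MP2619.Q5

universe u

open IntermediateField Polynomial UniqueFactorizationMonoid

variable {K L : Type u} [Field K] [Field L] [Algebra K L]

/-- Row H5b. `Polynomial.abc` for `A`, `B`, `A + B` (`A + B + (A + B) = 0` in characteristic two): if not
all derivatives vanish, every degree is `≤ deg R - 1`, so by `rad_bound` `3 deg R ≤ 3 (deg R - 1) + 2`,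
impossible. -/
theorem ms_poly (h2 : (2 : K) = 0) {A B q m : K[X]} (hA : A ≠ 0) (hB : B ≠ 0)
    (hAB : A + B ≠ 0) (hq : q ≠ 0) (hco : IsCoprime A B)
    (h : A * B * (A + B) * q ^ 3 = (X ^ 2 + X) ^ 2 * m ^ 3) :
    derivative A = 0 ∧ derivative B = 0 := by
  classical
  have h2' : (2 : K[X]) = 0 := by
    rw [← map_ofNat (C : K →+* K[X]) 2]
    show C (2 : K) = 0
    rw [h2, map_zero]
  have hs : A + B + (A + B) = 0 := by
    rw [← two_mul, h2', zero_mul]
  rcases Polynomial.abc hA hB hAB hco hs with ⟨e1, e2, e3⟩ | ⟨e1, e2, _⟩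
  · exfalso
    have e4 := rad_bound h2 hA hB hAB hq h
    omega
  · exact ⟨e1, e2⟩

end MP2619.Q5
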