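import Pool.Agent.Lib.MP_2619d0_ag.Q5.H5b

/-!
Row H5: `b² + b = (t² + t)² h³` in `K(t)`, characteristic two: `b` and `h` are in `K(t²)`
(Mason-Stothers).
-/

set_option autoImplicit false

namespace MP2619.Q5

universe u

open IntermediateField Polynomial UniqueFactorizationMonoid

variable {K L : Type u} [Field K] [Field L] [Algebra K L]

/-- a reduced fraction -/
private theorem H5c_frac (t : L) {x : L} (hx : x ∈ adjoin K ({t} : Set L)) :
    ∃ A B : K[X], B ≠ 0 ∧ IsCoprime A B ∧ x = aeval t A / aeval t B := by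
  classical
  obtain ⟨r, s, hrs⟩ := (mem_adjoin_simple_iff K x).1 hx
  by_cases hs : s = 0
  · refine ⟨0, 1, one_ne_zero, isCoprime_one_right, ?_⟩
    rw [hrs, hs]
    simp
  · obtain ⟨d, u, v, hd0, ⟨a, ha⟩, ⟨b, hb⟩, huv⟩ : ∃ d u v : K[X], d ≠ 0 ∧ d ∣ r ∧ d ∣ s ∧
        d = r * u + s * v :=
      ⟨EuclideanDomain.gcd r s, EuclideanDomain.gcdA r s, EuclideanDomain.gcdB r s,
        fun h0 => hs (EuclideanDomain.gcd_eq_zero_iff.1 h0).2, EuclideanDomain.gcd_dvd_left r s,
        EuclideanDomain.gcd_dvd_right r s, EuclideanDomain.gcd_eq_gcd_ab r s⟩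
    have hb0 : b ≠ 0 := by
      rintro rfl
      rw [mul_zero] at hb
      exact hs hb
    have hco : IsCoprime a b := by
      refine ⟨u, v, mul_left_cancel₀ hd0 ?_⟩
      rw [ha, hb] at huv
      linear_combination -huv
    by_cases hgt : aeval t d = 0
    · refine ⟨0, 1, one_ne_zero, isCoprime_one_right, ?_⟩
      rw [hrs, ha, map_mul, hgt]
      simp
    · refine ⟨a, b, hb0, hco, ?_⟩
      rw [hrs, ha, hb, map_mul, map_mul, mul_div_mul_left _ _ hgt]

/-- polynomials with derivative zero -/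
private theorem H5c_der (h2 : (2 : K) = 0) (t : L) {A : K[X]} (hA : derivative A = 0) :
    aeval t A ∈ adjoin K ({t ^ 2} : Set L) := by
  have hch : CharP K 2 := CharTwo.of_one_ne_zero_of_two_eq_zero one_ne_zero h2
  rw [← expand_contract 2 hA two_ne_zero, expand_aeval]
  exact (mem_adjoin_simple_iff K _).2 ⟨contract 2 A, 1, by simp⟩

/-- Row H5c. `b = A/B` reduced, `h = p/q`: `A B (A+B) q³ = (X²+X)² (p B)³`. If `A = 0` or `A + B = 0`, `b` is
`0` or `1` and `h = 0`. Otherwise `ms_poly`; a polynomial with derivative zero is a polynomial in `X²`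
(`expand_contract`), so `b ∈ K(t²)`. `h³ = (b² + b)/(t⁴ + t²)` and `h² = p(t)²/q(t)²` are in `K(t²)`
(`p(t)²` is a polynomial in `t²`), so `h` is. -/
theorem ms_sq (h2 : (2 : K) = 0) (t : L) (ht : Transcendental K t) (b h : L)
    (hb : b ∈ adjoin K ({t} : Set L)) (hh : h ∈ adjoin K ({t} : Set L))
    (e : b ^ 2 + b = (t ^ 2 + t) ^ 2 * h ^ 3) :
    b ∈ adjoin K ({t ^ 2} : Set L) ∧ h ∈ adjoin K ({t ^ 2} : Set L) := by
  have h2L : (2 : L) = 0 := by
    have := congrArg (algebraMap K L) h2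
    rwa [map_ofNat, map_zero] at this
  have hinj : ∀ P : K[X], aeval t P = 0 → P = 0 := fun P hP =>
    (transcendental_iff.1 ht) P hP
  have htt : t ^ 2 + t ≠ 0 := by
    intro h0
    have h1 : aeval t (X ^ 2 + X : K[X]) = 0 := by simpa using h0
    have h3 := hinj _ h1
    have h4 := congrArg (fun P : K[X] => P.coeff 1) h3
    simp [coeff_X_pow] at h4
  obtain ⟨A, B, hB, hco, hbAB⟩ := H5c_frac t hb
  obtain ⟨p, q, hq, -, hpq⟩ := H5c_frac t hh
  have hBt : aeval t B ≠ 0 := fun h0 => hB (hinj B h0)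
  have hqt : aeval t q ≠ 0 := fun h0 => hq (hinj q h0)
  have hbmem : b ∈ adjoin K ({t ^ 2} : Set L) := by
    by_cases hA : A = 0
    · rw [hbAB, hA, map_zero, zero_div]
      exact zero_mem _
    by_cases hAB : A + B = 0
    · have h3 : aeval t A = - aeval t B := by
        rw [eq_neg_iff_add_eq_zero, ← map_add, hAB, map_zero]
      rw [hbAB, h3, neg_div, div_self hBt]
      exact neg_mem (one_mem _)
    have hmain : A * B * (A + B) * q ^ 3 = (X ^ 2 + X) ^ 2 * (p * B) ^ 3 := by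
      refine sub_eq_zero.1 (hinj _ ?_)
      rw [map_sub, sub_eq_zero]
      simp only [map_mul, map_add, map_pow, aeval_X]
      rw [hbAB, hpq] at e
      field_simp at e
      linear_combination (aeval t B) * e
    obtain ⟨hA', hB'⟩ := ms_poly h2 hA hB hAB hq hco hmain
    rw [hbAB]
    exact div_mem (H5c_der h2 t hA') (H5c_der h2 t hB')
  refine ⟨hbmem, ?_⟩
  by_cases hh0 : h = 0
  · rw [hh0]
    exact zero_mem _
  have hsq : ∀ P : K[X], (aeval t P) ^ 2 ∈ adjoin K ({t ^ 2} : Set L) := by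
    intro P
    rw [← map_pow]
    refine H5c_der h2 t ?_
    rw [derivative_pow]
    have : (C ((2 : ℕ) : K) : K[X]) = 0 := by
      rw [Nat.cast_ofNat, h2, C_0]
    rw [this]
    ring
  have hh2 : h ^ 2 ∈ adjoin K ({t ^ 2} : Set L) := by
    rw [hpq, div_pow]
    exact div_mem (hsq p) (hsq q)
  have ht2 : t ^ 2 ∈ adjoin K ({t ^ 2} : Set L) := mem_adjoin_simple_self K _
  have htt2 : (t ^ 2 + t) ^ 2 = (t ^ 2) ^ 2 + t ^ 2 := by
    linear_combination (t ^ 3) * h2L
  have hh3 : h ^ 3 ∈ adjoin K ({t ^ 2} : Set L) := by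
    have h3 : h ^ 3 = (b ^ 2 + b) / ((t ^ 2) ^ 2 + t ^ 2) := by
      rw [← htt2, e, mul_div_cancel_left₀ _ (pow_ne_zero 2 htt)]
    rw [h3]
    exact div_mem (add_mem (pow_mem hbmem 2) hbmem) (add_mem (pow_mem ht2 2) ht2)
  have h4 : h = h ^ 3 / h ^ 2 := by
    field_simp
  rw [h4]
  exact div_mem hh3 hh2

end MP2619.Q5
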