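import Pool.Agent.Lib.MP_2619d0_ag.Q5.H2
import Pool.Agent.Lib.MP_2619d0_ag.Q5.H4
import Pool.Agent.Lib.MP_2619d0_ag.Q5.H5c

/-!
Row H6: `<Y, Fr c>` is even for the generic point `Y` of `K(E)`.
-/

set_option autoImplicit false

namespace MP2619.Q5

universe u

open IntermediateField MP2619.W WeierstrassCurve

variable {K L : Type u} [Field K] [Field L] [Algebra K L]

/-- Row H6b. `Y = (x, y)`, `c = (a, b)` with `σ c = w² c`: `σ b = b`, `σ (a / x²) = a / x²`, so `b`,
`h = a / x²` are in `K(y)` (`fix_w`), `b² + b = (y² + y)² h³`, and `ms_sq`: `b`, `h ∈ K(y²)`, so `a`, `b` are in every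
intermediate field which contains all squares. -/
theorem anti_sub [DecidableEq L] (h2 : (2 : K) = 0) (w : K)
    (hw : w ^ 2 + w + 1 = 0) (h2L : (2 : L) = 0)
    (hw' : algebraMap K L w ^ 2 + algebraMap K L w + 1 = 0) (Y : (Ec L).Point) (hY : IsGen K Y)
    (σ : L →ₐ[K] L) (hσ : mp (σ : L →+* L) Y = wm h2L (algebraMap K L w) hw' Y)
    (c : (Ec L).Point) (hc : mp (σ : L →+* L) c =
      wm h2L (algebraMap K L w) hw' (wm h2L (algebraMap K L w) hw' c))
    (S : IntermediateField K L) (hS : ∀ z : L, z ^ 2 ∈ S) : pf K c ⊆ S := by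
  obtain ⟨x, y, hxy, rfl, hx, htop⟩ := gen_some h2 Y hY
  rw [mp_some, wm_some] at hσ
  simp only [Affine.Point.some.injEq] at hσ
  obtain ⟨hσx, hσy⟩ := hσ
  have hσx' : σ x = algebraMap K L w * x := hσx
  have hσy' : σ y = y := hσy
  have hcurve : y ^ 2 + y = x ^ 3 := (ec_nonsingular h2L x y).1 hxy
  have hw0 : algebraMap K L w ≠ 0 := H0_w_ne _ hw'
  have hx0 : x ≠ 0 := by
    rintro rfl
    exact hx isAlgebraic_zero
  rcases c with _ | ⟨a, b, hab⟩
  · exact Set.empty_subset _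
  rw [mp_some, wm_some, wm_some] at hc
  simp only [Affine.Point.some.injEq] at hc
  obtain ⟨hca, hcb⟩ := hc
  have hσa : σ a = algebraMap K L w * (algebraMap K L w * a) := hca
  have hσb : σ b = b := hcb
  have hab' : b ^ 2 + b = a ^ 3 := (ec_nonsingular h2L a b).1 hab
  have hσh : σ (a / x ^ 2) = a / x ^ 2 := by
    rw [map_div₀, map_pow, hσa, hσx']
    field_simp
  have hb : b ∈ adjoin K ({y} : Set L) := fix_w h2 w hw hcurve htop σ hσx' hσy' hσb
  have hh : a / x ^ 2 ∈ adjoin K ({y} : Set L) := fix_w h2 w hw hcurve htop σ hσx' hσy' hσh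
  have hyt : Transcendental K y := y_trans hcurve hx
  have e : b ^ 2 + b = (y ^ 2 + y) ^ 2 * (a / x ^ 2) ^ 3 := by
    rw [hab', hcurve]
    field_simp
  obtain ⟨hb2, hh2⟩ := ms_sq h2 y hyt b (a / x ^ 2) hb hh e
  have hle : adjoin K ({y ^ 2} : Set L) ≤ S := by
    rw [adjoin_le_iff]
    rintro z rfl
    exact hS y
  have hbS : b ∈ S := hle hb2
  have haS : a ∈ S := by
    have h1 : a = a / x ^ 2 * x ^ 2 := by field_simp
    rw [h1]
    exact mul_mem (hle hh2) (hS x)
  rintro z (rfl | rfl)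
  · exact haS
  · exact hbS

end MP2619.Q5
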