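import Pool.Agent.Lib.MP_2619d0_ag.Q5.H2

/-!
Row H6: `<Y, Fr c>` is even for the generic point `Y` of `K(E)`.
-/

set_option autoImplicit false

namespace MP2619.Q5

universe u

open IntermediateField MP2619.W WeierstrassCurve

variable {K L : Type u} [Field K] [Field L] [Algebra K L]

/-- Row H6c. `S = adjoin K (pf K (Fr Y)) = K(x², y²)` (`two_up`, `pf_Fr`, `gen_some`): the set of the `z` with
`z² ∈ S` is a subfield containing `K`, `x`, `y`, so everything. `S ≠ ⊤`: `pdeg K (Fr Y) = 2 pdeg K Y = 2` (`pdeg_Fr`), and it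
would be `1`. -/
theorem exists_sq_field [DecidableEq L] (h2 : (2 : K) = 0) (Y : (Ec L).Point)
    (hY : IsGen K Y) : ∃ S : IntermediateField K L, (∀ z : L, z ^ 2 ∈ S) ∧ S ≠ ⊤ := by
  have h2L : (2 : L) = 0 := by
    rw [← map_ofNat (algebraMap K L), h2, map_zero]
  have hdeg := pdeg_Fr (K := K) h2L hY.nalg Y
  have htop : pdeg K Y = 1 := by
    rw [pdeg, hY.top]
    exact IntermediateField.finrank_top
  rw [htop] at hdeg
  obtain ⟨x, y, h, hP, -, hxy⟩ := gen_some h2 Y hY
  have hpf : pf K (Fr h2L Y) = {x ^ 2, y ^ 2} := by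
    rw [hP, Fr_some]
    rfl
  refine ⟨adjoin K (pf K (Fr h2L Y)), ?_, ?_⟩
  · intro z
    have hz : z ∈ adjoin K ({x, y} : Set L) := by
      rw [hxy]
      trivial
    induction hz using IntermediateField.adjoin_induction with
    | mem u hu =>
      apply subset_adjoin
      rw [hpf]
      rcases hu with hu | hu
      · left
        rw [hu]
      · right
        rw [Set.mem_singleton_iff] at hu
        rw [hu]
        rfl
    | algebraMap a =>
      rw [← map_pow]
      exact IntermediateField.algebraMap_mem _ _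
    | add a b _ _ ha hb =>
      have h3 : (a + b) ^ 2 = a ^ 2 + b ^ 2 := by linear_combination (a * b) * h2L
      rw [h3]
      exact add_mem ha hb
    | inv a _ ha =>
      rw [inv_pow]
      exact inv_mem ha
    | mul a b _ _ ha hb =>
      rw [mul_pow]
      exact mul_mem ha hb
  · intro htop'
    have h3 : pdeg K (Fr h2L Y) = 1 := by
      rw [pdeg, htop']
      exact IntermediateField.finrank_top
    omega

end MP2619.Q5
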