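import Pool.Agent.Lib.MP_2619d0_ag.Q5.H2

/-!
Row H8: points over a subfield containing all squares.
-/

set_option autoImplicit false

namespace MP2619.Q5

universe u

open IntermediateField MP2619.W WeierstrassCurve

variable {K L : Type u} [Field K] [Field L] [Algebra K L]

/-- Row H8a. If `L/S` is infinite then `finrank = 0`. Otherwise take `a ∉ S`; `a² ∈ S`, so `[S(a) : S] = 2`
divides `[L : S]`. -/
theorem finrank_even (S : IntermediateField K L) (hS : ∀ z : L, z ^ 2 ∈ S) (hne : S ≠ ⊤) :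
    Even (Module.finrank S L) := by
  obtain ⟨a, ha⟩ : ∃ a : L, a ∉ S := by
    by_contra h
    push Not at h
    exact hne (eq_top_iff.2 fun z _ => h z)
  have hint : IsIntegral S a := by
    refine ⟨Polynomial.X ^ 2 - Polynomial.C (⟨a ^ 2, hS a⟩ : S), ?_, ?_⟩
    · exact Polynomial.monic_X_pow_sub_C _ two_ne_zero
    · simp only [Polynomial.eval₂_sub, Polynomial.eval₂_pow, Polynomial.eval₂_X,
        Polynomial.eval₂_C]
      exact sub_self _
  have hdvd : minpoly S a ∣ Polynomial.X ^ 2 - Polynomial.C (⟨a ^ 2, hS a⟩ : S) := by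
    apply minpoly.dvd
    rw [map_sub, map_pow, Polynomial.aeval_X, Polynomial.aeval_C]
    exact sub_self _
  have hmon : (Polynomial.X ^ 2 - Polynomial.C (⟨a ^ 2, hS a⟩ : S)).Monic :=
    Polynomial.monic_X_pow_sub_C _ two_ne_zero
  have hle : (minpoly S a).natDegree ≤ 2 := by
    have h1 := Polynomial.natDegree_le_of_dvd hdvd hmon.ne_zero
    rwa [Polynomial.natDegree_X_pow_sub_C] at h1
  have hpos : 0 < (minpoly S a).natDegree := minpoly.natDegree_pos hint
  have hne1 : (minpoly S a).natDegree ≠ 1 := by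
    intro h1
    rw [minpoly.natDegree_eq_one_iff] at h1
    obtain ⟨s, hs⟩ := h1
    apply ha
    rw [← hs]
    exact s.2
  have h2 : (minpoly S a).natDegree = 2 := by omega
  have h3 : Module.finrank S (adjoin S ({a} : Set L)) = 2 := by
    rw [← h2]
    exact IntermediateField.adjoin.finrank hint
  have h4 : Module.finrank S (adjoin S ({a} : Set L)) *
      Module.finrank (adjoin S ({a} : Set L)) L = Module.finrank S L :=
    Module.finrank_mul_finrank _ _ _
  rw [h3] at h4
  exact ⟨Module.finrank (adjoin S ({a} : Set L)) L, by omega⟩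

private theorem H8_pdeg [DecidableEq L] (S : IntermediateField K L) (P0 : (Ec S).Point) :
    pdeg K (mp (algebraMap S L) P0) = Module.finrank S L * pdeg K P0 := by
  have h := pdeg_mp (K := K) S.val P0
  rw [S.fieldRange_val] at h
  exact h

/-- Row H8b. `P = mp P0`, `Q = mp Q0` with points over `S`; `pdeg_mp` (or `finrank_mul_finrank`):
`pdeg K (mp P0) = [L : S] pdeg K P0`. -/
theorem Bf_sub [DecidableEq L] (S : IntermediateField K L) (P Q : (Ec L).Point)
    (hP : pf K P ⊆ S) (hQ : pf K Q ⊆ S) : (Module.finrank S L : ℤ) ∣ Bf K P Q := by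
  obtain ⟨P0, rfl⟩ := exists_of_mem S P hP
  obtain ⟨Q0, rfl⟩ := exists_of_mem S Q hQ
  refine ⟨Bf K P0 Q0, ?_⟩
  rw [Bf, Bf, ← map_add, H8_pdeg, H8_pdeg, H8_pdeg]
  push_cast
  ring

/-- Row H8c. `<b, Fr c> = -<Fr b, c>`, and `Fr b`, `c` are points over `S`. -/
theorem even_of_sub [DecidableEq L] (h2 : (2 : K) = 0) (h2L : (2 : L) = 0)
    (hL : ¬ Algebra.IsAlgebraic K L) (S : IntermediateField K L) (hS : ∀ z : L, z ^ 2 ∈ S)
    (hne : S ≠ ⊤) (b c : (Ec L).Point) (hc : pf K c ⊆ S) : Even (Bf K b (Fr h2L c)) := by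
  have hb : pf K (Fr h2L b) ⊆ S := by
    rcases b with _ | ⟨x, y, h⟩
    · exact Set.empty_subset _
    · rw [Fr_some]
      rintro z (rfl | rfl)
      · exact hS x
      · exact hS y
  have h1 := Bf_sub S (Fr h2L b) c hb hc
  have h3 : (2 : ℤ) ∣ (Module.finrank S L : ℤ) := by
    have h4 := even_iff_two_dvd.1 (finrank_even S hS hne)
    exact_mod_cast h4
  rw [Bf_Fr_right h2 h2L hL]
  exact (even_iff_two_dvd.2 (h3.trans h1)).neg

end MP2619.Q5
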