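import Pool.Agent.Lib.MP_2619d0_ag.Q5.H6a
import Pool.Agent.Lib.MP_2619d0_ag.Q5.H6b
import Pool.Agent.Lib.MP_2619d0_ag.Q5.H6c
import Pool.Agent.Lib.MP_2619d0_ag.Q5.H8

/-!
Row H6: `<Y, Fr c>` is even for the generic point `Y` of `K(E)`.
-/

set_option autoImplicit false

namespace MP2619.Q5

universe u

open IntermediateField MP2619.W WeierstrassCurve

/-- the computation with `w`, `Fr` and `σ` -/
private theorem H6_abs {G : Type*} [AddCommGroup G] (W F S : G →+ G) (B : G → G → ℤ)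
    (Badd : ∀ x y z, B x (y + z) = B x y + B x z)
    (W1 : ∀ x, W (W x) + W x + x = 0) (W3 : ∀ x, W (W (W x)) = x)
    (FW : ∀ x, F (W x) = W (W (F x))) (SF : ∀ x, S (F x) = F (S x))
    (SW : ∀ x, S (W x) = W (S x)) (BS : ∀ x y, B (S x) (S y) = B x y)
    (BW : ∀ x y, B (W x) (W y) = B x y) (Y : G) (SY : S Y = W Y)
    (H8 : ∀ c, ∃ k, c + S c + S (S c) = k ∧ S k = k ∧ (∀ b, B b (F k) = 0) ∧
      (∀ b, B b (F (W k)) = 0))
    (H9 : ∀ c, S c = W (W c) → ∀ b, Even (B b (F c))) (c : G) : Even (B Y (F c)) := by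
  have B0 : ∀ x, B x 0 = 0 := by
    intro x
    have := Badd x 0 0
    rw [add_zero] at this
    linarith
  have Bneg : ∀ x y, B x (-y) = -B x y := by
    intro x y
    have := Badd x y (-y)
    rw [add_neg_cancel, B0] at this
    linarith
  have Bsub : ∀ x y z, B x (y - z) = B x y - B x z := by
    intro x y z
    rw [sub_eq_add_neg, Badd, Bneg]
    ring
  have W2 : ∀ x, W (W x) = -W x - x := by
    intro x
    have := W1 x
    rw [add_assoc, add_eq_zero_iff_eq_neg] at this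
    rw [this]
    abel
  -- `c' = S c - W c` has even products
  have E1 : ∀ c b, Even (B b (F (S c - W c))) := by
    intro c b
    obtain ⟨k, hk, hSk, hk1, hk2⟩ := H8 c
    have hSS : S (S c) = k - c - S c := by
      rw [← hk]
      abel
    obtain ⟨c', hc'⟩ : ∃ c', c' = S c - W c := ⟨_, rfl⟩
    have hSc' : S c' = k + W (W c') := by
      rw [hc', map_sub, SW, hSS, map_sub, map_sub, W3, W2 (S c)]
      abel
    have h1 : S (c' + c' + c' - (k - W k)) = W (W (c' + c' + c' - (k - W k))) := by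
      simp only [map_sub, map_add, SW, hSk, hSc', W3]
      rw [W2 k]
      abel
    have h3 := H9 _ h1 b
    rw [map_sub, map_add, map_add, map_sub, Bsub, Bsub, Badd, Badd, hk1, hk2] at h3
    rw [← hc']
    obtain ⟨r, hr⟩ := h3
    exact ⟨r - B b (F c'), by linarith⟩
  -- `<Y, Fr c> = <Y, Fr (w² c)>` modulo two
  have E2 : ∀ c, Even (B Y (F c) - B Y (F (W (W c)))) := by
    intro c
    have h1 : B Y (F c) = B (W Y) (F (S c)) := by
      rw [← BS, SY, SF]
    have h3 : F (S c) = F (S c - W c) + F (W c) := by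
      rw [← map_add]
      congr 1
      abel
    have h4 : B (W Y) (F (W c)) = B Y (F (W (W c))) := by
      rw [FW c, BW, FW (W c), FW c, W3]
    rw [h1, h3, Badd, h4]
    have := E1 c (W Y)
    rwa [add_sub_cancel_right]
  have E3 : ∀ c, Even (B Y (F (W c))) := by
    intro c
    have h1 := E2 c
    have h3 := E2 (W c)
    rw [W3] at h3
    have h4 : B Y (F (W (W c))) = -B Y (F (W c)) - B Y (F c) := by
      rw [W2, map_sub, map_neg, Bsub, Bneg]
    rw [h4] at h1
    obtain ⟨r, hr⟩ := h1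
    obtain ⟨s, hs⟩ := h3
    exact ⟨r - B Y (F c), by linarith⟩
  have := E3 (W (W c))
  rwa [W3] at this

variable {K L : Type u} [Field K] [Field L] [Algebra K L]

/-- Row H6. `c1 = σ c`, `c' = c1 - w c`, `κ = c + σ c + σ² c`, `c'' = 3 c' - (1 - w) κ`: `σ c'' = w² c''`,
so `3 c'` is over `S`, `<b, Fr c'>` is even for all `b` (`even_of_sub`). `<Y, Fr c> = <w Y, Fr c1>` (`σ` is an
automorphism) `= <w Y, Fr c'> + <w Y, Fr (w c)> ≡ <w Y, w² Fr c> = <Y, w Fr c> = <Y, Fr (w² c)>`, so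
`<Y, Fr (c + w² c)> = -<Y, Fr (w c)>` is even for all `c`. -/
theorem even_gen [DecidableEq L] (h2 : (2 : K) = 0) (w : K)
    (hw : w ^ 2 + w + 1 = 0) (h2L : (2 : L) = 0) (Y : (Ec L).Point) (hY : IsGen K Y)
    (c : (Ec L).Point) : Even (Bf K Y (Fr h2L c)) := by
  classical
  have hw' : algebraMap K L w ^ 2 + algebraMap K L w + 1 = 0 := by
    rw [← map_pow, ← map_add, ← map_one (algebraMap K L), ← map_add, hw, map_zero]
  have hL := hY.nalg
  have hYW : ¬ Algebra.IsAlgebraic K (adjoin K (pf K (wm h2L (algebraMap K L w) hw' Y))) := by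
    rw [adjoin_wm h2L w hw, hY.top]
    intro h
    apply hL
    constructor
    intro l
    exact (h.isAlgebraic (⟨l, trivial⟩ : (⊤ : IntermediateField K L))).algebraMap (A := L)
  obtain ⟨σ, hσ⟩ := exists_hom h2 Y hY _ hYW
  obtain ⟨S, hS, hne⟩ := exists_sq_field h2 Y hY
  have hYdeg : pdeg K Y = 1 := by
    rw [pdeg, hY.top]
    exact IntermediateField.finrank_top
  have hfin : Module.finrank σ.fieldRange L = 1 := by
    have h1 := pdeg_mp (K := K) σ Y
    rw [hσ, pdeg_wm h2L w hw, hYdeg, mul_one] at h1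
    exact h1.symm
  have hdeg : ∀ P : (Ec L).Point, pdeg K (mp (σ : L →+* L) P) = pdeg K P := by
    intro P
    rw [pdeg_mp, hfin, one_mul]
  have hSB : ∀ P Q : (Ec L).Point,
      Bf K (mp (σ : L →+* L) P) (mp (σ : L →+* L) Q) = Bf K P Q := by
    intro P Q
    rw [Bf, Bf, ← map_add, hdeg, hdeg, hdeg]
  have hσw : (σ : L →+* L) (algebraMap K L w) = algebraMap K L w := σ.commutes w
  have hSW : ∀ P : (Ec L).Point, mp (σ : L →+* L) (wm h2L (algebraMap K L w) hw' P) =
      wm h2L (algebraMap K L w) hw' (mp (σ : L →+* L) P) := by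
    intro P
    have hw'' : (σ : L →+* L) (algebraMap K L w) ^ 2 + (σ : L →+* L) (algebraMap K L w) + 1 = 0 := by
      rw [hσw]
      exact hw'
    have h1 := wm_mp h2L h2L (algebraMap K L w) hw' (σ : L →+* L) hw'' P
    rw [← h1]
    congr 1
    simp only [hσw]
  refine H6_abs (wm h2L (algebraMap K L w) hw') (Fr h2L) (mp (σ : L →+* L)) (Bf K)
    (fun x y z => Bf_add_right h2 hL x y z) (wm_sum h2L _ hw') (wm_wm_wm h2L _ hw')
    (Fr_wm h2L _ hw') (fun x => (Fr_mp h2L h2L (σ : L →+* L) x).symm) hSW hSB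
    (Bf_wm h2L w hw hw') Y hσ ?_ ?_ c
  · intro c
    obtain ⟨k, hk⟩ := kappa_const h2 w hw h2L hw' Y hY σ hσ c
    refine ⟨bs k, hk, mp_bs σ k, ?_, ?_⟩
    · intro b
      rw [Fr_mp h2 h2L]
      exact Bf_bs_right h2 hL b _
    · intro b
      rw [wm_mp h2 h2L w hw (algebraMap K L) hw' k, Fr_mp h2 h2L]
      exact Bf_bs_right h2 hL b _
  · intro c hc b
    exact even_of_sub h2 h2L hL S hS hne b c (anti_sub h2 w hw h2L hw' Y hY σ hσ c hc S hS)

end MP2619.Q5
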