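import Pool.Agent.Lib.MP_2619d0_ag.Q5.H2
import Pool.Agent.Lib.MP_2619d0_ag.Q5.H3b
import Pool.Agent.Lib.MP_2619d0_ag.Q5.H4

/-!
Row H6: `<Y, Fr c>` is even for the generic point `Y` of `K(E)`.
-/

set_option autoImplicit false

namespace MP2619.Q5

universe u

open IntermediateField MP2619.W WeierstrassCurve

variable {K L : Type u} [Field K] [Field L] [Algebra K L]

/-- Row H6a. `σ Y = w Y`. `κ = c + σ c + σ² c` is fixed by `σ`, so over `K(y)` (`fix_w`), so constant
(`pts_const`). -/
theorem kappa_const [DecidableEq K] [DecidableEq L] (h2 : (2 : K) = 0) (w : K)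
    (hw : w ^ 2 + w + 1 = 0) (h2L : (2 : L) = 0)
    (hw' : algebraMap K L w ^ 2 + algebraMap K L w + 1 = 0) (Y : (Ec L).Point) (hY : IsGen K Y)
    (σ : L →ₐ[K] L) (hσ : mp (σ : L →+* L) Y = wm h2L (algebraMap K L w) hw' Y)
    (c : (Ec L).Point) : ∃ κ : (Ec K).Point,
      c + mp (σ : L →+* L) c + mp (σ : L →+* L) (mp (σ : L →+* L) c) = bs κ := by
  obtain ⟨x, y, hxy, rfl, hx, htop⟩ := gen_some h2 Y hY
  rw [mp_some, wm_some] at hσ
  simp only [Affine.Point.some.injEq] at hσ
  obtain ⟨sx, sy⟩ := hσ
  have sx' : σ x = algebraMap K L w * x := sx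
  have sy' : σ y = y := sy
  have hc := (ec_nonsingular h2L x y).1 hxy
  have hw3 : algebraMap K L w * (algebraMap K L w * algebraMap K L w) = 1 := by
    linear_combination (algebraMap K L w - 1) * hw'
  have s3 : σ.comp (σ.comp σ) = AlgHom.id K L := by
    refine hom_ext (Affine.Point.some x y hxy) hY _ _ ?_
    rw [mp_some, mp_some]
    simp only [Affine.Point.some.injEq]
    constructor
    · change σ (σ (σ x)) = x
      rw [sx', map_mul, map_mul, sx', AlgHom.commutes, map_mul, AlgHom.commutes, sx']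
      linear_combination x * hw3
    · change σ (σ (σ y)) = y
      rw [sy', sy', sy']
  set κ := c + mp (σ : L →+* L) c + mp (σ : L →+* L) (mp (σ : L →+* L) c) with hκ
  have hfix : mp (σ : L →+* L) κ = κ := by
    have h3 : mp (σ : L →+* L) (mp (σ : L →+* L) (mp (σ : L →+* L) c)) = c := by
      rw [mp_mp, mp_mp]
      have e : (((σ : L →+* L).comp (σ : L →+* L)).comp (σ : L →+* L)) = RingHom.id L := by
        ext z
        exact DFunLike.congr_fun s3 z
      rw [e, mp_id]
    rw [hκ, map_add, map_add, h3]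
    abel
  have hpf : pf K κ ⊆ adjoin K ({y} : Set L) := by
    intro z hz
    refine fix_w h2 w hw hc htop σ sx' sy' ?_
    rcases hk : κ with _ | ⟨a, b, hab⟩
    · rw [hk] at hz
      exact absurd hz (Set.notMem_empty z)
    · rw [hk] at hz hfix
      rw [mp_some] at hfix
      simp only [Affine.Point.some.injEq] at hfix
      have hz' : z ∈ ({a, b} : Set L) := hz
      rcases hz' with rfl | hz'
      · exact hfix.1
      · rw [Set.mem_singleton_iff] at hz'
        rw [hz']
        exact hfix.2
  exact pts_const h2 y (y_trans hc hx) κ hpf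

end MP2619.Q5
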