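import Pool.Agent.Lib.MP_2619d0_ag.Q5.K1a

/-!
Row 2619q5-K1b: two points on a conic over a small field (any characteristic).
-/

set_option autoImplicit false

namespace MP2619.Q5

private theorem K1_qf {R S : Type} [CommRing R] [CommRing S] (f : R →+* S) (c : Fin 6 → R) (X : Fin 3 → R) :
    qf (fun i => f (c i)) (fun i => f (X i)) = f (qf c X) := by
  simp only [qf, map_add, map_mul, map_pow]

private theorem K1_qp {R S : Type} [CommRing R] [CommRing S] (f : R →+* S) (c : Fin 6 → R) (X Y : Fin 3 → R) :
    qp (fun i => f (c i)) (fun i => f (X i)) (fun i => f (Y i)) = f (qp c X Y) := by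
  simp only [qp, map_add, map_mul, map_ofNat]

private theorem K1_lf {R S : Type} [CommRing R] [CommRing S] (f : R →+* S) (l : Fin 3 → R) (X : Fin 3 → R) :
    lf (fun i => f (l i)) (fun i => f (X i)) = f (lf l X) := by
  simp only [lf, map_add, map_mul]

/-- (CH) Apply `CH_closed` to the algebraic closure `N1` of `N` and the relative algebraic closure `K1` of `K` in it
(`algebraicClosure K N1`, algebraically closed): the four elements remain algebraically independent over the algebraic
extension `K1` of `K`. -/
theorem CH {K N : Type} [Field K] [Field N] [Algebra K N] (c : Fin 6 → K) (hc : c ≠ 0)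
    (l : Fin 3 → K) (X Y ν : Fin 3 → N) (hX : qf (fun i => algebraMap K N (c i)) X = 0)
    (hY : qf (fun i => algebraMap K N (c i)) Y = 0)
    (hind : AlgebraicIndependent K
      (Fin.cons (lf (fun i => algebraMap K N (l i)) X) (X + Y) : Fin 4 → N))
    (hν : ν ≠ 0) (h1 : lf (fun i => algebraMap K N (l i)) ν = 0)
    (h2 : qf (fun i => algebraMap K N (c i)) ν = 0)
    (h3 : qp (fun i => algebraMap K N (c i)) (X + Y) ν = 0) : False := by
  let N1 := AlgebraicClosure N
  let K1 := algebraicClosure K N1
  have hcl : IsAlgClosed K1 := (algebraicClosure.isAlgClosure K N1).isAlgClosed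
  have ht : ∀ a : K, algebraMap K1 N1 (algebraMap K K1 a) = algebraMap N N1 (algebraMap K N a) := by
    intro a
    rw [← IsScalarTower.algebraMap_apply K K1 N1, ← IsScalarTower.algebraMap_apply K N N1]
  have hinj : Function.Injective (algebraMap N N1) := (algebraMap N N1).injective
  have hc' : (fun i => algebraMap K K1 (c i)) ≠ 0 := by
    intro h
    apply hc
    funext i
    have h4 := congrFun h i
    exact (map_eq_zero (algebraMap K K1)).1 h4
  have hadd : (fun i => algebraMap N N1 (X i)) + (fun i => algebraMap N N1 (Y i)) =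
      fun i => algebraMap N N1 ((X + Y) i) := by
    funext i
    rw [Pi.add_apply, Pi.add_apply, map_add]
  refine CH_closed (K := K1) (N := N1) (fun i => algebraMap K K1 (c i)) hc' (fun i => algebraMap K K1 (l i))
    (fun i => algebraMap N N1 (X i)) (fun i => algebraMap N N1 (Y i)) (fun i => algebraMap N N1 (ν i)) ?_ ?_ ?_ ?_ ?_ ?_ ?_
  · simp only [ht]
    rw [K1_qf, hX, map_zero]
  · simp only [ht]
    rw [K1_qf, hY, map_zero]
  · rw [hadd]
    simp only [ht]
    rw [K1_lf]
    have h4 : (Fin.cons (algebraMap N N1 (lf (fun i => algebraMap K N (l i)) X))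
        (fun i => algebraMap N N1 ((X + Y) i)) : Fin 4 → N1) =
        (IsScalarTower.toAlgHom K N N1) ∘ (Fin.cons (lf (fun i => algebraMap K N (l i)) X) (X + Y) : Fin 4 → N) := by
      funext i
      refine Fin.cases ?_ (fun j => ?_) i
      · rfl
      · rfl
    rw [h4]
    have h5 : AlgebraicIndependent K ((IsScalarTower.toAlgHom K N N1) ∘
        (Fin.cons (lf (fun i => algebraMap K N (l i)) X) (X + Y) : Fin 4 → N)) :=
      hind.map' hinj
    exact h5.extendScalars K1
  · intro h
    apply hν
    funext i
    exact hinj ((congrFun h i).trans (map_zero _).symm)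
  · simp only [ht]
    rw [K1_lf, h1, map_zero]
  · simp only [ht]
    rw [K1_qf, h2, map_zero]
  · rw [hadd]
    simp only [ht]
    rw [K1_qp, h3, map_zero]

end MP2619.Q5
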