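import Pool.Agent.Lib.MP_2619d0_ag.Q5.CDefs

/-!
Row 2619q5-K1a: two points on a conic over a small algebraically closed field (any characteristic).
-/

set_option autoImplicit false

namespace MP2619.Q5

/-- a zero of a non-zero binary quadratic form over an algebraically closed field is proportional to a rational one -/
private theorem K1a_bin {K N : Type} [Field K] [IsAlgClosed K] [Field N] [Algebra K N] (A B D : K)
    (h : ¬ (A = 0 ∧ B = 0 ∧ D = 0)) (a b : N)
    (hab : algebraMap K N A * a ^ 2 + algebraMap K N B * (a * b) + algebraMap K N D * b ^ 2 = 0) :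
    ∃ (p q : K) (s : N), a = s * algebraMap K N p ∧ b = s * algebraMap K N q := by
  by_cases hA : A = 0
  · subst hA
    rw [map_zero, zero_mul, zero_add] at hab
    have h1 : b * (algebraMap K N B * a + algebraMap K N D * b) = 0 := by linear_combination hab
    rcases mul_eq_zero.1 h1 with h2 | h2
    · exact ⟨1, 0, a, by rw [map_one, mul_one], by rw [map_zero, mul_zero, h2]⟩
    · by_cases hB : B = 0
      · subst hB
        have hD : algebraMap K N D ≠ 0 := by
          rw [map_ne_zero]
          exact fun hD => h ⟨rfl, rfl, hD⟩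
        rw [map_zero, zero_mul, zero_add] at h2
        have h3 : b = 0 := (mul_eq_zero.1 h2).resolve_left hD
        exact ⟨1, 0, a, by rw [map_one, mul_one], by rw [map_zero, mul_zero, h3]⟩
      · have hB' : algebraMap K N B ≠ 0 := by rwa [map_ne_zero]
        refine ⟨-(D / B), 1, b, ?_, by rw [map_one, mul_one]⟩
        rw [map_neg, map_div₀]
        field_simp
        linear_combination h2
  · have hdeg : (Polynomial.C A * Polynomial.X ^ 2 + Polynomial.C B * Polynomial.X + Polynomial.C D).degree ≠ 0 := by
      rw [Polynomial.degree_quadratic hA]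
      decide
    obtain ⟨r, hr⟩ := IsAlgClosed.exists_root _ hdeg
    have hr' : A * r ^ 2 + B * r + D = 0 := by
      simpa [Polynomial.IsRoot.def] using hr
    have hrN : algebraMap K N A * (algebraMap K N r) ^ 2 + algebraMap K N B * algebraMap K N r +
        algebraMap K N D = 0 := by
      rw [← map_pow, ← map_mul, ← map_mul, ← map_add, ← map_add, hr', map_zero]
    have h1 : (a - algebraMap K N r * b) * (algebraMap K N A * a + (algebraMap K N B +
        algebraMap K N A * algebraMap K N r) * b) = 0 := by
      linear_combination hab - b ^ 2 * hrN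
    rcases mul_eq_zero.1 h1 with h2 | h2
    · exact ⟨r, 1, b, by linear_combination h2, by rw [map_one, mul_one]⟩
    · have hA' : algebraMap K N A ≠ 0 := by rwa [map_ne_zero]
      refine ⟨-((B + A * r) / A), 1, b, ?_, by rw [map_one, mul_one]⟩
      rw [map_neg, map_div₀, map_add, map_mul]
      field_simp
      linear_combination h2

private theorem K1a_qfz {K N : Type} [Field K] [Field N] [Algebra K N] (c : Fin 6 → K)
    (h : ∀ W : Fin 3 → N, qf (fun i => algebraMap K N (c i)) W = 0) : c = 0 := by
  have inj : ∀ x : K, algebraMap K N x = 0 → x = 0 := fun x hx => by rwa [map_eq_zero] at hx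
  have c0 : c 0 = 0 := inj _ (by simpa [qf] using h ![1, 0, 0])
  have c1 : c 1 = 0 := inj _ (by simpa [qf] using h ![0, 1, 0])
  have c2 : c 2 = 0 := inj _ (by simpa [qf] using h ![0, 0, 1])
  have c3 : c 3 = 0 := inj _ (by simpa [qf, c1, c2] using h ![0, 1, 1])
  have c4 : c 4 = 0 := inj _ (by simpa [qf, c0, c2] using h ![1, 0, 1])
  have c5 : c 5 = 0 := inj _ (by simpa [qf, c0, c1] using h ![1, 1, 0])
  funext i
  fin_cases i
  · exact c0
  · exact c1
  · exact c2
  · exact c3
  · exact c4
  · exact c5

/-- a basis of the kernel of a linear form -/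
private theorem K1a_ker {K N : Type} [Field K] [Field N] [Algebra K N] (l : Fin 3 → K) (hl : l ≠ 0) :
    ∃ p q r : Fin 3 → K, lf l p = 0 ∧ lf l q = 0 ∧ lf l r = 1 ∧ ∀ v : Fin 3 → N,
      lf (fun i => algebraMap K N (l i)) v = 0 → ∃ a b : N, v = a • (fun i => algebraMap K N (p i)) +
        b • (fun i => algebraMap K N (q i)) := by
  obtain ⟨i, hi⟩ := Function.ne_iff.1 hl
  rw [Pi.zero_apply] at hi
  have hi' : algebraMap K N (l i) ≠ 0 := by rwa [map_ne_zero]
  fin_cases i
  · refine ⟨![-(l 1 / l 0), 1, 0], ![-(l 2 / l 0), 0, 1], ![(l 0)⁻¹, 0, 0], ?_, ?_, ?_, ?_⟩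
    · simp only [Fin.zero_eta] at hi
      simp [lf]
      field_simp
      ring
    · simp only [Fin.zero_eta] at hi
      simp [lf]
      field_simp
      ring
    · simp only [Fin.zero_eta] at hi
      simp [lf, hi]
    · intro v hv
      refine ⟨v 1, v 2, ?_⟩
      simp only [Fin.zero_eta] at hi'
      funext j
      fin_cases j
      · simp [map_div₀]
        field_simp
        simp only [lf] at hv
        linear_combination hv
      · simp
      · simp
  · refine ⟨![1, -(l 0 / l 1), 0], ![0, -(l 2 / l 1), 1], ![0, (l 1)⁻¹, 0], ?_, ?_, ?_, ?_⟩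
    · simp only [Fin.mk_one] at hi
      simp [lf]
      field_simp
      ring
    · simp only [Fin.mk_one] at hi
      simp [lf]
      field_simp
      ring
    · simp only [Fin.mk_one] at hi
      simp [lf, hi]
    · intro v hv
      refine ⟨v 0, v 2, ?_⟩
      simp only [Fin.mk_one] at hi'
      funext j
      fin_cases j
      · simp
      · simp [map_div₀]
        field_simp
        simp only [lf] at hv
        linear_combination hv
      · simp
  · refine ⟨![1, 0, -(l 0 / l 2)], ![0, 1, -(l 1 / l 2)], ![0, 0, (l 2)⁻¹], ?_, ?_, ?_, ?_⟩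
    · simp only [Fin.reduceFinMk] at hi
      simp [lf]
      field_simp
      ring
    · simp only [Fin.reduceFinMk] at hi
      simp [lf]
      field_simp
      ring
    · simp only [Fin.reduceFinMk] at hi
      simp [lf, hi]
    · intro v hv
      refine ⟨v 0, v 1, ?_⟩
      simp only [Fin.reduceFinMk] at hi'
      funext j
      fin_cases j
      · simp
      · simp
      · simp [map_div₀]
        field_simp
        simp only [lf] at hv
        linear_combination hv

/-- completion to a basis -/
private theorem K1a_basis {K N : Type} [Field K] [Field N] [Algebra K N] (e : Fin 3 → K) (he : e ≠ 0) :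
    ∃ p q : Fin 3 → K, ∀ v : Fin 3 → N, ∃ a b d : N, v = a • (fun i => algebraMap K N (e i)) +
      (b • (fun i => algebraMap K N (p i)) + d • (fun i => algebraMap K N (q i))) := by
  obtain ⟨i, hi⟩ := Function.ne_iff.1 he
  rw [Pi.zero_apply] at hi
  have hi' : algebraMap K N (e i) ≠ 0 := by rwa [map_ne_zero]
  fin_cases i
  · refine ⟨![0, 1, 0], ![0, 0, 1], fun v => ⟨v 0 / algebraMap K N (e 0),
      v 1 - v 0 / algebraMap K N (e 0) * algebraMap K N (e 1),
      v 2 - v 0 / algebraMap K N (e 0) * algebraMap K N (e 2), ?_⟩⟩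
    simp only [Fin.zero_eta] at hi'
    funext j
    fin_cases j
    · simp [hi']
    · simp
    · simp
  · refine ⟨![1, 0, 0], ![0, 0, 1], fun v => ⟨v 1 / algebraMap K N (e 1),
      v 0 - v 1 / algebraMap K N (e 1) * algebraMap K N (e 0),
      v 2 - v 1 / algebraMap K N (e 1) * algebraMap K N (e 2), ?_⟩⟩
    simp only [Fin.mk_one] at hi'
    funext j
    fin_cases j
    · simp
    · simp [hi']
    · simp
  · refine ⟨![1, 0, 0], ![0, 1, 0], fun v => ⟨v 2 / algebraMap K N (e 2),
      v 0 - v 2 / algebraMap K N (e 2) * algebraMap K N (e 0),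
      v 1 - v 2 / algebraMap K N (e 2) * algebraMap K N (e 1), ?_⟩⟩
    simp only [Fin.reduceFinMk] at hi'
    funext j
    fin_cases j
    · simp
    · simp
    · simp [hi']

/-- Put `Z = X + Y`, `ξ = lf l X`; `Z 0, Z 1, Z 2, ξ` are algebraically independent over `K`. `l ≠ 0`, because `ξ ≠ 0`.
Case 1: `qf c` is zero on `ker l`. Then `qf c = lf l * lf m` (`l i ≠ 0` for some `i`), `lf l X = ξ ≠ 0` and
`lf l Y = lf l Z - ξ ≠ 0`, so `lf m X = lf m Y = 0`, `lf m Z = 0`, `m = 0`, `c = 0`.
Case 2: `qf c` is not zero on `ker l`. `ν` is a zero of a non-zero binary quadratic form over the algebraically closed `K`,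
so `ν = s • ν0` with `ν0` over `K`, `s ≠ 0`. `qp c Z ν0 = 0` with `Z` independent over `K`: `qp c E ν0 = 0` for
all vectors `E`. (2a) If `qp c = 0` identically then `qf c Z = qf c X + qf c Y + qp c X Y = 0`, so `c = 0`.
(2b) Otherwise complete `ν0` to a basis `ν0, ν1, ν2` of `K^3`: `qf c (t0 ν0 + t1 ν1 + t2 ν2) = q'(t1, t2)`, a non-zero
binary form, product of two linear forms `m1 * m2` over `K` which vanish at `ν0`. `X` is in the kernel of one of them
and `Y` too: `X = s0 ν0 + s1 E1`, `Y = s2 ν0 + s3 E2` with `E1`, `E2` over `K`; so `Z = (s0 + s2) ν0 + s1 E1 + s3 E2` and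
`ξ = s1 * lf l E1` (`lf l ν0 = 0`) are in `K(s0 + s2, s1, s3)`, transcendence degree at most three. Contradiction. -/
theorem CH_closed {K N : Type} [Field K] [IsAlgClosed K] [Field N] [Algebra K N] (c : Fin 6 → K)
    (hc : c ≠ 0) (l : Fin 3 → K) (X Y ν : Fin 3 → N)
    (hX : qf (fun i => algebraMap K N (c i)) X = 0)
    (hY : qf (fun i => algebraMap K N (c i)) Y = 0)
    (hind : AlgebraicIndependent K
      (Fin.cons (lf (fun i => algebraMap K N (l i)) X) (X + Y) : Fin 4 → N))
    (hν : ν ≠ 0) (h1 : lf (fun i => algebraMap K N (l i)) ν = 0)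
    (h2 : qf (fun i => algebraMap K N (c i)) ν = 0)
    (h3 : qp (fun i => algebraMap K N (c i)) (X + Y) ν = 0) : False := by
  have hlin := hind.linearIndependent
  -- linear relations
  have hrel : ∀ (t : K) (m : Fin 3 → K), algebraMap K N t * lf (fun i => algebraMap K N (l i)) X +
      lf (fun i => algebraMap K N (m i)) (X + Y) = 0 → t = 0 ∧ m = 0 := by
    intro t m h
    have h4 := Fintype.linearIndependent_iff.1 hlin (Fin.cons t m) (by
      rw [Fin.sum_univ_succ]
      simp only [Fin.cons_zero, Fin.cons_succ, Fin.sum_univ_three, Algebra.smul_def]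
      rw [← h]
      simp only [lf])
    refine ⟨by simpa using h4 0, ?_⟩
    funext i
    simpa using h4 i.succ
  have hl : l ≠ 0 := by
    rintro rfl
    have h4 := (hrel 1 0 (by simp [lf])).1
    exact one_ne_zero h4
  obtain ⟨p, q, r, hp, hq, hr, hker⟩ := K1a_ker (N := N) l hl
  have emb : ∀ e : Fin 3 → K, lf (fun i => algebraMap K N (l i)) (fun i => algebraMap K N (e i)) =
      algebraMap K N (lf l e) := by
    intro e
    simp only [lf, map_add, map_mul]
  have embq : ∀ e : Fin 3 → K, qf (fun i => algebraMap K N (c i)) (fun i => algebraMap K N (e i)) =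
      algebraMap K N (qf c e) := by
    intro e
    simp only [qf, map_add, map_mul, map_pow]
  have embp : ∀ e e' : Fin 3 → K, qp (fun i => algebraMap K N (c i)) (fun i => algebraMap K N (e i))
      (fun i => algebraMap K N (e' i)) = algebraMap K N (qp c e e') := by
    intro e e'
    simp only [qp, map_add, map_mul, map_ofNat]
  have hξ : lf (fun i => algebraMap K N (l i)) X ≠ 0 := by
    intro h
    have h4 := (hrel 1 0 (by rw [h]; simp [lf])).1
    exact one_ne_zero h4
  have hξ' : lf (fun i => algebraMap K N (l i)) Y ≠ 0 := by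
    intro h
    have h4 := (hrel (-1) l (by
      simp only [lf, Pi.add_apply, map_neg, map_one] at h ⊢
      linear_combination h)).1
    exact neg_ne_zero.2 one_ne_zero h4
  have qf_lin : ∀ (s t : N) (e e' : Fin 3 → K), qf (fun i => algebraMap K N (c i))
      (s • (fun i => algebraMap K N (e i)) + t • (fun i => algebraMap K N (e' i))) =
      algebraMap K N (qf c e) * s ^ 2 + algebraMap K N (qp c e e') * (s * t) + algebraMap K N (qf c e') * t ^ 2 := by
    intro s t e e'
    rw [← embq, ← embq, ← embp]
    simp only [qf, qp, Pi.add_apply, Pi.smul_apply, smul_eq_mul]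
    ring
  by_cases hz : qf c p = 0 ∧ qp c p q = 0 ∧ qf c q = 0
  · -- case 1
    let m : Fin 3 → K := ![2 * c 0 * r 0 + c 4 * r 2 + c 5 * r 1 - qf c r * l 0,
      2 * c 1 * r 1 + c 3 * r 2 + c 5 * r 0 - qf c r * l 1, 2 * c 2 * r 2 + c 3 * r 1 + c 4 * r 0 - qf c r * l 2]
    have hm : ∀ W : Fin 3 → N, lf (fun i => algebraMap K N (m i)) W =
        qp (fun i => algebraMap K N (c i)) (fun i => algebraMap K N (r i)) W -
          algebraMap K N (qf c r) * lf (fun i => algebraMap K N (l i)) W := by
      intro W
      have h2' : algebraMap K N 2 = 2 := map_ofNat _ 2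
      simp [m, lf, qp, h2']
      ring
    have hfac : ∀ W : Fin 3 → N, qf (fun i => algebraMap K N (c i)) W =
        lf (fun i => algebraMap K N (l i)) W * lf (fun i => algebraMap K N (m i)) W := by
      intro W
      set t := lf (fun i => algebraMap K N (l i)) W with ht
      obtain ⟨a, b, hab⟩ := hker (W - t • (fun i => algebraMap K N (r i))) (by
        have h4 := emb r
        rw [hr, map_one] at h4
        have h5 : lf (fun i => algebraMap K N (l i)) (W - t • (fun i => algebraMap K N (r i))) =
            t - t * lf (fun i => algebraMap K N (l i)) (fun i => algebraMap K N (r i)) := by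
          rw [ht]
          simp only [lf, Pi.sub_apply, Pi.smul_apply, smul_eq_mul]
          ring
        rw [h5, h4, mul_one, sub_self])
      have h6 := qf_lin a b p q
      rw [← hab, hz.1, hz.2.1, hz.2.2, map_zero, zero_mul, zero_mul, zero_mul, add_zero, add_zero] at h6
      have h7 : qf (fun i => algebraMap K N (c i)) (W - t • (fun i => algebraMap K N (r i))) =
          qf (fun i => algebraMap K N (c i)) W -
            t * qp (fun i => algebraMap K N (c i)) (fun i => algebraMap K N (r i)) W +
            t ^ 2 * qf (fun i => algebraMap K N (c i)) (fun i => algebraMap K N (r i)) := by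
        simp only [qf, qp, Pi.sub_apply, Pi.smul_apply, smul_eq_mul]
        ring
      rw [h7, embq] at h6
      rw [hm, ← ht]
      linear_combination h6
    have hmX : lf (fun i => algebraMap K N (m i)) X = 0 := by
      have h4 := hfac X
      rw [hX] at h4
      exact (mul_eq_zero.1 h4.symm).resolve_left hξ
    have hmY : lf (fun i => algebraMap K N (m i)) Y = 0 := by
      have h4 := hfac Y
      rw [hY] at h4
      exact (mul_eq_zero.1 h4.symm).resolve_left hξ'
    have hm0 : m = 0 := (hrel 0 m (by
      rw [map_zero, zero_mul, zero_add]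
      simp only [lf, Pi.add_apply] at hmX hmY ⊢
      linear_combination hmX + hmY)).2
    apply hc
    apply K1a_qfz (N := N)
    intro W
    rw [hfac, hm0]
    simp [lf]
  · -- case 2
    obtain ⟨a, b, hab⟩ := hker ν h1
    rw [hab, qf_lin] at h2
    obtain ⟨p0, q0, s, hs1, hs2⟩ := K1a_bin _ _ _ hz a b h2
    let e : Fin 3 → K := p0 • p + q0 • q
    have he : ν = s • (fun i => algebraMap K N (e i)) := by
      rw [hab, hs1, hs2]
      funext i
      simp only [e, Pi.add_apply, Pi.smul_apply, smul_eq_mul, map_add, map_mul]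
      ring
    have hs : s ≠ 0 := by
      rintro rfl
      apply hν
      rw [he, zero_smul]
    have he0 : e ≠ 0 := by
      intro h
      apply hν
      rw [he, h]
      funext i
      simp
    have hle : lf l e = 0 := by
      have h4 : lf l e = p0 * lf l p + q0 * lf l q := by
        simp only [lf, e, Pi.add_apply, Pi.smul_apply, smul_eq_mul]
        ring
      rw [h4, hp, hq]
      ring
    have hqe : algebraMap K N (qf c e) = 0 := by
      have h4 : qf (fun i => algebraMap K N (c i)) ν = 0 := by rw [hab, qf_lin]; exact h2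
      rw [he, qf_smul, embq] at h4
      exact (mul_eq_zero.1 h4).resolve_left (pow_ne_zero 2 hs)
    let g : Fin 3 → K := ![2 * c 0 * e 0 + c 4 * e 2 + c 5 * e 1, 2 * c 1 * e 1 + c 3 * e 2 + c 5 * e 0,
      2 * c 2 * e 2 + c 3 * e 1 + c 4 * e 0]
    have hg : ∀ W : Fin 3 → N, qp (fun i => algebraMap K N (c i)) W (fun i => algebraMap K N (e i)) =
        lf (fun i => algebraMap K N (g i)) W := by
      intro W
      have h2' : algebraMap K N 2 = 2 := map_ofNat _ 2
      simp [g, lf, qp, h2']
      ring
    have hg0 : g = 0 := (hrel 0 g (by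
      rw [he, qp_smul] at h3
      rw [map_zero, zero_mul, zero_add, ← hg]
      exact (mul_eq_zero.1 h3).resolve_left hs)).2
    have hgW : ∀ W : Fin 3 → N, qp (fun i => algebraMap K N (c i)) W (fun i => algebraMap K N (e i)) = 0 := by
      intro W
      rw [hg, hg0]
      simp [lf]
    obtain ⟨p1, q1, hbas⟩ := K1a_basis (N := N) e he0
    have hval : ∀ s a b : N, qf (fun i => algebraMap K N (c i)) (s • (fun i => algebraMap K N (e i)) +
        (a • (fun i => algebraMap K N (p1 i)) + b • (fun i => algebraMap K N (q1 i)))) =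
        algebraMap K N (qf c p1) * a ^ 2 + algebraMap K N (qp c p1 q1) * (a * b) + algebraMap K N (qf c q1) * b ^ 2 := by
      intro s a b
      rw [qf_add, qf_smul, embq, hqe, mul_zero, zero_add, qf_lin]
      have h4 : ∀ W : Fin 3 → N, qp (fun i => algebraMap K N (c i)) (s • (fun i => algebraMap K N (e i))) W =
          s * qp (fun i => algebraMap K N (c i)) W (fun i => algebraMap K N (e i)) := by
        intro W
        simp only [qp, Pi.smul_apply, smul_eq_mul]
        ring
      rw [h4, hgW, mul_zero, add_zero]
    have hnz : ¬ (qf c p1 = 0 ∧ qp c p1 q1 = 0 ∧ qf c q1 = 0) := by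
      rintro ⟨h4, h5, h6⟩
      apply hc
      apply K1a_qfz (N := N)
      intro W
      obtain ⟨s, a, b, rfl⟩ := hbas W
      rw [hval, h4, h5, h6]
      simp
    obtain ⟨x0, x1, x2, hXe⟩ := hbas X
    obtain ⟨y0, y1, y2, hYe⟩ := hbas Y
    rw [hXe, hval] at hX
    rw [hYe, hval] at hY
    obtain ⟨α, β, s1, ha1, hb1⟩ := K1a_bin _ _ _ hnz x1 x2 hX
    obtain ⟨α', β', s3, ha3, hb3⟩ := K1a_bin _ _ _ hnz y1 y2 hY
    have hspan : Set.range (Fin.cons (lf (fun i => algebraMap K N (l i)) X) (X + Y) : Fin 4 → N) ≤
        Submodule.span K (Set.range ![x0 + y0, s1, s3]) := by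
      have m1 : x0 + y0 ∈ Submodule.span K (Set.range ![x0 + y0, s1, s3]) := Submodule.subset_span ⟨0, rfl⟩
      have m2 : s1 ∈ Submodule.span K (Set.range ![x0 + y0, s1, s3]) := Submodule.subset_span ⟨1, rfl⟩
      have m3 : s3 ∈ Submodule.span K (Set.range ![x0 + y0, s1, s3]) := Submodule.subset_span ⟨2, rfl⟩
      rintro _ ⟨i, rfl⟩
      refine Fin.cases ?_ (fun i => ?_) i
      · rw [Fin.cons_zero]
        have h4 : lf (fun i => algebraMap K N (l i)) X = (α * lf l p1 + β * lf l q1) • s1 := by
          have h5 := emb e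
          rw [hle, map_zero] at h5
          rw [Algebra.smul_def, map_add, map_mul, map_mul, ← emb, ← emb, hXe, ha1, hb1]
          simp only [lf, Pi.add_apply, Pi.smul_apply, smul_eq_mul] at h5 ⊢
          linear_combination x0 * h5
        rw [h4]
        exact Submodule.smul_mem _ _ m2
      · rw [Fin.cons_succ]
        have h4 : (X + Y) i = e i • (x0 + y0) + ((α * p1 i + β * q1 i) • s1 + (α' * p1 i + β' * q1 i) • s3) := by
          rw [Pi.add_apply, hXe, hYe, ha1, hb1, ha3, hb3]
          simp only [Pi.add_apply, Pi.smul_apply, smul_eq_mul]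
          simp only [Algebra.smul_def, map_add, map_mul]
          ring
        rw [h4]
        exact Submodule.add_mem _ (Submodule.smul_mem _ _ m1)
          (Submodule.add_mem _ (Submodule.smul_mem _ _ m2) (Submodule.smul_mem _ _ m3))
    let _ : Fintype (Set.range ![x0 + y0, s1, s3]) := Fintype.ofFinite _
    have h4 := linearIndependent_le_span_aux' _ hlin _ hspan
    rw [Fintype.card_fin] at h4
    have h5 : Fintype.card (Set.range ![x0 + y0, s1, s3]) ≤ Fintype.card (Fin 3) :=
      Fintype.card_range_le _
    rw [Fintype.card_fin] at h5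
    omega

end MP2619.Q5
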