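import Pool.Agent.Lib.MP_2619d0_ag.Q5.CDefs

/-!
Row 2619q5-K2: echelon basis with integral entries.
-/

set_option autoImplicit false

namespace MP2619.Q5

open scoped NNReal

private theorem K2_det_mem {A : Type} [Field A] (K : Subfield A) (M : Matrix (Fin 3) (Fin 3) A)
    (h : ∀ i j, M i j ∈ K) : M.det ∈ K := by
  rw [Matrix.det_apply']
  refine sum_mem fun σ _ => mul_mem ?_ (prod_mem fun i _ => h _ _)
  exact intCast_mem K _

private theorem K2_inv_mem {A : Type} [Field A] (K : Subfield A) (M : Matrix (Fin 3) (Fin 3) A)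
    (h : ∀ i j, M i j ∈ K) : ∀ i j, M⁻¹ i j ∈ K := by
  intro i j
  rw [Matrix.inv_def, Matrix.smul_apply, Ring.inverse_eq_inv', smul_eq_mul,
    Matrix.adjugate_apply]
  refine mul_mem (inv_mem (K2_det_mem K M h)) (K2_det_mem K _ ?_)
  intro a c
  rw [Matrix.updateRow_apply]
  split_ifs
  · rw [Pi.single_apply]
    split_ifs
    · exact one_mem K
    · exact zero_mem K
  · exact h a c

private theorem K2_minor {A : Type} [Field A] (b : Fin 3 → Fin 6 → A)
    (hb : LinearIndependent A b) :
    ∃ r : Fin 3 → Fin 6, (Matrix.of fun k j => b k (r j)).det ≠ 0 := by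
  classical
  set M : Matrix (Fin 3) (Fin 6) A := Matrix.of b with hM
  have h1 : M.rank = 3 := by
    have := LinearIndependent.rank_matrix (M := M) hb
    simpa using this
  rw [Matrix.rank_eq_finrank_span_cols] at h1
  obtain ⟨κ, a, ha, hsp, hli⟩ := exists_linearIndependent' A M.col
  have hfin : Finite κ := Finite.of_injective a ha
  have hκ := Fintype.ofFinite κ
  have h2 : Fintype.card κ = 3 := by
    have h3 := finrank_span_eq_card hli
    rw [hsp, h1] at h3
    exact h3.symm
  have e : Fin 3 ≃ κ := (Fintype.equivFinOfCardEq h2).symm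
  refine ⟨fun j => a (e j), ?_⟩
  have h4 : LinearIndependent A (fun j : Fin 3 => M.col (a (e j))) :=
    hli.comp e e.injective
  have h5 : LinearIndependent A (Matrix.of fun k j => b k (a (e j))).col := h4
  have h6 := Matrix.linearIndependent_cols_iff_isUnit.mp h5
  rw [Matrix.isUnit_iff_isUnit_det] at h6
  exact h6.ne_zero

/-- Among the `3 × 3` minors of `b` (rows `r 0, r 1, r 2`) one with maximal `V` of the determinant; it is not zero
because `b` is linearly independent. `g` = inverse of this minor. By Cramer's rule the other entries of `g * b` are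
quotients of minors by it, so `V ≤ 1`. -/
theorem lat {A : Type} [Field A] (V : Valuation A ℝ≥0) (K : Subfield A) (b : Fin 3 → Fin 6 → A)
    (hbK : ∀ k i, b k i ∈ K) (hb : LinearIndependent A b) :
    ∃ (g : Matrix (Fin 3) (Fin 3) A) (r : Fin 3 → Fin 6), g.det ≠ 0 ∧ (∀ i j, g i j ∈ K) ∧
      (∀ i j, (g⁻¹) i j ∈ K) ∧
      (∀ k j, (∑ m, g k m * b m (r j)) = if k = j then 1 else 0) ∧
      ∀ k i, V (∑ m, g k m * b m i) ≤ 1 := by
  classical
  obtain ⟨r0, hr0⟩ := K2_minor b hb
  obtain ⟨r, -, hr⟩ := Finset.exists_max_image (Finset.univ : Finset (Fin 3 → Fin 6))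
    (fun r => V (Matrix.of fun k j => b k (r j)).det) ⟨r0, Finset.mem_univ _⟩
  set M : Matrix (Fin 3) (Fin 3) A := Matrix.of fun k j => b k (r j) with hM
  have hdet : M.det ≠ 0 := by
    intro h0
    have h1 := hr r0 (Finset.mem_univ _)
    rw [h0, map_zero, nonpos_iff_eq_zero, map_eq_zero] at h1
    exact hr0 h1
  have hu : IsUnit M.det := isUnit_iff_ne_zero.mpr hdet
  have hMK : ∀ i j, M i j ∈ K := fun i j => hbK _ _
  refine ⟨M⁻¹, r, ?_, K2_inv_mem K M hMK, ?_, ?_, ?_⟩
  · rw [Matrix.det_nonsing_inv, Ring.inverse_eq_inv']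
    exact inv_ne_zero hdet
  · rw [Matrix.nonsing_inv_nonsing_inv M hu]
    exact hMK
  · intro k j
    have h1 := congrFun (congrFun (Matrix.nonsing_inv_mul M hu) k) j
    rw [Matrix.mul_apply, Matrix.one_apply] at h1
    exact h1
  · intro k i
    have h1 : ∑ m, M⁻¹ k m * b m i =
        M.det⁻¹ * (Matrix.of fun a j => b a (Function.update r k i j)).det := by
      have h2 : ∑ m, M⁻¹ k m * b m i = (M⁻¹.mulVec fun m => b m i) k := rfl
      rw [h2, Matrix.inv_def, Matrix.smul_mulVec, Pi.smul_apply, smul_eq_mul,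
        ← Matrix.cramer_eq_adjugate_mulVec, Matrix.cramer_apply, Ring.inverse_eq_inv']
      congr 2
      ext a j
      rw [Matrix.updateCol_apply, Matrix.of_apply, hM, Matrix.of_apply, Function.update_apply]
      split_ifs <;> rfl
    rw [h1, map_mul, map_inv₀]
    have h3 := hr (Function.update r k i) (Finset.mem_univ _)
    have h4 : V M.det ≠ 0 := (map_ne_zero V).mpr hdet
    calc (V M.det)⁻¹ * V (Matrix.of fun a j => b a (Function.update r k i j)).det
        ≤ (V M.det)⁻¹ * V M.det := mul_le_mul_of_nonneg_left h3 zero_le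
      _ = 1 := inv_mul_cancel₀ h4

end MP2619.Q5
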