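import Pool.Agent.Lib.MP_2619d0_ag.Q5.K1
import Pool.Agent.Lib.MP_2619d0_ag.Q5.C5a

/-!
Row 2619q5-K3a: the second intersection point is good.
-/

set_option autoImplicit false

namespace MP2619.Q5

open scoped NNReal
open IntermediateField MP2619.R MP2619.N Pool.Agent.Lib.MP_2619d0_ag Pool.Agent.Lib.MP_2619d0_ag.T

section maps

variable {R S : Type} [CommRing R] [CommRing S] (f : R →+* S)

private theorem K3a_qf (c : Fin 6 → R) (X : Fin 3 → R) :
    f (qf c X) = qf (fun i => f (c i)) (fun i => f (X i)) := by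
  simp only [qf, map_add, map_mul, map_pow]

private theorem K3a_qp (c : Fin 6 → R) (X Y : Fin 3 → R) :
    f (qp c X Y) = qp (fun i => f (c i)) (fun i => f (X i)) (fun i => f (Y i)) := by
  simp only [qp, map_add, map_mul, map_ofNat]

private theorem K3a_lf (c X : Fin 3 → R) :
    f (lf c X) = lf (fun i => f (c i)) (fun i => f (X i)) := by
  simp only [lf, map_add, map_mul]

private theorem K3a_cv (b : Fin 3 → Fin 6 → R) (X : Fin 3 → R) (i : Fin 6) :
    f (cv b X i) = cv (fun k i => f (b k i)) (fun i => f (X i)) i := by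
  simp only [cv, map_sum, map_mul]

end maps

section res

variable {A : Type} [Field A] (V : Valuation A ℝ≥0)

private theorem K3a_zero (x : V.valuationSubring) :
    IsLocalRing.residue V.valuationSubring x = 0 ↔ V (x : A) < 1 := by
  rw [IsLocalRing.residue_eq_zero_iff, ValuationSubring.valuation_lt_one_iff]
  exact (Valuation.isEquiv_valuation_valuationSubring V).lt_one_iff_lt_one.symm

private theorem K3a_one (x : V.valuationSubring) :
    IsLocalRing.residue V.valuationSubring x ≠ 0 ↔ V (x : A) = 1 := by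
  rw [Ne, K3a_zero, not_lt]
  exact ⟨fun h => le_antisymm x.2 h, fun h => h.ge⟩

/-- the residues of the elements of `B` -/
private noncomputable def K3a_res (B : Subfield A) :
    Subfield (IsLocalRing.ResidueField V.valuationSubring) where
  carrier := {b | ∃ a : V.valuationSubring, (a : A) ∈ B ∧ IsLocalRing.residue _ a = b}
  mul_mem' := by
    rintro _ _ ⟨a, ha, rfl⟩ ⟨b, hb, rfl⟩
    exact ⟨a * b, B.mul_mem ha hb, map_mul _ _ _⟩
  one_mem' := ⟨1, B.one_mem, map_one _⟩
  add_mem' := by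
    rintro _ _ ⟨a, ha, rfl⟩ ⟨b, hb, rfl⟩
    exact ⟨a + b, B.add_mem ha hb, map_add _ _ _⟩
  zero_mem' := ⟨0, B.zero_mem, map_zero _⟩
  neg_mem' := by
    rintro _ ⟨a, ha, rfl⟩
    exact ⟨-a, B.neg_mem ha, map_neg _ _⟩
  inv_mem' := by
    rintro _ ⟨a, ha, rfl⟩
    by_cases h0 : IsLocalRing.residue V.valuationSubring a = 0
    · exact ⟨0, B.zero_mem, by rw [map_zero, h0, inv_zero]⟩
    · have h1 : V (a : A) = 1 := (K3a_one V a).1 h0
      have h2 : ((a : A)⁻¹) ∈ V.valuationSubring := by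
        rw [Valuation.mem_valuationSubring_iff, map_inv₀, h1, inv_one]
      have h3 : (a : A) ≠ 0 := by
        rintro h4
        rw [h4, map_zero] at h1
        exact zero_ne_one h1
      refine ⟨⟨(a : A)⁻¹, h2⟩, B.inv_mem ha, ?_⟩
      have h4 : a * ⟨(a : A)⁻¹, h2⟩ = 1 := Subtype.ext (mul_inv_cancel₀ h3)
      have h5 : IsLocalRing.residue V.valuationSubring a *
          IsLocalRing.residue V.valuationSubring ⟨(a : A)⁻¹, h2⟩ = 1 := by
        rw [← map_mul, h4, map_one]
      exact eq_inv_of_mul_eq_one_right h5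

private theorem K3a_u (B0 : Subfield A) (u : Fin 6 → A) (hu : IsGauss B0 V u) (i : Fin 6) :
    V (u i) ≤ 1 := by
  have h := hu (MvPolynomial.X i)
  rw [MvPolynomial.aeval_X] at h
  rw [h]
  refine Finset.sup_le fun m _ => ?_
  rw [MvPolynomial.coeff_X]
  split_ifs
  · rw [map_one, map_one]
  · rw [map_zero, map_zero]; exact zero_le

/-- the residues of the `u i` are algebraically independent -/
private theorem K3a_ind (B : Subfield A) (u : Fin 6 → A) (hu : IsGauss B V u)
    (u' : Fin 6 → V.valuationSubring) (hu' : ∀ i, (u' i : A) = u i) :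
    AlgebraicIndependent (K3a_res V B) (fun i => IsLocalRing.residue V.valuationSubring (u' i)) := by
  rw [algebraicIndependent_iff]
  intro p hp
  let S : Subring B := V.valuationSubring.toSubring.comap (algebraMap B A)
  let ι : S →+* V.valuationSubring :=
    { toFun := fun s => ⟨((s : B) : A), s.2⟩
      map_one' := rfl
      map_mul' := fun _ _ => rfl
      map_zero' := rfl
      map_add' := fun _ _ => rfl }
  let ψ : S →+* K3a_res V B :=
    ((IsLocalRing.residue V.valuationSubring).comp ι).codRestrict (K3a_res V B)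
      (fun s => ⟨ι s, (s : B).2, rfl⟩)
  have hψ : Function.Surjective ψ := by
    rintro ⟨b, a, ha, rfl⟩
    exact ⟨⟨⟨a, ha⟩, a.2⟩, rfl⟩
  obtain ⟨q, rfl⟩ := MvPolynomial.map_surjective ψ hψ p
  have h1 : IsLocalRing.residue V.valuationSubring (MvPolynomial.eval₂ ι u' q) = 0 := by
    rw [MvPolynomial.aeval_def, MvPolynomial.eval₂_map] at hp
    rw [MvPolynomial.eval₂_comp_left]
    exact hp
  have h2 : ((MvPolynomial.eval₂ ι u' q : V.valuationSubring) : A) =
      MvPolynomial.aeval u (MvPolynomial.map S.subtype q) := by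
    rw [MvPolynomial.aeval_def, MvPolynomial.eval₂_map]
    have h3 := MvPolynomial.eval₂_comp_left (V.valuationSubring.subtype) ι u' q
    have h4 : (V.valuationSubring.subtype ∘ u') = u := funext hu'
    rw [h4] at h3
    exact h3
  have h3 := (K3a_zero V _).1 h1
  rw [h2, hu] at h3
  ext m
  rw [MvPolynomial.coeff_map, MvPolynomial.coeff_zero]
  show IsLocalRing.residue V.valuationSubring (ι (MvPolynomial.coeff m q)) = 0
  rw [K3a_zero]
  have h5 : ((ι (MvPolynomial.coeff m q) : V.valuationSubring) : A) =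
      algebraMap B A (MvPolynomial.coeff m (MvPolynomial.map S.subtype q)) := by
    rw [MvPolynomial.coeff_map]
    rfl
  rw [h5]
  by_cases hm : MvPolynomial.coeff m (MvPolynomial.map S.subtype q) = 0
  · rw [hm, map_zero, map_zero]
    exact zero_lt_one
  · exact lt_of_le_of_lt (Finset.le_sup
      (f := fun m => V (algebraMap B A (MvPolynomial.coeff m (MvPolynomial.map S.subtype q))))
      (MvPolynomial.mem_support_iff.2 hm)) h3

end res

/-- four elements which generate a field with six independent elements over a field of transcendence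
degree two -/
private theorem K3a_four {k κ : Type} [Field k] [Field κ] [Algebra k κ] (E0 : IntermediateField k κ)
    (hE : Algebra.trdeg k E0 ≤ 2) (f : Fin 4 → κ) (v : Fin 6 → κ) (hv : AlgebraicIndependent k v)
    (hvf : ∀ i, v i ∈ adjoin E0 (Set.range f)) : AlgebraicIndependent E0 f := by
  set L : IntermediateField E0 κ := adjoin E0 (Set.range f) with hL
  let g : Fin 4 → L := fun i => ⟨f i, subset_adjoin E0 _ (Set.mem_range_self i)⟩
  have halg : Algebra.IsAlgebraic (Algebra.adjoin E0 (Set.range g)) L := by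
    refine ⟨?_⟩
    rintro ⟨z, hz⟩
    induction hz using adjoin_induction with
    | mem z hz =>
      obtain ⟨i, rfl⟩ := hz
      exact isAlgebraic_algebraMap (⟨g i, Algebra.subset_adjoin (Set.mem_range_self i)⟩ :
        Algebra.adjoin E0 (Set.range g))
    | algebraMap c =>
      exact isAlgebraic_algebraMap (algebraMap E0 (Algebra.adjoin E0 (Set.range g)) c)
    | add x y hx hy h1 h2 => exact h1.add h2
    | inv x hx h1 => exact h1.inv
    | mul x y hx hy h1 h2 => exact h1.mul h2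
  let v' : Fin 6 → L := fun i => ⟨v i, hvf i⟩
  have hv' : AlgebraicIndependent k v' := by
    have h1 : v = (L.val.restrictScalars k) ∘ v' := rfl
    rw [h1] at hv
    exact AlgebraicIndependent.of_comp (L.val.restrictScalars k) hv
  have h6 : (6 : Cardinal) ≤ Algebra.trdeg k L := by
    have h := hv'.cardinalMk_le_trdeg
    simpa using h
  have h7 : Algebra.trdeg k E0 + Algebra.trdeg E0 L = Algebra.trdeg k L :=
    trdeg_add_eq k E0 (A := L)
  have h4 : (4 : Cardinal) ≤ Algebra.trdeg E0 L := by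
    by_contra h
    rw [not_le] at h
    have h8 : Algebra.trdeg E0 L ≤ ((3 : ℕ) : Cardinal.{0}) := by
      have h5 : (4 : Cardinal.{0}) = Order.succ ((3 : ℕ) : Cardinal.{0}) := by
        rw [Cardinal.succ_natCast]
        norm_num
      rw [h5] at h
      exact Order.lt_succ_iff.1 h
    have h9 : (6 : Cardinal.{0}) ≤ 2 + ((3 : ℕ) : Cardinal.{0}) := by
      rw [← h7] at h6
      exact h6.trans (add_le_add hE h8)
    have h10 : (6 : ℕ) ≤ 2 + 3 := by exact_mod_cast h9
    omega
  have hb := Algebra.IsAlgebraic.isTranscendenceBasis_of_le_trdeg_of_finite E0 g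
    (by simpa using h4)
  have h1 : f = L.val ∘ g := rfl
  rw [h1]
  exact hb.1.map' L.val.injective

private theorem K3a_tr {A : Type} [Field A] (B0 K : Subfield A) (hBK : B0 ≤ K)
    (htr : ∀ a : Fin 3 → A, (∀ i, a i ∈ K) → ¬ AlgebraicIndependent B0 a) :
    Algebra.trdeg B0 (K.toIntermediateField (K := B0) (fun x => hBK x.2)) ≤ (2 : ℕ) := by
  set K' : IntermediateField B0 A := K.toIntermediateField (K := B0) (fun x => hBK x.2) with hK'
  by_contra h
  rw [not_le] at h
  obtain ⟨s, hs⟩ := exists_isTranscendenceBasis B0 K'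
  rw [← hs.cardinalMk_eq_trdeg] at h
  have h3 : Cardinal.mk (Fin 3) ≤ Cardinal.mk s := by
    have h1 : Cardinal.mk (Fin 3) = Order.succ ((2 : ℕ) : Cardinal.{0}) := by
      rw [Cardinal.succ_natCast, Cardinal.mk_fin]
      norm_num
    rw [h1]
    exact Order.succ_le_of_lt h
  obtain ⟨e⟩ := h3
  have h4 := (hs.1.comp e e.injective).map' (f := K'.val) K'.val.injective
  exact htr _ (fun i => (e i).1.2) h4

private theorem K3a_main {A : Type} [Field A] (V : Valuation A ℝ≥0) (B0 K : Subfield A)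
    (hBK : B0 ≤ K) (htr : ∀ a : Fin 3 → A, (∀ i, a i ∈ K) → ¬ AlgebraicIndependent B0 a)
    (u : Fin 6 → A) (hu : IsGauss B0 V u) (w : B0) (hw : V (w : A) ≤ 1) (a : Fin 6)
    (b : Fin 3 → Fin 6 → A) (hbK : ∀ k i, b k i ∈ K) (hb1 : ∀ k i, V (b k i) ≤ 1)
    (c : Fin 6 → A) (hcK : ∀ i, c i ∈ K) (hc1 : ∀ i, V (c i) ≤ 1) (hc : ∃ m, V (c m) = 1)
    (X Y ν : Fin 3 → A) (hX1 : ∀ k, V (X k) ≤ 1) (hY1 : ∀ k, V (Y k) ≤ 1)
    (hν1 : ∀ k, V (ν k) ≤ 1) (hνm : ∃ k, V (ν k) = 1) (hX : qf c X = 0) (hY : qf c Y = 0)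
    (hXY : ∀ i, (if i = a then (w : A) else 1) * cv b X i + cv b Y i = u i)
    (hν : cv b ν a = 0) (hB : qp c (X + Y) ν = 0) (hq : V (qf c ν) < 1) : False := by
  let P : ValuationSubring A := V.valuationSubring
  let κ := IsLocalRing.ResidueField P
  let φ : P →+* κ := IsLocalRing.residue P
  let b' : Fin 3 → Fin 6 → P := fun k i => ⟨b k i, hb1 k i⟩
  let c' : Fin 6 → P := fun i => ⟨c i, hc1 i⟩
  let X' : Fin 3 → P := fun k => ⟨X k, hX1 k⟩
  let Y' : Fin 3 → P := fun k => ⟨Y k, hY1 k⟩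
  let ν' : Fin 3 → P := fun k => ⟨ν k, hν1 k⟩
  let w' : P := ⟨w, hw⟩
  let u' : Fin 6 → P := fun i => (if i = a then w' else 1) * cv b' X' i + cv b' Y' i
  have hu' : ∀ i, (u' i : A) = u i := by
    intro i
    rw [← hXY i]
    have h1 := K3a_cv P.subtype b' X' i
    have h2 := K3a_cv P.subtype b' Y' i
    have h3 : P.subtype (u' i) = P.subtype (if i = a then w' else 1) * P.subtype (cv b' X' i) +
        P.subtype (cv b' Y' i) := by
      rw [← map_mul, ← map_add]
    have h4 : P.subtype (if i = a then w' else 1) = if i = a then (w : A) else 1 := by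
      split_ifs <;> rfl
    rw [h1, h2, h4] at h3
    exact h3
  let kb : Subfield κ := K3a_res V B0
  let E : Set κ := {t | ∃ x : P, (x : A) ∈ K ∧ φ x = t}
  let E0 : IntermediateField kb κ := adjoin kb E
  have hE0 : Algebra.trdeg kb E0 ≤ 2 := by
    have h := trdeg_gen (k := B0) (M := A) P φ kb (fun c hc => ⟨⟨_, hc⟩, c.2, rfl⟩)
      (K.toIntermediateField (K := B0) (fun x => hBK x.2)) 2 (K3a_tr B0 K hBK htr) E
      (fun b hb => hb)
    exact_mod_cast h
  let f : Fin 4 → κ := Fin.cons (lf (fun k => φ (b' k a)) (fun k => φ (X' k)))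
    ((fun k => φ (X' k)) + (fun k => φ (Y' k)))
  have hf : AlgebraicIndependent E0 f := by
    refine K3a_four E0 hE0 f (fun i => φ (u' i)) (K3a_ind V B0 u hu u' hu') ?_
    intro i
    have hK : ∀ x : P, (x : A) ∈ K → φ x ∈ adjoin E0 (Set.range f) := fun x hx =>
      (adjoin E0 (Set.range f)).algebraMap_mem (⟨φ x, subset_adjoin kb E ⟨x, hx, rfl⟩⟩ : E0)
    have hZ : ∀ k : Fin 3, φ (X' k) + φ (Y' k) ∈ adjoin E0 (Set.range f) := fun k =>
      subset_adjoin E0 _ ⟨k.succ, rfl⟩
    have hξ : lf (fun k => φ (b' k a)) (fun k => φ (X' k)) ∈ adjoin E0 (Set.range f) :=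
      subset_adjoin E0 _ ⟨0, rfl⟩
    have hsum : ∑ k, (φ (X' k) + φ (Y' k)) * φ (b' k i) ∈ adjoin E0 (Set.range f) :=
      sum_mem fun k _ => mul_mem (hZ k) (hK _ (hbK k i))
    have e1 : φ (u' i) = φ (if i = a then w' else 1) *
        cv (fun k i => φ (b' k i)) (fun i => φ (X' i)) i +
        cv (fun k i => φ (b' k i)) (fun i => φ (Y' i)) i := by
      rw [← K3a_cv φ, ← K3a_cv φ, ← map_mul, ← map_add]
    show φ (u' i) ∈ _
    by_cases hi : i = a
    · have e2 : φ (u' i) = ∑ k, (φ (X' k) + φ (Y' k)) * φ (b' k i) +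
          (φ w' - 1) * lf (fun k => φ (b' k a)) (fun k => φ (X' k)) := by
        rw [e1, if_pos hi, hi]
        simp only [cv, lf, Fin.sum_univ_three]
        ring
      rw [e2]
      exact add_mem hsum (mul_mem (sub_mem (hK w' (hBK w.2)) (one_mem _)) hξ)
    · have e2 : φ (u' i) = ∑ k, (φ (X' k) + φ (Y' k)) * φ (b' k i) := by
        rw [e1, if_neg hi, map_one]
        simp only [cv, Fin.sum_univ_three]
        ring
      rw [e2]
      exact hsum
  let c'' : Fin 6 → E0 := fun i => ⟨φ (c' i), subset_adjoin kb E ⟨c' i, hcK i, rfl⟩⟩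
  let l'' : Fin 3 → E0 := fun k => ⟨φ (b' k a), subset_adjoin kb E ⟨b' k a, hbK k a, rfl⟩⟩
  have hsubX : P.subtype (qf c' X') = 0 := by rw [K3a_qf]; exact hX
  have hsubY : P.subtype (qf c' Y') = 0 := by rw [K3a_qf]; exact hY
  have hsubB : P.subtype (qp c' (X' + Y') ν') = 0 := by rw [K3a_qp]; exact hB
  have hz : ∀ x : P, P.subtype x = 0 → φ x = 0 := by
    intro x hx
    have : x = 0 := Subtype.ext hx
    rw [this, map_zero]
  refine CH (K := E0) (N := κ) c'' ?_ l'' (fun k => φ (X' k)) (fun k => φ (Y' k))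
    (fun k => φ (ν' k)) ?_ ?_ hf ?_ ?_ ?_ ?_
  · obtain ⟨m, hm⟩ := hc
    intro h
    have h1 := congrFun h m
    have h2 : φ (c' m) = 0 := congrArg Subtype.val h1
    exact (K3a_one V (c' m)).2 hm h2
  · have h := hz _ hsubX
    rw [K3a_qf φ] at h
    exact h
  · have h := hz _ hsubY
    rw [K3a_qf φ] at h
    exact h
  · obtain ⟨m, hm⟩ := hνm
    intro h
    have h2 : φ (ν' m) = 0 := congrFun h m
    exact (K3a_one V (ν' m)).2 hm h2
  · have h1 : P.subtype (lf (fun k => b' k a) ν') = 0 := by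
      rw [K3a_lf]
      have h2 : cv b ν a = lf (fun k => b k a) ν := by
        simp only [cv, lf, Fin.sum_univ_three]
        ring
      rw [h2] at hν
      exact hν
    have h := hz _ h1
    rw [K3a_lf φ] at h
    exact h
  · have h1 : φ (qf c' ν') = 0 := by
      rw [K3a_zero V]
      have h2 : ((qf c' ν' : P) : A) = qf c ν := K3a_qf P.subtype c' ν'
      rw [h2]
      exact hq
    rw [K3a_qf φ] at h1
    exact h1
  · have h := hz _ hsubB
    rw [K3a_qp φ] at h
    have e : (fun i => φ ((X' + Y') i)) = (fun k => φ (X' k)) + (fun k => φ (Y' k)) := by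
      funext i
      exact map_add φ _ _
    rw [e] at h
    exact h

private theorem K3a_qfc {R : Type} [CommRing R] (t : R) (c : Fin 6 → R) (X : Fin 3 → R) :
    qf (fun i => t * c i) X = t * qf c X := by
  simp only [qf]; ring

private theorem K3a_qpc {R : Type} [CommRing R] (t : R) (c : Fin 6 → R) (X Y : Fin 3 → R) :
    qp (fun i => t * c i) X Y = t * qp c X Y := by
  simp only [qp]; ring

/-- The case of an echelon basis. Suppose some entry of `cv b (X + s • ν)` has `V > 1`. Scale `ν` to norm one (maximum of the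
`V (ν k)`; `V` of the entries of `cv b ν` is at most the norm of `ν`), then `V s > 1`, and scale `c` (by an element of `K`) to
norm one. `V (X k) ≤ 1`, `V (Y k) ≤ 1` (entries `r k` of `x` and `y`; `y i = u i - (..) x i` is integral). From `hX'`, `hX`:
`s * qp c X ν + s^2 * qf c ν = 0`, so `V (qf c ν) < 1`. Residues in `κ = ResidueField V.valuationSubring`, `κ0` = the subfield of
the residues of `K`: `CH` for `κ0 → κ`, `l k = b k a`. Hypotheses: `hν`, `hB` reduce. `hind`: `κ(B0)(ū)` has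
transcendence degree six over `κ(B0)` (`hu`), `κ0` has transcendence degree at most two over `κ(B0)` (`trdeg_gen`), and all `ū i` are
in `κ0(Z̄, ξ̄)`: `ū i = ∑ Z̄ k b̄ k i + (w̄ - 1) ξ̄ δ_(i a)`; so `Z̄, ξ̄` (four elements) are algebraically independent over
`κ0`. -/
theorem cpl_good_ech {A : Type} [Field A] (V : Valuation A ℝ≥0) (hV2 : V 2 < 1) (B0 K : Subfield A)
    (hBK : B0 ≤ K) (htr : ∀ a : Fin 3 → A, (∀ i, a i ∈ K) → ¬ AlgebraicIndependent B0 a)
    (u : Fin 6 → A) (hu : IsGauss B0 V u) (w : B0) (hw : w ^ 2 + w + 1 = 0) (a : Fin 6)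
    (b : Fin 3 → Fin 6 → A) (hbK : ∀ k i, b k i ∈ K) (r : Fin 3 → Fin 6)
    (hr : ∀ k j, b k (r j) = if k = j then 1 else 0) (hb1 : ∀ k i, V (b k i) ≤ 1)
    (c : Fin 6 → A) (hcK : ∀ i, c i ∈ K) (hc : c ≠ 0) (X Y : Fin 3 → A) (hX : qf c X = 0)
    (hY : qf c Y = 0) (hXY : ∀ i, (if i = a then (w : A) else 1) * cv b X i + cv b Y i = u i)
    (hx : ∀ i, V (cv b X i) ≤ 1) (ν : Fin 3 → A) (s : A) (hν : cv b ν a = 0)
    (hB : qp c (X + Y) ν = 0) (hX' : qf c (X + s • ν) = 0) : ∀ i, V (cv b (X + s • ν) i) ≤ 1 := by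
  by_contra hcon
  push Not at hcon
  obtain ⟨i, hi⟩ := hcon
  have hw3 : (w : A) ^ 3 = 1 := by
    have h1 : w ^ 3 = 1 := by linear_combination (w - 1) * hw
    exact_mod_cast congrArg Subtype.val h1
  have hVw : V (w : A) ≤ 1 := by
    have h1 : V (w : A) ^ 3 = 1 := by rw [← map_pow, hw3, map_one]
    exact ((pow_eq_one_iff_of_nonneg zero_le (by norm_num)).1 h1).le
  have hcvr : ∀ (Z : Fin 3 → A) (k : Fin 3), cv b Z (r k) = Z k := by
    intro Z k
    unfold cv
    rw [Finset.sum_eq_single k]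
    · rw [hr, if_pos rfl, mul_one]
    · intro j _ hj
      rw [hr, if_neg hj, mul_zero]
    · intro h; exact absurd (Finset.mem_univ k) h
  have hX1 : ∀ k, V (X k) ≤ 1 := fun k => by rw [← hcvr X k]; exact hx _
  have hY1 : ∀ k, V (Y k) ≤ 1 := by
    intro k
    rw [← hcvr Y k]
    have e1 : cv b Y (r k) = u (r k) - (if r k = a then (w : A) else 1) * cv b X (r k) := by
      rw [← hXY]; ring
    rw [e1]
    refine (Valuation.map_sub V _ _).trans (max_le (K3a_u V B0 u hu _) ?_)
    rw [map_mul]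
    refine mul_le_one' ?_ (hx _)
    split_ifs
    · exact hVw
    · rw [map_one]
  have hcvadd : cv b (X + s • ν) i = cv b X i + s * cv b ν i := by
    simp only [cv, Pi.add_apply, Pi.smul_apply, smul_eq_mul, Finset.mul_sum,
      ← Finset.sum_add_distrib]
    exact Finset.sum_congr rfl fun k _ => by ring
  obtain ⟨k0, hk0⟩ := Finite.exists_max (fun k => V (ν k))
  have hcvν : V (cv b ν i) ≤ V (ν k0) := by
    unfold cv
    refine Valuation.map_sum_le V fun k _ => ?_
    rw [map_mul]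
    exact (mul_le_mul' (hk0 k) (hb1 k i)).trans (mul_one _).le
  have hs1 : 1 < V (s * ν k0) := by
    by_contra h
    rw [not_lt] at h
    rw [hcvadd] at hi
    have h1 : V (s * cv b ν i) ≤ 1 := by
      rw [map_mul] at h ⊢
      exact (mul_le_mul' le_rfl hcvν).trans h
    exact absurd ((V.map_add _ _).trans (max_le (hx i) h1)) (not_le.2 hi)
  have hν0 : ν k0 ≠ 0 := by
    intro h
    rw [h, mul_zero, map_zero] at hs1
    exact absurd hs1 (not_lt.2 zero_le)
  have hs0 : s ≠ 0 := by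
    intro h
    rw [h, zero_mul, map_zero] at hs1
    exact absurd hs1 (not_lt.2 zero_le)
  obtain ⟨m0, hm0⟩ := Finite.exists_max (fun m => V (c m))
  have hcm : c m0 ≠ 0 := by
    intro h
    apply hc
    funext m
    have h1 := hm0 m
    rw [h, map_zero] at h1
    exact (Valuation.zero_iff V).1 (le_antisymm h1 zero_le)
  have hVc : V (c m0) ≠ 0 := (Valuation.ne_zero_iff V).2 hcm
  have hVν : V (ν k0) ≠ 0 := (Valuation.ne_zero_iff V).2 hν0
  have hc1 : ∀ m, V ((c m0)⁻¹ * c m) ≤ 1 := by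
    intro m
    rw [map_mul, map_inv₀]
    exact (mul_le_mul' le_rfl (hm0 m)).trans (inv_mul_cancel₀ hVc).le
  have hν1 : ∀ k, V ((ν k0)⁻¹ * ν k) ≤ 1 := by
    intro k
    rw [map_mul, map_inv₀]
    exact (mul_le_mul' le_rfl (hk0 k)).trans (inv_mul_cancel₀ hVν).le
  have eν : (fun k => (ν k0)⁻¹ * ν k) = (ν k0)⁻¹ • ν := rfl
  have hrel : s * ν k0 * ((c m0)⁻¹ * qf c ((ν k0)⁻¹ • ν)) =
      -((c m0)⁻¹ * qp c X ((ν k0)⁻¹ • ν)) := by
    rw [qf_add, hX, qf_smul, qp_smul, zero_add] at hX'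
    have h1 : s * qf c ν = - qp c X ν := by
      apply mul_left_cancel₀ hs0
      linear_combination hX'
    rw [qf_smul, qp_smul]
    field_simp
    linear_combination h1
  have hq : V ((c m0)⁻¹ * qf c ((ν k0)⁻¹ • ν)) < 1 := by
    have h1 : V ((c m0)⁻¹ * qp c X ((ν k0)⁻¹ • ν)) ≤ 1 := by
      rw [← K3a_qpc]
      have h2 := K3a_qp V.valuationSubring.subtype
        (fun m => ⟨(c m0)⁻¹ * c m, hc1 m⟩ : Fin 6 → V.valuationSubring)
        (fun k => ⟨X k, hX1 k⟩) (fun k => ⟨(ν k0)⁻¹ * ν k, hν1 k⟩)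
      have h3 : qp (fun i => (c m0)⁻¹ * c i) X ((ν k0)⁻¹ • ν) = V.valuationSubring.subtype _ :=
        h2.symm
      rw [h3]
      exact Subtype.prop (p := fun x : A => V x ≤ 1) _
    by_contra h
    rw [not_lt] at h
    have h2 := congrArg V hrel
    rw [Valuation.map_neg, map_mul] at h2
    rw [← h2] at h1
    have h3 : 1 < V (s * ν k0) * V ((c m0)⁻¹ * qf c ((ν k0)⁻¹ • ν)) :=
      lt_of_lt_of_le hs1 (le_mul_of_one_le_right' h)
    exact absurd h1 (not_le.2 h3)
  refine K3a_main V B0 K hBK htr u hu w hVw a b hbK hb1 (fun m => (c m0)⁻¹ * c m)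
    (fun m => K.mul_mem (K.inv_mem (hcK m0)) (hcK m)) hc1 ⟨m0, ?_⟩ X Y ((ν k0)⁻¹ • ν) hX1 hY1
    hν1 ⟨k0, ?_⟩ ?_ ?_ hXY ?_ ?_ ?_
  · rw [inv_mul_cancel₀ hcm, map_one]
  · rw [← eν]
    show V ((ν k0)⁻¹ * ν k0) = 1
    rw [inv_mul_cancel₀ hν0, map_one]
  · rw [K3a_qfc, hX, mul_zero]
  · rw [K3a_qfc, hY, mul_zero]
  · have h1 : cv b ((ν k0)⁻¹ • ν) a = (ν k0)⁻¹ * cv b ν a := by
      simp only [cv, Pi.smul_apply, smul_eq_mul, Finset.mul_sum]
      exact Finset.sum_congr rfl fun k _ => by ring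
    rw [h1, hν, mul_zero]
  · rw [K3a_qpc, qp_smul, hB, mul_zero, mul_zero]
  · rw [K3a_qfc]
    exact hq

end MP2619.Q5
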