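import Pool.Agent.Lib.MP_2619d0_ag.Q5.K2
import Pool.Agent.Lib.MP_2619d0_ag.Q5.K3a

/-!
Row 2619q5-K3b: the second intersection point is good.
-/

set_option autoImplicit false

namespace MP2619.Q5

open scoped NNReal
open IntermediateField MP2619.R MP2619.N Pool.Agent.Lib.MP_2619d0_ag Pool.Agent.Lib.MP_2619d0_ag.T

/-- the coefficients of the form after a change of the basis -/
private def K3_c {A : Type} [Field A] (c : Fin 6 → A) (g : Matrix (Fin 3) (Fin 3) A) : Fin 6 → A :=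
  ![qf c (g 0), qf c (g 1), qf c (g 2), qp c (g 1) (g 2), qp c (g 0) (g 2), qp c (g 0) (g 1)]

private theorem K3_vm {A : Type} [Field A] (g : Matrix (Fin 3) (Fin 3) A) (X : Fin 3 → A)
    (i : Fin 3) : (Matrix.vecMul X g) i = X 0 * g 0 i + X 1 * g 1 i + X 2 * g 2 i := by
  simp [Matrix.vecMul, dotProduct, Fin.sum_univ_three]

private theorem K3_qf {A : Type} [Field A] (c : Fin 6 → A) (g : Matrix (Fin 3) (Fin 3) A)
    (X : Fin 3 → A) : qf (K3_c c g) X = qf c (Matrix.vecMul X g) := by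
  have e0 : K3_c c g 0 = qf c (g 0) := rfl
  have e1 : K3_c c g 1 = qf c (g 1) := rfl
  have e2 : K3_c c g 2 = qf c (g 2) := rfl
  have e3 : K3_c c g 3 = qp c (g 1) (g 2) := rfl
  have e4 : K3_c c g 4 = qp c (g 0) (g 2) := rfl
  have e5 : K3_c c g 5 = qp c (g 0) (g 1) := rfl
  have h : qf (K3_c c g) X = qf c (g 0) * X 0 ^ 2 + qf c (g 1) * X 1 ^ 2 + qf c (g 2) * X 2 ^ 2 +
      qp c (g 1) (g 2) * (X 1 * X 2) + qp c (g 0) (g 2) * (X 0 * X 2) +
      qp c (g 0) (g 1) * (X 0 * X 1) := by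
    rw [← e0, ← e1, ← e2, ← e3, ← e4, ← e5]
    rfl
  rw [h]
  unfold qf qp
  rw [K3_vm, K3_vm, K3_vm]
  ring

private theorem K3_qp {A : Type} [Field A] (c : Fin 6 → A) (g : Matrix (Fin 3) (Fin 3) A)
    (X Y : Fin 3 → A) :
    qp (K3_c c g) X Y = qp c (Matrix.vecMul X g) (Matrix.vecMul Y g) := by
  have h1 := qf_add (K3_c c g) X Y
  have h2 := qf_add c (Matrix.vecMul X g) (Matrix.vecMul Y g)
  rw [← Matrix.add_vecMul, ← K3_qf, ← K3_qf, ← K3_qf, h1] at h2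
  exact add_left_cancel h2

private theorem K3_zero {A : Type} [Field A] (c : Fin 6 → A) (h : ∀ X : Fin 3 → A, qf c X = 0) :
    c = 0 := by
  have h0 := h ![1, 0, 0]
  have h1 := h ![0, 1, 0]
  have h2 := h ![0, 0, 1]
  have h3 := h ![0, 1, 1]
  have h4 := h ![1, 0, 1]
  have h5 := h ![1, 1, 0]
  simp [qf] at h0 h1 h2 h3 h4 h5
  simp [h0, h1, h2] at h3 h4 h5
  funext i
  fin_cases i
  · exact h0
  · exact h1
  · exact h2
  · exact h3
  · exact h4
  · exact h5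

private theorem K3_qfK {A : Type} [Field A] (K : Subfield A) (c : Fin 6 → A) (hc : ∀ i, c i ∈ K)
    (X : Fin 3 → A) (hX : ∀ i, X i ∈ K) : qf c X ∈ K := by
  unfold qf
  exact add_mem (add_mem (add_mem (add_mem (add_mem (mul_mem (hc 0) (pow_mem (hX 0) 2))
    (mul_mem (hc 1) (pow_mem (hX 1) 2))) (mul_mem (hc 2) (pow_mem (hX 2) 2)))
    (mul_mem (hc 3) (mul_mem (hX 1) (hX 2)))) (mul_mem (hc 4) (mul_mem (hX 0) (hX 2))))
    (mul_mem (hc 5) (mul_mem (hX 0) (hX 1)))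

private theorem K3_qpK {A : Type} [Field A] (K : Subfield A) (c : Fin 6 → A) (hc : ∀ i, c i ∈ K)
    (X Y : Fin 3 → A) (hX : ∀ i, X i ∈ K) (hY : ∀ i, Y i ∈ K) : qp c X Y ∈ K := by
  have h1 := qf_add c X Y
  have h2 : qp c X Y = qf c (X + Y) - qf c X - qf c Y := by rw [h1]; ring
  rw [h2]
  exact sub_mem (sub_mem (K3_qfK K c hc _ fun i => add_mem (hX i) (hY i)) (K3_qfK K c hc X hX))
    (K3_qfK K c hc Y hY)

/-- `lat` gives `g`; `b' = g * b` is an echelon basis; the coordinates with respect to `b'` are `X' = X * g⁻¹` (row vectors,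
`cv b X = cv b' X'`), `qf c X = qf c' X'` with `c'` over `K`, `c' ≠ 0` (six coefficients: values of the form `qf c (· g)` and
its polar form at unit vectors). -/
theorem cpl_good {A : Type} [Field A] (V : Valuation A ℝ≥0) (hV2 : V 2 < 1) (B0 K : Subfield A)
    (hBK : B0 ≤ K) (htr : ∀ a : Fin 3 → A, (∀ i, a i ∈ K) → ¬ AlgebraicIndependent B0 a)
    (u : Fin 6 → A) (hu : IsGauss B0 V u) (w : B0) (hw : w ^ 2 + w + 1 = 0) (a : Fin 6)
    (b : Fin 3 → Fin 6 → A) (hbK : ∀ k i, b k i ∈ K) (hb : LinearIndependent A b)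
    (c : Fin 6 → A) (hcK : ∀ i, c i ∈ K) (hc : c ≠ 0) (X Y : Fin 3 → A) (hX : qf c X = 0)
    (hY : qf c Y = 0) (hXY : ∀ i, (if i = a then (w : A) else 1) * cv b X i + cv b Y i = u i)
    (hx : ∀ i, V (cv b X i) ≤ 1) (ν : Fin 3 → A) (s : A) (hν : cv b ν a = 0)
    (hB : qp c (X + Y) ν = 0) (hX' : qf c (X + s • ν) = 0) : ∀ i, V (cv b (X + s • ν) i) ≤ 1 := by
  obtain ⟨g, r, hdet, hgK, hgiK, hr, hb1⟩ := lat V K b hbK hb
  set b' : Fin 3 → Fin 6 → A := fun k i => ∑ m, g k m * b m i with hb'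
  -- the change of the coordinates
  have hψφ : ∀ Z : Fin 3 → A, Matrix.vecMul (Matrix.vecMul Z g⁻¹) g = Z := by
    intro Z
    rw [Matrix.vecMul_vecMul, Matrix.nonsing_inv_mul g (isUnit_iff_ne_zero.2 hdet),
      Matrix.vecMul_one]
  have hcv0 : ∀ Z : Fin 3 → A, cv b' Z = cv b (Matrix.vecMul Z g) := by
    intro Z
    funext i
    show ∑ k, Z k * ∑ m, g k m * b m i = ∑ m, (Matrix.vecMul Z g) m * b m i
    simp only [Fin.sum_univ_three, K3_vm]
    ring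
  have hcv : ∀ Z : Fin 3 → A, cv b' (Matrix.vecMul Z g⁻¹) = cv b Z := by
    intro Z
    rw [hcv0, hψφ]
  have hs : Matrix.vecMul X g⁻¹ + s • Matrix.vecMul ν g⁻¹ =
      Matrix.vecMul (X + s • ν) g⁻¹ := by
    rw [Matrix.add_vecMul, Matrix.smul_vecMul]
  have key := cpl_good_ech V hV2 B0 K hBK htr u hu w hw a b'
    (fun k i => K.sum_mem fun m _ => mul_mem (hgK k m) (hbK m i)) r hr hb1 (K3_c c g) ?_ ?_
    (Matrix.vecMul X g⁻¹) (Matrix.vecMul Y g⁻¹) ?_ ?_ ?_ ?_ (Matrix.vecMul ν g⁻¹) s ?_ ?_ ?_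
  · intro i
    have h1 := key i
    rwa [hs, hcv] at h1
  · intro i
    fin_cases i
    · exact K3_qfK K c hcK _ fun i => hgK 0 i
    · exact K3_qfK K c hcK _ fun i => hgK 1 i
    · exact K3_qfK K c hcK _ fun i => hgK 2 i
    · exact K3_qpK K c hcK _ _ (fun i => hgK 1 i) fun i => hgK 2 i
    · exact K3_qpK K c hcK _ _ (fun i => hgK 0 i) fun i => hgK 2 i
    · exact K3_qpK K c hcK _ _ (fun i => hgK 0 i) fun i => hgK 1 i
  · intro h0
    apply hc
    apply K3_zero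
    intro Z
    rw [← hψφ Z, ← K3_qf, h0]
    simp [qf]
  · rw [K3_qf, hψφ, hX]
  · rw [K3_qf, hψφ, hY]
  · intro i
    rw [hcv, hcv]
    exact hXY i
  · intro i
    rw [hcv]
    exact hx i
  · rw [hcv]
    exact hν
  · rw [← Matrix.add_vecMul, K3_qp, hψφ, hψφ]
    exact hB
  · rw [hs, K3_qf, hψφ]
    exact hX'

end MP2619.Q5
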