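import Pool.Agent.Lib.MP_2619d0_ag.Q5.K4b

/-!
Row 2619q5-K4c: the involution on the field of two points of a conic (characteristic zero).
-/

set_option autoImplicit false

namespace MP2619.Q5

open IntermediateField

private theorem K4c_quad {K E : Type} [Field K] [Field E] [CharZero K] [Algebra K E]
    (L : IntermediateField K E) (ρ : E) (h1 : ρ ∉ L) (h2 : ρ ^ 2 ∈ L)
    (h3 : ∀ M : IntermediateField K E, L ≤ M → ρ ∈ M → M = ⊤) :
    ∃ ι : E ≃ₐ[K] E, (∀ a ∈ L, ι a = a) ∧ ι ρ = -ρ ∧ ∀ a, ι (ι a) = a := by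
  have hirr : Irreducible (Polynomial.X ^ 2 - Polynomial.C (⟨ρ ^ 2, h2⟩ : L) : Polynomial L) := by
    refine X_pow_sub_C_irreducible_of_prime Nat.prime_two fun b hb => h1 ?_
    have h4 : (b : E) ^ 2 = ρ ^ 2 := congrArg Subtype.val hb
    rcases sq_eq_sq_iff_eq_or_eq_neg.1 h4 with h5 | h5
    · rw [← h5]; exact b.2
    · have h6 : ρ = -(b : E) := by rw [h5, neg_neg]
      rw [h6]; exact neg_mem b.2
  have hmon : (Polynomial.X ^ 2 - Polynomial.C (⟨ρ ^ 2, h2⟩ : L) : Polynomial L).Monic := Polynomial.monic_X_pow_sub_C _ two_ne_zero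
  have hev : ∀ t : E, t ^ 2 = ρ ^ 2 → Polynomial.aeval t (Polynomial.X ^ 2 - Polynomial.C (⟨ρ ^ 2, h2⟩ : L) : Polynomial L) = 0 := by
    intro t ht
    rw [map_sub, map_pow, Polynomial.aeval_X, Polynomial.aeval_C, ht]
    exact sub_self _
  have hint : IsIntegral L ρ := ⟨_, hmon, hev ρ rfl⟩
  have hmin : Polynomial.X ^ 2 - Polynomial.C (⟨ρ ^ 2, h2⟩ : L) = minpoly L ρ :=
    minpoly.eq_of_irreducible_of_monic hirr (hev ρ rfl) hmon
  have htop : Algebra.adjoin L ({ρ} : Set E) = ⊤ := by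
    rw [← adjoin_simple_toSubalgebra_of_isAlgebraic hint.isAlgebraic]
    have h4 : (adjoin L ({ρ} : Set E)).restrictScalars K = ⊤ := by
      refine h3 _ (fun a ha => ?_) ?_
      · exact (adjoin L ({ρ} : Set E)).algebraMap_mem ⟨a, ha⟩
      · exact subset_adjoin L _ rfl
    have h5 : adjoin L ({ρ} : Set E) = ⊤ := by
      rw [eq_top_iff]
      intro a _
      have h6 : a ∈ (⊤ : IntermediateField K E) := mem_top
      rw [← h4] at h6
      exact h6
    rw [h5]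
    rfl
  set pb := PowerBasis.ofAdjoinEqTop hint htop with hpb
  have hgen : pb.gen = ρ := PowerBasis.ofAdjoinEqTop_gen hint htop
  set f : E →ₐ[L] E := pb.lift (-ρ) (by
    rw [hgen, ← hmin]; exact hev _ (neg_sq ρ)) with hf
  have hfρ : f ρ = -ρ := by
    have h6 : f pb.gen = -ρ := pb.lift_gen _ _
    rwa [hgen] at h6
  have hff : f.comp f = AlgHom.id L E := by
    refine AlgHom.ext_of_adjoin_eq_top htop ?_
    intro a ha
    rw [Set.mem_singleton_iff] at ha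
    rw [ha, AlgHom.comp_apply, hfρ, map_neg, hfρ, neg_neg]
    rfl
  refine ⟨(AlgEquiv.ofAlgHom f f hff hff).restrictScalars K, fun a ha => ?_, hfρ, fun a => ?_⟩
  · exact f.commutes ⟨a, ha⟩
  · exact DFunLike.congr_fun hff a

private theorem K4c_lf {R S : Type} [CommRing R] [CommRing S] (g : R →+* S) (l X : Fin 3 → R) :
    g (lf l X) = lf (fun i => g (l i)) (fun i => g (X i)) := by
  simp only [lf, map_add, map_mul]

private theorem K4c_qf {R S : Type} [CommRing R] [CommRing S] (g : R →+* S) (c : Fin 6 → R)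
    (X : Fin 3 → R) : g (qf c X) = qf (fun i => g (c i)) (fun i => g (X i)) := by
  simp only [qf, map_add, map_mul, map_pow]

private theorem K4c_qp {R S : Type} [CommRing R] [CommRing S] (g : R →+* S) (c : Fin 6 → R)
    (X Y : Fin 3 → R) :
    g (qp c X Y) = qp (fun i => g (c i)) (fun i => g (X i)) (fun i => g (Y i)) := by
  simp only [qp, map_add, map_mul, map_ofNat]

private theorem K4c_dt {R S : Type} [CommRing R] [CommRing S] (g : R →+* S) (c : Fin 6 → R) :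
    g (dt c) = dt (fun i => g (c i)) := by
  simp only [dt, map_add, map_sub, map_mul, map_ofNat]

private theorem K4c_mc {R S : Type} [CommRing R] [CommRing S] (g : R →+* S) (c : Fin 6 → R)
    (X : Fin 3 → R) (i : Fin 3) :
    g (mc c X i) = mc (fun i => g (c i)) (fun i => g (X i)) i := by
  fin_cases i <;> simp [mc, map_add, map_mul, map_ofNat]

private theorem K4c_cx {R S : Type} [CommRing R] [CommRing S] (g : R →+* S) (a b : Fin 3 → R)
    (i : Fin 3) : g (cx a b i) = cx (fun i => g (a i)) (fun i => g (b i)) i := by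
  fin_cases i <;> simp [cx, map_sub, map_mul]

private theorem K4c_nu {R S : Type} [CommRing R] [CommRing S] (g : R →+* S) (c : Fin 6 → R)
    (l X : Fin 3 → R) (i : Fin 3) :
    g (nu c l X i) = nu (fun i => g (c i)) (fun i => g (l i)) (fun i => g (X i)) i := by
  rw [nu, nu, K4c_cx]
  have h : (fun i => g (mc c X i)) = mc (fun i => g (c i)) (fun i => g (X i)) :=
    funext fun i => K4c_mc g c X i
  rw [h]

/-- Notation: `Z = X + Y`, `D = X - Y`, `ξ = lf l X`, `ν = nu c l Z`, `ρ = qp c X ν`. `qf_ne`, `qf_nu_ne`, `rho_not_mem`: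
`ρ ∉ L := K(Z, ξ)`, `ρ ^ 2 ∈ L` (`rho_sq`). `D` is in `L(ρ)` by `cramer` (`lf l D = 2 ξ - lf l Z`, `qp c Z D = 0`,
`qp c D ν = 2 ρ`), so `E1 = K(X, Y) = L(ρ)` is quadratic over `L`; `ι` = the automorphism over `L` with `ι ρ = - ρ`
(for instance the Galois group of the quadratic extension `E1/L`); by `cramer`
`ι D = D - (2 ρ / qf c ν) ν`, so `ι X = X - (ρ / qf c ν) ν` and `ι Y = Y + (ρ / qf c ν) ν`, `s = - ρ / qf c ν`. -/
theorem exists_iota {K N : Type} [Field K] [Field N] [CharZero K] [Algebra K N] (c : Fin 6 → K)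
    (hc : c ≠ 0) (l : Fin 3 → K) (X Y : Fin 3 → N)
    (hX : qf (fun i => algebraMap K N (c i)) X = 0) (hY : qf (fun i => algebraMap K N (c i)) Y = 0)
    (hind : AlgebraicIndependent K
      (Fin.cons (lf (fun i => algebraMap K N (l i)) X) (X + Y) : Fin 4 → N))
    (θ : N ≃ₐ[K] N) (hθX : ∀ i, θ (X i) = Y i) (hθY : ∀ i, θ (Y i) = X i) :
    ∃ (ι : adjoin K (Set.range X ∪ Set.range Y) ≃ₐ[K] adjoin K (Set.range X ∪ Set.range Y))
      (X1 Y1 ν : Fin 3 → adjoin K (Set.range X ∪ Set.range Y))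
      (s : adjoin K (Set.range X ∪ Set.range Y)),
      (∀ i, (X1 i : N) = X i) ∧ (∀ i, (Y1 i : N) = Y i) ∧ ι ≠ 1 ∧ (∀ a, ι (ι a) = a) ∧
      (∀ i, ι (X1 i) = X1 i + s * ν i) ∧ (∀ i, ι (Y1 i) = Y1 i - s * ν i) ∧
      lf (fun i => algebraMap K _ (l i)) ν = 0 ∧
      qp (fun i => algebraMap K _ (c i)) (X1 + Y1) ν = 0 := by
  have hindZ : AlgebraicIndependent K (X + Y) := hind.comp Fin.succ (Fin.succ_injective _)
  have hq1 := qf_ne c hc (X + Y) hindZ
  have hq2 := qf_nu_ne c hc l X Y hX hY hind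
  have hnm := rho_not_mem c l X Y hX hY hind θ hθX hθY hq1 hq2
  obtain ⟨E, hE⟩ : ∃ E, E = adjoin K (Set.range X ∪ Set.range Y) := ⟨_, rfl⟩
  rw [← hE]
  have hXm : ∀ i, X i ∈ E := fun i => hE ▸ subset_adjoin K _ (Or.inl ⟨i, rfl⟩)
  have hYm : ∀ i, Y i ∈ E := fun i => hE ▸ subset_adjoin K _ (Or.inr ⟨i, rfl⟩)
  obtain ⟨X1, hX1⟩ : ∃ X1 : Fin 3 → E, ∀ i, (X1 i : N) = X i := ⟨fun i => ⟨X i, hXm i⟩, fun _ => rfl⟩
  obtain ⟨Y1, hY1⟩ : ∃ Y1 : Fin 3 → E, ∀ i, (Y1 i : N) = Y i := ⟨fun i => ⟨Y i, hYm i⟩, fun _ => rfl⟩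
  have g : ∀ x : E, (E.val : E →+* N) x = (x : N) := fun _ => rfl
  obtain ⟨c1, hc1⟩ : ∃ c1 : Fin 6 → E, c1 = fun i => algebraMap K E (c i) := ⟨_, rfl⟩
  obtain ⟨l1, hl1⟩ : ∃ l1 : Fin 3 → E, l1 = fun i => algebraMap K E (l i) := ⟨_, rfl⟩
  obtain ⟨ν1, hν1⟩ : ∃ ν1 : Fin 3 → E, ν1 = nu c1 l1 (X1 + Y1) := ⟨_, rfl⟩
  obtain ⟨ρ, hρ⟩ : ∃ ρ : E, ρ = qp c1 X1 ν1 := ⟨_, rfl⟩
  have gc : (fun i => (E.val : E →+* N) (c1 i)) = fun i => algebraMap K N (c i) := by
    rw [hc1]; rfl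
  have gl : (fun i => (E.val : E →+* N) (l1 i)) = fun i => algebraMap K N (l i) := by
    rw [hl1]; rfl
  have gX : (fun i => (E.val : E →+* N) (X1 i)) = X := funext hX1
  have gY : (fun i => (E.val : E →+* N) (Y1 i)) = Y := funext hY1
  have gZ : (fun i => (E.val : E →+* N) ((X1 + Y1) i)) = X + Y := by
    funext i
    rw [Pi.add_apply, Pi.add_apply, map_add, g, g, hX1, hY1]
  have gν : (fun i => (E.val : E →+* N) (ν1 i)) =
      nu (fun i => algebraMap K N (c i)) (fun i => algebraMap K N (l i)) (X + Y) := by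
    funext i
    rw [hν1, K4c_nu, gc, gl, gZ]
  have gρ : (ρ : N) = qp (fun i => algebraMap K N (c i)) X
      (nu (fun i => algebraMap K N (c i)) (fun i => algebraMap K N (l i)) (X + Y)) := by
    rw [← g ρ, hρ, K4c_qp, gc, gX, gν]
  have inj : Function.Injective (E.val : E →+* N) := fun a b h => Subtype.ext h
  have hX0 : qf c1 X1 = 0 := by
    apply inj
    rw [K4c_qf, gc, gX, hX, map_zero]
  have hY0 : qf c1 Y1 = 0 := by
    apply inj
    rw [K4c_qf, gc, gY, hY, map_zero]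
  have hq0 : qf c1 ν1 ≠ 0 := by
    intro h
    have h1 := congrArg (E.val : E →+* N) h
    rw [K4c_qf, gc, gν, map_zero] at h1
    exact hq2 h1
  -- the field `L`
  have hLE : adjoin K (insert (lf (fun i => algebraMap K N (l i)) X) (Set.range (X + Y))) ≤ E := by
    rw [adjoin_le_iff]
    rintro z (rfl | ⟨i, rfl⟩)
    · have h1 : lf (fun i => algebraMap K N (l i)) X = ((lf l1 X1 : E) : N) := by
        rw [← g, K4c_lf, gl, gX]
      rw [h1]
      exact (lf l1 X1).2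
    · exact add_mem (hXm i) (hYm i)
  obtain ⟨L, hL⟩ : ∃ L : IntermediateField K E, ∀ x : E, x ∈ L ↔ (x : N) ∈
      adjoin K (insert (lf (fun i => algebraMap K N (l i)) X) (Set.range (X + Y))) :=
    ⟨restrict hLE, fun x => mem_restrict hLE x⟩
  have hZL : ∀ i, (X1 + Y1) i ∈ L := by
    intro i
    rw [hL]
    have h1 : (((X1 + Y1) i : E) : N) = (X + Y) i := by
      rw [← gZ]
      rfl
    rw [h1]
    exact subset_adjoin K _ (Or.inr ⟨i, rfl⟩)
  have hξL : lf l1 X1 ∈ L := by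
    rw [hL, ← g, K4c_lf, gl, gX]
    exact subset_adjoin K _ (Or.inl rfl)
  have hρL : ρ ∉ L := by
    rw [hL, gρ]
    exact hnm
  obtain ⟨Z2, hZ2⟩ : ∃ Z2 : Fin 3 → L, ∀ i, (Z2 i : E) = (X1 + Y1) i :=
    ⟨fun i => ⟨(X1 + Y1) i, hZL i⟩, fun _ => rfl⟩
  obtain ⟨ξ2, hξ2⟩ : ∃ ξ2 : L, (ξ2 : E) = lf l1 X1 := ⟨⟨_, hξL⟩, rfl⟩
  obtain ⟨c2, hc2⟩ : ∃ c2 : Fin 6 → L, ∀ i, (c2 i : E) = c1 i :=
    ⟨fun i => algebraMap K L (c i), fun i => by rw [hc1]; rfl⟩
  obtain ⟨l2, hl2⟩ : ∃ l2 : Fin 3 → L, ∀ i, (l2 i : E) = l1 i :=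
    ⟨fun i => algebraMap K L (l i), fun i => by rw [hl1]; rfl⟩
  obtain ⟨ν2, hν2⟩ : ∃ ν2 : Fin 3 → L, ν2 = nu c2 l2 Z2 := ⟨_, rfl⟩
  have fc : (fun i => (L.val : L →+* E) (c2 i)) = c1 := funext hc2
  have fl : (fun i => (L.val : L →+* E) (l2 i)) = l1 := funext hl2
  have fZ : (fun i => (L.val : L →+* E) (Z2 i)) = X1 + Y1 := funext hZ2
  have fν : (fun i => (L.val : L →+* E) (ν2 i)) = ν1 := by
    funext i
    rw [hν2, K4c_nu, fc, fl, fZ, hν1]
  have fν' : ∀ i, (ν2 i : E) = ν1 i := fun i => congrFun fν i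
  obtain ⟨q2, hq2'⟩ : ∃ q2 : L, (q2 : E) = qf c1 ν1 :=
    ⟨qf c2 ν2, by
      have h1 := K4c_qf (L.val : L →+* E) c2 ν2
      rw [fc, fν] at h1
      exact h1⟩
  have h2E : (2 : E) ≠ 0 := by
    have : CharZero E := charZero_of_injective_algebraMap (algebraMap K E).injective
    exact two_ne_zero
  have hρ2 : ρ ^ 2 ∈ L := by
    have h1 := rho_sq h2E c1 l1 X1 Y1 hX0 hY0
    rw [← hν1, ← hρ] at h1
    have h2 : ρ ^ 2 = ((- qf c2 Z2 * (qf c2 ν2 + 2 * dt c2 * (ξ2 - lf l2 Z2 / 2) ^ 2) : L) : E) := by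
      rw [h1]
      have e1 := K4c_qf (L.val : L →+* E) c2 Z2
      have e2 := K4c_qf (L.val : L →+* E) c2 ν2
      have e3 := K4c_dt (L.val : L →+* E) c2
      have e4 := K4c_lf (L.val : L →+* E) l2 Z2
      rw [fc, fZ] at e1
      rw [fc, fν] at e2
      rw [fc] at e3
      rw [fl, fZ] at e4
      rw [← e1, ← e2, ← e3, ← e4, ← hξ2]
      rfl
    rw [h2]
    exact SetLike.coe_mem _
  have key : ∃ A2 : Fin 3 → L, ∀ i, 2 * (q2 : E) * (X1 i - Y1 i) =
      (A2 i : E) + 2 * ρ * (ν2 i : E) := by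
    refine ⟨fun i => (2 * ξ2 - lf l2 Z2) * cx (mc c2 Z2) (mc c2 ν2) i, fun i => ?_⟩
    have h1 := cramer c1 l1 (X1 + Y1) (X1 - Y1) i
    rw [← hν1] at h1
    have h2 : qp c1 (X1 + Y1) (X1 - Y1) = 0 := by
      have h3 : qp c1 (X1 + Y1) (X1 - Y1) = 2 * (qf c1 X1 - qf c1 Y1) := by
        simp only [qf, qp, Pi.add_apply, Pi.sub_apply]
        ring
      rw [h3, hX0, hY0, sub_zero, mul_zero]
    have h4 : qp c1 (X1 - Y1) ν1 = 2 * ρ := by
      have h5 := nu_qp c1 l1 (X1 + Y1)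
      rw [← hν1] at h5
      have h6 : qp c1 (X1 - Y1) ν1 = 2 * qp c1 X1 ν1 - qp c1 (X1 + Y1) ν1 := by
        simp only [qp, Pi.add_apply, Pi.sub_apply]
        ring
      rw [h6, h5, sub_zero, ← hρ]
    have h7 : lf l1 (X1 - Y1) = 2 * lf l1 X1 - lf l1 (X1 + Y1) := by
      simp only [lf, Pi.add_apply, Pi.sub_apply]
      ring
    rw [h2, h4, h7, zero_mul, add_zero, Pi.sub_apply, ← hq2'] at h1
    rw [h1, fν']
    congr 1
    have e4 := K4c_lf (L.val : L →+* E) l2 Z2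
    rw [fl, fZ] at e4
    have e5 := K4c_cx (L.val : L →+* E) (mc c2 Z2) (mc c2 ν2) i
    have e6 : (fun i => (L.val : L →+* E) (mc c2 Z2 i)) = mc c1 (X1 + Y1) := by
      funext j
      rw [K4c_mc, fc, fZ]
    have e7 : (fun i => (L.val : L →+* E) (mc c2 ν2 i)) = mc c1 ν1 := by
      funext j
      rw [K4c_mc, fc, fν]
    rw [e6, e7] at e5
    rw [← e4, ← e5, ← hξ2]
    rfl
  obtain ⟨A2, hA2⟩ := key
  have hqE : (q2 : E) ≠ 0 := by rw [hq2']; exact hq0
  obtain ⟨ι, hι1, hι2, hι3⟩ := K4c_quad L ρ hρL hρ2 (by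
    intro M hLM hρM
    have hD : ∀ i, X1 i - Y1 i ∈ M := by
      intro i
      have h1 : X1 i - Y1 i = ((A2 i : E) + 2 * ρ * (ν2 i : E)) / (2 * (q2 : E)) := by
        rw [← hA2 i]
        field_simp
      have h2 : (2 : E) ∈ M := by
        have : (2 : E) = algebraMap K E 2 := by rw [map_ofNat]
        rw [this]
        exact M.algebraMap_mem 2
      rw [h1]
      exact div_mem (add_mem (hLM (A2 i).2) (mul_mem (mul_mem h2 hρM) (hLM (ν2 i).2)))
        (mul_mem h2 (hLM q2.2))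
    have h2 : (2 : E) ∈ M := by
      have : (2 : E) = algebraMap K E 2 := by rw [map_ofNat]
      rw [this]
      exact M.algebraMap_mem 2
    have hXM : ∀ i, X1 i ∈ M := by
      intro i
      have h1 : X1 i = ((X1 + Y1) i + (X1 i - Y1 i)) / 2 := by
        rw [Pi.add_apply]
        field_simp
        ring
      rw [h1]
      exact div_mem (add_mem (hLM (hZL i)) (hD i)) h2
    have hYM : ∀ i, Y1 i ∈ M := by
      intro i
      have h1 : Y1 i = (X1 + Y1) i - X1 i := by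
        rw [Pi.add_apply]
        ring
      rw [h1]
      exact sub_mem (hLM (hZL i)) (hXM i)
    rw [eq_top_iff]
    intro a _
    have h3 : E ≤ lift M := by
      refine hE.le.trans (adjoin_le_iff.2 ?_)
      rintro z (⟨i, rfl⟩ | ⟨i, rfl⟩)
      · rw [← hX1 i]
        exact (mem_lift (X1 i)).2 (hXM i)
      · rw [← hY1 i]
        exact (mem_lift (Y1 i)).2 (hYM i)
    exact (mem_lift a).1 (h3 a.2))
  have hιZ : ∀ i, ι (X1 i) + ι (Y1 i) = X1 i + Y1 i := by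
    intro i
    rw [← map_add]
    exact hι1 _ (hZL i)
  have hιD : ∀ i, 2 * (q2 : E) * (ι (X1 i) - ι (Y1 i)) = (A2 i : E) - 2 * ρ * (ν2 i : E) := by
    intro i
    have h1 := congrArg ι (hA2 i)
    rw [map_mul, map_mul, map_sub, map_add, map_mul, map_mul, map_ofNat, hι1 _ q2.2, hι1 _ (A2 i).2,
      hι1 _ (ν2 i).2, hι2] at h1
    rw [h1]
    ring
  have hνE : ∀ i, ν1 i = (ν2 i : E) := fun i => (fν' i).symm
  refine ⟨ι, X1, Y1, ν1, -ρ / q2, hX1, hY1, ?_, hι3, fun i => ?_, fun i => ?_, ?_, ?_⟩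
  · intro h
    rw [h] at hι2
    have h1 : ρ = -ρ := hι2
    have h3 : 2 * ρ = 0 := by linear_combination h1
    rcases mul_eq_zero.1 h3 with h4 | h4
    · exact h2E h4
    · exact hρL (h4 ▸ L.zero_mem)
  · have h1 := hιZ i
    have h2 := hιD i
    have h3 := hA2 i
    rw [hνE]
    field_simp
    have h4 : 4 * ((q2 : E) * ι (X1 i)) = 4 * ((q2 : E) * X1 i - ρ * (ν2 i : E)) := by
      linear_combination h2 - h3 + 2 * (q2 : E) * h1
    have h5 : (4 : E) ≠ 0 := by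
      have : (4 : E) = 2 * 2 := by norm_num
      rw [this]
      exact mul_ne_zero h2E h2E
    have h6 := mul_left_cancel₀ h5 h4
    linear_combination h6
  · have h1 := hιZ i
    have h2 := hιD i
    have h3 := hA2 i
    rw [hνE]
    field_simp
    have h4 : 4 * ((q2 : E) * ι (Y1 i)) = 4 * ((q2 : E) * Y1 i + ρ * (ν2 i : E)) := by
      linear_combination -h2 + h3 + 2 * (q2 : E) * h1
    have h5 : (4 : E) ≠ 0 := by
      have : (4 : E) = 2 * 2 := by norm_num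
      rw [this]
      exact mul_ne_zero h2E h2E
    have h6 := mul_left_cancel₀ h5 h4
    linear_combination h6
  · rw [← hl1, hν1]
    exact nu_lf c1 l1 _
  · rw [← hc1, hν1]
    exact nu_qp c1 l1 _

end MP2619.Q5
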