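import Pool.Agent.Lib.MP_2619d0_ag.Q5.CDefs

/-!
Row 2619q5-K4a: identities.
-/

set_option autoImplicit false

namespace MP2619.Q5

/-- the coefficients of the linear form `qp c Z` -/
def mc {R : Type} [CommRing R] (c : Fin 6 → R) (Z : Fin 3 → R) : Fin 3 → R :=
  ![2 * c 0 * Z 0 + c 5 * Z 1 + c 4 * Z 2, 2 * c 1 * Z 1 + c 5 * Z 0 + c 3 * Z 2,
    2 * c 2 * Z 2 + c 4 * Z 0 + c 3 * Z 1]

/-- cross product -/
def cx {R : Type} [CommRing R] (a b : Fin 3 → R) : Fin 3 → R :=
  ![a 1 * b 2 - a 2 * b 1, a 2 * b 0 - a 0 * b 2, a 0 * b 1 - a 1 * b 0]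

/-- the direction of the line `lf l = const`, `qp c Z = const` -/
def nu {R : Type} [CommRing R] (c : Fin 6 → R) (l Z : Fin 3 → R) : Fin 3 → R := cx l (mc c Z)

/-- the determinant of the Gram matrix -/
def dt {R : Type} [CommRing R] (c : Fin 6 → R) : R :=
  2 * c 0 * (2 * c 1 * (2 * c 2) - c 3 * c 3) - c 5 * (c 5 * (2 * c 2) - c 3 * c 4) +
    c 4 * (c 5 * c 3 - 2 * c 1 * c 4)

/-- `ring` -/
theorem nu_lf {R : Type} [CommRing R] (c : Fin 6 → R) (l Z : Fin 3 → R) : lf l (nu c l Z) = 0 := by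
  simp only [lf, nu, cx, Matrix.cons_val_zero, Matrix.cons_val_one, Matrix.cons_val]
  ring

/-- `ring` -/
theorem nu_qp {R : Type} [CommRing R] (c : Fin 6 → R) (l Z : Fin 3 → R) :
    qp c Z (nu c l Z) = 0 := by
  simp only [qp, nu, mc, cx, Matrix.cons_val_zero, Matrix.cons_val_one, Matrix.cons_val]
  ring

/-- the quadratic form of the adjugate of the Gram matrix -/
private def K4a_adj {R : Type} [CommRing R] (c : Fin 6 → R) (w : Fin 3 → R) : R :=
  (4 * c 1 * c 2 - c 3 ^ 2) * w 0 ^ 2 + (4 * c 0 * c 2 - c 4 ^ 2) * w 1 ^ 2 +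
    (4 * c 0 * c 1 - c 5 ^ 2) * w 2 ^ 2 + 2 * (c 4 * c 5 - 2 * c 0 * c 3) * (w 1 * w 2) +
    2 * (c 3 * c 5 - 2 * c 1 * c 4) * (w 0 * w 2) + 2 * (c 3 * c 4 - 2 * c 2 * c 5) * (w 0 * w 1)

private theorem K4a_gram {R : Type} [CommRing R] (c : Fin 6 → R) (A B : Fin 3 → R) :
    4 * qf c A * qf c B - qp c A B ^ 2 = K4a_adj c (cx A B) := by
  simp only [qf, qp, K4a_adj, cx, Matrix.cons_val_zero, Matrix.cons_val_one, Matrix.cons_val]
  ring

private theorem K4a_adj_mc {R : Type} [CommRing R] (c : Fin 6 → R) (Z : Fin 3 → R) :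
    K4a_adj c (mc c Z) = 2 * dt c * qf c Z := by
  simp only [qf, mc, K4a_adj, dt, Matrix.cons_val_zero, Matrix.cons_val_one, Matrix.cons_val]
  ring

private theorem K4a_cx {R : Type} [CommRing R] (D l m : Fin 3 → R) :
    cx D (cx l m) = lf m D • l - lf l D • m := by
  funext i
  fin_cases i <;>
  simp [cx, lf] <;>
  ring

private theorem K4a_adj_smul {R : Type} [CommRing R] (c : Fin 6 → R) (t : R) (w : Fin 3 → R) :
    K4a_adj c (t • w) = t ^ 2 * K4a_adj c w := by
  simp only [K4a_adj, Pi.smul_apply, smul_eq_mul]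
  ring

private theorem K4a_lf_mc {R : Type} [CommRing R] (c : Fin 6 → R) (Z D : Fin 3 → R) :
    lf (mc c Z) D = qp c Z D := by
  simp only [lf, mc, qp, Matrix.cons_val_zero, Matrix.cons_val_one, Matrix.cons_val]
  ring

private theorem K4a_qp_sub {R : Type} [CommRing R] (c : Fin 6 → R) (X Y : Fin 3 → R) :
    qp c (X + Y) (X - Y) = 2 * (qf c X - qf c Y) := by
  simp only [qp, qf, Pi.add_apply, Pi.sub_apply]
  ring

private theorem K4a_qf_sub {R : Type} [CommRing R] (c : Fin 6 → R) (X Y : Fin 3 → R) :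
    qf c (X - Y) = 2 * (qf c X + qf c Y) - qf c (X + Y) := by
  simp only [qf, Pi.add_apply, Pi.sub_apply]
  ring

private theorem K4a_qp_lin {R : Type} [CommRing R] (c : Fin 6 → R) (X Y v : Fin 3 → R) :
    qp c (X - Y) v + qp c (X + Y) v = 2 * qp c X v := by
  simp only [qp, Pi.add_apply, Pi.sub_apply]
  ring

private theorem K4a_lf_sub {R : Type} [CommRing R] (l X Y : Fin 3 → R) :
    lf l (X - Y) = 2 * lf l X - lf l (X + Y) := by
  simp only [lf, Pi.add_apply, Pi.sub_apply]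
  ring

/-- checked numerically: `linear_combination` with polynomial coefficients of `hX`, `hY`; for instance first for
`D = X - Y` the identities `qp c Z D = 2 (qf c X - qf c Y)`, `qf c Z + qf c D = 2 (qf c X + qf c Y)`, and the general identity
(Gram determinant) `2 qf c D * (2 qf c ν) - qp c D ν ^ 2 = adj (cx D ν)`, where `adj` is the quadratic form of the adjugate
of the Gram matrix, `cx D ν = lf (mc c Z) D • l - lf l D • mc c Z`, and `adj (mc c Z) = dt c * 2 * qf c Z`. -/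
theorem rho_sq {N : Type} [Field N] (h2 : (2 : N) ≠ 0) (c : Fin 6 → N) (l X Y : Fin 3 → N)
    (hX : qf c X = 0) (hY : qf c Y = 0) :
    qp c X (nu c l (X + Y)) ^ 2 = - qf c (X + Y) * (qf c (nu c l (X + Y)) +
      2 * dt c * (lf l X - lf l (X + Y) / 2) ^ 2) := by
  have h2' : (2 : N) ≠ 0 := h2
  set v := nu c l (X + Y) with hv
  have h1 : qp c (X - Y) v = 2 * qp c X v := by
    have h := K4a_qp_lin c X Y v
    rw [hv, nu_qp, add_zero] at h
    exact h
  have h2 := K4a_gram c (X - Y) v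
  have h3 : cx (X - Y) v = (- lf l (X - Y)) • mc c (X + Y) := by
    rw [hv, nu, K4a_cx, K4a_lf_mc, K4a_qp_sub, hX, hY, sub_self, mul_zero, zero_smul, zero_sub,
      neg_smul]
  have h4 : qf c (X - Y) = - qf c (X + Y) := by
    rw [K4a_qf_sub, hX, hY]
    ring
  rw [h3, K4a_adj_smul, K4a_adj_mc, h1, h4, K4a_lf_sub] at h2
  have h5 : (4 : N) ≠ 0 := by
    have : (4 : N) = 2 * 2 := by norm_num
    rw [this]
    exact mul_ne_zero h2' h2'
  have h6 : (4 : N) * (qp c X v ^ 2) = 4 * (- qf c (X + Y) * (qf c v +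
      2 * dt c * (lf l X - lf l (X + Y) / 2) ^ 2)) := by
    have h7 : lf l X - lf l (X + Y) / 2 = (2 * lf l X - lf l (X + Y)) / 2 := by
      field_simp
    rw [h7, div_pow]
    have h8 : (2 : N) ^ 2 = 4 := by norm_num
    rw [h8]
    have h9 : (4 : N) * (- qf c (X + Y) * (qf c v + 2 * dt c *
        ((2 * lf l X - lf l (X + Y)) ^ 2 / 4))) = - 4 * qf c (X + Y) * qf c v -
        qf c (X + Y) * (2 * dt c * (2 * lf l X - lf l (X + Y)) ^ 2) := by
      field_simp
      ring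
    rw [h9]
    linear_combination -h2
  exact mul_left_cancel₀ h5 h6

/-- Cramer's rule, `ring` -/
theorem cramer {R : Type} [CommRing R] (c : Fin 6 → R) (l Z D : Fin 3 → R) (i : Fin 3) :
    2 * qf c (nu c l Z) * D i = lf l D * cx (mc c Z) (mc c (nu c l Z)) i +
      qp c Z D * cx (mc c (nu c l Z)) l i + qp c D (nu c l Z) * nu c l Z i := by
  have h1 : qp c D (nu c l Z) = lf (mc c (nu c l Z)) D := by
    rw [K4a_lf_mc]
    simp only [qp]
    ring
  have h2 : 2 * qf c (nu c l Z) = lf (mc c (nu c l Z)) (nu c l Z) := by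
    simp only [qf, lf, mc, Matrix.cons_val_zero, Matrix.cons_val_one, Matrix.cons_val]
    ring
  rw [h1, h2, ← K4a_lf_mc, nu]
  generalize mc c (cx l (mc c Z)) = a
  generalize mc c Z = b
  fin_cases i <;>
  simp [cx, lf] <;>
  ring

end MP2619.Q5
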