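import Pool.Agent.Lib.MP_2619d0_ag.Q5.K1
import Pool.Agent.Lib.MP_2619d0_ag.Q5.K4a

/-!
Row 2619q5-K4b: `ρ` is not in `K(Z, ξ)`.
-/

set_option autoImplicit false

namespace MP2619.Q5

open IntermediateField

private theorem K4b_map_qf {R S : Type} [CommRing R] [CommRing S] (f : R →+* S) (c : Fin 6 → R)
    (X : Fin 3 → R) : f (qf c X) = qf (fun i => f (c i)) (fun i => f (X i)) := by
  simp only [qf, map_add, map_mul, map_pow]

private theorem K4b_map_qp {R S : Type} [CommRing R] [CommRing S] (f : R →+* S) (c : Fin 6 → R)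
    (X Y : Fin 3 → R) :
    f (qp c X Y) = qp (fun i => f (c i)) (fun i => f (X i)) (fun i => f (Y i)) := by
  simp only [qp, map_add, map_mul, map_ofNat]

private theorem K4b_map_lf {R S : Type} [CommRing R] [CommRing S] (f : R →+* S)
    (l X : Fin 3 → R) : f (lf l X) = lf (fun i => f (l i)) (fun i => f (X i)) := by
  simp only [lf, map_add, map_mul]

private theorem K4b_map_dt {R S : Type} [CommRing R] [CommRing S] (f : R →+* S)
    (c : Fin 6 → R) : f (dt c) = dt (fun i => f (c i)) := by
  simp only [dt, map_add, map_sub, map_mul, map_ofNat]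

private theorem K4b_map_nu {R S : Type} [CommRing R] [CommRing S] (f : R →+* S)
    (c : Fin 6 → R) (l Z : Fin 3 → R) (i : Fin 3) :
    f (nu c l Z i) = nu (fun i => f (c i)) (fun i => f (l i)) (fun i => f (Z i)) i := by
  fin_cases i <;> simp [nu, cx, mc, map_add, map_sub, map_mul, map_ofNat]

private theorem K4b_qf_zero {K : Type} [Field K] (c : Fin 6 → K)
    (h : ∀ x : Fin 3 → K, qf c x = 0) : c = 0 := by
  have h0 := h ![1, 0, 0]
  have h1 := h ![0, 1, 0]
  have h2 := h ![0, 0, 1]
  have h3 := h ![0, 1, 1]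
  have h4 := h ![1, 0, 1]
  have h5 := h ![1, 1, 0]
  simp only [qf, Matrix.cons_val_zero, Matrix.cons_val_one, Matrix.cons_val, one_pow, mul_one,
    mul_zero, add_zero, zero_add, ne_eq, OfNat.ofNat_ne_zero, not_false_eq_true, zero_pow] at h0 h1 h2 h3 h4 h5
  funext i
  fin_cases i
  · exact h0
  · exact h1
  · exact h2
  · change c 3 = 0
    rw [h1, h2] at h3
    simpa using h3
  · change c 4 = 0
    rw [h0, h2] at h4
    simpa using h4
  · change c 5 = 0
    rw [h0, h1] at h5
    simpa using h5

/-- `Z = X + Y` has algebraically independent coordinates and `c ≠ 0`. -/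
theorem qf_ne {K N : Type} [Field K] [Field N] [Algebra K N] (c : Fin 6 → K)
    (hc : c ≠ 0) (Z : Fin 3 → N) (hind : AlgebraicIndependent K Z) :
    qf (fun i => algebraMap K N (c i)) Z ≠ 0 := by
  intro h0
  apply hc
  let P : MvPolynomial (Fin 3) K := qf (fun i => MvPolynomial.C (c i)) (fun i => MvPolynomial.X i)
  have h1 : MvPolynomial.aeval Z P = 0 := by
    rw [← h0]
    change (MvPolynomial.aeval Z : MvPolynomial (Fin 3) K →ₐ[K] N).toRingHom _ = _
    rw [K4b_map_qf]
    congr 1
    · funext i
      exact MvPolynomial.aeval_C _ _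
    · funext i
      exact MvPolynomial.aeval_X _ _
  have h2 : P = 0 := hind.eq_zero_of_aeval_eq_zero P h1
  apply K4b_qf_zero
  intro x
  have h3 : MvPolynomial.eval x P = qf c x := by
    change (MvPolynomial.eval x) (qf _ _) = _
    rw [K4b_map_qf]
    congr 1
    · funext i
      exact MvPolynomial.eval_C _
    · funext i
      exact MvPolynomial.eval_X _
  rw [← h3, h2, map_zero]

private theorem K4b_isotropic {F : Type} [Field F] [IsAlgClosed F] (c : Fin 6 → F)
    (u v : Fin 3 → F) (huv : ∀ s t : F, s • u + t • v = 0 → s = 0 ∧ t = 0) :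
    ∃ s t : F, s • u + t • v ≠ 0 ∧ qf c (s • u + t • v) = 0 := by
  have hq : ∀ s t : F, qf c (s • u + t • v) = s ^ 2 * qf c u + s * t * qp c u v +
      t ^ 2 * qf c v := by
    intro s t
    simp only [qf, qp, Pi.add_apply, Pi.smul_apply, smul_eq_mul]
    ring
  by_cases hA : qf c u = 0
  · refine ⟨1, 0, fun h => ?_, ?_⟩
    · exact one_ne_zero (huv 1 0 h).1
    · rw [hq, hA]
      ring
  · obtain ⟨s, hs⟩ := IsAlgClosed.exists_root
      (Polynomial.C (qf c u) * Polynomial.X ^ 2 + Polynomial.C (qp c u v) * Polynomial.X +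
        Polynomial.C (qf c v)) (by
        rw [Polynomial.degree_quadratic hA]
        norm_num)
    refine ⟨s, 1, fun h => ?_, ?_⟩
    · exact one_ne_zero (huv s 1 h).2
    · rw [hq]
      simp only [Polynomial.IsRoot, Polynomial.eval_add, Polynomial.eval_mul, Polynomial.eval_C,
        Polynomial.eval_pow, Polynomial.eval_X] at hs
      linear_combination hs

private theorem K4b_kernel {F : Type} [Field F] [IsAlgClosed F] (c : Fin 6 → F)
    (l : Fin 3 → F) (hl : l ≠ 0) : ∃ w : Fin 3 → F, w ≠ 0 ∧ lf l w = 0 ∧ qf c w = 0 := by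
  have hex : ∃ u v : Fin 3 → F, (∀ s t : F, s • u + t • v = 0 → s = 0 ∧ t = 0) ∧
      lf l u = 0 ∧ lf l v = 0 := by
    obtain ⟨i, hi⟩ : ∃ i, l i ≠ 0 := by
      by_contra hcon
      push Not at hcon
      exact hl (funext hcon)
    fin_cases i
    · refine ⟨![- l 1, l 0, 0], ![- l 2, 0, l 0], fun s t hst => ?_, ?_, ?_⟩
      · have h1 := congrFun hst 1
        have h2 := congrFun hst 2
        simp at h1 h2 hi
        exact ⟨h1.resolve_right hi, h2.resolve_right hi⟩
      · simp [lf]; ring
      · simp [lf]; ring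
    · refine ⟨![l 1, - l 0, 0], ![0, - l 2, l 1], fun s t hst => ?_, ?_, ?_⟩
      · have h1 := congrFun hst 0
        have h2 := congrFun hst 2
        simp at h1 h2 hi
        exact ⟨h1.resolve_right hi, h2.resolve_right hi⟩
      · simp [lf]; ring
      · simp [lf]; ring
    · refine ⟨![l 2, 0, - l 0], ![0, l 2, - l 1], fun s t hst => ?_, ?_, ?_⟩
      · have h1 := congrFun hst 0
        have h2 := congrFun hst 1
        simp at h1 h2 hi
        exact ⟨h1.resolve_right hi, h2.resolve_right hi⟩
      · simp [lf]; ring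
      · simp [lf]; ring
  obtain ⟨u, v, huv, hu, hv⟩ := hex
  obtain ⟨s, t, h1, h2⟩ := K4b_isotropic c u v huv
  refine ⟨_, h1, ?_, h2⟩
  have : lf l (s • u + t • v) = s * lf l u + t * lf l v := by
    simp only [lf, Pi.add_apply, Pi.smul_apply, smul_eq_mul]
    ring
  rw [this, hu, hv]
  ring

private theorem K4b_parallel {F : Type} [Field F] (l m : Fin 3 → F) (hl : l ≠ 0)
    (h : cx l m = 0) : ∃ s : F, m = s • l := by
  obtain ⟨i, hi⟩ : ∃ i, l i ≠ 0 := by
    by_contra hcon
    push Not at hcon
    exact hl (funext hcon)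
  have h0 : l 1 * m 2 - l 2 * m 1 = 0 := congrFun h 0
  have h1 : l 2 * m 0 - l 0 * m 2 = 0 := congrFun h 1
  have h2 : l 0 * m 1 - l 1 * m 0 = 0 := congrFun h 2
  refine ⟨m i / l i, ?_⟩
  have key : ∀ j, m j * l i = m i * l j := by
    intro j
    fin_cases i <;> fin_cases j <;> simp <;> (first
      | linear_combination h0
      | linear_combination -h0
      | linear_combination h1
      | linear_combination -h1
      | linear_combination h2
      | linear_combination -h2)
  funext j
  rw [Pi.smul_apply, smul_eq_mul, div_mul_eq_mul_div, eq_div_iff hi]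
  exact key j

private theorem K4b_lf_mc {R : Type} [CommRing R] (c : Fin 6 → R) (Z D : Fin 3 → R) :
    qp c Z D = mc c Z 0 * D 0 + mc c Z 1 * D 1 + mc c Z 2 * D 2 := by
  simp only [mc, qp, Matrix.cons_val_zero, Matrix.cons_val_one, Matrix.cons_val]
  ring

private theorem K4b_map_mc {R S : Type} [CommRing R] [CommRing S] (f : R →+* S)
    (c : Fin 6 → R) (Z : Fin 3 → R) (i : Fin 3) :
    f (mc c Z i) = mc (fun i => f (c i)) (fun i => f (Z i)) i := by
  fin_cases i <;> simp [mc, map_add, map_mul, map_ofNat]

/-- If `ν := nu c l Z ≠ 0`: `CH` (`nu_lf`, `nu_qp`). If `ν = 0`: `l ≠ 0` (because `lf l X ≠ 0`), so `mc c Z` is a multiple of `l`;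
take a non-zero vector `ν'` over the algebraic closure of `N` with `lf l ν' = 0`, `qf c ν' = 0` (a binary quadratic form has a
non-trivial zero); `qp c Z ν' = lf (mc c Z) ν' = 0`: contradiction to `CH` over the algebraic closure of `N`. -/
theorem qf_nu_ne {K N : Type} [Field K] [Field N] [Algebra K N] (c : Fin 6 → K)
    (hc : c ≠ 0) (l : Fin 3 → K) (X Y : Fin 3 → N)
    (hX : qf (fun i => algebraMap K N (c i)) X = 0) (hY : qf (fun i => algebraMap K N (c i)) Y = 0)
    (hind : AlgebraicIndependent K
      (Fin.cons (lf (fun i => algebraMap K N (l i)) X) (X + Y) : Fin 4 → N)) :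
    qf (fun i => algebraMap K N (c i))
      (nu (fun i => algebraMap K N (c i)) (fun i => algebraMap K N (l i)) (X + Y)) ≠ 0 := by
  intro h0
  by_cases hν : nu (fun i => algebraMap K N (c i)) (fun i => algebraMap K N (l i)) (X + Y) = 0
  · have hl : (fun i => algebraMap K N (l i)) ≠ 0 := by
      intro h
      have h1 := hind.ne_zero 0
      rw [Fin.cons_zero, h] at h1
      simp [lf] at h1
    obtain ⟨s, hs⟩ := K4b_parallel _ (mc (fun i => algebraMap K N (c i)) (X + Y)) hl hν
    have htow : ∀ x : K, algebraMap N (AlgebraicClosure N) (algebraMap K N x) =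
        algebraMap K (AlgebraicClosure N) x :=
      fun x => (IsScalarTower.algebraMap_apply K N (AlgebraicClosure N) x).symm
    have hl1 : (fun i => algebraMap K (AlgebraicClosure N) (l i)) ≠ 0 := by
      intro h
      apply hl
      funext i
      have h1 := congrFun h i
      rw [← htow, Pi.zero_apply] at h1
      exact (map_eq_zero _).1 h1
    obtain ⟨w, hw0, hw1, hw2⟩ := K4b_kernel
      (fun i => algebraMap K (AlgebraicClosure N) (c i))
      (fun i => algebraMap K (AlgebraicClosure N) (l i)) hl1
    have hX1 : qf (fun i => algebraMap K (AlgebraicClosure N) (c i))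
        (fun i => algebraMap N (AlgebraicClosure N) (X i)) = 0 := by
      have h1 := congrArg (algebraMap N (AlgebraicClosure N)) hX
      rw [K4b_map_qf, map_zero] at h1
      simpa only [htow] using h1
    have hY1 : qf (fun i => algebraMap K (AlgebraicClosure N) (c i))
        (fun i => algebraMap N (AlgebraicClosure N) (Y i)) = 0 := by
      have h1 := congrArg (algebraMap N (AlgebraicClosure N)) hY
      rw [K4b_map_qf, map_zero] at h1
      simpa only [htow] using h1
    have hZ1 : (fun i => algebraMap N (AlgebraicClosure N) (X i)) +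
        (fun i => algebraMap N (AlgebraicClosure N) (Y i)) =
        fun i => algebraMap N (AlgebraicClosure N) ((X + Y) i) := by
      funext i
      rw [Pi.add_apply, Pi.add_apply, map_add]
    have hind1 : AlgebraicIndependent K
        (Fin.cons (lf (fun i => algebraMap K (AlgebraicClosure N) (l i))
          (fun i => algebraMap N (AlgebraicClosure N) (X i)))
          ((fun i => algebraMap N (AlgebraicClosure N) (X i)) +
            (fun i => algebraMap N (AlgebraicClosure N) (Y i))) :
          Fin 4 → AlgebraicClosure N) := by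
      have h1 := hind.map' (f := IsScalarTower.toAlgHom K N (AlgebraicClosure N))
        (algebraMap N (AlgebraicClosure N)).injective
      have h2 : (IsScalarTower.toAlgHom K N (AlgebraicClosure N)) ∘
          (Fin.cons (lf (fun i => algebraMap K N (l i)) X) (X + Y) : Fin 4 → N) =
          (Fin.cons (lf (fun i => algebraMap K (AlgebraicClosure N) (l i))
          (fun i => algebraMap N (AlgebraicClosure N) (X i)))
          ((fun i => algebraMap N (AlgebraicClosure N) (X i)) +
            (fun i => algebraMap N (AlgebraicClosure N) (Y i))) :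
          Fin 4 → AlgebraicClosure N) := by
        rw [hZ1]
        funext i
        refine Fin.cases ?_ (fun i => ?_) i
        · rw [Function.comp_apply, Fin.cons_zero, Fin.cons_zero]
          change algebraMap N (AlgebraicClosure N) (lf _ _) = _
          rw [K4b_map_lf]
          simp only [htow]
        · rfl
      rw [h2] at h1
      exact h1
    have hqp : qp (fun i => algebraMap K (AlgebraicClosure N) (c i))
        ((fun i => algebraMap N (AlgebraicClosure N) (X i)) +
            (fun i => algebraMap N (AlgebraicClosure N) (Y i))) w = 0 := by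
      have hm : ∀ i, mc (fun i => algebraMap K (AlgebraicClosure N) (c i))
          (fun i => algebraMap N (AlgebraicClosure N) ((X + Y) i)) i =
          algebraMap N (AlgebraicClosure N) s * algebraMap K (AlgebraicClosure N) (l i) := by
        intro i
        have h1 := congrArg (algebraMap N (AlgebraicClosure N)) (congrFun hs i)
        rw [K4b_map_mc, Pi.smul_apply, smul_eq_mul, map_mul, htow] at h1
        simpa only [htow] using h1
      rw [hZ1, K4b_lf_mc, hm, hm, hm]
      simp only [lf] at hw1
      linear_combination (algebraMap N (AlgebraicClosure N) s) * hw1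
    exact CH c hc l _ _ w hX1 hY1 hind1 hw0 hw1 hw2 hqp
  · exact CH c hc l X Y _ hX hY hind hν (nu_lf _ _ _) h0 (nu_qp _ _ _)

/-- `L0 = K(Z)`, `ξ' = lf l X - lf l Z / 2` is transcendental over `L0`, `K(Z, ξ) = L0(ξ')`. `θ` is the identity on `L0`,
`θ ξ' = - ξ'`, `θ ρ = - ρ` (`ρ = qp c X ν`, `qp c Y ν = - ρ` by `nu_qp`). Suppose `ρ = R(ξ')`, `R ∈ L0(t)`.
`ρ ^ 2 = a ξ' ^ 2 + b`, `a, b ∈ L0`, `b = - qf c Z * qf c ν ≠ 0` (`rho_sq`). So `R ^ 2 = a t ^ 2 + b` is a polynomial, `R ∈ L0[t]`
(integrally closed), `R(-t) = - R(t)`, so `R` has constant coefficient `0` and `b = 0`: contradiction. -/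
theorem rho_not_mem {K N : Type} [Field K] [Field N] [CharZero K] [Algebra K N] (c : Fin 6 → K)
    (l : Fin 3 → K) (X Y : Fin 3 → N)
    (hX : qf (fun i => algebraMap K N (c i)) X = 0) (hY : qf (fun i => algebraMap K N (c i)) Y = 0)
    (hind : AlgebraicIndependent K
      (Fin.cons (lf (fun i => algebraMap K N (l i)) X) (X + Y) : Fin 4 → N))
    (θ : N ≃ₐ[K] N) (hθX : ∀ i, θ (X i) = Y i) (hθY : ∀ i, θ (Y i) = X i)
    (hq1 : qf (fun i => algebraMap K N (c i)) (X + Y) ≠ 0)
    (hq2 : qf (fun i => algebraMap K N (c i))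
      (nu (fun i => algebraMap K N (c i)) (fun i => algebraMap K N (l i)) (X + Y)) ≠ 0) :
    qp (fun i => algebraMap K N (c i)) X
      (nu (fun i => algebraMap K N (c i)) (fun i => algebraMap K N (l i)) (X + Y)) ∉
      adjoin K (insert (lf (fun i => algebraMap K N (l i)) X) (Set.range (X + Y))) := by
  intro hmem
  have hN0 : CharZero N := charZero_of_injective_algebraMap (algebraMap K N).injective
  have hN2 : (2 : N) ≠ 0 := two_ne_zero
  have hrho := rho_sq hN2 (fun i => algebraMap K N (c i)) (fun i => algebraMap K N (l i)) X Y hX hY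
  have hθc : ∀ x : K, θ (algebraMap K N x) = algebraMap K N x := fun x => θ.commutes x
  -- the conjugate of `ρ`
  have hθZ : ∀ i, θ ((X + Y) i) = (X + Y) i := by
    intro i
    rw [Pi.add_apply, map_add, hθX, hθY, add_comm]
  have hθρ : θ (qp (fun i => algebraMap K N (c i)) X
      (nu (fun i => algebraMap K N (c i)) (fun i => algebraMap K N (l i)) (X + Y))) =
      - qp (fun i => algebraMap K N (c i)) X
      (nu (fun i => algebraMap K N (c i)) (fun i => algebraMap K N (l i)) (X + Y)) := by
    have h1 := K4b_map_qp (θ : N →+* N) (fun i => algebraMap K N (c i)) X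
      (nu (fun i => algebraMap K N (c i)) (fun i => algebraMap K N (l i)) (X + Y))
    simp only [K4b_map_nu] at h1
    have h2 : (fun i => (θ : N →+* N) (algebraMap K N (c i))) = fun i => algebraMap K N (c i) :=
      funext fun i => hθc _
    have h3 : (fun i => (θ : N →+* N) (algebraMap K N (l i))) = fun i => algebraMap K N (l i) :=
      funext fun i => hθc _
    have h4 : (fun i => (θ : N →+* N) ((X + Y) i)) = X + Y := funext fun i => hθZ i
    have h5 : (fun i => (θ : N →+* N) (X i)) = Y := funext fun i => hθX i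
    rw [h2, h3, h4, h5] at h1
    have h6 := nu_qp (fun i => algebraMap K N (c i)) (fun i => algebraMap K N (l i)) (X + Y)
    have h7 : ∀ v, qp (fun i => algebraMap K N (c i)) (X + Y) v =
        qp (fun i => algebraMap K N (c i)) X v + qp (fun i => algebraMap K N (c i)) Y v := by
      intro v
      simp only [qp, Pi.add_apply]
      ring
    rw [h7] at h6
    refine h1.trans ?_
    exact eq_neg_of_add_eq_zero_right h6
  have hθξ : θ (lf (fun i => algebraMap K N (l i)) X - lf (fun i => algebraMap K N (l i)) (X + Y) / 2) =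
      - (lf (fun i => algebraMap K N (l i)) X - lf (fun i => algebraMap K N (l i)) (X + Y) / 2) := by
    have h1 := K4b_map_lf (θ : N →+* N) (fun i => algebraMap K N (l i)) X
    have h1' := K4b_map_lf (θ : N →+* N) (fun i => algebraMap K N (l i)) (X + Y)
    have h3 : (fun i => (θ : N →+* N) (algebraMap K N (l i))) = fun i => algebraMap K N (l i) :=
      funext fun i => hθc _
    have h4 : (fun i => (θ : N →+* N) ((X + Y) i)) = X + Y := funext fun i => hθZ i
    have h5 : (fun i => (θ : N →+* N) (X i)) = Y := funext fun i => hθX i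
    rw [h3, h5] at h1
    rw [h3, h4] at h1'
    have h6 : θ (lf (fun i => algebraMap K N (l i)) X) = lf (fun i => algebraMap K N (l i)) Y := h1
    have h7 : θ (lf (fun i => algebraMap K N (l i)) (X + Y)) =
        lf (fun i => algebraMap K N (l i)) (X + Y) := h1'
    rw [map_sub, map_div₀, h6, h7, map_ofNat]
    have h8 : lf (fun i => algebraMap K N (l i)) (X + Y) =
        lf (fun i => algebraMap K N (l i)) X + lf (fun i => algebraMap K N (l i)) Y := by
      simp only [lf, Pi.add_apply]
      ring
    rw [h8]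
    field_simp
    ring
  obtain ⟨-, htr⟩ := (MP2619.R.ind_cons _ _).1 hind
  -- the field of the sums
  set L0 := adjoin K (Set.range (X + Y)) with hL0
  have hZmem : ∀ i, (X + Y) i ∈ L0 := fun i => subset_adjoin _ _ ⟨i, rfl⟩
  have hfix : ∀ x ∈ L0, θ x = x := by
    intro x hx
    rw [hL0] at hx
    induction hx using adjoin_induction with
    | mem x hx =>
      obtain ⟨i, rfl⟩ := hx
      exact hθZ i
    | algebraMap x => exact hθc x
    | add x y _ _ hx hy => rw [map_add, hx, hy]
    | inv x _ hx => rw [map_inv₀, hx]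
    | mul x y _ _ hx hy => rw [map_mul, hx, hy]
  let θ' : N →ₐ[L0] N := { (θ : N →+* N) with commutes' := fun x => hfix x x.2 }
  have hθ' : ∀ x, θ' x = θ x := fun _ => rfl
  let cL : Fin 6 → L0 := fun i => algebraMap K L0 (c i)
  let lL : Fin 3 → L0 := fun i => algebraMap K L0 (l i)
  let ZL : Fin 3 → L0 := fun i => ⟨(X + Y) i, hZmem i⟩
  have hcL : (fun i => algebraMap L0 N (cL i)) = fun i => algebraMap K N (c i) :=
    funext fun i => (IsScalarTower.algebraMap_apply K L0 N (c i)).symm
  have hlL : (fun i => algebraMap L0 N (lL i)) = fun i => algebraMap K N (l i) :=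
    funext fun i => (IsScalarTower.algebraMap_apply K L0 N (l i)).symm
  have hZL : (fun i => algebraMap L0 N (ZL i)) = X + Y := rfl
  have hqfZ : algebraMap L0 N (qf cL ZL) = qf (fun i => algebraMap K N (c i)) (X + Y) := by
    rw [K4b_map_qf, hcL, hZL]
  have hdt : algebraMap L0 N (dt cL) = dt (fun i => algebraMap K N (c i)) := by
    rw [K4b_map_dt, hcL]
  have hnu : algebraMap L0 N (qf cL (nu cL lL ZL)) = qf (fun i => algebraMap K N (c i))
      (nu (fun i => algebraMap K N (c i)) (fun i => algebraMap K N (l i)) (X + Y)) := by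
    rw [K4b_map_qf, hcL]
    simp only [K4b_map_nu]
    rw [hcL, hlL, hZL]
  have hlf : algebraMap L0 N (lf lL ZL) = lf (fun i => algebraMap K N (l i)) (X + Y) := by
    rw [K4b_map_lf, hlL, hZL]
  set ρ := qp (fun i => algebraMap K N (c i)) X
      (nu (fun i => algebraMap K N (c i)) (fun i => algebraMap K N (l i)) (X + Y)) with hρ
  set ξ := lf (fun i => algebraMap K N (l i)) X with hξ
  set ξ' := ξ - lf (fun i => algebraMap K N (l i)) (X + Y) / 2 with hξ'
  have hμ : lf (fun i => algebraMap K N (l i)) (X + Y) / 2 = algebraMap L0 N (lf lL ZL / 2) := by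
    rw [map_div₀, hlf, map_ofNat]
  set a : L0 := - qf cL ZL * (2 * dt cL) with ha
  set b : L0 := - qf cL ZL * qf cL (nu cL lL ZL) with hb
  have hb0 : b ≠ 0 := by
    intro h
    have h1 := congrArg (algebraMap L0 N) h
    rw [hb, map_mul, map_neg, hqfZ, hnu, map_zero] at h1
    rcases mul_eq_zero.1 h1 with h2 | h2
    · exact hq1 (neg_eq_zero.1 h2)
    · exact hq2 h2
  have hρ2 : ρ ^ 2 = algebraMap L0 N a * ξ' ^ 2 + algebraMap L0 N b := by
    rw [hrho, ha, hb, map_mul, map_mul, map_mul, map_neg, hqfZ, hnu, hdt, map_ofNat]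
    ring
  clear_value a b
  have htr' : Transcendental L0 ξ' := by
    intro halg
    apply htr
    have h1 : ξ = ξ' + algebraMap L0 N (lf lL ZL / 2) := by
      rw [hξ', hμ]
      ring
    rw [h1]
    exact halg.add (isAlgebraic_algebraMap _)
  have hinj := transcendental_iff_injective.1 htr'
  have hmem' : ρ ∈ adjoin L0 {ξ'} := by
    have h1 : adjoin K (insert ξ (Set.range (X + Y))) ≤ (adjoin L0 {ξ'}).restrictScalars K := by
      rw [adjoin_le_iff]
      rintro y (rfl | ⟨i, rfl⟩)
      · change _ ∈ adjoin L0 {ξ'}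
        have h1 : ξ = ξ' + algebraMap L0 N (lf lL ZL / 2) := by
          rw [hξ', hμ]
          ring
        rw [h1]
        exact add_mem (mem_adjoin_simple_self _ _) (IntermediateField.algebraMap_mem _ _)
      · change (X + Y) i ∈ adjoin L0 {ξ'}
        exact IntermediateField.algebraMap_mem (adjoin L0 {ξ'}) (ZL i)
    exact h1 hmem
  -- `ρ` is a polynomial in `ξ'`
  obtain ⟨R, hR⟩ : ∃ R : Polynomial L0, ρ = Polynomial.aeval ξ' R := by
    obtain ⟨P, Q, hPQ⟩ := (mem_adjoin_simple_iff L0 ρ).1 hmem'
    by_cases hQ : Q = 0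
    · refine ⟨0, ?_⟩
      rw [hPQ, hQ, map_zero, div_zero]
    · have hQ' : Polynomial.aeval ξ' Q ≠ 0 := by
        intro h
        apply hQ
        apply hinj
        rw [h, map_zero]
      have h1 : P ^ 2 = Q ^ 2 * (Polynomial.C a * Polynomial.X ^ 2 + Polynomial.C b) := by
        apply hinj
        rw [map_pow, map_mul, map_pow, map_add, map_mul, map_pow, Polynomial.aeval_C,
          Polynomial.aeval_C, Polynomial.aeval_X, ← hρ2, hPQ]
        field_simp
      have h2 : Q ∣ P := by
        rw [← IsIntegrallyClosed.pow_dvd_pow_iff (n := 2) two_ne_zero]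
        exact ⟨_, h1⟩
      obtain ⟨R, rfl⟩ := h2
      refine ⟨R, ?_⟩
      rw [hPQ, map_mul]
      field_simp
  have hR2 : R ^ 2 = Polynomial.C a * Polynomial.X ^ 2 + Polynomial.C b := by
    apply hinj
    rw [map_pow, ← hR, hρ2, map_add, map_mul, map_pow, Polynomial.aeval_C, Polynomial.aeval_C,
      Polynomial.aeval_X]
  have hRneg : R.comp (-Polynomial.X) = -R := by
    apply hinj
    rw [Polynomial.aeval_comp, map_neg, Polynomial.aeval_X, map_neg, ← hR, ← hθρ, ← hθ', hR,
      ← Polynomial.aeval_algHom_apply, hθ', hθξ]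
  have hR0 : R.eval 0 = 0 := by
    have h1 := congrArg (Polynomial.eval 0) hRneg
    rw [Polynomial.eval_comp, Polynomial.eval_neg, Polynomial.eval_X, neg_zero,
      Polynomial.eval_neg] at h1
    have : CharZero L0 := charZero_of_injective_algebraMap (algebraMap K L0).injective
    exact self_eq_neg.1 h1
  have hb' : b = 0 := by
    have h1 := congrArg (Polynomial.eval 0) hR2
    simp only [Polynomial.eval_pow, hR0, Polynomial.eval_add, Polynomial.eval_mul,
      Polynomial.eval_C, Polynomial.eval_X] at h1
    simpa using h1.symm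
  exact hb0 hb'

end MP2619.Q5
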