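import Mathlib

/-!
Row 2619q5-K5a: counting with an involution.
-/

set_option autoImplicit false

namespace MP2619.Q5

open IntermediateField

private theorem K5a_even {α : Type} (f : α → α) (h1 : ∀ a, f a ≠ a) (h2 : ∀ a, f (f a) = a) :
    Even (Nat.card α) := by
  classical
  rcases finite_or_infinite α with hfin | hinf
  · have := Fintype.ofFinite α
    rw [Nat.card_eq_fintype_card]
    have h3 : (∑ _x : α, (1 : ZMod 2)) = 0 := by
      refine Finset.sum_involution (fun a _ => f a) ?_ ?_ ?_ ?_
      · intro a _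
        decide
      · intro a _ _
        exact h1 a
      · intro a _
        exact Finset.mem_univ _
      · intro a _
        exact h2 a
    rw [Finset.sum_const, Finset.card_univ, nsmul_eq_mul, mul_one] at h3
    exact (ZMod.natCast_eq_zero_iff_even).mp h3
  · rw [Nat.card_eq_zero_of_infinite]
    exact Even.zero

/-- Counting. The fibre over `τ1 : E1 → A` has `[N : E1]` elements (`AlgHom.card_of_splits` or `Field.finSepDegree`,
characteristic zero, `A` algebraically closed), `τ1 ↦ τ1 ∘ ι` is an involution without fixed points on the good `τ1`.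
(All sets are finite or `Nat.card` is `0`; restriction to `E1` is surjective.) -/
theorem count_inv {B N A : Type} [Field B] [Field N] [Field A] [CharZero B] [Algebra B N]
    [Algebra B A] [IsAlgClosed A] (E1 : IntermediateField B N) (hfin : FiniteDimensional E1 N)
    (ι : E1 ≃ₐ[B] E1) (h1 : ι ≠ 1) (h2 : ∀ a, ι (ι a) = a) (good : (E1 →ₐ[B] A) → Prop)
    (hinv : ∀ τ, good τ → good (τ.comp ι.toAlgHom)) :
    Even (Nat.card {τ : N →ₐ[B] A // good (τ.comp E1.val)}) := by
  classical
  have hch : CharZero E1 := charZero_of_injective_algebraMap (algebraMap B E1).injective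
  -- the fibres
  have hfib : ∀ f : E1 →ₐ[B] A,
      Nonempty (@AlgHom E1 N A _ _ _ _ f.toRingHom.toAlgebra ≃ Fin (Module.finrank E1 N)) := by
    intro f
    let _ := f.toRingHom.toAlgebra
    have h3 : Nat.card (N →ₐ[E1] A) = Module.finrank E1 N :=
      AlgHom.natCard_of_splits E1 N A (fun _ => IsAlgClosed.splits _)
    have h4 : 0 < Module.finrank E1 N := Module.finrank_pos
    have : Finite (N →ₐ[E1] A) := Nat.finite_of_card_ne_zero (by omega)
    exact ⟨Finite.equivFinOfCardEq h3⟩
  let e2 := fun f => Classical.choice (hfib f)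
  let e : (N →ₐ[B] A) ≃ (E1 →ₐ[B] A) × Fin (Module.finrank E1 N) :=
    (algHomEquivSigma (A := B) (B := E1) (C := N) (D := A)).trans
      (Equiv.sigmaEquivProdOfEquiv e2)
  have he : ∀ τ : N →ₐ[B] A, (e τ).1 = τ.comp E1.val := by
    intro τ
    rfl
  have e3 : {τ : N →ₐ[B] A // good (τ.comp E1.val)} ≃
      {f : E1 →ₐ[B] A // good f} × Fin (Module.finrank E1 N) :=
    (Equiv.subtypeEquiv e (fun τ => by rw [he τ])).trans Equiv.prodSubtypeFstEquivSubtypeProd
  rw [Nat.card_congr e3, Nat.card_prod]
  apply Even.mul_right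
  refine K5a_even (fun f => ⟨f.1.comp ι.toAlgHom, hinv f.1 f.2⟩) ?_ ?_
  · intro f hf
    apply h1
    ext a
    have h5 := congrArg (fun g => g.1 a) hf
    have h6 : f.1 (ι a) = f.1 a := h5
    have h7 := f.1.toRingHom.injective h6
    rw [h7]
    rfl
  · intro f
    apply Subtype.ext
    ext a
    show f.1 (ι (ι a)) = f.1 a
    rw [h2]

end MP2619.Q5
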