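import Pool.Agent.Lib.MP_2619d0_ag.R.A8

/-!
# Row L1a
-/

set_option autoImplicit false

namespace MP2619.Q5

universe u

open IntermediateField MP2619.R

open scoped IntermediateField.algebraAdjoinAdjoin in
/-- Row L1a. `K`-linearly independent elements of `F` stay linearly independent over `K(v)` if `v` is algebraically
independent over `F`. Exactly as `E5d_linInd` in Q5/E5d (one variable), with `MvPolynomial (Fin n)` instead of `Polynomial`:
`LinearIndependent.iff_fractionRing` with the ring `Algebra.adjoin K (Set.range v)` (`open scoped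
IntermediateField.algebraAdjoinAdjoin`), whose elements are `aeval v p`; compare coefficients. -/
theorem ld_indep {K F κ : Type u} [Field K] [Field F] [Field κ] [Algebra K F] [Algebra F κ]
    [Algebra K κ] [IsScalarTower K F κ] {n : ℕ} (v : Fin n → κ) (hv : AlgebraicIndependent F v)
    {ι : Type*} (b : ι → F) (hb : LinearIndependent K b) :
    LinearIndependent (adjoin K (Set.range v)) (fun i => algebraMap F κ (b i)) := by
  rw [← LinearIndependent.iff_fractionRing (R := Algebra.adjoin K (Set.range v))
    (K := adjoin K (Set.range v))]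
  rw [linearIndependent_iff']
  intro s g hg i hi
  have hp : ∀ x : Algebra.adjoin K (Set.range v), ∃ p : MvPolynomial (Fin n) K,
      MvPolynomial.aeval v p = (x : κ) := by
    intro x
    have hx : (x : κ) ∈ (MvPolynomial.aeval (R := K) v).range := by
      rw [← Algebra.adjoin_range_eq_range_aeval]
      exact x.2
    exact hx
  choose p hp using hp
  have h1 : MvPolynomial.aeval v
      (∑ j ∈ s, MvPolynomial.C (b j) * MvPolynomial.map (algebraMap K F) (p (g j))) = 0 := by
    rw [map_sum]
    refine Eq.trans ?_ hg
    refine Finset.sum_congr rfl fun j _ => ?_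
    rw [map_mul, MvPolynomial.aeval_C, MvPolynomial.aeval_map_algebraMap, hp, Algebra.smul_def,
      mul_comm]
    rfl
  have h2 := (algebraicIndependent_iff.1 hv) _ h1
  have h3 : p (g i) = 0 := by
    ext k
    have h4 := congrArg (fun q => MvPolynomial.coeff k q) h2
    simp only [MvPolynomial.coeff_sum, MvPolynomial.coeff_C_mul, MvPolynomial.coeff_map,
      MvPolynomial.coeff_zero] at h4
    have h5 := (linearIndependent_iff'.1 hb) s (fun j => MvPolynomial.coeff k (p (g j))) (by
      rw [← h4]
      refine Finset.sum_congr rfl fun j _ => ?_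
      rw [Algebra.smul_def, mul_comm]) i hi
    rw [h5, MvPolynomial.coeff_zero]
  have h6 := hp (g i)
  rw [h3, map_zero] at h6
  exact Subtype.ext h6.symm

/-- Row L1a. `[κ : K(v)] = [F : K] [κ : F(v)]`. Exactly as `finrank_adjoin_trans` in Q5/E5d, with `ld_indep`. -/
theorem finrank_adjoin_ind {K F κ : Type u} [Field K] [Field F] [Field κ] [Algebra K F]
    [Algebra F κ] [Algebra K κ] [IsScalarTower K F κ] (hKF : Algebra.IsAlgebraic K F) {n : ℕ}
    (v : Fin n → κ) (hv : AlgebraicIndependent F v) :
    Module.finrank (adjoin K (Set.range v)) κ =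
      Module.finrank K F * Module.finrank (adjoin F (Set.range v)) κ := by
  set A : IntermediateField K κ := (IsScalarTower.toAlgHom K F κ).fieldRange with hA
  let e : F ≃ₐ[K] A := AlgEquiv.ofInjectiveField (IsScalarTower.toAlgHom K F κ)
  have halg : Algebra.IsAlgebraic K A := e.isAlgebraic
  let b := Module.Basis.ofVectorSpace K F
  have hd : A.LinearDisjoint (adjoin K (Set.range v)) := by
    refine IntermediateField.LinearDisjoint.of_basis_left (b.map e.toLinearEquiv) ?_
    exact ld_indep v hv b b.linearIndependent
  have hr := hd.adjoin_rank_eq_rank_left_of_isAlgebraic_left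
  set M := adjoin (adjoin K (Set.range v)) (A : Set κ) with hM
  have h1 : Module.finrank (adjoin K (Set.range v)) M = Module.finrank K F := by
    rw [Module.finrank, hr, ← Module.finrank]
    exact e.toLinearEquiv.finrank_eq.symm
  rw [← Module.finrank_mul_finrank (adjoin K (Set.range v)) M κ, h1]
  congr 1
  have hKt : adjoin K (Set.range v) ≤ (adjoin F (Set.range v)).restrictScalars K := by
    rw [adjoin_le_iff]
    intro x hx
    exact subset_adjoin F (Set.range v) hx
  have hMle : ∀ x, x ∈ M → x ∈ adjoin F (Set.range v) := by
    have h2 : M ≤ extendScalars hKt := by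
      rw [hM, adjoin_le_iff]
      rintro x ⟨y, rfl⟩
      exact (adjoin F (Set.range v)).algebraMap_mem y
    exact fun x hx => h2 hx
  have hleM : ∀ x, x ∈ adjoin F (Set.range v) → x ∈ M := by
    let M' : IntermediateField F κ := M.toSubfield.toIntermediateField fun y =>
      subset_adjoin (adjoin K (Set.range v)) (A : Set κ) ⟨y, rfl⟩
    have h2 : adjoin F (Set.range v) ≤ M' := by
      rw [adjoin_le_iff]
      intro x hx
      exact M.algebraMap_mem ⟨x, subset_adjoin K (Set.range v) hx⟩
    exact fun x hx => h2 hx
  have hS : M.toSubfield = (adjoin F (Set.range v)).toSubfield :=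
    SetLike.ext fun x => ⟨hMle x, hleM x⟩
  let i : M ≃+* adjoin F (Set.range v) := RingEquiv.subfieldCongr hS
  have h3 : Module.rank M κ = Module.rank (adjoin F (Set.range v)) κ :=
    Algebra.rank_eq_of_equiv_equiv i (RingEquiv.refl κ) (by ext x; rfl)
  rw [Module.finrank, h3, ← Module.finrank]

end MP2619.Q5
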