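import Pool.Agent.Lib.MP_2619d0_ag.Q5.L1a

/-!
# Row L1b
-/

set_option autoImplicit false

namespace MP2619.Q5

open IntermediateField MP2619.R

/-- a polynomial over `C` as a combination of polynomials over `B` -/
private theorem L1b_expand {B C Ω L : Type} [Field B] [Field C] [Field Ω] [Algebra B C]
    [Algebra C Ω] [Algebra B Ω] [IsScalarTower B C Ω] (e : Module.Basis L B C) {m : ℕ}
    (ζ : Fin m → Ω) (P : MvPolynomial (Fin m) C) :
    ∃ (S : Finset L) (d : L → Ω), (∀ l, d l ∈ adjoin B (Set.range ζ)) ∧ (∀ l ∉ S, d l = 0) ∧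
      MvPolynomial.aeval ζ P = ∑ l ∈ S, algebraMap C Ω (e l) * d l := by
  classical
  obtain ⟨S, hS⟩ : ∃ S : Finset L, ∀ k ∈ P.support, (e.repr (MvPolynomial.coeff k P)).support ⊆ S :=
    ⟨P.support.biUnion fun k => (e.repr (MvPolynomial.coeff k P)).support,
      fun k hk => Finset.subset_biUnion_of_mem
        (fun k => (e.repr (MvPolynomial.coeff k P)).support) hk⟩
  refine ⟨S, fun l => ∑ k ∈ P.support, algebraMap B Ω (e.repr (MvPolynomial.coeff k P) l) *
    ∏ i, ζ i ^ k i, ?_, ?_, ?_⟩
  · intro l
    refine sum_mem fun k _ => mul_mem (IntermediateField.algebraMap_mem _ _) (prod_mem fun i _ => ?_)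
    exact pow_mem (subset_adjoin B (Set.range ζ) (Set.mem_range_self i)) _
  · intro l hl
    refine Finset.sum_eq_zero fun k hk => ?_
    have h1 : e.repr (MvPolynomial.coeff k P) l = 0 := by
      by_contra h
      exact hl (hS k hk (Finsupp.mem_support_iff.2 h))
    rw [h1, map_zero, zero_mul]
  · rw [MvPolynomial.aeval_def, MvPolynomial.eval₂_eq']
    have h1 : ∀ k ∈ P.support, algebraMap C Ω (MvPolynomial.coeff k P) =
        ∑ l ∈ S, algebraMap C Ω (e l) * algebraMap B Ω (e.repr (MvPolynomial.coeff k P) l) := by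
      intro k hk
      have h2 : MvPolynomial.coeff k P =
          ∑ l ∈ S, e.repr (MvPolynomial.coeff k P) l • e l := by
        conv_lhs => rw [← e.linearCombination_repr (MvPolynomial.coeff k P)]
        rw [Finsupp.linearCombination_apply, Finsupp.sum]
        refine Finset.sum_subset (hS k hk) fun l _ hl => ?_
        rw [Finsupp.notMem_support_iff.1 hl, zero_smul]
      conv_lhs => rw [h2]
      rw [map_sum]
      refine Finset.sum_congr rfl fun l _ => ?_
      rw [Algebra.smul_def, map_mul, ← IsScalarTower.algebraMap_apply, mul_comm]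
    rw [Finset.sum_congr rfl fun k hk => by rw [h1 k hk, Finset.sum_mul]]
    rw [Finset.sum_comm]
    refine Finset.sum_congr rfl fun l _ => ?_
    rw [Finset.mul_sum]
    refine Finset.sum_congr rfl fun k _ => ?_
    ring

open scoped IntermediateField.algebraAdjoinAdjoin in
/-- Row L1b. `LinearIndependent.iff_fractionRing` with the ring `Algebra.adjoin C (Set.range ζ)` for the field
`adjoin C (Set.range ζ)`: let `∑ i ∈ s, c i * b i = 0`, `c i = aeval ζ (P i)`, `P i` a polynomial over `C`. Let `e` be a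
basis of `C` over `B`. Then `c i = ∑ l ∈ S, e l * d i l` (`S` a finite set that contains the supports of all coefficients),
`d i l = ∑ m, (e.repr (coeff m (P i)) l) * ζ ^ m` in `B[ζ]`. So `∑ l, e l * (∑ i, d i l * b i) = 0`, and
`∑ i, d i l * b i` is in `adjoin B (Set.range v)`. By `ld_indep` (`K = B`, `F = C`, `b = e`) all these sums are `0`. As `b`
is linearly independent over `adjoin B (Set.range ζ)`, all `d i l` are `0`, so `c i = 0`. -/
theorem ld_tower {B C Ω : Type} [Field B] [Field C] [Field Ω] [Algebra B C] [Algebra C Ω]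
    [Algebra B Ω] [IsScalarTower B C Ω] {n m : ℕ} (v : Fin n → Ω) (hv : AlgebraicIndependent C v)
    (ζ : Fin m → Ω) (hζ : ∀ i, ζ i ∈ adjoin B (Set.range v)) {ι : Type*} (b : ι → Ω)
    (hb : ∀ i, b i ∈ adjoin B (Set.range v))
    (hl : LinearIndependent (adjoin B (Set.range ζ)) b) :
    LinearIndependent (adjoin C (Set.range ζ)) b := by
  classical
  have hl0 := hl
  rw [← LinearIndependent.iff_fractionRing (R := Algebra.adjoin C (Set.range ζ))
    (K := adjoin C (Set.range ζ))]
  rw [linearIndependent_iff']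
  intro s g hg i hi
  have hp : ∀ x : Algebra.adjoin C (Set.range ζ), ∃ p : MvPolynomial (Fin m) C,
      MvPolynomial.aeval ζ p = (x : Ω) := by
    intro x
    have hx : (x : Ω) ∈ (MvPolynomial.aeval (R := C) ζ).range := by
      rw [← Algebra.adjoin_range_eq_range_aeval]
      exact x.2
    exact hx
  choose P hP using hp
  let e := Module.Basis.ofVectorSpace B C
  have hex := fun j => L1b_expand e ζ (P (g j))
  choose S d hd hd0 hdP using hex
  -- the common support
  have hsub : ∀ j ∈ s, S j ⊆ s.biUnion S := fun j hj => Finset.subset_biUnion_of_mem S hj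
  have hc : ∀ j ∈ s, ((g j : Algebra.adjoin C (Set.range ζ)) : Ω) =
      ∑ l ∈ s.biUnion S, algebraMap C Ω (e l) * d j l := by
    intro j hj
    rw [← hP, hdP]
    refine Finset.sum_subset (hsub j hj) fun l _ hl => ?_
    rw [hd0 j l hl, mul_zero]
  have hle : adjoin B (Set.range ζ) ≤ adjoin B (Set.range v) := by
    rw [adjoin_le_iff]
    rintro _ ⟨i, rfl⟩
    exact hζ i
  have h1 : ∑ l ∈ s.biUnion S, algebraMap C Ω (e l) * (∑ j ∈ s, d j l * b j) = 0 := by
    have h2 : ∑ j ∈ s, ((g j : Algebra.adjoin C (Set.range ζ)) : Ω) * b j = 0 := hg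
    calc ∑ l ∈ s.biUnion S, algebraMap C Ω (e l) * (∑ j ∈ s, d j l * b j)
        = ∑ l ∈ s.biUnion S, ∑ j ∈ s, algebraMap C Ω (e l) * d j l * b j := by
          refine Finset.sum_congr rfl fun l _ => ?_
          rw [Finset.mul_sum]
          refine Finset.sum_congr rfl fun j _ => ?_
          ring
      _ = ∑ j ∈ s, ∑ l ∈ s.biUnion S, algebraMap C Ω (e l) * d j l * b j := Finset.sum_comm
      _ = ∑ j ∈ s, ((g j : Algebra.adjoin C (Set.range ζ)) : Ω) * b j := by
          refine Finset.sum_congr rfl fun j hj => ?_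
          rw [hc j hj, Finset.sum_mul]
      _ = 0 := h2
  have h3 : ∀ l ∈ s.biUnion S, ∑ j ∈ s, d j l * b j = 0 := by
    have hli := ld_indep (K := B) (F := C) v hv e e.linearIndependent
    intro l hl
    have h4 := (linearIndependent_iff'.1 hli) (s.biUnion S)
      (fun l => (⟨∑ j ∈ s, d j l * b j, sum_mem fun j _ => mul_mem (hle (hd j l)) (hb j)⟩ :
        adjoin B (Set.range v))) (by
      rw [← h1]
      refine Finset.sum_congr rfl fun l _ => ?_
      rw [mul_comm]
      rfl) l hl
    exact congrArg Subtype.val h4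
  have h5 : ∀ l ∈ s.biUnion S, d i l = 0 := by
    intro l hl
    have h6 := (linearIndependent_iff'.1 hl0) s
      (fun j => (⟨d j l, hd j l⟩ : adjoin B (Set.range ζ))) (by
      rw [← h3 l hl]
      rfl) i hi
    exact congrArg Subtype.val h6
  apply Subtype.ext
  rw [hc i hi]
  refine Finset.sum_eq_zero fun l hl => ?_
  rw [h5 l hl, mul_zero]

end MP2619.Q5
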