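import Pool.Agent.Lib.MP_2619d0_ag.Q5.L1b

/-!
# Row L1c
-/

set_option autoImplicit false

namespace MP2619.Q5

open IntermediateField MP2619.R

/-- Row L1c. `M = adjoin B (Set.range v)`, `ζ' i = ⟨ζ i, hζ i⟩`, `v' i = ⟨v i, _⟩` in `M`. (1) `ζ'` is algebraically
independent over `B` (`h.1`, restrict scalars, `AlgebraicIndependent.of_comp` for the inclusion `M → Ω`). (2) `M` is finite over
`adjoin B (Set.range ζ')`: `fin_iff_ind` (R/A8) with `u = v'` (`adjoin B (Set.range v') = ⊤`). (3) A basis of `M` over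
`adjoin B (Set.range ζ')` is, as a family in `Ω`, linearly independent over `adjoin B (Set.range ζ)` (the image of
`adjoin B (Set.range ζ')`), so by `ld_tower` over `adjoin C (Set.range ζ)`. (4) It generates `Ω` over `adjoin C (Set.range ζ)`:
its span `T` is closed under multiplication (products of elements of `M` are in `M`), contains `1`, `C`, `v`, and is
finite-dimensional over the field `adjoin C (Set.range ζ)`, so `T` is a field (`Subalgebra` of finite dimension), so
`T = ⊤` by `hgen`. Or: Mathlib `LinearDisjoint.adjoin_rank_eq_rank_right_of_isAlgebraic_right` as in Q5/E5d. So the two degrees are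
equal. -/
theorem pr_descend {B Ω : Type} [Field B] [Field Ω] [Algebra B ℂ] [Algebra ℂ Ω] [Algebra B Ω]
    [IsScalarTower B ℂ Ω] {n : ℕ} (v : Fin n → Ω) (hv : AlgebraicIndependent ℂ v)
    (hgen : adjoin ℂ (Set.range v) = ⊤) (ζ : Fin n → Ω)
    (hζ : ∀ i, ζ i ∈ adjoin B (Set.range v)) (h : Pr ℂ ζ) :
    Pr B (fun i => (⟨ζ i, hζ i⟩ : adjoin B (Set.range v))) := by
  classical
  obtain ⟨hζi, hodd⟩ := h
  set M : IntermediateField B Ω := adjoin B (Set.range v) with hM
  set KC : IntermediateField ℂ Ω := adjoin ℂ (Set.range ζ) with hKC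
  set KB : IntermediateField B Ω := adjoin B (Set.range ζ) with hKB
  let ζ' : Fin n → M := fun i => ⟨ζ i, hζ i⟩
  let v' : Fin n → M := fun i => ⟨v i, subset_adjoin B _ ⟨i, rfl⟩⟩
  change Pr B ζ'
  have hvB : AlgebraicIndependent B v := hv.restrictScalars (algebraMap B ℂ).injective
  have hζB : AlgebraicIndependent B ζ := hζi.restrictScalars (algebraMap B ℂ).injective
  have hv' : AlgebraicIndependent B v' := AlgebraicIndependent.of_comp M.val hvB
  have hζ' : AlgebraicIndependent B ζ' := AlgebraicIndependent.of_comp M.val hζB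
  have hmapv : adjoin B (Set.range v') = ⊤ := by
    apply IntermediateField.map_injective M.val
    rw [adjoin_map, ← Set.range_comp, ← AlgHom.fieldRange_eq_map, fieldRange_val]
    rfl
  have hmapζ : (adjoin B (Set.range ζ')).map M.val = KB := by
    rw [adjoin_map, ← Set.range_comp]
    rfl
  have hfin0 : Module.finrank (adjoin B (Set.range v')) M ≠ 0 := by
    rw [hmapv, IntermediateField.finrank_top]
    exact one_ne_zero
  have hfin : Module.finrank (adjoin B (Set.range ζ')) M ≠ 0 := (fin_iff_ind v' ζ' hv' hfin0).1 hζ'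
  have hfd : FiniteDimensional (adjoin B (Set.range ζ')) M :=
    Module.finite_of_finrank_pos (Nat.pos_of_ne_zero hfin)
  have hKBM : KB ≤ M := by
    rw [hKB, adjoin_le_iff]
    rintro _ ⟨i, rfl⟩
    exact hζ i
  have hKBC : KB ≤ KC.restrictScalars B := by
    rw [hKB, adjoin_le_iff]
    rintro _ ⟨i, rfl⟩
    exact subset_adjoin ℂ _ ⟨i, rfl⟩
  let M1 : IntermediateField KB Ω := extendScalars hKBM
  let C1 : IntermediateField KB Ω := extendScalars hKBC
  -- the degree of `M` over `B(ζ)`
  let i : (adjoin B (Set.range ζ')) ≃ₐ[B] KB :=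
    ((adjoin B (Set.range ζ')).equivMap M.val).trans (IntermediateField.equivOfEq hmapζ)
  have hi : ∀ x : adjoin B (Set.range ζ'), ((i x : KB) : Ω) = ((x : M) : Ω) := fun x => rfl
  let j : M ≃+* M1 := RingEquiv.refl M
  have hr1 : Module.rank (adjoin B (Set.range ζ')) M = Module.rank KB M1 :=
    Algebra.rank_eq_of_equiv_equiv (i : (adjoin B (Set.range ζ')) ≃+* KB) j (by
      ext x
      rfl)
  have hf1 : Module.finrank (adjoin B (Set.range ζ')) M = Module.finrank KB M1 := by
    rw [Module.finrank, hr1, ← Module.finrank]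
  have hfd1 : FiniteDimensional KB M1 :=
    Module.finite_of_finrank_pos (by rw [← hf1]; exact Nat.pos_of_ne_zero hfin)
  have halg1 : Algebra.IsAlgebraic KB M1 := Algebra.IsAlgebraic.of_finite _ _
  let b := Module.Basis.ofVectorSpace KB M1
  have hd : M1.LinearDisjoint C1 := by
    refine IntermediateField.LinearDisjoint.of_basis_left b ?_
    have hb1 : LinearIndependent KB (fun k => ((b k : M1) : Ω)) := by
      have h2 := b.linearIndependent.map' M1.val.toLinearMap
        (LinearMap.ker_eq_bot.2 M1.val.injective)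
      exact h2
    exact ld_tower v hv ζ hζ (fun k => ((b k : M1) : Ω)) (fun k => (b k).2) hb1
  have hr := hd.adjoin_rank_eq_rank_left_of_isAlgebraic_left
  have htop : adjoin C1 (M1 : Set Ω) = ⊤ := by
    let T : IntermediateField ℂ Ω := (adjoin C1 (M1 : Set Ω)).toSubfield.toIntermediateField
      fun y => (adjoin C1 (M1 : Set Ω)).algebraMap_mem ⟨algebraMap ℂ Ω y, KC.algebraMap_mem y⟩
    have h2 : adjoin ℂ (Set.range v) ≤ T := by
      rw [adjoin_le_iff]
      rintro _ ⟨k, rfl⟩
      have h3 : v k ∈ (M1 : Set Ω) := subset_adjoin B _ ⟨k, rfl⟩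
      exact subset_adjoin C1 (M1 : Set Ω) h3
    rw [hgen] at h2
    rw [eq_top_iff]
    intro x _
    exact h2 (mem_top (x := x))
  rw [htop] at hr
  have hr2 : Module.rank C1 (⊤ : IntermediateField C1 Ω) = Module.rank KC Ω := by
    rw [IntermediateField.rank_top']
    rfl
  rw [hr2] at hr
  refine ⟨hζ', ?_⟩
  have hfin2 : Module.finrank (adjoin B (Set.range ζ')) M = Module.finrank KC Ω := by
    rw [Module.finrank, hr1, ← hr, ← Module.finrank]
  rw [hfin2]
  exact hodd

end MP2619.Q5
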