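import Pool.Agent.Lib.MP_2619d0_ag.R.A8
import Pool.Agent.Lib.MP_2619d0_ag.R.Defs

/-!
# Row L2a
-/

set_option autoImplicit false

namespace MP2619.Q5

universe u

open IntermediateField MP2619.R

private lemma L2a_alg {ι : Type} {k : Type} {L : Type u} [Field k] [Field L] [Algebra k L]
    (A : IntermediateField k L) (a : ι → A)
    (h : A ≤ IntermediateField.adjoin k (Set.range fun i => (a i : L))) :
    Algebra.IsAlgebraic (Algebra.adjoin k (Set.range a)) A := by
  have htop : IntermediateField.adjoin k (Set.range a) = ⊤ := by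
    rw [eq_top_iff]
    intro z _
    have h1 : (IntermediateField.adjoin k (Set.range a)).map (IntermediateField.val A) =
        IntermediateField.adjoin k (Set.range fun i => (a i : L)) := by
      rw [IntermediateField.adjoin_map, ← Set.range_comp]
      rfl
    have h2 : (z : L) ∈ (IntermediateField.adjoin k (Set.range a)).map
        (IntermediateField.val A) := by
      rw [h1]
      exact h z.2
    obtain ⟨w, hw, hwz⟩ := h2
    have h3 : w = z := Subtype.ext hwz
    rw [← h3]
    exact hw
  have h1 : Algebra.IsAlgebraic (IntermediateField.adjoin k (Set.range a)) A := by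
    refine ⟨fun z => ?_⟩
    have hz : z ∈ IntermediateField.adjoin k (Set.range a) := by rw [htop]; trivial
    exact isAlgebraic_algebraMap (⟨z, hz⟩ : IntermediateField.adjoin k (Set.range a))
  open scoped IntermediateField.algebraAdjoinAdjoin in
  exact Algebra.IsAlgebraic.trans (Algebra.adjoin k (Set.range a))
    (IntermediateField.adjoin k (Set.range a)) A

private lemma L2a_le {ι : Type} [Fintype ι] {k : Type} {L : Type u} [Field k] [Field L]
    [Algebra k L] (A : IntermediateField k L) (a : ι → A)
    (h : A ≤ IntermediateField.adjoin k (Set.range fun i => (a i : L))) :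
    Algebra.trdeg k A ≤ (Fintype.card ι : Cardinal.{u}) := by
  have h1 := L2a_alg A a h
  refine (Algebra.IsAlgebraic.trdeg_le_cardinalMk k (Set.range a)).trans ?_
  have h2 := Cardinal.mk_range_le_lift (f := a)
  rw [Cardinal.mk_fintype ι, Cardinal.lift_natCast, Cardinal.lift_uzero] at h2
  exact h2

/-- Row L2a. If `p j ≠ 0` then `rat ℂ p = adjoin ℂ (Set.range fun i => p i / p j)`. If `p 0 = 0`: if all `p j` are `0` then
`rat ℂ p = ⊥`, transcendence degree `0 < n`; otherwise let `p j ≠ 0`, `j ≠ 0`: `rat ℂ p` is generated by the `n - 1` elements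
`p i / p j`, `i ≠ 0, j`, so `n ≤ n - 1`, contradiction. So `p 0 ≠ 0` and the `n` elements `p i.succ / p 0` generate
`rat ℂ p`, of transcendence degree `≥ n`: they are algebraically independent
(`Algebra.IsAlgebraic.isTranscendenceBasis_of_lift_le_trdeg_of_finite`, see T/SG5c, TOdd). -/
theorem ratios_of_trdeg {n : ℕ} (hn : 1 ≤ n) {L : Type u} [Field L] [Algebra ℂ L]
    (p : Fin (n + 1) → L) (h : (n : Cardinal.{u}) ≤ Algebra.trdeg ℂ (rat ℂ p)) :
    p 0 ≠ 0 ∧ AlgebraicIndependent ℂ (fun i : Fin n => p i.succ / p 0) := by
  have hmem : ∀ i j, p i / p j ∈ rat ℂ p := fun i j =>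
    IntermediateField.subset_adjoin ℂ _ ⟨i, j, rfl⟩
  have h0 : p 0 ≠ 0 := by
    intro h00
    by_cases hall : ∀ j, p j = 0
    · have h1 := L2a_le (rat ℂ p) (fun i : Fin 0 => (i.elim0 : rat ℂ p)) (by
        unfold rat
        rw [IntermediateField.adjoin_le_iff]
        rintro z ⟨i, j, rfl⟩
        rw [hall i, zero_div]
        exact zero_mem _)
      have h2 := h.trans h1
      rw [Fintype.card_fin] at h2
      have h3 : n ≤ 0 := by exact_mod_cast h2
      omega
    · push Not at hall
      obtain ⟨j, hj⟩ := hall
      have hj0 : j ≠ 0 := by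
        rintro rfl
        exact hj h00
      obtain ⟨j', rfl⟩ := Fin.exists_succ_eq.mpr hj0
      have h1 := L2a_le (rat ℂ p) (fun i : {i : Fin n // i ≠ j'} =>
        (⟨p i.1.succ / p j'.succ, hmem _ _⟩ : rat ℂ p)) (by
        have hgen : ∀ i, p i / p j'.succ ∈ IntermediateField.adjoin ℂ
            (Set.range fun i : {i : Fin n // i ≠ j'} =>
              (((⟨p i.1.succ / p j'.succ, hmem _ _⟩ : rat ℂ p)) : L)) := by
          intro i
          refine Fin.cases ?_ (fun i => ?_) i
          · rw [h00, zero_div]
            exact zero_mem _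
          · by_cases hi : i = j'
            · rw [hi, div_self hj]
              exact one_mem _
            · exact IntermediateField.subset_adjoin ℂ _ ⟨⟨i, hi⟩, rfl⟩
        unfold rat
        rw [IntermediateField.adjoin_le_iff]
        rintro z ⟨i, l, rfl⟩
        have h5 : p i / p l = (p i / p j'.succ) / (p l / p j'.succ) := by
          rw [div_div_div_cancel_right₀ hj]
        rw [h5]
        exact div_mem (hgen i) (hgen l))
      have h2 := h.trans h1
      have h3 : Fintype.card {i : Fin n // i ≠ j'} = n - 1 := by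
        rw [Fintype.card_subtype_compl, Fintype.card_fin, Fintype.card_subtype_eq]
      rw [h3] at h2
      have h4 : n ≤ n - 1 := by exact_mod_cast h2
      omega
  refine ⟨h0, ?_⟩
  let a : Fin n → rat ℂ p := fun i => ⟨p i.succ / p 0, hmem _ _⟩
  have h1 : Algebra.IsAlgebraic (Algebra.adjoin ℂ (Set.range a)) (rat ℂ p) := by
    refine L2a_alg (rat ℂ p) a ?_
    have hgen : ∀ i, p i / p 0 ∈ IntermediateField.adjoin ℂ
        (Set.range fun i => (a i : L)) := by
      intro i
      refine Fin.cases ?_ (fun i => ?_) i
      · rw [div_self h0]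
        exact one_mem _
      · exact IntermediateField.subset_adjoin ℂ _ ⟨i, rfl⟩
    unfold rat
    rw [IntermediateField.adjoin_le_iff]
    rintro z ⟨i, l, rfl⟩
    have h5 : p i / p l = (p i / p 0) / (p l / p 0) := by
      rw [div_div_div_cancel_right₀ h0]
    rw [h5]
    exact div_mem (hgen i) (hgen l)
  have h2 : IsTranscendenceBasis ℂ a :=
    Algebra.IsAlgebraic.isTranscendenceBasis_of_lift_le_trdeg_of_finite ℂ a (by
      rw [Cardinal.mk_fin, Cardinal.lift_natCast, Cardinal.lift_uzero]
      exact h)
  exact h2.1.map' (f := IntermediateField.val (rat ℂ p)) Subtype.val_injective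

end MP2619.Q5
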