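import Mathlib

/-!
# Row L4: the cubic polynomial `F (ζ + T e_a)`
-/

set_option autoImplicit false

namespace MP2619.Q5

/-- the polynomial `F (ζ + T e_a)` over the field `ℂ(ζ)` -/
noncomputable def cubP {Ω : Type} [Field Ω] [Algebra ℂ Ω] (F : MvPolynomial (Fin 6) ℂ) (a : Fin 6)
    (ζ : Fin 6 → Ω) : Polynomial (IntermediateField.adjoin ℂ (Set.range ζ)) :=
  MvPolynomial.aeval (fun i => Polynomial.C (⟨ζ i, IntermediateField.subset_adjoin _ _ ⟨i, rfl⟩⟩ :
    IntermediateField.adjoin ℂ (Set.range ζ)) + if i = a then Polynomial.X else 0) F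

end MP2619.Q5
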