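import Pool.Agent.Lib.MP_2619d0_ag.Q5.L4

/-!
# Row L4a
-/

set_option autoImplicit false

namespace MP2619.Q5

open IntermediateField

variable {Ω : Type} [Field Ω] [Algebra ℂ Ω] {F : MvPolynomial (Fin 6) ℂ} {a : Fin 6} {ζ : Fin 6 → Ω}

private theorem L4a_prod {K : Type*} [Field K] (z : Fin 6 → K) (m : Fin 6 →₀ ℕ) :
    ∏ i, (Polynomial.C (z i) + if i = a then Polynomial.X else 0) ^ m i =
      Polynomial.C (∏ i ∈ Finset.univ.erase a, z i ^ m i) *
        (Polynomial.X + Polynomial.C (z a)) ^ m a := by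
  classical
  rw [← Finset.prod_erase_mul Finset.univ _ (Finset.mem_univ a), map_prod]
  congr 1
  · refine Finset.prod_congr rfl fun i hi => ?_
    rw [if_neg (Finset.ne_of_mem_erase hi), add_zero, map_pow]
  · rw [if_pos rfl, add_comm]

private theorem L4a_le (hom : F.IsHomogeneous 3) {m : Fin 6 →₀ ℕ} (hm : m ∈ F.support) :
    m a ≤ 3 ∧ (m a = 3 → m = Finsupp.single a 3) := by
  classical
  have hdeg : m.degree = 3 := by
    have h := hom (MvPolynomial.mem_support_iff.mp hm)
    rw [← h, Finsupp.degree_eq_weight_one]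
    rfl
  have hsum : ∑ i, m i = 3 := by
    rw [← hdeg, Finsupp.degree_eq_sum]
  have hsplit : ∑ i ∈ Finset.univ.erase a, m i + m a = 3 := by
    rw [Finset.sum_erase_add _ _ (Finset.mem_univ a), hsum]
  refine ⟨by omega, fun h3 => ?_⟩
  have h0 : ∑ i ∈ Finset.univ.erase a, m i = 0 := by omega
  rw [Finset.sum_eq_zero_iff] at h0
  ext i
  by_cases hi : i = a
  · subst hi
    simp [h3]
  · rw [Finsupp.single_apply, if_neg (Ne.symm hi)]
    exact h0 i (Finset.mem_erase.mpr ⟨hi, Finset.mem_univ i⟩)

/-- Row L4a. `F = ∑ coeff m F * X ^ m` over the `m` of degree three: the monomial `m` gives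
`∏ i, (C (ζ i) + [i = a] X) ^ m i`, of degree `m a ≤ 3` in `X`, with `X ^ 3` only for `m = single a 3`. -/
theorem cubP_natDegree (hom : F.IsHomogeneous 3) (hc : MvPolynomial.coeff (Finsupp.single a 3) F ≠ 0) :
    (cubP F a ζ).natDegree = 3 := by
  classical
  let K := IntermediateField.adjoin ℂ (Set.range ζ)
  let z : Fin 6 → K := fun i => ⟨ζ i, IntermediateField.subset_adjoin _ _ ⟨i, rfl⟩⟩
  have hexp : cubP F a ζ = ∑ m ∈ F.support, algebraMap ℂ (Polynomial K) (MvPolynomial.coeff m F) *
      (Polynomial.C (∏ i ∈ Finset.univ.erase a, z i ^ m i) *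
        (Polynomial.X + Polynomial.C (z a)) ^ m a) := by
    unfold cubP
    rw [MvPolynomial.aeval_def, MvPolynomial.eval₂_eq']
    refine Finset.sum_congr rfl fun m _ => ?_
    congr 1
    exact L4a_prod z m
  have halg : ∀ c : ℂ, algebraMap ℂ (Polynomial K) c = Polynomial.C (algebraMap ℂ K c) := fun c => rfl
  have hnd : ∀ m : Fin 6 →₀ ℕ, ((Polynomial.X + Polynomial.C (z a)) ^ m a).natDegree = m a := by
    intro m
    rw [Polynomial.natDegree_pow, Polynomial.natDegree_X_add_C, mul_one]
  have hterm : ∀ m ∈ F.support, (algebraMap ℂ (Polynomial K) (MvPolynomial.coeff m F) *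
      (Polynomial.C (∏ i ∈ Finset.univ.erase a, z i ^ m i) *
        (Polynomial.X + Polynomial.C (z a)) ^ m a)).natDegree ≤ m a := by
    intro m _
    rw [halg]
    refine (Polynomial.natDegree_C_mul_le _ _).trans ((Polynomial.natDegree_C_mul_le _ _).trans ?_)
    rw [hnd]
  have hle : (cubP F a ζ).natDegree ≤ 3 := by
    rw [hexp]
    refine Polynomial.natDegree_sum_le_of_forall_le _ _ fun m hm => ?_
    exact (hterm m hm).trans (L4a_le (a := a) hom hm).1
  have hcoeff : (cubP F a ζ).coeff 3 =
      algebraMap ℂ K (MvPolynomial.coeff (Finsupp.single a 3) F) := by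
    rw [hexp, Polynomial.finsetSum_coeff, Finset.sum_eq_single (Finsupp.single a 3)]
    · have h1 : ∏ i ∈ Finset.univ.erase a, z i ^ (Finsupp.single a 3 : Fin 6 →₀ ℕ) i = 1 := by
        refine Finset.prod_eq_one fun i hi => ?_
        rw [Finsupp.single_apply, if_neg (Ne.symm (Finset.ne_of_mem_erase hi)), pow_zero]
      rw [h1, map_one, one_mul, halg, Polynomial.coeff_C_mul, Finsupp.single_eq_same]
      have h2 : ((Polynomial.X + Polynomial.C (z a)) ^ 3).coeff 3 = 1 := by
        have h3 := (Polynomial.monic_X_add_C (z a)).pow 3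
        have h4 : ((Polynomial.X + Polynomial.C (z a)) ^ 3).natDegree = 3 := by
          rw [Polynomial.natDegree_pow, Polynomial.natDegree_X_add_C, mul_one]
        have h5 := h3.coeff_natDegree
        rwa [h4] at h5
      rw [h2, mul_one]
    · intro m hm hne
      refine Polynomial.coeff_eq_zero_of_natDegree_lt (lt_of_le_of_lt (hterm m hm) ?_)
      have h := L4a_le (a := a) hom hm
      rcases lt_or_eq_of_le h.1 with h1 | h1
      · exact h1
      · exact absurd (h.2 h1) hne
    · intro h
      exact absurd (MvPolynomial.notMem_support_iff.mp h) hc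
  refine le_antisymm hle (Polynomial.le_natDegree_of_ne_zero ?_)
  rw [hcoeff]
  exact (map_ne_zero (algebraMap ℂ K)).mpr hc

/-- Row L4a. `Polynomial.aeval c` is a ring homomorphism. -/
theorem cubP_root (c : Ω)
    (h : MvPolynomial.aeval (fun i => ζ i + if i = a then c else 0) F = 0) :
    Polynomial.aeval c (cubP F a ζ) = 0 := by
  classical
  unfold cubP
  have key := MvPolynomial.comp_aeval_apply
    (f := fun i => Polynomial.C (⟨ζ i, IntermediateField.subset_adjoin _ _ ⟨i, rfl⟩⟩ :
      IntermediateField.adjoin ℂ (Set.range ζ)) + if i = a then Polynomial.X else 0)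
    ((Polynomial.aeval c : Polynomial (IntermediateField.adjoin ℂ (Set.range ζ)) →ₐ[_] Ω).restrictScalars ℂ) F
  rw [AlgHom.restrictScalars_apply] at key
  rw [key, ← h]
  congr 2
  funext i
  rw [AlgHom.restrictScalars_apply, map_add, Polynomial.aeval_C]
  by_cases hi : i = a
  · rw [if_pos hi, if_pos hi, Polynomial.aeval_X]
    rfl
  · rw [if_neg hi, if_neg hi, map_zero]
    rfl

end MP2619.Q5
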