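import Pool.Agent.Lib.MP_2619d0_ag.Q5.L4a

/-!
# Row L4b
-/

set_option autoImplicit false

namespace MP2619.Q5

open IntermediateField

variable {Ω : Type} [Field Ω] [Algebra ℂ Ω] {F : MvPolynomial (Fin 6) ℂ} {a : Fin 6} {ζ : Fin 6 → Ω}

/-- the substitution `X a ↦ X a + s T` with `s` a constant -/
private noncomputable def L4b_phi (a : Fin 6) (s : ℂ) :
    MvPolynomial (Fin 6) ℂ →+* Polynomial (MvPolynomial (Fin 6) ℂ) :=
  MvPolynomial.eval₂Hom ((Polynomial.C).comp MvPolynomial.C)
    (fun i => Polynomial.C (MvPolynomial.X i) +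
      if i = a then Polynomial.C (MvPolynomial.C s) * Polynomial.X else 0)

private theorem L4b_phi_C (a : Fin 6) (s c : ℂ) :
    L4b_phi a s (MvPolynomial.C c) = Polynomial.C (MvPolynomial.C c) := by
  simp [L4b_phi]

private theorem L4b_phi_X (a : Fin 6) (s : ℂ) (i : Fin 6) :
    L4b_phi a s (MvPolynomial.X i) = Polynomial.C (MvPolynomial.X i) +
      if i = a then Polynomial.C (MvPolynomial.C s) * Polynomial.X else 0 := by
  simp [L4b_phi]

private noncomputable def L4b_theta (a : Fin 6) (s : ℂ) :
    Polynomial (MvPolynomial (Fin 6) ℂ) →+* Polynomial (MvPolynomial (Fin 6) ℂ) :=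
  Polynomial.eval₂RingHom (L4b_phi a s) Polynomial.X

private theorem L4b_theta_C (a : Fin 6) (s : ℂ) (p : MvPolynomial (Fin 6) ℂ) :
    L4b_theta a s (Polynomial.C p) = L4b_phi a s p := by
  simp [L4b_theta]

private theorem L4b_theta_X (a : Fin 6) (s : ℂ) :
    L4b_theta a s Polynomial.X = Polynomial.X := by
  simp [L4b_theta]

private theorem L4b_comp (a : Fin 6) (s : ℂ) :
    (L4b_theta a s).comp (L4b_theta a (-s)) = RingHom.id _ := by
  apply Polynomial.ringHom_ext'
  · apply MvPolynomial.ringHom_ext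
    · intro c
      simp only [RingHom.comp_apply, RingHom.id_apply, L4b_theta_C, L4b_phi_C]
    · intro i
      simp only [RingHom.comp_apply, RingHom.id_apply, L4b_theta_C, L4b_phi_X, map_add]
      by_cases hi : i = a
      · simp only [hi, if_true, map_mul, L4b_theta_C, L4b_phi_C, L4b_theta_X, map_neg]
        ring
      · simp only [hi, if_false, map_zero, add_zero]
  · simp only [RingHom.comp_apply, RingHom.id_apply, L4b_theta_X]

private noncomputable def L4b_equiv (a : Fin 6) :
    Polynomial (MvPolynomial (Fin 6) ℂ) ≃+* Polynomial (MvPolynomial (Fin 6) ℂ) :=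
  RingEquiv.ofRingHom (L4b_theta a 1) (L4b_theta a (-1)) (L4b_comp a 1)
    (by simpa using L4b_comp a (-1))

/-- Row L4b. Let `R = MvPolynomial (Fin 6) ℂ`. The ring endomorphism `θ` of `R[T]` (`Polynomial R`) with `X a ↦ X a + T`, identity on
the other variables and `T ↦ T`, is an automorphism (inverse: `X a ↦ X a - T`). `C F` is prime in `R[T]`
(`Polynomial.prime_C_iff`), so `Q = θ (C F) = F (X + T e_a)` is prime, so irreducible, in `R[T]`; its degree in `T` is three, so it is
primitive (`Irreducible.isPrimitive`), and by Gauss' lemma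
(`Polynomial.IsPrimitive.irreducible_iff_irreducible_map_fraction_map`, or `Polynomial.IsPrimitive.Int...` versions for
`NormalizedGCDMonoid`) it is irreducible over a fraction field of `R`. `R` is isomorphic to `Algebra.adjoin ℂ (Set.range ζ)`
(`AlgebraicIndependent.aevalEquiv`), whose fraction field is `adjoin ℂ (Set.range ζ)` (`open scoped
IntermediateField.algebraAdjoinAdjoin`). -/
theorem cubP_irreducible (hF : Prime F) (hom : F.IsHomogeneous 3)
    (hc : MvPolynomial.coeff (Finsupp.single a 3) F ≠ 0) (hζ : AlgebraicIndependent ℂ ζ) :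
    Irreducible (cubP F a ζ) := by
  classical
  let R := MvPolynomial (Fin 6) ℂ
  let L := IntermediateField.adjoin ℂ (Set.range ζ)
  let ιa : MvPolynomial (Fin 6) ℂ →ₐ[ℂ] L :=
    MvPolynomial.aeval (fun i => (⟨ζ i, IntermediateField.subset_adjoin _ _ ⟨i, rfl⟩⟩ : L))
  have hιcoe : ∀ p : MvPolynomial (Fin 6) ℂ, ((ιa p : L) : Ω) = MvPolynomial.aeval ζ p := by
    intro p
    have h1 : (L.val.comp ιa) = MvPolynomial.aeval ζ := by
      apply MvPolynomial.algHom_ext
      intro i
      simp [ιa]
    exact DFunLike.congr_fun h1 p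
  have hιinj : Function.Injective ιa := by
    intro p q hpq
    apply hζ
    rw [← hιcoe, ← hιcoe, hpq]
  let alg : Algebra (MvPolynomial (Fin 6) ℂ) L := ιa.toRingHom.toAlgebra
  have halg : ∀ p : MvPolynomial (Fin 6) ℂ, algebraMap (MvPolynomial (Fin 6) ℂ) L p = ιa p := fun _ => rfl
  have : FaithfulSMul (MvPolynomial (Fin 6) ℂ) L :=
    (faithfulSMul_iff_algebraMap_injective _ _).2 hιinj
  have hfr : IsFractionRing (MvPolynomial (Fin 6) ℂ) L := by
    apply IsFractionRing.of_field
    rintro ⟨z, hz⟩
    obtain ⟨x, hx, y, hy, hxy⟩ := IntermediateField.mem_adjoin_iff_div.1 hz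
    rw [Algebra.adjoin_range_eq_range_aeval] at hx hy
    obtain ⟨p, hp⟩ := hx
    obtain ⟨q, hq⟩ := hy
    refine ⟨p, q, ?_⟩
    apply Subtype.ext
    rw [halg, halg]
    show z = ((ιa p / ιa q : L) : Ω)
    rw [IntermediateField.coe_div, hιcoe, hιcoe, hxy]
    exact congrArg₂ (· / ·) hp.symm hq.symm
  -- the polynomial over the base ring
  set Q : Polynomial (MvPolynomial (Fin 6) ℂ) := L4b_phi a 1 F with hQ
  have hmap : Q.map (algebraMap (MvPolynomial (Fin 6) ℂ) L) = cubP F a ζ := by
    have h1 : ((Polynomial.mapRingHom (algebraMap (MvPolynomial (Fin 6) ℂ) L)).comp (L4b_phi a 1)) =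
        (MvPolynomial.aeval (fun i => Polynomial.C (⟨ζ i, IntermediateField.subset_adjoin _ _ ⟨i, rfl⟩⟩ :
          IntermediateField.adjoin ℂ (Set.range ζ)) + if i = a then Polynomial.X else 0) :
          MvPolynomial (Fin 6) ℂ →ₐ[ℂ] Polynomial L).toRingHom := by
      apply MvPolynomial.ringHom_ext
      · intro c
        simp only [RingHom.comp_apply, L4b_phi_C, Polynomial.coe_mapRingHom, Polynomial.map_C, halg]
        rw [show (MvPolynomial.C c : MvPolynomial (Fin 6) ℂ) = algebraMap ℂ (MvPolynomial (Fin 6) ℂ) c from rfl,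
          AlgHom.commutes]
        exact (AlgHom.commutes _ c).symm
      · intro i
        simp only [RingHom.comp_apply, L4b_phi_X, Polynomial.coe_mapRingHom, Polynomial.map_add,
          Polynomial.map_C, halg]
        by_cases hi : i = a
        · simp [hi, ιa, halg]
        · simp [hi, ιa, halg]
    exact RingHom.congr_fun h1 F
  have hQprime : Prime Q := by
    have h1 : Prime (Polynomial.C F) := Polynomial.prime_C_iff.2 hF
    have h2 : L4b_equiv a (Polynomial.C F) = Q := L4b_theta_C a 1 F
    rw [← h2]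
    exact (MulEquiv.prime_iff (L4b_equiv a)).2 h1
  have hQirr : Irreducible Q := hQprime.irreducible
  have hdeg : Q.natDegree ≠ 0 := by
    intro h0
    have h1 := Polynomial.natDegree_map_le (f := algebraMap (MvPolynomial (Fin 6) ℂ) L) (p := Q)
    rw [hmap, cubP_natDegree hom hc, h0] at h1
    omega
  have hprim : Q.IsPrimitive := hQirr.isPrimitive hdeg
  let _ : NormalizedGCDMonoid (MvPolynomial (Fin 6) ℂ) :=
    Classical.choice inferInstance
  rw [← hmap]
  exact (hprim.irreducible_iff_irreducible_map_fraction_map (K := L)).1 hQirr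

end MP2619.Q5
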