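import Pool.Agent.Lib.MP_2619d0_ag.Q5.L4b

/-!
# Row L4c
-/

set_option autoImplicit false

namespace MP2619.Q5

open IntermediateField

variable {Ω : Type} [Field Ω] [Algebra ℂ Ω] {F : MvPolynomial (Fin 6) ℂ} {a : Fin 6} {ζ : Fin 6 → Ω}

/-- Row L4c. `cubP F a ζ ≠ 0` (degree three) has the root `c`. -/
theorem cubic_int (hom : F.IsHomogeneous 3) (hc : MvPolynomial.coeff (Finsupp.single a 3) F ≠ 0)
    (c : Ω) (h : MvPolynomial.aeval (fun i => ζ i + if i = a then c else 0) F = 0) :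
    IsIntegral (adjoin ℂ (Set.range ζ)) c := by
  rw [← isAlgebraic_iff_isIntegral]
  refine ⟨cubP F a ζ, fun h0 => ?_, cubP_root c h⟩
  have h1 : (cubP F a ζ).natDegree = 3 := cubP_natDegree hom hc
  rw [h0, Polynomial.natDegree_zero] at h1
  omega

/-- Row L4c. `adjoin.finrank`, `minpoly.eq_of_irreducible` (up to a constant), `cubP_natDegree`. -/
theorem cubic_deg (hF : Prime F) (hom : F.IsHomogeneous 3)
    (hc : MvPolynomial.coeff (Finsupp.single a 3) F ≠ 0) (hζ : AlgebraicIndependent ℂ ζ)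
    (c : Ω) (h : MvPolynomial.aeval (fun i => ζ i + if i = a then c else 0) F = 0) :
    Module.finrank (adjoin ℂ (Set.range ζ)) (adjoin (adjoin ℂ (Set.range ζ)) ({c} : Set Ω)) = 3 := by
  rw [adjoin.finrank (cubic_int hom hc c h)]
  have h1 : (cubP F a ζ).natDegree = 3 := cubP_natDegree hom hc
  have hirr := cubP_irreducible hF hom hc hζ
  rw [← minpoly.eq_of_irreducible hirr (cubP_root c h),
    Polynomial.natDegree_mul_C (inv_ne_zero (Polynomial.leadingCoeff_ne_zero.2 hirr.ne_zero)), h1]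

end MP2619.Q5
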