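import Pool.Agent.Lib.MP_2619d0_ag.Q5.L1a
import Pool.Agent.Lib.MP_2619d0_ag.N.A0

/-!
# Row L5
-/

set_option autoImplicit false

namespace MP2619.Q5

open IntermediateField MP2619.R MP2619.N

/-- the pair is algebraically independent over `ℂ(t)` -/
private theorem L5_ind {Ω : Type} [Field Ω] [Algebra ℂ Ω] (t : Fin 4 → Ω) (α β : Ω)
    (hv : AlgebraicIndependent ℂ (Fin.cons α (Fin.cons β t) : Fin 6 → Ω)) :
    AlgebraicIndependent (adjoin ℂ (Set.range t))
      (Fin.cons α (fun _ => β : Fin 1 → Ω) : Fin 2 → Ω) := by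
  obtain ⟨h1, h2⟩ := (ind_cons α (Fin.cons β t : Fin 5 → Ω)).1 hv
  obtain ⟨_, h3⟩ := (ind_cons β t).1 h1
  refine (ind_cons α _).2 ⟨algebraicIndependent_unique_type_iff.2 h3, ?_⟩
  have e : adjoin ℂ (Set.range (Fin.cons β t : Fin 5 → Ω)) =
      (adjoin (adjoin ℂ (Set.range t)) (Set.range (fun _ => β : Fin 1 → Ω))).restrictScalars ℂ := by
    rw [adjoin_adjoin_left, Fin.range_cons, Set.range_const, Set.union_singleton]
  rw [e] at h2
  exact h2

private theorem L5_top {Ω : Type} [Field Ω] [Algebra ℂ Ω] (t : Fin 4 → Ω) (α β : Ω)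
    (hgen : adjoin ℂ (Set.range (Fin.cons α (Fin.cons β t) : Fin 6 → Ω)) = ⊤)
    (E : IntermediateField (adjoin ℂ (Set.range t)) Ω) (hα : α ∈ E) (hβ : β ∈ E) : E = ⊤ := by
  rw [eq_top_iff]
  intro x _
  have h1 : x ∈ adjoin ℂ (Set.range (Fin.cons α (Fin.cons β t) : Fin 6 → Ω)) := by
    rw [hgen]
    exact mem_top
  have h2 : adjoin ℂ (Set.range (Fin.cons α (Fin.cons β t) : Fin 6 → Ω)) ≤
      E.restrictScalars ℂ := by
    rw [adjoin_le_iff, Fin.range_cons, Fin.range_cons]
    intro y hy
    rw [Set.mem_insert_iff, Set.mem_insert_iff] at hy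
    rcases hy with rfl | rfl | ⟨i, rfl⟩
    · exact hα
    · exact hβ
    · exact E.algebraMap_mem ⟨t i, subset_adjoin ℂ _ ⟨i, rfl⟩⟩
  exact h2 h1

/-- Row L5. `Kt = adjoin ℂ (Set.range t)`, `R = rat ℂ X` (inside `Kt`), `α' = α * X a`, `β' = β * X a`, `u = ![α', β']`.
(1) `α`, `β` are algebraically independent over `Kt` (`hv`; `ind_cons` twice, or `AlgebraicIndependent` for a sum type), so
are `α'`, `β'`; `adjoin Kt (Set.range u) = ⊤` (`hgen`). (2) `finrank_adjoin_ind` with `K = R`, `F = Kt`, `κ = Ω`, `v = u`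
(`halg`: `Kt` is finite over `R`): `[Ω : R(α', β')] = [Kt : R]`. (3) The two fields
`adjoin R (Set.range u)` and `adjoin (adjoin ℂ (Set.range ζ)) {c}`, `c = (1 - w) α'`, are the same subset of `Ω`:
`ζ i = (α' + β') * (X i / X a)` for `i ≠ a`, `ζ a = w α' + β'`, `c = (1 - w) α'`; conversely `α' = c / (1 - w)` (`w ≠ 1`, since
`3 ≠ 0`), `β' = ζ a - w α'`, `X i / X a = ζ i / (α' + β')` (`α' + β' ≠ 0`), `X i / X j` is a quotient of these. Compare them as
`IntermediateField ℂ Ω` (`restrictScalars`, `adjoin_adjoin_left`, as in `finrank_cons` in R/A8). -/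
theorem deg_L5 {Ω : Type} [Field Ω] [Algebra ℂ Ω] (t : Fin 4 → Ω) (α β : Ω)
    (hv : AlgebraicIndependent ℂ (Fin.cons α (Fin.cons β t) : Fin 6 → Ω))
    (hgen : adjoin ℂ (Set.range (Fin.cons α (Fin.cons β t) : Fin 6 → Ω)) = ⊤)
    (X : Fin 6 → adjoin ℂ (Set.range t)) (a : Fin 6) (hXa : X a ≠ 0) (w : ℂ)
    (hw : w ^ 2 + w + 1 = 0)
    (halg : Module.finrank (rat ℂ X) (adjoin ℂ (Set.range t)) ≠ 0) :
    Module.finrank (adjoin (adjoin ℂ (Set.range (zg w (fun i => α * (X i : Ω))
        (fun i => β * (X i : Ω)) (Pi.single a 1))))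
        ({(1 - algebraMap ℂ Ω w) * (α * (X a : Ω))} : Set Ω)) Ω =
      Module.finrank (rat ℂ X) (adjoin ℂ (Set.range t)) := by
  have hXa' : (X a : Ω) ≠ 0 := fun h => hXa (Subtype.ext h)
  set u0 : Fin 2 → Ω := Fin.cons α (fun _ => β : Fin 1 → Ω) with hu0
  set u : Fin 2 → Ω := Fin.cons (α * (X a : Ω)) (fun _ => β * (X a : Ω) : Fin 1 → Ω) with hu
  have hru0 : Set.range u0 = {α, β} := by
    rw [hu0, Fin.range_cons, Set.range_const]
  have hru : Set.range u = {α * (X a : Ω), β * (X a : Ω)} := by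
    rw [hu, Fin.range_cons, Set.range_const]
  have hind0 : AlgebraicIndependent (adjoin ℂ (Set.range t)) u0 := L5_ind t α β hv
  have htop0 : adjoin (adjoin ℂ (Set.range t)) (Set.range u0) = ⊤ := by
    refine L5_top t α β hgen _ ?_ ?_
    · refine subset_adjoin _ _ ?_
      rw [hru0]
      exact Set.mem_insert _ _
    · refine subset_adjoin _ _ ?_
      rw [hru0]
      exact Set.mem_insert_of_mem _ (Set.mem_singleton _)
  have htop : adjoin (adjoin ℂ (Set.range t)) (Set.range u) = ⊤ := by
    have hXm : (X a : Ω) ∈ adjoin (adjoin ℂ (Set.range t)) (Set.range u) :=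
      (adjoin (adjoin ℂ (Set.range t)) (Set.range u)).algebraMap_mem (X a)
    refine L5_top t α β hgen _ ?_ ?_
    · have h1 : α * (X a : Ω) ∈ adjoin (adjoin ℂ (Set.range t)) (Set.range u) := by
        refine subset_adjoin _ _ ?_
        rw [hru]
        exact Set.mem_insert _ _
      have h2 := div_mem h1 hXm
      rwa [mul_div_cancel_right₀ _ hXa'] at h2
    · have h1 : β * (X a : Ω) ∈ adjoin (adjoin ℂ (Set.range t)) (Set.range u) := by
        refine subset_adjoin _ _ ?_
        rw [hru]
        exact Set.mem_insert_of_mem _ (Set.mem_singleton _)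
      have h2 := div_mem h1 hXm
      rwa [mul_div_cancel_right₀ _ hXa'] at h2
  have hf1 : ∀ E : IntermediateField (adjoin ℂ (Set.range t)) Ω, E = ⊤ → Module.finrank E Ω = 1 := by
    rintro E rfl
    exact IntermediateField.finrank_top
  have hind : AlgebraicIndependent (adjoin ℂ (Set.range t)) u := by
    refine (fin_iff_ind u0 u hind0 ?_).2 ?_
    · rw [hf1 _ htop0]
      exact one_ne_zero
    · rw [hf1 _ htop]
      exact one_ne_zero
  have hfd : FiniteDimensional (rat ℂ X) (adjoin ℂ (Set.range t)) :=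
    Module.finite_of_finrank_pos (Nat.pos_of_ne_zero halg)
  have hmain := finrank_adjoin_ind (K := rat ℂ X) (F := adjoin ℂ (Set.range t)) (κ := Ω)
    (Algebra.IsAlgebraic.of_finite _ _) u hind
  rw [hf1 _ htop, mul_one] at hmain
  rw [← hmain]
  -- comparison of the two fields
  set ζ := zg w (fun i => α * (X i : Ω)) (fun i => β * (X i : Ω)) (Pi.single a 1) with hζ
  have hζa : ζ a = algebraMap ℂ Ω w * (α * (X a : Ω)) + β * (X a : Ω) := by
    rw [hζ]
    unfold zg
    rw [Pi.single_eq_same]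
    have : ((1 : ZMod 3)).val = 1 := rfl
    rw [this, pow_one]
  have hζi : ∀ i, i ≠ a → ζ i = (α + β) * (X i : Ω) := by
    intro i hi
    rw [hζ]
    unfold zg
    rw [Pi.single_eq_of_ne hi]
    have : ((0 : ZMod 3)).val = 0 := rfl
    rw [this, pow_zero, map_one]
    ring
  have hw1 : 1 - algebraMap ℂ Ω w ≠ 0 := by
    intro h
    have h1 : w = 1 := by
      apply (algebraMap ℂ Ω).injective
      rw [map_one]
      exact (sub_eq_zero.1 h).symm
    rw [h1] at hw
    norm_num at hw
  have hab : α + β ≠ 0 := by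
    intro h
    have h2 : (MvPolynomial.X 0 + MvPolynomial.X 1 :
        MvPolynomial (Fin 2) (adjoin ℂ (Set.range t))) = 0 := by
      apply (algebraicIndependent_iff_injective_aeval.1 hind0)
      rw [map_zero, map_add, MvPolynomial.aeval_X, MvPolynomial.aeval_X]
      exact h
    have h3 := congrArg (MvPolynomial.eval (fun i => if i = 0 then 1 else 0)) h2
    rw [map_add, MvPolynomial.eval_X, MvPolynomial.eval_X, map_zero, if_pos rfl,
      if_neg (by decide), add_zero] at h3
    exact one_ne_zero h3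
  have hE : (adjoin (adjoin ℂ (Set.range ζ)) ({(1 - algebraMap ℂ Ω w) * (α * (X a : Ω))} :
      Set Ω)).restrictScalars ℂ = (adjoin (rat ℂ X) (Set.range u)).restrictScalars ℂ := by
    set E1 := (adjoin (rat ℂ X) (Set.range u)).restrictScalars ℂ with hE1
    have m1 : α * (X a : Ω) ∈ E1 := by
      have : α * (X a : Ω) ∈ adjoin (rat ℂ X) (Set.range u) := by
        refine subset_adjoin _ _ ?_
        rw [hru]
        exact Set.mem_insert _ _
      exact this
    have m2 : β * (X a : Ω) ∈ E1 := by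
      have : β * (X a : Ω) ∈ adjoin (rat ℂ X) (Set.range u) := by
        refine subset_adjoin _ _ ?_
        rw [hru]
        exact Set.mem_insert_of_mem _ (Set.mem_singleton _)
      exact this
    have m3 : ∀ i j, (X i : Ω) / (X j : Ω) ∈ E1 := by
      intro i j
      have h1 : X i / X j ∈ rat ℂ X := subset_adjoin _ _ ⟨i, j, rfl⟩
      have h2 : algebraMap (rat ℂ X) Ω ⟨X i / X j, h1⟩ ∈ adjoin (rat ℂ X) (Set.range u) :=
        (adjoin (rat ℂ X) (Set.range u)).algebraMap_mem _
      exact h2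
    rw [adjoin_adjoin_left]
    apply le_antisymm
    · rw [adjoin_le_iff]
      rintro y (⟨i, rfl⟩ | hy)
      · by_cases hi : i = a
        · subst hi
          rw [SetLike.mem_coe, hζa]
          exact add_mem (mul_mem (E1.algebraMap_mem w) m1) m2
        · rw [SetLike.mem_coe, hζi i hi]
          have h1 : (α + β) * (X i : Ω) = (α * (X a : Ω) + β * (X a : Ω)) *
              ((X i : Ω) / (X a : Ω)) := by
            field_simp
          rw [h1]
          exact mul_mem (add_mem m1 m2) (m3 i a)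
      · rw [Set.mem_singleton_iff] at hy
        rw [hy]
        exact mul_mem (sub_mem (one_mem _) (E1.algebraMap_mem w)) m1
    · set E2 := adjoin ℂ (Set.range ζ ∪ {(1 - algebraMap ℂ Ω w) * (α * (X a : Ω))}) with hE2
      have n0 : (1 - algebraMap ℂ Ω w) * (α * (X a : Ω)) ∈ E2 :=
        subset_adjoin _ _ (Or.inr rfl)
      have nz : ∀ i, ζ i ∈ E2 := fun i => subset_adjoin _ _ (Or.inl ⟨i, rfl⟩)
      have n1 : α * (X a : Ω) ∈ E2 := by
        have h1 := div_mem n0 (sub_mem (one_mem E2) (E2.algebraMap_mem w))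
        rwa [mul_div_cancel_left₀ _ hw1] at h1
      have n2 : β * (X a : Ω) ∈ E2 := by
        have h1 := sub_mem (nz a) (mul_mem (E2.algebraMap_mem w) n1)
        rwa [hζa, add_sub_cancel_left] at h1
      have n3 : ∀ i, (X i : Ω) / (X a : Ω) ∈ E2 := by
        intro i
        by_cases hi : i = a
        · subst hi
          rw [div_self hXa']
          exact one_mem _
        · have h1 := div_mem (nz i) (add_mem n1 n2)
          rw [hζi i hi, ← add_mul, mul_div_mul_left _ _ hab] at h1
          exact h1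
      have n4 : ∀ i j, (X i : Ω) / (X j : Ω) ∈ E2 := by
        intro i j
        have h1 := div_mem (n3 i) (n3 j)
        rw [div_div_div_cancel_right₀ hXa'] at h1
        exact h1
      have n5 : ∀ r : rat ℂ X, algebraMap (rat ℂ X) Ω r ∈ E2 := by
        intro r
        have h1 : ((rat ℂ X).map (adjoin ℂ (Set.range t)).val) ≤ E2 := by
          unfold rat
          rw [adjoin_map, adjoin_le_iff]
          rintro _ ⟨_, ⟨i, j, rfl⟩, rfl⟩
          exact n4 i j
        exact h1 ⟨r.1, r.2, rfl⟩
      intro x hx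
      have hx' : x ∈ adjoin (rat ℂ X) (Set.range u) := hx
      clear hx
      induction hx' using adjoin_induction with
      | mem y hy =>
        rw [hru] at hy
        rcases hy with rfl | hy
        · exact n1
        · rw [Set.mem_singleton_iff] at hy
          rw [hy]
          exact n2
      | algebraMap r => exact n5 r
      | add x y hx hy h1 h2 => exact add_mem h1 h2
      | inv x hx h1 => exact inv_mem h1
      | mul x y hx hy h1 h2 => exact mul_mem h1 h2
  change Module.finrank ((adjoin (adjoin ℂ (Set.range ζ)) ({(1 - algebraMap ℂ Ω w) *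
    (α * (X a : Ω))} : Set Ω)).restrictScalars ℂ) Ω = _
  rw [hE]
  rfl

end MP2619.Q5
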