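import Pool.Agent.Lib.MP_2619d0_ag.N.T3b

/-!
# Q5, row P2: the path lemma for one polynomial

`P ∈ B[X][Z]`; `ρ` the roots of `P(e, Z)`, `ρ0` the roots of `P(0, Z)`. If for every valuation `V` with `V(e) = t`,
`0 < t ≤ 1` (Gauss over `B`), the number of roots `ρ` of norm `R` is even for all `R` in `(1, R0)`, then the number of
the roots `ρ` of norm `≤ 1` (for `t = 1`) and the number of the roots `ρ0` of norm `≤ 1` have the same parity.
-/

set_option autoImplicit false

namespace MP2619.Q5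

open scoped NNReal Topology
open Polynomial MP2619.N

private theorem P2_par {N : ℕ} (f : Fin N → ℝ≥0) (R : ℝ≥0) (hR : 1 < R)
    (h : ∀ r, 1 < r → r < R → Even (Finset.univ.filter fun i => f i = r).card) :
    Even (Finset.univ.filter fun i => f i < R).card ↔
      Even (Finset.univ.filter fun i => f i ≤ 1).card := by
  have h1 : (Finset.univ.filter fun i => f i < R).card =
      (Finset.univ.filter fun i => f i ≤ 1).card +
        (Finset.univ.filter fun i => 1 < f i ∧ f i < R).card := by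
    rw [← Finset.card_union_of_disjoint]
    · congr 1
      ext i
      simp only [Finset.mem_filter, Finset.mem_univ, true_and, Finset.mem_union]
      constructor
      · intro hi
        by_cases h2 : f i ≤ 1
        · exact Or.inl h2
        · exact Or.inr ⟨not_le.1 h2, hi⟩
      · rintro (hi | hi)
        · exact lt_of_le_of_lt hi hR
        · exact hi.2
    · rw [Finset.disjoint_left]
      intro i hi hi'
      simp only [Finset.mem_filter, Finset.mem_univ, true_and] at hi hi'
      exact absurd hi'.1 (not_lt.2 hi)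
  have h2 : Even (Finset.univ.filter fun i => 1 < f i ∧ f i < R).card := by
    rw [Finset.card_eq_sum_card_image f]
    refine Finset.even_sum _ fun b hb => ?_
    obtain ⟨i, hi, rfl⟩ := Finset.mem_image.1 hb
    simp only [Finset.mem_filter, Finset.mem_univ, true_and] at hi
    have := h (f i) hi.1 hi.2
    have he : ((Finset.univ.filter fun i => 1 < f i ∧ f i < R).filter fun a => f a = f i) =
        Finset.univ.filter fun j => f j = f i := by
      ext j
      simp only [Finset.mem_filter, Finset.mem_univ, true_and]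
      constructor
      · exact fun hj => hj.2
      · exact fun hj => ⟨by rw [hj]; exact hi, hj⟩
    rw [he]
    exact this
  rw [h1, Nat.even_add]
  constructor
  · intro h3; exact h3.2 h2
  · intro h3; exact ⟨fun _ => h2, fun _ => h3⟩

/-- the norm of the coefficient `l` -/
private noncomputable def P2_w {B : Type*} [Field B] (v : Valuation B ℝ≥0) (P : B[X][X]) (l : ℕ)
    (t : ℝ≥0) : ℝ≥0 :=
  (P.coeff l).support.sup fun j => v ((P.coeff l).coeff j) * t ^ j

private theorem P2_w_cont {B : Type*} [Field B] (v : Valuation B ℝ≥0) (P : B[X][X]) (l : ℕ) :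
    Continuous (P2_w v P l) := by
  unfold P2_w
  refine Continuous.finset_sup_apply fun j _ => ?_
  exact continuous_const.mul (continuous_id.pow j)

private theorem P2_w_zero {B : Type*} [Field B] (v : Valuation B ℝ≥0) (P : B[X][X]) (l : ℕ) :
    P2_w v P l 0 = v ((P.coeff l).coeff 0) := by
  unfold P2_w
  apply le_antisymm
  · refine Finset.sup_le fun j _ => ?_
    rcases Nat.eq_zero_or_pos j with h | h
    · rw [h, pow_zero, mul_one]
    · rw [zero_pow h.ne', mul_zero]
      exact zero_le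
  · by_cases h : (P.coeff l).coeff 0 = 0
    · rw [h, map_zero]
      exact zero_le
    · have := Finset.le_sup (f := fun j => v ((P.coeff l).coeff j) * (0 : ℝ≥0) ^ j)
        (mem_support_iff.2 h)
      simpa using this

/-- the term `a` is the only maximal one -/
private def P2_D (S : Finset ℕ) (w : ℕ → ℝ≥0 → ℝ≥0) (t R : ℝ≥0) (a : ℕ) : Prop :=
  a ∈ S ∧ ∀ j ∈ S, j ≠ a → w j t * R ^ j < w a t * R ^ a

private theorem P2_D_unique {S : Finset ℕ} {w : ℕ → ℝ≥0 → ℝ≥0} {t R : ℝ≥0}
    {a b : ℕ} (ha : P2_D S w t R a) (hb : P2_D S w t R b) : a = b := by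
  by_contra hne
  exact lt_asymm (ha.2 b hb.1 (Ne.symm hne)) (hb.2 a ha.1 hne)

/-- the abstract path lemma: `f t` are the norms of the roots at `t` -/
private theorem P2_path (S : Finset ℕ) (w : ℕ → ℝ≥0 → ℝ≥0) (hw : ∀ j, Continuous (w j)) (R0 : ℝ≥0)
    (hR0 : 1 < R0) (N : ℝ≥0 → ℕ) (f : ∀ t, Fin (N t) → ℝ≥0)
    (hD : ∀ t ≤ 1, ∀ R, 0 < R → (∀ i, f t i ≠ R) →
      P2_D S w t R (Finset.univ.filter fun i => f t i < R).card)
    (hG : ∀ t, 0 < t → t ≤ 1 → ∀ R, 1 < R → R < R0 →
      Even (Finset.univ.filter fun i => f t i = R).card) :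
    Even (Finset.univ.filter fun i => f 1 i ≤ 1).card ↔
      Even (Finset.univ.filter fun i => f 0 i ≤ 1).card := by
  have : PreconnectedSpace (Set.Icc (0 : ℝ≥0) (1 : ℝ≥0)) := Subtype.preconnectedSpace isPreconnected_Icc
  have hlc : IsLocallyConstant fun t : Set.Icc (0 : ℝ≥0) (1 : ℝ≥0) =>
      Even (Finset.univ.filter fun i => f t i ≤ 1).card := by
    rw [IsLocallyConstant.iff_eventually_eq]
    intro t1
    -- choice of `R1`
    have hR : ∀ᶠ R in 𝓝[>] (1 : ℝ≥0), R < R0 ∧ ∀ i, f t1 i ≤ 1 ∨ R < f t1 i := by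
      refine Filter.Eventually.and ?_ ?_
      · exact (eventually_lt_nhds hR0).filter_mono nhdsWithin_le_nhds
      · rw [Filter.eventually_all]
        intro i
        by_cases h : f t1 i ≤ 1
        · exact Filter.Eventually.of_forall fun _ => Or.inl h
        · exact ((eventually_lt_nhds (not_le.1 h)).filter_mono nhdsWithin_le_nhds).mono
            fun _ hx => Or.inr hx
    obtain ⟨R1, ⟨hR1a, hR1b⟩, hR1⟩ := (hR.and self_mem_nhdsWithin).exists
    have hR1' : 1 < R1 := hR1
    have hgen : ∀ i, f t1 i ≠ R1 := by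
      intro i
      rcases hR1b i with h | h
      · exact (lt_of_le_of_lt h hR1').ne
      · exact h.ne'
    have hIJ : (Finset.univ.filter fun i => f t1 i < R1) = (Finset.univ.filter fun i => f t1 i ≤ 1) := by
      ext i
      simp only [Finset.mem_filter, Finset.mem_univ, true_and]
      constructor
      · intro h
        rcases hR1b i with h' | h'
        · exact h'
        · exact absurd h (not_lt.2 h'.le)
      · intro h
        exact lt_of_le_of_lt h hR1'
    have hdom := hD t1 t1.2.2 R1 (zero_lt_one.trans hR1') hgen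
    rw [hIJ] at hdom
    obtain ⟨a, ha⟩ : ∃ a, a = (Finset.univ.filter fun i => f t1 i ≤ 1).card := ⟨_, rfl⟩
    rw [← ha] at hdom
    have hwc : ∀ j, Continuous fun x : ℝ≥0 × ℝ≥0 => w j x.1 * x.2 ^ j := fun j =>
      ((hw j).comp continuous_fst).mul (continuous_snd.pow j)
    have hev : ∀ᶠ x in 𝓝 ((t1 : ℝ≥0), R1), P2_D S w x.1 x.2 a ∧ 1 < x.2 ∧ x.2 < R0 := by
      refine Filter.Eventually.and ?_ (Filter.Eventually.and ?_ ?_)
      · refine Filter.Eventually.and (Filter.Eventually.of_forall fun _ => hdom.1) ?_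
        rw [Filter.eventually_all_finset]
        intro i hi
        by_cases h : i = a
        · exact Filter.Eventually.of_forall fun x h' => absurd h h'
        · have := (hwc i).continuousAt.eventually_lt (hwc a).continuousAt
            (x₀ := ((t1 : ℝ≥0), R1)) (hdom.2 i hi h)
          exact this.mono fun x hx _ => hx
      · exact continuous_snd.continuousAt.eventually_const_lt hR1'
      · exact continuous_snd.continuousAt.eventually_lt_const hR1a
    have hloc : ∀ᶠ t in 𝓝 (t1 : ℝ≥0), 0 < t → t ≤ 1 →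
        (Even (Finset.univ.filter fun i => f t i ≤ 1).card ↔ Even a) := by
      refine hev.curry_nhds.mono fun t ht h0t h1t => ?_
      have hfin : (Set.range fun x : Fin (N t) => f t x).Finite := Set.finite_range _
      have : (𝓝[≠] R1).NeBot := (nhdsGT_neBot R1).mono (nhdsWithin_mono _ fun x hx => ne_of_gt hx)
      obtain ⟨R, hRm, hRn⟩ := ((infinite_of_mem_nhds R1 ht).sdiff hfin).nonempty
      obtain ⟨hRa, hRb, hRc⟩ := hRm
      have hgen' : ∀ i, f t i ≠ R := fun i h => hRn ⟨i, h⟩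
      have hdom' := hD t h1t R (zero_lt_one.trans hRb) hgen'
      have e1 := P2_D_unique hdom' hRa
      rw [← P2_par (f t) R hRb (fun r hr1 hr2 => hG t h0t h1t r hr1 (hr2.trans hRc)), e1]
    have hloc' : ∀ᶠ t : Set.Icc (0 : ℝ≥0) (1 : ℝ≥0) in 𝓝 t1, 0 < (t : ℝ≥0) → (t : ℝ≥0) ≤ 1 →
        (Even (Finset.univ.filter fun i => f t i ≤ 1).card ↔ Even a) :=
      (continuous_subtype_val.tendsto t1).eventually hloc
    rcases eq_or_lt_of_le (zero_le (a := (t1 : ℝ≥0))) with h0 | h0
    · filter_upwards [hloc'] with t ht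
      rcases eq_or_lt_of_le (zero_le (a := (t : ℝ≥0))) with h1 | h1
      · have : t = t1 := Subtype.ext (h1.symm.trans h0)
        rw [this]
      · rw [← ha]
        exact propext (ht h1 t.2.2)
    · have h3 : ∀ᶠ t : Set.Icc (0 : ℝ≥0) (1 : ℝ≥0) in 𝓝 t1, 0 < (t : ℝ≥0) :=
        continuous_subtype_val.continuousAt.eventually_const_lt h0
      filter_upwards [hloc', h3] with t ht h1
      rw [← ha]
      exact propext (ht h1 t.2.2)
  have h := hlc.apply_eq_of_preconnectedSpace ⟨1, zero_le_one, le_rfl⟩ ⟨0, le_rfl, zero_le_one⟩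
  exact iff_of_eq h

/-- dominance for a polynomial with given roots -/
private theorem P2_dom {A : Type*} [Field A] (V : Valuation A ℝ≥0) {B : Type*} [Field B]
    (P : B[X][X]) (g : B[X] →+* A) (c : A) (hc : c ≠ 0) {N : ℕ} (ρ : Fin N → A)
    (hP : P.map g = C c * ∏ i, (X - C (ρ i))) (w : ℕ → ℝ≥0) (hw : ∀ j, V (g (P.coeff j)) = w j)
    (R : ℝ≥0) (hR : 0 < R) (hne : ∀ i, V (ρ i) ≠ R) :
    (Finset.univ.filter fun i => V (ρ i) < R).card ∈ P.support ∧
      ∀ j, j ≠ (Finset.univ.filter fun i => V (ρ i) < R).card →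
        w j * R ^ j < w (Finset.univ.filter fun i => V (ρ i) < R).card *
          R ^ (Finset.univ.filter fun i => V (ρ i) < R).card := by
  obtain ⟨a, ha⟩ : ∃ a, a = (Finset.univ.filter fun i => V (ρ i) < R).card := ⟨_, rfl⟩
  have hcoef : ∀ j, w j = V c * V ((∏ i, (X - C (ρ i))).coeff j) := by
    intro j
    rw [← hw, ← coeff_map, hP, coeff_C_mul, map_mul]
  have hVc : 0 < V c := by
    rw [zero_lt_iff, V.ne_zero_iff]
    exact hc
  have hd := gn_dom V R ρ hR hne
  rw [← ha] at hd ⊢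
  have hlt : ∀ j, j ≠ a → w j * R ^ j < w a * R ^ a := by
    intro j hj
    rw [hcoef, hcoef, mul_assoc, mul_assoc]
    exact mul_lt_mul_of_pos_left (hd j hj) hVc
  refine ⟨?_, hlt⟩
  by_contra h
  have h0 : P.coeff a = 0 := notMem_support_iff.1 h
  have h1 := hlt (a + 1) (by omega)
  rw [← hw a, h0, map_zero, map_zero, zero_mul] at h1
  exact absurd h1 (not_lt.2 zero_le)

theorem path_poly {B A : Type*} [Field B] [Field A] [Algebra B A] (e : A) (v : Valuation B ℝ≥0)
    (R0 : ℝ≥0) (hR0 : 1 < R0)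
    (hex : ∀ t : ℝ≥0, 0 < t → t ≤ 1 → ∃ V : Valuation A ℝ≥0, Ov v e t V)
    (P : B[X][X]) {N N0 : ℕ} (ρ : Fin N → A) (ρ0 : Fin N0 → A) (c c0 : A) (hc : c ≠ 0)
    (hc0 : c0 ≠ 0)
    (hP : P.map (aeval e : B[X] →ₐ[B] A).toRingHom = C c * ∏ i, (X - C (ρ i)))
    (hP0 : P.map ((algebraMap B A).comp (evalRingHom 0)) = C c0 * ∏ i, (X - C (ρ0 i)))
    (hG : ∀ t, 0 < t → t ≤ 1 → ∀ V : Valuation A ℝ≥0, Ov v e t V → ∀ R : ℝ≥0, 1 < R → R < R0 →
      Even (Finset.univ.filter fun i => V (ρ i) = R).card)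
    (V : Valuation A ℝ≥0) (hV : Ov v e 1 V) :
    Even (Finset.univ.filter fun i => V (ρ i) ≤ 1).card ↔
      Even (Finset.univ.filter fun i => V (ρ0 i) ≤ 1).card := by
  classical
  -- a family of valuations
  have hex' : ∀ t : ℝ≥0, ∃ W : Valuation A ℝ≥0, (0 < t → t ≤ 1 → Ov v e t W) ∧ (t = 1 → W = V) := by
    intro t
    by_cases h1 : t = 1
    · exact ⟨V, fun _ _ => h1 ▸ hV, fun _ => rfl⟩
    · by_cases h2 : 0 < t ∧ t ≤ 1
      · obtain ⟨W, hW⟩ := hex t h2.1 h2.2
        exact ⟨W, fun _ _ => hW, fun h => absurd h h1⟩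
      · exact ⟨V, fun h3 h4 => absurd ⟨h3, h4⟩ h2, fun h => absurd h h1⟩
  choose W hW hW1 using hex'
  have hVB : ∀ b : B, V (algebraMap B A b) = v b := by
    intro b
    have h := hV (C b)
    rw [aeval_C] at h
    rw [h]
    by_cases hb : b = 0
    · rw [hb]
      simp
    · rw [support_C hb, Finset.sup_singleton, coeff_C_zero, pow_zero, mul_one]
  -- the norms of the roots
  obtain ⟨g, hg⟩ : ∃ g : ∀ t : ℝ≥0, Σ n : ℕ, Fin n → ℝ≥0,
      g = fun t => if t = 0 then ⟨N0, fun i => V (ρ0 i)⟩ else ⟨N, fun i => W t (ρ i)⟩ := ⟨_, rfl⟩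
  have hg0 : g 0 = ⟨N0, fun i => V (ρ0 i)⟩ := by
    rw [hg]
    exact if_pos rfl
  have hgt : ∀ t, t ≠ 0 → g t = ⟨N, fun i => W t (ρ i)⟩ := by
    intro t ht
    rw [hg]
    exact if_neg ht
  have key := P2_path P.support (P2_w v P) (fun j => P2_w_cont v P j) R0 hR0 (fun t => (g t).1)
    (fun t => (g t).2) ?_ ?_
  · rw [hgt 1 one_ne_zero, hg0, hW1 1 rfl] at key
    exact key
  · intro t ht R hR hne
    rcases eq_or_ne t 0 with rfl | h0
    · rw [hg0] at hne ⊢
      obtain ⟨h1, h2⟩ := P2_dom V P ((algebraMap B A).comp (evalRingHom 0)) c0 hc0 ρ0 hP0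
        (fun j => P2_w v P j 0) (fun j => by
          rw [P2_w_zero, RingHom.comp_apply, hVB, coe_evalRingHom, coeff_zero_eq_eval_zero]) R hR hne
      exact ⟨h1, fun j _ hj => h2 j hj⟩
    · rw [hgt t h0] at hne ⊢
      obtain ⟨h1, h2⟩ := P2_dom (W t) P (aeval e : B[X] →ₐ[B] A).toRingHom c hc ρ hP
        (fun j => P2_w v P j t) (fun j => hW t (zero_lt_iff.2 h0) ht (P.coeff j)) R hR hne
      exact ⟨h1, fun j _ hj => h2 j hj⟩
  · intro t h0 h1 R hR1 hR2
    rw [hgt t h0.ne']
    exact hG t h0 h1 (W t) (hW t h0 h1) R hR1 hR2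

end MP2619.Q5
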