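import Pool.Agent.Lib.MP_2619d0_ag.Q5.S0
import Pool.Agent.Lib.MP_2619d0_ag.N.A3
import Pool.Agent.Lib.MP_2619d0_ag.N.A1
import Pool.Agent.Lib.MP_2619d0_ag.N.A8
import Pool.Agent.Lib.MP_2619d0_ag.N.T2

/-!
# Q5, row P3: the constant field `E0`
-/

set_option autoImplicit false

namespace MP2619.Q5

open scoped NNReal
open Polynomial IntermediateField MP2619.R MP2619.N Pool.Agent.Lib.MP_2619d0_ag Pool.Agent.Lib.MP_2619d0_ag.T

/-! ### one variable -/

private theorem P3_sup_le {B : Type*} [Field B] (v : Valuation B ℝ≥0) (t : ℝ≥0)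
    (p : Polynomial B) (c : ℝ≥0) :
    (p.support.sup fun i => v (p.coeff i) * t ^ i) ≤ c ↔ ∀ i, v (p.coeff i) * t ^ i ≤ c := by
  constructor
  · intro h i
    by_cases hi : i ∈ p.support
    · exact (Finset.le_sup (f := fun i => v (p.coeff i) * t ^ i) hi).trans h
    · rw [Polynomial.notMem_support_iff.mp hi]
      simp
  · intro h
    exact Finset.sup_le fun i _ => h i

private theorem P3_one {E A : Type*} [Field E] [Field A] [Algebra E A] (v : Valuation E ℝ≥0)
    (V : Valuation A ℝ≥0) {J : Type*} (j0 : J) (z : J → A) (r : J → ℝ≥0) (h : IsWt v V z r) :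
    Ov v (z j0) (r j0) V := by
  classical
  intro p
  obtain ⟨Q, hQ⟩ : ∃ Q : MvPolynomial J E, Q = ∑ i ∈ p.support,
    MvPolynomial.monomial (Finsupp.single j0 i) (p.coeff i) := ⟨_, rfl⟩
  have h1 : MvPolynomial.aeval z Q = aeval (z j0) p := by
    rw [hQ, map_sum]
    conv_rhs => rw [p.as_sum_support]
    rw [map_sum]
    refine Finset.sum_congr rfl fun i _ => ?_
    rw [MvPolynomial.aeval_monomial, Finsupp.prod_single_index (h := fun j k => z j ^ k) (pow_zero _),
      aeval_monomial]
  have hco : ∀ m, Q.coeff m = ∑ i ∈ p.support, if Finsupp.single j0 i = m then p.coeff i else 0 := by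
    intro m
    rw [hQ, MvPolynomial.coeff_sum]
    exact Finset.sum_congr rfl fun i _ => by rw [MvPolynomial.coeff_monomial]
  have hco1 : ∀ i, Q.coeff (Finsupp.single j0 i) = p.coeff i := by
    intro i
    rw [hco]
    by_cases hi : i ∈ p.support
    · rw [Finset.sum_eq_single i, if_pos rfl]
      · intro i' _ hne
        rw [if_neg]
        intro h2
        exact hne (Finsupp.single_injective j0 h2)
      · exact fun h2 => absurd hi h2
    · rw [notMem_support_iff.1 hi]
      refine Finset.sum_eq_zero fun i' hi' => ?_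
      rw [if_neg]
      intro h2
      exact hi (Finsupp.single_injective j0 h2 ▸ hi')
  have hco2 : ∀ m, Q.coeff m ≠ 0 → ∃ i, m = Finsupp.single j0 i := by
    intro m hm
    by_contra hcon
    push Not at hcon
    apply hm
    rw [hco]
    exact Finset.sum_eq_zero fun i _ => if_neg fun h2 => hcon i h2.symm
  rw [← h1, h Q]
  apply eq_of_forall_ge_iff
  intro c
  rw [P3_sup_le]
  constructor
  · intro h2 i
    by_cases hi : i ∈ p.support
    · have hm : Finsupp.single j0 i ∈ Q.support := by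
        rw [MvPolynomial.mem_support_iff, hco1]
        exact mem_support_iff.1 hi
      have h3 := (Finset.le_sup (f := fun m => v (Q.coeff m) * m.prod fun j e => r j ^ e) hm).trans h2
      rw [hco1, Finsupp.prod_single_index (h := fun j e => r j ^ e) (pow_zero _)] at h3
      exact h3
    · rw [notMem_support_iff.1 hi]
      simp
  · intro h2
    refine Finset.sup_le fun m hm => ?_
    obtain ⟨i, rfl⟩ := hco2 m (MvPolynomial.mem_support_iff.1 hm)
    rw [hco1, Finsupp.prod_single_index (h := fun j e => r j ^ e) (pow_zero _)]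
    exact h2 i

private theorem P3_C {E A : Type*} [Field E] [Field A] [Algebra E A] {v : Valuation E ℝ≥0}
    {V : Valuation A ℝ≥0} {g : A} {t : ℝ≥0} (h : Ov v g t V) (b : E) : V (algebraMap E A b) = v b := by
  have h1 := h (C b)
  rw [aeval_C] at h1
  rw [h1]
  by_cases hb : b = 0
  · rw [hb]
    simp
  · rw [support_C hb, Finset.sup_singleton, coeff_C_zero, pow_zero, mul_one]

private theorem P3_X {E A : Type*} [Field E] [Field A] [Algebra E A] {v : Valuation E ℝ≥0}
    {V : Valuation A ℝ≥0} {g : A} {t : ℝ≥0} (h : Ov v g t V) : V g = t := by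
  have h1 := h X
  rw [aeval_X] at h1
  rw [h1]
  apply eq_of_forall_ge_iff
  intro c
  rw [P3_sup_le]
  constructor
  · intro h2
    have h3 := h2 1
    rw [coeff_X_one, map_one, one_mul, pow_one] at h3
    exact h3
  · intro h2 i
    rw [coeff_X]
    split_ifs with hi
    · rw [← hi, map_one, one_mul, pow_one]
      exact h2
    · rw [map_zero, zero_mul]
      exact zero_le

private theorem P3_inv {E A : Type*} [Field E] [Field A] [Algebra E A] {v : Valuation E ℝ≥0}
    {V : Valuation A ℝ≥0} {g : A} {t : ℝ≥0} (ht : 0 < t) (h : Ov v g t V) : Ov v g⁻¹ t⁻¹ V := by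
  have hg : g ≠ 0 := by
    intro h0
    have h1 := P3_X h
    rw [h0, map_zero] at h1
    exact ht.ne h1
  intro p
  have hinv : Invertible g⁻¹ := invertibleOfNonzero (inv_ne_zero hg)
  have h1 : eval₂ (algebraMap E A) g (reflect p.natDegree p) * g⁻¹ ^ p.natDegree =
      eval₂ (algebraMap E A) g⁻¹ p := by
    have h2 := eval₂_reflect_mul_pow (algebraMap E A) g⁻¹ p.natDegree p le_rfl
    rw [invOf_eq_inv, inv_inv] at h2
    exact h2
  have hVg := P3_X h
  rw [aeval_def, ← h1, map_mul, map_pow, map_inv₀, hVg]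
  have h3 := h (reflect p.natDegree p)
  rw [aeval_def] at h3
  rw [h3]
  apply eq_of_forall_ge_iff
  intro c
  rw [P3_sup_le, inv_pow, ← div_eq_mul_inv, div_le_iff₀ (pow_pos ht _), P3_sup_le]
  have key : ∀ j ≤ p.natDegree, (v (p.coeff j) * t ^ (p.natDegree - j) ≤ c * t ^ p.natDegree ↔
      v (p.coeff j) * t⁻¹ ^ j ≤ c) := by
    intro j hj
    have h4 : t ^ p.natDegree = t ^ (p.natDegree - j) * t ^ j := by
      rw [← pow_add, Nat.sub_add_cancel hj]
    rw [h4, ← mul_assoc, mul_right_comm, mul_le_mul_iff_left₀ (pow_pos ht _), inv_pow,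
      ← div_eq_mul_inv, div_le_iff₀ (pow_pos ht _)]
  constructor
  · intro h4 j
    by_cases hj : j ≤ p.natDegree
    · rw [← key j hj]
      have h5 := h4 (p.natDegree - j)
      rw [coeff_reflect, revAt_le (Nat.sub_le _ _), Nat.sub_sub_self hj] at h5
      exact h5
    · rw [coeff_eq_zero_of_natDegree_lt (not_le.1 hj), map_zero, zero_mul]
      exact zero_le
  · intro h4 i
    by_cases hi : i ≤ p.natDegree
    · rw [coeff_reflect, revAt_le hi]
      have h5 := (key (p.natDegree - i) (Nat.sub_le _ _)).2 (h4 _)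
      rw [Nat.sub_sub_self hi] at h5
      exact h5
    · rw [coeff_reflect, revAt_eq_self_of_lt (not_le.1 hi),
        coeff_eq_zero_of_natDegree_lt (not_le.1 hi), map_zero, zero_mul]
      exact zero_le

/-! ### several variables -/

private theorem P3_wts_prod {I : Type} (i0 : I) (r : ℝ≥0) (m : I →₀ ℕ) :
    (m.prod fun j e => wts i0 r j ^ e) = r ^ m i0 := by
  classical
  rw [Finsupp.prod, Finset.prod_eq_single i0]
  · simp [wts]
  · intro b _ hb
    simp [wts, hb]
  · intro h
    rw [Finsupp.notMem_support_iff.mp h]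
    simp

private theorem P3_gauss_le {I A : Type} [Field A] [Algebra ℚ A] {v : Valuation ℚ ℝ≥0}
    {V : Valuation A ℝ≥0} {ζ : I → A} (hV : IsWt v V ζ (fun _ => 1))
    (P : MvPolynomial I ℚ) (c : ℝ≥0) :
    V (MvPolynomial.aeval ζ P) ≤ c ↔ ∀ m, v (P.coeff m) ≤ c := by
  rw [hV P]
  constructor
  · intro h m
    by_cases hm : m ∈ P.support
    · have := (Finset.le_sup (f := fun m => v (P.coeff m) *
        m.prod fun (_ : I) (e : ℕ) => (1 : ℝ≥0) ^ e) hm).trans h
      simpa only [one_pow, Finsupp.prod, Finset.prod_const_one, mul_one] using this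
    · rw [MvPolynomial.notMem_support_iff.mp hm]
      simp
  · intro h
    refine Finset.sup_le fun m _ => ?_
    simp only [one_pow, Finsupp.prod, Finset.prod_const_one, mul_one]
    exact h m

open Classical in
private noncomputable def P3_part {I : Type} (i0 : I) (P : MvPolynomial I ℚ) (e : ℕ) : MvPolynomial I ℚ :=
  ∑ m ∈ P.support.filter (fun m => m i0 = e), MvPolynomial.monomial (m.erase i0) (P.coeff m)

private theorem P3_part_coeff_zero {I : Type} (i0 : I) (P : MvPolynomial I ℚ) (e : ℕ) {m' : I →₀ ℕ}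
    (h : m' i0 ≠ 0) : (P3_part i0 P e).coeff m' = 0 := by
  classical
  unfold P3_part
  rw [MvPolynomial.coeff_sum]
  refine Finset.sum_eq_zero fun m _ => ?_
  rw [MvPolynomial.coeff_monomial, if_neg]
  intro heq
  apply h
  rw [← heq]
  simp

private theorem P3_part_coeff {I : Type} (i0 : I) (P : MvPolynomial I ℚ) (m : I →₀ ℕ) :
    (P3_part i0 P (m i0)).coeff (m.erase i0) = P.coeff m := by
  classical
  unfold P3_part
  rw [MvPolynomial.coeff_sum]
  have key : ∀ n : I →₀ ℕ, n i0 = m i0 → n.erase i0 = m.erase i0 → n = m := by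
    intro n h1 h2
    rw [← Finsupp.single_add_erase i0 n, ← Finsupp.single_add_erase i0 m, h1, h2]
  by_cases hm : m ∈ P.support
  · rw [Finset.sum_eq_single m]
    · simp [MvPolynomial.coeff_monomial]
    · intro n hn hnm
      rw [MvPolynomial.coeff_monomial, if_neg]
      intro heq
      exact hnm (key n (Finset.mem_filter.mp hn).2 heq)
    · intro h
      have h' : m ∈ P.support.filter (fun n : I →₀ ℕ => n i0 = m i0) :=
        Finset.mem_filter.mpr ⟨hm, rfl⟩
      exact absurd h' h
  · rw [MvPolynomial.notMem_support_iff.mp hm]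
    refine Finset.sum_eq_zero fun n hn => ?_
    rw [MvPolynomial.coeff_monomial, if_neg]
    intro heq
    have := key n (Finset.mem_filter.mp hn).2 heq
    rw [this] at hn
    exact hm (Finset.mem_filter.mp hn).1

private theorem P3_part_mem {I A : Type} [Field A] [Algebra ℚ A] (ζ : I → A) (i0 : I)
    (P : MvPolynomial I ℚ) (e : ℕ) :
    MvPolynomial.aeval ζ (P3_part i0 P e) ∈ adjoin ℚ (ζ '' {s | s ≠ i0}) := by
  classical
  unfold P3_part
  rw [map_sum]
  refine sum_mem fun m _ => ?_
  rw [MvPolynomial.aeval_monomial]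
  refine mul_mem (IntermediateField.algebraMap_mem _ _) ?_
  rw [Finsupp.prod]
  refine prod_mem fun s hs => ?_
  have hs' : s ≠ i0 := by
    rintro rfl
    simp at hs
  have h1 : ζ s ∈ adjoin ℚ (ζ '' {s | s ≠ i0}) := subset_adjoin ℚ _ ⟨s, hs', rfl⟩
  exact pow_mem h1 _

private theorem P3_part_sum {I A : Type} [Field A] [Algebra ℚ A] (ζ : I → A) (i0 : I)
    (P : MvPolynomial I ℚ) :
    ∑ e ∈ P.support.image (fun m => m i0), MvPolynomial.aeval ζ (P3_part i0 P e) * ζ i0 ^ e =
      MvPolynomial.aeval ζ P := by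
  classical
  conv_rhs => rw [P.as_sum]
  rw [map_sum]
  have h1 : ∀ e, MvPolynomial.aeval ζ (P3_part i0 P e) * ζ i0 ^ e =
      ∑ m ∈ P.support.filter (fun m => m i0 = e), MvPolynomial.aeval ζ (MvPolynomial.monomial m (P.coeff m)) := by
    intro e
    unfold P3_part
    rw [map_sum, Finset.sum_mul]
    refine Finset.sum_congr rfl fun m hm => ?_
    have h2 : MvPolynomial.monomial m (P.coeff m) =
        MvPolynomial.monomial (m.erase i0) (P.coeff m) * (MvPolynomial.X i0 : MvPolynomial I ℚ) ^ m i0 := by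
      rw [MvPolynomial.X_pow_eq_monomial, MvPolynomial.monomial_mul, mul_one, Finsupp.erase_add_single]
    rw [h2, map_mul, map_pow, MvPolynomial.aeval_X, (Finset.mem_filter.1 hm).2]
  simp only [h1]
  exact Finset.sum_fiberwise_of_maps_to (fun m hm => Finset.mem_image_of_mem _ hm) _

/-- from one variable over `E` to all variables over `ℚ` -/
private theorem P3_wt {I A : Type} [Field A] [Algebra ℚ A] (ζ : I → A) (i0 : I)
    (v : Valuation ℚ ℝ≥0) (V0 : Valuation A ℝ≥0) (hV0 : IsWt v V0 ζ (fun _ => 1))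
    {E : Type} [Field E] [Algebra E A] (hE : ∀ a ∈ adjoin ℚ (ζ '' {s | s ≠ i0}), ∃ b : E, algebraMap E A b = a)
    (t : ℝ≥0) (ht : 0 < t) (V : Valuation A ℝ≥0) (hV : Ov (V0.comap (algebraMap E A)) (ζ i0) t V) :
    IsWt v V ζ (wts i0 t) := by
  classical
  intro P
  choose b hb using fun e => hE _ (P3_part_mem ζ i0 P e)
  obtain ⟨p, hp⟩ : ∃ p : E[X], p = ∑ e ∈ P.support.image (fun m => m i0), monomial e (b e) := ⟨_, rfl⟩
  have hpc : ∀ e, algebraMap E A (p.coeff e) = MvPolynomial.aeval ζ (P3_part i0 P e) := by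
    intro e
    rw [hp, finsetSum_coeff]
    by_cases he : e ∈ P.support.image (fun m => m i0)
    · rw [Finset.sum_eq_single e]
      · rw [coeff_monomial, if_pos rfl, hb]
      · intro e' _ hne
        rw [coeff_monomial, if_neg hne]
      · exact fun h => absurd he h
    · rw [Finset.sum_eq_zero, map_zero]
      · have h0 : P3_part i0 P e = 0 := by
          unfold P3_part
          refine Finset.sum_eq_zero fun m hm => ?_
          exfalso
          exact he (Finset.mem_image.2 ⟨m, (Finset.mem_filter.1 hm).1, (Finset.mem_filter.1 hm).2⟩)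
        rw [h0, map_zero]
      · intro e' he'
        rw [coeff_monomial, if_neg]
        rintro rfl
        exact he he'
  have h1 : aeval (ζ i0) p = MvPolynomial.aeval ζ P := by
    rw [← P3_part_sum ζ i0 P, hp, map_sum]
    refine Finset.sum_congr rfl fun e _ => ?_
    rw [aeval_monomial, hb]
  rw [← h1, hV p]
  apply eq_of_forall_ge_iff
  intro c
  rw [P3_sup_le]
  have h2 : ∀ e, (V0.comap (algebraMap E A)) (p.coeff e) = V0 (MvPolynomial.aeval ζ (P3_part i0 P e)) := by
    intro e
    rw [Valuation.comap_apply, hpc]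
  have h3 : ∀ (e : ℕ) (y : ℝ≥0), y * t ^ e ≤ c ↔ y ≤ c / t ^ e := fun e y => (le_div_iff₀ (pow_pos ht e)).symm
  constructor
  · intro h
    refine Finset.sup_le fun m _ => ?_
    rw [P3_wts_prod]
    have h4 := h (m i0)
    rw [h2, h3, P3_gauss_le hV0] at h4
    have h5 := h4 (m.erase i0)
    rw [P3_part_coeff] at h5
    exact (h3 _ _).2 h5
  · intro h e
    rw [h2, h3, P3_gauss_le hV0]
    intro m'
    by_cases hm : m' i0 = 0
    · have h4 := P3_part_coeff i0 P (m' + Finsupp.single i0 e)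
      have h5 : (m' + Finsupp.single i0 e) i0 = e := by simp [hm]
      have h6 : (m' + Finsupp.single i0 e).erase i0 = m' := by
        ext s
        by_cases hs : s = i0
        · rw [hs, Finsupp.erase_same, hm]
        · rw [Finsupp.erase_ne hs, Finsupp.add_apply, Finsupp.single_apply, if_neg (Ne.symm hs),
            add_zero]
      rw [h5, h6] at h4
      rw [h4, ← h3]
      by_cases hs : m' + Finsupp.single i0 e ∈ P.support
      · have h7 := (Finset.le_sup (f := fun m => v (P.coeff m) * m.prod fun j e => wts i0 t j ^ e)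
          hs).trans h
        rwa [P3_wts_prod, h5] at h7
      · rw [MvPolynomial.notMem_support_iff.mp hs]
        simp
    · rw [P3_part_coeff_zero i0 P e hm]
      simp

/-- `V0` is Gauss in the variable `ζ i0` over algebraic extensions of the field generated by the others. -/
private theorem P3_gauss {I A : Type} [Field A] [Algebra ℚ A] (ζ : I → A) (i0 : I)
    (v : Valuation ℚ ℝ≥0) (V0 : Valuation A ℝ≥0) (hV0 : IsWt v V0 ζ (fun _ => 1)) :
    Ov (V0.comap (algebraMap (algebraicClosure (adjoin ℚ (ζ '' {s | s ≠ i0})) A) A)) (ζ i0) 1 V0 := by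
  classical
  have h0 : ∀ q : ℚ, V0 (algebraMap ℚ A q) = v q := by
    intro q
    have h1 : MvPolynomial.aeval ζ (MvPolynomial.C q : MvPolynomial I ℚ) = algebraMap ℚ A q :=
      MvPolynomial.aeval_C ζ q
    rw [← h1]
    apply eq_of_forall_ge_iff
    intro c
    rw [P3_gauss_le hV0]
    constructor
    · intro h
      have h2 := h 0
      rwa [MvPolynomial.coeff_C, if_pos rfl] at h2
    · intro h m
      rw [MvPolynomial.coeff_C]
      split_ifs
      · exact h
      · rw [map_zero]
        exact zero_le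
  have h1 : IsGauss ℚ V0 (Sum.elim (fun s : {s // s ≠ i0} => ζ s) (fun s : {s // ¬ s ≠ i0} => ζ s)) := by
    intro P
    have h2 := hV0 (MvPolynomial.rename (Equiv.sumCompl (fun s : I => s ≠ i0)) P)
    rw [MvPolynomial.aeval_rename] at h2
    have h3 : ζ ∘ (Equiv.sumCompl (fun s : I => s ≠ i0)) =
        Sum.elim (fun s : {s // s ≠ i0} => ζ s) (fun s : {s // ¬ s ≠ i0} => ζ s) := by
      ext (s | s) <;> rfl
    rw [h3] at h2
    rw [h2, MvPolynomial.support_rename_of_injective (Equiv.injective _), Finset.sup_image]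
    refine Finset.sup_congr rfl fun m _ => ?_
    simp only [Function.comp]
    rw [MvPolynomial.coeff_rename_mapDomain _ (Equiv.injective _), h0]
    simp [Finsupp.prod]
  have h2 := gauss_adjoin V0 _ _ h1
  have h3 : Set.range (fun s : {s // s ≠ i0} => ζ s) = ζ '' {s | s ≠ i0} := by
    ext a
    simp
  have h4 : IsGauss (adjoin ℚ (ζ '' {s | s ≠ i0})) V0 (fun s : {s // ¬ s ≠ i0} => ζ s) := by
    rw [← h3]
    exact h2
  have h5 := gauss_alg (K := algebraicClosure (adjoin ℚ (ζ '' {s | s ≠ i0})) A) V0 _ h4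
  have h6 : IsWt (V0.comap (algebraMap (algebraicClosure (adjoin ℚ (ζ '' {s | s ≠ i0})) A) A)) V0
      (fun s : {s // ¬ s ≠ i0} => ζ s) (fun _ => 1) := by
    intro P
    rw [h5 P]
    refine Finset.sup_congr rfl fun m _ => ?_
    simp [Finsupp.prod]
  exact P3_one _ V0 (⟨i0, not_not.2 rfl⟩ : {s // ¬ s ≠ i0}) _ _ h6

variable {n : ℕ} {F : MvPolynomial (Fin n) ℂ} {J : Type} {z : Exp3 n ⊕ J → ℂ} {A : Type}
  [Field A] [CharZero A] [Algebra ℂ A] {u l : Fin n → A}

/-- the field generated by the elements of the transcendence basis of `A` other than `z j` -/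
noncomputable abbrev Z0 (z : Exp3 n ⊕ J → ℂ) (u l : Fin n → A) (j : J) : IntermediateField ℚ A :=
  adjoin ℚ (zeta z u l '' {s | s ≠ Sum.inl (Sum.inr j)})

/-- its relative algebraic closure -/
noncomputable abbrev E0 (z : Exp3 n ⊕ J → ℂ) (u l : Fin n → A) (j : J) :
    IntermediateField (Z0 z u l j) A := algebraicClosure (Z0 z u l j) A

/-- P3 a -/
theorem e0_closed (h : Ctx F z u l) (j : J) : IsAlgClosed (E0 z u l j) := by
  have hcl : IsAlgClosed A := h.closed
  exact (algebraicClosure.isAlgClosure (Z0 z u l j) A).isAlgClosed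

omit [CharZero A] in
private theorem P3_zeta (j : J) : zeta z u l (Sum.inl (Sum.inr j)) = algebraMap ℂ A (z (Sum.inr j)) := rfl

/-- P3 b -/
theorem e0_trans (h : Ctx F z u l) (j : J) (e : A)
    (he : e = algebraMap ℂ A (z (Sum.inr j)) ∨ e = (algebraMap ℂ A (z (Sum.inr j)))⁻¹) :
    Transcendental (E0 z u l j) e ∧ Algebra.IsAlgebraic (adjoin (E0 z u l j) {e}) A := by
  have hζ := zeta_ind h
  constructor
  · have h1 : Transcendental (E0 z u l j) (zeta z u l (Sum.inl (Sum.inr j))) := by
      intro h2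
      have h3 : IsAlgebraic (Z0 z u l j) (zeta z u l (Sum.inl (Sum.inr j))) :=
        h2.restrictScalars (Z0 z u l j)
      have h4 := hζ.transcendental_adjoin (s := {s | s ≠ Sum.inl (Sum.inr j)})
        (i := Sum.inl (Sum.inr j)) (by simp)
      rw [← IntermediateField.transcendental_adjoin_iff] at h4
      exact h4 h3
    rcases he with rfl | rfl
    · exact h1
    · intro h2
      exact h1 (IsAlgebraic.inv_iff.1 h2)
  · have halg := zeta_alg h
    refine ⟨fun a => ?_⟩
    have h1 : IsAlgebraic (adjoin ℚ (Set.range (zeta z u l))) a := Algebra.IsAlgebraic.isAlgebraic a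
    have hg : algebraMap ℂ A (z (Sum.inr j)) ∈ adjoin (E0 z u l j) {e} := by
      rcases he with rfl | rfl
      · exact mem_adjoin_simple_self _ _
      · have h2 := inv_mem (mem_adjoin_simple_self (E0 z u l j) (algebraMap ℂ A (z (Sum.inr j)))⁻¹)
        rwa [inv_inv] at h2
    have hle : ∀ b ∈ adjoin ℚ (Set.range (zeta z u l)), b ∈ adjoin (E0 z u l j) {e} := by
      intro b hb
      have h2 : adjoin ℚ (Set.range (zeta z u l)) ≤ (adjoin (E0 z u l j) {e}).restrictScalars ℚ := by
        rw [adjoin_le_iff]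
        rintro _ ⟨s, rfl⟩
        by_cases hs : s = Sum.inl (Sum.inr j)
        · rw [hs]
          exact hg
        · have h3 : zeta z u l s ∈ Z0 z u l j := subset_adjoin ℚ _ ⟨s, hs, rfl⟩
          exact (adjoin (E0 z u l j) {e}).algebraMap_mem
            (algebraMap (Z0 z u l j) (E0 z u l j) ⟨_, h3⟩)
      exact h2 hb
    let f : adjoin ℚ (Set.range (zeta z u l)) →+* adjoin (E0 z u l j) {e} :=
      (algebraMap (adjoin ℚ (Set.range (zeta z u l))) A).codRestrict
        (adjoin (E0 z u l j) {e}).toSubring fun b => hle _ b.2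
    exact h1.ringHom_of_comp_eq (S := adjoin (E0 z u l j) {e}) (B := A) f (RingHom.id A)
      f.injective (by ext b; rfl)

/-- P3 c -/
theorem e0_mem (h : Ctx F z u l) (j : J) :
    (∀ i, u i ∈ E0 z u l j) ∧ (∀ i, l i ∈ E0 z u l j) ∧
      ∀ c : ℂ, IsAlgebraic (adjoin ℚ (z '' {s | s ≠ Sum.inr j})) c → algebraMap ℂ A c ∈ E0 z u l j := by
  have hZ : ∀ s, s ≠ Sum.inl (Sum.inr j) → zeta z u l s ∈ E0 z u l j := by
    intro s hs
    have h3 : zeta z u l s ∈ Z0 z u l j := subset_adjoin ℚ _ ⟨s, hs, rfl⟩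
    exact (E0 z u l j).algebraMap_mem ⟨_, h3⟩
  refine ⟨fun i => hZ (Sum.inr (Sum.inl i)) (by simp), fun i => hZ (Sum.inr (Sum.inr i)) (by simp), ?_⟩
  intro c hc
  rw [mem_algebraicClosure_iff]
  have hle : ∀ b ∈ adjoin ℚ (z '' {s | s ≠ Sum.inr j}), algebraMap ℂ A b ∈ Z0 z u l j := by
    intro b hb
    have h1 : adjoin ℚ (z '' {s | s ≠ Sum.inr j}) ≤
        (Z0 z u l j).comap (IsScalarTower.toAlgHom ℚ ℂ A) := by
      rw [adjoin_le_iff]
      rintro _ ⟨s, hs, rfl⟩
      change algebraMap ℂ A (z s) ∈ Z0 z u l j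
      exact subset_adjoin ℚ _ ⟨Sum.inl s, fun h2 => hs (Sum.inl_injective h2), rfl⟩
    exact h1 hb
  let f : adjoin ℚ (z '' {s | s ≠ Sum.inr j}) →+* Z0 z u l j :=
    ((algebraMap ℂ A).comp (algebraMap (adjoin ℚ (z '' {s | s ≠ Sum.inr j})) ℂ)).codRestrict
      (Z0 z u l j).toSubring fun b => hle _ b.2
  exact hc.ringHom_of_comp_eq (S := Z0 z u l j) (B := A) f (algebraMap ℂ A)
    f.injective (by ext b; rfl)

/-- P3 d -/
theorem e0_ov (h : Ctx F z u l) (j : J) (e : A)
    (he : e = algebraMap ℂ A (z (Sum.inr j)) ∨ e = (algebraMap ℂ A (z (Sum.inr j)))⁻¹)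
    (v : Valuation ℚ ℝ≥0) (V0 : Valuation A ℝ≥0) (hV0 : IsWt v V0 (zeta z u l) (fun _ => 1)) :
    Ov (V0.comap (algebraMap (E0 z u l j) A)) e 1 V0 ∧
    (∀ t : ℝ≥0, 0 < t → ∃ V : Valuation A ℝ≥0, Ov (V0.comap (algebraMap (E0 z u l j) A)) e t V) ∧
    (∀ (t : ℝ≥0) (V : Valuation A ℝ≥0), 0 < t → Ov (V0.comap (algebraMap (E0 z u l j) A)) e t V →
      ∃ t' : ℝ≥0, 0 < t' ∧ IsWt v V (zeta z u l) (wts (Sum.inl (Sum.inr j)) t')) := by
  have h1 := P3_gauss (zeta z u l) (Sum.inl (Sum.inr j)) v V0 hV0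
  rw [P3_zeta] at h1
  obtain ⟨htr, halg⟩ := e0_trans h j e he
  refine ⟨?_, ?_, ?_⟩
  · rcases he with rfl | rfl
    · exact h1
    · have h2 := P3_inv one_pos h1
      rwa [inv_one] at h2
  · intro t ht
    have hind : AlgebraicIndependent (E0 z u l j) (fun _ : Unit => e) :=
      algebraicIndependent_unique_type_iff.2 htr
    have halg' : Algebra.IsAlgebraic (adjoin (E0 z u l j) (Set.range fun _ : Unit => e)) A := by
      rw [Set.range_const]
      exact halg
    obtain ⟨V, hV⟩ := exists_wt (fun _ : Unit => e) hind halg'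
      (V0.comap (algebraMap (E0 z u l j) A)) (fun _ => t) (fun _ => ht)
    exact ⟨V, P3_one _ V () _ _ hV⟩
  · intro t V ht hV
    have hE : ∀ a ∈ adjoin ℚ (zeta z u l '' {s | s ≠ Sum.inl (Sum.inr j)}),
        ∃ b : E0 z u l j, algebraMap (E0 z u l j) A b = a := by
      intro a ha
      exact ⟨algebraMap (Z0 z u l j) (E0 z u l j) ⟨a, ha⟩, rfl⟩
    rcases he with rfl | rfl
    · exact ⟨t, ht, P3_wt (zeta z u l) (Sum.inl (Sum.inr j)) v V0 hV0 hE t ht V hV⟩
    · have h2 := P3_inv ht hV
      rw [inv_inv] at h2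
      exact ⟨t⁻¹, inv_pos.2 ht, P3_wt (zeta z u l) (Sum.inl (Sum.inr j)) v V0 hV0 hE t⁻¹
        (inv_pos.2 ht) V h2⟩

/-- P3 e: a valuation which is trivial on `E0` with `W e < 1`, Gauss in `u, l`. -/
theorem e0_adic (h : Ctx F z u l) (j : J) (e : A)
    (he : e = algebraMap ℂ A (z (Sum.inr j)) ∨ e = (algebraMap ℂ A (z (Sum.inr j)))⁻¹) :
    ∃ W : Valuation A ℝ≥0, (∀ b : E0 z u l j, b ≠ 0 → W (b : A) = 1) ∧ W e < 1 ∧
      IsGauss ℂ W (Sum.elim u l) := by
  classical
  have hwt : IsWt (1 : Valuation ℚ ℝ≥0) (1 : Valuation A ℝ≥0) (zeta z u l) (fun _ => 1) := by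
    intro P
    by_cases hP : P = 0
    · rw [hP, map_zero, map_zero]
      simp
    · have h1 : MvPolynomial.aeval (zeta z u l) P ≠ 0 := by
        intro h2
        exact hP ((zeta_ind h).eq_zero_of_aeval_eq_zero P h2)
      rw [Valuation.one_apply_of_ne_zero h1]
      obtain ⟨m, hm⟩ := MvPolynomial.support_nonempty.2 hP
      apply le_antisymm
      · have h3 := Finset.le_sup (f := fun m => (1 : Valuation ℚ ℝ≥0) (P.coeff m) *
          m.prod fun _ e => (1 : ℝ≥0) ^ e) hm
        refine le_trans ?_ h3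
        simp only [one_pow, Finsupp.prod, Finset.prod_const_one, mul_one]
        rw [Valuation.one_apply_of_ne_zero (MvPolynomial.mem_support_iff.1 hm)]
      · refine Finset.sup_le fun m' hm' => ?_
        simp only [one_pow, Finsupp.prod, Finset.prod_const_one, mul_one]
        rw [Valuation.one_apply_of_ne_zero (MvPolynomial.mem_support_iff.1 hm')]
  obtain ⟨-, h2, h3⟩ := e0_ov h j e he 1 1 hwt
  obtain ⟨W, hW⟩ := h2 2⁻¹ (by positivity)
  obtain ⟨t', ht', hW'⟩ := h3 2⁻¹ W (by positivity) hW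
  refine ⟨W, fun b hb => ?_, ?_, ?_⟩
  · have h4 := P3_C hW b
    change W (algebraMap (E0 z u l j) A b) = 1
    rw [h4, Valuation.comap_apply, Valuation.one_apply_of_ne_zero]
    exact (_root_.map_ne_zero _).2 hb
  · rw [P3_X hW]
    exact inv_lt_one_of_one_lt₀ one_lt_two
  · exact gauss_C h 1 W (Sum.inr j) t' ht' hW'

end MP2619.Q5
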