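import Pool.Agent.Lib.MP_2619d0_ag.Q5.S2
import Pool.Agent.Lib.MP_2619d0_ag.N.T3a

/-!
# Q5, row S3: roots of the specialised polynomial
-/

set_option autoImplicit false

namespace MP2619.Q5

open scoped NNReal
open Polynomial IntermediateField MP2619.R MP2619.N Pool.Agent.Lib.MP_2619d0_ag Pool.Agent.Lib.MP_2619d0_ag.T

private theorem S3_gn {A : Type*} [Field A] (W : Valuation A ℝ≥0) (p : A[X])
    (h1 : ∀ i, W (p.coeff i) ≤ 1) (i : ℕ) (h2 : W (p.coeff i) = 1) : gn W 1 p = 1 := by
  unfold gn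
  refine le_antisymm (Finset.sup_le fun j _ => ?_) ?_
  · rw [one_pow, mul_one]
    exact h1 j
  · have hi : p.coeff i ≠ 0 := by
      intro h0
      rw [h0, map_zero] at h2
      exact zero_ne_one h2
    have h3 := Finset.le_sup (f := fun i => W (p.coeff i) * 1 ^ i) (mem_support_iff.mpr hi)
    simp only [one_pow, mul_one] at h3
    rw [h2] at h3
    simpa only [one_pow, mul_one] using h3

/-- the constants of the valuation ring -/
private noncomputable def S3_j {E A : Type*} [Field E] [Field A] [Algebra E A] {e : A} {W : Valuation A ℝ≥0}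
    {lam : A → A} (h : Sp E W e lam) : E →+* W.valuationSubring :=
  (algebraMap E A).codRestrict W.valuationSubring.toSubring fun b => h.le_one b

/-- the polynomials in `e` as elements of the valuation ring -/
private noncomputable def S3_psi {E A : Type*} [Field E] [Field A] [Algebra E A] {e : A}
    {W : Valuation A ℝ≥0} {lam : A → A} (h : Sp E W e lam) : E[X] →+* W.valuationSubring :=
  eval₂RingHom (S3_j h) ⟨e, h.pos.le⟩

private theorem S3_psi_sub {E A : Type*} [Field E] [Field A] [Algebra E A] {e : A}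
    {W : Valuation A ℝ≥0} {lam : A → A} (h : Sp E W e lam) :
    W.valuationSubring.subtype.comp (S3_psi h) = (aeval e : E[X] →ₐ[E] A).toRingHom := by
  refine Polynomial.ringHom_ext (fun b => ?_) ?_
  · simp only [S3_psi, RingHom.comp_apply, coe_eval₂RingHom, eval₂_C, AlgHom.toRingHom_eq_coe,
      RingHom.coe_coe, aeval_C]
    rfl
  · simp only [S3_psi, RingHom.comp_apply, coe_eval₂RingHom, eval₂_X, AlgHom.toRingHom_eq_coe,
      RingHom.coe_coe, aeval_X]
    rfl

private theorem S3_psi_hom {E A : Type*} [Field E] [Field A] [Algebra E A] {e : A}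
    {W : Valuation A ℝ≥0} {lam : A → A} (h : Sp E W e lam) :
    h.hom.comp (S3_psi h) = (algebraMap E A).comp (evalRingHom 0) := by
  refine Polynomial.ringHom_ext (fun b => ?_) ?_
  · simp only [S3_psi, RingHom.comp_apply, coe_eval₂RingHom, eval₂_C, coe_evalRingHom, eval_C]
    exact h.fix b
  · simp only [S3_psi, RingHom.comp_apply, coe_eval₂RingHom, eval₂_X, coe_evalRingHom, eval_X,
      map_zero]
    exact (h.zero e h.pos.le).2 h.pos

private theorem S3_map_sub {E A : Type*} [Field E] [Field A] [Algebra E A] {e : A}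
    {W : Valuation A ℝ≥0} {lam : A → A} (h : Sp E W e lam) (f : E[X][X]) :
    (f.map (S3_psi h)).map W.valuationSubring.subtype =
      f.map (aeval e : E[X] →ₐ[E] A).toRingHom := by
  rw [Polynomial.map_map, S3_psi_sub]

private theorem S3_map_hom {E A : Type*} [Field E] [Field A] [Algebra E A] {e : A}
    {W : Valuation A ℝ≥0} {lam : A → A} (h : Sp E W e lam) (f : E[X][X]) :
    (f.map (S3_psi h)).map h.hom = f.map ((algebraMap E A).comp (evalRingHom 0)) := by
  rw [Polynomial.map_map, S3_psi_hom]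

/-- the value of a polynomial in `e` -/
private theorem S3_val {E A : Type*} [Field E] [Field A] [Algebra E A] {e : A}
    {W : Valuation A ℝ≥0} {lam : A → A} (h : Sp E W e lam) (g : E[X]) :
    W (aeval e g) ≤ 1 ∧ (g.eval 0 ≠ 0 → W (aeval e g) = 1) := by
  have h1 : aeval e g = ((S3_psi h g : W.valuationSubring) : A) :=
    (RingHom.congr_fun (S3_psi_sub h) g).symm
  have h2 : W (aeval e g) ≤ 1 := by
    rw [h1]
    exact (S3_psi h g).2
  refine ⟨h2, fun h0 => le_antisymm h2 ?_⟩
  by_contra hcon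
  rw [not_le] at hcon
  have h3 : lam (aeval e g) = 0 := (h.zero _ h2).2 hcon
  have h4 : h.hom (S3_psi h g) = algebraMap E A (g.eval 0) :=
    RingHom.congr_fun (S3_psi_hom h) g
  rw [Sp.hom_apply, ← h1, h3] at h4
  exact h0 ((map_eq_zero (algebraMap E A)).1 h4.symm)

theorem roots_sp {E A : Type*} [Field E] [Field A] [Algebra E A] {e : A} {W : Valuation A ℝ≥0}
    {lam : A → A} (h : Sp E W e lam) (f : E[X][X]) (hf : f.map (evalRingHom 0) ≠ 0) {I : Type*}
    [Fintype I] (ρ : I → A) (c : A)
    (hfc : f.map (aeval e : E[X] →ₐ[E] A).toRingHom = C c * ∏ i, (X - C (ρ i))) :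
    ∃ c0 : A, c0 ≠ 0 ∧ f.map ((algebraMap E A).comp (evalRingHom 0)) =
      C c0 * ∏ i ∈ Finset.univ.filter (fun i => W (ρ i) ≤ 1), (X - C (lam (ρ i))) := by
  classical
  -- the factorization with integral factors
  have hne : ∀ i ∈ Finset.univ.filter (fun i => ¬ W (ρ i) ≤ 1), ρ i ≠ 0 := by
    intro i hi h0
    rw [Finset.mem_filter] at hi
    apply hi.2
    rw [h0, map_zero]
    exact zero_le
  have hlt : ∀ i ∈ Finset.univ.filter (fun i => ¬ W (ρ i) ≤ 1), W (ρ i)⁻¹ < 1 := by
    intro i hi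
    have h1 := hne i hi
    rw [Finset.mem_filter, not_le] at hi
    rw [map_inv₀]
    exact inv_lt_one_of_one_lt₀ hi.2
  obtain ⟨c', hc'⟩ : ∃ c' : A, f.map (aeval e : E[X] →ₐ[E] A).toRingHom =
      C c' * (∏ i ∈ Finset.univ.filter (fun i => W (ρ i) ≤ 1), (X - C (ρ i))) *
        ∏ i ∈ Finset.univ.filter (fun i => ¬ W (ρ i) ≤ 1), (1 - C (ρ i)⁻¹ * X) := by
    refine ⟨c * ∏ i ∈ Finset.univ.filter (fun i => ¬ W (ρ i) ≤ 1), (-ρ i), ?_⟩
    rw [hfc, ← Finset.prod_filter_mul_prod_filter_not Finset.univ (fun i => W (ρ i) ≤ 1)]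
    have h1 : ∏ i ∈ Finset.univ.filter (fun i => ¬ W (ρ i) ≤ 1), (X - C (ρ i)) =
        C (∏ i ∈ Finset.univ.filter (fun i => ¬ W (ρ i) ≤ 1), (-ρ i)) *
          ∏ i ∈ Finset.univ.filter (fun i => ¬ W (ρ i) ≤ 1), (1 - C (ρ i)⁻¹ * X) := by
      rw [map_prod, ← Finset.prod_mul_distrib]
      refine Finset.prod_congr rfl fun i hi => ?_
      have h2 : (C (ρ i) : A[X]) * C (ρ i)⁻¹ = 1 := by
        rw [← C_mul, mul_inv_cancel₀ (hne i hi), C_1]
      rw [C_neg]
      linear_combination (-X : A[X]) * h2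
    rw [h1, C_mul]
    ring
  -- the leading constant is a unit
  have hgF : gn W 1 (f.map (aeval e : E[X] →ₐ[E] A).toRingHom) = 1 := by
    obtain ⟨l, hl⟩ : ∃ l, (f.coeff l).eval 0 ≠ 0 := by
      by_contra hcon
      push Not at hcon
      apply hf
      ext l
      rw [coeff_map, coeff_zero]
      exact hcon l
    refine S3_gn W _ (fun i => ?_) l ?_
    · rw [coeff_map]
      exact (S3_val h (f.coeff i)).1
    · rw [coeff_map]
      exact (S3_val h (f.coeff l)).2 hl
  have hg1 : gn W 1 (∏ i ∈ Finset.univ.filter (fun i => W (ρ i) ≤ 1), (X - C (ρ i))) = 1 := by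
    refine Finset.prod_induction _ (fun p => gn W 1 p = 1) (fun p q hp hq => ?_) ?_ fun i hi => ?_
    · rw [gn_mul W 1 one_pos, hp, hq, one_mul]
    · rw [← C_1, gn_C, map_one]
    · rw [Finset.mem_filter] at hi
      refine S3_gn W _ (fun j => ?_) 1 ?_
      · rw [coeff_sub, coeff_X, coeff_C]
        refine (W.map_sub _ _).trans (max_le ?_ ?_)
        · split_ifs
          · rw [map_one]
          · rw [map_zero]
            exact zero_le
        · split_ifs
          · exact hi.2
          · rw [map_zero]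
            exact zero_le
      · rw [coeff_sub, coeff_X_one, coeff_C_succ, sub_zero, map_one]
  have hg2 : gn W 1 (∏ i ∈ Finset.univ.filter (fun i => ¬ W (ρ i) ≤ 1),
      (1 - C (ρ i)⁻¹ * X)) = 1 := by
    refine Finset.prod_induction _ (fun p => gn W 1 p = 1) (fun p q hp hq => ?_) ?_ fun i hi => ?_
    · rw [gn_mul W 1 one_pos, hp, hq, one_mul]
    · rw [← C_1, gn_C, map_one]
    · refine S3_gn W _ (fun j => ?_) 0 ?_
      · rw [coeff_sub, coeff_one, coeff_C_mul, coeff_X]
        refine (W.map_sub _ _).trans (max_le ?_ ?_)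
        · split_ifs
          · rw [map_one]
          · rw [map_zero]
            exact zero_le
        · split_ifs
          · rw [mul_one]
            exact (hlt i hi).le
          · rw [mul_zero, map_zero]
            exact zero_le
      · rw [coeff_sub, coeff_one_zero, coeff_C_mul, coeff_X_zero, mul_zero, sub_zero, map_one]
  have hWc : W c' = 1 := by
    rw [hc', gn_mul W 1 one_pos, gn_mul W 1 one_pos, hg1, hg2, mul_one, mul_one, gn_C] at hgF
    exact hgF
  -- the same identity over the valuation ring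
  set r : I → W.valuationSubring := fun i => if h : W (ρ i) ≤ 1 then ⟨ρ i, h⟩ else 0 with hr
  set r' : I → W.valuationSubring := fun i => if h : W (ρ i)⁻¹ ≤ 1 then ⟨(ρ i)⁻¹, h⟩ else 0
    with hr'
  have hr1 : ∀ i ∈ Finset.univ.filter (fun i => W (ρ i) ≤ 1), ((r i : W.valuationSubring) : A) =
      ρ i := by
    intro i hi
    rw [Finset.mem_filter] at hi
    rw [hr]
    simp only [dif_pos hi.2]
  have hr2 : ∀ i ∈ Finset.univ.filter (fun i => ¬ W (ρ i) ≤ 1),
      ((r' i : W.valuationSubring) : A) = (ρ i)⁻¹ := by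
    intro i hi
    rw [hr']
    simp only [dif_pos (hlt i hi).le]
  have hO : f.map (S3_psi h) = C (⟨c', hWc.le⟩ : W.valuationSubring) *
      (∏ i ∈ Finset.univ.filter (fun i => W (ρ i) ≤ 1), (X - C (r i))) *
        ∏ i ∈ Finset.univ.filter (fun i => ¬ W (ρ i) ≤ 1), (1 - C (r' i) * X) := by
    apply Polynomial.map_injective W.valuationSubring.subtype Subtype.val_injective
    rw [S3_map_sub, hc', Polynomial.map_mul, Polynomial.map_mul, Polynomial.map_prod,
      Polynomial.map_prod, map_C]
    congr 1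
    · congr 1
      refine Finset.prod_congr rfl fun i hi => ?_
      rw [Polynomial.map_sub, map_X, map_C, ← hr1 i hi]
      rfl
    · refine Finset.prod_congr rfl fun i hi => ?_
      rw [Polynomial.map_sub, Polynomial.map_mul, map_X, map_C, Polynomial.map_one, ← hr2 i hi]
      rfl
  refine ⟨lam c', fun h0 => ?_, ?_⟩
  · have h1 := (h.zero c' hWc.le).1 h0
    rw [hWc] at h1
    exact lt_irrefl _ h1
  · rw [← S3_map_hom h, hO, Polynomial.map_mul, Polynomial.map_mul, Polynomial.map_prod,
      Polynomial.map_prod, map_C]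
    have h1 : ∏ i ∈ Finset.univ.filter (fun i => ¬ W (ρ i) ≤ 1),
        (1 - C (r' i) * X : (W.valuationSubring)[X]).map h.hom = 1 := by
      refine Finset.prod_eq_one fun i hi => ?_
      rw [Polynomial.map_sub, Polynomial.map_mul, map_X, map_C, Polynomial.map_one, Sp.hom_apply,
        hr2 i hi, (h.zero _ (hlt i hi).le).2 (hlt i hi), C_0, zero_mul, sub_zero]
    rw [h1, mul_one]
    congr 1
    refine Finset.prod_congr rfl fun i hi => ?_
    rw [Polynomial.map_sub, map_X, map_C, Sp.hom_apply, hr1 i hi]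

theorem alg_sp {E A : Type*} [Field E] [Field A] [Algebra E A] {e : A} {W : Valuation A ℝ≥0}
    {lam : A → A} (h : Sp E W e lam) (a : A) (ha : IsAlgebraic (adjoin E {e}) a) (hWa : W a ≤ 1) :
    IsAlgebraic E (lam a) := by
  obtain ⟨p, hp, hpa⟩ := ha
  have hp1 : p.map (algebraMap (adjoin E {e}) A) ≠ 0 :=
    (Polynomial.map_ne_zero_iff (algebraMap (adjoin E {e}) A).injective).2 hp
  obtain ⟨f, c, -, hf, hfc⟩ := exists_prim e h.ne (p.map (algebraMap (adjoin E {e}) A)) hp1
    ((Polynomial.mem_lifts _).2 ⟨p, rfl⟩)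
  have h1 : ((f.map (S3_psi h)).eval ⟨a, hWa⟩ : W.valuationSubring) = 0 := by
    apply Subtype.val_injective
    change W.valuationSubring.subtype ((f.map (S3_psi h)).eval ⟨a, hWa⟩) = 0
    rw [← eval₂_at_apply, ← eval_map, S3_map_sub, hfc, eval_mul]
    change _ * (p.map (algebraMap (adjoin E {e}) A)).eval a = 0
    rw [eval_map_algebraMap, hpa, mul_zero]
  have h2 : ((f.map (S3_psi h)).map h.hom).eval (lam a) = 0 := by
    have h3 : h.hom ⟨a, hWa⟩ = lam a := rfl
    rw [← h3, eval_map, eval₂_at_apply, h1, map_zero]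
  refine ⟨f.map (evalRingHom 0), hf, ?_⟩
  rw [S3_map_hom, ← Polynomial.map_map, eval_map_algebraMap] at h2
  exact h2

end MP2619.Q5
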