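import Pool.Agent.Lib.MP_2619d0_ag.Q5.P1
import Pool.Agent.Lib.MP_2619d0_ag.Q5.P2
import Pool.Agent.Lib.MP_2619d0_ag.Q5.P3
import Pool.Agent.Lib.MP_2619d0_ag.Q5.S3

/-!
# Q5, row S10: the path
-/

set_option autoImplicit false

namespace MP2619.Q5

open scoped NNReal
open Polynomial IntermediateField MP2619.R MP2619.N Pool.Agent.Lib.MP_2619d0_ag Pool.Agent.Lib.MP_2619d0_ag.T

variable {n : ℕ} {F : MvPolynomial (Fin n) ℂ} {J : Type} {z : Exp3 n ⊕ J → ℂ} {A : Type}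
  [Field A] [CharZero A] [Algebra ℂ A] {u l : Fin n → A}

private theorem S10_lifts {K L A1 : Type*} [Field K] [Field L] [Field A1] [Algebra K A1]
    [Algebra L A1] (h : ∀ b : K, ∃ c : L, algebraMap L A1 c = algebraMap K A1 b) {p : A1[X]}
    (hp : p ∈ Polynomial.lifts (algebraMap K A1)) : p ∈ Polynomial.lifts (algebraMap L A1) := by
  rw [Polynomial.lifts_iff_coeff_lifts] at hp ⊢
  intro m
  obtain ⟨b, hb⟩ := hp m
  obtain ⟨c, hc⟩ := h b
  exact ⟨c, hc.trans hb⟩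

private theorem S10_alg {K L A1 : Type*} [Field K] [Field L] [Field A1] [Algebra K A1]
    [Algebra L A1] (h : ∀ b : K, ∃ c : L, algebraMap L A1 c = algebraMap K A1 b) {a : A1}
    (ha : IsAlgebraic K a) : IsAlgebraic L a := by
  obtain ⟨p, hp0, hp⟩ := ha
  have h1 : p.map (algebraMap K A1) ∈ Polynomial.lifts (algebraMap L A1) := by
    refine S10_lifts h ?_
    exact (Polynomial.mem_lifts _).2 ⟨p, rfl⟩
  obtain ⟨q, hq⟩ := (Polynomial.mem_lifts _).1 h1
  refine ⟨q, ?_, ?_⟩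
  · intro h0
    rw [h0, Polynomial.map_zero] at hq
    exact hp0 ((Polynomial.map_eq_zero _).1 hq.symm)
  · rw [Polynomial.aeval_def, ← Polynomial.eval_map, hq, Polynomial.eval_map,
      ← Polynomial.aeval_def, hp]

private theorem S10_adj {K A1 : Type*} [Field K] [Field A1] [Algebra K A1] (S : Set A1)
    (D : Subfield A1) (h1 : ∀ b : K, algebraMap K A1 b ∈ D) (h2 : S ⊆ D) (a : A1)
    (ha : a ∈ adjoin K S) : a ∈ D := by
  have h3 : adjoin K S ≤ D.toIntermediateField h1 := adjoin_le_iff.2 h2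
  exact h3 ha

private theorem S10_gen {B K A1 : Type*} [Field B] [Field K] [Field A1] [Algebra B K] [Algebra B A1]
    [Algebra K A1] [IsScalarTower B K A1] (e : K) (he : adjoin B {e} = ⊤) (D : Subfield A1)
    (h1 : ∀ b : B, algebraMap B A1 b ∈ D) (h2 : algebraMap K A1 e ∈ D) (c : K) :
    algebraMap K A1 c ∈ D := by
  have h3 : c ∈ adjoin B {e} := by
    rw [he]
    exact mem_top
  have h4 := S10_adj {e} (D.comap (algebraMap K A1)) (fun b => by
    rw [Subfield.mem_comap, ← IsScalarTower.algebraMap_apply]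
    exact h1 b) (by
    intro s hs
    rw [Set.mem_singleton_iff.1 hs]
    exact h2) c h3
  exact h4

private theorem S10_card {T : Type*} [Fintype T] (p : T → Prop) [DecidablePred p] {N : ℕ}
    (σ : Fin N ≃ T) :
    (Finset.univ.filter fun i => p (σ i)).card = Nat.card {τ : T // p τ} := by
  classical
  rw [Nat.card_eq_fintype_card, Fintype.card_subtype]
  refine Finset.card_bij (fun i _ => σ i) ?_ ?_ ?_
  · intro i hi
    simpa using hi
  · intro i _ j _ hij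
    exact σ.injective hij
  · intro τ hτ
    exact ⟨σ.symm τ, by simpa using hτ, by simp⟩

private theorem S10_nm_le (V : Valuation A ℝ≥0) {m : ℕ} (X : Fin m → A) :
    nm V X ≤ 1 ↔ ∀ i, V (X i) ≤ 1 := by
  unfold nm
  rw [Finset.sup_le_iff]
  exact ⟨fun h i => h i (Finset.mem_univ i), fun h i _ => h i⟩

private theorem S10_lam {E : Type*} [Field E] [Algebra E A] {W : Valuation A ℝ≥0} {e : A}
    {lam : A → A} (h : Sp E W e lam) {m : ℕ} (l X : Fin m → A)
    (hl : ∀ i, ∃ b : E, algebraMap E A b = l i) (hX : ∀ i, W (X i) ≤ 1) :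
    lam (∑ i, l i * X i) = ∑ i, l i * lam (X i) := by
  choose b hb using hl
  have h1 : ∀ i, W (l i) ≤ 1 := fun i => by
    rw [← hb i]
    exact h.le_one (b i)
  have h2 : ((∑ i, (⟨l i, h1 i⟩ : W.valuationSubring) * ⟨X i, hX i⟩ : W.valuationSubring) : A) =
      ∑ i, l i * X i := by
    rw [AddSubmonoidClass.coe_finsetSum]
    rfl
  rw [← h2, ← h.hom_apply, map_sum]
  refine Finset.sum_congr rfl fun i _ => ?_
  rw [map_mul, h.hom_apply, h.hom_apply]
  change lam (l i) * lam (X i) = _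
  have h3 : lam (l i) = l i := by
    rw [← hb i]
    exact h.fix (b i)
  rw [h3]

/-- The path. Proof. `T := Tg w u x y γ`, finite (`finite_emb`), `ρ_τ := ∑ l_i τ(x_i)`. `V` is Gauss over `ℂ` in `u, l` (`gauss_C` with weight one), `nm_comb`
(N/G1.lean): `V ρ_τ = nm V (τ x)`, the same for `W` (`alg_emb`, `A8_alg`) and for all the valuations of the path. `p := ∏_τ (Z - ρ_τ)` has
coefficients in `adjoin k1 (range u ∪ range l)` (`chi_emb`), so in `adjoin E0 {e}` (`k1 = B(e)`, `B, u, l ⊂ E0` by `e0_mem`, `BE.alg`). `exists_prim`: `f`, `f(e, Z) = c p`;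
`roots_sp`: the roots of `f(0, Z)` are the `lam ρ_τ`, `W ρ_τ ≤ 1`. `path_poly` (P2) with `R0 = 2`, `B = E0`, `v = V.comap`, `hex` from `e0_ov`, `hG` from `e0_ov` and `gap_par`
(`nm` = `V ρ_τ` by `nm_comb`), indices `Fin N ≃ T` (`Fintype.equivFin`): the number of the `τ` with `V ρ_τ ≤ 1` (`= gc`) and the number of the `τ` with `W
ρ_τ ≤ 1`, `V (lam ρ_τ) ≤ 1` have the same parity. If `W ρ_τ ≤ 1` then `W (τ x_i) ≤ 1` for all `i`, `lam ρ_τ = ∑ l_i lam (τ x_i)` (`hS.fix` for `l_i ∈ E0`), `lam (τ x_i)` is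
algebraic over `ℂ(u)` (`alg_sp` with `E := adjoin B (range u)`, `Sp.restrict`; `τ x_i` is algebraic over `adjoin k1 (range u) = E(e)`), so `V (lam ρ_τ) = nm V (lam (τ x))`
by `nm_comb`. -/
theorem path_count (h : Ctx F z u l) (v2 : Valuation ℚ ℝ≥0) (h2 : IsTwo v2) (V : Valuation A ℝ≥0)
    (hV : IsWt v2 V (zeta z u l) (fun _ => 1)) (k1 : IntermediateField (Qz z) ℂ) (w : k1)
    {M1 : Type} [Field M1] [Algebra k1 M1] (x y : Fin n → M1) (hD : Dat F z k1 w x y)
    (γ : Fin n → ZMod 3) {B : Type} [Field B] [Algebra B k1] [Algebra B A]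
    [IsScalarTower B k1 A] (e : k1) (j : J) (hB : BE z k1 B e j) (W : Valuation A ℝ≥0) (lam : A → A)
    (hS : Sp (E0 z u l j) W (algebraMap k1 A e) lam) (hG : IsGauss ℂ W (Sum.elim u l)) :
    Even (gc V w u x y γ + Nat.card {τ : Tg (A := A) w u x y γ //
      ∀ i, W (τ.1 (x i)) ≤ 1 ∧ V (lam (τ.1 (x i))) ≤ 1}) := by
  classical
  have hcl : IsAlgClosed A := h.closed
  have hu : AlgebraicIndependent k1 u := by
    have h1 : AlgebraicIndependent ℂ u := by
      have h2 := h.ind.comp Sum.inl Sum.inl_injective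
      exact h2
    exact h1.restrictScalars (algebraMap k1 ℂ).injective
  have hfin := finite_emb u hu hD.fg (zg w x y γ)
  have hft : Fintype (Tg (A := A) w u x y γ) := @Fintype.ofFinite _ hfin
  have hchi := chi_emb u l hu hD.fg (zg w x y γ) x
  -- the constants
  obtain ⟨m1, m2, m3⟩ := e0_mem h j
  have hBE : ∀ b : B, algebraMap B A b ∈ E0 z u l j := by
    intro b
    have h1 := m3 _ (hB.alg b)
    rw [IsScalarTower.algebraMap_apply B k1 A]
    exact h1
  have he : algebraMap k1 A e = algebraMap ℂ A (z (Sum.inr j)) ∨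
      algebraMap k1 A e = (algebraMap ℂ A (z (Sum.inr j)))⁻¹ := by
    have h1 : algebraMap k1 A e = algebraMap ℂ A (e : ℂ) := rfl
    rw [h1]
    rcases hB.par with h2 | h2
    · exact Or.inl (by rw [h2])
    · exact Or.inr (by rw [h2, map_inv₀])
  obtain ⟨o1, o2, o3⟩ := e0_ov h j (algebraMap k1 A e) he v2 V hV
  obtain ⟨e', hee⟩ : ∃ e', e' = algebraMap k1 A e := ⟨_, rfl⟩
  rw [← hee] at hS he o1 o2 o3
  have hk1 : ∀ c : k1, algebraMap k1 A c ∈ (adjoin (E0 z u l j) {e'}).toSubfield := by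
    intro c
    refine S10_gen e hB.gen _ (fun b => ?_) ?_ c
    · exact (adjoin (E0 z u l j) {e'}).algebraMap_mem ⟨_, hBE b⟩
    · rw [← hee]
      exact mem_adjoin_simple_self _ e'
  have hlift : (∏ τ : Tg (A := A) w u x y γ,
      (Polynomial.X - Polynomial.C (∑ i, l i * τ.1 (x i)))) ∈
      Polynomial.lifts (algebraMap (adjoin (E0 z u l j) {e'}) A) := by
    refine S10_lifts ?_ hchi
    intro b
    refine ⟨⟨b.1, ?_⟩, rfl⟩
    refine S10_adj (Set.range u ∪ Set.range l) (adjoin (E0 z u l j) {e'}).toSubfield hk1 ?_ b.1 b.2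
    rintro s (⟨i, rfl⟩ | ⟨i, rfl⟩)
    · exact (adjoin (E0 z u l j) {e'}).algebraMap_mem ⟨_, m1 i⟩
    · exact (adjoin (E0 z u l j) {e'}).algebraMap_mem ⟨_, m2 i⟩
  obtain ⟨ρ, hρ⟩ : ∃ ρ : Tg (A := A) w u x y γ → A, ρ = fun τ => ∑ i, l i * τ.1 (x i) := ⟨_, rfl⟩
  have hp0 : (∏ τ : Tg (A := A) w u x y γ,
      (Polynomial.X - Polynomial.C (∑ i, l i * τ.1 (x i)))) ≠ 0 :=
    (Polynomial.monic_prod_of_monic _ _ fun τ _ => Polynomial.monic_X_sub_C _).ne_zero
  obtain ⟨f, c, hc, hf0, hfc⟩ := exists_prim e' hS.ne _ hp0 hlift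
  have hfc' : f.map (aeval e' : (E0 z u l j)[X] →ₐ[E0 z u l j] A).toRingHom =
      C c * ∏ τ, (X - C (ρ τ)) := by
    rw [hfc, hρ]
  obtain ⟨c0, hc0, hfc0⟩ := roots_sp hS f hf0 ρ c hfc'
  -- norms
  have hwt1 : (fun _ => 1 : (Exp3 n ⊕ J) ⊕ (Fin n ⊕ Fin n) → ℝ≥0) =
      wts (Sum.inl (Sum.inr j)) 1 := by
    funext s
    unfold wts
    rw [ite_self]
  have hGV : IsGauss ℂ V (Sum.elim u l) :=
    gauss_C h v2 V (Sum.inr j) 1 one_pos (by rw [← hwt1]; exact hV)
  have halg : ∀ (τ : Tg (A := A) w u x y γ) i,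
      IsAlgebraic (adjoin k1 (Set.range u)) (τ.1 (x i)) := fun τ i =>
    alg_emb u hu hD.fg (zg w x y γ) τ.1 τ.2 (x i)
  have halgC : ∀ (τ : Tg (A := A) w u x y γ) i,
      IsAlgebraic (adjoin ℂ (Set.range u)) (τ.1 (x i)) := by
    intro τ i
    refine S10_alg ?_ (halg τ i)
    intro b
    refine ⟨⟨b.1, ?_⟩, rfl⟩
    refine S10_adj (Set.range u) (adjoin ℂ (Set.range u)).toSubfield (fun c => ?_)
      (subset_adjoin _ _) b.1 b.2
    exact (adjoin ℂ (Set.range u)).algebraMap_mem (c : ℂ)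
  have hnm : ∀ V' : Valuation A ℝ≥0, IsGauss ℂ V' (Sum.elim u l) →
      ∀ τ, V' (ρ τ) = nm V' (fun i => τ.1 (x i)) := by
    intro V' hV' τ
    rw [hρ]
    exact nm_comb V' u l hV' _ (halgC τ)
  -- specialisations
  have hW : ∀ τ, W (ρ τ) ≤ 1 ↔ ∀ i, W (τ.1 (x i)) ≤ 1 := by
    intro τ
    rw [hnm W hG τ, S10_nm_le]
  have hlam : ∀ τ, (∀ i, W (τ.1 (x i)) ≤ 1) →
      (V (lam (ρ τ)) ≤ 1 ↔ ∀ i, V (lam (τ.1 (x i))) ≤ 1) := by
    intro τ hτ
    have h1 : lam (ρ τ) = ∑ i, l i * lam (τ.1 (x i)) := by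
      rw [hρ]
      exact S10_lam hS l (fun i => τ.1 (x i)) (fun i => ⟨⟨_, m2 i⟩, rfl⟩) hτ
    have h2 : Sp (adjoin B (Set.range u)) W e' lam := by
      refine hS.restrict fun b => ⟨⟨b.1, ?_⟩, rfl⟩
      refine S10_adj (Set.range u) (E0 z u l j).toSubfield hBE ?_ b.1 b.2
      rintro s ⟨i, rfl⟩
      exact m1 i
    have h3 : ∀ i, IsAlgebraic (adjoin ℂ (Set.range u)) (lam (τ.1 (x i))) := by
      intro i
      have h4 : IsAlgebraic (adjoin (adjoin B (Set.range u)) {e'}) (τ.1 (x i)) := by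
        refine S10_alg ?_ (halg τ i)
        intro b
        refine ⟨⟨b.1, ?_⟩, rfl⟩
        refine S10_adj (Set.range u) (adjoin (adjoin B (Set.range u)) {e'}).toSubfield (fun c => ?_)
          ?_ b.1 b.2
        · refine S10_gen e hB.gen _ (fun b => ?_) ?_ c
          · exact (adjoin (adjoin B (Set.range u)) {e'}).algebraMap_mem
              ⟨_, (adjoin B (Set.range u)).algebraMap_mem b⟩
          · rw [← hee]
            exact mem_adjoin_simple_self _ e'
        · intro s hs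
          exact (adjoin (adjoin B (Set.range u)) {e'}).algebraMap_mem ⟨s, subset_adjoin _ _ hs⟩
      refine S10_alg ?_ (alg_sp h2 _ h4 (hτ i))
      intro b
      refine ⟨⟨b.1, ?_⟩, rfl⟩
      refine S10_adj (Set.range u) (adjoin ℂ (Set.range u)).toSubfield (fun c => ?_)
        (subset_adjoin _ _) b.1 b.2
      rw [IsScalarTower.algebraMap_apply B k1 A]
      exact (adjoin ℂ (Set.range u)).algebraMap_mem ((algebraMap B k1 c : k1) : ℂ)
    rw [h1, nm_comb V u l hGV _ h3, S10_nm_le]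
  -- the path
  obtain ⟨σ⟩ : Nonempty (Fin (Fintype.card (Tg (A := A) w u x y γ)) ≃ Tg (A := A) w u x y γ) :=
    ⟨(Fintype.equivFin _).symm⟩
  obtain ⟨σ0⟩ : Nonempty (Fin (Fintype.card {τ : Tg (A := A) w u x y γ // W (ρ τ) ≤ 1}) ≃
      {τ : Tg (A := A) w u x y γ // W (ρ τ) ≤ 1}) :=
    ⟨(Fintype.equivFin _).symm⟩
  have key := path_poly (B := E0 z u l j) e' (V.comap (algebraMap (E0 z u l j) A)) 2 one_lt_two
    (fun t ht _ => o2 t ht) f (fun i => ρ (σ i)) (fun i => lam (ρ (σ0 i).1)) c c0 hc hc0 ?_ ?_ ?_ V o1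
  · rw [S10_card (fun τ => V (ρ τ) ≤ 1) σ,
      S10_card (fun τ : {τ : Tg (A := A) w u x y γ // W (ρ τ) ≤ 1} => V (lam (ρ τ.1)) ≤ 1) σ0] at key
    have k1' : gc V w u x y γ = Nat.card {τ : Tg (A := A) w u x y γ // V (ρ τ) ≤ 1} := by
      unfold MP2619.N.gc
      refine Nat.card_congr ?_
      refine (Equiv.subtypeSubtypeEquivSubtypeInter _ _).symm.trans (Equiv.subtypeEquivRight ?_)
      intro τ
      rw [hnm V hGV τ, S10_nm_le]
    have k2' : Nat.card {τ : Tg (A := A) w u x y γ //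
        ∀ i, W (τ.1 (x i)) ≤ 1 ∧ V (lam (τ.1 (x i))) ≤ 1} =
        Nat.card {τ : {τ : Tg (A := A) w u x y γ // W (ρ τ) ≤ 1} // V (lam (ρ τ.1)) ≤ 1} := by
      refine Nat.card_congr ?_
      refine Equiv.trans (Equiv.subtypeEquivRight ?_)
        (Equiv.subtypeSubtypeEquivSubtypeInter (fun τ : Tg (A := A) w u x y γ => W (ρ τ) ≤ 1)
          (fun τ => V (lam (ρ τ)) ≤ 1)).symm
      intro τ
      rw [hW τ, forall_and]
      constructor
      · rintro ⟨h1, h2⟩
        exact ⟨h1, (hlam τ h1).2 h2⟩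
      · rintro ⟨h1, h2⟩
        exact ⟨h1, (hlam τ h1).1 h2⟩
    rw [k1', k2', Nat.even_add]
    exact key
  · rw [hfc']
    congr 1
    exact (Equiv.prod_comp σ fun τ => X - C (ρ τ)).symm
  · rw [hfc0]
    congr 1
    rw [Equiv.prod_comp σ0 fun τ => X - C (lam (ρ τ.1))]
    exact Finset.prod_subtype _ (fun τ => by simp) _
  · intro t ht0 ht1 V' hV' R hR1 hR2
    obtain ⟨t', ht', hV''⟩ := o3 t V' ht0 hV'
    rw [S10_card (fun τ => V' (ρ τ) = R) σ]
    have h1 := gap_par h v2 h2 V' j t' ht' hV'' k1 w x y hD γ R hR1 hR2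
    have h3 : ∀ τ, V' (ρ τ) = R ↔ nm V' (fun i => τ.1 (x i)) = R := fun τ => by
      rw [hnm V' (gauss_C h v2 V' (Sum.inr j) t' ht' hV'') τ]
    rw [Nat.card_congr (Equiv.subtypeEquivRight h3)]
    exact h1

end MP2619.Q5
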