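import Pool.Agent.Lib.MP_2619d0_ag.Q5.S8

/-!
# Q5, row S9: summation over the places
-/

set_option autoImplicit false

namespace MP2619.Q5

open scoped NNReal
open Polynomial IntermediateField MP2619.R MP2619.N Pool.Agent.Lib.MP_2619d0_ag Pool.Agent.Lib.MP_2619d0_ag.T

variable {B k1 M1 A : Type} [Field B] [Field k1] [Field M1] [Field A] [Algebra B k1] [Algebra k1 M1]
  [Algebra B M1] [Algebra k1 A] [Algebra B A] [IsScalarTower B k1 M1] [IsScalarTower B k1 A] [CharZero B]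
  [IsAlgClosed A]

omit [Algebra k1 A] [IsScalarTower B k1 A] [Algebra k1 M1] [Algebra B k1] [IsScalarTower B k1 M1]
  [CharZero B] [IsAlgClosed A] [Field k1] [Algebra B M1] [Field M1] in
private theorem S9_sub {n : ℕ} (u : Fin n → A) (W : Valuation A ℝ≥0) (lam : A → A) (eA : A)
    (hS : Sp (adjoin B (Set.range u)) W eA lam) : Sp B W eA lam :=
  hS.restrict fun b => ⟨algebraMap B _ b, rfl⟩

omit [Algebra k1 A] [IsScalarTower B k1 A] [Algebra k1 M1] [Algebra B k1] [IsScalarTower B k1 M1]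
  [CharZero B] [IsAlgClosed A] [Field k1] [Algebra B M1] [Field M1] in
private theorem S9_u_le {n : ℕ} (u : Fin n → A) (W : Valuation A ℝ≥0) (lam : A → A) (eA : A)
    (hS : Sp (adjoin B (Set.range u)) W eA lam) (i : Fin n) : W (u i) ≤ 1 :=
  hS.le_one (⟨u i, subset_adjoin _ _ ⟨i, rfl⟩⟩ : adjoin B (Set.range u))

omit [Algebra k1 A] [IsScalarTower B k1 A] [Algebra k1 M1] [Algebra B k1] [IsScalarTower B k1 M1]
  [CharZero B] [IsAlgClosed A] [Field k1] [Algebra B M1] [Field M1] in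
private theorem S9_u_fix {n : ℕ} (u : Fin n → A) (W : Valuation A ℝ≥0) (lam : A → A) (eA : A)
    (hS : Sp (adjoin B (Set.range u)) W eA lam) (i : Fin n) : lam (u i) = u i :=
  hS.fix (⟨u i, subset_adjoin _ _ ⟨i, rfl⟩⟩ : adjoin B (Set.range u))

omit [CharZero B] [IsAlgClosed A] in
/-- an embedding over `k1` is one over `B` -/
private theorem S9_comm (τ : M1 →ₐ[k1] A) (b : B) : τ (algebraMap B M1 b) = algebraMap B A b := by
  rw [IsScalarTower.algebraMap_apply B k1 M1, τ.commutes, ← IsScalarTower.algebraMap_apply B k1 A]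

omit [Algebra B A] [IsScalarTower B k1 A] [Algebra B k1] [IsScalarTower B k1 M1]
  [CharZero B] [IsAlgClosed A] [Field B] [Algebra B M1] in
/-- the maximal ideal of the valuation ring of an embedding -/
private theorem S9_lt (W : Valuation A ℝ≥0) (τ : M1 →ₐ[k1] A) (P : ValuationSubring M1)
    (hP : ∀ m : M1, W (τ m) ≤ 1 ↔ m ∈ P) (m : M1) : P.valuation m < 1 ↔ W (τ m) < 1 := by
  by_cases hm : m = 0
  · rw [hm, map_zero, map_zero, map_zero]
    exact ⟨fun _ => zero_lt_one, fun _ => zero_lt_one⟩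
  have h1 : P.valuation m < 1 ↔ ¬ m⁻¹ ∈ P := by
    rw [← ValuationSubring.valuation_le_one_iff, not_le, map_inv₀]
    exact (one_lt_inv₀ (zero_lt_iff.2 ((Valuation.ne_zero_iff _).2 hm))).symm
  have h2 : W (τ m) < 1 ↔ ¬ W (τ m⁻¹) ≤ 1 := by
    rw [not_le, map_inv₀, map_inv₀]
    exact (one_lt_inv₀ (zero_lt_iff.2 ((Valuation.ne_zero_iff _).2
      ((_root_.map_ne_zero _).2 hm)))).symm
  rw [h1, h2, hP]

/-- the embeddings with the ring `P` and the residue map `σ` -/
private abbrev S9_Fib {n : ℕ} (u : Fin n → A) (W : Valuation A ℝ≥0) (lam : A → A)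
    (z : Fin n → M1) (P : ValuationSubring M1) (σ : IsLocalRing.ResidueField P →+* A) : Type :=
  {τ : M1 →ₐ[k1] A // (∀ i, τ (z i) = u i) ∧
      ∀ m : P, W (τ m) ≤ 1 ∧ lam (τ m) = σ (IsLocalRing.residue P m)}

omit [IsScalarTower B k1 A] [Algebra B k1] [IsScalarTower B k1 M1]
  [CharZero B] [IsAlgClosed A] [Algebra B M1] in
/-- an embedding with the residue map `σ` has the ring `P` -/
private theorem S9_ring (W : Valuation A ℝ≥0) (lam : A → A) (eA : A) (hS : Sp B W eA lam)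
    (τ : M1 →ₐ[k1] A) (P : ValuationSubring M1) (σ : IsLocalRing.ResidueField P →+* A)
    (h : ∀ m : P, W (τ m) ≤ 1 ∧ lam (τ m) = σ (IsLocalRing.residue P m)) (m : M1) :
    W (τ m) ≤ 1 ↔ m ∈ P := by
  refine ⟨fun hm => ?_, fun hm => (h ⟨m, hm⟩).1⟩
  by_contra hmP
  have hm0 : m ≠ 0 := by
    rintro rfl
    exact hmP (zero_mem P)
  have h1 : m⁻¹ ∈ P := (P.mem_or_inv_mem m).resolve_left hmP
  have h2 : P.valuation m⁻¹ < 1 := by
    rw [← ValuationSubring.valuation_le_one_iff, not_le] at hmP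
    rw [map_inv₀]
    exact inv_lt_one_of_one_lt₀ hmP
  have h3 : (⟨m⁻¹, h1⟩ : P) ∈ IsLocalRing.maximalIdeal P :=
    (ValuationSubring.valuation_lt_one_iff P ⟨m⁻¹, h1⟩).2 h2
  have h4 : IsLocalRing.residue P ⟨m⁻¹, h1⟩ = 0 := (IsLocalRing.residue_eq_zero_iff _).2 h3
  obtain ⟨h5, h6⟩ := h ⟨m⁻¹, h1⟩
  rw [h4, map_zero] at h6
  have h7 := (hS.zero _ h5).1 h6
  have h8 : W (τ m) * W (τ m⁻¹) = 1 := by
    rw [← map_mul, ← map_mul, mul_inv_cancel₀ hm0, map_one, map_one]
  have h9 : W (τ m) * W (τ m⁻¹) < 1 := mul_lt_one_of_nonneg_of_lt_one_right hm zero_le h7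
  exact absurd h8 h9.ne

omit [IsAlgClosed A] [CharZero B] [IsScalarTower B k1 M1] [IsScalarTower B k1 A] [Algebra B k1] [Algebra B M1] in
/-- the residue map of an embedding -/
private theorem S9_res (W : Valuation A ℝ≥0) (lam : A → A) (eA : A) (hS : Sp B W eA lam)
    (τ : M1 →ₐ[k1] A) (P : ValuationSubring M1) (hP : ∀ m : M1, W (τ m) ≤ 1 ↔ m ∈ P) :
    ∃ σ : IsLocalRing.ResidueField P →+* A,
      ∀ m : P, σ (IsLocalRing.residue P m) = lam (τ m) := by
  have hle : ∀ m : P, W (τ m) ≤ 1 := fun m => (hP m).2 m.2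
  let f : P →+* A :=
    { toFun := fun m => lam (τ m)
      map_one' := by
        have h1 := hS.fix 1
        rw [map_one] at h1
        change lam (τ 1) = 1
        rw [map_one]
        exact h1
      map_mul' := fun a b => by
        change lam (τ ((a : M1) * b)) = _
        rw [map_mul]
        exact hS.mul _ _ (hle a) (hle b)
      map_zero' := by
        have h1 := hS.fix 0
        rw [map_zero] at h1
        change lam (τ 0) = 0
        rw [map_zero]
        exact h1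
      map_add' := fun a b => by
        change lam (τ ((a : M1) + b)) = _
        rw [map_add]
        exact hS.add _ _ (hle a) (hle b) }
  have hf : ∀ a ∈ IsLocalRing.maximalIdeal P, f a = 0 := by
    intro a ha
    refine (hS.zero _ (hle a)).2 ?_
    rw [← S9_lt W τ P hP]
    exact (ValuationSubring.valuation_lt_one_iff P a).1 ha
  exact ⟨Ideal.Quotient.lift (IsLocalRing.maximalIdeal P) f hf, fun m => rfl⟩

/-- The number of the embeddings with the ring `P`. -/
private theorem S9_count (e : k1) (hB : adjoin B {e} = ⊤) {n : ℕ} (u : Fin n → A)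
    (hu : AlgebraicIndependent k1 u) (W : Valuation A ℝ≥0) (lam : A → A)
    (hS : Sp (adjoin B (Set.range u)) W (algebraMap k1 A e) lam)
    (hfg : ∃ z0 : Fin n → M1, AlgebraicIndependent k1 z0 ∧
      Module.finrank (adjoin k1 (Set.range z0)) M1 ≠ 0)
    (w : k1) (wB : B) (hw : algebraMap B k1 wB = w) (x y : Fin n → M1)
    (γ : Fin n → ZMod 3) (V : Valuation A ℝ≥0) (P : ValuationSubring M1)
    (hE : EP B (algebraMap k1 M1 e) x y P) :
    Nat.card {τ : M1 →ₐ[k1] A // (∀ i, τ (zg w x y γ i) = u i) ∧ (∀ m : M1, W (τ m) ≤ 1 ↔ m ∈ P) ∧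
      ∀ i, V (lam (τ (x i))) ≤ 1} =
      (ord P (algebraMap k1 M1 e)).toNat * gr V wB u x y P γ := by
  classical
  have hSB : Sp B W (algebraMap k1 A e) lam := S9_sub u W lam _ hS
  have hcase : Cst B P ∧ (∀ i, x i ∈ P) ∧ ∀ i, y i ∈ P := ⟨hE.cst, hE.x_mem, hE.y_mem⟩
  let _ : Algebra B (IsLocalRing.ResidueField P) := (rc hcase.1).toAlgebra
  have hgr : gr V wB u x y P γ = gc V wB u (fun i => IsLocalRing.residue P ⟨x i, hcase.2.1 i⟩)
      (fun i => IsLocalRing.residue P ⟨y i, hcase.2.2 i⟩) γ := by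
    unfold gr
    rw [dif_pos hcase]
  rw [hgr]
  set xb : Fin n → IsLocalRing.ResidueField P :=
    fun i => IsLocalRing.residue P ⟨x i, hcase.2.1 i⟩ with hxb
  set yb : Fin n → IsLocalRing.ResidueField P :=
    fun i => IsLocalRing.residue P ⟨y i, hcase.2.2 i⟩ with hyb
  have hmap : ∀ i, algebraMap k1 M1 (w ^ (γ i).val) = algebraMap B M1 (wB ^ (γ i).val) := by
    intro i
    rw [IsScalarTower.algebraMap_apply B k1 M1, map_pow (algebraMap B k1), hw]
  have hz : ∀ i, zg w x y γ i ∈ P := by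
    intro i
    unfold zg
    rw [hmap]
    exact add_mem (mul_mem (hE.cst _) (hE.x_mem i)) (hE.y_mem i)
  have hzb : ∀ i, zg wB xb yb γ i = IsLocalRing.residue P ⟨zg w x y γ i, hz i⟩ := by
    intro i
    have h1 : (⟨zg w x y γ i, hz i⟩ : P) =
        ⟨algebraMap B M1 (wB ^ (γ i).val), hE.cst _⟩ * ⟨x i, hcase.2.1 i⟩ + ⟨y i, hcase.2.2 i⟩ := by
      apply Subtype.ext
      change zg w x y γ i = algebraMap B M1 (wB ^ (γ i).val) * x i + y i
      rw [← hmap]
      rfl
    rw [h1, map_add, map_mul]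
    rfl
  -- the count for every residue map
  have hfib : ∀ σ : {σ : IsLocalRing.ResidueField P →ₐ[B] A //
      (∀ i, σ (zg wB xb yb γ i) = u i) ∧ ∀ i, V (σ (xb i)) ≤ 1},
      Nat.card (S9_Fib (k1 := k1) u W lam (zg w x y γ) P (σ.1 : IsLocalRing.ResidueField P →+* A)) =
        (ord P (algebraMap k1 M1 e)).toNat := by
    intro σ
    refine (place_spec_z e hB u hu W lam hS hfg (zg w x y γ) P hE.cst hE.pos hz
      (σ.1 : IsLocalRing.ResidueField P →+* A) (fun b => σ.1.commutes b) fun i => ?_).2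
    rw [← hzb i]
    exact σ.2.1 i
  have he0 : algebraMap k1 M1 e ≠ 0 := by
    intro h
    have h1 : e = 0 := (map_eq_zero _).1 h
    exact hS.ne (by rw [h1, map_zero])
  have hpos : 0 < (ord P (algebraMap k1 M1 e)).toNat := by
    have h1 := (lt_iff hE.dv he0).1 hE.pos
    omega
  -- the bijection
  let L : Type := {τ : M1 →ₐ[k1] A // (∀ i, τ (zg w x y γ i) = u i) ∧
    (∀ m : M1, W (τ m) ≤ 1 ↔ m ∈ P) ∧ ∀ i, V (lam (τ (x i))) ≤ 1}
  let G : Type := {σ : IsLocalRing.ResidueField P →ₐ[B] A //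
      (∀ i, σ (zg wB xb yb γ i) = u i) ∧ ∀ i, V (σ (xb i)) ≤ 1}
  let Fb : G → Type := fun σ =>
    S9_Fib (k1 := k1) u W lam (zg w x y γ) P (σ.1 : IsLocalRing.ResidueField P →+* A)
  let Ψ : (Σ σ : G, Fb σ) → L := fun s => ⟨s.2.1, s.2.2.1,
    S9_ring W lam _ hSB s.2.1 P _ s.2.2.2, fun i => by
      have h1 := (s.2.2.2 ⟨x i, hE.x_mem i⟩).2
      have h2 := s.1.2.2 i
      change lam (s.2.1 (x i)) = s.1.1 (xb i) at h1
      rw [h1]
      exact h2⟩
  have hΨ : Function.Bijective Ψ := by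
    constructor
    · rintro ⟨σ, τ⟩ ⟨σ', τ'⟩ h
      have h1 : τ.1 = τ'.1 := congrArg Subtype.val h
      have h2 : σ = σ' := by
        apply Subtype.ext
        apply AlgHom.ext
        intro a
        obtain ⟨m, rfl⟩ := IsLocalRing.residue_surjective a
        have h3 := (τ.2.2 m).2
        have h4 := (τ'.2.2 m).2
        rw [h1] at h3
        exact h3.symm.trans h4
      subst h2
      have h3 : τ = τ' := Subtype.ext h1
      rw [h3]
    · rintro ⟨τ, hτ1, hτ2, hτ3⟩
      obtain ⟨σ, hσ⟩ := S9_res W lam _ hSB τ P hτ2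
      have hσB : ∀ b : B, σ (algebraMap B (IsLocalRing.ResidueField P) b) = algebraMap B A b := by
        intro b
        have h1 := hσ ⟨algebraMap B M1 b, hE.cst b⟩
        change σ (IsLocalRing.residue P ⟨algebraMap B M1 b, hE.cst b⟩) = _
        rw [h1]
        change lam (τ (algebraMap B M1 b)) = _
        rw [S9_comm τ b]
        exact hSB.fix b
      let σ' : IsLocalRing.ResidueField P →ₐ[B] A := { σ with commutes' := hσB }
      have hσ' : ∀ m : P, σ' (IsLocalRing.residue P m) = lam (τ m) := hσ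
      refine ⟨⟨⟨σ', fun i => ?_, fun i => ?_⟩, ⟨τ, hτ1, fun m => ⟨(hτ2 m).2 m.2, ?_⟩⟩⟩, rfl⟩
      · rw [hzb i, hσ']
        change lam (τ (zg w x y γ i)) = u i
        rw [hτ1 i]
        exact S9_u_fix u W lam _ hS i
      · rw [hxb]
        change V (σ' (IsLocalRing.residue P ⟨x i, hcase.2.1 i⟩)) ≤ 1
        rw [hσ']
        exact hτ3 i
      · exact (hσ m).symm
  have hk0 : CharZero k1 := charZero_of_injective_algebraMap (algebraMap B k1).injective
  have hTfin := finite_emb u hu hfg (zg w x y γ)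
  have hLfin : Finite L := Finite.of_injective
    (fun τ : L => (⟨τ.1, τ.2.1⟩ : {τ : M1 →ₐ[k1] A // ∀ i, τ (zg w x y γ i) = u i}))
    fun τ τ' h => Subtype.ext (by
      have h1 := congrArg Subtype.val h
      exact h1)
  have hSfin : Finite (Σ σ : G, Fb σ) := Finite.of_injective Ψ hΨ.1
  have hGfin : Finite G := by
    refine Finite.of_surjective (fun s : (Σ σ : G, Fb σ) => s.1) fun σ => ?_
    have h1 : Nat.card (Fb σ) ≠ 0 := by
      have h2 : Nat.card (Fb σ) = (ord P (algebraMap k1 M1 e)).toNat := hfib σ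
      rw [h2]
      exact hpos.ne'
    have h3 : Nonempty (Fb σ) := (Nat.card_ne_zero.1 h1).1
    obtain ⟨τ⟩ := h3
    exact ⟨⟨σ, τ⟩, rfl⟩
  have hFfin : ∀ σ : G, Finite (Fb σ) := by
    intro σ
    have h1 : Nat.card (Fb σ) ≠ 0 := by
      have h2 : Nat.card (Fb σ) = (ord P (algebraMap k1 M1 e)).toNat := hfib σ
      rw [h2]
      exact hpos.ne'
    exact (Nat.card_ne_zero.1 h1).2
  have hFG : Fintype G := Fintype.ofFinite G
  calc Nat.card L = Nat.card (Σ σ : G, Fb σ) := (Nat.card_congr (Equiv.ofBijective Ψ hΨ)).symm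
    _ = ∑ σ : G, Nat.card (Fb σ) := Nat.card_sigma
    _ = ∑ _σ : G, (ord P (algebraMap k1 M1 e)).toNat := Finset.sum_congr rfl fun σ _ => hfib σ
    _ = (ord P (algebraMap k1 M1 e)).toNat * Nat.card G := by
      rw [Finset.sum_const, Finset.card_univ, ← Nat.card_eq_fintype_card, smul_eq_mul, mul_comm]

/-- Summation over the places. Proof. `T := {τ | ∀ i, τ (zg i) = u i}` is finite (`finite_emb`, N/A5.lean). For `τ ∈ T` let `P_τ =
{m | W (τ m) ≤ 1}`. `S` := the set of the `P_τ`, `τ ∈ T` with `W (τ x_i) ≤ 1` for all `i`. `EP`: `DV` by `place_dv`; `Cst B` (`Sp.le_one`), `y_i = zg_i -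
w^γ x_i ∈ P_τ` (`W u_i ≤ 1`, `w = wB ∈ B`). Let `P` satisfy `EP`. If `τ ∈ T` has `P_τ = P` then `lam ∘ τ` on `P` has kernel the maximal ideal: it is
`σ ∘ residue`, `σ` over `B` (`hS.fix`), `σ z̄ = u`. Conversely, given such a `σ` (an element of the set counted by `gr` if moreover `V (σ x̄_i) ≤
1`), by `place_spec_z` the number of the `τ ∈ T` which induce `σ` is `ord_P e > 0`, and these `τ` have `P_τ = P`. So the number of the
`τ ∈ T` with `P_τ = P` and `V (lam (τ x_i)) ≤ 1` is `ord_P e * gr P`; if `gr P ≠ 0` then `P ∈ S`. `gr` for `EP`: `dif_pos`, `gc`, `zg` with the residues: `residue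
(zg i)` is `zg wB x̄ ȳ γ i` (`rc`). Sum over `P ∈ S` (see `hsum` in the proof of `end_formula`, N/P3.lean). -/
theorem sum_places (e : k1) (hB : adjoin B {e} = ⊤) {n : ℕ} (u : Fin n → A)
    (hu : AlgebraicIndependent k1 u) (W : Valuation A ℝ≥0) (lam : A → A)
    (hS : Sp (adjoin B (Set.range u)) W (algebraMap k1 A e) lam)
    (hfg : ∃ z0 : Fin n → M1, AlgebraicIndependent k1 z0 ∧
      Module.finrank (adjoin k1 (Set.range z0)) M1 ≠ 0)
    (w : k1) (wB : B) (hw : algebraMap B k1 wB = w) (x y : Fin n → M1)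
    (γ : Fin n → ZMod 3) (V : Valuation A ℝ≥0) :
    ∃ S : Finset (ValuationSubring M1),
      (∀ P ∈ S, EP B (algebraMap k1 M1 e) x y P) ∧
      (∀ P, EP B (algebraMap k1 M1 e) x y P → P ∉ S → gr V wB u x y P γ = 0) ∧
      Nat.card {τ : Tg (A := A) w u x y γ // ∀ i, W (τ.1 (x i)) ≤ 1 ∧ V (lam (τ.1 (x i))) ≤ 1} =
        ∑ P ∈ S, (ord P (algebraMap k1 M1 e)).toNat * gr V wB u x y P γ := by
  classical
  have hSB : Sp B W (algebraMap k1 A e) lam := S9_sub u W lam _ hS
  have hk0 : CharZero k1 := charZero_of_injective_algebraMap (algebraMap B k1).injective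
  have hTfin := finite_emb u hu hfg (zg w x y γ)
  let R : (M1 →ₐ[k1] A) → ValuationSubring M1 := fun τ => (W.comap τ.toRingHom).valuationSubring
  have hR : ∀ (τ : M1 →ₐ[k1] A) (m : M1), W (τ m) ≤ 1 ↔ m ∈ R τ := fun τ m => Iff.rfl
  have hRP : ∀ (τ : M1 →ₐ[k1] A) (P : ValuationSubring M1),
      R τ = P ↔ ∀ m, W (τ m) ≤ 1 ↔ m ∈ P := by
    intro τ P
    constructor
    · rintro rfl m
      exact hR τ m
    · intro h
      ext m
      rw [← hR]
      exact h m
  let S : Set (ValuationSubring M1) := {P | ∃ τ : M1 →ₐ[k1] A,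
    (∀ i, τ (zg w x y γ i) = u i) ∧ (∀ i, W (τ (x i)) ≤ 1) ∧ R τ = P}
  have hSfin : S.Finite := by
    refine Set.Finite.subset (Set.finite_range
      fun τ : {τ : M1 →ₐ[k1] A // ∀ i, τ (zg w x y γ i) = u i} => R τ.1) ?_
    rintro P ⟨τ, h1, -, h3⟩
    exact ⟨⟨τ, h1⟩, h3⟩
  have hmap : ∀ i, algebraMap k1 M1 (w ^ (γ i).val) = algebraMap B M1 (wB ^ (γ i).val) := by
    intro i
    rw [IsScalarTower.algebraMap_apply B k1 M1, map_pow (algebraMap B k1), hw]
  have hSE : ∀ P ∈ S, EP B (algebraMap k1 M1 e) x y P := by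
    rintro P ⟨τ, h1, h2, h3⟩
    have hP := (hRP τ P).1 h3
    have hcst : Cst B P := by
      intro b
      rw [← hP, S9_comm τ b]
      exact hSB.le_one b
    have hx : ∀ i, x i ∈ P := fun i => (hP _).1 (h2 i)
    refine ⟨place_dv e hB u hu W lam hS hfg (zg w x y γ) τ h1 P hP, hcst, ?_, hx, fun i => ?_⟩
    · rw [S9_lt W τ P hP, τ.commutes]
      exact hS.pos
    · have h4 : zg w x y γ i ∈ P := by
        rw [← hP, h1 i]
        exact S9_u_le u W lam _ hS i
      have h5 : y i = zg w x y γ i - algebraMap B M1 (wB ^ (γ i).val) * x i := by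
        unfold zg
        rw [hmap]
        ring
      rw [h5]
      exact sub_mem h4 (mul_mem (hcst _) (hx i))
  have hcount := fun P (hE : EP B (algebraMap k1 M1 e) x y P) =>
    S9_count e hB u hu W lam hS hfg w wB hw x y γ V P hE
  refine ⟨hSfin.toFinset, fun P hP => hSE P (hSfin.mem_toFinset.1 hP), fun P hE hP => ?_, ?_⟩
  · by_contra h0
    have he0 : algebraMap k1 M1 e ≠ 0 := by
      intro h
      have h1 : e = 0 := (map_eq_zero _).1 h
      exact hS.ne (by rw [h1, map_zero])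
    have hpos : 0 < (ord P (algebraMap k1 M1 e)).toNat := by
      have h1 := (lt_iff hE.dv he0).1 hE.pos
      omega
    have h1 := hcount P hE
    have h2 : (ord P (algebraMap k1 M1 e)).toNat * gr V wB u x y P γ ≠ 0 :=
      mul_ne_zero hpos.ne' h0
    rw [← h1] at h2
    obtain ⟨τ, h3, h4, -⟩ := (Nat.card_ne_zero.1 h2).1
    exact hP (hSfin.mem_toFinset.2 ⟨τ, h3, fun i => (h4 _).2 (hE.x_mem i), (hRP τ P).2 h4⟩)
  · let D : Type := {τ : Tg (A := A) w u x y γ // ∀ i, W (τ.1 (x i)) ≤ 1 ∧ V (lam (τ.1 (x i))) ≤ 1}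
    have hDfin : Finite D := Subtype.finite
    let g : D → {P // P ∈ hSfin.toFinset} := fun τ =>
      ⟨R τ.1.1, hSfin.mem_toFinset.2 ⟨τ.1.1, τ.1.2, fun i => (τ.2 i).1, rfl⟩⟩
    have h1 : Nat.card D = ∑ P : {P // P ∈ hSfin.toFinset}, Nat.card {τ // g τ = P} := by
      rw [← Nat.card_congr (Equiv.sigmaFiberEquiv g), Nat.card_sigma]
    change Nat.card D = _
    rw [h1, ← Finset.sum_coe_sort hSfin.toFinset
      (fun P => (ord P (algebraMap k1 M1 e)).toNat * gr V wB u x y P γ)]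
    refine Finset.sum_congr rfl fun P _ => ?_
    have hE := hSE P.1 (hSfin.mem_toFinset.1 P.2)
    rw [← hcount P.1 hE]
    exact Nat.card_congr
      { toFun := fun τ => ⟨τ.1.1.1, τ.1.1.2, (hRP τ.1.1.1 P.1).1 (congrArg Subtype.val τ.2),
          fun i => (τ.1.2 i).2⟩
        invFun := fun τ => ⟨⟨⟨τ.1, τ.2.1⟩, fun i => ⟨(τ.2.2.1 (x i)).2 (hE.x_mem i), τ.2.2.2 i⟩⟩,
          Subtype.ext ((hRP τ.1 P.1).2 τ.2.2.1)⟩
        left_inv := fun τ => rfl
        right_inv := fun τ => rfl }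

end MP2619.Q5
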