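import Pool.Agent.Lib.MP_2619d0_ag.Q5.S1
import Pool.Agent.Lib.MP_2619d0_ag.Q5.S9
import Pool.Agent.Lib.MP_2619d0_ag.Q5.S10

/-!
# Q5: the path lemma combined with the refined place count
-/

set_option autoImplicit false

namespace MP2619.Q5

open scoped NNReal
open IntermediateField MP2619.R MP2619.N Pool.Agent.Lib.MP_2619d0_ag Pool.Agent.Lib.MP_2619d0_ag.T

variable {n : ℕ} {F : MvPolynomial (Fin n) ℂ} {J : Type} {z : Exp3 n ⊕ J → ℂ} {A : Type}
  [Field A] [CharZero A] [Algebra ℂ A] {u l : Fin n → A}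

/-- PATH LEMMA + LEX. -/
theorem lex (h : Ctx F z u l) (v2 : Valuation ℚ ℝ≥0) (h2 : IsTwo v2) (V : Valuation A ℝ≥0)
    (hV : IsWt v2 V (zeta z u l) (fun _ => 1)) (k1 : IntermediateField (Qz z) ℂ) (w : k1)
    {M1 : Type} [Field M1] [Algebra k1 M1] (x y : Fin n → M1) (hD : Dat F z k1 w x y)
    (γ : Fin n → ZMod 3) {B : Type} [Field B] [Algebra B k1] [Algebra B M1] [Algebra B A]
    [IsScalarTower B k1 M1] [IsScalarTower B k1 A] (e : k1) (j : J) (hB : BE z k1 B e j) (wB : B)
    (hw : algebraMap B k1 wB = w) :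
    ∃ S : Finset (ValuationSubring M1),
      (∀ P ∈ S, EP B (algebraMap k1 M1 e) x y P) ∧
      (∀ P, EP B (algebraMap k1 M1 e) x y P → P ∉ S → gr V wB u x y P γ = 0) ∧
      Even (gc V w u x y γ +
        ∑ P ∈ S, (ord P (algebraMap k1 M1 e)).toNat * gr V wB u x y P γ) := by
  have hcl : IsAlgClosed A := h.closed
  have hcB : CharZero B := (algebraMap B k1).charZero
  have hu : AlgebraicIndependent k1 u := by
    have h1 : AlgebraicIndependent ℂ u := by
      have h2 := h.ind.comp Sum.inl Sum.inl_injective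
      exact h2
    exact h1.restrictScalars (algebraMap k1 ℂ).injective
  have hk : ∀ a : k1, algebraMap k1 A a = algebraMap ℂ A (a : ℂ) := fun a => rfl
  have heA : algebraMap k1 A e = algebraMap ℂ A (z (Sum.inr j)) ∨
      algebraMap k1 A e = (algebraMap ℂ A (z (Sum.inr j)))⁻¹ := by
    rw [hk]
    rcases hB.par with h1 | h1
    · exact Or.inl (by rw [h1])
    · exact Or.inr (by rw [h1, map_inv₀])
  obtain ⟨ht, halg⟩ := e0_trans h j _ heA
  have he0 : algebraMap k1 A e ≠ 0 := by
    intro h0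
    rw [h0] at ht
    exact ht isAlgebraic_zero
  obtain ⟨W, hW1, hW2, hG⟩ := e0_adic h j _ heA
  have hE0 : IsAlgClosed (E0 z u l j) := e0_closed h j
  obtain ⟨lam, hS⟩ := exists_sp (E := E0 z u l j) (algebraMap k1 A e) he0 halg W hW1 hW2
  obtain ⟨hm1, -, hm3⟩ := e0_mem h j
  have hS1 : Sp (adjoin B (Set.range u)) W (algebraMap k1 A e) lam := by
    refine hS.restrict fun b => ?_
    have hle : adjoin B (Set.range u) ≤
        { (E0 z u l j).toSubfield with
          algebraMap_mem' := fun b => by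
            have h1 := hm3 _ (hB.alg b)
            rw [IsScalarTower.algebraMap_apply B k1 A]
            exact h1 } := by
      rw [adjoin_le_iff]
      rintro _ ⟨i, rfl⟩
      exact hm1 i
    exact ⟨⟨b.1, hle b.2⟩, rfl⟩
  obtain ⟨S, s1, s2, s3⟩ := sum_places e hB.gen u hu W lam hS1 hD.fg w wB hw x y γ V
  refine ⟨S, s1, s2, ?_⟩
  rw [← s3]
  exact path_count h v2 h2 V hV k1 w x y hD γ e j hB W lam hS hG

end MP2619.Q5
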