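import Pool.Agent.Lib.MP_2619d0_ag.Q5.MDefs
import Pool.Agent.Lib.MP_2619d0_ag.Q5.L1c

/-!
`pr_descend` is in L1c.
-/
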