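import Pool.Agent.Lib.MP_2619d0_ag.Q5.M10
import Pool.Agent.Lib.MP_2619d0_ag.Q5.M11

/-!
Row 2619q5-M12a: odd degree over B
-/

set_option autoImplicit false

namespace MP2619.Q5

open scoped NNReal
open IntermediateField MP2619.R MP2619.N Pool.Agent.Lib.MP_2619d0_ag Pool.Agent.Lib.MP_2619d0_ag.T

private theorem M12a_transfer {k : Type} {M1 : Type} {M2 : Type} [Field k] [Field M1] [Field M2]
    [Algebra k M1] [Algebra k M2] (e : M2 ≃ₐ[k] M1) {n : ℕ} (u : Fin n → M2) (h : Pr k u) :
    Pr k (fun i => e (u i)) := by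
  refine ⟨?_, ?_⟩
  · exact AlgebraicIndependent.map' h.1 (f := (e : M2 →ₐ[k] M1)) e.injective
  · have h1 : (adjoin k (Set.range u)).map (e : M2 →ₐ[k] M1) =
        adjoin k (Set.range (fun i => e (u i))) := by
      rw [adjoin_map]
      congr 1
      ext y
      simp
    have h2 : Module.finrank (adjoin k (Set.range u)) M2 =
        Module.finrank ((adjoin k (Set.range u)).map (e : M2 →ₐ[k] M1)) M1 := by
      refine Algebra.finrank_eq_of_equiv_equiv
        (((adjoin k (Set.range u)).equivMap (e : M2 →ₐ[k] M1)) : _ ≃+* _) (e : M2 ≃+* M1) ?_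
      ext x
      rfl
    rw [← h1, ← h2]
    exact h.2

private theorem M12a_mem {B M : Type} [Field B] [Field M] [Algebra B M] {n : ℕ} (v : Fin n → M)
    (P : MvPolynomial (Fin n) B) : MvPolynomial.aeval v P ∈ adjoin B (Set.range v) := by
  apply algebra_adjoin_le_adjoin
  rw [Algebra.adjoin_range_eq_range_aeval]
  exact ⟨P, rfl⟩

private theorem M12a_core {B Ω M : Type} [Field B] [Field Ω] [Field M] [Algebra B Ω]
    [Algebra B M] (P : Fin 6 → MvPolynomial (Fin 6) B) (v' : Fin 6 → Ω)
    (hv' : AlgebraicIndependent B v') (v : Fin 6 → M) (hv : AlgebraicIndependent B v)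
    (h : Pr B (fun i => (⟨MvPolynomial.aeval v' (P i), M12a_mem v' (P i)⟩ :
      adjoin B (Set.range v')))) :
    Pr B (fun i => (⟨MvPolynomial.aeval v (P i), M12a_mem v (P i)⟩ : adjoin B (Set.range v))) := by
  have h1 := M12a_transfer (hv'.aevalEquivField.symm.trans hv.aevalEquivField) _ h
  have h2 : (fun i => (hv'.aevalEquivField.symm.trans hv.aevalEquivField)
      (⟨MvPolynomial.aeval v' (P i), M12a_mem v' (P i)⟩ : adjoin B (Set.range v'))) =
      fun i => (⟨MvPolynomial.aeval v (P i), M12a_mem v (P i)⟩ : adjoin B (Set.range v)) := by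
    funext i
    have h3 : (⟨MvPolynomial.aeval v' (P i), M12a_mem v' (P i)⟩ : adjoin B (Set.range v')) =
        hv'.aevalEquivField (algebraMap _ _ (P i)) := by
      apply Subtype.ext
      rw [hv'.aevalEquivField_algebraMap_apply_coe]
    rw [h3, AlgEquiv.trans_apply, AlgEquiv.symm_apply_apply]
    apply Subtype.ext
    rw [hv.aevalEquivField_algebraMap_apply_coe]
  rw [h2] at h1
  exact h1

private theorem M12a_Om : ∃ (Ω : Type) (_ : Field Ω) (_ : Algebra ℂ Ω) (v : Fin 6 → Ω),
    AlgebraicIndependent ℂ v ∧ adjoin ℂ (Set.range v) = ⊤ := by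
  refine ⟨FractionRing (MvPolynomial (Fin 6) ℂ), inferInstance, inferInstance,
    fun i => algebraMap (MvPolynomial (Fin 6) ℂ) (FractionRing (MvPolynomial (Fin 6) ℂ))
      (MvPolynomial.X i), ?_, ?_⟩
  · exact (MvPolynomial.algebraicIndependent_X (Fin 6) ℂ).map'
      (f := IsScalarTower.toAlgHom ℂ (MvPolynomial (Fin 6) ℂ)
        (FractionRing (MvPolynomial (Fin 6) ℂ)))
      (IsFractionRing.injective (MvPolynomial (Fin 6) ℂ) (FractionRing (MvPolynomial (Fin 6) ℂ)))
  · rw [eq_top_iff]
    intro x _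
    have hpoly : ∀ p : MvPolynomial (Fin 6) ℂ,
        algebraMap _ (FractionRing (MvPolynomial (Fin 6) ℂ)) p ∈
        adjoin ℂ (Set.range fun i : Fin 6 =>
          algebraMap (MvPolynomial (Fin 6) ℂ) (FractionRing (MvPolynomial (Fin 6) ℂ))
            (MvPolynomial.X i)) := by
      intro p
      have h1 := M12a_mem (fun i : Fin 6 =>
          algebraMap (MvPolynomial (Fin 6) ℂ) (FractionRing (MvPolynomial (Fin 6) ℂ))
            (MvPolynomial.X i)) p
      have h2 : MvPolynomial.aeval (fun i : Fin 6 =>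
          algebraMap (MvPolynomial (Fin 6) ℂ) (FractionRing (MvPolynomial (Fin 6) ℂ))
            (MvPolynomial.X i)) p =
          algebraMap _ (FractionRing (MvPolynomial (Fin 6) ℂ)) p := by
        have h3 := MvPolynomial.comp_aeval_apply (R := ℂ)
          (MvPolynomial.X : Fin 6 → MvPolynomial (Fin 6) ℂ)
          (IsScalarTower.toAlgHom ℂ (MvPolynomial (Fin 6) ℂ)
            (FractionRing (MvPolynomial (Fin 6) ℂ))) p
        rw [MvPolynomial.aeval_X_left, AlgHom.id_apply] at h3
        exact h3.symm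
      rw [h2] at h1
      exact h1
    obtain ⟨p, q, _, rfl⟩ := IsFractionRing.div_surjective (A := MvPolynomial (Fin 6) ℂ) x
    exact div_mem (hpoly p) (hpoly q)

/-- the components of the vector as polynomials -/
private theorem M12a_P {k0 B : Type} [Field k0] [Field B] [Algebra k0 B]
    (f : MvPolynomial (Fin 5) k0) (G : Fin 5 → Fin 5 → B) (c : B) :
    ∃ P : MvPolynomial (Fin 6) B, ∀ (N : Type) [Field N] [Algebra B N] [Algebra k0 N]
      [IsScalarTower k0 B N] (v : Fin 6 → N), MvPolynomial.aeval v P =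
        algebraMap B N c * (v 0 * MvPolynomial.aeval
          (pt G (Fin.cons 1 (fun j : Fin 4 => v j.succ.succ) : Fin 5 → N)) f) +
        v 1 * MvPolynomial.aeval (pt G (Fin.cons 1 (fun j : Fin 4 => v j.succ.succ) : Fin 5 → N)) f := by
  let q : Fin 5 → MvPolynomial (Fin 6) B := fun a =>
    ∑ j, MvPolynomial.C (G a j) * (Fin.cons 1 (fun l : Fin 4 => MvPolynomial.X l.succ.succ) :
      Fin 5 → MvPolynomial (Fin 6) B) j
  refine ⟨MvPolynomial.C c * (MvPolynomial.X 0 * MvPolynomial.aeval q f) +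
    MvPolynomial.X 1 * MvPolynomial.aeval q f, ?_⟩
  intro N _ _ _ _ s
  have hev : MvPolynomial.aeval s (MvPolynomial.aeval q f) =
      MvPolynomial.aeval (pt G (Fin.cons 1 (fun j : Fin 4 => s j.succ.succ) : Fin 5 → N)) f := by
    have h1 := MvPolynomial.comp_aeval_apply (R := k0) q
      ((MvPolynomial.aeval s : MvPolynomial (Fin 6) B →ₐ[B] N).restrictScalars k0) f
    rw [AlgHom.restrictScalars_apply] at h1
    rw [h1]
    congr 2
    funext a
    rw [AlgHom.restrictScalars_apply]
    simp only [q, pt, map_sum, map_mul]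
    refine Finset.sum_congr rfl fun j _ => ?_
    rw [MvPolynomial.aeval_C]
    congr 1
    refine Fin.cases ?_ (fun l => ?_) j
    · simp
    · simp
  simp only [map_add, map_mul, hev, MvPolynomial.aeval_C, MvPolynomial.aeval_X]

/-- algebraically independent entries: the determinant is not zero -/
private theorem M12a_det {k C : Type} [Field k] [Field C] [Algebra k C] (G : Fin 5 → Fin 5 → C)
    (hG : AlgebraicIndependent k (fun q : Fin 5 × Fin 5 => G q.1 q.2)) :
    (Matrix.of G).det ≠ 0 := by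
  intro h0
  have h1 := Matrix.det_mvPolynomialX_ne_zero (Fin 5) k
  apply h1
  apply hG
  rw [map_zero]
  have h2 : MvPolynomial.aeval (fun q : Fin 5 × Fin 5 => G q.1 q.2)
      (Matrix.mvPolynomialX (Fin 5) (Fin 5) k).det =
      ((MvPolynomial.aeval (R := k) (fun q : Fin 5 × Fin 5 => G q.1 q.2)).mapMatrix
        (Matrix.mvPolynomialX (Fin 5) (Fin 5) k)).det := AlgHom.map_det _ _
  rw [h2, ← h0]
  congr 1
  ext a b
  simp [Matrix.mvPolynomialX]

variable {k0 C B M : Type} [Field k0] [Field C] [Field B] [Field M] [Algebra k0 C] [Algebra k0 B]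
  [Algebra k0 M] [Algebra C B] [Algebra C M] [Algebra B M] [IsScalarTower k0 C B]
  [IsScalarTower k0 C M] [IsScalarTower k0 B M] [IsScalarTower C B M]

/-- `Ω = FractionRing (MvPolynomial (Fin 6) ℂ)` with its variables `v' = (α', β', t')`: `hPr` for the matrix `G` in `ℂ` (determinant not
zero: the entries are algebraically independent) and `w` in `ℂ`; `pr_descend` gives `Pr B` in `adjoin B (range v') ⊆ Ω`. There is a
`B`-isomorphism from it to `adjoin B (range v) ⊆ M`, `v' ↦ v` (both algebraically independent over `B`: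
`AlgebraicIndependent.aevalEquivField`); it maps `fe` to `fe` (forms with coefficients in `k0`, `fe (map f) = fe f`), so it maps the
vector for `Ω` to `zg w x0 y0`; `Pr` is invariant under isomorphisms (`A4_transfer` in N/A4.lean, private: copy it). -/
theorem pr_E [Algebra B ℂ] (f : Fin 6 → MvPolynomial (Fin 5) k0)
    (hPr : PrAll fun i => MvPolynomial.map ((algebraMap B ℂ).comp (algebraMap k0 B)) (f i))
    (G : Fin 5 → Fin 5 → C) (hG : AlgebraicIndependent k0 (fun q : Fin 5 × Fin 5 => G q.1 q.2))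
    (w : B) (hw : w ^ 2 + w + 1 = 0) (t : Fin 4 → M) (α β : M)
    (hv : AlgebraicIndependent B (Fin.cons α (Fin.cons β t) : Fin 6 → M)) (a : Fin 6)
    (x0 y0 : Fin 6 → adjoin B (Set.range (Fin.cons α (Fin.cons β t) : Fin 6 → M)))
    (hx0 : ∀ i, (x0 i : M) = α * fe f (pA G t 0) i)
    (hy0 : ∀ i, (y0 i : M) = β * fe f (pA G t 0) i) : Pr B (zg w x0 y0 (Pi.single a 1)) := by
  classical
  obtain ⟨Ω, iF, iA, v', hv', hgen⟩ := M12a_Om
  let _ : Algebra B Ω := ((algebraMap ℂ Ω).comp (algebraMap B ℂ)).toAlgebra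
  let _ : Algebra k0 Ω := ((algebraMap B Ω).comp (algebraMap k0 B)).toAlgebra
  have iT1 : IsScalarTower B ℂ Ω := IsScalarTower.of_algebraMap_eq fun _ => rfl
  have iT2 : IsScalarTower k0 B Ω := IsScalarTower.of_algebraMap_eq fun _ => rfl
  have hcons : (Fin.cons (v' 0) (Fin.cons (v' 1) (fun j : Fin 4 => v' j.succ.succ)) :
      Fin 6 → Ω) = v' := by
    funext i
    refine Fin.cases rfl (fun i => ?_) i
    refine Fin.cases rfl (fun i => ?_) i
    rfl
  have hdet : (Matrix.of fun i j => algebraMap B ℂ (algebraMap C B (G i j))).det ≠ 0 := by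
    have h1 : (Matrix.of fun i j => algebraMap B ℂ (algebraMap C B (G i j))) =
        ((algebraMap B ℂ).comp (algebraMap C B)).mapMatrix (Matrix.of G) := rfl
    rw [h1, ← RingHom.map_det]
    exact (map_ne_zero _).2 (M12a_det G hG)
  have hw' : (algebraMap B ℂ w) ^ 2 + algebraMap B ℂ w + 1 = 0 := by
    have h1 := congrArg (algebraMap B ℂ) hw
    simpa using h1
  have h1 := hPr Ω (fun j => v' j.succ.succ) (v' 0) (v' 1) (by rw [hcons]; exact hv')
    (by rw [hcons]; exact hgen) (fun i j => algebraMap B ℂ (algebraMap C B (G i j))) hdet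
    (algebraMap B ℂ w) hw' a
  choose P hP using fun i : Fin 6 => M12a_P (f i) (fun i j => algebraMap C B (G i j))
    (w ^ ((Pi.single a 1 : Fin 6 → ZMod 3) i).val)
  obtain ⟨ζ, hζ⟩ : ∃ ζ, ζ = zg (algebraMap B ℂ w)
      (fun i => v' 0 * fe (fun i => MvPolynomial.map ((algebraMap B ℂ).comp (algebraMap k0 B)) (f i))
        (pt (fun i j => algebraMap B ℂ (algebraMap C B (G i j)))
          (Fin.cons 1 (fun j : Fin 4 => v' j.succ.succ))) i)
      (fun i => v' 1 * fe (fun i => MvPolynomial.map ((algebraMap B ℂ).comp (algebraMap k0 B)) (f i))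
        (pt (fun i j => algebraMap B ℂ (algebraMap C B (G i j)))
          (Fin.cons 1 (fun j : Fin 4 => v' j.succ.succ))) i) (Pi.single a 1) := ⟨_, rfl⟩
  rw [← hζ] at h1
  have hfe : ∀ i, fe (fun i => MvPolynomial.map ((algebraMap B ℂ).comp (algebraMap k0 B)) (f i))
        (pt (fun i j => algebraMap B ℂ (algebraMap C B (G i j)))
          (Fin.cons 1 (fun j : Fin 4 => v' j.succ.succ))) i =
      MvPolynomial.aeval (pt (fun i j => algebraMap C B (G i j))
        (Fin.cons 1 (fun j : Fin 4 => v' j.succ.succ) : Fin 5 → Ω)) (f i) := by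
    intro i
    unfold fe
    rw [MvPolynomial.aeval_def, MvPolynomial.eval₂_map, MvPolynomial.aeval_def]
    rfl
  have hζP : ∀ i, ζ i = MvPolynomial.aeval v' (P i) := by
    intro i
    rw [hP i Ω v', hζ]
    simp only [zg]
    rw [hfe, ← map_pow]
    rfl
  have h2 := pr_descend (B := B) v' hv' hgen ζ (fun i => by rw [hζP]; exact M12a_mem v' (P i)) h1
  have h3 : Pr B (fun i => (⟨MvPolynomial.aeval v' (P i), M12a_mem v' (P i)⟩ :
      adjoin B (Set.range v'))) := by
    have h4 : (fun i => (⟨MvPolynomial.aeval v' (P i), M12a_mem v' (P i)⟩ :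
        adjoin B (Set.range v'))) = fun i => (⟨ζ i, by rw [hζP]; exact M12a_mem v' (P i)⟩ :
        adjoin B (Set.range v')) := by
      funext i
      exact Subtype.ext (hζP i).symm
    rw [h4]
    exact h2
  have h5 := M12a_core P v' (hv'.restrictScalars (algebraMap B ℂ).injective) _ hv h3
  have h6 : zg w x0 y0 (Pi.single a 1) = fun i =>
      (⟨MvPolynomial.aeval (Fin.cons α (Fin.cons β t) : Fin 6 → M) (P i), M12a_mem _ (P i)⟩ :
        adjoin B (Set.range (Fin.cons α (Fin.cons β t) : Fin 6 → M))) := by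
    funext i
    apply Subtype.ext
    show (algebraMap B M (w ^ ((Pi.single a 1 : Fin 6 → ZMod 3) i).val)) * (x0 i : M) + (y0 i : M) =
      MvPolynomial.aeval (Fin.cons α (Fin.cons β t) : Fin 6 → M) (P i)
    rw [hP i M, hx0, hy0]
    have h7 : pA G t 0 = pt (fun i j => algebraMap C B (G i j)) (Fin.cons 1 t : Fin 5 → M) := by
      funext j
      simp only [pA, zero_mul, add_zero, pt, ← IsScalarTower.algebraMap_apply C B M]
    rw [h7]
    rfl
  rw [h6]
  exact h5

end MP2619.Q5
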