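import Pool.Agent.Lib.MP_2619d0_ag.Q5.Lex
import Pool.Agent.Lib.MP_2619d0_ag.Q5.C11b
import Pool.Agent.Lib.MP_2619d0_ag.Q5.G22

/-!
Row 2619q5-M8a: path B, s to infinity
-/

set_option autoImplicit false

namespace MP2619.Q5

open scoped NNReal
open IntermediateField MP2619.R MP2619.N Pool.Agent.Lib.MP_2619d0_ag Pool.Agent.Lib.MP_2619d0_ag.T

variable {F : MvPolynomial (Fin 6) ℂ} {J : Type} {z : Exp3 6 ⊕ J → ℂ} {A : Type} [Field A]
  [CharZero A] [Algebra ℂ A] {u l : Fin 6 → A} {v2 : Valuation ℚ ℝ≥0} {V : Valuation A ℝ≥0}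

variable {k0 B M : Type} [Field k0] [Field B] [Field M] [Algebra k0 B]
  [Algebra k0 M] [Algebra B M] [IsScalarTower k0 B M]

/-- `lex` with `e = s⁻¹`; at every place of the sum `gr` is even by `pathB_inf` (`exists_RMap`, `RMap.restrict`) and `gr_even_x`,
`gr_even_y`. -/
theorem pathB_even (hR : R2E) (S : St F z u l v2 V) (k1 : IntermediateField (Qz z) ℂ) (w : k1)
    [Algebra B k1] [Algebra B A] [Algebra k1 M] [IsScalarTower B k1 M] [IsScalarTower B k1 A]
    (s : k1) (hs0 : s ≠ 0) (j : J) (hB : BE z k1 B s⁻¹ j) (wB : B) (hw : algebraMap B k1 wB = w)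
    (f : Fin 6 → MvPolynomial (Fin 5) k0) (hd : ∃ d, ∀ i, (f i).IsHomogeneous d)
    (G : Fin 5 → Fin 5 → B) (hG : AlgebraicIndependent k0 (fun q : Fin 5 × Fin 5 => G q.1 q.2))
    (e0 : B) (t : Fin 4 → M) (α β : M) (x y : Fin 6 → M)
    (hx : ∀ i, x i = α * fe f (pt G (Fin.cons 1 t)) i)
    (hy : ∀ i, y i = β * fe f (pB G e0 (algebraMap k1 M s) t) i) (hD : Dat F z k1 w x y)
    (a : Fin 6) : Even (gc V w u x y (Pi.single a 1)) := by
  obtain ⟨d, hd⟩ := hd
  obtain ⟨S0, hS1, _, hev⟩ := lex S.ctx v2 S.two V S.wt k1 w x y hD (Pi.single a 1) s⁻¹ j hB wB hw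
  have hgr : ∀ P ∈ S0, Even (gr V wB u x y P (Pi.single a 1)) := by
    intro P hPS
    have hP := hS1 P hPS
    obtain ⟨N, _, _, φ, hφ⟩ := exists_RMap (B := B) P hP.cst
    let _ : Algebra k0 N := ((algebraMap B N).comp (algebraMap k0 B)).toAlgebra
    have : IsScalarTower k0 B N := IsScalarTower.of_algebraMap_eq (fun _ => rfl)
    have hs1 : algebraMap k1 M s ≠ 0 := by
      rw [Ne, map_eq_zero]
      exact hs0
    have hs2 : P.valuation (algebraMap k1 M s)⁻¹ < 1 := by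
      rw [← map_inv₀]
      exact hP.pos
    rcases pathB_inf f hd G hG (hφ.restrict (k0 := k0)) hφ e0 (algebraMap k1 M s) hs1 hs2 t α β
      (fun i => ⟨x i, hP.x_mem i⟩) (fun i => ⟨y i, hP.y_mem i⟩) hx hy with h | h
    · exact gr_even_x hR S k1 w x y hD s⁻¹ j hB wB hw P hP φ hφ h a
    · exact gr_even_y hR S k1 w x y hD s⁻¹ j hB wB hw P hP φ hφ h a
  have hsum : Even (∑ P ∈ S0, (ord P (algebraMap k1 M s⁻¹)).toNat *
      gr V wB u x y P (Pi.single a 1)) :=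
    Finset.even_sum _ (fun P hP => (hgr P hP).mul_left _)
  exact (Nat.even_add.1 hev).2 hsum

end MP2619.Q5
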