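import Pool.Agent.Lib.MP_2619d0_ag.Q5.Lex
import Pool.Agent.Lib.MP_2619d0_ag.Q5.C7b
import Pool.Agent.Lib.MP_2619d0_ag.Q5.C11b
import Pool.Agent.Lib.MP_2619d0_ag.Q5.G23
import Pool.Agent.Lib.MP_2619d0_ag.Q5.M6a
import Pool.Agent.Lib.MP_2619d0_ag.Q5.M6c

/-!
Row 2619q5-M8b: path B, s to zero
-/

set_option autoImplicit false

namespace MP2619.Q5

open scoped NNReal
open IntermediateField MP2619.R MP2619.N Pool.Agent.Lib.MP_2619d0_ag Pool.Agent.Lib.MP_2619d0_ag.T

variable {F : MvPolynomial (Fin 6) ℂ} {J : Type} {z : Exp3 6 ⊕ J → ℂ} {A : Type} [Field A]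
  [CharZero A] [Algebra ℂ A] {u l : Fin 6 → A} {v2 : Valuation ℚ ℝ≥0} {V : Valuation A ℝ≥0}

variable {k0 B M : Type} [Field k0] [Field B] [Field M] [Algebra k0 B]
  [Algebra k0 M] [Algebra B M] [IsScalarTower k0 B M]

private theorem M8b_trans (S : St F z u l v2 V) (k1 : IntermediateField (Qz z) ℂ) {B' : Type}
    [Field B'] [Algebra B' k1] [Algebra B' A] [IsScalarTower B' k1 A] (e : k1) (j : J)
    (hB : BE z k1 B' e j) : Transcendental B' e := by
  have h1 := BE_trans S k1 e j hB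
  have h3 : Transcendental (adjoin B' (Set.range u)) (algebraMap k1 A e) :=
    Transcendental.of_tower_top (adjoin B' (Set.range u)) h1
  have h2 : Transcendental B' (algebraMap k1 A e) := Transcendental.of_tower_top B' h3
  exact (transcendental_algebraMap_iff (algebraMap k1 A).injective).1 h2

private theorem M8b_indu (S : St F z u l v2 V) (k1 : IntermediateField (Qz z) ℂ) {B' : Type}
    [Field B'] [Algebra B' k1] [Algebra B' A] [IsScalarTower B' k1 A] :
    AlgebraicIndependent B' u := by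
  have h1 : AlgebraicIndependent ℂ u := S.ctx.ind.comp Sum.inl Sum.inl_injective
  have h2 : AlgebraicIndependent k1 u := h1.restrictScalars (algebraMap k1 ℂ).injective
  exact h2.restrictScalars (algebraMap B' k1).injective

private theorem M8b_top {B' M' : Type} [Field B'] [Field M'] [Algebra B' M'] {ι : Type}
    (v' : ι → M') (hv' : ∀ i, v' i ∈ adjoin B' (Set.range v')) :
    adjoin B' (Set.range fun i => (⟨v' i, hv' i⟩ : adjoin B' (Set.range v'))) = ⊤ := by
  refine IntermediateField.lift_injective _ ?_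
  rw [IntermediateField.lift_adjoin, IntermediateField.lift_top]
  congr 1
  ext m
  constructor
  · rintro ⟨_, ⟨i, rfl⟩, rfl⟩
    exact ⟨i, rfl⟩
  · rintro ⟨i, rfl⟩
    exact ⟨_, ⟨i, rfl⟩, rfl⟩

private theorem M8b_fe {k' B' M' : Type} [Field k'] [Field B'] [Field M'] [Algebra k' B']
    [Algebra k' M'] [Algebra B' M'] [IsScalarTower k' B' M'] (E : IntermediateField B' M')
    (f : Fin 6 → MvPolynomial (Fin 5) k') (p : Fin 5 → E) (i : Fin 6) :
    ((fe f p i : E) : M') = fe f (fun j => (p j : M')) i := by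
  have h := MvPolynomial.comp_aeval_apply (R := k') p (E.val.restrictScalars k') (f i)
  exact h

private theorem M8b_pt_mem {B' M' : Type} [Field B'] [Field M'] [Algebra B' M']
    (G' : Fin 5 → Fin 5 → B') (t' : Fin 4 → M') (L : IntermediateField B' M')
    (ht : ∀ i, t' i ∈ L) (j : Fin 5) : pt G' (Fin.cons 1 t' : Fin 5 → M') j ∈ L := by
  unfold pt
  refine sum_mem fun i _ => L.mul_mem (L.algebraMap_mem _) ?_
  refine Fin.cases ?_ (fun i => ?_) i
  · rw [Fin.cons_zero]
    exact L.one_mem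
  · rw [Fin.cons_succ]
    exact ht i

/-- `lex` with `e = s`. At a place `P` with `gr` odd: `zg_ind`, `gr_even_x` (so `F3`), `pathB_zero`: `adjoin B (t, α, β) ⊆ P`, so `P = P0`
(`place0` for `E = adjoin B (range (α, β, t))`, `ind7`, `BE_trans`). At `P0`: `ord = 1`, the residues of `x`, `y` are `x` and
`yA` (as elements of `E`; `pB G e0 s t` has the residue `pA G t e0`), so `gr = gc` over `B` of `(E; x, yA)` (`gr_eq`), which is `gc` over
`k1` of `(M; x, yA)` by `gc_eq_of_RF` with `RF B E k1 M s`. If `P0` is not in the set `S` of `lex` then `gr = 0`. -/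
theorem pathB_zero_end (hR : R2E) (S : St F z u l v2 V) (k1 : IntermediateField (Qz z) ℂ)
    (w : k1) [Algebra B k1] [Algebra B A] [Algebra k1 M] [IsScalarTower B k1 M]
    [IsScalarTower B k1 A] (s : k1) (j : J) (hB : BE z k1 B s j) (wB : B)
    (hw : algebraMap B k1 wB = w) (f : Fin 6 → MvPolynomial (Fin 5) k0)
    (hd : ∃ d, ∀ i, (f i).IsHomogeneous d) (hf : ∃ i, f i ≠ 0) (G : Fin 5 → Fin 5 → B) (e0 : B)
    (hG : AlgebraicIndependent k0 (Sum.elim (fun q : Fin 5 × Fin 5 => G q.1 q.2)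
      (fun _ : Unit => e0))) (t : Fin 4 → M) (α β : M)
    (hv : AlgebraicIndependent k1 (Fin.cons α (Fin.cons β t) : Fin 6 → M))
    (hgen : adjoin k1 (Set.range (Fin.cons α (Fin.cons β t) : Fin 6 → M)) = ⊤)
    (hf0 : fe f (pt G (Fin.cons 1 t : Fin 5 → M)) ≠ 0) (x y yA : Fin 6 → M)
    (hx : ∀ i, x i = α * fe f (pt G (Fin.cons 1 t)) i)
    (hy : ∀ i, y i = β * fe f (pB G e0 (algebraMap k1 M s) t) i)
    (hyA : ∀ i, yA i = β * fe f (pA G t (algebraMap B M e0)) i) (hD : Dat F z k1 w x y)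
    (a : Fin 6) :
    Even (gc V w u x y (Pi.single a 1) + gc V w u x yA (Pi.single a 1)) := by
  classical
  set v : Fin 6 → M := Fin.cons α (Fin.cons β t) with hvdef
  set e : M := algebraMap k1 M s with he
  obtain ⟨d, hd⟩ := hd
  have hs : Transcendental B s := M8b_trans S k1 s j hB
  obtain ⟨-, -, h3, h4, h5⟩ := ind7 s hs hB.gen v hv hgen
  set E : IntermediateField B M := adjoin B (Set.range v) with hE
  have hvE : ∀ i, v i ∈ E := fun i => IntermediateField.subset_adjoin _ _ ⟨i, rfl⟩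
  have hαE : α ∈ E := hvE 0
  have hβE : β ∈ E := hvE 1
  have htE : ∀ i, t i ∈ E := fun i => hvE i.succ.succ
  obtain ⟨P0, φ0, rm, hDV, hord, hval, hres, huniq⟩ := place0 E e h3 h4
  have hE0 : ∀ b ∈ E, b ∈ P0 := fun b hb => (hres ⟨b, hb⟩).choose
  have hφE : ∀ (b : M) (hb : b ∈ E), φ0 ⟨b, hE0 b hb⟩ = ⟨b, hb⟩ :=
    fun b hb => (hres ⟨b, hb⟩).choose_spec
  have heP : e ∈ P0 := (P0.valuation_le_one_iff _).1 hval.le
  have hφe : φ0 ⟨e, heP⟩ = 0 := (rm.zero _).2 hval
  -- the points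
  have hptE : ∀ i, pt G (Fin.cons 1 t : Fin 5 → M) i ∈ E := M8b_pt_mem G t E htE
  have hqE : ∀ i, pA G t (algebraMap B M e0) i ∈ E := by
    intro i
    exact E.add_mem (hptE i) (E.mul_mem (E.algebraMap_mem _) (E.algebraMap_mem _))
  have hrE : ∀ i, algebraMap B M (G i 0) + t 0 * algebraMap B M (G i 1) ∈ E := by
    intro i
    exact E.add_mem (E.algebraMap_mem _) (E.mul_mem (htE 0) (E.algebraMap_mem _))
  have hpB : ∀ i, pB G e0 e t i = pA G t (algebraMap B M e0) i +
      e * (algebraMap B M (G i 0) + t 0 * algebraMap B M (G i 1)) := by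
    intro i
    unfold pB pA
    rw [map_mul]
  have hpBP : ∀ i, pB G e0 e t i ∈ P0 := by
    intro i
    rw [hpB i]
    exact P0.add_mem _ _ (hE0 _ (hqE i)) (P0.mul_mem _ _ heP (hE0 _ (hrE i)))
  have hφpB : ∀ i, φ0 ⟨pB G e0 e t i, hpBP i⟩ = ⟨pA G t (algebraMap B M e0) i, hqE i⟩ := by
    intro i
    have h6 : (⟨pB G e0 e t i, hpBP i⟩ : P0) = ⟨pA G t (algebraMap B M e0) i, hE0 _ (hqE i)⟩ +
        ⟨e, heP⟩ * ⟨algebraMap B M (G i 0) + t 0 * algebraMap B M (G i 1), hE0 _ (hrE i)⟩ :=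
      Subtype.ext (hpB i)
    rw [h6, map_add, map_mul, hφe, zero_mul, add_zero]
    exact hφE _ (hqE i)
  have rm0 : RMap k0 P0 φ0 := rm.restrict
  -- the coordinates in E
  set xE : Fin 6 → E := fun i => ⟨α, hαE⟩ * fe f (fun j => (⟨_, hptE j⟩ : E)) i with hxE
  set yE : Fin 6 → E := fun i => ⟨β, hβE⟩ * fe f (fun j => (⟨_, hqE j⟩ : E)) i with hyE
  have hxE' : ∀ i, (xE i : M) = x i := by
    intro i
    rw [hx i]
    show α * ((fe f (fun j => (⟨_, hptE j⟩ : E)) i : E) : M) = _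
    rw [M8b_fe]
  have hyE' : ∀ i, (yE i : M) = yA i := by
    intro i
    rw [hyA i]
    show β * ((fe f (fun j => (⟨_, hqE j⟩ : E)) i : E) : M) = _
    rw [M8b_fe]
  have hxP : ∀ i, x i ∈ P0 := fun i => by
    rw [← hxE' i]
    exact hE0 _ (xE i).2
  have hyr : ∀ i, ∃ b : P0, (b : M) = y i ∧ φ0 b = yE i := by
    intro i
    obtain ⟨b, hb1, hb2⟩ := fe_res f rm0 (fun j => (⟨pB G e0 e t j, hpBP j⟩ : P0)) i
    refine ⟨⟨β, hE0 _ hβE⟩ * b, ?_, ?_⟩
    · rw [hy i, ← hb1]
      rfl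
    · rw [map_mul, hb2, hφE β hβE]
      show _ * fe f (fun j => φ0 ⟨pB G e0 e t j, hpBP j⟩) i = _
      rw [funext hφpB]
  have hyP : ∀ i, y i ∈ P0 := fun i => by
    obtain ⟨b, hb, -⟩ := hyr i
    rw [← hb]
    exact b.2
  have hEP : EP B e x y P0 := ⟨hDV, rm.cst, hval, hxP, hyP⟩
  -- the number at the main place
  have hφx : (fun i => φ0 ⟨x i, hxP i⟩) = xE := by
    funext i
    have h6 : (⟨x i, hxP i⟩ : P0) = ⟨(xE i : M), hE0 _ (xE i).2⟩ := Subtype.ext (hxE' i).symm
    rw [h6]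
    exact hφE _ (xE i).2
  have hφy : (fun i => φ0 ⟨y i, hyP i⟩) = yE := by
    funext i
    obtain ⟨b, hb1, hb2⟩ := hyr i
    have h6 : (⟨y i, hyP i⟩ : P0) = b := Subtype.ext hb1.symm
    rw [h6, hb2]
  have hRF : RF B E k1 M s := ⟨h3, hB.gen, h4⟩
  have hfg : ∃ z0 : Fin 6 → E, AlgebraicIndependent B z0 ∧
      Module.finrank (adjoin B (Set.range z0)) E ≠ 0 := by
    refine ⟨fun i => ⟨v i, hvE i⟩, AlgebraicIndependent.of_comp E.val h5, ?_⟩
    have h6 := M8b_top (B' := B) v hvE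
    rw [h6, IntermediateField.finrank_top]
    exact one_ne_zero
  have hgr : gr V wB u x y P0 (Pi.single a 1) = gc V w u x yA (Pi.single a 1) := by
    rw [gr_eq V wB u x y P0 φ0 rm hxP hyP, hφx, hφy]
    have h6 := gc_eq_of_RF S k1 w s j hB wB hw hRF hfg xE yE (Pi.single a 1)
    have h7 : (fun i => algebraMap E M (xE i)) = x := funext hxE'
    have h8 : (fun i => algebraMap E M (yE i)) = yA := funext hyE'
    rw [h7, h8] at h6
    exact h6.symm
  -- the other places
  obtain ⟨SS, hS1, hS2, hS3⟩ := lex S.ctx v2 S.two V S.wt k1 w x y hD (Pi.single a 1) s j hB wB hw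
  have hother : ∀ P ∈ SS, P ≠ P0 → Even (gr V wB u x y P (Pi.single a 1)) := by
    intro P hP hne
    by_contra hodd
    have hEP' := hS1 P hP
    obtain ⟨N, _, _, φ, rmB⟩ := exists_RMap (B := B) P hEP'.cst
    letI : Algebra k0 N := ((algebraMap B N).comp (algebraMap k0 B)).toAlgebra
    haveI : IsScalarTower k0 B N := IsScalarTower.of_algebraMap_eq fun _ => rfl
    have h6 : gc V wB u (fun i => φ ⟨x i, hEP'.x_mem i⟩) (fun i => φ ⟨y i, hEP'.y_mem i⟩)
        (Pi.single a 1) ≠ 0 := by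
      rw [← gr_eq V wB u x y P φ rmB hEP'.x_mem hEP'.y_mem]
      intro h7
      apply hodd
      rw [h7]
      exact Even.zero
    have hind := zg_ind V wB u (M8b_indu S k1) _ _ _ h6
    have hF3 : ¬ Algebra.trdeg B (rat B (fun i => φ ⟨x i, hEP'.x_mem i⟩)) ≤ 2 := fun h7 =>
      hodd (gr_even_x hR S k1 w x y hD s j hB wB hw P hEP' φ rmB h7 a)
    have hall := pathB_zero f hd hf G e0 hG rmB.restrict rmB e hEP'.pos t α β
      (fun i => ⟨x i, hEP'.x_mem i⟩) (fun i => ⟨y i, hEP'.y_mem i⟩) hf0 hx hy wB a hind hF3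
    apply hne
    refine huniq P (fun b hb => hall b ?_) hEP'.pos
    have h8 : Set.range v ⊆ Set.range t ∪ {α, β} := by
      rintro _ ⟨i, rfl⟩
      refine Fin.cases ?_ (fun i => Fin.cases ?_ (fun i => ?_) i) i
      · right; left; rfl
      · right; right; rfl
      · left; exact ⟨i, rfl⟩
    exact IntermediateField.adjoin.mono _ _ _ h8 hb
  have hsum : Even (∑ P ∈ SS, (ord P e).toNat * gr V wB u x y P (Pi.single a 1) +
      gr V wB u x y P0 (Pi.single a 1)) := by
    by_cases h0 : P0 ∈ SS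
    · rw [← Finset.add_sum_erase SS _ h0]
      have h6 : Even (∑ P ∈ SS.erase P0, (ord P e).toNat * gr V wB u x y P (Pi.single a 1)) := by
        refine Finset.even_sum _ fun P hP => ?_
        exact (hother P (Finset.mem_of_mem_erase hP) (Finset.ne_of_mem_erase hP)).mul_left _
      have h7 : (ord P0 e).toNat = 1 := by rw [hord]; rfl
      rw [h7, one_mul]
      have h8 : gr V wB u x y P0 (Pi.single a 1) +
          ∑ P ∈ SS.erase P0, (ord P e).toNat * gr V wB u x y P (Pi.single a 1) +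
          gr V wB u x y P0 (Pi.single a 1) =
          (gr V wB u x y P0 (Pi.single a 1) + gr V wB u x y P0 (Pi.single a 1)) +
          ∑ P ∈ SS.erase P0, (ord P e).toNat * gr V wB u x y P (Pi.single a 1) := by ring
      rw [h8]
      exact (Even.add_self _).add h6
    · rw [hS2 P0 hEP h0, add_zero]
      refine Finset.even_sum _ fun P hP => ?_
      have h6 : P ≠ P0 := fun h7 => h0 (h7 ▸ hP)
      exact (hother P hP h6).mul_left _
  rw [← hgr]
  have h9 := hS3.add hsum
  rw [show gc V w u x y (Pi.single a 1) +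
      ∑ P ∈ SS, (ord P (algebraMap k1 M s)).toNat * gr V wB u x y P (Pi.single a 1) +
      (∑ P ∈ SS, (ord P e).toNat * gr V wB u x y P (Pi.single a 1) +
      gr V wB u x y P0 (Pi.single a 1)) =
      (gc V w u x y (Pi.single a 1) + gr V wB u x y P0 (Pi.single a 1)) +
      (∑ P ∈ SS, (ord P e).toNat * gr V wB u x y P (Pi.single a 1) +
      ∑ P ∈ SS, (ord P e).toNat * gr V wB u x y P (Pi.single a 1)) by rw [← he]; ring] at h9
  exact (Nat.even_add.1 h9).2 (Even.add_self _)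

end MP2619.Q5
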