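import Pool.Agent.Lib.MP_2619d0_ag.Q5.M7
import Pool.Agent.Lib.MP_2619d0_ag.Q5.M8a
import Pool.Agent.Lib.MP_2619d0_ag.Q5.M8b
import Pool.Agent.Lib.MP_2619d0_ag.Q5.M12a

/-!
Row 2619q5-M12: the contradiction
-/

set_option autoImplicit false

namespace MP2619.Q5

open scoped NNReal
open IntermediateField MP2619.R MP2619.N Pool.Agent.Lib.MP_2619d0_ag Pool.Agent.Lib.MP_2619d0_ag.T

variable {F : MvPolynomial (Fin 6) ℂ} {J : Type} {z : Exp3 6 ⊕ J → ℂ} {A : Type} [Field A]
  [CharZero A] [Algebra ℂ A] {u l : Fin 6 → A} {v2 : Valuation ℚ ℝ≥0} {V : Valuation A ℝ≥0}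

private theorem M12_frac (k : Type) [Field k] : ∃ (M : Type) (_ : Field M) (_ : Algebra k M)
    (v : Fin 6 → M), AlgebraicIndependent k v ∧ adjoin k (Set.range v) = ⊤ := by
  refine ⟨FractionRing (MvPolynomial (Fin 6) k), inferInstance, inferInstance,
    fun i => algebraMap (MvPolynomial (Fin 6) k) (FractionRing (MvPolynomial (Fin 6) k))
      (MvPolynomial.X i), ?_, ?_⟩
  · have h := (MvPolynomial.algebraicIndependent_X (Fin 6) k).map'
      (f := IsScalarTower.toAlgHom k (MvPolynomial (Fin 6) k)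
        (FractionRing (MvPolynomial (Fin 6) k)))
      (IsFractionRing.injective (MvPolynomial (Fin 6) k)
        (FractionRing (MvPolynomial (Fin 6) k)))
    exact h
  · set v : Fin 6 → FractionRing (MvPolynomial (Fin 6) k) :=
      fun i => algebraMap (MvPolynomial (Fin 6) k) (FractionRing (MvPolynomial (Fin 6) k))
        (MvPolynomial.X i) with hv
    have h1 : ∀ a : MvPolynomial (Fin 6) k,
        algebraMap (MvPolynomial (Fin 6) k) (FractionRing (MvPolynomial (Fin 6) k)) a ∈
          adjoin k (Set.range v) := by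
      intro a
      induction a using MvPolynomial.induction_on with
      | C c =>
        have h2 : algebraMap (MvPolynomial (Fin 6) k) (FractionRing (MvPolynomial (Fin 6) k))
            (MvPolynomial.C c) = algebraMap k _ c := by
          rw [IsScalarTower.algebraMap_apply k (MvPolynomial (Fin 6) k)
            (FractionRing (MvPolynomial (Fin 6) k))]
          rfl
        rw [h2]
        exact IntermediateField.algebraMap_mem _ _
      | add p q hp hq => rw [map_add]; exact add_mem hp hq
      | mul_X p i hp =>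
        rw [map_mul]
        exact mul_mem hp (subset_adjoin _ _ ⟨i, rfl⟩)
    refine eq_top_iff.2 fun x _ => ?_
    obtain ⟨a, b, _, rfl⟩ := IsFractionRing.div_surjective (A := MvPolynomial (Fin 6) k) x
    exact div_mem (h1 a) (h1 b)

/-- `M` = a field with `v = (α, β, t)` algebraically independent over `k1` and generating (`FractionRing (MvPolynomial (Fin 6) k1)`);
take it as an unspecified type (`obtain`), with the algebra structures over `k0, C, Be, Bs` given by composition through `k1`,
and over `A` and `ℂ` too. `x = α f(pA G t 0)`, `yA = β f(pA G t ε)`, `yB = β f(pB Gs es σ t)`; `Dat` for `(x, yA)` and `(x, yB)` by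
`dat_path`, `eq_fe`; `fe_ne`. `pathB_even` (`hBs'`) and `pathB_zero_end` (`hBs`): `gc V w u x yA` is even. `pathA` (`hBe`) with `hodd` from
`main_odd` (`X i = f(pA G t 0) i`, `α`, `β` as elements of the adjoin) and `pr_E`: it is odd. -/
theorem q5_abs (hR : R2E) (S : St F z u l v2 V) (k1 : IntermediateField (Qz z) ℂ)
    (hk1 : FiniteDimensional (Qz z) k1) {k0 C Be Bs : Type} [Field k0] [Field C] [Field Be]
    [Field Bs] [Algebra k0 C] [Algebra k0 Be] [Algebra k0 Bs] [Algebra C Be] [Algebra k0 k1]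
    [Algebra C k1] [Algebra Be k1] [Algebra Bs k1] [IsScalarTower k0 C Be]
    [IsScalarTower k0 C k1] [IsScalarTower k0 Be k1] [IsScalarTower k0 Bs k1]
    [IsScalarTower C Be k1] (w0 : k0) (hw : w0 ^ 2 + w0 + 1 = 0)
    (f : Fin 6 → MvPolynomial (Fin 5) k0) {d : ℕ} (hd : ∀ i, (f i).IsHomogeneous d)
    (hf : ∃ i, f i ≠ 0) (hm : Mult2 f) (F0 : MvPolynomial (Fin 6) k0)
    (hF0 : MvPolynomial.map ((algebraMap k1 ℂ).comp (algebraMap k0 k1)) F0 = F)
    (h0 : MvPolynomial.aeval f F0 = 0) (je js : J) (ε s : k1) (hBe : BE z k1 Be ε je)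
    (hBs : BE z k1 Bs s js) (hBs' : BE z k1 Bs s⁻¹ js) (hs0 : s ≠ 0) (G : Fin 5 → Fin 5 → C)
    (Gs : Fin 5 → Fin 5 → Bs) (hGs : ∀ i j, algebraMap Bs k1 (Gs i j) = algebraMap C k1 (G i j))
    (es : Bs) (hes : algebraMap Bs k1 es = ε)
    (hG : AlgebraicIndependent k0 (fun q : Fin 5 × Fin 5 => G q.1 q.2))
    (hGse : AlgebraicIndependent k0 (Sum.elim (fun q : Fin 5 × Fin 5 => Gs q.1 q.2)
      (fun _ : Unit => es))) (h : Fin 2 → Be) (hh : AlgebraicIndependent C h)
    (hPr : PrAll fun i => MvPolynomial.map ((algebraMap k1 ℂ).comp (algebraMap k0 k1)) (f i)) :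
    False := by
  obtain ⟨M, iF, iA, v, hv, hgen⟩ := M12_frac k1
  -- algebra structures
  let _ : Algebra k0 M := ((algebraMap k1 M).comp (algebraMap k0 k1)).toAlgebra
  let _ : Algebra C M := ((algebraMap k1 M).comp (algebraMap C k1)).toAlgebra
  let _ : Algebra Be M := ((algebraMap k1 M).comp (algebraMap Be k1)).toAlgebra
  let _ : Algebra Bs M := ((algebraMap k1 M).comp (algebraMap Bs k1)).toAlgebra
  let _ : Algebra Be A := ((algebraMap k1 A).comp (algebraMap Be k1)).toAlgebra
  let _ : Algebra Bs A := ((algebraMap k1 A).comp (algebraMap Bs k1)).toAlgebra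
  let _ : Algebra Be ℂ := ((algebraMap k1 ℂ).comp (algebraMap Be k1)).toAlgebra
  have t1 : IsScalarTower k0 k1 M := IsScalarTower.of_algebraMap_eq fun _ => rfl
  have t2 : IsScalarTower C k1 M := IsScalarTower.of_algebraMap_eq fun _ => rfl
  have t3 : IsScalarTower Be k1 M := IsScalarTower.of_algebraMap_eq fun _ => rfl
  have t4 : IsScalarTower Bs k1 M := IsScalarTower.of_algebraMap_eq fun _ => rfl
  have t5 : IsScalarTower Be k1 A := IsScalarTower.of_algebraMap_eq fun _ => rfl
  have t6 : IsScalarTower Bs k1 A := IsScalarTower.of_algebraMap_eq fun _ => rfl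
  have t7 : IsScalarTower k0 C M := IsScalarTower.of_algebraMap_eq fun c => by
    show algebraMap k1 M (algebraMap k0 k1 c) = algebraMap k1 M (algebraMap C k1 (algebraMap k0 C c))
    rw [← IsScalarTower.algebraMap_apply k0 C k1]
  have t8 : IsScalarTower k0 Be M := IsScalarTower.of_algebraMap_eq fun c => by
    show algebraMap k1 M (algebraMap k0 k1 c) =
      algebraMap k1 M (algebraMap Be k1 (algebraMap k0 Be c))
    rw [← IsScalarTower.algebraMap_apply k0 Be k1]
  have t9 : IsScalarTower k0 Bs M := IsScalarTower.of_algebraMap_eq fun c => by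
    show algebraMap k1 M (algebraMap k0 k1 c) =
      algebraMap k1 M (algebraMap Bs k1 (algebraMap k0 Bs c))
    rw [← IsScalarTower.algebraMap_apply k0 Bs k1]
  have t10 : IsScalarTower C Be M := IsScalarTower.of_algebraMap_eq fun c => by
    show algebraMap k1 M (algebraMap C k1 c) = algebraMap k1 M (algebraMap Be k1 (algebraMap C Be c))
    rw [← IsScalarTower.algebraMap_apply C Be k1]
  -- the generators
  obtain ⟨α, hα⟩ : ∃ α : M, α = v 0 := ⟨_, rfl⟩
  obtain ⟨β, hβ⟩ : ∃ β : M, β = v 1 := ⟨_, rfl⟩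
  obtain ⟨t, ht⟩ : ∃ t : Fin 4 → M, t = fun j => v j.succ.succ := ⟨_, rfl⟩
  have hcons : (Fin.cons α (Fin.cons β t) : Fin 6 → M) = v := by
    rw [hα, hβ, ht]
    funext i
    refine Fin.cases rfl (fun i => ?_) i
    refine Fin.cases rfl (fun i => ?_) i
    rfl
  have hv' := hv
  have hgen' := hgen
  rw [← hcons] at hv' hgen'
  have htk : AlgebraicIndependent k1 t := by
    have h1 := hv.comp (fun j : Fin 4 => j.succ.succ)
      (fun a b hab => Fin.succ_injective _ (Fin.succ_injective _ hab))
    rw [ht]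
    exact h1
  have htC : AlgebraicIndependent C t := htk.restrictScalars (algebraMap C k1).injective
  have hvBe : AlgebraicIndependent Be (Fin.cons α (Fin.cons β t) : Fin 6 → M) :=
    hv'.restrictScalars (algebraMap Be k1).injective
  -- the root of unity
  obtain ⟨w, hww⟩ : ∃ w : k1, w = algebraMap k0 k1 w0 := ⟨_, rfl⟩
  have hwk : w ^ 2 + w + 1 = 0 := by
    have h1 := congrArg (algebraMap k0 k1) hw
    rw [map_add, map_add, map_pow, map_one, map_zero, ← hww] at h1
    exact h1
  have hwBe : algebraMap Be k1 (algebraMap k0 Be w0) = w := by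
    rw [← IsScalarTower.algebraMap_apply, hww]
  have hwBs : algebraMap Bs k1 (algebraMap k0 Bs w0) = w := by
    rw [← IsScalarTower.algebraMap_apply, hww]
  have hwBe2 : (algebraMap k0 Be w0) ^ 2 + algebraMap k0 Be w0 + 1 = 0 := by
    have h1 := congrArg (algebraMap k0 Be) hw
    rw [map_add, map_add, map_pow, map_one, map_zero] at h1
    exact h1
  -- the form
  have hinj : Function.Injective ((algebraMap k1 ℂ).comp (algebraMap k0 k1)) :=
    RingHom.injective _
  have h3 : F0.IsHomogeneous 3 := by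
    intro m hm0
    refine S.ctx.hom ?_
    rw [← hF0, MvPolynomial.coeff_map]
    exact fun h1 => hm0 (hinj (h1.trans (map_zero _).symm))
  -- the points
  have hpt : pt Gs (Fin.cons 1 t : Fin 5 → M) = pA G t 0 := by
    funext i
    simp only [pA, pt, zero_mul, add_zero]
    refine Finset.sum_congr rfl fun j _ => ?_
    congr 1
    show algebraMap k1 M (algebraMap Bs k1 (Gs i j)) = algebraMap k1 M (algebraMap C k1 (G i j))
    rw [hGs]
  have hpA : pA Gs t (algebraMap Bs M es) = pA G t (algebraMap k1 M ε) := by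
    have h1 : algebraMap Bs M es = algebraMap k1 M ε := by
      show algebraMap k1 M (algebraMap Bs k1 es) = _
      rw [hes]
    have h2 : ∀ i j, algebraMap Bs M (Gs i j) = algebraMap C M (G i j) := by
      intro i j
      show algebraMap k1 M (algebraMap Bs k1 (Gs i j)) = algebraMap k1 M (algebraMap C k1 (G i j))
      rw [hGs]
    funext i
    simp only [pA, pt, h1, h2]
  have hptG : pt G (Fin.cons 1 t : Fin 5 → M) = pA G t 0 := by
    funext i
    simp only [pA, zero_mul, add_zero]
  have hf0 : fe f (pA G t 0) ≠ 0 := by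
    rw [← hptG]
    exact fe_ne f hd hf G hG t htC
  let x : Fin 6 → M := fun i => α * fe f (pA G t 0) i
  let yA : Fin 6 → M := fun i => β * fe f (pA G t (algebraMap k1 M ε)) i
  let yB : Fin 6 → M := fun i => β * fe f (pB Gs es (algebraMap k1 M s) t) i
  have hDA : Dat F z k1 w x yA := dat_path k1 hk1 w hwk F0 hF0 v hv hgen x yA
    (eq_fe F0 h3 f h0 _ _) (eq_fe F0 h3 f h0 _ _)
  have hDB : Dat F z k1 w x yB := dat_path k1 hk1 w hwk F0 hF0 v hv hgen x yB
    (eq_fe F0 h3 f h0 _ _) (eq_fe F0 h3 f h0 _ _)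
  have hGsi : AlgebraicIndependent k0 (fun q : Fin 5 × Fin 5 => Gs q.1 q.2) :=
    hGse.comp Sum.inl Sum.inl_injective
  have hxB : ∀ i, x i = α * fe f (pt Gs (Fin.cons 1 t)) i := by
    intro i
    rw [hpt]
  -- path B
  have e1 : Even (gc V w u x yB (Pi.single 0 1)) :=
    pathB_even hR S k1 w s hs0 js hBs' (algebraMap k0 Bs w0) hwBs f ⟨d, hd⟩ Gs hGsi es t α β x yB
      hxB (fun _ => rfl) hDB 0
  have e2 : Even (gc V w u x yB (Pi.single 0 1) + gc V w u x yA (Pi.single 0 1)) :=
    pathB_zero_end hR S k1 w s js hBs (algebraMap k0 Bs w0) hwBs f ⟨d, hd⟩ hf Gs es hGse t α β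
      hv' hgen' (by rw [hpt]; exact hf0) x yB yA hxB (fun _ => rfl)
      (fun i => by rw [hpA]) hDB 0
  have e3 : Even (gc V w u x yA (Pi.single 0 1)) := (Nat.even_add.1 e2).1 e1
  -- path A
  have e4 : Odd (gc V w u x yA (Pi.single 0 1)) := by
    refine pathA hR S k1 w ε je hBe (algebraMap k0 Be w0) hwBe f ⟨d, hd⟩ hm G hG h hh t α β
      hv' hgen' hf0 x yA (fun _ => rfl) (fun _ => rfl) hDA 0 (fun x0 y0 hx0 hy0 => ?_)
    have hαm : α ∈ adjoin Be (Set.range (Fin.cons α (Fin.cons β t) : Fin 6 → M)) :=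
      subset_adjoin _ _ ⟨0, rfl⟩
    have hβm : β ∈ adjoin Be (Set.range (Fin.cons α (Fin.cons β t) : Fin 6 → M)) :=
      subset_adjoin _ _ ⟨1, rfl⟩
    have htm : ∀ j, t j ∈ adjoin Be (Set.range (Fin.cons α (Fin.cons β t) : Fin 6 → M)) :=
      fun j => subset_adjoin _ _ ⟨j.succ.succ, rfl⟩
    have hpm : ∀ j, pA G t 0 j ∈
        adjoin Be (Set.range (Fin.cons α (Fin.cons β t) : Fin 6 → M)) := by
      intro j
      rw [← hptG]
      refine sum_mem fun q _ => mul_mem ?_ ?_
      · rw [IsScalarTower.algebraMap_apply C Be M]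
        exact IntermediateField.algebraMap_mem _ _
      · refine Fin.cases ?_ (fun q => ?_) q
        · exact one_mem _
        · exact htm q
    have hXm : ∀ i, fe f (pA G t 0) i ∈
        adjoin Be (Set.range (Fin.cons α (Fin.cons β t) : Fin 6 → M)) := fun i =>
      fe_mem f ((adjoin Be (Set.range (Fin.cons α (Fin.cons β t) : Fin 6 → M))).restrictScalars k0)
        _ hpm i
    obtain ⟨X, hX⟩ : ∃ X : Fin 6 → adjoin Be (Set.range (Fin.cons α (Fin.cons β t) : Fin 6 → M)),
        ∀ i, (X i : M) = fe f (pA G t 0) i := ⟨fun i => ⟨_, hXm i⟩, fun _ => rfl⟩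
    have hx0' : x0 = fun i => (⟨α, hαm⟩ : adjoin Be _) * X i := by
      funext i
      apply Subtype.ext
      rw [hx0 i]
      show _ = α * (X i : M)
      rw [hX i]
    have hy0' : y0 = fun i => (⟨β, hβm⟩ : adjoin Be _) * X i := by
      funext i
      apply Subtype.ext
      rw [hy0 i]
      show _ = β * (X i : M)
      rw [hX i]
    have hcomp : (algebraMap Be ℂ).comp (algebraMap k0 Be) =
        (algebraMap k1 ℂ).comp (algebraMap k0 k1) := by
      ext c
      show algebraMap k1 ℂ (algebraMap Be k1 (algebraMap k0 Be c)) =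
        algebraMap k1 ℂ (algebraMap k0 k1 c)
      rw [← IsScalarTower.algebraMap_apply k0 Be k1]
    have hp := pr_E f (by rw [hcomp]; exact hPr) G hG (algebraMap k0 Be w0) hwBe2 t α β hvBe 0
      x0 y0 hx0 hy0
    rw [hx0', hy0'] at hp ⊢
    refine main_odd S k1 (algebraMap k0 Be w0) hwBe2 X _ _
      (MvPolynomial.map (algebraMap k0 Be) F0) ?_ ?_ 0 hp
    · rw [MvPolynomial.map_map, ← hF0]
      exact congrArg (fun q => MvPolynomial.map q F0) hcomp
    · apply Subtype.ext
      have h5 := eq_fe F0 h3 f h0 (pA G t (0 : M)) 1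
      have h6 : (fun i => (1 : M) * fe f (pA G t 0) i) = fun i => (X i : M) := by
        funext i
        rw [one_mul, hX i]
      rw [h6] at h5
      have h7 : ((MvPolynomial.aeval X (MvPolynomial.map (algebraMap k0 Be) F0) :
          adjoin Be (Set.range (Fin.cons α (Fin.cons β t) : Fin 6 → M))) : M) =
          MvPolynomial.aeval (fun i => (X i : M)) (MvPolynomial.map (algebraMap k0 Be) F0) :=
        MvPolynomial.comp_aeval_apply X
          (adjoin Be (Set.range (Fin.cons α (Fin.cons β t) : Fin 6 → M))).val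
          (MvPolynomial.map (algebraMap k0 Be) F0)
      rw [h7, MvPolynomial.aeval_map_algebraMap, h5]
      rfl
  exact (Nat.not_even_iff_odd.2 e4) e3

end MP2619.Q5
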