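import Pool.Agent.Lib.MP_2619d0_ag.Q5.M9
import Pool.Agent.Lib.MP_2619d0_ag.Q5.M9b
import Pool.Agent.Lib.MP_2619d0_ag.Q5.M12

/-!
Row 2619q5-M13: the theorem for multiplicities at most two
-/

set_option autoImplicit false

namespace MP2619.Q5

open scoped NNReal
open IntermediateField MP2619.R MP2619.N Pool.Agent.Lib.MP_2619d0_ag Pool.Agent.Lib.MP_2619d0_ag.T

private theorem M13_alg {K L : Type} [Field K] [Field L] [Algebra K ℂ] [Algebra L ℂ]
    (h : ∀ b : K, ∃ c : L, algebraMap L ℂ c = algebraMap K ℂ b) {a : ℂ} (ha : IsAlgebraic K a) :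
    IsAlgebraic L a := by
  obtain ⟨p, hp0, hp⟩ := ha
  have h1 : p.map (algebraMap K ℂ) ∈ Polynomial.lifts (algebraMap L ℂ) := by
    rw [Polynomial.lifts_iff_coeff_lifts]
    intro m
    rw [Polynomial.coeff_map]
    exact h _
  obtain ⟨q, hq⟩ := (Polynomial.mem_lifts _).1 h1
  refine ⟨q, ?_, ?_⟩
  · intro h0
    rw [h0, Polynomial.map_zero] at hq
    exact hp0 ((Polynomial.map_eq_zero _).1 hq.symm)
  · rw [Polynomial.aeval_def, ← Polynomial.eval_map, hq, Polynomial.eval_map,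
      ← Polynomial.aeval_def, hp]

private theorem M13_ind {K L : Type} [Field K] [Field L] [Algebra K ℂ] [Algebra L ℂ] [Algebra K L]
    [IsScalarTower K L ℂ] {ι : Type} (x : ι → L)
    (h : AlgebraicIndependent K (fun i => algebraMap L ℂ (x i))) : AlgebraicIndependent K x :=
  AlgebraicIndependent.of_comp (IsScalarTower.toAlgHom K L ℂ) h

private theorem M13_gen {B k : Type} [Field B] [Field k] [Algebra B ℂ] [Algebra k ℂ] [Algebra B k]
    [IsScalarTower B k ℂ] (e : k)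
    (h : ∀ c : k, algebraMap k ℂ c ∈ adjoin B ({algebraMap k ℂ e} : Set ℂ)) :
    adjoin B {e} = ⊤ := by
  rw [eq_top_iff]
  intro c _
  have h1 := h c
  have h2 : (adjoin B {e}).map (IsScalarTower.toAlgHom B k ℂ) =
      adjoin B ({algebraMap k ℂ e} : Set ℂ) := by
    rw [adjoin_map, Set.image_singleton]
    rfl
  rw [← h2] at h1
  obtain ⟨c', hc', h3⟩ := h1
  have h4 : c' = c := (algebraMap k ℂ).injective h3
  rw [← h4]
  exact hc'

private theorem M13_inv {B k : Type} [Field B] [Field k] [Algebra B k] (e : k)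
    (h : adjoin B {e} = ⊤) : adjoin B {e⁻¹} = ⊤ := by
  rw [eq_top_iff, ← h, adjoin_simple_le_iff]
  have h1 := (adjoin B {e⁻¹}).inv_mem (mem_adjoin_simple_self B e⁻¹)
  rwa [inv_inv] at h1

private theorem M13_lift {K : Type} [Field K] [Algebra K ℂ] {n : ℕ} (p : MvPolynomial (Fin n) ℂ)
    (h : ∀ m, ∃ c : K, algebraMap K ℂ c = MvPolynomial.coeff m p) :
    ∃ q : MvPolynomial (Fin n) K, MvPolynomial.map (algebraMap K ℂ) q = p := by
  have h1 : p ∈ Set.range (MvPolynomial.map (σ := Fin n) (algebraMap K ℂ)) := by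
    rw [MvPolynomial.mem_range_map_iff_coeffs_subset]
    intro x hx
    rw [Finset.mem_coe, MvPolynomial.mem_coeffs_iff] at hx
    obtain ⟨m, hm, rfl⟩ := hx
    exact h m
  exact h1

private theorem M13_root : ∃ w : ℂ, w ^ 2 + w + 1 = 0 := by
  obtain ⟨r, hr⟩ := IsAlgClosed.exists_pow_nat_eq (-3 : ℂ) (n := 2) (by norm_num)
  refine ⟨(-1 + r) / 2, ?_⟩
  linear_combination (1 / 4) * hr

private theorem M13_fin {n m : ℕ} (f : Fin n → MvPolynomial (Fin m) ℂ) (w : ℂ) :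
    ∃ cof : Set ℂ, cof.Finite ∧ w ∈ cof ∧ ∀ i d, MvPolynomial.coeff d (f i) ∈ cof := by
  classical
  refine ⟨insert w (insert 0 (⋃ i, (((f i).support.image fun d => MvPolynomial.coeff d (f i) :
    Finset ℂ) : Set ℂ))), ?_, Set.mem_insert _ _, ?_⟩
  · refine Set.Finite.insert _ (Set.Finite.insert _ ?_)
    exact Set.finite_iUnion fun i => Finset.finite_toSet _
  · intro i d
    by_cases h : MvPolynomial.coeff d (f i) = 0
    · rw [h]
      exact Or.inr (Or.inl rfl)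
    · refine Or.inr (Or.inr (Set.mem_iUnion.2 ⟨i, ?_⟩))
      rw [Finset.mem_coe, Finset.mem_image]
      exact ⟨d, MvPolynomial.mem_support_iff.2 h, rfl⟩

section M13

variable {J : Type} (z : Exp3 6 ⊕ J → ℂ) (cof : Set ℂ)

private theorem M13_mem (T : Set J) (j : J) (hj : j ∉ T) : z (Sum.inr j) ∈ FK z cof T := by
  unfold FK
  refine subset_adjoin _ _ (Or.inl ⟨Sum.inr j, fun j' hj' h => hj ?_, rfl⟩)
  rw [Sum.inr_injective h]
  exact hj'

private theorem M13_inl (T : Set J) (d : Exp3 6) : z (Sum.inl d) ∈ FK z cof T := by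
  unfold FK
  exact subset_adjoin _ _ (Or.inl ⟨Sum.inl d, fun j' _ h => Sum.inl_ne_inr h, rfl⟩)

private theorem M13_cof (T : Set J) (c : ℂ) (hc : c ∈ cof) : c ∈ FK z cof T := by
  unfold FK
  exact subset_adjoin _ _ (Or.inr hc)

private theorem M13_z1 (s : Exp3 6 ⊕ J) : z s ∈ FK1 z cof :=
  (FK1 z cof).algebraMap_mem ⟨z s, subset_adjoin _ _ (Set.mem_range_self _)⟩

private theorem M13_anti {T T' : Set J} (h : T ⊆ T') (c : ℂ)
    (hc : IsAlgebraic (adjoin ℚ (z '' {s | ∀ j ∈ T', s ≠ Sum.inr j})) c) :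
    IsAlgebraic (adjoin ℚ (z '' {s | ∀ j ∈ T, s ≠ Sum.inr j})) c := by
  refine M13_alg (fun b => ⟨⟨b.1, ?_⟩, rfl⟩) hc
  refine adjoin.mono ℚ _ _ (Set.image_mono ?_) b.2
  intro s hs j hj
  exact hs j (h hj)

private theorem M13_coeff {F : MvPolynomial (Fin 6) ℂ} {A : Type} [Field A] [Algebra ℂ A]
    {u l : Fin 6 → A} (h : Ctx F z u l) (T : Set J) (d : Fin 6 →₀ ℕ) :
    MvPolynomial.coeff d F ∈ FK z cof T := by
  classical
  by_cases hd : d.degree = 3
  · rw [h.cf ⟨d, hd⟩]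
    refine add_mem ?_ (mul_mem (ofNat_mem _ 2) (M13_inl z cof T _))
    split_ifs
    · exact one_mem _
    · exact zero_mem _
  · have h1 : MvPolynomial.coeff d F = 0 := by
      by_contra hne
      exact hd (by
        rw [Finsupp.degree_eq_weight_one]
        exact h.hom hne)
    rw [h1]
    exact zero_mem _

private theorem M13_alg1 (T' : Set J)
    (hga : ∀ c ∈ cof, IsAlgebraic (adjoin ℚ (z '' {s | ∀ j ∈ T', s ≠ Sum.inr j})) c) (j : J)
    (hj : j ∈ T') (b : ℂ) (hb : b ∈ FK z cof ({j} : Set J)) :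
    IsAlgebraic (adjoin ℚ (z '' {s | s ≠ Sum.inr j})) b := by
  have hset : {s : Exp3 6 ⊕ J | ∀ j' ∈ ({j} : Set J), s ≠ Sum.inr j'} = {s | s ≠ Sum.inr j} := by
    ext s
    simp
  have h1 := FK_alg z cof {j} (fun c hc => M13_anti z (Set.singleton_subset_iff.2 hj) c (hga c hc))
    b hb
  rw [hset] at h1
  exact h1

end M13

section M13b

/-- the inclusions -/
private noncomputable def M13_i {K K' : IntermediateField ℚ ℂ} (h : K ≤ K') : K →+* K' :=
  (inclusion h).toRingHom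

variable {J : Type} {z : Exp3 6 ⊕ J → ℂ}

private noncomputable def M13_i1 {K : IntermediateField ℚ ℂ} {k1 : IntermediateField (Qz z) ℂ}
    (h : ∀ c ∈ K, c ∈ k1) : K →+* k1 :=
  (algebraMap K ℂ).codRestrict k1 fun c => h _ c.2

private theorem M13_BE (K : IntermediateField ℚ ℂ) (k1 : IntermediateField (Qz z) ℂ) (j : J)
    [Algebra K k1] [IsScalarTower K k1 ℂ]
    (ha : ∀ b ∈ K, IsAlgebraic (adjoin ℚ (z '' {s | s ≠ Sum.inr j})) b)
    (hg : ∀ c ∈ k1, c ∈ adjoin K ({z (Sum.inr j)} : Set ℂ)) (e : k1)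
    (he : (e : ℂ) = z (Sum.inr j)) : BE z k1 K e j := by
  have hb : ∀ b : K, ((algebraMap K k1 b : k1) : ℂ) = b := fun b =>
    (IsScalarTower.algebraMap_apply K k1 ℂ b).symm
  refine ⟨fun b => ?_, M13_gen e fun c => ?_, Or.inl he⟩
  · rw [hb b]
    exact ha b b.2
  · have h1 := hg c c.2
    rw [← he] at h1
    exact h1

private theorem M13_main (hR : R2E) {F : MvPolynomial (Fin 6) ℂ} {A : Type} [Field A] [CharZero A]
    [Algebra ℂ A] {u l : Fin 6 → A} {v2 : Valuation ℚ ℝ≥0} {V : Valuation A ℝ≥0}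
    (S : St F z u l v2 V) (w : ℂ) (hw : w ^ 2 + w + 1 = 0) (f : Fin 6 → MvPolynomial (Fin 5) ℂ)
    {d : ℕ} (hd : ∀ i, (f i).IsHomogeneous d) (hf : ∃ i, f i ≠ 0)
    (h0 : MvPolynomial.aeval f F = 0) (hm : MultC f)
    (hmult : ∀ (k0 : Type) [Field k0] [Algebra k0 ℂ] (f0 : Fin 6 → MvPolynomial (Fin 5) k0),
      (∀ i, (f0 i).IsHomogeneous d) →
      MultC (fun i => MvPolynomial.map (algebraMap k0 ℂ) (f0 i)) → Mult2 f0)
    (hPr : PrAll f) (K0 KC KE KS : IntermediateField ℚ ℂ) (k1 : IntermediateField (Qz z) ℂ)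
    (hfin : FiniteDimensional (Qz z) k1) (h0C : K0 ≤ KC) (hCE : KC ≤ KE) (h0S : K0 ≤ KS)
    (hE1 : ∀ c ∈ KE, c ∈ k1) (hS1 : ∀ c ∈ KS, c ∈ k1) (hw0 : w ∈ K0)
    (hf0 : ∀ i m, MvPolynomial.coeff m (f i) ∈ K0) (hF0 : ∀ m, MvPolynomial.coeff m F ∈ K0)
    (je js : J) (gG : Fin 5 × Fin 5 → J) (gh : Fin 2 → J)
    (aE : ∀ b ∈ KE, IsAlgebraic (adjoin ℚ (z '' {s | s ≠ Sum.inr je})) b)
    (aS : ∀ b ∈ KS, IsAlgebraic (adjoin ℚ (z '' {s | s ≠ Sum.inr js})) b)
    (gE : ∀ c ∈ k1, c ∈ adjoin KE ({z (Sum.inr je)} : Set ℂ))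
    (gS : ∀ c ∈ k1, c ∈ adjoin KS ({z (Sum.inr js)} : Set ℂ)) (mE : z (Sum.inr je) ∈ k1)
    (mS : z (Sum.inr js) ∈ k1) (mG : ∀ q, z (Sum.inr (gG q)) ∈ KC)
    (mG' : ∀ q, z (Sum.inr (gG q)) ∈ KS) (me : z (Sum.inr je) ∈ KS)
    (mh : ∀ i, z (Sum.inr (gh i)) ∈ KE)
    (iG : AlgebraicIndependent K0 fun q => z (Sum.inr (gG q)))
    (iS : AlgebraicIndependent K0 (Sum.elim (fun q => z (Sum.inr (gG q)))
      (fun _ : Unit => z (Sum.inr je))))
    (ih : AlgebraicIndependent KC fun i => z (Sum.inr (gh i))) : False := by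
  classical
  let i1 : Algebra K0 KC := (M13_i h0C).toAlgebra
  let i2 : Algebra K0 KE := (M13_i (h0C.trans hCE)).toAlgebra
  let i3 : Algebra K0 KS := (M13_i h0S).toAlgebra
  let i4 : Algebra KC KE := (M13_i hCE).toAlgebra
  let i5 : Algebra K0 k1 := (M13_i1 fun c hc => hE1 c (hCE (h0C hc))).toAlgebra
  let i6 : Algebra KC k1 := (M13_i1 fun c hc => hE1 c (hCE hc)).toAlgebra
  let i7 : Algebra KE k1 := (M13_i1 hE1).toAlgebra
  let i8 : Algebra KS k1 := (M13_i1 hS1).toAlgebra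
  have t1 : IsScalarTower K0 KC KE := IsScalarTower.of_algebraMap_eq fun _ => rfl
  have t2 : IsScalarTower K0 KC k1 := IsScalarTower.of_algebraMap_eq fun _ => rfl
  have t3 : IsScalarTower K0 KE k1 := IsScalarTower.of_algebraMap_eq fun _ => rfl
  have t4 : IsScalarTower K0 KS k1 := IsScalarTower.of_algebraMap_eq fun _ => rfl
  have t5 : IsScalarTower KC KE k1 := IsScalarTower.of_algebraMap_eq fun _ => rfl
  have t6 : IsScalarTower K0 KC ℂ := IsScalarTower.of_algebraMap_eq fun _ => rfl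
  have t7 : IsScalarTower K0 KS ℂ := IsScalarTower.of_algebraMap_eq fun _ => rfl
  have t8 : IsScalarTower KC KE ℂ := IsScalarTower.of_algebraMap_eq fun _ => rfl
  have t9 : IsScalarTower KE k1 ℂ := IsScalarTower.of_algebraMap_eq fun _ => rfl
  have t10 : IsScalarTower KS k1 ℂ := IsScalarTower.of_algebraMap_eq fun _ => rfl
  have hcomp : (algebraMap k1 ℂ).comp (algebraMap K0 k1) = algebraMap K0 ℂ := rfl
  -- the polynomials
  have hl : ∀ i, ∃ q : MvPolynomial (Fin 5) K0, MvPolynomial.map (algebraMap K0 ℂ) q = f i :=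
    fun i => M13_lift (f i) fun m => ⟨⟨_, hf0 i m⟩, rfl⟩
  choose f0 hff0 using hl
  obtain ⟨F0, hFF0⟩ : ∃ q : MvPolynomial (Fin 6) K0, MvPolynomial.map (algebraMap K0 ℂ) q = F :=
    M13_lift F fun m => ⟨⟨_, hF0 m⟩, rfl⟩
  have hff : (fun i => MvPolynomial.map (algebraMap K0 ℂ) (f0 i)) = f := funext hff0
  have hd0 : ∀ i, (f0 i).IsHomogeneous d := by
    intro i m hm1
    refine hd i (d := m) ?_
    rw [← hff0 i, MvPolynomial.coeff_map]
    exact fun h1 => hm1 ((map_eq_zero _).1 h1)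
  have hne : ∃ i, f0 i ≠ 0 := by
    obtain ⟨i, hi⟩ := hf
    refine ⟨i, fun h1 => hi ?_⟩
    rw [← hff0 i, h1, map_zero]
  have hmm : Mult2 f0 := hmult K0 f0 hd0 (by rw [hff]; exact hm)
  have h00 : MvPolynomial.aeval f0 F0 = 0 := by
    apply MvPolynomial.map_injective (algebraMap K0 ℂ) (algebraMap K0 ℂ).injective
    rw [MvPolynomial.aeval_eq_bind₁, MvPolynomial.map_bind₁, hff, hFF0, map_zero,
      ← MvPolynomial.aeval_eq_bind₁]
    exact h0
  have hz0 : ∀ s, z s ≠ 0 := fun s => S.ctx.tb.1.ne_zero s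
  have bE := M13_BE KE k1 je aE gE (⟨z (Sum.inr je), mE⟩ : k1) rfl
  have bS := M13_BE KS k1 js aS gS (⟨z (Sum.inr js), mS⟩ : k1) rfl
  refine q5_abs hR S k1 hfin (k0 := K0) (C := KC) (Be := KE) (Bs := KS)
    ⟨w, hw0⟩ (Subtype.ext hw) f0 hd0 hne hmm F0 (by rw [hcomp]; exact hFF0) h00
    je js ⟨z (Sum.inr je), mE⟩ ⟨z (Sum.inr js), mS⟩ bE bS
    ⟨bS.alg, M13_inv _ bS.gen, Or.inr rfl⟩ (fun h1 => hz0 _ (congrArg Subtype.val h1))
    (fun i j => ⟨z (Sum.inr (gG (i, j))), mG _⟩) (fun i j => ⟨z (Sum.inr (gG (i, j))), mG' _⟩)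
    (fun i j => rfl) ⟨z (Sum.inr je), me⟩ rfl (M13_ind _ iG) (M13_ind _ ?_)
    (fun i => ⟨z (Sum.inr (gh i)), mh i⟩) (M13_ind _ ih) ?_
  · convert iS using 1
    funext s
    rcases s with s | s <;> rfl
  · rw [hcomp, hff]
    exact hPr

end M13b

/-- `exists_ctx` (N/A1; `J`, `z`, `A`, `u`, `l`), `exists_two`, `exists_wt` (N/T2, `zeta_ind`, `zeta_alg`): `St`, see `A11_two` in N/A11. `w` a root of
`X^2 + X + 1` in `ℂ`, `cof` = `w` and the coefficients of the `f i`. `exists_params` with `m = 29` and a bijection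
`(Fin 5 × Fin 5) ⊕ Fin 4 ≃ Fin 29`: `g`. `k0 = FK z cof (range g)`, `C = FK z cof {g ε, g h0, g h1}`, `Be = FK z cof {g ε}`,
`Bs = FK z cof {g s}`, `k1 = FK1 z cof`, all maps are inclusions in `ℂ` (`letI` algebras, towers by `rfl`). `BE` from `FK_alg`, `FK_gen`;
independence from `FK_ind` (`hG`: over `k0` with `T = range g`; `hh`: over `C` with `T = {g ε, g h0, g h1}`). The polynomials `f i` and `F` have
coefficients in `k0` (`A11_coeff` in N/A11: coefficients of `F`). `mult2_of_C` gives `Mult2`. `q5_abs`. -/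
theorem q5_core (hR : R2E) {F : MvPolynomial (Fin 6) ℂ} (hF : VG F)
    (f : Fin 6 → MvPolynomial (Fin 5) ℂ) {d : ℕ} (hd : ∀ i, (f i).IsHomogeneous d)
    (hf : ∃ i, f i ≠ 0) (h0 : MvPolynomial.aeval f F = 0) (hm : MultC f)
    (hmult : ∀ (k0 : Type) [Field k0] [Algebra k0 ℂ] (f0 : Fin 6 → MvPolynomial (Fin 5) k0),
      (∀ i, (f0 i).IsHomogeneous d) →
      MultC (fun i => MvPolynomial.map (algebraMap k0 ℂ) (f0 i)) → Mult2 f0)
    (hPr : PrAll f) : False := by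
  classical
  obtain ⟨J, z, A, iF, iC, iA, u, l, hC⟩ := exists_ctx hF
  have hcl := hC.closed
  obtain ⟨v2, h2⟩ := exists_two
  obtain ⟨V, hV⟩ := exists_wt (k := ℚ) (zeta z u l) (zeta_ind hC) (zeta_alg hC) v2 (fun _ => 1)
    (fun _ => one_pos)
  obtain ⟨w, hw⟩ := M13_root
  obtain ⟨cof, hcf, hcw, hcc⟩ := M13_fin f w
  obtain ⟨g0, hg0, hga0⟩ := exists_params z hC.tb cof hcf 29
  obtain ⟨σ⟩ : Nonempty ((Fin 5 × Fin 5) ⊕ Fin 4 ≃ Fin 29) :=
    ⟨Fintype.equivFinOfCardEq (by simp)⟩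
  obtain ⟨g, hgdef⟩ : ∃ g : (Fin 5 × Fin 5) ⊕ Fin 4 → J, g = g0 ∘ σ := ⟨_, rfl⟩
  have hg : Function.Injective g := by
    rw [hgdef]
    exact hg0.comp σ.injective
  have hrange : Set.range g = Set.range g0 := by
    rw [hgdef]
    exact σ.surjective.range_comp g0
  rw [← hrange] at hga0
  obtain ⟨TC, hTC⟩ : ∃ TC : Set J, TC = {g (Sum.inr 0), g (Sum.inr 2), g (Sum.inr 3)} := ⟨_, rfl⟩
  have hCG : TC ⊆ Set.range g := by
    rw [hTC]
    rintro s (rfl | rfl | rfl) <;> exact Set.mem_range_self _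
  have hEC : ({g (Sum.inr 0)} : Set J) ⊆ TC := by
    rw [hTC]
    rintro s rfl
    exact Or.inl rfl
  have hSG : ({g (Sum.inr 1)} : Set J) ⊆ Set.range g := by
    rintro s rfl
    exact Set.mem_range_self _
  have hnC : ∀ q, g (Sum.inl q) ∉ TC := by
    intro q hq
    rw [hTC] at hq
    rcases hq with h1 | h1 | h1
    · exact Sum.inl_ne_inr (hg h1)
    · exact Sum.inl_ne_inr (hg h1)
    · exact Sum.inl_ne_inr (hg h1)
  have hnS : ∀ q, g (Sum.inl q) ∉ ({g (Sum.inr 1)} : Set J) := fun q hq =>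
    Sum.inl_ne_inr (hg hq)
  have hnS0 : g (Sum.inr 0) ∉ ({g (Sum.inr 1)} : Set J) := fun hq => by
    have h1 := Sum.inr_injective (hg hq)
    exact absurd h1 (by decide)
  have hnE : ∀ i : Fin 2, g (Sum.inr (Fin.natAdd 2 i)) ∉ ({g (Sum.inr 0)} : Set J) := by
    intro i hq
    have h1 := Sum.inr_injective (hg hq)
    revert h1
    fin_cases i <;> decide
  have iS := FK_ind z hC.tb cof (Set.range g) hga0
    (Sum.elim (fun q : Fin 5 × Fin 5 => g (Sum.inl q)) (fun _ : Unit => g (Sum.inr 0))) (by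
      refine Function.Injective.sumElim (hg.comp Sum.inl_injective) ?_ ?_
      · intro a b _
        exact Subsingleton.elim a b
      · intro a b h2
        exact Sum.inl_ne_inr (hg h2)) (by
      rintro (s | s) <;> exact Set.mem_range_self _)
  have hfun : (fun i => z (Sum.inr ((Sum.elim (fun q : Fin 5 × Fin 5 => g (Sum.inl q))
      (fun _ : Unit => g (Sum.inr 0))) i))) = Sum.elim (fun q => z (Sum.inr (g (Sum.inl q))))
      (fun _ : Unit => z (Sum.inr (g (Sum.inr 0)))) := by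
    funext s
    rcases s with s | s <;> rfl
  rw [hfun] at iS
  have ih := FK_ind z hC.tb cof TC (fun c hc => M13_anti z hCG c (hga0 c hc))
    (fun i : Fin 2 => g (Sum.inr (Fin.natAdd 2 i))) (by
      intro a b hab
      have h1 := Sum.inr_injective (hg hab)
      exact Fin.natAdd_injective _ _ h1) (by
      intro i
      rw [hTC]
      fin_cases i
      · exact Or.inr (Or.inl rfl)
      · exact Or.inr (Or.inr rfl))
  exact M13_main hR ⟨hC, h2, hV⟩ w hw f hd hf h0 hm hmult hPr (FK z cof (Set.range g)) (FK z cof TC)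
    (FK z cof {g (Sum.inr 0)}) (FK z cof {g (Sum.inr 1)}) (FK1 z cof) (FK1_fin z hC.tb cof hcf)
    (FK_anti z cof hCG) (FK_anti z cof hEC) (FK_anti z cof hSG) (FK_le1 z cof _) (FK_le1 z cof _)
    (M13_cof z cof _ _ hcw) (fun i m => M13_cof z cof _ _ (hcc i m))
    (fun m => M13_coeff z cof hC _ m) (g (Sum.inr 0)) (g (Sum.inr 1)) (fun q => g (Sum.inl q))
    (fun i => g (Sum.inr (Fin.natAdd 2 i)))
    (M13_alg1 z cof _ hga0 _ (Set.mem_range_self _)) (M13_alg1 z cof _ hga0 _ (Set.mem_range_self _))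
    (FK_gen z cof _) (FK_gen z cof _) (M13_z1 z cof _) (M13_z1 z cof _)
    (fun q => M13_mem z cof _ _ (hnC q)) (fun q => M13_mem z cof _ _ (hnS q))
    (M13_mem z cof _ _ hnS0) (fun i => M13_mem z cof _ _ (hnE i))
    (FK_ind z hC.tb cof (Set.range g) hga0 (fun q : Fin 5 × Fin 5 => g (Sum.inl q))
      (hg.comp Sum.inl_injective) fun q => Set.mem_range_self _) iS ih

end MP2619.Q5
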