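import Pool.Agent.Lib.MP_2619d0_ag.Q5.M3a
import Pool.Agent.Lib.MP_2619d0_ag.N.A5
import Pool.Agent.Lib.MP_2619d0_ag.R.A8

/-!
Row 2619q5-M3: the main place has odd multiplicity
-/

set_option autoImplicit false

namespace MP2619.Q5

open scoped NNReal
open IntermediateField MP2619.R MP2619.N Pool.Agent.Lib.MP_2619d0_ag Pool.Agent.Lib.MP_2619d0_ag.T

variable {F : MvPolynomial (Fin 6) ℂ} {J : Type} {z : Exp3 6 ⊕ J → ℂ} {A : Type} [Field A]
  [CharZero A] [Algebra ℂ A] {u l : Fin 6 → A} {v2 : Valuation ℚ ℝ≥0} {V : Valuation A ℝ≥0}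

/-- `card_emb` (N/A5): the number of all `τ : E → A` with `τ (zg) = u` is `finrank (adjoin B (range zg)) E`, which is odd; all of them are
good by `good_main` for `τ ∘ X` (`F (τ X) = 0` from `hFB`, `hX`), `algebraMap B A wB`. -/
theorem main_odd (S : St F z u l v2 V) (k1 : IntermediateField (Qz z) ℂ) {B E : Type} [Field B]
    [Field E] [Algebra B E] [Algebra B k1] [Algebra B A] [IsScalarTower B k1 A] (wB : B)
    (hwB : wB ^ 2 + wB + 1 = 0) (X : Fin 6 → E) (α β : E) (FB : MvPolynomial (Fin 6) B)
    (hFB : MvPolynomial.map ((algebraMap k1 ℂ).comp (algebraMap B k1)) FB = F)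
    (hX : MvPolynomial.aeval X FB = 0) (a : Fin 6)
    (hPr : Pr B (zg wB (fun i => α * X i) (fun i => β * X i) (Pi.single a 1))) :
    Odd (gc V wB u (fun i => α * X i) (fun i => β * X i) (Pi.single a 1)) := by
  have := S.ctx.closed
  have : CharZero B := (algebraMap B k1).charZero
  have hu : AlgebraicIndependent ℂ u := S.ctx.ind.comp Sum.inl Sum.inl_injective
  have hu1 : AlgebraicIndependent k1 u := hu.restrictScalars (algebraMap k1 ℂ).injective
  have hu2 : AlgebraicIndependent B u := hu1.restrictScalars (algebraMap B k1).injective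
  have hF : (algebraMap ℂ A).comp ((algebraMap k1 ℂ).comp (algebraMap B k1)) = algebraMap B A := by
    ext b
    rw [IsScalarTower.algebraMap_apply B k1 A, IsScalarTower.algebraMap_apply k1 ℂ A]
    rfl
  have hw : (algebraMap B A wB) ^ 2 + algebraMap B A wB + 1 = 0 := by
    rw [← map_pow, ← map_add, ← map_one (algebraMap B A), ← map_add, hwB, map_zero]
  have hgood : ∀ τ : E →ₐ[B] A, (∀ i, τ (zg wB (fun i => α * X i) (fun i => β * X i)
      (Pi.single a 1) i) = u i) → ∀ i, V (τ (α * X i)) ≤ 1 := by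
    intro τ hτ i
    have h1 : MvPolynomial.aeval (fun i => τ (X i)) F = 0 := by
      rw [← hFB, MvPolynomial.aeval_def, MvPolynomial.eval₂_map, hF, ← MvPolynomial.aeval_def]
      have h2 := congrArg τ hX
      rw [map_zero, MvPolynomial.comp_aeval_apply] at h2
      exact h2
    rw [map_mul]
    refine good_main S (algebraMap B A wB) hw (fun i => τ (X i)) h1 (τ α) (τ β) a (fun j => ?_) i
    rw [← hτ j]
    simp only [zg, map_add, map_mul, AlgHom.commutes]
    by_cases hja : j = a
    · subst hja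
      rw [if_pos rfl, Pi.single_eq_same, ZMod.val_one, pow_one]
    · rw [if_neg hja, Pi.single_eq_of_ne hja, ZMod.val_zero, pow_zero, map_one]
  have hcard : gc V wB u (fun i => α * X i) (fun i => β * X i) (Pi.single a 1) =
      Module.finrank (adjoin B (Set.range (zg wB (fun i => α * X i) (fun i => β * X i)
        (Pi.single a 1)))) E := by
    rw [← card_emb u hu2 _ hPr.1 (fun h => by
      have := hPr.2
      rw [h] at this
      exact absurd this (by decide))]
    exact Nat.card_congr
      ⟨fun τ => ⟨τ.1, τ.2.1⟩, fun τ => ⟨τ.1, τ.2, hgood τ.1 τ.2⟩, fun τ => rfl, fun τ => rfl⟩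
  rw [hcard]
  exact hPr.2

end MP2619.Q5
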