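import Pool.Agent.Lib.MP_2619d0_ag.Q5.CDefs

/-!
Row 2619q5-M3a: the three points of a line are good
-/

set_option autoImplicit false

namespace MP2619.Q5

open scoped NNReal
open IntermediateField MP2619.R MP2619.N Pool.Agent.Lib.MP_2619d0_ag Pool.Agent.Lib.MP_2619d0_ag.T

variable {F : MvPolynomial (Fin 6) ℂ} {J : Type} {z : Exp3 6 ⊕ J → ℂ} {A : Type} [Field A]
  [CharZero A] [Algebra ℂ A] {u l : Fin 6 → A} {v2 : Valuation ℚ ℝ≥0} {V : Valuation A ℝ≥0}

private theorem M3a_hom (hF : F.IsHomogeneous 3) (s : A) (X : Fin 6 → A) :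
    MvPolynomial.aeval (fun i => s * X i) F = s ^ 3 * MvPolynomial.aeval X F := by
  rw [MvPolynomial.aeval_def, MvPolynomial.eval₂_eq, MvPolynomial.aeval_def,
    MvPolynomial.eval₂_eq, Finset.mul_sum]
  refine Finset.sum_congr rfl fun d hd => ?_
  have hdeg : d.degree = 3 := by
    by_contra h3
    exact (MvPolynomial.mem_support_iff.1 hd) (hF.coeff_eq_zero h3)
  have h1 : (∏ i ∈ d.support, (s * X i) ^ d i) = s ^ 3 * ∏ i ∈ d.support, X i ^ d i := by
    simp only [mul_pow]
    rw [Finset.prod_mul_distrib, Finset.prod_pow_eq_pow_sum]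
    congr 2
  rw [h1]
  ring

/-- the facts on the form -/
private theorem M3a_data (S : St F z u l v2 V) : V 2 = 2⁻¹ ∧ (∀ i, V (u i) = 1) ∧
    IsGauss ℂ V u ∧
    ∀ d : Fin 6 →₀ ℕ, V (algebraMap ℂ A ((F - ∑ i, MvPolynomial.X i ^ 3).coeff d)) ≤ 2⁻¹ := by
  set d0 : Exp3 6 := ⟨Finsupp.single 0 3, by simp⟩ with hd0
  have hw1 : ∀ {I : Type} (i0 : I), wts i0 1 = fun _ => 1 := by
    intro I i0
    funext s
    unfold wts
    split_ifs <;> rfl
  have hV1 : IsWt v2 V (zeta z u l) (wts (Sum.inl (Sum.inl d0)) 1) := by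
    rw [hw1]
    exact S.wt
  have h12 : (2 : ℝ≥0) * 2⁻¹ = 1 := mul_inv_cancel₀ two_ne_zero
  obtain ⟨hV2, hVu, hco, hco0⟩ := norm_coeff S.ctx v2 S.two V d0 2⁻¹ (by positivity)
    (by rw [h12]; exact hV1)
  have hG := gauss_C S.ctx v2 V (Sum.inl d0) 1 one_pos hV1
  refine ⟨hV2, hVu, Q9_u V hG, fun d => ?_⟩
  rw [MvPolynomial.coeff_sub, Q9_cubes]
  by_cases hdeg : d.degree = 3
  · by_cases hdd : (⟨d, hdeg⟩ : Exp3 6) = d0
    · have h3 : d = d0.1 := congrArg Subtype.val hdd
      rw [h3]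
      exact hco0.le
    · exact (hco ⟨d, hdeg⟩ hdd).le
  · have h4 : ¬ ∃ i, d = Finsupp.single i 3 := by
      rintro ⟨i, rfl⟩
      exact hdeg (by simp)
    rw [S.ctx.hom.coeff_eq_zero hdeg, if_neg h4, sub_zero, map_zero, map_zero]
    exact zero_le

/-- the value of the small part of the form -/
private theorem M3a_small (hF : F.IsHomogeneous 3)
    (hco : ∀ d : Fin 6 →₀ ℕ, V (algebraMap ℂ A ((F - ∑ i, MvPolynomial.X i ^ 3).coeff d)) ≤ 2⁻¹)
    (y : Fin 6 → A) (M : ℝ≥0) (hM : ∀ i, V (y i) ≤ M) :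
    V (MvPolynomial.aeval y (F - ∑ i, MvPolynomial.X i ^ 3)) ≤ 2⁻¹ * M ^ 3 := by
  rw [MvPolynomial.aeval_def, MvPolynomial.eval₂_eq]
  refine Valuation.map_sum_le _ fun d hd => ?_
  have hdeg : d.degree = 3 := by
    by_contra h3
    refine (MvPolynomial.mem_support_iff.1 hd) ?_
    have h4 : ¬ ∃ i, d = Finsupp.single i 3 := by
      rintro ⟨i, rfl⟩
      exact h3 (by simp)
    rw [MvPolynomial.coeff_sub, Q9_cubes, if_neg h4, hF.coeff_eq_zero h3, sub_zero]
  rw [map_mul, map_prod]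
  refine mul_le_mul' (hco d) ?_
  calc ∏ i ∈ d.support, V (y i ^ d i) ≤ ∏ i ∈ d.support, M ^ d i := by
        refine Finset.prod_le_prod' fun i _ => ?_
        rw [map_pow]
        exact pow_le_pow_left' (hM i) _
    _ = M ^ 3 := by
        rw [Finset.prod_pow_eq_pow_sum]
        congr 1

/-- the sum of the cubes of the other variables has norm one -/
private theorem M3a_gauss (hG : IsGauss ℂ V u) (hu : ∀ i, V (u i) = 1) (a : Fin 6) :
    V (∑ i ∈ Finset.univ.erase a, u i ^ 3) = 1 := by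
  refine le_antisymm (Valuation.map_sum_le _ fun i _ => ?_) ?_
  · rw [map_pow, hu, one_pow]
  · have h1 := hG (∑ i ∈ Finset.univ.erase a, MvPolynomial.X i ^ 3)
    have h2 : MvPolynomial.aeval u (∑ i ∈ Finset.univ.erase a,
        (MvPolynomial.X i : MvPolynomial (Fin 6) ℂ) ^ 3) = ∑ i ∈ Finset.univ.erase a, u i ^ 3 := by
      rw [map_sum]
      refine Finset.sum_congr rfl fun i _ => ?_
      rw [map_pow, MvPolynomial.aeval_X]
    rw [h2] at h1
    rw [h1]
    obtain ⟨b, hb⟩ : ∃ b : Fin 6, b ≠ a := exists_ne a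
    have h3 : (∑ i ∈ Finset.univ.erase a, (MvPolynomial.X i : MvPolynomial (Fin 6) ℂ) ^ 3).coeff
        (Finsupp.single b 3) = 1 := by
      rw [MvPolynomial.coeff_sum, Finset.sum_eq_single b]
      · rw [MvPolynomial.coeff_X_pow, if_pos rfl]
      · intro l _ hl
        rw [MvPolynomial.coeff_X_pow, if_neg]
        intro h1
        exact hl ((Finsupp.single_left_inj (by norm_num)).1 h1)
      · intro hi
        exact absurd (Finset.mem_erase.2 ⟨hb, Finset.mem_univ b⟩) hi
    have h4 : Finsupp.single b 3 ∈ (∑ i ∈ Finset.univ.erase a,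
        (MvPolynomial.X i : MvPolynomial (Fin 6) ℂ) ^ 3).support := by
      rw [MvPolynomial.mem_support_iff, h3]
      exact one_ne_zero
    have h5 := Finset.le_sup (f := fun m => V (algebraMap ℂ A ((∑ i ∈ Finset.univ.erase a,
        (MvPolynomial.X i : MvPolynomial (Fin 6) ℂ) ^ 3).coeff m))) h4
    simp only [h3, map_one] at h5
    exact h5

/-- `norm_coeff` (N/A3, with weight one: as in `Q9_one`, C0.lean): `V 2 = 1/2`, the coefficients of `F` are `δ_d + (V ≤ 1/2)`, `δ_d = 1` for the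
cubes; `V` is Gauss on `u`. Put `s = α + β`, `c = - (w - 1) α X_a`: `u + c e_a = s X`, so `F(u + c e_a) = 0`.
`V c ≤ 1`: otherwise `V (u_a + c) ^ 3 = V c ^ 3` is larger than all other terms (`V ≤ 1` for the cubes of `u_i`, `V ≤ V c ^ 3 / 2` for the other
monomials). Then `V ((u_a + c)^3 + ∑_{i ≠ a} u_i ^ 3) ≤ 1/2` and `V (∑_{i ≠ a} u_i ^ 3) = 1` (Gauss), so `V (u_a + c) = 1`, `s ≠ 0`,
`X_a ≠ 0`, `α / s = - c / ((w - 1) (u_a + c))` has `V ≤ 1` (`V (w - 1) = 1` because `(w - 1)^2 = -3 w`, `V 3 = 1`), and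
`α X i = (α / s) (u + c e_a) i`. -/
theorem good_main (S : St F z u l v2 V) (w : A) (hw : w ^ 2 + w + 1 = 0) (X : Fin 6 → A)
    (hX : MvPolynomial.aeval X F = 0) (α β : A) (a : Fin 6)
    (h : ∀ i, (if i = a then w else 1) * (α * X i) + β * X i = u i) : ∀ i, V (α * X i) ≤ 1 := by
  obtain ⟨hV2, hVu, hG, hco⟩ := M3a_data S
  have hhalf : (2 : ℝ≥0)⁻¹ < 1 := Q9_half
  -- the point
  have hy : ∀ i, i ≠ a → (α + β) * X i = u i := by
    intro i hi
    have h1 := h i
    rw [if_neg hi] at h1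
    linear_combination h1
  have hya : (α + β) * X a = u a - (w - 1) * (α * X a) := by
    have h1 := h a
    rw [if_pos rfl] at h1
    linear_combination h1
  have hFy : MvPolynomial.aeval (fun i => (α + β) * X i) F = 0 := by
    rw [M3a_hom S.ctx.hom, hX, mul_zero]
  have hsplit : MvPolynomial.aeval (fun i => (α + β) * X i) (F - ∑ i, MvPolynomial.X i ^ 3) =
      -(((α + β) * X a) ^ 3 + ∑ i ∈ Finset.univ.erase a, u i ^ 3) := by
    rw [map_sub, hFy, zero_sub, map_sum, ← Finset.add_sum_erase _ _ (Finset.mem_univ a)]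
    congr 1
    congr 1
    · rw [map_pow, MvPolynomial.aeval_X]
    · refine Finset.sum_congr rfl fun i hi => ?_
      rw [map_pow, MvPolynomial.aeval_X, hy i (Finset.ne_of_mem_erase hi)]
  have hC := M3a_gauss hG hVu a
  -- the value of the coordinate `a`
  have hVy : ∀ i, i ≠ a → V ((α + β) * X i) = 1 := fun i hi => by rw [hy i hi, hVu]
  have hle : V ((α + β) * X a) ≤ 1 := by
    by_contra hgt
    rw [not_le] at hgt
    have h1 := M3a_small S.ctx.hom hco (fun i => (α + β) * X i) (V ((α + β) * X a)) (fun i => by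
      by_cases hi : i = a
      · rw [hi]
      · rw [hVy i hi]
        exact hgt.le)
    rw [hsplit, Valuation.map_neg] at h1
    have h3 : 1 < V (((α + β) * X a) ^ 3) := by
      rw [map_pow]
      exact one_lt_pow₀ hgt (by norm_num)
    have h2 : V (((α + β) * X a) ^ 3 + ∑ i ∈ Finset.univ.erase a, u i ^ 3) =
        V (((α + β) * X a) ^ 3) := by
      refine Valuation.map_add_eq_of_lt_left _ ?_
      rw [hC]
      exact h3
    rw [h2, ← map_pow] at h1
    have h4 : V (((α + β) * X a) ^ 3) ≤ V (((α + β) * X a) ^ 3) / 2 := by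
      rw [div_eq_inv_mul]
      exact h1
    have h5 : V (((α + β) * X a) ^ 3) / 2 < V (((α + β) * X a) ^ 3) :=
      NNReal.half_lt_self (ne_of_gt (lt_trans one_pos h3))
    exact absurd h5 (not_lt.2 h4)
  have hone : V ((α + β) * X a) = 1 := by
    have h1 := M3a_small S.ctx.hom hco (fun i => (α + β) * X i) 1 (fun i => by
      by_cases hi : i = a
      · rw [hi]
        exact hle
      · rw [hVy i hi])
    rw [hsplit, Valuation.map_neg, one_pow, mul_one] at h1
    have h2 : V (((α + β) * X a) ^ 3) = 1 := by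
      have h3 : ((α + β) * X a) ^ 3 = (((α + β) * X a) ^ 3 + ∑ i ∈ Finset.univ.erase a, u i ^ 3) +
          (-∑ i ∈ Finset.univ.erase a, u i ^ 3) := by ring
      rw [h3]
      have h4 : V (((α + β) * X a) ^ 3 + ∑ i ∈ Finset.univ.erase a, u i ^ 3) <
          V (-∑ i ∈ Finset.univ.erase a, u i ^ 3) := by
        rw [Valuation.map_neg, hC]
        exact lt_of_le_of_lt h1 hhalf
      rw [Valuation.map_add_eq_of_lt_right _ h4, Valuation.map_neg, hC]
    rw [map_pow] at h2
    exact (pow_eq_one_iff_of_nonneg zero_le (by norm_num)).1 h2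
  -- the value of `w - 1`
  have hV3 : V 3 = 1 := by
    have h1 : (3 : A) = 1 + 2 := by norm_num
    rw [h1, Valuation.map_add_eq_of_lt_left, map_one]
    rw [map_one, hV2]
    exact hhalf
  have hVw : V w = 1 := by
    have h1 : V w ^ 3 = 1 := by rw [← map_pow, Q9_w3 hw, map_one]
    exact (pow_eq_one_iff_of_nonneg zero_le (by norm_num)).1 h1
  have hVw1 : V (w - 1) = 1 := by
    have h1 : (w - 1) ^ 2 = -(3 * w) := by linear_combination hw
    have h2 : V (w - 1) ^ 2 = 1 := by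
      rw [← map_pow, h1, Valuation.map_neg, map_mul, hV3, hVw, one_mul]
    exact (pow_eq_one_iff_of_nonneg zero_le (by norm_num)).1 h2
  have hαa : V (α * X a) ≤ 1 := by
    have h1 : (w - 1) * (α * X a) = u a - (α + β) * X a := by rw [hya]; ring
    have h2 : V ((w - 1) * (α * X a)) ≤ 1 := by
      rw [h1]
      refine (Valuation.map_sub _ _ _).trans ?_
      rw [hVu, hone, max_self]
    rwa [map_mul, hVw1, one_mul] at h2
  have hne : (α + β) * X a ≠ 0 := by
    intro h0
    rw [h0, map_zero] at hone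
    exact zero_ne_one hone
  have hs : α + β ≠ 0 := left_ne_zero_of_mul hne
  have hXa : X a ≠ 0 := right_ne_zero_of_mul hne
  intro i
  have h1 : α * X i = (α * X a) * ((α + β) * X i) / ((α + β) * X a) := by
    field_simp
  have h2 : V ((α + β) * X i) = 1 := by
    by_cases hi : i = a
    · rw [hi, hone]
    · exact hVy i hi
  rw [h1, map_div₀, map_mul, h2, hone, mul_one, div_one]
  exact hαa

end MP2619.Q5
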