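import Pool.Agent.Lib.MP_2619d0_ag.Q5.Defs0
import Pool.Agent.Lib.MP_2619d0_ag.R.A8

/-!
Row 2619q5-M6b: fields of path A and B
-/

set_option autoImplicit false

namespace MP2619.Q5

open scoped NNReal
open IntermediateField MP2619.R MP2619.N Pool.Agent.Lib.MP_2619d0_ag Pool.Agent.Lib.MP_2619d0_ag.T

/-- Define an endomorphism on the generators (`MvPolynomial` / `FractionRing`: the images `-ε, β, α, t 0 + ε, t 1, ..` are again algebraically
independent; or construct it as a composition); its square is the identity on the generators, so it is an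
automorphism. `AlgebraicIndependent.aevalEquivField`. -/
theorem exists_sigma {B M : Type} [Field B] [Field M] [Algebra B M] (ε : M) (t : Fin 4 → M)
    (α β : M)
    (hind : AlgebraicIndependent B (Fin.cons ε (Fin.cons α (Fin.cons β t)) : Fin 7 → M))
    (hgen : adjoin B (Set.range (Fin.cons ε (Fin.cons α (Fin.cons β t)) : Fin 7 → M)) = ⊤) :
    ∃ σ : M ≃ₐ[B] M, σ ε = - ε ∧ σ (t 0) = t 0 + ε ∧ (∀ j, j ≠ 0 → σ (t j) = t j) ∧ σ α = β ∧
      σ β = α ∧ ∀ m, σ (σ m) = m := by
  classical
  obtain ⟨v, hv⟩ : ∃ v : Fin 7 → M, v = Fin.cons ε (Fin.cons α (Fin.cons β t)) := ⟨_, rfl⟩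
  rw [← hv] at hind hgen
  let s : MvPolynomial (Fin 7) B →ₐ[B] MvPolynomial (Fin 7) B :=
    MvPolynomial.aeval ![-MvPolynomial.X 0, MvPolynomial.X 2, MvPolynomial.X 1,
      MvPolynomial.X 3 + MvPolynomial.X 0, MvPolynomial.X 4, MvPolynomial.X 5, MvPolynomial.X 6]
  have hs : s.comp s = AlgHom.id B _ := by
    apply MvPolynomial.algHom_ext
    intro i
    fin_cases i <;> simp [s]
  let S : MvPolynomial (Fin 7) B ≃ₐ[B] MvPolynomial (Fin 7) B := AlgEquiv.ofAlgHom s s hs hs
  let T : FractionRing (MvPolynomial (Fin 7) B) ≃ₐ[B] FractionRing (MvPolynomial (Fin 7) B) :=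
    IsFractionRing.algEquivOfAlgEquiv S
  have hT : T.symm = T := rfl
  let e : FractionRing (MvPolynomial (Fin 7) B) ≃ₐ[B] M :=
    (hind.aevalEquivField.trans (IntermediateField.equivOfEq hgen)).trans
      IntermediateField.topEquiv
  have he : ∀ p : MvPolynomial (Fin 7) B, e (algebraMap _ _ p) = MvPolynomial.aeval v p := by
    intro p
    exact hind.aevalEquivField_algebraMap_apply_coe p
  have hTa : ∀ p : MvPolynomial (Fin 7) B, T (algebraMap _ _ p) = algebraMap _ _ (s p) := by
    intro p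
    exact IsFractionRing.algEquivOfAlgEquiv_algebraMap S p
  have hσ : ∀ i, (e.symm.trans (T.trans e)) (v i) =
      MvPolynomial.aeval v (s (MvPolynomial.X i)) := by
    intro i
    have h1 : e.symm (v i) = algebraMap _ _ (MvPolynomial.X i : MvPolynomial (Fin 7) B) := by
      rw [AlgEquiv.symm_apply_eq, he, MvPolynomial.aeval_X]
    change e (T (e.symm (v i))) = _
    rw [h1, hTa, he]
  have v0 : v 0 = ε := by rw [hv]; rfl
  have v1 : v 1 = α := by rw [hv]; rfl
  have v2 : v 2 = β := by rw [hv]; rfl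
  have v3 : v 3 = t 0 := by rw [hv]; rfl
  have v4 : v 4 = t 1 := by rw [hv]; rfl
  have v5 : v 5 = t 2 := by rw [hv]; rfl
  have v6 : v 6 = t 3 := by rw [hv]; rfl
  refine ⟨e.symm.trans (T.trans e), ?_, ?_, ?_, ?_, ?_, ?_⟩
  · rw [← v0, hσ]
    simp [s]
  · rw [← v3, hσ]
    simp [s, v0]
  · intro j hj
    fin_cases j
    · exact absurd rfl hj
    · change (e.symm.trans (T.trans e)) (t 1) = t 1
      rw [← v4, hσ]
      simp [s]
    · change (e.symm.trans (T.trans e)) (t 2) = t 2
      rw [← v5, hσ]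
      simp [s]
    · change (e.symm.trans (T.trans e)) (t 3) = t 3
      rw [← v6, hσ]
      simp [s]
  · rw [← v1, hσ]
    simp [s, v2]
  · rw [← v2, hσ]
    simp [s, v1]
  · intro m
    change e (T (e.symm (e (T (e.symm m))))) = m
    rw [AlgEquiv.symm_apply_apply]
    have h1 : T (T (e.symm m)) = e.symm m := by
      conv_lhs => rw [← hT]
      exact T.apply_symm_apply _
    rw [h1, AlgEquiv.apply_symm_apply]

end MP2619.Q5
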