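import Pool.Agent.Lib.MP_2619d0_ag.Q5.M7a
import Pool.Agent.Lib.MP_2619d0_ag.Q5.M6c

/-!
Row 2619q5-M7: path A
-/

set_option autoImplicit false

namespace MP2619.Q5

open scoped NNReal
open IntermediateField MP2619.R MP2619.N Pool.Agent.Lib.MP_2619d0_ag Pool.Agent.Lib.MP_2619d0_ag.T

private theorem M7_val {M N : Type} [Field M] [Field N] {k : Type} [Field k] [Algebra k M]
    [Algebra k N] {P : ValuationSubring M} {φ : P →+* N} (rm : RMap k P φ) (a : P) (h : φ a ≠ 0) :
    P.valuation (a : M) = 1 :=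
  le_antisymm ((P.valuation_le_one_iff _).2 a.2) (not_lt.1 fun h2 => h ((rm.zero a).2 h2))

private theorem M7_poly {B M N : Type} [Field B] [Field M] [Field N] [Algebra B M] [Algebra B N]
    {P : ValuationSubring M} {φ : P →+* N} (rm : RMap B P φ) {ι : Type} (a : ι → P)
    (Q : MvPolynomial ι B) : ∃ z : P, (z : M) = MvPolynomial.aeval (fun i => (a i : M)) Q ∧
      φ z = MvPolynomial.aeval (fun i => φ (a i)) Q := by
  induction Q using MvPolynomial.induction_on with
  | C b =>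
    exact ⟨⟨algebraMap B M b, rm.cst b⟩, by rw [MvPolynomial.aeval_C],
      by rw [MvPolynomial.aeval_C, rm.alg]⟩
  | add p q hp hq =>
    obtain ⟨z1, h1, h1'⟩ := hp
    obtain ⟨z2, h2, h2'⟩ := hq
    refine ⟨z1 + z2, ?_, ?_⟩
    · rw [map_add, ← h1, ← h2]
      rfl
    · rw [map_add, map_add, h1', h2']
  | mul_X p i hp =>
    obtain ⟨z1, h1, h1'⟩ := hp
    refine ⟨z1 * a i, ?_, ?_⟩
    · rw [map_mul, ← h1, MvPolynomial.aeval_X]
      rfl
    · rw [map_mul, map_mul, h1', MvPolynomial.aeval_X]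

private theorem M7_adj {B M N : Type} [Field B] [Field M] [Field N] [Algebra B M] [Algebra B N]
    {P : ValuationSubring M} {φ : P →+* N} (rm : RMap B P φ) {ι : Type} (a : ι → P)
    (h : AlgebraicIndependent B (fun i => φ (a i))) :
    ∀ b ∈ adjoin B (Set.range fun i => (a i : M)), b ∈ P := by
  intro b hb
  rw [mem_adjoin_range_iff] at hb
  obtain ⟨r, s, rfl⟩ := hb
  obtain ⟨z1, h1, -⟩ := M7_poly rm a r
  obtain ⟨z2, h2, h2'⟩ := M7_poly rm a s
  rw [← h1, ← h2, div_eq_mul_inv]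
  refine P.mul_mem _ _ z1.2 ?_
  by_cases hs : s = 0
  · have h3 : (z2 : M) = 0 := by rw [h2, hs, map_zero]
    rw [h3, inv_zero]
    exact P.zero_mem
  · have h3 : φ z2 ≠ 0 := by
      rw [h2']
      intro h0
      exact hs (h.eq_zero_of_aeval_eq_zero s h0)
    rw [← P.valuation_le_one_iff, map_inv₀, M7_val rm z2 h3, inv_one]

private theorem M7_pt {C M : Type} [Field C] [Field M] [Algebra C M] (G : Fin 5 → Fin 5 → C)
    (t : Fin 4 → M) (ε : M) (j : Fin 5) : pA G t ε j = algebraMap C M (G j 0) +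
      algebraMap C M (G j 1) * t 0 + algebraMap C M (G j 2) * t 1 + algebraMap C M (G j 3) * t 2 +
      algebraMap C M (G j 4) * t 3 + ε * algebraMap C M (G j 1) := by
  unfold pA pt
  rw [Fin.sum_univ_five]
  have h0 : (Fin.cons 1 t : Fin 5 → M) 0 = 1 := rfl
  have h1 : (Fin.cons 1 t : Fin 5 → M) 1 = t 0 := rfl
  have h2 : (Fin.cons 1 t : Fin 5 → M) 2 = t 1 := rfl
  have h3 : (Fin.cons 1 t : Fin 5 → M) 3 = t 2 := rfl
  have h4 : (Fin.cons 1 t : Fin 5 → M) 4 = t 3 := rfl
  rw [h0, h1, h2, h3, h4, mul_one]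

private theorem M7_fe {k M N : Type} [Field k] [Field M] [Field N] [Algebra k M] [Algebra k N]
    (f : Fin 6 → MvPolynomial (Fin 5) k) (g : M →ₐ[k] N) (p : Fin 5 → M) (i : Fin 6) :
    g (fe f p i) = fe f (fun j => g (p j)) i := by
  unfold fe
  rw [← AlgHom.comp_apply, MvPolynomial.comp_aeval]

variable {F : MvPolynomial (Fin 6) ℂ} {J : Type} {z : Exp3 6 ⊕ J → ℂ} {A : Type} [Field A]
  [CharZero A] [Algebra ℂ A] {u l : Fin 6 → A} {v2 : Valuation ℚ ℝ≥0} {V : Valuation A ℝ≥0}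

variable {k0 C B M : Type} [Field k0] [Field C] [Field B] [Field M] [Algebra k0 C] [Algebra k0 B]
  [Algebra k0 M] [Algebra C B] [Algebra C M] [Algebra B M] [IsScalarTower k0 C B]
  [IsScalarTower k0 C M] [IsScalarTower k0 B M] [IsScalarTower C B M]

/-- `ind7` (`BE_trans` for the transcendence of `e` over `B`), `exists_sigma`, `place0` for `E = adjoin B (range (α, β, t))`: `P0`;
`x`, `y` are in `P0` (polynomials in `e` over `E`), their residues are `α f(p)`, `β f(p)`: `gr_eq` and `hodd`. `σ P0 = P0`: the preimage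
`σ⁻¹ P0` contains `B(t, α, β)`, because the residues of `σ (t 0) = t 0 + e, t 1, .., β, α` are algebraically independent over `B`
(uniqueness in `place0`). `lex`, `lex_symm` with `pathA_esc`. -/
theorem pathA (hR : R2E) (S : St F z u l v2 V) (k1 : IntermediateField (Qz z) ℂ) (w : k1)
    [Algebra B k1] [Algebra B A] [Algebra k1 M] [IsScalarTower B k1 M] [IsScalarTower B k1 A]
    (e : k1) (j : J) (hB : BE z k1 B e j) (wB : B) (hw : algebraMap B k1 wB = w)
    (f : Fin 6 → MvPolynomial (Fin 5) k0) (hd : ∃ d, ∀ i, (f i).IsHomogeneous d) (hm : Mult2 f)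
    (G : Fin 5 → Fin 5 → C) (hG : AlgebraicIndependent k0 (fun q : Fin 5 × Fin 5 => G q.1 q.2))
    (h : Fin 2 → B) (hh : AlgebraicIndependent C h) (t : Fin 4 → M) (α β : M)
    (hv : AlgebraicIndependent k1 (Fin.cons α (Fin.cons β t) : Fin 6 → M))
    (hgen : adjoin k1 (Set.range (Fin.cons α (Fin.cons β t) : Fin 6 → M)) = ⊤)
    (hf0 : fe f (pA G t 0) ≠ 0) (x y : Fin 6 → M)
    (hx : ∀ i, x i = α * fe f (pA G t 0) i)
    (hy : ∀ i, y i = β * fe f (pA G t (algebraMap k1 M e)) i) (hD : Dat F z k1 w x y)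
    (a : Fin 6)
    (hodd : ∀ x0 y0 : Fin 6 → adjoin B (Set.range (Fin.cons α (Fin.cons β t) : Fin 6 → M)),
      (∀ i, (x0 i : M) = α * fe f (pA G t 0) i) → (∀ i, (y0 i : M) = β * fe f (pA G t 0) i) →
      Odd (gc V wB u x0 y0 (Pi.single a 1))) :
    Odd (gc V w u x y (Pi.single a 1)) := by
  classical
  -- transcendence of `e`
  have he : Transcendental B e := by
    have h1 := BE_trans S k1 e j hB
    intro halg
    have h2 : IsAlgebraic B (algebraMap k1 A e) := halg.algebraMap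
    have h3 : IsAlgebraic (adjoin B (Set.range u)) (algebraMap k1 A e) :=
      h2.tower_top (adjoin B (Set.range u))
    have h4 : algebraMap k1 A e ∈ algebraicClosure (adjoin B (Set.range u)) A :=
      mem_algebraicClosure_iff.mpr h3
    exact h1 (isAlgebraic_algebraMap
      (⟨algebraMap k1 A e, h4⟩ : algebraicClosure (adjoin B (Set.range u)) A))
  obtain ⟨hi1, hi2, hi3, hi4, hi5⟩ := ind7 e he hB.gen _ hv hgen
  set ε : M := algebraMap k1 M e with hε
  obtain ⟨σ, s1, s2, s3, s4, s5, s6⟩ := exists_sigma ε t α β hi1 hi2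
  set v : Fin 6 → M := Fin.cons α (Fin.cons β t) with hvdef
  obtain ⟨P0, φ, rm, dv, ho, hlt, hE, huniq⟩ := place0 (adjoin B (Set.range v)) ε hi3 hi4
  have rm0 : RMap k0 P0 φ := rm.restrict
  have hα0 : α ≠ 0 := hv.ne_zero 0
  have hβ0 : β ≠ 0 := hv.ne_zero 1
  have hvE : ∀ i, v i ∈ adjoin B (Set.range v) := fun i => subset_adjoin _ _ ⟨i, rfl⟩
  have hαE : α ∈ adjoin B (Set.range v) := hvE 0
  have hβE : β ∈ adjoin B (Set.range v) := hvE 1
  have htE : ∀ j, t j ∈ adjoin B (Set.range v) := fun j => hvE j.succ.succ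
  have hCE : ∀ c : C, algebraMap C M c ∈ adjoin B (Set.range v) := by
    intro c
    rw [IsScalarTower.algebraMap_apply C B M]
    exact IntermediateField.algebraMap_mem _ _
  have hEP : ∀ b ∈ adjoin B (Set.range v), b ∈ P0 := fun b hb => (hE ⟨b, hb⟩).1
  have hφE : ∀ (b : M) (hb : b ∈ adjoin B (Set.range v)), φ ⟨b, hEP b hb⟩ = ⟨b, hb⟩ :=
    fun b hb => (hE ⟨b, hb⟩).2
  have hεP : ε ∈ P0 := (P0.valuation_le_one_iff _).1 hlt.le
  have hφε : φ ⟨ε, hεP⟩ = 0 := (rm.zero _).2 hlt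
  have hpE : ∀ j, pA G t 0 j ∈ adjoin B (Set.range v) := by
    intro j
    rw [M7_pt, zero_mul, add_zero]
    exact add_mem (add_mem (add_mem (add_mem (hCE _) (mul_mem (hCE _) (htE _)))
      (mul_mem (hCE _) (htE _))) (mul_mem (hCE _) (htE _))) (mul_mem (hCE _) (htE _))
  have hfE : ∀ i, fe f (pA G t 0) i ∈ adjoin B (Set.range v) := by
    intro i
    exact fe_mem f ((adjoin B (Set.range v)).restrictScalars k0) _ hpE i
  have hxE : ∀ i, x i ∈ adjoin B (Set.range v) := by
    intro i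
    rw [hx]
    exact mul_mem hαE (hfE i)
  have hxP : ∀ i, x i ∈ P0 := fun i => hEP _ (hxE i)
  -- the second point
  have hqe : ∀ j, pA G t ε j = pA G t 0 j + ε * algebraMap C M (G j 1) := by
    intro j
    rw [M7_pt, M7_pt]
    ring
  have hq : ∀ j, ∃ q : P0, (q : M) = pA G t ε j ∧ φ q = ⟨pA G t 0 j, hpE j⟩ := by
    intro j
    refine ⟨⟨pA G t 0 j, hEP _ (hpE j)⟩ + ⟨ε, hεP⟩ * ⟨algebraMap C M (G j 1), hEP _ (hCE _)⟩,
      (hqe j).symm, ?_⟩
    rw [map_add, map_mul, hφε, zero_mul, add_zero]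
    exact hφE _ (hpE j)
  choose q hq1 hq2 using hq
  have hyr : ∀ i, ∃ b : P0, (b : M) = y i ∧ φ b = ⟨β, hβE⟩ * ⟨fe f (pA G t 0) i, hfE i⟩ := by
    intro i
    obtain ⟨c, hc1, hc2⟩ := fe_res f rm0 q i
    refine ⟨⟨β, hEP _ hβE⟩ * c, ?_, ?_⟩
    · change β * (c : M) = y i
      rw [hy, hc1]
      have h1 : (fun j => (q j : M)) = pA G t ε := funext hq1
      rw [h1]
    · rw [map_mul, hφE _ hβE, hc2]
      congr 1
      apply Subtype.ext
      have h1 := M7_fe f ((adjoin B (Set.range v)).val.restrictScalars k0) (fun j => φ (q j)) i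
      change ((fe f (fun j => φ (q j)) i : adjoin B (Set.range v)) : M) = _ at h1
      rw [h1]
      congr 1
      funext j
      rw [hq2]
      rfl
  have hyP : ∀ i, y i ∈ P0 := by
    intro i
    obtain ⟨b, hb, -⟩ := hyr i
    rw [← hb]
    exact b.2
  have hg0 : Odd (gr V wB u x y P0 (Pi.single a 1)) := by
    rw [gr_eq V wB u x y P0 φ rm hxP hyP]
    refine hodd _ _ (fun i => ?_) (fun i => ?_)
    · rw [hφE _ (hxE i), ← hx]
    · obtain ⟨b, hb1, hb2⟩ := hyr i
      have h1 : b = ⟨y i, hyP i⟩ := Subtype.ext hb1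
      rw [← h1, hb2]
      rfl
  -- the symmetry
  have hσC : ∀ c : C, σ (algebraMap C M c) = algebraMap C M c := by
    intro c
    rw [IsScalarTower.algebraMap_apply C B M, σ.commutes]
  have hσp : ∀ j, σ (pA G t 0 j) = pA G t ε j := by
    intro j
    rw [M7_pt, M7_pt]
    simp only [map_add, map_mul, hσC, map_zero, s2, s3 1 (by decide), s3 2 (by decide),
      s3 3 (by decide)]
    ring
  have hσx : ∀ i, σ (x i) = y i := by
    intro i
    rw [hx, hy, map_mul, s4]
    have h1 := M7_fe f ((σ : M →ₐ[B] M).restrictScalars k0) (pA G t 0) i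
    change σ (fe f (pA G t 0) i) = fe f (fun j => σ (pA G t 0 j)) i at h1
    rw [h1, funext hσp]
  have hσy : ∀ i, σ (y i) = x i := by
    intro i
    rw [← hσx, s6]
  have hs0 : ∀ m : M, σ m ∈ P0 ↔ m ∈ P0 := by
    have hP' : ∀ m : M, m ∈ P0.comap (σ : M →+* M) ↔ σ m ∈ P0 := fun m => Iff.rfl
    have hav : ∀ i : Fin 6, ∃ b : P0, (b : M) = σ (v i) ∧
        ((φ b : adjoin B (Set.range v)) : M) = v (Equiv.swap 0 1 i) := by
      intro i
      refine Fin.cases ?_ (fun i => ?_) i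
      · refine ⟨⟨β, hEP _ hβE⟩, ?_, ?_⟩
        · exact s4.symm
        · rw [hφE _ hβE, Equiv.swap_apply_left]
          rfl
      refine Fin.cases ?_ (fun i => ?_) i
      · refine ⟨⟨α, hEP _ hαE⟩, ?_, ?_⟩
        · exact s5.symm
        · rw [hφE _ hαE]
          rfl
      refine Fin.cases ?_ (fun i => ?_) i
      · refine ⟨⟨t 0, hEP _ (htE 0)⟩ + ⟨ε, hεP⟩, ?_, ?_⟩
        · exact s2.symm
        · rw [map_add, hφε, add_zero, hφE _ (htE 0)]
          rfl
      · refine ⟨⟨t i.succ, hEP _ (htE _)⟩, ?_, ?_⟩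
        · exact (s3 _ (Fin.succ_ne_zero i)).symm
        · rw [hφE _ (htE _), Equiv.swap_apply_of_ne_of_ne]
          · rfl
          · exact Fin.succ_ne_zero _
          · intro h1
            have h2 := congrArg Fin.val h1
            simp only [Fin.val_succ, Fin.val_one] at h2
            omega
    choose b hb1 hb2 using hav
    have hbi : AlgebraicIndependent B (fun i => φ (b i)) := by
      rw [← AlgHom.algebraicIndependent_iff (adjoin B (Set.range v)).val
        (adjoin B (Set.range v)).val.injective]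
      have h1 : ((adjoin B (Set.range v)).val ∘ fun i => φ (b i)) =
          v ∘ (Equiv.swap (0 : Fin 6) 1) := funext hb2
      rw [h1]
      exact hi5.comp _ (Equiv.injective _)
    have h1 := M7_adj rm b hbi
    have h2 : ∀ m ∈ adjoin B (Set.range v), σ m ∈ P0 := by
      intro m hm
      refine h1 _ ?_
      have h3 : (Set.range fun i => (b i : M)) = (σ : M →ₐ[B] M) '' Set.range v := by
        rw [← Set.range_comp]
        congr 1
        exact funext hb1
      rw [h3, ← adjoin_map]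
      exact ⟨m, hm, rfl⟩
    have h3 : ∀ m : M, σ.symm m ∈ P0.comap (σ : M →+* M) ↔ m ∈ P0 := by
      intro m
      rw [hP', σ.apply_symm_apply]
    obtain ⟨-, -, h4⟩ := ord_map σ.symm P0 (P0.comap (σ : M →+* M)) h3 dv
    have h5 : (P0.comap (σ : M →+* M)).valuation ε < 1 := by
      have h6 : σ.symm (-ε) = ε := by
        rw [← s1, σ.symm_apply_apply]
      have h7 := (h4 (-ε)).2 (by rw [Valuation.map_neg]; exact hlt)
      rw [h6] at h7
      exact h7
    have h6 : P0.comap (σ : M →+* M) = P0 := huniq _ (fun m hm => (hP' m).2 (h2 m hm)) h5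
    intro m
    rw [← hP', h6]
  -- the end
  refine lex_symm S k1 w x y hD e j hB wB hw a
    (lex S.ctx v2 S.two V S.wt k1 w x y hD _ e j hB wB hw) σ s1 hσx hσy s6 P0
    ⟨dv, rm.cst, hlt, hxP, hyP⟩ hs0 ho hg0 ?_
  intro P hP hs hne
  refine pathA_esc hR S k1 w e j hB wB hw f hd hm G hG h hh t α β hα0 hβ0 hf0 x y hx hy hD σ
    s1 s2 s3 s4 s5 a P hP hs ?_
  intro hall
  refine hne (huniq P (fun b hb => hall b ?_) hP.pos)
  refine adjoin.mono B _ _ ?_ hb
  rintro _ ⟨i, rfl⟩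
  refine Fin.cases ?_ (fun i => ?_) i
  · exact .inr (.inl rfl)
  refine Fin.cases ?_ (fun i => ?_) i
  · exact .inr (.inr rfl)
  · exact .inl ⟨i, rfl⟩

end MP2619.Q5
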