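import Pool.Agent.Lib.MP_2619d0_ag.Q5.Lex
import Pool.Agent.Lib.MP_2619d0_ag.Q5.C7a
import Pool.Agent.Lib.MP_2619d0_ag.Q5.C11c
import Pool.Agent.Lib.MP_2619d0_ag.Q5.G20
import Pool.Agent.Lib.MP_2619d0_ag.Q5.K5
import Pool.Agent.Lib.MP_2619d0_ag.Q5.M3
import Pool.Agent.Lib.MP_2619d0_ag.Q5.M6a
import Pool.Agent.Lib.MP_2619d0_ag.Q5.M6b

/-!
Row 2619q5-M7a: path A
-/

set_option autoImplicit false

namespace MP2619.Q5

open scoped NNReal
open IntermediateField MP2619.R MP2619.N Pool.Agent.Lib.MP_2619d0_ag Pool.Agent.Lib.MP_2619d0_ag.T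

variable {F : MvPolynomial (Fin 6) ℂ} {J : Type} {z : Exp3 6 ⊕ J → ℂ} {A : Type} [Field A]
  [CharZero A] [Algebra ℂ A] {u l : Fin 6 → A} {v2 : Valuation ℚ ℝ≥0} {V : Valuation A ℝ≥0}

variable {k0 C B M : Type} [Field k0] [Field C] [Field B] [Field M] [Algebra k0 C] [Algebra k0 B]
  [Algebra k0 M] [Algebra C B] [Algebra C M] [Algebra B M] [IsScalarTower k0 C B]
  [IsScalarTower k0 C M] [IsScalarTower k0 B M] [IsScalarTower C B M]

/-- a Gauss family is algebraically independent -/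
private theorem M7a_ind {k A : Type} [Field k] [Field A] [Algebra k A] (V : Valuation A ℝ≥0)
    {n : ℕ} (u : Fin n → A) (hu : IsGauss k V u) : AlgebraicIndependent k u := by
  rw [algebraicIndependent_iff]
  intro p hp
  by_contra hp0
  obtain ⟨m0, hm0⟩ := MvPolynomial.support_nonempty.2 hp0
  have h1 := hu p
  rw [hp, map_zero] at h1
  have h2 : V (algebraMap k A (p.coeff m0)) ≤ 0 := by
    rw [h1]
    exact Finset.le_sup (f := fun m => V (algebraMap k A (p.coeff m))) hm0
  have h3 : V (algebraMap k A (p.coeff m0)) = 0 := nonpos_iff_eq_zero.1 h2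
  rw [Valuation.zero_iff, map_eq_zero] at h3
  exact MvPolynomial.mem_support_iff.1 hm0 h3

/-- One place on path A. `N` = the residue field of `P` (`exists_RMap`), `Algebra C N`, `Algebra k0 N` by composition. Suppose `gr` is odd.
`gr_eq`, `zg_ind`: the residue of `zg` is algebraically independent; `gr_even_x`: `F3`. So `Esc` holds (`σ` as given), `esc`
gives: `adjoin B (t, α, β) ⊆ P`, so `P = P0` (`hP0`), or `CPLD`, and then `gr = gc` (over `N`) is even by `CPL` (`hfin` from `gr_data`;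
`V 2 < 1` and `IsGauss B V u` from `Q9_one`, `gauss_restrict`). -/
theorem pathA_esc (hR : R2E) (S : St F z u l v2 V) (k1 : IntermediateField (Qz z) ℂ) (w : k1)
    [Algebra B k1] [Algebra B A] [Algebra k1 M] [IsScalarTower B k1 M] [IsScalarTower B k1 A]
    (e : k1) (j : J) (hB : BE z k1 B e j) (wB : B) (hw : algebraMap B k1 wB = w)
    (f : Fin 6 → MvPolynomial (Fin 5) k0) (hd : ∃ d, ∀ i, (f i).IsHomogeneous d) (hm : Mult2 f)
    (G : Fin 5 → Fin 5 → C) (hG : AlgebraicIndependent k0 (fun q : Fin 5 × Fin 5 => G q.1 q.2))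
    (h : Fin 2 → B) (hh : AlgebraicIndependent C h) (t : Fin 4 → M) (α β : M) (hα : α ≠ 0)
    (hβ : β ≠ 0) (hf0 : fe f (pA G t 0) ≠ 0) (x y : Fin 6 → M)
    (hx : ∀ i, x i = α * fe f (pA G t 0) i)
    (hy : ∀ i, y i = β * fe f (pA G t (algebraMap k1 M e)) i) (hD : Dat F z k1 w x y)
    (σ : M ≃ₐ[B] M) (h1 : σ (algebraMap k1 M e) = - algebraMap k1 M e)
    (h2 : σ (t 0) = t 0 + algebraMap k1 M e) (h3 : ∀ j, j ≠ 0 → σ (t j) = t j) (h4 : σ α = β)
    (h5 : σ β = α) (a : Fin 6) (P : ValuationSubring M)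
    (hP : EP B (algebraMap k1 M e) x y P) (hs : ∀ m : M, σ m ∈ P ↔ m ∈ P)
    (hne : ¬ ∀ b ∈ adjoin B (Set.range t ∪ {α, β}), b ∈ P) :
    Even (gr V wB u x y P (Pi.single a 1)) := by
  by_contra hodd
  have hne0 : gr V wB u x y P (Pi.single a 1) ≠ 0 := by
    intro h0
    exact hodd (by rw [h0]; exact Even.zero)
  obtain ⟨N, iN, aBN, φ, hφ⟩ := exists_RMap P hP.cst
  obtain ⟨hind, hfin, -⟩ := gr_data S k1 w x y hD e j hB wB hw P hP φ hφ (Pi.single a 1) hne0
  have hF3 : ¬ Algebra.trdeg B (rat B (fun i => φ ⟨x i, hP.x_mem i⟩)) ≤ 2 := fun h0 =>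
    hodd (gr_even_x hR S k1 w x y hD e j hB wB hw P hP φ hφ h0 a)
  let aCN : Algebra C N := ((algebraMap B N).comp (algebraMap C B)).toAlgebra
  let ak0N : Algebra k0 N := ((algebraMap B N).comp (algebraMap k0 B)).toAlgebra
  have t1 : IsScalarTower C B N := IsScalarTower.of_algebraMap_eq fun _ => rfl
  have t2 : IsScalarTower k0 B N := IsScalarTower.of_algebraMap_eq fun _ => rfl
  have t3 : IsScalarTower k0 C N := IsScalarTower.of_algebraMap_eq fun r => by
    change algebraMap B N (algebraMap k0 B r) = algebraMap B N (algebraMap C B (algebraMap k0 C r))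
    rw [← IsScalarTower.algebraMap_apply k0 C B]
  have cB : CharZero B := (algebraMap B k1).charZero
  have cN : CharZero N := charZero_of_injective_algebraMap (algebraMap B N).injective
  have cl : IsAlgClosed A := S.ctx.closed
  have he0 : algebraMap k1 M e ≠ 0 := by
    intro h0
    have h0' : e = 0 := (map_eq_zero _).1 h0
    have h6 := BE_trans S k1 e j hB
    rw [h0', map_zero] at h6
    exact h6 isAlgebraic_zero
  obtain ⟨hV2, hGk, -, -⟩ := Q9_one S.ctx v2 S.two V S.wt a k1 w x y hD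
  have hG1 : IsGauss B V u := gauss_restrict V u hGk
  have hwB : wB ^ 2 + wB + 1 = 0 := by
    apply (algebraMap B k1).injective
    rw [map_add, map_add, map_pow, map_one, map_zero, hw]
    exact hD.om
  have E : Esc f G (algebraMap k1 M e) t α β σ P φ (fun i => ⟨x i, hP.x_mem i⟩)
      (fun i => ⟨y i, hP.y_mem i⟩) wB a :=
    { hom := hd
      indG := hG
      rm := hφ
      dv := hP.dv
      e0 := he0
      a0 := hα
      b0 := hβ
      x0 := hf0
      x_eq := hx
      y_eq := hy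
      s_e := h1
      s_0 := h2
      s_t := h3
      s_a := h4
      s_b := h5
      eps := hP.pos
      sig := hs
      ind := hind
      F3 := hF3 }
  rcases esc E hm h hh with h6 | h6
  · exact hne h6
  · obtain ⟨K0, b, c, X, Y, θ, hK0, hb, hc, hxX, hyY, hqX, hqY, hθ, hθx, hθy⟩ := h6
    apply hodd
    rw [gr_eq V wB u x y P φ hφ hP.x_mem hP.y_mem]
    exact CPL V hV2 wB hwB u hG1 (M7a_ind V u hG1) _ _ a hfin K0 hK0 b hb c hc X Y hxX hyY hqX hqY
      θ hθ hθx hθy

end MP2619.Q5
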