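import Mathlib

/-!
Row N5b: a form which vanishes to order three at `P0`, restricted to the plane spanned by `P0` and `y`.
-/

set_option autoImplicit false

namespace MP2619.Q5

open MvPolynomial

private theorem N5b_deg {E : Type*} [Field E] {h : MvPolynomial (Fin 2) E} {e : ℕ} (hh : h.IsHomogeneous e)
    {d : Fin 2 →₀ ℕ} (hd : coeff d h ≠ 0) : d.degree = e := by
  rw [Finsupp.degree_eq_weight_one]
  exact hh hd

private theorem N5b_coeff {E : Type*} [Field E] (h : MvPolynomial (Fin 2) E) {e : ℕ} (hh : h.IsHomogeneous e)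
    (m : Fin 2 →₀ ℕ) (hm : m 0 + m 1 = e) :
    (aeval (![1, Polynomial.X] : Fin 2 → Polynomial E) h).coeff (m 1) = coeff m h := by
  rw [aeval_def, eval₂_eq', Polynomial.finsetSum_coeff, Finset.sum_eq_single m]
  · rw [Fin.prod_univ_two]
    simp only [Matrix.cons_val_zero, Matrix.cons_val_one, one_pow, one_mul]
    rw [← Polynomial.C_eq_algebraMap, Polynomial.coeff_C_mul, Polynomial.coeff_X_pow, if_pos rfl, mul_one]
  · intro d hd hdm
    rw [Fin.prod_univ_two]
    simp only [Matrix.cons_val_zero, Matrix.cons_val_one, one_pow, one_mul]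
    rw [← Polynomial.C_eq_algebraMap, Polynomial.coeff_C_mul, Polynomial.coeff_X_pow, if_neg, mul_zero]
    intro hd1
    apply hdm
    have h2 : d.degree = e := N5b_deg hh (mem_support_iff.1 hd)
    have h3 : d 0 + d 1 = e := by
      rw [← h2, Finsupp.degree_eq_sum, Fin.sum_univ_two]
    ext i
    fin_cases i
    · simp only [Fin.zero_eta]
      omega
    · exact hd1.symm
  · intro hm0
    rw [notMem_support_iff.1 hm0]
    simp

private theorem N5b_dvd {E : Type*} [Field E] [Algebra ℂ E] (f : MvPolynomial (Fin 5) ℂ) (P0 : Fin 5 → ℂ)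
    (hm : ∀ m : Fin 5 →₀ ℕ, m.degree ≤ 2 → coeff m (aeval
      (fun j => C (P0 j) + X j : Fin 5 → MvPolynomial (Fin 5) ℂ) f) = 0) (y : Fin 5 → E) :
    (Polynomial.X : Polynomial E) ^ 3 ∣ aeval (![1, Polynomial.X] : Fin 2 → Polynomial E)
      (aeval (fun j => C (algebraMap ℂ E (P0 j)) * X 0 + C (y j) * X 1 :
        Fin 5 → MvPolynomial (Fin 2) E) f) := by
  have h1 : aeval (![1, Polynomial.X] : Fin 2 → Polynomial E)
      (aeval (fun j => C (algebraMap ℂ E (P0 j)) * X 0 + C (y j) * X 1 :
        Fin 5 → MvPolynomial (Fin 2) E) f) =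
      aeval (fun j => Polynomial.C (y j) * Polynomial.X : Fin 5 → Polynomial E)
        (aeval (fun j => C (P0 j) + X j : Fin 5 → MvPolynomial (Fin 5) ℂ) f) := by
    have h2 : ((aeval (![1, Polynomial.X] : Fin 2 → Polynomial E)).restrictScalars ℂ).comp
        (aeval (fun j => C (algebraMap ℂ E (P0 j)) * X 0 + C (y j) * X 1 :
          Fin 5 → MvPolynomial (Fin 2) E)) =
        (aeval (fun j => Polynomial.C (y j) * Polynomial.X : Fin 5 → Polynomial E) :
          MvPolynomial (Fin 5) ℂ →ₐ[ℂ] Polynomial E).comp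
        (aeval (fun j => C (P0 j) + X j : Fin 5 → MvPolynomial (Fin 5) ℂ)) := by
      apply MvPolynomial.algHom_ext
      intro j
      simp only [AlgHom.comp_apply, aeval_X, AlgHom.restrictScalars_apply, map_add, map_mul, aeval_C]
      simp [Polynomial.C_eq_algebraMap, IsScalarTower.algebraMap_apply ℂ E (Polynomial E)]
    exact DFunLike.congr_fun h2 f
  rw [h1]
  set g := aeval (fun j => C (P0 j) + X j : Fin 5 → MvPolynomial (Fin 5) ℂ) f with hg
  rw [aeval_def, eval₂_eq']
  apply Finset.dvd_sum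
  intro d hd
  have hd3 : 3 ≤ d.degree := by
    by_contra hlt
    exact mem_support_iff.1 hd (hm d (by omega))
  have e1 : ∏ i, (Polynomial.C (y i) * Polynomial.X : Polynomial E) ^ d i =
      (∏ i, Polynomial.C (y i) ^ d i) * Polynomial.X ^ d.degree := by
    rw [Finsupp.degree_eq_sum, ← Finset.prod_pow_eq_pow_sum, ← Finset.prod_mul_distrib]
    exact Finset.prod_congr rfl fun i _ => mul_pow _ _ _
  rw [e1]
  exact Dvd.dvd.mul_left (Dvd.dvd.mul_left (pow_dvd_pow _ hd3) _) _

/-- Let `h` be the right hand side. `h` is homogeneous of degree `e` (linear forms inserted into a form of degree `e`: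
`IsHomogeneous.aeval` or `eval₂`). Claim: `coeff m h = 0` if `m 1 ≤ 2`. Let `ψ : MvPolynomial (Fin 2) E → E[T]`, `X 0 ↦ 1`,
`X 1 ↦ T` (`aeval ![1, T]`). Since `h` is homogeneous, the coefficient of `T ^ b` in `ψ h` is the coefficient
of `X 0 ^ (e - b) X 1 ^ b` in `h`. `ψ h = f (P0 + y T)` is `g (y T)` with `g = aeval (fun j => C (P0 j) + X j) f`, the sum over the
monomials `m` of `g` of `c_m (∏ y_j ^ m_j) T ^ m.degree`; by `hm` only `m.degree ≥ 3` occur, so `T³` divides `ψ h`.
Put `φ = divMonomial h (single 1 3)` (`coeff_divMonomial`): `X 1 ^ 3 * φ = h` by comparison of coefficients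
(`coeff_monomial_mul'` or `divMonomial_add_modMonomial`), and `φ` is homogeneous of degree `e - 3`. -/
theorem N5b_form {E : Type*} [Field E] [Algebra ℂ E] (f : MvPolynomial (Fin 5) ℂ) {e : ℕ}
    (he : 3 ≤ e) (hd : f.IsHomogeneous e) (P0 : Fin 5 → ℂ)
    (hm : ∀ m : Fin 5 →₀ ℕ, m.degree ≤ 2 → coeff m (aeval
      (fun j => C (P0 j) + X j : Fin 5 → MvPolynomial (Fin 5) ℂ) f) = 0) (y : Fin 5 → E) :
    ∃ φ : MvPolynomial (Fin 2) E, φ.IsHomogeneous (e - 3) ∧
      X 1 ^ 3 * φ = aeval (fun j => C (algebraMap ℂ E (P0 j)) * X 0 + C (y j) * X 1 :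
        Fin 5 → MvPolynomial (Fin 2) E) f := by
  have hdvd := N5b_dvd f P0 hm y
  set h := aeval (fun j => C (algebraMap ℂ E (P0 j)) * X 0 + C (y j) * X 1 :
        Fin 5 → MvPolynomial (Fin 2) E) f with hh
  have hhom : h.IsHomogeneous e := by
    have h1 := IsHomogeneous.aeval (n := 1) hd
      (fun j => C (algebraMap ℂ E (P0 j)) * X 0 + C (y j) * X 1 : Fin 5 → MvPolynomial (Fin 2) E)
      (fun j => by
        have h2 : ∀ (c : E) (i : Fin 2), (C c * X i : MvPolynomial (Fin 2) E).IsHomogeneous 1 := fun c i => by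
          have := (isHomogeneous_C (Fin 2) c).mul (isHomogeneous_X E i)
          rwa [zero_add] at this
        exact (h2 _ _).add (h2 _ _))
    rwa [one_mul] at h1
  have hzero : ∀ m : Fin 2 →₀ ℕ, m 1 < 3 → coeff m h = 0 := by
    intro m hm1
    by_contra hne
    have h2 : m.degree = e := N5b_deg hhom hne
    have h3 : m 0 + m 1 = e := by
      rw [← h2, Finsupp.degree_eq_sum, Fin.sum_univ_two]
    rw [← N5b_coeff h hhom m h3] at hne
    exact hne (Polynomial.X_pow_dvd_iff.1 hdvd (m 1) hm1)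
  have hmod : modMonomial h (Finsupp.single 1 3) = 0 := by
    ext m
    rw [coeff_zero]
    by_cases hle : Finsupp.single 1 3 ≤ m
    · exact coeff_modMonomial_of_le h hle
    · rw [coeff_modMonomial_of_not_le h hle]
      apply hzero
      rw [Finsupp.single_le_iff] at hle
      omega
  refine ⟨divMonomial h (Finsupp.single 1 3), ?_, ?_⟩
  · intro m hm0
    rw [coeff_divMonomial] at hm0
    have h2 : (Finsupp.single 1 3 + m).degree = e := N5b_deg hhom hm0
    rw [map_add, Finsupp.degree_single] at h2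
    have h3 : m.degree = e - 3 := by omega
    rw [← h3, Finsupp.degree_eq_weight_one]
    rfl
  · have h1 := divMonomial_add_modMonomial h (Finsupp.single 1 3)
    rw [hmod, add_zero] at h1
    rw [X_pow_eq_monomial]
    exact h1

end MP2619.Q5
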