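import Pool.Agent.Lib.MP_2619d0_ag.Q5.S0
import Pool.Agent.Lib.MP_2619d0_ag.N.A3
import Pool.Agent.Lib.MP_2619d0_ag.N.A5
import Pool.Agent.Lib.MP_2619d0_ag.N.A7
import Pool.Agent.Lib.MP_2619d0_ag.N.A8
import Pool.Agent.Lib.MP_2619d0_ag.N.G3

/-!
# Q5, row P1: gap lemma for the path
-/

set_option autoImplicit false

namespace MP2619.Q5

open scoped NNReal
open Polynomial IntermediateField MP2619.R MP2619.N Pool.Agent.Lib.MP_2619d0_ag Pool.Agent.Lib.MP_2619d0_ag.T

section P1a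

variable {A : Type} [Field A]

private theorem P1_pred {n k : ℕ} (d : Fin n →₀ ℕ) (hd : d.degree = k + 1) :
    ∃ (i : Fin n) (d' : Fin n →₀ ℕ), d'.degree = k ∧ d = Finsupp.single i 1 + d' := by
  have hne : d ≠ 0 := by
    rintro rfl
    simp at hd
  obtain ⟨i, hi⟩ := Finsupp.ne_iff.1 hne
  have hi1 : 1 ≤ d i := Nat.one_le_iff_ne_zero.2 hi
  have hle : Finsupp.single i 1 ≤ d := by
    rw [Finsupp.single_le_iff]
    exact hi1
  refine ⟨i, d - Finsupp.single i 1, ?_, (add_tsub_cancel_of_le hle).symm⟩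
  have h1 : (Finsupp.single i 1 + (d - Finsupp.single i 1)).degree = d.degree := by
    rw [add_tsub_cancel_of_le hle]
  rw [map_add, Finsupp.degree_single, hd] at h1
  omega

private theorem P1_prod_add {n : ℕ} (z : Fin n → A) (i : Fin n) (d : Fin n →₀ ℕ) :
    ∏ j, z j ^ ((Finsupp.single i 1 + d : Fin n →₀ ℕ) j) = z i * ∏ j, z j ^ (d j) := by
  classical
  have h : ∀ j, z j ^ ((Finsupp.single i 1 + d : Fin n →₀ ℕ) j) =
      (z j ^ ((Finsupp.single i 1 : Fin n →₀ ℕ) j)) * z j ^ (d j) := by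
    intro j
    rw [Finsupp.add_apply, pow_add]
  rw [Finset.prod_congr rfl (fun j _ => h j), Finset.prod_mul_distrib]
  congr 1
  rw [Finset.prod_eq_single i]
  · simp
  · intro j _ hj
    rw [Finsupp.single_apply, if_neg (Ne.symm hj), pow_zero]
  · intro h
    exact absurd (Finset.mem_univ i) h

private theorem P1_mono (V : Valuation A ℝ≥0) {n : ℕ} (z : Fin n → A) (ρ : ℝ≥0)
    (hz : ∀ i, V (z i) ≤ ρ) (k : ℕ) (d : Fin n →₀ ℕ) (hd : d.degree = k) :
    V (∏ i, z i ^ d i) ≤ ρ ^ k := by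
  induction k generalizing d with
  | zero =>
    rw [Finsupp.degree_eq_zero_iff] at hd
    subst hd
    simp
  | succ k ih =>
    obtain ⟨i, d', hd', rfl⟩ := P1_pred d hd
    rw [P1_prod_add z, map_mul, pow_succ']
    exact mul_le_mul' (hz i) (ih d' hd')

variable [Algebra ℂ A]

private theorem P1_aeval {n : ℕ} (P : MvPolynomial (Fin n) ℂ) (z : Fin n → A) :
    MvPolynomial.aeval z P =
      ∑ d ∈ P.support, algebraMap ℂ A (MvPolynomial.coeff d P) * ∏ i, z i ^ d i := by
  rw [MvPolynomial.aeval_def, MvPolynomial.eval₂_eq']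

private theorem P1_deg {n : ℕ} (P : MvPolynomial (Fin n) ℂ)
    (hP : P.IsHomogeneous 3) (d : Fin n →₀ ℕ) (hd : d ∈ P.support) : d.degree = 3 := by
  by_contra h
  exact (MvPolynomial.mem_support_iff.1 hd) (hP.coeff_eq_zero h)

private theorem P1_bound (V : Valuation A ℝ≥0) {n : ℕ} (P : MvPolynomial (Fin n) ℂ)
    (hP : P.IsHomogeneous 3) (c : ℝ≥0)
    (hc : ∀ d ∈ P.support, V (algebraMap ℂ A (MvPolynomial.coeff d P)) ≤ c)
    (z : Fin n → A) (ρ : ℝ≥0) (hz : ∀ i, V (z i) ≤ ρ) :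
    V (MvPolynomial.aeval z P) ≤ c * ρ ^ 3 := by
  rw [P1_aeval]
  refine V.map_sum_le fun d hd => ?_
  rw [map_mul]
  exact mul_le_mul' (hc d hd) (P1_mono V z ρ hz 3 d (P1_deg P hP d hd))

private theorem P1_single {n : ℕ} (d : Fin n →₀ ℕ) :
    MvPolynomial.coeff d (∑ i : Fin n, MvPolynomial.monomial (Finsupp.single i 3) (1 : ℂ)) =
      if ∃ i, d = Finsupp.single i 3 then 1 else 0 := by
  classical
  rw [MvPolynomial.coeff_sum]
  simp only [MvPolynomial.coeff_monomial]
  split_ifs with h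
  · obtain ⟨i, rfl⟩ := h
    rw [Finset.sum_eq_single i]
    · simp
    · intro j _ hj
      rw [if_neg]
      intro h
      exact hj ((Finsupp.single_left_inj (by norm_num : (3 : ℕ) ≠ 0)).1 h)
    · intro h
      exact absurd (Finset.mem_univ i) h
  · apply Finset.sum_eq_zero
    intro i _
    rw [if_neg]
    intro h'
    exact h ⟨i, h'.symm⟩

private theorem P1_aeval_cubes {n : ℕ} (z : Fin n → A) :
    MvPolynomial.aeval z (∑ i : Fin n, MvPolynomial.monomial (Finsupp.single i 3) (1 : ℂ)) =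
      ∑ i, z i ^ 3 := by
  rw [map_sum]
  refine Finset.sum_congr rfl fun i _ => ?_
  rw [MvPolynomial.aeval_monomial, Finsupp.prod_single_index (by exact pow_zero _), map_one,
    one_mul]

private theorem P1_hom_cubes {n : ℕ} :
    (∑ i : Fin n, MvPolynomial.monomial (Finsupp.single i 3) (1 : ℂ)).IsHomogeneous 3 :=
  MvPolynomial.IsHomogeneous.sum _ _ _ fun i _ =>
    MvPolynomial.isHomogeneous_monomial _ (Finsupp.degree_single i 3)

omit [Algebra ℂ A] in
private theorem P1_three (V : Valuation A ℝ≥0) (h2 : V 2 < 1) : V 3 = 1 := by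
  have e : (3 : A) = 1 + 2 := by norm_num
  rw [e, V.map_add_eq_of_lt_left (by rw [map_one]; exact h2), map_one]

omit [Algebra ℂ A] in
private theorem P1_nm (V : Valuation A ℝ≥0) {n : ℕ} (x : Fin n → A) (i : Fin n) :
    V (x i) ≤ nm V x :=
  Finset.le_sup (f := fun i => V (x i)) (Finset.mem_univ i)

end P1a

/-- the estimate for coefficients of norm at most `|2|` and arbitrary cube roots of unity -/
private theorem P1_quad {n : ℕ} {F : MvPolynomial (Fin n) ℂ} (hF : F.IsHomogeneous 3) {A : Type}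
    [Field A] [Algebra ℂ A] (V : Valuation A ℝ≥0) (h2 : V 2 < 1)
    (hco : ∀ d : Fin n →₀ ℕ, d.degree = 3 →
      V (algebraMap ℂ A (MvPolynomial.coeff d F - if ∃ i, d = Finsupp.single i 3 then 1 else 0)) ≤ V 2)
    (u x y e : Fin n → A) (he : ∀ i, e i ^ 3 = 1)
    (hu : ∀ i, V (u i) ≤ 1) (hxy : ∀ i, e i * x i + y i = u i)
    (hx : MvPolynomial.aeval x F = 0) (hy : MvPolynomial.aeval y F = 0)
    (R : ℝ≥0) (hR : 1 < R) (h2R : V 2 * R < 1) (hnm : nm V (fun i => e i * x i) = R) :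
    V (∑ i, u i * (e i * x i) ^ 2) < R ^ 2 := by
  classical
  have hve : ∀ i, V (e i) = 1 := by
    intro i
    have h := congrArg V (he i)
    rw [map_pow, map_one] at h
    exact (pow_eq_one_iff_of_nonneg zero_le (by norm_num)).1 h
  have hX : ∀ i, V (e i * x i) ≤ R := fun i => by
    rw [← hnm]
    exact P1_nm V (fun i => e i * x i) i
  have hxR : ∀ i, V (x i) ≤ R := fun i => by
    have h := hX i
    rwa [map_mul, hve, one_mul] at h
  have hyX : ∀ i, y i = u i - e i * x i := fun i => by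
    rw [← hxy i]
    ring
  have hyR : ∀ i, V (y i) ≤ R := fun i => by
    rw [hyX i]
    exact (V.map_sub _ _).trans (max_le ((hu i).trans hR.le) (hX i))
  set P : MvPolynomial (Fin n) ℂ :=
    F - ∑ i : Fin n, MvPolynomial.monomial (Finsupp.single i 3) 1 with hPdef
  have hPh : P.IsHomogeneous 3 := by
    rw [hPdef]
    exact hF.sub P1_hom_cubes
  have hPc : ∀ d ∈ P.support, V (algebraMap ℂ A (MvPolynomial.coeff d P)) ≤ V 2 := by
    intro d hd
    have hdeg := P1_deg P hPh d hd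
    have hcf : MvPolynomial.coeff d P = MvPolynomial.coeff d F -
        (if ∃ i, d = Finsupp.single i 3 then 1 else 0) := by
      rw [hPdef, MvPolynomial.coeff_sub, P1_single]
    rw [hcf]
    exact hco d hdeg
  have hev : ∀ z : Fin n → A, MvPolynomial.aeval z P =
      MvPolynomial.aeval z F - ∑ i, z i ^ 3 := by
    intro z
    rw [hPdef, map_sub, P1_aeval_cubes]
  have hR0 : 0 < R := lt_trans zero_lt_one hR
  have h2R3 : V 2 * R ^ 3 < R ^ 2 := by
    calc V 2 * R ^ 3 = (V 2 * R) * R ^ 2 := by ring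
      _ < 1 * R ^ 2 := mul_lt_mul_of_pos_right h2R (pow_pos hR0 2)
      _ = R ^ 2 := one_mul _
  have hRR : R < R ^ 2 := by
    calc R = 1 * R := (one_mul _).symm
      _ < R * R := mul_lt_mul_of_pos_right hR hR0
      _ = R ^ 2 := (pow_two R).symm
  have h1R : (1 : ℝ≥0) < R ^ 2 := hR.trans hRR
  have hb1 : V (MvPolynomial.aeval x P) < R ^ 2 :=
    (P1_bound V P hPh (V 2) hPc x R hxR).trans_lt h2R3
  have hb2 : V (MvPolynomial.aeval y P) < R ^ 2 :=
    (P1_bound V P hPh (V 2) hPc y R hyR).trans_lt h2R3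
  have h3 : V 3 = 1 := P1_three V h2
  have hkey : 3 * ∑ i, u i * (e i * x i) ^ 2 =
      - MvPolynomial.aeval y P - MvPolynomial.aeval x P - ∑ i, u i ^ 3 +
        3 * ∑ i, u i ^ 2 * (e i * x i) := by
    rw [hev y, hev x, hx, hy]
    have hs : ∑ i, y i ^ 3 = ∑ i, u i ^ 3 - 3 * ∑ i, u i ^ 2 * (e i * x i) +
        3 * ∑ i, u i * (e i * x i) ^ 2 - ∑ i, x i ^ 3 := by
      rw [Finset.mul_sum, Finset.mul_sum, ← Finset.sum_sub_distrib, ← Finset.sum_add_distrib,
        ← Finset.sum_sub_distrib]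
      refine Finset.sum_congr rfl fun i _ => ?_
      rw [hyX i]
      linear_combination (- x i ^ 3) * he i
    rw [hs]
    ring
  have hV : V (3 * ∑ i, u i * (e i * x i) ^ 2) < R ^ 2 := by
    rw [hkey]
    have t1 : V (- MvPolynomial.aeval y P) < R ^ 2 := by rwa [V.map_neg]
    have t3 : V (∑ i, u i ^ 3) < R ^ 2 := by
      refine lt_of_le_of_lt (V.map_sum_le fun i _ => ?_) h1R
      rw [map_pow]
      exact pow_le_one₀ zero_le (hu i)
    have t4 : V (3 * ∑ i, u i ^ 2 * (e i * x i)) < R ^ 2 := by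
      rw [map_mul, h3, one_mul]
      refine lt_of_le_of_lt (V.map_sum_le fun i _ => ?_) hRR
      rw [map_mul, map_pow]
      calc V (u i) ^ 2 * V (e i * x i) ≤ 1 * R :=
            mul_le_mul' (pow_le_one₀ zero_le (hu i)) (hX i)
        _ = R := one_mul R
    have sub_lt : ∀ p q : A, V p < R ^ 2 → V q < R ^ 2 → V (p - q) < R ^ 2 := fun p q hp hq =>
      lt_of_le_of_lt (V.map_sub _ _) (max_lt hp hq)
    have add_lt : ∀ p q : A, V p < R ^ 2 → V q < R ^ 2 → V (p + q) < R ^ 2 := fun p q hp hq =>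
      lt_of_le_of_lt (V.map_add _ _) (max_lt hp hq)
    exact add_lt _ _ (sub_lt _ _ (sub_lt _ _ t1 hb1) t3) t4
  rwa [map_mul, h3, one_mul] at hV

private theorem P1_wt_X {k A : Type*} [Field k] [Field A] [Algebra k A] (v : Valuation k ℝ≥0)
    (V : Valuation A ℝ≥0) {J : Type*} (z : J → A) (r : J → ℝ≥0) (h : IsWt v V z r) (s : J) :
    V (z s) = r s := by
  classical
  have h1 := h (MvPolynomial.X s)
  rw [MvPolynomial.aeval_X, MvPolynomial.support_X, Finset.sup_singleton, MvPolynomial.coeff_X,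
    if_pos rfl, map_one, one_mul] at h1
  rw [h1]
  simp

private theorem P1_wt_C {k A : Type*} [Field k] [Field A] [Algebra k A] (v : Valuation k ℝ≥0)
    (V : Valuation A ℝ≥0) {J : Type*} (z : J → A) (r : J → ℝ≥0) (h : IsWt v V z r) (c : k)
    (hc : c ≠ 0) : V (algebraMap k A c) = v c := by
  classical
  have h1 := h (MvPolynomial.C c)
  rw [MvPolynomial.aeval_C, MvPolynomial.C_apply, MvPolynomial.support_monomial, if_neg hc,
    Finset.sup_singleton, MvPolynomial.coeff_monomial, if_pos rfl] at h1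
  rw [h1]
  simp

variable {n : ℕ} {F : MvPolynomial (Fin n) ℂ} {J : Type} {z : Exp3 n ⊕ J → ℂ} {A : Type}
  [Field A] [CharZero A] [Algebra ℂ A] {u l : Fin n → A}

private theorem P1_le {k1 : IntermediateField (Qz z) ℂ} (S : Set A) {a : A}
    (ha : a ∈ adjoin k1 S) : a ∈ adjoin ℂ S := by
  have h1 : adjoin k1 S ≤ (adjoin ℂ S).restrictScalars k1 := by
    rw [adjoin_le_iff]
    intro s hs
    exact subset_adjoin ℂ S hs
  exact h1 ha

private theorem P1_alg {k1 : IntermediateField (Qz z) ℂ} (S : Set A) {a : A}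
    (ha : IsAlgebraic (adjoin k1 S) a) : IsAlgebraic (adjoin ℂ S) a := by
  obtain ⟨p, hp0, hp⟩ := ha
  let f : adjoin k1 S →+* adjoin ℂ S :=
    (algebraMap (adjoin k1 S) A).codRestrict (adjoin ℂ S).toSubring fun b => P1_le S b.2
  have hf : (algebraMap (adjoin ℂ S) A).comp f = algebraMap (adjoin k1 S) A := by
    ext b
    rfl
  refine ⟨p.map f, ?_, ?_⟩
  · rw [Ne, Polynomial.map_eq_zero_iff f.injective]
    exact hp0
  · rw [Polynomial.aeval_def, Polynomial.eval₂_map, hf]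
    exact hp

private theorem P1_root {k1 : IntermediateField (Qz z) ℂ} {w : k1} (hw : w ^ 2 + w + 1 = 0)
    (m : ℕ) : (algebraMap k1 A (w ^ m)) ^ 3 = 1 := by
  have h1 : w ^ 3 = 1 := by linear_combination (w - 1) * hw
  rw [← map_pow, ← pow_mul, mul_comm, pow_mul, h1, one_pow, map_one]

private theorem P1_V (V : Valuation A ℝ≥0) {a : A} (ha : a ^ 3 = 1) : V a = 1 := by
  have h1 : V a ^ 3 = 1 := by rw [← map_pow, ha, map_one]
  exact (pow_eq_one_iff_of_nonneg (zero_le) (by norm_num)).1 h1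

private theorem P1_main (h : Ctx F z u l) (V : Valuation A ℝ≥0) (hV2 : V 2 < 1)
    (hG : IsGauss ℂ V (Sum.elim u l)) (k1 : IntermediateField (Qz z) ℂ) (w : k1) {M1 : Type}
    [Field M1] [Algebra k1 M1] (x y : Fin n → M1) (hD : Dat F z k1 w x y) (γ : Fin n → ZMod 3)
    (R : ℝ≥0) (hR0 : 0 < R)
    (hQ : ∀ τ : Tg (A := A) w u x y γ,
      nm V (fun i => algebraMap k1 A (w ^ (γ i).val) * τ.1 (x i)) = R →
        V (∑ i, u i * (algebraMap k1 A (w ^ (γ i).val) * τ.1 (x i)) ^ 2) < R ^ 2) :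
    Even (Nat.card {τ : Tg (A := A) w u x y γ // nm V (fun i => τ.1 (x i)) = R}) := by
  classical
  have hcl : IsAlgClosed A := h.closed
  have hu : AlgebraicIndependent k1 u := by
    have h1 : AlgebraicIndependent ℂ u := by
      have h2 := h.ind.comp Sum.inl Sum.inl_injective
      exact h2
    exact h1.restrictScalars (algebraMap k1 ℂ).injective
  have hfin := finite_emb u hu hD.fg (zg w x y γ)
  have hft : Fintype (Tg (A := A) w u x y γ) := @Fintype.ofFinite _ hfin
  obtain ⟨x', hx'⟩ : ∃ x' : Fin n → M1, x' = fun i => algebraMap k1 M1 (w ^ (γ i).val) * x i :=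
    ⟨_, rfl⟩
  obtain ⟨X, hX⟩ : ∃ X : Tg (A := A) w u x y γ → Fin n → A,
    X = fun τ i => algebraMap k1 A (w ^ (γ i).val) * τ.1 (x i) := ⟨_, rfl⟩
  have hXx : ∀ (τ : Tg (A := A) w u x y γ) i, X τ i = τ.1 (x' i) := by
    intro τ i
    rw [hX, hx']
    change _ = τ.1 (algebraMap k1 M1 (w ^ (γ i).val) * x i)
    rw [map_mul, AlgHom.commutes]
  have hchi := chi_emb u l hu hD.fg (zg w x y γ) x'
  have hchi' : (∏ τ : Tg (A := A) w u x y γ,
      (Polynomial.X - Polynomial.C (∑ i, l i * X τ i))) ∈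
      Polynomial.lifts (algebraMap (adjoin ℂ (Set.range u ∪ Set.range l)) A) := by
    rw [Polynomial.lifts_iff_coeff_lifts] at hchi ⊢
    intro m
    obtain ⟨b, hb⟩ := hchi m
    have h1 : (∏ τ : Tg (A := A) w u x y γ,
        (Polynomial.X - Polynomial.C (∑ i, l i * X τ i))) =
        ∏ τ : Tg (A := A) w u x y γ,
        (Polynomial.X - Polynomial.C (∑ i, l i * τ.1 (x' i))) := by
      refine Finset.prod_congr rfl fun τ _ => ?_
      congr 2
      exact Finset.sum_congr rfl fun i _ => by rw [hXx]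
    rw [h1]
    exact ⟨⟨b.1, P1_le _ b.2⟩, hb⟩
  have hgap := gap V hV2 u l hG X (fun τ i => by
    rw [hXx]
    exact P1_alg _ (alg_emb u hu hD.fg (zg w x y γ) τ.1 τ.2 (x' i))) hchi' R hR0 (by
      intro τ hτ
      rw [hX] at hτ ⊢
      exact hQ τ hτ)
  have hnm : ∀ τ : Tg (A := A) w u x y γ, nm V (X τ) = nm V (fun i => τ.1 (x i)) := by
    intro τ
    unfold nm
    refine Finset.sup_congr rfl fun i _ => ?_
    rw [hX]
    change V (algebraMap k1 A (w ^ (γ i).val) * τ.1 (x i)) = _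
    rw [map_mul, P1_V V (P1_root hD.om _), one_mul]
  rw [Nat.card_eq_fintype_card, Fintype.card_subtype]
  have h2 : (Finset.univ.filter fun τ : Tg (A := A) w u x y γ => nm V (fun i => τ.1 (x i)) = R) =
      Finset.univ.filter fun τ => nm V (X τ) = R := by
    refine Finset.filter_congr fun τ _ => ?_
    rw [hnm]
  rw [h2]
  exact hgap

private theorem P1_eq {k1 : IntermediateField (Qz z) ℂ} {M1 : Type} [Field M1] [Algebra k1 M1]
    {x : Fin n → M1} {Fk : MvPolynomial (Fin n) k1}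
    (h1 : MvPolynomial.map (algebraMap k1 ℂ) Fk = F) (h2 : MvPolynomial.aeval x Fk = 0)
    (τ : M1 →ₐ[k1] A) : MvPolynomial.aeval (fun i => τ (x i)) F = 0 := by
  rw [← h1, MvPolynomial.aeval_map_algebraMap]
  have h3 := MvPolynomial.comp_aeval_apply (R := k1) x τ Fk
  rw [h2, map_zero] at h3
  exact h3.symm

/-- The number of the embeddings of norm `R`, `1 < R < 2`, is even, for every `γ` and every weight of `z j`. Proof: as
`A8_main` and `gap_star` (N/A8.lean). -/
theorem gap_par (h : Ctx F z u l) (v2 : Valuation ℚ ℝ≥0) (h2 : IsTwo v2) (V : Valuation A ℝ≥0)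
    (j : J) (t : ℝ≥0) (ht : 0 < t) (hV : IsWt v2 V (zeta z u l) (wts (Sum.inl (Sum.inr j)) t))
    (k1 : IntermediateField (Qz z) ℂ) (w : k1) {M1 : Type} [Field M1] [Algebra k1 M1]
    (x y : Fin n → M1) (hD : Dat F z k1 w x y) (γ : Fin n → ZMod 3) (R : ℝ≥0) (hR : 1 < R)
    (hR2 : R < 2) :
    Even (Nat.card {τ : Tg (A := A) w u x y γ // nm V (fun i => τ.1 (x i)) = R}) := by
  classical
  have n1 : V 2 = 2⁻¹ := by
    have h3 := P1_wt_C v2 V _ _ hV 2 (by norm_num)
    rw [h2.two] at h3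
    rw [← h3]
    congr 1
    norm_num
  have hX : ∀ s, V (zeta z u l s) = wts (Sum.inl (Sum.inr j)) t s := P1_wt_X v2 V _ _ hV
  have n2 : ∀ i, V (u i) = 1 := by
    intro i
    have := hX (Sum.inr (Sum.inl i))
    rw [wts, if_neg (by simp)] at this
    exact this
  have n3 : ∀ d : Exp3 n, V (algebraMap ℂ A (MvPolynomial.coeff d.1 F -
        if ∃ i, d.1 = Finsupp.single i 3 then 1 else 0)) = 2⁻¹ := by
    intro d
    have h5 := hX (Sum.inl (Sum.inl d))
    rw [wts, if_neg (by simp)] at h5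
    have h6 : V (algebraMap ℂ A (z (Sum.inl d))) = 1 := h5
    rw [h.cf d, add_sub_cancel_left, map_mul, map_mul, h6, mul_one, ← n1]
    congr 1
    exact map_ofNat (algebraMap ℂ A) 2
  have hV2 : V 2 < 1 := by
    rw [n1]
    exact inv_lt_one_of_one_lt₀ one_lt_two
  have hG := gauss_C h v2 V (Sum.inr j) t ht hV
  obtain ⟨Fk, f1, f2, f3⟩ := hD.eqs
  refine P1_main h V hV2 hG k1 w x y hD γ R (by positivity) ?_
  intro τ hτ
  refine P1_quad h.hom V hV2 ?_ u (fun i => τ.1 (x i)) (fun i => τ.1 (y i))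
    (fun i => algebraMap k1 A (w ^ (γ i).val)) (fun i => P1_root hD.om _)
    (fun i => (n2 i).le) (fun i => ?_) (P1_eq f1 f2 τ.1) (P1_eq f1 f3 τ.1) R hR ?_ hτ
  · intro d hd
    rw [n1]
    exact (n3 ⟨d, hd⟩).le
  · have h4 := τ.2 i
    unfold zg at h4
    rw [map_add, map_mul, AlgHom.commutes] at h4
    exact h4
  · rw [n1, inv_mul_lt_iff₀ (by norm_num), mul_one]
    exact hR2

end MP2619.Q5
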