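import Pool.Agent.Lib.MP_2619d0_ag.Q5.RDefs

/-!
Row 2619q5-R0a: elementary properties of `c2`.
-/

set_option autoImplicit false

namespace MP2619.Q5

universe u

open IntermediateField MP2619.R MP2619.W MP2619.NP

variable {k M : Type u} [Field k] [Field M] [Algebra k M] {n : ℕ}

theorem exists_pr {w : k} {x y : Fin n → M} (h : c2 w x y ≠ 0) : ∃ g, Pr k (zv w x y g) := by
  classical
  by_contra hcon
  push Not at hcon
  refine h ?_
  unfold c2
  exact Finset.sum_eq_zero fun g _ => if_neg (hcon g)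

private theorem R0a_diag (c : Fin n → k) (hc : ∀ i, c i ≠ 0) (z : Fin n → M) (h : Pr k z) :
    Pr k (fun i => algebraMap k M (c i) * z i) := by
  refine pr_of_adjoin _ z ?_ h
  apply le_antisymm
  · rw [adjoin_le_iff]
    rintro _ ⟨i, rfl⟩
    exact mul_mem (IntermediateField.algebraMap_mem _ _) (subset_adjoin _ _ ⟨i, rfl⟩)
  · rw [adjoin_le_iff]
    rintro _ ⟨i, rfl⟩
    have h1 : algebraMap k M (c i) * z i ∈
        adjoin k (Set.range fun i => algebraMap k M (c i) * z i) :=
      subset_adjoin _ _ ⟨i, rfl⟩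
    have h2 : algebraMap k M (c i)⁻¹ * (algebraMap k M (c i) * z i) = z i := by
      rw [← mul_assoc, ← map_mul, inv_mul_cancel₀ (hc i), map_one, one_mul]
    have h3 := mul_mem (IntermediateField.algebraMap_mem
      (adjoin k (Set.range fun i => algebraMap k M (c i) * z i)) (c i)⁻¹) h1
    rw [h2] at h3
    exact h3

/-- scaling by constants: `pr_of_adjoin` (`R/A8.lean`) -/
theorem pr_scale (c : Fin n → k) (hc : ∀ i, c i ≠ 0) (v : Fin n → M) :
    Pr k (fun i => algebraMap k M (c i) * v i) ↔ Pr k v := by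
  constructor
  · intro h
    have h1 := R0a_diag (fun i => (c i)⁻¹) (fun i => inv_ne_zero (hc i)) _ h
    have h2 : (fun i => algebraMap k M (c i)⁻¹ * (algebraMap k M (c i) * v i)) = v := by
      funext i
      rw [← mul_assoc, ← map_mul, inv_mul_cancel₀ (hc i), map_one, one_mul]
    rw [h2] at h1
    exact h1
  · exact R0a_diag c hc v

private theorem R0a_cube {w : k} (hw : w ^ 2 + w + 1 = 0) : w ^ 3 = 1 := by
  have : w ^ 3 - 1 = (w - 1) * (w ^ 2 + w + 1) := by ring
  rw [hw, mul_zero] at this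
  exact sub_eq_zero.1 this

private theorem R0a_mod {w : k} (hw : w ^ 2 + w + 1 = 0) (m : ℕ) : w ^ (m % 3) = w ^ m := by
  conv_rhs => rw [← Nat.div_add_mod m 3, pow_add, pow_mul, R0a_cube hw, one_pow, one_mul]

private theorem R0a_add {w : k} (hw : w ^ 2 + w + 1 = 0) (a b : ZMod 3) :
    w ^ (a + b).val = w ^ a.val * w ^ b.val := by
  rw [ZMod.val_add, R0a_mod hw, pow_add]

private theorem R0a_zv {w : k} (hw : w ^ 2 + w + 1 = 0) (d : Fin n → ZMod 3) (x y : Fin n → M)
    (g : Fin n → ZMod 3) :
    zv w (fun i => algebraMap k M (w ^ (d i).val) * x i) y g = zv w x y (g + d) := by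
  funext i
  unfold zv
  rw [Pi.add_apply, R0a_add hw, map_mul, mul_assoc]

/-- Substitute `g + d` for `g`. (`w ^ 3 = 1`.) -/
theorem c2_shift {w : k} (hw : w ^ 2 + w + 1 = 0) (d : Fin n → ZMod 3) (x y : Fin n → M) :
    c2 w (fun i => algebraMap k M (w ^ (d i).val) * x i) y =
      w ^ (-(∑ i, d i)).val * c2 w x y := by
  classical
  unfold c2
  rw [Finset.mul_sum, ← Equiv.sum_comp (Equiv.subRight d)]
  refine Finset.sum_congr rfl fun g _ => ?_
  rw [R0a_zv hw, Equiv.subRight_apply, sub_add_cancel]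
  split_ifs with h
  · rw [← R0a_add hw]
    congr 2
    simp only [Pi.sub_apply, Finset.sum_sub_distrib]
    ring
  · rw [mul_zero]

/-- twisting on a set with `3 ∣ |A|` does not change `c2` -/
theorem c2_tw {w : k} (hw : w ^ 2 + w + 1 = 0) (A : Finset (Fin n)) (hA : (A.card : ZMod 3) = 0)
    (j : ℕ) (x y : Fin n → M) : c2 w (tw A (algebraMap k M (w ^ j)) x) y = c2 w x y := by
  classical
  have h1 : tw A (algebraMap k M (w ^ j)) x = fun i =>
      algebraMap k M (w ^ ((if i ∈ A then (j : ZMod 3) else 0 : ZMod 3)).val) * x i := by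
    funext i
    unfold tw
    split_ifs with h
    · rw [ZMod.val_natCast, R0a_mod hw]
    · rw [ZMod.val_zero, pow_zero, map_one, one_mul]
  rw [h1, c2_shift hw]
  have h2 : ∑ i, (if i ∈ A then (j : ZMod 3) else 0) = 0 := by
    rw [Finset.sum_ite_mem, Finset.univ_inter, Finset.sum_const, nsmul_eq_mul, hA, zero_mul]
  rw [h2, neg_zero, ZMod.val_zero, pow_zero, one_mul]

private theorem R0a_transfer {N : Type u} [Field N] [Algebra k N] (e : M ≃ₐ[k] N)
    (v : Fin n → M) (h : Pr k v) : Pr k (fun i => e (v i)) := by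
  refine ⟨?_, ?_⟩
  · exact AlgebraicIndependent.map' h.1 (f := (e : M →ₐ[k] N)) e.injective
  · have h1 : (adjoin k (Set.range v)).map (e : M →ₐ[k] N) =
        adjoin k (Set.range (fun i => e (v i))) := by
      rw [adjoin_map]
      congr 1
      ext y
      simp
    have h2 : Module.finrank (adjoin k (Set.range v)) M =
        Module.finrank ((adjoin k (Set.range v)).map (e : M →ₐ[k] N)) N := by
      refine Algebra.finrank_eq_of_equiv_equiv
        (((adjoin k (Set.range v)).equivMap (e : M →ₐ[k] N)) : _ ≃+* _) (e : M ≃+* N) ?_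
      ext x
      rfl
    rw [← h1, ← h2]
    exact h.2

/-- invariance under isomorphisms -/
theorem c2_equiv {N : Type u} [Field N] [Algebra k N] (φ : M ≃ₐ[k] N) (w : k) (x y : Fin n → M) :
    c2 w (fun i => φ (x i)) (fun i => φ (y i)) = c2 w x y := by
  classical
  unfold c2
  refine Finset.sum_congr rfl fun g _ => ?_
  have h1 : zv w (fun i => φ (x i)) (fun i => φ (y i)) g = fun i => φ (zv w x y g i) := by
    funext i
    unfold zv
    rw [map_add, map_mul, AlgEquiv.commutes]
  have h2 : Pr k (zv w (fun i => φ (x i)) (fun i => φ (y i)) g) ↔ Pr k (zv w x y g) := by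
    rw [h1]
    constructor
    · intro h
      have h3 := R0a_transfer φ.symm _ h
      have h4 : (fun i => φ.symm (φ (zv w x y g i))) = zv w x y g := by
        funext i
        exact φ.symm_apply_apply _
      rw [h4] at h3
      exact h3
    · exact R0a_transfer φ _
  by_cases h : Pr k (zv w x y g)
  · rw [if_pos h, if_pos (h2.2 h)]
  · rw [if_neg h, if_neg (fun h' => h (h2.1 h'))]

end MP2619.Q5
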