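import Pool.Agent.Lib.MP_2619d0_ag.Q5.R0a

/-!
Row 2619q5-R0b: symmetry of `c2`, sums over sets, blocks.
-/

set_option autoImplicit false

namespace MP2619.Q5

universe u

open IntermediateField MP2619.R MP2619.W MP2619.NP

variable {k M : Type u} [Field k] [Field M] [Algebra k M] {n : ℕ}

private theorem R0b_cube {w : k} (hw : w ^ 2 + w + 1 = 0) : w ^ 3 = 1 := by
  linear_combination (w - 1) * hw

open Classical in
private theorem R0b_c2 (w : k) (x y : Fin n → M) : c2 w x y =
    ∑ j : ZMod 3, (((Finset.univ.filter fun g : Fin n → ZMod 3 =>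
      ∑ i, g i = j ∧ Pr k (zv w x y g)).card : ℕ) : k) * w ^ j.val := by
  have h1 : ∀ j : ZMod 3, (((Finset.univ.filter fun g : Fin n → ZMod 3 =>
      ∑ i, g i = j ∧ Pr k (zv w x y g)).card : ℕ) : k) * w ^ j.val =
      ∑ g : Fin n → ZMod 3, if (∑ i, g i = j) then (if Pr k (zv w x y g) then w ^ j.val else 0)
        else 0 := by
    intro j
    rw [← Finset.sum_boole, Finset.sum_mul]
    refine Finset.sum_congr rfl fun g _ => ?_
    by_cases h1 : ∑ i, g i = j
    · by_cases h2 : Pr k (zv w x y g)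
      · rw [if_pos ⟨h1, h2⟩, if_pos h1, if_pos h2, one_mul]
      · rw [if_neg (fun h => h2 h.2), if_pos h1, if_neg h2, zero_mul]
    · rw [if_neg (fun h => h1 h.1), if_neg h1, zero_mul]
  rw [Finset.sum_congr rfl fun j _ => h1 j, Finset.sum_comm]
  unfold c2
  refine Finset.sum_congr rfl fun g _ => ?_
  rw [Finset.sum_ite_eq, if_pos (Finset.mem_univ _)]

open Classical in
private theorem R0b_card (w : k) (x y : Fin n → M) (j : ZMod 3) :
    Nat.card {g : Fin n → ZMod 3 // (∑ i, g i = j ∨ ∑ i, g i = j + 1) ∧ Pr k (zv w x y g)} =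
    (Finset.univ.filter fun g : Fin n → ZMod 3 => ∑ i, g i = j ∧ Pr k (zv w x y g)).card +
    (Finset.univ.filter fun g : Fin n → ZMod 3 => ∑ i, g i = j + 1 ∧ Pr k (zv w x y g)).card := by
  rw [Nat.card_eq_fintype_card, Fintype.card_subtype, ← Finset.card_union_of_disjoint]
  · congr 1
    ext g
    simp only [Finset.mem_filter, Finset.mem_univ, true_and, Finset.mem_union]
    tauto
  · rw [Finset.disjoint_left]
    intro g h1 h2
    simp only [Finset.mem_filter, Finset.mem_univ, true_and] at h1 h2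
    have h3 : j = j + 1 := h1.1.symm.trans h2.1
    have h4 : ∀ j : ZMod 3, j ≠ j + 1 := by decide
    exact h4 j h3

/-- Characteristic two. Let `a_j` be the number of `g` with `∑ g = j` and `Pr k (zv w x y g)`. Then
`c2 = a_0 + a_1 w + a_2 w²` and this is zero iff `a_0`, `a_1`, `a_2` have the same parity
(`1 + w + w² = 0`, and `1`, `w` are independent over `F_2`). -/
theorem c2_zero_iff (h2 : (2 : k) = 0) {w : k} (hw : w ^ 2 + w + 1 = 0) (x y : Fin n → M) :
    c2 w x y = 0 ↔ ∀ j : ZMod 3, Even (Nat.card {g : Fin n → ZMod 3 //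
      (∑ i, g i = j ∨ ∑ i, g i = j + 1) ∧ Pr k (zv w x y g)}) := by
  classical
  have hch : CharP k 2 := CharTwo.of_one_ne_zero_of_two_eq_zero one_ne_zero h2
  have hev : ∀ m : ℕ, Even m → (m : k) = 0 := fun m hm =>
    (CharP.cast_eq_zero_iff k 2 m).2 hm.two_dvd
  have hod : ∀ m : ℕ, Odd m → (m : k) = 1 := by
    rintro m ⟨r, rfl⟩
    push_cast
    rw [h2, zero_mul, zero_add]
  rw [R0b_c2]
  simp only [R0b_card]
  generalize hA : (fun j : ZMod 3 => (Finset.univ.filter fun g : Fin n → ZMod 3 =>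
      ∑ i, g i = j ∧ Pr k (zv w x y g)).card) = a
  have hA' : ∀ j : ZMod 3, (Finset.univ.filter fun g : Fin n → ZMod 3 =>
      ∑ i, g i = j ∧ Pr k (zv w x y g)).card = a j := fun j => congrFun hA j
  simp only [hA']
  have hs : ∑ j : ZMod 3, (a j : k) * w ^ j.val = a 0 + a 1 * w + a 2 * w ^ 2 := by
    have : ∑ j : ZMod 3, (a j : k) * w ^ j.val =
      (a 0 : k) * w ^ (0 : ZMod 3).val + (a 1 : k) * w ^ (1 : ZMod 3).val +
        (a 2 : k) * w ^ (2 : ZMod 3).val := Fin.sum_univ_three _
    rw [this, show (0 : ZMod 3).val = 0 from rfl, show (1 : ZMod 3).val = 1 from rfl,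
      show (2 : ZMod 3).val = 2 from rfl, pow_zero, pow_one, mul_one]
  rw [hs]
  have hall : (∀ j : ZMod 3, Even (a j + a (j + 1))) ↔
      Even (a 0 + a 1) ∧ Even (a 1 + a 2) ∧ Even (a 2 + a 0) := by
    constructor
    · intro h
      exact ⟨h 0, h 1, h 2⟩
    · rintro ⟨h0, h1, h3⟩ j
      fin_cases j
      · exact h0
      · exact h1
      · exact h3
  rw [hall]
  have hw0 : w ≠ 0 := by
    rintro rfl
    simp at hw
  have hne : (1 : k) ≠ 0 := one_ne_zero
  rcases Nat.even_or_odd (a 0) with e0 | e0 <;> rcases Nat.even_or_odd (a 1) with e1 | e1 <;>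
    rcases Nat.even_or_odd (a 2) with e2 | e2
  · rw [hev _ e0, hev _ e1, hev _ e2]
    exact iff_of_true (by ring) ⟨e0.add e1, e1.add e2, e2.add e0⟩
  · rw [hev _ e0, hev _ e1, hod _ e2]
    refine iff_of_false (fun h => hw0 ?_) (fun h => ?_)
    · have : w ^ 2 = 0 := by linear_combination h
      exact pow_eq_zero_iff (two_ne_zero) |>.1 this
    · exact Nat.not_even_iff_odd.2 (e1.add_odd e2) h.2.1
  · rw [hev _ e0, hod _ e1, hev _ e2]
    refine iff_of_false (fun h => hw0 ?_) (fun h => ?_)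
    · linear_combination h
    · exact Nat.not_even_iff_odd.2 (e0.add_odd e1) h.1
  · rw [hev _ e0, hod _ e1, hod _ e2]
    refine iff_of_false (fun h => hne ?_) (fun h => ?_)
    · linear_combination hw - h
    · exact Nat.not_even_iff_odd.2 (e0.add_odd e1) h.1
  · rw [hod _ e0, hev _ e1, hev _ e2]
    refine iff_of_false (fun h => hne ?_) (fun h => ?_)
    · linear_combination h
    · exact Nat.not_even_iff_odd.2 (e0.add_even e1) h.1
  · rw [hod _ e0, hev _ e1, hod _ e2]
    refine iff_of_false (fun h => hw0 ?_) (fun h => ?_)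
    · linear_combination hw - h
    · exact Nat.not_even_iff_odd.2 (e0.add_even e1) h.1
  · rw [hod _ e0, hod _ e1, hev _ e2]
    refine iff_of_false (fun h => hw0 ?_) (fun h => ?_)
    · have : w ^ 2 = 0 := by linear_combination hw - h
      exact pow_eq_zero_iff (two_ne_zero) |>.1 this
    · exact Nat.not_even_iff_odd.2 (e1.add_even e2) h.2.1
  · rw [hod _ e0, hod _ e1, hod _ e2]
    exact iff_of_true (by linear_combination hw) ⟨e0.add_odd e1, e1.add_odd e2, e2.add_odd e0⟩

private theorem R0b_pow {w : k} (hw : w ^ 2 + w + 1 = 0) (a : ZMod 3) :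
    w ^ a.val * w ^ (-a).val = 1 := by
  have h3 := R0b_cube hw
  rw [← pow_add]
  have h : a.val + (-a).val = 0 ∨ a.val + (-a).val = 3 := by
    revert a
    decide
  rcases h with h | h
  · rw [h, pow_zero]
  · rw [h, h3]

private theorem R0b_pr {w : k} (hw : w ^ 2 + w + 1 = 0) (x y : Fin n → M) (g : Fin n → ZMod 3) :
    Pr k (zv w y x g) ↔ Pr k (zv w x y (-g)) := by
  have hw0 : w ≠ 0 := by
    rintro rfl
    simp at hw
  have e : zv w y x g = fun i => algebraMap k M (w ^ (g i).val) * zv w x y (-g) i := by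
    funext i
    have h1 := congrArg (algebraMap k M) (R0b_pow hw (g i))
    rw [map_mul, map_one] at h1
    simp only [zv, Pi.neg_apply]
    linear_combination (-x i) * h1
  rw [e]
  exact pr_scale (fun i => w ^ (g i).val) (fun i => pow_ne_zero _ hw0) _

/-- `zv w y x g = w^g (w^(-g) x + y)` up to the order, `pr_scale`; so the numbers `a_j` for `(y, x)` are
the numbers `a_(-j)` for `(x, y)`; `c2_zero_iff`. -/
theorem c2_symm (h2 : (2 : k) = 0) {w : k} (hw : w ^ 2 + w + 1 = 0) (x y : Fin n → M)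
    (h : c2 w x y ≠ 0) : c2 w y x ≠ 0 := by
  intro h0
  apply h
  rw [c2_zero_iff h2 hw] at h0 ⊢
  intro j
  have h1 := h0 (-j - 1)
  have e : Nat.card {g : Fin n → ZMod 3 // (∑ i, g i = -j - 1 ∨ ∑ i, g i = -j - 1 + 1) ∧
      Pr k (zv w y x g)} = Nat.card {g : Fin n → ZMod 3 // (∑ i, g i = j ∨ ∑ i, g i = j + 1) ∧
      Pr k (zv w x y g)} := by
    refine Nat.card_congr ((Equiv.neg (Fin n → ZMod 3)).subtypeEquiv fun g => ?_)
    rw [R0b_pr hw x y g]
    have hsum : ∑ i, (Equiv.neg (Fin n → ZMod 3)) g i = -∑ i, g i := by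
      simp
    rw [hsum]
    have hg : (Equiv.neg (Fin n → ZMod 3)) g = -g := rfl
    rw [hg]
    refine and_congr_left fun _ => ?_
    generalize ∑ i, g i = s
    constructor
    · rintro (rfl | rfl)
      · right
        ring
      · left
        ring
    · rintro (h | h)
      · right
        rw [← h]
        ring
      · left
        rw [neg_eq_iff_eq_neg] at h
        rw [h]
        ring
  rwa [e] at h1

/-- the sum of the cubes over `A` -/
def cu {M : Type u} [Field M] {n : ℕ} (A : Finset (Fin n)) (x : Fin n → M) : M := ∑ i ∈ A, x i ^ 3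

theorem cu_tw (A B : Finset (Fin n)) (t : M) (x : Fin n → M) :
    cu B (tw A t x) = t ^ 3 * cu (B ∩ A) x + cu (B \ A) x := by
  unfold cu tw
  rw [← Finset.sum_inter_add_sum_sdiff B A, Finset.mul_sum]
  refine congrArg₂ (· + ·) (Finset.sum_congr rfl fun i hi => ?_)
    (Finset.sum_congr rfl fun i hi => ?_)
  · rw [if_pos (Finset.mem_inter.1 hi).2, mul_pow]
  · rw [if_neg (Finset.mem_sdiff.1 hi).2]

/-- `Φ` for `g = 0` -/
theorem Phi_cu (a b c : Fin n) (x : Fin n → M) : Phi (0 : k) a b c x = cu Finset.univ x := by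
  unfold Phi cu
  rw [map_zero, zero_mul, add_zero]

theorem Phi_rs_cu (a b c : Fin n) (A : Finset (Fin n)) (x : Fin n → M) :
    Phi (0 : k) a b c (rs A x) = cu A x := by
  rw [Phi_cu]
  unfold cu rs
  rw [← Finset.sum_subset (Finset.subset_univ A)]
  · exact Finset.sum_congr rfl fun i hi => by rw [if_pos hi]
  · intro i _ hi
    rw [if_neg hi, zero_pow (by norm_num)]

theorem cb_cu (c : ℕ) (x : Fin 6 → M) :
    cb qb c x = cu (Finset.univ.filter fun i => qb i = c) x := by
  unfold cb cu
  rw [Finset.sum_filter]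

private theorem R0b_indep (A : Finset (Fin n)) (hA : A.Nonempty) (v : Fin n → M)
    (hv : AlgebraicIndependent k v) : ∑ i ∈ A, v i ^ 3 ≠ 0 := by
  classical
  intro h0
  have h1 : (MvPolynomial.aeval v) (∑ i ∈ A, (MvPolynomial.X i : MvPolynomial (Fin n) k) ^ 3) = 0 := by
    rw [map_sum, ← h0]
    exact Finset.sum_congr rfl fun i _ => by rw [map_pow, MvPolynomial.aeval_X]
  have h2 := hv.eq_zero_of_aeval_eq_zero _ h1
  obtain ⟨j, hj⟩ := hA
  have h3 := congrArg (MvPolynomial.eval (Pi.single j (1 : k))) h2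
  rw [map_zero, map_sum, Finset.sum_eq_single j] at h3
  · rw [map_pow, MvPolynomial.eval_X, Pi.single_eq_same, one_pow] at h3
    exact one_ne_zero h3
  · intro i _ hij
    rw [map_pow, MvPolynomial.eval_X, Pi.single_eq_of_ne hij, zero_pow (by norm_num)]
  · intro h
    exact absurd hj h

/-- If `x` vanished on the non-empty set `A` then `y i`, `i ∈ A`, would be algebraically independent, but
`∑_A y_i³ = 0`. The same with `x` and `y` exchanged (up to constants). -/
theorem block_ne {w : k} (hw : w ^ 2 + w + 1 = 0) {x y : Fin n → M} (h : c2 w x y ≠ 0)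
    (A : Finset (Fin n)) (hA : A.Nonempty) (hx : cu A x = 0) (hy : cu A y = 0) :
    (∃ i ∈ A, x i ≠ 0) ∧ ∃ i ∈ A, y i ≠ 0 := by
  obtain ⟨g, hg⟩ := exists_pr h
  have h3 := R0b_cube hw
  constructor
  · by_contra hc
    push Not at hc
    refine R0b_indep A hA _ hg.1 ?_
    rw [← hy]
    refine Finset.sum_congr rfl fun i hi => ?_
    simp only [zv]
    rw [hc i hi, mul_zero, zero_add]
  · by_contra hc
    push Not at hc
    refine R0b_indep A hA _ hg.1 ?_
    rw [← hx]
    refine Finset.sum_congr rfl fun i hi => ?_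
    simp only [zv]
    rw [hc i hi, add_zero, mul_pow, ← map_pow, ← pow_mul, mul_comm (g i).val 3, pow_mul, h3,
      one_pow, map_one, one_mul]

end MP2619.Q5
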