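import Pool.Agent.Lib.MP_2619d0_ag.Q5.R1a

/-!
Row 2619q5-R1c: polynomials in terms of squares.
-/

set_option autoImplicit false

namespace MP2619.Q5

universe u v

private theorem R1c_span {K : Type v} [Field K] (h2 : (2 : K) = 0) (S : Finset K) :
    ∃ (r : ℕ) (e : Fin r → K), Ind2 e ∧ ∀ s ∈ S, ∃ a : Fin r → K, s = ∑ j, e j * a j ^ 2 := by
  classical
  have hneg : ∀ x : K, -x = x := fun x => by
    have : x + x = 0 := by rw [← two_mul, h2, zero_mul]
    exact (eq_neg_of_add_eq_zero_left this).symm
  induction S using Finset.induction_on with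
  | empty =>
    refine ⟨0, Fin.elim0, fun a _ => funext fun i => i.elim0, fun s hs => ?_⟩
    exact absurd hs (Finset.notMem_empty s)
  | insert s S _ ih =>
    obtain ⟨r, e, he, hS⟩ := ih
    by_cases hs : ∃ a : Fin r → K, s = ∑ j, e j * a j ^ 2
    · refine ⟨r, e, he, fun t ht => ?_⟩
      rcases Finset.mem_insert.1 ht with rfl | ht
      · exact hs
      · exact hS t ht
    · refine ⟨r + 1, Fin.snoc (α := fun _ => K) e s, ?_, fun t ht => ?_⟩
      · intro a ha
        rw [Fin.sum_univ_castSucc] at ha
        simp only [Fin.snoc_castSucc, Fin.snoc_last] at ha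
        have hb : a (Fin.last r) = 0 := by
          by_contra hb
          apply hs
          refine ⟨fun j => a j.castSucc / a (Fin.last r), ?_⟩
          have h1 : s * a (Fin.last r) ^ 2 = ∑ j, e j * a j.castSucc ^ 2 := by
            have := eq_neg_of_add_eq_zero_right ha
            rw [this, hneg]
          have hb2 : a (Fin.last r) ^ 2 ≠ 0 := pow_ne_zero 2 hb
          apply mul_right_cancel₀ hb2
          rw [h1, Finset.sum_mul]
          refine Finset.sum_congr rfl fun j _ => ?_
          field_simp
        rw [hb] at ha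
        have ha' : ∑ j : Fin r, e j * a j.castSucc ^ 2 = 0 := by simpa using ha
        have h3 := he (fun j => a j.castSucc) ha'
        funext i
        refine Fin.lastCases hb (fun j => ?_) i
        exact congrFun h3 j
      · rcases Finset.mem_insert.1 ht with rfl | ht
        · refine ⟨Fin.snoc (α := fun _ => K) 0 1, ?_⟩
          rw [Fin.sum_univ_castSucc]
          simp
        · obtain ⟨a, ha⟩ := hS t ht
          refine ⟨Fin.snoc (α := fun _ => K) a 0, ?_⟩
          rw [Fin.sum_univ_castSucc]
          simp [ha]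

private theorem R1c_split {M : Type v} [AddCommMonoid M] (f : ℕ → M) (D : ℕ) :
    ∑ n ∈ Finset.range (2 * D), f n = ∑ k ∈ Finset.range D, (f (2 * k) + f (2 * k + 1)) := by
  induction D with
  | zero => simp
  | succ D ih =>
    rw [Finset.sum_range_succ, ← ih, show 2 * (D + 1) = 2 * D + 1 + 1 by ring,
      Finset.sum_range_succ, Finset.sum_range_succ, add_assoc]

/-- `K` is a vector space over itself by `a • x = a² x` (Frobenius); choose a finite independent family spanning a
space which contains all coefficients of the `p i`; separate even and odd powers of `X`. -/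
theorem decomp {K : Type v} [Field K] (h2 : (2 : K) = 0) {m : ℕ} (p : Fin m → Polynomial K) :
    ∃ (r : ℕ) (e : Fin r → K) (g0 g1 : Fin m → Fin r → Polynomial K), Ind2 e ∧
      ∀ i, p i = ∑ j, Polynomial.C (e j) * (g0 i j ^ 2 + Polynomial.X * g1 i j ^ 2) := by
  classical
  have hch : CharP K 2 := CharTwo.of_one_ne_zero_of_two_eq_zero one_ne_zero h2
  set D : ℕ := (∑ i, (p i).natDegree) + 1 with hD
  have hdeg : ∀ i, (p i).natDegree < 2 * D := fun i => by
    have : (p i).natDegree ≤ ∑ i, (p i).natDegree :=
      Finset.single_le_sum (f := fun i => (p i).natDegree) (fun _ _ => Nat.zero_le _)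
        (Finset.mem_univ i)
    omega
  obtain ⟨r, e, he, hS⟩ := R1c_span h2
    (Finset.univ.biUnion fun i : Fin m => (Finset.range (2 * D)).image fun n => (p i).coeff n)
  have hS' : ∀ (i : Fin m) (n : ℕ), ∃ a : Fin r → K, n < 2 * D →
      (p i).coeff n = ∑ j, e j * a j ^ 2 := by
    intro i n
    by_cases hn : n < 2 * D
    · obtain ⟨a, ha⟩ := hS ((p i).coeff n) (Finset.mem_biUnion.2 ⟨i, Finset.mem_univ _,
        Finset.mem_image.2 ⟨n, Finset.mem_range.2 hn, rfl⟩⟩)
      exact ⟨a, fun _ => ha⟩
    · exact ⟨0, fun h => absurd h hn⟩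
  choose a ha using hS'
  refine ⟨r, e, fun i j => ∑ k ∈ Finset.range D, Polynomial.C (a i (2 * k) j) * Polynomial.X ^ k,
    fun i j => ∑ k ∈ Finset.range D, Polynomial.C (a i (2 * k + 1) j) * Polynomial.X ^ k, he,
    fun i => ?_⟩
  have h1 := (p i).as_sum_range' (2 * D) (hdeg i)
  rw [R1c_split] at h1
  have h3 : ∀ j, (∑ k ∈ Finset.range D, Polynomial.C (a i (2 * k) j) * Polynomial.X ^ k) ^ 2 +
      Polynomial.X * (∑ k ∈ Finset.range D, Polynomial.C (a i (2 * k + 1) j) * Polynomial.X ^ k) ^ 2
      = ∑ k ∈ Finset.range D, (Polynomial.monomial (2 * k) (a i (2 * k) j ^ 2) +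
        Polynomial.monomial (2 * k + 1) (a i (2 * k + 1) j ^ 2)) := by
    intro j
    rw [CharTwo.sum_sq, CharTwo.sum_sq, Finset.mul_sum, ← Finset.sum_add_distrib]
    refine Finset.sum_congr rfl fun k _ => ?_
    rw [← Polynomial.C_mul_X_pow_eq_monomial, ← Polynomial.C_mul_X_pow_eq_monomial, map_pow,
      map_pow]
    ring
  simp only [h3]
  rw [h1]
  simp only [Finset.mul_sum]
  rw [Finset.sum_comm]
  refine Finset.sum_congr rfl fun k hk => ?_
  rw [Finset.mem_range] at hk
  rw [ha i (2 * k) (by omega), ha i (2 * k + 1) (by omega), map_sum, map_sum,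
    ← Finset.sum_add_distrib]
  refine Finset.sum_congr rfl fun j _ => ?_
  rw [mul_add, Polynomial.C_mul_monomial, Polynomial.C_mul_monomial]

end MP2619.Q5
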