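import Pool.Agent.Lib.MP_2619d0_ag.Q5.RDefs

/-!
Row 2619q5-R1d: a criterion for separability.
-/

set_option autoImplicit false

namespace MP2619.Q5

universe u v

/-- If `M/F` is not separable, let `S ≠ M` be the separable closure of `F` in `M`; `M/S` is purely inseparable, so
there is `z ∉ S` with `z² ∈ S`. Let `β_j` be a basis of `S/F`: the family `β_j, z β_j` is independent over `F`, but
its squares lie in `S`, which is too small. -/
theorem sep_crit {F : Type v} {M : Type u} [Field F] [Field M] [Algebra F M]
    [FiniteDimensional F M] (h2 : (2 : F) = 0)
    (h : ∀ (m : ℕ) (b : Fin m → M), LinearIndependent F b → LinearIndependent F fun i => b i ^ 2) :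
    Algebra.IsSeparable F M := by
  classical
  have c1 : CharP F 2 := CharTwo.of_one_ne_zero_of_two_eq_zero one_ne_zero h2
  have e1 : ExpChar F 2 := ExpChar.prime Nat.prime_two
  by_contra hns
  have hS : separableClosure F M ≠ ⊤ := fun h => hns ((separableClosure.eq_top_iff F M).1 h)
  have e2 : ExpChar (separableClosure F M) 2 :=
    expChar_of_injective_algebraMap (algebraMap F (separableClosure F M)).injective 2
  obtain ⟨x, hx⟩ : ∃ x : M, x ∉ separableClosure F M := by
    by_contra hcon
    push Not at hcon
    exact hS (top_le_iff.1 fun x _ => hcon x)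
  have : IsPurelyInseparable (separableClosure F M) M := separableClosure.isPurelyInseparable F M
  have hex : ∃ n : ℕ, x ^ 2 ^ n ∈ separableClosure F M := by
    obtain ⟨n, y, hy⟩ := IsPurelyInseparable.pow_mem (separableClosure F M) 2 x
    exact ⟨n, hy ▸ y.2⟩
  obtain ⟨z, hz, hz2⟩ : ∃ z : M, z ∉ separableClosure F M ∧ z ^ 2 ∈ separableClosure F M := by
    have h0 : Nat.find hex ≠ 0 := by
      intro h0
      have := Nat.find_spec hex
      rw [h0, pow_zero, pow_one] at this
      exact hx this
    obtain ⟨n, hn⟩ := Nat.exists_eq_succ_of_ne_zero h0
    refine ⟨x ^ 2 ^ n, Nat.find_min hex (by omega), ?_⟩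
    have := Nat.find_spec hex
    rw [hn] at this
    rwa [← pow_mul, ← pow_succ]
  have hli : LinearIndependent (separableClosure F M) ![(1 : M), z] := by
    rw [LinearIndependent.pair_iff]
    intro s t hst
    by_cases ht : t = 0
    · rw [ht, zero_smul, add_zero] at hst
      refine ⟨?_, ht⟩
      rcases smul_eq_zero.1 hst with h' | h'
      · exact h'
      · exact absurd h' one_ne_zero
    · exfalso
      apply hz
      have h3 : z = -(s / t : separableClosure F M) := by
        have h4 : (t : M) ≠ 0 := by
          intro h5
          exact ht (Subtype.ext h5)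
        have h5 : (s : M) + t * z = 0 := by
          have := hst
          simpa [Algebra.smul_def] using this
        rw [IntermediateField.coe_div]
        field_simp
        linear_combination h5
      rw [h3]
      exact neg_mem (SetLike.coe_mem _)
  set β := Module.finBasis F (separableClosure F M) with hβ
  have hb := linearIndependent_smul β.linearIndependent hli
  have hb2 := hb.comp finProdFinEquiv.symm finProdFinEquiv.symm.injective
  have h3 := h _ _ hb2
  have hmem : ∀ i : Fin (Module.finrank F (separableClosure F M) * 2),
      (((fun p : Fin (Module.finrank F (separableClosure F M)) × Fin 2 =>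
        β p.1 • ![(1 : M), z] p.2) ∘ finProdFinEquiv.symm) i) ^ 2 ∈ separableClosure F M := by
    intro i
    simp only [Function.comp_apply]
    rw [Algebra.smul_def, mul_pow]
    refine mul_mem (pow_mem (SetLike.coe_mem _) 2) ?_
    generalize (finProdFinEquiv.symm i).2 = j
    fin_cases j
    · simp only [Fin.zero_eta, Matrix.cons_val_zero, one_pow]
      exact one_mem _
    · simpa using hz2
  have h4 : LinearIndependent F (fun i => (⟨_, hmem i⟩ : separableClosure F M)) := by
    apply LinearIndependent.of_comp (separableClosure F M).val.toLinearMap
    exact h3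
  have h5 := h4.fintype_card_le_finrank
  rw [Fintype.card_fin] at h5
  have h6 : 0 < Module.finrank F (separableClosure F M) := Module.finrank_pos
  omega

end MP2619.Q5
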