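import Pool.Agent.Lib.MP_2619d0_ag.Q5.R1b
import Pool.Agent.Lib.MP_2619d0_ag.Q5.R1c
import Pool.Agent.Lib.MP_2619d0_ag.Q5.R1d

/-!
Row 2619q5-R1: an element of odd order at an odd place is separating.
-/

set_option autoImplicit false

namespace MP2619.Q5

universe u v

open IntermediateField MP2619.R

private theorem R1_trans {K : Type v} {M : Type u} [Field K] [Field M] [Algebra K M]
    {O : ValuationSubring M} (hO : OP K O) {U : M} (hU : Odd (ord O U)) : Transcendental K U := by
  intro halg
  have hU0 : U ≠ 0 := by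
    rintro rfl
    rw [ord_zero] at hU
    exact absurd hU (by decide)
  have key : ∀ x : M, IsAlgebraic K x → x ∈ O := by
    intro x hx
    let : Algebra K O := ((algebraMap K M).codRestrict O hO.cst).toAlgebra
    have : IsScalarTower K O M := IsScalarTower.of_algebraMap_eq fun _ => rfl
    have h1 : IsIntegral O x := hx.isIntegral.tower_top
    obtain ⟨y, hy⟩ := IsIntegrallyClosed.isIntegral_iff.1 h1
    rw [← hy]
    exact y.2
  have h1 := key U halg
  have h2 := key U⁻¹ halg.inv
  rw [mem_iff hO.dv hU0] at h1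
  rw [mem_iff hO.dv (inv_ne_zero hU0), ord_inv hO.dv hU0] at h2
  have h3 : ord O U = 0 := by omega
  rw [h3] at hU
  exact absurd hU (by decide)

private theorem R1_sq {M : Type u} [Field M] (h2 : (2 : M) = 0) {m : ℕ} (f : Fin m → M) :
    (∑ i, f i) ^ 2 = ∑ i, f i ^ 2 := by
  classical
  have key : ∀ s : Finset (Fin m), (∑ i ∈ s, f i) ^ 2 = ∑ i ∈ s, f i ^ 2 := by
    intro s
    induction s using Finset.induction_on with
    | empty => simp
    | insert a s ha ih =>
      rw [Finset.sum_insert ha, Finset.sum_insert ha, ← ih, add_sq]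
      have : 2 * f a * (∑ i ∈ s, f i) = 0 := by rw [h2]; ring
      rw [this]
      ring
  exact key Finset.univ

/-- `U` is transcendental over `K` (its order is not zero). Apply `sep_crit` with `F = K(U)`: let `b` be independent
over `F` and `∑ f_i b_i² = 0`, `f_i ∈ F` not all zero. Multiply by the square of a common denominator: `f_i = p_i(U)`.
`decomp`: `0 = ∑_j e_j ((∑_i g0_ij(U) b_i)² + U (∑_i g1_ij(U) b_i)²)` (characteristic two), so by `ind2_place`
`∑_i g0_ij(U) b_i = 0 = ∑_i g1_ij(U) b_i` for all `j`; by independence `g0_ij(U) = g1_ij(U) = 0`, `U` is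
transcendental: `g0 = g1 = 0`, `p = 0`. -/
theorem sep_of_odd {K : Type v} {M : Type u} [Field K] [Field M] [Algebra K M] (h2 : (2 : K) = 0)
    {O : ValuationSubring M} (hO : OP K O) (U : M) (hU : Odd (ord O U))
    (hfin : Module.finrank (adjoin K ({U} : Set M)) M ≠ 0) :
    Algebra.IsSeparable (adjoin K ({U} : Set M)) M := by
  classical
  have htr := R1_trans hO hU
  have hfd : FiniteDimensional (adjoin K ({U} : Set M)) M :=
    FiniteDimensional.of_finrank_pos (Nat.pos_of_ne_zero hfin)
  have h2M : (2 : M) = 0 := by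
    have h3 : algebraMap K M 2 = 0 := by rw [h2, map_zero]
    rwa [map_ofNat] at h3
  have h2F : (2 : adjoin K ({U} : Set M)) = 0 := by
    apply Subtype.ext
    exact h2M
  refine sep_crit h2F fun m b hb => ?_
  rw [Fintype.linearIndependent_iff]
  intro g hg
  -- fractions
  have hfr : ∀ i, ∃ r s : Polynomial K, Polynomial.aeval U s ≠ 0 ∧
      Polynomial.aeval U r = (g i : M) * Polynomial.aeval U s := by
    intro i
    obtain ⟨r, s, hrs⟩ := mem_adjoin_simple_iff K _ |>.1 (g i).2
    by_cases hs : Polynomial.aeval U s = 0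
    · refine ⟨0, 1, by simp, ?_⟩
      rw [hrs, hs]
      simp
    · refine ⟨r, s, hs, ?_⟩
      rw [hrs]
      field_simp
  choose r s hs hrs using hfr
  set D : M := ∏ j, Polynomial.aeval U (s j) with hD
  have hD0 : D ≠ 0 := Finset.prod_ne_zero_iff.2 fun j _ => hs j
  let p : Fin m → Polynomial K := fun i => r i * ∏ j ∈ Finset.univ.erase i, s j
  have hp : ∀ i, Polynomial.aeval U (p i) = (g i : M) * D := by
    intro i
    show Polynomial.aeval U (r i * ∏ j ∈ Finset.univ.erase i, s j) = _
    rw [map_mul, map_prod, hrs, hD, ← Finset.mul_prod_erase Finset.univ _ (Finset.mem_univ i)]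
    ring
  obtain ⟨l, e, g0, g1, he, hdec⟩ := decomp h2 p
  have hsum : ∑ j, algebraMap K M (e j) * ((∑ i, Polynomial.aeval U (g0 i j) * b i) ^ 2 +
      U * (∑ i, Polynomial.aeval U (g1 i j) * b i) ^ 2) = 0 := by
    have h3 : ∀ i, (g i : M) * D = ∑ j, algebraMap K M (e j) *
        (Polynomial.aeval U (g0 i j) ^ 2 + U * Polynomial.aeval U (g1 i j) ^ 2) := by
      intro i
      rw [← hp i, hdec i, map_sum]
      refine Finset.sum_congr rfl fun j _ => ?_
      rw [map_mul, map_add, map_mul, map_pow, map_pow, Polynomial.aeval_C, Polynomial.aeval_X]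
    have h4 : ∑ i, (∑ j, algebraMap K M (e j) *
        (Polynomial.aeval U (g0 i j) ^ 2 + U * Polynomial.aeval U (g1 i j) ^ 2)) * b i ^ 2 = 0 := by
      have h5 : ∑ i, (g i : M) * b i ^ 2 = 0 := by
        rw [← hg]
        refine Finset.sum_congr rfl fun i _ => ?_
        rfl
      calc ∑ i, (∑ j, algebraMap K M (e j) *
        (Polynomial.aeval U (g0 i j) ^ 2 + U * Polynomial.aeval U (g1 i j) ^ 2)) * b i ^ 2
          = ∑ i, D * ((g i : M) * b i ^ 2) := by
            refine Finset.sum_congr rfl fun i _ => ?_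
            rw [← h3 i]
            ring
        _ = 0 := by rw [← Finset.mul_sum, h5, mul_zero]
    rw [← h4]
    simp only [Finset.sum_mul]
    rw [Finset.sum_comm]
    refine Finset.sum_congr rfl fun j _ => ?_
    rw [R1_sq h2M, R1_sq h2M, Finset.mul_sum, ← Finset.sum_add_distrib, Finset.mul_sum]
    refine Finset.sum_congr rfl fun i _ => ?_
    ring
  obtain ⟨hz0, hz1⟩ := ind2_place h2 hO U hU e he
    (fun j => ∑ i, Polynomial.aeval U (g0 i j) * b i)
    (fun j => ∑ i, Polynomial.aeval U (g1 i j) * b i) hsum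
  have hmem : ∀ q : Polynomial K, Polynomial.aeval U q ∈ adjoin K ({U} : Set M) := fun q =>
    (mem_adjoin_simple_iff K _).2 ⟨q, 1, by simp⟩
  have hinj : ∀ q : Polynomial K, Polynomial.aeval U q = 0 → q = 0 := fun q hq =>
    transcendental_iff.1 htr q hq
  have hcol : ∀ gg : Fin m → Polynomial K, ∑ i, Polynomial.aeval U (gg i) * b i = 0 →
      ∀ i, gg i = 0 := by
    intro gg hgg i
    have h6 := Fintype.linearIndependent_iff.1 hb (fun i => ⟨Polynomial.aeval U (gg i), hmem _⟩)
      (by rw [← hgg]; rfl) i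
    exact hinj _ (congrArg Subtype.val h6)
  intro i
  have hp0 : p i = 0 := by
    rw [hdec i]
    refine Finset.sum_eq_zero fun j _ => ?_
    have e0 : g0 i j = 0 := hcol (fun i => g0 i j) (congrFun hz0 j) i
    have e1 : g1 i j = 0 := hcol (fun i => g1 i j) (congrFun hz1 j) i
    rw [e0, e1]
    ring
  have h7 := hp i
  rw [hp0, map_zero] at h7
  have h8 : (g i : M) = 0 := by
    rcases mul_eq_zero.1 h7.symm with h | h
    · exact h
    · exact absurd h hD0
  exact Subtype.ext h8

end MP2619.Q5
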