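import Pool.Agent.Lib.MP_2619d0_ag.Q5.RDefs

/-!
Row 2619q5-R1a: `2`-independence is preserved by extensions of odd degree.
-/

set_option autoImplicit false

namespace MP2619.Q5

universe u v

/-- `e` is independent over the squares of `K` -/
def Ind2 {K : Type v} [Field K] {r : ℕ} (e : Fin r → K) : Prop :=
  ∀ a : Fin r → K, ∑ i, e i * a i ^ 2 = 0 → a = 0

/-- `κ/K` has odd degree, so it is separable; if `β_j` is a basis of `κ/K` then so is `β_j²`
(the span of the `β_j²` is a field `L` with `K ⊆ L` and `κ² ⊆ L`, and `[κ : L]` is odd and a power of two; or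
`Field` lemmas of Mathlib on `LinearIndependent.map_pow_expChar_pow_of_isSeparable`). Write
`h i = ∑_j a_ij β_j`: `0 = ∑_j β_j² ∑_i e_i a_ij²`. -/
theorem ind2_ext {K : Type v} {κ : Type u} [Field K] [Field κ] [Algebra K κ] (h2 : (2 : K) = 0)
    (hodd : Odd (Module.finrank K κ)) {r : ℕ} (e : Fin r → K) (he : Ind2 e) (h : Fin r → κ)
    (h0 : ∑ i, algebraMap K κ (e i) * h i ^ 2 = 0) : h = 0 := by
  classical
  have hfd : FiniteDimensional K κ := by
    apply FiniteDimensional.of_finrank_pos
    exact hodd.pos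
  have hchK : CharP K 2 := CharTwo.of_one_ne_zero_of_two_eq_zero one_ne_zero h2
  have hexpK : ExpChar K 2 := ExpChar.prime Nat.prime_two
  have h2κ : (2 : κ) = 0 := by
    have := congrArg (algebraMap K κ) h2
    rwa [map_ofNat, map_zero] at this
  have hchκ : CharP κ 2 := CharTwo.of_one_ne_zero_of_two_eq_zero one_ne_zero h2κ
  have hexpκ : ExpChar κ 2 := ExpChar.prime Nat.prime_two
  have hsep : Algebra.IsSeparable K κ := by
    rw [isSeparable_iff_finInsepDegree_eq_one]
    obtain ⟨n, hn⟩ := finInsepDegree_eq_pow K κ 2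
    have hmul := Field.finSepDegree_mul_finInsepDegree K κ
    rw [hn]
    rcases Nat.eq_zero_or_pos n with h | h
    · rw [h, pow_zero]
    · exfalso
      rw [← hmul, hn] at hodd
      have h1 : Odd (2 ^ n) := (Nat.odd_mul.1 hodd).2
      have h3 : Even (2 ^ n) := (Nat.even_pow.2 ⟨even_two, h.ne'⟩)
      exact (Nat.not_even_iff_odd.2 h1) h3
  let b := Module.finBasis K κ
  have hli : LinearIndependent K (fun j => b j ^ 2) := by
    have := b.linearIndependent.map_pow_expChar_pow_of_isSeparable 2 1
    simpa using this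
  have hexp : ∀ i, h i = ∑ j, algebraMap K κ (b.repr (h i) j) * b j := by
    intro i
    conv_lhs => rw [← b.sum_repr (h i)]
    exact Finset.sum_congr rfl fun j _ => by rw [Algebra.smul_def]
  have hsq : ∀ i, h i ^ 2 = ∑ j, algebraMap K κ (b.repr (h i) j ^ 2) * b j ^ 2 := by
    intro i
    conv_lhs => rw [hexp i]
    rw [CharTwo.sum_sq]
    exact Finset.sum_congr rfl fun j _ => by rw [mul_pow, map_pow]
  have hz : ∑ j, (∑ i, e i * (b.repr (h i) j) ^ 2) • (b j ^ 2) = 0 := by
    rw [← h0]
    simp_rw [hsq, Finset.mul_sum, Finset.sum_smul]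
    rw [Finset.sum_comm]
    refine Finset.sum_congr rfl fun i _ => Finset.sum_congr rfl fun j _ => ?_
    rw [Algebra.smul_def, map_mul]
    ring
  have hcoef := Fintype.linearIndependent_iff.1 hli _ hz
  have hzero : ∀ i j, b.repr (h i) j = 0 := by
    intro i j
    have := he (fun i => b.repr (h i) j) (hcoef j)
    exact congrFun this i
  funext i
  rw [hexp i]
  simp [hzero]

end MP2619.Q5
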