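import Pool.Agent.Lib.MP_2619d0_ag.Q5.R1a

/-!
Row 2619q5-R1b: `2`-independence and an odd place.
-/

set_option autoImplicit false

namespace MP2619.Q5

universe u v

open IntermediateField MP2619.R

/-- Suppose not all `h0 i`, `h1 i` are zero. Let `m` be the minimum of `2 ord (h0 i)` and
`2 ord (h1 i) + ord U` over the nonzero ones. If `m = 2 s` is even, divide by `ϖ^(2s)`: the residues
`h̄_i` of `h0 i / ϖ^s` are not all zero and `∑ e_i h̄_i² = 0` in the residue field (all `U h1²` terms have larger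
order, because `2 ord (h1 i) + ord U` is odd): contradiction to `ind2_ext` (`rdeg_eq` in `R/A5.lean`: the residue
field has odd degree over `K`). If `m` is odd, divide the relation by `U`. -/
theorem ind2_place {K : Type v} {M : Type u} [Field K] [Field M] [Algebra K M] (h2 : (2 : K) = 0)
    {O : ValuationSubring M} (hO : OP K O) (U : M) (hU : Odd (ord O U)) {r : ℕ} (e : Fin r → K)
    (he : Ind2 e) (h0 h1 : Fin r → M)
    (h : ∑ i, algebraMap K M (e i) * (h0 i ^ 2 + U * h1 i ^ 2) = 0) : h0 = 0 ∧ h1 = 0 := by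
  have hAn : An e := he
  have hU0 : U ≠ 0 := by
    rintro rfl
    rw [ord_zero] at hU
    exact absurd hU (by decide)
  have hs : ∑ i, algebraMap K M (e i) * h0 i ^ 2 + U * ∑ i, algebraMap K M (e i) * h1 i ^ 2 = 0 := by
    rw [← h, Finset.mul_sum, ← Finset.sum_add_distrib]
    exact Finset.sum_congr rfl fun i _ => by ring
  have h1z : h1 = 0 := by
    by_contra hh1
    obtain ⟨hS1, i1, -, ho1, -⟩ := ord_an hO h2 e hAn h1 hh1
    have hh0 : h0 ≠ 0 := by
      rintro rfl
      apply mul_ne_zero hU0 hS1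
      rw [← hs]
      simp
    obtain ⟨hS0, i0, -, ho0, -⟩ := ord_an hO h2 e hAn h0 hh0
    have heq := eq_neg_of_add_eq_zero_left hs
    have h3 := congrArg (ord O) heq
    rw [ord_neg, ord_mul hO.dv hU0 hS1, ho0, ho1] at h3
    obtain ⟨m, hm⟩ := hU
    omega
  refine ⟨?_, h1z⟩
  by_contra hh0
  obtain ⟨hS0, -⟩ := ord_an hO h2 e hAn h0 hh0
  apply hS0
  rw [← hs, h1z]
  simp

end MP2619.Q5
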