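import Pool.Agent.Lib.MP_2619d0_ag.Q5.R1
import Pool.Agent.Lib.MP_2619d0_ag.W.W3

/-!
Row 2619q5-R2a: the sum of the orders is even, over `k(v)`, for every `v`.
-/

set_option autoImplicit false

namespace MP2619.Q5

universe u v

open IntermediateField MP2619.R MP2619.W

/-- an element of nonzero order at an odd place is transcendental -/
private theorem R2a_trans {K : Type v} {M : Type u} [Field K] [Field M] [Algebra K M]
    {O : ValuationSubring M} (hO : OP K O) {T : M} (hT0 : T ≠ 0) (hT : ord O T ≠ 0) :
    Transcendental K T := by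
  intro h5
  have h4 : T ∈ O :=
    Pool.Agent.Lib.MP_2619d0_ag.T.LT2_integral O hO.cst T h5.isIntegral
  have h6 : T⁻¹ ∈ O :=
    Pool.Agent.Lib.MP_2619d0_ag.T.LT2_integral O hO.cst T⁻¹ h5.inv.isIntegral
  rw [mem_iff hO.dv hT0] at h4
  rw [mem_iff hO.dv (inv_ne_zero hT0), ord_inv hO.dv hT0] at h6
  omega

/-- `M/k` has a finite basis of `n + 1` elements (up to a finite extension), `v` algebraically independent (`n`
elements), `K = k(v)`. If there is no odd place over `K`: `s = ∅`. Otherwise let `O0` be an odd place, `T` a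
uniformizer: `ord O0 T = 1`. `T` is transcendental over `K` (algebraic elements are units, see the end of
`W/W3.lean`), so `(T, v)` is algebraically independent over `k` (`pr_cons`, `ind_cons` in `R/A8.lean`) and `[M : K(T)]` is
finite (`fin_iff_ind`, `finrank_cons`); `sep_of_odd`; then `ord_sum_even`. -/
theorem es_all {k M : Type u} [Field k] [Field M] [Algebra k M] (h2 : (2 : k) = 0) {n : ℕ}
    (hfg : ∃ z : Fin (n + 1) → M, AlgebraicIndependent k z ∧
      Module.finrank (adjoin k (Set.range z)) M ≠ 0)
    (v : Fin n → M) (hv : AlgebraicIndependent k v) (G : M) (hG : G ≠ 0) :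
    ∃ s : Finset (ValuationSubring M), (∀ O ∈ s, OP (adjoin k (Set.range v)) O) ∧
      ∀ s' : Finset (ValuationSubring M), s ⊆ s' → (∀ O ∈ s', OP (adjoin k (Set.range v)) O) →
        Even (∑ O ∈ s', ord O G) := by
  classical
  by_cases hex : ∃ O0 : ValuationSubring M, OP (adjoin k (Set.range v)) O0
  · obtain ⟨O0, hO0⟩ := hex
    obtain ⟨T, hT0, hT1⟩ := exists_uf hO0.dv
    have hTt : Transcendental (adjoin k (Set.range v)) T :=
      R2a_trans hO0 hT0 (by rw [hT1]; exact one_ne_zero)
    obtain ⟨z, hz, hzf⟩ := hfg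
    have hcons : AlgebraicIndependent k (Fin.cons T v : Fin (n + 1) → M) :=
      (ind_cons T v).2 ⟨hv, hTt⟩
    have hfin : Module.finrank (adjoin (adjoin k (Set.range v)) ({T} : Set M)) M ≠ 0 := by
      rw [← finrank_cons]
      exact (fin_iff_ind z (Fin.cons T v) hz hzf).1 hcons
    have h2K : (2 : adjoin k (Set.range v)) = 0 := by
      have h3 := congrArg (algebraMap k (adjoin k (Set.range v))) h2
      rwa [map_ofNat, map_zero] at h3
    have hsep := sep_of_odd h2K hO0 T (by rw [hT1]; exact odd_one) hfin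
    exact ord_sum_even h2K T hTt hfin hsep G hG
  · refine ⟨∅, by simp, ?_⟩
    intro s' _ hs'
    have h3 : s' = ∅ := by
      rw [Finset.eq_empty_iff_forall_notMem]
      intro O hO
      exact hex ⟨O, hs' O hO⟩
    rw [h3, Finset.sum_empty]
    exact Even.zero

end MP2619.Q5
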