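import Pool.Agent.Lib.MP_2619d0_ag.Q5.R1
import Pool.Agent.Lib.MP_2619d0_ag.W.W3

/-!
Row 2619q5-R2b: the degree modulo two, over `k(v)`, for every `v`.
-/

set_option autoImplicit false

namespace MP2619.Q5

universe u v

open IntermediateField MP2619.R MP2619.W

/-- Modulo two the number of zeros of `t` at odd places over `K = k(v)` is `[M : K(t)]`.
* `(t, v)` not algebraically independent: `Pr` is false; `t` is algebraic over `K`, so a unit at every odd place:
  no places.
* Otherwise `[M : K(t)]` is finite (`fin_iff_ind`, `finrank_cons`). If `M/K(t)` is separable: `fi_field` (`R/A3.lean`), as in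
  `W3_count` (private in `W/W3.lean`: copy it; there `s'` contains all odd places over `t = 0`).
  If `M/K(t)` is not separable: `[M : K(t)]` is even (`MP2619.K.K2_sep`: odd degree implies separable), so `Pr` is false
  (`pr_cons`), and `ord O t` is even at every odd place (`sep_of_odd`). -/
theorem deg_all {k M : Type u} [Field k] [Field M] [Algebra k M] (h2 : (2 : k) = 0) {n : ℕ}
    (hfg : ∃ z : Fin (n + 1) → M, AlgebraicIndependent k z ∧
      Module.finrank (adjoin k (Set.range z)) M ≠ 0)
    (v : Fin n → M) (hv : AlgebraicIndependent k v) (t : M) (ht : t ≠ 0) :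
    ∃ s : Finset (ValuationSubring M),
      (∀ O ∈ s, OP (adjoin k (Set.range v)) O ∧ O.valuation t < 1) ∧
      ∀ s' : Finset (ValuationSubring M), s ⊆ s' →
        (∀ O ∈ s', OP (adjoin k (Set.range v)) O ∧ O.valuation t < 1) →
        (Odd (∑ O ∈ s', (ord O t).toNat) ↔ Pr k (Fin.cons t v : Fin (n + 1) → M)) := by
  classical
  have h2K : (2 : adjoin k (Set.range v)) = 0 := by
    have h3 : (2 : adjoin k (Set.range v)) = algebraMap k (adjoin k (Set.range v)) 2 := by
      rw [map_ofNat]
    rw [h3, h2, map_zero]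
  by_cases hind : AlgebraicIndependent k (Fin.cons t v : Fin (n + 1) → M)
  · have htr : Transcendental (adjoin k (Set.range v)) t := ((ind_cons t v).1 hind).2
    obtain ⟨z, hz, hzf⟩ := hfg
    have hfin0 : Module.finrank (adjoin k (Set.range (Fin.cons t v : Fin (n + 1) → M))) M ≠ 0 :=
      (fin_iff_ind z _ hz hzf).1 hind
    have hfin : Module.finrank (adjoin (adjoin k (Set.range v)) ({t} : Set M)) M ≠ 0 := by
      rwa [finrank_cons] at hfin0
    by_cases hsep : Algebra.IsSeparable (adjoin (adjoin k (Set.range v)) ({t} : Set M)) M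
    · obtain ⟨s0, hs0, hdv, hsum⟩ := fi_field (K := adjoin k (Set.range v)) t htr hfin hsep
      have hmem : ∀ O, O ∈ s0.filter (fun O => OP (adjoin k (Set.range v)) O) ↔
          OP (adjoin k (Set.range v)) O ∧ O.valuation t < 1 := by
        intro O
        rw [Finset.mem_filter]
        constructor
        · intro h
          exact ⟨h.2, ((hs0 O).1 h.1).2⟩
        · intro h
          exact ⟨(hs0 O).2 ⟨h.1.cst, h.2⟩, h.1⟩
      refine ⟨s0.filter fun O => OP (adjoin k (Set.range v)) O, fun O hO => (hmem O).1 hO, ?_⟩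
      intro s' hss' hs'
      have h1 : s' = s0.filter fun O => OP (adjoin k (Set.range v)) O :=
        Finset.Subset.antisymm (fun O hO => (hmem O).2 (hs' O hO)) hss'
      have h3 : ((∑ O ∈ s', (ord O t).toNat : ℕ) : ZMod 2) =
          ((Module.finrank (adjoin (adjoin k (Set.range v)) ({t} : Set M)) M : ℕ) : ZMod 2) := by
        rw [h1, ← hsum, Finset.sum_filter, Nat.cast_sum, Nat.cast_sum]
        refine Finset.sum_congr rfl ?_
        intro O hO
        rw [Nat.cast_mul]
        by_cases hop : OP (adjoin k (Set.range v)) O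
        · rw [if_pos hop]
          have h4 : ((rdeg (adjoin k (Set.range v)) O : ℕ) : ZMod 2) = 1 :=
            ZMod.natCast_eq_one_iff_odd.2 hop.odd
          rw [h4, mul_one]
        · rw [if_neg hop]
          have h4 : Even (rdeg (adjoin k (Set.range v)) O) := by
            rw [← Nat.not_odd_iff_even]
            intro h5
            exact hop ⟨((hs0 O).1 hO).1, hdv O hO, h5⟩
          rw [(ZMod.natCast_eq_zero_iff_even).2 h4, mul_zero, Nat.cast_zero]
      rw [← ZMod.natCast_eq_one_iff_odd, h3, ZMod.natCast_eq_one_iff_odd, pr_cons]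
      exact ⟨fun h => ⟨hv, htr, h⟩, fun h => h.2.2⟩
    · refine ⟨∅, by simp, ?_⟩
      intro s' _ hs'
      have h1 : ¬ Pr k (Fin.cons t v : Fin (n + 1) → M) := by
        rw [pr_cons]
        rintro ⟨_, _, h⟩
        apply hsep
        refine MP2619.K.K2_sep ?_ h
        have h3 : (2 : adjoin (adjoin k (Set.range v)) ({t} : Set M)) =
            algebraMap (adjoin k (Set.range v)) (adjoin (adjoin k (Set.range v)) ({t} : Set M)) 2 := by
          rw [map_ofNat]
        rw [h3, h2K, map_zero]
      refine iff_of_false ?_ h1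
      rw [Nat.not_odd_iff_even]
      refine Finset.even_sum _ (fun O hO => ?_)
      have h3 : ¬ Odd (ord O t) := fun h => hsep (sep_of_odd h2K (hs' O hO).1 t h hfin)
      rw [Int.not_odd_iff_even] at h3
      obtain ⟨a, ha⟩ := h3
      refine ⟨a.toNat, ?_⟩
      omega
  · refine ⟨∅, by simp, ?_⟩
    intro s' _ hs'
    have h1 : ¬ Pr k (Fin.cons t v : Fin (n + 1) → M) := fun h => hind h.1
    refine iff_of_false ?_ h1
    have halg : IsAlgebraic (adjoin k (Set.range v)) t := by
      by_contra h3
      exact hind ((ind_cons t v).2 ⟨hv, h3⟩)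
    have h4 : s' = ∅ := by
      rw [Finset.eq_empty_iff_forall_notMem]
      intro O hO
      obtain ⟨hop, hlt⟩ := hs' O hO
      have h5 : t⁻¹ ∈ O :=
        Pool.Agent.Lib.MP_2619d0_ag.T.LT2_integral O hop.cst t⁻¹ halg.inv.isIntegral
      rw [← O.valuation_le_one_iff, map_inv₀] at h5
      have h6 : O.valuation t ≠ 0 := (Valuation.ne_zero_iff _).2 ht
      have h7 : (O.valuation t)⁻¹ * O.valuation t ≤ 1 * O.valuation t :=
        mul_le_mul_left h5 _
      rw [inv_mul_cancel₀ h6, one_mul] at h7
      exact absurd hlt (not_lt.2 h7)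
    rw [h4, Finset.sum_empty]
    exact Nat.not_odd_zero

end MP2619.Q5
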