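import Pool.Agent.Lib.MP_2619d0_ag.Q5.RDefs
import Pool.Agent.Lib.MP_2619d0_ag.R.A9

/-!
Row 2619q5-R3a: odd places and residues.
-/

set_option autoImplicit false

namespace MP2619.Q5

universe u

open IntermediateField MP2619.R MP2619.W

/-- the field generated by the residues is the image of the field generated by the elements -/
private theorem R3a_range {k M : Type u} [Field k] [Field M] [Algebra k M] {n : ℕ}
    {O : ValuationSubring M} (h : Cst k O) (v : Fin n → O)
    (hc : Cst (adjoin k (Set.range fun i => (v i : M))) O) :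
    letI : Algebra k (IsLocalRing.ResidueField O) := (rc h).toAlgebra
    (adjoin k (Set.range fun i => IsLocalRing.residue O (v i))).toSubfield =
      (rc hc).fieldRange := by
  letI : Algebra k (IsLocalRing.ResidueField O) := (rc h).toAlgebra
  let φ : adjoin k (Set.range fun i => (v i : M)) →ₐ[k] IsLocalRing.ResidueField O :=
    { rc hc with commutes' := fun c => rfl }
  have hmem : ∀ i, (v i : M) ∈ adjoin k (Set.range fun i => (v i : M)) :=
    fun i => subset_adjoin k _ ⟨i, rfl⟩
  have hφv : ∀ i, φ ⟨(v i : M), hmem i⟩ = IsLocalRing.residue O (v i) := by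
    intro i
    rfl
  apply le_antisymm
  · have h2 : adjoin k (Set.range fun i => IsLocalRing.residue O (v i)) ≤ φ.fieldRange := by
      rw [adjoin_le_iff]
      rintro _ ⟨i, rfl⟩
      exact ⟨⟨(v i : M), hmem i⟩, hφv i⟩
    exact h2
  · rintro _ ⟨⟨z, hz⟩, rfl⟩
    have h3 : φ ⟨z, hz⟩ ∈ adjoin k (Set.range fun i => IsLocalRing.residue O (v i)) := by
      refine adjoin_induction k (s := Set.range fun i => (v i : M))
        (p := fun x hx => φ ⟨x, hx⟩ ∈
          adjoin k (Set.range fun i => IsLocalRing.residue O (v i))) ?_ ?_ ?_ ?_ ?_ hz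
      · rintro _ ⟨i, rfl⟩
        have h4 := hφv i
        exact subset_adjoin k _ ⟨i, h4.symm⟩
      · intro c
        have h5 : φ ⟨algebraMap k M c,
            (adjoin k (Set.range fun i => (v i : M))).algebraMap_mem c⟩ =
          algebraMap k _ c := φ.commutes c
        rw [h5]
        exact (adjoin k (Set.range fun i => IsLocalRing.residue O (v i))).algebraMap_mem c
      · intro x y hx hy h6 h7
        have h8 : φ ⟨x + y, add_mem hx hy⟩ = φ ⟨x, hx⟩ + φ ⟨y, hy⟩ := by
          rw [← map_add]
          rfl
        rw [h8]
        exact add_mem h6 h7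
      · intro x hx h6
        have h8 : φ ⟨x⁻¹, inv_mem hx⟩ = (φ ⟨x, hx⟩)⁻¹ := by
          rw [← map_inv₀]
          rfl
        rw [h8]
        exact inv_mem h6
      · intro x y hx hy h6 h7
        have h8 : φ ⟨x * y, mul_mem hx hy⟩ = φ ⟨x, hx⟩ * φ ⟨y, hy⟩ := by
          rw [← map_mul]
          rfl
        rw [h8]
        exact mul_mem h6 h7
    exact h3

/-- `→`: `pass` (`R/A9.lean`). `←`: the residues of `v` are algebraically independent over `k`: so `v` is
(`indep_lift`), a nonzero polynomial in `v` over `k` has nonzero residue, so it is a unit of `O`, hence `k(v) ⊆ O`,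
and the image of `k(v)` in the residue field is `k(v̄)`: `rdeg` is `[κ : k(v̄)]`. -/
theorem res_pr {k M : Type u} [Field k] [Field M] [Algebra k M] {n : ℕ} {O : ValuationSubring M}
    (h : Cst k O) (hd : DV O) (v : Fin n → O) :
    letI : Algebra k (IsLocalRing.ResidueField O) := (rc h).toAlgebra
    (AlgebraicIndependent k (fun i => (v i : M)) ∧
      OP (adjoin k (Set.range fun i => (v i : M))) O) ↔
        Pr k (fun i => IsLocalRing.residue O (v i)) := by
  letI : Algebra k (IsLocalRing.ResidueField O) := (rc h).toAlgebra
  constructor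
  · rintro ⟨h1, h2⟩
    exact pass (fun i => (v i : M)) h1 O h2 v (fun _ => rfl)
  · rintro ⟨h1, h2⟩
    have hs := adj_small h v h1
    have hc : Cst (adjoin k (Set.range fun i => (v i : M))) O := by
      rintro ⟨z, hz⟩
      change z ∈ O
      rw [mem_adjoin_iff_div] at hz
      obtain ⟨r, hr, s, hs', rfl⟩ := hz
      rcases eq_or_ne s 0 with h0 | h0
      · rw [h0, div_zero]
        exact O.zero_mem
      · have h3 : O.valuation s = 1 := by
          refine le_antisymm ((ValuationSubring.valuation_le_one_iff _ _).mpr (hs s hs').1) ?_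
          by_contra h4
          exact h0 ((hs s hs').2 (not_le.mp h4))
        have h5 : s⁻¹ ∈ O := by
          rw [← ValuationSubring.valuation_le_one_iff, map_inv₀, h3, inv_one]
        rw [div_eq_mul_inv]
        exact O.mul_mem _ _ (hs r hr).1 h5
    refine ⟨indep_lift h v h1, hc, hd, ?_⟩
    unfold rdeg
    rw [dif_pos hc]
    have h9 : Module.finrank (adjoin k (Set.range fun i => IsLocalRing.residue O (v i)))
        (IsLocalRing.ResidueField O) = Module.finrank
          (adjoin k (Set.range fun i => IsLocalRing.residue O (v i))).toSubfield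
          (IsLocalRing.ResidueField O) := rfl
    rw [h9, R3a_range h v hc] at h2
    exact h2

end MP2619.Q5
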