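import Pool.Agent.Lib.MP_2619d0_ag.Q5.R5a
import Pool.Agent.Lib.MP_2619d0_ag.Q5.R3b
import Pool.Agent.Lib.MP_2619d0_ag.Q5.R2b

/-!
Row 2619q5-R5: specialisation `t → 0` with characters.
-/

set_option autoImplicit false

namespace MP2619.Q5

universe u

open IntermediateField MP2619.R MP2619.W MP2619.NP

variable {k M : Type u} [Field k] [Field M] [Algebra k M] {n : ℕ}

private theorem R5_cube {w : k} (hw : w ^ 2 + w + 1 = 0) (m : ℕ) : (w ^ m) ^ 3 = 1 := by
  have h3 : w ^ 3 = 1 := by linear_combination (w - 1) * hw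
  rw [← pow_mul, mul_comm, pow_mul, h3, one_pow]

private theorem R5_cu {w : k} (hw : w ^ 2 + w + 1 = 0) (A : Finset (Fin n)) (x : Fin n → M)
    (g : Fin n → ZMod 3) (h : cu A x = 0) :
    cu A (fun i => algebraMap k M (w ^ (g i).val) * x i) = 0 := by
  unfold cu at h ⊢
  rw [← h]
  refine Finset.sum_congr rfl fun i _ => ?_
  rw [mul_pow, ← map_pow, R5_cube hw, map_one, one_mul]

private theorem R5_map {M' : Type u} [Field M'] [Algebra M M'] (A : Finset (Fin n)) (x : Fin n → M) :
    cu A (fun i => algebraMap M M' (x i)) = algebraMap M M' (cu A x) := by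
  unfold cu
  rw [map_sum]
  refine Finset.sum_congr rfl fun i _ => ?_
  rw [map_pow]

private theorem R5_cast (h2 : (2 : k) = 0) (m : ℕ) [Decidable (Odd m)] :
    (m : k) = if Odd m then 1 else 0 := by
  rcases Nat.even_or_odd m with h | h
  · rw [if_neg (Nat.not_odd_iff_even.mpr h)]
    obtain ⟨r, rfl⟩ := h
    push_cast
    linear_combination (r : k) * h2
  · rw [if_pos h]
    obtain ⟨r, rfl⟩ := h
    push_cast
    linear_combination (r : k) * h2

/-- `exists_RF k M`, `X = tw A T x`, `Y = y`, `v_g = zv w X Y g`. For every `g`: `Pr k (zv w x y g) ↔ Pr k' (v_g)` (`sc_iff` for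
`w^g x`) `↔ Pr k (T, v_g)` (`RF.pr_iff`). For `g` with `v_g` algebraically independent let `s_g` be as in `deg_all` for `t = T`
(`hfg`: `exists_pr`, `RF.pr`, `RF.pr_iff`); `U` = the union of all `s_g`. For every `g` with `v_g` independent the sum of `ord O T` over
`{O ∈ U : OP k(v_g) O} ⊇ s_g` is odd iff `Pr k (zv w x y g)`. So `c2 w x y = ∑_{O ∈ U} (ord O T) cO(O)` in `k`, and
there is `O ∈ U` with `cO(O) ≠ 0`; `cO_int`: `cu univ X = 0` (`cu_tw`), so `X`, `Y` are integral. -/
theorem Hc (h2 : (2 : k) = 0) {w : k} (hw : w ^ 2 + w + 1 = 0) (hn : 3 ≤ n)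
    (A : Finset (Fin n)) (x y : Fin n → M) (hA : cu A x = 0)
    (hx : cu Finset.univ x = 0) (hy : cu Finset.univ y = 0) (hc : c2 w x y ≠ 0) :
    ∃ (M' : Type u) (_ : Field M') (_ : Algebra k M') (_ : Algebra M M')
      (_ : IsScalarTower k M M') (t : M') (O : ValuationSubring M'), t ≠ 0 ∧ O.valuation t < 1 ∧
      cO w (tw A t (fun i => algebraMap M M' (x i))) (fun i => algebraMap M M' (y i)) O ≠ 0 ∧
      (∀ i, tw A t (fun i => algebraMap M M' (x i)) i ∈ O) ∧
      (∀ i, algebraMap M M' (y i) ∈ O) := by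
  classical
  obtain ⟨k', M', ik', iM', a1, a2, a3, a4, t1, t2, t, hRF⟩ := exists_RF k M
  set T : M' := algebraMap k' M' t with hTdef
  set X : Fin n → M' := tw A T (fun i => algebraMap M M' (x i)) with hXdef
  set Y : Fin n → M' := fun i => algebraMap M M' (y i) with hYdef
  have hT0 : T ≠ 0 := by
    intro h0
    apply hRF.trans
    rw [← hTdef, h0]
    exact isAlgebraic_zero
  obtain ⟨g0, hg0⟩ := exists_pr hc
  have hM : ∃ z : Fin n → M, Pr k z := ⟨_, hg0⟩
  -- the equivalence
  have hpr : ∀ g : Fin n → ZMod 3, Pr k (zv w x y g) ↔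
      Pr k (Fin.cons T (zv w X Y g) : Fin (n + 1) → M') := by
    intro g
    have h3 := sc_iff hRF h2 hw hn hM A (fun i => algebraMap k M (w ^ (g i).val) * x i) y
      (R5_cu hw A x g hA) (R5_cu hw Finset.univ x g hx) hy
    rw [← RF.pr_iff hRF]
    have e : zv w X Y g = fun i => tw A (algebraMap k' M' t)
        (fun j => algebraMap M M' (algebraMap k M (w ^ (g j).val) * x j)) i +
          algebraMap M M' (y i) := by
      funext i
      rw [hXdef, hYdef]
      unfold zv tw
      split_ifs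
      · simp only [map_mul]
        rw [← IsScalarTower.algebraMap_apply k M M', hTdef]
        ring
      · simp only [map_mul]
        rw [← IsScalarTower.algebraMap_apply k M M']
    rw [e, h3]
    rfl
  -- finite generation
  have hfg : ∃ z : Fin (n + 1) → M', AlgebraicIndependent k z ∧
      Module.finrank (adjoin k (Set.range z)) M' ≠ 0 := by
    have h3 := RF.pr hRF _ hg0
    rw [RF.pr_iff hRF] at h3
    exact ⟨_, h3.1, h3.2.pos.ne'⟩
  have hs : ∀ g : Fin n → ZMod 3, ∃ s : Finset (ValuationSubring M'),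
      AlgebraicIndependent k (zv w X Y g) →
      (∀ O ∈ s, OP (adjoin k (Set.range (zv w X Y g))) O ∧ O.valuation T < 1) ∧
      ∀ s' : Finset (ValuationSubring M'), s ⊆ s' →
        (∀ O ∈ s', OP (adjoin k (Set.range (zv w X Y g))) O ∧ O.valuation T < 1) →
        (Odd (∑ O ∈ s', (ord O T).toNat) ↔ Pr k (Fin.cons T (zv w X Y g) : Fin (n + 1) → M')) := by
    intro g
    by_cases hv : AlgebraicIndependent k (zv w X Y g)
    · obtain ⟨s, h3, h4⟩ := deg_all h2 hfg (zv w X Y g) hv T hT0
      exact ⟨s, fun _ => ⟨h3, h4⟩⟩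
    · exact ⟨∅, fun h => absurd h hv⟩
  choose s hs using hs
  set U : Finset (ValuationSubring M') := Finset.univ.biUnion
    (fun g : Fin n → ZMod 3 => if AlgebraicIndependent k (zv w X Y g) then s g else ∅) with hU
  have hUT : ∀ O ∈ U, O.valuation T < 1 := by
    intro O hO
    rw [hU, Finset.mem_biUnion] at hO
    obtain ⟨g, -, hO⟩ := hO
    split_ifs at hO with hv
    · exact ((hs g hv).1 O hO).2
    · exact absurd hO (Finset.notMem_empty _)
  have hodd : ∀ g : Fin n → ZMod 3, AlgebraicIndependent k (zv w X Y g) →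
      (Odd (∑ O ∈ U.filter (fun O => OP (adjoin k (Set.range (zv w X Y g))) O),
        (ord O T).toNat) ↔ Pr k (zv w x y g)) := by
    intro g hv
    rw [hpr g]
    refine (hs g hv).2 _ ?_ ?_
    · intro O hO
      rw [Finset.mem_filter]
      refine ⟨?_, ((hs g hv).1 O hO).1⟩
      rw [hU, Finset.mem_biUnion]
      refine ⟨g, Finset.mem_univ _, ?_⟩
      rw [if_pos hv]
      exact hO
    · intro O hO
      rw [Finset.mem_filter] at hO
      exact ⟨hO.2, hUT O hO.1⟩
  have hsum : ∑ O ∈ U, (((ord O T).toNat : ℕ) : k) * cO w X Y O = c2 w x y := by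
    unfold cO c2
    simp only [Finset.mul_sum]
    rw [Finset.sum_comm]
    refine Finset.sum_congr rfl fun g _ => ?_
    by_cases hv : AlgebraicIndependent k (zv w X Y g)
    · have h3 : ∑ O ∈ U, (((ord O T).toNat : ℕ) : k) * (if AlgebraicIndependent k (zv w X Y g) ∧
          OP (adjoin k (Set.range (zv w X Y g))) O then w ^ (∑ i, g i).val else 0) =
          ((∑ O ∈ U.filter (fun O => OP (adjoin k (Set.range (zv w X Y g))) O),
            (ord O T).toNat : ℕ) : k) * w ^ (∑ i, g i).val := by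
        rw [Nat.cast_sum, Finset.sum_filter, Finset.sum_mul]
        refine Finset.sum_congr rfl fun O _ => ?_
        by_cases h4 : OP (adjoin k (Set.range (zv w X Y g))) O
        · rw [if_pos ⟨hv, h4⟩, if_pos h4]
        · rw [if_neg (fun h5 => h4 h5.2), if_neg h4, mul_zero, zero_mul]
      rw [h3, R5_cast h2]
      by_cases h5 : Pr k (zv w x y g)
      · rw [if_pos ((hodd g hv).mpr h5), if_pos h5, one_mul]
      · rw [if_neg (fun h6 => h5 ((hodd g hv).mp h6)), if_neg h5, zero_mul]
    · have h5 : ¬ Pr k (zv w x y g) := by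
        rw [hpr g]
        intro h6
        exact hv ((ind_cons _ _).mp h6.1).1
      rw [if_neg h5]
      refine Finset.sum_eq_zero fun O _ => ?_
      rw [if_neg (fun h6 => hv h6.1), mul_zero]
  obtain ⟨O, hOU, hO⟩ : ∃ O ∈ U, cO w X Y O ≠ 0 := by
    by_contra hcon
    push Not at hcon
    apply hc
    rw [← hsum]
    refine Finset.sum_eq_zero fun O hO => ?_
    rw [hcon O hO, mul_zero]
  have hYu : cu Finset.univ Y = 0 := by
    rw [hYdef, R5_map, hy, map_zero]
  have hXu : cu Finset.univ X = 0 := by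
    have h3 : cu (Finset.univ \ A) x = 0 := by
      have h4 : cu (Finset.univ \ A) x + cu A x = cu Finset.univ x := by
        unfold cu
        exact Finset.sum_sdiff (Finset.subset_univ A)
      rw [hA, hx, add_zero] at h4
      exact h4
    rw [hXdef, cu_tw, Finset.univ_inter, R5_map, R5_map, hA, h3, map_zero, mul_zero, add_zero]
  obtain ⟨-, -, h3⟩ := cO_int h2 hw hn hYu hO
  rcases h3 with h3 | h3
  · exact ⟨M', iM', a2, a3, t1, T, O, hT0, hUT O hOU, hO, h3.1, h3.2⟩
  · exact absurd hXu h3.1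

end MP2619.Q5
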