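import Pool.Agent.Lib.MP_2619d0_ag.Q5.R0b
import Pool.Agent.Lib.MP_2619d0_ag.NP.A7

/-!
Row 2619q5-R5a: scaling a split vector by an indeterminate.
-/

set_option autoImplicit false

namespace MP2619.Q5

universe u

open IntermediateField MP2619.R MP2619.W MP2619.NP

private theorem R5a_Phi {k M : Type u} [Field k] [Field M] [Algebra k M] {n : ℕ} (a b c : Fin n)
    (x : Fin n → M) : Phi (0 : k) a b c x = cu Finset.univ x := by
  unfold Phi cu
  rw [map_zero, zero_mul, add_zero]

private theorem R5a_rs {M : Type u} [Field M] {n : ℕ} (A : Finset (Fin n)) (x : Fin n → M) :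
    cu Finset.univ (rs A x) = cu A x := by
  classical
  unfold cu rs
  rw [← Finset.sum_subset (Finset.subset_univ A)]
  · refine Finset.sum_congr rfl fun i hi => ?_
    rw [if_pos hi]
  · intro i _ hi
    rw [if_neg hi]
    ring

/-- `←` is `scA` (`NP/A5.lean`) with `g = 0`, `c0 = 1` (`Base k 0`, `Dt`, `Comp`; `a`, `b`, `c` any three
different coordinates). `→` is the second half of the proof of `sc_c` (`NP/A7.lean`, from the line
`rw [hXY, hRF.pr_iff, pr_cons, ..] at hP` on): the place over `T = 1`. There the hypothesis `∃ z, Pr k z` of `pr_at` is `⟨_, hD.pr⟩`;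
here it is `hM`. -/
theorem sc_iff {k M k' M' : Type u} [Field k] [Field M] [Field k'] [Field M'] [Algebra k M]
    [Algebra k k'] [Algebra k M'] [Algebra M M'] [Algebra k' M'] [IsScalarTower k M M']
    [IsScalarTower k k' M'] {t : k'} (h : RF k M k' M' t) {n : ℕ} (h2 : (2 : k) = 0) {w : k}
    (hw : w ^ 2 + w + 1 = 0) (hn : 3 ≤ n) (hM : ∃ z : Fin n → M, Pr k z) (A : Finset (Fin n))
    (x y : Fin n → M) (hA : cu A x = 0) (hx : cu Finset.univ x = 0) (hy : cu Finset.univ y = 0) :
    Pr k' (fun i => tw A (algebraMap k' M' t) (fun j => algebraMap M M' (x j)) i +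
      algebraMap M M' (y i)) ↔ Pr k (fun i => x i + y i) := by
  classical
  have hb : Base k (0 : k) := ⟨h2, ⟨w, hw⟩, Or.inl rfl⟩
  obtain ⟨a, b, c, hd⟩ : ∃ a b c : Fin n, Dist a b c :=
    ⟨⟨0, by omega⟩, ⟨1, by omega⟩, ⟨2, by omega⟩, by
      refine ⟨?_, ?_, ?_⟩ <;> intro h <;> simp at h⟩
  have hc : Comp (0 : k) a b c A := Or.inl rfl
  have hPx : Phi (0 : k) a b c x = 0 := by rw [R5a_Phi]; exact hx
  have hPy : Phi (0 : k) a b c y = 0 := by rw [R5a_Phi]; exact hy
  have hPA : Phi (0 : k) a b c (rs A x) = 0 := by rw [R5a_Phi, R5a_rs]; exact hA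
  constructor
  swap
  · intro hp
    have h1 := scA h hb hd hc (⟨hp, hPx, hPy⟩ : Dt (0 : k) a b c x y) hPA 1 one_ne_zero
    rwa [map_one, one_mul] at h1
  intro hP
  obtain ⟨T, hT⟩ : ∃ T, T = algebraMap k' M' t := ⟨_, rfl⟩
  obtain ⟨X, hX⟩ : ∃ X : Fin n → M', X = tw A T (fun i => algebraMap M M' (x i)) := ⟨_, rfl⟩
  obtain ⟨Y, hY⟩ : ∃ Y : Fin n → M', Y = fun i => algebraMap M M' (y i) := ⟨_, rfl⟩
  have hXY : (fun i => tw A (algebraMap k' M' t)
      (fun j => algebraMap M M' (x j)) i + algebraMap M M' (y i)) = fun i => X i + Y i := by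
    rw [hX, hY, hT]
  rw [hXY, h.pr_iff, pr_cons, ← hT] at hP
  obtain ⟨hind, htr, hodd⟩ := hP
  -- the place over `T = 1`
  have h2K : (2 : adjoin k (Set.range fun i => X i + Y i)) = 0 := by
    rw [← map_ofNat (algebraMap k (adjoin k (Set.range fun i => X i + Y i))), h2, map_zero]
  have htr1 : Transcendental (adjoin k (Set.range fun i => X i + Y i)) (T - 1) := by
    intro h
    apply htr
    have h1 : T = (T - 1) + algebraMap (adjoin k (Set.range fun i => X i + Y i)) M' 1 := by
      rw [map_one, sub_add_cancel]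
    rw [h1]
    exact h.add (isAlgebraic_algebraMap _)
  have hadj : adjoin (adjoin k (Set.range fun i => X i + Y i)) ({T - 1} : Set M') =
      adjoin (adjoin k (Set.range fun i => X i + Y i)) ({T} : Set M') := by
    apply le_antisymm
    · rw [adjoin_simple_le_iff]
      exact sub_mem (mem_adjoin_simple_self _ _) (one_mem _)
    · rw [adjoin_simple_le_iff]
      have h1 := add_mem (mem_adjoin_simple_self (adjoin k (Set.range fun i => X i + Y i)) (T - 1))
        (one_mem (adjoin (adjoin k (Set.range fun i => X i + Y i)) ({T - 1} : Set M')))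
      rwa [sub_add_cancel] at h1
  obtain ⟨O, hO, hpos, -⟩ := odd_place h2K (T - 1) htr1 (by rw [hadj]; exact hodd)
  have hT1 : T - 1 ≠ 0 := by
    intro h1
    rw [h1, ord_zero] at hpos
    exact lt_irrefl _ hpos
  have hv : O.valuation (T - 1) < 1 := (lt_iff hO.dv hT1).2 hpos
  -- integrality
  have hYP : Phi (0 : k) a b c Y = 0 := by
    rw [hY, Phi_map, hPy, map_zero]
  have hXP : Phi (0 : k) a b c X = 0 := by
    have h1 := Phi_split hc (fun i => algebraMap M M' (x i))
    have h3 : rs A (fun i => algebraMap M M' (x i)) = fun i => algebraMap M M' (rs A x i) := by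
      funext i
      unfold rs
      dsimp only
      split_ifs with h
      · rfl
      · rw [map_zero]
    rw [hX, Phi_tw hc]
    rw [Phi_map, hPx, map_zero, h3, Phi_map, hPA, map_zero, zero_add] at h1
    rw [h3, Phi_map, hPA, map_zero, mul_zero, zero_add]
    exact h1.symm
  have hPl := int_of_zero hb hd X Y hind O hO hXP hYP
  have hTO : T ∈ O := by
    have h1 : T - 1 ∈ O := (O.valuation_le_one_iff _).1 hv.le
    have := O.add_mem _ _ h1 O.one_mem
    rwa [sub_add_cancel] at this
  have hvT : O.valuation T = 1 := by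
    have h5 : O.valuation T ≤ 1 := (O.valuation_le_one_iff _).mpr hTO
    rcases lt_or_eq_of_le h5 with h6 | h6
    · exfalso
      have h7 : O.valuation (T - (T - 1)) < 1 :=
        lt_of_le_of_lt (Valuation.map_sub _ _ _) (max_lt h6 hv)
      rw [sub_sub_cancel, map_one] at h7
      exact lt_irrefl _ h7
    · exact h6
  have hT0 : T ≠ 0 := by
    intro h1
    rw [h1, map_zero] at hvT
    exact zero_ne_one hvT
  have hTinv : T⁻¹ ∈ O := by
    rw [← O.valuation_le_one_iff, map_inv₀, hvT, inv_one]
  have hxO : ∀ i, algebraMap M M' (x i) ∈ O := by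
    intro i
    have h1 := hPl.X_mem i
    rw [hX] at h1
    unfold tw at h1
    by_cases hi : i ∈ A
    · rw [if_pos hi] at h1
      have h2 := O.mul_mem _ _ hTinv h1
      rwa [inv_mul_cancel_left₀ hT0] at h2
    · rwa [if_neg hi] at h1
  have hyO : ∀ i, algebraMap M M' (y i) ∈ O := by
    intro i
    have h1 := hPl.Y_mem i
    rw [hY] at h1
    exact h1
  -- the point at `T = 1`
  obtain ⟨x', hx'⟩ : ∃ x' : Fin n → M, x' = fun i => if i ∈ A then x i else 0 :=
    ⟨_, rfl⟩
  obtain ⟨y', hy'⟩ : ∃ y' : Fin n → M, y' = fun i => if i ∈ A then y i else x i + y i := ⟨_, rfl⟩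
  have hfun : (fun i => algebraMap k' M' t * algebraMap M M' (x' i) + algebraMap M M' (y' i)) =
      fun i => X i + Y i := by
    rw [hX, hY, ← hT]
    funext i
    rw [hx', hy']
    unfold tw
    by_cases hi : i ∈ A
    · simp only [hi, if_true]
    · simp only [hi, if_false, map_zero, map_add]
      ring
  have hres := pr_at h x' y' 1 one_ne_zero hM (by rw [hfun]; exact hind) O
    (by rw [hfun]; exact hO)
    (by rw [map_one, ← hT]; exact hv) (by
      intro i
      rw [hx']
      by_cases hi : i ∈ A
      · simp only [hi, if_true]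
        exact hxO i
      · simp only [hi, if_false, map_zero]
        exact O.zero_mem) (by
      intro i
      rw [hy']
      by_cases hi : i ∈ A
      · simp only [hi, if_true]
        exact hyO i
      · simp only [hi, if_false, map_add]
        exact O.add_mem _ _ (hxO i) (hyO i))
  have hfin : (fun i => algebraMap k M 1 * x' i + y' i) = fun i => x i + y i := by
    funext i
    rw [hx', hy', map_one]
    by_cases hi : i ∈ A
    · simp only [hi, if_true]
      ring
    · simp only [hi, if_false]
      ring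
  rw [← hfin]
  exact hres.2

end MP2619.Q5
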