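import Pool.Agent.Lib.MP_2619d0_ag.Q5.R3b
import Pool.Agent.Lib.MP_2619d0_ag.W.W2

/-!
Row 2619q5-R6: new data from a place.
-/

set_option autoImplicit false

namespace MP2619.Q5

universe u

open IntermediateField MP2619.R MP2619.W MP2619.NP

variable {k M : Type u} [Field k] [Field M] [Algebra k M] {n : ℕ}

private theorem R6_cu {O : ValuationSubring M} {X : Fin n → M} (hX : ∀ i, X i ∈ O)
    (A : Finset (Fin n)) (hA : O.valuation (cu A X) < 1) :
    cu A (fun i => IsLocalRing.residue O ⟨X i, hX i⟩) = 0 := by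
  have h1 : ((∑ i ∈ A, (⟨X i, hX i⟩ : O) ^ 3 : O) : M) = cu A X := by
    unfold cu
    push_cast
    rfl
  have h2 : cu A (fun i => IsLocalRing.residue O ⟨X i, hX i⟩) =
      IsLocalRing.residue O (∑ i ∈ A, (⟨X i, hX i⟩ : O) ^ 3) := by
    unfold cu
    rw [map_sum]
    exact Finset.sum_congr rfl fun i _ => by rw [map_pow]
  rw [h2, IsLocalRing.residue_eq_zero_iff, ValuationSubring.valuation_lt_one_iff, h1]
  exact hA

/-- As `Pl_data` (`NP/A10.lean`): `N` = the residue field, `φ` = the residue map, `Algebra k N = (rc h).toAlgebra`; `cO_eq`;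
`trdeg_lt_res`, `trdeg_lt_res_lt`, `res_adjoin` (`W/W2.lean`). -/
theorem pl_data {w : k} {X Y : Fin n → M} {O : ValuationSubring M} (h : Cst k O) (hd : DV O)
    (hX : ∀ i, X i ∈ O) (hY : ∀ i, Y i ∈ O) (hc : cO w X Y O ≠ 0) :
    ∃ (N : Type u) (_ : Field N) (_ : Algebra k N) (φ : O →+* N) (x y : Fin n → N),
      (∀ z : O, φ z = 0 ↔ O.valuation (z : M) < 1) ∧
      (∀ i, x i = φ ⟨X i, hX i⟩) ∧ (∀ i, y i = φ ⟨Y i, hY i⟩) ∧ c2 w x y ≠ 0 ∧
      (∀ A : Finset (Fin n), O.valuation (cu A X) < 1 → cu A x = 0) ∧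
      (∀ A : Finset (Fin n), O.valuation (cu A Y) < 1 → cu A y = 0) ∧
      (∀ (E : IntermediateField k M) (S : Set N) (e : ℕ), (∀ z ∈ S, ∃ a : O, (a : M) ∈ E ∧ φ a = z) →
        Algebra.trdeg k E < e → Algebra.trdeg k (adjoin k S) < e) ∧
      (∀ (E : IntermediateField k M) (S : Set N) (e : ℕ), (∀ z ∈ S, ∃ a : O, (a : M) ∈ E ∧ φ a = z) →
        Algebra.trdeg k E < (e + 1 : ℕ) → (∃ p ∈ E, p ≠ 0 ∧ O.valuation p < 1) →
        Algebra.trdeg k (adjoin k S) < e) := by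
  let inst : Algebra k (IsLocalRing.ResidueField O) := (rc h).toAlgebra
  have hcO := cO_eq (w := w) h hd (fun i => ⟨X i, hX i⟩) (fun i => ⟨Y i, hY i⟩)
  refine ⟨IsLocalRing.ResidueField O, inferInstance, inst, IsLocalRing.residue O,
    fun i => IsLocalRing.residue O ⟨X i, hX i⟩, fun i => IsLocalRing.residue O ⟨Y i, hY i⟩,
    ?_, fun i => rfl, fun i => rfl, ?_,
    fun A hA => R6_cu hX A hA, fun A hA => R6_cu hY A hA, ?_, ?_⟩
  · intro z
    rw [IsLocalRing.residue_eq_zero_iff, ValuationSubring.valuation_lt_one_iff]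
  · intro h0
    exact hc (hcO.symm.trans h0)
  · intro E S e hS hE
    exact trdeg_lt_res h E e hE (adjoin k S) (res_adjoin h E S hS)
  · intro E S e hS hE hp
    obtain ⟨p, hpE, hp0, hp1⟩ := hp
    exact trdeg_lt_res_lt h E e hE p hpE hp0 hp1 (adjoin k S) (res_adjoin h E S hS)

end MP2619.Q5
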