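import Pool.Agent.Lib.MP_2619d0_ag.Q5.R0b

/-!
Row 2619q5-R7a: transcendence degrees.
-/

set_option autoImplicit false

namespace MP2619.Q5

universe u

open IntermediateField MP2619.R MP2619.W

variable {k M : Type u} [Field k] [Field M] [Algebra k M] {n : ℕ}

/-- the field generated by one element has transcendence degree at most one -/
private theorem R7a_simple {F L : Type u} [Field F] [Field L] [Algebra F L] (t : L) :
    Algebra.trdeg F (adjoin F ({t} : Set L)) ≤ 1 := by
  set E := adjoin F ({t} : Set L) with hE
  let T : E := ⟨t, mem_adjoin_simple_self F t⟩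
  have key : ∀ p : Polynomial F, IsAlgebraic (Algebra.adjoin F ({T} : Set E))
      (Polynomial.aeval T p) := by
    intro p
    have hp : Polynomial.aeval T p ∈ Algebra.adjoin F ({T} : Set E) :=
      Polynomial.aeval_mem_adjoin_singleton F T
    exact isAlgebraic_algebraMap (A := E) (⟨_, hp⟩ : Algebra.adjoin F ({T} : Set E))
  have halg : Algebra.IsAlgebraic (Algebra.adjoin F ({T} : Set E)) E := by
    refine ⟨fun x => ?_⟩
    obtain ⟨p, q, hx⟩ := (mem_adjoin_simple_iff F x.1).1 x.2
    have hx' : x = Polynomial.aeval T p / Polynomial.aeval T q := by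
      apply Subtype.ext
      have e : ∀ p : Polynomial F, ((Polynomial.aeval T p : E) : L) = Polynomial.aeval t p := by
        intro p
        exact (Polynomial.aeval_algHom_apply E.val T p).symm
      rw [hx]
      push_cast
      rw [e, e]
    rw [hx', div_eq_mul_inv]
    exact (key p).mul (key q).inv
  have := Algebra.IsAlgebraic.trdeg_le_cardinalMk F ({T} : Set E)
  simpa using this

private theorem R7a_add (k F L : Type u) [Field k] [Field F] [Field L] [Algebra k F] [Algebra F L]
    [Algebra k L] [IsScalarTower k F L] :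
    Algebra.trdeg k F + Algebra.trdeg F L = Algebra.trdeg k L := trdeg_add_eq k F

/-- the image of an intermediate field -/
theorem trdeg_image {M' : Type u} [Field M'] [Algebra k M'] [Algebra M M']
    [IsScalarTower k M M'] (E : IntermediateField k M) (e : ℕ)
    (hE : Algebra.trdeg k E < e) :
    Algebra.trdeg k ↥(E.map (IsScalarTower.toAlgHom k M M')) < (e : ℕ) := by
  rw [← (IntermediateField.equivMap E (IsScalarTower.toAlgHom k M M')).trdeg_eq]
  exact hE

/-- one more generator -/
theorem trdeg_insert {M' : Type u} [Field M'] [Algebra k M'] [Algebra M M']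
    [IsScalarTower k M M'] (E : IntermediateField k M) (t : M') (e : ℕ)
    (hE : Algebra.trdeg k E < e) :
    Algebra.trdeg k ↥(adjoin k ((algebraMap M M' '' (E : Set M)) ∪ {t})) < (e + 1 : ℕ) := by
  have h0 := trdeg_image (M' := M') E e hE
  set F := E.map (IsScalarTower.toAlgHom k M M') with hF
  have h1 : (F : Set M') = algebraMap M M' '' (E : Set M) := by
    rw [hF, IntermediateField.coe_map]
    rfl
  rw [← h1, ← IntermediateField.restrictScalars_adjoin k F ({t} : Set M')]
  have h2 : Algebra.trdeg k F + Algebra.trdeg F (adjoin F ({t} : Set M')) =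
      Algebra.trdeg k (adjoin F ({t} : Set M')) := R7a_add k F (adjoin F ({t} : Set M'))
  have h3 : Algebra.trdeg k ↥((adjoin F ({t} : Set M')).restrictScalars k) =
      Algebra.trdeg k (adjoin F ({t} : Set M')) := rfl
  rw [h3, ← h2]
  have h4 := R7a_simple (F := F) t
  obtain ⟨m, hm⟩ := Cardinal.lt_aleph0.1 (h0.trans (Cardinal.natCast_lt_aleph0))
  rw [hm] at h0 ⊢
  have h5 : m < e := by exact_mod_cast h0
  calc (m : Cardinal) + Algebra.trdeg F (adjoin F ({t} : Set M')) ≤ (m : Cardinal) + 1 := by
        gcongr
    _ = ((m + 1 : ℕ) : Cardinal) := by push_cast; rfl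
    _ < ((e + 1 : ℕ) : Cardinal) := by exact_mod_cast (by omega : m + 1 < e + 1)

/-- `M` is algebraic over `k(z)`, `z` a family of `n` elements -/
theorem trdeg_top (h : ∃ z : Fin n → M, Pr k z) :
    Algebra.trdeg k (⊤ : IntermediateField k M) < (n + 1 : ℕ) := by
  obtain ⟨z, hz, hodd⟩ := h
  have hfin : Module.finrank (adjoin k (Set.range z)) M ≠ 0 := by
    intro h0
    rw [h0] at hodd
    exact absurd hodd (by decide)
  have hfd : FiniteDimensional (adjoin k (Set.range z)) M :=
    Module.finite_of_finrank_pos (Nat.pos_of_ne_zero hfin)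
  have halgF : Algebra.IsAlgebraic (adjoin k (Set.range z)) M := Algebra.IsAlgebraic.of_finite _ _
  have hub : IsTranscendenceBasis k z :=
    hz.isTranscendenceBasis_iff_isAlgebraic.mpr (isAlgebraic_adjoin_iff_top.mp halgF)
  have htr := hub.lift_cardinalMk_eq_trdeg
  have htr' : Algebra.trdeg k M = (n : ℕ) := by
    rw [Cardinal.mk_fin, Cardinal.lift_natCast] at htr
    have h1 := htr.symm
    rw [Cardinal.lift_eq_nat_iff] at h1
    exact h1
  rw [(IntermediateField.topEquiv (F := k) (E := M)).trdeg_eq, htr']
  exact_mod_cast Nat.lt_succ_self n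

end MP2619.Q5
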