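import Pool.Agent.Lib.MP_2619d0_ag.Q5.R4
import Pool.Agent.Lib.MP_2619d0_ag.Q5.R6
import Pool.Agent.Lib.MP_2619d0_ag.Q5.R7a

/-!
Row 2619q5-R7: the splitting step, in terms of data.
-/

set_option autoImplicit false

namespace MP2619.Q5

universe u

open IntermediateField MP2619.R MP2619.W MP2619.NP

variable {k M : Type u} [Field k] [Field M] [Algebra k M] {n : ℕ}

private theorem R7_cu_map {M' : Type u} [Field M'] [Algebra M M'] (B : Finset (Fin n))
    (x : Fin n → M) :
    cu B (fun i => algebraMap M M' (x i)) = algebraMap M M' (cu B x) := by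
  unfold cu
  rw [map_sum]
  exact Finset.sum_congr rfl fun i _ => (map_pow _ _ _).symm

/-- the quotient of residues is the residue of the quotient -/
private theorem R7_quot {M' N : Type u} [Field M'] [Field N] {O : ValuationSubring M'}
    (φ : O →+* N) (hφ : ∀ z : O, φ z = 0 ↔ O.valuation (z : M') < 1) (a b : O)
    (hb : φ b ≠ 0) :
    ∃ c : O, (c : M') = (a : M') / (b : M') ∧ φ c = φ a / φ b := by
  have hb1 : O.valuation (b : M') = 1 := by
    have h1 : O.valuation (b : M') ≤ 1 := (O.valuation_le_one b)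
    have h2 : ¬ O.valuation (b : M') < 1 := fun h => hb ((hφ b).2 h)
    exact le_antisymm h1 (not_lt.1 h2)
  have hb0 : (b : M') ≠ 0 := by
    intro h
    rw [h, map_zero] at hb1
    exact zero_ne_one hb1
  have hm : (a : M') / (b : M') ∈ O := by
    rw [← ValuationSubring.valuation_le_one_iff, map_div₀, hb1, div_one]
    exact O.valuation_le_one a
  refine ⟨⟨(a : M') / (b : M'), hm⟩, rfl, ?_⟩
  rw [eq_div_iff hb, ← map_mul]
  congr 1
  apply Subtype.ext
  exact div_mul_cancel₀ (a : M') hb0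

private theorem R7_tw_div {M' : Type u} [Field M'] [Algebra k M'] (E : IntermediateField k M')
    (A : Finset (Fin n)) (t : M') (ht : t ∈ E) (x : Fin n → M')
    (hx : ∀ i j, x i / x j ∈ E) (i j : Fin n) : tw A t x i / tw A t x j ∈ E := by
  have h := hx i j
  unfold tw
  split_ifs with h1 h2 h2
  · rw [mul_div_mul_comm]
    exact E.mul_mem (E.div_mem ht ht) h
  · rw [mul_div_assoc]
    exact E.mul_mem ht h
  · rw [div_mul_eq_div_div_swap]
    exact E.div_mem h ht
  · exact h

/-- If `cu A x = 0` take `N = M`. Otherwise `JLc`, `cO_int` (for `Cst`, `DV`), `pl_data`.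
* `cu univ x' = 0`, `cu A x' = 0`: `cu_tw`, `O.valuation (t ^ 3 * cu A x) < 1`, `O.valuation (cu A x) < 1`.
* `rat k x'` is generated by residues of quotients `X i / X j`, `X j` a unit (if the residue of `X j` is zero the quotient
  is zero), elements of `E = adjoin k (rat k x ∪ {t})` (`trdeg_insert`): `X i / X j` is `x i / x j` times a power of `t`. There is
  `j` with `x' j ≠ 0` (`block_ne` for `univ`), and `p = cu univ X / X j ^ 3 ∈ E` is not zero and has value `< 1`: so the
  transcendence degree drops (last part of `pl_data`).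
* `rat k y'`: `E = (rat k y).map` (`trdeg_image`). -/
theorem J_step (h2 : (2 : k) = 0) {w : k} (hw : w ^ 2 + w + 1 = 0) (hn : 3 ≤ n)
    {A : Finset (Fin n)} (hA : (A.card : ZMod 3) = 0) (x y : Fin n → M)
    (hx : cu Finset.univ x = 0) (hy : cu Finset.univ y = 0) (hc : c2 w x y ≠ 0) :
    ∃ (N : Type u) (_ : Field N) (_ : Algebra k N) (x' y' : Fin n → N), c2 w x' y' ≠ 0 ∧
      cu Finset.univ x' = 0 ∧ cu A x' = 0 ∧
      (∀ B : Finset (Fin n), cu B y = 0 → cu B y' = 0) ∧
      (∀ e : ℕ, Algebra.trdeg k (rat k x) < e → Algebra.trdeg k (rat k x') < e) ∧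
      (∀ e : ℕ, Algebra.trdeg k (rat k y) < e → Algebra.trdeg k (rat k y') < e) := by
  by_cases hE : cu A x = 0
  · exact ⟨M, inferInstance, inferInstance, x, y, hc, hx, hE, fun B hB => hB, fun e he => he,
      fun e he => he⟩
  obtain ⟨M', _, _, _, _, t, O, ht, hcO, hXm, hYm, hG0, hGv, hE1, hE2⟩ :=
    JLc h2 hw hn hA x y hE hx hy hc
  have hYu : cu Finset.univ (fun i => algebraMap M M' (y i)) = 0 := by
    rw [R7_cu_map, hy, map_zero]
  obtain ⟨hCst, hDV, -⟩ := cO_int h2 hw hn hYu hcO
  obtain ⟨N, _, _, φ, x', y', hφ, hx', hy', hc2, hAX, hAY, htr1, htr2⟩ :=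
    pl_data hCst hDV hXm hYm hcO
  have hux : cu Finset.univ x' = 0 := hAX _ hGv
  have hyB : ∀ B : Finset (Fin n), cu B y = 0 → cu B y' = 0 := by
    intro B hB
    apply hAY
    rw [R7_cu_map, hB, map_zero, map_zero]
    exact zero_lt_one
  refine ⟨N, inferInstance, inferInstance, x', y', hc2, hux, ?_, hyB, ?_, ?_⟩
  · apply hAX
    rw [cu_tw, Finset.inter_self, Finset.sdiff_self]
    have h0 : cu (∅ : Finset (Fin n)) (fun i => algebraMap M M' (x i)) = 0 := by
      unfold cu
      exact Finset.sum_empty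
    rw [h0, add_zero, R7_cu_map]
    exact hE2
  · intro e he
    set E : IntermediateField k M' :=
      adjoin k ((algebraMap M M' '' (rat k x : Set M)) ∪ {t}) with hEdef
    have htE : t ∈ E := subset_adjoin k _ (Or.inr rfl)
    have hxE : ∀ i j, algebraMap M M' (x i) / algebraMap M M' (x j) ∈ E := by
      intro i j
      rw [← map_div₀]
      refine subset_adjoin k _ (Or.inl ⟨x i / x j, ?_, rfl⟩)
      exact subset_adjoin k _ ⟨i, j, rfl⟩
    have hXE : ∀ i j, tw A t (fun i => algebraMap M M' (x i)) i /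
        tw A t (fun i => algebraMap M M' (x i)) j ∈ E :=
      R7_tw_div E A t htE _ hxE
    refine htr2 E {z : N | ∃ i j, z = x' i / x' j} e ?_ ?_ ?_
    · rintro z ⟨i, j, rfl⟩
      by_cases hj : x' j = 0
      · exact ⟨0, E.zero_mem, by rw [map_zero, hj, div_zero]⟩
      · rw [hx' j] at hj
        obtain ⟨c, hc1, hc2'⟩ := R7_quot φ hφ ⟨_, hXm i⟩ ⟨_, hXm j⟩ hj
        refine ⟨c, ?_, ?_⟩
        · rw [hc1]
          exact hXE i j
        · rw [hc2', hx' i, hx' j]
    · exact trdeg_insert (rat k x) t e he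
    · have hne : (Finset.univ : Finset (Fin n)).Nonempty := ⟨⟨0, by omega⟩, Finset.mem_univ _⟩
      obtain ⟨⟨j, -, hj⟩, -⟩ := block_ne hw hc2 Finset.univ hne hux (hyB _ hy)
      rw [hx' j, Ne, hφ] at hj
      have hj1 : O.valuation (tw A t (fun i => algebraMap M M' (x i)) j) = 1 :=
        le_antisymm (O.valuation_le_one ⟨_, hXm j⟩) (not_lt.1 hj)
      have hj0 : tw A t (fun i => algebraMap M M' (x i)) j ≠ 0 := by
        intro h
        rw [h, map_zero] at hj1
        exact zero_ne_one hj1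
      refine ⟨cu Finset.univ (tw A t (fun i => algebraMap M M' (x i))) /
        (tw A t (fun i => algebraMap M M' (x i)) j) ^ 3, ?_, ?_, ?_⟩
      · unfold cu
        rw [Finset.sum_div]
        refine E.sum_mem fun i _ => ?_
        rw [← div_pow]
        exact pow_mem (hXE i j) 3
      · exact div_ne_zero hG0 (pow_ne_zero 3 hj0)
      · rw [map_div₀, map_pow, hj1, one_pow, div_one]
        exact hGv
  · intro e he
    refine htr1 ((rat k y).map (IsScalarTower.toAlgHom k M M')) {z : N | ∃ i j, z = y' i / y' j} e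
      ?_ (trdeg_image (rat k y) e he)
    rintro z ⟨i, j, rfl⟩
    by_cases hj : y' j = 0
    · exact ⟨0, IntermediateField.zero_mem _, by rw [map_zero, hj, div_zero]⟩
    · rw [hy' j] at hj
      obtain ⟨c, hc1, hc2'⟩ := R7_quot φ hφ ⟨_, hYm i⟩ ⟨_, hYm j⟩ hj
      refine ⟨c, ?_, ?_⟩
      · rw [hc1]
        refine ⟨y i / y j, subset_adjoin k _ ⟨i, j, rfl⟩, ?_⟩
        exact map_div₀ (algebraMap M M') (y i) (y j)
      · rw [hc2', hy' i, hy' j]

end MP2619.Q5
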