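import Pool.Agent.Lib.MP_2619d0_ag.Q5.R5
import Pool.Agent.Lib.MP_2619d0_ag.Q5.R6
import Pool.Agent.Lib.MP_2619d0_ag.Q5.R7a

/-!
Row 2619q5-R8a: the specialisation step, in terms of data.
-/

set_option autoImplicit false

namespace MP2619.Q5

universe u

open IntermediateField MP2619.R MP2619.W MP2619.NP

variable {k M : Type u} [Field k] [Field M] [Algebra k M] {n : ℕ}

/-- New data `(x', y')` from `(x, y)`: `O` a valuation ring of `M`, `φ` its residue map (into a bigger field), `y' = φ(y)`,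
`x' = φ(x)` outside `A`, and on `A` the quotients of the `x' i` are the residues of the quotients of the `x i`, and
some `x i`, `i ∈ A`, has a pole. -/
structure HD {k M : Type u} [Field k] [Field M] [Algebra k M] {n : ℕ} (w : k)
    (A : Finset (Fin n)) (x y : Fin n → M) {N : Type u} [Field N] [Algebra k N]
    (O : ValuationSubring M) (φ : O →+* N) (x' y' : Fin n → N) : Prop where
  ne : c2 w x' y' ≠ 0
  ker : ∀ z : O, φ z = 0 ↔ O.valuation (z : M) < 1
  cx : ∀ B : Finset (Fin n), B ⊆ A ∨ Disjoint B A → cu B x = 0 → cu B x' = 0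
  cy : ∀ B : Finset (Fin n), cu B y = 0 → cu B y' = 0
  y_eq : ∀ i, ∃ h : y i ∈ O, φ ⟨y i, h⟩ = y' i
  x_eq : ∀ i, i ∉ A → ∃ h : x i ∈ O, φ ⟨x i, h⟩ = x' i
  quot : ∀ i ∈ A, ∀ j ∈ A, x' j ≠ 0 → ∃ h : x i / x j ∈ O, φ ⟨x i / x j, h⟩ = x' i / x' j
  pole : ∃ i ∈ A, x i ≠ 0 ∧ O.valuation (x i)⁻¹ < 1
  tr1 : ∀ (E : IntermediateField k M) (S : Set N) (e : ℕ),
    (∀ z ∈ S, ∃ a : O, (a : M) ∈ E ∧ φ a = z) →
    Algebra.trdeg k E < e → Algebra.trdeg k (adjoin k S) < e
  tr2 : ∀ (E : IntermediateField k M) (S : Set N) (e : ℕ),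
    (∀ z ∈ S, ∃ a : O, (a : M) ∈ E ∧ φ a = z) → Algebra.trdeg k E < (e + 1 : ℕ) →
    (∃ p ∈ E, p ≠ 0 ∧ O.valuation p < 1) → Algebra.trdeg k (adjoin k S) < e

/-- the valuation of the restricted valuation ring -/
private theorem R8a_val {M M' : Type u} [Field M] [Field M'] (f : M →+* M')
    (O' : ValuationSubring M') (z : M) :
    (O'.comap f).valuation z < 1 ↔ O'.valuation (f z) < 1 := by
  by_cases hz : z = 0
  · subst hz
    rw [map_zero, map_zero, map_zero]
    exact iff_of_true zero_lt_one zero_lt_one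
  · have hfz : f z ≠ 0 := (map_ne_zero f).2 hz
    have h1 : ∀ {L : Type u} [Field L] (P : ValuationSubring L) (a : L), a ≠ 0 →
        (P.valuation a < 1 ↔ a⁻¹ ∉ P) := by
      intro L _ P a ha
      rw [← ValuationSubring.valuation_le_one_iff, map_inv₀, not_le,
        one_lt_inv₀ (zero_lt_iff.2 ((Valuation.ne_zero_iff _).2 ha))]
    rw [h1 _ _ hz, h1 _ _ hfz, ValuationSubring.mem_comap, map_inv₀]

private theorem R8a_cu {M M' : Type u} [Field M] [Field M'] [Algebra M M'] {n : ℕ}
    (B : Finset (Fin n)) (x : Fin n → M) :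
    cu B (fun i => algebraMap M M' (x i)) = algebraMap M M' (cu B x) := by
  unfold cu
  rw [map_sum]
  exact Finset.sum_congr rfl fun i _ => (map_pow _ _ _).symm

/-- `Hc`, `cO_int`, `pl_data` give `M'`, `t`, `O'`, `φ'`; `O = O'.comap (algebraMap M M')`, `φ = φ'` restricted to `O`.
`x' i = φ'(t x_i)` for `i ∈ A`: `x' i / x' j = φ(x i / x j)` if `t x_j` is a unit; `block_ne`: some `x' i`, `i ∈ A`, is not zero, so
`t x_i` is a unit and `x_i⁻¹` has the value of `t`. `tr1`, `tr2`: the corresponding parts of `pl_data` for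
`E.map (IsScalarTower.toAlgHom k M M')` (`trdeg_image`). `O.valuation p < 1 ↔ O'.valuation (algebraMap p) < 1`. -/
theorem H_step (h2 : (2 : k) = 0) {w : k} (hw : w ^ 2 + w + 1 = 0) (hn : 3 ≤ n)
    {A : Finset (Fin n)} (hA : A.Nonempty) (x y : Fin n → M) (hxA : cu A x = 0)
    (hyA : cu A y = 0) (hx : cu Finset.univ x = 0) (hy : cu Finset.univ y = 0)
    (hc : c2 w x y ≠ 0) :
    ∃ (N : Type u) (_ : Field N) (_ : Algebra k N) (O : ValuationSubring M) (φ : O →+* N)
      (x' y' : Fin n → N), HD w A x y O φ x' y' := by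
  obtain ⟨M', _, _, _, _, t, O', ht, htv, hcO, hX, hY⟩ := Hc h2 hw hn A x y hxA hx hy hc
  have hYu : cu Finset.univ (fun i => algebraMap M M' (y i)) = 0 := by
    rw [R8a_cu, hy, map_zero]
  obtain ⟨hCst, hDV, -⟩ := cO_int h2 hw hn hYu hcO
  obtain ⟨N, _, _, φ', x', y', hker, hx', hy', hne, hcX, hcY, htr1, htr2⟩ :=
    pl_data hCst hDV hX hY hcO
  -- the coordinates of `tw A t x`
  have hXin : ∀ i ∈ A, tw A t (fun i => algebraMap M M' (x i)) i = t * algebraMap M M' (x i) := by
    intro i hi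
    simp only [tw, if_pos hi]
  have hXout : ∀ i, i ∉ A → tw A t (fun i => algebraMap M M' (x i)) i = algebraMap M M' (x i) := by
    intro i hi
    simp only [tw, if_neg hi]
  -- restriction
  have hφmem : ∀ z : (O'.comap (algebraMap M M') : ValuationSubring M),
      algebraMap M M' (z : M) ∈ O' := fun z => z.2
  let ψ : (O'.comap (algebraMap M M') : ValuationSubring M) →+* O' :=
    { toFun := fun z => ⟨algebraMap M M' (z : M), hφmem z⟩
      map_one' := Subtype.ext (map_one _)
      map_mul' := fun a b => Subtype.ext (map_mul _ _ _)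
      map_zero' := Subtype.ext (map_zero _)
      map_add' := fun a b => Subtype.ext (map_add _ _ _) }
  have hψ : ∀ z, ((ψ z : O') : M') = algebraMap M M' (z : M) := fun z => rfl
  -- blocks
  have hcx : ∀ B : Finset (Fin n), B ⊆ A ∨ Disjoint B A → cu B x = 0 → cu B x' = 0 := by
    intro B hB h0
    apply hcX
    rw [cu_tw]
    rcases hB with hB | hB
    · rw [Finset.inter_eq_left.2 hB, Finset.sdiff_eq_empty_iff_subset.2 hB, R8a_cu, h0, map_zero,
        mul_zero, zero_add]
      simp only [cu, Finset.sum_empty, map_zero]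
      exact zero_lt_one
    · rw [Finset.disjoint_iff_inter_eq_empty.1 hB, Finset.sdiff_eq_self_of_disjoint hB,
        R8a_cu B, h0]
      simp only [cu, Finset.sum_empty, map_zero, mul_zero, add_zero]
      exact zero_lt_one
  have hcy : ∀ B : Finset (Fin n), cu B y = 0 → cu B y' = 0 := by
    intro B h0
    apply hcY
    rw [R8a_cu, h0, map_zero, map_zero]
    exact zero_lt_one
  refine ⟨N, inferInstance, inferInstance, O'.comap (algebraMap M M'), φ'.comp ψ, x', y', hne, ?_,
    hcx, hcy, ?_, ?_, ?_, ?_, ?_, ?_⟩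
  · intro z
    rw [R8a_val, RingHom.comp_apply, hker, hψ]
  · intro i
    exact ⟨hY i, (hy' i).symm⟩
  · intro i hi
    have hm : algebraMap M M' (x i) ∈ O' := by
      rw [← hXout i hi]
      exact hX i
    refine ⟨hm, ?_⟩
    rw [hx' i, RingHom.comp_apply]
    exact congrArg φ' (Subtype.ext (hXout i hi).symm)
  · intro i hi j hj hxj
    have hj0 : φ' ⟨tw A t (fun i => algebraMap M M' (x i)) j, hX j⟩ ≠ 0 := by
      rw [← hx' j]
      exact hxj
    have hjv : ¬ O'.valuation (tw A t (fun i => algebraMap M M' (x i)) j) < 1 := by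
      intro h
      exact hj0 ((hker _).2 h)
    have hjn : tw A t (fun i => algebraMap M M' (x i)) j ≠ 0 := by
      intro h
      rw [h, map_zero] at hjv
      exact hjv zero_lt_one
    have hjinv : (tw A t (fun i => algebraMap M M' (x i)) j)⁻¹ ∈ O' := by
      rw [← ValuationSubring.valuation_le_one_iff, map_inv₀]
      exact inv_le_one_of_one_le₀ (not_lt.1 hjv)
    have hq : algebraMap M M' (x i / x j) = tw A t (fun i => algebraMap M M' (x i)) i *
        (tw A t (fun i => algebraMap M M' (x i)) j)⁻¹ := by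
      rw [hXin i hi, hXin j hj, map_div₀, mul_inv, div_eq_mul_inv]
      field_simp
    have hm : algebraMap M M' (x i / x j) ∈ O' := by
      rw [hq]
      exact O'.mul_mem _ _ (hX i) hjinv
    refine ⟨hm, ?_⟩
    rw [eq_div_iff hxj, hx' i, hx' j, RingHom.comp_apply, ← map_mul]
    refine congrArg φ' (Subtype.ext ?_)
    change algebraMap M M' (x i / x j) * tw A t (fun i => algebraMap M M' (x i)) j =
      tw A t (fun i => algebraMap M M' (x i)) i
    rw [hq, mul_assoc, inv_mul_cancel₀ hjn, mul_one]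
  · obtain ⟨⟨i, hi, hi0⟩, -⟩ := block_ne hw hne A hA (hcx A (Or.inl (Finset.Subset.refl A)) hxA)
      (hcy A hyA)
    have hj0 : φ' ⟨tw A t (fun i => algebraMap M M' (x i)) i, hX i⟩ ≠ 0 := by
      rw [← hx' i]
      exact hi0
    have hjv : ¬ O'.valuation (tw A t (fun i => algebraMap M M' (x i)) i) < 1 := by
      intro h
      exact hj0 ((hker _).2 h)
    have hjn : tw A t (fun i => algebraMap M M' (x i)) i ≠ 0 := by
      intro h
      rw [h, map_zero] at hjv
      exact hjv zero_lt_one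
    rw [hXin i hi] at hjv hjn
    have hxn : algebraMap M M' (x i) ≠ 0 := right_ne_zero_of_mul hjn
    refine ⟨i, hi, ?_, ?_⟩
    · intro h
      rw [h, map_zero] at hxn
      exact hxn rfl
    · rw [R8a_val, map_inv₀, map_inv₀]
      rw [map_mul] at hjv
      have hv0 : 0 < O'.valuation (algebraMap M M' (x i)) :=
        zero_lt_iff.2 ((Valuation.ne_zero_iff _).2 hxn)
      apply inv_lt_one_of_one_lt₀
      by_contra hcon
      apply hjv
      calc O'.valuation t * O'.valuation (algebraMap M M' (x i)) ≤ O'.valuation t * 1 :=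
            mul_le_mul_right (not_lt.1 hcon) _
        _ = O'.valuation t := mul_one _
        _ < 1 := htv
  · intro E S e hS hE
    refine htr1 (E.map (IsScalarTower.toAlgHom k M M')) S e ?_ (trdeg_image E e hE)
    intro z hz
    obtain ⟨a, ha, haz⟩ := hS z hz
    exact ⟨ψ a, ⟨(a : M), ha, rfl⟩, haz⟩
  · intro E S e hS hE hp
    obtain ⟨p, hpE, hp0, hpv⟩ := hp
    refine htr2 (E.map (IsScalarTower.toAlgHom k M M')) S e ?_ (trdeg_image E (e + 1) hE) ?_
    · intro z hz
      obtain ⟨a, ha, haz⟩ := hS z hz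
      exact ⟨ψ a, ⟨(a : M), ha, rfl⟩, haz⟩
    · refine ⟨algebraMap M M' p, ⟨p, hpE, rfl⟩, (map_ne_zero _).2 hp0, ?_⟩
      exact (R8a_val _ _ _).1 hpv

end MP2619.Q5
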