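import Pool.Agent.Lib.MP_2619d0_ag.Q5.R8a

/-!
Row 2619q5-R8b: the first two specialisations.
-/

set_option autoImplicit false

namespace MP2619.Q5

universe u

open IntermediateField MP2619.R MP2619.W MP2619.NP

/-- the block `c` -/
def Bk (c : ℕ) : Finset (Fin 6) := Finset.univ.filter fun i => qb i = c

/-- the coordinates of `x` with label `c` -/
def crd {M : Type u} (x : Fin 6 → M) (c : ℕ) : Set M := {z | ∃ i, qb i = c ∧ z = x i}

/-- data split into the blocks -/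
structure SD {k M : Type u} [Field k] [Field M] [Algebra k M] (w : k) (x y : Fin 6 → M) : Prop where
  ne : c2 w x y ≠ 0
  cx : ∀ c, cu (Bk c) x = 0
  cy : ∀ c, cu (Bk c) y = 0

variable {k M : Type u} [Field k] [Field M] [Algebra k M]

private theorem R8b_mem {i : Fin 6} {c : ℕ} : i ∈ Bk c ↔ qb i = c := by
  simp [Bk]

private theorem R8b_univ {M : Type u} [Field M] (x : Fin 6 → M) (h : ∀ c, cu (Bk c) x = 0) :
    cu Finset.univ x = 0 := by
  have h1 : (Finset.univ : Finset (Fin 6)) = Bk 0 ∪ Bk 1 := by decide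
  have h2 : Disjoint (Bk 0) (Bk 1) := by decide
  have h3 : cu Finset.univ x = cu (Bk 0) x + cu (Bk 1) x := by
    unfold cu
    rw [h1, Finset.sum_union h2]
  rw [h3, h 0, h 1, add_zero]

private theorem R8b_sub (a c : ℕ) : Bk c ⊆ Bk a ∨ Disjoint (Bk c) (Bk a) := by
  by_cases h : c = a
  · left
    rw [h]
  · right
    rw [Finset.disjoint_left]
    intro i h1 h2
    rw [R8b_mem] at h1 h2
    exact h (h1.symm.trans h2)

private theorem R8b_out {k M : Type u} [Field k] [Field M] [Algebra k M] {n : ℕ} {w : k}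
    {A : Finset (Fin n)} {x y : Fin n → M} {N : Type u} [Field N] [Algebra k N]
    {O : ValuationSubring M} {φ : O →+* N} {x' y' : Fin n → N} (H : HD w A x y O φ x' y')
    {i j : Fin n} (hi : i ∉ A) (hj : j ∉ A) (hj0 : x' j ≠ 0) :
    ∃ h : x i / x j ∈ O, φ ⟨x i / x j, h⟩ = x' i / x' j := by
  obtain ⟨mi, ei⟩ := H.x_eq i hi
  obtain ⟨mj, ej⟩ := H.x_eq j hj
  have h1 : ¬ O.valuation (x j) < 1 := by
    intro h2
    apply hj0
    rw [← ej]
    exact (H.ker ⟨x j, mj⟩).2 h2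
  have h3 : O.valuation (x j) = 1 :=
    le_antisymm ((O.valuation_le_one_iff _).2 mj) (not_lt.1 h1)
  have h4 : x j ≠ 0 := by
    intro h5
    rw [h5, map_zero] at h3
    exact zero_ne_one h3
  have h6 : x i / x j ∈ O := by
    rw [← O.valuation_le_one_iff, map_div₀, h3, div_one]
    exact (O.valuation_le_one_iff _).2 mi
  refine ⟨h6, ?_⟩
  rw [eq_div_iff hj0, ← ei, ← ej, ← map_mul]
  congr 1
  apply Subtype.ext
  change x i / x j * x j = x i
  exact div_mul_cancel₀ _ h4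

private theorem R8b_gen {k M : Type u} [Field k] [Field M] [Algebra k M] {w : k}
    {x y : Fin 6 → M} {N : Type u} [Field N] [Algebra k N] (c : ℕ)
    {O : ValuationSubring M} {φ : O →+* N} {x' y' : Fin 6 → N} (H : HD w (Bk c) x y O φ x' y')
    (E : IntermediateField k M) (hE : ∀ i j, qb i = qb j → x i / x j ∈ E) {i j : Fin 6}
    (hij : qb i = qb j) : ∃ a : O, (a : M) ∈ E ∧ φ a = x' i / x' j := by
  by_cases hj0 : x' j = 0
  · refine ⟨0, ?_, ?_⟩
    · exact E.zero_mem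
    · rw [hj0, div_zero, map_zero]
  · by_cases hc : qb i = c
    · obtain ⟨h1, h2⟩ := H.quot i (R8b_mem.2 hc) j (R8b_mem.2 (hij ▸ hc)) hj0
      exact ⟨_, hE i j hij, h2⟩
    · obtain ⟨h1, h2⟩ := R8b_out H (i := i) (j := j) (fun h => hc (R8b_mem.1 h))
        (fun h => hc (hij.trans (R8b_mem.1 h))) hj0
      exact ⟨_, hE i j hij, h2⟩

private theorem R8b_adj {k N : Type u} [Field k] [Field N] [Algebra k N] (G C : Set N) :
    adjoin k (((adjoin k G : IntermediateField k N) : Set N) ∪ C) = adjoin k (G ∪ C) := by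
  apply le_antisymm
  · rw [adjoin_le_iff]
    rintro z (hz | hz)
    · exact adjoin.mono k _ _ Set.subset_union_left hz
    · exact subset_adjoin k _ (Or.inr hz)
  · apply adjoin.mono
    exact Set.union_subset_union_left _ (subset_adjoin k G)

/-- `H_step` with `A = Bk 0` (`cu univ = cu (Bk 0) + cu (Bk 1)`). The generators: quotients `x' i / x' j` inside a block are
residues of `x i / x j` (or zero), the `x' i` with label `1` and the `y' i` are residues of `x i`, `y i`: elements of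
`⊤`; `trdeg_top`, `exists_pr`, `tr2` with `p = x_i⁻¹` for the pole.
`ratq k qb x'`: elements of `rat k x`, `p = x j / x i`, `x i` the pole, `x' j ≠ 0` with label `1` (`block_ne`; it is not the residue of
zero, so `x j` is a unit); `tr2` with `e = 2`. -/
theorem step1 (h2 : (2 : k) = 0) {w : k} (hw : w ^ 2 + w + 1 = 0) (x y : Fin 6 → M)
    (h : SD w x y) (hr : Algebra.trdeg k (rat k x) < (3 : ℕ)) :
    ∃ (N : Type u) (_ : Field N) (_ : Algebra k N) (x' y' : Fin 6 → N), SD w x' y' ∧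
      Algebra.trdeg k (ratq k qb x') < (2 : ℕ) ∧
      Algebra.trdeg k (adjoin k (((ratq k qb x' : Set N) ∪ crd x' 1) ∪ Set.range y')) < (6 : ℕ) := by
  have hu : (Bk 0).Nonempty := ⟨0, R8b_mem.2 rfl⟩
  obtain ⟨N, _, _, O, φ, x', y', H⟩ := H_step h2 hw (by norm_num) hu x y (h.cx 0) (h.cy 0)
    (R8b_univ x h.cx) (R8b_univ y h.cy) h.ne
  have hcx : ∀ c, cu (Bk c) x' = 0 := fun c => H.cx (Bk c) (R8b_sub 0 c) (h.cx c)
  have hcy : ∀ c, cu (Bk c) y' = 0 := fun c => H.cy (Bk c) (h.cy c)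
  refine ⟨N, inferInstance, inferInstance, x', y', ⟨H.ne, hcx, hcy⟩, ?_, ?_⟩
  · have hE : ∀ i j, qb i = qb j → x i / x j ∈ rat k x := fun i j _ =>
      subset_adjoin k _ ⟨i, j, rfl⟩
    refine H.tr2 (rat k x) _ 2 ?_ hr ?_
    · rintro z ⟨i, j, hij, rfl⟩
      exact R8b_gen 0 H (rat k x) hE hij
    · obtain ⟨i, hi, hi0, hi1⟩ := H.pole
      obtain ⟨j, hj, hj0⟩ := (block_ne hw H.ne (Bk 1) ⟨3, R8b_mem.2 rfl⟩ (hcx 1) (hcy 1)).1
      have hjA : j ∉ Bk 0 := by
        intro hc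
        rw [R8b_mem] at hc hj
        omega
      obtain ⟨mj, ej⟩ := H.x_eq j hjA
      have h1 : ¬ O.valuation (x j) < 1 := by
        intro h2
        apply hj0
        rw [← ej]
        exact (H.ker ⟨x j, mj⟩).2 h2
      have h3 : O.valuation (x j) = 1 :=
        le_antisymm ((O.valuation_le_one_iff _).2 mj) (not_lt.1 h1)
      have h4 : x j ≠ 0 := by
        intro h5
        rw [h5, map_zero] at h3
        exact zero_ne_one h3
      refine ⟨x j / x i, subset_adjoin k _ ⟨j, i, rfl⟩, div_ne_zero h4 hi0, ?_⟩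
      rw [div_eq_mul_inv, map_mul, h3, one_mul]
      exact hi1
  · have e1 : adjoin k (((ratq k qb x' : Set N) ∪ crd x' 1) ∪ Set.range y') =
        adjoin k ({z : N | ∃ i j, qb i = qb j ∧ z = x' i / x' j} ∪ (crd x' 1 ∪ Set.range y')) := by
      rw [Set.union_assoc]
      exact R8b_adj _ _
    rw [e1]
    refine H.tr2 ⊤ _ 6 ?_ ?_ ?_
    · rintro z (⟨i, j, hij, rfl⟩ | ⟨i, hi, rfl⟩ | ⟨i, rfl⟩)
      · exact R8b_gen 0 H ⊤ (fun _ _ _ => mem_top) hij
      · have hiA : i ∉ Bk 0 := by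
          intro hc
          rw [R8b_mem] at hc
          omega
        obtain ⟨mi, ei⟩ := H.x_eq i hiA
        exact ⟨_, mem_top, ei⟩
      · obtain ⟨mi, ei⟩ := H.y_eq i
        exact ⟨_, mem_top, ei⟩
    · obtain ⟨g, hg⟩ := exists_pr h.ne
      exact trdeg_top ⟨_, hg⟩
    · obtain ⟨i, hi, hi0, hi1⟩ := H.pole
      exact ⟨(x i)⁻¹, mem_top, inv_ne_zero hi0, hi1⟩

/-- `H_step` with `A = Bk 1`, `p = x_i⁻¹` for the pole `x_i`, `i ∈ Bk 1`, an element of the field in `he`. `ratq k qb x'`: `tr1`. -/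
theorem step2 (h2 : (2 : k) = 0) {w : k} (hw : w ^ 2 + w + 1 = 0) (x y : Fin 6 → M)
    (h : SD w x y) (hr : Algebra.trdeg k (ratq k qb x) < (2 : ℕ))
    (he : Algebra.trdeg k (adjoin k (((ratq k qb x : Set M) ∪ crd x 1) ∪ Set.range y)) < (6 : ℕ)) :
    ∃ (N : Type u) (_ : Field N) (_ : Algebra k N) (x' y' : Fin 6 → N), SD w x' y' ∧
      Algebra.trdeg k (ratq k qb x') < (2 : ℕ) ∧
      Algebra.trdeg k (adjoin k ((ratq k qb x' : Set N) ∪ Set.range y')) < (5 : ℕ) := by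
  have hu : (Bk 1).Nonempty := ⟨3, R8b_mem.2 rfl⟩
  obtain ⟨N, _, _, O, φ, x', y', H⟩ := H_step h2 hw (by norm_num) hu x y (h.cx 1) (h.cy 1)
    (R8b_univ x h.cx) (R8b_univ y h.cy) h.ne
  have hcx : ∀ c, cu (Bk c) x' = 0 := fun c => H.cx (Bk c) (R8b_sub 1 c) (h.cx c)
  have hcy : ∀ c, cu (Bk c) y' = 0 := fun c => H.cy (Bk c) (h.cy c)
  have hE : ∀ i j, qb i = qb j → x i / x j ∈ ratq k qb x := fun i j hij =>
    subset_adjoin k _ ⟨i, j, hij, rfl⟩
  refine ⟨N, inferInstance, inferInstance, x', y', ⟨H.ne, hcx, hcy⟩, ?_, ?_⟩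
  · refine H.tr1 (ratq k qb x) _ 2 ?_ hr
    rintro z ⟨i, j, hij, rfl⟩
    exact R8b_gen 1 H (ratq k qb x) hE hij
  · have e1 : adjoin k ((ratq k qb x' : Set N) ∪ Set.range y') =
        adjoin k ({z : N | ∃ i j, qb i = qb j ∧ z = x' i / x' j} ∪ Set.range y') :=
      R8b_adj _ _
    rw [e1]
    refine H.tr2 _ _ 5 ?_ he ?_
    · rintro z (⟨i, j, hij, rfl⟩ | ⟨i, rfl⟩)
      · refine R8b_gen 1 H _ (fun i j hij => ?_) hij
        exact subset_adjoin k _ (Or.inl (Or.inl (hE i j hij)))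
      · obtain ⟨mi, ei⟩ := H.y_eq i
        exact ⟨_, subset_adjoin k _ (Or.inr ⟨i, rfl⟩), ei⟩
    · obtain ⟨i, hi, hi0, hi1⟩ := H.pole
      refine ⟨(x i)⁻¹, ?_, inv_ne_zero hi0, hi1⟩
      exact (IntermediateField.inv_mem _ (subset_adjoin k _ (Or.inl (Or.inr ⟨i, R8b_mem.1 hi, rfl⟩))))

end MP2619.Q5
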