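import Pool.Agent.Lib.MP_2619d0_ag.Q5.R8b

/-!
Row 2619q5-R8c: the last two specialisations.
-/

set_option autoImplicit false

namespace MP2619.Q5

universe u

open IntermediateField MP2619.R MP2619.W MP2619.NP

variable {k M : Type u} [Field k] [Field M] [Algebra k M]

private theorem R8c_quot {N : Type u} [Field N] {O : ValuationSubring M} {φ : O →+* N}
    (ker : ∀ z : O, φ z = 0 ↔ O.valuation (z : M) < 1) (a b : O) (hb : φ b ≠ 0) :
    ∃ h : (a : M) / (b : M) ∈ O, φ ⟨(a : M) / (b : M), h⟩ = φ a / φ b := by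
  have h1 : ¬ O.valuation (b : M) < 1 := fun h => hb ((ker b).mpr h)
  have h2 : O.valuation (b : M) ≤ 1 := O.valuation_le_one b
  have h3 : O.valuation (b : M) = 1 := le_antisymm h2 (not_lt.mp h1)
  have hb0 : (b : M) ≠ 0 := by
    intro h
    rw [h, map_zero] at h3
    exact zero_ne_one h3
  have h4 : (b : M)⁻¹ ∈ O := by
    rw [← O.valuation_le_one_iff, map_inv₀, h3, inv_one]
  have h5 : (a : M) / (b : M) ∈ O := by
    rw [div_eq_mul_inv]
    exact O.mul_mem _ _ a.2 h4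
  refine ⟨h5, ?_⟩
  rw [eq_div_iff hb, ← map_mul]
  congr 1
  apply Subtype.ext
  change (a : M) / (b : M) * (b : M) = (a : M)
  exact div_mul_cancel₀ _ hb0

private theorem R8c_univ (x : Fin 6 → M) : cu Finset.univ x = cu (Bk 0) x + cu (Bk 1) x := by
  unfold cu Bk
  rw [Finset.sum_filter, Finset.sum_filter, ← Finset.sum_add_distrib]
  refine Finset.sum_congr rfl fun i _ => ?_
  fin_cases i <;> simp [qb]

private theorem R8c_mem (x : Fin 6 → M) {i j : Fin 6} (hij : qb i = qb j) :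
    x i / x j ∈ ratq k qb x := by
  unfold ratq
  exact subset_adjoin k _ ⟨i, j, hij, rfl⟩

private theorem R8c_main (h2 : (2 : k) = 0) {w : k} (hw : w ^ 2 + w + 1 = 0) (x y : Fin 6 → M)
    (h : SD w x y) (hr : Algebra.trdeg k (ratq k qb x) < (2 : ℕ)) (c0 : ℕ)
    (hc0 : (Bk c0).Nonempty) (D : ℕ → Prop) (hD : ∀ d, D d → d ≠ c0) (E : IntermediateField k M)
    (hxE : ∀ i j, qb i = qb j → x i / x j ∈ E) (hyE : ∀ i j, qb i = qb j → y i / y j ∈ E)
    (hyc : ∀ i, qb i = c0 → y i ∈ E) (hyD : ∀ i, D (qb i) → y i ∈ E) (e : ℕ)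
    (he : Algebra.trdeg k E < (e + 1 : ℕ)) :
    ∃ (N : Type u) (_ : Field N) (_ : Algebra k N) (x' y' : Fin 6 → N), SD w x' y' ∧
      Algebra.trdeg k (ratq k qb x') < (2 : ℕ) ∧
      Algebra.trdeg k (adjoin k (({z : N | ∃ i j, qb i = qb j ∧ z = x' i / x' j} ∪
        {z : N | ∃ i j, qb i = qb j ∧ z = y' i / y' j}) ∪ {z : N | ∃ i, D (qb i) ∧ z = y' i})) <
        (e : ℕ) := by
  obtain ⟨N, iN, iA, O, φ, y', x', H⟩ := H_step h2 hw (by norm_num) hc0 y x (h.cy c0) (h.cx c0)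
    (by rw [R8c_univ, h.cy, h.cy, add_zero]) (by rw [R8c_univ, h.cx, h.cx, add_zero])
    (c2_symm h2 hw x y h.ne)
  -- the quotients of the `x i`
  have hqx : ∀ i j, ∃ a : O, (a : M) = x i / x j ∧ φ a = x' i / x' j ∨
      (a : M) = 0 ∧ φ a = x' i / x' j := by
    intro i j
    by_cases hj : x' j = 0
    · exact ⟨0, Or.inr ⟨rfl, by rw [map_zero, hj, div_zero]⟩⟩
    · obtain ⟨h1, e1⟩ := H.y_eq i
      obtain ⟨h3, e3⟩ := H.y_eq j
      obtain ⟨h4, e4⟩ := R8c_quot H.ker ⟨x i, h1⟩ ⟨x j, h3⟩ (by rw [e3]; exact hj)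
      exact ⟨⟨x i / x j, h4⟩, Or.inl ⟨rfl, by rw [e4, e1, e3]⟩⟩
  have hmem : ∀ c, ∀ i, i ∈ Bk c ↔ qb i = c := by
    intro c i
    unfold Bk
    simp
  refine ⟨N, iN, iA, x', y', ⟨c2_symm h2 hw y' x' H.ne, fun c => H.cy _ (h.cx c), fun c => ?_⟩,
    ?_, ?_⟩
  · apply H.cx _ _ (h.cy c)
    by_cases hc : c = c0
    · left
      rw [hc]
    · right
      rw [Finset.disjoint_left]
      intro i hi hi'
      rw [hmem] at hi hi'
      exact hc (hi.symm.trans hi')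
  · apply H.tr1 (ratq k qb x) _ 2 _ hr
    rintro z ⟨i, j, hij, rfl⟩
    obtain ⟨a, ⟨ha, hz⟩ | ⟨ha, hz⟩⟩ := hqx i j
    · refine ⟨a, ?_, hz⟩
      rw [ha]
      exact R8c_mem x hij
    · refine ⟨a, ?_, hz⟩
      rw [ha]
      exact zero_mem _
  · apply H.tr2 E _ e _ he
    · obtain ⟨i, hi, hi0, hiv⟩ := H.pole
      refine ⟨(y i)⁻¹, inv_mem (hyc i ((hmem c0 i).mp hi)), inv_ne_zero hi0, hiv⟩
    · rintro z ((⟨i, j, hij, rfl⟩ | ⟨i, j, hij, rfl⟩) | ⟨i, hi, rfl⟩)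
      · obtain ⟨a, ⟨ha, hz⟩ | ⟨ha, hz⟩⟩ := hqx i j
        · exact ⟨a, ha ▸ hxE i j hij, hz⟩
        · exact ⟨a, ha ▸ zero_mem _, hz⟩
      · by_cases hj : y' j = 0
        · exact ⟨0, zero_mem _, by rw [map_zero, hj, div_zero]⟩
        · by_cases hc : qb j = c0
          · obtain ⟨h4, e4⟩ := H.quot i ((hmem c0 i).mpr (hij.trans hc)) j
              ((hmem c0 j).mpr hc) hj
            exact ⟨⟨y i / y j, h4⟩, hyE i j hij, e4⟩
          · obtain ⟨h1, e1⟩ := H.x_eq i (fun hi => hc (hij.symm.trans ((hmem c0 i).mp hi)))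
            obtain ⟨h3, e3⟩ := H.x_eq j (fun hj' => hc ((hmem c0 j).mp hj'))
            obtain ⟨h4, e4⟩ := R8c_quot H.ker ⟨y i, h1⟩ ⟨y j, h3⟩ (by rw [e3]; exact hj)
            exact ⟨⟨y i / y j, h4⟩, hyE i j hij, by rw [e4, e1, e3]⟩
      · obtain ⟨h1, e1⟩ := H.x_eq i (fun hi' => hD _ hi ((hmem c0 i).mp hi'))
        exact ⟨⟨y i, h1⟩, hyD i hi, e1⟩

/-- `c2_symm`: exchange `x` and `y`, `H_step` with `A = Bk 0`, exchange again. `p = y_i⁻¹`. -/
theorem step3 (h2 : (2 : k) = 0) {w : k} (hw : w ^ 2 + w + 1 = 0) (x y : Fin 6 → M)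
    (h : SD w x y) (hr : Algebra.trdeg k (ratq k qb x) < (2 : ℕ))
    (he : Algebra.trdeg k (adjoin k ((ratq k qb x : Set M) ∪ Set.range y)) < (5 : ℕ)) :
    ∃ (N : Type u) (_ : Field N) (_ : Algebra k N) (x' y' : Fin 6 → N), SD w x' y' ∧
      Algebra.trdeg k (ratq k qb x') < (2 : ℕ) ∧
      Algebra.trdeg k (adjoin k (((ratq k qb x' : Set N) ∪ (ratq k qb y' : Set N)) ∪ crd y' 1)) <
        (4 : ℕ) := by
  have hy : ∀ i, y i ∈ adjoin k ((ratq k qb x : Set M) ∪ Set.range y) := fun i =>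
    subset_adjoin k _ (Or.inr ⟨i, rfl⟩)
  obtain ⟨N, iN, iA, x', y', h1, h3, h4⟩ := R8c_main h2 hw x y h hr 0 ⟨0, by simp [Bk, qb]⟩
    (fun d => d = 1) (fun d hd => by rw [hd]; norm_num) _
    (fun i j hij => subset_adjoin k _ (Or.inl (R8c_mem _ hij)))
    (fun i j _ => div_mem (hy i) (hy j)) (fun i _ => hy i) (fun i _ => hy i) 4 he
  refine ⟨N, iN, iA, x', y', h1, h3, ?_⟩
  have e : adjoin k (((ratq k qb x' : Set N) ∪ (ratq k qb y' : Set N)) ∪ crd y' 1) =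
      adjoin k (({z : N | ∃ i j, qb i = qb j ∧ z = x' i / x' j} ∪
        {z : N | ∃ i j, qb i = qb j ∧ z = y' i / y' j}) ∪ {z : N | ∃ i, qb i = 1 ∧ z = y' i}) := by
    apply le_antisymm
    · rw [adjoin_le_iff]
      rintro z ((hz | hz) | hz)
      · exact adjoin.mono k _ _ (fun z hz => Or.inl (Or.inl hz)) hz
      · exact adjoin.mono k _ _ (fun z hz => Or.inl (Or.inr hz)) hz
      · exact subset_adjoin k _ (Or.inr hz)
    · apply adjoin.mono
      rintro z ((hz | hz) | hz)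
      · exact Or.inl (Or.inl (subset_adjoin k _ hz))
      · exact Or.inl (Or.inr (subset_adjoin k _ hz))
      · exact Or.inr hz
  rw [e]
  exact h4

/-- The same with `A = Bk 1`. -/
theorem step4 (h2 : (2 : k) = 0) {w : k} (hw : w ^ 2 + w + 1 = 0) (x y : Fin 6 → M)
    (h : SD w x y) (hr : Algebra.trdeg k (ratq k qb x) < (2 : ℕ))
    (he : Algebra.trdeg k (adjoin k (((ratq k qb x : Set M) ∪ (ratq k qb y : Set M)) ∪ crd y 1)) <
      (4 : ℕ)) :
    ∃ (N : Type u) (_ : Field N) (_ : Algebra k N) (x' y' : Fin 6 → N), SD w x' y' ∧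
      Algebra.trdeg k (ratq k qb x') < (2 : ℕ) ∧
      Algebra.trdeg k (adjoin k ((ratq k qb x' : Set N) ∪ (ratq k qb y' : Set N))) < (3 : ℕ) := by
  have hy : ∀ i, qb i = 1 →
      y i ∈ adjoin k (((ratq k qb x : Set M) ∪ (ratq k qb y : Set M)) ∪ crd y 1) := fun i hi =>
    subset_adjoin k _ (Or.inr ⟨i, hi, rfl⟩)
  obtain ⟨N, iN, iA, x', y', h1, h3, h4⟩ := R8c_main h2 hw x y h hr 1 ⟨3, by simp [Bk, qb]⟩
    (fun _ => False) (fun d hd => hd.elim) _
    (fun i j hij => subset_adjoin k _ (Or.inl (Or.inl (R8c_mem _ hij))))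
    (fun i j hij => subset_adjoin k _ (Or.inl (Or.inr (R8c_mem _ hij))))
    hy (fun i hi => hi.elim) 3 he
  refine ⟨N, iN, iA, x', y', h1, h3, ?_⟩
  have e : adjoin k ((ratq k qb x' : Set N) ∪ (ratq k qb y' : Set N)) =
      adjoin k (({z : N | ∃ i j, qb i = qb j ∧ z = x' i / x' j} ∪
        {z : N | ∃ i j, qb i = qb j ∧ z = y' i / y' j}) ∪ {z : N | ∃ i, False ∧ z = y' i}) := by
    apply le_antisymm
    · rw [adjoin_le_iff]
      rintro z (hz | hz)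
      · exact adjoin.mono k _ _ (fun z hz => Or.inl (Or.inl hz)) hz
      · exact adjoin.mono k _ _ (fun z hz => Or.inl (Or.inr hz)) hz
    · apply adjoin.mono
      rintro z ((hz | hz) | ⟨_, hz, _⟩)
      · exact Or.inl (subset_adjoin k _ hz)
      · exact Or.inr (subset_adjoin k _ hz)
      · exact hz.elim
  rw [e]
  exact h4

end MP2619.Q5
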