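import Pool.Agent.Lib.MP_2619d0_ag.Q5.R7
import Pool.Agent.Lib.MP_2619d0_ag.Q5.R8c

/-!
Row 2619q5-R9: THEOREM R2 from the statement for final data.
-/

set_option autoImplicit false

namespace MP2619.Q5

universe u

open IntermediateField MP2619.R MP2619.W MP2619.NP

private theorem R9_qb (i : Fin 6) : qb i = 0 ∨ qb i = 1 := by
  unfold qb
  split_ifs <;> simp

private theorem R9_univ {M : Type u} [Field M] (x : Fin 6 → M) :
    cu Finset.univ x = cu (Bk 0) x + cu (Bk 1) x := by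
  unfold cu Bk
  rw [← Finset.sum_filter_add_sum_filter_not Finset.univ (fun i => qb i = 0)]
  congr 1

private theorem R9_big {M : Type u} [Field M] (x : Fin 6 → M) (c : ℕ) (h0 : c ≠ 0) (h1 : c ≠ 1) :
    cu (Bk c) x = 0 := by
  unfold cu Bk
  refine Finset.sum_eq_zero fun i hi => ?_
  exfalso
  have h2 := (Finset.mem_filter.1 hi).2
  rcases R9_qb i with h | h
  · exact h0 (h2 ▸ h)
  · exact h1 (h2 ▸ h)

private theorem R9_all {M : Type u} [Field M] (x : Fin 6 → M) (hu : cu Finset.univ x = 0)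
    (h0 : cu (Bk 0) x = 0) (c : ℕ) : cu (Bk c) x = 0 := by
  by_cases hc0 : c = 0
  · rw [hc0, h0]
  by_cases hc1 : c = 1
  · rw [R9_univ, h0, zero_add] at hu
    rw [hc1, hu]
  · exact R9_big x c hc0 hc1

private theorem R9_card : ((Bk 0).card : ZMod 3) = 0 := by
  have h : (Bk 0).card = 3 := by decide
  rw [h]
  rfl

private theorem R9_le (c : Cardinal.{u}) (n : ℕ) : c ≤ (n : Cardinal.{u}) ↔ c < ((n + 1 : ℕ) : Cardinal.{u}) := by
  rw [show (n + 1 : ℕ) = Nat.succ n from rfl, Nat.cast_succ, ← Cardinal.succ_natCast, Order.lt_succ_iff]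

/-- `J_step` with `A = Bk 0` for `x`, then for `y` (`c2_symm`): `SD` (`cu (Bk 1) = cu univ - cu (Bk 0)`, `Bk c = ∅` for `c ≥ 2`) and
`trdeg (rat k x) < 3`. `step1`, `step2`, `step3`, `step4`: `FD` (`cb_cu`; `≤ 2` is `< 3`). `FinalC`: `c2 = 0`,
contradiction. -/
theorem R2_of_final (h : FinalC.{u}) : R2C.{u} := by
  intro k M _ _ _ w x y h2 hw hx hy hr
  by_contra hc
  have hr' : Algebra.trdeg k (rat k x) < (3 : ℕ) := by
    rw [← R9_le _ 2]
    exact_mod_cast hr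
  obtain ⟨N, _, _, x1, y1, hc1, hu1, ha1, hy1, hr1, -⟩ :=
    J_step h2 hw (by norm_num) (A := Bk 0) R9_card x y hx hy hc
  obtain ⟨N2, _, _, y2, x2, hc2, huy2, hay2, hx2, -, hr2⟩ :=
    J_step h2 hw (by norm_num) (A := Bk 0) R9_card y1 x1 (hy1 _ hy) hu1 (c2_symm h2 hw _ _ hc1)
  have hS : SD w x2 y2 := ⟨c2_symm h2 hw _ _ hc2, R9_all x2 (hx2 _ hu1) (hx2 _ ha1),
    R9_all y2 huy2 hay2⟩
  obtain ⟨N3, _, _, x3, y3, hS3, hr3, he3⟩ := step1 h2 hw x2 y2 hS (hr2 3 (hr1 3 hr'))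
  obtain ⟨N4, _, _, x4, y4, hS4, hr4, he4⟩ := step2 h2 hw x3 y3 hS3 hr3 he3
  obtain ⟨N5, _, _, x5, y5, hS5, hr5, he5⟩ := step3 h2 hw x4 y4 hS4 hr4 he4
  obtain ⟨N6, _, _, x6, y6, hS6, hr6, he6⟩ := step4 h2 hw x5 y5 hS5 hr5 he5
  refine hS6.ne (h k N6 w x6 y6 ⟨h2, hw, ?_, ?_, ?_, ?_⟩)
  · intro c
    rw [cb_cu]
    exact hS6.cx c
  · intro c
    rw [cb_cu]
    exact hS6.cy c
  · have h3 : adjoin k ((ratq k qb x6 : Set N6) ∪ (ratq k qb y6 : Set N6)) =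
        ratq k qb x6 ⊔ ratq k qb y6 := by
      rw [adjoin_union, adjoin_self, adjoin_self]
    rw [h3] at he6
    have h4 := (R9_le _ 2).2 he6
    exact_mod_cast h4
  · have h4 := (R9_le _ 1).2 hr6
    exact_mod_cast h4

/-- the form needed in `end_formula`: `c2_zero_iff` -/
theorem R2_even (h : FinalC.{u}) (k M : Type u) [Field k] [Field M] [Algebra k M] (w : k)
    (x y : Fin 6 → M) (h2 : (2 : k) = 0) (hw : w ^ 2 + w + 1 = 0) (hx : ∑ i, x i ^ 3 = 0)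
    (hy : ∑ i, y i ^ 3 = 0) (hr : Algebra.trdeg k (rat k x) ≤ 2) (j : ZMod 3) :
    Even (Nat.card {g : Fin 6 → ZMod 3 //
      (∑ i, g i = j ∨ ∑ i, g i = j + 1) ∧ Pr k (zv w x y g)}) := by
  have h1 := R2_of_final h k M w x y h2 hw hx hy hr
  exact (c2_zero_iff h2 hw x y).1 h1 j

end MP2619.Q5
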