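import Pool.Agent.Lib.MP_2619d0_ag.Q5.Defs0

/-!
# Q5, PATH + LEX: definitions

`Sp E W e lam`: the specialisation `lam` of the valuation ring of `W` to `A`: `W` is trivial on `E`, `W e < 1`, `lam` is
a homomorphism on the valuation ring of `W` (it is a total function; only its values on the valuation ring matter), it is
the identity on `E` and its kernel is the maximal ideal.
-/

set_option autoImplicit false

namespace MP2619.Q5

open scoped NNReal
open IntermediateField MP2619.R MP2619.N

/-- `lam` is a specialisation `e ↦ 0` over `E` of the valuation ring of `W`. -/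
structure Sp (E : Type*) {A : Type*} [Field E] [Field A] [Algebra E A] (W : Valuation A ℝ≥0) (e : A)
    (lam : A → A) : Prop where
  triv : ∀ b : E, b ≠ 0 → W (algebraMap E A b) = 1
  pos : W e < 1
  ne : e ≠ 0
  add : ∀ a b, W a ≤ 1 → W b ≤ 1 → lam (a + b) = lam a + lam b
  mul : ∀ a b, W a ≤ 1 → W b ≤ 1 → lam (a * b) = lam a * lam b
  fix : ∀ b : E, lam (algebraMap E A b) = algebraMap E A b
  zero : ∀ a, W a ≤ 1 → (lam a = 0 ↔ W a < 1)

/-- smaller fields of constants -/
theorem Sp.restrict {E1 E A : Type*} [Field E1] [Field E] [Field A] [Algebra E A] [Algebra E1 A]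
    {W : Valuation A ℝ≥0} {e : A} {lam : A → A} (h : Sp E W e lam)
    (hle : ∀ b : E1, ∃ c : E, algebraMap E A c = algebraMap E1 A b) : Sp E1 W e lam := by
  refine ⟨fun b hb => ?_, h.pos, h.ne, h.add, h.mul, fun b => ?_, h.zero⟩
  · obtain ⟨c, hc⟩ := hle b
    rw [← hc]
    refine h.triv c fun h0 => hb ?_
    rw [h0, map_zero] at hc
    exact (map_eq_zero _).1 hc.symm
  · obtain ⟨c, hc⟩ := hle b
    rw [← hc]
    exact h.fix c

theorem Sp.le_one {E A : Type*} [Field E] [Field A] [Algebra E A] {W : Valuation A ℝ≥0} {e : A}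
    {lam : A → A} (h : Sp E W e lam) (b : E) : W (algebraMap E A b) ≤ 1 := by
  by_cases hb : b = 0
  · rw [hb, map_zero, map_zero]
    exact zero_le
  · exact (h.triv b hb).le

/-- the ring homomorphism `lam` on the valuation ring of `W` -/
noncomputable def Sp.hom {E A : Type*} [Field E] [Field A] [Algebra E A] {W : Valuation A ℝ≥0} {e : A}
    {lam : A → A} (h : Sp E W e lam) : W.valuationSubring →+* A where
  toFun a := lam a
  map_one' := by
    have h1 := h.fix 1
    rw [map_one] at h1
    exact h1
  map_mul' a b := h.mul a b a.2 b.2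
  map_zero' := by
    have h1 := h.fix 0
    rw [map_zero] at h1
    exact h1
  map_add' a b := h.add a b a.2 b.2

theorem Sp.hom_apply {E A : Type*} [Field E] [Field A] [Algebra E A] {W : Valuation A ℝ≥0} {e : A}
    {lam : A → A} (h : Sp E W e lam) (a : W.valuationSubring) : h.hom a = lam a := rfl

end MP2619.Q5
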