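import Pool.Agent.Lib.MP_2619d0_ag.Q5.S2

/-!
# Q5, row S1: existence of the specialisation
-/

set_option autoImplicit false

namespace MP2619.Q5

open scoped NNReal
open Polynomial IntermediateField MP2619.R MP2619.N Pool.Agent.Lib.MP_2619d0_ag Pool.Agent.Lib.MP_2619d0_ag.T

/-- `W ≤ 1` on the image of `E[X]` under `X ↦ e` -/
private theorem S1_aeval_le {E A : Type*} [Field E] [Field A] [Algebra E A] {e : A}
    {W : Valuation A ℝ≥0} (htriv : ∀ b : E, b ≠ 0 → W (algebraMap E A b) = 1) (hW : W e < 1)
    (g : E[X]) : W (aeval e g) ≤ 1 := by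
  rw [aeval_eq_sum_range]
  refine W.map_sum_le fun i _ => ?_
  rw [Algebra.smul_def, map_mul, map_pow]
  have h1 : W (algebraMap E A (g.coeff i)) ≤ 1 := by
    by_cases h0 : g.coeff i = 0
    · rw [h0, map_zero, map_zero]
      exact zero_le
    · exact (htriv _ h0).le
  exact mul_le_one' h1 (pow_le_one' hW.le i)

/-- `g(e)` is congruent to `g(0)` -/
private theorem S1_congr {E A : Type*} [Field E] [Field A] [Algebra E A] {e : A}
    {W : Valuation A ℝ≥0} (htriv : ∀ b : E, b ≠ 0 → W (algebraMap E A b) = 1) (hW : W e < 1)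
    (g : E[X]) : W (aeval e g - algebraMap E A (g.eval 0)) < 1 := by
  have h1 : aeval e g - algebraMap E A (g.eval 0) = aeval e (divX g) * e := by
    conv_lhs => rw [← divX_mul_X_add g]
    rw [map_add, map_mul, aeval_X, aeval_C, eval_add, eval_mul, eval_X, mul_zero, zero_add, eval_C]
    ring
  rw [h1, map_mul]
  exact lt_of_le_of_lt (mul_le_of_le_one_left' (S1_aeval_le htriv hW _)) hW

private theorem S1_prod {E A : Type*} [Field E] [Field A] [Algebra E A] {W : Valuation A ℝ≥0}
    (a : A) (s : Multiset E) (h : ∀ b ∈ s, 1 ≤ W (a - algebraMap E A b)) :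
    1 ≤ W (s.map fun b => a - algebraMap E A b).prod := by
  induction s using Multiset.induction_on with
  | empty => rw [Multiset.map_zero, Multiset.prod_zero, map_one]
  | cons b s ih =>
    rw [Multiset.map_cons, Multiset.prod_cons, map_mul]
    exact one_le_mul (h b (Multiset.mem_cons_self b s))
      (ih fun c hc => h c (Multiset.mem_cons_of_mem hc))

/-- every element of the valuation ring is congruent to an element of `E` -/
private theorem S1_exists {E A : Type*} [Field E] [Field A] [Algebra E A] [IsAlgClosed E] {e : A}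
    (he : e ≠ 0) (halg : Algebra.IsAlgebraic (adjoin E {e}) A) {W : Valuation A ℝ≥0}
    (htriv : ∀ b : E, b ≠ 0 → W (algebraMap E A b) = 1) (hW : W e < 1) {a : A} (ha : W a ≤ 1) :
    ∃ b : E, W (a - algebraMap E A b) < 1 := by
  obtain ⟨q, hq0, hq⟩ := halg.isAlgebraic a
  have hinj := (algebraMap (adjoin E {e}) A).injective
  obtain ⟨f, c, hc, hf0, hf⟩ := exists_prim e he (q.map (algebraMap (adjoin E {e}) A))
    ((Polynomial.map_ne_zero_iff hinj).2 hq0) ((Polynomial.mem_lifts _).2 ⟨q, rfl⟩)
  -- `f(e, a) = 0`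
  have hfa : (f.map (aeval e : E[X] →ₐ[E] A).toRingHom).eval a = 0 := by
    rw [hf, eval_mul, eval_map_algebraMap, hq, mul_zero]
  -- `W (f(0, a)) < 1`
  have hlt : W (aeval a (f.map (evalRingHom (0 : E)))) < 1 := by
    have h1 : aeval a (f.map (evalRingHom (0 : E))) =
        ∑ i ∈ f.support, algebraMap E A ((f.coeff i).eval 0) * a ^ i := by
      rw [aeval_def, eval₂_map, eval₂_eq_sum, Polynomial.sum_def]
      rfl
    have h2 : (f.map (aeval e : E[X] →ₐ[E] A).toRingHom).eval a =
        ∑ i ∈ f.support, aeval e (f.coeff i) * a ^ i := by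
      rw [eval_map, eval₂_eq_sum, Polynomial.sum_def]
      rfl
    have h3 : aeval a (f.map (evalRingHom (0 : E))) =
        -∑ i ∈ f.support, (aeval e (f.coeff i) - algebraMap E A ((f.coeff i).eval 0)) * a ^ i := by
      rw [h1]
      simp only [sub_mul, Finset.sum_sub_distrib]
      rw [← h2, hfa]
      ring
    rw [h3, Valuation.map_neg]
    refine W.map_sum_lt one_ne_zero fun i _ => ?_
    rw [map_mul, map_pow]
    exact lt_of_le_of_lt (mul_le_of_le_one_right' (pow_le_one' ha i)) (S1_congr htriv hW _)
  by_contra hcon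
  push Not at hcon
  have hsp := (IsAlgClosed.splits (f.map (evalRingHom (0 : E)))).eq_prod_roots
  have h4 : aeval a (f.map (evalRingHom (0 : E))) =
      algebraMap E A (f.map (evalRingHom (0 : E))).leadingCoeff *
        ((f.map (evalRingHom (0 : E))).roots.map fun b => a - algebraMap E A b).prod := by
    conv_lhs => rw [hsp]
    rw [map_mul, aeval_C, map_multiset_prod, Multiset.map_map]
    congr 2
    refine Multiset.map_congr rfl fun b _ => ?_
    rw [Function.comp_apply, map_sub, aeval_X, aeval_C]
  rw [h4, map_mul, htriv _ (leadingCoeff_ne_zero.2 hf0), one_mul] at hlt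
  exact absurd hlt (not_lt.2 (S1_prod a _ fun b _ => hcon b))

private theorem S1_unique {E A : Type*} [Field E] [Field A] [Algebra E A] {W : Valuation A ℝ≥0}
    (htriv : ∀ b : E, b ≠ 0 → W (algebraMap E A b) = 1) {a : A} {b b' : E}
    (h : W (a - algebraMap E A b) < 1) (h' : W (a - algebraMap E A b') < 1) : b = b' := by
  by_contra hne
  have h1 := htriv (b - b') (sub_ne_zero.2 hne)
  have h2 : algebraMap E A (b - b') = (a - algebraMap E A b') - (a - algebraMap E A b) := by
    rw [map_sub]
    ring
  rw [h2] at h1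
  exact absurd h1 (ne_of_lt (W.map_sub_lt h' h))

/-- The residue field of `W` is algebraic over the image of the algebraically closed field `E`, so it is this image; `lam a` is the
element of `E` with `W (a - lam a) < 1`. Proof: let `W a ≤ 1`. There is a non-zero `p` over `E(e)` with `p(a) = 0`; by
`exists_prim` there is `f ∈ E[X][Z]`, `f(0, Z) ≠ 0`, `f(e, a) = 0`. The coefficients `f_l(e)` of `f(e, Z)` are congruent to
`f_l(0)` modulo the maximal ideal (`W e < 1`, `W ≤ 1` on `E`), so `W (f(0, a)) < 1` (`f(0, Z) ∈ E[Z]`). `E` is algebraically closed: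
`f(0, Z) = c ∏ (Z - b_i)`, `W c = 1`, so `W (a - b_i) < 1` for some `i`. So for every `a` with `W a ≤ 1` there is `b : E` with
`W (a - b) < 1`, unique since `W (b - b') = 1` for `b ≠ b'`. Choose it: `lam a := b` (and `0` for `W a > 1`). All the
properties follow from the uniqueness. -/
theorem exists_sp {E A : Type*} [Field E] [Field A] [Algebra E A] [IsAlgClosed E] (e : A) (he : e ≠ 0)
    (halg : Algebra.IsAlgebraic (adjoin E {e}) A) (W : Valuation A ℝ≥0)
    (htriv : ∀ b : E, b ≠ 0 → W (algebraMap E A b) = 1) (hW : W e < 1) :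
    ∃ lam : A → A, Sp E W e lam := by
  classical
  let lam : A → A := fun a =>
    if h : ∃ b : E, W (a - algebraMap E A b) < 1 then algebraMap E A h.choose else 0
  have key : ∀ (a : A) (b : E), W (a - algebraMap E A b) < 1 → lam a = algebraMap E A b := by
    intro a b hb
    have hex : ∃ b : E, W (a - algebraMap E A b) < 1 := ⟨b, hb⟩
    change (if h : ∃ b : E, W (a - algebraMap E A b) < 1 then algebraMap E A h.choose else 0) = _
    rw [dif_pos hex, S1_unique htriv hex.choose_spec hb]
  have hle : ∀ b : E, W (algebraMap E A b) ≤ 1 := by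
    intro b
    by_cases hb : b = 0
    · rw [hb, map_zero, map_zero]
      exact zero_le
    · exact (htriv b hb).le
  have hex : ∀ a, W a ≤ 1 → ∃ b : E, lam a = algebraMap E A b ∧ W (a - algebraMap E A b) < 1 := by
    intro a ha
    obtain ⟨b, hb⟩ := S1_exists he halg htriv hW ha
    exact ⟨b, key a b hb, hb⟩
  refine ⟨lam, htriv, hW, he, ?_, ?_, ?_, ?_⟩
  · intro a b ha hb
    obtain ⟨α, h1, h2⟩ := hex a ha
    obtain ⟨β, h3, h4⟩ := hex b hb
    rw [h1, h3, ← map_add]
    refine key _ _ ?_
    have e1 : a + b - algebraMap E A (α + β) =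
        (a - algebraMap E A α) + (b - algebraMap E A β) := by
      rw [map_add]
      ring
    rw [e1]
    exact W.map_add_lt h2 h4
  · intro a b ha hb
    obtain ⟨α, h1, h2⟩ := hex a ha
    obtain ⟨β, h3, h4⟩ := hex b hb
    rw [h1, h3, ← map_mul]
    refine key _ _ ?_
    have e1 : a * b - algebraMap E A (α * β) =
        a * (b - algebraMap E A β) + (a - algebraMap E A α) * algebraMap E A β := by
      rw [map_mul]
      ring
    rw [e1]
    refine W.map_add_lt ?_ ?_
    · rw [map_mul]
      exact lt_of_le_of_lt (mul_le_of_le_one_left' ha) h4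
    · rw [map_mul]
      exact lt_of_le_of_lt (mul_le_of_le_one_right' (hle β)) h2
  · intro b
    refine key _ _ ?_
    rw [sub_self, map_zero]
    exact zero_lt_one
  · intro a ha
    obtain ⟨α, h1, h2⟩ := hex a ha
    constructor
    · intro h
      rw [← h1, h, sub_zero] at h2
      exact h2
    · intro h
      have h3 := key a 0 (by rwa [map_zero, sub_zero])
      rwa [map_zero] at h3

end MP2619.Q5
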