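import Pool.Agent.Lib.MP_2619d0_ag.Q5.S0

/-!
# Q5, row S2: polynomials with coefficients in `E(e)`
-/

set_option autoImplicit false

namespace MP2619.Q5

open scoped NNReal
open Polynomial IntermediateField MP2619.R MP2619.N Pool.Agent.Lib.MP_2619d0_ag Pool.Agent.Lib.MP_2619d0_ag.T

private theorem S2_denom {E A : Type*} [Field E] [Field A] [Algebra E A] (e : A) (T : Finset A) :
    (∀ z ∈ T, z ∈ adjoin E {e}) →
      ∃ q : E[X], aeval e q ≠ 0 ∧ ∀ z ∈ T, ∃ p : E[X], aeval e q * z = aeval e p := by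
  classical
  induction T using Finset.induction_on with
  | empty => exact fun _ => ⟨1, by rw [map_one]; exact one_ne_zero, fun z hz => absurd hz (Finset.notMem_empty z)⟩
  | insert a T _ ih =>
    intro h
    obtain ⟨q, hq, hT⟩ := ih (fun z hz => h z (Finset.mem_insert_of_mem hz))
    obtain ⟨r, s, hrs⟩ := (mem_adjoin_simple_iff E a).1 (h a (Finset.mem_insert_self a T))
    by_cases hs : aeval e s = 0
    · refine ⟨q, hq, fun z hz => ?_⟩
      rcases Finset.mem_insert.1 hz with rfl | hz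
      · refine ⟨0, ?_⟩
        rw [hrs, hs]
        simp
      · exact hT z hz
    · refine ⟨q * s, by rw [map_mul]; exact mul_ne_zero hq hs, fun z hz => ?_⟩
      rcases Finset.mem_insert.1 hz with rfl | hz
      · refine ⟨q * r, ?_⟩
        rw [hrs, map_mul, map_mul, mul_assoc, mul_div_cancel₀ _ hs]
      · obtain ⟨p, hp⟩ := hT z hz
        refine ⟨p * s, ?_⟩
        rw [map_mul, map_mul, ← hp]
        ring

private theorem S2_prim {E : Type*} [Field E] (n : ℕ) : ∀ (g : E[X][X]) (l : ℕ), g.coeff l ≠ 0 →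
    (g.coeff l).natDegree ≤ n →
      ∃ (k : ℕ) (f : E[X][X]), g = C (X ^ k) * f ∧ f.map (evalRingHom 0) ≠ 0 := by
  induction n with
  | zero =>
    intro g l hl hn
    refine ⟨0, g, by rw [pow_zero, C_1, one_mul], fun h0 => hl ?_⟩
    have h1 := congrArg (fun p => p.coeff l) h0
    simp only [coeff_map, coeff_zero, coe_evalRingHom] at h1
    rw [eq_C_of_natDegree_le_zero hn] at h1 ⊢
    rw [eval_C] at h1
    rw [h1, C_0]
  | succ n ih =>
    intro g l hl hn
    by_cases h0 : g.map (evalRingHom 0) = 0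
    · have h1 : C (X : E[X]) ∣ g := by
        rw [C_dvd_iff_dvd_coeff]
        intro i
        have h2 := congrArg (fun p => p.coeff i) h0
        simp only [coeff_map, coeff_zero, coe_evalRingHom] at h2
        rw [X_dvd_iff, coeff_zero_eq_eval_zero]
        exact h2
      obtain ⟨g', rfl⟩ := h1
      have h3 : g'.coeff l ≠ 0 := by
        intro h4
        rw [coeff_C_mul, h4, mul_zero] at hl
        exact hl rfl
      obtain ⟨k, f, hk, hf⟩ := ih g' l h3 (by
        rw [coeff_C_mul, natDegree_X_mul h3] at hn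
        omega)
      exact ⟨k + 1, f, by rw [hk, ← mul_assoc, ← C_mul, ← pow_succ'], hf⟩
    · exact ⟨0, g, by rw [pow_zero, C_1, one_mul], h0⟩

/-- A polynomial with coefficients in `E(e)`, times a constant, is `f(e, Z)`, `f` with coefficients in `E[X]`, not all divisible
by `X`. -/
theorem exists_prim {E A : Type*} [Field E] [Field A] [Algebra E A] (e : A) (he : e ≠ 0) (p : A[X])
    (hp : p ≠ 0) (hl : p ∈ Polynomial.lifts (algebraMap (adjoin E {e}) A)) :
    ∃ (f : E[X][X]) (c : A), c ≠ 0 ∧ f.map (evalRingHom 0) ≠ 0 ∧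
      f.map (aeval e : E[X] →ₐ[E] A).toRingHom = C c * p := by
  classical
  obtain ⟨q, hq, hT⟩ := S2_denom (E := E) e (p.support.image p.coeff) (by
    intro z hz
    obtain ⟨i, -, rfl⟩ := Finset.mem_image.1 hz
    obtain ⟨b, hb⟩ := (lifts_iff_coeff_lifts p).1 hl i
    rw [← hb]
    exact b.2)
  have h1 : ∀ i, ∃ r : E[X], aeval e q * p.coeff i = aeval e r := by
    intro i
    by_cases hi : i ∈ p.support
    · exact hT _ (Finset.mem_image_of_mem _ hi)
    · refine ⟨0, ?_⟩
      rw [notMem_support_iff.1 hi, mul_zero, map_zero]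
  choose r hr using h1
  obtain ⟨g, hg⟩ : ∃ g : E[X][X], g = ∑ i ∈ p.support, monomial i (r i) := ⟨_, rfl⟩
  have hgm : g.map (aeval e : E[X] →ₐ[E] A).toRingHom = C (aeval e q) * p := by
    rw [hg, Polynomial.map_sum]
    conv_rhs => rw [p.as_sum_support, Finset.mul_sum]
    refine Finset.sum_congr rfl fun i _ => ?_
    rw [map_monomial, C_mul_monomial, hr i]
    rfl
  have hg0 : g ≠ 0 := by
    intro h0
    rw [h0, Polynomial.map_zero] at hgm
    exact mul_ne_zero (C_ne_zero.2 hq) hp hgm.symm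
  obtain ⟨l, hl'⟩ : ∃ l, g.coeff l ≠ 0 := by
    by_contra hcon
    push Not at hcon
    exact hg0 (ext fun i => by rw [hcon i, coeff_zero])
  obtain ⟨k, f, hk, hf⟩ := S2_prim _ g l hl' le_rfl
  refine ⟨f, aeval e q / e ^ k, div_ne_zero hq (pow_ne_zero k he), hf, ?_⟩
  rw [hk, Polynomial.map_mul, map_C] at hgm
  have h2 : (aeval e : E[X] →ₐ[E] A).toRingHom (X ^ k) = e ^ k := by
    change aeval e (X ^ k : E[X]) = e ^ k
    rw [map_pow, aeval_X]
  rw [h2] at hgm
  have h3 : (C (e ^ k) : A[X]) ≠ 0 := C_ne_zero.2 (pow_ne_zero k he)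
  apply mul_left_cancel₀ h3
  rw [hgm, ← mul_assoc, ← C_mul, mul_div_cancel₀ _ (pow_ne_zero k he)]

end MP2619.Q5
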