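import Pool.Agent.Lib.MP_2619d0_ag.Q5.S2
import Pool.Agent.Lib.MP_2619d0_ag.N.P3

/-!
# Q5, row S4: the number of the embeddings with valuation ring `P`
-/

set_option autoImplicit false

namespace MP2619.Q5

open scoped NNReal
open Polynomial IntermediateField MP2619.R MP2619.N Pool.Agent.Lib.MP_2619d0_ag Pool.Agent.Lib.MP_2619d0_ag.T

section S4aux

/-- `P` over the valuation ring of `K` gives the embedding of residue fields -/
private theorem S4_lies {K M A : Type*} [Field K] [Field M] [Field A] [Algebra K M] [Algebra K A]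
    (V : Valuation A ℝ≥0) (P : ValuationSubring M)
    (h : ∀ a : K, algebraMap K M a ∈ P ↔ a ∈ O1 K V) :
    ∃ j : IsLocalRing.ResidueField (O1 K V) →+* IsLocalRing.ResidueField P, Lies V P j := by
  let φ : O1 K V →+* P :=
    { toFun := fun a => ⟨algebraMap K M a, (h a).2 a.2⟩
      map_one' := Subtype.ext (by simp)
      map_mul' := fun a b => Subtype.ext (by simp)
      map_zero' := Subtype.ext (by simp)
      map_add' := fun a b => Subtype.ext (by simp) }
  have hφ : IsLocalHom φ := by
    refine ⟨fun a ha => ?_⟩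
    obtain ⟨b, hb⟩ := ha.exists_right_inv
    have h1 : algebraMap K M (a : K) * (b : M) = 1 := congrArg Subtype.val hb
    have ha0 : (a : K) ≠ 0 := by
      intro h0
      rw [h0, map_zero, zero_mul] at h1
      exact zero_ne_one h1
    have h2 : (b : M) = algebraMap K M (a : K)⁻¹ := by
      rw [map_inv₀]
      exact eq_inv_of_mul_eq_one_right h1
    have h3 : (a : K)⁻¹ ∈ O1 K V := by
      rw [← h, ← h2]
      exact b.2
    refine IsUnit.of_mul_eq_one ⟨(a : K)⁻¹, h3⟩ ?_
    exact Subtype.ext (mul_inv_cancel₀ ha0)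
  refine ⟨IsLocalRing.ResidueField.map φ, h, fun a => ?_⟩
  rfl

section

variable {N K Γ : Type*} [Field N] [Field K] [Algebra N K] [LinearOrderedCommGroupWithZero Γ]

private theorem S4_le (v : Valuation K Γ) (h1 : ∀ c : N, v (algebraMap N K c) ≤ 1) (e : K)
    (he : v e < 1) (p : N[X]) : v (aeval e p) ≤ 1 := by
  rw [aeval_eq_sum_range]
  refine v.map_sum_le fun i _ => ?_
  rw [Algebra.smul_def, map_mul, map_pow]
  exact mul_le_one' (h1 _) (pow_le_one' he.le i)

private theorem S4_lt (v : Valuation K Γ) (h1 : ∀ c : N, v (algebraMap N K c) ≤ 1) (e : K)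
    (he : v e < 1) (p : N[X]) (hp : p.coeff 0 = 0) : v (aeval e p) < 1 := by
  have h2 : aeval e p = aeval e p.divX * e := by
    conv_lhs => rw [← divX_mul_X_add p]
    rw [hp, map_zero, add_zero, map_mul, aeval_X]
  rw [h2, map_mul]
  exact mul_lt_one_of_nonneg_of_lt_one_right (S4_le v h1 e he _) zero_le he

private theorem S4_const (v : Valuation K Γ) (h1 : ∀ c : N, v (algebraMap N K c) ≤ 1) (c : N)
    (hc : c ≠ 0) : v (algebraMap N K c) = 1 := by
  refine le_antisymm (h1 c) ?_
  have h2 := h1 c⁻¹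
  rw [map_inv₀, map_inv₀] at h2
  have h3 : v (algebraMap N K c) ≠ 0 := (Valuation.ne_zero_iff v).2 ((_root_.map_ne_zero _).2 hc)
  exact (inv_le_one₀ (zero_lt_iff.2 h3)).1 h2

private theorem S4_one (v : Valuation K Γ) (h1 : ∀ c : N, v (algebraMap N K c) ≤ 1) (e : K)
    (he : v e < 1) (p : N[X]) (hp : p.coeff 0 ≠ 0) : v (aeval e p) = 1 := by
  have h2 : aeval e p = aeval e (p - C (p.coeff 0)) + algebraMap N K (p.coeff 0) := by simp
  have h3 : v (aeval e (p - C (p.coeff 0))) < 1 := S4_lt v h1 e he _ (by simp)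
  have h4 := S4_const v h1 _ hp
  rw [h2, Valuation.map_add_eq_of_lt_right v (by rw [h4]; exact h3), h4]

private theorem S4_pow (p : N[X]) (hp : p ≠ 0) :
    ∃ (k : ℕ) (q : N[X]), q.coeff 0 ≠ 0 ∧ p = q * X ^ k := by
  obtain ⟨q, hq, h⟩ := exists_eq_pow_rootMultiplicity_mul_and_not_dvd p hp 0
  rw [C_0, sub_zero] at hq h
  refine ⟨rootMultiplicity 0 p, q, fun h0 => h (X_dvd_iff.2 h0), ?_⟩
  rw [mul_comm]
  exact hq

private theorem S4_form (e : K) (hK : adjoin N {e} = ⊤) (he0 : e ≠ 0) (a : K) (ha : a ≠ 0) :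
    ∃ (r s : N[X]) (k : ℤ), r.coeff 0 ≠ 0 ∧ s.coeff 0 ≠ 0 ∧
      a = aeval e r / aeval e s * e ^ k := by
  have h1 : a ∈ adjoin N {e} := by rw [hK]; trivial
  obtain ⟨r, s, h2⟩ := (mem_adjoin_simple_iff N a).1 h1
  have hr : r ≠ 0 := by
    rintro rfl
    apply ha
    rw [h2, map_zero, zero_div]
  have hs : s ≠ 0 := by
    rintro rfl
    apply ha
    rw [h2, map_zero, div_zero]
  obtain ⟨m, r1, h3, h4⟩ := S4_pow r hr
  obtain ⟨n, s1, h5, h6⟩ := S4_pow s hs
  refine ⟨r1, s1, (m : ℤ) - n, h3, h5, ?_⟩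
  rw [h2, h4, h6]
  simp only [map_mul, map_pow, aeval_X]
  rw [zpow_sub₀ he0, zpow_natCast, zpow_natCast, mul_div_mul_comm]

private theorem S4_val (v : Valuation K Γ) (h1 : ∀ c : N, v (algebraMap N K c) ≤ 1) (e : K)
    (he : v e < 1) (r s : N[X]) (k : ℤ) (hr : r.coeff 0 ≠ 0) (hs : s.coeff 0 ≠ 0) :
    v (aeval e r / aeval e s * e ^ k) = v e ^ k := by
  rw [map_mul, map_div₀, S4_one v h1 e he r hr, S4_one v h1 e he s hs, div_one, one_mul,
    map_zpow₀]

/-- every integral element is congruent to a constant -/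
private theorem S4_res (e : K) (hK : adjoin N {e} = ⊤) (he0 : e ≠ 0) (v : Valuation K Γ)
    (h1 : ∀ c : N, v (algebraMap N K c) ≤ 1) (he : v e < 1) (a : K) (ha : v a ≤ 1) :
    ∃ c : N, v (a - algebraMap N K c) < 1 := by
  by_cases ha0 : a = 0
  · refine ⟨0, ?_⟩
    rw [ha0, map_zero, sub_zero, map_zero]
    exact zero_lt_one
  obtain ⟨r, s, k, hr, hs, h2⟩ := S4_form e hK he0 a ha0
  have hv : v a = v e ^ k := by
    rw [h2]
    exact S4_val v h1 e he r s k hr hs
  have hve : v e ≠ 0 := (Valuation.ne_zero_iff v).2 he0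
  have hk : 0 ≤ k := by
    rw [hv] at ha
    by_contra hk
    push Not at hk
    have h3 := one_lt_zpow_of_neg₀ (zero_lt_iff.2 hve) he hk
    exact absurd ha (not_le.2 h3)
  obtain ⟨n, rfl⟩ := Int.eq_ofNat_of_zero_le hk
  have h3 : a = aeval e (r * X ^ n) / aeval e s := by
    rw [h2, map_mul, map_pow, aeval_X, zpow_natCast]
    ring
  obtain ⟨R, hR⟩ : ∃ R : N[X], R = r * X ^ n := ⟨_, rfl⟩
  rw [← hR] at h3
  have hs1 : v (aeval e s) = 1 := S4_one v h1 e he s hs
  have hs0 : aeval e s ≠ 0 := by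
    intro h0
    rw [h0, map_zero] at hs1
    exact zero_ne_one hs1
  have hsc : algebraMap N K (s.coeff 0) ≠ 0 := (_root_.map_ne_zero _).2 hs
  refine ⟨R.coeff 0 / s.coeff 0, ?_⟩
  have h4 : a - algebraMap N K (R.coeff 0 / s.coeff 0) =
      aeval e (R * C (s.coeff 0) - s * C (R.coeff 0)) / (aeval e s * algebraMap N K (s.coeff 0)) := by
    rw [h3, map_div₀, map_sub, map_mul (aeval e) R, map_mul (aeval e) s, aeval_C, aeval_C]
    field_simp
  rw [h4, map_div₀, map_mul, hs1, S4_const v h1 _ hs, mul_one, div_one]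
  refine S4_lt v h1 e he _ ?_
  rw [coeff_sub, mul_coeff_zero, mul_coeff_zero, coeff_C_zero, coeff_C_zero]
  ring

end

/-- lifting independent residues -/
private theorem S4_fin {K M A : Type*} [Field K] [Field M] [Field A] [Algebra K M] [Algebra K A]
    [FiniteDimensional K M] (V : Valuation A ℝ≥0) (P : ValuationSubring M)
    (j : IsLocalRing.ResidueField (O1 K V) →+* IsLocalRing.ResidueField P) (hj : Lies V P j) :
    Module.finrank j.fieldRange (IsLocalRing.ResidueField P) ≠ 0 := by
  classical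
  have key : ∀ (ι : Type) [Fintype ι] (m : ι → IsLocalRing.ResidueField P),
      LinearIndependent j.fieldRange m → Fintype.card ι ≤ Module.finrank K M := by
    intro ι _ m hm
    choose x hx using fun i => IsLocalRing.residue_surjective (m i)
    have hli : LinearIndependent K (fun i => (x i : M)) := by
      rw [Fintype.linearIndependent_iff]
      intro a ha
      by_contra hne
      push Not at hne
      obtain ⟨i1, hi1⟩ := hne
      obtain ⟨i0, -, hmax⟩ := Finset.exists_max_image Finset.univ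
        (fun i => V (algebraMap K A (a i))) ⟨i1, Finset.mem_univ _⟩
      have h0 : a i0 ≠ 0 := by
        intro h0
        have h1 := hmax i1 (Finset.mem_univ _)
        rw [h0, map_zero, map_zero] at h1
        have h2 : V (algebraMap K A (a i1)) = 0 := nonpos_iff_eq_zero.1 h1
        rw [Valuation.zero_iff, map_eq_zero] at h2
        exact hi1 h2
      have hV0 : 0 < V (algebraMap K A (a i0)) :=
        pos_iff_ne_zero.2 ((Valuation.ne_zero_iff _).2 ((_root_.map_ne_zero _).2 h0))
      have hmem : ∀ i, (a i0)⁻¹ * a i ∈ O1 K V := by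
        intro i
        rw [mem_O1, map_mul, map_inv₀, map_mul, map_inv₀, inv_mul_le_iff₀ hV0, mul_one]
        exact hmax i (Finset.mem_univ _)
      have h1 : ∑ i, (⟨algebraMap K M ((a i0)⁻¹ * a i), (hj.mem _).2 (hmem i)⟩ : P) * x i = 0 := by
        apply Subtype.ext
        change P.subtype (∑ i, _) = 0
        rw [map_sum]
        change ∑ i, algebraMap K M ((a i0)⁻¹ * a i) * (x i : M) = 0
        have h2 : ∑ i, algebraMap K M ((a i0)⁻¹ * a i) * (x i : M) =
            algebraMap K M (a i0)⁻¹ * ∑ i, a i • (x i : M) := by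
          rw [Finset.mul_sum]
          refine Finset.sum_congr rfl fun i _ => ?_
          rw [Algebra.smul_def, map_mul]
          ring
        rw [h2, ha, mul_zero]
      have h2 := congrArg (IsLocalRing.residue P) h1
      rw [map_sum, map_zero] at h2
      have h3 : ∑ i, (⟨j (IsLocalRing.residue (O1 K V) ⟨(a i0)⁻¹ * a i, hmem i⟩), ⟨_, rfl⟩⟩ :
          j.fieldRange) • m i = 0 := by
        rw [← h2]
        refine Finset.sum_congr rfl fun i _ => ?_
        rw [map_mul, hx, ← hj.res ⟨(a i0)⁻¹ * a i, hmem i⟩]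
        rfl
      have h4 := Fintype.linearIndependent_iff.1 hm _ h3 i0
      have h5 : (⟨(a i0)⁻¹ * a i0, hmem i0⟩ : O1 K V) = 1 := Subtype.ext (inv_mul_cancel₀ h0)
      have h6 : j (IsLocalRing.residue (O1 K V) ⟨(a i0)⁻¹ * a i0, hmem i0⟩) = 0 :=
        congrArg Subtype.val h4
      rw [h5, map_one, map_one] at h6
      exact one_ne_zero h6
    have := hli.fintype_card_le_finrank
    exact this
  have hrank : Module.rank j.fieldRange (IsLocalRing.ResidueField P) ≤ (Module.finrank K M : ℕ) := by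
    refine rank_le fun s hs => ?_
    have h1 := key (Fin s.card) (fun i => ((s.equivFin.symm i : s) : IsLocalRing.ResidueField P))
      (hs.comp _ s.equivFin.symm.injective)
    rw [Fintype.card_fin] at h1
    exact h1
  have hfin : Module.Finite j.fieldRange (IsLocalRing.ResidueField P) := by
    rw [← Module.rank_lt_aleph0_iff]
    exact hrank.trans_lt (Cardinal.natCast_lt_aleph0)
  exact (Module.finrank_pos).ne'

end S4aux

variable {N K M A : Type*} [Field N] [Field K] [Field M] [Field A] [Algebra N K] [Algebra K M]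
  [Algebra N M] [Algebra K A] [Algebra N A] [IsScalarTower N K M] [IsScalarTower N K A] [CharZero N]
  [FiniteDimensional K M] [IsAlgClosed A]

/-- The number of the embeddings with valuation ring `P`. Proof: `K = N(e)`; `e_M := algebraMap K M e` is transcendental over `N`
(`N ⊂ P`, `P.valuation e < 1`, `e ≠ 0`: `transc_adj` in R/C4.lean with `A = ⊥`, or directly), and `M` is finite (separable,
characteristic 0) over `adjoin N {e_M}` (the image of `K`). By `fi_field` (R/A3.lean) `DV P`. Every element `a ≠ 0` of `K` is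
`e^k f(e)/g(e)` with `f(0), g(0) ≠ 0`, `k : ℤ`; for such `f`, `W (f(e)) = 1` and `P.valuation (f(e)) = 1`; so `W a ≤ 1 ↔ 0 ≤ k ↔ a ∈ P`,
`e` is a uniformizer of `O1 K W` (`IsUf`, N/P0.lean), and every element of `O1 K W` is congruent to an element of `N`. There is `j`
with `Lies W P j` (see the private lemma `P3_lies` in N/P3.lean, copy it), `j.fieldRange = (rc hc).fieldRange`.
`place_count` (N/P1.lean) gives the count. `finrank ≠ 0`: residues `m̄_1, …, m̄_r` linearly independent over `N` have lifts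
linearly independent over `K`: if `∑ a_i m_i = 0`, `a_i ∈ K` not all zero, scale: `a_i = f_i(e)`, not all `f_i(0) = 0` (`exists_prim`
for `∑ a_i Z^i` in `M`), then `∑ f_i(0) m̄_i = 0`. So the dimension is at most `[M : K]`. -/
theorem count_place (e : K) (hK : adjoin N {e} = ⊤) (W : Valuation A ℝ≥0)
    (htriv : ∀ b : N, b ≠ 0 → W (algebraMap N A b) = 1) (hWe : W (algebraMap K A e) < 1) (he0 : e ≠ 0)
    (P : ValuationSubring M) (hc : Cst N P) (he : P.valuation (algebraMap K M e) < 1) :
    DV P ∧ Module.finrank (rc hc).fieldRange (IsLocalRing.ResidueField P) ≠ 0 ∧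
      Nat.card {τ : M →ₐ[K] A // ∀ m : M, W (τ m) ≤ 1 ↔ m ∈ P} =
        (ord P (algebraMap K M e)).toNat *
          Module.finrank (rc hc).fieldRange (IsLocalRing.ResidueField P) := by
  set v1 : Valuation K ℝ≥0 := W.comap (algebraMap K A) with hv1
  set v2 := P.valuation.comap (algebraMap K M) with hv2
  have h11 : ∀ c : N, v1 (algebraMap N K c) ≤ 1 := by
    intro c
    rw [hv1, Valuation.comap_apply, ← IsScalarTower.algebraMap_apply]
    by_cases hc0 : c = 0
    · rw [hc0, map_zero, map_zero]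
      exact zero_le
    · exact (htriv c hc0).le
  have h12 : v1 e < 1 := hWe
  have h21 : ∀ c : N, v2 (algebraMap N K c) ≤ 1 := by
    intro c
    rw [hv2, Valuation.comap_apply, ← IsScalarTower.algebraMap_apply]
    exact (P.valuation_le_one_iff _).2 (hc c)
  have h22 : v2 e < 1 := he
  have hv1e : v1 e ≠ 0 := (Valuation.ne_zero_iff v1).2 he0
  have hv2e : v2 e ≠ 0 := (Valuation.ne_zero_iff v2).2 he0
  have hmem : ∀ a : K, algebraMap K M a ∈ P ↔ a ∈ O1 K W := by
    intro a
    rw [mem_O1, ← P.valuation_le_one_iff]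
    change v2 a ≤ 1 ↔ v1 a ≤ 1
    by_cases ha : a = 0
    · rw [ha, map_zero, map_zero]
      simp
    · obtain ⟨r, s, k, hr, hs, h⟩ := S4_form e hK he0 a ha
      rw [h, S4_val v1 h11 e h12 r s k hr hs, S4_val v2 h21 e h22 r s k hr hs,
        zpow_le_one_iff_right_of_lt_one₀ (zero_lt_iff.2 hv1e) h12,
        zpow_le_one_iff_right_of_lt_one₀ (zero_lt_iff.2 hv2e) h22]
  have heq : v1.IsEquiv (O1 K W).valuation := Valuation.isEquiv_valuation_valuationSubring v1
  have huf : IsUf (O1 K W) e := by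
    refine ⟨he0, heq.lt_one_iff_lt_one.1 h12, fun a ha => ?_⟩
    obtain ⟨r, s, k, hr, hs, h⟩ := S4_form e hK he0 a ha
    refine ⟨k, aeval e r / aeval e s, ?_, h⟩
    rw [← heq.eq_one_iff_eq_one]
    have h3 := S4_val v1 h11 e h12 r s 0 hr hs
    rw [zpow_zero, zpow_zero, mul_one] at h3
    exact h3
  obtain ⟨j, hj⟩ := S4_lies W P hmem
  have : CharZero K := charZero_of_injective_algebraMap (algebraMap N K).injective
  have hcount := place_count (M := M) W e huf P j hj
  have hres2 : ∀ (x y : M) (hx : x ∈ P) (hy : y ∈ P), P.valuation (x - y) < 1 →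
      IsLocalRing.residue P ⟨x, hx⟩ = IsLocalRing.residue P ⟨y, hy⟩ := by
    intro x y hx hy h
    rw [← sub_eq_zero, ← map_sub, IsLocalRing.residue_eq_zero_iff,
      ValuationSubring.valuation_lt_one_iff]
    exact h
  have hrange : j.fieldRange = (rc hc).fieldRange := by
    apply le_antisymm
    · rintro _ ⟨b, rfl⟩
      obtain ⟨a, rfl⟩ := IsLocalRing.residue_surjective b
      obtain ⟨c, h⟩ := S4_res e hK he0 v2 h21 h22 (a : K) (by
        rw [hv2, Valuation.comap_apply, P.valuation_le_one_iff]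
        exact (hmem _).2 a.2)
      refine ⟨c, ?_⟩
      rw [hj.res a]
      refine (hres2 _ _ _ _ ?_).symm
      rw [hv2, Valuation.comap_apply, map_sub, ← IsScalarTower.algebraMap_apply] at h
      exact h
    · rintro _ ⟨c, rfl⟩
      have h3 : algebraMap N K c ∈ O1 K W := h11 c
      refine ⟨IsLocalRing.residue (O1 K W) ⟨algebraMap N K c, h3⟩, ?_⟩
      rw [hj.res]
      have h4 : algebraMap K M (algebraMap N K c) = algebraMap N M c :=
        (IsScalarTower.algebraMap_apply N K M c).symm
      refine hres2 _ _ _ _ ?_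
      change P.valuation (algebraMap K M (algebraMap N K c) - algebraMap N M c) < 1
      rw [h4, sub_self, map_zero]
      exact zero_lt_one
  have hf := S4_fin W P j hj
  rw [hrange] at hf
  rw [hrange] at hcount
  exact ⟨hcount.1, hf, hcount.2⟩

end MP2619.Q5
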