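import Pool.Agent.Lib.MP_2619d0_ag.Q5.S0

/-!
# Q5, row S5: number of embeddings of a finite extension
-/

set_option autoImplicit false

namespace MP2619.Q5

open scoped NNReal
open Polynomial IntermediateField MP2619.R MP2619.N Pool.Agent.Lib.MP_2619d0_ag Pool.Agent.Lib.MP_2619d0_ag.T

/-- Number of embeddings of a finite extension, for a homomorphism. Proof: `Algebra N κ := r.toAlgebra`; the set is `κ →ₐ[N] A`;
`AlgHom.natCard_of_splits` (see `card_emb` in N/A5.lean), characteristic 0, `Module.finrank N κ = Module.finrank r.fieldRange κ`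
(`N ≃ r.fieldRange`; see `D1c_finrank` in R/D1.lean or `Algebra.finrank_eq_of_equiv_equiv`). -/
theorem card_res {N κ A : Type*} [Field N] [Field κ] [Field A] [Algebra N A] [CharZero N] [IsAlgClosed A]
    (r : N →+* κ) (hr : Module.finrank r.fieldRange κ ≠ 0) :
    Nat.card {σ : κ →+* A // ∀ b, σ (r b) = algebraMap N A b} = Module.finrank r.fieldRange κ := by
  let alg : Algebra N κ := r.toAlgebra
  have hfr : Module.finrank N κ = Module.finrank r.fieldRange κ := by
    refine Algebra.finrank_eq_of_equiv_equiv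
      (RingEquiv.ofBijective r.rangeRestrictField ⟨fun a b h => r.injective (congrArg Subtype.val h), ?_⟩)
      (RingEquiv.refl κ) ?_
    · rintro ⟨x, y, hy⟩
      exact ⟨y, Subtype.ext hy⟩
    · ext x
      rfl
  have hfd : FiniteDimensional N κ := Module.finite_of_finrank_pos (by rw [hfr]; exact Nat.pos_of_ne_zero hr)
  have h1 : Nat.card (κ →ₐ[N] A) = Module.finrank N κ :=
    AlgHom.natCard_of_splits N κ A fun _ => IsAlgClosed.splits _
  rw [← hfr, ← h1]
  refine Nat.card_congr ⟨fun σ => { σ.1 with commutes' := σ.2 }, fun τ => ⟨τ.toRingHom, τ.commutes⟩, ?_, ?_⟩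
  · intro σ
    rfl
  · intro τ
    rfl

end MP2619.Q5
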