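import Pool.Agent.Lib.MP_2619d0_ag.Q5.S0

/-!
# Q5, row S6a: conjugate elements have the same multiplicity
-/

set_option autoImplicit false

namespace MP2619.Q5

open scoped NNReal
open Polynomial IntermediateField MP2619.R MP2619.N Pool.Agent.Lib.MP_2619d0_ag Pool.Agent.Lib.MP_2619d0_ag.T

private theorem S6a_pow {A : Type*} [Field A] (p : A[X]) (hp : p ≠ 0) (x : A) (k : ℕ) :
    (p ^ k).rootMultiplicity x = k * p.rootMultiplicity x := by
  induction k with
  | zero => rw [pow_zero, zero_mul, ← C_1, rootMultiplicity_C]
  | succ k ih =>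
    rw [pow_succ, rootMultiplicity_mul (mul_ne_zero (pow_ne_zero k hp) hp), ih]
    ring

/-- The multiplicity of `x` in `f` is the exponent of the minimal polynomial. -/
private theorem S6a_mult {N A : Type*} [Field N] [Field A] [Algebra N A] [CharZero N] (μ g : N[X]) (k : ℕ)
    (x : A) (hx : IsIntegral N x) (hμ : minpoly N x = μ) (hg : ¬ μ ∣ g) :
    ((μ ^ k * g).map (algebraMap N A)).rootMultiplicity x = k := by
  have hirr : Irreducible μ := hμ ▸ minpoly.irreducible hx
  have hg0 : g ≠ 0 := by
    rintro rfl
    exact hg (dvd_zero μ)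
  have hμ0 : μ.map (algebraMap N A) ≠ 0 := (Polynomial.map_ne_zero_iff (algebraMap N A).injective).2 hirr.ne_zero
  have hg1 : g.map (algebraMap N A) ≠ 0 := (Polynomial.map_ne_zero_iff (algebraMap N A).injective).2 hg0
  rw [Polynomial.map_mul, Polynomial.map_pow, rootMultiplicity_mul (mul_ne_zero (pow_ne_zero k hμ0) hg1),
    S6a_pow _ hμ0]
  have h1 : (μ.map (algebraMap N A)).rootMultiplicity x = 1 := by
    have hroot : (μ.map (algebraMap N A)).IsRoot x := by
      rw [IsRoot.def, eval_map_algebraMap, ← hμ]
      exact minpoly.aeval N x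
    have h2 : 0 < (μ.map (algebraMap N A)).rootMultiplicity x := (rootMultiplicity_pos hμ0).2 hroot
    have h3 := rootMultiplicity_le_one_of_separable (hirr.separable.map (f := algebraMap N A)) x
    omega
  have h2 : (g.map (algebraMap N A)).rootMultiplicity x = 0 := by
    refine rootMultiplicity_eq_zero fun h => hg ?_
    rw [IsRoot.def, eval_map_algebraMap] at h
    rw [← hμ]
    exact minpoly.dvd N x h
  rw [h1, h2, mul_one, add_zero]

/-- Conjugate elements have the same multiplicity as roots of a polynomial over `N`. Proof: `f = μ^k g`, `μ = minpoly N a`, `μ ∤ g`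
(`exists_eq_pow_rootMultiplicity...`, `FiniteMultiplicity`/`emultiplicity`; `μ` irreducible). `μ` is separable (characteristic zero),
so the multiplicity of `a` in `μ.map` is one; `g(a) ≠ 0` (`minpoly.dvd`). So the multiplicity of `a` in `f.map` is `k`; the
same for `a'`. -/
theorem mult_conj {N A : Type*} [Field N] [Field A] [Algebra N A] [CharZero N] (f : N[X]) (hf : f ≠ 0)
    (a a' : A) (ha : IsAlgebraic N a) (h : minpoly N a = minpoly N a') :
    (f.map (algebraMap N A)).rootMultiplicity a = (f.map (algebraMap N A)).rootMultiplicity a' := by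
  have hi : IsIntegral N a := ha.isIntegral
  have hi' : IsIntegral N a' := by
    by_contra hn
    exact minpoly.ne_zero hi (h.trans (minpoly.eq_zero hn))
  have hfin : FiniteMultiplicity (minpoly N a) f :=
    FiniteMultiplicity.of_not_isUnit (minpoly.irreducible hi).not_isUnit hf
  obtain ⟨g, hg, hg'⟩ := hfin.exists_eq_pow_mul_and_not_dvd
  rw [hg, S6a_mult (minpoly N a) g _ a hi rfl hg', S6a_mult (minpoly N a) g _ a' hi' h.symm hg']

end MP2619.Q5
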