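import Pool.Agent.Lib.MP_2619d0_ag.Q5.S0
import Pool.Agent.Lib.MP_2619d0_ag.N.A5

/-!
# Q5, row S6b: `∏_τ (Z - τ g)` has coefficients in `K`
-/

set_option autoImplicit false

namespace MP2619.Q5

open scoped NNReal
open Polynomial IntermediateField MP2619.R MP2619.N Pool.Agent.Lib.MP_2619d0_ag Pool.Agent.Lib.MP_2619d0_ag.T

private theorem S6b_eval {K M A : Type*} [Field K] [Field M] [Field A] [Algebra K M] [Algebra K A] [CharZero K]
    [FiniteDimensional K M] [IsAlgClosed A] [Fintype (M →ₐ[K] A)] (g : M) (c : K) :
    (∏ τ : M →ₐ[K] A, (X - C (τ g))).eval (algebraMap K A c) =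
      ((Algebra.leftMulMatrix (Module.finBasis K M) g).charpoly.map (algebraMap K A)).eval (algebraMap K A c) := by
  have h1 : ((Algebra.leftMulMatrix (Module.finBasis K M) g).charpoly).eval c =
      Algebra.norm K (algebraMap K M c - g) := by
    rw [Matrix.eval_charpoly, Algebra.norm_eq_matrix_det (Module.finBasis K M), map_sub]
    congr 2
    rw [AlgHom.commutes]
    rfl
  rw [eval_map, eval₂_hom, h1, Algebra.norm_eq_prod_embeddings K A, eval_prod]
  refine Finset.prod_congr (by ext; simp) fun τ _ => ?_
  rw [eval_sub, eval_X, eval_C, map_sub, AlgHom.commutes]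

/-- `∏_τ (Z - τ g)` has coefficients in `K`. Proof: as `chi_emb` in N/A5.lean (simpler): the polynomial is invariant under the
automorphisms of the relative algebraic closure of `K` in `A` over `K` (they permute the embeddings), which is Galois over
`K`, and has coefficients there; or: it is the image of the characteristic polynomial / a power of the minimal polynomial
of `g` (each embedding of `K(g)` has `[M : K(g)]` extensions). -/
theorem chi_lifts {K M A : Type*} [Field K] [Field M] [Field A] [Algebra K M] [Algebra K A] [CharZero K]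
    [FiniteDimensional K M] [IsAlgClosed A] [Fintype (M →ₐ[K] A)] (g : M) :
    (∏ τ : M →ₐ[K] A, (X - C (τ g))) ∈ Polynomial.lifts (algebraMap K A) := by
  have h : (∏ τ : M →ₐ[K] A, (X - C (τ g))) =
      (Algebra.leftMulMatrix (Module.finBasis K M) g).charpoly.map (algebraMap K A) := by
    refine Polynomial.eq_of_infinite_eval_eq _ _ ?_
    refine (Set.infinite_range_of_injective (algebraMap K A).injective).mono ?_
    rintro _ ⟨c, rfl⟩
    exact S6b_eval g c
  rw [h]
  exact ⟨_, rfl⟩

end MP2619.Q5
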