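import Pool.Agent.Lib.MP_2619d0_ag.Q5.S0

/-!
# Q5, row S6c: a separating element of `P`
-/

set_option autoImplicit false

namespace MP2619.Q5

open scoped NNReal
open Polynomial IntermediateField MP2619.R MP2619.N Pool.Agent.Lib.MP_2619d0_ag Pool.Agent.Lib.MP_2619d0_ag.T

/-- An element of `P` which is not in the other valuation rings and is separated by the homomorphisms. Proof: `P` is a vector
space over the infinite field `N`; for `Q ∈ S` the elements of `P` in `Q` form a proper subspace; for `s ≠ s'` in `T` the elements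
with `s g = s' g` form a proper subspace. Finitely many proper subspaces do not cover. -/
theorem exists_sep {N M A : Type*} [Field N] [CharZero N] [Field M] [Field A] [Algebra N M] [Algebra N A]
    (P : ValuationSubring M) (hP : Cst N P) (S : Finset (ValuationSubring M))
    (hS : ∀ Q ∈ S, Cst N Q ∧ ∃ m ∈ P, m ∉ Q) (T : Finset (P →+* A))
    (hT : ∀ s ∈ T, ∀ b : N, s ⟨algebraMap N M b, hP b⟩ = algebraMap N A b) :
    ∃ g : P, (∀ Q ∈ S, (g : M) ∉ Q) ∧ ∀ s ∈ T, ∀ s' ∈ T, s g = s' g → s = s' := by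
  classical
  let _ : Algebra N P := ((algebraMap N M).codRestrict P hP).toAlgebra
  have hsm : ∀ (b : N) (g : P), b • g = ⟨algebraMap N M b, hP b⟩ * g := fun b g => Algebra.smul_def b g
  -- the subspaces for the valuation rings
  let U : ∀ Q : ValuationSubring M, Cst N Q → Submodule N P := fun Q hQ =>
    { carrier := {g | (g : M) ∈ Q}
      add_mem' := fun {a b} ha hb => Q.add_mem _ _ ha hb
      zero_mem' := Q.zero_mem
      smul_mem' := fun b g hg => by
        rw [hsm]
        exact Q.mul_mem _ _ (hQ b) hg }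
  have hU : ∀ (Q : ValuationSubring M) (hQ : Cst N Q) (g : P), g ∈ U Q hQ ↔ (g : M) ∈ Q :=
    fun Q hQ g => Iff.rfl
  let W : ∀ s s' : P →+* A, (∀ b : N, s ⟨algebraMap N M b, hP b⟩ = s' ⟨algebraMap N M b, hP b⟩) →
      Submodule N P := fun s s' h =>
    { carrier := {g | s g = s' g}
      add_mem' := fun {a b} ha hb => by
        change s (a + b) = s' (a + b)
        rw [map_add, map_add, ha, hb]
      zero_mem' := by
        change s 0 = s' 0
        rw [map_zero, map_zero]
      smul_mem' := fun b g hg => by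
        change s (b • g) = s' (b • g)
        rw [hsm, map_mul, map_mul, hg, h b] }
  have hW : ∀ (s s' : P →+* A) (h) (g : P), g ∈ W s s' h ↔ s g = s' g := fun s s' h g => Iff.rfl
  let F1 : Finset (Submodule N P) := S.attach.image fun Q => U Q.1 (hS Q.1 Q.2).1
  let F2 : Finset (Submodule N P) := ((T.attach ×ˢ T.attach).filter fun x => x.1.1 ≠ x.2.1).image
    fun x => W x.1.1 x.2.1 fun b => by rw [hT _ x.1.2, hT _ x.2.2]
  have htop : (⊤ : Submodule N P) ∉ F1 ∪ F2 := by
    intro h
    rcases Finset.mem_union.1 h with h | h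
    · obtain ⟨Q, -, hQ⟩ := Finset.mem_image.1 h
      obtain ⟨m, hm, hmQ⟩ := (hS Q.1 Q.2).2
      have h1 : (⟨m, hm⟩ : P) ∈ U Q.1 (hS Q.1 Q.2).1 := by
        rw [hQ]
        exact Submodule.mem_top
      exact hmQ h1
    · obtain ⟨x, hx, hx'⟩ := Finset.mem_image.1 h
      apply (Finset.mem_filter.1 hx).2
      ext g
      have h1 : g ∈ W x.1.1 x.2.1 fun b => by rw [hT _ x.1.2, hT _ x.2.2] := by
        rw [hx']
        exact Submodule.mem_top
      exact h1
  have hcov := Subspace.biUnion_ne_univ_of_top_notMem (s := F1 ∪ F2) htop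
  obtain ⟨g, hg⟩ := (Set.ne_univ_iff_exists_notMem _).1 hcov
  simp only [Set.mem_iUnion, not_exists] at hg
  refine ⟨g, fun Q hQ hgQ => ?_, fun s hs s' hs' h => ?_⟩
  · exact hg (U Q (hS Q hQ).1) (Finset.mem_union_left _ (Finset.mem_image.2 ⟨⟨Q, hQ⟩, Finset.mem_attach _ _, rfl⟩)) hgQ
  · by_contra hne
    exact hg (W s s' fun b => by rw [hT _ hs, hT _ hs']) (Finset.mem_union_right _ (Finset.mem_image.2
      ⟨(⟨s, hs⟩, ⟨s', hs'⟩), Finset.mem_filter.2 ⟨Finset.mem_product.2 ⟨Finset.mem_attach _ _,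
        Finset.mem_attach _ _⟩, hne⟩, rfl⟩)) h

end MP2619.Q5
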