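import Pool.Agent.Lib.MP_2619d0_ag.Q5.S3
import Pool.Agent.Lib.MP_2619d0_ag.Q5.S4
import Pool.Agent.Lib.MP_2619d0_ag.Q5.S5
import Pool.Agent.Lib.MP_2619d0_ag.Q5.S6a
import Pool.Agent.Lib.MP_2619d0_ag.Q5.S6b
import Pool.Agent.Lib.MP_2619d0_ag.Q5.S6c

/-!
# Q5, row S6: the number of the embeddings inducing `σ` does not depend on `σ`
-/

set_option autoImplicit false

namespace MP2619.Q5

open scoped NNReal
open Polynomial IntermediateField MP2619.R MP2619.N Pool.Agent.Lib.MP_2619d0_ag Pool.Agent.Lib.MP_2619d0_ag.T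

variable {N K M A : Type*} [Field N] [Field K] [Field M] [Field A] [Algebra N K] [Algebra K M]
  [Algebra N M] [Algebra K A] [Algebra N A] [IsScalarTower N K M] [IsScalarTower N K A] [CharZero N]
  [FiniteDimensional K M] [IsAlgClosed A]

private theorem S6_unit {M : Type*} [Field M] {P : ValuationSubring M} (W' : Valuation M ℝ≥0)
    (hle : ∀ m ∈ P, W' m ≤ 1) (η : M) (hη : P.valuation η = 1) : W' η = 1 := by
  have h0 : η ≠ 0 := by
    rintro rfl
    rw [map_zero] at hη
    exact zero_ne_one hη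
  have h1 : W' η ≤ 1 := hle η ((P.valuation_le_one_iff _).1 hη.le)
  have h2 : W' η⁻¹ ≤ 1 := hle η⁻¹ ((P.valuation_le_one_iff _).1 (by rw [map_inv₀, hη, inv_one]))
  rw [map_inv₀] at h2
  have h3 : W' η ≠ 0 := (Valuation.ne_zero_iff _).2 h0
  refine le_antisymm h1 ?_
  exact (inv_le_one₀ (zero_lt_iff.2 h3)).1 h2

private theorem S6_max {M : Type*} [Field M] {P : ValuationSubring M} (hdv : DV P) (W' : Valuation M ℝ≥0)
    (hle : ∀ m ∈ P, W' m ≤ 1) (eM : M) (he0 : eM ≠ 0) (hW : W' eM < 1) (m : M) (hm : W' m ≤ 1) :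
    m ∈ P := by
  obtain ⟨ϖ, h0, h1, h2⟩ := hdv
  have hϖ : W' ϖ < 1 := by
    refine lt_of_le_of_ne (hle ϖ ((P.valuation_le_one_iff _).1 h1.le)) fun h3 => ?_
    obtain ⟨k, η, hη, hk⟩ := h2 eM he0
    rw [hk, map_mul, map_zpow₀, h3, one_zpow, mul_one, S6_unit W' hle η hη] at hW
    exact lt_irrefl _ hW
  by_cases hm0 : m = 0
  · rw [hm0]
    exact P.zero_mem
  obtain ⟨k, η, hη, rfl⟩ := h2 m hm0
  rw [map_mul, map_zpow₀, S6_unit W' hle η hη, one_mul] at hm
  have hϖ0 : 0 < W' ϖ := zero_lt_iff.2 ((Valuation.ne_zero_iff _).2 h0)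
  have hk : 0 ≤ k := by
    by_contra hk
    obtain ⟨n, hn⟩ : ∃ n : ℕ, k = -((n : ℤ) + 1) := ⟨(-k - 1).toNat, by omega⟩
    have h4 : W' ϖ ^ (n + 1) < 1 := pow_lt_one₀ zero_le hϖ (Nat.succ_ne_zero n)
    have h5 : W' ϖ ^ k = (W' ϖ ^ (n + 1))⁻¹ := by
      rw [hn, zpow_neg]
      congr 1
    rw [h5] at hm
    exact absurd ((inv_le_one₀ (pow_pos hϖ0 _)).1 hm) (not_le.2 h4)
  obtain ⟨n, rfl⟩ := Int.eq_ofNat_of_zero_le hk
  refine (P.valuation_le_one_iff _).1 ?_
  rw [map_mul, hη, one_mul, zpow_natCast, map_pow]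
  exact pow_le_one₀ zero_le h1.le

private theorem S6_tau (τ : M →ₐ[K] A) (b : N) : τ (algebraMap N M b) = algebraMap N A b := by
  rw [IsScalarTower.algebraMap_apply N K M, τ.commutes, ← IsScalarTower.algebraMap_apply N K A]

private theorem S6_alg (P : ValuationSubring M) (hc : Cst N P)
    (hfin : Module.finrank (rc hc).fieldRange (IsLocalRing.ResidueField P) ≠ 0)
    (x : IsLocalRing.ResidueField P) : ∃ q : N[X], q ≠ 0 ∧ q.eval₂ (rc hc) x = 0 := by
  have hfd : FiniteDimensional (rc hc).fieldRange (IsLocalRing.ResidueField P) :=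
    Module.finite_of_finrank_pos (Nat.pos_of_ne_zero hfin)
  have h1 : IsAlgebraic (rc hc).fieldRange x := Algebra.IsAlgebraic.isAlgebraic x
  obtain ⟨p, hp, hpx⟩ := h1
  obtain ⟨q, hq⟩ := Polynomial.map_surjective (rc hc).rangeRestrictField
    (RingHom.rangeRestrictField_bijective (rc hc)).2 p
  refine ⟨q, fun h => hp (by rw [← hq, h, Polynomial.map_zero]), ?_⟩
  rw [← hq, Polynomial.aeval_def, Polynomial.eval₂_map] at hpx
  exact hpx

private theorem S6_mult {A : Type*} [Field A] {I : Type*} (S : Finset I) (b : I → A) (c : A)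
    (hc : c ≠ 0) (a : A) [DecidableEq A] :
    (C c * ∏ i ∈ S, (X - C (b i))).rootMultiplicity a = (S.filter fun i => a = b i).card := by
  have e1 : ∏ i ∈ S, (X - C (b i)) = ((S.val.map b).map fun x => X - C x).prod := by
    rw [Multiset.map_map]
    rfl
  rw [← Polynomial.count_roots, Polynomial.roots_C_mul _ hc, e1, Polynomial.roots_multiset_prod_X_sub_C,
    Multiset.count_map]
  rfl

/-- The number of the embeddings which induce `σ` does not depend on `σ`. Proof. For `τ : M →ₐ[K] A` let `P_τ = {m | W (τ m) ≤ 1}`. The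
set of all `τ` is finite; the set of all `s : κ(P) →+* A` over `N` is finite (`card_res`, `count_place`). `P_τ ⊇ P` implies `P_τ = P`
(`DV P`: if `m ∈ P_τ`, `m ∉ P` then `m = η ϖ^(-k)`, `k > 0`, so `ϖ⁻¹ ∈ P_τ`, so `e⁻¹ ∈ P_τ`; but `W (τ e) = W e < 1`). Take `g ∈ P` by `exists_sep` for
the `P_τ ≠ P` (they contain `N`) and the set of all `s ∘ residue`. Then for every `s` over `N`: `{τ | ∀ m : P, W (τ m) ≤ 1 ∧ lam (τ m) =
s (residue m)} = {τ | W (τ g) ≤ 1 ∧ lam (τ g) = s (residue g)}`: if `W (τ g) ≤ 1` then `P_τ = P`, and `lam ∘ τ` on `P` has kernel the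
maximal ideal, so it is `s' ∘ residue` for an `s'` over `N`, `s' = s` by separation. By `chi_lifts`, `exists_prim` (with `E = N`, `e` in
`A`, `lifts (algebraMap K A)` = `lifts (algebraMap (adjoin N {e}) A)` as `K = N(e)`) and `roots_sp` there is `f0 ∈ N[Z]`, `f0.map = c0
∏_(W (τ g) ≤ 1) (Z - lam (τ g))`, `c0 ≠ 0`; the number of the `τ` with `W (τ g) ≤ 1`, `lam (τ g) = a` is the multiplicity of `a` as root. `σ ḡ` and `σ' ḡ`
have the same minimal polynomial over `N` (the one of `ḡ`; `minpoly.algHom_eq`), algebraic since `κ(P)` is finite over `N`.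
`mult_conj`. -/
theorem const_spec (e : K) (hK : adjoin N {e} = ⊤) (W : Valuation A ℝ≥0) (lam : A → A)
    (hS : Sp N W (algebraMap K A e) lam) (P : ValuationSubring M) (hc : Cst N P)
    (he : P.valuation (algebraMap K M e) < 1) (σ σ' : IsLocalRing.ResidueField P →+* A)
    (hσ : ∀ b, σ (rc hc b) = algebraMap N A b) (hσ' : ∀ b, σ' (rc hc b) = algebraMap N A b) :
    Nat.card {τ : M →ₐ[K] A // ∀ m : P, W (τ m) ≤ 1 ∧ lam (τ m) = σ (IsLocalRing.residue P m)} =
      Nat.card {τ : M →ₐ[K] A // ∀ m : P, W (τ m) ≤ 1 ∧ lam (τ m) = σ' (IsLocalRing.residue P m)} := by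
  classical
  have hcK : CharZero K := charZero_of_injective_algebraMap (algebraMap N K).injective
  have hcA : CharZero A := charZero_of_injective_algebraMap (algebraMap N A).injective
  have he0 : e ≠ 0 := fun h => hS.ne (by rw [h, map_zero])
  have heM0 : algebraMap K M e ≠ 0 := fun h => he0 ((map_eq_zero _).1 h)
  obtain ⟨hdv, hfin, -⟩ := count_place e hK W hS.triv hS.pos he0 P hc he
  have hfinσ : Finite {s : IsLocalRing.ResidueField P →+* A // ∀ b, s (rc hc b) = algebraMap N A b} := by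
    refine Nat.finite_of_card_ne_zero ?_
    rw [card_res (rc hc) hfin]
    exact hfin
  have hfinτ : Finite (M →ₐ[K] A) := inferInstance
  letI : Fintype (M →ₐ[K] A) := Fintype.ofFinite _
  letI : Fintype {s : IsLocalRing.ResidueField P →+* A // ∀ b, s (rc hc b) = algebraMap N A b} :=
    Fintype.ofFinite _
  have hWe : ∀ τ : M →ₐ[K] A, (W.comap τ.toRingHom) (algebraMap K M e) < 1 := fun τ => by
    have h1 : (W.comap τ.toRingHom) (algebraMap K M e) = W (algebraMap K A e) := congrArg W (τ.commutes e)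
    rw [h1]
    exact hS.pos
  -- maximality
  have hmax : ∀ τ : M →ₐ[K] A, (∀ m ∈ P, W (τ m) ≤ 1) → (W.comap τ.toRingHom).valuationSubring = P := by
    intro τ hτ
    ext m
    constructor
    · intro hm
      exact S6_max hdv (W.comap τ.toRingHom) hτ _ heM0 (hWe τ) m hm
    · intro hm
      exact hτ m hm
  obtain ⟨g, hg1, hg2⟩ := exists_sep (N := N) P hc
    ((Finset.univ.image fun τ : M →ₐ[K] A => (W.comap τ.toRingHom).valuationSubring).filter fun Q => Q ≠ P)
    (by
      intro Q hQ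
      rw [Finset.mem_filter, Finset.mem_image] at hQ
      obtain ⟨⟨τ, -, rfl⟩, hne⟩ := hQ
      refine ⟨fun b => ?_, ?_⟩
      · show W (τ (algebraMap N M b)) ≤ 1
        rw [S6_tau]
        exact hS.le_one b
      · by_contra hcon
        refine hne (hmax τ fun m hm => ?_)
        by_contra hm'
        exact hcon ⟨m, hm, hm'⟩)
    (Finset.univ.image fun s : {s : IsLocalRing.ResidueField P →+* A // ∀ b, s (rc hc b) = algebraMap N A b} =>
      s.1.comp (IsLocalRing.residue P))
    (by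
      intro s hs b
      obtain ⟨s, -, rfl⟩ := Finset.mem_image.1 hs
      exact s.2 b)
  -- the embeddings with `g` in their ring
  have hring : ∀ τ : M →ₐ[K] A, W (τ g) ≤ 1 → ∀ m : P, W (τ m) ≤ 1 := by
    intro τ hτ m
    have h1 : (W.comap τ.toRingHom).valuationSubring = P := by
      by_contra hne
      exact hg1 _ (Finset.mem_filter.2 ⟨Finset.mem_image.2 ⟨τ, Finset.mem_univ _, rfl⟩, hne⟩) hτ
    have h2 : (m : M) ∈ (W.comap τ.toRingHom).valuationSubring := by
      rw [h1]
      exact m.2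
    exact h2
  have hring' : ∀ τ : M →ₐ[K] A, W (τ g) ≤ 1 → ∀ m : M, W (τ m) ≤ 1 → m ∈ P := by
    intro τ hτ m hm
    have h1 : (W.comap τ.toRingHom).valuationSubring = P := by
      by_contra hne
      exact hg1 _ (Finset.mem_filter.2 ⟨Finset.mem_image.2 ⟨τ, Finset.mem_univ _, rfl⟩, hne⟩) hτ
    rw [← h1]
    exact hm
  have hres : ∀ τ : M →ₐ[K] A, W (τ g) ≤ 1 →
      ∃ s' : IsLocalRing.ResidueField P →+* A, (∀ b, s' (rc hc b) = algebraMap N A b) ∧
        ∀ m : P, s' (IsLocalRing.residue P m) = lam (τ m) := by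
    intro τ hτ
    let h : P →+* A :=
      { toFun := fun m => lam (τ m)
        map_one' := by
          have h1 := hS.fix 1
          rw [map_one] at h1
          show lam (τ ((1 : P) : M)) = 1
          rw [OneMemClass.coe_one, map_one, h1]
        map_zero' := by
          have h1 := hS.fix 0
          rw [map_zero] at h1
          show lam (τ ((0 : P) : M)) = 0
          rw [ZeroMemClass.coe_zero, map_zero, h1]
        map_mul' := fun a b => by
          show lam (τ ((a * b : P) : M)) = lam (τ a) * lam (τ b)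
          rw [← hS.mul _ _ (hring τ hτ a) (hring τ hτ b), ← map_mul]
          rfl
        map_add' := fun a b => by
          show lam (τ ((a + b : P) : M)) = lam (τ a) + lam (τ b)
          rw [← hS.add _ _ (hring τ hτ a) (hring τ hτ b), ← map_add]
          rfl }
    have hloc : IsLocalHom h := by
      constructor
      intro m hm
      have h1 : lam (τ m) ≠ 0 := hm.ne_zero
      have h2 : W (τ m) = 1 :=
        le_antisymm (hring τ hτ m) (not_lt.1 fun h3 => h1 ((hS.zero _ (hring τ hτ m)).2 h3))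
      have h3 : (m : M) ≠ 0 := by
        intro h4
        rw [h4, map_zero, map_zero] at h2
        exact zero_ne_one h2
      have h4 : ((m : M)⁻¹) ∈ P := hring' τ hτ _ (by rw [map_inv₀, map_inv₀, h2, inv_one])
      exact IsUnit.of_mul_eq_one ⟨(m : M)⁻¹, h4⟩ (Subtype.ext (mul_inv_cancel₀ h3))
    refine ⟨IsLocalRing.ResidueField.lift h, fun b => ?_, fun m => ?_⟩
    · show IsLocalRing.ResidueField.lift h (IsLocalRing.residue P ⟨algebraMap N M b, hc b⟩) = _
      rw [IsLocalRing.ResidueField.lift_residue_apply]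
      show lam (τ (algebraMap N M b)) = _
      rw [S6_tau, hS.fix]
    · rw [IsLocalRing.ResidueField.lift_residue_apply]
      rfl
  have hiff : ∀ s : IsLocalRing.ResidueField P →+* A, (∀ b, s (rc hc b) = algebraMap N A b) →
      ∀ τ : M →ₐ[K] A, (∀ m : P, W (τ m) ≤ 1 ∧ lam (τ m) = s (IsLocalRing.residue P m)) ↔
        (W (τ g) ≤ 1 ∧ s (IsLocalRing.residue P g) = lam (τ g)) := by
    intro s hs τ
    constructor
    · intro h
      exact ⟨(h g).1, (h g).2.symm⟩
    · rintro ⟨h1, h2⟩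
      obtain ⟨s', hs', hs''⟩ := hres τ h1
      have h3 := hg2 (s'.comp (IsLocalRing.residue P))
        (Finset.mem_image.2 ⟨⟨s', hs'⟩, Finset.mem_univ _, rfl⟩)
        (s.comp (IsLocalRing.residue P))
        (Finset.mem_image.2 ⟨⟨s, hs⟩, Finset.mem_univ _, rfl⟩) (by
          show s' (IsLocalRing.residue P g) = s (IsLocalRing.residue P g)
          rw [hs'', h2])
      intro m
      refine ⟨hring τ h1 m, ?_⟩
      rw [← hs'']
      exact DFunLike.congr_fun h3 m
  -- the polynomial
  have hF0 : (∏ τ : M →ₐ[K] A, (X - C (τ (g : M)))) ≠ 0 :=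
    Finset.prod_ne_zero_iff.2 fun τ _ => Polynomial.X_sub_C_ne_zero _
  have hrange : ∀ x : K, algebraMap K A x ∈ adjoin N {algebraMap K A e} := by
    intro x
    have h1 : x ∈ adjoin N {e} := by
      rw [hK]
      exact mem_top
    have h2 : (adjoin N {e}).map (IsScalarTower.toAlgHom N K A) = adjoin N {algebraMap K A e} := by
      rw [adjoin_map, Set.image_singleton]
      rfl
    rw [← h2]
    exact ⟨x, h1, rfl⟩
  have hlift : (∏ τ : M →ₐ[K] A, (X - C (τ (g : M)))) ∈
      Polynomial.lifts (algebraMap (adjoin N {algebraMap K A e}) A) := by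
    have h1 := chi_lifts (K := K) (A := A) (g : M)
    rw [Polynomial.lifts_iff_coeff_lifts] at h1 ⊢
    intro n
    obtain ⟨x, hx⟩ := h1 n
    exact ⟨⟨algebraMap K A x, hrange x⟩, hx⟩
  obtain ⟨f, c, hc0, hf, hfc⟩ := exists_prim (algebraMap K A e) hS.ne _ hF0 hlift
  obtain ⟨c0, hc1, hfc0⟩ := roots_sp hS f hf (fun τ : M →ₐ[K] A => τ (g : M)) c hfc
  have hmap : (f.map (evalRingHom 0)).map (algebraMap N A) =
      C c0 * ∏ τ ∈ Finset.univ.filter (fun τ : M →ₐ[K] A => W (τ g) ≤ 1), (X - C (lam (τ g))) := by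
    rw [Polynomial.map_map]
    exact hfc0
  have hcount : ∀ s : IsLocalRing.ResidueField P →+* A, (∀ b, s (rc hc b) = algebraMap N A b) →
      Nat.card {τ : M →ₐ[K] A // ∀ m : P, W (τ m) ≤ 1 ∧ lam (τ m) = s (IsLocalRing.residue P m)} =
        ((f.map (evalRingHom 0)).map (algebraMap N A)).rootMultiplicity (s (IsLocalRing.residue P g)) := by
    intro s hs
    rw [hmap, S6_mult _ _ _ hc1, Finset.filter_filter, Nat.card_congr (Equiv.subtypeEquivRight (hiff s hs)),
      Nat.card_eq_fintype_card, Fintype.card_subtype]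
  rw [hcount σ hσ, hcount σ' hσ']
  letI : Algebra N (IsLocalRing.ResidueField P) := (rc hc).toAlgebra
  have halg : ∀ s : IsLocalRing.ResidueField P →+* A, (∀ b, s (rc hc b) = algebraMap N A b) →
      IsAlgebraic N (s (IsLocalRing.residue P g)) ∧
        minpoly N (s (IsLocalRing.residue P g)) = minpoly N (IsLocalRing.residue P g) := by
    intro s hs
    constructor
    · obtain ⟨q, hq, hq0⟩ := S6_alg P hc hfin (IsLocalRing.residue P g)
      refine ⟨q, hq, ?_⟩
      have h1 : s.comp (rc hc) = algebraMap N A := RingHom.ext hs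
      rw [Polynomial.aeval_def, ← h1, ← Polynomial.hom_eval₂, hq0, map_zero]
    · exact minpoly.algHom_eq (⟨s, hs⟩ : IsLocalRing.ResidueField P →ₐ[N] A) s.injective _
  exact mult_conj _ hf _ _ (halg σ hσ).1 ((halg σ hσ).2.trans (halg σ' hσ').2.symm)


end MP2619.Q5
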