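import Pool.Agent.Lib.MP_2619d0_ag.Q5.S4
import Pool.Agent.Lib.MP_2619d0_ag.Q5.S5
import Pool.Agent.Lib.MP_2619d0_ag.Q5.S6

/-!
# Q5, row S7: refined place count
-/

set_option autoImplicit false

namespace MP2619.Q5

open scoped NNReal
open Polynomial IntermediateField MP2619.R MP2619.N Pool.Agent.Lib.MP_2619d0_ag Pool.Agent.Lib.MP_2619d0_ag.T

variable {N K M A : Type*} [Field N] [Field K] [Field M] [Field A] [Algebra N K] [Algebra K M]
  [Algebra N M] [Algebra K A] [Algebra N A] [IsScalarTower N K M] [IsScalarTower N K A] [CharZero N]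
  [FiniteDimensional K M] [IsAlgClosed A]

/-- an element outside of `P` is not in the valuation ring of `τ` -/
private theorem S7_inv {e : K} {W : Valuation A ℝ≥0} {lam : A → A} (hS : Sp N W (algebraMap K A e) lam)
    {P : ValuationSubring M} {s : IsLocalRing.ResidueField P →+* A} {τ : M →ₐ[K] A}
    (hτ : ∀ m : P, W (τ m) ≤ 1 ∧ lam (τ m) = s (IsLocalRing.residue P m)) (m : M) :
    W (τ m) ≤ 1 ↔ m ∈ P := by
  constructor
  · intro h
    by_contra hm
    have hm0 : m ≠ 0 := fun h0 => hm (h0 ▸ P.zero_mem)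
    have hi : m⁻¹ ∈ P := (P.mem_or_inv_mem m).resolve_left hm
    have hnu : (⟨m⁻¹, hi⟩ : P) ∈ IsLocalRing.maximalIdeal P := by
      rw [IsLocalRing.mem_maximalIdeal, mem_nonunits_iff]
      rintro ⟨u, hu⟩
      apply hm
      have h1 : ((u⁻¹ : Pˣ) : M) * m⁻¹ = 1 := by
        have h2 : ((u⁻¹ : Pˣ) : P) * ⟨m⁻¹, hi⟩ = 1 := by rw [← hu, Units.inv_mul]
        exact congrArg Subtype.val h2
      have h3 : ((u⁻¹ : Pˣ) : M) = m := by
        have := congrArg (· * m) h1
        simpa only [mul_assoc, inv_mul_cancel₀ hm0, mul_one, one_mul] using this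
      rw [← h3]
      exact ((u⁻¹ : Pˣ) : P).2
    obtain ⟨h1, h2⟩ := hτ ⟨m⁻¹, hi⟩
    rw [(IsLocalRing.residue_eq_zero_iff _).2 hnu, map_zero] at h2
    have h3 : W (τ m⁻¹) < 1 := (hS.zero _ h1).1 h2
    have h4 : W (τ m) * W (τ m⁻¹) = 1 := by
      rw [← map_mul, ← map_mul, mul_inv_cancel₀ hm0, map_one, map_one]
    have h5 : W (τ m) * W (τ m⁻¹) < 1 := mul_lt_one_of_nonneg_of_lt_one_right h zero_le h3
    exact absurd h4 h5.ne
  · intro h
    exact (hτ ⟨m, h⟩).1

/-- the homomorphism of the residue field induced by `τ` -/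
private theorem S7_ex {e : K} {W : Valuation A ℝ≥0} {lam : A → A} (hS : Sp N W (algebraMap K A e) lam)
    {P : ValuationSubring M} (hc : Cst N P) {τ : M →ₐ[K] A} (hτ : ∀ m : M, W (τ m) ≤ 1 ↔ m ∈ P) :
    ∃ s : IsLocalRing.ResidueField P →+* A, (∀ b, s (rc hc b) = algebraMap N A b) ∧
      ∀ m : P, W (τ m) ≤ 1 ∧ lam (τ m) = s (IsLocalRing.residue P m) := by
  let f : P →+* A := hS.hom.comp (((τ : M →+* A).comp P.subtype).codRestrict W.valuationSubring
    fun m => (W.mem_valuationSubring_iff _).2 ((hτ m).2 m.2))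
  have hf : ∀ m : P, f m = lam (τ m) := fun m => rfl
  have hk : ∀ m : P, m ∈ IsLocalRing.maximalIdeal P → f m = 0 := by
    intro m hm
    rw [hf, hS.zero _ ((hτ m).2 m.2)]
    by_cases hm0 : (m : M) = 0
    · rw [hm0, map_zero, map_zero]
      exact zero_lt_one
    · by_contra h
      have h1 : W (τ m) = 1 := le_antisymm ((hτ m).2 m.2) (not_lt.1 h)
      have h2 : W (τ m) * W (τ (m : M)⁻¹) = 1 := by
        rw [← map_mul, ← map_mul, mul_inv_cancel₀ hm0, map_one, map_one]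
      rw [h1, one_mul] at h2
      have h3 : (m : M)⁻¹ ∈ P := (hτ _).1 h2.le
      rw [IsLocalRing.mem_maximalIdeal, mem_nonunits_iff] at hm
      apply hm
      refine IsUnit.of_mul_eq_one ⟨(m : M)⁻¹, h3⟩ ?_
      exact Subtype.ext (mul_inv_cancel₀ hm0)
  refine ⟨Ideal.Quotient.lift _ f hk, fun b => ?_, fun m => ⟨(hτ m).2 m.2, ?_⟩⟩
  · show f ⟨algebraMap N M b, hc b⟩ = _
    rw [hf]
    show lam (τ (algebraMap N M b)) = _
    rw [IsScalarTower.algebraMap_apply N K M, τ.commutes, ← IsScalarTower.algebraMap_apply N K A, hS.fix]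
  · rfl

/-- Refined place count. Proof: the embeddings `τ` with `P_τ = P` are the disjoint union over the `s : κ(P) →+* A` over `N` of the `τ` which
induce `s` (`lam ∘ τ` on `P` has kernel the maximal ideal: it is `s ∘ residue`; conversely if `τ` induces `s` and `m ∉ P` then `m⁻¹` is in
the maximal ideal, `lam (τ m⁻¹) = 0`, `W (τ m⁻¹) < 1`). By `count_place`, `card_res`, `const_spec`: `f N_σ = ord · f`, `f ≠ 0`. -/
theorem place_spec (e : K) (hK : adjoin N {e} = ⊤) (W : Valuation A ℝ≥0) (lam : A → A)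
    (hS : Sp N W (algebraMap K A e) lam) (P : ValuationSubring M) (hc : Cst N P)
    (he : P.valuation (algebraMap K M e) < 1) (σ : IsLocalRing.ResidueField P →+* A)
    (hσ : ∀ b, σ (rc hc b) = algebraMap N A b) :
    Nat.card {τ : M →ₐ[K] A // ∀ m : P, W (τ m) ≤ 1 ∧ lam (τ m) = σ (IsLocalRing.residue P m)} =
      (ord P (algebraMap K M e)).toNat := by
  have he0 : e ≠ 0 := fun h0 => hS.ne (by rw [h0, map_zero])
  obtain ⟨-, hf, hcount⟩ := count_place (A := A) e hK W hS.triv hS.pos he0 P hc he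
  have hres := card_res (A := A) (rc hc) hf
  have hfin : Finite {s : IsLocalRing.ResidueField P →+* A // ∀ b, s (rc hc b) = algebraMap N A b} :=
    Nat.finite_of_card_ne_zero (by rw [hres]; exact hf)
  have hcard : Nat.card {τ : M →ₐ[K] A // ∀ m : M, W (τ m) ≤ 1 ↔ m ∈ P} =
      Nat.card (Σ s : {s : IsLocalRing.ResidueField P →+* A // ∀ b, s (rc hc b) = algebraMap N A b},
        {τ : M →ₐ[K] A // ∀ m : P, W (τ m) ≤ 1 ∧ lam (τ m) = s.1 (IsLocalRing.residue P m)}) := by
    symm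
    refine Nat.card_congr (Equiv.ofBijective
      (fun x => ⟨x.2.1, S7_inv hS x.2.2⟩) ⟨?_, ?_⟩)
    · rintro ⟨⟨s, hs⟩, τ, hτ⟩ ⟨⟨s', hs'⟩, τ', hτ'⟩ h
      have h1 : τ = τ' := congrArg Subtype.val h
      subst h1
      have h2 : s = s' := by
        refine RingHom.ext fun z => ?_
        obtain ⟨m, rfl⟩ := IsLocalRing.residue_surjective z
        rw [← (hτ m).2, ← (hτ' m).2]
      subst h2
      rfl
    · rintro ⟨τ, hτ⟩
      obtain ⟨s, h1, h2⟩ := S7_ex hS hc hτ
      exact ⟨⟨⟨s, h1⟩, τ, h2⟩, rfl⟩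
  have := Fintype.ofFinite {s : IsLocalRing.ResidueField P →+* A // ∀ b, s (rc hc b) = algebraMap N A b}
  rw [Nat.card_sigma, Finset.sum_congr rfl fun s _ => const_spec e hK W lam hS P hc he s.1 σ s.2 hσ,
    Finset.sum_const, Finset.card_univ, ← Nat.card_eq_fintype_card, hres, smul_eq_mul, hcount] at hcard
  rw [mul_comm] at hcard
  exact (Nat.eq_of_mul_eq_mul_left (Nat.pos_of_ne_zero hf) hcard).symm

end MP2619.Q5
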