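import Pool.Agent.Lib.MP_2619d0_ag.Q5.S7
import Pool.Agent.Lib.MP_2619d0_ag.N.A5
import Pool.Agent.Lib.MP_2619d0_ag.R.C4

/-!
# Q5, row S8: refined place count over `k1 = B(e)` with `τ z = u`
-/

set_option autoImplicit false

namespace MP2619.Q5

open scoped NNReal
open Polynomial IntermediateField MP2619.R MP2619.N Pool.Agent.Lib.MP_2619d0_ag Pool.Agent.Lib.MP_2619d0_ag.T

variable {B k1 M1 A : Type} [Field B] [Field k1] [Field M1] [Field A] [Algebra B k1] [Algebra k1 M1]
  [Algebra B M1] [Algebra k1 A] [Algebra B A] [IsScalarTower B k1 M1] [IsScalarTower B k1 A] [CharZero B]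
  [IsAlgClosed A]

omit [Algebra k1 A] [Algebra B A] [IsScalarTower B k1 A] [CharZero B] [IsAlgClosed A] [Field A] in
private theorem S8_sub {s : Set M1} (x : M1) (hx : x ∈ adjoin B s) : x ∈ adjoin k1 s := by
  have h : adjoin B s ≤ (adjoin k1 s).restrictScalars B := adjoin_le_iff.2 (subset_adjoin _ _)
  exact h hx

omit [CharZero B] [IsAlgClosed A] in
private theorem S8_iso {n : ℕ} (u : Fin n → A) (hu : AlgebraicIndependent k1 u) (z : Fin n → M1)
    (hz : AlgebraicIndependent k1 z) : ∃ j : adjoin k1 (Set.range z) →ₐ[k1] A,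
      ∀ i, j ⟨z i, subset_adjoin _ _ ⟨i, rfl⟩⟩ = u i := by
  refine ⟨(adjoin k1 (Set.range u)).val.comp
    (hz.aevalEquivField.symm.trans hu.aevalEquivField).toAlgHom, fun i => ?_⟩
  have h1 : hz.aevalEquivField (algebraMap (MvPolynomial (Fin n) k1)
      (FractionRing (MvPolynomial (Fin n) k1)) (MvPolynomial.X i)) =
      ⟨z i, subset_adjoin _ _ ⟨i, rfl⟩⟩ := by
    apply Subtype.ext
    rw [hz.aevalEquivField_algebraMap_apply_coe, MvPolynomial.aeval_X]
  have h2 : hz.aevalEquivField.symm ⟨z i, subset_adjoin _ _ ⟨i, rfl⟩⟩ =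
      algebraMap (MvPolynomial (Fin n) k1)
        (FractionRing (MvPolynomial (Fin n) k1)) (MvPolynomial.X i) := by
    rw [← h1, AlgEquiv.symm_apply_apply]
  change ((hu.aevalEquivField (hz.aevalEquivField.symm
    ⟨z i, subset_adjoin _ _ ⟨i, rfl⟩⟩) : adjoin k1 (Set.range u)) : A) = u i
  rw [h2, hu.aevalEquivField_algebraMap_apply_coe, MvPolynomial.aeval_X]

private theorem S8_main (e : k1) (hB : adjoin B {e} = ⊤) {n : ℕ} (u : Fin n → A)
    (W : Valuation A ℝ≥0) (lam : A → A)
    (hS : Sp (adjoin B (Set.range u)) W (algebraMap k1 A e) lam)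
    (z : Fin n → M1) (hfin : Module.finrank (adjoin k1 (Set.range z)) M1 ≠ 0)
    (j : adjoin k1 (Set.range z) →ₐ[k1] A)
    (hj : ∀ i, j ⟨z i, subset_adjoin _ _ ⟨i, rfl⟩⟩ = u i)
    (P : ValuationSubring M1) (hcN : ∀ x ∈ adjoin B (Set.range z), x ∈ P)
    (he : P.valuation (algebraMap k1 M1 e) < 1) :
    DV P ∧ ∀ σ : IsLocalRing.ResidueField P →+* A,
      (∀ (b : M1) (hb : b ∈ adjoin B (Set.range z)),
        σ (IsLocalRing.residue P ⟨b, hcN b hb⟩) = j ⟨b, S8_sub b hb⟩) →
      Nat.card {τ : M1 →ₐ[k1] A // (∀ i, τ (z i) = u i) ∧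
        ∀ m : P, W (τ m) ≤ 1 ∧ lam (τ m) = σ (IsLocalRing.residue P m)} =
        (ord P (algebraMap k1 M1 e)).toNat := by
  classical
  have hfd : FiniteDimensional (adjoin k1 (Set.range z)) M1 :=
    Module.finite_of_finrank_pos (Nat.pos_of_ne_zero hfin)
  let incl : adjoin B (Set.range z) →+* adjoin k1 (Set.range z) :=
    { toFun := fun b => ⟨(b : M1), S8_sub (b : M1) b.2⟩
      map_one' := rfl
      map_mul' := fun _ _ => rfl
      map_zero' := rfl
      map_add' := fun _ _ => rfl }
  let iNK : Algebra (adjoin B (Set.range z)) (adjoin k1 (Set.range z)) := incl.toAlgebra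
  let iKA : Algebra (adjoin k1 (Set.range z)) A := j.toRingHom.toAlgebra
  let iNA : Algebra (adjoin B (Set.range z)) A := (j.toRingHom.comp incl).toAlgebra
  have t1 : IsScalarTower (adjoin B (Set.range z)) (adjoin k1 (Set.range z)) M1 :=
    IsScalarTower.of_algebraMap_eq fun _ => rfl
  have t2 : IsScalarTower (adjoin B (Set.range z)) (adjoin k1 (Set.range z)) A :=
    IsScalarTower.of_algebraMap_eq fun _ => rfl
  have t3 : IsScalarTower k1 (adjoin k1 (Set.range z)) A :=
    IsScalarTower.of_algebraMap_eq fun x => (j.commutes x).symm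
  have hcz : CharZero (adjoin B (Set.range z)) :=
    charZero_of_injective_algebraMap (algebraMap B (adjoin B (Set.range z))).injective
  have hjB : ∀ b : B, j (algebraMap k1 _ (algebraMap B k1 b)) = algebraMap B A b := by
    intro b
    rw [j.commutes, ← IsScalarTower.algebraMap_apply]
  -- the generator
  let eK : adjoin k1 (Set.range z) := algebraMap k1 (adjoin k1 (Set.range z)) e
  have heKA : algebraMap (adjoin k1 (Set.range z)) A eK = algebraMap k1 A e := j.commutes e
  have hK : adjoin (adjoin B (Set.range z)) {eK} = ⊤ := by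
    have hB1 : ∀ b : B, algebraMap k1 (adjoin k1 (Set.range z)) (algebraMap B k1 b) ∈
        adjoin (adjoin B (Set.range z)) {eK} := by
      intro b
      have h1 : algebraMap k1 (adjoin k1 (Set.range z)) (algebraMap B k1 b) =
          algebraMap (adjoin B (Set.range z)) (adjoin k1 (Set.range z))
            (algebraMap B _ b) := by
        apply Subtype.ext
        show algebraMap k1 M1 (algebraMap B k1 b) = algebraMap B M1 b
        rw [← IsScalarTower.algebraMap_apply]
      rw [h1]
      exact IntermediateField.algebraMap_mem _ _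
    have hk : ∀ c : k1, algebraMap k1 (adjoin k1 (Set.range z)) c ∈
        adjoin (adjoin B (Set.range z)) {eK} := by
      intro c
      have hc : c ∈ adjoin B {e} := by rw [hB]; exact mem_top
      induction hc using adjoin_induction with
      | mem x hx =>
        rw [Set.mem_singleton_iff.1 hx]
        exact subset_adjoin _ _ rfl
      | algebraMap x => exact hB1 x
      | add x y _ _ hx hy => rw [map_add]; exact add_mem hx hy
      | inv x _ hx => rw [map_inv₀]; exact inv_mem hx
      | mul x y _ _ hx hy => rw [map_mul]; exact mul_mem hx hy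
    have hall : ∀ (x : M1) (hx : x ∈ adjoin k1 (Set.range z)),
        (⟨x, hx⟩ : adjoin k1 (Set.range z)) ∈ adjoin (adjoin B (Set.range z)) {eK} := by
      intro x hx
      induction hx using adjoin_induction with
      | mem x hx =>
        exact IntermediateField.algebraMap_mem (adjoin (adjoin B (Set.range z)) {eK})
          (⟨x, subset_adjoin _ _ hx⟩ : adjoin B (Set.range z))
      | algebraMap x => exact hk x
      | add x y h1 h2 hx hy => exact add_mem hx hy
      | inv x h1 hx => exact inv_mem hx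
      | mul x y h1 h2 hx hy => exact mul_mem hx hy
    exact eq_top_iff.2 fun x _ => hall x.1 x.2
  have hmem : ∀ (x : M1) (hx : x ∈ adjoin B (Set.range z)),
      j ⟨x, S8_sub x hx⟩ ∈ adjoin B (Set.range u) := by
    intro x hx
    induction hx using adjoin_induction with
    | mem x hx =>
      obtain ⟨i, rfl⟩ := hx
      rw [hj i]
      exact subset_adjoin _ _ ⟨i, rfl⟩
    | algebraMap x =>
      have h1 : (⟨algebraMap B M1 x, S8_sub _ (IntermediateField.algebraMap_mem _ x)⟩ :
          adjoin k1 (Set.range z)) = algebraMap k1 _ (algebraMap B k1 x) := by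
        apply Subtype.ext
        show algebraMap B M1 x = algebraMap k1 M1 (algebraMap B k1 x)
        rw [← IsScalarTower.algebraMap_apply]
      rw [h1, hjB]
      exact IntermediateField.algebraMap_mem _ _
    | add x y h1 h2 hx hy =>
      have h3 := add_mem hx hy
      rw [← map_add] at h3
      exact h3
    | inv x h1 hx =>
      have h3 := inv_mem hx
      rw [← map_inv₀] at h3
      exact h3
    | mul x y h1 h2 hx hy =>
      have h3 := mul_mem hx hy
      rw [← map_mul] at h3
      exact h3
  have hS' : Sp (adjoin B (Set.range z)) W (algebraMap (adjoin k1 (Set.range z)) A eK) lam := by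
    rw [heKA]
    exact hS.restrict fun b => ⟨⟨j ⟨(b : M1), S8_sub (b : M1) b.2⟩, hmem b b.2⟩, rfl⟩
  have hc' : Cst (adjoin B (Set.range z)) P := fun b => hcN b b.2
  have he' : P.valuation (algebraMap (adjoin k1 (Set.range z)) M1 eK) < 1 := he
  have he0 : eK ≠ 0 := by
    intro h0
    apply hS'.ne
    rw [h0, map_zero]
  obtain ⟨hDV, -, -⟩ := count_place eK hK W hS'.triv hS'.pos he0 P hc' he'
  refine ⟨hDV, fun σ hσ => ?_⟩
  have hcard := place_spec eK hK W lam hS' P hc' he' σ (fun b => hσ b b.2)
  have hcomm : ∀ τ : M1 →ₐ[k1] A, (∀ i, τ (z i) = u i) → ∀ a : adjoin k1 (Set.range z),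
      τ (algebraMap (adjoin k1 (Set.range z)) M1 a) = algebraMap (adjoin k1 (Set.range z)) A a := by
    intro τ hτ a
    have h : τ.comp (adjoin k1 (Set.range z)).val = j := by
      refine algHom_ext_of_eq_adjoin k1 rfl ?_
      rintro _ ⟨i, rfl⟩
      rw [hj i]
      exact hτ i
    exact DFunLike.congr_fun h a
  refine Eq.trans (Nat.card_congr
    ⟨fun τ => ⟨{ τ.1.toRingHom with commutes' := fun a => hcomm τ.1 τ.2.1 a }, τ.2.2⟩,
      fun s => ⟨s.1.restrictScalars k1, fun i => ?_, s.2⟩, fun τ => ?_, fun s => ?_⟩) hcard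
  · have h1 := s.1.commutes (⟨z i, subset_adjoin _ _ ⟨i, rfl⟩⟩ : adjoin k1 (Set.range z))
    change s.1 (z i) = j _ at h1
    rw [hj i] at h1
    exact h1
  · apply Subtype.ext
    ext a
    rfl
  · apply Subtype.ext
    ext a
    rfl

/-- Refined place count over the base `k1 = B(e)` with the condition `τ z = u`. Proof. `u` is algebraically independent over `B`, so the
residues of `z` are (apply `σ`), so `z` is (`indep_lift` in R/C4.lean), and `adj_small`: `N := adjoin B (range z) ⊂ P`, every non-zero
element of `N` is a unit of `P`. `e` is transcendental over `N` (`transc_adj`), so `z` is algebraically independent over `k1 = B(e)`; `K :=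
adjoin k1 (range z)`, `M1` is finite over `K` (`fin_iff_ind` in R/A8.lean). `K → A` over `k1`, `z ↦ u` (private lemma `A5_iso` in N/A5.lean, copy
it), `N → K` the inclusion, `N → A` the composition (image in `adjoin B (range u)`: `Sp.restrict`). `K = N(e)` as `k1 = B(e)`. The `τ` with `τ z = u`
are the `K`-algebra homomorphisms (see `card_emb` in N/A5.lean). `σ` is over `N` (two ring homomorphisms on `N` which agree on `B` and
on `z`). Apply `place_spec` (and `count_place` for `DV P`). -/
theorem place_spec_z (e : k1) (hB : adjoin B {e} = ⊤) {n : ℕ} (u : Fin n → A)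
    (hu : AlgebraicIndependent k1 u) (W : Valuation A ℝ≥0) (lam : A → A)
    (hS : Sp (adjoin B (Set.range u)) W (algebraMap k1 A e) lam)
    (hfg : ∃ z0 : Fin n → M1, AlgebraicIndependent k1 z0 ∧
      Module.finrank (adjoin k1 (Set.range z0)) M1 ≠ 0)
    (z : Fin n → M1) (P : ValuationSubring M1) (hc : Cst B P)
    (he : P.valuation (algebraMap k1 M1 e) < 1) (hz : ∀ i, z i ∈ P)
    (σ : IsLocalRing.ResidueField P →+* A) (hσ : ∀ b, σ (rc hc b) = algebraMap B A b)
    (hσz : ∀ i, σ (IsLocalRing.residue P ⟨z i, hz i⟩) = u i) :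
    DV P ∧ Nat.card {τ : M1 →ₐ[k1] A // (∀ i, τ (z i) = u i) ∧
      ∀ m : P, W (τ m) ≤ 1 ∧ lam (τ m) = σ (IsLocalRing.residue P m)} =
      (ord P (algebraMap k1 M1 e)).toNat := by
  classical
  let _ : Algebra B (IsLocalRing.ResidueField P) := (rc hc).toAlgebra
  have huB : AlgebraicIndependent B u :=
    hu.restrictScalars (algebraMap B k1).injective
  let σ' : IsLocalRing.ResidueField P →ₐ[B] A := { σ with commutes' := hσ }
  have hres : AlgebraicIndependent B (fun i => IsLocalRing.residue P ⟨z i, hz i⟩) := by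
    refine AlgebraicIndependent.of_comp σ' ?_
    have h1 : σ' ∘ (fun i => IsLocalRing.residue P ⟨z i, hz i⟩) = u := funext hσz
    rw [h1]
    exact huB
  have hsmall := adj_small hc (fun i => (⟨z i, hz i⟩ : P)) hres
  have hzB : AlgebraicIndependent B z := indep_lift hc (fun i => (⟨z i, hz i⟩ : P)) hres
  have he0 : algebraMap k1 M1 e ≠ 0 := by
    intro h0
    have h1 : e = 0 := (map_eq_zero _).1 h0
    apply hS.ne
    rw [h1, map_zero]
  have htr : Transcendental (Algebra.adjoin B (Set.range z)) (algebraMap k1 M1 e) :=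
    transc_adj _ hsmall _ he0 he
  -- `z` is algebraically independent over `k1`
  have hzk : AlgebraicIndependent k1 z := by
    have h1 : AlgebraicIndependent B (Sum.elim (fun _ : Unit => algebraMap k1 M1 e) z) :=
      AlgebraicIndependent.sumElim_iff.2 ⟨hzB, algebraicIndependent_unique_type_iff.2 htr⟩
    have h2 : AlgebraicIndependent B (Sum.elim z (fun _ : Unit => algebraMap k1 M1 e)) := by
      have h3 := h1.comp Sum.swap Sum.swap_leftInverse.injective
      have h4 : Sum.elim (fun _ : Unit => algebraMap k1 M1 e) z ∘ Sum.swap =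
          Sum.elim z (fun _ : Unit => algebraMap k1 M1 e) := by
        funext s
        cases s <;> rfl
      rw [h4] at h3
      exact h3
    have h3 := (AlgebraicIndependent.sumElim_iff.1 h2).2
    rw [Set.range_const] at h3
    have h4 : AlgebraicIndependent (adjoin B {algebraMap k1 M1 e}) z :=
      IntermediateField.algebraicIndependent_adjoin_iff.2 h3
    have hmem : ∀ c : k1, algebraMap k1 M1 c ∈ adjoin B {algebraMap k1 M1 e} := by
      intro c
      have hc : c ∈ adjoin B {e} := by rw [hB]; exact mem_top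
      have h5 : (IsScalarTower.toAlgHom B k1 M1) c ∈
          (adjoin B {e}).map (IsScalarTower.toAlgHom B k1 M1) := ⟨c, hc, rfl⟩
      rw [adjoin_map, Set.image_singleton] at h5
      exact h5
    let f : k1 →+* adjoin B {algebraMap k1 M1 e} :=
      (algebraMap k1 M1).codRestrict (adjoin B {algebraMap k1 M1 e}).toSubfield hmem
    exact AlgebraicIndependent.of_ringHom_of_comp_eq (S := adjoin B {algebraMap k1 M1 e})
      f (RingHom.id M1) h4 f.injective (by ext c; rfl)
  obtain ⟨z0, hz0, hf0⟩ := hfg
  have hfin := (fin_iff_ind z0 z hz0 hf0).1 hzk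
  obtain ⟨j, hj⟩ := S8_iso u hu z hzk
  have hcN : ∀ x ∈ adjoin B (Set.range z), x ∈ P := by
    intro x hx
    obtain ⟨r, hr, s, hs, rfl⟩ := mem_adjoin_iff_div.1 hx
    by_cases hs0 : s = 0
    · rw [hs0, div_zero]
      exact P.zero_mem
    · have h1 : P.valuation s = 1 := by
        refine le_antisymm ((P.valuation_le_one_iff _).2 (hsmall s hs).1) ?_
        exact not_lt.1 fun h2 => hs0 ((hsmall s hs).2 h2)
      rw [← P.valuation_le_one_iff, map_div₀, h1, div_one]
      exact (P.valuation_le_one_iff _).2 (hsmall r hr).1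
  obtain ⟨hDV, hmain⟩ := S8_main e hB u W lam hS z hfin j hj P hcN he
  refine ⟨hDV, hmain σ ?_⟩
  -- two homomorphisms on the field generated by `z` over `B`
  intro b hb
  let f1 : adjoin B (Set.range z) →ₐ[B] A :=
    { toFun := fun b => σ (IsLocalRing.residue P ⟨b, hcN b b.2⟩)
      map_one' := by
        have h : (⟨((1 : adjoin B (Set.range z)) : M1), hcN _ (1 : adjoin B (Set.range z)).2⟩ : P)
          = 1 := rfl
        rw [h, map_one, map_one]
      map_mul' := fun x y => by
        have h : (⟨((x * y : adjoin B (Set.range z)) : M1), hcN _ (x * y).2⟩ : P)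
          = ⟨x, hcN _ x.2⟩ * ⟨y, hcN _ y.2⟩ := rfl
        rw [h, map_mul, map_mul]
      map_zero' := by
        have h : (⟨((0 : adjoin B (Set.range z)) : M1), hcN _ (0 : adjoin B (Set.range z)).2⟩ : P)
          = 0 := rfl
        rw [h, map_zero, map_zero]
      map_add' := fun x y => by
        have h : (⟨((x + y : adjoin B (Set.range z)) : M1), hcN _ (x + y).2⟩ : P)
          = ⟨x, hcN _ x.2⟩ + ⟨y, hcN _ y.2⟩ := rfl
        rw [h, map_add, map_add]
      commutes' := fun b => hσ b }
  let f2 : adjoin B (Set.range z) →ₐ[B] A :=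
    { toFun := fun b => j ⟨(b : M1), S8_sub (b : M1) b.2⟩
      map_one' := map_one j
      map_mul' := fun x y => map_mul j ⟨(x : M1), S8_sub (x : M1) x.2⟩ ⟨(y : M1), S8_sub (y : M1) y.2⟩
      map_zero' := map_zero j
      map_add' := fun x y => map_add j ⟨(x : M1), S8_sub (x : M1) x.2⟩ ⟨(y : M1), S8_sub (y : M1) y.2⟩
      commutes' := fun b => by
        have h1 : (⟨((algebraMap B (adjoin B (Set.range z)) b : adjoin B (Set.range z)) : M1),
            S8_sub _ (algebraMap B (adjoin B (Set.range z)) b).2⟩ :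
            adjoin k1 (Set.range z)) = algebraMap k1 _ (algebraMap B k1 b) := by
          apply Subtype.ext
          show algebraMap B M1 b = algebraMap k1 M1 (algebraMap B k1 b)
          rw [← IsScalarTower.algebraMap_apply]
        rw [h1, j.commutes, ← IsScalarTower.algebraMap_apply] }
  have h12 : f1 = f2 := by
    refine algHom_ext_of_eq_adjoin B rfl ?_
    rintro _ ⟨i, rfl⟩
    show σ (IsLocalRing.residue P ⟨z i, _⟩) = j ⟨z i, _⟩
    rw [hj i]
    exact hσz i
  exact DFunLike.congr_fun h12 ⟨b, hb⟩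

/-- The valuation ring of an embedding `τ` with `τ z = u` is a discrete valuation ring: with `N`, `K` as before (`z` is algebraically
independent over `k1` since `τ z = u` is; `K → A` is `τ`), `Cst N P`: `τ b ∈ adjoin B (range u)` for `b ∈ N` (`Sp.le_one`). `count_place`. -/
theorem place_dv (e : k1) (hB : adjoin B {e} = ⊤) {n : ℕ} (u : Fin n → A)
    (hu : AlgebraicIndependent k1 u) (W : Valuation A ℝ≥0) (lam : A → A)
    (hS : Sp (adjoin B (Set.range u)) W (algebraMap k1 A e) lam)
    (hfg : ∃ z0 : Fin n → M1, AlgebraicIndependent k1 z0 ∧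
      Module.finrank (adjoin k1 (Set.range z0)) M1 ≠ 0)
    (z : Fin n → M1) (τ : M1 →ₐ[k1] A) (hτ : ∀ i, τ (z i) = u i) (P : ValuationSubring M1)
    (hP : ∀ m : M1, W (τ m) ≤ 1 ↔ m ∈ P) : DV P := by
  have hzk : AlgebraicIndependent k1 z := by
    refine AlgebraicIndependent.of_comp τ ?_
    have h1 : τ ∘ z = u := funext hτ
    rw [h1]
    exact hu
  obtain ⟨z0, hz0, hf0⟩ := hfg
  have hfin := (fin_iff_ind z0 z hz0 hf0).1 hzk
  have hmem : ∀ x ∈ adjoin B (Set.range z), τ x ∈ adjoin B (Set.range u) := by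
    intro x hx
    have h1 : (τ.restrictScalars B) x ∈ (adjoin B (Set.range z)).map (τ.restrictScalars B) :=
      ⟨x, hx, rfl⟩
    rw [adjoin_map, ← Set.range_comp] at h1
    have h2 : (τ.restrictScalars B) ∘ z = u := funext hτ
    rw [h2] at h1
    exact h1
  have hcN : ∀ x ∈ adjoin B (Set.range z), x ∈ P := by
    intro x hx
    rw [← hP]
    exact hS.le_one ⟨τ x, hmem x hx⟩
  have he : P.valuation (algebraMap k1 M1 e) < 1 := by
    have h1 : W (τ (algebraMap k1 M1 e)) < 1 := by
      rw [τ.commutes]
      exact hS.pos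
    have h2 : algebraMap k1 M1 e ∈ P := (hP _).1 h1.le
    refine lt_of_le_of_ne ((P.valuation_le_one_iff _).2 h2) fun h3 => ?_
    have h4 : (algebraMap k1 M1 e)⁻¹ ∈ P := by
      rw [← P.valuation_le_one_iff, map_inv₀, h3, inv_one]
    have h5 := (hP _).2 h4
    rw [map_inv₀, map_inv₀] at h5
    have h6 : W (τ (algebraMap k1 M1 e)) ≠ 0 := by
      rw [Valuation.ne_zero_iff, τ.commutes]
      exact hS.ne
    exact absurd ((inv_le_one₀ (zero_lt_iff.2 h6)).1 h5) (not_le.2 h1)
  exact (S8_main e hB u W lam hS z hfin (τ.comp (adjoin k1 (Set.range z)).val) hτ P hcN he).1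

end MP2619.Q5
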